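import Pool.Agent.P.MP_5d580a_an.StdA

open scoped ComplexOrder InnerProductSpace ComplexConjugate BoundedContinuousFunction
open MeasureTheory Filter Topology

set_option linter.unusedSectionVars false
set_option linter.unusedVariables false

noncomputable section

namespace Pool.Agent.P.MP_5d580a_an

variable {H : Type} [NormedAddCommGroup H] [InnerProductSpace ℂ H] [CompleteSpace H]

variable {ι : Type} [Fintype ι] [DecidableEq ι] {M : VonNeumannAlgebra H} {J : H ≃ₗᵢ⋆[ℂ] H}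

theorem prj_apply (i j : ι) (ξ : HM ι H) : prj i j ξ = ξ (i, j) := rfl

theorem hm_ext {ξ η : HM ι H} (h : ∀ i j, prj i j ξ = prj i j η) : ξ = η := by
  ext p
  exact h p.1 p.2

theorem amp_inner (ξ η : HM ι H) : ⟪ξ, η⟫_ℂ = ∑ i, ∑ j, ⟪prj i j ξ, prj i j η⟫_ℂ := by
  rw [PiLp.inner_apply, Fintype.sum_prod_type]
  rfl

theorem amp_inner_inj (i j : ι) (ξ : H) (η : HM ι H) :
    ⟪inj i j ξ, η⟫_ℂ = ⟪ξ, prj i j η⟫_ℂ := by
  unfold inj
  rw [ContinuousLinearMap.adjoint_inner_left]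

theorem amp_inj_eq (k l : ι) (ξ : H) :
    (inj k l ξ : HM ι H) = WithLp.toLp 2 fun p => if p.1 = k ∧ p.2 = l then ξ else 0 := by
  apply ext_inner_right ℂ
  intro η
  rw [amp_inner_inj, amp_inner]
  simp only [prj_apply]
  rw [Finset.sum_eq_single k, Finset.sum_eq_single l]
  · simp
  · intro j _ hj
    simp [hj]
  · simp
  · intro i _ hi
    simp [hi]
  · simp

theorem prj_inj (i j k l : ι) (ξ : H) :
    prj i j (inj k l ξ : HM ι H) = if i = k ∧ j = l then ξ else 0 := by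
  rw [amp_inj_eq]
  rfl

theorem inner_inj (i j : ι) (ξ : H) (η : HM ι H) : ⟪inj i j ξ, η⟫_ℂ = ⟪ξ, prj i j η⟫_ℂ :=
  amp_inner_inj i j ξ η

theorem norm_inj (i j : ι) (ξ : H) : ‖(inj i j ξ : HM ι H)‖ = ‖ξ‖ := by
  have h : ⟪(inj i j ξ : HM ι H), inj i j ξ⟫_ℂ = ⟪ξ, ξ⟫_ℂ := by
    rw [inner_inj, prj_inj]
    simp
  rw [@norm_eq_sqrt_re_inner ℂ, @norm_eq_sqrt_re_inner ℂ _ _ _ _ ξ, h]

theorem amp_prj_sum2 (f : ι → ι → H) (i j : ι) :
    prj i j (∑ k, ∑ l, (inj k l (f k l) : HM ι H)) = f i j := by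
  simp only [map_sum, prj_inj]
  rw [Finset.sum_eq_single i, Finset.sum_eq_single j]
  · simp
  · intro l _ hl
    simp [Ne.symm hl]
  · simp
  · intro k _ hk
    simp [Ne.symm hk]
  · simp

theorem sum_inj_prj (ξ : HM ι H) : ∑ i, ∑ j, inj i j (prj i j ξ) = ξ :=
  hm_ext fun i j => amp_prj_sum2 (fun k l => prj k l ξ) i j

theorem hm_norm_sq (ξ : HM ι H) : ‖ξ‖ ^ 2 = ∑ i, ∑ j, ‖prj i j ξ‖ ^ 2 := by
  rw [PiLp.norm_sq_eq_of_L2, Fintype.sum_prod_type]
  rfl

theorem hm_inner (ξ η : HM ι H) : ⟪ξ, η⟫_ℂ = ∑ i, ∑ j, ⟪prj i j ξ, prj i j η⟫_ℂ := amp_inner ξ η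

theorem prj_mat (a : ι → ι → (H →L[ℂ] H)) (ξ : HM ι H) (i j : ι) :
    prj i j (mat a ξ) = ∑ k, a i k (prj k j ξ) := by
  have : mat a ξ = ∑ k, ∑ l, (inj k l (∑ m, a k m (prj m l ξ)) : HM ι H) := by
    simp only [mat, sum_apply, ContinuousLinearMap.comp_apply, map_sum]
  rw [this, amp_prj_sum2]

theorem prj_rmat (y : ι → ι → (H →L[ℂ] H)) (ξ : HM ι H) (i j : ι) :
    prj i j (rmat y ξ) = ∑ k, y j k (prj i k ξ) := by
  have : rmat y ξ = ∑ k, ∑ l, (inj k l (∑ m, y l m (prj k m ξ)) : HM ι H) := by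
    simp only [rmat, sum_apply, ContinuousLinearMap.comp_apply, map_sum]
  rw [this, amp_prj_sum2]

theorem amp_op_ext {X Y : HM ι H →L[ℂ] HM ι H} (h : ∀ ξ i j, prj i j (X ξ) = prj i j (Y ξ)) :
    X = Y :=
  ContinuousLinearMap.ext fun ξ => hm_ext (h ξ)

theorem mat_mul (a b : ι → ι → (H →L[ℂ] H)) :
    mat a * mat b = mat fun i j => ∑ k, a i k * b k j := by
  refine amp_op_ext fun ξ i j => ?_
  rw [mul_apply_eq_comp]
  simp only [prj_mat, map_sum, sum_apply, mul_apply_eq_comp]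
  exact Finset.sum_comm

theorem rmat_mul (a b : ι → ι → (H →L[ℂ] H)) :
    rmat a * rmat b = rmat fun i j => ∑ k, a i k * b k j := by
  refine amp_op_ext fun ξ i j => ?_
  rw [mul_apply_eq_comp]
  simp only [prj_rmat, map_sum, sum_apply, mul_apply_eq_comp]
  exact Finset.sum_comm

theorem star_mat (a : ι → ι → (H →L[ℂ] H)) : star (mat a) = mat fun i j => star (a j i) := by
  refine ContinuousLinearMap.ext fun ξ => ext_inner_left ℂ fun η => ?_
  rw [inner_star_right, hm_inner, hm_inner]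
  simp only [prj_mat, sum_inner, inner_sum, inner_star_right]
  rw [Finset.sum_comm]
  conv_rhs => rw [Finset.sum_comm]
  refine Finset.sum_congr rfl fun j _ => ?_
  exact Finset.sum_comm

theorem star_rmat (a : ι → ι → (H →L[ℂ] H)) : star (rmat a) = rmat fun i j => star (a j i) := by
  refine ContinuousLinearMap.ext fun ξ => ext_inner_left ℂ fun η => ?_
  rw [inner_star_right, hm_inner, hm_inner]
  simp only [prj_rmat, sum_inner, inner_sum, inner_star_right]
  refine Finset.sum_congr rfl fun j _ => ?_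
  exact Finset.sum_comm

theorem mat_add (a b : ι → ι → (H →L[ℂ] H)) :
    mat (fun i j => a i j + b i j) = mat a + mat b := by
  refine amp_op_ext fun ξ i j => ?_
  rw [add_apply, map_add]
  simp only [prj_mat, add_apply, Finset.sum_add_distrib]

theorem mat_sub (a b : ι → ι → (H →L[ℂ] H)) :
    mat (fun i j => a i j - b i j) = mat a - mat b := by
  refine amp_op_ext fun ξ i j => ?_
  rw [sub_apply, map_sub]
  simp only [prj_mat, sub_apply, Finset.sum_sub_distrib]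

theorem mat_smul (c : ℂ) (a : ι → ι → (H →L[ℂ] H)) :
    mat (fun i j => c • a i j) = c • mat a := by
  refine amp_op_ext fun ξ i j => ?_
  rw [smul_apply, map_smul]
  simp only [prj_mat, smul_apply, Finset.smul_sum]

theorem mat_zero : mat (fun _ _ : ι => (0 : H →L[ℂ] H)) = 0 := by
  refine amp_op_ext fun ξ i j => ?_
  simp [prj_mat]

theorem amp_prj_mat_diag (z : H →L[ℂ] H) (ξ : HM ι H) (i j : ι) :
    prj i j (mat (fun i j : ι => if i = j then z else 0) ξ) = z (prj i j ξ) := by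
  rw [prj_mat, Finset.sum_eq_single i]
  · simp
  · intro k _ hk
    simp [Ne.symm hk]
  · simp

theorem amp_prj_rmat_diag (z : H →L[ℂ] H) (ξ : HM ι H) (i j : ι) :
    prj i j (rmat (fun i j : ι => if i = j then z else 0) ξ) = z (prj i j ξ) := by
  rw [prj_rmat, Finset.sum_eq_single j]
  · simp
  · intro k _ hk
    simp [Ne.symm hk]
  · simp

theorem mat_one : mat (fun i j : ι => if i = j then (1 : H →L[ℂ] H) else 0) = 1 :=
  amp_op_ext fun ξ i j => amp_prj_mat_diag 1 ξ i j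

theorem rmat_one : rmat (fun i j : ι => if i = j then (1 : H →L[ℂ] H) else 0) = 1 :=
  amp_op_ext fun ξ i j => amp_prj_rmat_diag 1 ξ i j

theorem amp_mat_entry (a : ι → ι → (H →L[ℂ] H)) (i k l : ι) (ξ : H) :
    prj i l (mat a (inj k l ξ)) = a i k ξ := by
  rw [prj_mat, Finset.sum_eq_single k]
  · simp [prj_inj]
  · intro m _ hm
    simp [prj_inj, hm]
  · simp

theorem amp_rmat_entry (a : ι → ι → (H →L[ℂ] H)) (i k l : ι) (ξ : H) :
    prj l i (rmat a (inj l k ξ)) = a i k ξ := by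
  rw [prj_rmat, Finset.sum_eq_single k]
  · simp [prj_inj]
  · intro m _ hm
    simp [prj_inj, hm]
  · simp

theorem mat_injective {a b : ι → ι → (H →L[ℂ] H)} (h : mat a = mat b) : a = b := by
  funext i k
  refine ContinuousLinearMap.ext fun ξ => ?_
  rw [← amp_mat_entry a i k i ξ, h, amp_mat_entry]

theorem rmat_injective {a b : ι → ι → (H →L[ℂ] H)} (h : rmat a = rmat b) : a = b := by
  funext i k
  refine ContinuousLinearMap.ext fun ξ => ?_
  rw [← amp_rmat_entry a i k i ξ, h, amp_rmat_entry]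

theorem amp_norm_diag {X : HM ι H →L[ℂ] HM ι H} {z : H →L[ℂ] H}
    (h : ∀ ξ i j, prj i j (X ξ) = z (prj i j ξ)) : ‖X‖ ≤ ‖z‖ := by
  refine ContinuousLinearMap.opNorm_le_bound _ (norm_nonneg z) fun ξ => ?_
  refine abs_le_of_sq_le_sq' ?_ (by positivity) |>.2
  rw [mul_pow, hm_norm_sq, hm_norm_sq, Finset.mul_sum]
  refine Finset.sum_le_sum fun i _ => ?_
  rw [Finset.mul_sum]
  refine Finset.sum_le_sum fun j _ => ?_
  rw [h, ← mul_pow]
  exact pow_le_pow_left₀ (norm_nonneg _) (z.le_opNorm _) 2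

theorem norm_mat_diag (z : H →L[ℂ] H) : ‖mat fun i j : ι => if i = j then z else 0‖ ≤ ‖z‖ :=
  amp_norm_diag (amp_prj_mat_diag z)

theorem norm_rmat_diag (z : H →L[ℂ] H) : ‖rmat fun i j : ι => if i = j then z else 0‖ ≤ ‖z‖ :=
  amp_norm_diag (amp_prj_rmat_diag z)

theorem amp_prj_col (ξ : ι → H) (l i j : ι) :
    prj i j (∑ k, (inj k l (ξ k) : HM ι H)) = if j = l then ξ i else 0 := by
  simp only [map_sum, prj_inj]
  rw [Finset.sum_eq_single i]
  · simp
  · intro k _ hk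
    simp [Ne.symm hk]
  · simp

theorem amp_prj_row (ξ : ι → H) (l i j : ι) :
    prj i j (∑ k, (inj l k (ξ k) : HM ι H)) = if i = l then ξ j else 0 := by
  simp only [map_sum, prj_inj]
  rw [Finset.sum_eq_single j]
  · simp
  · intro k _ hk
    simp [Ne.symm hk]
  · simp

theorem amp_norm_col (ξ : ι → H) (l : ι) :
    ‖∑ k, (inj k l (ξ k) : HM ι H)‖ = √(∑ i, ‖ξ i‖ ^ 2) := by
  rw [← Real.sqrt_sq (norm_nonneg _), hm_norm_sq]
  congr 1
  refine Finset.sum_congr rfl fun i _ => ?_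
  simp only [amp_prj_col]
  rw [Finset.sum_eq_single l]
  · simp
  · intro k _ hk
    simp [hk]
  · simp

theorem mat_bound (a : ι → ι → (H →L[ℂ] H)) (ξ η : ι → H) :
    ‖∑ i, ∑ j, ⟪η i, a i j (ξ j)⟫_ℂ‖ ≤ ‖mat a‖ * √(∑ i, ‖η i‖ ^ 2) * √(∑ j, ‖ξ j‖ ^ 2) := by
  rcases isEmpty_or_nonempty ι with hι | ⟨⟨l⟩⟩
  · simp
  have h1 : ∑ i, ∑ j, ⟪η i, a i j (ξ j)⟫_ℂ =
      ⟪∑ k, (inj k l (η k) : HM ι H), mat a (∑ k, (inj k l (ξ k) : HM ι H))⟫_ℂ := by
    rw [sum_inner]
    refine Finset.sum_congr rfl fun i _ => ?_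
    rw [inner_inj, prj_mat, inner_sum]
    refine Finset.sum_congr rfl fun j _ => ?_
    rw [amp_prj_col, if_pos rfl]
  rw [h1, ← amp_norm_col η l, ← amp_norm_col ξ l]
  refine (norm_inner_le_norm _ _).trans ?_
  have := (mat a).le_opNorm (∑ k, (inj k l (ξ k) : HM ι H))
  calc _ ≤ ‖∑ k, (inj k l (η k) : HM ι H)‖ * (‖mat a‖ * ‖∑ k, (inj k l (ξ k) : HM ι H)‖) := by
        gcongr
    _ = _ := by ring

theorem amp_comm {a y : ι → ι → (H →L[ℂ] H)} (ha : ∀ i k, a i k ∈ M)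
    (hy : ∀ j k, y j k ∈ M.commutant) : mat a * rmat y = rmat y * mat a := by
  refine amp_op_ext fun ξ i j => ?_
  rw [mul_apply_eq_comp, mul_apply_eq_comp]
  simp only [prj_mat, prj_rmat, map_sum]
  rw [Finset.sum_comm]
  refine Finset.sum_congr rfl fun k _ => Finset.sum_congr rfl fun l _ => ?_
  exact commute_apply (ha _ _) (hy _ _) _

/-- matrix with the single entry `z` -/
def ampUnit (j l : ι) (z : H →L[ℂ] H) : ι → ι → (H →L[ℂ] H) :=
  fun p q => if p = j ∧ q = l then z else 0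

theorem ampUnit_mem {N : VonNeumannAlgebra H} (j l : ι) {z : H →L[ℂ] H} (hz : z ∈ N) (p q : ι) :
    ampUnit j l z p q ∈ N := by
  unfold ampUnit
  split_ifs
  · exact hz
  · exact zero_mem _

theorem amp_diag_mem {N : VonNeumannAlgebra H} {z : H →L[ℂ] H} (hz : z ∈ N) (p q : ι) :
    (if p = q then z else 0) ∈ N := by
  split_ifs
  · exact hz
  · exact zero_mem _

theorem amp_rmat_unit (j l : ι) (z : H →L[ℂ] H) (ξ : HM ι H) :
    rmat (ampUnit j l z) ξ = ∑ k, inj k j (z (prj k l ξ)) := by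
  refine hm_ext fun p q => ?_
  rw [prj_rmat, amp_prj_col (fun k => z (prj k l ξ)), Finset.sum_eq_single l]
  · unfold ampUnit
    by_cases h : q = j <;> simp [h]
  · intro k _ hk
    simp [ampUnit, hk]
  · simp

theorem amp_mat_unit (j l : ι) (z : H →L[ℂ] H) (ξ : HM ι H) :
    mat (ampUnit j l z) ξ = ∑ k, inj j k (z (prj l k ξ)) := by
  refine hm_ext fun p q => ?_
  rw [prj_mat, amp_prj_row (fun k => z (prj l k ξ)), Finset.sum_eq_single l]
  · unfold ampUnit
    by_cases h : p = j <;> simp [h]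
  · intro k _ hk
    simp [ampUnit, hk]
  · simp

theorem amp_diag_inj {X : HM ι H →L[ℂ] HM ι H} {z : H →L[ℂ] H}
    (h : ∀ ξ i j, prj i j (X ξ) = z (prj i j ξ)) (k l : ι) (ξ : H) :
    X (inj k l ξ) = inj k l (z ξ) := by
  refine hm_ext fun i j => ?_
  rw [h, prj_inj, prj_inj]
  split_ifs <;> simp

theorem mem_amp {X : HM ι H →L[ℂ] HM ι H} :
    X ∈ amp ι M ↔ ∃ a : ι → ι → (H →L[ℂ] H), (∀ i k, a i k ∈ M) ∧ X = mat a := by
  unfold amp
  rw [mem_vnOf]
  constructor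
  · intro h
    have hc : ∀ y : ι → ι → (H →L[ℂ] H), (∀ j k, y j k ∈ M.commutant) → ∀ ξ,
        rmat y (X ξ) = X (rmat y ξ) := fun y hy ξ => by
      have := (h _ ⟨y, hy, rfl⟩).1
      rw [← mul_apply_eq_comp, this, mul_apply_eq_comp]
    refine ⟨fun i k => (prj i i).comp (X.comp (inj k i)), fun i k => ?_, ?_⟩
    · refine mem_of_commute fun y hy => ContinuousLinearMap.ext fun ξ => ?_
      simp only [mul_apply_eq_comp, ContinuousLinearMap.comp_apply]
      rw [← amp_prj_rmat_diag y, hc _ (amp_diag_mem hy), amp_diag_inj (amp_prj_rmat_diag y)]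
    · refine amp_op_ext fun ξ i j => ?_
      have h1 := congrArg (prj i i) (hc _ (ampUnit_mem i j (one_mem M.commutant)) ξ)
      rw [amp_rmat_unit, amp_rmat_unit, amp_prj_col (fun k => (1 : H →L[ℂ] H) (prj k j (X ξ))),
        if_pos rfl] at h1
      rw [prj_mat]
      simpa only [map_sum, one_apply_eq_self, ContinuousLinearMap.comp_apply] using h1
  · rintro ⟨a, ha, rfl⟩ _ ⟨y, hy, rfl⟩
    refine ⟨(amp_comm ha hy).symm, ?_⟩
    rw [star_rmat]
    exact (amp_comm ha fun j k => star_mem (hy k j)).symm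

theorem amp_mat_mem {a : ι → ι → (H →L[ℂ] H)} (ha : ∀ i k, a i k ∈ M) : mat a ∈ amp ι M :=
  mem_amp.2 ⟨a, ha, rfl⟩

theorem mem_amp_commutant {Y : HM ι H →L[ℂ] HM ι H} :
    Y ∈ (amp ι M).commutant ↔
      ∃ y : ι → ι → (H →L[ℂ] H), (∀ j k, y j k ∈ M.commutant) ∧ Y = rmat y := by
  rw [VonNeumannAlgebra.mem_commutant_iff]
  constructor
  · intro h
    have hc : ∀ a : ι → ι → (H →L[ℂ] H), (∀ j k, a j k ∈ M) → ∀ ξ,
        mat a (Y ξ) = Y (mat a ξ) := fun a ha ξ => by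
      have := h _ (amp_mat_mem ha)
      rw [← mul_apply_eq_comp, this, mul_apply_eq_comp]
    refine ⟨fun j l => (prj j j).comp (Y.comp (inj j l)), fun i k => ?_, ?_⟩
    · rw [VonNeumannAlgebra.mem_commutant_iff]
      intro y hy
      refine ContinuousLinearMap.ext fun ξ => ?_
      simp only [mul_apply_eq_comp, ContinuousLinearMap.comp_apply]
      rw [← amp_prj_mat_diag y, hc _ (amp_diag_mem hy), amp_diag_inj (amp_prj_mat_diag y)]
    · refine amp_op_ext fun ξ i j => ?_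
      have h1 := congrArg (prj j j) (hc _ (ampUnit_mem j i (one_mem M)) ξ)
      rw [amp_mat_unit, amp_mat_unit, amp_prj_row (fun k => (1 : H →L[ℂ] H) (prj i k (Y ξ))),
        if_pos rfl] at h1
      rw [prj_rmat]
      simpa only [map_sum, one_apply_eq_self, ContinuousLinearMap.comp_apply] using h1
  · rintro ⟨y, hy, rfl⟩ X hX
    obtain ⟨a, ha, rfl⟩ := mem_amp.1 hX
    exact amp_comm ha hy

theorem prj_ampJ (ξ : HM ι H) (i j : ι) : prj i j (ampJ ι J ξ) = J (prj j i ξ) := rfl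

theorem rm_mat (a : ι → ι → (H →L[ℂ] H)) :
    rm (ampJ ι J) (mat a) = rmat fun j k => rm J (a k j) := by
  refine amp_op_ext fun ξ i j => ?_
  rw [rm_apply, prj_ampJ, star_mat, prj_mat, prj_rmat, map_sum]
  refine Finset.sum_congr rfl fun k _ => ?_
  rw [prj_ampJ, rm_apply]

theorem amp_rm_rmat (a : ι → ι → (H →L[ℂ] H)) :
    rm (ampJ ι J) (rmat a) = mat fun j k => rm J (a k j) := by
  refine amp_op_ext fun ξ i j => ?_
  rw [rm_apply, prj_ampJ, star_rmat, prj_mat, prj_rmat, map_sum]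
  refine Finset.sum_congr rfl fun k _ => ?_
  rw [prj_ampJ, rm_apply]

theorem prj_dvec (ζ : ι → H) (i j : ι) : prj i j (dvec ζ) = if i = j then ζ i else 0 := by
  unfold dvec
  simp only [map_sum, prj_inj]
  rw [Finset.sum_eq_single i]
  · by_cases h : i = j
    · simp [h]
    · simp [h, Ne.symm h]
  · intro k _ hk
    simp [Ne.symm hk]
  · simp

theorem norm_dvec_sq (ζ : ι → H) : ‖dvec ζ‖ ^ 2 = ∑ i, ‖ζ i‖ ^ 2 := by
  rw [hm_norm_sq]
  refine Finset.sum_congr rfl fun i _ => ?_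
  simp only [prj_dvec]
  rw [Finset.sum_eq_single i]
  · simp
  · intro k _ hk
    simp [Ne.symm hk]
  · simp

theorem prj_mat_dvec (a : ι → ι → (H →L[ℂ] H)) (ζ : ι → H) (i j : ι) :
    prj i j (mat a (dvec ζ)) = a i j (ζ j) := by
  rw [prj_mat, Finset.sum_eq_single j]
  · simp [prj_dvec]
  · intro k _ hk
    simp [prj_dvec, hk]
  · simp

theorem prj_rmat_dvec (y : ι → ι → (H →L[ℂ] H)) (ζ : ι → H) (i j : ι) :
    prj i j (rmat y (dvec ζ)) = y j i (ζ i) := by
  rw [prj_rmat, Finset.sum_eq_single i]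
  · simp [prj_dvec]
  · intro k _ hk
    simp [prj_dvec, Ne.symm hk]
  · simp

theorem prj_rm_mat_dvec (a : ι → ι → (H →L[ℂ] H)) (ζ : ι → H) (i j : ι) :
    prj i j (rm (ampJ ι J) (mat a) (dvec ζ)) = rm J (a i j) (ζ i) := by
  rw [rm_mat, prj_rmat_dvec]

theorem ampJ_dvec {ζ : ι → H} (h : ∀ i, J (ζ i) = ζ i) : ampJ ι J (dvec ζ) = dvec ζ := by
  refine hm_ext fun i j => ?_
  rw [prj_ampJ, prj_dvec, prj_dvec]
  by_cases hij : i = j
  · subst hij
    simp [h]
  · simp [hij, Ne.symm hij]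

theorem stdJ_amp (h : StdJ M J) : StdJ (amp ι M) (ampJ ι J) := by
  refine ⟨fun ξ => hm_ext fun i j => ?_, fun X hX => ?_, fun Y hY => ?_⟩
  · rw [prj_ampJ, prj_ampJ, h.invol]
  · obtain ⟨a, ha, rfl⟩ := mem_amp.1 hX
    rw [rm_mat]
    exact mem_amp_commutant.2 ⟨_, fun j k => h.mem _ (ha k j), rfl⟩
  · obtain ⟨y, hy, rfl⟩ := mem_amp_commutant.1 hY
    rw [amp_rm_rmat]
    exact amp_mat_mem fun j k => h.mem' _ (hy k j)

theorem isFactor_amp (h : IsFactor M) : IsFactor (amp ι M) := by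
  intro X hX Y hY h0
  obtain ⟨a, ha, rfl⟩ := mem_amp.1 hX
  obtain ⟨b, hb, rfl⟩ := mem_amp.1 hY
  by_contra hne
  rw [not_or] at hne
  have ea : ∃ i j, a i j ≠ 0 := by
    by_contra h1
    push Not at h1
    apply hne.1
    rw [← mat_zero]
    congr 1
    funext i j
    exact h1 i j
  have eb : ∃ i j, b i j ≠ 0 := by
    by_contra h1
    push Not at h1
    apply hne.2
    rw [← mat_zero]
    congr 1
    funext i j
    exact h1 i j
  obtain ⟨i, j, hij⟩ := ea
  obtain ⟨k, l, hkl⟩ := eb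
  have key : ∀ c ∈ M, a i j * c * b k l = 0 := by
    intro c hc
    refine ContinuousLinearMap.ext fun ξ => ?_
    have h1 := congrArg (fun T : HM ι H →L[ℂ] HM ι H => prj i l (T (inj l l ξ)))
      (h0 _ (amp_mat_mem (ampUnit_mem j k hc)))
    simp only [mul_apply_eq_comp, zero_apply, map_zero] at h1
    rw [prj_mat, amp_mat_unit, Finset.sum_eq_single j] at h1
    · rw [amp_prj_row (fun m => c (prj k m (mat b (inj l l ξ)))), if_pos rfl,
        amp_mat_entry] at h1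
      simpa only [mul_apply_eq_comp, zero_apply] using h1
    · intro m _ hm
      rw [amp_prj_row (fun m => c (prj k m (mat b (inj l l ξ)))), if_neg hm, map_zero]
    · simp
  rcases h _ (ha i j) _ (hb k l) key with h1 | h1
  · exact hij h1
  · exact hkl h1

theorem cyc_amp {ζ : ι → H} (h : ∀ j, Cyc M (ζ j)) : Cyc (amp ι M) (dvec ζ) := by
  intro ξ
  have h1 : ∀ i j : ι, ∀ η : H,
      (inj i j η : HM ι H) ∈ closure {η | ∃ x ∈ amp ι M, η = x (dvec ζ)} := by
    intro i j η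
    refine map_mem_closure (inj i j : H →L[ℂ] HM ι H).continuous (h j η) ?_
    rintro _ ⟨x, hx, rfl⟩
    refine ⟨_, amp_mat_mem (ampUnit_mem i j hx), hm_ext fun p q => ?_⟩
    rw [prj_mat_dvec, prj_inj]
    unfold ampUnit
    split_ifs with hpq
    · rw [hpq.2]
    · simp
  have hadd : ∀ a b : HM ι H, a ∈ closure {η | ∃ x ∈ amp ι M, η = x (dvec ζ)} →
      b ∈ closure {η | ∃ x ∈ amp ι M, η = x (dvec ζ)} →
      a + b ∈ closure {η | ∃ x ∈ amp ι M, η = x (dvec ζ)} := by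
    intro a b ha hb
    refine map_mem_closure₂ continuous_add ha hb ?_
    rintro _ ⟨x, hx, rfl⟩ _ ⟨y, hy, rfl⟩
    exact ⟨x + y, add_mem hx hy, rfl⟩
  have h0 : (0 : HM ι H) ∈ closure {η | ∃ x ∈ amp ι M, η = x (dvec ζ)} :=
    subset_closure ⟨0, zero_mem _, rfl⟩
  rw [← sum_inj_prj ξ]
  refine Finset.sum_induction _ _ hadd h0 fun i _ => ?_
  exact Finset.sum_induction _ _ hadd h0 fun j _ => h1 i j _

theorem sepg_amp {ζ : ι → H} (h : ∀ j, Sepg M (ζ j)) : Sepg (amp ι M) (dvec ζ) := by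
  intro X hX h0
  obtain ⟨a, ha, rfl⟩ := mem_amp.1 hX
  rw [← mat_zero]
  congr 1
  funext i j
  refine h j _ (ha i j) ?_
  rw [← prj_mat_dvec, h0, map_zero]

theorem stdV_amp (hJ : StdJ M J) {ζ : ι → H} (h : ∀ i, StdV M J (ζ i))
    (hp : ∀ i k, CPos M J (ζ i) (ζ k)) : StdV (amp ι M) (ampJ ι J) (dvec ζ) := by
  refine ⟨stdJ_amp hJ, ampJ_dvec fun i => (h i).fix, cyc_amp fun j => (h j).cyc, fun X hX => ?_⟩
  obtain ⟨a, ha, rfl⟩ := mem_amp.1 hX
  have h1 : ⟪dvec ζ, ad (ampJ ι J) (mat a) (dvec ζ)⟫_ℂ =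
      ∑ i, ∑ k, ⟪ζ i, ad J (a i k) (ζ k)⟫_ℂ := by
    conv_lhs => rw [dvec, sum_inner]
    refine Finset.sum_congr rfl fun i _ => ?_
    rw [inner_inj, ← dvec]
    unfold ad
    rw [star_mat, prj_mat, inner_sum]
    refine Finset.sum_congr rfl fun k _ => ?_
    rw [prj_rm_mat_dvec]
  rw [h1]
  exact Finset.sum_nonneg fun i _ => Finset.sum_nonneg fun k _ => hp i k _ (ha i k)

end Pool.Agent.P.MP_5d580a_an
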