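import Pool.Agent.P.MP_5d580a_an.Defs

open scoped ComplexOrder InnerProductSpace ComplexConjugate BoundedContinuousFunction
open MeasureTheory Filter Topology

set_option linter.unusedSectionVars false
set_option linter.unusedVariables false

noncomputable section

namespace Pool.Agent.P.MP_5d580a_an

variable {H : Type} [NormedAddCommGroup H] [InnerProductSpace ℂ H] [CompleteSpace H]

variable {M : VonNeumannAlgebra H} {J : H ≃ₗᵢ⋆[ℂ] H}

theorem mem_vnOf {S : Set (H →L[ℂ] H)} {x : H →L[ℂ] H} :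
    x ∈ vnOf S ↔ ∀ s ∈ S, s * x = x * s ∧ star s * x = x * star s := by
  change x ∈ StarSubalgebra.centralizer ℂ S ↔ _
  exact StarSubalgebra.mem_centralizer_iff ℂ

theorem mem_cmt {C : Type} [CStarAlgebra C] {π : C →⋆ₐ[ℂ] (H →L[ℂ] H)} {x : H →L[ℂ] H} :
    x ∈ cmt π ↔ ∀ c, π c * x = x * π c := by
  unfold cmt
  rw [mem_vnOf]
  constructor
  · intro h c
    exact (h (π c) ⟨c, rfl⟩).1
  · rintro h s ⟨c, rfl⟩
    exact ⟨h c, by rw [← map_star]; exact h _⟩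

theorem rep_mem_commutant {C : Type} [CStarAlgebra C] (π : C →⋆ₐ[ℂ] (H →L[ℂ] H)) (c : C) :
    π c ∈ (cmt π).commutant := by
  rw [VonNeumannAlgebra.mem_commutant_iff]
  intro g hg
  exact (mem_cmt.1 hg c).symm

theorem cmt_le_comp {A B : Type} [CStarAlgebra A] [CStarAlgebra B] (ι : A →⋆ₐ[ℂ] B)
    (π : B →⋆ₐ[ℂ] (H →L[ℂ] H)) {x : H →L[ℂ] H} (hx : x ∈ cmt π) : x ∈ cmt (π.comp ι) := mem_cmt.2 fun a => mem_cmt.1 hx (ι a)

theorem vn_smul_mem (c : ℂ) {x : H →L[ℂ] H} (hx : x ∈ M) : c • x ∈ M := M.toStarSubalgebra.smul_mem hx c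

theorem mem_of_commute {x : H →L[ℂ] H} (h : ∀ y ∈ M.commutant, y * x = x * y) : x ∈ M := by
  rw [← M.commutant_commutant, VonNeumannAlgebra.mem_commutant_iff]
  exact h

theorem commute_of_mem {x y : H →L[ℂ] H} (hx : x ∈ M) (hy : y ∈ M.commutant) : x * y = y * x := VonNeumannAlgebra.mem_commutant_iff.1 hy x hx

theorem commute_apply {x y : H →L[ℂ] H} (hx : x ∈ M) (hy : y ∈ M.commutant) (ξ : H) :
    x (y ξ) = y (x ξ) := by
  have := commute_of_mem hx hy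
  exact congrArg (fun T : H →L[ℂ] H => T ξ) this

theorem vn_isClosed (M : VonNeumannAlgebra H) : IsClosed (M : Set (H →L[ℂ] H)) := by
  have : (M : Set (H →L[ℂ] H)) = ⋂ y ∈ M.commutant, {x | y * x = x * y} := by
    ext x
    simp only [Set.mem_iInter, Set.mem_ofPred_eq, SetLike.mem_coe]
    exact ⟨fun hx y hy => (commute_of_mem hx hy).symm, fun h => mem_of_commute h⟩
  rw [this]
  refine isClosed_biInter fun y _ => isClosed_eq ?_ ?_
  · exact continuous_const.mul continuous_id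
  · exact continuous_id.mul continuous_const

theorem inner_star_left (x : H →L[ℂ] H) (ξ η : H) : ⟪(star x) ξ, η⟫_ℂ = ⟪ξ, x η⟫_ℂ := by
  rw [ContinuousLinearMap.star_eq_adjoint, ContinuousLinearMap.adjoint_inner_left]

theorem inner_star_right (x : H →L[ℂ] H) (ξ η : H) : ⟪ξ, (star x) η⟫_ℂ = ⟪x ξ, η⟫_ℂ := by
  rw [ContinuousLinearMap.star_eq_adjoint, ContinuousLinearMap.adjoint_inner_right]

theorem norm_sq_apply (x : H →L[ℂ] H) (ξ : H) : ‖x ξ‖ ^ 2 = (⟪ξ, (star x * x) ξ⟫_ℂ).re := by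
  rw [mul_apply_eq_comp, inner_star_right, ← @inner_self_eq_norm_sq ℂ]
  rfl

theorem ext_inner_self {x y : H →L[ℂ] H} (h : ∀ ξ, ⟪ξ, x ξ⟫_ℂ = ⟪ξ, y ξ⟫_ℂ) : x = y := by
  have : (x : H →ₗ[ℂ] H) = (y : H →ₗ[ℂ] H) := by
    rw [← ext_inner_map]
    intro ξ
    have := congrArg (starRingEnd ℂ) (h ξ)
    simpa using this
  exact ContinuousLinearMap.coe_injective this

theorem nonneg_iff_inner {x : H →L[ℂ] H} : 0 ≤ x ↔ ∀ ξ, 0 ≤ ⟪ξ, x ξ⟫_ℂ := by
  rw [ContinuousLinearMap.nonneg_iff_isPositive]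
  constructor
  · intro h ξ
    exact h.inner_nonneg_right ξ
  · intro h
    rw [ContinuousLinearMap.isPositive_iff_complex]
    intro ξ
    have h1 := h ξ
    rw [Complex.nonneg_iff] at h1
    have h2 : ⟪x ξ, ξ⟫_ℂ = conj ⟪ξ, x ξ⟫_ℂ := (inner_conj_symm _ _).symm
    rw [h2]
    generalize ⟪ξ, x ξ⟫_ℂ = z at h1 ⊢
    constructor
    · apply Complex.ext
      · simp
      · simp [← h1.2]
    · simpa using h1.1

theorem re_inner_mono {x y : H →L[ℂ] H} (h : x ≤ y) (ξ : H) :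
    (⟪ξ, x ξ⟫_ℂ).re ≤ (⟪ξ, y ξ⟫_ℂ).re := by
  have h1 := nonneg_iff_inner.1 (sub_nonneg.2 h) ξ
  rw [sub_apply, inner_sub_right, Complex.nonneg_iff] at h1
  have := h1.1
  rw [Complex.sub_re] at this
  linarith

theorem norm_apply_sq_le {x : H →L[ℂ] H} (h0 : 0 ≤ x) (h1 : x ≤ 1) (ξ : H) :
    ‖x ξ‖ ^ 2 ≤ (⟪ξ, x ξ⟫_ℂ).re := by
  have hs : star x = x := (IsSelfAdjoint.of_nonneg h0).star_eq
  rw [norm_sq_apply, hs]
  apply re_inner_mono
  have := CStarAlgebra.pow_antitone h0 h1 (show 1 ≤ 2 by norm_num)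
  simpa [sq] using this

theorem norm_le_one_of_le_one {x : H →L[ℂ] H} (h0 : 0 ≤ x) (h1 : x ≤ 1) : ‖x‖ ≤ 1 := (CStarAlgebra.norm_le_one_iff_of_nonneg x h0).2 h1

theorem star_mul_self_le_one {x : H →L[ℂ] H} (h : ‖x‖ ≤ 1) : star x * x ≤ 1 := by
  rw [← CStarAlgebra.norm_le_one_iff_of_nonneg _ (star_mul_self_nonneg x),
    CStarRing.norm_star_mul_self]
  nlinarith [norm_nonneg x]

theorem exists_sqrt {x : H →L[ℂ] H} (hx : 0 ≤ x) :
    ∃ y : H →L[ℂ] H, 0 ≤ y ∧ y * y = x ∧ (x ≤ 1 → y ≤ 1) ∧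
      ∀ S : H →L[ℂ] H, S * x = x * S → S * y = y * S := by
  refine ⟨CFC.sqrt x, CFC.sqrt_nonneg x, CFC.sqrt_mul_sqrt_self x hx, fun h1 => ?_, fun S hS => ?_⟩
  · have := CFC.sqrt_le_sqrt x 1 h1
    rwa [CFC.sqrt_one] at this
  · have hc : Commute x S := hS.symm
    exact (hc.cfcₙ_nnreal NNReal.sqrt).symm

theorem sqrt_unique {x y : H →L[ℂ] H} (hx : 0 ≤ x) (hy : 0 ≤ y) (h : x * x = y * y) : x = y := (CFC.mul_self_eq_mul_self_iff x y hx hy).1 h

/-- the inverse of `1 + x` for positive `x` -/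
theorem exists_inv_one_add {x : H →L[ℂ] H} (hx : 0 ≤ x) :
    ∃ g : H →L[ℂ] H, 0 ≤ g ∧ g ≤ 1 ∧ g * (1 + x) = 1 ∧ (1 + x) * g = 1 ∧
      ∀ S : H →L[ℂ] H, S * x = x * S → S * g = g * S := by
  have h1 : (1 : H →L[ℂ] H) ≤ 1 + x := le_add_of_nonneg_right hx
  have hu : IsUnit (1 + x) := CStarAlgebra.isUnit_of_le 1 h1
  obtain ⟨u, hu⟩ := hu
  refine ⟨(↑u⁻¹ : H →L[ℂ] H), ?_, ?_, ?_, ?_, fun S hS => ?_⟩
  · exact CFC.inv_nonneg_of_nonneg u (hu ▸ zero_le_one.trans h1)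
  · exact CStarAlgebra.inv_le_one (show (1 : H →L[ℂ] H) ≤ (u : H →L[ℂ] H) from hu ▸ h1)
  · rw [← hu, Units.inv_mul]
  · rw [← hu, Units.mul_inv]
  · have hc : Commute S (u : H →L[ℂ] H) := by
      rw [hu]
      exact (Commute.one_right S).add_right hS
    exact hc.units_inv_right

theorem proj_norm_le {p : H →L[ℂ] H} (hp : IsStarProjection p) (ξ : H) : ‖p ξ‖ ≤ ‖ξ‖ := by
  calc ‖p ξ‖ ≤ ‖p‖ * ‖ξ‖ := p.le_opNorm ξ
    _ ≤ 1 * ‖ξ‖ := by gcongr; exact hp.norm_le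
    _ = ‖ξ‖ := one_mul _

theorem proj_pyth {p : H →L[ℂ] H} (hp : IsStarProjection p) (ξ : H) :
    ‖ξ‖ ^ 2 = ‖p ξ‖ ^ 2 + ‖(1 - p) ξ‖ ^ 2 := by
  have h0 : ⟪p ξ, (1 - p) ξ⟫_ℂ = 0 := by
    rw [← inner_star_right, hp.isSelfAdjoint.star_eq, ← mul_apply_eq_comp,
      hp.mul_one_sub_self]
    simp
  have h1 : ξ = p ξ + (1 - p) ξ := by simp
  have := norm_add_sq_eq_norm_sq_add_norm_sq_of_inner_eq_zero _ _ h0
  rw [← h1] at this
  simpa [sq] using this

theorem basic_piso_init {v : H →L[ℂ] H} (hv : v * star v * v = v) :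
    IsStarProjection (star v * v) := by
  refine ⟨?_, IsSelfAdjoint.star_mul_self v⟩
  change star v * v * (star v * v) = star v * v
  calc star v * v * (star v * v) = star v * (v * star v * v) := by simp only [mul_assoc]
    _ = star v * v := by rw [hv]

theorem piso_norm_le {v : H →L[ℂ] H} (hv : v * star v * v = v) : ‖v‖ ≤ 1 := by
  have h1 := (basic_piso_init hv).norm_le
  rw [CStarRing.norm_star_mul_self] at h1
  nlinarith [norm_nonneg v]

theorem piso_init {v : H →L[ℂ] H} (hv : v * star v * v = v) : IsStarProjection (star v * v) := basic_piso_init hv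

theorem piso_fin {v : H →L[ℂ] H} (hv : v * star v * v = v) : IsStarProjection (v * star v) := by
  refine ⟨?_, IsSelfAdjoint.mul_star_self v⟩
  change v * star v * (v * star v) = v * star v
  rw [← mul_assoc, hv]

theorem piso_norm_apply {v : H →L[ℂ] H} (hv : v * star v * v = v) (ξ : H) :
    ‖v ξ‖ = ‖(star v * v) ξ‖ := by
  have hp := basic_piso_init hv
  have h1 : ‖v ξ‖ ^ 2 = ‖(star v * v) ξ‖ ^ 2 := by
    rw [norm_sq_apply, norm_sq_apply, hp.isSelfAdjoint.star_eq, hp.isIdempotentElem.eq]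
  exact (sq_eq_sq₀ (norm_nonneg _) (norm_nonneg _)).1 h1

theorem iso_norm_apply {v : H →L[ℂ] H} (hv : star v * v = 1) (ξ : H) : ‖v ξ‖ = ‖ξ‖ := by
  rw [piso_norm_apply (by rw [mul_assoc, hv, mul_one]), hv]
  rfl

theorem iso_norm_le {v : H →L[ℂ] H} (hv : star v * v = 1) : ‖v‖ ≤ 1 := piso_norm_le (by rw [mul_assoc, hv, mul_one])

/-- real and imaginary parts inside a von Neumann algebra -/
theorem exists_re_im {x : H →L[ℂ] H} (hx : x ∈ M) :
    ∃ a ∈ M, ∃ b ∈ M, IsSelfAdjoint a ∧ IsSelfAdjoint b ∧ ‖a‖ ≤ ‖x‖ ∧ ‖b‖ ≤ ‖x‖ ∧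
      x = a + Complex.I • b ∧ (2 : ℂ) • a = x + star x ∧
      (2 : ℂ) • b = (-Complex.I) • (x - star x) := by
  have hs : star x ∈ M := star_mem hx
  refine ⟨(1 / 2 : ℂ) • (x + star x), vn_smul_mem _ (add_mem hx hs),
    (-Complex.I / 2) • (x - star x), vn_smul_mem _ (sub_mem hx hs), ?_, ?_, ?_, ?_, ?_, ?_, ?_⟩
  · rw [IsSelfAdjoint, star_smul, star_add, star_star, add_comm]
    congr 1
    simp
  · rw [IsSelfAdjoint, star_smul, star_sub, star_star, ← neg_sub x, smul_neg, ← neg_smul]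
    congr 1
    simp [neg_div]
  · rw [norm_smul]
    have := norm_add_le x (star x)
    rw [norm_star] at this
    have h2 : ‖(1 / 2 : ℂ)‖ = 1 / 2 := by simp
    rw [h2]
    linarith
  · rw [norm_smul]
    have := norm_sub_le x (star x)
    rw [norm_star] at this
    have h2 : ‖(-Complex.I / 2 : ℂ)‖ = 1 / 2 := by simp
    rw [h2]
    linarith
  · rw [smul_smul]
    have h2 : Complex.I * (-Complex.I / 2) = 1 / 2 := by
      rw [neg_div, mul_neg, ← mul_div_assoc, Complex.I_mul_I]; ring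
    rw [h2, ← smul_add]
    have h3 : x + star x + (x - star x) = (2 : ℂ) • x := by rw [two_smul]; abel
    rw [h3, smul_smul]
    norm_num
  · rw [smul_smul]
    norm_num
  · rw [smul_smul]
    congr 1
    ring

/-! the conjugation -/

theorem inner_J (J : H ≃ₗᵢ⋆[ℂ] H) (ξ η : H) : ⟪J ξ, J η⟫_ℂ = ⟪η, ξ⟫_ℂ := by
  have hre : ∀ a b : H, (⟪J a, J b⟫_ℂ).re = (⟪a, b⟫_ℂ).re := by
    intro a b
    have h1 := @norm_add_sq ℂ H _ _ _ (J a) (J b)
    have h2 := @norm_add_sq ℂ H _ _ _ a b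
    rw [← map_add, J.norm_map, J.norm_map, J.norm_map] at h1
    have : RCLike.re ⟪J a, J b⟫_ℂ = RCLike.re ⟪a, b⟫_ℂ := by linarith
    exact this
  have h1 := hre ξ η
  have h2 := hre ξ (Complex.I • η)
  rw [J.map_smulₛₗ, inner_smul_right, inner_smul_right] at h2
  rw [← inner_conj_symm η ξ]
  generalize ⟪ξ, η⟫_ℂ = z at h1 h2 ⊢
  apply Complex.ext
  · simpa using h1
  · simp at h2
    simp only [Complex.conj_im]
    linarith

theorem J_smul (J : H ≃ₗᵢ⋆[ℂ] H) (c : ℂ) (ξ : H) : J (c • ξ) = conj c • J ξ := J.map_smulₛₗ c ξ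

theorem J_rsmul (J : H ≃ₗᵢ⋆[ℂ] H) (c : ℝ) (ξ : H) : J ((c : ℂ) • ξ) = (c : ℂ) • J ξ := by
  rw [J_smul, Complex.conj_ofReal]

theorem rm_add (x y : H →L[ℂ] H) : rm J (x + y) = rm J x + rm J y := by
  ext ξ
  simp [rm_apply]

theorem rm_sub (x y : H →L[ℂ] H) : rm J (x - y) = rm J x - rm J y := by
  ext ξ
  simp [rm_apply]

theorem rm_neg (x : H →L[ℂ] H) : rm J (-x) = -rm J x := by
  ext ξ
  simp [rm_apply]

theorem rm_zero : rm J (0 : H →L[ℂ] H) = 0 := by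
  ext ξ
  simp [rm_apply]

theorem rm_smul (c : ℂ) (x : H →L[ℂ] H) : rm J (c • x) = c • rm J x := by
  ext ξ
  rw [rm_apply, star_smul, smul_apply, J_smul, smul_apply,
    rm_apply]
  simp

theorem rm_sum {ι : Type*} (s : Finset ι) (x : ι → (H →L[ℂ] H)) :
    rm J (∑ i ∈ s, x i) = ∑ i ∈ s, rm J (x i) := by
  classical
  induction s using Finset.induction_on with
  | empty => simpa using rm_zero
  | insert a s ha ih => rw [Finset.sum_insert ha, Finset.sum_insert ha, rm_add, ih]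

theorem norm_rm (x : H →L[ℂ] H) : ‖rm J x‖ = ‖x‖ := by
  apply le_antisymm
  · refine ContinuousLinearMap.opNorm_le_bound _ (norm_nonneg x) fun ξ => ?_
    rw [rm_apply, J.norm_map, ← J.norm_map ξ, ← norm_star x]
    exact (star x).le_opNorm _
  · rw [← norm_star x]
    refine ContinuousLinearMap.opNorm_le_bound _ (norm_nonneg _) fun ξ => ?_
    have h1 := (rm J x).le_opNorm (J.symm ξ)
    rw [rm_apply, J.norm_map, J.apply_symm_apply, J.symm.norm_map] at h1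
    exact h1

theorem norm_rm_apply (x : H →L[ℂ] H) {ξ : H} (hξ : J ξ = ξ) : ‖rm J x ξ‖ = ‖(star x) ξ‖ := by
  rw [rm_apply, J.norm_map, hξ]

theorem rm_one (hJ : ∀ ξ, J (J ξ) = ξ) : rm J (1 : H →L[ℂ] H) = 1 := by
  ext ξ
  simp [rm_apply, hJ]

theorem rm_mul (hJ : ∀ ξ, J (J ξ) = ξ) (x y : H →L[ℂ] H) : rm J (x * y) = rm J y * rm J x := by
  ext ξ
  simp [rm_apply, hJ]

theorem rm_star (hJ : ∀ ξ, J (J ξ) = ξ) (x : H →L[ℂ] H) : rm J (star x) = star (rm J x) := by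
  ext ξ
  apply ext_inner_left ℂ
  intro η
  rw [inner_star_right, rm_apply, rm_apply, star_star]
  conv_lhs => rw [← hJ η]
  conv_rhs => rw [← hJ ξ]
  rw [inner_J, inner_J, inner_star_right]

theorem rm_rm (hJ : ∀ ξ, J (J ξ) = ξ) (x : H →L[ℂ] H) : rm J (rm J x) = x := by
  ext ξ
  rw [rm_apply, ← rm_star hJ, rm_apply, star_star, hJ, hJ]

theorem rm_proj (hJ : ∀ ξ, J (J ξ) = ξ) {p : H →L[ℂ] H} (hp : IsStarProjection p) :
    IsStarProjection (rm J p) := by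
  refine ⟨?_, ?_⟩
  · change rm J p * rm J p = rm J p
    rw [← rm_mul hJ, hp.isIdempotentElem.eq]
  · change star (rm J p) = rm J p
    rw [← rm_star hJ, hp.isSelfAdjoint.star_eq]

theorem rm_sa (hJ : ∀ ξ, J (J ξ) = ξ) {x : H →L[ℂ] H} (hx : IsSelfAdjoint x) :
    IsSelfAdjoint (rm J x) := by
  change star (rm J x) = rm J x
  rw [← rm_star hJ, hx.star_eq]

theorem rm_mono (hJ : ∀ ξ, J (J ξ) = ξ) {x y : H →L[ℂ] H} (h : x ≤ y) : rm J x ≤ rm J y := by
  rw [← sub_nonneg] at h ⊢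
  rw [← rm_sub, nonneg_iff_inner]
  intro ξ
  rw [rm_apply, (IsSelfAdjoint.of_nonneg h).star_eq]
  conv_rhs => rw [← hJ ξ]
  rw [inner_J, hJ, ← inner_star_right, (IsSelfAdjoint.of_nonneg h).star_eq]
  exact nonneg_iff_inner.1 h _

theorem rm_unitary (hJ : ∀ ξ, J (J ξ) = ξ) {u : H →L[ℂ] H} (hu : u ∈ unitary (H →L[ℂ] H)) :
    rm J u ∈ unitary (H →L[ℂ] H) := by
  rw [Unitary.mem_iff] at hu ⊢
  rw [← rm_star hJ, ← rm_mul hJ, ← rm_mul hJ, hu.1, hu.2, rm_one hJ]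
  exact ⟨rfl, rfl⟩

theorem J_apply (hJ : ∀ ξ, J (J ξ) = ξ) (x : H →L[ℂ] H) (ξ : H) :
    J (x ξ) = rm J (star x) (J ξ) := by
  rw [rm_apply, star_star, hJ]

theorem J_rm (hJ : ∀ ξ, J (J ξ) = ξ) (x : H →L[ℂ] H) (ξ : H) :
    J (rm J x ξ) = (star x) (J ξ) := by
  rw [rm_apply, hJ]

theorem inner_rm (hJ : ∀ ξ, J (J ξ) = ξ) (x : H →L[ℂ] H) (ξ η : H) :
    ⟪ξ, rm J x η⟫_ℂ = ⟪J η, x (J ξ)⟫_ℂ := by
  rw [rm_apply]
  conv_lhs => rw [← hJ ξ]
  rw [inner_J, inner_star_left]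

theorem StdJ.comm (h : StdJ M J) {x y : H →L[ℂ] H} (hx : x ∈ M) (hy : y ∈ M) :
    x * rm J y = rm J y * x := commute_of_mem hx (h.mem y hy)

theorem StdJ.comm_apply (h : StdJ M J) {x y : H →L[ℂ] H} (hx : x ∈ M) (hy : y ∈ M) (ξ : H) :
    x (rm J y ξ) = rm J y (x ξ) := commute_apply hx (h.mem y hy) ξ

theorem StdJ.symm (h : StdJ M J) : StdJ M.commutant J := ⟨h.invol, fun x hx => by
    rw [VonNeumannAlgebra.commutant_commutant]; exact h.mem' x hx,
    fun y hy => h.mem y (by rwa [VonNeumannAlgebra.commutant_commutant] at hy)⟩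

theorem cm_add (x y : H →L[ℂ] H) (ξ : H) : cm J (x + y) ξ = cm J x ξ + cm J y ξ := by
  simp only [cm, rm_add, add_apply]
  abel

theorem cm_sub (x y : H →L[ℂ] H) (ξ : H) : cm J (x - y) ξ = cm J x ξ - cm J y ξ := by
  simp only [cm, rm_sub, sub_apply]
  abel

theorem cm_smul (c : ℂ) (x : H →L[ℂ] H) (ξ : H) : cm J (c • x) ξ = c • cm J x ξ := by
  simp only [cm, rm_smul, smul_apply, smul_sub]

theorem cm_add_vec (x : H →L[ℂ] H) (ξ η : H) : cm J x (ξ + η) = cm J x ξ + cm J x η := by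
  simp only [cm, map_add]
  abel

theorem cm_sub_vec (x : H →L[ℂ] H) (ξ η : H) : cm J x (ξ - η) = cm J x ξ - cm J x η := by
  simp only [cm, map_sub]
  abel

theorem cm_smul_vec (x : H →L[ℂ] H) (c : ℂ) (ξ : H) : cm J x (c • ξ) = c • cm J x ξ := by
  simp only [cm, map_smul, smul_sub]

theorem norm_cm_le (x : H →L[ℂ] H) (ξ : H) : ‖cm J x ξ‖ ≤ 2 * ‖x‖ * ‖ξ‖ := by
  have h1 := x.le_opNorm ξ
  have h2 := (rm J x).le_opNorm ξ
  rw [norm_rm] at h2
  have h3 := norm_sub_le (x ξ) (rm J x ξ)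
  unfold cm
  linarith

theorem continuous_cm (x : H →L[ℂ] H) : Continuous fun ξ => cm J x ξ := x.continuous.sub (rm J x).continuous

theorem cm_one (hJ : ∀ ξ, J (J ξ) = ξ) (ξ : H) : cm J 1 ξ = 0 := by
  simp [cm, rm_one hJ]

theorem cm_mul (h : StdJ M J) {x y : H →L[ℂ] H} (hx : x ∈ M) (hy : y ∈ M) (ξ : H) :
    cm J (x * y) ξ = x (cm J y ξ) + rm J y (cm J x ξ) := by
  simp only [cm, rm_mul h.invol, mul_apply_eq_comp, map_sub, h.comm_apply hx hy]
  abel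

theorem cm_star (hJ : ∀ ξ, J (J ξ) = ξ) {ξ : H} (hξ : J ξ = ξ) (x : H →L[ℂ] H) :
    cm J (star x) ξ = -J (cm J x ξ) := by
  unfold cm
  rw [map_sub, J_apply hJ, J_rm hJ, hξ]
  abel

theorem basic_unitary_norm {u : H →L[ℂ] H} (hu : u ∈ unitary (H →L[ℂ] H)) (ξ : H) :
    ‖u ξ‖ = ‖ξ‖ := iso_norm_apply (Unitary.mem_iff.1 hu).1 ξ

theorem norm_cm_unitary (h : StdJ M J) {u : H →L[ℂ] H} (hM : u ∈ M)
    (hu : u ∈ unitary (H →L[ℂ] H)) (ξ : H) : ‖ad J u ξ - ξ‖ = ‖cm J u ξ‖ := by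
  have h1 : ad J u ξ - ξ = rm J (star u) (cm J u ξ) := by
    unfold ad cm
    rw [map_sub, h.comm_apply hM (star_mem hM), ← mul_apply_eq_comp (rm J (star u)) (rm J u),
      ← rm_mul h.invol, (Unitary.mem_iff.1 hu).2, rm_one h.invol]
    rfl
  rw [h1, basic_unitary_norm (rm_unitary h.invol (Unitary.star_mem hu))]

theorem norm_ad_unitary (h : StdJ M J) {u : H →L[ℂ] H}
    (hu : u ∈ unitary (H →L[ℂ] H)) (ξ : H) : ‖ad J u ξ‖ = ‖ξ‖ := by
  unfold ad
  rw [basic_unitary_norm hu, basic_unitary_norm (rm_unitary h.invol (Unitary.star_mem hu))]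

theorem ad_mul (h : StdJ M J) {a b : H →L[ℂ] H} (ha : a ∈ M) (hb : b ∈ M) (ξ : H) :
    ad J (a * b) ξ = ad J a (ad J b ξ) := by
  unfold ad
  rw [star_mul, rm_mul h.invol, mul_apply_eq_comp, mul_apply_eq_comp,
    h.comm_apply hb (star_mem ha)]

theorem inner_ad (h : StdJ M J) {a : H →L[ℂ] H} (ha : a ∈ M) (ξ η : H) :
    ⟪ad J a ξ, η⟫_ℂ = ⟪ξ, ad J (star a) η⟫_ℂ := by
  unfold ad
  rw [← inner_star_right, rm_star h.invol, inner_star_left, star_star,
    h.comm_apply (star_mem ha) ha]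

theorem J_ad (h : StdJ M J) {a : H →L[ℂ] H} (ha : a ∈ M) (ξ : H) :
    J (ad J a ξ) = ad J a (J ξ) := by
  unfold ad
  rw [J_apply h.invol, J_rm h.invol, star_star, h.comm_apply ha (star_mem ha)]

theorem pinch_apply {p : H →L[ℂ] H} (hp : IsStarProjection p) (ξ : H) :
    pinch J p ξ = ad J p ξ + ad J (1 - p) ξ := by
  unfold pinch ad
  rw [hp.isSelfAdjoint.star_eq, hp.one_sub.isSelfAdjoint.star_eq]
  rfl

theorem basic_pinch_eq (h : StdJ M J) (p : H →L[ℂ] H) :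
    pinch J p = p * rm J p + (1 - p) * (1 - rm J p) := by
  unfold pinch
  rw [rm_sub, rm_one h.invol]

theorem pinch_proj (h : StdJ M J) {p : H →L[ℂ] H} (hM : p ∈ M) (hp : IsStarProjection p) :
    IsStarProjection (pinch J p) := by
  have hr := rm_proj h.invol hp
  have hc : Commute p (rm J p) := h.comm hM hM
  rw [basic_pinch_eq h]
  have hc2 : Commute (1 - p) (1 - rm J p) :=
    ((Commute.one_left _).sub_left ((Commute.one_right _).sub_right hc))
  refine (hp.mul hr hc).add (hp.one_sub.mul hr.one_sub hc2) ?_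
  calc p * rm J p * ((1 - p) * (1 - rm J p)) = rm J p * (p * (1 - p)) * (1 - rm J p) := by
        rw [hc.eq]; simp only [mul_assoc]
    _ = 0 := by rw [hp.mul_one_sub_self]; simp

theorem norm_sub_pinch (h : StdJ M J) {p : H →L[ℂ] H} (hM : p ∈ M) (hp : IsStarProjection p)
    (ξ : H) : ‖ξ - pinch J p ξ‖ = ‖cm J p ξ‖ := by
  have hpp : p * p = p := hp.isIdempotentElem.eq
  have hs : star p = p := hp.isSelfAdjoint.star_eq
  have h1 : (1 : H →L[ℂ] H) - pinch J p = (p + p - 1) * (p - rm J p) := by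
    rw [basic_pinch_eq h]
    have : (p + p - 1) * (p - rm J p) = p * p + p * p - p - p * rm J p - p * rm J p + rm J p := by
      noncomm_ring
    rw [this, hpp]
    noncomm_ring
  have h2 : star (p + p - 1) * (p + p - 1) = 1 := by
    rw [star_sub, star_add, star_one, hs]
    have : (p + p - 1) * (p + p - 1) = p * p + p * p + p * p + p * p - p - p - p - p + 1 := by
      noncomm_ring
    rw [this, hpp]
    abel
  have h3 : ξ - pinch J p ξ = (p + p - 1) (cm J p ξ) :=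
    congrArg (fun T : H →L[ℂ] H => T ξ) h1
  rw [h3, iso_norm_apply h2]

theorem pinch_eq_self_iff (h : StdJ M J) {p : H →L[ℂ] H} (hM : p ∈ M) (hp : IsStarProjection p)
    (ξ : H) : pinch J p ξ = ξ ↔ cm J p ξ = 0 := by
  rw [← norm_eq_zero (a := cm J p ξ), ← norm_sub_pinch h hM hp, norm_eq_zero, sub_eq_zero, eq_comm]

theorem cm_pinch (h : StdJ M J) {p : H →L[ℂ] H} (hM : p ∈ M) (hp : IsStarProjection p) (ξ : H) :
    cm J p (pinch J p ξ) = 0 := by
  rw [← pinch_eq_self_iff h hM hp, ← mul_apply_eq_comp,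
    (pinch_proj h hM hp).isIdempotentElem.eq]

theorem J_pinch (h : StdJ M J) {p : H →L[ℂ] H} (hM : p ∈ M) (hp : IsStarProjection p) (ξ : H) :
    J (pinch J p ξ) = pinch J p (J ξ) := by
  rw [pinch_apply hp, pinch_apply hp, map_add, J_ad h hM, J_ad h (sub_mem (one_mem M) hM)]

theorem mul_pinch (h : StdJ M J) {p x : H →L[ℂ] H} (hM : p ∈ M) (hx : x ∈ M)
    (hc : x * p = p * x) : x * pinch J p = pinch J p * x := by
  rw [basic_pinch_eq h]
  have h1 : Commute x p := hc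
  have h2 : Commute x (rm J p) := h.comm hx hM
  exact (h1.mul_right h2).add_right
    (((Commute.one_right x).sub_right h1).mul_right ((Commute.one_right x).sub_right h2))

theorem rm_mul_pinch (h : StdJ M J) {p x : H →L[ℂ] H} (hM : p ∈ M) (hx : x ∈ M)
    (hc : x * p = p * x) : rm J x * pinch J p = pinch J p * rm J x := by
  rw [basic_pinch_eq h]
  have h1 : Commute (rm J x) p := (h.comm hM hx).symm
  have h2 : Commute (rm J x) (rm J p) := by
    change rm J x * rm J p = rm J p * rm J x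
    rw [← rm_mul h.invol, ← rm_mul h.invol, hc]
  exact (h1.mul_right h2).add_right
    (((Commute.one_right _).sub_right h1).mul_right ((Commute.one_right _).sub_right h2))

theorem pinch_comm (h : StdJ M J) {p q : H →L[ℂ] H} (hp : p ∈ M) (hq : q ∈ M)
    (hc : p * q = q * p) : pinch J p * pinch J q = pinch J q * pinch J p := by
  have h1 : Commute p (pinch J q) := mul_pinch h hq hp hc
  have h2 : Commute (rm J p) (pinch J q) := rm_mul_pinch h hq hp hc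
  rw [basic_pinch_eq h p]
  exact (h1.mul_left h2).add_left
    (((Commute.one_left _).sub_left h1).mul_left ((Commute.one_left _).sub_left h2))

end Pool.Agent.P.MP_5d580a_an
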