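import Pool.Agent.P.MP_5d580a_an.Spec

open scoped ComplexOrder InnerProductSpace ComplexConjugate BoundedContinuousFunction
open MeasureTheory Filter Topology

set_option linter.unusedSectionVars false
set_option linter.unusedVariables false

noncomputable section

namespace Pool.Agent.P.MP_5d580a_an

variable {H : Type} [NormedAddCommGroup H] [InnerProductSpace ℂ H] [CompleteSpace H]

variable {M : VonNeumannAlgebra H} {J : H ≃ₗᵢ⋆[ℂ] H} {ζ : H} {E : SpecCalc ℝ H}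
  {s s' δ δ' : ℝ} {w w' x y x' y' : H →L[ℂ] H}

theorem bic0_le (h : ‖w‖ ≤ 1) (ξ : H) : ‖w ξ‖ ≤ ‖ξ‖ :=
  (w.le_opNorm ξ).trans (mul_le_of_le_one_left (norm_nonneg _) h)

theorem Eig.mono (h : Eig M J ζ s δ w) (hδ : δ ≤ δ') : Eig M J ζ s δ' w :=
  ⟨h.1, h.2.1, h.2.2.trans hδ⟩

theorem Eig.star (hs : StdV M J ζ) (h : Eig M J ζ s δ w) :
    Eig M J ζ (-s) (Real.exp (-s / 2) * δ) (star w) := by
  refine ⟨star_mem h.1, by rw [norm_star]; exact h.2.1, ?_⟩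
  have hc : ((Real.exp (-s / 2) : ℝ) : ℂ) * ((Real.exp (s / 2) : ℝ) : ℂ) = 1 := by
    rw [← Complex.ofReal_mul, ← Real.exp_add, show -s / 2 + s / 2 = 0 by ring, Real.exp_zero,
      Complex.ofReal_one]
  have e : rm J (Star.star w) ζ - ((Real.exp (-s / 2) : ℝ) : ℂ) • (Star.star w) ζ
      = -(((Real.exp (-s / 2) : ℝ) : ℂ) • J (rm J w ζ - ((Real.exp (s / 2) : ℝ) : ℂ) • w ζ)) := by
    rw [map_sub, J_rsmul, J_rm hs.stdJ.invol, J_apply hs.stdJ.invol w ζ, hs.fix, smul_sub,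
      smul_smul, hc, one_smul, neg_sub]
  rw [e, norm_neg, norm_smul, J.norm_map, Complex.norm_real, Real.norm_of_nonneg (Real.exp_pos _).le]
  exact mul_le_mul_of_nonneg_left h.2.2 (Real.exp_pos _).le

theorem Eig.mul (hs : StdV M J ζ) (h : Eig M J ζ s δ w) (h' : Eig M J ζ s' δ' w') :
    Eig M J ζ (s + s') (δ + Real.exp (s / 2) * δ') (w * w') := by
  refine ⟨mul_mem h.1 h'.1, (norm_mul_le _ _).trans (mul_le_one₀ h.2.1 (norm_nonneg _) h'.2.1), ?_⟩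
  have e : rm J (w * w') ζ - ((Real.exp ((s + s') / 2) : ℝ) : ℂ) • (w * w') ζ
      = rm J w' (rm J w ζ - ((Real.exp (s / 2) : ℝ) : ℂ) • w ζ) + ((Real.exp (s / 2) : ℝ) : ℂ) •
        w (rm J w' ζ - ((Real.exp (s' / 2) : ℝ) : ℂ) • w' ζ) := by
    rw [rm_mul hs.stdJ.invol, add_div, Real.exp_add, Complex.ofReal_mul]
    simp only [mul_apply_eq_comp, map_sub, map_smul, hs.stdJ.comm_apply h.1 h'.1]
    module
  rw [e]
  refine (norm_add_le _ _).trans (add_le_add ?_ ?_)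
  · exact (bic0_le (by rw [norm_rm]; exact h'.2.1) _).trans h.2.2
  · rw [norm_smul, Complex.norm_real, Real.norm_of_nonneg (Real.exp_pos _).le]
    exact mul_le_mul_of_nonneg_left ((bic0_le h.2.1 _).trans h'.2.2) (Real.exp_pos _).le

theorem Eig.shift (h : Eig M J ζ s δ w) (s' : ℝ) :
    Eig M J ζ s' (δ + |Real.exp (s / 2) - Real.exp (s' / 2)| * ‖ζ‖) w := by
  refine ⟨h.1, h.2.1, ?_⟩
  have e : rm J w ζ - ((Real.exp (s' / 2) : ℝ) : ℂ) • w ζ
      = (rm J w ζ - ((Real.exp (s / 2) : ℝ) : ℂ) • w ζ)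
        + ((Real.exp (s / 2) - Real.exp (s' / 2) : ℝ) : ℂ) • w ζ := by
    rw [Complex.ofReal_sub]
    module
  rw [e]
  refine (norm_add_le _ _).trans (add_le_add h.2.2 ?_)
  rw [norm_smul, Complex.norm_real, Real.norm_eq_abs]
  exact mul_le_mul_of_nonneg_left (bic0_le h.2.1 _) (abs_nonneg _)

theorem Eig.sig (hE : ModD M J ζ E) (h : Eig M J ζ s δ w) (t : ℝ) :
    Eig M J ζ s δ (E.sig t w) := by
  refine ⟨hE.inv t w h.1, by rw [E.norm_sig]; exact h.2.1, ?_⟩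
  rw [hE.rm_sig, hE.sig_apply, hE.sig_apply, ← map_smul, ← map_sub, E.norm_U_apply]
  exact h.2.2

theorem eig_zero_iff : Eig M J ζ 0 δ w ↔ w ∈ M ∧ ‖w‖ ≤ 1 ∧ ‖cm J w ζ‖ ≤ δ := by
  rw [Eig, zero_div, Real.exp_zero, Complex.ofReal_one, one_smul, norm_sub_rev]
  rfl

variable (M J ζ s) in
/-- the filter of approximate eigenoperators -/
def bic0F : Filter (H →L[ℂ] H) :=
  comap (fun w => ‖rm J w ζ - ((Real.exp (s / 2) : ℝ) : ℂ) • w ζ‖) (𝓝 0) ⊓
    𝓟 {w | w ∈ M ∧ ‖w‖ ≤ 1}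

instance : (bic0F M J ζ s).IsCountablyGenerated := by
  unfold bic0F
  infer_instance

theorem bic0_ev {p : (H →L[ℂ] H) → Prop} :
    (∀ᶠ w in bic0F M J ζ s, p w) ↔ ∃ δ : ℝ, 0 < δ ∧ ∀ w, Eig M J ζ s δ w → p w := by
  rw [bic0F, eventually_inf_principal, (Metric.nhds_basis_closedBall.comap _).eventually_iff]
  refine exists_congr fun δ => and_congr_right fun _ => forall_congr' fun w => ?_
  simp only [Set.mem_preimage, mem_closedBall_zero_iff, norm_norm, Set.mem_ofPred_eq, Eig]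
  tauto

theorem bic0_eig (hδ : 0 < δ) : ∀ᶠ w in bic0F M J ζ s, Eig M J ζ s δ w :=
  bic0_ev.2 ⟨δ, hδ, fun _ h => h⟩

theorem bic0_tendsto {f : (H →L[ℂ] H) → H} : Tendsto f (bic0F M J ζ s) (𝓝 0) ↔
    ∀ ε : ℝ, 0 < ε → ∃ δ : ℝ, 0 < δ ∧ ∀ w, Eig M J ζ s δ w → ‖f w‖ ≤ ε := by
  rw [Metric.nhds_basis_closedBall.tendsto_right_iff]
  simp only [bic0_ev, mem_closedBall_zero_iff]

theorem bic0_bet : Bet M J ζ s x y ↔ x ∈ M ∧ y ∈ M ∧
    Tendsto (fun w => (x * w - w * y) ζ) (bic0F M J ζ s) (𝓝 0) ∧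
    Tendsto (fun w => (star (x * w - w * y)) ζ) (bic0F M J ζ s) (𝓝 0) := by
  refine and_congr_right fun _ => and_congr_right fun _ => ?_
  rw [bic0_tendsto, bic0_tendsto]
  refine ⟨fun h => ⟨fun ε hε => ?_, fun ε hε => ?_⟩, fun h ε hε => ?_⟩
  · exact (h ε hε).imp fun δ h => ⟨h.1, fun w hw => (h.2 w hw).1⟩
  · exact (h ε hε).imp fun δ h => ⟨h.1, fun w hw => (h.2 w hw).2⟩
  · obtain ⟨δ₁, p₁, q₁⟩ := h.1 ε hε
    obtain ⟨δ₂, p₂, q₂⟩ := h.2 ε hε
    exact ⟨min δ₁ δ₂, lt_min p₁ p₂, fun w hw =>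
      ⟨q₁ w (hw.mono (min_le_left _ _)), q₂ w (hw.mono (min_le_right _ _))⟩⟩

theorem bic0_star (hs : StdV M J ζ) : Tendsto star (bic0F M J ζ (-s)) (bic0F M J ζ s) := by
  intro S hS
  obtain ⟨δ, hδ, h⟩ := bic0_ev.1 hS
  refine bic0_ev.2 ⟨δ / Real.exp (s / 2), div_pos hδ (Real.exp_pos _), fun w hw => h _ ?_⟩
  have h1 := hw.star hs
  rwa [neg_neg, mul_div_cancel₀ _ (Real.exp_pos _).ne'] at h1

theorem bic0_sig (hE : ModD M J ζ E) (t : ℝ) :
    Tendsto (E.sig t) (bic0F M J ζ s) (bic0F M J ζ s) := by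
  intro S hS
  obtain ⟨δ, hδ, h⟩ := bic0_ev.1 hS
  exact bic0_ev.2 ⟨δ, hδ, fun w hw => h _ (hw.sig hE t)⟩

theorem bic0_map {l : Filter (H →L[ℂ] H)} {f : (H →L[ℂ] H) → H} (h : Tendsto f l (𝓝 0))
    (a : H →L[ℂ] H) : Tendsto (fun w => a (f w)) l (𝓝 0) := by
  have h1 := (a.continuous.tendsto 0).comp h
  rwa [map_zero] at h1

theorem Bet.strong (hs : StdV M J ζ) (h : Bet M J ζ s x y) (η : H) {ε : ℝ} (hε : 0 < ε) :
    ∃ δ : ℝ, 0 < δ ∧ ∀ w, Eig M J ζ s δ w →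
      ‖(x * w - w * y) η‖ ≤ ε ∧ ‖(star (x * w - w * y)) η‖ ≤ ε := by
  obtain ⟨ε', h1, h2⟩ := strong_of_cyc hs.cyc' η (‖x‖ + ‖y‖) ε hε
  obtain ⟨δ, hδ, h3⟩ := h.2.2 ε' h1
  refine ⟨δ, hδ, fun w hw => ?_⟩
  have h4 : x * w - w * y ∈ M := sub_mem (mul_mem h.1 hw.1) (mul_mem hw.1 h.2.1)
  have h5 : ‖x * w - w * y‖ ≤ ‖x‖ + ‖y‖ := (norm_sub_le _ _).trans (add_le_add
    ((norm_mul_le _ _).trans (mul_le_of_le_one_right (norm_nonneg _) hw.2.1))
    ((norm_mul_le _ _).trans (mul_le_of_le_one_left (norm_nonneg _) hw.2.1)))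
  exact ⟨h2 _ h4 h5 (h3 w hw).1, h2 _ (star_mem h4) (by rwa [norm_star]) (h3 w hw).2⟩

theorem bic0_strong (hs : StdV M J ζ) (h : Bet M J ζ s x y) (η : H) :
    Tendsto (fun w => (x * w - w * y) η) (bic0F M J ζ s) (𝓝 0) ∧
    Tendsto (fun w => (star (x * w - w * y)) η) (bic0F M J ζ s) (𝓝 0) :=
  ⟨bic0_tendsto.2 fun ε hε => (h.strong hs η hε).imp fun δ h => ⟨h.1, fun w hw => (h.2 w hw).1⟩,
    bic0_tendsto.2 fun ε hε => (h.strong hs η hε).imp fun δ h => ⟨h.1, fun w hw => (h.2 w hw).2⟩⟩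

theorem Bet.adj (hs : StdV M J ζ) (h : Bet M J ζ s x y) : Bet M J ζ (-s) (star y) (star x) := by
  obtain ⟨h1, h2, h3, h4⟩ := bic0_bet.1 h
  have e : ∀ w : H →L[ℂ] H, star y * w - w * star x = -star (x * star w - star w * y) :=
    fun w => by simp
  refine bic0_bet.2 ⟨star_mem h2, star_mem h1, ?_, ?_⟩
  · simpa only [e, neg_apply, neg_zero, Function.comp_apply] using (h4.comp (bic0_star hs)).neg
  · simpa only [e, star_neg, star_star, neg_apply, neg_zero, Function.comp_apply]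
      using (h3.comp (bic0_star hs)).neg

theorem Bet.mul (hs : StdV M J ζ) (h : Bet M J ζ s x y) (h' : Bet M J ζ s x' y') :
    Bet M J ζ s (x * x') (y * y') := by
  obtain ⟨h1, h2, h3, h4⟩ := bic0_bet.1 h
  obtain ⟨h1', h2', h3', h4'⟩ := bic0_bet.1 h'
  have e : ∀ w : H →L[ℂ] H, x * x' * w - w * (y * y')
      = x * (x' * w - w * y') + (x * w - w * y) * y' := fun w => by noncomm_ring
  refine bic0_bet.2 ⟨mul_mem h1 h1', mul_mem h2 h2', ?_, ?_⟩
  · simpa only [e, add_apply, mul_apply_eq_comp, add_zero]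
      using (bic0_map h3' x).add (bic0_strong hs h (y' ζ)).1
  · simpa only [e, star_add, star_mul x, star_mul _ y', add_apply,
      mul_apply_eq_comp, add_zero]
      using (bic0_strong hs h' (star x ζ)).2.add (bic0_map h4 (star y'))

theorem Bet.add (h : Bet M J ζ s x y) (h' : Bet M J ζ s x' y') :
    Bet M J ζ s (x + x') (y + y') := by
  obtain ⟨h1, h2, h3, h4⟩ := bic0_bet.1 h
  obtain ⟨h1', h2', h3', h4'⟩ := bic0_bet.1 h'
  have e : ∀ w : H →L[ℂ] H, (x + x') * w - w * (y + y')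
      = (x * w - w * y) + (x' * w - w * y') := fun w => by noncomm_ring
  refine bic0_bet.2 ⟨add_mem h1 h1', add_mem h2 h2', ?_, ?_⟩
  · simpa only [e, add_apply, add_zero] using h3.add h3'
  · simpa only [e, star_add, add_apply, add_zero] using h4.add h4' 

theorem Bet.smul (h : Bet M J ζ s x y) (c : ℂ) : Bet M J ζ s (c • x) (c • y) := by
  obtain ⟨h1, h2, h3, h4⟩ := bic0_bet.1 h
  have e : ∀ w : H →L[ℂ] H, (c • x) * w - w * (c • y) = c • (x * w - w * y) := fun w => by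
    rw [smul_mul_assoc, mul_smul_comm, smul_sub]
  refine bic0_bet.2 ⟨vn_smul_mem c h1, vn_smul_mem c h2, ?_, ?_⟩
  · simpa only [e, smul_apply, smul_zero] using h3.const_smul c
  · simpa only [e, star_smul, smul_apply, smul_zero]
      using h4.const_smul (star c)

theorem Bet.sub (h : Bet M J ζ s x y) (h' : Bet M J ζ s x' y') :
    Bet M J ζ s (x - x') (y - y') := by
  have h1 := h.add (h'.smul (-1))
  rwa [neg_one_smul, neg_one_smul, ← sub_eq_add_neg, ← sub_eq_add_neg] at h1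

theorem bet_one (s : ℝ) : Bet M J ζ s 1 1 :=
  ⟨one_mem M, one_mem M, fun ε hε => ⟨1, one_pos, fun w _ => by simpa using hε.le⟩⟩

theorem Bet.sig (hE : ModD M J ζ E) (h : Bet M J ζ s x y) (t : ℝ) :
    Bet M J ζ s (E.sig t x) (E.sig t y) := by
  obtain ⟨h1, h2, h3, h4⟩ := bic0_bet.1 h
  have e : ∀ w : H →L[ℂ] H, E.sig t x * w - w * E.sig t y
      = E.sig t (x * E.sig (-t) w - E.sig (-t) w * y) := fun w => by
    rw [E.sig_sub, E.sig_mul, E.sig_mul, E.sig_sig, add_neg_cancel, E.sig_zero]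
  refine bic0_bet.2 ⟨hE.inv t x h1, hE.inv t y h2, ?_, ?_⟩
  · simpa only [e, hE.sig_apply, Function.comp_apply] using bic0_map (h3.comp (bic0_sig hE (-t))) (E.U t)
  · simpa only [e, ← E.sig_star, hE.sig_apply, Function.comp_apply]
      using bic0_map (h4.comp (bic0_sig hE (-t))) (E.U t)

theorem bic_mem (h : x ∈ Bic M J ζ) : x ∈ M := h.1

theorem bic_one : (1 : H →L[ℂ] H) ∈ Bic M J ζ := bet_one 0

theorem bic_star (hs : StdV M J ζ) (h : x ∈ Bic M J ζ) : star x ∈ Bic M J ζ := by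
  have h1 := Bet.adj hs h
  rwa [neg_zero] at h1

theorem bic_mul (hs : StdV M J ζ) (h : x ∈ Bic M J ζ) (h' : y ∈ Bic M J ζ) : x * y ∈ Bic M J ζ :=
  Bet.mul hs h h'

theorem bic_add (h : x ∈ Bic M J ζ) (h' : y ∈ Bic M J ζ) : x + y ∈ Bic M J ζ := Bet.add h h'

theorem bic_sub (h : x ∈ Bic M J ζ) (h' : y ∈ Bic M J ζ) : x - y ∈ Bic M J ζ := Bet.sub h h'

theorem bic_smul (c : ℂ) (h : x ∈ Bic M J ζ) : c • x ∈ Bic M J ζ := Bet.smul h c

theorem bic_sig (hE : ModD M J ζ E) (h : x ∈ Bic M J ζ) (t : ℝ) : E.sig t x ∈ Bic M J ζ :=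
  Bet.sig hE h t

theorem bic0_iff (hs : StdV M J ζ) : x ∈ Bic M J ζ ↔ x ∈ M ∧
    Tendsto (fun w => (x * w - w * x) ζ) (bic0F M J ζ 0) (𝓝 0) ∧
    Tendsto (fun w => (star x * w - w * star x) ζ) (bic0F M J ζ 0) (𝓝 0) := by
  refine ⟨fun h => ⟨h.1, (bic0_bet.1 h).2.2.1, (bic0_bet.1 (bic_star hs h)).2.2.1⟩, fun h =>
    bic0_bet.2 ⟨h.1, h.1, h.2.1, ?_⟩⟩
  have e : ∀ w : H →L[ℂ] H, star (x * w - w * x) = -(star x * star w - star w * star x) :=
    fun w => by simp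
  have h1 := bic0_star (s := 0) hs
  rw [neg_zero] at h1
  simpa only [e, neg_apply, neg_zero, Function.comp_apply] using (h.2.2.comp h1).neg

theorem bic0_est (hs : StdV M J ζ) (hx : x ∈ M) (hw : Eig M J ζ 0 δ w) :
    ‖(x * w - w * x) ζ‖ ≤ ‖x‖ * δ + 2 * ‖x ζ‖ := by
  obtain ⟨h1, h2, h3⟩ := eig_zero_iff.1 hw
  have e : (x * w - w * x) ζ = x (cm J w ζ) + (rm J w (x ζ) - w (x ζ)) := by
    simp only [cm, sub_apply, mul_apply_eq_comp, map_sub,
      hs.stdJ.comm_apply hx h1]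
    abel
  rw [e, two_mul]
  refine (norm_add_le _ _).trans (add_le_add ?_ ((norm_sub_le _ _).trans (add_le_add ?_ ?_)))
  · exact (x.le_opNorm _).trans (mul_le_mul_of_nonneg_left h3 (norm_nonneg _))
  · exact bic0_le (by rwa [norm_rm]) _
  · exact bic0_le h2 _

theorem bic0_closed (hs : StdV M J ζ) (hx : x ∈ M)
    (h : ∀ ε : ℝ, 0 < ε → ∃ z ∈ Bic M J ζ, ‖(x - z) ζ‖ ≤ ε) :
    Tendsto (fun w => (x * w - w * x) ζ) (bic0F M J ζ 0) (𝓝 0) := by
  refine bic0_tendsto.2 fun ε hε => ?_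
  obtain ⟨z, hz, h1⟩ := h (ε / 4) (by positivity)
  obtain ⟨δ, hδ, h2⟩ := hz.2.2 (ε / 4) (by positivity)
  have hK : 0 < ‖x - z‖ + 1 := by positivity
  refine ⟨min δ (ε / 4 / (‖x - z‖ + 1)), lt_min hδ (by positivity), fun w hw => ?_⟩
  have h3 := (h2 w (hw.mono (min_le_left _ _))).1
  have h4 := bic0_est hs (sub_mem hx hz.1) (hw.mono (min_le_right _ _))
  have h5 : ‖x - z‖ * (ε / 4 / (‖x - z‖ + 1)) ≤ ε / 4 := by
    rw [← mul_div_assoc, div_le_iff₀ hK]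
    nlinarith
  have e : x * w - w * x = ((x - z) * w - w * (x - z)) + (z * w - w * z) := by noncomm_ring
  rw [e, add_apply]
  refine (norm_add_le _ _).trans ?_
  linarith

theorem bic0_opInt {F : ℝ → (H →L[ℂ] H)} {K : ℝ} (hF : SCB F K) (hB : ∀ t, F t ∈ Bic M J ζ)
    {g : ℝ → ℂ} (hg : Integrable g) :
    Tendsto (fun w => (opInt g F * w - w * opInt g F) ζ) (bic0F M J ζ 0) (𝓝 0) := by
  have hi : ∀ w : H →L[ℂ] H, Integrable fun t => w (g t • F t ζ) := fun w =>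
    w.integrable_comp (hF.integrable hg ζ)
  have e : ∀ w : H →L[ℂ] H, (opInt g F * w - w * opInt g F) ζ
      = ∫ t, (g t • F t (w ζ) - w (g t • F t ζ)) := fun w => by
    rw [integral_sub (hF.integrable hg _) (hi w), w.integral_comp_comm (hF.integrable hg ζ),
      ← opInt_apply hF hg, ← opInt_apply hF hg]
    rfl
  have h1 := tendsto_integral_filter_of_dominated_convergence (μ := volume) (l := bic0F M J ζ 0)
    (F := fun w t => g t • F t (w ζ) - w (g t • F t ζ)) (f := fun _ => 0)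
    (fun t => ‖g t‖ * (2 * (K * ‖ζ‖)))
    (Eventually.of_forall fun w => ((hF.integrable hg _).sub (hi w)).aestronglyMeasurable)
    ((bic0_eig one_pos).mono fun w hw => Eventually.of_forall fun t => by
      have h2 : ∀ ξ, ‖F t ξ‖ ≤ K * ‖ξ‖ := fun ξ =>
        ((F t).le_opNorm ξ).trans (mul_le_mul_of_nonneg_right (hF.2 t) (norm_nonneg _))
      have h3 : ‖F t (w ζ)‖ ≤ K * ‖ζ‖ := (h2 _).trans
        (mul_le_mul_of_nonneg_left (bic0_le hw.2.1 _) ((norm_nonneg _).trans (hF.2 t)))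
      rw [map_smul, ← smul_sub, norm_smul, two_mul]
      exact mul_le_mul_of_nonneg_left ((norm_sub_le _ _).trans
        (add_le_add h3 ((bic0_le hw.2.1 _).trans (h2 _)))) (norm_nonneg _))
    (hg.norm.mul_const _)
    (Eventually.of_forall fun t => by
      simpa only [map_smul, smul_zero, sub_apply,
        mul_apply_eq_comp, smul_sub] using (bic0_bet.1 (hB t)).2.2.1.const_smul (g t))
  simpa only [e, integral_zero] using h1

theorem bic0_unit (hs : StdV M J ζ) (hx : x ∈ M) (hsa : IsSelfAdjoint x) (hn : ‖x‖ ≤ 1) :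
    ∃ u ∈ M, u ∈ unitary (H →L[ℂ] H) ∧ x = u + star u ∧ ‖cm J u ζ‖ ≤ ‖cm J x ζ‖ := by
  obtain ⟨h, hh⟩ : ∃ h : H →L[ℂ] H, h = ((1 / 2 : ℝ) : ℂ) • x := ⟨_, rfl⟩
  have hM : h ∈ M := hh ▸ vn_smul_mem _ hx
  have hs' : star h = h := by rw [hh, star_smul, hsa.star_eq, Complex.star_def, Complex.conj_ofReal]
  have hn' : ‖h‖ ≤ 1 / 2 := by
    rw [hh, norm_smul, Complex.norm_real, Real.norm_of_nonneg (by norm_num)]
    linarith
  have hc : ‖cm J h ζ‖ = ‖cm J x ζ‖ / 2 := by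
    rw [hh, cm_smul, norm_smul, Complex.norm_real, Real.norm_of_nonneg (by norm_num)]
    ring
  have h1 : h * h ≤ 1 := by
    have := star_mul_self_le_one (hn'.trans (by norm_num))
    rwa [hs'] at this
  have h2 : 0 ≤ h * h := by
    have := star_mul_self_nonneg h
    rwa [hs'] at this
  obtain ⟨k, k0, k1, k2, k3⟩ := exists_sqrt (sub_nonneg.2 h1)
  have k4 := k2 (sub_le_self _ h2)
  have ks : star k = k := (IsSelfAdjoint.of_nonneg k0).star_eq
  have kM : k ∈ M := mem_of_commute fun y hy => k3 y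
    (commute_of_mem (sub_mem (one_mem M) (mul_mem hM hM)) hy).symm
  have kh : h * k = k * h := k3 h (by noncomm_ring)
  have k5 : ∀ ξ, 3 / 4 * ‖ξ‖ ^ 2 ≤ (⟪ξ, k ξ⟫_ℂ).re := fun ξ => by
    refine le_trans ?_ (norm_apply_sq_le k0 k4 ξ)
    have a1 := norm_sq_apply h ξ
    rw [hs'] at a1
    rw [norm_sq_apply, ks, k1, sub_apply, inner_sub_right, Complex.sub_re,
      ← a1, one_apply_eq_self, inner_self_eq_norm_sq_to_K]
    have a2 : ‖h ξ‖ ≤ 1 / 2 * ‖ξ‖ :=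
      (h.le_opNorm ξ).trans (mul_le_mul_of_nonneg_right hn' (norm_nonneg _))
    have a3 : ((‖ξ‖ : ℂ) ^ 2).re = ‖ξ‖ ^ 2 := by rw [← Complex.ofReal_pow, Complex.ofReal_re]
    have a4 := pow_le_pow_left₀ (norm_nonneg _) a2 2
    refine le_trans ?_ (sub_le_sub_right a3.ge _)
    nlinarith
  have k6 : ‖cm J k ζ‖ ≤ ‖cm J h ζ‖ := by
    have a1 := cm_mul hs.stdJ kM kM ζ
    rw [k1, cm_sub, cm_one hs.stdJ.invol, zero_sub, cm_mul hs.stdJ hM hM] at a1
    have a2 : ‖k (cm J k ζ) + rm J k (cm J k ζ)‖ ≤ ‖cm J h ζ‖ := by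
      rw [← a1, norm_neg]
      have b1 := (h.le_opNorm (cm J h ζ)).trans (mul_le_mul_of_nonneg_right hn' (norm_nonneg _))
      have b2 := ((rm J h).le_opNorm (cm J h ζ)).trans
        (mul_le_mul_of_nonneg_right ((norm_rm h).trans_le hn') (norm_nonneg _))
      linarith [norm_add_le (h (cm J h ζ)) (rm J h (cm J h ζ))]
    generalize cm J k ζ = v at a2 ⊢
    have a3 := k5 v
    have a4 := k5 (J v)
    rw [← inner_rm hs.stdJ.invol, J.norm_map] at a4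
    have a5 : (⟪v, k v + rm J k v⟫_ℂ).re ≤ ‖v‖ * ‖cm J h ζ‖ :=
      (Complex.re_le_norm _).trans ((norm_inner_le_norm _ _).trans
        (mul_le_mul_of_nonneg_left a2 (norm_nonneg _)))
    rw [inner_add_right, Complex.add_re] at a5
    by_contra a6
    have a7 := not_le.1 a6
    have a8 := norm_nonneg (cm J h ζ)
    nlinarith
  have us : star (h + Complex.I • k) = h - Complex.I • k := by
    rw [star_add, star_smul, hs', ks, Complex.star_def, Complex.conj_I, neg_smul, sub_eq_add_neg]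
  have k7 : k * k = 1 - h * h := k1
  refine ⟨h + Complex.I • k, add_mem hM (vn_smul_mem _ kM), ⟨?_, ?_⟩, ?_, ?_⟩
  · rw [us]
    simp only [sub_mul, mul_add, smul_mul_assoc, mul_smul_comm, smul_smul, Complex.I_mul_I, kh, k7,
      smul_sub]
    module
  · rw [us]
    simp only [add_mul, mul_sub, smul_mul_assoc, mul_smul_comm, smul_smul, Complex.I_mul_I, kh, k7,
      smul_add, smul_sub]
    module
  · rw [us, hh]
    push_cast
    module
  · rw [cm_add, cm_smul]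
    refine (norm_add_le _ _).trans ?_
    rw [norm_smul, Complex.norm_I, one_mul]
    linarith

theorem bic_closed (hs : StdV M J ζ) (hx : x ∈ M)
    (h : ∀ ε : ℝ, 0 < ε → ∃ z ∈ Bic M J ζ, ‖(x - z) ζ‖ ≤ ε ∧ ‖(star (x - z)) ζ‖ ≤ ε) :
    x ∈ Bic M J ζ :=
  (bic0_iff hs).2 ⟨hx, bic0_closed hs hx fun ε hε => (h ε hε).imp fun z hz => ⟨hz.1, hz.2.1⟩,
    bic0_closed hs (star_mem hx) fun ε hε =>
      let ⟨z, h1, _, h2⟩ := h ε hε
      ⟨star z, bic_star hs h1, by rwa [← star_sub]⟩⟩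

theorem bic_opInt (hs : StdV M J ζ) {F : ℝ → (H →L[ℂ] H)} {K : ℝ} (hF : SCB F K)
    (hF' : SCB (fun t => star (F t)) K) (hB : ∀ t, F t ∈ Bic M J ζ) {g : ℝ → ℂ}
    (hg : Integrable g) : opInt g F ∈ Bic M J ζ := by
  refine (bic0_iff hs).2 ⟨opInt_mem hF hg fun t => (hB t).1, bic0_opInt hF hB hg, ?_⟩
  rw [star_opInt hF hF' hg]
  exact bic0_opInt hF' (fun t => bic_star hs (hB t))
    (Complex.conjCLE.toContinuousLinearMap.integrable_comp hg)

theorem bic_smear (hE : ModD M J ζ E) (h : x ∈ Bic M J ζ) {g : ℝ → ℂ} (hg : Integrable g) :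
    smear E g x ∈ Bic M J ζ := by
  refine bic_opInt hE.std (E.scb_sig x) ?_ (fun t => bic_sig hE h t) hg
  simpa only [E.sig_star, norm_star] using E.scb_sig (star x)

theorem bic_win (hE : ModD M J ζ E) (h : x ∈ Bic M J ζ) (hδ : 0 < δ) (ν : ℝ) :
    win E δ ν x ∈ Bic M J ζ :=
  bic_smear hE h (fker_integrable hδ ν)

theorem bic_of_unitary (hs : StdV M J ζ) (hy : y ∈ M) (hsa : IsSelfAdjoint y)
    (h : ∀ ε : ℝ, 0 < ε → ∃ δ : ℝ, 0 < δ ∧ ∀ u ∈ M, u ∈ unitary (H →L[ℂ] H) → ‖cm J u ζ‖ ≤ δ →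
      ‖(u * y - y * u) ζ‖ ≤ ε) : y ∈ Bic M J ζ := by
  have key : Tendsto (fun w => (y * w - w * y) ζ) (bic0F M J ζ 0) (𝓝 0) := by
    refine bic0_tendsto.2 fun ε hε => ?_
    obtain ⟨δ, hδ, h1⟩ := h (ε / 4) (by positivity)
    have hst : ∀ x : H →L[ℂ] H, ‖cm J (star x) ζ‖ = ‖cm J x ζ‖ := fun x => by
      rw [cm_star hs.stdJ.invol hs.fix, norm_neg, J.norm_map]
    have h2 : ∀ a ∈ M, IsSelfAdjoint a → ‖a‖ ≤ 1 → ‖cm J a ζ‖ ≤ δ →
        ‖(a * y - y * a) ζ‖ ≤ ε / 2 := fun a a1 a2 a3 a4 => by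
      obtain ⟨u, u1, u2, u3, u4⟩ := bic0_unit hs a1 a2 a3
      have b1 := h1 u u1 u2 (u4.trans a4)
      have b2 := h1 (star u) (star_mem u1) (Unitary.star_mem u2) ((hst u).trans_le (u4.trans a4))
      have e : a * y - y * a = (u * y - y * u) + (star u * y - y * star u) := by
        rw [u3]
        noncomm_ring
      rw [e, add_apply]
      linarith [norm_add_le ((u * y - y * u) ζ) ((star u * y - y * star u) ζ)]
    refine ⟨δ, hδ, fun w hw => ?_⟩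
    obtain ⟨w1, w2, w3⟩ := eig_zero_iff.1 hw
    obtain ⟨a, a1, b, b1, a2, b2, a3, b3, e, a4, b4⟩ := exists_re_im w1
    have a5 : ‖cm J a ζ‖ ≤ δ := by
      have c1 := congrArg (fun z => ‖cm J z ζ‖) a4
      simp only [cm_smul, cm_add, norm_smul, Complex.norm_ofNat] at c1
      linarith [norm_add_le (cm J w ζ) (cm J (star w) ζ), hst w]
    have b5 : ‖cm J b ζ‖ ≤ δ := by
      have c1 := congrArg (fun z => ‖cm J z ζ‖) b4
      simp only [cm_smul, cm_sub, norm_smul, Complex.norm_ofNat, norm_neg, Complex.norm_I,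
        one_mul] at c1
      linarith [norm_sub_le (cm J w ζ) (cm J (star w) ζ), hst w]
    have c1 := h2 a a1 a2 (a3.trans w2) a5
    have c2 := h2 b b1 b2 (b3.trans w2) b5
    have e' : y * w - w * y = -((a * y - y * a) + Complex.I • (b * y - y * b)) := by
      rw [e]
      simp only [mul_add, add_mul, smul_mul_assoc, mul_smul_comm, smul_sub]
      abel
    rw [e', neg_apply, norm_neg, add_apply,
      smul_apply]
    refine (norm_add_le _ _).trans ?_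
    rw [norm_smul, Complex.norm_I, one_mul]
    linarith
  exact (bic0_iff hs).2 ⟨hy, key, by rw [hsa.star_eq]; exact key⟩

theorem bic0_smul {t : ℝ} (ht : 0 < t) (h : x ∈ Bic M J ζ) : x ∈ Bic M J ((t : ℂ) • ζ) := by
  refine ⟨h.1, h.1, fun ε hε => ?_⟩
  obtain ⟨δ, hδ, h1⟩ := h.2.2 (ε / t) (div_pos hε ht)
  refine ⟨t * δ, mul_pos ht hδ, fun w hw => ?_⟩
  obtain ⟨w1, w2, w3⟩ := eig_zero_iff.1 hw
  rw [cm_smul_vec, norm_smul, Complex.norm_real, Real.norm_of_nonneg ht.le] at w3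
  have h2 := h1 w (eig_zero_iff.2 ⟨w1, w2, le_of_mul_le_mul_left w3 ht⟩)
  simp only [map_smul, norm_smul, Complex.norm_real, Real.norm_of_nonneg ht.le]
  exact ⟨(le_div_iff₀' ht).1 h2.1, (le_div_iff₀' ht).1 h2.2⟩

theorem bic_smul_vec {t : ℝ} (ht : 0 < t) : Bic M J ((t : ℂ) • ζ) = Bic M J ζ := by
  refine Set.Subset.antisymm (fun x h => ?_) fun x h => bic0_smul ht h
  have h1 := bic0_smul (inv_pos.2 ht) h
  rwa [smul_smul, ← Complex.ofReal_mul, inv_mul_cancel₀ ht.ne', Complex.ofReal_one, one_smul] at h1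

theorem BRel.symm (hs : StdV M J ζ) (h : BRel M J ζ s x y) : BRel M J ζ (-s) y x := by
  have h1 := h.2.2.2.adj hs
  rw [star_star, star_star] at h1
  exact ⟨h.2.1, h.1, h1, h.2.2.1.adj hs⟩

theorem BRel.star (hs : StdV M J ζ) (h : BRel M J ζ s x y) : BRel M J ζ s (star x) (star y) :=
  ⟨bic_star hs h.1, bic_star hs h.2.1, h.2.2.2, by rw [star_star, star_star]; exact h.2.2.1⟩

theorem BRel.mul (hs : StdV M J ζ) (h : BRel M J ζ s x y) (h' : BRel M J ζ s x' y') :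
    BRel M J ζ s (x * x') (y * y') :=
  ⟨bic_mul hs h.1 h'.1, bic_mul hs h.2.1 h'.2.1, h.2.2.1.mul hs h'.2.2.1, by
    rw [star_mul, star_mul]; exact h'.2.2.2.mul hs h.2.2.2⟩

theorem BRel.add (h : BRel M J ζ s x y) (h' : BRel M J ζ s x' y') :
    BRel M J ζ s (x + x') (y + y') :=
  ⟨bic_add h.1 h'.1, bic_add h.2.1 h'.2.1, h.2.2.1.add h'.2.2.1, by
    rw [star_add, star_add]; exact h.2.2.2.add h'.2.2.2⟩

theorem BRel.smul (h : BRel M J ζ s x y) (c : ℂ) : BRel M J ζ s (c • x) (c • y) :=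
  ⟨bic_smul c h.1, bic_smul c h.2.1, h.2.2.1.smul c, by
    rw [star_smul, star_smul]; exact h.2.2.2.smul _⟩

theorem BRel.sub (h : BRel M J ζ s x y) (h' : BRel M J ζ s x' y') :
    BRel M J ζ s (x - x') (y - y') :=
  ⟨bic_sub h.1 h'.1, bic_sub h.2.1 h'.2.1, h.2.2.1.sub h'.2.2.1, by
    rw [star_sub, star_sub]; exact h.2.2.2.sub h'.2.2.2⟩

theorem brel_one (s : ℝ) : BRel M J ζ s 1 1 :=
  ⟨bic_one, bic_one, bet_one s, by rw [star_one]; exact bet_one s⟩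

theorem brel_zero (hs : StdV M J ζ) (h : x ∈ Bic M J ζ) : BRel M J ζ 0 x x :=
  ⟨h, h, h, bic_star hs h⟩

theorem BRel.sig (hE : ModD M J ζ E) (h : BRel M J ζ s x y) (t : ℝ) :
    BRel M J ζ s (E.sig t x) (E.sig t y) :=
  ⟨bic_sig hE h.1 t, bic_sig hE h.2.1 t, h.2.2.1.sig hE t, by
    rw [← E.sig_star, ← E.sig_star]; exact h.2.2.2.sig hE t⟩

end Pool.Agent.P.MP_5d580a_an
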