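import Pool.Agent.P.MP_5d580a_an.Bic0

open scoped ComplexOrder InnerProductSpace ComplexConjugate BoundedContinuousFunction
open MeasureTheory Filter Topology

set_option linter.unusedSectionVars false
set_option linter.unusedVariables false

noncomputable section

namespace Pool.Agent.P.MP_5d580a_an

variable {H : Type} [NormedAddCommGroup H] [InnerProductSpace ℂ H] [CompleteSpace H]

variable {M : VonNeumannAlgebra H} {J : H ≃ₗᵢ⋆[ℂ] H} {ζ : H} {s t : ℝ} {x y y' z z' : H →L[ℂ] H}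

theorem exists_eig_iso (hF : EigFam M J ζ) (hs0 : s ≤ 0) {δ : ℝ} (hδ : 0 < δ) :
    ∃ w, Eig M J ζ s δ w ∧ star w * w = 1 := by
  obtain ⟨w, h1, h2, -⟩ := hF Unit (fun _ => s) (by simpa using hs0) δ hδ
  exact ⟨w (), h1 (), h2 ()⟩

theorem bic1_move (hs : StdV M J ζ) {δ : ℝ} {w : H →L[ℂ] H} (hw : Eig M J ζ s δ w) (hz : z ∈ M) :
    Real.exp (s / 2) * ‖z (w ζ)‖ ≤ ‖z ζ‖ + ‖z‖ * δ := by
  have e : ((Real.exp (s / 2) : ℝ) : ℂ) • z (w ζ) =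
      rm J w (z ζ) - z (rm J w ζ - ((Real.exp (s / 2) : ℝ) : ℂ) • w ζ) := by
    rw [map_sub, map_smul, hs.stdJ.comm_apply hz hw.1, sub_sub_cancel]
  have h1 : ‖rm J w (z ζ)‖ ≤ ‖z ζ‖ := by
    refine ((rm J w).le_opNorm _).trans ?_
    rw [norm_rm]
    exact mul_le_of_le_one_left (norm_nonneg _) hw.2.1
  calc Real.exp (s / 2) * ‖z (w ζ)‖ = ‖((Real.exp (s / 2) : ℝ) : ℂ) • z (w ζ)‖ := by
        rw [norm_smul, Complex.norm_real, Real.norm_of_nonneg (Real.exp_pos _).le]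
    _ ≤ ‖z ζ‖ + ‖z‖ * δ := by
        rw [e]
        exact (norm_sub_le _ _).trans (add_le_add h1 ((z.le_opNorm _).trans
          (mul_le_mul_of_nonneg_left hw.2.2 (norm_nonneg _))))

theorem bic1_lsc {l : Filter ℕ} [l.NeBot] {v : ℕ → H} {u : H} {c : ℝ} (hc : 0 ≤ c)
    (h : Tendsto (fun n => ⟪u, v n⟫_ℂ) l (𝓝 ⟪u, u⟫_ℂ)) (hv : ∀ᶠ n in l, ‖v n‖ ≤ c) : ‖u‖ ≤ c := by
  have h1 : ‖⟪u, u⟫_ℂ‖ ≤ ‖u‖ * c := le_of_tendsto h.norm (hv.mono fun n hn =>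
    (norm_inner_le_norm _ _).trans (mul_le_mul_of_nonneg_left hn (norm_nonneg _)))
  rw [inner_self_eq_norm_sq_to_K, norm_pow, RCLike.norm_ofReal, abs_norm] at h1
  rcases (norm_nonneg u).eq_or_lt with h0 | h0
  · rw [← h0]
    exact hc
  · nlinarith

theorem bic1_apply_le {w : H →L[ℂ] H} (hw : ‖w‖ ≤ 1) (ξ : H) : ‖w ξ‖ ≤ ‖ξ‖ :=
  (w.le_opNorm ξ).trans (mul_le_of_le_one_left (norm_nonneg _) hw)

theorem bic1_bet (hs : StdV M J ζ) (hx : x ∈ Bic M J ζ) {l : Filter ℕ} [l.NeBot] (hl : l ≤ atTop)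
    {v : ℕ → (H →L[ℂ] H)} (hv : ∀ n : ℕ, Eig M J ζ s (1 / ((n : ℝ) + 1)) (v n))
    (hv' : ∀ n, star (v n) * v n = 1)
    (h : ∀ ξ η, Tendsto (fun n => ⟪η, (star (v n) * x * v n) ξ⟫_ℂ) l (𝓝 ⟪η, y ξ⟫_ℂ)) :
    Bet M J ζ s x y := by
  have hxM : x ∈ M := hx.1
  refine ⟨hxM, mem_of_wot h (Eventually.of_forall fun n =>
    mul_mem (mul_mem (star_mem (hv n).1) hxM) (hv n).1), fun ε hε => ?_⟩
  have hE : 0 < Real.exp (s / 2) := Real.exp_pos _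
  obtain ⟨δ, hδ, h0⟩ := hx.2.2 (min ε (Real.exp (s / 2) * ε / 2)) (by positivity)
  refine ⟨δ / 2, by positivity, fun w hw => ?_⟩
  have h1 : ∀ ξ η, Tendsto (fun n => ⟪η, (x * w - w * (star (v n) * x * v n)) ξ⟫_ℂ) l
      (𝓝 ⟪η, (x * w - w * y) ξ⟫_ℂ) := fun ξ η => by
    have h2 := (h ξ ((star w) η)).const_sub ⟪η, (x * w) ξ⟫_ℂ
    simpa only [inner_star_left, sub_apply, inner_sub_right,
      mul_apply_eq_comp] using h2
  have ht : Tendsto (fun n : ℕ => 1 / ((n : ℝ) + 1)) l (𝓝 0) :=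
    tendsto_one_div_add_atTop_nhds_zero_nat.mono_left hl
  have h3 : ∀ᶠ n : ℕ in l, 1 / ((n : ℝ) + 1) ≤ δ / 2 := ht.eventually_le_const (by positivity)
  have h4 : ∀ᶠ n : ℕ in l, 2 * ‖x‖ * (1 / ((n : ℝ) + 1)) ≤ Real.exp (s / 2) * ε / 2 := by
    refine Tendsto.eventually_le_const (v := 0) (by positivity) ?_
    simpa using ht.const_mul (2 * ‖x‖)
  have h5 : ∀ n : ℕ, 1 / ((n : ℝ) + 1) ≤ δ / 2 → Eig M J ζ 0 δ (w * star (v n)) := fun n hn => by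
    have h6 := hw.mul hs ((hv n).star hs)
    rw [add_neg_cancel, ← mul_assoc, ← Real.exp_add, show s / 2 + -s / 2 = 0 by ring,
      Real.exp_zero, one_mul] at h6
    exact h6.mono (δ' := δ) (by linarith)
  have e : ∀ n, x * w - w * (star (v n) * x * v n) =
      (x * (w * star (v n)) - w * star (v n) * x) * v n := fun n => by
    simp only [sub_mul, mul_assoc, hv' n, mul_one]
  constructor
  · refine bic1_lsc hε.le (h1 ζ _) ?_
    filter_upwards [h3, h4] with n hn hn'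
    have h6 := h5 n hn
    have h7 := bic1_move hs (hv n) (sub_mem (mul_mem hxM h6.1) (mul_mem h6.1 hxM))
    have h8 : ‖x * (w * star (v n)) - w * star (v n) * x‖ ≤ 2 * ‖x‖ := by
      refine (norm_sub_le _ _).trans ?_
      have h9 := (norm_mul_le x _).trans (mul_le_of_le_one_right (norm_nonneg x) h6.2.1)
      have h10 := (norm_mul_le _ x).trans (mul_le_of_le_one_left (norm_nonneg x) h6.2.1)
      linarith
    have h11 := ((h0 _ h6).1).trans (min_le_right _ _)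
    have h12 := mul_le_mul_of_nonneg_right h8 (show (0 : ℝ) ≤ 1 / ((n : ℝ) + 1) by positivity)
    rw [e, mul_apply_eq_comp]
    refine le_of_mul_le_mul_left ?_ hE
    linarith
  · refine bic1_lsc hε.le (star_of_wot h1 ζ _) ?_
    filter_upwards [h3] with n hn
    rw [e, star_mul, mul_apply_eq_comp]
    exact (bic1_apply_le ((hv n).star hs).2.1 _).trans
      (((h0 _ (h5 n hn)).2).trans (min_le_left _ _))

theorem bic1_half (hs : StdV M J ζ) (hF : EigFam M J ζ) (hs0 : s ≤ 0) (h : Bet M J ζ s x y)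
    {ε : ℝ} (hε : 0 < ε) :
    ∃ δ : ℝ, 0 < δ ∧ ∀ a, Eig M J ζ 0 δ a → ‖(y * a - a * y) ζ‖ ≤ ε := by
  obtain ⟨δ, hδ, h0⟩ := h.2.2 (ε / 2) (by positivity)
  refine ⟨δ / 2, by positivity, fun a ha => ?_⟩
  obtain ⟨δ', hδ', h1⟩ := h.strong hs (a ζ) (half_pos hε)
  obtain ⟨w, hw, hw'⟩ := exists_eig_iso hF hs0 (lt_min hδ' (half_pos hδ))
  have h2 := hw.mul hs ha
  rw [add_zero] at h2
  have h3 : Real.exp (s / 2) ≤ 1 := Real.exp_le_one_iff.2 (by linarith)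
  have h4 := (h0 _ (h2.mono (by
    have := min_le_right δ' (δ / 2)
    nlinarith))).1
  have h5 := (h1 _ (hw.mono (min_le_left _ _))).1
  have e : w ((y * a - a * y) ζ) = (x * (w * a) - w * a * y) ζ - (x * w - w * y) (a ζ) := by
    simp only [sub_apply, mul_apply_eq_comp, map_sub]
    abel
  rw [← iso_norm_apply hw', e]
  exact (norm_sub_le _ _).trans (by linarith)

theorem brel_exists_neg (hs : StdV M J ζ) (hF : EigFam M J ζ) (hs0 : s ≤ 0)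
    (hx : x ∈ Bic M J ζ) : ∃ y, BRel M J ζ s x y ∧ ‖y‖ ≤ ‖x‖ := by
  choose v hv hv' using fun n : ℕ =>
    exists_eig_iso hF hs0 (show (0 : ℝ) < 1 / ((n : ℝ) + 1) by positivity)
  obtain ⟨y, hy, h⟩ := exists_wot_ultra (Ultrafilter.of (atTop : Filter ℕ))
    (fun n => star (v n) * x * v n) ‖x‖ fun n =>
      (norm_mul_le _ _).trans ((mul_le_of_le_one_right (norm_nonneg _) (hv n).2.1).trans
        ((norm_mul_le _ _).trans (mul_le_of_le_one_left (norm_nonneg _) ((hv n).star hs).2.1)))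
  have h1 : Bet M J ζ s x y := bic1_bet hs hx (Ultrafilter.of_le _) hv hv' h
  have h2 : Bet M J ζ s (star x) (star y) :=
    bic1_bet hs (bic_star hs hx) (Ultrafilter.of_le _) hv hv' fun ξ η => by
      simpa only [star_mul, star_star, mul_assoc] using star_of_wot h ξ η
  refine ⟨y, ⟨hx, ⟨h1.2.1, h1.2.1, fun ε hε => ?_⟩, h1, h2⟩, hy⟩
  obtain ⟨δ, hδ, h3⟩ := bic1_half hs hF hs0 h1 hε
  obtain ⟨δ', hδ', h4⟩ := bic1_half hs hF hs0 h2 hε
  refine ⟨min δ δ', lt_min hδ hδ', fun a ha => ⟨h3 a (ha.mono (min_le_left _ _)), ?_⟩⟩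
  have h5 := (ha.mono (min_le_right _ _)).star hs
  rw [neg_zero, zero_div, Real.exp_zero, one_mul] at h5
  rw [star_sub, star_mul, star_mul, ← neg_sub, neg_apply, norm_neg]
  exact h4 _ h5

theorem bic1_eq (hs : StdV M J ζ) (hy : y ∈ M) (hy' : y' ∈ M)
    (h : ∀ ε : ℝ, 0 < ε → ‖(y - y') ζ‖ ≤ ε) : y = y' :=
  sub_eq_zero.1 (hs.sepg _ (sub_mem hy hy') (norm_le_zero_iff.1
    (le_of_forall_pos_le_add fun ε hε => by simpa using h ε hε)))

theorem bic1_tri {w : H →L[ℂ] H} (hw : star w * w = 1) {ε : ℝ}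
    (h : ‖(x * w - w * y) ζ‖ ≤ ε / 2) (h' : ‖(x * w - w * y') ζ‖ ≤ ε / 2) :
    ‖(y - y') ζ‖ ≤ ε := by
  have e : w ((y - y') ζ) = (x * w - w * y') ζ - (x * w - w * y) ζ := by
    simp only [sub_apply, mul_apply_eq_comp, map_sub]
    abel
  rw [← iso_norm_apply hw, e]
  exact (norm_sub_le _ _).trans (by linarith)

theorem bet_unique (hs : StdV M J ζ) (hF : EigFam M J ζ) (hs0 : s ≤ 0) (h : Bet M J ζ s x y)
    (h' : Bet M J ζ s x y') : y = y' := by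
  refine bic1_eq hs h.2.1 h'.2.1 fun ε hε => ?_
  obtain ⟨δ, hδ, h1⟩ := h.2.2 (ε / 2) (half_pos hε)
  obtain ⟨δ', hδ', h2⟩ := h'.2.2 (ε / 2) (half_pos hε)
  obtain ⟨w, hw, hw'⟩ := exists_eig_iso hF hs0 (lt_min hδ hδ')
  exact bic1_tri hw' (h1 w (hw.mono (min_le_left _ _))).1 (h2 w (hw.mono (min_le_right _ _))).1

theorem bet_comp (hs : StdV M J ζ) (hF : EigFam M J ζ) (hs0 : s ≤ 0) (ht0 : t ≤ 0)
    (h₁ : Bet M J ζ s x y) (h₂ : Bet M J ζ t y z) (h₃ : Bet M J ζ (s + t) x z') : z = z' := by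
  refine bic1_eq hs h₂.2.1 h₃.2.1 fun ε hε => ?_
  obtain ⟨δ₃, hδ₃, k₃⟩ := h₃.2.2 (ε / 2) (half_pos hε)
  obtain ⟨δ₂, hδ₂, k₂⟩ := h₂.2.2 (ε / 4) (by positivity)
  obtain ⟨w₂, hw₂, hw₂'⟩ := exists_eig_iso hF ht0 (lt_min hδ₂ (half_pos hδ₃))
  obtain ⟨δ₁, hδ₁, k₁⟩ := h₁.strong hs (w₂ ζ) (show 0 < ε / 4 by positivity)
  obtain ⟨w₁, hw₁, hw₁'⟩ := exists_eig_iso hF hs0 (lt_min hδ₁ (half_pos hδ₃))
  have h3 : Real.exp (s / 2) ≤ 1 := Real.exp_le_one_iff.2 (by linarith)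
  have h4 := (k₃ _ ((hw₁.mul hs (hw₂.mono (min_le_right _ _))).mono (by
    have := min_le_right δ₁ (δ₃ / 2)
    nlinarith))).1
  have h5 := (k₁ _ (hw₁.mono (min_le_left _ _))).1
  have h6 := (k₂ _ (hw₂.mono (min_le_left _ _))).1
  refine bic1_tri (x := x) (w := w₁ * w₂) ?_ ?_ h4
  · rw [star_mul, mul_assoc, ← mul_assoc (star w₁), hw₁', one_mul, hw₂']
  · have e : (x * (w₁ * w₂) - w₁ * w₂ * z) ζ =
        (x * w₁ - w₁ * y) (w₂ ζ) + w₁ ((y * w₂ - w₂ * z) ζ) := by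
      simp only [sub_apply, mul_apply_eq_comp, map_sub]
      abel
    rw [e]
    refine (norm_add_le _ _).trans ?_
    rw [iso_norm_apply hw₁']
    linarith

theorem bet_cont (hs : StdV M J ζ) (hF : EigFam M J ζ) (h : Bet M J ζ s x y) {ε : ℝ}
    (hε : 0 < ε) : ∃ ρ : ℝ, 0 < ρ ∧ ∀ s' : ℝ, s' ≤ 0 → |s' - s| ≤ ρ →
      ∀ y', Bet M J ζ s' x y' → ‖(y' - y) ζ‖ ≤ ε := by
  obtain ⟨δ, hδ, h1⟩ := h.2.2 (ε / 2) (half_pos hε)
  have hc : ContinuousAt (fun r : ℝ => |Real.exp (r / 2) - Real.exp (s / 2)| * ‖ζ‖) s := by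
    fun_prop
  obtain ⟨ρ, hρ, h2⟩ := Metric.continuousAt_iff.1 hc (δ / 2) (half_pos hδ)
  refine ⟨ρ / 2, half_pos hρ, fun s' hs' hd y' hy' => ?_⟩
  have h3 := h2 (show dist s' s < ρ by rw [Real.dist_eq]; linarith)
  rw [sub_self, abs_zero, zero_mul, Real.dist_eq, sub_zero] at h3
  have h4 := (abs_lt.1 h3).2
  obtain ⟨δ', hδ', h5⟩ := hy'.2.2 (ε / 2) (half_pos hε)
  obtain ⟨w, hw, hw'⟩ := exists_eig_iso hF hs' (lt_min hδ' (half_pos hδ))
  exact bic1_tri hw' (h5 w (hw.mono (min_le_left _ _))).1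
    (h1 w (((hw.mono (min_le_right _ _)).shift s).mono (by linarith))).1

end Pool.Agent.P.MP_5d580a_an
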