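import Pool.Agent.P.MP_5d580a_an.Bic1

open scoped ComplexOrder InnerProductSpace ComplexConjugate BoundedContinuousFunction
open MeasureTheory Filter Topology

set_option linter.unusedSectionVars false
set_option linter.unusedVariables false

noncomputable section

namespace Pool.Agent.P.MP_5d580a_an

variable {H : Type} [NormedAddCommGroup H] [InnerProductSpace ℂ H] [CompleteSpace H]

variable {M : VonNeumannAlgebra H} {J : H ≃ₗᵢ⋆[ℂ] H} {ζ : H} {s : ℝ} {x y : H →L[ℂ] H}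

namespace Bic2Aux

theorem orth_norm_sq {ι : Type} [Fintype ι] (w : ι → (H →L[ℂ] H))
    (h1 : ∀ i, star (w i) * w i = 1) (h0 : ∀ i j, i ≠ j → star (w i) * w j = 0) (γ : ι → H) :
    ‖∑ j, w j (γ j)‖ ^ 2 = ∑ j, ‖γ j‖ ^ 2 := by
  classical
  have key : ∀ i j, ⟪w i (γ i), w j (γ j)⟫_ℂ = if i = j then ⟪γ i, γ i⟫_ℂ else 0 := by
    intro i j
    rw [← inner_star_right]
    have e : (star (w i)) (w j (γ j)) = (star (w i) * w j) (γ j) := rfl
    rw [e]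
    split_ifs with h
    · subst h
      rw [h1]
      rfl
    · rw [h0 i j h]
      simp
  rw [← @inner_self_eq_norm_sq ℂ, sum_inner]
  simp only [inner_sum, key, Finset.sum_ite_eq, Finset.mem_univ, if_true, map_sum]
  exact Finset.sum_congr rfl fun i _ => @inner_self_eq_norm_sq ℂ _ _ _ _ (γ i)

theorem sum_proj {ι : Type} [Fintype ι] (w : ι → (H →L[ℂ] H))
    (h1 : ∀ i, star (w i) * w i = 1) (h0 : ∀ i j, i ≠ j → star (w i) * w j = 0) :
    IsStarProjection (∑ j, w j * star (w j)) := by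
  classical
  refine ⟨?_, ?_⟩
  · unfold IsIdempotentElem
    rw [Finset.sum_mul_sum]
    refine Finset.sum_congr rfl fun i _ => ?_
    rw [Finset.sum_eq_single i]
    · rw [mul_assoc, ← mul_assoc (star (w i)), h1, one_mul]
    · intro j _ hj
      rw [mul_assoc, ← mul_assoc (star (w i)), h0 i j (Ne.symm hj), zero_mul, mul_zero]
    · intro h
      exact absurd (Finset.mem_univ i) h
  · unfold IsSelfAdjoint
    simp only [star_sum, star_mul, star_star]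

theorem sum_apply' {ι : Type} [Fintype ι] (T : ι → (H →L[ℂ] H)) (ξ : H) :
    (∑ j, T j) ξ = ∑ j, T j ξ := by
  simp only [_root_.sum_apply]

theorem norm_sum_proj {ι : Type} [Fintype ι] (w : ι → (H →L[ℂ] H))
    (h1 : ∀ i, star (w i) * w i = 1) (h0 : ∀ i j, i ≠ j → star (w i) * w j = 0) (ξ : H) :
    ‖(∑ j, w j * star (w j)) ξ‖ ^ 2 = ∑ j, ‖(star (w j)) ξ‖ ^ 2 := by
  rw [sum_apply', ← orth_norm_sq w h1 h0]
  rfl

theorem norm_conj_le {ι : Type} [Fintype ι] (w : ι → (H →L[ℂ] H))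
    (h1 : ∀ i, star (w i) * w i = 1) (h0 : ∀ i j, i ≠ j → star (w i) * w j = 0)
    (y : H →L[ℂ] H) : ‖∑ j, w j * y * star (w j)‖ ≤ ‖y‖ := by
  refine ContinuousLinearMap.opNorm_le_bound _ (norm_nonneg _) fun ξ => ?_
  have e : (∑ j, w j * y * star (w j)) ξ = ∑ j, w j (y ((star (w j)) ξ)) := by
    rw [sum_apply']
    rfl
  have h2 : ‖(∑ j, w j * y * star (w j)) ξ‖ ^ 2 ≤ (‖y‖ * ‖ξ‖) ^ 2 := by
    rw [e, orth_norm_sq w h1 h0]
    calc ∑ j, ‖y ((star (w j)) ξ)‖ ^ 2 ≤ ∑ j, ‖y‖ ^ 2 * ‖(star (w j)) ξ‖ ^ 2 := by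
          refine Finset.sum_le_sum fun j _ => ?_
          rw [← mul_pow]
          exact pow_le_pow_left₀ (norm_nonneg _) (y.le_opNorm _) 2
      _ = ‖y‖ ^ 2 * ‖(∑ j, w j * star (w j)) ξ‖ ^ 2 := by
          rw [norm_sum_proj w h1 h0, Finset.mul_sum]
      _ ≤ (‖y‖ * ‖ξ‖) ^ 2 := by
          rw [mul_pow]
          exact mul_le_mul_of_nonneg_left
            (pow_le_pow_left₀ (norm_nonneg _) (proj_norm_le (sum_proj w h1 h0) ξ) 2) (sq_nonneg _)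
  exact (pow_le_pow_iff_left₀ (norm_nonneg _) (by positivity) two_ne_zero).1 h2

theorem le_of_norm_le_one {w : H →L[ℂ] H} (hw : ‖w‖ ≤ 1) (ξ : H) : ‖w ξ‖ ≤ ‖ξ‖ :=
  (w.le_opNorm ξ).trans (mul_le_of_le_one_left (norm_nonneg _) hw)

theorem move (hs : StdV M J ζ) {δ : ℝ} {w T : H →L[ℂ] H} (hw : Eig M J ζ s δ w) (hT : T ∈ M) :
    ‖T (w ζ)‖ ≤ Real.exp (-s / 2) * (‖T ζ‖ + ‖T‖ * δ) := by
  obtain ⟨hwM, hw1, hw2⟩ := hw
  have hc : 0 < Real.exp (s / 2) := Real.exp_pos _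
  have e : ((Real.exp (s / 2) : ℝ) : ℂ) • T (w ζ) =
      rm J w (T ζ) - T (rm J w ζ - ((Real.exp (s / 2) : ℝ) : ℂ) • w ζ) := by
    rw [map_sub, map_smul, hs.stdJ.comm_apply hT hwM]
    abel
  have h1 : Real.exp (s / 2) * ‖T (w ζ)‖ ≤ ‖T ζ‖ + ‖T‖ * δ := by
    have h2 : ‖((Real.exp (s / 2) : ℝ) : ℂ) • T (w ζ)‖ = Real.exp (s / 2) * ‖T (w ζ)‖ := by
      rw [norm_smul, Complex.norm_real, Real.norm_of_nonneg hc.le]
    rw [← h2, e]
    refine (norm_sub_le _ _).trans (add_le_add ?_ ?_)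
    · exact le_of_norm_le_one (by rw [norm_rm]; exact hw1) _
    · exact (T.le_opNorm _).trans (mul_le_mul_of_nonneg_left hw2 (norm_nonneg _))
  have h3 : Real.exp (-s / 2) * Real.exp (s / 2) = 1 := by
    rw [← Real.exp_add]
    have : -s / 2 + s / 2 = 0 := by ring
    rw [this, Real.exp_zero]
  calc ‖T (w ζ)‖ = Real.exp (-s / 2) * (Real.exp (s / 2) * ‖T (w ζ)‖) := by
        rw [← mul_assoc, h3, one_mul]
    _ ≤ _ := mul_le_mul_of_nonneg_left h1 (Real.exp_pos _).le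

theorem tendsto_dl : Tendsto (fun k : ℕ => (1 : ℝ) / ((k : ℝ) + 1)) atTop (𝓝 0) :=
  tendsto_one_div_add_atTop_nhds_zero_nat

theorem exists_fam (hF : EigFam M J ζ) (n : ℕ) (s : ℝ) (hn : n * Real.exp s ≤ 1) :
    ∃ W : ℕ → Fin n → (H →L[ℂ] H), (∀ (k : ℕ) i, Eig M J ζ s (1 / ((k : ℝ) + 1)) (W k i)) ∧
      (∀ k i, star (W k i) * W k i = 1) ∧ ∀ k i j, i ≠ j → star (W k i) * W k j = 0 := by
  have h : ∀ k : ℕ, ∃ w : Fin n → (H →L[ℂ] H), (∀ i, Eig M J ζ s (1 / ((k : ℝ) + 1)) (w i)) ∧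
      (∀ i, star (w i) * w i = 1) ∧ ∀ i j, i ≠ j → star (w i) * w j = 0 := fun k =>
    hF (Fin n) (fun _ => s) (by simpa using hn) _ (by positivity)
  choose W h1 h2 h3 using h
  exact ⟨W, h1, h2, h3⟩

theorem bet_tendsto (h : Bet M J ζ s x y) {w : ℕ → (H →L[ℂ] H)}
    (hw : ∀ k : ℕ, Eig M J ζ s (1 / ((k : ℝ) + 1)) (w k)) :
    Tendsto (fun k => ‖(x * w k - w k * y) ζ‖) atTop (𝓝 0) := by
  refine Metric.tendsto_nhds.2 fun ε hε => ?_
  obtain ⟨δ, hδ, hd⟩ := h.2.2 (ε / 2) (half_pos hε)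
  filter_upwards [tendsto_dl.eventually (gt_mem_nhds hδ)] with k hk
  rw [Real.dist_0_eq_abs, abs_of_nonneg (norm_nonneg _)]
  exact (hd _ ((hw k).mono hk.le)).1.trans_lt (half_lt_self hε)

theorem star_tendsto (hs : StdV M J ζ) (h1 : ‖ζ‖ = 1) {w : ℕ → (H →L[ℂ] H)}
    (hw : ∀ k : ℕ, Eig M J ζ s (1 / ((k : ℝ) + 1)) (w k)) (hi : ∀ k, star (w k) * w k = 1) :
    Tendsto (fun k => ‖(star (w k)) ζ‖ ^ 2) atTop (𝓝 (Real.exp s)) := by
  have e : Real.exp s = Real.exp (s / 2) ^ 2 := by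
    rw [sq, ← Real.exp_add, add_halves]
  rw [e]
  refine Tendsto.pow ?_ 2
  rw [tendsto_iff_norm_sub_tendsto_zero]
  refine squeeze_zero (fun _ => norm_nonneg _) (fun k => ?_) tendsto_dl
  have h2 : ‖((Real.exp (s / 2) : ℝ) : ℂ) • w k ζ‖ = Real.exp (s / 2) := by
    rw [norm_smul, Complex.norm_real, Real.norm_of_nonneg (Real.exp_pos _).le,
      iso_norm_apply (hi k), h1, mul_one]
  rw [← norm_rm_apply (J := J) (w k) hs.fix, Real.norm_eq_abs]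
  nth_rewrite 1 [← h2]
  exact (abs_norm_sub_norm_le _ _).trans (hw k).2.2

theorem compl_tendsto (hs : StdV M J ζ) (h1 : ‖ζ‖ = 1) {n : ℕ} {W : ℕ → Fin n → (H →L[ℂ] H)}
    (hW : ∀ (k : ℕ) i, Eig M J ζ s (1 / ((k : ℝ) + 1)) (W k i))
    (hi : ∀ k i, star (W k i) * W k i = 1) (ho : ∀ k i j, i ≠ j → star (W k i) * W k j = 0) :
    Tendsto (fun k => ‖(1 - ∑ j, W k j * star (W k j)) ζ‖) atTop
      (𝓝 (Real.sqrt (1 - n * Real.exp s))) := by
  have e : ∀ k, ‖(1 - ∑ j, W k j * star (W k j)) ζ‖ =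
      Real.sqrt (1 - ∑ j, ‖(star (W k j)) ζ‖ ^ 2) := by
    intro k
    have h := proj_pyth (sum_proj (W k) (hi k) (ho k)) ζ
    rw [h1, norm_sum_proj (W k) (hi k) (ho k)] at h
    rw [← Real.sqrt_sq (norm_nonneg ((1 - ∑ j, W k j * star (W k j)) ζ))]
    congr 1
    linarith
  simp only [e]
  refine Tendsto.sqrt (Tendsto.const_sub _ ?_)
  have h := tendsto_finsetSum (Finset.univ : Finset (Fin n)) fun j _ =>
    star_tendsto hs h1 (fun k => hW k j) (fun k => hi k j)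
  simpa using h

theorem est_one (hs : StdV M J ζ) (h1 : ‖ζ‖ = 1) (hx : x ∈ M) {w : H →L[ℂ] H} {δ : ℝ}
    (hw : Eig M J ζ s δ w) (hi : star w * w = 1) :
    ‖⟪rm J (w * star w) ζ, x ζ⟫_ℂ - ((Real.exp s : ℝ) : ℂ) * ⟪ζ, y ζ⟫_ℂ‖ ≤
      δ * ‖x‖ + Real.exp (s / 2) * (‖x‖ * δ) + Real.exp s * ‖(x * w - w * y) ζ‖ := by
  obtain ⟨hwM, hw1, hw2⟩ := hw
  have hJ := hs.stdJ.invol
  set c : ℝ := Real.exp (s / 2) with hc
  have hc0 : 0 < c := Real.exp_pos _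
  have hcc : Real.exp s = c * c := by rw [hc, ← Real.exp_add, add_halves]
  set r : H := rm J w ζ with hr
  set d : H := r - (c : ℂ) • w ζ with hd
  have e1 : ⟪rm J (w * star w) ζ, x ζ⟫_ℂ = ⟪r, x r⟫_ℂ := by
    rw [rm_mul hJ, rm_star hJ]
    have : (star (rm J w) * rm J w) ζ = (star (rm J w)) r := rfl
    rw [this, inner_star_left, hr, hs.stdJ.comm_apply hx hwM]
  have e2 : ⟪ζ, y ζ⟫_ℂ = ⟪w ζ, w (y ζ)⟫_ℂ := by
    rw [← inner_star_right]
    have : (star w) (w (y ζ)) = (star w * w) (y ζ) := rfl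
    rw [this, hi]
    rfl
  have e3 : (x * w - w * y) ζ = x (w ζ) - w (y ζ) := rfl
  have e4 : r = d + (c : ℂ) • w ζ := by rw [hd]; abel
  have e5 : ⟪r, x r⟫_ℂ - ((Real.exp s : ℝ) : ℂ) * ⟪ζ, y ζ⟫_ℂ =
      ⟪d, x r⟫_ℂ + (c : ℂ) * ⟪w ζ, x d⟫_ℂ +
        ((Real.exp s : ℝ) : ℂ) * ⟪w ζ, (x * w - w * y) ζ⟫_ℂ := by
    rw [e2, e3, hcc, inner_sub_right]
    nth_rewrite 1 [e4]
    rw [inner_add_left, inner_smul_left, Complex.conj_ofReal]
    nth_rewrite 2 [e4]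
    rw [map_add, map_smul, inner_add_right, inner_smul_right]
    push_cast
    ring
  have hwζ : ‖w ζ‖ = 1 := by rw [iso_norm_apply hi, h1]
  have hr1 : ‖r‖ ≤ 1 := by
    rw [← h1]
    exact le_of_norm_le_one (by rw [norm_rm]; exact hw1) _
  have hδ : 0 ≤ δ := (norm_nonneg _).trans hw2
  rw [e1, e5]
  refine (norm_add₃_le).trans (add_le_add (add_le_add ?_ ?_) ?_)
  · refine (norm_inner_le_norm _ _).trans (mul_le_mul hw2 ?_ (norm_nonneg _) hδ)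
    exact (x.le_opNorm _).trans (mul_le_of_le_one_right (norm_nonneg _) hr1)
  · rw [norm_mul, Complex.norm_real, Real.norm_of_nonneg hc0.le]
    refine mul_le_mul_of_nonneg_left ((norm_inner_le_norm _ _).trans ?_) hc0.le
    rw [hwζ, one_mul]
    exact (x.le_opNorm _).trans (mul_le_mul_of_nonneg_left hw2 (norm_nonneg _))
  · rw [norm_mul, Complex.norm_real, Real.norm_of_nonneg (Real.exp_pos _).le]
    refine mul_le_mul_of_nonneg_left ((norm_inner_le_norm _ _).trans ?_) (Real.exp_pos _).le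
    rw [hwζ, one_mul]

theorem est (hs : StdV M J ζ) (h1 : ‖ζ‖ = 1) (hF : EigFam M J ζ) (h : Bet M J ζ s x y) (n : ℕ)
    (hn : n * Real.exp s ≤ 1) :
    ‖⟪ζ, x ζ⟫_ℂ - (n : ℂ) * (((Real.exp s : ℝ) : ℂ) * ⟪ζ, y ζ⟫_ℂ)‖ ≤
      Real.sqrt (1 - n * Real.exp s) * ‖x‖ := by
  obtain ⟨W, hW, hi, ho⟩ := exists_fam hF n s hn
  have hJ := hs.stdJ.invol
  have t1 : ∀ j, Tendsto (fun k => ⟪rm J (W k j * star (W k j)) ζ, x ζ⟫_ℂ) atTop
      (𝓝 (((Real.exp s : ℝ) : ℂ) * ⟪ζ, y ζ⟫_ℂ)) := by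
    intro j
    rw [tendsto_iff_norm_sub_tendsto_zero]
    refine squeeze_zero (fun _ => norm_nonneg _)
      (fun k => est_one (y := y) hs h1 h.1 (hW k j) (hi k j)) ?_
    have t := ((tendsto_dl.mul_const ‖x‖).add
      ((tendsto_dl.const_mul ‖x‖).const_mul (Real.exp (s / 2)))).add
      ((bet_tendsto h fun k => hW k j).const_mul (Real.exp s))
    simpa using t
  have t2 := (tendsto_finsetSum (Finset.univ : Finset (Fin n)) fun j _ => t1 j).const_sub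
    ⟪ζ, x ζ⟫_ℂ
  simp only [Finset.sum_const, Finset.card_univ, Fintype.card_fin, nsmul_eq_mul] at t2
  refine le_of_tendsto_of_tendsto' t2.norm ((compl_tendsto hs h1 hW hi ho).mul_const ‖x‖)
    fun k => ?_
  have hP := (sum_proj (W k) (hi k) (ho k)).one_sub
  have e : ⟪ζ, x ζ⟫_ℂ - ∑ j, ⟪rm J (W k j * star (W k j)) ζ, x ζ⟫_ℂ =
      ⟪rm J (1 - ∑ j, W k j * star (W k j)) ζ, x ζ⟫_ℂ := by
    rw [rm_sub, rm_one hJ, rm_sum, _root_.sub_apply, inner_sub_left, sum_apply',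
      sum_inner]
    rfl
  rw [e]
  refine (norm_inner_le_norm _ _).trans ?_
  rw [norm_rm_apply _ hs.fix, hP.isSelfAdjoint.star_eq]
  refine mul_le_mul_of_nonneg_left ((x.le_opNorm _).trans ?_) (norm_nonneg _)
  rw [h1, mul_one]

theorem est' (hs : StdV M J ζ) (h1 : ‖ζ‖ = 1) (hF : EigFam M J ζ) (h : Bet M J ζ s x y) :
    ‖⟪ζ, x ζ⟫_ℂ - ⟪ζ, y ζ⟫_ℂ‖ ≤ Real.sqrt (Real.exp s) * ‖x‖ + Real.exp s * ‖y‖ := by
  have hc : 0 < Real.exp s := Real.exp_pos s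
  set c := Real.exp s with hcd
  have hn : (⌊1 / c⌋₊ : ℝ) * c ≤ 1 := by
    have := Nat.floor_le (a := 1 / c) (by positivity)
    rwa [le_div_iff₀ hc] at this
  have hn' : 1 - (⌊1 / c⌋₊ : ℝ) * c ≤ c := by
    have := Nat.lt_floor_add_one (1 / c)
    rw [div_lt_iff₀ hc] at this
    nlinarith
  have h2 := est hs h1 hF h _ hn
  rw [← hcd] at h2
  have h3 : ‖⟪ζ, y ζ⟫_ℂ‖ ≤ ‖y‖ := by
    refine (norm_inner_le_norm _ _).trans ?_
    rw [h1, one_mul]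
    refine (y.le_opNorm _).trans ?_
    rw [h1, mul_one]
  have e : ⟪ζ, x ζ⟫_ℂ - ⟪ζ, y ζ⟫_ℂ =
      (⟪ζ, x ζ⟫_ℂ - (⌊1 / c⌋₊ : ℂ) * ((c : ℂ) * ⟪ζ, y ζ⟫_ℂ)) -
        ((1 - (⌊1 / c⌋₊ : ℝ) * c : ℝ) : ℂ) * ⟪ζ, y ζ⟫_ℂ := by
    push_cast
    ring
  rw [e]
  refine (norm_sub_le _ _).trans (add_le_add (h2.trans ?_) ?_)
  · exact mul_le_mul_of_nonneg_right (Real.sqrt_le_sqrt hn') (norm_nonneg _)
  · rw [norm_mul, Complex.norm_real, Real.norm_of_nonneg (by linarith)]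
    exact mul_le_mul hn' h3 (norm_nonneg _) hc.le

theorem norm_le_of_weak {ι : Type} {l : Filter ι} [l.NeBot] {v : ι → H} {u : H} {C : ℝ}
    (h : Tendsto (fun i => ⟪u, v i⟫_ℂ) l (𝓝 ⟪u, u⟫_ℂ)) (hC : ∀ᶠ i in l, ‖v i‖ ≤ C) : ‖u‖ ≤ C := by
  have hC0 : 0 ≤ C := by
    obtain ⟨i, hi⟩ := hC.exists
    exact (norm_nonneg _).trans hi
  have h2 : ‖⟪u, u⟫_ℂ‖ ≤ ‖u‖ * C := by
    refine le_of_tendsto h.norm ?_
    filter_upwards [hC] with i hi
    exact (norm_inner_le_norm _ _).trans (mul_le_mul_of_nonneg_left hi (norm_nonneg _))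
  rw [inner_self_eq_norm_sq_to_K, norm_pow, RCLike.norm_ofReal, abs_norm, sq] at h2
  rcases (norm_nonneg u).eq_or_lt with h0 | h0
  · rw [← h0]
    exact hC0
  · exact le_of_mul_le_mul_left h2 h0

theorem compl_strong (hs : StdV M J ζ) (h1 : ‖ζ‖ = 1) {n : ℕ} (hn : n * Real.exp s = 1)
    {W : ℕ → Fin n → (H →L[ℂ] H)}
    (hW : ∀ (k : ℕ) i, Eig M J ζ s (1 / ((k : ℝ) + 1)) (W k i))
    (hi : ∀ k i, star (W k i) * W k i = 1) (ho : ∀ k i j, i ≠ j → star (W k i) * W k j = 0)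
    (η : H) :
    Tendsto (fun k => ‖(1 - ∑ j, W k j * star (W k j)) η‖) atTop (𝓝 0) := by
  have t := compl_tendsto hs h1 hW hi ho
  rw [hn, sub_self, Real.sqrt_zero] at t
  have t2 := tendsto_of_cyc (M := M) hs.cyc' (l := atTop)
    (T := fun k => 1 - ∑ j, W k j * star (W k j)) (S := 0) 1 (Eventually.of_forall fun k =>
      ⟨sub_mem (one_mem _) (sum_mem fun j _ => mul_mem (hW k j).1 (star_mem (hW k j).1)),
        ContinuousLinearMap.opNorm_le_bound _ zero_le_one fun ξ => by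
          rw [one_mul]
          exact proj_norm_le (sum_proj (W k) (hi k) (ho k)).one_sub ξ⟩) (zero_mem _)
    (tendsto_zero_iff_norm_tendsto_zero.2 t) η
  exact tendsto_zero_iff_norm_tendsto_zero.1 t2

theorem norm_comm_le {a b v : H →L[ℂ] H} (hv : ‖v‖ ≤ 1) : ‖a * v - v * b‖ ≤ ‖a‖ + ‖b‖ :=
  (norm_sub_le _ _).trans (add_le_add
    ((norm_mul_le _ _).trans (mul_le_of_le_one_right (norm_nonneg _) hv))
    ((norm_mul_le _ _).trans (mul_le_of_le_one_left (norm_nonneg _) hv)))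

theorem wot_bet (hs : StdV M J ζ) (h1 : ‖ζ‖ = 1) {n : ℕ} {s₀ : ℝ} (hn : n * Real.exp s₀ = 1)
    {W : ℕ → Fin n → (H →L[ℂ] H)}
    (hW : ∀ (k : ℕ) i, Eig M J ζ s₀ (1 / ((k : ℝ) + 1)) (W k i))
    (hi : ∀ k i, star (W k i) * W k i = 1) (ho : ∀ k i j, i ≠ j → star (W k i) * W k j = 0)
    {y₀ : H →L[ℂ] H} (hb : Bet M J ζ (-s₀ + s) y₀ y) {l : Filter ℕ} [l.NeBot] (hl : l ≤ atTop)
    (hx : ∀ ξ η, Tendsto (fun k => ⟪η, (∑ j, W k j * y₀ * star (W k j)) ξ⟫_ℂ) l (𝓝 ⟪η, x ξ⟫_ℂ)) :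
    Bet M J ζ s x y := by
  have hxM : x ∈ M := mem_of_wot hx (Eventually.of_forall fun k =>
    sum_mem fun j _ => mul_mem (mul_mem (hW k j).1 hb.1) (star_mem (hW k j).1))
  refine ⟨hxM, hb.2.1, fun ε hε => ?_⟩
  set C : ℝ := Real.exp (-s₀ / 2) with hC
  set C' : ℝ := Real.exp (- -s₀ / 2) with hC'
  have hC0 : 0 < C := Real.exp_pos _
  have hC0' : 0 < C' := Real.exp_pos _
  set ε₁ : ℝ := ε / (2 * (n + 1) * (1 + C')) with hε₁
  have hε₁0 : 0 < ε₁ := by positivity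
  have hε₂ : (n + 1) * (1 + C') * ε₁ = ε / 2 := by
    rw [hε₁]
    field_simp
  have hn0 : (0 : ℝ) ≤ n := Nat.cast_nonneg n
  have hε₃ : n * ε₁ ≤ ε / 2 := by
    rw [← hε₂]
    nlinarith [mul_pos hC0' hε₁0, mul_nonneg hn0 (mul_pos hC0' hε₁0).le]
  have hε₄ : n * (C' * ε₁) ≤ ε / 2 := by
    rw [← hε₂]
    nlinarith [mul_pos hC0' hε₁0, mul_nonneg hn0 hε₁0.le]
  obtain ⟨δ₁, hδ₁, hd⟩ := hb.2.2 ε₁ hε₁0
  refine ⟨δ₁ / (2 * C), by positivity, fun w hw => ?_⟩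
  have hev : ∀ᶠ k : ℕ in atTop, C * (1 / ((k : ℝ) + 1)) < δ₁ / 2 := by
    have t := tendsto_dl.const_mul C
    rw [mul_zero] at t
    exact t.eventually (gt_mem_nhds (half_pos hδ₁))
  have hv : ∀ᶠ k : ℕ in atTop, ∀ j, Eig M J ζ (-s₀ + s) δ₁ (star (W k j) * w) := by
    filter_upwards [hev] with k hk j
    refine (((hW k j).star hs).mul hs hw).mono ?_
    have : C * (δ₁ / (2 * C)) = δ₁ / 2 := by field_simp
    rw [← hC, this]
    linarith
  constructor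
  · refine norm_le_of_weak (l := l)
      (v := fun k => ((∑ j, W k j * y₀ * star (W k j)) * w - w * y) ζ) ?_ (hl ?_)
    · have t := (hx (w ζ) ((x * w - w * y) ζ)).sub_const ⟪(x * w - w * y) ζ, w (y ζ)⟫_ℂ
      simp only [← inner_sub_right] at t
      exact t
    · have t := (compl_strong hs h1 hn hW hi ho (w (y ζ))).eventually (gt_mem_nhds (half_pos hε))
      filter_upwards [hv, t] with k hk hk'
      have e : (∑ j, W k j * y₀ * star (W k j)) * w - w * y =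
          ∑ j, W k j * (y₀ * (star (W k j) * w) - star (W k j) * w * y) -
            (1 - ∑ j, W k j * star (W k j)) * (w * y) := by
        simp only [mul_sub, sub_mul, Finset.sum_sub_distrib, Finset.sum_mul, one_mul, mul_assoc]
        abel
      show ‖((∑ j, W k j * y₀ * star (W k j)) * w - w * y) ζ‖ ≤ ε
      rw [e, _root_.sub_apply, sum_apply']
      refine (norm_sub_le _ _).trans ?_
      have a1 : ‖∑ j, (W k j * (y₀ * (star (W k j) * w) - star (W k j) * w * y)) ζ‖ ≤ n * ε₁ := by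
        refine (norm_sum_le _ _).trans ?_
        refine (Finset.sum_le_card_nsmul _ _ ε₁ fun j _ => ?_).trans (by simp)
        exact (le_of_norm_le_one (hW k j).2.1 _).trans (hd _ (hk j)).1
      have a2 : ‖((1 - ∑ j, W k j * star (W k j)) * (w * y)) ζ‖ < ε / 2 := hk'
      linarith
  · refine norm_le_of_weak (l := l)
      (v := fun k => (star ((∑ j, W k j * y₀ * star (W k j)) * w - w * y)) ζ) ?_ (hl ?_)
    · have e : ∀ (T : H →L[ℂ] H) (u : H), ⟪u, (star (T * w - w * y)) ζ⟫_ℂ =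
          ⟪w u, (star T) ζ⟫_ℂ - ⟪u, (star (w * y)) ζ⟫_ℂ := by
        intro T u
        rw [star_sub, star_mul T w, ← inner_star_right w, ← inner_sub_right]
        rfl
      generalize hu : (star (x * w - w * y)) ζ = u
      have t := (star_of_wot hx ζ (w u)).sub_const ⟪u, (star (w * y)) ζ⟫_ℂ
      simp only [← e] at t
      rw [hu] at t
      exact t
    · have t1 := (compl_strong hs h1 hn hW hi ho ζ).const_mul ‖y‖
      have t2 := ((((tendsto_dl.const_mul C).const_mul (‖y₀‖ + ‖y‖)).const_mul C').const_mul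
        (n : ℝ)).add t1
      simp only [mul_zero, add_zero] at t2
      filter_upwards [hv, t2.eventually (gt_mem_nhds (half_pos hε))] with k hk hk'
      have hP := (sum_proj (W k) (hi k) (ho k)).one_sub
      have e : star ((∑ j, W k j * y₀ * star (W k j)) * w - w * y) =
          ∑ j, star (y₀ * (star (W k j) * w) - star (W k j) * w * y) * star (W k j) -
            star y * star w * (1 - ∑ j, W k j * star (W k j)) := by
        simp only [star_sub, star_mul, star_sum, star_star, mul_sub, sub_mul,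
          Finset.sum_sub_distrib, Finset.mul_sum, mul_one, mul_assoc]
        abel
      show ‖(star ((∑ j, W k j * y₀ * star (W k j)) * w - w * y)) ζ‖ ≤ ε
      rw [e, _root_.sub_apply, sum_apply']
      refine (norm_sub_le _ _).trans ?_
      have a1 : ‖∑ j, (star (y₀ * (star (W k j) * w) - star (W k j) * w * y) * star (W k j)) ζ‖ ≤
          n * (C' * (ε₁ + (‖y₀‖ + ‖y‖) * (C * (1 / ((k : ℝ) + 1))))) := by
        refine (norm_sum_le _ _).trans ?_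
        refine (Finset.sum_le_card_nsmul _ _
          (C' * (ε₁ + (‖y₀‖ + ‖y‖) * (C * (1 / ((k : ℝ) + 1))))) fun j _ => ?_).trans (by simp)
        have hT : star (y₀ * (star (W k j) * w) - star (W k j) * w * y) ∈ M :=
          star_mem (sub_mem (mul_mem hb.1 (hk j).1) (mul_mem (hk j).1 hb.2.1))
        refine (move hs ((hW k j).star hs) hT).trans ?_
        refine mul_le_mul_of_nonneg_left (add_le_add (hd _ (hk j)).2 ?_) hC0'.le
        rw [norm_star]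
        exact mul_le_mul_of_nonneg_right (norm_comm_le (hk j).2.1) (by positivity)
      have a2 : ‖(star y * star w * (1 - ∑ j, W k j * star (W k j))) ζ‖ ≤
          ‖y‖ * ‖(1 - ∑ j, W k j * star (W k j)) ζ‖ := by
        refine ((star y).le_opNorm _).trans ?_
        rw [norm_star]
        exact mul_le_mul_of_nonneg_left
          (le_of_norm_le_one (by rw [norm_star]; exact hw.2.1) _) (norm_nonneg _)
      nlinarith

theorem comm_small (hs : StdV M J ζ) (h1 : ‖ζ‖ = 1) (hF : EigFam M J ζ) {n : ℕ}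
    (hn : n * Real.exp s = 1) (hb : Bet M J ζ s x y) {ε : ℝ} (hε : 0 < ε) :
    ∃ δ : ℝ, 0 < δ ∧ ∀ a, Eig M J ζ 0 δ a → ‖(x * a - a * x) ζ‖ ≤ ε := by
  obtain ⟨W, hW, hi, ho⟩ := exists_fam hF n s hn.le
  set C : ℝ := Real.exp (-s / 2) with hC
  set C' : ℝ := Real.exp (- -s / 2) with hC'
  have hC0 : 0 < C := Real.exp_pos _
  have hC0' : 0 < C' := Real.exp_pos _
  set ε₁ : ℝ := ε / (4 * (n + 1) * C') with hε₁
  have hε₁0 : 0 < ε₁ := by positivity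
  have hε₂ : (n + 1) * (C' * (ε₁ + ε₁)) = ε / 2 := by
    rw [hε₁]
    field_simp
    ring
  have hε₄ : n * (C' * (ε₁ + ε₁)) ≤ ε / 2 := by
    rw [← hε₂]
    nlinarith [mul_pos hC0' hε₁0]
  obtain ⟨δ₁, hδ₁, hd⟩ := hb.2.2 ε₁ hε₁0
  refine ⟨δ₁ / 2, half_pos hδ₁, fun a ha => ?_⟩
  have hev : ∀ᶠ k : ℕ in atTop, 1 / ((k : ℝ) + 1) < δ₁ / 2 :=
    tendsto_dl.eventually (gt_mem_nhds (half_pos hδ₁))
  have t1 := (compl_strong hs h1 hn hW hi ho ζ).const_mul (‖x‖ + ‖x‖)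
  have t2 := ((((tendsto_dl.const_mul C).const_mul (‖x‖ + ‖x‖)).const_mul C').const_mul
    (n : ℝ)).add t1
  simp only [mul_zero, add_zero] at t2
  obtain ⟨k, hk, hk'⟩ := (hev.and (t2.eventually (gt_mem_nhds (half_pos hε)))).exists
  have e : x * a - a * x = ∑ j, (x * a - a * x) * W k j * star (W k j) +
      (x * a - a * x) * (1 - ∑ j, W k j * star (W k j)) := by
    simp only [mul_assoc _ (W k _), ← Finset.mul_sum, ← mul_add, add_sub_cancel, mul_one]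
  have hc : ‖x * a - a * x‖ ≤ ‖x‖ + ‖x‖ := norm_comm_le ha.2.1
  have hcM : x * a - a * x ∈ M := sub_mem (mul_mem hb.1 ha.1) (mul_mem ha.1 hb.1)
  have a1 : ‖∑ j, ((x * a - a * x) * W k j * star (W k j)) ζ‖ ≤
      n * (C' * (ε₁ + ε₁ + (‖x‖ + ‖x‖) * (C * (1 / ((k : ℝ) + 1))))) := by
    refine (norm_sum_le _ _).trans ?_
    refine (Finset.sum_le_card_nsmul _ _
      (C' * (ε₁ + ε₁ + (‖x‖ + ‖x‖) * (C * (1 / ((k : ℝ) + 1))))) fun j _ => ?_).trans (by simp)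
    refine (move hs ((hW k j).star hs) (mul_mem hcM (hW k j).1)).trans ?_
    refine mul_le_mul_of_nonneg_left (add_le_add ?_ ?_) hC0'.le
    · have e2 : (x * a - a * x) * W k j =
          (x * (a * W k j) - a * W k j * y) - a * (x * W k j - W k j * y) := by
        simp only [mul_sub, sub_mul, mul_assoc]
        abel
      have hav : Eig M J ζ s δ₁ (a * W k j) := by
        have h2 := ha.mul hs (hW k j)
        rw [zero_add, zero_div, Real.exp_zero, one_mul] at h2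
        exact h2.mono (by linarith)
      rw [e2, _root_.sub_apply]
      refine (norm_sub_le _ _).trans (add_le_add (hd _ hav).1 ?_)
      exact (le_of_norm_le_one ha.2.1 _).trans (hd _ ((hW k j).mono (by linarith))).1
    · refine mul_le_mul_of_nonneg_right ((norm_mul_le _ _).trans ?_) (by positivity)
      exact (mul_le_of_le_one_right (norm_nonneg _) (hW k j).2.1).trans hc
  have a2 : ‖((x * a - a * x) * (1 - ∑ j, W k j * star (W k j))) ζ‖ ≤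
      (‖x‖ + ‖x‖) * ‖(1 - ∑ j, W k j * star (W k j)) ζ‖ :=
    ((x * a - a * x).le_opNorm _).trans (mul_le_mul_of_nonneg_right hc (norm_nonneg _))
  rw [e, _root_.add_apply, sum_apply']
  refine (norm_add_le _ _).trans ?_
  nlinarith

end Bic2Aux

open Bic2Aux

theorem brel_state (hs : StdV M J ζ) (h1 : ‖ζ‖ = 1) (hF : EigFam M J ζ) (hs0 : s ≤ 0)
    (h : BRel M J ζ s x y) : ⟪ζ, y ζ⟫_ℂ = ⟪ζ, x ζ⟫_ℂ := by
  have key : ∀ t : ℝ, t ≤ 0 → ‖⟪ζ, y ζ⟫_ℂ - ⟪ζ, x ζ⟫_ℂ‖ ≤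
      (Real.sqrt (Real.exp t) + Real.exp t) * (‖x‖ + ‖y‖) := by
    intro t ht
    obtain ⟨z, hz, hzn⟩ := brel_exists_neg hs hF ht h.2.1
    obtain ⟨z', hz', hzn'⟩ := brel_exists_neg hs hF (add_nonpos hs0 ht) h.1
    have hzz : z = z' := bet_comp hs hF hs0 ht h.2.2.1 hz.2.2.1 hz'.2.2.1
    subst hzz
    have a1 := est' hs h1 hF hz.2.2.1
    have a2 := est' hs h1 hF hz'.2.2.1
    have b1 : Real.exp (s + t) ≤ Real.exp t := Real.exp_le_exp.2 (by linarith)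
    have b2 := Real.sqrt_le_sqrt b1
    have e : ⟪ζ, y ζ⟫_ℂ - ⟪ζ, x ζ⟫_ℂ =
        (⟪ζ, y ζ⟫_ℂ - ⟪ζ, z ζ⟫_ℂ) - (⟪ζ, x ζ⟫_ℂ - ⟪ζ, z ζ⟫_ℂ) := by ring
    rw [e]
    refine (norm_sub_le _ _).trans ((add_le_add a1 a2).trans ?_)
    have c1 := mul_le_mul_of_nonneg_left hzn (Real.exp_pos t).le
    have c2 := mul_le_mul b1 hzn' (norm_nonneg _) (Real.exp_pos t).le
    have c3 := mul_le_mul_of_nonneg_right b2 (norm_nonneg x)
    nlinarith
  have t : Tendsto (fun t : ℝ => (Real.sqrt (Real.exp t) + Real.exp t) * (‖x‖ + ‖y‖)) atBot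
      (𝓝 0) := by
    have t := (Real.tendsto_exp_atBot.sqrt.add Real.tendsto_exp_atBot).mul_const (‖x‖ + ‖y‖)
    simpa using t
  have h0 : ‖⟪ζ, y ζ⟫_ℂ - ⟪ζ, x ζ⟫_ℂ‖ ≤ 0 :=
    ge_of_tendsto t ((eventually_le_atBot 0).mono key)
  exact sub_eq_zero.1 (norm_le_zero_iff.1 h0)

theorem brel_onto (hs : StdV M J ζ) (h1 : ‖ζ‖ = 1) (hF : EigFam M J ζ) (hs0 : s ≤ 0)
    (hy : y ∈ Bic M J ζ) : ∃ x, BRel M J ζ s x y ∧ ‖x‖ ≤ ‖y‖ := by
  obtain ⟨n, hn⟩ := exists_nat_ge (Real.exp (-s))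
  have hn0 : (0 : ℝ) < n := (Real.exp_pos _).trans_le hn
  set s₀ : ℝ := -Real.log n with hs₀
  have hn1 : n * Real.exp s₀ = 1 := by
    rw [hs₀, Real.exp_neg, Real.exp_log hn0, mul_inv_cancel₀ hn0.ne']
  have hle : s₀ - s ≤ 0 := by
    have := (Real.le_log_iff_exp_le hn0).2 hn
    linarith
  obtain ⟨y₀, hy₀, hy₀n⟩ := brel_exists_neg hs hF hle hy
  have hb := hy₀.symm hs
  have e : -(s₀ - s) = -s₀ + s := by ring
  rw [e] at hb
  have hb0 := brel_zero hs hb.1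
  have e0 : (0 : ℝ) = -s₀ + s₀ := by ring
  rw [e0] at hb0
  obtain ⟨W, hW, hi, ho⟩ := exists_fam hF n s₀ hn1.le
  obtain ⟨x, hxn, hx⟩ := exists_wot_ultra (Ultrafilter.of (atTop : Filter ℕ))
    (fun k => ∑ j, W k j * y₀ * star (W k j)) ‖y₀‖ fun k => norm_conj_le (W k) (hi k) (ho k) y₀
  have hl : ((Ultrafilter.of (atTop : Filter ℕ) : Ultrafilter ℕ) : Filter ℕ) ≤ atTop :=
    Ultrafilter.of_le _
  have hx' : ∀ ξ η, Tendsto (fun k => ⟪η, (∑ j, W k j * star y₀ * star (W k j)) ξ⟫_ℂ)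
      (Ultrafilter.of (atTop : Filter ℕ) : Ultrafilter ℕ) (𝓝 ⟪η, (star x) ξ⟫_ℂ) := by
    intro ξ η
    have t := star_of_wot hx ξ η
    simp only [star_sum, star_mul, star_star, ← mul_assoc] at t
    exact t
  have b1 := wot_bet hs h1 hn1 hW hi ho hb.2.2.1 hl hx
  have b2 := wot_bet hs h1 hn1 hW hi ho hb.2.2.2 hl hx'
  have b3 := wot_bet hs h1 hn1 hW hi ho hb0.2.2.1 hl hx
  have b4 := wot_bet hs h1 hn1 hW hi ho hb0.2.2.2 hl hx'
  refine ⟨x, ⟨⟨b1.1, b1.1, fun ε hε => ?_⟩, hy, b1, b2⟩, hxn.trans hy₀n⟩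
  obtain ⟨δ₁, hδ₁, hd₁⟩ := comm_small hs h1 hF hn1 b3 hε
  obtain ⟨δ₂, hδ₂, hd₂⟩ := comm_small hs h1 hF hn1 b4 hε
  refine ⟨min δ₁ δ₂, lt_min hδ₁ hδ₂, fun a ha => ⟨hd₁ a (ha.mono (min_le_left _ _)), ?_⟩⟩
  have ha' := (ha.mono (min_le_right _ _)).star hs
  rw [neg_zero, zero_div, Real.exp_zero, one_mul] at ha'
  have e2 : star (x * a - a * x) = -(star x * star a - star a * star x) := by
    rw [star_sub, star_mul, star_mul, neg_sub]
  rw [e2, _root_.neg_apply, norm_neg]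
  exact hd₂ _ ha'

end Pool.Agent.P.MP_5d580a_an
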