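import Pool.Agent.P.MP_5d580a_an.Basic

open scoped ComplexOrder InnerProductSpace ComplexConjugate BoundedContinuousFunction
open MeasureTheory Filter Topology

set_option linter.unusedSectionVars false
set_option linter.unusedVariables false

noncomputable section

namespace Pool.Agent.P.MP_5d580a_an

variable {H : Type} [NormedAddCommGroup H] [InnerProductSpace ℂ H] [CompleteSpace H]

variable {M : VonNeumannAlgebra H}

theorem exists_wot_ultra {ι : Type} (𝒰 : Ultrafilter ι) (T : ι → (H →L[ℂ] H)) (K : ℝ)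
    (hK : ∀ i, ‖T i‖ ≤ K) :
    ∃ S : H →L[ℂ] H, ‖S‖ ≤ K ∧
      ∀ ξ η, Tendsto (fun i => ⟪η, T i ξ⟫_ℂ) 𝒰 (𝓝 ⟪η, S ξ⟫_ℂ) := by
  obtain ⟨i₀⟩ : Nonempty ι := 𝒰.neBot.nonempty
  have hK0 : 0 ≤ K := (norm_nonneg _).trans (hK i₀)
  have hb : ∀ i ξ η, ‖⟪T i ξ, η⟫_ℂ‖ ≤ K * ‖ξ‖ * ‖η‖ := by
    intro i ξ η
    calc ‖⟪T i ξ, η⟫_ℂ‖ ≤ ‖T i ξ‖ * ‖η‖ := norm_inner_le_norm _ _
      _ ≤ K * ‖ξ‖ * ‖η‖ := by
        gcongr
        exact (T i).le_of_opNorm_le (hK i) ξ
  have hlim : ∀ ξ η, ∃ z : ℂ, Tendsto (fun i => ⟪T i ξ, η⟫_ℂ) 𝒰 (𝓝 z) := by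
    intro ξ η
    have h1 : (↑(𝒰.map fun i => ⟪T i ξ, η⟫_ℂ) : Filter ℂ) ≤
        𝓟 (Metric.closedBall (0 : ℂ) (K * ‖ξ‖ * ‖η‖)) := by
      rw [Ultrafilter.coe_map, le_principal_iff, mem_map]
      refine Filter.univ_mem' fun i => ?_
      simpa using hb i ξ η
    obtain ⟨z, -, hz⟩ := (isCompact_closedBall (0 : ℂ) _).ultrafilter_le_nhds _ h1
    exact ⟨z, hz⟩
  choose L hL using hlim
  have hLb : ∀ ξ η, ‖L ξ η‖ ≤ K * ‖ξ‖ * ‖η‖ := fun ξ η =>
    le_of_tendsto (hL ξ η).norm (Eventually.of_forall fun i => hb i ξ η)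
  let φ : H → (H →L[ℂ] ℂ) := fun ξ => LinearMap.mkContinuous
    { toFun := L ξ
      map_add' := fun a b => by
        refine tendsto_nhds_unique (hL ξ (a + b)) ?_
        simpa only [inner_add_right] using (hL ξ a).add (hL ξ b)
      map_smul' := fun c a => by
        refine tendsto_nhds_unique (hL ξ (c • a)) ?_
        simpa only [inner_smul_right, RingHom.id_apply, smul_eq_mul] using (hL ξ a).const_mul c }
    (K * ‖ξ‖) (hLb ξ)
  let s : H → H := fun ξ => (InnerProductSpace.toDual ℂ H).symm (φ ξ)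
  have hs : ∀ ξ η, ⟪s ξ, η⟫_ℂ = L ξ η := fun ξ η => InnerProductSpace.toDual_symm_apply
  have hsb : ∀ ξ, ‖s ξ‖ ≤ K * ‖ξ‖ := by
    intro ξ
    have h1 := hLb ξ (s ξ)
    rw [← hs, inner_self_eq_norm_sq_to_K] at h1
    have h2 : ‖s ξ‖ * ‖s ξ‖ ≤ K * ‖ξ‖ * ‖s ξ‖ := by simpa [sq] using h1
    rcases (norm_nonneg (s ξ)).eq_or_lt with h0 | h0
    · rw [← h0]; positivity
    · exact le_of_mul_le_mul_right h2 h0
  let S₀ : H →ₗ[ℂ] H :=
    { toFun := s
      map_add' := fun a b => by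
        apply ext_inner_right ℂ
        intro η
        rw [inner_add_left, hs, hs, hs]
        refine tendsto_nhds_unique (hL (a + b) η) ?_
        simpa only [map_add, inner_add_left] using (hL a η).add (hL b η)
      map_smul' := fun c a => by
        apply ext_inner_right ℂ
        intro η
        rw [RingHom.id_apply, inner_smul_left, hs, hs]
        refine tendsto_nhds_unique (hL (c • a) η) ?_
        simpa only [map_smul, inner_smul_left] using (hL a η).const_mul (conj c) }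
  refine ⟨S₀.mkContinuous K hsb, S₀.mkContinuous_norm_le hK0 hsb, fun ξ η => ?_⟩
  have h1 := (Complex.continuous_conj.tendsto _).comp (hL ξ η)
  rw [← hs, inner_conj_symm] at h1
  refine h1.congr fun i => ?_
  simp

theorem mul_eq_of_wot {ι : Type} {l : Filter ι} [l.NeBot] {T : ι → (H →L[ℂ] H)} {S : H →L[ℂ] H}
    (h : ∀ ξ η, Tendsto (fun i => ⟪η, T i ξ⟫_ℂ) l (𝓝 ⟪η, S ξ⟫_ℂ)) {a b c d : H →L[ℂ] H}
    (hT : ∀ᶠ i in l, a * T i * b = c * T i * d) : a * S * b = c * S * d := by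
  ext ξ
  apply ext_inner_left ℂ
  intro η
  simp only [mul_apply_eq_comp]
  rw [← inner_star_left a, ← inner_star_left c]
  refine tendsto_nhds_unique_of_eventuallyEq (h (b ξ) (star a η)) (h (d ξ) (star c η)) ?_
  filter_upwards [hT] with i hi
  rw [inner_star_left, inner_star_left]
  exact congrArg (fun X : H →L[ℂ] H => ⟪η, X ξ⟫_ℂ) hi

theorem commute_of_wot {ι : Type} {l : Filter ι} [l.NeBot] {T : ι → (H →L[ℂ] H)} {S : H →L[ℂ] H}
    (h : ∀ ξ η, Tendsto (fun i => ⟪η, T i ξ⟫_ℂ) l (𝓝 ⟪η, S ξ⟫_ℂ)) {x : H →L[ℂ] H}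
    (hT : ∀ᶠ i in l, T i * x = x * T i) : S * x = x * S := by
  have := mul_eq_of_wot h (a := 1) (b := x) (c := x) (d := 1) (by simpa using hT)
  simpa using this

theorem mem_of_wot {ι : Type} {l : Filter ι} [l.NeBot] {T : ι → (H →L[ℂ] H)} {S : H →L[ℂ] H}
    (h : ∀ ξ η, Tendsto (fun i => ⟪η, T i ξ⟫_ℂ) l (𝓝 ⟪η, S ξ⟫_ℂ))
    (hT : ∀ᶠ i in l, T i ∈ M) : S ∈ M := by
  refine mem_of_commute fun y hy => (commute_of_wot h ?_).symm
  filter_upwards [hT] with i hi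
  exact commute_of_mem hi hy

theorem star_of_wot {ι : Type} {l : Filter ι} {T : ι → (H →L[ℂ] H)} {S : H →L[ℂ] H}
    (h : ∀ ξ η, Tendsto (fun i => ⟪η, T i ξ⟫_ℂ) l (𝓝 ⟪η, S ξ⟫_ℂ)) (ξ η : H) :
    Tendsto (fun i => ⟪η, (star (T i)) ξ⟫_ℂ) l (𝓝 ⟪η, (star S) ξ⟫_ℂ) := by
  have h1 := (Complex.continuous_conj.tendsto _).comp (h η ξ)
  rw [inner_conj_symm, ← inner_star_right] at h1
  refine h1.congr fun i => ?_
  simp [inner_star_right]

theorem sa_of_wot {ι : Type} {l : Filter ι} [l.NeBot] {T : ι → (H →L[ℂ] H)} {S : H →L[ℂ] H}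
    (h : ∀ ξ η, Tendsto (fun i => ⟪η, T i ξ⟫_ℂ) l (𝓝 ⟪η, S ξ⟫_ℂ))
    (hT : ∀ᶠ i in l, IsSelfAdjoint (T i)) : IsSelfAdjoint S := by
  change star S = S
  ext ξ
  apply ext_inner_left ℂ
  intro η
  refine tendsto_nhds_unique_of_eventuallyEq (star_of_wot h ξ η) (h ξ η) ?_
  filter_upwards [hT] with i hi
  rw [hi.star_eq]

theorem lim_le_left {ι : Type} {l : Filter ι} [l.NeBot] {T : ι → (H →L[ℂ] H)} {S : H →L[ℂ] H}
    (h : ∀ ξ η, Tendsto (fun i => ⟪η, T i ξ⟫_ℂ) l (𝓝 ⟪η, S ξ⟫_ℂ)) {a : H →L[ℂ] H}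
    (hT : ∀ᶠ i in l, a ≤ T i) : a ≤ S := by
  rw [← sub_nonneg, nonneg_iff_inner]
  intro ξ
  rw [sub_apply, inner_sub_right]
  refine ge_of_tendsto ((h ξ ξ).sub_const ⟪ξ, a ξ⟫_ℂ) ?_
  filter_upwards [hT] with i hi
  have := nonneg_iff_inner.1 (sub_nonneg.2 hi) ξ
  rwa [sub_apply, inner_sub_right] at this

theorem lim_le_right {ι : Type} {l : Filter ι} [l.NeBot] {T : ι → (H →L[ℂ] H)} {S : H →L[ℂ] H}
    (h : ∀ ξ η, Tendsto (fun i => ⟪η, T i ξ⟫_ℂ) l (𝓝 ⟪η, S ξ⟫_ℂ)) {b : H →L[ℂ] H}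
    (hT : ∀ᶠ i in l, T i ≤ b) : S ≤ b := by
  rw [← sub_nonneg, nonneg_iff_inner]
  intro ξ
  rw [sub_apply, inner_sub_right]
  refine ge_of_tendsto ((h ξ ξ).const_sub ⟪ξ, b ξ⟫_ℂ) ?_
  filter_upwards [hT] with i hi
  have := nonneg_iff_inner.1 (sub_nonneg.2 hi) ξ
  rwa [sub_apply, inner_sub_right] at this

theorem le_of_wot {ι : Type} {l : Filter ι} [l.NeBot] {T : ι → (H →L[ℂ] H)} {S : H →L[ℂ] H}
    (h : ∀ ξ η, Tendsto (fun i => ⟪η, T i ξ⟫_ℂ) l (𝓝 ⟪η, S ξ⟫_ℂ)) {a b : H →L[ℂ] H}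
    (hT : ∀ᶠ i in l, a ≤ T i ∧ T i ≤ b) : a ≤ S ∧ S ≤ b := ⟨lim_le_left h (hT.mono fun _ hi => hi.1), lim_le_right h (hT.mono fun _ hi => hi.2)⟩

theorem apply_eq_of_wot {ι : Type} {l : Filter ι} [l.NeBot] {T : ι → (H →L[ℂ] H)}
    {S : H →L[ℂ] H} (h : ∀ ξ η, Tendsto (fun i => ⟪η, T i ξ⟫_ℂ) l (𝓝 ⟪η, S ξ⟫_ℂ)) {ξ γ : H}
    (hT : Tendsto (fun i => T i ξ) l (𝓝 γ)) : S ξ = γ := by
  apply ext_inner_left ℂ
  intro η
  exact tendsto_nhds_unique (h ξ η) (tendsto_const_nhds.inner hT)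

theorem wot_of_sot {ι : Type} {l : Filter ι} {T : ι → (H →L[ℂ] H)} {S : H →L[ℂ] H}
    (h : ∀ ξ, Tendsto (fun i => T i ξ) l (𝓝 (S ξ))) (ξ η : H) :
    Tendsto (fun i => ⟪η, T i ξ⟫_ℂ) l (𝓝 ⟪η, S ξ⟫_ℂ) := tendsto_const_nhds.inner (h ξ)

theorem proj_of_sot {ι : Type} {l : Filter ι} [l.NeBot] {T : ι → (H →L[ℂ] H)} {S : H →L[ℂ] H}
    (h : ∀ ξ, Tendsto (fun i => T i ξ) l (𝓝 (S ξ))) (hT : ∀ i, IsStarProjection (T i)) :
    IsStarProjection S := by
  have hw := wot_of_sot h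
  have hsa : IsSelfAdjoint S := sa_of_wot hw (Eventually.of_forall fun i => (hT i).isSelfAdjoint)
  refine ⟨?_, hsa⟩
  change S * S = S
  ext ξ
  apply ext_inner_left ℂ
  intro η
  rw [mul_apply_eq_comp, ← inner_star_left, hsa.star_eq]
  refine tendsto_nhds_unique ((h η).inner (𝕜 := ℂ) (h ξ)) ((hw ξ η).congr fun i => ?_)
  rw [← inner_star_right, (hT i).isSelfAdjoint.star_eq, ← mul_apply_eq_comp,
    (hT i).isIdempotentElem.eq]

theorem lim_norm_sq_le {a : H →L[ℂ] H} (ha : 0 ≤ a) (ξ : H) :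
    ‖a ξ‖ ^ 2 ≤ ‖a‖ * (⟪ξ, a ξ⟫_ℂ).re := by
  obtain ⟨s, hs0, hs, -, -⟩ := exists_sqrt ha
  have hsa : star s = s := (IsSelfAdjoint.of_nonneg hs0).star_eq
  have h1 : ‖s ξ‖ ^ 2 = (⟪ξ, a ξ⟫_ℂ).re := by rw [norm_sq_apply, hsa, hs]
  have h2 : ‖a‖ = ‖s‖ * ‖s‖ := by rw [← CStarRing.norm_star_mul_self, hsa, hs]
  have h3 : ‖a ξ‖ ≤ ‖s‖ * ‖s ξ‖ := by
    rw [← hs, mul_apply_eq_comp]
    exact s.le_opNorm _
  rw [← h1, h2]
  calc ‖a ξ‖ ^ 2 ≤ (‖s‖ * ‖s ξ‖) ^ 2 := by gcongr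
    _ = ‖s‖ * ‖s‖ * ‖s ξ‖ ^ 2 := by ring

theorem exists_mono_lim (y : ℕ → (H →L[ℂ] H)) (hsa : ∀ n, IsSelfAdjoint (y n))
    (hmono : ∀ n, y n ≤ y (n + 1)) (K : ℝ) (hK : ∀ n, ‖y n‖ ≤ K) :
    ∃ z : H →L[ℂ] H, IsSelfAdjoint z ∧ ‖z‖ ≤ K ∧ (∀ n, y n ≤ z) ∧
      ∀ ξ, Tendsto (fun n => y n ξ) atTop (𝓝 (z ξ)) := by
  obtain ⟨z, hzK, hz⟩ := exists_wot_ultra (Ultrafilter.of (atTop : Filter ℕ)) y K hK
  have hU : (↑(Ultrafilter.of (atTop : Filter ℕ)) : Filter ℕ) ≤ atTop := Ultrafilter.of_le _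
  have hmon : Monotone y := monotone_nat_of_le_succ hmono
  have hle : ∀ n, y n ≤ z := fun n =>
    lim_le_left hz (hU ((eventually_ge_atTop n).mono fun m hm => hmon hm))
  refine ⟨z, sa_of_wot hz (Eventually.of_forall hsa), hzK, hle, fun ξ => ?_⟩
  have hm2 : Monotone fun n => (⟪ξ, y n ξ⟫_ℂ).re := fun n m hnm => re_inner_mono (hmon hnm) ξ
  have hbd : BddAbove (Set.range fun n => (⟪ξ, y n ξ⟫_ℂ).re) :=
    ⟨(⟪ξ, z ξ⟫_ℂ).re, by rintro _ ⟨n, rfl⟩; exact re_inner_mono (hle n) ξ⟩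
  have h1 := tendsto_atTop_ciSup hm2 hbd
  have h2 : Tendsto (fun n => (⟪ξ, y n ξ⟫_ℂ).re) (Ultrafilter.of (atTop : Filter ℕ))
      (𝓝 (⟪ξ, z ξ⟫_ℂ).re) := (Complex.continuous_re.tendsto _).comp (hz ξ ξ)
  rw [tendsto_nhds_unique (h1.mono_left hU) h2] at h1
  have h3 : Tendsto (fun n => 2 * K * ((⟪ξ, z ξ⟫_ℂ).re - (⟪ξ, y n ξ⟫_ℂ).re)) atTop (𝓝 0) := by
    have := (h1.const_sub (⟪ξ, z ξ⟫_ℂ).re).const_mul (2 * K)
    simpa using this
  have h4 : Tendsto (fun n => ‖y n ξ - z ξ‖ ^ 2) atTop (𝓝 0) := by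
    refine squeeze_zero (fun n => sq_nonneg _) (fun n => ?_) h3
    have h5 := lim_norm_sq_le (sub_nonneg.2 (hle n)) ξ
    have h6 : ‖z - y n‖ ≤ 2 * K := by
      have := norm_sub_le z (y n)
      have := hK n
      linarith
    rw [sub_apply, inner_sub_right, Complex.sub_re, norm_sub_rev] at h5
    refine h5.trans (mul_le_mul_of_nonneg_right h6 ?_)
    exact sub_nonneg.2 (re_inner_mono (hle n) ξ)
  rw [tendsto_iff_norm_sub_tendsto_zero]
  have h7 := h4.sqrt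
  simpa using h7

theorem lim_piso_le {v w : H →L[ℂ] H} (hv : v * star v * v = v) (hw : w * star w * w = w)
    (h : w * (star v * v) = v) :
    (star w * w) * (star v * v) = star v * v ∧ (v * star v) * w = v ∧
      (w * star w) * (v * star v) = v * star v := by
  have he := piso_init hv
  have hp := piso_init hw
  have hs : star v = star v * v * star w := by
    conv_lhs => rw [← h]
    rw [star_mul, he.isSelfAdjoint.star_eq]
  have h1 : star v * v * (star w * w) * (star v * v) = star v * v := by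
    calc star v * v * (star w * w) * (star v * v) = (star v * v * star w) * (w * (star v * v)) := by
          simp only [mul_assoc]
      _ = star v * v := by rw [← hs, h]
  have h2 : (1 - star w * w) * (star v * v) = 0 := by
    rw [← CStarRing.star_mul_self_eq_zero_iff, star_mul, he.isSelfAdjoint.star_eq,
      hp.one_sub.isSelfAdjoint.star_eq, mul_assoc, ← mul_assoc (1 - star w * w),
      hp.one_sub.isIdempotentElem.eq, sub_mul, one_mul, mul_sub, he.isIdempotentElem.eq,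
      ← mul_assoc, h1, sub_self]
  have h3 : star w * w * (star v * v) = star v * v := by
    rw [sub_mul, one_mul, sub_eq_zero] at h2
    exact h2.symm
  have h4 : star v * v * (star w * w) = star v * v := by
    have := congrArg star h3
    rwa [star_mul, he.isSelfAdjoint.star_eq, hp.isSelfAdjoint.star_eq] at this
  refine ⟨h3, ?_, ?_⟩
  · calc v * star v * w = v * (star v * v * star w) * w := by rw [← hs]
      _ = v * (star v * v * (star w * w)) := by simp only [mul_assoc]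
      _ = v := by rw [h4, ← mul_assoc, hv]
  · have h5 : w * star w * v = v := by
      calc w * star w * v = w * star w * (w * (star v * v)) := by rw [h]
        _ = (w * star w * w) * (star v * v) := by simp only [mul_assoc]
        _ = v := by rw [hw, h]
    rw [← mul_assoc, h5]

/-- strong limit of an increasing sequence of projections -/
theorem lim_proj_lim (e : ℕ → (H →L[ℂ] H)) (he : ∀ n, IsStarProjection (e n))
    (hm : ∀ n m, n ≤ m → e m * e n = e n) :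
    ∃ p : H →L[ℂ] H, IsSelfAdjoint p ∧ (∀ n, p * e n = e n) ∧ (∀ n, e n * p = e n) ∧
      ∀ ξ, Tendsto (fun n => e n ξ) atTop (𝓝 (p ξ)) := by
  obtain ⟨p, hsa, -, -, hp⟩ := exists_mono_lim e (fun n => (he n).isSelfAdjoint)
    (fun n => ((he n).le_iff_mul_eq_right (he (n + 1))).2 (hm n (n + 1) n.le_succ)) 1
    (fun n => (he n).norm_le)
  have h1 : ∀ n, p * e n = e n := by
    intro n
    ext ξ
    refine tendsto_nhds_unique (hp (e n ξ)) (tendsto_const_nhds.congr' ?_)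
    filter_upwards [eventually_ge_atTop n] with m hm'
    rw [← mul_apply_eq_comp, hm n m hm']
  refine ⟨p, hsa, h1, fun n => ?_, hp⟩
  have := congrArg star (h1 n)
  rwa [star_mul, hsa.star_eq, (he n).isSelfAdjoint.star_eq] at this

theorem exists_piso_lim (v : ℕ → (H →L[ℂ] H)) (hv : ∀ n, v n * star (v n) * v n = v n)
    (hch : ∀ n, v (n + 1) * (star (v n) * v n) = v n) :
    ∃ w : H →L[ℂ] H, w * star w * w = w ∧ (∀ n, w * (star (v n) * v n) = v n) ∧
      (∀ ξ, Tendsto (fun n => v n ξ) atTop (𝓝 (w ξ))) ∧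
      ∀ ξ, Tendsto (fun n => (star (v n)) ξ) atTop (𝓝 ((star w) ξ)) := by
  have hch' : ∀ n m, n ≤ m → v m * (star (v n) * v n) = v n := by
    intro n m hnm
    induction m, hnm using Nat.le_induction with
    | base => rw [← mul_assoc, hv]
    | succ m hnm ih =>
      have h1 := (lim_piso_le (hv n) (hv m) ih).1
      rw [← h1, ← mul_assoc, hch m, ih]
  obtain ⟨e, hesa, he1, he2, he⟩ := lim_proj_lim (fun n => star (v n) * v n)
    (fun n => piso_init (hv n)) fun n m hnm => (lim_piso_le (hv n) (hv m) (hch' n m hnm)).1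
  obtain ⟨f, hfsa, hf1, hf2, hf⟩ := lim_proj_lim (fun n => v n * star (v n))
    (fun n => piso_fin (hv n)) fun n m hnm => (lim_piso_le (hv n) (hv m) (hch' n m hnm)).2.2
  obtain ⟨w, -, hw⟩ := exists_wot_ultra (Ultrafilter.of (atTop : Filter ℕ)) v 1
    fun n => piso_norm_le (hv n)
  have hU : (↑(Ultrafilter.of (atTop : Filter ℕ)) : Filter ℕ) ≤ atTop := Ultrafilter.of_le _
  have hw1 : ∀ n, w * (star (v n) * v n) = v n := by
    intro n
    ext ξ
    refine apply_eq_of_wot hw (tendsto_const_nhds.congr' (hU ?_))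
    filter_upwards [eventually_ge_atTop n] with m hm
    exact (congrArg (fun X : H →L[ℂ] H => X ξ) (hch' n m hm)).symm
  have hwe : w * e = w := by
    have := mul_eq_of_wot hw (a := 1) (b := e) (c := 1) (d := 1) (Eventually.of_forall fun m => by
      have h1 : v m * (star (v m) * v m) = v m := hch' m m le_rfl
      rw [one_mul, mul_one]
      conv_lhs => rw [← h1, mul_assoc, he2 m, h1])
    simpa using this
  have hw2 : ∀ n, star w * (v n * star (v n)) = star (v n) := by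
    intro n
    ext ξ
    refine apply_eq_of_wot (star_of_wot hw) (tendsto_const_nhds.congr' (hU ?_))
    filter_upwards [eventually_ge_atTop n] with m hm
    have h1 := congrArg star (lim_piso_le (hv n) (hv m) (hch' n m hm)).2.1
    rw [star_mul, (piso_fin (hv n)).isSelfAdjoint.star_eq] at h1
    exact (congrArg (fun X : H →L[ℂ] H => X ξ) h1).symm
  have hwf : star w * f = star w := by
    have := mul_eq_of_wot hw (a := f) (b := 1) (c := 1) (d := 1) (Eventually.of_forall fun m => by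
      rw [mul_one, mul_one, one_mul]
      conv_lhs => rw [← hv m, ← mul_assoc, hf1 m, hv m])
    have h2 := congrArg star this
    simpa [hfsa.star_eq] using h2
  have ht1 : ∀ ξ, Tendsto (fun n => v n ξ) atTop (𝓝 (w ξ)) := by
    intro ξ
    have := (w.continuous.tendsto _).comp (he ξ)
    rw [← mul_apply_eq_comp, hwe] at this
    refine this.congr fun n => ?_
    change (w * (star (v n) * v n)) ξ = _
    rw [hw1]
  have ht2 : ∀ ξ, Tendsto (fun n => (star (v n)) ξ) atTop (𝓝 ((star w) ξ)) := by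
    intro ξ
    have := ((star w).continuous.tendsto _).comp (hf ξ)
    rw [← mul_apply_eq_comp, hwf] at this
    refine this.congr fun n => ?_
    change (star w * (v n * star (v n))) ξ = _
    rw [hw2]
  have hwwe : star w * w = e := by
    ext ξ
    have h1 := ((star w).continuous.tendsto _).comp (ht1 ξ)
    refine tendsto_nhds_unique h1 ((he ξ).congr fun n => ?_)
    change _ = (star w * v n) ξ
    conv_rhs => rw [← hv n, ← mul_assoc, hw2]
  exact ⟨w, by rw [mul_assoc, hwwe, hwe], hw1, ht1, ht2⟩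

theorem piso_le {v w : H →L[ℂ] H} (hv : v * star v * v = v) (hw : w * star w * w = w)
    (h : w * (star v * v) = v) :
    (star w * w) * (star v * v) = star v * v ∧ (v * star v) * w = v ∧
      (w * star w) * (v * star v) = v * star v := lim_piso_le hv hw h

/-- Brezis-Browder ordering principle -/
theorem brezis_browder {S : Type*} (r : S → S → Prop) (hrefl : ∀ s, r s s)
    (htrans : ∀ s t u, r s t → r t u → r s u) (μ : S → ℝ) (hmono : ∀ s t, r s t → μ s ≤ μ t)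
    (K : ℝ) (hK : ∀ s, μ s ≤ K)
    (hchain : ∀ s : ℕ → S, (∀ n, r (s n) (s (n + 1))) → ∃ t, ∀ n, r (s n) t) (s₀ : S) :
    ∃ s, r s₀ s ∧ ∀ t, r s t → μ t ≤ μ s := by
  have hstep : ∀ (s : S) (n : ℕ), ∃ t, r s t ∧ ∀ u, r s u → μ u ≤ μ t + 1 / ((n : ℝ) + 1) := by
    intro s n
    have hne : (μ '' {t | r s t}).Nonempty := ⟨μ s, s, hrefl s, rfl⟩
    have hbd : BddAbove (μ '' {t | r s t}) := ⟨K, by rintro _ ⟨t, -, rfl⟩; exact hK t⟩
    have hpos : (0 : ℝ) < 1 / ((n : ℝ) + 1) := Nat.one_div_pos_of_nat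
    obtain ⟨_, ⟨t, ht, rfl⟩, hlt⟩ := exists_lt_of_lt_csSup hne
      (show sSup (μ '' {t | r s t}) - 1 / ((n : ℝ) + 1) < sSup (μ '' {t | r s t}) by linarith)
    refine ⟨t, ht, fun u hu => ?_⟩
    have := le_csSup hbd ⟨u, hu, rfl⟩
    linarith
  choose nx hnx1 hnx2 using hstep
  let s : ℕ → S := fun n => Nat.rec s₀ (fun n x => nx x n) n
  have hs : ∀ n, s (n + 1) = nx (s n) n := fun n => rfl
  obtain ⟨t, ht⟩ := hchain s fun n => by rw [hs]; exact hnx1 _ _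
  refine ⟨t, ht 0, fun u hu => ?_⟩
  refine le_of_forall_pos_lt_add fun ε hε => ?_
  obtain ⟨n, hn⟩ := exists_nat_one_div_lt hε
  have h1 := hnx2 (s n) n u (htrans _ _ _ (ht n) hu)
  have h2 := hmono _ _ (ht (n + 1))
  rw [hs] at h2
  linarith

theorem exists_min_norm (K : Set H) (hne : K.Nonempty) (hcl : IsClosed K) (hcv : Convex ℝ K) :
    ∃ v ∈ K, ∀ w ∈ K, ‖w - v‖ ^ 2 ≤ ‖w‖ ^ 2 - ‖v‖ ^ 2 := by
  let : InnerProductSpace ℝ H := InnerProductSpace.complexToReal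
  obtain ⟨v, hv, hmin⟩ := exists_norm_eq_iInf_of_complete_convex hne hcl.isComplete hcv (0 : H)
  refine ⟨v, hv, fun w hw => ?_⟩
  have h1 := (norm_eq_iInf_iff_real_inner_le_zero hcv hv).1 hmin w hw
  have h2 := norm_add_sq_real v (w - v)
  rw [add_sub_cancel] at h2
  rw [zero_sub, inner_neg_left] at h1
  linarith

/-- on bounded sets the strong topology is seen by a separating vector -/
theorem strong_of_cyc {ζ : H} (h : Cyc M.commutant ζ) (η : H) (K ε : ℝ) (hε : 0 < ε) :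
    ∃ ε' : ℝ, 0 < ε' ∧ ∀ z ∈ M, ‖z‖ ≤ K → ‖z ζ‖ ≤ ε' → ‖z η‖ ≤ ε := by
  have hK : 0 < |K| + 1 := by positivity
  obtain ⟨_, ⟨y, hy, rfl⟩, hd⟩ := h.exists_dist_lt η (show 0 < ε / (2 * (|K| + 1)) by positivity)
  rw [dist_eq_norm] at hd
  have hy0 : 0 < ‖y‖ + 1 := by positivity
  refine ⟨ε / (2 * (‖y‖ + 1)), by positivity, fun z hz hzK hζ => ?_⟩
  have h1 : z η = z (η - y ζ) + y (z ζ) := by
    rw [map_sub, commute_apply hz hy]; abel
  have h2 : ‖z (η - y ζ)‖ ≤ ε / 2 := by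
    calc ‖z (η - y ζ)‖ ≤ ‖z‖ * ‖η - y ζ‖ := z.le_opNorm _
      _ ≤ (|K| + 1) * (ε / (2 * (|K| + 1))) := by
        gcongr
        linarith [le_abs_self K]
      _ = ε / 2 := by field_simp
  have h3 : ‖y (z ζ)‖ ≤ ε / 2 := by
    calc ‖y (z ζ)‖ ≤ ‖y‖ * ‖z ζ‖ := y.le_opNorm _
      _ ≤ (‖y‖ + 1) * (ε / (2 * (‖y‖ + 1))) := by
        gcongr
        linarith
      _ = ε / 2 := by field_simp
  rw [h1]
  have := norm_add_le (z (η - y ζ)) (y (z ζ))
  linarith

theorem tendsto_of_cyc {ζ : H} (h : Cyc M.commutant ζ) {ι : Type} {l : Filter ι}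
    {T : ι → (H →L[ℂ] H)} {S : H →L[ℂ] H} (K : ℝ) (hT : ∀ᶠ i in l, T i ∈ M ∧ ‖T i‖ ≤ K)
    (hS : S ∈ M) (hζ : Tendsto (fun i => T i ζ) l (𝓝 (S ζ))) (η : H) :
    Tendsto (fun i => T i η) l (𝓝 (S η)) := by
  rw [Metric.tendsto_nhds] at hζ ⊢
  intro ε hε
  obtain ⟨ε', hε', h1⟩ := strong_of_cyc h η (K + ‖S‖) (ε / 2) (by positivity)
  filter_upwards [hT, hζ ε' hε'] with i hi hi2
  rw [dist_eq_norm] at hi2 ⊢
  have h2 := h1 (T i - S) (sub_mem hi.1 hS) ((norm_sub_le _ _).trans (by linarith [hi.2])) hi2.le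
  rw [sub_apply] at h2
  linarith

theorem continuous_of_cyc {ζ : H} (h : Cyc M.commutant ζ) {F : ℝ → (H →L[ℂ] H)} (K : ℝ)
    (hF : ∀ t, F t ∈ M ∧ ‖F t‖ ≤ K) (hζ : Continuous fun t => F t ζ) : SCB F K := by
  refine ⟨fun ξ => continuous_iff_continuousAt.2 fun t => ?_, fun t => (hF t).2⟩
  exact tendsto_of_cyc h K (Eventually.of_forall hF) (hF t).1 (hζ.tendsto t) ξ

/-- extension of a bounded relation to an operator vanishing on the orthogonal complement -/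
theorem exists_extend {C : Type} [AddCommGroup C] [Module ℂ C] {H₂ : Type} [NormedAddCommGroup H₂]
    [InnerProductSpace ℂ H₂] [CompleteSpace H₂] (f : C →ₗ[ℂ] H) (g : C →ₗ[ℂ] H₂) (K : ℝ)
    (hK : 0 ≤ K) (h : ∀ c, ‖g c‖ ≤ K * ‖f c‖) :
    ∃ W : H →L[ℂ] H₂, ‖W‖ ≤ K ∧ (∀ c, W (f c) = g c) ∧
      ∀ γ, (∀ c, ⟪f c, γ⟫_ℂ = 0) → W γ = 0 := by
  let V : Submodule ℂ H := (LinearMap.range f).topologicalClosure
  have : CompleteSpace V := (Submodule.isClosed_topologicalClosure _).completeSpace_coe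
  have hmem : ∀ c, f c ∈ V := fun c =>
    Submodule.le_topologicalClosure _ (LinearMap.mem_range_self f c)
  let e : C →ₗ[ℂ] V := f.codRestrict V hmem
  have hd : DenseRange e := by
    rw [DenseRange, Subtype.dense_iff]
    intro x hx
    refine closure_mono ?_ (show x ∈ closure (LinearMap.range f : Set H) from hx)
    rintro _ ⟨c, rfl⟩
    exact ⟨e c, ⟨c, rfl⟩, rfl⟩
  have hn : ∀ c, ‖g c‖ ≤ K * ‖e c‖ := h
  refine ⟨(g.extendOfNorm e).comp V.orthogonalProjectionOnto, ?_, fun c => ?_, fun γ hγ => ?_⟩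
  · calc _ ≤ ‖g.extendOfNorm e‖ * ‖V.orthogonalProjectionOnto‖ := ContinuousLinearMap.opNorm_comp_le _ _
      _ ≤ K * 1 := by
        gcongr
        · exact LinearMap.opNorm_extendOfNorm_le hd hK hn
        · exact V.orthogonalProjectionOnto_norm_le
      _ = K := mul_one K
  · rw [ContinuousLinearMap.comp_apply]
    have h1 : V.orthogonalProjectionOnto (f c) = e c :=
      Submodule.orthogonalProjectionOnto_mem_subspace_eq_self (e c)
    rw [h1, LinearMap.extendOfNorm_eq hd ⟨K, hn⟩]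
  · have h1 : γ ∈ Vᗮ := by
      rw [Submodule.orthogonal_closure, Submodule.mem_orthogonal]
      rintro _ ⟨c, rfl⟩
      exact hγ c
    rw [ContinuousLinearMap.comp_apply, Submodule.orthogonalProjectionOnto_apply_of_mem_orthogonal h1,
      map_zero]

/-- two operators agreeing on a range and on its orthogonal complement agree -/
theorem ext_range_orth {C : Type} [AddCommGroup C] [Module ℂ C] {H₂ : Type}
    [NormedAddCommGroup H₂] [InnerProductSpace ℂ H₂] (f : C →ₗ[ℂ] H) {W W' : H →L[ℂ] H₂}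
    (h₁ : ∀ c, W (f c) = W' (f c)) (h₂ : ∀ γ, (∀ c, ⟪f c, γ⟫_ℂ = 0) → W γ = W' γ) : W = W' := by
  let V : Submodule ℂ H := (LinearMap.range f).topologicalClosure
  have : CompleteSpace V := (Submodule.isClosed_topologicalClosure _).completeSpace_coe
  ext ξ
  obtain ⟨a, ha, b, hb, rfl⟩ := V.exists_add_mem_mem_orthogonal ξ
  have h3 : W a = W' a := by
    have hcl : IsClosed {x | W x = W' x} := isClosed_eq W.continuous W'.continuous
    refine hcl.closure_subset_iff.2 ?_ ha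
    rintro _ ⟨c, rfl⟩
    exact h₁ c
  have h4 : W b = W' b := by
    refine h₂ b fun c => ?_
    exact Submodule.inner_right_of_mem_orthogonal
      (Submodule.le_topologicalClosure _ (LinearMap.mem_range_self f c)) hb
  rw [map_add, map_add, h3, h4]

end Pool.Agent.P.MP_5d580a_an
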