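import Pool.Agent.P.MP_5d580a_an.Kernel
import Pool.Agent.P.MP_5d580a_an.Lim

open scoped ComplexOrder InnerProductSpace ComplexConjugate BoundedContinuousFunction
open MeasureTheory Filter Topology

set_option linter.unusedSectionVars false
set_option linter.unusedVariables false

noncomputable section

namespace Pool.Agent.P.MP_5d580a_an

variable {H : Type} [NormedAddCommGroup H] [InnerProductSpace ℂ H] [CompleteSpace H]

variable {M : VonNeumannAlgebra H} {g : ℝ → ℂ} {F : ℝ → (H →L[ℂ] H)} {K : ℝ}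

theorem four_norm_apply (hF : SCB F K) (t : ℝ) (ξ : H) : ‖F t ξ‖ ≤ K * ‖ξ‖ :=
  ((F t).le_opNorm ξ).trans (mul_le_mul_of_nonneg_right (hF.2 t) (norm_nonneg _))

theorem four_K_nonneg (hF : SCB F K) : 0 ≤ K := (norm_nonneg _).trans (hF.2 0)

theorem SCB.integrable (hF : SCB F K) (hg : Integrable g) (ξ : H) :
    Integrable fun t => g t • F t ξ :=
  hg.smul_bdd (K * ‖ξ‖) (hF.1 ξ).aestronglyMeasurable
    (Eventually.of_forall fun t => four_norm_apply hF t ξ)

theorem SCB.mul (hF : SCB F K) (a b : H →L[ℂ] H) :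
    SCB (fun t => a * F t * b) (‖a‖ * K * ‖b‖) := by
  refine ⟨fun ξ => ?_, fun t => ?_⟩
  · exact a.continuous.comp (hF.1 (b ξ))
  · calc ‖a * F t * b‖ ≤ ‖a * F t‖ * ‖b‖ := norm_mul_le _ _
      _ ≤ ‖a‖ * ‖F t‖ * ‖b‖ := mul_le_mul_of_nonneg_right (norm_mul_le _ _) (norm_nonneg _)
      _ ≤ ‖a‖ * K * ‖b‖ := mul_le_mul_of_nonneg_right
          (mul_le_mul_of_nonneg_left (hF.2 t) (norm_nonneg _)) (norm_nonneg _)

theorem four_norm_int_le (hF : SCB F K) (hg : Integrable g) (ξ : H) :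
    ‖∫ t, g t • F t ξ‖ ≤ (∫ t, ‖g t‖) * K * ‖ξ‖ := by
  rw [mul_assoc, ← integral_mul_const]
  refine norm_integral_le_of_norm_le (hg.norm.mul_const _) (Eventually.of_forall fun t => ?_)
  rw [norm_smul]
  exact mul_le_mul_of_nonneg_left (four_norm_apply hF t ξ) (norm_nonneg _)

theorem opInt_apply (hF : SCB F K) (hg : Integrable g) (ξ : H) :
    opInt g F ξ = ∫ t, g t • F t ξ := by
  have hex : ∃ T : H →L[ℂ] H, ∀ ξ, T ξ = ∫ t, g t • F t ξ := by
    let L : H →ₗ[ℂ] H :=
      { toFun := fun ξ => ∫ t, g t • F t ξ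
        map_add' := fun ξ η => by
          rw [← integral_add (hF.integrable hg ξ) (hF.integrable hg η)]
          simp only [map_add, smul_add]
        map_smul' := fun c ξ => by
          rw [RingHom.id_apply, ← integral_smul]
          simp only [map_smul, smul_comm c] }
    exact ⟨L.mkContinuous ((∫ t, ‖g t‖) * K) (four_norm_int_le hF hg), fun ξ => rfl⟩
  unfold opInt
  rw [dif_pos hex]
  exact hex.choose_spec ξ

theorem inner_opInt (hF : SCB F K) (hg : Integrable g) (ξ η : H) :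
    ⟪η, opInt g F ξ⟫_ℂ = ∫ t, g t * ⟪η, F t ξ⟫_ℂ := by
  rw [opInt_apply hF hg, ← integral_inner (hF.integrable hg ξ)]
  simp only [inner_smul_right]

theorem norm_opInt_le (hF : SCB F K) (hg : Integrable g) : ‖opInt g F‖ ≤ (∫ t, ‖g t‖) * K := by
  refine ContinuousLinearMap.opNorm_le_bound _
    (mul_nonneg (integral_nonneg fun t => norm_nonneg _) (four_K_nonneg hF)) fun ξ => ?_
  rw [opInt_apply hF hg]
  exact four_norm_int_le hF hg ξ

theorem opInt_sub_kernel (hF : SCB F K) {g' : ℝ → ℂ} (hg : Integrable g) (hg' : Integrable g') :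
    opInt (fun t => g t - g' t) F = opInt g F - opInt g' F := by
  ext ξ
  have h3 : Integrable fun t => g t - g' t := hg.sub hg'
  rw [sub_apply, opInt_apply hF hg, opInt_apply hF hg', opInt_apply hF h3,
    ← integral_sub (hF.integrable hg ξ) (hF.integrable hg' ξ)]
  simp only [sub_smul]

theorem opInt_sub (hF : SCB F K) {F' : ℝ → (H →L[ℂ] H)} {K' : ℝ} (hF' : SCB F' K')
    (hg : Integrable g) : opInt g (fun t => F t - F' t) = opInt g F - opInt g F' := by
  ext ξ
  have h3 : SCB (fun t => F t - F' t) (K + K') :=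
    ⟨fun ξ => (hF.1 ξ).sub (hF'.1 ξ), fun t =>
      (norm_sub_le _ _).trans (add_le_add (hF.2 t) (hF'.2 t))⟩
  rw [sub_apply, opInt_apply hF hg, opInt_apply hF' hg, opInt_apply h3 hg,
    ← integral_sub (hF.integrable hg ξ) (hF'.integrable hg ξ)]
  simp only [sub_apply, smul_sub]

theorem opInt_shift (hF : SCB F K) (hg : Integrable g) (r : ℝ) :
    opInt g (fun t => F (r + t)) = opInt (fun t => g (t - r)) F := by
  ext ξ
  have h3 : SCB (fun t => F (r + t)) K :=
    ⟨fun ξ => (hF.1 ξ).comp (continuous_const.add continuous_id), fun t => hF.2 _⟩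
  have h4 : Integrable fun t => g (t - r) := hg.comp_sub_right r
  rw [opInt_apply h3 hg, opInt_apply hF h4,
    ← integral_add_left_eq_self (fun t => g (t - r) • F t ξ) r]
  simp only [add_sub_cancel_left]

theorem mul_opInt (hF : SCB F K) (hg : Integrable g) (a b : H →L[ℂ] H) :
    a * opInt g F * b = opInt g fun t => a * F t * b := by
  ext ξ
  rw [opInt_apply (hF.mul a b) hg]
  simp only [mul_apply_eq_comp]
  rw [opInt_apply hF hg, ← a.integral_comp_comm (hF.integrable hg _)]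
  simp only [map_smul]

theorem opInt_commute (hF : SCB F K) (hg : Integrable g) {S : H →L[ℂ] H}
    (h : ∀ t, S * F t = F t * S) : S * opInt g F = opInt g F * S := by
  have h1 := mul_opInt hF hg S 1
  have h2 := mul_opInt hF hg 1 S
  simp only [mul_one, one_mul] at h1 h2
  rw [h1, h2]
  simp only [h]

theorem opInt_mem (hF : SCB F K) (hg : Integrable g) (h : ∀ t, F t ∈ M) : opInt g F ∈ M :=
  mem_of_commute fun y hy => opInt_commute hF hg fun t => (commute_of_mem (h t) hy).symm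

theorem star_opInt (hF : SCB F K) (hF' : SCB (fun t => star (F t)) K) (hg : Integrable g) :
    star (opInt g F) = opInt (fun t => conj (g t)) fun t => star (F t) := by
  have hc : Integrable fun t => conj (g t) := by
    refine hg.norm.mono' (Complex.continuous_conj.comp_aestronglyMeasurable hg.1)
      (Eventually.of_forall fun t => ?_)
    rw [RCLike.norm_conj]
  refine ext_inner_self fun ξ => ?_
  rw [inner_opInt hF' hc, inner_star_right, ← inner_conj_symm, inner_opInt hF hg, ← integral_conj]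
  refine integral_congr_ae (Eventually.of_forall fun t => ?_)
  simp only [map_mul, inner_conj_symm, inner_star_right]

theorem continuous_opInt_fker (hF : SCB F K) {δ : ℝ} (hδ : 0 < δ) :
    Continuous fun ν => opInt (fker δ ν) F := by
  refine continuous_iff_continuousAt.2 fun ν' => ?_
  have hc : Continuous fun ν => ∫ t, ‖fker δ ν t - fker δ ν' t‖ := by
    refine continuous_of_dominated (bound := fun t => 2 * (δ * fej (δ * t))) (fun ν => ?_)
      (fun ν => Eventually.of_forall fun t => ?_) ((fej_scale_integrable hδ).const_mul 2)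
      (Eventually.of_forall fun t => ?_)
    · exact ((fker_cont δ ν).sub (fker_cont δ ν')).norm.aestronglyMeasurable
    · rw [norm_norm]
      refine (norm_sub_le _ _).trans ?_
      rw [norm_fker hδ, norm_fker hδ]
      linarith
    · unfold fker
      fun_prop
  have h0 : Tendsto (fun ν => (∫ t, ‖fker δ ν t - fker δ ν' t‖) * K) (𝓝 ν') (𝓝 0) := by
    have := (hc.tendsto ν').mul_const K
    simpa using this
  refine tendsto_iff_norm_sub_tendsto_zero.2 (squeeze_zero (fun ν => norm_nonneg _) (fun ν => ?_) h0)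
  rw [← opInt_sub_kernel hF (fker_integrable hδ ν) (fker_integrable hδ ν')]
  exact norm_opInt_le hF ((fker_integrable hδ ν).sub (fker_integrable hδ ν'))

theorem four_norm_exp (t l : ℝ) : ‖Complex.exp (Complex.I * t * l)‖ = 1 := by
  have : Complex.I * t * l = ((t * l : ℝ) : ℂ) * Complex.I := by push_cast; ring
  rw [this, Complex.norm_exp_ofReal_mul_I]

theorem SpecCalc.map_chk (E : SpecCalc ℝ H) (hg : Integrable g) (ξ : H) :
    E.Φ (chk g) ξ = ∫ t, g t • E.U t ξ := by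
  have hU : SCB E.U 1 := ⟨E.continuous_U, E.norm_U_le⟩
  have key : E.Φ (chk g) = opInt g E.U := by
    refine ext_inner_self fun η => ?_
    have := E.fin η
    rw [E.inner _ (bm_chk hg), inner_opInt hU hg]
    unfold chk
    have hi : Integrable (Function.uncurry fun (l t : ℝ) => g t * Complex.exp (Complex.I * t * l))
        ((E.μ η).prod volume) := by
      refine (hg.comp_snd (E.μ η)).mul_bdd (c := 1) ?_ (Eventually.of_forall fun p => ?_)
      · exact (by fun_prop : Continuous fun p : ℝ × ℝ =>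
          Complex.exp (Complex.I * p.2 * p.1)).aestronglyMeasurable
      · exact (four_norm_exp p.2 p.1).le
    rw [integral_integral_swap hi]
    refine integral_congr_ae (Eventually.of_forall fun t => ?_)
    simp only
    rw [integral_const_mul]
    unfold SpecCalc.U
    rw [E.inner _ (bm_exp t)]
  rw [key, opInt_apply hU hg]

theorem four_norm_exp' (t l : ℝ) : ‖Complex.exp (-(Complex.I * t * l))‖ = 1 := by
  have := four_norm_exp t (-l)
  push_cast at this
  rwa [mul_neg] at this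

theorem four_conj_exp (t l : ℝ) :
    conj (Complex.exp (-(Complex.I * t * l))) = Complex.exp (Complex.I * t * l) := by
  rw [← Complex.exp_conj]
  simp

theorem four_inner_self (v : H) : ⟪v, v⟫_ℂ = ((‖v‖ : ℝ) : ℂ) ^ 2 := by
  rw [inner_self_eq_norm_sq_to_K]
  rfl

theorem four_tri_int {δ : ℝ} (hδ : 0 < δ) (a b : ℤ) :
    trif δ (δ * a) (δ * b) = if b = a then 1 else 0 := by
  unfold trif tri
  have h1 : (δ * b - δ * a) / δ = ((b - a : ℤ) : ℝ) := by
    push_cast
    field_simp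
  rw [h1]
  split_ifs with h
  · simp [h]
  · have h2 : (1 : ℝ) ≤ |((b - a : ℤ) : ℝ)| := by
      rw [← Int.cast_abs]
      exact_mod_cast Int.one_le_abs (sub_ne_zero.2 h)
    rw [max_eq_left (by linarith)]
    simp

theorem orth_sum {ι : Type} [Fintype ι] (n : ι → ℤ) (hn : Function.Injective n) {δ : ℝ}
    (hδ : 0 < δ) (ξ : ι → H) :
    ∫ t : ℝ, δ * fej (δ * t) *
        ‖∑ j, Complex.exp (-(Complex.I * t * ((δ * n j : ℝ) : ℂ))) • ξ j‖ ^ 2 =
      ∑ j, ‖ξ j‖ ^ 2 := by
  classical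
  apply Complex.ofReal_injective
  rw [← integral_complex_ofReal]
  have h1 : ∀ t : ℝ, ((δ * fej (δ * t) *
        ‖∑ j, Complex.exp (-(Complex.I * t * ((δ * n j : ℝ) : ℂ))) • ξ j‖ ^ 2 : ℝ) : ℂ) =
      ∑ i, ∑ j, (fker δ (δ * n j) t * Complex.exp (Complex.I * t * ((δ * n i : ℝ) : ℂ))) *
        ⟪ξ i, ξ j⟫_ℂ := by
    intro t
    rw [Complex.ofReal_mul, Complex.ofReal_pow]
    rw [← four_inner_self, sum_inner, Finset.mul_sum]
    refine Finset.sum_congr rfl fun i _ => ?_
    rw [inner_sum, Finset.mul_sum]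
    refine Finset.sum_congr rfl fun j _ => ?_
    rw [inner_smul_left, inner_smul_right, four_conj_exp]
    unfold fker
    ring
  have h2 : ∀ i j, Integrable fun t : ℝ =>
      (fker δ (δ * n j) t * Complex.exp (Complex.I * t * ((δ * n i : ℝ) : ℂ))) * ⟪ξ i, ξ j⟫_ℂ := by
    intro i j
    refine Integrable.mul_const ?_ _
    exact (fker_integrable hδ _).mul_bdd (c := 1) (by fun_prop)
      (Eventually.of_forall fun t => (four_norm_exp _ _).le)
  simp only [h1]
  rw [integral_finsetSum _ fun i _ => integrable_finsetSum _ fun j _ => h2 i j, Complex.ofReal_sum]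
  refine Finset.sum_congr rfl fun i _ => ?_
  rw [integral_finsetSum _ fun j _ => h2 i j]
  have h3 : ∀ j, ∫ t : ℝ, (fker δ (δ * n j) t * Complex.exp (Complex.I * t * ((δ * n i : ℝ) : ℂ))) *
      ⟪ξ i, ξ j⟫_ℂ = if i = j then ⟪ξ i, ξ j⟫_ℂ else 0 := by
    intro j
    rw [integral_mul_const]
    have := congrFun (chk_fker hδ (δ * n j)) (δ * n i)
    unfold chk at this
    rw [this, four_tri_int hδ]
    simp only [hn.eq_iff]
    split_ifs <;> simp
  simp only [h3, Finset.sum_ite_eq, Finset.mem_univ, if_true]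
  rw [inner_self_eq_norm_sq_to_K]
  simp

theorem four_cs {w a b : ℝ → ℝ} (hw : Integrable w) (hw0 : ∀ t, 0 ≤ w t) (ha : Continuous a)
    (hb : Continuous b) {A B : ℝ} (hA : ∀ t, ‖a t‖ ≤ A) (hB : ∀ t, ‖b t‖ ≤ B) :
    ∫ t, w t * (a t * b t) ≤ √(∫ t, w t * a t ^ 2) * √(∫ t, w t * b t ^ 2) := by
  have hi : ∀ {u v : ℝ → ℝ} {U V : ℝ}, Continuous u → Continuous v → (∀ t, ‖u t‖ ≤ U) →
      (∀ t, ‖v t‖ ≤ V) → Integrable fun t => w t * (u t * v t) := by
    intro u v U V hu hv hU hV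
    refine hw.mul_bdd (c := U * V) (hu.mul hv).aestronglyMeasurable
      (Eventually.of_forall fun t => ?_)
    rw [norm_mul]
    exact mul_le_mul (hU t) (hV t) (norm_nonneg _) ((norm_nonneg _).trans (hU t))
  have iaa := hi ha ha hA hA
  have iab := hi ha hb hA hB
  have ibb := hi hb hb hB hB
  simp only [sq]
  set P := ∫ t, w t * (a t * a t) with hP
  set Q := ∫ t, w t * (b t * b t) with hQ
  set X := ∫ t, w t * (a t * b t) with hX
  have hP0 : 0 ≤ P := integral_nonneg fun t => mul_nonneg (hw0 t) (mul_self_nonneg _)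
  have hd : discrim P (-2 * X) Q ≤ 0 := by
    refine discrim_le_zero fun s => ?_
    have h0 : 0 ≤ ∫ t, w t * (s * a t - b t) ^ 2 :=
      integral_nonneg fun t => mul_nonneg (hw0 t) (sq_nonneg _)
    have h1 : ∀ t, w t * (s * a t - b t) ^ 2 = (s * s) * (w t * (a t * a t)) +
        (-2 * s) * (w t * (a t * b t)) + w t * (b t * b t) := fun t => by ring
    simp only [h1] at h0
    have i1 : Integrable fun t => (s * s) * (w t * (a t * a t)) +
        (-2 * s) * (w t * (a t * b t)) := (iaa.const_mul _).add (iab.const_mul _)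
    rw [integral_add i1 ibb,
      integral_add (iaa.const_mul _) (iab.const_mul _), integral_const_mul,
      integral_const_mul] at h0
    linarith
  unfold discrim at hd
  rw [← Real.sqrt_mul hP0]
  exact Real.le_sqrt_of_sq_le (by linarith)

theorem four_V_cont {ι : Type} [Fintype ι] (c : ι → ℝ) (ξ : ι → H) :
    Continuous fun t : ℝ => ∑ j, Complex.exp (-(Complex.I * t * (c j : ℂ))) • ξ j := by
  fun_prop

theorem four_V_bdd {ι : Type} [Fintype ι] (c : ι → ℝ) (ξ : ι → H) (t : ℝ) :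
    ‖∑ j, Complex.exp (-(Complex.I * t * (c j : ℂ))) • ξ j‖ ≤ ∑ j, ‖ξ j‖ := by
  refine (norm_sum_le _ _).trans (Finset.sum_le_sum fun j _ => ?_)
  rw [norm_smul, four_norm_exp', one_mul]

theorem four_w_nonneg {δ : ℝ} (hδ : 0 < δ) (t : ℝ) : 0 ≤ δ * fej (δ * t) :=
  mul_nonneg hδ.le (fej_nonneg _)

theorem bessel {ι : Type} [Fintype ι] (n : ι → ℤ) (hn : Function.Injective n) {δ : ℝ}
    (hδ : 0 < δ) (ν₀ : ℝ) {G : ℝ → H} (hG : Continuous G) (K : ℝ) (hK : ∀ t, ‖G t‖ ≤ K) :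
    ∑ i, ‖∫ t, fker δ (δ * n i + ν₀) t • G t‖ ^ 2 ≤ ∫ t, δ * fej (δ * t) * ‖G t‖ ^ 2 := by
  set α : ι → H := fun i => ∫ t, fker δ (δ * n i + ν₀) t • G t with hα
  have hn' : Function.Injective fun i => -n i := fun i j h => hn (neg_injective h)
  have ho := orth_sum (fun i => -n i) hn' hδ α
  set V : ℝ → H := fun t =>
    ∑ j, Complex.exp (-(Complex.I * t * ((δ * ((-n j : ℤ) : ℝ) : ℝ) : ℂ))) • α j with hV
  have hVc : Continuous V := four_V_cont (fun j => δ * ((-n j : ℤ) : ℝ)) α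
  have hVb : ∀ t, ‖V t‖ ≤ ∑ j, ‖α j‖ := four_V_bdd (fun j => δ * ((-n j : ℤ) : ℝ)) α
  have hint : ∀ i, Integrable fun t => fker δ (δ * n i + ν₀) t • G t := fun i =>
    (fker_integrable hδ _).smul_bdd K hG.aestronglyMeasurable (Eventually.of_forall hK)
  set S := ∑ i, ‖α i‖ ^ 2 with hS
  have hS0 : 0 ≤ S := Finset.sum_nonneg fun i _ => sq_nonneg _
  have h1 : (S : ℂ) = ∫ t, fker δ ν₀ t * ⟪V t, G t⟫_ℂ := by
    have e1 : ∀ t, fker δ ν₀ t * ⟪V t, G t⟫_ℂ =
        ∑ i, ⟪α i, fker δ (δ * n i + ν₀) t • G t⟫_ℂ := by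
      intro t
      rw [hV, sum_inner, Finset.mul_sum]
      refine Finset.sum_congr rfl fun i _ => ?_
      rw [inner_smul_left, inner_smul_right, four_conj_exp]
      unfold fker
      have e2 : Complex.exp (-(Complex.I * t * ((δ * n i + ν₀ : ℝ) : ℂ))) =
          Complex.exp (-(Complex.I * t * ν₀)) *
            Complex.exp (Complex.I * t * ((δ * ((-n i : ℤ) : ℝ) : ℝ) : ℂ)) := by
        rw [← Complex.exp_add]
        congr 1
        push_cast
        ring
      rw [e2]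
      ring
    simp only [e1]
    rw [integral_finsetSum _ fun i _ => (hint i).const_inner _, hS, Complex.ofReal_sum]
    refine Finset.sum_congr rfl fun i _ => ?_
    rw [integral_inner (hint i)]
    change _ = ⟪α i, α i⟫_ℂ
    rw [inner_self_eq_norm_sq_to_K]
    simp
  have hib : Integrable fun t => δ * fej (δ * t) * (‖V t‖ * ‖G t‖) := by
    refine (fej_scale_integrable hδ).mul_bdd (c := (∑ j, ‖α j‖) * K)
      (hVc.norm.mul hG.norm).aestronglyMeasurable (Eventually.of_forall fun t => ?_)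
    rw [norm_mul, norm_norm, norm_norm]
    exact mul_le_mul (hVb t) (hK t) (norm_nonneg _) ((norm_nonneg _).trans (hVb t))
  have h2 : S ≤ ∫ t, δ * fej (δ * t) * (‖V t‖ * ‖G t‖) := by
    have : S = ‖(S : ℂ)‖ := by rw [Complex.norm_real, Real.norm_of_nonneg hS0]
    rw [this, h1]
    refine norm_integral_le_of_norm_le hib (Eventually.of_forall fun t => ?_)
    rw [norm_mul, norm_fker hδ]
    exact mul_le_mul_of_nonneg_left (norm_inner_le_norm _ _) (four_w_nonneg hδ t)
  have h3 := four_cs (fej_scale_integrable hδ) (four_w_nonneg hδ) hVc.norm hG.norm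
    (fun t => by rw [norm_norm]; exact hVb t) (fun t => by rw [norm_norm]; exact hK t)
  have h4 : ∫ t, δ * fej (δ * t) * ‖V t‖ ^ 2 = S := ho
  rw [h4] at h3
  set Q := ∫ t, δ * fej (δ * t) * ‖G t‖ ^ 2 with hQ
  have hQ0 : 0 ≤ Q := integral_nonneg fun t => mul_nonneg (four_w_nonneg hδ t) (sq_nonneg _)
  have h5 : S ≤ √S * √Q := h2.trans h3
  nlinarith [Real.sq_sqrt hS0, Real.sq_sqrt hQ0, sq_nonneg (√S - √Q)]

theorem toeplitz {ι : Type} [Fintype ι] (n : ι → ℤ) (hn : Function.Injective n) {δ : ℝ}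
    (hδ : 0 < δ) (ν₀ : ℝ) (hF : SCB F K) (ξ η : ι → H) :
    ‖∑ i, ∑ j, ⟪η i, opInt (fker δ (δ * ((n j - n i : ℤ) : ℝ) + ν₀)) F (ξ j)⟫_ℂ‖ ≤
      K * √(∑ i, ‖η i‖ ^ 2) * √(∑ j, ‖ξ j‖ ^ 2) := by
  set A : ℝ → H := fun t =>
    ∑ j, Complex.exp (-(Complex.I * t * ((δ * n j : ℝ) : ℂ))) • η j with hA
  set B : ℝ → H := fun t =>
    ∑ j, Complex.exp (-(Complex.I * t * ((δ * n j : ℝ) : ℂ))) • ξ j with hB
  have hAc : Continuous A := four_V_cont (fun j => δ * n j) η
  have hAb : ∀ t, ‖A t‖ ≤ ∑ j, ‖η j‖ := four_V_bdd (fun j => δ * n j) η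
  have hBc : Continuous B := four_V_cont (fun j => δ * n j) ξ
  have hBb : ∀ t, ‖B t‖ ≤ ∑ j, ‖ξ j‖ := four_V_bdd (fun j => δ * n j) ξ
  have hoA : ∫ t, δ * fej (δ * t) * ‖A t‖ ^ 2 = ∑ i, ‖η i‖ ^ 2 := orth_sum n hn hδ η
  have hoB : ∫ t, δ * fej (δ * t) * ‖B t‖ ^ 2 = ∑ i, ‖ξ i‖ ^ 2 := orth_sum n hn hδ ξ
  have hint : ∀ i j, Integrable fun t =>
      fker δ (δ * ((n j - n i : ℤ) : ℝ) + ν₀) t * ⟪η i, F t (ξ j)⟫_ℂ := by
    intro i j
    have := (hF.integrable (fker_integrable hδ (δ * ((n j - n i : ℤ) : ℝ) + ν₀)) (ξ j)).const_inner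
      (𝕜 := ℂ) (η i)
    simpa only [inner_smul_right] using this
  have h1 : ∑ i, ∑ j, ⟪η i, opInt (fker δ (δ * ((n j - n i : ℤ) : ℝ) + ν₀)) F (ξ j)⟫_ℂ =
      ∫ t, fker δ ν₀ t * ⟪A t, F t (B t)⟫_ℂ := by
    have e1 : ∀ t, fker δ ν₀ t * ⟪A t, F t (B t)⟫_ℂ =
        ∑ i, ∑ j, fker δ (δ * ((n j - n i : ℤ) : ℝ) + ν₀) t * ⟪η i, F t (ξ j)⟫_ℂ := by
      intro t
      rw [hA, hB, sum_inner, Finset.mul_sum]
      refine Finset.sum_congr rfl fun i _ => ?_
      rw [map_sum, inner_sum, Finset.mul_sum]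
      refine Finset.sum_congr rfl fun j _ => ?_
      rw [map_smul, inner_smul_left, inner_smul_right, four_conj_exp]
      unfold fker
      have e2 : Complex.exp (-(Complex.I * t * ((δ * ((n j - n i : ℤ) : ℝ) + ν₀ : ℝ) : ℂ))) =
          Complex.exp (-(Complex.I * t * ν₀)) * Complex.exp (Complex.I * t * ((δ * n i : ℝ) : ℂ)) *
            Complex.exp (-(Complex.I * t * ((δ * n j : ℝ) : ℂ))) := by
        rw [← Complex.exp_add, ← Complex.exp_add]
        congr 1
        push_cast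
        ring
      rw [e2]
      ring
    simp only [e1]
    rw [integral_finsetSum _ fun i _ => integrable_finsetSum _ fun j _ => hint i j]
    refine Finset.sum_congr rfl fun i _ => ?_
    rw [integral_finsetSum _ fun j _ => hint i j]
    refine Finset.sum_congr rfl fun j _ => ?_
    rw [inner_opInt hF (fker_integrable hδ _)]
  have hib : Integrable fun t => δ * fej (δ * t) * (‖A t‖ * ‖B t‖) := by
    refine (fej_scale_integrable hδ).mul_bdd (c := (∑ j, ‖η j‖) * ∑ j, ‖ξ j‖)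
      (hAc.norm.mul hBc.norm).aestronglyMeasurable (Eventually.of_forall fun t => ?_)
    rw [norm_mul, norm_norm, norm_norm]
    exact mul_le_mul (hAb t) (hBb t) (norm_nonneg _) ((norm_nonneg _).trans (hAb t))
  have h3 := four_cs (fej_scale_integrable hδ) (four_w_nonneg hδ) hAc.norm hBc.norm
    (fun t => by rw [norm_norm]; exact hAb t) (fun t => by rw [norm_norm]; exact hBb t)
  rw [hoA, hoB] at h3
  rw [h1, mul_assoc]
  refine le_trans ?_ (mul_le_mul_of_nonneg_left h3 (four_K_nonneg hF))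
  rw [← integral_const_mul]
  refine norm_integral_le_of_norm_le (hib.const_mul K) (Eventually.of_forall fun t => ?_)
  rw [norm_mul, norm_fker hδ]
  have h4 : ‖⟪A t, F t (B t)⟫_ℂ‖ ≤ ‖A t‖ * (K * ‖B t‖) :=
    (norm_inner_le_norm _ _).trans
      (mul_le_mul_of_nonneg_left (four_norm_apply hF t _) (norm_nonneg _))
  calc δ * fej (δ * t) * ‖⟪A t, F t (B t)⟫_ℂ‖ ≤ δ * fej (δ * t) * (‖A t‖ * (K * ‖B t‖)) :=
        mul_le_mul_of_nonneg_left h4 (four_w_nonneg hδ t)
    _ = K * (δ * fej (δ * t) * (‖A t‖ * ‖B t‖)) := by ring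

theorem four_disc {Y : Type} [MeasurableSpace Y] (E : SpecCalc Y H) (c : SimpleFunc Y ℝ)
    (f : ℝ → ℂ) : E.Φ (fun l => f (c l)) = ∑ v ∈ c.range, f v • E.Pr (c ⁻¹' {v}) := by
  classical
  have hm : ∀ v, BM ((c ⁻¹' {v}).indicator fun _ => (1 : ℂ)) := fun v =>
    BM.indicator_one (c.measurableSet_fiber v)
  have h1 : (fun l => f (c l)) =
      fun l => ∑ v ∈ c.range, f v * (c ⁻¹' {v}).indicator (fun _ => (1 : ℂ)) l := by
    funext l
    rw [Finset.sum_eq_single (c l)]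
    · simp
    · intro v _ hv
      rw [Set.indicator_of_notMem, mul_zero]
      exact fun h => hv (Set.mem_singleton_iff.1 h).symm
    · exact fun h => absurd (c.mem_range_self l) h
  rw [h1, E.map_sum _ fun v _ => (BM.const (f v)).mul (hm v)]
  exact Finset.sum_congr rfl fun v _ => E.map_smul _ (hm v)

theorem four_disc2 {Y : Type} [MeasurableSpace Y] (E : SpecCalc Y H) (c : SimpleFunc Y ℝ)
    (X : H →L[ℂ] H) (f k : ℝ → ℂ) (ξ η : H) :
    ⟪η, E.Φ (fun l => f (c l)) (X (E.Φ (fun l => k (c l)) ξ))⟫_ℂ =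
      ∑ v ∈ c.range, ∑ w ∈ c.range,
        f v * k w * ⟪η, E.Pr (c ⁻¹' {v}) (X (E.Pr (c ⁻¹' {w}) ξ))⟫_ℂ := by
  rw [four_disc E c f, four_disc E c k, _root_.sum_apply, inner_sum]
  refine Finset.sum_congr rfl fun v _ => ?_
  rw [_root_.sum_apply, map_sum, map_sum, inner_sum]
  refine Finset.sum_congr rfl fun w _ => ?_
  simp only [_root_.smul_apply, map_smul, inner_smul_right]
  ring

theorem four_lim (E : SpecCalc ℝ H) (X : H →L[ℂ] H) (c : ℕ → SimpleFunc ℝ ℝ)
    (hc : ∀ l, Tendsto (fun n => c n l) atTop (𝓝 l)) {f k : ℝ → ℂ} (hf : BM f)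
    (hfc : Continuous f) (hk : BM k) (hkc : Continuous k) (ξ η : H) :
    Tendsto (fun n => ⟪η, E.Φ (fun l => f (c n l)) (X (E.Φ (fun l => k (c n l)) ξ))⟫_ℂ) atTop
      (𝓝 ⟪η, E.Φ f (X (E.Φ k ξ))⟫_ℂ) := by
  have key : ∀ {u : ℝ → ℂ}, BM u → Continuous u → ∀ γ : H,
      Tendsto (fun n => E.Φ (fun l => u (c n l)) γ) atTop (𝓝 (E.Φ u γ)) := by
    intro u hu huc γ
    obtain ⟨C, hC⟩ := hu.2
    exact E.tendsto C (Eventually.of_forall fun n =>
      ⟨hu.1.comp (c n).measurable, fun l => hC _⟩) hu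
      (Eventually.of_forall fun l => (huc.tendsto l).comp (hc l))
  have h1 := key hf.star (Complex.continuous_conj.comp hfc) η
  have h2 := (X.continuous.tendsto _).comp (key hk hkc ξ)
  have h3 := h1.inner (𝕜 := ℂ) h2
  rw [E.map_star hf, inner_star_left] at h3
  refine h3.congr fun n => ?_
  rw [E.map_star (hf.comp (c n).measurable), inner_star_left]
  rfl

theorem four_bound (E : SpecCalc ℝ H) (X : H →L[ℂ] H) {f k : ℝ → ℂ} (hf : BM f) (hk : BM k)
    {A B : ℝ} (hA : ∀ l, ‖f l‖ ≤ A) (hB : ∀ l, ‖k l‖ ≤ B) (ξ η : H) :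
    ‖⟪η, E.Φ f (X (E.Φ k ξ))⟫_ℂ‖ ≤ ‖η‖ * (A * (‖X‖ * (B * ‖ξ‖))) := by
  have hA0 : 0 ≤ A := (norm_nonneg _).trans (hA 0)
  have hB0 : 0 ≤ B := (norm_nonneg _).trans (hB 0)
  refine (norm_inner_le_norm _ _).trans (mul_le_mul_of_nonneg_left ?_ (norm_nonneg _))
  refine (E.norm_apply_le hf hA0 (Eventually.of_forall hA)).trans
    (mul_le_mul_of_nonneg_left ?_ hA0)
  refine (X.le_opNorm _).trans (mul_le_mul_of_nonneg_left ?_ (norm_nonneg _))
  exact E.norm_apply_le hk hB0 (Eventually.of_forall hB)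

theorem four_term (E : SpecCalc ℝ H) (X : H →L[ℂ] H) (hg : Integrable g)
    (c : ℕ → SimpleFunc ℝ ℝ) (hc : ∀ l, Tendsto (fun n => c n l) atTop (𝓝 l)) {f k : ℝ → ℂ}
    (hf : BM f) (hfc : Continuous f) (hk : BM k) (hkc : Continuous k) (ξ η : H) :
    Tendsto (fun n => ∑ v ∈ (c n).range, ∑ w ∈ (c n).range, chk g (v - w) * (f v * k w) *
        ⟪η, E.Pr (c n ⁻¹' {v}) (X (E.Pr (c n ⁻¹' {w}) ξ))⟫_ℂ) atTop
      (𝓝 ⟪η, (E.Φ f * smear E g X * E.Φ k) ξ⟫_ℂ) := by
  obtain ⟨A, hA⟩ := hf.2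
  obtain ⟨B, hB⟩ := hk.2
  let f' : ℝ → ℝ → ℂ := fun t l => f l * Complex.exp (Complex.I * t * l)
  let k' : ℝ → ℝ → ℂ := fun t l => Complex.exp (Complex.I * ((-t : ℝ) : ℂ) * l) * k l
  have bf : ∀ t, BM (f' t) := fun t => hf.mul (bm_exp t)
  have bk : ∀ t, BM (k' t) := fun t => (bm_exp (-t)).mul hk
  have cf : ∀ t, Continuous (f' t) := fun t => hfc.mul (by fun_prop)
  have ck : ∀ t, Continuous (k' t) := fun t => Continuous.mul (by fun_prop) hkc
  have nf : ∀ t l, ‖f' t l‖ ≤ A := fun t l => by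
    simp only [f']
    rw [norm_mul, four_norm_exp, mul_one]
    exact hA l
  have nk : ∀ t l, ‖k' t l‖ ≤ B := fun t l => by
    simp only [k']
    rw [norm_mul, four_norm_exp, one_mul]
    exact hB l
  have e0 : ⟪η, (E.Φ f * smear E g X * E.Φ k) ξ⟫_ℂ =
      ∫ t, g t * ⟪η, E.Φ (f' t) (X (E.Φ (k' t) ξ))⟫_ℂ := by
    unfold smear
    rw [mul_opInt (E.scb_sig X) hg, inner_opInt ((E.scb_sig X).mul _ _) hg]
    refine integral_congr_ae (Eventually.of_forall fun t => ?_)
    simp only [f', k']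
    rw [E.mul _ _ hf (bm_exp t), E.mul _ _ (bm_exp (-t)) hk]
    rfl
  have e1 : ∀ n t, g t * ⟪η, E.Φ (fun l => f' t (c n l)) (X (E.Φ (fun l => k' t (c n l)) ξ))⟫_ℂ =
      ∑ v ∈ (c n).range, ∑ w ∈ (c n).range,
        g t * Complex.exp (Complex.I * t * ((v - w : ℝ) : ℂ)) * ((f v * k w) *
        ⟪η, E.Pr (c n ⁻¹' {v}) (X (E.Pr (c n ⁻¹' {w}) ξ))⟫_ℂ) := by
    intro n t
    rw [four_disc2, Finset.mul_sum]
    refine Finset.sum_congr rfl fun v _ => ?_
    rw [Finset.mul_sum]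
    refine Finset.sum_congr rfl fun w _ => ?_
    have e2 : Complex.exp (Complex.I * t * ((v - w : ℝ) : ℂ)) =
        Complex.exp (Complex.I * t * v) * Complex.exp (Complex.I * ((-t : ℝ) : ℂ) * w) := by
      rw [← Complex.exp_add]
      congr 1
      push_cast
      ring
    simp only [f', k']
    rw [e2]
    ring
  have hi : ∀ (u : ℝ) (z : ℂ),
      Integrable fun t : ℝ => g t * Complex.exp (Complex.I * t * (u : ℂ)) * z := fun u z =>
    (hg.mul_bdd (c := 1) (by fun_prop) (Eventually.of_forall fun t =>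
      (four_norm_exp _ _).le)).mul_const z
  have hi2 : ∀ n, Integrable fun t =>
      g t * ⟪η, E.Φ (fun l => f' t (c n l)) (X (E.Φ (fun l => k' t (c n l)) ξ))⟫_ℂ := by
    intro n
    simp only [e1]
    exact integrable_finsetSum _ fun v _ => integrable_finsetSum _ fun w _ => hi _ _
  have lim := tendsto_integral_of_dominated_convergence (μ := volume)
    (F := fun n t => g t * ⟪η, E.Φ (fun l => f' t (c n l)) (X (E.Φ (fun l => k' t (c n l)) ξ))⟫_ℂ)
    (f := fun t => g t * ⟪η, E.Φ (f' t) (X (E.Φ (k' t) ξ))⟫_ℂ)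
    (fun t => ‖g t‖ * (‖η‖ * (A * (‖X‖ * (B * ‖ξ‖))))) (fun n => (hi2 n).1) (hg.norm.mul_const _)
    (fun n => Eventually.of_forall fun t => by
      rw [norm_mul]
      exact mul_le_mul_of_nonneg_left (four_bound E X ((bf t).comp (c n).measurable)
        ((bk t).comp (c n).measurable) (fun l => nf t _) (fun l => nk t _) ξ η) (norm_nonneg _))
    (Eventually.of_forall fun t => (four_lim E X c hc (bf t) (cf t) (bk t) (ck t) ξ η).const_mul _)
  rw [e0]
  refine lim.congr fun n => ?_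
  simp only [e1]
  rw [integral_finsetSum _ fun v _ => integrable_finsetSum _ fun w _ => hi _ _]
  refine Finset.sum_congr rfl fun v _ => ?_
  rw [integral_finsetSum _ fun w _ => hi _ _]
  refine Finset.sum_congr rfl fun w _ => ?_
  rw [integral_mul_const, mul_assoc (chk g _)]
  rfl

/-- double spectral lemma -/
theorem double_spectral (E : SpecCalc ℝ H) (X : H →L[ℂ] H) (hg : Integrable g) {ι κ : Type}
    [Fintype ι] [Fintype κ] (a b : ι → ℝ → ℂ) (a' b' : κ → ℝ → ℂ)
    (ha : ∀ i, BM (a i) ∧ Continuous (a i)) (hb : ∀ i, BM (b i) ∧ Continuous (b i))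
    (ha' : ∀ i, BM (a' i) ∧ Continuous (a' i)) (hb' : ∀ i, BM (b' i) ∧ Continuous (b' i))
    (h : ∀ l m : ℝ, chk g (l - m) * ∑ i, a i l * b i m = ∑ i, a' i l * b' i m) :
    ∑ i, E.Φ (a i) * smear E g X * E.Φ (b i) = ∑ i, E.Φ (a' i) * X * E.Φ (b' i) := by
  let c : ℕ → SimpleFunc ℝ ℝ := fun n =>
    SimpleFunc.approxOn (fun l : ℝ => l) measurable_id Set.univ 0 (Set.mem_univ _) n
  have hc : ∀ l, Tendsto (fun n => c n l) atTop (𝓝 l) := fun l =>
    SimpleFunc.tendsto_approxOn (f := fun l : ℝ => l) measurable_id (Set.mem_univ _)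
      (by simp)
  refine ext_inner_self fun ξ => ?_
  have h1 := tendsto_finsetSum Finset.univ fun i _ =>
    four_term E X hg c hc (ha i).1 (ha i).2 (hb i).1 (hb i).2 ξ ξ
  have h2 := tendsto_finsetSum Finset.univ fun i _ =>
    four_lim E X c hc (ha' i).1 (ha' i).2 (hb' i).1 (hb' i).2 ξ ξ
  rw [_root_.sum_apply, _root_.sum_apply, inner_sum, inner_sum]
  refine tendsto_nhds_unique h1 (h2.congr fun n => ?_)
  simp only [four_disc2]
  rw [Finset.sum_comm]
  conv_rhs => rw [Finset.sum_comm]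
  refine Finset.sum_congr rfl fun v _ => ?_
  rw [Finset.sum_comm]
  conv_rhs => rw [Finset.sum_comm]
  refine Finset.sum_congr rfl fun w _ => ?_
  rw [← Finset.sum_mul, ← Finset.sum_mul, ← Finset.mul_sum, h]

end Pool.Agent.P.MP_5d580a_an
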