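import Pool.Agent.P.MP_5d580a_an.CalcEx
import Pool.Agent.P.MP_5d580a_an.Four

open scoped ComplexOrder InnerProductSpace ComplexConjugate BoundedContinuousFunction
open MeasureTheory Filter Topology

set_option linter.unusedSectionVars false
set_option linter.unusedVariables false

noncomputable section

namespace Pool.Agent.P.MP_5d580a_an

variable {H : Type} [NormedAddCommGroup H] [InnerProductSpace ℂ H] [CompleteSpace H]

/-- the kernel of the resolvent -/
def stone_g : ℝ → ℂ := (Set.Ioi (0 : ℝ)).indicator fun t => ((Real.exp (-t) : ℝ) : ℂ)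

theorem stone_g_int : Integrable stone_g := by
  rw [stone_g, integrable_indicator_iff measurableSet_Ioi]
  exact (integrableOn_exp_neg_Ioi 0).ofReal

theorem stone_g_conj : (fun t => conj (stone_g t)) = stone_g := by
  funext t
  by_cases h : t ∈ Set.Ioi (0 : ℝ)
  · simp only [stone_g, Set.indicator_of_mem h, Complex.conj_ofReal]
  · simp only [stone_g, Set.indicator_of_notMem h, map_zero]

theorem stone_g_shift (s t : ℝ) : stone_g (t - s) =
    (Set.Ioi s).indicator (fun t => ((Real.exp s : ℝ) : ℂ) * ((Real.exp (-t) : ℝ) : ℂ)) t := by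
  by_cases h : t ∈ Set.Ioi s
  · have h' : t - s ∈ Set.Ioi (0 : ℝ) := Set.mem_Ioi.mpr (sub_pos.mpr (Set.mem_Ioi.mp h))
    rw [stone_g, Set.indicator_of_mem h, Set.indicator_of_mem h', ← Complex.ofReal_mul,
      ← Real.exp_add]
    congr 2
    ring
  · have h' : t - s ∉ Set.Ioi (0 : ℝ) := fun h' =>
      h (Set.mem_Ioi.mpr (sub_pos.mp (Set.mem_Ioi.mp h')))
    rw [stone_g, Set.indicator_of_notMem h, Set.indicator_of_notMem h']

/-- the resolvent vectors are differentiable for the group -/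
theorem stone_deriv {V : ℝ → (H →L[ℂ] H)} (h0 : V 0 = 1) (hadd : ∀ s t, V (s + t) = V s * V t)
    (hV : SCB V 1) (ξ : H) :
    HasDerivAt (fun s => V s (opInt stone_g V ξ)) (opInt stone_g V ξ - ξ) 0 := by
  set f : ℝ → H := fun t => ((Real.exp (-t) : ℝ) : ℂ) • V t ξ with hf
  have hfc : Continuous f := by
    have := hV.1 ξ
    fun_prop
  have hfi : ∀ a : ℝ, IntegrableOn f (Set.Ioi a) := fun a => by
    refine Integrable.mono' ((integrableOn_exp_neg_Ioi a).mul_const ‖ξ‖)
      hfc.aestronglyMeasurable (Eventually.of_forall fun t => ?_)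
    rw [hf]
    simp only [norm_smul, Complex.norm_real, Real.norm_eq_abs, abs_of_pos (Real.exp_pos _)]
    refine mul_le_mul_of_nonneg_left ?_ (Real.exp_pos _).le
    calc ‖V t ξ‖ ≤ ‖V t‖ * ‖ξ‖ := (V t).le_opNorm ξ
      _ ≤ 1 * ‖ξ‖ := mul_le_mul_of_nonneg_right (hV.2 t) (norm_nonneg _)
      _ = ‖ξ‖ := one_mul _
  have key : ∀ s, V s (opInt stone_g V ξ) = Real.exp s • ∫ t in Set.Ioi s, f t := fun s => by
    rw [opInt_apply hV stone_g_int, ← (V s).integral_comp_comm (hV.integrable stone_g_int ξ)]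
    have e1 : ∀ t, V s (stone_g t • V t ξ) =
        (fun u => stone_g (u - s) • V u ξ) (s + t) := fun t => by
      simp only [map_smul, add_sub_cancel_left, hadd, mul_apply_eq_comp]
    simp_rw [e1]
    rw [integral_add_left_eq_self (fun u => stone_g (u - s) • V u ξ) s,
      ← integral_smul, ← integral_indicator measurableSet_Ioi]
    refine integral_congr_ae (Eventually.of_forall fun t => ?_)
    simp only [stone_g_shift]
    by_cases h : t ∈ Set.Ioi s
    · rw [Set.indicator_of_mem h, Set.indicator_of_mem h, hf, mul_smul, Complex.coe_smul]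
    · rw [Set.indicator_of_notMem h, Set.indicator_of_notMem h, zero_smul]
  have key2 : ∀ s, ∫ t in Set.Ioi s, f t = (∫ t in Set.Ioi 0, f t) - ∫ t in (0 : ℝ)..s, f t :=
    fun s => by
      rw [← intervalIntegral.integral_interval_add_Ioi (hfi 0) (hfi s)]
      abel
  have hC : opInt stone_g V ξ = ∫ t in Set.Ioi 0, f t := by
    have := key 0
    rwa [h0, Real.exp_zero, one_smul, one_apply_eq_self] at this
  have hd : HasDerivAt (fun s => (∫ t in Set.Ioi 0, f t) - ∫ t in (0 : ℝ)..s, f t) (-f 0) 0 :=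
    (hfc.integral_hasStrictDerivAt 0 0).hasDerivAt.const_sub _
  have hd2 := (Real.hasDerivAt_exp 0).smul hd
  have e2 : (fun s => V s (opInt stone_g V ξ)) =
      Real.exp • fun s => (∫ t in Set.Ioi 0, f t) - ∫ t in (0 : ℝ)..s, f t := by
    funext s
    rw [key, key2]
    rfl
  rw [e2]
  refine hd2.congr_deriv ?_
  simp only [Real.exp_zero, one_smul, intervalIntegral.integral_same, sub_zero, hC, hf, neg_zero,
    h0, Complex.ofReal_one, one_apply_eq_self]
  abel

theorem stone_inj {V : ℝ → (H →L[ℂ] H)} (h0 : V 0 = 1) (hadd : ∀ s t, V (s + t) = V s * V t)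
    (hV : SCB V 1) {ξ : H} (h : opInt stone_g V ξ = 0) : ξ = 0 := by
  have h1 := stone_deriv h0 hadd hV ξ
  simp only [h, map_zero, zero_sub] at h1
  exact neg_eq_zero.mp (h1.unique (hasDerivAt_const _ _))

/-- the identity function cut off outside a disc -/
def stone_id (R : ℝ) : ℂ → ℂ := (Metric.closedBall (0 : ℂ) R).indicator fun z => z

theorem stone_id_bm (R : ℝ) : BM (stone_id R) :=
  BM.indicator_of_bdd measurable_id measurableSet_closedBall R fun z hz => by simpa using hz

theorem stone_id_le (R : ℝ) (z : ℂ) : ‖stone_id R z‖ ≤ ‖z‖ := norm_indicator_le_norm_self _ _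

/-- a calculus attached to a normal injective operator with `C + C* = 2 C* C` -/
theorem stone_calc (C : H →L[ℂ] H) [IsStarNormal C] (hinj : ∀ ξ, C ξ = 0 → ξ = 0)
    (hC : ∀ ξ, (2 : ℂ) • (star C) (C ξ) = C ξ + (star C) ξ) :
    ∃ E : SpecCalc ℝ H, ∀ ξ, HasDerivAt (fun s => E.U s (C ξ)) (C ξ - ξ) 0 := by
  obtain ⟨E₀, hμ, hΦ⟩ := exists_calc_normal C
  obtain ⟨R, hR⟩ := (spectrum.isBounded (𝕜 := ℂ) C).subset_closedBall 0
  have hid : ∀ z ∈ spectrum ℂ C, stone_id R z = z := fun z hz => Set.indicator_of_mem (hR hz) _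
  have hb := stone_id_bm R
  have hCΦ : E₀.Φ (stone_id R) = C := by
    rw [hΦ _ hb (continuousOn_id.congr hid), cfc_congr (g := id) hid, cfc_id ℂ C]
  have hae : ∀ ξ, ∀ᵐ z ∂(E₀.μ ξ), stone_id R z = z := fun ξ => by
    have : ∀ᵐ z ∂(E₀.μ ξ), z ∈ spectrum ℂ C := hμ ξ
    exact this.mono hid
  have hae0 : ∀ ξ, ∀ᵐ z ∂(E₀.μ ξ), z ≠ 0 := fun ξ => by
    have h1 : E₀.Pr {0} ξ = 0 := by
      refine hinj _ ?_
      rw [← hCΦ, SpecCalc.Pr, E₀.mul_apply hb (BM.indicator_one (measurableSet_singleton _))]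
      have : (fun x => stone_id R x * Set.indicator {0} (fun _ => (1 : ℂ)) x) = fun _ => 0 := by
        funext z
        by_cases hz : z = 0
        · have := stone_id_le R z
          rw [hz, norm_zero, norm_le_zero_iff] at this
          rw [hz, this, zero_mul]
        · rw [Set.indicator_of_notMem (by simpa using hz), mul_zero]
      rw [this, E₀.map_zero, zero_apply]
    have h2 := (E₀.Pr_eq_zero_iff (measurableSet_singleton _) ξ).mp h1
    rw [ae_iff]
    simpa using h2
  have hae1 : ∀ ξ, ∀ᵐ z ∂(E₀.μ ξ), 2 * (conj z * z) = z + conj z := fun ξ => by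
    have hb1 : BM fun z => 2 * (conj (stone_id R z) * stone_id R z) :=
      (BM.const 2).mul (hb.star.mul hb)
    have hb2 : BM fun z => stone_id R z + conj (stone_id R z) := hb.add hb.star
    have h1 : E₀.Φ (fun z => 2 * (conj (stone_id R z) * stone_id R z) -
        (stone_id R z + conj (stone_id R z))) ξ = 0 := by
      rw [E₀.map_sub hb1 hb2, E₀.map_smul 2 (hb.star.mul hb), E₀.mul _ _ hb.star hb,
        E₀.map_add hb hb.star, E₀.map_star hb, hCΦ]
      simp only [sub_apply, smul_apply,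
        mul_apply_eq_comp, add_apply, hC, sub_self]
    have h2 := (E₀.apply_eq_zero_iff (hb1.sub hb2) ξ).mp h1
    filter_upwards [h2, hae ξ] with z hz hz'
    rw [hz'] at hz
    exact sub_eq_zero.mp hz
  let l : ℂ → ℝ := fun z => -(z⁻¹).im
  have hl : Measurable l := (Complex.measurable_im.comp measurable_inv).neg
  have hl1 : ∀ z, |l z| * ‖stone_id R z‖ ≤ 1 := fun z => by
    have h1 : |l z| ≤ ‖z‖⁻¹ := by
      rw [abs_neg, ← norm_inv]
      exact Complex.abs_im_le_norm _
    calc |l z| * ‖stone_id R z‖ ≤ ‖z‖⁻¹ * ‖z‖ :=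
          mul_le_mul h1 (stone_id_le R z) (norm_nonneg _) (inv_nonneg.mpr (norm_nonneg _))
      _ ≤ 1 := inv_mul_le_one_of_le₀ le_rfl (norm_nonneg _)
  have hl2 : ∀ z : ℂ, z ≠ 0 → 2 * (conj z * z) = z + conj z →
      Complex.I * l z * z = z - 1 := fun z hz h => by
    have hz' : conj z ≠ 0 := by simpa using hz
    have h1 : z⁻¹ + conj z⁻¹ = 2 := by
      rw [map_inv₀]
      field_simp
      linear_combination -h
    have h2 : (z⁻¹).re = 1 := by
      have := congrArg Complex.re h1
      simp only [Complex.add_re, Complex.conj_re, Complex.re_ofNat] at this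
      linarith
    have h3 : z⁻¹ = 1 - Complex.I * l z := by
      apply Complex.ext <;> simp [l, h2, -Complex.inv_re, -Complex.inv_im]
    have h4 : z⁻¹ * z = 1 := inv_mul_cancel₀ hz
    rw [h3] at h4
    linear_combination -h4
  obtain ⟨E, hE, -⟩ := E₀.exists_map hl
  refine ⟨E, fun ξ => ?_⟩
  have hbe : ∀ s : ℝ, BM fun z => Complex.exp (Complex.I * s * l z) := fun s =>
    (bm_exp s).comp hl
  have hb3 : BM fun z => stone_id R z - 1 := hb.sub (BM.const 1)
  have e0 : C ξ - ξ = E₀.Φ (fun z => stone_id R z - 1) ξ := by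
    rw [E₀.map_sub hb (BM.const 1), E₀.one, hCΦ]
    rfl
  have e1 : ∀ s : ℝ, s⁻¹ • (E.U (0 + s) (C ξ) - E.U 0 (C ξ)) =
      E₀.Φ (fun z => ((s⁻¹ : ℝ) : ℂ) *
        (Complex.exp (Complex.I * s * l z) * stone_id R z - stone_id R z)) ξ := fun s => by
    rw [E₀.map_smul _ (((hbe s).mul hb).sub hb), E₀.map_sub ((hbe s).mul hb) hb,
      E₀.mul _ _ (hbe s) hb, hCΦ, zero_add, E.U_zero, SpecCalc.U, hE]
    simp only [sub_apply, smul_apply,
      mul_apply_eq_comp, one_apply_eq_self, Complex.coe_smul]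
  rw [hasDerivAt_iff_tendsto_slope_zero, e0]
  simp_rw [e1]
  refine E₀.tendsto 1 (Eventually.of_forall fun s => ⟨?_, fun z => ?_⟩) hb3 ?_
  · exact ((BM.const _).mul (((hbe s).mul hb).sub hb)).1
  · have h1 : ‖Complex.exp (Complex.I * s * l z) - 1‖ ≤ |s| * |l z| := by
      have := Real.norm_exp_I_mul_ofReal_sub_one_le (x := s * l z)
      rwa [Complex.ofReal_mul, ← mul_assoc, Real.norm_eq_abs, abs_mul] at this
    rw [← sub_one_mul, norm_mul, norm_mul, Complex.norm_real, Real.norm_eq_abs, abs_inv]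
    calc |s|⁻¹ * (‖Complex.exp (Complex.I * s * l z) - 1‖ * ‖stone_id R z‖)
        ≤ |s|⁻¹ * (|s| * |l z| * ‖stone_id R z‖) := by gcongr
      _ = (|s|⁻¹ * |s|) * (|l z| * ‖stone_id R z‖) := by ring
      _ ≤ 1 * 1 := mul_le_mul (inv_mul_le_one_of_le₀ le_rfl (abs_nonneg _)) (hl1 z)
          (by positivity) zero_le_one
      _ = 1 := one_mul _
  · filter_upwards [hae ξ, hae0 ξ, hae1 ξ] with z hz hz0 hz1
    rw [hz, ← hl2 z hz0 hz1]
    have h1 : HasDerivAt (fun s : ℝ => Complex.exp (Complex.I * s * l z) * z)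
        (Complex.I * l z * z) 0 := by
      have h2 : HasDerivAt (fun s : ℝ => Complex.I * (s : ℂ) * l z) (Complex.I * 1 * l z) 0 :=
        ((Complex.ofRealCLM.hasDerivAt (x := 0)).const_mul Complex.I).mul_const _
      have h3 := h2.cexp.mul_const z
      simpa using h3
    have h4 := h1.tendsto_slope_zero
    simpa using h4

theorem stone (V : ℝ → (H →L[ℂ] H)) (h0 : V 0 = 1) (hadd : ∀ s t, V (s + t) = V s * V t)
    (hstar : ∀ t, star (V t) = V (-t)) (hc : ∀ ξ, Continuous fun t => V t ξ) :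
    ∃ E : SpecCalc ℝ H, ∀ t, E.U t = V t := by
  have hV : SCB V 1 := ⟨hc, fun t => iso_norm_le (by rw [hstar, ← hadd, neg_add_cancel, h0])⟩
  let W : ℝ → (H →L[ℂ] H) := fun t => V (-t)
  have hW0 : W 0 = 1 := by simp only [W, neg_zero, h0]
  have hWadd : ∀ s t, W (s + t) = W s * W t := fun s t => by
    simp only [W, neg_add, hadd]
  have hW : SCB W 1 := ⟨fun ξ => (hc ξ).comp continuous_neg, fun t => hV.2 _⟩
  have hVW : (fun t => star (V t)) = W := funext hstar
  set C := opInt stone_g V with hCdef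
  have hCs : star C = opInt stone_g W := by
    rw [hCdef, star_opInt hV (hVW ▸ hW) stone_g_int, stone_g_conj, hVW]
  have hVV : ∀ s t, V s * V t = V t * V s := fun s t => by rw [← hadd, ← hadd, add_comm]
  have hVC : ∀ s, V s * C = C * V s := fun s => opInt_commute hV stone_g_int (hVV s)
  have hCC : C * star C = star C * C := by
    rw [hCs]
    exact opInt_commute hW stone_g_int fun t => (hVC _).symm
  have : IsStarNormal C := ⟨hCC.symm⟩
  have hd : ∀ ξ, HasDerivAt (fun s => V s (C ξ)) (C ξ - ξ) 0 := stone_deriv h0 hadd hV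
  have hrel : ∀ ξ, (2 : ℂ) • (star C) (C ξ) = C ξ + (star C) ξ := fun ξ => by
    have h1 := hd ((star C) ξ)
    have h2 := stone_deriv hW0 hWadd hW (C ξ)
    rw [← hCs] at h2
    have h3 : C ((star C) ξ) = (star C) (C ξ) := congrArg (fun T : H →L[ℂ] H => T ξ) hCC
    rw [h3] at h1
    have h4 : HasDerivAt (fun s => V (-s) ((star C) (C ξ)))
        ((-1 : ℝ) • ((star C) (C ξ) - (star C) ξ)) 0 := by
      have h5 : HasDerivAt (fun s => V s ((star C) (C ξ))) ((star C) (C ξ) - (star C) ξ)
          (-(0 : ℝ)) := by rwa [neg_zero]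
      exact h5.scomp (0 : ℝ) (hasDerivAt_neg (0 : ℝ))
    have h6 := h2.unique h4
    rw [neg_one_smul] at h6
    rw [two_smul]
    linear_combination (norm := module) h6
  obtain ⟨E, hE⟩ := stone_calc C (fun ξ h => stone_inj h0 hadd hV h) hrel
  refine ⟨E, fun t => ?_⟩
  have key : ∀ ξ, V t (C ξ) = E.U t (C ξ) := fun ξ => by
    have hd0 : ∀ s, HasDerivAt (fun s => E.U (-s) (V s (C ξ))) 0 s := fun s => by
      have h1 := ((hd (V s ξ)).sub (hE (V s ξ))).tendsto_slope_zero
      rw [sub_self] at h1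
      rw [hasDerivAt_iff_tendsto_slope_zero, tendsto_zero_iff_norm_tendsto_zero]
      rw [tendsto_zero_iff_norm_tendsto_zero] at h1
      refine h1.congr fun r => ?_
      have e1 : C (V s ξ) = V s (C ξ) := (congrArg (fun T : H →L[ℂ] H => T ξ) (hVC s)).symm
      have e2 : E.U (-s) (V s (C ξ)) = E.U (-(s + r)) (E.U r (V s (C ξ))) := by
        rw [← mul_apply_eq_comp (E.U (-(s + r))), ← E.U_add]
        congr 2
        ring
      simp only [Pi.sub_apply, zero_add, h0, E.U_zero, sub_self, sub_zero, norm_smul, e1]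
      rw [e2, ← map_sub, E.norm_U_apply, add_comm s r, hadd, mul_apply_eq_comp]
    have h2 := is_const_of_deriv_eq_zero (fun s => (hd0 s).differentiableAt)
      (fun s => (hd0 s).deriv) t 0
    simp only [neg_zero, E.U_zero, h0, one_apply_eq_self] at h2
    rw [← h2, ← mul_apply_eq_comp (E.U t), E.U_mul_neg, h2,
      one_apply_eq_self]
  have h1 : (E.U t - V t) * C = 0 := by
    ext ξ
    simp only [mul_apply_eq_comp, sub_apply, key, sub_self,
      zero_apply]
  have h2 : star C * star (E.U t - V t) = 0 := by rw [← star_mul, h1, star_zero]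
  have h3 : star (E.U t - V t) = 0 := by
    ext ξ
    refine stone_inj hW0 hWadd hW ?_
    rw [← hCs]
    exact congrArg (fun T : H →L[ℂ] H => T ξ) h2
  exact sub_eq_zero.mp (star_eq_zero.mp h3)

end Pool.Agent.P.MP_5d580a_an
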