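import Pool.Agent.P.MP_5d580a_an.Bic2
import Pool.Agent.P.MP_5d580a_an.Stone

open scoped ComplexOrder InnerProductSpace ComplexConjugate BoundedContinuousFunction
open MeasureTheory Filter Topology

set_option linter.unusedSectionVars false
set_option linter.unusedVariables false

noncomputable section

namespace Pool.Agent.P.MP_5d580a_an

variable {H : Type} [NormedAddCommGroup H] [InnerProductSpace ℂ H] [CompleteSpace H]

variable {M : VonNeumannAlgebra H} {J : H ≃ₗᵢ⋆[ℂ] H} {ζ : H} {E : SpecCalc ℝ H}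

section Rel

variable {s t : ℝ} {x y z x' y' : H →L[ℂ] H}

theorem bic3_state (hs : StdV M J ζ) (h1 : ‖ζ‖ = 1) (hF : EigFam M J ζ) (h : BRel M J ζ s x y) :
    ⟪ζ, y ζ⟫_ℂ = ⟪ζ, x ζ⟫_ℂ := by
  rcases le_total s 0 with h0 | h0
  · exact brel_state hs h1 hF h0 h
  · exact (brel_state hs h1 hF (neg_nonpos.2 h0) (h.symm hs)).symm

theorem bic3_adj (a b : H →L[ℂ] H) (ξ η : H) : ⟪ξ, (star a * b) η⟫_ℂ = ⟪a ξ, b η⟫_ℂ :=
  ContinuousLinearMap.adjoint_inner_right a ξ (b η)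

theorem bic3_inner (hs : StdV M J ζ) (h1 : ‖ζ‖ = 1) (hF : EigFam M J ζ) (h : BRel M J ζ s x y)
    (h' : BRel M J ζ s x' y') : ⟪y ζ, y' ζ⟫_ℂ = ⟪x ζ, x' ζ⟫_ℂ := by
  rw [← bic3_adj, ← bic3_adj]
  exact bic3_state hs h1 hF ((h.star hs).mul hs h')

theorem bic3_unique (hs : StdV M J ζ) (h1 : ‖ζ‖ = 1) (hF : EigFam M J ζ) (h : BRel M J ζ s x y)
    (h' : BRel M J ζ s x y') : y = y' := by
  have h2 := bic3_inner hs h1 hF (h.sub h') (h.sub h')
  rw [sub_self, ContinuousLinearMap.zero_apply, inner_zero_left, inner_self_eq_zero] at h2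
  exact sub_eq_zero.1 (hs.sepg _ (bic_mem (h.sub h').2.1) h2)

theorem bic3_exists (hs : StdV M J ζ) (h1 : ‖ζ‖ = 1) (hF : EigFam M J ζ) (s : ℝ)
    (x : H →L[ℂ] H) (hx : x ∈ Bic M J ζ) : ∃ y, BRel M J ζ s x y ∧ ‖y‖ ≤ ‖x‖ := by
  rcases le_total s 0 with h0 | h0
  · exact brel_exists_neg hs hF h0 hx
  · obtain ⟨y, h2, h3⟩ := brel_onto hs h1 hF (neg_nonpos.2 h0) hx
    exact ⟨y, neg_neg s ▸ h2.symm hs, h3⟩

theorem bic3_comp1 (hs : StdV M J ζ) (h1 : ‖ζ‖ = 1) (hF : EigFam M J ζ) (hs0 : s ≤ 0)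
    (ht0 : t ≤ 0) (h : BRel M J ζ s x y) (h' : BRel M J ζ t y z) : BRel M J ζ (s + t) x z := by
  obtain ⟨z', h2, -⟩ := bic3_exists hs h1 hF (s + t) x h.1
  rwa [bet_comp hs hF hs0 ht0 h.2.2.1 h'.2.2.1 h2.2.2.1]

theorem bic3_comp2 (hs : StdV M J ζ) (h1 : ‖ζ‖ = 1) (hF : EigFam M J ζ) (hs0 : s + t ≤ 0)
    (ht0 : t ≤ 0) (h : BRel M J ζ s x y) (h' : BRel M J ζ t y z) : BRel M J ζ (s + t) x z := by
  rcases le_total s 0 with h0 | h0
  · exact bic3_comp1 hs h1 hF h0 ht0 h h'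
  · obtain ⟨z', h2, -⟩ := bic3_exists hs h1 hF (s + t) x h.1
    have h3 := bic3_comp1 hs h1 hF (neg_nonpos.2 h0) hs0 (h.symm hs) h2
    rw [neg_add_cancel_left] at h3
    rwa [bic3_unique hs h1 hF h' h3]

theorem bic3_comp (hs : StdV M J ζ) (h1 : ‖ζ‖ = 1) (hF : EigFam M J ζ) (h : BRel M J ζ s x y)
    (h' : BRel M J ζ t y z) : BRel M J ζ (s + t) x z := by
  have e1 := le_abs_self s
  have e2 := le_abs_self t
  have e3 := abs_nonneg s
  have e4 := abs_nonneg t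
  obtain ⟨u, hu, -⟩ := bic3_exists hs h1 hF (-(|s| + |t|)) z h'.2.1
  obtain ⟨z', hz, -⟩ := bic3_exists hs h1 hF (s + t) x h.1
  obtain ⟨u', hu', -⟩ := bic3_exists hs h1 hF (-(|s| + |t|)) z' hz.2.1
  have h2 := bic3_comp2 hs h1 hF (by linarith) (by linarith) h
    (bic3_comp2 hs h1 hF (by linarith) (by linarith) h' hu)
  have h3 := bic3_comp2 hs h1 hF (by linarith) (by linarith) hz hu'
  rw [← add_assoc] at h2
  rw [← bic3_unique hs h1 hF h2 h3] at hu'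
  rwa [bic3_unique hs h1 hF (hu.symm hs) (hu'.symm hs)]

end Rel

variable (M J ζ) in
/-- the bicentraliser as a subspace -/
def bic3C : Submodule ℂ (H →L[ℂ] H) where
  carrier := Bic M J ζ
  add_mem' := bic_add
  zero_mem' := sub_self (1 : H →L[ℂ] H) ▸ bic_sub bic_one bic_one
  smul_mem' c _ h := bic_smul c h

theorem bic3_cont {C : Type} [AddCommGroup C] [Module ℂ C] (f : C →ₗ[ℂ] H)
    (V : ℝ → (H →L[ℂ] H)) (hV : ∀ t ξ, ‖V t ξ‖ = ‖ξ‖) (h₁ : ∀ c, Continuous fun t => V t (f c))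
    (h₂ : ∀ t γ, (∀ c, ⟪f c, γ⟫_ℂ = 0) → V t γ = γ) (ξ : H) : Continuous fun t => V t ξ := by
  have h3 : (LinearMap.range f ⊔ (LinearMap.range f)ᗮ).topologicalClosure = ⊤ := by
    rw [Submodule.topologicalClosure_eq_top_iff, ← Submodule.inf_orthogonal,
      Submodule.inf_orthogonal_eq_bot]
  have h4 : ξ ∈ closure ((LinearMap.range f ⊔ (LinearMap.range f)ᗮ : Submodule ℂ H) : Set H) := by
    rw [← Submodule.topologicalClosure_coe, h3]
    trivial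
  refine continuous_of_uniform_approx_of_continuous fun u hu => ?_
  obtain ⟨ε, hε, h5⟩ := Metric.mem_uniformity_dist.1 hu
  obtain ⟨η, hη, h6⟩ := Metric.mem_closure_iff.1 h4 ε hε
  obtain ⟨_, ⟨c, rfl⟩, γ, hγ, rfl⟩ := Submodule.mem_sup.1 hη
  refine ⟨fun t => V t (f c + γ), ?_, fun t => h5 ?_⟩
  · have h7 : ∀ t, V t (f c + γ) = V t (f c) + γ := fun t => by
      rw [map_add, h₂ t γ fun c => (Submodule.mem_orthogonal _ _).1 hγ _ ⟨c, rfl⟩]
    simp only [h7]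
    exact (h₁ c).add continuous_const
  · rwa [dist_eq_norm, ← map_sub, hV, ← dist_eq_norm]

theorem exists_flow (hE : ModD M J ζ E) (h1 : ‖ζ‖ = 1) (hF : EigFam M J ζ) :
    ∃ (β : ℝ → (H →L[ℂ] H) → (H →L[ℂ] H)) (V : SpecCalc ℝ H), BFlow M J ζ E β V := by
  have hs := hE.std
  have hex := bic3_exists hs h1 hF
  choose! β hβ hn using hex
  have hu : ∀ {s x y}, BRel M J ζ s x y → β s x = y := fun h =>
    bic3_unique hs h1 hF (hβ _ _ h.1) h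
  let f : bic3C M J ζ →ₗ[ℂ] H :=
    { toFun := fun c => c.1 ζ
      map_add' := fun _ _ => rfl
      map_smul' := fun _ _ => rfl }
  let g : ℝ → bic3C M J ζ →ₗ[ℂ] H := fun s =>
    { toFun := fun c => β s c.1 ζ
      map_add' := fun a b => by
        change β s (a.1 + b.1) ζ = _
        rw [hu ((hβ s _ a.2).add (hβ s _ b.2))]
        rfl
      map_smul' := fun c a => by
        change β s (c • a.1) ζ = _
        rw [hu ((hβ s _ a.2).smul c)]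
        rfl }
  have hW : ∀ s, ∃ W : H →L[ℂ] H, ‖W‖ ≤ 1 ∧ (∀ c, W (f c) = g s c) ∧
      ∀ γ, (∀ c, ⟪f c, γ⟫_ℂ = 0) → W γ = 0 := fun s =>
    exists_extend f (g s) 1 zero_le_one fun c => by
      have h2 : ⟪β s c.1 ζ, β s c.1 ζ⟫_ℂ = ⟪c.1 ζ, c.1 ζ⟫_ℂ :=
        bic3_inner hs h1 hF (hβ s _ c.2) (hβ s _ c.2)
      change ‖β s c.1 ζ‖ ≤ 1 * ‖c.1 ζ‖
      rw [one_mul, @norm_eq_sqrt_re_inner ℂ, @norm_eq_sqrt_re_inner ℂ, h2]
  choose W _ hW1 hW2 using hW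
  obtain ⟨V, hV⟩ : ∃ V : ℝ → (H →L[ℂ] H), ∀ s, V s = W s + (1 - W 0) := ⟨_, fun _ => rfl⟩
  have v1 : ∀ s, ∀ x ∈ Bic M J ζ, V s (x ζ) = β s x ζ := fun s x hx => by
    have e1 : W s (x ζ) = β s x ζ := hW1 s ⟨x, hx⟩
    have e2 : W 0 (x ζ) = β 0 x ζ := hW1 0 ⟨x, hx⟩
    rw [hu (brel_zero hs hx)] at e2
    rw [hV, ContinuousLinearMap.add_apply, ContinuousLinearMap.sub_apply, e1, e2,
      ContinuousLinearMap.one_apply, sub_self, add_zero]
  have v2 : ∀ s γ, (∀ c, ⟪f c, γ⟫_ℂ = 0) → V s γ = γ := fun s γ hγ => by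
    rw [hV, ContinuousLinearMap.add_apply, ContinuousLinearMap.sub_apply, hW2 s γ hγ, hW2 0 γ hγ,
      ContinuousLinearMap.one_apply, sub_zero, zero_add]
  have v0 : V 0 = 1 := by rw [hV, add_sub_cancel]
  have vadd : ∀ s t, V (s + t) = V s * V t := fun s t => by
    refine ext_range_orth f (fun c => ?_) fun γ hγ => ?_
    · change V (s + t) (c.1 ζ) = V s (V t (c.1 ζ))
      have h2 := hβ t _ c.2
      rw [v1 _ _ c.2, v1 _ _ c.2, v1 _ _ h2.2.1, add_comm,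
        hu (bic3_comp hs h1 hF h2 (hβ s _ h2.2.1))]
    · change V (s + t) γ = V s (V t γ)
      rw [v2 _ γ hγ, v2 t γ hγ, v2 _ γ hγ]
  have vstar : ∀ t, star (V t) = V (-t) := fun t => by
    have key : ∀ η η' : H, (∀ c, ⟪η, V t (f c)⟫_ℂ = ⟪η', f c⟫_ℂ) →
        (∀ γ, (∀ c, ⟪f c, γ⟫_ℂ = 0) → ⟪η, γ⟫_ℂ = ⟪η', γ⟫_ℂ) → star (V t) η = η' := by
      intro η η' a1 a2
      have a3 : (innerSL ℂ η).comp (V t) = innerSL ℂ η' :=
        ext_range_orth f a1 fun γ hγ => by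
          change ⟪η, V t γ⟫_ℂ = ⟪η', γ⟫_ℂ
          rw [v2 t γ hγ, a2 γ hγ]
      refine ext_inner_right ℂ fun ξ => ?_
      exact (ContinuousLinearMap.adjoint_inner_left (V t) ξ η).trans
        (ContinuousLinearMap.ext_iff.1 a3 ξ)
    refine ext_range_orth f (fun c => key _ _ (fun c' => ?_) fun γ hγ => ?_) fun γ hγ => ?_
    · change ⟪c.1 ζ, V t (c'.1 ζ)⟫_ℂ = ⟪V (-t) (c.1 ζ), c'.1 ζ⟫_ℂ
      have h2 := (hβ (-t) _ c.2).symm hs
      rw [neg_neg] at h2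
      rw [v1 _ _ c.2, v1 _ _ c'.2]
      exact bic3_inner hs h1 hF h2 (hβ t _ c'.2)
    · change ⟪f c, γ⟫_ℂ = ⟪V (-t) (c.1 ζ), γ⟫_ℂ
      rw [v1 _ _ c.2, hγ]
      exact (hγ ⟨_, (hβ (-t) _ c.2).2.1⟩).symm
    · rw [v2 _ γ hγ]
      refine key _ _ (fun c => ?_) fun _ _ => rfl
      change ⟪γ, V t (c.1 ζ)⟫_ℂ = ⟪γ, f c⟫_ℂ
      rw [v1 _ _ c.2, inner_eq_zero_symm.1 (hγ c)]
      exact inner_eq_zero_symm.1 (hγ ⟨_, (hβ t _ c.2).2.1⟩)
  have vnorm : ∀ t ξ, ‖V t ξ‖ = ‖ξ‖ := fun t ξ => by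
    rw [@norm_eq_sqrt_re_inner ℂ, @norm_eq_sqrt_re_inner ℂ, ← bic3_adj, vstar, ← vadd,
      neg_add_cancel, v0, ContinuousLinearMap.one_apply]
  have vc : ∀ c, Continuous fun t => V t (f c) := fun c => by
    refine Metric.continuous_iff.2 fun b ε hε => ?_
    obtain ⟨ρ, hρ, h2⟩ := bet_cont hs hF (brel_zero hs c.2).2.2.1 (half_pos hε)
    have h3 : ∀ a b, a ≤ b → b - a ≤ ρ → ‖V a (f c) - V b (f c)‖ ≤ ε / 2 := by
      intro a b hab h4
      have h5 := h2 (a - b) (by linarith) (by rw [sub_zero, abs_sub_comm, abs_of_nonneg] <;> linarith)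
        _ (hβ (a - b) _ c.2).2.2.1
      have e : V a (f c) - V b (f c) = V b (V (a - b) (c.1 ζ) - c.1 ζ) := by
        rw [map_sub, ← ContinuousLinearMap.mul_apply, ← vadd, add_sub_cancel]
        rfl
      rw [e, vnorm, v1 _ _ c.2]
      exact h5
    refine ⟨ρ, hρ, fun a ha => lt_of_le_of_lt ?_ (half_lt_self hε)⟩
    rw [Real.dist_eq, abs_lt] at ha
    rw [dist_eq_norm]
    rcases le_total a b with hab | hab
    · exact h3 a b hab (by linarith [ha.1])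
    · rw [norm_sub_rev]
      exact h3 b a hab ha.2.le
  obtain ⟨S, hS⟩ := stone V v0 vadd vstar (bic3_cont f V vnorm vc v2)
  refine ⟨β, S, hβ, hn, fun s => hu (brel_one s),
    fun s x hx y hy => hu ((hβ s x hx).mul hs (hβ s y hy)),
    fun s x hx => hu ((hβ s x hx).star hs), fun s x hx => by rw [hS, v1 s x hx], fun s t => ?_⟩
  rw [hS]
  refine ext_range_orth f (fun c => ?_) fun γ hγ => ?_
  · change V s (E.U t (c.1 ζ)) = E.U t (V s (c.1 ζ))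
    rw [v1 _ _ c.2, ← hE.sig_apply, ← hE.sig_apply, v1 _ _ (bic_sig hE c.2 t),
      hu ((hβ s _ c.2).sig hE t)]
  · change V s (E.U t γ) = E.U t (V s γ)
    rw [v2 s γ hγ]
    refine v2 s _ fun c => ?_
    have h2 := hγ ⟨_, bic_sig hE c.2 (-t)⟩
    change ⟪E.sig (-t) c.1 ζ, γ⟫_ℂ = 0 at h2
    rw [hE.sig_apply, ← E.star_U] at h2
    exact (ContinuousLinearMap.adjoint_inner_left (E.U t) γ (c.1 ζ)).symm.trans h2

end Pool.Agent.P.MP_5d580a_an
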