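import Pool.Agent.P.MP_5d580a_an.Trans

open scoped ComplexOrder InnerProductSpace ComplexConjugate BoundedContinuousFunction
open MeasureTheory Filter Topology

set_option linter.unusedSectionVars false
set_option linter.unusedVariables false

noncomputable section

namespace Pool.Agent.P.MP_5d580a_an

variable {H : Type} [NormedAddCommGroup H] [InnerProductSpace ℂ H] [CompleteSpace H]

variable {M : VonNeumannAlgebra H} {J : H ≃ₗᵢ⋆[ℂ] H} {ζ₁ ζ₂ : H}

/-- the vector `x ζ y` -/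
def patchB (J : H ≃ₗᵢ⋆[ℂ] H) (x : H →L[ℂ] H) (ζ : H) (y : H →L[ℂ] H) : H := x (rm J y ζ)

/-- the energy of a candidate -/
def patchEn (J : H ≃ₗᵢ⋆[ℂ] H) (ζ₁ ζ₂ : H) (v : H →L[ℂ] H) : ℝ :=
  ‖patchB J v ζ₁ (star v * v) - patchB J (v * star v) ζ₂ v‖ ^ 2 +
    4 * ‖patchB J v ζ₁ (1 - star v * v)‖ ^ 2 + 4 * ‖patchB J (1 - v * star v) ζ₂ v‖ ^ 2

theorem patch_left (z x y : H →L[ℂ] H) (ζ : H) : z (patchB J x ζ y) = patchB J (z * x) ζ y := rfl

theorem patch_right (hJ : StdJ M J) {z x : H →L[ℂ] H} (hz : z ∈ M) (hx : x ∈ M) (y : H →L[ℂ] H)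
    (ζ : H) : rm J z (patchB J x ζ y) = patchB J x ζ (y * z) := by
  rw [patchB, patchB, rm_mul hJ.invol, ← hJ.comm_apply hx hz]
  rfl

theorem patch_addl (x x' y : H →L[ℂ] H) (ζ : H) :
    patchB J (x + x') ζ y = patchB J x ζ y + patchB J x' ζ y := rfl

theorem patch_subl (x x' y : H →L[ℂ] H) (ζ : H) :
    patchB J (x - x') ζ y = patchB J x ζ y - patchB J x' ζ y := rfl

theorem patch_addr (x y y' : H →L[ℂ] H) (ζ : H) :
    patchB J x ζ (y + y') = patchB J x ζ y + patchB J x ζ y' := by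
  simp only [patchB, rm_add, add_apply, map_add]

theorem patch_subr (x y y' : H →L[ℂ] H) (ζ : H) :
    patchB J x ζ (y - y') = patchB J x ζ y - patchB J x ζ y' := by
  simp only [patchB, rm_sub, sub_apply, map_sub]

theorem patch_zerol (y : H →L[ℂ] H) (ζ : H) : patchB J 0 ζ y = 0 := rfl

theorem patch_zeror (x : H →L[ℂ] H) (ζ : H) : patchB J x ζ 0 = 0 := by
  simp only [patchB, rm_zero, zero_apply, map_zero]

theorem patch_oner (hJ : StdJ M J) (x : H →L[ℂ] H) (ζ : H) : patchB J x ζ 1 = x ζ := by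
  rw [patchB, rm_one hJ.invol]
  rfl

theorem patch_swap (hJ : StdJ M J) {ζ : H} (hζ : J ζ = ζ) {x y : H →L[ℂ] H} (hx : x ∈ M)
    (hy : y ∈ M) : ‖patchB J x ζ y‖ = ‖patchB J (star y) ζ (star x)‖ := by
  rw [← J.norm_map, patchB, J_apply hJ.invol, J_rm hJ.invol, hζ, patchB,
    hJ.comm_apply (star_mem hy) (star_mem hx)]

theorem patch_pinch (hJ : StdJ M J) {p x : H →L[ℂ] H} (hp : p ∈ M) {y : H →L[ℂ] H} (hy : y ∈ M)
    (ζ : H) : patchB J x (pinch J p ζ) y =
      patchB J (x * p) ζ (p * y) + patchB J (x * (1 - p)) ζ ((1 - p) * y) := by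
  have e : pinch J p ζ = patchB J p ζ p + patchB J (1 - p) ζ (1 - p) := rfl
  rw [e, patchB, map_add, map_add, patch_right hJ hy hp, patch_right hJ hy (sub_mem (one_mem M) hp)]
  rfl

theorem patch_pyth {p : H →L[ℂ] H} (hp : IsStarProjection p) {α β : H} (h1 : p α = α)
    (h2 : p β = 0) : ‖α + β‖ ^ 2 = ‖α‖ ^ 2 + ‖β‖ ^ 2 := by
  rw [proj_pyth hp (α + β)]
  simp only [map_add, sub_apply, one_apply_eq_self, h1, h2,
    add_zero, sub_self, sub_zero, zero_add]

theorem patch_par (α β : H) : ‖α - β‖ ^ 2 ≤ 2 * ‖α‖ ^ 2 + 2 * ‖β‖ ^ 2 := by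
  have h := norm_sub_le α β
  have h2 := pow_le_pow_left₀ (norm_nonneg _) h 2
  nlinarith [sq_nonneg (‖α‖ - ‖β‖)]

theorem patch_star {v : H →L[ℂ] H} (hv : v * star v * v = v) :
    star v * star (star v) * star v = star v := by
  have := congrArg star hv
  simpa only [star_mul, star_star, mul_assoc] using this

/-- orthogonal decomposition of the defect -/
theorem patch_dec (hJ : StdJ M J) {v : H →L[ℂ] H} (hM : v ∈ M) (hv : v * star v * v = v)
    (ζ₁ ζ₂ : H) : ‖v ζ₁ - rm J v ζ₂‖ ^ 2 =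
      ‖patchB J v ζ₁ (star v * v) - patchB J (v * star v) ζ₂ v‖ ^ 2 +
        ‖patchB J v ζ₁ (1 - star v * v)‖ ^ 2 + ‖patchB J (1 - v * star v) ζ₂ v‖ ^ 2 := by
  have pe := piso_init hv
  have pf := piso_fin hv
  have me : star v * v ∈ M := mul_mem (star_mem hM) hM
  have mf : v * star v ∈ M := mul_mem hM (star_mem hM)
  have ve : v * (star v * v) = v := by rw [← mul_assoc, hv]
  generalize star v * v = e at *
  generalize v * star v = f at *
  have ee : e * e = e := pe.isIdempotentElem.eq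
  have ff : f * f = f := pf.isIdempotentElem.eq
  have e0 : v ζ₁ - rm J v ζ₂ = (patchB J v ζ₁ e - patchB J f ζ₂ v + patchB J v ζ₁ (1 - e)) +
      -patchB J (1 - f) ζ₂ v := by
    rw [patch_subr, patch_subl, patch_oner hJ]
    change _ = _ + -(rm J v ζ₂ - _)
    abel
  rw [e0, patch_pyth pf, patch_pyth (rm_proj hJ.invol pe), norm_neg]
  · simp only [map_sub, patch_right hJ me hM, patch_right hJ me mf, ee, ve]
  · simp only [patch_right hJ me hM, sub_mul, one_mul, ee, sub_self, patch_zeror]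
  · simp only [map_add, map_sub, patch_left, hv, ff]
  · simp only [map_neg, patch_left, mul_sub, mul_one, ff, sub_self, patch_zerol, neg_zero]

theorem patch_le (hJ : StdJ M J) {v : H →L[ℂ] H} (hM : v ∈ M) (hv : v * star v * v = v)
    (ζ₁ ζ₂ : H) : ‖v ζ₁ - rm J v ζ₂‖ ^ 2 ≤ patchEn J ζ₁ ζ₂ v := by
  rw [patch_dec hJ hM hv, patchEn]
  nlinarith [sq_nonneg ‖patchB J v ζ₁ (1 - star v * v)‖, sq_nonneg ‖patchB J (1 - v * star v) ζ₂ v‖]

theorem patch_step (hJ : StdJ M J) (h1 : J ζ₁ = ζ₁) (h2 : J ζ₂ = ζ₂) {v w : H →L[ℂ] H}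
    (mv : v ∈ M) (mw : w ∈ M) (hv : v * star v * v = v) (hw : w * star w * w = w)
    (hvw : star v * w = 0) (hwv : w * star v = 0) :
    patchEn J ζ₁ ζ₂ (v + w) ≤ patchEn J ζ₁ ζ₂ v +
      4 * ‖w (pinch J (star v * v) ζ₁) - rm J w (pinch J (v * star v) ζ₂)‖ ^ 2 := by
  have hwv' : star w * v = 0 := by simpa using congrArg star hvw
  have hvw' : v * star w = 0 := by simpa using congrArg star hwv
  have e1 : star (v + w) * (v + w) = star v * v + star w * w := by
    simp only [star_add, add_mul, mul_add, hvw, hwv', add_zero, zero_add]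
  have e2 : (v + w) * star (v + w) = v * star v + w * star w := by
    simp only [star_add, add_mul, mul_add, hvw', hwv, add_zero, zero_add]
  have pe := piso_init hv
  have pf := piso_fin hv
  have pa := piso_init hw
  have pb := piso_fin hw
  have me : star v * v ∈ M := mul_mem (star_mem mv) mv
  have mf : v * star v ∈ M := mul_mem mv (star_mem mv)
  have ma : star w * w ∈ M := mul_mem (star_mem mw) mw
  have mb : w * star w ∈ M := mul_mem mw (star_mem mw)
  have ve : v * (star v * v) = v := by rw [← mul_assoc, hv]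
  have wa : w * (star w * w) = w := by rw [← mul_assoc, hw]
  have fw : v * star v * w = 0 := by rw [mul_assoc, hvw, mul_zero]
  have bv : w * star w * v = 0 := by rw [mul_assoc, hwv', mul_zero]
  have we : w * (star v * v) = 0 := by rw [← mul_assoc, hwv, zero_mul]
  have va : v * (star w * w) = 0 := by rw [← mul_assoc, hvw', zero_mul]
  have ea : star v * v * (star w * w) = 0 := by rw [mul_assoc, va, mul_zero]
  have ae : star w * w * (star v * v) = 0 := by rw [mul_assoc, we, mul_zero]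
  have fb : v * star v * (w * star w) = 0 := by rw [← mul_assoc, fw, zero_mul]
  have bf : w * star w * (v * star v) = 0 := by rw [← mul_assoc, bv, zero_mul]
  have n1 : ‖patchB J w ζ₁ (star v * v)‖ = ‖patchB J v ζ₁ (star w * w)‖ := by
    rw [patchB, piso_norm_apply hw, patchB, piso_norm_apply hv]
    simpa only [pe.isSelfAdjoint.star_eq, pa.isSelfAdjoint.star_eq, patchB] using
      patch_swap hJ h1 ma me
  have n2 : ‖patchB J (v * star v) ζ₂ w‖ = ‖patchB J (w * star w) ζ₂ v‖ := by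
    rw [patch_swap hJ h2 mf mw, patch_swap hJ h2 mb mv, patchB, piso_norm_apply (patch_star hw),
      patchB, piso_norm_apply (patch_star hv), star_star, star_star]
    simpa only [pf.isSelfAdjoint.star_eq, pb.isSelfAdjoint.star_eq, patchB] using
      patch_swap hJ h2 mb mf
  rw [patch_dec hJ mw hw, patchEn, patchEn, e1, e2, patch_pinch hJ me ma, patch_pinch hJ mf mw,
    patch_pinch hJ mf mw, patch_pinch hJ me (sub_mem (one_mem M) ma)]
  generalize star v * v = e at *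
  generalize v * star v = f at *
  generalize star w * w = a at *
  generalize w * star w = b at *
  have ee : e * e = e := pe.isIdempotentElem.eq
  have ff : f * f = f := pf.isIdempotentElem.eq
  have aa : a * a = a := pa.isIdempotentElem.eq
  have bb : b * b = b := pb.isIdempotentElem.eq
  have m1 : 1 - (f + b) ∈ M := sub_mem (one_mem M) (add_mem mf mb)
  have s1 : (1 - e) * (1 - a) = 1 - (e + a) := by
    simp only [mul_sub, sub_mul, ea, one_mul, mul_one]; abel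
  have s2 : (1 - b) * (1 - f) = 1 - (f + b) := by
    simp only [mul_sub, sub_mul, bf, one_mul, mul_one]; abel
  have s3 : w * (1 - e) = w := by rw [mul_sub, we, mul_one, sub_zero]
  have s4 : (1 - f) * w = w := by rw [sub_mul, fw, one_mul, sub_zero]
  have s5 : (1 - e) * a = a := by rw [sub_mul, ea, one_mul, sub_zero]
  have s6 : b * (1 - f) = b := by rw [mul_sub, bf, mul_one, sub_zero]
  simp only [s1, s2, s3, s4, s5, s6, we, fw, patch_zerol, patch_zeror, zero_add]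
  have a1 : ‖patchB J (v + w) ζ₁ (e + a) - patchB J (f + b) ζ₂ (v + w)‖ ^ 2 =
      ‖patchB J v ζ₁ e - patchB J f ζ₂ v‖ ^ 2 + ‖patchB J v ζ₁ a - patchB J f ζ₂ w‖ ^ 2 +
        (‖patchB J w ζ₁ e - patchB J b ζ₂ v‖ ^ 2 + ‖patchB J w ζ₁ a - patchB J b ζ₂ w‖ ^ 2) := by
    rw [← patch_pyth (rm_proj hJ.invol pe), ← patch_pyth (rm_proj hJ.invol pe), ← patch_pyth pf]
    · congr 2
      simp only [patch_addl, patch_addr]
      abel
    · simp only [map_add, map_sub, patch_left, hv, ff]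
    · simp only [map_add, map_sub, patch_left, fw, fb, patch_zerol, sub_self, add_zero]
    · simp only [map_sub, patch_right hJ me mw, patch_right hJ me mb, ee, ve]
    · simp only [map_sub, patch_right hJ me mw, patch_right hJ me mb, ae, we, patch_zeror, sub_self]
    · simp only [map_sub, patch_right hJ me mv, patch_right hJ me mf, ee, ve]
    · simp only [map_sub, patch_right hJ me mv, patch_right hJ me mf, ae, we, patch_zeror, sub_self]
  have a2 : ‖patchB J (v + w) ζ₁ (1 - (e + a))‖ ^ 2 =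
      ‖patchB J v ζ₁ (1 - (e + a))‖ ^ 2 + ‖patchB J w ζ₁ (1 - (e + a))‖ ^ 2 := by
    rw [patch_addl, patch_pyth pf]
    · rw [patch_left, hv]
    · rw [patch_left, fw, patch_zerol]
  have a3 : ‖patchB J v ζ₁ (1 - e)‖ ^ 2 =
      ‖patchB J v ζ₁ a‖ ^ 2 + ‖patchB J v ζ₁ (1 - (e + a))‖ ^ 2 := by
    rw [← patch_pyth (rm_proj hJ.invol pa), ← patch_addr]
    · congr 3
      abel
    · rw [patch_right hJ ma mv, aa]
    · rw [patch_right hJ ma mv, sub_mul, add_mul, ea, aa, one_mul, zero_add, sub_self, patch_zeror]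
  have a4 : ‖patchB J (1 - (f + b)) ζ₂ (v + w)‖ ^ 2 =
      ‖patchB J (1 - (f + b)) ζ₂ v‖ ^ 2 + ‖patchB J (1 - (f + b)) ζ₂ w‖ ^ 2 := by
    rw [patch_addr, patch_pyth (rm_proj hJ.invol pe)]
    · rw [patch_right hJ me m1, ve]
    · rw [patch_right hJ me m1, we, patch_zeror]
  have a5 : ‖patchB J (1 - f) ζ₂ v‖ ^ 2 =
      ‖patchB J b ζ₂ v‖ ^ 2 + ‖patchB J (1 - (f + b)) ζ₂ v‖ ^ 2 := by
    rw [← patch_pyth pb, ← patch_addl]
    · congr 3
      abel
    · rw [patch_left, bb]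
    · rw [patch_left, mul_sub, mul_add, bf, bb, mul_one, zero_add, sub_self, patch_zerol]
  have a6 := patch_par (patchB J v ζ₁ a) (patchB J f ζ₂ w)
  have a7 := patch_par (patchB J w ζ₁ e) (patchB J b ζ₂ v)
  rw [n1] at a7
  rw [n2] at a6
  rw [a1, a2, a3, a4, a5]
  nlinarith [sq_nonneg ‖patchB J w ζ₁ a - patchB J b ζ₂ w‖]

theorem patch_tend {T : ℕ → (H →L[ℂ] H)} {S : H →L[ℂ] H} (hT : ∀ n, ‖T n‖ ≤ 1)
    (h : ∀ ξ, Tendsto (fun n => T n ξ) atTop (𝓝 (S ξ))) {η : ℕ → H} {γ : H}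
    (hη : Tendsto η atTop (𝓝 γ)) : Tendsto (fun n => T n (η n)) atTop (𝓝 (S γ)) := by
  have h1 : Tendsto (fun n => T n (η n - γ)) atTop (𝓝 0) := by
    refine squeeze_zero_norm (fun n => ?_) (tendsto_iff_norm_sub_tendsto_zero.1 hη)
    exact ((T n).le_opNorm _).trans (mul_le_of_le_one_left (norm_nonneg _) (hT n))
  simpa using h1.add (h γ)

theorem patch_cont {v : ℕ → (H →L[ℂ] H)} {w : H →L[ℂ] H} (hv : ∀ n, ‖v n‖ ≤ 1)
    (h : ∀ ξ, Tendsto (fun n => v n ξ) atTop (𝓝 (w ξ)))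
    (h' : ∀ ξ, Tendsto (fun n => (star (v n)) ξ) atTop (𝓝 ((star w) ξ))) (ζ₁ ζ₂ : H) :
    Tendsto (fun n => patchEn J ζ₁ ζ₂ (v n)) atTop (𝓝 (patchEn J ζ₁ ζ₂ w)) := by
  have hv' : ∀ n, ‖star (v n)‖ ≤ 1 := fun n => by rw [norm_star]; exact hv n
  have hJ : ∀ {η : ℕ → H} {γ : H}, Tendsto η atTop (𝓝 γ) →
      Tendsto (fun n => J (η n)) atTop (𝓝 (J γ)) := fun hη => (J.continuous.tendsto _).comp hη
  have r1 : Tendsto (fun n => rm J (v n) ζ₂) atTop (𝓝 (rm J w ζ₂)) := hJ (h' _)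
  have r2 : Tendsto (fun n => rm J (star (v n) * v n) ζ₁) atTop (𝓝 (rm J (star w * w) ζ₁)) := by
    simp only [rm_apply, star_mul, star_star]
    exact hJ (patch_tend hv' h' (h _))
  have r3 : Tendsto (fun n => rm J (1 - star (v n) * v n) ζ₁) atTop
      (𝓝 (rm J (1 - star w * w) ζ₁)) := by
    simp only [rm_sub]
    exact tendsto_const_nhds.sub r2
  have t1 := patch_tend hv h r2
  have t2 := patch_tend hv h (patch_tend hv' h' r1)
  have t3 := patch_tend hv h r3
  exact ((((t1.sub t2).norm.pow 2).add ((t3.norm.pow 2).const_mul 4)).add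
    (((r1.sub t2).norm.pow 2).const_mul 4))

theorem cs_patch (hM : IsFactor M) (h₁ : StdV M J ζ₁) (h₂ : StdV M J ζ₂) (hp : CPos M J ζ₁ ζ₂)
    (hF : Full M J ζ₁) {e₀ f₀ : H →L[ℂ] H} (he : Cent M J ζ₁ e₀) (hf : Cent M J ζ₂ f₀) {κ : ℝ}
    (hκ : 0 < κ) :
    ∃ v ∈ M, v * star v * v = v ∧ f₀ * v = v ∧ v * e₀ = v ∧
      (star v * v = e₀ ∨ v * star v = f₀) ∧ ‖v ζ₁ - rm J v ζ₂‖ ≤ κ * ‖v ζ₁‖ := by
  have hJ := h₁.stdJ
  obtain ⟨⟨v, mv, hv, fv, ve, hE⟩, -, hmax⟩ := brezis_browder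
    (S := {v : H →L[ℂ] H // v ∈ M ∧ v * star v * v = v ∧ f₀ * v = v ∧ v * e₀ = v ∧
      patchEn J ζ₁ ζ₂ v ≤ κ ^ 2 * ‖v ζ₁‖ ^ 2})
    (fun v w => w.1 * (star v.1 * v.1) = v.1) (fun v => by rw [← mul_assoc, v.2.2.1])
    (fun s t u h1 h2 => by
      rw [← (piso_le s.2.2.1 t.2.2.1 h1).1, ← mul_assoc, h2, h1])
    (fun v => ‖v.1 ζ₁‖ ^ 2)
    (fun s t h => by
      refine pow_le_pow_left₀ (norm_nonneg _) ?_ 2
      rw [← (piso_le s.2.2.1 t.2.2.1 h).2.1]
      exact proj_norm_le (piso_fin s.2.2.1) _)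
    (‖ζ₁‖ ^ 2)
    (fun s => pow_le_pow_left₀ (norm_nonneg _) ((s.1.le_opNorm _).trans
      (mul_le_of_le_one_left (norm_nonneg _) (piso_norm_le s.2.2.1))) 2)
    (fun s hs => by
      obtain ⟨w, hw, h1, h2, h3⟩ := exists_piso_lim (fun n => (s n).1) (fun n => (s n).2.2.1) hs
      have h4 := wot_of_sot h2
      refine ⟨⟨w, mem_of_wot h4 (.of_forall fun n => (s n).2.1), hw, ?_, ?_, ?_⟩, h1⟩
      · simpa using mul_eq_of_wot h4 (a := f₀) (b := 1) (c := 1) (d := 1)
          (.of_forall fun n => by simpa using (s n).2.2.2.1)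
      · simpa using mul_eq_of_wot h4 (a := 1) (b := e₀) (c := 1) (d := 1)
          (.of_forall fun n => by simpa using (s n).2.2.2.2.1)
      · exact le_of_tendsto_of_tendsto' (patch_cont (fun n => piso_norm_le (s n).2.2.1) h2 h3 _ _)
          (((h2 ζ₁).norm.pow 2).const_mul _) fun n => (s n).2.2.2.2.2)
    ⟨0, zero_mem M, by simp, by simp, by simp, by simp [patchEn, patch_zerol, patch_zeror]⟩
  refine ⟨v, mv, hv, fv, ve, ?_, ?_⟩
  swap
  · refine le_of_sq_le_sq ?_ (mul_nonneg hκ.le (norm_nonneg _))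
    rw [mul_pow]
    exact (patch_le hJ mv hv _ _).trans hE
  by_contra hc
  rw [not_or] at hc
  have pe := piso_init hv
  have pf := piso_fin hv
  have me : star v * v ∈ M := mul_mem (star_mem mv) mv
  have mf : v * star v ∈ M := mul_mem mv (star_mem mv)
  have ee0 : star v * v * e₀ = star v * v := by rw [mul_assoc, ve]
  have e0e : e₀ * (star v * v) = star v * v := by
    simpa only [star_mul, star_star, he.2.1.isSelfAdjoint.star_eq] using congrArg star ee0
  have f0f : f₀ * (v * star v) = v * star v := by rw [← mul_assoc, fv]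
  have ff0 : v * star v * f₀ = v * star v := by
    simpa only [star_mul, star_star, hf.2.1.isSelfAdjoint.star_eq] using congrArg star f0f
  have c1 := cone_pinch hJ me pe (cone_self (ζ := ζ₁) hJ)
  have c2 := cone_pinch hJ mf pf (cone_self (ζ := ζ₂) hJ)
  obtain ⟨w, mw, w0, hw, fw, we, hk⟩ := cs_local hM (h₁.pinch me pe) (h₂.pinch mf pf)
    (cpos_of_cone hJ hp c1 c2) (full_of_cone hM h₁ hF c1 (h₁.pinch me pe))
    (he.sub_pinch hJ me pe e0e) (hf.sub_pinch hJ mf pf f0f) (fun h => hc.1 (sub_eq_zero.1 h).symm)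
    (fun h => hc.2 (sub_eq_zero.1 h).symm) (half_pos hκ)
  have b1 : v * star v * w = 0 := by
    rw [← fw, ← mul_assoc, mul_sub, ff0, pf.isIdempotentElem.eq, sub_self, zero_mul]
  have b2 : w * (star v * v) = 0 := by
    rw [← we, mul_assoc, sub_mul, e0e, pe.isIdempotentElem.eq, sub_self, mul_zero]
  have hs : star v * v * star v = star v := by simpa only [star_star] using patch_star hv
  have hvw : star v * w = 0 := by rw [← hs, mul_assoc, mul_assoc, ← mul_assoc v, b1, mul_zero]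
  have hwv : w * star v = 0 := by rw [← hs, ← mul_assoc, b2, zero_mul]
  have hwv' : star w * v = 0 := by simpa using congrArg star hvw
  have hvw' : v * star w = 0 := by simpa using congrArg star hwv
  have b3 : f₀ * w = w := by rw [sub_mul, b1, sub_zero] at fw; exact fw
  have b4 : w * e₀ = w := by rw [mul_sub, b2, sub_zero] at we; exact we
  have b5 : ‖(v + w) ζ₁‖ ^ 2 = ‖v ζ₁‖ ^ 2 + ‖w ζ₁‖ ^ 2 := by
    refine patch_pyth pf ?_ ?_
    · exact congrArg (fun x : H →L[ℂ] H => x ζ₁) hv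
    · exact congrArg (fun x : H →L[ℂ] H => x ζ₁) b1
  have b6 : ‖w (pinch J (star v * v) ζ₁)‖ ≤ ‖w ζ₁‖ := by
    rw [← patch_oner hJ, patch_pinch hJ me (one_mem M), b2, patch_zerol, zero_add, mul_sub, b2,
      mul_one, mul_one, sub_zero, ← one_mul (1 - star v * v),
      ← patch_right hJ (sub_mem (one_mem M) me) mw, patch_oner hJ]
    exact proj_norm_le (rm_proj hJ.invol pe.one_sub) _
  have b7 := pow_le_pow_left₀ (norm_nonneg _)
    (hk.trans (mul_le_mul_of_nonneg_left b6 (half_pos hκ).le)) 2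
  have b8 := patch_step hJ h₁.fix h₂.fix mv mw hv hw hvw hwv
  have b9 : 0 < ‖w ζ₁‖ ^ 2 := pow_pos (norm_pos_iff.2 fun h => w0 (h₁.sepg w mw h)) 2
  have := hmax ⟨v + w, add_mem mv mw, ?_, by rw [mul_add, fv, b3], by rw [add_mul, ve, b4], ?_⟩
    (by change (v + w) * (star v * v) = v; rw [add_mul, b2, ← mul_assoc, hv, add_zero])
  · change ‖(v + w) ζ₁‖ ^ 2 ≤ ‖v ζ₁‖ ^ 2 at this
    linarith
  · simp only [star_add, add_mul, mul_add, hvw', hwv, add_zero, zero_add, hv, hw, b1,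
      mul_assoc w (star w) v, hwv', mul_zero]
  · rw [b5]
    nlinarith

theorem cs_isometry (hM : IsFactor M) (h₁ : StdV M J ζ₁) (h₂ : StdV M J ζ₂)
    (hp : CPos M J ζ₁ ζ₂) (hF : Full M J ζ₁) {f₀ : H →L[ℂ] H} (hf : Cent M J ζ₂ f₀) {κ : ℝ}
    (hκ : 0 < κ) (hlt : (1 + κ) * ‖ζ₁‖ < ‖f₀ ζ₂‖) :
    ∃ v ∈ M, star v * v = 1 ∧ f₀ * v = v ∧ ‖v ζ₁ - rm J v ζ₂‖ ≤ κ * ‖ζ₁‖ := by
  obtain ⟨v, mv, hv, fv, -, h, hk⟩ := cs_patch hM h₁ h₂ hp hF (Cent.one h₁.stdJ) hf hκ
  have h1 : ‖v ζ₁‖ ≤ ‖ζ₁‖ :=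
    (v.le_opNorm _).trans (mul_le_of_le_one_left (norm_nonneg _) (piso_norm_le hv))
  have h2 := hk.trans (mul_le_mul_of_nonneg_left h1 hκ.le)
  refine ⟨v, mv, h.resolve_right fun h => ?_, fv, h2⟩
  have h3 : ‖rm J v ζ₂‖ = ‖f₀ ζ₂‖ := by
    rw [norm_rm_apply v h₂.fix, piso_norm_apply (patch_star hv), star_star, h]
  have h4 := norm_sub_norm_le (rm J v ζ₂) (v ζ₁)
  rw [norm_sub_rev] at h4
  linarith

end Pool.Agent.P.MP_5d580a_an
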