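import Pool.Agent.P.MP_5d580a_an.Bic0
import Pool.Agent.P.MP_5d580a_an.Patch

open scoped ComplexOrder InnerProductSpace ComplexConjugate BoundedContinuousFunction
open MeasureTheory Filter Topology

set_option linter.unusedSectionVars false
set_option linter.unusedVariables false

noncomputable section

namespace Pool.Agent.P.MP_5d580a_an

variable {H : Type} [NormedAddCommGroup H] [InnerProductSpace ℂ H] [CompleteSpace H]

variable {M : VonNeumannAlgebra H} {J : H ≃ₗᵢ⋆[ℂ] H} {ζ : H} {E : SpecCalc ℝ H}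

theorem bic4_sa (hM : IsFactor M) (hs : StdV M J ζ) (hF : Full M J ζ) {y : H →L[ℂ] H}
    (hy : y ∈ Bic M J ζ) (hsa : IsSelfAdjoint y) (hc : cm J y ζ = 0) :
    ∃ t : ℝ, y = (t : ℂ) • (1 : H →L[ℂ] H) := by
  by_contra hne
  push Not at hne
  obtain ⟨a, b, p, q, hab, hp, hq, hp0, hq0, hya, hyb, hcomm⟩ := exists_sep_proj hsa hne
  have hJ := hs.stdJ
  have hyM : y ∈ M := bic_mem hy
  have hpM : p ∈ M := mem_of_commute fun z hz => (hcomm z (commute_of_mem hyM hz).symm).1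
  have hqM : q ∈ M := mem_of_commute fun z hz => (hcomm z (commute_of_mem hyM hz).symm).2
  obtain ⟨E, hE⟩ := exists_mod hs
  have hU := (hE.cm_iff_U hyM).1 hc
  have hpc : Cent M J ζ p := ⟨hpM, hp, (hE.cm_iff_U hpM).2 fun t => (hcomm _ (hU t)).1⟩
  have hqc : Cent M J ζ q := ⟨hqM, hq, (hE.cm_iff_U hqM).2 fun t => (hcomm _ (hU t)).2⟩
  have hpζ : 0 < ‖p ζ‖ := norm_pos_iff.2 fun h => hp0 (hs.sepg p hpM h)
  have hqζ : 0 < ‖q ζ‖ := norm_pos_iff.2 fun h => hq0 (hs.sepg q hqM h)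
  obtain ⟨c, hcdef⟩ : ∃ c : ℝ, c = min ‖p ζ‖ (‖q ζ‖ / 2) := ⟨_, rfl⟩
  have hc0 : 0 < c := by rw [hcdef]; exact lt_min hpζ (by positivity)
  have hba : 0 < b - a := sub_pos.2 hab
  obtain ⟨δ, hδ, hB⟩ := hy.2.2 ((b - a) * c / 2) (by positivity)
  obtain ⟨κ, hκdef⟩ : ∃ κ : ℝ, κ = min 1 (δ / (‖ζ‖ + 1)) := ⟨_, rfl⟩
  have hκ : 0 < κ := by rw [hκdef]; exact lt_min one_pos (by positivity)
  have hκ1 : κ ≤ 1 := by rw [hκdef]; exact min_le_left _ _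
  have hκ2 : κ * (‖ζ‖ + 1) ≤ δ := by
    have : κ ≤ δ / (‖ζ‖ + 1) := by rw [hκdef]; exact min_le_right _ _
    rwa [le_div_iff₀ (by positivity)] at this
  obtain ⟨v, hvM, hv, hqv, hvp, hor, hle⟩ := cs_patch hM hs hs hs.pos hF hpc hqc hκ
  have hv1 := piso_norm_le hv
  have hvζ : ‖v ζ‖ ≤ ‖ζ‖ := by
    have := v.le_opNorm ζ
    nlinarith [norm_nonneg ζ]
  have hEig : Eig M J ζ 0 δ v := by
    refine eig_zero_iff.2 ⟨hvM, hv1, ?_⟩
    have : ‖cm J v ζ‖ ≤ κ * ‖v ζ‖ := hle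
    nlinarith
  have h1 := (hB v hEig).1
  have hlow : c ≤ ‖v ζ‖ := by
    rcases hor with h | h
    · rw [piso_norm_apply hv, h, hcdef]; exact min_le_left _ _
    · have hv' : star v * star (star v) * star v = star v := by
        have := congrArg star hv
        simpa only [star_mul, mul_assoc] using this
      have e1 : ‖rm J v ζ‖ = ‖q ζ‖ := by
        rw [norm_rm_apply v hs.fix, piso_norm_apply hv', star_star, h]
      have e2 : ‖rm J v ζ‖ ≤ ‖v ζ‖ + ‖v ζ - rm J v ζ‖ := by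
        have := norm_sub_le (v ζ) (v ζ - rm J v ζ)
        simpa using this
      have e3 : c ≤ ‖q ζ‖ / 2 := by rw [hcdef]; exact min_le_right _ _
      nlinarith [norm_nonneg (v ζ)]
  obtain ⟨ξ, hξ⟩ : ∃ ξ, ξ = v ζ := ⟨_, rfl⟩
  have hyζ : y ζ = rm J y ζ := sub_eq_zero.1 hc
  have hpζ' : p ζ = rm J p ζ := sub_eq_zero.1 hpc.2.2
  have e1 : (y * v - v * y) ζ = y ξ - rm J y ξ := by
    rw [hξ, ← hJ.comm_apply hvM hyM, ← hyζ]; rfl
  have e2 : rm J p ξ = ξ := by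
    rw [hξ, ← hJ.comm_apply hvM hpM, ← hpζ']
    exact congrArg (fun T : H →L[ℂ] H => T ζ) hvp
  have e3 : q ξ = ξ := by
    rw [hξ]; exact congrArg (fun T : H →L[ℂ] H => T ζ) hqv
  have hn : (⟪ξ, ξ⟫_ℂ).re = ‖ξ‖ ^ 2 := by
    have := inner_self_eq_norm_sq (𝕜 := ℂ) ξ
    simpa using this
  have i1 : b * ‖ξ‖ ^ 2 ≤ (⟪ξ, y ξ⟫_ℂ).re := by
    have := re_inner_mono hyb ξ
    rw [ContinuousLinearMap.smul_apply, ContinuousLinearMap.mul_apply, e3, inner_smul_right,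
      Complex.re_ofReal_mul, hn] at this
    exact this
  have i2 : (⟪ξ, rm J y ξ⟫_ℂ).re ≤ a * ‖ξ‖ ^ 2 := by
    have hyp : y * p = p * y := (hcomm y rfl).1
    have := re_inner_mono (rm_mono hJ.invol hya) ξ
    rw [hyp, rm_mul hJ.invol, rm_smul, ContinuousLinearMap.smul_apply,
      ContinuousLinearMap.mul_apply, e2, inner_smul_right, Complex.re_ofReal_mul, hn] at this
    exact this
  have i3 : (⟪ξ, y ξ - rm J y ξ⟫_ℂ).re ≤ ‖ξ‖ * ‖y ξ - rm J y ξ‖ :=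
    (Complex.re_le_norm _).trans (norm_inner_le_norm _ _)
  rw [inner_sub_right, Complex.sub_re] at i3
  rw [e1] at h1
  rw [← hξ] at hlow
  have hξ0 : 0 < ‖ξ‖ := lt_of_lt_of_le hc0 hlow
  have i4 : (b - a) * ‖ξ‖ ^ 2 ≤ ‖ξ‖ * ((b - a) * c / 2) := by
    have := mul_le_mul_of_nonneg_left h1 hξ0.le
    linarith
  have i5 : (b - a) * ‖ξ‖ * c ≤ (b - a) * ‖ξ‖ * ‖ξ‖ :=
    mul_le_mul_of_nonneg_left hlow (by positivity)
  have i6 : 0 < (b - a) * ‖ξ‖ * c := by positivity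
  nlinarith

theorem bic_cent (hM : IsFactor M) (hs : StdV M J ζ) (hF : Full M J ζ) {x : H →L[ℂ] H}
    (hx : x ∈ Bic M J ζ) (hc : cm J x ζ = 0) : ∃ c : ℂ, x = c • (1 : H →L[ℂ] H) := by
  have hxM : x ∈ M := bic_mem hx
  obtain ⟨a, haM, b, hbM, hasa, hbsa, -, -, hxe, ha2, hb2⟩ := exists_re_im hxM
  have hcs : cm J (star x) ζ = 0 := by
    rw [cm_star hs.stdJ.invol hs.fix, hc, map_zero, neg_zero]
  have ha : a = (1 / 2 : ℂ) • (x + star x) := by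
    rw [← ha2, smul_smul]; norm_num
  have hb : b = (1 / 2 : ℂ) • ((-Complex.I) • (x - star x)) := by
    rw [← hb2, smul_smul]; norm_num
  have haB : a ∈ Bic M J ζ := by
    rw [ha]; exact bic_smul _ (bic_add hx (bic_star hs hx))
  have hbB : b ∈ Bic M J ζ := by
    rw [hb]; exact bic_smul _ (bic_smul _ (bic_sub hx (bic_star hs hx)))
  have hac : cm J a ζ = 0 := by
    rw [ha, cm_smul, cm_add, hc, hcs, add_zero, smul_zero]
  have hbc : cm J b ζ = 0 := by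
    rw [hb, cm_smul, cm_smul, cm_sub, hc, hcs, sub_zero, smul_zero, smul_zero]
  obtain ⟨s, hs'⟩ := bic4_sa hM hs hF haB hasa hac
  obtain ⟨t, ht⟩ := bic4_sa hM hs hF hbB hbsa hbc
  refine ⟨(s : ℂ) + Complex.I * t, ?_⟩
  rw [hxe, add_smul, mul_smul, ← hs', ← ht]

theorem bic4_trif (E : SpecCalc ℝ H) (ξ : H) :
    Tendsto (fun n : ℕ => E.Φ (trif (1 / ((n : ℝ) + 1)) 0) ξ) atTop
      (𝓝 (E.Pr (Set.Icc 0 0) ξ)) := by
  refine E.tendsto 1 (Eventually.of_forall fun n => ⟨(bm_trif _ _).1, fun l => norm_trif_le _ _ _⟩)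
    (BM.indicator_one measurableSet_Icc) (ae_of_all _ fun l => ?_)
  by_cases hl : l = 0
  · subst hl
    simp [trif, tri]
  · have h0 : (Set.Icc (0 : ℝ) 0).indicator (fun _ => (1 : ℂ)) l = 0 := by
      apply Set.indicator_of_notMem
      simpa using hl
    rw [h0]
    have hev : ∀ᶠ n : ℕ in atTop, 1 / ((n : ℝ) + 1) < |l| :=
      tendsto_one_div_add_atTop_nhds_zero_nat.eventually (gt_mem_nhds (abs_pos.2 hl))
    refine tendsto_const_nhds.congr' (hev.mono fun n hn => ?_)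
    by_contra hne
    have hpos : (0 : ℝ) < 1 / ((n : ℝ) + 1) := by positivity
    have := (trif_ne_zero_iff hpos 0 l).1 (fun h => hne h.symm)
    have h2 : |l| < 1 / ((n : ℝ) + 1) := abs_lt.2 ⟨by linarith [this.1], by linarith [this.2]⟩
    linarith

theorem bic4_pr (hM : IsFactor M) (hE : ModD M J ζ E) (hF : Full M J ζ) (h1 : ‖ζ‖ = 1)
    {z : H →L[ℂ] H} (hz : z ∈ Bic M J ζ) :
    E.Pr (Set.Icc 0 0) (z ζ) = ⟪ζ, z ζ⟫_ℂ • ζ := by
  have hs := hE.std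
  have hzM : z ∈ M := bic_mem hz
  have hpos : ∀ n : ℕ, (0 : ℝ) < 1 / ((n : ℝ) + 1) := fun n => by positivity
  obtain ⟨S, -, hS⟩ := exists_wot_ultra (Ultrafilter.of (atTop : Filter ℕ))
    (fun n : ℕ => win E (1 / ((n : ℝ) + 1)) 0 z) ‖z‖ (fun n => norm_win_le E (hpos n) 0 z)
  have hle : ((Ultrafilter.of (atTop : Filter ℕ) : Ultrafilter ℕ) : Filter ℕ) ≤ atTop :=
    Ultrafilter.of_le _
  have hSM : S ∈ M := mem_of_wot hS (Eventually.of_forall fun n => hE.win_mem (hpos n) 0 hzM)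
  have t1 : Tendsto (fun n : ℕ => win E (1 / ((n : ℝ) + 1)) 0 z ζ) atTop
      (𝓝 (E.Pr (Set.Icc 0 0) (z ζ))) := by
    refine (bic4_trif E (z ζ)).congr fun n => ?_
    rw [hE.win_apply (hpos n)]
  have t2 : Tendsto (fun n : ℕ => (star (win E (1 / ((n : ℝ) + 1)) 0 z)) ζ) atTop
      (𝓝 (E.Pr (Set.Icc 0 0) ((star z) ζ))) := by
    refine (bic4_trif E ((star z) ζ)).congr fun n => ?_
    rw [star_win E (hpos n), neg_zero, hE.win_apply (hpos n)]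
  have e1 : S ζ = E.Pr (Set.Icc 0 0) (z ζ) := apply_eq_of_wot hS (t1.mono_left hle)
  have e2 : (star S) ζ = E.Pr (Set.Icc 0 0) ((star z) ζ) :=
    apply_eq_of_wot (T := fun n : ℕ => star (win E (1 / ((n : ℝ) + 1)) 0 z)) (star_of_wot hS)
      (t2.mono_left hle)
  have hSB : S ∈ Bic M J ζ := by
    refine bic_closed hs hSM fun ε hε => ?_
    rw [← e1] at t1
    rw [← e2] at t2
    obtain ⟨n, hn1, hn2⟩ := ((Metric.tendsto_nhds.1 t1 ε hε).and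
      (Metric.tendsto_nhds.1 t2 ε hε)).exists
    refine ⟨_, bic_win hE hz (hpos n) 0, ?_, ?_⟩
    · rw [dist_comm, dist_eq_norm] at hn1
      exact hn1.le
    · rw [dist_comm, dist_eq_norm] at hn2
      rw [star_sub]
      exact hn2.le
  have hSc : cm J S ζ = 0 := by
    rw [hE.cm_eq_zero_iff hSM, e1]
    exact E.null_apply' (BM.indicator_one measurableSet_Icc) _ measurableSet_Icc.compl
      fun l hl => Set.indicator_of_notMem hl _
  obtain ⟨c, hc⟩ := bic_cent hM hs hF hSB hSc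
  have e3 : E.Pr (Set.Icc 0 0) ζ = ζ :=
    (E.Pr_eq_self_iff measurableSet_Icc ζ).2 (E.null_of_U_fix hE.U_fix)
  have e4 : ⟪ζ, E.Pr (Set.Icc 0 0) (z ζ)⟫_ℂ = ⟪ζ, z ζ⟫_ℂ := by
    have hsa : star (E.Pr (Set.Icc (0 : ℝ) 0)) = E.Pr (Set.Icc 0 0) :=
      (E.Pr_proj measurableSet_Icc).isSelfAdjoint
    rw [← inner_star_left, hsa, e3]
  have e5 : E.Pr (Set.Icc 0 0) (z ζ) = c • ζ := by
    rw [← e1, hc]; rfl
  rw [e5, inner_smul_right, inner_self_eq_norm_sq_to_K, h1] at e4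
  rw [e5, ← e4]
  simp

theorem bic4_int {g : ℝ → ℝ} (hg : Integrable g) {δ : ℝ} (hδ : 0 < δ) :
    Integrable fun t : ℝ => ((δ * g (-δ * t) : ℝ) : ℂ) :=
  ((hg.comp_mul_left' (neg_ne_zero.2 hδ.ne')).const_mul δ).ofReal

theorem bic4_norm (g : ℝ → ℝ) {δ : ℝ} (hδ : 0 < δ) :
    ∫ t : ℝ, ‖((δ * g (-δ * t) : ℝ) : ℂ)‖ = ∫ t, ‖g t‖ := by
  have h := Measure.integral_comp_mul_left (fun t => ‖g t‖) (-δ)
  have e : ∀ t : ℝ, ‖((δ * g (-δ * t) : ℝ) : ℂ)‖ = δ * ‖g (-δ * t)‖ := fun t => by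
    rw [Complex.norm_real, norm_mul, Real.norm_of_nonneg hδ.le]
  simp_rw [e]
  rw [integral_const_mul, h, abs_inv, abs_neg, abs_of_pos hδ, smul_eq_mul, ← mul_assoc,
    mul_inv_cancel₀ hδ.ne', one_mul]

theorem bic4_chk (g : ℝ → ℝ) {δ : ℝ} (hδ : 0 < δ) (l : ℝ) :
    chk (fun t : ℝ => ((δ * g (-δ * t) : ℝ) : ℂ)) l = chk (fun t => (g t : ℂ)) (-l / δ) := by
  have h := Measure.integral_comp_mul_left
    (fun t : ℝ => (g t : ℂ) * Complex.exp (Complex.I * t * ((-l / δ : ℝ) : ℂ))) (-δ)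
  have hδ' : (δ : ℂ) ≠ 0 := by exact_mod_cast hδ.ne'
  have e : ∀ t : ℝ, ((δ * g (-δ * t) : ℝ) : ℂ) * Complex.exp (Complex.I * t * l) =
      (δ : ℂ) * ((g (-δ * t) : ℂ) *
        Complex.exp (Complex.I * ((-δ * t : ℝ) : ℂ) * ((-l / δ : ℝ) : ℂ))) := fun t => by
    have : Complex.I * ((-δ * t : ℝ) : ℂ) * ((-l / δ : ℝ) : ℂ) = Complex.I * t * l := by
      push_cast
      field_simp
    rw [this]
    push_cast
    ring
  unfold chk
  simp_rw [e]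
  rw [integral_const_mul, h, abs_inv, abs_neg, abs_of_pos hδ, Complex.real_smul, ← mul_assoc,
    Complex.ofReal_inv, mul_inv_cancel₀ hδ', one_mul]

theorem bic4_lim (E : SpecCalc ℝ H) {g : ℝ → ℝ} (hg : Integrable g) (ξ : H) :
    Tendsto (fun δ : ℝ => E.Φ (fun l => chk (fun t => (g t : ℂ)) (-l / δ)) ξ) (𝓝[>] 0)
      (𝓝 (((∫ t, g t : ℝ) : ℂ) • E.Pr (Set.Icc 0 0) ξ)) := by
  have hg' : Integrable fun t => (g t : ℂ) := hg.ofReal
  have hb : BM ((Set.Icc (0 : ℝ) 0).indicator fun _ => (1 : ℂ)) :=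
    BM.indicator_one measurableSet_Icc
  have e : ((∫ t, g t : ℝ) : ℂ) • E.Pr (Set.Icc 0 0) ξ =
      E.Φ (fun l => ((∫ t, g t : ℝ) : ℂ) * (Set.Icc (0 : ℝ) 0).indicator (fun _ => (1 : ℂ)) l) ξ := by
    rw [E.map_smul _ hb]; rfl
  rw [e]
  refine E.tendsto (∫ t, ‖(g t : ℂ)‖) (Eventually.of_forall fun δ => ⟨?_, fun l => ?_⟩)
    ((BM.const _).mul hb) (ae_of_all _ fun l => ?_)
  · exact (bm_chk hg').1.comp (measurable_id.neg.div_const δ)
  · exact norm_chk_le _ _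
  · by_cases hl : l = 0
    · subst hl
      have : chk (fun t => (g t : ℂ)) 0 = ((∫ t, g t : ℝ) : ℂ) := by
        unfold chk
        rw [← integral_complex_ofReal]
        simp
      simp only [neg_zero, zero_div, this]
      simp
    · have h0 : (Set.Icc (0 : ℝ) 0).indicator (fun _ => (1 : ℂ)) l = 0 := by
        apply Set.indicator_of_notMem
        simpa using hl
      rw [h0, mul_zero]
      refine (chk_tendsto _).comp ?_
      rw [← Metric.cobounded_eq_cocompact, ← tendsto_norm_atTop_iff_cobounded]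
      refine (Tendsto.const_mul_atTop (abs_pos.2 hl) tendsto_inv_nhdsGT_zero).congr' ?_
      filter_upwards [self_mem_nhdsWithin] with δ hδ
      have hδ' : (0 : ℝ) < δ := hδ
      rw [Real.norm_eq_abs, abs_div, abs_neg, abs_of_pos hδ', div_eq_mul_inv]

theorem mean_ergodic (hM : IsFactor M) (hE : ModD M J ζ E) (hF : Full M J ζ) (h1 : ‖ζ‖ = 1)
    {z : H →L[ℂ] H} (hz : z ∈ Bic M J ζ) {g : ℝ → ℝ} (hg : Integrable g) (η η' : H) :
    Tendsto (fun δ : ℝ => ∫ t, ((δ * g (δ * t) : ℝ) : ℂ) * ⟪η', E.sig (-t) z η⟫_ℂ) (𝓝[>] 0)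
      (𝓝 (((∫ t, g t : ℝ) : ℂ) * ⟪ζ, z ζ⟫_ℂ * ⟪η', η⟫_ℂ)) := by
  have hzM : z ∈ M := bic_mem hz
  have hT := tendsto_of_cyc hE.std.cyc' (l := 𝓝[>] (0 : ℝ))
    (T := fun δ : ℝ => smear E (fun t : ℝ => ((δ * g (-δ * t) : ℝ) : ℂ)) z)
    (S := (((∫ t, g t : ℝ) : ℂ) * ⟪ζ, z ζ⟫_ℂ) • (1 : H →L[ℂ] H)) ((∫ t, ‖g t‖) * ‖z‖)
    (by
      filter_upwards [self_mem_nhdsWithin] with δ hδ
      have hδ' : (0 : ℝ) < δ := hδ
      refine ⟨hE.smear_mem (bic4_int hg hδ') hzM, ?_⟩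
      rw [← bic4_norm g hδ']
      exact norm_smear_le E (bic4_int hg hδ') z)
    (vn_smul_mem _ (one_mem M))
    (by
      have h := bic4_lim E hg (z ζ)
      rw [bic4_pr hM hE hF h1 hz, smul_smul] at h
      refine h.congr' ?_
      filter_upwards [self_mem_nhdsWithin] with δ hδ
      have hδ' : (0 : ℝ) < δ := hδ
      rw [hE.smear_apply (bic4_int hg hδ')]
      congr 2
      funext l
      exact (bic4_chk g hδ' l).symm) η
  have h2 := (tendsto_const_nhds (x := η')).inner (𝕜 := ℂ) hT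
  have e : ⟪η', ((((∫ t, g t : ℝ) : ℂ) * ⟪ζ, z ζ⟫_ℂ) • (1 : H →L[ℂ] H)) η⟫_ℂ =
      ((∫ t, g t : ℝ) : ℂ) * ⟪ζ, z ζ⟫_ℂ * ⟪η', η⟫_ℂ := by
    rw [ContinuousLinearMap.smul_apply, inner_smul_right]; rfl
  rw [e] at h2
  refine h2.congr' ?_
  filter_upwards [self_mem_nhdsWithin] with δ hδ
  have hδ' : (0 : ℝ) < δ := hδ
  have h3 := inner_opInt (E.scb_sig z) (bic4_int hg hδ') η η'
  rw [← integral_neg_eq_self] at h3
  refine h3.trans ?_
  simp only [neg_mul_neg]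

end Pool.Agent.P.MP_5d580a_an
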