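import Pool.Agent.P.MP_5d580a_an.Basic

open scoped ComplexOrder InnerProductSpace ComplexConjugate BoundedContinuousFunction
open MeasureTheory Filter Topology

set_option linter.unusedSectionVars false
set_option linter.unusedVariables false

noncomputable section

namespace Pool.Agent.P.MP_5d580a_an

variable {H : Type} [NormedAddCommGroup H] [InnerProductSpace ℂ H] [CompleteSpace H]

variable {X : Type} [MeasurableSpace X]

theorem BM.const (c : ℂ) : BM fun _ : X => c :=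
  ⟨measurable_const, ‖c‖, fun _ => le_rfl⟩

theorem BM.add {f g : X → ℂ} (hf : BM f) (hg : BM g) : BM fun x => f x + g x := by
  obtain ⟨h1, K, hK⟩ := hf
  obtain ⟨h2, L, hL⟩ := hg
  exact ⟨h1.add h2, K + L, fun x => (norm_add_le _ _).trans (add_le_add (hK x) (hL x))⟩

theorem BM.sub {f g : X → ℂ} (hf : BM f) (hg : BM g) : BM fun x => f x - g x := by
  obtain ⟨h1, K, hK⟩ := hf
  obtain ⟨h2, L, hL⟩ := hg
  exact ⟨h1.sub h2, K + L, fun x => (norm_sub_le _ _).trans (add_le_add (hK x) (hL x))⟩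

theorem BM.mul {f g : X → ℂ} (hf : BM f) (hg : BM g) : BM fun x => f x * g x := by
  obtain ⟨h1, K, hK⟩ := hf
  obtain ⟨h2, L, hL⟩ := hg
  refine ⟨h1.mul h2, K * L, fun x => ?_⟩
  rw [norm_mul]
  exact mul_le_mul (hK x) (hL x) (norm_nonneg _) ((norm_nonneg _).trans (hK x))

theorem BM.star {f : X → ℂ} (hf : BM f) : BM fun x => conj (f x) := by
  obtain ⟨h1, K, hK⟩ := hf
  exact ⟨Complex.continuous_conj.measurable.comp h1, K, fun x => by simpa using hK x⟩

theorem BM.sum {ι : Type*} (s : Finset ι) {f : ι → X → ℂ} (hf : ∀ i ∈ s, BM (f i)) :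
    BM fun x => ∑ i ∈ s, f i x := by
  classical
  induction s using Finset.induction_on with
  | empty => simpa using BM.const (X := X) 0
  | insert a s ha ih =>
    simp only [Finset.sum_insert ha]
    exact (hf a (Finset.mem_insert_self _ _)).add
      (ih fun i hi => hf i (Finset.mem_insert_of_mem hi))

theorem BM.indicator {f : X → ℂ} (hf : BM f) {s : Set X} (hs : MeasurableSet s) :
    BM (s.indicator f) := by
  obtain ⟨h1, K, hK⟩ := hf
  exact ⟨h1.indicator hs, K, fun x => (norm_indicator_le_norm_self f x).trans (hK x)⟩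

theorem BM.indicator_one {s : Set X} (hs : MeasurableSet s) :
    BM (s.indicator fun _ => (1 : ℂ)) :=
  (BM.const 1).indicator hs

theorem BM.indicator_of_bdd {f : X → ℂ} (hf : Measurable f) {s : Set X} (hs : MeasurableSet s)
    (K : ℝ) (hK : ∀ x ∈ s, ‖f x‖ ≤ K) : BM (s.indicator f) := by
  refine ⟨hf.indicator hs, max K 0, fun x => ?_⟩
  by_cases hx : x ∈ s
  · rw [Set.indicator_of_mem hx]
    exact (hK x hx).trans (le_max_left _ _)
  · rw [Set.indicator_of_notMem hx, norm_zero]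
    exact le_max_right _ _

theorem BM.comp {Y : Type} [MeasurableSpace Y] {f : Y → ℂ} (hf : BM f) {g : X → Y}
    (hg : Measurable g) : BM fun x => f (g x) := by
  obtain ⟨h1, K, hK⟩ := hf
  exact ⟨h1.comp hg, K, fun x => hK _⟩

theorem BM.integrable {f : X → ℂ} (hf : BM f) (μ : Measure X) [IsFiniteMeasure μ] :
    Integrable f μ := by
  obtain ⟨h1, K, hK⟩ := hf
  exact Integrable.of_bound h1.aestronglyMeasurable K (Eventually.of_forall hK)

theorem BM.integrable_sq {f : X → ℂ} (hf : BM f) (μ : Measure X) [IsFiniteMeasure μ] :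
    Integrable (fun x => ‖f x‖ ^ 2) μ := by
  obtain ⟨h1, K, hK⟩ := hf
  refine Integrable.of_bound (h1.norm.pow_const 2).aestronglyMeasurable (K ^ 2)
    (Eventually.of_forall fun x => ?_)
  rw [Real.norm_of_nonneg (sq_nonneg _)]
  exact pow_le_pow_left₀ (norm_nonneg _) (hK x) 2

theorem calc_norm_exp (t l : ℝ) : ‖Complex.exp (Complex.I * t * l)‖ = 1 := by
  rw [mul_assoc, ← Complex.ofReal_mul]
  exact Complex.norm_exp_I_mul_ofReal _

theorem bm_exp (t : ℝ) : BM fun l : ℝ => Complex.exp (Complex.I * t * l) :=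
  ⟨by fun_prop, 1, fun l => (calc_norm_exp t l).le⟩

theorem bm_rfun : BM rfun := by
  refine ⟨by unfold rfun; fun_prop, 2, fun l => ?_⟩
  have h := Real.exp_pos l
  rw [rfun, Complex.norm_real, Real.norm_of_nonneg (by positivity), div_le_iff₀ (by positivity)]
  linarith

theorem bm_tfun : BM tfun := by
  refine ⟨by unfold tfun; fun_prop, 1, fun l => ?_⟩
  have h := Real.exp_pos l
  have h2 : Real.exp l = Real.exp (l / 2) * Real.exp (l / 2) := by rw [← Real.exp_add, add_halves]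
  rw [tfun, Complex.norm_real, Real.norm_of_nonneg (by positivity), div_le_iff₀ (by positivity)]
  nlinarith [sq_nonneg (Real.exp (l / 2) - 1)]

theorem bm_bcf {Y : Type} [MeasurableSpace Y] [TopologicalSpace Y] [OpensMeasurableSpace Y]
    (f : Y →ᵇ ℂ) : BM fun y => f y :=
  ⟨f.continuous.measurable, ‖f‖, f.norm_coe_le_norm⟩

namespace SpecCalc

variable (E : SpecCalc X H)

theorem map_add {f g : X → ℂ} (hf : BM f) (hg : BM g) :
    E.Φ (fun x => f x + g x) = E.Φ f + E.Φ g := by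
  haveI := E.fin
  refine ext_inner_self fun ξ => ?_
  rw [ContinuousLinearMap.add_apply, inner_add_right, E.inner _ (hf.add hg), E.inner _ hf,
    E.inner _ hg, integral_add (hf.integrable _) (hg.integrable _)]

theorem map_sub {f g : X → ℂ} (hf : BM f) (hg : BM g) :
    E.Φ (fun x => f x - g x) = E.Φ f - E.Φ g := by
  haveI := E.fin
  refine ext_inner_self fun ξ => ?_
  rw [ContinuousLinearMap.sub_apply, inner_sub_right, E.inner _ (hf.sub hg), E.inner _ hf,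
    E.inner _ hg, integral_sub (hf.integrable _) (hg.integrable _)]

theorem map_smul (c : ℂ) {f : X → ℂ} (hf : BM f) : E.Φ (fun x => c * f x) = c • E.Φ f := by
  refine ext_inner_self fun ξ => ?_
  rw [ContinuousLinearMap.smul_apply, inner_smul_right, E.inner _ ((BM.const c).mul hf),
    E.inner _ hf, integral_const_mul]

theorem map_const (c : ℂ) : E.Φ (fun _ => c) = c • (1 : H →L[ℂ] H) := by
  have := E.map_smul c (BM.const (X := X) 1)
  rw [E.one] at this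
  simpa using this

theorem map_zero : E.Φ (fun _ => 0) = 0 := by
  rw [E.map_const, zero_smul]

theorem map_star {f : X → ℂ} (hf : BM f) : E.Φ (fun x => conj (f x)) = star (E.Φ f) := by
  refine ext_inner_self fun ξ => ?_
  rw [inner_star_right, ← inner_conj_symm (E.Φ f ξ), E.inner _ hf, E.inner _ hf.star,
    integral_conj]

theorem map_sum {ι : Type*} (s : Finset ι) {f : ι → X → ℂ} (hf : ∀ i ∈ s, BM (f i)) :
    E.Φ (fun x => ∑ i ∈ s, f i x) = ∑ i ∈ s, E.Φ (f i) := by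
  classical
  induction s using Finset.induction_on with
  | empty => simpa using E.map_zero
  | insert a s ha ih =>
    simp only [Finset.sum_insert ha]
    rw [E.map_add (hf a (Finset.mem_insert_self _ _))
      (BM.sum s fun i hi => hf i (Finset.mem_insert_of_mem hi)),
      ih fun i hi => hf i (Finset.mem_insert_of_mem hi)]

theorem mul_apply {f g : X → ℂ} (hf : BM f) (hg : BM g) (ξ : H) :
    E.Φ f (E.Φ g ξ) = E.Φ (fun x => f x * g x) ξ := by
  rw [E.mul f g hf hg]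
  rfl

theorem commute {f g : X → ℂ} (hf : BM f) (hg : BM g) : E.Φ f * E.Φ g = E.Φ g * E.Φ f := by
  rw [← E.mul f g hf hg, ← E.mul g f hg hf]
  simp only [mul_comm]

theorem mass (ξ : H) : (E.μ ξ).real Set.univ = ‖ξ‖ ^ 2 := by
  have := E.inner _ (BM.const (X := X) 1) ξ
  rw [E.one, integral_const, ContinuousLinearMap.one_apply, inner_self_eq_norm_sq_to_K] at this
  have h2 : (((E.μ ξ).real Set.univ : ℝ) : ℂ) = ((‖ξ‖ ^ 2 : ℝ) : ℂ) := by
    simpa using this.symm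
  exact_mod_cast h2

theorem norm_sq {f : X → ℂ} (hf : BM f) (ξ : H) :
    ‖E.Φ f ξ‖ ^ 2 = ∫ x, ‖f x‖ ^ 2 ∂(E.μ ξ) := by
  rw [norm_sq_apply, ← E.map_star hf, ← E.mul _ _ hf.star hf, E.inner _ (hf.star.mul hf)]
  simp only [Complex.conj_mul', ← Complex.ofReal_pow]
  rw [integral_complex_ofReal, Complex.ofReal_re]

theorem apply_eq_zero_iff {f : X → ℂ} (hf : BM f) (ξ : H) :
    E.Φ f ξ = 0 ↔ ∀ᵐ x ∂(E.μ ξ), f x = 0 := by
  haveI := E.fin
  rw [← norm_eq_zero, ← sq_eq_zero_iff, E.norm_sq hf,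
    integral_eq_zero_iff_of_nonneg (fun x => sq_nonneg _) (hf.integrable_sq _)]
  refine eventually_congr (Eventually.of_forall fun x => ?_)
  simp

theorem congr_ae {f g : X → ℂ} (hf : BM f) (hg : BM g) {ξ : H} (h : ∀ᵐ x ∂(E.μ ξ), f x = g x) :
    E.Φ f ξ = E.Φ g ξ := by
  rw [← sub_eq_zero, ← ContinuousLinearMap.sub_apply, ← E.map_sub hf hg,
    E.apply_eq_zero_iff (hf.sub hg)]
  exact h.mono fun x hx => sub_eq_zero.2 hx

theorem calc_mono {f g : X → ℂ} (hf : BM f) (hg : BM g) {ξ : H}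
    (h : ∀ᵐ x ∂(E.μ ξ), ‖f x‖ ≤ ‖g x‖) : ‖E.Φ f ξ‖ ≤ ‖E.Φ g ξ‖ := by
  haveI := E.fin
  rw [← sq_le_sq₀ (norm_nonneg _) (norm_nonneg _), E.norm_sq hf, E.norm_sq hg]
  exact integral_mono_ae (hf.integrable_sq _) (hg.integrable_sq _)
    (h.mono fun x hx => pow_le_pow_left₀ (norm_nonneg _) hx 2)

theorem calc_const {K : ℝ} (hK : 0 ≤ K) (ξ : H) : ‖E.Φ (fun _ => (K : ℂ)) ξ‖ = K * ‖ξ‖ := by
  rw [E.map_const, ContinuousLinearMap.smul_apply, norm_smul, Complex.norm_real,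
    Real.norm_of_nonneg hK, ContinuousLinearMap.one_apply]

theorem norm_apply_le {f : X → ℂ} (hf : BM f) {ξ : H} {K : ℝ} (hK : 0 ≤ K)
    (h : ∀ᵐ x ∂(E.μ ξ), ‖f x‖ ≤ K) : ‖E.Φ f ξ‖ ≤ K * ‖ξ‖ := by
  rw [← E.calc_const hK]
  exact E.calc_mono hf (BM.const _)
    (h.mono fun x hx => by rwa [Complex.norm_real, Real.norm_of_nonneg hK])

theorem le_norm_apply {f : X → ℂ} (hf : BM f) {ξ : H} {K : ℝ}
    (h : ∀ᵐ x ∂(E.μ ξ), K ≤ ‖f x‖) : K * ‖ξ‖ ≤ ‖E.Φ f ξ‖ := by
  rcases le_total 0 K with hK | hK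
  · rw [← E.calc_const hK]
    exact E.calc_mono (BM.const _) hf
      (h.mono fun x hx => by rwa [Complex.norm_real, Real.norm_of_nonneg hK])
  · exact (mul_nonpos_of_nonpos_of_nonneg hK (norm_nonneg _)).trans (norm_nonneg _)

theorem norm_apply_mono {f g : X → ℂ} (hf : BM f) (hg : BM g) {ξ : H}
    (h : ∀ᵐ x ∂(E.μ ξ), ‖f x‖ ≤ ‖g x‖) : ‖E.Φ f ξ‖ ≤ ‖E.Φ g ξ‖ :=
  E.calc_mono hf hg h

theorem norm_le {f : X → ℂ} (hf : BM f) {K : ℝ} (hK : 0 ≤ K)
    (h : ∀ ξ, ∀ᵐ x ∂(E.μ ξ), ‖f x‖ ≤ K) : ‖E.Φ f‖ ≤ K :=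
  ContinuousLinearMap.opNorm_le_bound _ hK fun ξ => E.norm_apply_le hf hK (h ξ)

theorem nonneg {f : X → ℂ} (hf : BM f) (h : ∀ ξ, ∀ᵐ x ∂(E.μ ξ), 0 ≤ f x) : 0 ≤ E.Φ f := by
  refine nonneg_iff_inner.2 fun ξ => ?_
  rw [E.inner _ hf]
  have : ∫ x, f x ∂(E.μ ξ) = ∫ x, (((f x).re : ℝ) : ℂ) ∂(E.μ ξ) :=
    integral_congr_ae ((h ξ).mono fun x hx => Complex.eq_re_of_ofReal_le (r := 0) hx)
  rw [this, integral_complex_ofReal, Complex.zero_le_real]
  exact integral_nonneg_of_ae ((h ξ).mono fun x hx => (Complex.nonneg_iff.1 hx).1)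

theorem isSelfAdjoint {f : X → ℝ} (hf : BM fun x => (f x : ℂ)) :
    IsSelfAdjoint (E.Φ fun x => (f x : ℂ)) := by
  rw [IsSelfAdjoint, ← E.map_star hf]
  simp only [Complex.conj_ofReal]

theorem calc_Pr_sq {s : Set X} (hs : MeasurableSet s) (ξ : H) :
    ‖E.Pr s ξ‖ ^ 2 = (E.μ ξ).real s := by
  rw [Pr, E.norm_sq (BM.indicator_one hs), ← integral_indicator_one hs]
  refine integral_congr_ae (Eventually.of_forall fun x => ?_)
  by_cases hx : x ∈ s <;> simp [hx]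

theorem μ_apply {g : X → ℂ} (hg : BM g) (ξ : H) :
    E.μ (E.Φ g ξ) = (E.μ ξ).withDensity fun x => ENNReal.ofReal (‖g x‖ ^ 2) := by
  haveI := E.fin
  refine Measure.ext fun s hs => ?_
  rw [withDensity_apply _ hs, ← ofReal_integral_eq_lintegral_ofReal
    (hg.integrable_sq _).integrableOn (Eventually.of_forall fun x => sq_nonneg _),
    ← ofReal_measureReal, ← E.calc_Pr_sq hs, Pr, E.mul_apply (BM.indicator_one hs) hg,
    E.norm_sq ((BM.indicator_one hs).mul hg), ← integral_indicator hs]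
  refine congrArg ENNReal.ofReal (integral_congr_ae (Eventually.of_forall fun x => ?_))
  by_cases hx : x ∈ s <;> simp [hx]

theorem null_apply {g : X → ℂ} (hg : BM g) {ξ : H} {s : Set X} (h : E.μ ξ s = 0) :
    E.μ (E.Φ g ξ) s = 0 := by
  rw [E.μ_apply hg]
  exact withDensity_absolutelyContinuous _ _ h

theorem null_apply' {g : X → ℂ} (hg : BM g) (ξ : H) {s : Set X} (hs : MeasurableSet s)
    (h : ∀ x ∈ s, g x = 0) : E.μ (E.Φ g ξ) s = 0 := by
  rw [E.μ_apply hg, withDensity_apply _ hs]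
  exact setLIntegral_eq_zero hs fun x hx => by simp [h x hx]

theorem null_of_apply_eq_zero {g : X → ℂ} (hg : BM g) {ξ : H} (h0 : E.Φ g ξ = 0) {s : Set X}
    (h : ∀ x ∈ s, g x ≠ 0) : E.μ ξ s = 0 :=
  measure_mono_null h ((E.apply_eq_zero_iff hg ξ).1 h0)

theorem μ_zero : E.μ 0 = 0 := by
  haveI := E.fin
  have := E.mass 0
  rw [norm_zero, zero_pow two_ne_zero, measureReal_eq_zero_iff] at this
  exact Measure.measure_univ_eq_zero.1 this

theorem eq_zero_of_null {ξ : H} (h : E.μ ξ Set.univ = 0) : ξ = 0 := by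
  have := E.mass ξ
  rw [Measure.real, h, ENNReal.toReal_zero] at this
  exact norm_eq_zero.1 (sq_eq_zero_iff.1 this.symm)

theorem calc_Pr_mul {s t : Set X} (hs : MeasurableSet s) (ht : MeasurableSet t) :
    E.Pr s * E.Pr t = E.Pr (s ∩ t) := by
  rw [Pr, Pr, Pr, ← E.mul _ _ (BM.indicator_one hs) (BM.indicator_one ht)]
  refine congrArg E.Φ (funext fun x => ?_)
  by_cases h1 : x ∈ s <;> by_cases h2 : x ∈ t <;> simp [h1, h2]

theorem Pr_proj {s : Set X} (hs : MeasurableSet s) : IsStarProjection (E.Pr s) := by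
  refine ⟨?_, ?_⟩
  · rw [IsIdempotentElem, E.calc_Pr_mul hs hs, Set.inter_self]
  · rw [IsSelfAdjoint, Pr, ← E.map_star (BM.indicator_one hs)]
    refine congrArg E.Φ (funext fun x => ?_)
    by_cases h1 : x ∈ s <;> simp [h1]

theorem Pr_mul {s t : Set X} (hs : MeasurableSet s) (ht : MeasurableSet t) :
    E.Pr s * E.Pr t = E.Pr (s ∩ t) :=
  E.calc_Pr_mul hs ht

theorem Pr_univ : E.Pr Set.univ = 1 := by
  rw [Pr, Set.indicator_univ, E.one]

theorem Pr_empty : E.Pr ∅ = 0 := by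
  rw [Pr, Set.indicator_empty, E.map_zero]

theorem Pr_compl {s : Set X} (hs : MeasurableSet s) : E.Pr sᶜ = 1 - E.Pr s := by
  rw [Pr, Pr, ← E.one, ← E.map_sub (BM.const 1) (BM.indicator_one hs)]
  refine congrArg E.Φ (funext fun x => ?_)
  by_cases h1 : x ∈ s <;> simp [h1]

theorem norm_Pr_sq {s : Set X} (hs : MeasurableSet s) (ξ : H) :
    ‖E.Pr s ξ‖ ^ 2 = (E.μ ξ).real s :=
  E.calc_Pr_sq hs ξ

theorem Pr_eq_zero_iff {s : Set X} (hs : MeasurableSet s) (ξ : H) :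
    E.Pr s ξ = 0 ↔ E.μ ξ s = 0 := by
  haveI := E.fin
  rw [← norm_eq_zero, ← sq_eq_zero_iff, E.norm_Pr_sq hs, measureReal_eq_zero_iff]

theorem Pr_eq_self_iff {s : Set X} (hs : MeasurableSet s) (ξ : H) :
    E.Pr s ξ = ξ ↔ E.μ ξ sᶜ = 0 := by
  rw [← E.Pr_eq_zero_iff hs.compl, E.Pr_compl hs, ContinuousLinearMap.sub_apply,
    ContinuousLinearMap.one_apply, sub_eq_zero, eq_comm]

theorem null_add {s : Set X} (hs : MeasurableSet s) {ξ η : H} (h₁ : E.μ ξ s = 0)
    (h₂ : E.μ η s = 0) : E.μ (ξ + η) s = 0 := by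
  rw [← E.Pr_eq_zero_iff hs] at h₁ h₂ ⊢
  rw [_root_.map_add, h₁, h₂, add_zero]

theorem null_smul {s : Set X} (hs : MeasurableSet s) (c : ℂ) {ξ : H} (h : E.μ ξ s = 0) :
    E.μ (c • ξ) s = 0 := by
  rw [← E.Pr_eq_zero_iff hs] at h ⊢
  rw [_root_.map_smul, h, smul_zero]

theorem null_sum {s : Set X} (hs : MeasurableSet s) {ι : Type*} (t : Finset ι) {ξ : ι → H}
    (h : ∀ i ∈ t, E.μ (ξ i) s = 0) : E.μ (∑ i ∈ t, ξ i) s = 0 := by
  rw [← E.Pr_eq_zero_iff hs, _root_.map_sum]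
  exact Finset.sum_eq_zero fun i hi => (E.Pr_eq_zero_iff hs _).2 (h i hi)

theorem isClosed_null {s : Set X} (hs : MeasurableSet s) : IsClosed {ξ : H | E.μ ξ s = 0} := by
  simp only [← E.Pr_eq_zero_iff hs]
  exact isClosed_eq (E.Pr s).continuous continuous_const

/-- dominated convergence -/
theorem tendsto {ι : Type} {l : Filter ι} [l.IsCountablyGenerated] {f : ι → X → ℂ} {f₀ : X → ℂ}
    (K : ℝ) (hf : ∀ᶠ i in l, Measurable (f i) ∧ ∀ x, ‖f i x‖ ≤ K) (hf₀ : BM f₀) {ξ : H}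
    (h : ∀ᵐ x ∂(E.μ ξ), Tendsto (fun i => f i x) l (𝓝 (f₀ x))) :
    Tendsto (fun i => E.Φ (f i) ξ) l (𝓝 (E.Φ f₀ ξ)) := by
  haveI := E.fin
  obtain ⟨L, hL⟩ := hf₀.2
  have h1 : Tendsto (fun i => ∫ x, ‖f i x - f₀ x‖ ^ 2 ∂(E.μ ξ)) l (𝓝 (∫ x, 0 ∂(E.μ ξ))) := by
    refine tendsto_integral_filter_of_dominated_convergence (fun _ => (K + L) ^ 2)
      (hf.mono fun i hi => ((hi.1.sub hf₀.1).norm.pow_const 2).aestronglyMeasurable)
      (hf.mono fun i hi => Eventually.of_forall fun x => ?_) (integrable_const _)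
      (h.mono fun x hx => ?_)
    · rw [Real.norm_of_nonneg (sq_nonneg _)]
      exact pow_le_pow_left₀ (norm_nonneg _)
        ((norm_sub_le _ _).trans (add_le_add (hi.2 x) (hL x))) 2
    · simpa using (tendsto_iff_norm_sub_tendsto_zero.1 hx).pow 2
  rw [integral_zero] at h1
  rw [tendsto_iff_norm_sub_tendsto_zero]
  have h2 := h1.sqrt
  rw [Real.sqrt_zero] at h2
  refine h2.congr' (hf.mono fun i hi => ?_)
  have hb : BM (f i) := ⟨hi.1, K, hi.2⟩
  simp only
  rw [← E.norm_sq (hb.sub hf₀), Real.sqrt_sq (norm_nonneg _), E.map_sub hb hf₀]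
  rfl

theorem exists_map {Y : Type} [MeasurableSpace Y] {g : X → Y} (hg : Measurable g) :
    ∃ E' : SpecCalc Y H, (∀ f, E'.Φ f = E.Φ fun x => f (g x)) ∧
      ∀ ξ, E'.μ ξ = (E.μ ξ).map g := by
  haveI := E.fin
  refine ⟨⟨fun f => E.Φ fun x => f (g x), fun ξ => (E.μ ξ).map g, fun ξ => inferInstance, E.one,
    fun f₁ f₂ h₁ h₂ => E.mul _ _ (h₁.comp hg) (h₂.comp hg), fun f hf ξ => ?_⟩,
    fun _ => rfl, fun _ => rfl⟩
  rw [E.inner _ (hf.comp hg), integral_map hg.aemeasurable hf.1.aestronglyMeasurable]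

theorem exists_conj {J : H ≃ₗᵢ⋆[ℂ] H} (hJ : ∀ ξ, J (J ξ) = ξ) :
    ∃ E' : SpecCalc X H, (∀ f, E'.Φ f = rm J (E.Φ f)) ∧ ∀ ξ, E'.μ ξ = E.μ (J ξ) := by
  refine ⟨⟨fun f => rm J (E.Φ f), fun ξ => E.μ (J ξ), fun ξ => E.fin _, ?_,
    fun f₁ f₂ h₁ h₂ => ?_, fun f hf ξ => ?_⟩, fun _ => rfl, fun _ => rfl⟩
  · rw [E.one, rm_one hJ]
  · rw [E.mul _ _ h₁ h₂, E.commute h₁ h₂, rm_mul hJ]
  · rw [inner_rm hJ, E.inner _ hf]

end SpecCalc

namespace SpecCalc

variable (E : SpecCalc ℝ H)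

theorem U_zero : E.U 0 = 1 := by
  rw [U, ← E.one]
  simp

theorem U_add (s t : ℝ) : E.U (s + t) = E.U s * E.U t := by
  rw [U, U, U, ← E.mul _ _ (bm_exp s) (bm_exp t)]
  refine congrArg E.Φ (funext fun l => ?_)
  rw [← Complex.exp_add]
  push_cast
  ring_nf

theorem star_U (t : ℝ) : star (E.U t) = E.U (-t) := by
  rw [U, U, ← E.map_star (bm_exp t)]
  refine congrArg E.Φ (funext fun l => ?_)
  rw [← Complex.exp_conj]
  simp

theorem U_mul_neg (t : ℝ) : E.U t * E.U (-t) = 1 := by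
  rw [← E.U_add, add_neg_cancel, E.U_zero]

theorem U_neg_mul (t : ℝ) : E.U (-t) * E.U t = 1 := by
  rw [← E.U_add, neg_add_cancel, E.U_zero]

theorem norm_U_apply (t : ℝ) (ξ : H) : ‖E.U t ξ‖ = ‖ξ‖ :=
  iso_norm_apply (by rw [E.star_U, E.U_neg_mul]) ξ

theorem norm_U_le (t : ℝ) : ‖E.U t‖ ≤ 1 :=
  iso_norm_le (by rw [E.star_U, E.U_neg_mul])

theorem inner_U (t : ℝ) (ξ η : H) : ⟪E.U t ξ, E.U t η⟫_ℂ = ⟪ξ, η⟫_ℂ := by
  rw [← inner_star_right, E.star_U, ← ContinuousLinearMap.mul_apply, E.U_neg_mul]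
  rfl

theorem continuous_U (ξ : H) : Continuous fun t => E.U t ξ := by
  refine continuous_iff_continuousAt.2 fun t => ?_
  refine E.tendsto (l := 𝓝 t) (f := fun (s : ℝ) (l : ℝ) => Complex.exp (Complex.I * s * l)) 1
    (Eventually.of_forall fun s => ⟨(bm_exp s).1, fun l => (calc_norm_exp s l).le⟩) (bm_exp t)
    (Eventually.of_forall fun l => ?_)
  have : Continuous fun s : ℝ => Complex.exp (Complex.I * s * l) := by fun_prop
  exact this.tendsto t

theorem U_commute (t : ℝ) {f : ℝ → ℂ} (hf : BM f) : E.U t * E.Φ f = E.Φ f * E.U t :=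
  E.commute (bm_exp t) hf

theorem μ_U (t : ℝ) (ξ : H) : E.μ (E.U t ξ) = E.μ ξ := by
  rw [U, E.μ_apply (bm_exp t)]
  simp only [calc_norm_exp, one_pow, ENNReal.ofReal_one]
  exact withDensity_one

theorem calc_ae {ξ : H} {a b : ℝ} (h : SpecIn E ξ a b) : ∀ᵐ l ∂(E.μ ξ), a ≤ l ∧ l ≤ b := h

theorem U_fix_of_null {ξ : H} (h : SpecIn E ξ 0 0) (t : ℝ) : E.U t ξ = ξ := by
  have := E.congr_ae (bm_exp t) (BM.const 1) (ξ := ξ) ((E.calc_ae h).mono fun l hl => by
    rw [le_antisymm hl.2 hl.1]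
    simp)
  rw [U, this, E.one]
  rfl

theorem null_of_U_fix {ξ : H} (h : ∀ t, E.U t ξ = ξ) : SpecIn E ξ 0 0 := by
  have h1 : ∀ t : ℝ, ∀ᵐ l : ℝ ∂(E.μ ξ), Complex.exp (Complex.I * t * l) - 1 = 0 := fun t => by
    rw [← E.apply_eq_zero_iff ((bm_exp t).sub (BM.const 1)), E.map_sub (bm_exp t) (BM.const 1),
      E.one, ContinuousLinearMap.sub_apply, sub_eq_zero]
    exact h t
  have h2 : ∀ᵐ l : ℝ ∂(E.μ ξ), (0 : ℝ) ≤ l ∧ l ≤ 0 := by
    filter_upwards [h1 1, h1 (√2)] with l a b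
    obtain ⟨n, hn⟩ := Complex.exp_eq_one_iff.1 (sub_eq_zero.1 a)
    obtain ⟨m, hm⟩ := Complex.exp_eq_one_iff.1 (sub_eq_zero.1 b)
    have hn' : l = n * (2 * Real.pi) := by simpa using congrArg Complex.im hn
    have hm' : √2 * l = m * (2 * Real.pi) := by simpa using congrArg Complex.im hm
    have h3 : √2 * n = m := by
      rw [hn', ← mul_assoc] at hm'
      exact mul_right_cancel₀ (by positivity) hm'
    have h4 : n = 0 := by
      by_contra h0
      exact (irrational_sqrt_two.mul_intCast h0).ne_int m h3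
    rw [hn', h4]
    simp
  exact h2

/-- approximate eigenvector estimate -/
theorem norm_U_sub_le {ξ : H} {s γ : ℝ} (h : SpecIn E ξ (s - γ) (s + γ)) (t u : ℝ) :
    ‖E.U t ξ - Complex.exp (Complex.I * u * s) • ξ‖ ≤ (|t - u| * |s| + |t| * |γ|) * ‖ξ‖ := by
  have hb := (bm_exp t).sub (BM.const (X := ℝ) (Complex.exp (Complex.I * u * s)))
  have e : E.U t ξ - Complex.exp (Complex.I * u * s) • ξ =
      E.Φ (fun l : ℝ => Complex.exp (Complex.I * t * l) - Complex.exp (Complex.I * u * s)) ξ := by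
    rw [E.map_sub (bm_exp t) (BM.const _), E.map_const]
    rfl
  rw [e]
  refine E.norm_apply_le hb (by positivity) ((E.calc_ae h).mono fun l hl => ?_)
  have e2 : Complex.exp (Complex.I * t * l) - Complex.exp (Complex.I * u * s) =
      Complex.exp (Complex.I * u * s) *
        (Complex.exp (Complex.I * ((t * l - u * s : ℝ) : ℂ)) - 1) := by
    rw [mul_sub, ← Complex.exp_add, mul_one]
    push_cast
    ring_nf
  rw [e2, norm_mul, calc_norm_exp, one_mul]
  refine Real.norm_exp_I_mul_ofReal_sub_one_le.trans ?_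
  have e3 : t * l - u * s = (t - u) * s + t * (l - s) := by ring
  rw [Real.norm_eq_abs, e3]
  refine (abs_add_le _ _).trans ?_
  rw [abs_mul, abs_mul]
  have : |l - s| ≤ |γ| := (abs_le.2 ⟨by linarith [hl.1], by linarith [hl.2]⟩).trans (le_abs_self γ)
  exact add_le_add le_rfl (mul_le_mul_of_nonneg_left this (abs_nonneg _))

theorem tendsto_Pr_Icc (ξ : H) :
    Tendsto (fun n : ℕ => E.Pr (Set.Icc (-(n : ℝ)) n) ξ) atTop (𝓝 ξ) := by
  have := E.tendsto (l := atTop) (f := fun n : ℕ => (Set.Icc (-(n : ℝ)) n).indicator fun _ => (1 : ℂ))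
    1 (Eventually.of_forall fun n => ⟨(BM.indicator_one measurableSet_Icc).1, fun l =>
      (norm_indicator_le_norm_self _ _).trans (by simp)⟩) (BM.const 1) (ξ := ξ)
    (Eventually.of_forall fun l => by
      refine tendsto_const_nhds.congr' ?_
      filter_upwards [tendsto_natCast_atTop_atTop.eventually_ge_atTop |l|] with n hn
      rw [Set.indicator_of_mem (Set.mem_Icc.2 (abs_le.1 hn))])
  rw [E.one] at this
  exact this

theorem sig_zero (x : H →L[ℂ] H) : E.sig 0 x = x := by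
  rw [sig, neg_zero, E.U_zero, one_mul, mul_one]

theorem sig_sig (s t : ℝ) (x : H →L[ℂ] H) : E.sig s (E.sig t x) = E.sig (s + t) x := by
  rw [sig, sig, sig, neg_add_rev, E.U_add, E.U_add]
  simp only [mul_assoc]

theorem sig_mul (t : ℝ) (x y : H →L[ℂ] H) : E.sig t (x * y) = E.sig t x * E.sig t y := by
  have h : ∀ z, E.U (-t) * (E.U t * z) = z := fun z => by rw [← mul_assoc, E.U_neg_mul, one_mul]
  simp only [sig, mul_assoc, h]

theorem sig_star (t : ℝ) (x : H →L[ℂ] H) : E.sig t (star x) = star (E.sig t x) := by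
  simp only [sig, star_mul, E.star_U, neg_neg, mul_assoc]

theorem sig_one (t : ℝ) : E.sig t 1 = 1 := by
  rw [sig, mul_one, E.U_mul_neg]

theorem sig_add (t : ℝ) (x y : H →L[ℂ] H) : E.sig t (x + y) = E.sig t x + E.sig t y := by
  simp only [sig, mul_add, add_mul]

theorem sig_sub (t : ℝ) (x y : H →L[ℂ] H) : E.sig t (x - y) = E.sig t x - E.sig t y := by
  simp only [sig, mul_sub, sub_mul]

theorem sig_smul (t : ℝ) (c : ℂ) (x : H →L[ℂ] H) : E.sig t (c • x) = c • E.sig t x := by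
  simp only [sig, mul_smul_comm, smul_mul_assoc]

theorem calc_norm_sig_le (t : ℝ) (x : H →L[ℂ] H) : ‖E.sig t x‖ ≤ ‖x‖ := by
  refine ContinuousLinearMap.opNorm_le_bound _ (norm_nonneg _) fun ξ => ?_
  rw [sig, ContinuousLinearMap.mul_apply, ContinuousLinearMap.mul_apply, E.norm_U_apply,
    ← E.norm_U_apply (-t) ξ]
  exact x.le_opNorm _

theorem norm_sig (t : ℝ) (x : H →L[ℂ] H) : ‖E.sig t x‖ = ‖x‖ := by
  refine le_antisymm (E.calc_norm_sig_le t x) ?_
  have := E.calc_norm_sig_le (-t) (E.sig t x)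
  rwa [E.sig_sig, neg_add_cancel, E.sig_zero] at this

theorem scb_sig (x : H →L[ℂ] H) : SCB (fun t => E.sig t x) ‖x‖ := by
  refine ⟨fun ξ => ?_, fun t => (E.norm_sig t x).le⟩
  have h1 : Continuous fun p : H × ℝ => E.U p.2 p.1 := by
    refine continuous_prod_of_continuous_lipschitzWith _ 1 (fun η => E.continuous_U η) fun t => ?_
    refine LipschitzWith.of_dist_le_mul fun a b => ?_
    rw [dist_eq_norm, dist_eq_norm, ← _root_.map_sub, E.norm_U_apply, NNReal.coe_one, one_mul]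
  have h2 : Continuous fun t : ℝ => x (E.U (-t) ξ) :=
    x.continuous.comp ((E.continuous_U ξ).comp continuous_neg)
  exact h1.comp (h2.prodMk continuous_id)

end SpecCalc

theorem SpecIn.mono {E : SpecCalc ℝ H} {ξ : H} {a b a' b' : ℝ} (h : SpecIn E ξ a b) (ha : a' ≤ a)
    (hb : b ≤ b') : SpecIn E ξ a' b' :=
  measure_mono_null (Set.compl_subset_compl.2 (Set.Icc_subset_Icc ha hb)) h

theorem SpecIn.inter {E : SpecCalc ℝ H} {ξ : H} {a b a' b' : ℝ} (h : SpecIn E ξ a b)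
    (h' : SpecIn E ξ a' b') : SpecIn E ξ (max a a') (min b b') := by
  rw [SpecIn, ← Set.Icc_inter_Icc, Set.compl_inter]
  exact measure_union_null h h'

theorem SpecIn.ae {E : SpecCalc ℝ H} {ξ : H} {a b : ℝ} (h : SpecIn E ξ a b) :
    ∀ᵐ l ∂(E.μ ξ), a ≤ l ∧ l ≤ b :=
  h

end Pool.Agent.P.MP_5d580a_an
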