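import Pool.Agent.P.MP_5d580a_an.Lin

open scoped ComplexOrder InnerProductSpace ComplexConjugate BoundedContinuousFunction
open MeasureTheory Filter Topology

set_option linter.unusedSectionVars false
set_option linter.unusedVariables false

noncomputable section

namespace Pool.Agent.P.MP_5d580a_an

variable {H : Type} [NormedAddCommGroup H] [InnerProductSpace ℂ H] [CompleteSpace H]

namespace CalcExAux

open scoped CompactlySupported

variable {X : Type} [MetricSpace X] [CompactSpace X] [MeasurableSpace X] [BorelSpace X]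

/-- complexification of a real continuous function -/
def cx (u : C(X, ℝ)) : C(X, ℂ) := ⟨fun x => (u x : ℂ), by fun_prop⟩

theorem cx_apply (u : C(X, ℝ)) (x : X) : cx u x = (u x : ℂ) := rfl

theorem im_cx (π : C(X, ℂ) →⋆ₐ[ℂ] (H →L[ℂ] H)) (u : C(X, ℝ)) (ξ : H) :
    (((⟪ξ, π (cx u) ξ⟫_ℂ).re : ℝ) : ℂ) = ⟪ξ, π (cx u) ξ⟫_ℂ := by
  have h : star (cx u) = cx u := by
    ext x
    simp [cx_apply]
  have h1 : ContinuousLinearMap.adjoint (π (cx u)) = π (cx u) := by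
    rw [← ContinuousLinearMap.star_eq_adjoint, ← map_star, h]
  rw [← Complex.conj_eq_iff_re, inner_conj_symm, ← ContinuousLinearMap.adjoint_inner_right, h1]

theorem exists_meas (π : C(X, ℂ) →⋆ₐ[ℂ] (H →L[ℂ] H)) (ξ : H) :
    ∃ μ : Measure X, IsFiniteMeasure μ ∧ ∀ f : C(X, ℂ), ∫ x, f x ∂μ = ⟪ξ, π f ξ⟫_ℂ := by
  let L : C_c(X, ℝ) →ₗ[ℝ] ℝ :=
    { toFun := fun u => (⟪ξ, π (cx u.toContinuousMap) ξ⟫_ℂ).re
      map_add' := fun u v => by
        have e : cx (u + v).toContinuousMap = cx u.toContinuousMap + cx v.toContinuousMap := by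
          ext x
          simp [cx_apply]
        rw [e, map_add, add_apply, inner_add_right, Complex.add_re]
      map_smul' := fun c u => by
        have e : cx (c • u).toContinuousMap = (c : ℂ) • cx u.toContinuousMap := by
          ext x
          simp [cx_apply]
        rw [e, map_smul, smul_apply, inner_smul_right]
        simp }
  have hL : ∀ u, 0 ≤ u → 0 ≤ L u := fun u hu => by
    let v : C(X, ℝ) := ⟨fun x => √(u x), by fun_prop⟩
    have e : cx u.toContinuousMap = star (cx v) * cx v := by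
      ext x
      have h0 : 0 ≤ u x := hu x
      simp only [cx_apply, ContinuousMap.mul_apply, ContinuousMap.star_apply, Complex.star_def,
        Complex.conj_ofReal, ← Complex.ofReal_mul]
      exact congrArg _ (Real.mul_self_sqrt h0).symm
    change 0 ≤ (⟪ξ, π (cx u.toContinuousMap) ξ⟫_ℂ).re
    rw [e, map_mul, map_star, ContinuousLinearMap.star_eq_adjoint]
    change 0 ≤ (⟪ξ, ContinuousLinearMap.adjoint (π (cx v)) (π (cx v) ξ)⟫_ℂ).re
    rw [ContinuousLinearMap.adjoint_inner_right]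
    exact inner_self_nonneg (𝕜 := ℂ)
  refine ⟨RealRMK.rieszMeasure (PositiveLinearMap.mk₀ L hL), inferInstance, fun f => ?_⟩
  have key : ∀ u : C(X, ℝ), ∫ x, cx u x ∂(RealRMK.rieszMeasure (PositiveLinearMap.mk₀ L hL)) =
      ⟪ξ, π (cx u) ξ⟫_ℂ := fun u => by
    have e := RealRMK.integral_rieszMeasure (PositiveLinearMap.mk₀ L hL)
      ⟨u, HasCompactSupport.of_compactSpace u⟩
    rw [← im_cx]
    simp only [cx_apply]
    rw [integral_complex_ofReal]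
    exact congrArg _ e
  let u : C(X, ℝ) := ⟨fun x => (f x).re, by fun_prop⟩
  let v : C(X, ℝ) := ⟨fun x => (f x).im, by fun_prop⟩
  have e : f = cx u + Complex.I • cx v := by
    ext x
    simp only [cx_apply, ContinuousMap.add_apply, ContinuousMap.smul_apply, smul_eq_mul]
    rw [mul_comm]
    exact (Complex.re_add_im _).symm
  have hi : ∀ g : C(X, ℂ), Integrable g (RealRMK.rieszMeasure (PositiveLinearMap.mk₀ L hL)) :=
    fun g => (bm_bcf (BoundedContinuousFunction.mkOfCompact g)).integrable _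
  rw [e, map_add, map_smul, add_apply, smul_apply,
    inner_add_right, inner_smul_right, ← key, ← key, ← integral_const_mul,
    ← integral_add (hi _) ((hi _).const_mul _)]
  rfl

/-- the polarised form -/
def Bf (μ : H → Measure X) (f : X → ℂ) (η ξ : H) : ℂ :=
  ∑ k : Fin 4, (Complex.I ^ (k : ℕ) / 4) * ∫ x, f x ∂(μ (ξ + Complex.I ^ (k : ℕ) • η))

theorem ext3 (μ : H → Measure X) (hμ : ∀ ξ, IsFiniteMeasure (μ ξ)) (g : Fin 3 → X → ℂ)
    (hg : ∀ i, BM (g i)) (c : Fin 3 → ℂ) (η ξ : Fin 3 → H)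
    (h : ∀ f : C(X, ℂ), ∑ i, c i * Bf μ (fun x => f x * g i x) (η i) (ξ i) = 0) :
    ∀ f, BM f → ∑ i, c i * Bf μ (fun x => f x * g i x) (η i) (ξ i) = 0 := by
  have key : ∀ f : X → ℂ, ∑ i, c i * Bf μ (fun x => f x * g i x) (η i) (ξ i) =
      ∑ p : Fin 3 × Fin 4, ∫ x, f x * (c p.1 * (Complex.I ^ (p.2 : ℕ) / 4) * g p.1 x)
        ∂(μ (ξ p.1 + Complex.I ^ (p.2 : ℕ) • η p.1)) := fun f => by
    rw [Fintype.sum_prod_type]
    refine Finset.sum_congr rfl fun i _ => ?_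
    rw [Bf, Finset.mul_sum]
    refine Finset.sum_congr rfl fun k _ => ?_
    rw [← mul_assoc, ← integral_const_mul]
    exact integral_congr_ae (Eventually.of_forall fun x => mul_left_comm _ _ _)
  intro f hf
  rw [key]
  refine lin_ext (fun p : Fin 3 × Fin 4 => μ (ξ p.1 + Complex.I ^ (p.2 : ℕ) • η p.1)) _
    (fun p => (BM.const _).mul (hg p.1)) (fun f => ?_) f hf
  rw [← key]
  exact h f.toContinuousMap

variable {π : C(X, ℂ) →⋆ₐ[ℂ] (H →L[ℂ] H)} {μ : H → Measure X}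

theorem Bf_cont (hπ : ∀ ξ, ∀ f : C(X, ℂ), ∫ x, f x ∂μ ξ = ⟪ξ, π f ξ⟫_ℂ) (f : C(X, ℂ)) (η ξ : H) :
    Bf μ f η ξ = ⟪η, π f ξ⟫_ℂ := by
  rw [inner_polar, Bf]
  simp only [hπ]

theorem Bf_lin (hμ : ∀ ξ, IsFiniteMeasure (μ ξ))
    (hπ : ∀ ξ, ∀ f : C(X, ℂ), ∫ x, f x ∂μ ξ = ⟪ξ, π f ξ⟫_ℂ) (a b : ℂ) (η₀ η₁ η₂ ξ₀ ξ₁ ξ₂ : H)
    (h : ∀ T : H →L[ℂ] H, ⟪η₀, T ξ₀⟫_ℂ = a * ⟪η₁, T ξ₁⟫_ℂ + b * ⟪η₂, T ξ₂⟫_ℂ) {f : X → ℂ}
    (hf : BM f) : Bf μ f η₀ ξ₀ = a * Bf μ f η₁ ξ₁ + b * Bf μ f η₂ ξ₂ := by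
  have e := ext3 μ hμ (fun _ _ => 1) (fun _ => BM.const 1) ![-1, a, b] ![η₀, η₁, η₂]
    ![ξ₀, ξ₁, ξ₂] (fun f => by
      simp only [mul_one, Fin.sum_univ_three, Bf_cont hπ]
      simp [h]) f hf
  simp only [mul_one, Fin.sum_univ_three] at e
  simp only [Matrix.cons_val_zero, Matrix.cons_val_one, Matrix.cons_val] at e
  linear_combination -e

theorem Bf_diag (hμ : ∀ ξ, IsFiniteMeasure (μ ξ))
    (hπ : ∀ ξ, ∀ f : C(X, ℂ), ∫ x, f x ∂μ ξ = ⟪ξ, π f ξ⟫_ℂ) (ξ : H) {f : X → ℂ} (hf : BM f) :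
    Bf μ f ξ ξ = ∫ x, f x ∂μ ξ := by
  have key : ∀ f : X → ℂ, Bf μ f ξ ξ - ∫ x, f x ∂μ ξ =
      ∑ p : Option (Fin 4), ∫ x, f x * (p.elim (-1) fun k => Complex.I ^ (k : ℕ) / 4)
        ∂(μ (p.elim ξ fun k => ξ + Complex.I ^ (k : ℕ) • ξ)) := fun f => by
    rw [Fintype.sum_option, Bf]
    simp only [Option.elim, integral_mul_const]
    rw [add_comm, mul_neg_one, sub_eq_add_neg]
    congr 1
    exact Finset.sum_congr rfl fun k _ => mul_comm _ _
  rw [← sub_eq_zero, key]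
  refine lin_ext (fun p : Option (Fin 4) => μ (p.elim ξ fun k => ξ + Complex.I ^ (k : ℕ) • ξ)) _
    (fun p => BM.const _) (fun f => ?_) f hf
  rw [← key, sub_eq_zero]
  exact (Bf_cont hπ f.toContinuousMap ξ ξ).trans (hπ ξ f.toContinuousMap).symm

theorem Bf_le (hμ : ∀ ξ, IsFiniteMeasure (μ ξ))
    (hπ : ∀ ξ, ∀ f : C(X, ℂ), ∫ x, f x ∂μ ξ = ⟪ξ, π f ξ⟫_ℂ) {f : X → ℂ} {K : ℝ} (hK0 : 0 ≤ K)
    (hK : ∀ x, ‖f x‖ ≤ K) {η ξ : H} (h1 : ‖η‖ ≤ 1) (h2 : ‖ξ‖ ≤ 1) : ‖Bf μ f η ξ‖ ≤ 4 * K := by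
  have hm : ∀ v, (μ v).real Set.univ = ‖v‖ ^ 2 := fun v => by
    have e := hπ v 1
    simp only [ContinuousMap.one_apply, integral_const, map_one, ContinuousLinearMap.one_apply,
      inner_self_eq_norm_sq_to_K, Complex.real_smul, mul_one] at e
    exact Complex.ofReal_injective (e.trans (Complex.ofReal_pow _ _).symm)
  refine (norm_sum_le _ _).trans ?_
  have h : ∀ k : Fin 4, ‖(Complex.I ^ (k : ℕ) / 4) *
      ∫ x, f x ∂(μ (ξ + Complex.I ^ (k : ℕ) • η))‖ ≤ K := fun k => by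
    have := hμ (ξ + Complex.I ^ (k : ℕ) • η)
    have e1 := norm_integral_le_of_norm_le_const (μ := μ (ξ + Complex.I ^ (k : ℕ) • η))
      (Eventually.of_forall hK)
    have e2 : ‖ξ + Complex.I ^ (k : ℕ) • η‖ ≤ 2 := by
      refine (norm_add_le _ _).trans ?_
      rw [norm_smul, norm_pow, Complex.norm_I, one_pow, one_mul]
      linarith
    have e3 : ‖ξ + Complex.I ^ (k : ℕ) • η‖ ^ 2 ≤ 2 ^ 2 := pow_le_pow_left₀ (norm_nonneg _) e2 2
    rw [hm] at e1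
    have e4 : ‖Complex.I ^ (k : ℕ) / 4‖ = 1 / 4 := by simp
    rw [norm_mul, e4]
    nlinarith
  refine (Finset.sum_le_sum fun k _ => h k).trans ?_
  simp

theorem exists_op (hμ : ∀ ξ, IsFiniteMeasure (μ ξ))
    (hπ : ∀ ξ, ∀ f : C(X, ℂ), ∫ x, f x ∂μ ξ = ⟪ξ, π f ξ⟫_ℂ) {f : X → ℂ} (hf : BM f) :
    ∃ T : H →L[ℂ] H, ∀ η ξ, ⟪η, T ξ⟫_ℂ = Bf μ f η ξ := by
  obtain ⟨K, hK⟩ := hf.2
  have hK' : ∀ x, ‖f x‖ ≤ max K 0 := fun x => (hK x).trans (le_max_left _ _)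
  have hs : ∀ (a b : ℂ) (η ξ : H), Bf μ f (a • η) (b • ξ) = conj a * b * Bf μ f η ξ :=
    fun a b η ξ => by
      rw [Bf_lin hμ hπ (conj a * b) 0 _ η η _ ξ ξ (fun T => by
        rw [map_smul, inner_smul_left, inner_smul_right]; ring) hf]
      ring
  let B : H →ₗ⋆[ℂ] H →ₗ[ℂ] ℂ := LinearMap.mk₂'ₛₗ (starRingEnd ℂ) (RingHom.id ℂ) (Bf μ f)
    (fun η η' ξ => by
      rw [Bf_lin hμ hπ 1 1 _ η η' _ ξ ξ (fun T => by rw [inner_add_left]; ring) hf]; ring)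
    (fun c η ξ => by simpa using hs c 1 η ξ)
    (fun η ξ ξ' => by
      rw [Bf_lin hμ hπ 1 1 _ η η _ ξ ξ' (fun T => by rw [map_add, inner_add_right]; ring) hf]
      ring)
    (fun c η ξ => by simpa using hs 1 c η ξ)
  have hu : ∀ v : H, ∃ w : H, ‖w‖ ≤ 1 ∧ v = ((‖v‖ : ℝ) : ℂ) • w := fun v => by
    by_cases h : v = 0
    · exact ⟨0, by simp, by simp [h]⟩
    · have h' : ((‖v‖ : ℝ) : ℂ) ≠ 0 := by simpa using h
      refine ⟨((‖v‖ : ℝ) : ℂ)⁻¹ • v, ?_, by rw [smul_smul, mul_inv_cancel₀ h', one_smul]⟩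
      rw [norm_smul, norm_inv, Complex.norm_real, norm_norm, inv_mul_cancel₀ (by simpa using h)]
  have hB : ∀ η ξ, ‖B η ξ‖ ≤ 4 * max K 0 * ‖η‖ * ‖ξ‖ := fun η ξ => by
    obtain ⟨η', h1, e1⟩ := hu η
    obtain ⟨ξ', h2, e2⟩ := hu ξ
    have e3 := hs ((‖η‖ : ℝ) : ℂ) ((‖ξ‖ : ℝ) : ℂ) η' ξ'
    rw [← e1, ← e2] at e3
    change ‖Bf μ f η ξ‖ ≤ _
    rw [e3, norm_mul, norm_mul, Complex.norm_conj, Complex.norm_real, Complex.norm_real,
      norm_norm, norm_norm]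
    have e4 := mul_le_mul_of_nonneg_left (Bf_le hμ hπ (le_max_right K 0) hK' h1 h2)
      (mul_nonneg (norm_nonneg η) (norm_nonneg ξ))
    linarith
  refine ⟨ContinuousLinearMap.adjoint
    (InnerProductSpace.continuousLinearMapOfBilin (B.mkContinuous₂ _ hB)), fun η ξ => ?_⟩
  rw [ContinuousLinearMap.adjoint_inner_right, InnerProductSpace.continuousLinearMapOfBilin_apply]
  rfl

theorem exists_calc (π : C(X, ℂ) →⋆ₐ[ℂ] (H →L[ℂ] H)) :
    ∃ E : SpecCalc X H, ∀ f : C(X, ℂ), E.Φ f = π f := by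
  classical
  choose μ hμ hπ using exists_meas π
  have h : ∀ f : X → ℂ, ∃ T : H →L[ℂ] H, BM f → ∀ η ξ, ⟪η, T ξ⟫_ℂ = Bf μ f η ξ := fun f => by
    by_cases hf : BM f
    · obtain ⟨T, hT⟩ := exists_op hμ hπ hf
      exact ⟨T, fun _ => hT⟩
    · exact ⟨0, fun h => absurd h hf⟩
  choose Φ hΦ using h
  have hc : ∀ f : C(X, ℂ), BM f := fun f => bm_bcf (BoundedContinuousFunction.mkOfCompact f)
  have hext : ∀ S T : H →L[ℂ] H, (∀ η ξ, ⟪η, S ξ⟫_ℂ = ⟪η, T ξ⟫_ℂ) → S = T := fun S T h =>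
    ContinuousLinearMap.ext fun ξ => ext_inner_left ℂ fun η => h η ξ
  have h0 : ∀ f : C(X, ℂ), Φ f = π f := fun f => hext _ _ fun η ξ => by
    rw [hΦ f (hc f), Bf_cont hπ]
  have two : ∀ (g : X → ℂ) (η η' ξ ξ' : H), BM g →
      (∀ f : C(X, ℂ), Bf μ (fun x => f x * g x) η ξ = Bf μ f η' ξ') →
      ∀ f, BM f → Bf μ (fun x => f x * g x) η ξ = Bf μ f η' ξ' := fun g η η' ξ ξ' hg h f hf => by
    have e := ext3 μ hμ ![g, fun _ => 1, fun _ => 1] (fun i => by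
      fin_cases i
      exacts [hg, BM.const 1, BM.const 1]) ![1, -1, 0] ![η, η', η'] ![ξ, ξ', ξ'] (fun f => by
        simp [Fin.sum_univ_three, h f]) f hf
    simpa [Fin.sum_univ_three, sub_eq_zero, ← sub_eq_add_neg] using e
  have h1 : ∀ f, BM f → ∀ g : C(X, ℂ), Φ (fun x => f x * g x) = Φ f * π g := fun f hf g =>
    hext _ _ fun η ξ => by
      rw [hΦ _ (hf.mul (hc g)), two g η η ξ (π g ξ) (hc g) (fun f => ?_) f hf, ← hΦ f hf]
      · rfl
      · rw [Bf_cont hπ]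
        exact (Bf_cont hπ (f * g) η ξ).trans (by rw [map_mul]; rfl)
  refine ⟨⟨Φ, μ, hμ, (h0 1).trans (map_one π), fun f g hf hg => hext _ _ fun η ξ => ?_,
    fun f hf ξ => by rw [hΦ f hf, Bf_diag hμ hπ ξ hf]⟩, h0⟩
  have e : ∀ g : X → ℂ, (fun x => f x * g x) = fun x => g x * f x := fun g =>
    funext fun x => mul_comm _ _
  rw [hΦ _ (hf.mul hg), e, two f η (ContinuousLinearMap.adjoint (Φ f) η) ξ ξ hf (fun g => ?_) g hg,
    ← hΦ g hg, ContinuousLinearMap.adjoint_inner_left]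
  · rfl
  · rw [← e, ← hΦ _ (hf.mul (hc g)), h1 f hf g, Bf_cont hπ, ContinuousLinearMap.adjoint_inner_left]
    rfl

end CalcExAux

theorem exists_calc_normal (T : H →L[ℂ] H) [IsStarNormal T] :
    ∃ E : SpecCalc ℂ H, (∀ ξ, E.μ ξ (spectrum ℂ T)ᶜ = 0) ∧
      ∀ f : ℂ → ℂ, BM f → ContinuousOn f (spectrum ℂ T) → E.Φ f = cfc f T := by
  have hT : IsStarNormal T := inferInstance
  obtain ⟨E, hE⟩ := CalcExAux.exists_calc (cfcHom (R := ℂ) hT)
  obtain ⟨E', h1, h2⟩ := E.exists_map (g := Subtype.val) measurable_subtype_coe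
  refine ⟨E', fun ξ => ?_, fun f hf hc => ?_⟩
  · rw [h2, Measure.map_apply measurable_subtype_coe (spectrum.isClosed T).measurableSet.compl]
    simp
  · rw [h1, cfc_apply f T hT hc, ← hE]
    rfl

theorem exists_calc_joint {a b : H →L[ℂ] H} (ha : IsSelfAdjoint a) (hb : IsSelfAdjoint b)
    (hab : a * b = b * a) :
    ∃ E : SpecCalc (ℝ × ℝ) H,
      (∀ ξ, E.μ ξ (Set.Icc (-‖a‖) ‖a‖ ×ˢ Set.Icc (-‖b‖) ‖b‖)ᶜ = 0) ∧
      (∀ f : ℝ → ℂ, BM f → (∀ t ∈ Set.Icc (-‖a‖) ‖a‖, f t = t) → E.Φ (fun p => f p.1) = a) ∧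
      (∀ f : ℝ → ℂ, BM f → (∀ t ∈ Set.Icc (-‖b‖) ‖b‖, f t = t) → E.Φ (fun p => f p.2) = b) := by
  set T : H →L[ℂ] H := a + Complex.I • b with hT
  have hs : star T = a - Complex.I • b := by
    rw [hT, star_add, star_smul, ha.star_eq, hb.star_eq, Complex.star_def, Complex.conj_I,
      neg_smul, sub_eq_add_neg]
  have hn : IsStarNormal T := ⟨by
    rw [hs, hT]
    have h : Commute a b := hab
    exact ((Commute.refl a).add_right (h.smul_right _)).sub_left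
      ((h.symm.smul_left _).add_right (Commute.refl _))⟩
  have ea : cfc (fun z : ℂ => (z.re : ℂ)) T = a := by
    have e : (fun z : ℂ => (z.re : ℂ)) = fun z => (2⁻¹ : ℂ) • (z + star z) := funext fun z => by
      rw [Complex.star_def, Complex.add_conj, smul_eq_mul]
      push_cast
      ring
    rw [e, cfc_smul _ _ T, cfc_add T (fun z => z) (fun z => star z), cfc_id' ℂ T,
      cfc_star_id (R := ℂ) T, hs, hT]
    module
  have eb : cfc (fun z : ℂ => (z.im : ℂ)) T = b := by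
    have e : (fun z : ℂ => (z.im : ℂ)) = fun z => (-Complex.I / 2 : ℂ) • (z - star z) :=
      funext fun z => by
        rw [Complex.star_def, Complex.sub_conj, smul_eq_mul]
        push_cast
        linear_combination (z.im : ℂ) * Complex.I_mul_I
    rw [e, cfc_smul _ _ T, cfc_sub (fun z => z) (fun z => star z) T, cfc_id' ℂ T,
      cfc_star_id (R := ℂ) T, hs, hT]
    have e2 : a + Complex.I • b - (a - Complex.I • b) = (2 * Complex.I) • b := by module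
    have e3 : -Complex.I / 2 * (2 * Complex.I) = 1 := by
      linear_combination -Complex.I_mul_I
    rw [e2, smul_smul, e3, one_smul]
  have hre : ∀ z ∈ spectrum ℂ T, z.re ∈ Set.Icc (-‖a‖) ‖a‖ := fun z hz => by
    have e := norm_apply_le_norm_cfc (fun z : ℂ => (z.re : ℂ)) T hz
    rw [ea, Complex.norm_real, Real.norm_eq_abs] at e
    exact abs_le.1 e
  have him : ∀ z ∈ spectrum ℂ T, z.im ∈ Set.Icc (-‖b‖) ‖b‖ := fun z hz => by
    have e := norm_apply_le_norm_cfc (fun z : ℂ => (z.im : ℂ)) T hz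
    rw [eb, Complex.norm_real, Real.norm_eq_abs] at e
    exact abs_le.1 e
  obtain ⟨E, h1, h2⟩ := exists_calc_normal T
  have hg : Measurable fun z : ℂ => (z.re, z.im) := by fun_prop
  obtain ⟨E', h3, h4⟩ := E.exists_map hg
  refine ⟨E', fun ξ => ?_, fun f hf h => ?_, fun f hf h => ?_⟩
  · rw [h4, Measure.map_apply hg (measurableSet_Icc.prod measurableSet_Icc).compl]
    exact measure_mono_null (fun z hz hz' => hz ⟨hre z hz', him z hz'⟩) (h1 ξ)
  · have e : Set.EqOn (fun z : ℂ => f z.re) (fun z => (z.re : ℂ)) (spectrum ℂ T) :=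
      fun z hz => h _ (hre z hz)
    rw [h3, h2 (fun z => f z.re) (hf.comp Complex.measurable_re)
      (ContinuousOn.congr (by fun_prop) e), cfc_congr e, ea]
  · have e : Set.EqOn (fun z : ℂ => f z.im) (fun z => (z.im : ℂ)) (spectrum ℂ T) :=
      fun z hz => h _ (him z hz)
    rw [h3, h2 (fun z => f z.im) (hf.comp Complex.measurable_im)
      (ContinuousOn.congr (by fun_prop) e), cfc_congr e, eb]

theorem exists_calc_sa {h : H →L[ℂ] H} (hh : IsSelfAdjoint h) :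
    ∃ E : SpecCalc ℝ H, IsCalcOf E h := by
  obtain ⟨E, h1, h2, -⟩ := exists_calc_joint hh hh rfl
  obtain ⟨E', h3, h4⟩ := E.exists_map (g := Prod.fst) measurable_fst
  refine ⟨E', fun ξ => ?_, fun f hf h => ?_⟩
  · rw [h4, Measure.map_apply measurable_fst measurableSet_Icc.compl]
    refine measure_mono_null ?_ (h1 ξ)
    exact fun z hz hz' => hz (Set.mem_prod.1 hz').1
  · rw [h3, h2 f hf h]

end Pool.Agent.P.MP_5d580a_an
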