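import Pool.Agent.P.MP_5d580a_an.CalcEx

open scoped ComplexOrder InnerProductSpace ComplexConjugate BoundedContinuousFunction
open MeasureTheory Filter Topology

set_option linter.unusedSectionVars false
set_option linter.unusedVariables false

noncomputable section

namespace Pool.Agent.P.MP_5d580a_an

variable {H : Type} [NormedAddCommGroup H] [InnerProductSpace ℂ H] [CompleteSpace H]

namespace CalcSaAux

/-- clamp to `[-K, K]` -/
def cl (K t : ℝ) : ℝ := max (-K) (min t K)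

theorem cl_cont (K : ℝ) : Continuous (cl K) := by
  unfold cl; fun_prop

theorem cl_eq {K t : ℝ} (ht : t ∈ Set.Icc (-K) K) : cl K t = t := by
  unfold cl; rw [min_eq_left ht.2, max_eq_right ht.1]

theorem abs_cl_le {K : ℝ} (hK : 0 ≤ K) (t : ℝ) : |cl K t| ≤ K := by
  unfold cl
  rw [abs_le]
  exact ⟨le_max_left _ _, max_le (by linarith) (min_le_right _ _)⟩

theorem bm_real {X : Type} [MeasurableSpace X] {G : X → ℝ} (hG : Measurable G) (K : ℝ)
    (hK : ∀ x, |G x| ≤ K) : BM fun x => (G x : ℂ) :=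
  ⟨Complex.measurable_ofReal.comp hG, K, fun x => by simpa using hK x⟩

theorem bm_cl {K : ℝ} (hK : 0 ≤ K) : BM fun t => (cl K t : ℂ) :=
  bm_real (cl_cont K).measurable K (abs_cl_le hK)

theorem meas_real {X : Type} [MeasurableSpace X] {G : X → ℝ} (hG : BM fun x => (G x : ℂ)) :
    Measurable G := by
  have := Complex.measurable_re.comp hG.1
  simpa [Function.comp_def] using this

variable {E : SpecCalc ℝ H} {h : H →L[ℂ] H}

theorem ae_mem (hE : IsCalcOf E h) (ξ : H) : ∀ᵐ t ∂(E.μ ξ), t ∈ Set.Icc (-‖h‖) ‖h‖ :=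
  hE.1 ξ

theorem phi_cl (hE : IsCalcOf E h) : E.Φ (fun t => (cl ‖h‖ t : ℂ)) = h :=
  hE.2 _ (bm_cl (norm_nonneg h)) fun t ht => by rw [cl_eq ht]

theorem phi_congr {X : Type} [MeasurableSpace X] (E : SpecCalc X H) {f g : X → ℂ} (hf : BM f)
    (hg : BM g) (hfg : ∀ ξ, ∀ᵐ x ∂(E.μ ξ), f x = g x) : E.Φ f = E.Φ g := by
  ext ξ
  exact E.congr_ae hf hg (hfg ξ)

theorem bm_cl_sub (K : ℝ) (hK : 0 ≤ K) (c : ℝ) : BM fun t => ((cl K t - c : ℝ) : ℂ) := by
  have := (bm_cl hK).sub (BM.const (c : ℂ))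
  simpa using this

theorem phi_cl_sub (hE : IsCalcOf E h) (c : ℝ) :
    E.Φ (fun t => ((cl ‖h‖ t - c : ℝ) : ℂ)) = h - (c : ℂ) • (1 : H →L[ℂ] H) := by
  have := E.map_sub (bm_cl (norm_nonneg h)) (BM.const (c : ℂ))
  rw [phi_cl hE, E.map_const] at this
  rw [← this]
  congr 1
  ext t
  push_cast
  rfl

theorem phi_cl_sub_Pr (hE : IsCalcOf E h) (c : ℝ) {s : Set ℝ} (hs : MeasurableSet s) :
    (h - (c : ℂ) • (1 : H →L[ℂ] H)) * E.Pr s =
      E.Φ (fun t => ((cl ‖h‖ t - c : ℝ) : ℂ) * s.indicator (fun _ => (1 : ℂ)) t) := by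
  rw [E.mul _ _ (bm_cl_sub _ (norm_nonneg h) c) (BM.indicator_one hs), phi_cl_sub hE]
  rfl

/-- a positive operator of the calculus has an almost everywhere nonnegative symbol -/
theorem ae_nonneg {X : Type} [MeasurableSpace X] (E : SpecCalc X H) {G : X → ℝ}
    (hG : BM fun x => (G x : ℂ)) (h0 : 0 ≤ E.Φ fun x => (G x : ℂ)) (ξ : H) :
    ∀ᵐ x ∂(E.μ ξ), 0 ≤ G x := by
  have := E.fin ξ
  have hm := meas_real hG
  set s : Set X := {x | G x < 0} with hsdef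
  have hs : MeasurableSet s := measurableSet_lt hm measurable_const
  have hP := E.Pr_proj hs
  have h1 : 0 ≤ ⟪E.Pr s ξ, E.Φ (fun x => (G x : ℂ)) (E.Pr s ξ)⟫_ℂ := nonneg_iff_inner.1 h0 _
  have hb := BM.indicator_one hs
  have hb2 : BM fun x => s.indicator (fun _ => (1 : ℂ)) x *
      ((G x : ℂ) * s.indicator (fun _ => (1 : ℂ)) x) := hb.mul (hG.mul hb)
  have h2 : ⟪E.Pr s ξ, E.Φ (fun x => (G x : ℂ)) (E.Pr s ξ)⟫_ℂ =
      ∫ x, ((s.indicator G x : ℝ) : ℂ) ∂(E.μ ξ) := by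
    have e1 : ⟪E.Pr s ξ, E.Φ (fun x => (G x : ℂ)) (E.Pr s ξ)⟫_ℂ =
        ⟪ξ, E.Pr s (E.Φ (fun x => (G x : ℂ)) (E.Pr s ξ))⟫_ℂ := by
      rw [← inner_star_left (E.Pr s) ξ, hP.isSelfAdjoint.star_eq]
    rw [e1]
    unfold SpecCalc.Pr
    rw [E.mul_apply hG hb, E.mul_apply hb (hG.mul hb), E.inner _ hb2]
    congr 1
    ext x
    by_cases hx : x ∈ s <;> simp [hx]
  rw [h2, integral_complex_ofReal] at h1
  have h3 : 0 ≤ ∫ x, s.indicator G x ∂(E.μ ξ) := by exact_mod_cast h1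
  have hi : Integrable (fun x => s.indicator G x) (E.μ ξ) := by
    have := (hG.integrable (E.μ ξ)).re
    simp only [RCLike.re_to_complex, Complex.ofReal_re] at this
    exact this.indicator hs
  have h4 : ∀ x, s.indicator G x ≤ 0 := by
    intro x
    by_cases hx : x ∈ s
    · rw [Set.indicator_of_mem hx]; exact le_of_lt hx
    · rw [Set.indicator_of_notMem hx]
  have h5 : ∫ x, -(s.indicator G x) ∂(E.μ ξ) = 0 := by
    apply le_antisymm
    · rw [integral_neg]; linarith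
    · exact integral_nonneg fun x => by simpa using h4 x
  have h6 := (integral_eq_zero_iff_of_nonneg (f := fun x => -(s.indicator G x))
    (fun x => by simpa using h4 x) hi.neg).1 h5
  filter_upwards [h6] with x hx
  by_contra hneg
  have hx' : x ∈ s := not_le.1 hneg
  simp only [Set.indicator_of_mem hx', Pi.zero_apply, neg_eq_zero] at hx
  exact (ne_of_lt hx') hx

theorem smul_one_eq (c : ℝ) :
    (c : ℂ) • (1 : H →L[ℂ] H) = algebraMap ℝ (H →L[ℂ] H) c := by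
  rw [Algebra.algebraMap_eq_smul_one]
  ext ξ
  simp

theorem ae_abs_le {X : Type} [MeasurableSpace X] (E : SpecCalc X H) {G : X → ℝ}
    (hG : BM fun x => (G x : ℂ)) (ξ : H) :
    ∀ᵐ x ∂(E.μ ξ), G x ∈ Set.Icc (-‖E.Φ fun x => (G x : ℂ)‖) ‖E.Φ fun x => (G x : ℂ)‖ := by
  set T := E.Φ fun x => (G x : ℂ) with hT
  have hsa : IsSelfAdjoint T := E.isSelfAdjoint hG
  have b1 : BM fun x => ((‖T‖ - G x : ℝ) : ℂ) := by
    simpa using (BM.const (‖T‖ : ℂ)).sub hG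
  have b2 : BM fun x => ((G x + ‖T‖ : ℝ) : ℂ) := by
    simpa using hG.add (BM.const (‖T‖ : ℂ))
  have e1 : E.Φ (fun x => ((‖T‖ - G x : ℝ) : ℂ)) = (‖T‖ : ℂ) • (1 : H →L[ℂ] H) - T := by
    rw [← E.map_const, hT, ← E.map_sub (BM.const _) hG]
    congr 1; ext x; push_cast; rfl
  have e2 : E.Φ (fun x => ((G x + ‖T‖ : ℝ) : ℂ)) = T + (‖T‖ : ℂ) • (1 : H →L[ℂ] H) := by
    rw [← E.map_const, hT, ← E.map_add hG (BM.const _)]
    congr 1; ext x; push_cast; rfl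
  have p1 : 0 ≤ E.Φ (fun x => ((‖T‖ - G x : ℝ) : ℂ)) := by
    rw [e1, smul_one_eq, sub_nonneg]
    exact hsa.le_algebraMap_norm_self
  have p2 : 0 ≤ E.Φ (fun x => ((G x + ‖T‖ : ℝ) : ℂ)) := by
    rw [e2, smul_one_eq, ← neg_le_iff_add_nonneg]
    exact hsa.neg_algebraMap_norm_le_self
  filter_upwards [ae_nonneg E b1 p1 ξ, ae_nonneg E b2 p2 ξ] with x h1 h2
  constructor <;> linarith

theorem isCalcOf_map {X : Type} [MeasurableSpace X] (E : SpecCalc X H) {g G : X → ℝ}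
    (hg : Measurable g) (hG : BM fun x => (G x : ℂ)) (hae : ∀ ξ, ∀ᵐ x ∂(E.μ ξ), G x = g x) :
    ∃ E' : SpecCalc ℝ H, IsCalcOf E' (E.Φ fun x => (G x : ℂ)) ∧
      ∀ f, E'.Φ f = E.Φ fun x => f (g x) := by
  obtain ⟨E', h1, h2⟩ := E.exists_map hg
  have hb : ∀ ξ, ∀ᵐ x ∂(E.μ ξ),
      g x ∈ Set.Icc (-‖E.Φ fun x => (G x : ℂ)‖) ‖E.Φ fun x => (G x : ℂ)‖ := by
    intro ξ
    filter_upwards [ae_abs_le E hG ξ, hae ξ] with x hx he
    rwa [← he]
  refine ⟨E', ⟨fun ξ => ?_, fun f hf hid => ?_⟩, h1⟩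
  · rw [h2, Measure.map_apply hg measurableSet_Icc.compl]
    exact hb ξ
  · rw [h1]
    refine phi_congr E (hf.comp hg) hG fun ξ => ?_
    filter_upwards [hb ξ, hae ξ] with x hx he
    rw [hid _ hx, he]

theorem calc_unique {E E' : SpecCalc ℝ H} (hE : IsCalcOf E h) (hE' : IsCalcOf E' h) {f : ℝ → ℂ}
    (hf : BM f) : E.Φ f = E'.Φ f := by
  ext ξ
  simpa using hE.intertwine hE' 1 (fun ξ => by simp) f hf ξ

/-- a grid of spectral sets of mesh `ε` -/
theorem exists_grid (hE : IsCalcOf E h) {ε : ℝ} (hε : 0 < ε) :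
    ∃ (n : ℕ) (t : Fin n → ℝ) (s : Fin n → Set ℝ), (∀ k, MeasurableSet (s k)) ∧
      (∀ k, ∀ u ∈ s k, |u - t k| ≤ ε) ∧ ∑ k, E.Pr (s k) = 1 ∧
      ‖h - ∑ k, (t k : ℂ) • E.Pr (s k)‖ ≤ ε := by
  set K := ‖h‖ with hK
  have hK0 : 0 ≤ K := norm_nonneg h
  set n := ⌊2 * K / ε⌋₊ + 1 with hn
  let t : Fin n → ℝ := fun k => -K + (k : ℕ) * ε
  let s : Fin n → Set ℝ := fun k => {u | -K ≤ u ∧ ⌊(u + K) / ε⌋₊ = (k : ℕ)}
  have hs : ∀ k, MeasurableSet (s k) := by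
    intro k
    refine (measurableSet_le measurable_const measurable_id).inter ?_
    have : Measurable fun u : ℝ => ⌊(u + K) / ε⌋₊ := by
      exact Nat.measurable_floor.comp (by fun_prop)
    exact this (measurableSet_singleton (k : ℕ))
  have hst : ∀ k, ∀ u ∈ s k, |u - t k| ≤ ε := by
    rintro k u ⟨h1, h2⟩
    have h3 : 0 ≤ (u + K) / ε := div_nonneg (by linarith) hε.le
    have h4 := Nat.floor_le h3
    have h5 := Nat.lt_floor_add_one ((u + K) / ε)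
    rw [h2] at h4 h5
    rw [le_div_iff₀ hε] at h4
    rw [div_lt_iff₀ hε] at h5
    simp only [t]
    rw [abs_le]
    constructor <;> nlinarith
  have hex : ∀ u ∈ Set.Icc (-K) K, ∃ k₀ : Fin n, u ∈ s k₀ ∧ ∀ k, k ≠ k₀ → u ∉ s k := by
    intro u hu
    have hlt : ⌊(u + K) / ε⌋₊ < n := by
      rw [hn, Nat.lt_succ_iff]
      apply Nat.floor_le_floor
      gcongr
      linarith [hu.2]
    refine ⟨⟨_, hlt⟩, ⟨hu.1, rfl⟩, fun k hk hu' => hk ?_⟩
    exact Fin.ext hu'.2.symm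
  have hb : ∀ k, BM ((s k).indicator fun _ => (1 : ℂ)) := fun k => BM.indicator_one (hs k)
  refine ⟨n, t, s, hs, hst, ?_, ?_⟩
  · unfold SpecCalc.Pr
    rw [← E.map_sum _ fun k _ => hb k, ← E.one]
    refine phi_congr E (BM.sum _ fun k _ => hb k) (BM.const 1) fun ξ => ?_
    filter_upwards [ae_mem hE ξ] with u hu
    obtain ⟨k₀, h1, h2⟩ := hex u hu
    rw [Finset.sum_eq_single k₀]
    · simp [h1]
    · intro k _ hk; simp [h2 k hk]
    · simp
  · have hb' : ∀ k, BM fun u => (t k : ℂ) * (s k).indicator (fun _ => (1 : ℂ)) u :=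
      fun k => (BM.const _).mul (hb k)
    have e1 : ∑ k, (t k : ℂ) • E.Pr (s k) =
        E.Φ fun u => ∑ k, (t k : ℂ) * (s k).indicator (fun _ => (1 : ℂ)) u := by
      rw [E.map_sum _ fun k _ => hb' k]
      refine Finset.sum_congr rfl fun k _ => ?_
      rw [E.map_smul _ (hb k)]
      rfl
    have e2 : h - ∑ k, (t k : ℂ) • E.Pr (s k) =
        E.Φ fun u => (cl K u : ℂ) - ∑ k, (t k : ℂ) * (s k).indicator (fun _ => (1 : ℂ)) u := by
      rw [E.map_sub (bm_cl hK0) (BM.sum _ fun k _ => hb' k), e1, phi_cl hE]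
    rw [e2]
    refine E.norm_le ((bm_cl hK0).sub (BM.sum _ fun k _ => hb' k)) hε.le fun ξ => ?_
    filter_upwards [ae_mem hE ξ] with u hu
    obtain ⟨k₀, h1, h2⟩ := hex u hu
    rw [Finset.sum_eq_single k₀]
    · rw [cl_eq hu, Set.indicator_of_mem h1, mul_one, ← Complex.ofReal_sub, Complex.norm_real]
      exact hst k₀ u h1
    · intro k _ hk; simp [h2 k hk]
    · simp

end CalcSaAux

end Pool.Agent.P.MP_5d580a_an
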