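import Pool.Agent.P.MP_5d580a_an.Basic
import Pool.Agent.P.MP_5d580a_an.Lim

open scoped ComplexOrder InnerProductSpace ComplexConjugate BoundedContinuousFunction
open MeasureTheory Filter Topology

set_option linter.unusedSectionVars false
set_option linter.unusedVariables false

noncomputable section

namespace Pool.Agent.P.MP_5d580a_an

variable {H : Type} [NormedAddCommGroup H] [InnerProductSpace ℂ H] [CompleteSpace H]

variable {M : VonNeumannAlgebra H}

theorem proj_vanish {F : Type} [NormedAddCommGroup F] [NormedSpace ℂ F] {S : Set H}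
    (A : H →L[ℂ] F) (h : ∀ η ∈ S, A η = 0) {γ : H}
    (hγ : γ ∈ (Submodule.span ℂ S).topologicalClosure) : A γ = 0 := by
  have h1 : Submodule.span ℂ S ≤ LinearMap.ker (A : H →ₗ[ℂ] F) :=
    Submodule.span_le.2 fun η hη => h η hη
  exact Submodule.topologicalClosure_minimal _ h1 A.isClosed_ker hγ

/-- the projection onto the closed span of a set of vectors -/
theorem exists_proj_span (S : Set H) :
    ∃ p : H →L[ℂ] H, IsStarProjection p ∧ (∀ η ∈ S, p η = η) ∧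
      (∀ γ, (∀ η ∈ S, ⟪η, γ⟫_ℂ = 0) → p γ = 0) ∧
      (∀ γ, p γ ∈ closure (Submodule.span ℂ S : Set H)) ∧
      (∀ x y : H →L[ℂ] H, (∀ η ∈ S, x η = y η) → x * p = y * p) ∧
      ∀ x : H →L[ℂ] H, (∀ η ∈ S, p (x η) = x η) → (∀ η ∈ S, p ((star x) η) = (star x) η) →
        x * p = p * x := by
  let V : Submodule ℂ H := (Submodule.span ℂ S).topologicalClosure
  have : CompleteSpace V := (Submodule.isClosed_topologicalClosure _).completeSpace_coe
  have hp : IsStarProjection V.starProjection := isStarProjection_starProjection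
  have h5 : ∀ x y : H →L[ℂ] H, (∀ η ∈ S, x η = y η) →
      x * V.starProjection = y * V.starProjection := by
    intro x y hxy
    ext γ
    have h1 := proj_vanish (x - y) (fun η hη => by rw [sub_apply, hxy η hη, sub_self])
      (V.starProjection_apply_mem γ)
    rw [sub_apply, sub_eq_zero] at h1
    exact h1
  refine ⟨V.starProjection, hp, fun η hη => ?_, fun γ hγ => ?_,
    fun γ => V.starProjection_apply_mem γ, h5, fun x h1 h2 => ?_⟩
  · exact Submodule.starProjection_eq_self_iff.2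
      (Submodule.le_topologicalClosure _ (Submodule.subset_span hη))
  · rw [Submodule.starProjection_apply_eq_zero_iff, Submodule.mem_orthogonal']
    intro u hu
    refine proj_vanish (innerSL ℂ γ) (fun η hη => ?_) hu
    rw [innerSL_apply_apply, inner_eq_zero_symm]
    exact hγ η hη
  · have e1 := h5 (V.starProjection * x) x h1
    have e2 := congrArg star (h5 (V.starProjection * star x) (star x) h2)
    simp only [star_mul, star_star, hp.isSelfAdjoint.star_eq] at e2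
    exact e1.symm.trans ((mul_assoc _ _ _).trans e2)

theorem proj_span_orbit (A : StarSubalgebra ℂ (H →L[ℂ] H)) (ξ : H) :
    (Submodule.span ℂ {η : H | ∃ s ∈ A, η = s ξ} : Set H) ⊆ {η : H | ∃ s ∈ A, η = s ξ} := by
  intro γ hγ
  induction hγ using Submodule.span_induction with
  | mem x hx => exact hx
  | zero => exact ⟨0, zero_mem A, rfl⟩
  | add x y _ _ hx hy =>
    obtain ⟨s, hs, rfl⟩ := hx
    obtain ⟨t, ht, rfl⟩ := hy
    exact ⟨s + t, add_mem hs ht, rfl⟩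
  | smul c x _ hx =>
    obtain ⟨s, hs, rfl⟩ := hx
    exact ⟨c • s, A.smul_mem hs c, rfl⟩

/-- the support projection of a vector -/
theorem exists_supp (M : VonNeumannAlgebra H) (ξ : H) :
    ∃ s ∈ M, IsStarProjection s ∧ s ξ = ξ ∧ (∀ x ∈ M, x ξ = 0 → x * s = 0) ∧
      (∀ γ, s γ = γ → ∀ ε : ℝ, 0 < ε → ∃ y ∈ M.commutant, ‖y ξ - γ‖ ≤ ε) ∧
      ∀ u ∈ M, (∃ u' ∈ M.commutant, u ξ = u' ξ) → (∃ u' ∈ M.commutant, (star u) ξ = u' ξ) →
        u * s = s * u := by
  obtain ⟨s, hp, h2, -, h4, h5, h6⟩ := exists_proj_span {η : H | ∃ y ∈ M.commutant, η = y ξ}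
  refine ⟨s, mem_of_commute fun y hy => h6 y ?_ ?_, hp, h2 ξ ⟨1, one_mem _, rfl⟩,
    fun x hx hxξ => ?_, fun γ hγ ε hε => ?_, ?_⟩
  · rintro _ ⟨z, hz, rfl⟩
    exact h2 _ ⟨y * z, mul_mem hy hz, rfl⟩
  · rintro _ ⟨z, hz, rfl⟩
    exact h2 _ ⟨star y * z, mul_mem (star_mem hy) hz, rfl⟩
  · rw [h5 x 0, zero_mul]
    rintro _ ⟨z, hz, rfl⟩
    rw [commute_apply hx hz, hxξ, map_zero]
    rfl
  · have h7 := closure_mono (proj_span_orbit M.commutant.toStarSubalgebra ξ) (h4 γ)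
    rw [hγ] at h7
    obtain ⟨_, ⟨y, hy, rfl⟩, hd⟩ := Metric.mem_closure_iff.1 h7 ε hε
    refine ⟨y, hy, ?_⟩
    rw [dist_comm, dist_eq_norm] at hd
    exact hd.le
  · rintro u hu ⟨u', hu', e1⟩ ⟨u'', hu'', e2⟩
    refine h6 u ?_ ?_
    · rintro _ ⟨z, hz, rfl⟩
      rw [commute_apply hu hz, e1]
      exact h2 _ ⟨z * u', mul_mem hz hu', rfl⟩
    · rintro _ ⟨z, hz, rfl⟩
      rw [commute_apply (star_mem hu) hz, e2]
      exact h2 _ ⟨z * u'', mul_mem hz hu'', rfl⟩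

theorem sepg_of_cyc {ξ : H} (h : Cyc M ξ) : Sepg M.commutant ξ := by
  intro x hx hxξ
  ext η
  have h1 : (x : H → H) = fun _ => 0 := by
    refine Continuous.ext_on h x.continuous continuous_const ?_
    rintro _ ⟨a, ha, rfl⟩
    rw [← commute_apply ha hx, hxξ, map_zero]
  exact congrFun h1 η

theorem sepg_of_cyc' {ξ : H} (h : Cyc M.commutant ξ) : Sepg M ξ := by
  have := sepg_of_cyc h
  rwa [VonNeumannAlgebra.commutant_commutant] at this

theorem cyc_of_sepg {ξ : H} (h : Sepg M ξ) : Cyc M.commutant ξ := by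
  obtain ⟨s, hs, -, h2, -, h4, -⟩ := exists_supp M ξ
  have h1 : 1 - s = 0 := h _ (sub_mem (one_mem _) hs) (by rw [sub_apply, h2]; simp)
  rw [sub_eq_zero] at h1
  intro γ
  rw [Metric.mem_closure_iff]
  intro ε hε
  obtain ⟨y, hy, hd⟩ := h4 γ (by rw [← h1]; rfl) (ε / 2) (by positivity)
  refine ⟨y ξ, ⟨y, hy, rfl⟩, ?_⟩
  rw [dist_comm, dist_eq_norm]
  linarith

theorem sepg_cmt {C : Type} [CStarAlgebra C] {π : C →⋆ₐ[ℂ] (H →L[ℂ] H)} {ξ : H} (h : CycR π ξ) :
    Sepg (cmt π) ξ := by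
  intro x hx hxξ
  ext η
  have h1 : (x : H → H) = fun _ => 0 := by
    refine Continuous.ext_on h x.continuous continuous_const ?_
    rintro _ ⟨c, rfl⟩
    have h2 := congrArg (fun X : H →L[ℂ] H => X ξ) (mem_cmt.1 hx c)
    simp only [mul_apply_eq_comp, hxξ, map_zero] at h2
    exact h2.symm
  exact congrFun h1 η

theorem Sepg.eq {ξ : H} (h : Sepg M ξ) {x y : H →L[ℂ] H} (hx : x ∈ M) (hy : y ∈ M)
    (e : x ξ = y ξ) : x = y := sub_eq_zero.1 (h _ (sub_mem hx hy) (by rw [sub_apply, e, sub_self]))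

theorem eq_of_inner_cyc {ξ : H} (h : Cyc M ξ) {α β : H}
    (e : ∀ x ∈ M, ⟪x ξ, α⟫_ℂ = ⟪x ξ, β⟫_ℂ) : α = β := by
  apply ext_inner_left ℂ
  have h1 : (fun η : H => ⟪η, α⟫_ℂ) = fun η : H => ⟪η, β⟫_ℂ := by
    refine Continuous.ext_on h (continuous_id.inner continuous_const)
      (continuous_id.inner continuous_const) ?_
    rintro _ ⟨a, ha, rfl⟩
    exact e a ha
  exact congrFun h1

/-- the central support -/
theorem proj_central {y : H →L[ℂ] H} (hy : y ∈ M) :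
    ∃ z ∈ M, z ∈ M.commutant ∧ IsStarProjection z ∧ z * y = y ∧
      ∀ x : H →L[ℂ] H, (∀ a ∈ M, x * a * y = 0) → x * z = 0 := by
  obtain ⟨z, hp, h2, -, -, h5, h6⟩ := exists_proj_span {η : H | ∃ a ∈ M, ∃ γ, η = a (y γ)}
  have hc : ∀ g ∈ M.commutant, ∀ η ∈ {η : H | ∃ a ∈ M, ∃ γ, η = a (y γ)}, z (g η) = g η := by
    rintro g hg _ ⟨a, ha, γ, rfl⟩
    rw [← commute_apply ha hg, ← commute_apply hy hg]
    exact h2 _ ⟨a, ha, _, rfl⟩
  have hm : ∀ g ∈ M, ∀ η ∈ {η : H | ∃ a ∈ M, ∃ γ, η = a (y γ)}, z (g η) = g η := by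
    rintro g hg _ ⟨a, ha, γ, rfl⟩
    exact h2 _ ⟨g * a, mul_mem hg ha, γ, rfl⟩
  refine ⟨z, mem_of_commute fun g hg => h6 g (hc g hg) (hc _ (star_mem hg)),
    VonNeumannAlgebra.mem_commutant_iff.2 fun g hg => h6 g (hm g hg) (hm _ (star_mem hg)), hp,
    ?_, fun x hx => ?_⟩
  · ext γ
    exact h2 _ ⟨1, one_mem _, γ, rfl⟩
  · rw [h5 x 0, zero_mul]
    rintro _ ⟨a, ha, γ, rfl⟩
    exact congrArg (fun X : H →L[ℂ] H => X γ) (hx a ha)

theorem proj_scale (a : H →L[ℂ] H) :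
    ∃ c : ℝ, ∃ d : ℝ, ‖(d : ℂ) • a‖ ≤ 1 ∧ a = (c : ℂ) • (d : ℂ) • a := by
  have h0 : 0 < ‖a‖ + 1 := by positivity
  refine ⟨‖a‖ + 1, (‖a‖ + 1)⁻¹, ?_, ?_⟩
  · rw [norm_smul, Complex.norm_real, Real.norm_eq_abs, abs_of_pos (inv_pos.2 h0),
      inv_mul_le_iff₀ h0]
    linarith
  · rw [smul_smul, ← Complex.ofReal_mul, mul_inv_cancel₀ h0.ne', Complex.ofReal_one, one_smul]

theorem isFactor_of_center
    (h : ∀ z ∈ M, z ∈ M.commutant → IsStarProjection z → z = 0 ∨ z = 1) : IsFactor M := by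
  intro x hx y hy hxy
  obtain ⟨z, hz, hz', hp, h1, h2⟩ := proj_central hy
  rcases h z hz hz' hp with rfl | rfl
  · right
    rw [← h1, zero_mul]
  · left
    simpa using h2 x hxy

theorem IsFactor.center (h : IsFactor M) {z : H →L[ℂ] H} (hz : z ∈ M) (hz' : z ∈ M.commutant)
    (hp : IsStarProjection z) : z = 0 ∨ z = 1 := by
  rcases h z hz (1 - z) (sub_mem (one_mem _) hz) (fun a ha => by
    rw [← commute_of_mem ha hz', mul_assoc, hp.mul_one_sub_self, mul_zero]) with h1 | h1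
  · exact Or.inl h1
  · exact Or.inr (sub_eq_zero.1 h1).symm

theorem IsFactor.commutant (h : IsFactor M) : IsFactor M.commutant := by
  refine isFactor_of_center fun z hz hz' hp => ?_
  rw [VonNeumannAlgebra.commutant_commutant] at hz'
  exact h.center hz' hz hp

theorem IsFactor.exists_ne (h : IsFactor M) {x y : H →L[ℂ] H} (hx : x ∈ M) (hy : y ∈ M)
    (hx0 : x ≠ 0) (hy0 : y ≠ 0) : ∃ a ∈ M, ‖a‖ ≤ 1 ∧ x * a * y ≠ 0 := by
  by_contra hne
  push Not at hne
  rcases h x hx y hy (fun a ha => by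
    obtain ⟨c, d, h1, h2⟩ := proj_scale a
    rw [h2, mul_smul_comm, smul_mul_assoc, hne _ (vn_smul_mem _ ha) h1, smul_zero]) with h1 | h1
  · exact hx0 h1
  · exact hy0 h1

/-- in a factor an operator killed by `f y* · x f` for all `x, y` vanishes -/
theorem IsFactor.eq_zero_of_corner (h : IsFactor M) {f : H →L[ℂ] H} (hf : f ∈ M)
    (hp : IsStarProjection f) (hf0 : f ≠ 0) {T : H →L[ℂ] H}
    (hT : ∀ x ∈ M, ‖x‖ ≤ 1 → f * star x * T * x * f = 0) : T = 0 := by
  have hQ : ∀ x ∈ M, f * star x * T * x * f = 0 := by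
    intro x hx
    obtain ⟨c, d, h1, h2⟩ := proj_scale x
    have h3 := hT _ (vn_smul_mem _ hx) h1
    rw [h2]
    generalize (d : ℂ) • x = x' at h3
    simp only [star_smul, mul_smul_comm, smul_mul_assoc, h3, smul_zero]
  have hS : ∀ x ∈ M, ∀ y ∈ M, f * star y * T * x * f + f * star x * T * y * f = 0 := by
    intro x hx y hy
    have h1 := hQ _ (add_mem hx hy)
    simp only [star_add, mul_add, add_mul, hQ x hx, hQ y hy, zero_add, add_zero] at h1
    exact h1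
  have hB : ∀ x ∈ M, ∀ y ∈ M, f * star y * T * x * f = 0 := by
    intro x hx y hy
    have h1 := hS x hx y hy
    have h2 := hS _ (vn_smul_mem Complex.I hx) y hy
    simp only [star_smul, mul_smul_comm, smul_mul_assoc, Complex.star_def, Complex.conj_I] at h2
    rw [eq_neg_of_add_eq_zero_right h1, neg_smul, smul_neg, neg_neg, ← smul_add, ← two_smul ℂ,
      smul_smul, smul_eq_zero] at h2
    exact h2.resolve_left (mul_ne_zero Complex.I_ne_zero two_ne_zero)
  obtain ⟨z, hz, hz', hzp, h1, h2⟩ := proj_central hf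
  rcases h.center hz hz' hzp with rfl | rfl
  · exact absurd (by rw [← h1, zero_mul]) hf0
  · have h3 : ∀ y ∈ M, star T * y * f = 0 := by
      intro y hy
      have h4 := h2 (f * star y * T) fun a ha => hB a ha y hy
      rw [mul_one] at h4
      have h5 := congrArg star h4
      rwa [star_mul, star_mul, star_star, hp.isSelfAdjoint.star_eq, star_zero, ← mul_assoc] at h5
    have h6 := h2 _ h3
    rwa [mul_one, star_eq_zero] at h6

theorem exists_unitary_corner (D : VonNeumannAlgebra H) {e h : H →L[ℂ] H} (he : e ∈ D)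
    (hep : IsStarProjection e) (hh : h ∈ D) (hsa : IsSelfAdjoint h) (heh : e * h = h)
    (hn : ‖h‖ ≤ 1) :
    ∃ u ∈ D, u ∈ unitary (H →L[ℂ] H) ∧ u * (1 - e) = 1 - e ∧ star u * (1 - e) = 1 - e ∧
      (2 : ℂ) • (h + (1 - e)) = u + star u ∧
      ∀ S : H →L[ℂ] H, S * h = h * S → S * e = e * S → S * u = u * S := by
  have hee : e * e = e := hep.isIdempotentElem.eq
  have hes : star e = e := hep.isSelfAdjoint.star_eq
  have hhs : star h = h := hsa.star_eq
  have hhe : h * e = h := by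
    have := congrArg star heh
    rwa [star_mul, hes, hhs] at this
  have h0 : 0 ≤ e - h * h := by
    have h1 : 0 ≤ 1 - h * h := by
      have := star_mul_self_le_one hn
      rwa [hhs, ← sub_nonneg] at this
    have h2 := star_left_conjugate_nonneg h1 e
    have h3 : star e * (1 - h * h) * e = e - h * h := by
      rw [hes, mul_sub, sub_mul, mul_one, hee, ← mul_assoc, heh, mul_assoc, hhe]
    rwa [h3] at h2
  obtain ⟨k, hk0, hkk, -, hkc⟩ := exists_sqrt h0
  have hks : star k = k := (IsSelfAdjoint.of_nonneg hk0).star_eq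
  have hcomm : ∀ S : H →L[ℂ] H, S * h = h * S → S * e = e * S → S * k = k * S := by
    intro S h1 h2
    have c1 : Commute S h := h1
    have c2 : Commute S e := h2
    exact hkc S (c2.sub_right (c1.mul_right c1))
  have hkD : k ∈ D := mem_of_commute fun y hy =>
    hcomm y (commute_of_mem hh hy).symm (commute_of_mem he hy).symm
  have hhk : h * k = k * h := hcomm h rfl (by rw [hhe, heh])
  obtain ⟨g, hg⟩ : ∃ g, g = 1 - e := ⟨_, rfl⟩
  have hgs : star g = g := by rw [hg]; exact hep.one_sub.isSelfAdjoint.star_eq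
  have hgg : g * g = g := by rw [hg]; exact hep.one_sub.isIdempotentElem.eq
  have hhg : h * g = 0 := by rw [hg, mul_sub, mul_one, hhe, sub_self]
  have hgh : g * h = 0 := by rw [hg, sub_mul, one_mul, heh, sub_self]
  have heg : e * g = 0 := by rw [hg, mul_sub, mul_one, hee, sub_self]
  have hkg : k * g = 0 := by
    rw [← CStarRing.star_mul_self_eq_zero_iff, star_mul, hks, mul_assoc, ← mul_assoc k, hkk,
      sub_mul, heg, mul_assoc, hhg]
    simp
  have hgk : g * k = 0 := by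
    have := congrArg star hkg
    rwa [star_mul, hgs, hks, star_zero] at this
  have hkk' : k * k = 1 - g - h * h := by rw [hkk, hg, sub_sub_cancel]
  have hstar : star (h + Complex.I • k + g) = h + (-Complex.I) • k + g := by
    rw [star_add, star_add, star_smul, hhs, hks, hgs, Complex.star_def, Complex.conj_I]
  rw [← hg]
  refine ⟨h + Complex.I • k + g, add_mem (add_mem hh (vn_smul_mem _ hkD))
    (hg ▸ sub_mem (one_mem _) he), ?_, ?_, ?_, ?_, fun S h1 h2 => ?_⟩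
  · rw [Unitary.mem_iff, hstar]
    constructor
    · simp only [mul_add, add_mul, smul_mul_assoc, mul_smul_comm, smul_smul, hhg, hgh, hkg, hgk,
        hgg, hhk, hkk', smul_add, smul_zero, add_zero, zero_add, neg_mul, smul_neg,
        Complex.I_mul_I, neg_neg, one_smul, neg_smul, neg_zero]
      abel
    · simp only [mul_add, add_mul, smul_mul_assoc, mul_smul_comm, smul_smul, hhg, hgh, hkg, hgk,
        hgg, hhk, hkk', smul_add, smul_zero, add_zero, zero_add, mul_neg,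
        Complex.I_mul_I, one_smul, neg_smul]
      abel
  · simp only [add_mul, smul_mul_assoc, hhg, hkg, hgg, smul_zero, zero_add]
  · rw [hstar]
    simp only [add_mul, smul_mul_assoc, hhg, hkg, hgg, smul_zero, zero_add]
  · rw [hstar, two_smul, neg_smul]
    abel
  · have c1 : Commute S h := h1
    have c2 : Commute S k := hcomm S h1 h2
    have c3 : Commute S g := hg ▸ (Commute.one_right S).sub_right h2
    exact (c1.add_right (c2.smul_right _)).add_right c3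

theorem unitary_corner_comm {e u : H →L[ℂ] H} (hep : IsStarProjection e)
    (hu : u ∈ unitary (H →L[ℂ] H)) (h : u * (1 - e) = 1 - e) :
    u * e = e * u ∧ star u * (1 - e) = 1 - e ∧ (1 - e) * u = 1 - e := by
  have h1 : star u * (1 - e) = 1 - e := by
    conv_lhs => rw [← h, ← mul_assoc, (Unitary.mem_iff.1 hu).1, one_mul]
  have h2 : (1 - e) * u = 1 - e := by
    have := congrArg star h1
    rwa [star_mul, star_star, hep.one_sub.isSelfAdjoint.star_eq] at this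
  refine ⟨?_, h1, h2⟩
  have h3 : u * (1 - e) = (1 - e) * u := by rw [h, h2]
  rw [mul_sub, sub_mul, mul_one, one_mul] at h3
  exact sub_right_injective h3

theorem proj_lin_of_unitary (D : VonNeumannAlgebra H) {F : Type} [AddCommGroup F] [Module ℂ F]
    (L : (H →L[ℂ] H) →ₗ[ℂ] F) {e : H →L[ℂ] H} (he : e ∈ D)
    (hep : IsStarProjection e) (hL : L (1 - e) = 0)
    (h : ∀ u ∈ D, u ∈ unitary (H →L[ℂ] H) → u * (1 - e) = 1 - e → L u = 0) :
    ∀ x ∈ D, e * x * e = x → L x = 0 := by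
  have hsa : ∀ a ∈ D, IsSelfAdjoint a → e * a = a → L a = 0 := by
    intro a ha has hea
    obtain ⟨c, d, h1, h2⟩ := proj_scale a
    have hs : IsSelfAdjoint ((d : ℂ) • a) := by
      rw [IsSelfAdjoint, star_smul, has.star_eq, Complex.star_def, Complex.conj_ofReal]
    obtain ⟨u, hu, huu, e1, e2, e3, -⟩ := exists_unitary_corner D he hep (vn_smul_mem _ ha) hs
      (by rw [mul_smul_comm, hea]) h1
    have h3 := congrArg L e3
    rw [map_smul, map_add, map_add, hL, h u hu huu e1,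
      h _ (star_mem hu) (Unitary.star_mem huu) e2, add_zero, add_zero, smul_eq_zero] at h3
    rw [h2, map_smul, h3.resolve_left two_ne_zero, smul_zero]
  intro x hx hex
  have hee : e * e = e := hep.isIdempotentElem.eq
  have h1 : e * x = x := by
    conv_lhs => rw [← hex, ← mul_assoc, ← mul_assoc, hee, hex]
  have h2 : e * star x = star x := by
    have h3 : x * e = x := by
      conv_lhs => rw [← hex, mul_assoc, hee, hex]
    have := congrArg star h3
    rwa [star_mul, hep.isSelfAdjoint.star_eq] at this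
  obtain ⟨a, ha, b, hb, has, hbs, -, -, e1, e2, e3⟩ := exists_re_im hx
  have h4 : e * a = a := by
    apply smul_right_injective _ (two_ne_zero (α := ℂ))
    change (2 : ℂ) • (e * a) = (2 : ℂ) • a
    rw [← mul_smul_comm, e2, mul_add, h1, h2]
  have h5 : e * b = b := by
    apply smul_right_injective _ (two_ne_zero (α := ℂ))
    change (2 : ℂ) • (e * b) = (2 : ℂ) • b
    rw [← mul_smul_comm, e3, mul_smul_comm, mul_sub, h1, h2]
  rw [e1, map_add, map_smul, hsa a ha has h4, hsa b hb hbs h5, smul_zero, add_zero]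

theorem commute_of_unitary (D : VonNeumannAlgebra H) {e T : H →L[ℂ] H} (he : e ∈ D)
    (hep : IsStarProjection e) (hTe : T * e = e * T)
    (h : ∀ u ∈ D, u ∈ unitary (H →L[ℂ] H) → u * (1 - e) = 1 - e → T * u = u * T) :
    ∀ x ∈ D, e * x * e = x → T * x = x * T := by
  intro x hx hex
  have := proj_lin_of_unitary D (LinearMap.mulLeft ℂ T - LinearMap.mulRight ℂ T) he hep
    (by simp [mul_sub, sub_mul, hTe])
    (fun u hu huu e1 => by simp [h u hu huu e1]) x hx hex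
  simpa [sub_eq_zero] using this

theorem cm_eq_zero_of_unitary (D : VonNeumannAlgebra H) {J : H ≃ₗᵢ⋆[ℂ] H}
    (hJ : ∀ ξ, J (J ξ) = ξ) {e : H →L[ℂ] H} (he : e ∈ D) (hep : IsStarProjection e) {ζ : H}
    (heζ : cm J e ζ = 0)
    (h : ∀ u ∈ D, u ∈ unitary (H →L[ℂ] H) → u * (1 - e) = 1 - e → cm J u ζ = 0) :
    ∀ x ∈ D, e * x * e = x → cm J x ζ = 0 := by
  let L : (H →L[ℂ] H) →ₗ[ℂ] H :=
    { toFun := fun x => cm J x ζ
      map_add' := fun x y => cm_add x y ζ
      map_smul' := fun c x => cm_smul c x ζ }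
  refine proj_lin_of_unitary D L he hep ?_ h
  change cm J (1 - e) ζ = 0
  rw [cm_sub, cm_one hJ, heζ, sub_self]

/-- single vector double commutant theorem -/
theorem bicomm_single (S : StarSubalgebra ℂ (H →L[ℂ] H)) {T : H →L[ℂ] H}
    (hT : ∀ y : H →L[ℂ] H, (∀ s ∈ S, s * y = y * s) → y * T = T * y) (ξ : H) :
    T ξ ∈ closure {η : H | ∃ s ∈ S, η = s ξ} := by
  obtain ⟨p, -, h2, -, h4, -, h6⟩ := exists_proj_span {η : H | ∃ s ∈ S, η = s ξ}
  have h1 : p * T = T * p := by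
    refine hT p fun s hs => h6 s ?_ ?_
    · rintro _ ⟨z, hz, rfl⟩
      exact h2 _ ⟨s * z, mul_mem hs hz, rfl⟩
    · rintro _ ⟨z, hz, rfl⟩
      exact h2 _ ⟨star s * z, mul_mem (star_mem hs) hz, rfl⟩
  have h3 : p (T ξ) = T ξ := by
    have := congrArg (fun X : H →L[ℂ] H => X ξ) h1
    simp only [mul_apply_eq_comp] at this
    rw [this, h2 ξ ⟨1, one_mem _, rfl⟩]
  rw [← h3]
  exact closure_mono (proj_span_orbit S ξ) (h4 _)

theorem BoolFam.zero_mem {𝔅 : Set (H →L[ℂ] H)} (h : BoolFam 𝔅) : (0 : H →L[ℂ] H) ∈ 𝔅 := by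
  simpa using h.compl _ h.one

theorem BoolFam.add_mem {𝔅 : Set (H →L[ℂ] H)} (h : BoolFam 𝔅) {q r : H →L[ℂ] H} (hq : q ∈ 𝔅)
    (hr : r ∈ 𝔅) (h0 : q * r = 0) : q + r ∈ 𝔅 := by
  have h1 := h.compl _ (h.mul _ (h.compl _ hq) _ (h.compl _ hr))
  have h2 : 1 - (1 - q) * (1 - r) = q + r - q * r := by noncomm_ring
  rwa [h2, h0, sub_zero] at h1

theorem BCl.commute {S : Set (H →L[ℂ] H)} {x : H →L[ℂ] H} (hx : ∀ q ∈ S, x * q = q * x)
    {q : H →L[ℂ] H} (hq : BCl S q) : x * q = q * x := by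
  induction hq with
  | base q hq => exact hx q hq
  | one => simp
  | mul q r _ _ h1 h2 => exact Commute.mul_right h1 h2
  | compl q _ h1 => exact (Commute.one_right x).sub_right h1

theorem BCl.mem {S : Set (H →L[ℂ] H)} (hS : ∀ q ∈ S, q ∈ M) {q : H →L[ℂ] H} (hq : BCl S q) :
    q ∈ M := by
  induction hq with
  | base q hq => exact hS q hq
  | one => exact one_mem _
  | mul q r _ _ h1 h2 => exact mul_mem h1 h2
  | compl q _ h1 => exact sub_mem (one_mem _) h1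

theorem BCl.mono {S S' : Set (H →L[ℂ] H)} (h : S ⊆ S') {q : H →L[ℂ] H} (hq : BCl S q) :
    BCl S' q := by
  induction hq with
  | base q hq => exact BCl.base q (h hq)
  | one => exact BCl.one
  | mul q r _ _ h1 h2 => exact BCl.mul q r h1 h2
  | compl q _ h1 => exact BCl.compl q h1

theorem boolFam_BCl {S : Set (H →L[ℂ] H)} (hp : ∀ q ∈ S, IsStarProjection q)
    (hc : ∀ q ∈ S, ∀ r ∈ S, q * r = r * q) : BoolFam {q | BCl S q} := by
  have hcomm : ∀ q, BCl S q → ∀ r, BCl S r → q * r = r * q := fun q hq r hr =>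
    BCl.commute (fun s hs => (BCl.commute (hc s hs) hq).symm) hr
  refine ⟨fun q hq => ?_, hcomm, BCl.one, fun q hq r hr => BCl.mul q r hq hr,
    fun q hq => BCl.compl q hq⟩
  have hq' : BCl S q := hq
  clear hq
  induction hq' with
  | base q hq => exact hp q hq
  | one => exact IsStarProjection.one _
  | mul q r hq hr h1 h2 => exact h1.mul h2 (hcomm q hq r hr)
  | compl q _ h1 => exact h1.one_sub

theorem BCl.cm_eq_zero {J : H ≃ₗᵢ⋆[ℂ] H} (hJ : StdJ M J) {S : Set (H →L[ℂ] H)}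
    (hS : ∀ q ∈ S, q ∈ M) {η : H} (hη : ∀ q ∈ S, cm J q η = 0) {q : H →L[ℂ] H} (hq : BCl S q) :
    cm J q η = 0 := by
  induction hq with
  | base q hq => exact hη q hq
  | one => exact cm_one hJ.invol η
  | mul q r hq hr h1 h2 => rw [cm_mul hJ (hq.mem hS) (hr.mem hS), h1, h2, map_zero, map_zero, add_zero]
  | compl q _ h1 => rw [cm_sub, cm_one hJ.invol, h1, sub_self]

theorem Maxl.proj {𝔅 : Set (H →L[ℂ] H)} (hB : BoolFam 𝔅) (hM : ∀ q ∈ 𝔅, q ∈ M) {ζ : H}
    (h : Maxl M 𝔅 ζ) {q : H →L[ℂ] H} (hq : q ∈ 𝔅) : Maxl M 𝔅 (q ζ) := by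
  intro T hT hsa hc h0
  have hp := hB.proj q hq
  have hTq : Commute T q := hc q hq
  refine h (T * q) (mul_mem hT (hM q hq)) ((hsa.commute_iff hp.isSelfAdjoint).1 hTq)
    (fun r hr => Commute.mul_left (hc r hr) (hB.comm q hq r hr)) fun r hr => ?_
  have h1 := h0 r hr
  rw [← inner_star_right, hp.isSelfAdjoint.star_eq] at h1
  have h2 : q * (T * (r * q)) = T * q * r := by
    rw [← hB.comm q hq r hr, ← mul_assoc, ← hTq.eq, mul_assoc, ← mul_assoc q,
      hp.isIdempotentElem.eq, mul_assoc]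
  have h3 := congrArg (fun X : H →L[ℂ] H => ⟪ζ, X ζ⟫_ℂ) h2
  exact h3.symm.trans h1

theorem proj_good_cent {J : H ≃ₗᵢ⋆[ℂ] H} (hJ : StdJ M J) {𝔅₁ 𝔅₂ : Set (H →L[ℂ] H)} {η₁ η₂ : H}
    {f₁ f₂ : H →L[ℂ] H} (h₁ : Good M J 𝔅₁ η₁) (h₂ : Good M J 𝔅₂ η₂) (hf₁ : f₁ ∈ 𝔅₁)
    (hf₂ : f₂ ∈ 𝔅₂) (e₂ : f₂ η₂ = η₂) (h0 : f₁ * f₂ = 0) (h0' : f₂ * f₁ = 0)
    {q : H →L[ℂ] H} (hq : q ∈ 𝔅₁) : cm J (q * f₁) (η₁ + η₂) = 0 := by
  rw [cm_add_vec, h₁.cent _ (h₁.bool.mul q hq f₁ hf₁), zero_add]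
  have h1 : rm J f₂ η₂ = η₂ := by
    have := h₂.cent f₂ hf₂
    unfold cm at this
    rw [e₂, sub_eq_zero] at this
    exact this.symm
  have h2 : (q * f₁) η₂ = 0 := by
    rw [← e₂, ← mul_apply_eq_comp, mul_assoc, h0, mul_zero]
    rfl
  have h3 : rm J (q * f₁) η₂ = 0 := by
    rw [← h1, ← mul_apply_eq_comp, ← rm_mul hJ.invol, h₁.bool.comm q hq f₁ hf₁, ← mul_assoc, h0',
      zero_mul, rm_zero]
    rfl
  unfold cm
  rw [h2, h3, sub_self]

theorem proj_good_max {J : H ≃ₗᵢ⋆[ℂ] H} {𝔅₁ : Set (H →L[ℂ] H)} {η₁ η₂ : H}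
    {f₁ : H →L[ℂ] H} (h₁ : Good M J 𝔅₁ η₁) (hf₁ : f₁ ∈ 𝔅₁) (e₁ : f₁ η₁ = η₁) (e₂ : f₁ η₂ = 0)
    {T : H →L[ℂ] H} (hT : T ∈ M) (hsa : IsSelfAdjoint T)
    (hc : ∀ q ∈ 𝔅₁, T * (q * f₁) = q * f₁ * T)
    (h0 : ∀ q ∈ 𝔅₁, ⟪η₁ + η₂, T ((q * f₁) (η₁ + η₂))⟫_ℂ = 0) : T η₁ = 0 := by
  have hp := h₁.bool.proj f₁ hf₁
  have hTf : Commute T f₁ := by
    have := hc 1 h₁.bool.one
    rwa [one_mul] at this
  have h1 := h₁.maxl (T * f₁) (mul_mem hT (h₁.mem f₁ hf₁))
    ((hsa.commute_iff hp.isSelfAdjoint).1 hTf) (fun q hq => by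
      rw [mul_assoc, ← h₁.bool.comm q hq f₁ hf₁, hc q hq, mul_assoc, hTf.eq]) fun q hq => by
      have h2 := h0 q hq
      have h3 : (q * f₁) (η₁ + η₂) = f₁ (q η₁) := by
        rw [mul_apply_eq_comp, map_add, e₂, add_zero, ← mul_apply_eq_comp,
          h₁.bool.comm q hq f₁ hf₁, mul_apply_eq_comp]
      have h4 : ⟪η₂, T (f₁ (q η₁))⟫_ℂ = 0 := by
        rw [← mul_apply_eq_comp T, hTf.eq, mul_apply_eq_comp, ← inner_star_left,
          hp.isSelfAdjoint.star_eq, e₂, inner_zero_left]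
      rw [h3, inner_add_left, h4, add_zero] at h2
      exact h2
  rwa [mul_apply_eq_comp, e₁] at h1

/-- gluing two blocks -/
theorem good_add {J : H ≃ₗᵢ⋆[ℂ] H} (hJ : StdJ M J) {𝔅₁ 𝔅₂ : Set (H →L[ℂ] H)} {η₁ η₂ : H}
    {f₁ f₂ : H →L[ℂ] H} (h₁ : Good M J 𝔅₁ η₁) (h₂ : Good M J 𝔅₂ η₂) (hf₁ : f₁ ∈ 𝔅₁)
    (hf₂ : f₂ ∈ 𝔅₂) (e₁ : f₁ η₁ = η₁) (e₂ : f₂ η₂ = η₂) (h0 : f₁ * f₂ = 0) :
    ∃ 𝔅 : Set (H →L[ℂ] H), Good M J 𝔅 (η₁ + η₂) ∧ f₁ + f₂ ∈ 𝔅 := by
  have hp₁ := h₁.bool.proj f₁ hf₁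
  have hp₂ := h₂.bool.proj f₂ hf₂
  have h0' : f₂ * f₁ = 0 := by
    have := congrArg star h0
    rwa [star_mul, hp₁.isSelfAdjoint.star_eq, hp₂.isSelfAdjoint.star_eq, star_zero] at this
  have z₁ : f₁ η₂ = 0 := by rw [← e₂, ← mul_apply_eq_comp, h0]; rfl
  have z₂ : f₂ η₁ = 0 := by rw [← e₁, ← mul_apply_eq_comp, h0']; rfl
  let S : Set (H →L[ℂ] H) := {x | (∃ q ∈ 𝔅₁, x = q * f₁) ∨ ∃ q ∈ 𝔅₂, x = q * f₂}
  have hx : ∀ q ∈ 𝔅₁, ∀ r ∈ 𝔅₂, q * f₁ * (r * f₂) = r * f₂ * (q * f₁) := by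
    intro q hq r hr
    have a1 : q * f₁ * (r * f₂) = 0 := by
      rw [h₂.bool.comm r hr f₂ hf₂, mul_assoc, ← mul_assoc f₁, h0, zero_mul, mul_zero]
    have a2 : r * f₂ * (q * f₁) = 0 := by
      rw [h₁.bool.comm q hq f₁ hf₁, mul_assoc, ← mul_assoc f₂, h0', zero_mul, mul_zero]
    rw [a1, a2]
  have hSM : ∀ q ∈ S, q ∈ M := by
    rintro _ (⟨q, hq, rfl⟩ | ⟨q, hq, rfl⟩)
    · exact h₁.mem _ (h₁.bool.mul q hq f₁ hf₁)
    · exact h₂.mem _ (h₂.bool.mul q hq f₂ hf₂)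
  have hB : BoolFam {q | BCl S q} := by
    refine boolFam_BCl ?_ ?_
    · rintro _ (⟨q, hq, rfl⟩ | ⟨q, hq, rfl⟩)
      · exact h₁.bool.proj _ (h₁.bool.mul q hq f₁ hf₁)
      · exact h₂.bool.proj _ (h₂.bool.mul q hq f₂ hf₂)
    · rintro _ (⟨q, hq, rfl⟩ | ⟨q, hq, rfl⟩) _ (⟨r, hr, rfl⟩ | ⟨r, hr, rfl⟩)
      · exact h₁.bool.comm _ (h₁.bool.mul q hq f₁ hf₁) _ (h₁.bool.mul r hr f₁ hf₁)
      · exact hx q hq r hr
      · exact (hx r hr q hq).symm
      · exact h₂.bool.comm _ (h₂.bool.mul q hq f₂ hf₂) _ (h₂.bool.mul r hr f₂ hf₂)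
  refine ⟨{q | BCl S q}, ⟨hB, fun q hq => BCl.mem hSM hq,
    fun q hq => BCl.cm_eq_zero hJ hSM ?_ hq, fun T hT hsa hc hz => ?_⟩, ?_⟩
  · rintro _ (⟨q, hq, rfl⟩ | ⟨q, hq, rfl⟩)
    · exact proj_good_cent hJ h₁ h₂ hf₁ hf₂ e₂ h0 h0' hq
    · rw [add_comm]
      exact proj_good_cent hJ h₂ h₁ hf₂ hf₁ e₁ h0' h0 hq
  · have t₁ : T η₁ = 0 := proj_good_max h₁ hf₁ e₁ z₁ hT hsa
      (fun q hq => hc _ (BCl.base _ (Or.inl ⟨q, hq, rfl⟩)))
      fun q hq => hz _ (BCl.base _ (Or.inl ⟨q, hq, rfl⟩))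
    have t₂ : T η₂ = 0 := proj_good_max h₂ hf₂ e₂ z₂ hT hsa
      (fun q hq => hc _ (BCl.base _ (Or.inr ⟨q, hq, rfl⟩)))
      fun q hq => by
        rw [add_comm]
        exact hz _ (BCl.base _ (Or.inr ⟨q, hq, rfl⟩))
    rw [map_add, t₁, t₂, add_zero]
  · exact hB.add_mem (BCl.base _ (Or.inl ⟨1, h₁.bool.one, (one_mul _).symm⟩))
      (BCl.base _ (Or.inr ⟨1, h₂.bool.one, (one_mul _).symm⟩)) h0

/-- Schroeder-Bernstein for a projection dominating the range of an isometry -/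
theorem exists_isometry_range {e w : H →L[ℂ] H} (he : e ∈ M) (hp : IsStarProjection e)
    (hw : w ∈ M) (h1 : star w * w = 1) (hew : e * w = w) :
    ∃ v ∈ M, star v * v = 1 ∧ v * star v = e := by
  have hwe : star w * e = star w := by
    have := congrArg star hew
    rwa [star_mul, hp.isSelfAdjoint.star_eq] at this
  obtain ⟨p, hpd⟩ : ∃ p, p = e - w * star w := ⟨_, rfl⟩
  have hpM : p ∈ M := hpd ▸ sub_mem he (mul_mem hw (star_mem hw))
  have hwp : star w * p = 0 := by rw [hpd, mul_sub, hwe, ← mul_assoc, h1, one_mul, sub_self]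
  have hep : e * p = p := by rw [hpd, mul_sub, hp.isIdempotentElem.eq, ← mul_assoc, hew]
  obtain ⟨q, hq, h2, -, -, h5, h6⟩ := exists_proj_span {η : H | ∃ (n : ℕ) (γ : H), η = (w ^ n * p) γ}
  have hc : ∀ g ∈ M.commutant, ∀ η ∈ {η : H | ∃ (n : ℕ) (γ : H), η = (w ^ n * p) γ},
      q (g η) = g η := by
    rintro g hg _ ⟨n, γ, rfl⟩
    rw [← commute_apply (mul_mem (pow_mem hw n) hpM) hg]
    exact h2 _ ⟨n, _, rfl⟩
  have hqM : q ∈ M := mem_of_commute fun g hg => h6 g (hc g hg) (hc _ (star_mem hg))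
  have hwq : w * q = q * w := by
    refine h6 w ?_ ?_
    · rintro _ ⟨n, γ, rfl⟩
      refine h2 _ ⟨n + 1, γ, ?_⟩
      rw [pow_succ', mul_assoc]
      rfl
    · rintro _ ⟨n, γ, rfl⟩
      rw [← mul_apply_eq_comp (star w)]
      cases n with
      | zero => rw [pow_zero, one_mul, hwp]; simp
      | succ n =>
        rw [pow_succ', mul_assoc, ← mul_assoc (star w), h1, one_mul]
        exact h2 _ ⟨n, γ, rfl⟩
  have hqs : star q = q := hq.isSelfAdjoint.star_eq
  have hqq : q * q = q := hq.isIdempotentElem.eq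
  have hqw : star w * q = q * star w := by
    have := congrArg star hwq
    rw [star_mul, star_mul, hqs] at this
    exact this.symm
  have hqp : q * p = p := by
    ext γ
    exact h2 _ ⟨0, γ, by rw [pow_zero, one_mul]; rfl⟩
  have heq : e * q = q := by
    rw [h5 e 1, one_mul]
    rintro _ ⟨n, γ, rfl⟩
    rw [← mul_apply_eq_comp e]
    cases n with
    | zero => rw [pow_zero, one_mul, hep]; rfl
    | succ n => rw [pow_succ', mul_assoc, ← mul_assoc e, hew]; rfl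
  have hqe : q * e = q := by
    have := congrArg star heq
    rwa [star_mul, hqs, hp.isSelfAdjoint.star_eq] at this
  have hk : q * (w * star w) = q - e + w * star w := by
    rw [hpd, mul_sub, hqe] at hqp
    rw [← sub_sub_cancel q (q * (w * star w)), hqp]
    abel
  have g1 : q * (1 - q) = 0 := hq.mul_one_sub_self
  have g2 : (1 - q) * q = 0 := hq.one_sub_mul_self
  have g3 : (1 - q) * (1 - q) = 1 - q := hq.one_sub.isIdempotentElem.eq
  have hst : star (q + w * (1 - q)) = q + (1 - q) * star w := by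
    rw [star_add, star_mul, hqs, hq.one_sub.isSelfAdjoint.star_eq]
  refine ⟨q + w * (1 - q), add_mem hqM (mul_mem hw (sub_mem (one_mem _) hqM)), ?_, ?_⟩
  · rw [hst]
    calc (q + (1 - q) * star w) * (q + w * (1 - q))
        = q * q + q * w * (1 - q) + (1 - q) * (star w * q) + (1 - q) * (star w * w) * (1 - q) := by
          noncomm_ring
      _ = 1 := by
          rw [hqq, ← hwq, hqw, h1, mul_one, g3, mul_assoc, g1, ← mul_assoc, g2]
          simp
  · rw [hst]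
    calc (q + w * (1 - q)) * (q + (1 - q) * star w)
        = q * q + q * (1 - q) * star w + w * ((1 - q) * q) + w * ((1 - q) * (1 - q)) * star w := by
          noncomm_ring
      _ = q + (w * star w - w * q * star w) := by
          rw [hqq, g1, g2, g3]
          noncomm_ring
      _ = e := by
          rw [hwq, mul_assoc, hk]
          abel

end Pool.Agent.P.MP_5d580a_an
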