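import Pool.Agent.P.MP_5d580a_an.CalcEx
import Pool.Agent.P.MP_5d580a_an.Proj
import Pool.Agent.P.MP_5d580a_an.CalcSaAux1

open scoped ComplexOrder InnerProductSpace ComplexConjugate BoundedContinuousFunction
open MeasureTheory Filter Topology

set_option linter.unusedSectionVars false
set_option linter.unusedVariables false

noncomputable section

namespace Pool.Agent.P.MP_5d580a_an

variable {H : Type} [NormedAddCommGroup H] [InnerProductSpace ℂ H] [CompleteSpace H]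

variable {M : VonNeumannAlgebra H} {E : SpecCalc ℝ H} {h : H →L[ℂ] H}

open CalcSaAux

theorem IsCalcOf.sa (hE : IsCalcOf E h) : IsSelfAdjoint h := by
  have := E.isSelfAdjoint (bm_cl (norm_nonneg h))
  rwa [phi_cl hE] at this

theorem IsCalcOf.commute (hE : IsCalcOf E h) {S : H →L[ℂ] H} (hS : S * h = h * S) {f : ℝ → ℂ}
    (hf : BM f) : S * E.Φ f = E.Φ f * S := by
  ext ξ
  exact hE.intertwine hE S (fun ξ => by simpa using congrArg (fun T : H →L[ℂ] H => T ξ) hS) f hf ξ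

theorem IsCalcOf.mem (hE : IsCalcOf E h) (hh : h ∈ M) {f : ℝ → ℂ} (hf : BM f) : E.Φ f ∈ M :=
  mem_of_commute fun y hy => hE.commute (commute_of_mem hh hy).symm hf

theorem IsCalcOf.mul_id (hE : IsCalcOf E h) {f g : ℝ → ℂ} (hf : BM f) (hg : BM g)
    (hfg : ∀ t ∈ Set.Icc (-‖h‖) ‖h‖, g t = t * f t) : E.Φ g = h * E.Φ f := by
  have e := E.mul _ _ (bm_cl (norm_nonneg h)) hf
  rw [phi_cl hE] at e
  rw [← e]
  refine phi_congr E hg ((bm_cl (norm_nonneg h)).mul hf) fun ξ => ?_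
  filter_upwards [ae_mem hE ξ] with t ht
  rw [hfg t ht, cl_eq ht]

theorem IsCalcOf.congr (hE : IsCalcOf E h) {f g : ℝ → ℂ} (hf : BM f) (hg : BM g)
    (hfg : ∀ t ∈ Set.Icc (-‖h‖) ‖h‖, f t = g t) : E.Φ f = E.Φ g := by
  refine phi_congr E hf hg fun ξ => ?_
  filter_upwards [ae_mem hE ξ] with t ht using hfg t ht

theorem IsCalcOf.null_Iio (hE : IsCalcOf E h) {c : ℝ} (hc : (c : ℂ) • (1 : H →L[ℂ] H) ≤ h) (ξ : H) :
    E.μ ξ (Set.Iio c) = 0 := by
  have h0 : 0 ≤ E.Φ (fun t => ((cl ‖h‖ t - c : ℝ) : ℂ)) := by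
    rw [phi_cl_sub hE]; exact sub_nonneg.2 hc
  rw [measure_eq_zero_iff_ae_notMem]
  filter_upwards [ae_nonneg E (bm_cl_sub _ (norm_nonneg h) c) h0 ξ, ae_mem hE ξ] with t h1 h2
  rw [cl_eq h2] at h1
  simp only [Set.mem_Iio, not_lt]
  linarith

theorem IsCalcOf.null_Ioi (hE : IsCalcOf E h) {c : ℝ} (hc : h ≤ (c : ℂ) • (1 : H →L[ℂ] H)) (ξ : H) :
    E.μ ξ (Set.Ioi c) = 0 := by
  have b : BM fun t => ((c - cl ‖h‖ t : ℝ) : ℂ) := by
    simpa using (BM.const (c : ℂ)).sub (bm_cl (norm_nonneg h))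
  have e : E.Φ (fun t => ((c - cl ‖h‖ t : ℝ) : ℂ)) = (c : ℂ) • (1 : H →L[ℂ] H) - h := by
    have := E.map_sub (BM.const (c : ℂ)) (bm_cl (norm_nonneg h))
    rw [phi_cl hE, E.map_const] at this
    rw [← this]
    congr 1; ext t; push_cast; rfl
  have h0 : 0 ≤ E.Φ (fun t => ((c - cl ‖h‖ t : ℝ) : ℂ)) := by
    rw [e]; exact sub_nonneg.2 hc
  rw [measure_eq_zero_iff_ae_notMem]
  filter_upwards [ae_nonneg E b h0 ξ, ae_mem hE ξ] with t h1 h2
  rw [cl_eq h2] at h1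
  simp only [Set.mem_Ioi, not_lt]
  linarith

theorem IsCalcOf.null_singleton (hE : IsCalcOf E h) {c : ℝ}
    (hc : ∀ ξ, h ξ = (c : ℂ) • ξ → ξ = 0) (ξ : H) : E.μ ξ {c} = 0 := by
  have hs : MeasurableSet ({c} : Set ℝ) := measurableSet_singleton c
  rw [← E.Pr_eq_zero_iff hs]
  apply hc
  have e := phi_cl_sub_Pr hE c hs
  have z : E.Φ (fun t => ((cl ‖h‖ t - c : ℝ) : ℂ) *
      ({c} : Set ℝ).indicator (fun _ => (1 : ℂ)) t) ξ = 0 := by
    rw [E.apply_eq_zero_iff ((bm_cl_sub _ (norm_nonneg h) c).mul (BM.indicator_one hs))]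
    filter_upwards [ae_mem hE ξ] with t ht
    rw [cl_eq ht]
    by_cases htc : t = c <;> simp [htc]
  rw [← e] at z
  simpa [sub_eq_zero] using z

theorem IsCalcOf.eigen (hE : IsCalcOf E h) {c : ℝ} {ξ : H} (hc : h ξ = (c : ℂ) • ξ) :
    E.μ ξ {c}ᶜ = 0 := by
  have z : E.Φ (fun t => ((cl ‖h‖ t - c : ℝ) : ℂ)) ξ = 0 := by
    rw [phi_cl_sub hE]; simp [hc]
  rw [E.apply_eq_zero_iff (bm_cl_sub _ (norm_nonneg h) c)] at z
  rw [measure_eq_zero_iff_ae_notMem]
  filter_upwards [z, ae_mem hE ξ] with t h1 h2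
  rw [cl_eq h2] at h1
  have : t - c = 0 := by exact_mod_cast h1
  simp [sub_eq_zero.1 this]

theorem IsCalcOf.norm_sub_mul_Pr (hE : IsCalcOf E h) {s : Set ℝ} (hs : MeasurableSet s) {c ε : ℝ}
    (hε : 0 ≤ ε) (hc : ∀ t ∈ s, |t - c| ≤ ε) :
    ‖(h - (c : ℂ) • (1 : H →L[ℂ] H)) * E.Pr s‖ ≤ ε := by
  rw [phi_cl_sub_Pr hE c hs]
  refine E.norm_le ((bm_cl_sub _ (norm_nonneg h) c).mul (BM.indicator_one hs)) hε fun ξ => ?_
  filter_upwards [ae_mem hE ξ] with t ht
  rw [cl_eq ht]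
  by_cases hts : t ∈ s
  · rw [Set.indicator_of_mem hts, mul_one, Complex.norm_real]
    exact hc t hts
  · simp [hts, hε]

theorem IsCalcOf.le_mul_Pr (hE : IsCalcOf E h) {s : Set ℝ} (hs : MeasurableSet s) {c : ℝ}
    (hc : ∀ t ∈ s, c ≤ t) : (c : ℂ) • E.Pr s ≤ h * E.Pr s := by
  have e := phi_cl_sub_Pr hE c hs
  rw [sub_mul, smul_mul_assoc, one_mul] at e
  rw [← sub_nonneg, e]
  refine E.nonneg ((bm_cl_sub _ (norm_nonneg h) c).mul (BM.indicator_one hs)) fun ξ => ?_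
  filter_upwards [ae_mem hE ξ] with t ht
  rw [cl_eq ht]
  by_cases hts : t ∈ s
  · rw [Set.indicator_of_mem hts, mul_one]
    exact_mod_cast sub_nonneg.2 (hc t hts)
  · simp [hts]

theorem IsCalcOf.mul_Pr_le (hE : IsCalcOf E h) {s : Set ℝ} (hs : MeasurableSet s) {c : ℝ}
    (hc : ∀ t ∈ s, t ≤ c) : h * E.Pr s ≤ (c : ℂ) • E.Pr s := by
  have e := phi_cl_sub_Pr hE c hs
  rw [sub_mul, smul_mul_assoc, one_mul] at e
  have b := (bm_cl_sub _ (norm_nonneg h) c).mul (BM.indicator_one hs)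
  have e2 := E.map_smul (-1) b
  rw [← e, neg_one_smul, neg_sub] at e2
  rw [← sub_nonneg, ← e2]
  refine E.nonneg ((BM.const _).mul b) fun ξ => ?_
  filter_upwards [ae_mem hE ξ] with t ht
  rw [cl_eq ht]
  by_cases hts : t ∈ s
  · rw [Set.indicator_of_mem hts, mul_one, neg_one_mul, ← Complex.ofReal_neg]
    exact_mod_cast (by linarith [hc t hts] : (0 : ℝ) ≤ -(t - c))
  · simp [hts]

theorem IsCalcOf.affine (hE : IsCalcOf E h) (c d : ℝ) :
    ∃ E' : SpecCalc ℝ H, IsCalcOf E' ((c : ℂ) • (1 : H →L[ℂ] H) + (d : ℂ) • h) ∧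
      ∀ f, E'.Φ f = E.Φ fun t => f (c + d * t) := by
  have b0 := (BM.const (d : ℂ)).mul (bm_cl (norm_nonneg h))
  have b : BM fun t => ((c + d * cl ‖h‖ t : ℝ) : ℂ) := by
    simpa using (BM.const (c : ℂ)).add b0
  have e : E.Φ (fun t => ((c + d * cl ‖h‖ t : ℝ) : ℂ)) =
      (c : ℂ) • (1 : H →L[ℂ] H) + (d : ℂ) • h := by
    have := E.map_add (BM.const (c : ℂ)) b0
    rw [E.map_const, E.map_smul _ (bm_cl (norm_nonneg h)), phi_cl hE] at this
    rw [← this]
    congr 1; ext t; push_cast; rfl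
  obtain ⟨E', h1, h2⟩ := isCalcOf_map E (g := fun t => c + d * t) (by fun_prop) b (fun ξ => by
    filter_upwards [ae_mem hE ξ] with t ht
    rw [cl_eq ht])
  rw [e] at h1
  exact ⟨E', h1, h2⟩

theorem IsCalcOf.conjJ (hE : IsCalcOf E h) {J : H ≃ₗᵢ⋆[ℂ] H} (hJ : ∀ ξ, J (J ξ) = ξ) :
    ∃ E' : SpecCalc ℝ H, IsCalcOf E' (rm J h) ∧ ∀ f, E'.Φ f = rm J (E.Φ f) := by
  obtain ⟨E', h1, h2⟩ := E.exists_conj hJ
  refine ⟨E', ⟨fun ξ => ?_, fun f hf hid => ?_⟩, h1⟩
  · rw [h2, norm_rm]; exact hE.1 _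
  · rw [norm_rm] at hid
    rw [h1, hE.2 f hf hid]

/-- joint spectral measure of left and right multiplication by `h` -/
theorem joint_measure {J : H ≃ₗᵢ⋆[ℂ] H} (hJ : StdJ M J) (hh : h ∈ M) (hE : IsCalcOf E h) (Ω : H) :
    ∃ m : Measure (ℝ × ℝ), IsFiniteMeasure m ∧ m.real Set.univ = ‖Ω‖ ^ 2 ∧
      m (Set.Icc (-‖h‖) ‖h‖ ×ˢ Set.Icc (-‖h‖) ‖h‖)ᶜ = 0 ∧
      ∀ F G : ℝ → ℂ, BM F → BM G →
        ‖E.Φ F Ω - rm J (E.Φ G) Ω‖ ^ 2 = ∫ p, ‖F p.1 - G p.2‖ ^ 2 ∂m := by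
  obtain ⟨E₂, s₂, a₂, b₂⟩ := exists_calc_joint hE.sa (rm_sa hJ.invol hE.sa) (hJ.comm hh hh)
  obtain ⟨E₁, p₁, q₁⟩ := E₂.exists_map (measurable_fst : Measurable (Prod.fst : ℝ × ℝ → ℝ))
  obtain ⟨E₃, p₃, q₃⟩ := E₂.exists_map (measurable_snd : Measurable (Prod.snd : ℝ × ℝ → ℝ))
  obtain ⟨E', c', d'⟩ := hE.conjJ hJ.invol
  have c₁ : IsCalcOf E₁ h := by
    refine ⟨fun ξ => ?_, fun f hf hid => ?_⟩
    · rw [q₁, Measure.map_apply measurable_fst measurableSet_Icc.compl]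
      refine measure_mono_null ?_ (s₂ ξ)
      exact fun p hp hp' => hp hp'.1
    · rw [p₁, a₂ f hf hid]
  have c₃ : IsCalcOf E₃ (rm J h) := by
    refine ⟨fun ξ => ?_, fun f hf hid => ?_⟩
    · rw [q₃, Measure.map_apply measurable_snd measurableSet_Icc.compl]
      refine measure_mono_null ?_ (s₂ ξ)
      exact fun p hp hp' => hp hp'.2
    · rw [p₃, b₂ f hf hid]
  refine ⟨E₂.μ Ω, E₂.fin Ω, E₂.mass Ω, ?_, fun F G hF hG => ?_⟩
  · have := s₂ Ω
    rwa [norm_rm] at this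
  · have bF : BM fun p : ℝ × ℝ => F p.1 := hF.comp measurable_fst
    have bG : BM fun p : ℝ × ℝ => G p.2 := hG.comp measurable_snd
    rw [← E₂.norm_sq (bF.sub bG), E₂.map_sub bF bG, ← p₁, ← p₃, calc_unique c₁ hE hF,
      calc_unique c₃ c' hG, d']
    rfl

theorem approx_by_proj {y : H →L[ℂ] H} (hy : IsSelfAdjoint y) {ε : ℝ} (hε : 0 < ε) :
    ∃ (n : ℕ) (t : Fin n → ℝ) (P : Fin n → (H →L[ℂ] H)),
      (∀ k, IsStarProjection (P k) ∧ ∀ S : H →L[ℂ] H, S * y = y * S → S * P k = P k * S) ∧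
      ‖y - ∑ k, (t k : ℂ) • P k‖ ≤ ε := by
  obtain ⟨E, hE⟩ := exists_calc_sa hy
  obtain ⟨n, t, s, hs, -, -, h3⟩ := exists_grid hE hε
  exact ⟨n, t, fun k => E.Pr (s k), fun k => ⟨E.Pr_proj (hs k),
    fun S hS => hE.commute hS (BM.indicator_one (hs k))⟩, h3⟩

/-- a selfadjoint operator that is not a scalar has two separated spectral projections -/
theorem calcSa_sep_proj {y : H →L[ℂ] H} (hy : IsSelfAdjoint y)
    (hne : ∀ t : ℝ, y ≠ (t : ℂ) • (1 : H →L[ℂ] H)) :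
    ∃ (a b : ℝ) (p q : H →L[ℂ] H), a < b ∧ IsStarProjection p ∧ IsStarProjection q ∧ p ≠ 0 ∧
      q ≠ 0 ∧ y * p ≤ (a : ℂ) • p ∧ (b : ℂ) • q ≤ y * q ∧
      ∀ S : H →L[ℂ] H, S * y = y * S → S * p = p * S ∧ S * q = q * S := by
  obtain ⟨E, hE⟩ := exists_calc_sa hy
  have key : ∃ a b : ℝ, a < b ∧ E.Pr (Set.Iic a) ≠ 0 ∧ E.Pr (Set.Ici b) ≠ 0 := by
    by_contra hcon
    push Not at hcon
    set A : Set ℝ := {a | E.Pr (Set.Iic a) ≠ 0} with hA
    have null : ∀ {s : Set ℝ}, MeasurableSet s → E.Pr s = 0 → ∀ ξ, ∀ᵐ u ∂(E.μ ξ), u ∉ s := by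
      intro s hs h0 ξ
      rw [← measure_eq_zero_iff_ae_notMem, ← E.Pr_eq_zero_iff hs, h0]
      rfl
    have hAne : A.Nonempty := by
      refine ⟨‖y‖, fun h0 => hne 0 ?_⟩
      ext ξ
      have h1 : E.Pr (Set.Iic ‖y‖) (y ξ) = y ξ := by
        rw [E.Pr_eq_self_iff measurableSet_Iic, measure_eq_zero_iff_ae_notMem]
        filter_upwards [ae_mem hE (y ξ)] with u hu
        simpa using hu.2
      rw [h0] at h1
      simpa using h1.symm
    have hAbdd : BddBelow A := by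
      refine ⟨-‖y‖, fun a ha => ?_⟩
      by_contra hlt
      apply ha
      ext ξ
      rw [zero_apply, E.Pr_eq_zero_iff measurableSet_Iic,
        measure_eq_zero_iff_ae_notMem]
      filter_upwards [ae_mem hE ξ] with u hu
      simp only [Set.mem_Iic, not_le] at hlt ⊢
      linarith [hu.1]
    apply hne (sInf A)
    rw [← sub_eq_zero, ← norm_le_zero_iff]
    refine le_of_forall_pos_le_add fun ε hε => ?_
    rw [zero_add, ← phi_cl_sub hE]
    have h1 : E.Pr (Set.Iic (sInf A - ε)) = 0 := by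
      by_contra h1
      have := csInf_le hAbdd (show sInf A - ε ∈ A from h1)
      linarith
    have h2 : E.Pr (Set.Ici (sInf A + ε)) = 0 := by
      obtain ⟨a, ha, hlt⟩ := exists_lt_of_csInf_lt hAne (show sInf A < sInf A + ε by linarith)
      exact hcon a _ hlt ha
    refine E.norm_le (bm_cl_sub _ (norm_nonneg y) _) hε.le fun ξ => ?_
    filter_upwards [ae_mem hE ξ, null measurableSet_Iic h1 ξ, null measurableSet_Ici h2 ξ]
      with u hu hu1 hu2
    rw [cl_eq hu, Complex.norm_real, Real.norm_eq_abs, abs_le]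
    simp only [Set.mem_Iic, Set.mem_Ici, not_le] at hu1 hu2
    constructor <;> linarith
  obtain ⟨a, b, hab, ha, hb⟩ := key
  exact ⟨a, b, E.Pr (Set.Iic a), E.Pr (Set.Ici b), hab, E.Pr_proj measurableSet_Iic,
    E.Pr_proj measurableSet_Ici, ha, hb, hE.mul_Pr_le measurableSet_Iic fun t ht => ht,
    hE.le_mul_Pr measurableSet_Ici fun t ht => ht,
    fun S hS => ⟨hE.commute hS (BM.indicator_one measurableSet_Iic),
      hE.commute hS (BM.indicator_one measurableSet_Ici)⟩⟩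

theorem scalar_of_proj (hM : ∀ p ∈ M, IsStarProjection p → p = 0 ∨ p = 1) {y : H →L[ℂ] H}
    (hy : y ∈ M) (hsa : IsSelfAdjoint y) : ∃ t : ℝ, y = (t : ℂ) • (1 : H →L[ℂ] H) := by
  by_contra hcon
  push Not at hcon
  obtain ⟨a, b, p, q, hab, hp, hq, hp0, hq0, h1, h2, hc⟩ := calcSa_sep_proj hsa hcon
  have hpM : p ∈ M := mem_of_commute fun z hz => (hc z (commute_of_mem hy hz).symm).1
  have hqM : q ∈ M := mem_of_commute fun z hz => (hc z (commute_of_mem hy hz).symm).2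
  have e1 : p = 1 := (hM p hpM hp).resolve_left hp0
  have e2 : q = 1 := (hM q hqM hq).resolve_left hq0
  subst e1 e2
  obtain ⟨ξ, hξ⟩ : ∃ ξ : H, ξ ≠ 0 := by
    by_contra h0
    push Not at h0
    exact hp0 (by ext ξ; simp [h0 ξ])
  have h3 := re_inner_mono (h2.trans h1) ξ
  simp only [smul_apply, one_apply_eq_self, inner_smul_right,
    inner_self_eq_norm_sq_to_K, Complex.coe_algebraMap, ← Complex.ofReal_pow, ← Complex.ofReal_mul,
    Complex.ofReal_re] at h3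
  have : 0 < ‖ξ‖ ^ 2 := by positivity
  nlinarith

/-- a selfadjoint operator that is not a scalar has two separated spectral projections -/
theorem exists_sep_proj {y : H →L[ℂ] H} (hy : IsSelfAdjoint y)
    (hne : ∀ t : ℝ, y ≠ (t : ℂ) • (1 : H →L[ℂ] H)) :
    ∃ (a b : ℝ) (p q : H →L[ℂ] H), a < b ∧ IsStarProjection p ∧ IsStarProjection q ∧ p ≠ 0 ∧
      q ≠ 0 ∧ y * p ≤ (a : ℂ) • p ∧ (b : ℂ) • q ≤ y * q ∧
      ∀ S : H →L[ℂ] H, S * y = y * S → S * p = p * S ∧ S * q = q * S :=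
  calcSa_sep_proj hy hne

theorem calcSa_ae_nonneg (hE : IsCalcOf E h) (h0 : 0 ≤ h) (ξ : H) :
    ∀ᵐ t ∂(E.μ ξ), 0 ≤ t ∧ t ≤ ‖h‖ := by
  have h1 := hE.null_Iio (c := 0) (by simpa using h0) ξ
  rw [measure_eq_zero_iff_ae_notMem] at h1
  filter_upwards [h1, ae_mem hE ξ] with t ht hu
  exact ⟨by simpa using ht, hu.2⟩

/-- cut down polar decomposition `v = x g` -/
theorem exists_cutdown (x : H →L[ℂ] H) {ε : ℝ} (hε : 0 < ε) :
    ∃ g a : H →L[ℂ] H, IsSelfAdjoint g ∧ 0 ≤ a ∧ a * a = star x * x ∧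
      (∀ S : H →L[ℂ] H, S * (star x * x) = star x * x * S → S * g = g * S ∧ S * a = a * S) ∧
      (x * g) * star (x * g) * (x * g) = x * g ∧ ‖x - x * g * a‖ ≤ ε ∧
      ‖star (x * g) * x - a‖ ≤ ε := by
  set T := star x * x with hT
  have hT0 : 0 ≤ T := star_mul_self_nonneg x
  obtain ⟨E, hE⟩ := exists_calc_sa (IsSelfAdjoint.of_nonneg hT0)
  set K := ‖T‖ with hK
  have hK0 : 0 ≤ K := norm_nonneg T
  have hae := calcSa_ae_nonneg hE hT0
  have hcl : ∀ {t : ℝ}, 0 ≤ t ∧ t ≤ K → cl K t = t := fun ht => cl_eq ⟨by linarith [ht.1], ht.2⟩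
  let s : Set ℝ := Set.Ici (ε ^ 2)
  have hs : MeasurableSet s := measurableSet_Ici
  let fa : ℝ → ℝ := fun t => √(cl K t)
  let fg : ℝ → ℝ := s.indicator fun t => (√t)⁻¹
  have hsq : ∀ t ∈ s, ε ≤ √t := fun t ht => Real.le_sqrt_of_sq_le ht
  have ba : BM fun t => (fa t : ℂ) := by
    refine bm_real ((cl_cont K).sqrt.measurable) (√K) fun t => ?_
    rw [abs_of_nonneg (Real.sqrt_nonneg _)]
    exact Real.sqrt_le_sqrt ((le_abs_self _).trans (abs_cl_le hK0 t))
  have bg : BM fun t => (fg t : ℂ) := by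
    refine bm_real (Measurable.indicator (by fun_prop) hs) ε⁻¹ fun t => ?_
    by_cases ht : t ∈ s
    · simp only [fg, Set.indicator_of_mem ht]
      rw [abs_of_nonneg (by positivity)]
      exact inv_anti₀ hε (hsq t ht)
    · simp only [fg, Set.indicator_of_notMem ht, abs_zero]
      positivity
  have bc := bm_cl hK0
  have bP := BM.indicator_one hs
  have bQ := BM.indicator_one hs.compl
  have hTe : E.Φ (fun t => (cl K t : ℂ)) = T := phi_cl hE
  set a := E.Φ fun t => (fa t : ℂ) with ha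
  set g := E.Φ fun t => (fg t : ℂ) with hg
  have hgs : IsSelfAdjoint g := E.isSelfAdjoint bg
  have hga : g * a = E.Pr s := by
    rw [hg, ha, ← E.mul _ _ bg ba]
    refine phi_congr E (bg.mul ba) bP fun ξ => ?_
    filter_upwards [hae ξ] with t ht
    by_cases hts : t ∈ s
    · have : √t ≠ 0 := (hε.trans_le (hsq t hts)).ne'
      simp only [fg, fa, Set.indicator_of_mem hts, hcl ht]
      rw [← Complex.ofReal_mul, inv_mul_cancel₀ this, Complex.ofReal_one]
    · simp [fg, hts]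
  have haa : a * a = T := by
    rw [ha, ← E.mul _ _ ba ba, ← hTe]
    refine phi_congr E (ba.mul ba) bc fun ξ => ?_
    filter_upwards [hae ξ] with t ht
    simp only [fa, hcl ht]
    rw [← Complex.ofReal_mul, Real.mul_self_sqrt ht.1]
  have hag : a * g = E.Pr s := by rw [← hga]; exact E.commute ba bg
  have hgP : g * E.Pr s = g := by
    rw [hg]
    unfold SpecCalc.Pr
    rw [← E.mul _ _ bg bP]
    congr 1
    ext t
    by_cases hts : t ∈ s <;> simp [fg, hts]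
  have hP := E.Pr_proj hs
  have hQ := E.Pr_proj hs.compl
  refine ⟨g, a, hgs, ?_, haa, fun S hS => ⟨hE.commute hS bg, hE.commute hS ba⟩, ?_, ?_, ?_⟩
  · refine E.nonneg ba fun ξ => Eventually.of_forall fun t => ?_
    exact_mod_cast Real.sqrt_nonneg _
  · rw [star_mul, hgs.star_eq]
    calc x * g * (g * star x) * (x * g) = x * (g * ((g * a) * (a * g))) := by
          rw [show g * a * (a * g) = g * (a * a) * g by noncomm_ring, haa, hT]; noncomm_ring
      _ = x * g := by rw [hga, hag, hP.isIdempotentElem.eq, hgP]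
  · have e1 : x - x * g * a = x * E.Pr sᶜ := by
      rw [E.Pr_compl hs, mul_assoc, hga, mul_sub, mul_one]
    have e2 : star (x * E.Pr sᶜ) * (x * E.Pr sᶜ) =
        E.Φ fun t => sᶜ.indicator (fun _ => (1 : ℂ)) t *
          ((cl K t : ℂ) * sᶜ.indicator (fun _ => (1 : ℂ)) t) := by
      rw [E.mul _ _ bQ (bc.mul bQ), E.mul _ _ bc bQ, hTe, star_mul, hQ.isSelfAdjoint.star_eq, hT]
      simp only [mul_assoc]
      rfl
    have e3 : ‖star (x * E.Pr sᶜ) * (x * E.Pr sᶜ)‖ ≤ ε ^ 2 := by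
      rw [e2]
      refine E.norm_le (bQ.mul (bc.mul bQ)) (by positivity) fun ξ => ?_
      filter_upwards [hae ξ] with t ht
      by_cases hts : t ∈ sᶜ
      · rw [Set.indicator_of_mem hts, one_mul, mul_one, hcl ht, Complex.norm_real,
          Real.norm_eq_abs, abs_of_nonneg ht.1]
        exact le_of_lt (not_le.1 hts)
      · simp only [Set.indicator_of_notMem hts, zero_mul, norm_zero]
        positivity
    rw [CStarRing.norm_star_mul_self] at e3
    rw [e1]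
    nlinarith [norm_nonneg (x * E.Pr sᶜ)]
  · have e1 : star (x * g) * x - a = -(E.Pr sᶜ * a) := by
      rw [star_mul, hgs.star_eq, mul_assoc, ← hT, ← haa, ← mul_assoc, hga, E.Pr_compl hs]
      noncomm_ring
    rw [e1, norm_neg, ha]
    unfold SpecCalc.Pr
    rw [← E.mul _ _ bQ ba]
    refine E.norm_le (bQ.mul ba) hε.le fun ξ => ?_
    filter_upwards [hae ξ] with t ht
    by_cases hts : t ∈ sᶜ
    · simp only [fa]
      rw [Set.indicator_of_mem hts, one_mul, hcl ht, Complex.norm_real,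
        Real.norm_eq_abs, abs_of_nonneg (Real.sqrt_nonneg _)]
      exact Real.sqrt_le_iff.2 ⟨hε.le, le_of_lt (not_le.1 hts)⟩
    · simp only [Set.indicator_of_notMem hts, zero_mul, norm_zero]
      exact hε.le

theorem IsFactor.exists_piso (hM : IsFactor M) {p q : H →L[ℂ] H} (hp : p ∈ M) (hq : q ∈ M)
    (hpp : IsStarProjection p) (hqp : IsStarProjection q) (hp0 : p ≠ 0) (hq0 : q ≠ 0) :
    ∃ v ∈ M, v ≠ 0 ∧ v * star v * v = v ∧ p * v = v ∧ v * q = v := by
  obtain ⟨a, ha, -, hne⟩ := hM.exists_ne hp hq hp0 hq0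
  set x := p * a * q with hx
  have hxM : x ∈ M := mul_mem (mul_mem hp ha) hq
  have hpos : 0 < ‖x‖ := norm_pos_iff.2 hne
  obtain ⟨g, b, -, -, -, hc, h1, h2, -⟩ := exists_cutdown x (half_pos hpos)
  have hTM : star x * x ∈ M := mul_mem (star_mem hxM) hxM
  have hgM : g ∈ M := mem_of_commute fun z hz => (hc z (commute_of_mem hTM hz).symm).1
  have hxq : x * q = x := by rw [hx, mul_assoc, hqp.isIdempotentElem.eq]
  have hqx : q * star x = star x := by
    have := congrArg star hxq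
    rwa [star_mul, hqp.isSelfAdjoint.star_eq] at this
  have hpx : p * x = x := by rw [hx, ← mul_assoc, ← mul_assoc, hpp.isIdempotentElem.eq]
  have hqg := (hc q (by rw [← mul_assoc, hqx, mul_assoc, hxq])).1
  refine ⟨x * g, mul_mem hxM hgM, fun h0 => ?_, h1, by rw [← mul_assoc, hpx], ?_⟩
  · rw [h0, zero_mul, sub_zero] at h2
    linarith
  · rw [mul_assoc, ← hqg, ← mul_assoc, hxq]

theorem exists_maxl (M : VonNeumannAlgebra H) :
    ∃ 𝔅 : Set (H →L[ℂ] H), BoolFam 𝔅 ∧ (∀ q ∈ 𝔅, q ∈ M) ∧ ∀ ζ, Maxl M 𝔅 ζ := by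
  let 𝒮 : Set (Set (H →L[ℂ] H)) :=
    {S | (∀ q ∈ S, q ∈ M ∧ IsStarProjection q) ∧ ∀ q ∈ S, ∀ r ∈ S, q * r = r * q}
  obtain ⟨𝔅, h𝔅⟩ := zorn_subset 𝒮 (by
    intro c hc hch
    refine ⟨⋃₀ c, ⟨?_, ?_⟩, fun s hs => Set.subset_sUnion_of_mem hs⟩
    · rintro q ⟨S, hS, hq⟩
      exact (hc hS).1 q hq
    · rintro q ⟨S, hS, hq⟩ r ⟨S', hS', hr⟩
      rcases hch.total hS hS' with h | h
      · exact (hc hS').2 q (h hq) r hr
      · exact (hc hS).2 q hq r (h hr))
  obtain ⟨h1, h2⟩ := h𝔅.prop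
  have hmax : ∀ q ∈ M, IsStarProjection q → (∀ r ∈ 𝔅, r * q = q * r) → q ∈ 𝔅 := by
    intro q hq hp hc
    have hin : insert q 𝔅 ∈ 𝒮 := by
      refine ⟨?_, ?_⟩
      · rintro r (rfl | hr)
        · exact ⟨hq, hp⟩
        · exact h1 r hr
      · rintro r (rfl | hr) r' (rfl | hr')
        · rfl
        · exact (hc r' hr').symm
        · exact hc r hr
        · exact h2 r hr r' hr'
    exact h𝔅.le_of_ge hin (Set.subset_insert _ _) (Set.mem_insert _ _)
  refine ⟨𝔅, ⟨fun q hq => (h1 q hq).2, h2, ?_, ?_, ?_⟩, fun q hq => (h1 q hq).1, ?_⟩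
  · exact hmax 1 (one_mem M) (IsStarProjection.one _) fun r _ => by simp
  · intro q hq r hr
    refine hmax _ (mul_mem (h1 q hq).1 (h1 r hr).1)
      ((h1 q hq).2.mul (h1 r hr).2 (h2 q hq r hr)) fun z hz => ?_
    rw [← mul_assoc, h2 z hz q hq, mul_assoc, h2 z hz r hr, mul_assoc]
  · intro q hq
    refine hmax _ (sub_mem (one_mem M) (h1 q hq).1) (h1 q hq).2.one_sub fun z hz => ?_
    rw [mul_sub, sub_mul, h2 z hz q hq, mul_one, one_mul]
  · intro ζ T hT hsa hc h0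
    rw [← norm_le_zero_iff]
    refine le_of_forall_pos_le_add fun ε hε => ?_
    have hε' : 0 < ε / (‖ζ‖ + 1) := by positivity
    obtain ⟨n, t, P, hP, hn⟩ := approx_by_proj hsa hε'
    have hPB : ∀ k, P k ∈ 𝔅 := fun k =>
      hmax _ (mem_of_commute fun z hz => (hP k).2 z (commute_of_mem hT hz).symm) (hP k).1
        fun r hr => (hP k).2 r (hc r hr).symm
    have e1 : ⟪ζ, T ((∑ k, (t k : ℂ) • P k) ζ)⟫_ℂ = 0 := by
      simp only [sum_apply, smul_apply, map_sum, map_smul,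
        inner_sum, inner_smul_right]
      exact Finset.sum_eq_zero fun k _ => by rw [h0 _ (hPB k), mul_zero]
    have e2 : ⟪T ζ, T ζ⟫_ℂ = ⟪T ζ, (T - ∑ k, (t k : ℂ) • P k) ζ⟫_ℂ := by
      rw [sub_apply, inner_sub_right]
      have : ⟪T ζ, (∑ k, (t k : ℂ) • P k) ζ⟫_ℂ = 0 := by
        rw [← e1, ← inner_star_left T ζ, hsa.star_eq]
      rw [this, sub_zero]
    have e3 : ‖T ζ‖ * ‖T ζ‖ ≤ ‖T ζ‖ * (ε / (‖ζ‖ + 1) * ‖ζ‖) := by
      calc ‖T ζ‖ * ‖T ζ‖ = ‖⟪T ζ, T ζ⟫_ℂ‖ := by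
            rw [inner_self_eq_norm_sq_to_K]; simp [sq]
        _ ≤ ‖T ζ‖ * ‖(T - ∑ k, (t k : ℂ) • P k) ζ‖ := by
            rw [e2]; exact norm_inner_le_norm _ _
        _ ≤ _ := by
            gcongr
            exact (ContinuousLinearMap.le_opNorm _ _).trans (by gcongr)
    have e4 : ε / (‖ζ‖ + 1) * ‖ζ‖ ≤ ε := by
      rw [div_mul_eq_mul_div, div_le_iff₀ (by positivity)]
      nlinarith [norm_nonneg ζ]
    rcases (norm_nonneg (T ζ)).eq_or_lt with h | h
    · linarith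
    · have := le_of_mul_le_mul_left e3 h
      linarith

theorem exists_good_proj {p : H →L[ℂ] H} (hp : p ∈ M) (hpp : IsStarProjection p) (hp0 : p ≠ 0)
    (Z : Finset (H →L[ℂ] H)) (hZ : ∀ z ∈ Z, z ∈ M ∧ IsSelfAdjoint z) {ε : ℝ} (hε : 0 < ε) :
    ∃ f ∈ M, IsStarProjection f ∧ f ≠ 0 ∧ p * f = f ∧
      ∀ z ∈ Z, ∃ s : ℝ, ‖f * z * f - (s : ℂ) • f‖ ≤ ε := by
  classical
  induction Z using Finset.induction_on with
  | empty => exact ⟨p, hp, hpp, hp0, hpp.isIdempotentElem.eq, by simp⟩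
  | insert z Z hz ih =>
    obtain ⟨f, hf, hfp, hf0, hpf, hfZ⟩ := ih fun w hw => hZ w (Finset.mem_insert_of_mem hw)
    obtain ⟨hzM, hzs⟩ := hZ z (Finset.mem_insert_self _ _)
    have hff : f * f = f := hfp.isIdempotentElem.eq
    set y := f * z * f with hy
    have hyM : y ∈ M := mul_mem (mul_mem hf hzM) hf
    have hys : IsSelfAdjoint y := by
      rw [hy, IsSelfAdjoint, star_mul, star_mul, hfp.isSelfAdjoint.star_eq, hzs.star_eq, mul_assoc]
    have hfy : f * y = y := by rw [hy, ← mul_assoc, ← mul_assoc, hff]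
    have hyf : y * f = y := by rw [hy, mul_assoc, hff]
    obtain ⟨E, hE⟩ := exists_calc_sa hys
    obtain ⟨n, t, s, hs, hst, hsum, -⟩ := exists_grid hE hε
    obtain ⟨k, hk⟩ : ∃ k, E.Pr (s k) * f ≠ 0 := by
      by_contra hcon
      push Not at hcon
      apply hf0
      rw [← one_mul f, ← hsum, Finset.sum_mul]
      exact Finset.sum_eq_zero fun k _ => hcon k
    set P := E.Pr (s k) with hPdef
    have hP : IsStarProjection P := E.Pr_proj (hs k)
    have hPP : P * P = P := hP.isIdempotentElem.eq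
    have hPM : P ∈ M := hE.mem hyM (BM.indicator_one (hs k))
    have hfP : f * P = P * f := hE.commute (by rw [hfy, hyf]) (BM.indicator_one (hs k))
    have hyP : y * P = P * y := hE.commute rfl (BM.indicator_one (hs k))
    have nP : ‖P‖ ≤ 1 := hP.norm_le
    have nf : ‖f‖ ≤ 1 := hfp.norm_le
    refine ⟨P * f, mul_mem hPM hf, hP.mul hfp hfP.symm, hk, by rw [← hfP, ← mul_assoc, hpf], ?_⟩
    intro w hw
    rcases Finset.mem_insert.1 hw with rfl | hw
    · refine ⟨t k, ?_⟩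
      have e : P * f * w * (P * f) - (t k : ℂ) • (P * f) =
          (y - (t k : ℂ) • (1 : H →L[ℂ] H)) * P * f := by
        have : P * f * w * (P * f) = y * P * f := by
          calc P * f * w * (P * f) = P * (f * w * f) * P := by
                rw [← hfP]; simp only [mul_assoc, hfP]
            _ = P * y * P := rfl
            _ = y * P := by rw [← hyP, mul_assoc, hPP]
            _ = y * P * f := by rw [mul_assoc y P f, ← hfP, ← mul_assoc y f P, hyf]
        rw [this, sub_mul, sub_mul, smul_mul_assoc, smul_mul_assoc, one_mul]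
      rw [e]
      calc _ ≤ ‖(y - (t k : ℂ) • (1 : H →L[ℂ] H)) * P‖ * ‖f‖ := norm_mul_le _ _
        _ ≤ ε * 1 := by
          gcongr
          exact hE.norm_sub_mul_Pr (hs k) hε.le (hst k)
        _ = ε := mul_one ε
    · obtain ⟨r, hr⟩ := hfZ w hw
      refine ⟨r, ?_⟩
      have e : P * f * w * (P * f) - (r : ℂ) • (P * f) = P * (f * w * f - (r : ℂ) • f) * P := by
        have h1 : P * f * w * (P * f) = P * (f * w * f) * P := by
          rw [← hfP]; simp only [mul_assoc, hfP]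
        have h2 : P * f * P = P * f := by rw [mul_assoc, hfP, ← mul_assoc, hPP]
        rw [h1, mul_sub, sub_mul, mul_smul_comm, smul_mul_assoc, h2]
      rw [e]
      calc _ ≤ ‖P‖ * ‖f * w * f - (r : ℂ) • f‖ * ‖P‖ :=
            (norm_mul_le _ _).trans (by gcongr; exact norm_mul_le _ _)
        _ ≤ 1 * ε * 1 := by gcongr
        _ = ε := by ring

/-- a positive element is faithful on a corner as soon as it is on projections -/
theorem exists_proj_le {T : H →L[ℂ] H} (hT : T ∈ M) (h0 : 0 ≤ T) (hne : T ≠ 0) :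
    ∃ p ∈ M, IsStarProjection p ∧ p ≠ 0 ∧ (∃ c : ℝ, 0 < c ∧ (c : ℂ) • p ≤ T) ∧
      ∃ g ∈ M, p = T * g ∧ p = g * T := by
  obtain ⟨E, hE⟩ := exists_calc_sa (IsSelfAdjoint.of_nonneg h0)
  set K := ‖T‖ with hK
  have hK0 : 0 < K := norm_pos_iff.2 hne
  have hae := calcSa_ae_nonneg hE h0
  have hcl : ∀ {t : ℝ}, 0 ≤ t ∧ t ≤ K → cl K t = t := fun ht => cl_eq ⟨by linarith [ht.1], ht.2⟩
  let s : Set ℝ := Set.Ici (K / 2)
  have hs : MeasurableSet s := measurableSet_Ici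
  have bc := bm_cl hK0.le
  have bP := BM.indicator_one hs
  have hTe : E.Φ (fun t => (cl K t : ℂ)) = T := phi_cl hE
  let fg : ℝ → ℝ := s.indicator fun t => t⁻¹
  have bg : BM fun t => (fg t : ℂ) := by
    refine bm_real (Measurable.indicator (by fun_prop) hs) (K / 2)⁻¹ fun t => ?_
    by_cases ht : t ∈ s
    · simp only [fg, Set.indicator_of_mem ht]
      have : 0 < t := (half_pos hK0).trans_le ht
      rw [abs_of_nonneg (by positivity)]
      exact inv_anti₀ (half_pos hK0) ht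
    · simp only [fg, Set.indicator_of_notMem ht, abs_zero]
      positivity
  have hTg : E.Pr s = T * E.Φ fun t => (fg t : ℂ) := by
    refine hE.mul_id bg bP fun t _ => ?_
    by_cases hts : t ∈ s
    · have : t ≠ 0 := ((half_pos hK0).trans_le hts).ne'
      simp only [fg, Set.indicator_of_mem hts]
      rw [← Complex.ofReal_mul, mul_inv_cancel₀ this, Complex.ofReal_one]
    · simp [fg, hts]
  refine ⟨E.Pr s, hE.mem hT bP, E.Pr_proj hs, fun hP => ?_, ⟨K / 2, half_pos hK0, ?_⟩,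
    E.Φ fun t => (fg t : ℂ), hE.mem hT bg, hTg, by rw [hTg]; exact hE.commute rfl bg⟩
  · have : ‖E.Φ fun t => (cl K t : ℂ)‖ ≤ K / 2 := by
      refine E.norm_le bc (half_pos hK0).le fun ξ => ?_
      have h1 : E.μ ξ s = 0 := by rw [← E.Pr_eq_zero_iff hs, hP]; rfl
      rw [measure_eq_zero_iff_ae_notMem] at h1
      filter_upwards [h1, hae ξ] with t h2 ht
      rw [hcl ht, Complex.norm_real, Real.norm_eq_abs, abs_of_nonneg ht.1]
      exact le_of_lt (not_le.1 h2)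
    rw [hTe] at this
    linarith
  · have b2 := (BM.const ((K / 2 : ℝ) : ℂ)).mul bP
    have e := E.map_sub bc b2
    rw [E.map_smul _ bP, hTe] at e
    rw [← sub_nonneg]
    unfold SpecCalc.Pr
    rw [← e]
    refine E.nonneg (bc.sub b2) fun ξ => ?_
    filter_upwards [hae ξ] with t ht
    rw [hcl ht]
    by_cases hts : t ∈ s
    · rw [Set.indicator_of_mem hts, mul_one, ← Complex.ofReal_sub]
      exact_mod_cast sub_nonneg.2 (show K / 2 ≤ t from hts)
    · rw [Set.indicator_of_notMem hts, mul_zero, sub_zero]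
      exact_mod_cast ht.1

end Pool.Agent.P.MP_5d580a_an
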