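import Pool.Agent.P.MP_5d580a_an.Kernel

open scoped ComplexOrder InnerProductSpace ComplexConjugate BoundedContinuousFunction
open MeasureTheory Filter Topology

set_option linter.unusedSectionVars false
set_option linter.unusedVariables false

noncomputable section

namespace Pool.Agent.P.MP_5d580a_an

variable {H : Type} [NormedAddCommGroup H] [InnerProductSpace ℂ H] [CompleteSpace H]

open scoped FourierTransform in
theorem sech_ft {E : Type} [NormedAddCommGroup E] [NormedSpace ℂ E] (f : ℝ → E) (ν : ℝ) :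
    ∫ t : ℝ, Complex.exp (-(Complex.I * t * ν)) • f t = 𝓕 f (ν / (2 * Real.pi)) := by
  rw [Real.fourier_real_eq_integral_exp_smul]
  congr 1
  ext t
  congr 2
  have : (Real.pi : ℂ) ≠ 0 := by exact_mod_cast Real.pi_ne_zero
  push_cast
  field_simp

/-- the hyperbolic secant profile -/
def sechH (v : ℝ) : ℝ := (2 * Real.cosh (v / 2))⁻¹

/-- its first derivative -/
def sechH1 (v : ℝ) : ℝ := -(Real.sinh (v / 2) / Real.cosh (v / 2)) / 2 * sechH v

/-- its second derivative -/
def sechH2 (v : ℝ) : ℝ := (2 * (Real.sinh (v / 2) / Real.cosh (v / 2)) ^ 2 - 1) / 4 * sechH v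

theorem sech_cosh (v : ℝ) : HasDerivAt (fun v => Real.cosh (v / 2)) (Real.sinh (v / 2) / 2) v := by
  simpa [div_eq_mul_inv] using ((hasDerivAt_id v).div_const 2).cosh

theorem sech_sinh (v : ℝ) : HasDerivAt (fun v => Real.sinh (v / 2)) (Real.cosh (v / 2) / 2) v := by
  simpa [div_eq_mul_inv] using ((hasDerivAt_id v).div_const 2).sinh

theorem sech_d1 (v : ℝ) : HasDerivAt sechH (sechH1 v) v := by
  have hc := (Real.cosh_pos (v / 2)).ne'
  refine (((sech_cosh v).const_mul 2).inv (by positivity)).congr_deriv ?_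
  simp only [sechH1, sechH]
  field_simp

theorem sech_d2 (v : ℝ) : HasDerivAt sechH1 (sechH2 v) v := by
  have hc := (Real.cosh_pos (v / 2)).ne'
  refine ((((sech_sinh v).div (sech_cosh v) hc).neg.div_const 2).mul (sech_d1 v)).congr_deriv ?_
  simp only [sechH2, sechH1, sechH, Pi.div_apply, Pi.neg_apply]
  field_simp
  ring

theorem sech_pos (v : ℝ) : 0 < sechH v := by
  have := Real.cosh_pos (v / 2)
  unfold sechH
  positivity

theorem sech_cont : Continuous sechH :=
  continuous_iff_continuousAt.2 fun v => (sech_d1 v).continuousAt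

theorem sech_cont1 : Continuous sechH1 :=
  continuous_iff_continuousAt.2 fun v => (sech_d2 v).continuousAt

theorem sech_cont2 : Continuous sechH2 := by
  have h : Continuous fun v : ℝ => Real.sinh (v / 2) / Real.cosh (v / 2) :=
    Continuous.div (by fun_prop) (by fun_prop) fun v => (Real.cosh_pos _).ne'
  exact ((((h.pow 2).const_mul 2).sub continuous_const).div_const 4).mul sech_cont

theorem sech_tanh (v : ℝ) : (Real.sinh v / Real.cosh v) ^ 2 ≤ 1 := by
  have := Real.cosh_pos v
  rw [div_pow, div_le_one (by positivity), Real.cosh_sq']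
  linarith

theorem sech_int : Integrable sechH := by
  refine (integrable_inv_one_add_sq.const_mul 8).mono' sech_cont.aestronglyMeasurable
    (Eventually.of_forall fun v => ?_)
  rw [Real.norm_of_nonneg (sech_pos v).le, sechH, ← Real.cosh_abs, Real.cosh_eq]
  have h1 := Real.quadratic_le_exp_of_nonneg (abs_nonneg (v / 2))
  have h2 := Real.exp_pos (-|v / 2|)
  have h3 := abs_nonneg (v / 2)
  rw [sq_abs] at h1
  rw [← one_div, ← div_eq_mul_inv, div_le_div_iff₀ (by positivity) (by positivity)]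
  nlinarith

theorem sech_int1 : Integrable sechH1 := by
  refine sech_int.mono' sech_cont1.aestronglyMeasurable (Eventually.of_forall fun v => ?_)
  have h1 := abs_le_one_iff_mul_self_le_one.2 (by simpa [sq] using sech_tanh (v / 2))
  have h2 := sech_pos v
  rw [sechH1, Real.norm_eq_abs, abs_mul, abs_div, abs_neg, abs_of_pos h2, abs_two]
  nlinarith [abs_nonneg (Real.sinh (v / 2) / Real.cosh (v / 2))]

theorem sech_int2 : Integrable sechH2 := by
  refine sech_int.mono' sech_cont2.aestronglyMeasurable (Eventually.of_forall fun v => ?_)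
  have h1 := sech_tanh (v / 2)
  have h2 := sech_pos v
  have h3 := sq_nonneg (Real.sinh (v / 2) / Real.cosh (v / 2))
  rw [sechH2, Real.norm_eq_abs, abs_mul, abs_of_pos h2]
  refine mul_le_of_le_one_left h2.le (abs_le.2 ⟨?_, ?_⟩) <;> linarith

open scoped FourierTransform in
theorem sech_fcont {E : Type} [NormedAddCommGroup E] [NormedSpace ℂ E] {f : ℝ → E}
    (hf : Integrable f) : Continuous (𝓕 f) :=
  VectorFourier.fourierIntegral_continuous Real.continuous_fourierChar continuous_inner hf

open scoped FourierTransform in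
theorem sech_fint : Integrable (𝓕 fun v => (sechH v : ℂ)) := by
  have e1 : deriv (fun v => (sechH v : ℂ)) = fun v => (sechH1 v : ℂ) :=
    funext fun v => (sech_d1 v).ofReal_comp.deriv
  have e2 : deriv (fun v => (sechH1 v : ℂ)) = fun v => (sechH2 v : ℂ) :=
    funext fun v => (sech_d2 v).ofReal_comp.deriv
  have f1 := Real.fourier_deriv sech_int.ofReal
    (fun v => (sech_d1 v).ofReal_comp.differentiableAt) (by rw [e1]; exact sech_int1.ofReal)
  have f2 := Real.fourier_deriv sech_int1.ofReal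
    (fun v => (sech_d2 v).ofReal_comp.differentiableAt) (by rw [e2]; exact sech_int2.ofReal)
  rw [e1] at f1
  rw [e2] at f2
  obtain ⟨C0, h0⟩ : ∃ C, ∀ x, ‖𝓕 (fun v => (sechH v : ℂ)) x‖ ≤ C :=
    ⟨_, VectorFourier.norm_fourierIntegral_le_integral_norm _ _ _ _⟩
  obtain ⟨C2, h2⟩ : ∃ C, ∀ x, ‖𝓕 (fun v => (sechH2 v : ℂ)) x‖ ≤ C :=
    ⟨_, VectorFourier.norm_fourierIntegral_le_integral_norm _ _ _ _⟩
  refine (integrable_inv_one_add_sq.const_mul (C0 + C2)).mono'
    (sech_fcont sech_int.ofReal).aestronglyMeasurable (Eventually.of_forall fun x => ?_)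
  have a1 := h2 x
  have a0 := h0 x
  rw [f2] at a1
  simp only [f1, norm_smul, norm_mul, Complex.norm_real, Complex.norm_I, Complex.norm_ofNat,
    Real.norm_eq_abs, mul_one, abs_of_pos Real.pi_pos] at a1
  rw [← div_eq_mul_inv, le_div_iff₀ (by positivity), ← sq_abs x]
  have a2 := norm_nonneg (𝓕 (fun v => (sechH v : ℂ)) x)
  have a3 : (1 : ℝ) ≤ (2 * Real.pi) ^ 2 := by nlinarith [Real.pi_gt_three]
  have a4 := mul_le_mul_of_nonneg_right a3 (mul_nonneg (sq_nonneg |x|) a2)
  nlinarith

open scoped FourierTransform in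
theorem exists_sech :
    ∃ k : ℝ → ℂ, Continuous k ∧ Integrable k ∧ k 0 ≠ 0 ∧
      ∀ v, chk k v = ((1 / (Real.exp (v / 2) + Real.exp (-v / 2)) : ℝ) : ℂ) := by
  have hpi : (0 : ℝ) < 2 * Real.pi := by positivity
  have hpc : (Real.pi : ℂ) ≠ 0 := by exact_mod_cast Real.pi_ne_zero
  refine ⟨fun t => (1 / (2 * Real.pi) : ℂ) * 𝓕 (fun v => (sechH v : ℂ)) (t / (2 * Real.pi)),
    continuous_const.mul ((sech_fcont sech_int.ofReal).comp (continuous_id.div_const _)),
    (sech_fint.comp_div hpi.ne').const_mul _, ?_, fun v => ?_⟩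
  · refine mul_ne_zero (by simp [hpc]) ?_
    rw [← sech_ft]
    simp only [Complex.ofReal_zero, mul_zero, neg_zero, Complex.exp_zero, one_smul]
    rw [integral_complex_ofReal]
    exact_mod_cast (integral_pos_of_integrable_nonneg_nonzero (x := 0) sech_cont sech_int
      (fun v => (sech_pos v).le) (sech_pos 0).ne').ne'
  · have h1 := congrFun (Continuous.fourierInv_fourier_eq
      (Complex.continuous_ofReal.comp sech_cont) sech_int.ofReal sech_fint) v
    have h2 := Measure.integral_comp_div (fun s : ℝ => (1 / (2 * Real.pi) : ℂ) *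
      (Complex.exp ((↑(2 * Real.pi * inner ℝ s v) * Complex.I)) •
        𝓕 (fun v => (sechH v : ℂ)) s)) (2 * Real.pi)
    rw [integral_const_mul _ (fun s : ℝ =>
      Complex.exp ((↑(2 * Real.pi * inner ℝ s v) * Complex.I)) •
        𝓕 (fun v => (sechH v : ℂ)) s), ← Real.fourierInv_eq'] at h2
    have h3 : chk (fun t => (1 / (2 * Real.pi) : ℂ) *
        𝓕 (fun v => (sechH v : ℂ)) (t / (2 * Real.pi))) v = sechH v := by
      refine Eq.trans ?_ (h2.trans ?_)
      · unfold chk
        congr 1
        ext t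
        rw [smul_eq_mul, mul_assoc, mul_comm (Complex.exp _)]
        congr 3
        simp only [RCLike.inner_apply, conj_trivial]
        push_cast
        field_simp
      · rw [abs_of_pos hpi, Complex.real_smul]
        erw [h1]
        push_cast
        field_simp
        rfl
    rw [h3, sechH, Real.cosh_eq, neg_div]
    congr 1
    field_simp

open scoped FourierTransform in
/-- Plancherel formula for Hilbert space valued functions -/
theorem plancherel {f g : ℝ → H} (hf : Integrable f) (hgc : Continuous g) (hg : Integrable g)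
    (hg' : Integrable fun ν : ℝ => ∫ t : ℝ, Complex.exp (-(Complex.I * t * ν)) • g t) :
    ∫ ν : ℝ, ⟪∫ t : ℝ, Complex.exp (-(Complex.I * t * ν)) • f t,
        ∫ t : ℝ, Complex.exp (-(Complex.I * t * ν)) • g t⟫_ℂ =
      (2 * Real.pi : ℂ) * ∫ t, ⟪f t, g t⟫_ℂ := by
  have hpi : (0 : ℝ) < 2 * Real.pi := by positivity
  simp only [sech_ft] at hg' ⊢
  have h1 : Integrable (𝓕 g) := (integrable_comp_div_iff _ hpi.ne').1 hg'
  have h2 := VectorFourier.integral_sesq_fourierIntegral_eq_neg_flip (L := innerₗ ℝ)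
    (innerSL ℂ) Real.continuous_fourierChar continuous_inner hf h1
  have h3 := hgc.fourierInv_fourier_eq hg h1
  have h4 : ∀ x, VectorFourier.fourierIntegral Real.fourierChar volume (-(innerₗ ℝ).flip) (𝓕 g) x
      = g x := by
    intro x
    rw [flip_innerₗ]
    exact congrFun h3 x
  simp only [h4] at h2
  rw [Measure.integral_comp_div (fun s => ⟪𝓕 f s, 𝓕 g s⟫_ℂ), abs_of_pos hpi, Complex.real_smul]
  push_cast
  congr 1

theorem integrable_fker_smul {F : ℝ → H} (hF : Continuous F) (K : ℝ) (hK : ∀ t, ‖F t‖ ≤ K)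
    {δ : ℝ} (hδ : 0 < δ) (ν : ℝ) : Integrable fun t => fker δ ν t • F t := by
  refine ((fej_scale_integrable hδ).mul_const K).mono'
    ((fker_cont δ ν).smul hF).aestronglyMeasurable (Eventually.of_forall fun t => ?_)
  rw [norm_smul, norm_fker hδ]
  exact mul_le_mul_of_nonneg_left (hK t) (mul_nonneg hδ.le (fej_nonneg _))

theorem sech_fker (F : ℝ → H) (δ ν t : ℝ) : fker δ ν t • F t =
    Complex.exp (-(Complex.I * t * ν)) • (((δ * fej (δ * t) : ℝ) : ℂ) • F t) := by
  rw [fker, smul_smul, mul_comm]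

theorem sech_base {F : ℝ → H} (hF : Continuous F) (K : ℝ) (hK : ∀ t, ‖F t‖ ≤ K) {δ : ℝ}
    (hδ : 0 < δ) : Integrable fun t => ((δ * fej (δ * t) : ℝ) : ℂ) • F t := by
  have := integrable_fker_smul hF K hK hδ 0
  simpa only [sech_fker, Complex.ofReal_zero, mul_zero, neg_zero, Complex.exp_zero, one_smul]
    using this

theorem continuous_winv {F : ℝ → H} (hF : Continuous F) (K : ℝ) (hK : ∀ t, ‖F t‖ ≤ K) {δ : ℝ}
    (hδ : 0 < δ) : Continuous fun ν => ∫ t, fker δ ν t • F t := by
  simp only [sech_fker, sech_ft]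
  exact (sech_fcont (sech_base hF K hK hδ)).comp (continuous_id.div_const _)

theorem plancherel_win {F G : ℝ → H} (hF : Continuous F) (hG : Continuous G) (K : ℝ)
    (hKF : ∀ t, ‖F t‖ ≤ K) (hKG : ∀ t, ‖G t‖ ≤ K) {δ : ℝ} (hδ : 0 < δ) (Λ : ℝ)
    (h0 : ∀ ν, Λ ≤ |ν| → ∫ t, fker δ ν t • G t = 0) :
    ∫ ν, ⟪∫ t, fker δ ν t • F t, ∫ t, fker δ ν t • G t⟫_ℂ =
      (2 * Real.pi * δ : ℂ) * ∫ t, ((δ * fej (δ * t) ^ 2 : ℝ) : ℂ) * ⟪F t, G t⟫_ℂ := by
  have h1 : Integrable fun ν => ∫ t, fker δ ν t • G t := by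
    refine (continuous_winv hG K hKG hδ).integrable_of_hasCompactSupport
      (HasCompactSupport.intro (isCompact_Icc (a := -Λ) (b := Λ)) fun ν hν => h0 ν ?_)
    by_contra h
    exact hν (abs_le.1 (not_le.1 h).le)
  simp only [sech_fker] at h1 ⊢
  have hc : Continuous fun t => ((δ * fej (δ * t) : ℝ) : ℂ) • G t :=
    (Complex.continuous_ofReal.comp (continuous_const.mul
      (fej_cont.comp (continuous_const.mul continuous_id)))).smul hG
  rw [plancherel (sech_base hF K hKF hδ) hc (sech_base hG K hKG hδ) h1, mul_assoc _ (δ : ℂ),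
    ← integral_const_mul (δ : ℂ)]
  congr 2
  ext t
  rw [inner_smul_left, inner_smul_right, Complex.conj_ofReal]
  push_cast
  ring

end Pool.Agent.P.MP_5d580a_an
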