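import Pool.Agent.P.MP_5d580a_an.RvD1
import Pool.Agent.P.MP_5d580a_an.Four
import Pool.Agent.P.MP_5d580a_an.Sech

open scoped ComplexOrder InnerProductSpace ComplexConjugate BoundedContinuousFunction
open MeasureTheory Filter Topology

set_option linter.unusedSectionVars false
set_option linter.unusedVariables false

noncomputable section

namespace Pool.Agent.P.MP_5d580a_an

variable {H : Type} [NormedAddCommGroup H] [InnerProductSpace ℂ H] [CompleteSpace H]

variable {M : VonNeumannAlgebra H} {ζ : H} {R : H →L[ℂ] H} {D : H →L⋆[ℂ] H}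
  {J : H ≃ₗᵢ⋆[ℂ] H} {E : SpecCalc ℝ H}

/-- the function of `2 - R` -/
def rvd3r (l : ℝ) : ℂ := 2 - rfun l

theorem rvd3_bm_r : BM rvd3r := (BM.const 2).sub bm_rfun

theorem rvd3_cont_rfun : Continuous rfun := by
  unfold rfun
  refine Complex.continuous_ofReal.comp (continuous_const.div (by fun_prop) fun l => ?_)
  positivity

theorem rvd3_cont_tfun : Continuous tfun := by
  unfold tfun
  refine Complex.continuous_ofReal.comp (Continuous.div (by fun_prop) (by fun_prop) fun l => ?_)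
  positivity

theorem rvd3_cont_r : Continuous rvd3r := continuous_const.sub rvd3_cont_rfun

theorem rvd3_exp_sq (l : ℝ) : Real.exp l = Real.exp (l / 2) * Real.exp (l / 2) := by
  rw [← Real.exp_add]; congr 1; ring

theorem rvd3_r_eq (l : ℝ) : rvd3r l = tfun l * (Real.exp (l / 2) : ℝ) := by
  unfold rvd3r rfun tfun
  have h1 : (0 : ℝ) < 1 + Real.exp l := by positivity
  have : (2 : ℝ) - 2 / (1 + Real.exp l) = 2 * Real.exp (l / 2) / (1 + Real.exp l) * Real.exp (l / 2) := by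
    field_simp
    rw [rvd3_exp_sq l]
    ring
  exact_mod_cast this

theorem rvd3_rfun_eq (l : ℝ) : rfun l = tfun l * (Real.exp (-l / 2) : ℝ) := by
  unfold rfun tfun
  have h1 : (0 : ℝ) < 1 + Real.exp l := by positivity
  have h2 : Real.exp (l / 2) * Real.exp (-l / 2) = 1 := by
    rw [← Real.exp_add]; simp [show l / 2 + -l / 2 = 0 by ring]
  have : (2 : ℝ) / (1 + Real.exp l) = 2 * Real.exp (l / 2) / (1 + Real.exp l) * Real.exp (-l / 2) := by
    rw [div_mul_eq_mul_div, mul_assoc, h2, mul_one]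
  exact_mod_cast this

theorem rvd3_tfun_ne (l : ℝ) : tfun l ≠ 0 := by
  unfold tfun
  have : (2 * Real.exp (l / 2) / (1 + Real.exp l) : ℝ) ≠ 0 := by positivity
  exact_mod_cast this

theorem rvd3_tfun_conj (l : ℝ) : conj (tfun l) = tfun l := by
  unfold tfun
  exact Complex.conj_ofReal _

theorem rvd3_tfun_neg (l : ℝ) : tfun (-l) = tfun l := by
  unfold tfun
  have h1 : (0 : ℝ) < 1 + Real.exp l := by positivity
  have h2 : (0 : ℝ) < 1 + Real.exp (-l) := by positivity
  have h3 : 0 < Real.exp (l / 2) := Real.exp_pos _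
  have : (2 * Real.exp (-l / 2) / (1 + Real.exp (-l)) : ℝ) = 2 * Real.exp (l / 2) / (1 + Real.exp l) := by
    rw [show -l / 2 = -(l / 2) by ring, Real.exp_neg, Real.exp_neg, rvd3_exp_sq l]
    field_simp
    ring
  rw [this]

theorem rvd3_T_inj (E : SpecCalc ℝ H) {ξ : H} (h : E.Φ tfun ξ = 0) : ξ = 0 :=
  E.eq_zero_of_null (E.null_of_apply_eq_zero bm_tfun h fun l _ => rvd3_tfun_ne l)

theorem rvd3_T_inj' (E : SpecCalc ℝ H) {ξ η : H} (h : E.Φ tfun ξ = E.Φ tfun η) : ξ = η := by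
  have : E.Φ tfun (ξ - η) = 0 := by rw [map_sub, h, sub_self]
  exact sub_eq_zero.1 (rvd3_T_inj E this)

theorem rvd3_T_star (E : SpecCalc ℝ H) : star (E.Φ tfun) = E.Φ tfun := by
  rw [← E.map_star bm_tfun]
  simp only [rvd3_tfun_conj]

theorem rvd3_T_cancel (E : SpecCalc ℝ H) {Z : H →L[ℂ] H} (h : E.Φ tfun * Z * E.Φ tfun = 0) :
    Z = 0 := by
  have h1 : Z * E.Φ tfun = 0 := by
    ext ξ
    apply rvd3_T_inj E
    have := congrArg (fun A : H →L[ℂ] H => A ξ) h
    simpa using this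
  have h2 : E.Φ tfun * star Z = 0 := by
    have := congrArg star h1
    rwa [star_mul, rvd3_T_star, star_zero] at this
  have h3 : star Z = 0 := by
    ext ξ
    apply rvd3_T_inj E
    have := congrArg (fun A : H →L[ℂ] H => A ξ) h2
    simpa using this
  exact star_eq_zero.1 h3

theorem rvd3_JT (hJ : RvJ R D J E) (ξ : H) : J (E.Φ tfun ξ) = E.Φ tfun (J ξ) := by
  rw [hJ.flip tfun bm_tfun]
  simp only [rvd3_tfun_neg, rvd3_tfun_conj]

theorem rvd3_two_sub (hJ : RvJ R D J E) : E.Φ rvd3r = 2 - R := by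
  have := E.map_sub (BM.const (2 : ℂ)) bm_rfun
  rw [E.map_const, hJ.R_eq] at this
  have e : ((2 : ℂ) • (1 : H →L[ℂ] H)) = 2 := by
    rw [two_smul]; norm_num
  rw [e] at this
  exact this

theorem rvd3_sig_mul {a b : ℝ → ℂ} (ha : BM a) (hb : BM b) (Z : H →L[ℂ] H) (t : ℝ) :
    E.Φ a * E.sig t Z * E.Φ b = E.sig t (E.Φ a * Z * E.Φ b) := by
  unfold SpecCalc.sig
  have h1 := E.U_commute t ha
  have h2 := E.U_commute (-t) hb
  calc E.Φ a * (E.U t * Z * E.U (-t)) * E.Φ b
      = (E.Φ a * E.U t) * Z * (E.U (-t) * E.Φ b) := by simp only [mul_assoc]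
    _ = (E.U t * E.Φ a) * Z * (E.Φ b * E.U (-t)) := by rw [h1, h2]
    _ = _ := by simp only [mul_assoc]

theorem rvd3_double {g : ℝ → ℂ} (hg : Integrable g) {s : ℝ}
    (hc : ∀ u, chk g u = ((1 / (Real.exp ((u + s) / 2) + Real.exp (-(u + s) / 2)) : ℝ) : ℂ))
    (X : H →L[ℂ] H) :
    E.Φ (fun l => ((Real.exp (s / 2) : ℝ) : ℂ) * rvd3r l) * smear E g X * E.Φ rfun +
      E.Φ (fun l => ((Real.exp (-s / 2) : ℝ) : ℂ) * rfun l) * smear E g X * E.Φ rvd3r =
      E.Φ tfun * X * E.Φ tfun := by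
  have key := double_spectral E X hg (ι := Fin 2) (κ := Fin 1)
    ![fun l => ((Real.exp (s / 2) : ℝ) : ℂ) * rvd3r l, fun l => ((Real.exp (-s / 2) : ℝ) : ℂ) * rfun l]
    ![rfun, rvd3r] ![tfun] ![tfun] ?_ ?_ ?_ ?_ ?_
  · simpa only [Fin.sum_univ_two, Fin.sum_univ_one, Matrix.cons_val_zero, Matrix.cons_val_one,
      Matrix.cons_val_fin_one] using key
  · intro i
    fin_cases i
    · exact ⟨(BM.const _).mul rvd3_bm_r, continuous_const.mul rvd3_cont_r⟩
    · exact ⟨(BM.const _).mul bm_rfun, continuous_const.mul rvd3_cont_rfun⟩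
  · intro i
    fin_cases i
    · exact ⟨bm_rfun, rvd3_cont_rfun⟩
    · exact ⟨rvd3_bm_r, rvd3_cont_r⟩
  · intro i
    fin_cases i
    exact ⟨bm_tfun, rvd3_cont_tfun⟩
  · intro i
    fin_cases i
    exact ⟨bm_tfun, rvd3_cont_tfun⟩
  · intro l m
    simp only [Fin.sum_univ_two, Fin.sum_univ_one, Matrix.cons_val_zero, Matrix.cons_val_one,
      Matrix.cons_val_fin_one]
    rw [hc, rvd3_r_eq, rvd3_r_eq, rvd3_rfun_eq, rvd3_rfun_eq]
    have e1 : Real.exp ((l - m + s) / 2) =
        Real.exp (s / 2) * Real.exp (l / 2) * Real.exp (-m / 2) := by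
      rw [← Real.exp_add, ← Real.exp_add]; congr 1; ring
    have e2 : Real.exp (-(l - m + s) / 2) =
        Real.exp (-s / 2) * Real.exp (-l / 2) * Real.exp (m / 2) := by
      rw [← Real.exp_add, ← Real.exp_add]; congr 1; ring
    have e3 : (1 / (Real.exp ((l - m + s) / 2) + Real.exp (-(l - m + s) / 2)) : ℝ) *
        (Real.exp (s / 2) * Real.exp (l / 2) * Real.exp (-m / 2) +
          Real.exp (-s / 2) * Real.exp (-l / 2) * Real.exp (m / 2)) = 1 := by
      rw [← e1, ← e2]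
      have : 0 < Real.exp ((l - m + s) / 2) + Real.exp (-(l - m + s) / 2) := by positivity
      field_simp
    have e4 := congrArg (fun x : ℝ => (x : ℂ)) e3
    simp only [Complex.ofReal_mul, Complex.ofReal_add, Complex.ofReal_one] at e4
    linear_combination (tfun l * tfun m) * e4

theorem rvd3_smear_mem (hs : Sepg M ζ) (h : RvD M ζ R D) (hJ : RvJ R D J E) {g : ℝ → ℂ}
    (hg : Integrable g) {s : ℝ}
    (hc : ∀ u, chk g u = ((1 / (Real.exp ((u + s) / 2) + Real.exp (-(u + s) / 2)) : ℝ) : ℂ))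
    {y : H →L[ℂ] H} (hy : y ∈ M.commutant) : smear E g (rm J y) ∈ M := by
  obtain ⟨X, hX, hXe⟩ := rvd_identity hs h (star_mem hy) (Real.exp_pos (s / 2))
    (Real.exp_pos (-s / 2))
  set a₀ : ℝ → ℂ := fun l => ((Real.exp (s / 2) : ℝ) : ℂ) * rvd3r l with ha₀
  set a₁ : ℝ → ℂ := fun l => ((Real.exp (-s / 2) : ℝ) : ℂ) * rfun l with ha₁
  have b₀ : BM a₀ := (BM.const _).mul rvd3_bm_r
  have b₁ : BM a₁ := (BM.const _).mul bm_rfun
  have e1 : E.Φ a₀ * X * E.Φ rfun + E.Φ a₁ * X * E.Φ rvd3r = E.Φ tfun * rm J y * E.Φ tfun := by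
    ext ξ
    have := hXe ξ
    rw [hJ.D_eq, hJ.D_eq, ← rvd3_JT hJ ξ, ← rm_apply] at this
    rw [ha₀, ha₁, E.map_smul _ rvd3_bm_r, E.map_smul _ bm_rfun, rvd3_two_sub hJ, hJ.R_eq]
    simp only [add_apply, mul_apply_eq_comp,
      smul_apply]
    exact this.symm
  have e2 := rvd3_double (E := E) hg hc (rm J y)
  set Z := smear E g (rm J y) - X with hZ
  have e3 : E.Φ a₀ * Z * E.Φ rfun = -(E.Φ a₁ * Z * E.Φ rvd3r) := by
    rw [eq_neg_iff_add_eq_zero, hZ]
    simp only [mul_sub, sub_mul]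
    rw [← ha₀, ← ha₁] at e2
    rw [sub_add_sub_comm, e1, e2, sub_self]
  have e4 := rvd3_double (E := E) hg hc Z
  rw [← ha₀, ← ha₁] at e4
  have e5 : E.Φ a₀ * smear E g Z * E.Φ rfun = (-E.Φ a₁) * smear E g Z * E.Φ rvd3r := by
    unfold smear
    rw [mul_opInt (E.scb_sig Z) hg, mul_opInt (E.scb_sig Z) hg]
    congr 1
    funext t
    rw [rvd3_sig_mul b₀ bm_rfun, e3, neg_mul, neg_mul, rvd3_sig_mul b₁ rvd3_bm_r]
    unfold SpecCalc.sig
    simp only [mul_neg, neg_mul]
  rw [e5, neg_mul, neg_mul, neg_add_cancel] at e4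
  have e6 : Z = 0 := rvd3_T_cancel E e4.symm
  rw [hZ, sub_eq_zero] at e6
  rw [e6]
  exact hX

/-- the key step of Tomita's theorem -/
theorem rvj_near_zero (hs : Sepg M ζ) (h : RvD M ζ R D) (hJ : RvJ R D J E) :
    ∃ ρ : ℝ, 0 < ρ ∧ ∀ t : ℝ, |t| < ρ → ∀ y ∈ M.commutant, E.sig t (rm J y) ∈ M := by
  obtain ⟨k, hkc, hki, hk0, hk⟩ := exists_sech
  have hne : ∀ᶠ t in 𝓝 (0 : ℝ), k t ≠ 0 := hkc.continuousAt.eventually_ne hk0
  obtain ⟨ρ, hρ, hρ'⟩ := Metric.eventually_nhds_iff.1 hne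
  refine ⟨ρ, hρ, fun t ht y hy => ?_⟩
  have hkt : k t ≠ 0 := hρ' (by simpa [Real.dist_eq] using ht)
  refine mem_of_commute fun z hz => ?_
  set Y := rm J y with hY
  have hS := E.scb_sig Y
  ext ξ
  refine ext_inner_left ℂ fun η => ?_
  let G : ℝ → ℂ := fun u => ⟪(star z) η, E.sig u Y ξ⟫_ℂ - ⟪η, E.sig u Y (z ξ)⟫_ℂ
  have hGc : Continuous G :=
    (continuous_const.inner (hS.1 ξ)).sub (continuous_const.inner (hS.1 (z ξ)))
  have hint : ∀ {g : ℝ → ℂ}, Integrable g → ∀ α β : H,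
      Integrable fun u => g u * ⟪β, E.sig u Y α⟫_ℂ := by
    intro g hg α β
    have := (hS.integrable hg α).const_inner (𝕜 := ℂ) β
    simpa only [inner_smul_right] using this
  have hF : ∀ u, k u * G u = 0 := by
    refine eq_zero_of_chk (hkc.mul hGc) ?_ fun s => ?_
    · simp only [G, mul_sub]
      exact (hint hki _ _).sub (hint hki _ _)
    · let g : ℝ → ℂ := fun u => k u * Complex.exp (Complex.I * u * s)
      have hg : Integrable g := by
        refine hki.mul_bdd (c := 1) (by fun_prop) (Eventually.of_forall fun u => ?_)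
        rw [show Complex.I * u * s = ((u * s : ℝ) : ℂ) * Complex.I by push_cast; ring,
          Complex.norm_exp_ofReal_mul_I]
      have hc : ∀ v, chk g v =
          ((1 / (Real.exp ((v + s) / 2) + Real.exp (-(v + s) / 2)) : ℝ) : ℂ) := by
        intro v
        rw [← hk]
        unfold chk
        congr 1
        funext u
        simp only [g]
        rw [mul_assoc, ← Complex.exp_add]
        congr 2
        push_cast
        ring
      have hm := rvd3_smear_mem hs h hJ hg hc hy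
      have e1 := inner_opInt hS hg ξ ((star z) η)
      have e2 := inner_opInt hS hg (z ξ) η
      have e3 : ⟪(star z) η, smear E g Y ξ⟫_ℂ = ⟪η, smear E g Y (z ξ)⟫_ℂ := by
        rw [inner_star_left, commute_apply hm hz]
      unfold smear at e3
      rw [e1, e2, ← sub_eq_zero, ← integral_sub (hint hg _ _) (hint hg _ _)] at e3
      rw [← e3]
      unfold chk
      congr 1
      funext u
      simp only [g, G]
      ring
  have h0 : G t = 0 := (mul_eq_zero.1 (hF t)).resolve_left hkt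
  simp only [G] at h0
  rw [sub_eq_zero, inner_star_left] at h0
  exact h0

theorem rvj_half (h : RvD M ζ R D) (hJ : RvJ R D J E) :
    J ζ = ζ ∧ ∀ x ∈ M, ∀ f, BM f → BM (fun l => f l * (Real.exp (l / 2) : ℝ)) →
      E.Φ f (J ((star x) ζ)) = E.Φ (fun l => f l * (Real.exp (l / 2) : ℝ)) (x ζ) := by
  refine ⟨?_, fun x hx f hf hf' => ?_⟩
  · have e1 := h.alg 1 (one_mem _)
    have e2 := h.com 1 (one_mem _)
    simp only [star_one, one_apply_eq_self] at e1 e2
    have e3 : R ζ = ζ := by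
      have : (2 : ℂ) • R ζ = (2 : ℂ) • ζ := by
        rw [e2, sub_apply, eq_sub_iff_add_eq] at e1
        rw [two_smul, e1, two_smul, ← one_add_one_eq_two]
        simp
      exact smul_right_injective H (two_ne_zero) this
    have e4 : E.Φ (fun l => rfun l - 1) ζ = 0 := by
      rw [E.map_sub bm_rfun (BM.const 1), E.one, hJ.R_eq]
      simp [e3]
    rw [E.apply_eq_zero_iff (bm_rfun.sub (BM.const 1))] at e4
    have e5 : E.Φ tfun ζ = E.Φ (fun _ => 1) ζ := by
      refine E.congr_ae bm_tfun (BM.const 1) (e4.mono fun l hl => ?_)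
      have h1 : (0 : ℝ) < 1 + Real.exp l := by positivity
      have h2 : (2 / (1 + Real.exp l) : ℝ) = 1 := by
        unfold rfun at hl
        exact_mod_cast sub_eq_zero.1 hl
      have h3 : Real.exp l = 1 := by
        field_simp at h2
        linarith
      have h4 : l = 0 := by simpa using h3
      subst h4
      unfold tfun
      norm_num
    rw [E.one, one_apply_eq_self] at e5
    apply rvd3_T_inj' E
    rw [← hJ.D_eq, e2, e3, e5]
  · apply rvd3_T_inj' E
    have e1 := h.alg (star x) (star_mem hx)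
    rw [star_star, hJ.D_eq, ← rvd3_two_sub hJ] at e1
    have e2 := congrArg (fun A : H →L[ℂ] H => A (J ((star x) ζ))) (E.commute bm_tfun hf)
    simp only [mul_apply_eq_comp] at e2
    rw [e2, e1, E.mul_apply hf rvd3_bm_r, E.mul_apply bm_tfun hf']
    congr 2
    funext l
    rw [rvd3_r_eq]
    ring

/-- truncated exponential -/
def rvd3e (n : ℕ) (l : ℝ) : ℂ :=
  (Set.Icc (-(n : ℝ)) n).indicator (fun _ => (1 : ℂ)) l * (Real.exp (l / 2) : ℝ)

theorem rvd3_e_nonneg (n : ℕ) (l : ℝ) : 0 ≤ rvd3e n l := by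
  unfold rvd3e
  by_cases hl : l ∈ Set.Icc (-(n : ℝ)) n
  · rw [Set.indicator_of_mem hl, one_mul]
    exact_mod_cast (Real.exp_pos _).le
  · rw [Set.indicator_of_notMem hl, zero_mul]

theorem rvd3_bm_e (n : ℕ) : BM (rvd3e n) := by
  have : rvd3e n = (Set.Icc (-(n : ℝ)) n).indicator fun l => ((Real.exp (l / 2) : ℝ) : ℂ) := by
    funext l
    unfold rvd3e
    by_cases hl : l ∈ Set.Icc (-(n : ℝ)) n
    · rw [Set.indicator_of_mem hl, Set.indicator_of_mem hl, one_mul]
    · rw [Set.indicator_of_notMem hl, Set.indicator_of_notMem hl, zero_mul]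
  rw [this]
  refine BM.indicator_of_bdd (by fun_prop) measurableSet_Icc (Real.exp (n / 2)) fun l hl => ?_
  rw [Complex.norm_real, Real.norm_of_nonneg (Real.exp_pos _).le]
  exact Real.exp_le_exp.2 (by linarith [hl.2])

theorem rvd3_lim (h : RvD M ζ R D) (hJ : RvJ R D J E) {x : H →L[ℂ] H} (hx : x ∈ M) :
    Tendsto (fun n : ℕ => E.Φ (rvd3e n) (x ζ)) atTop (𝓝 (rm J x ζ)) := by
  obtain ⟨h1, h2⟩ := rvj_half h hJ
  have := E.tendsto_Pr_Icc (J ((star x) ζ))
  rw [rm_apply, h1]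
  refine this.congr fun n => ?_
  exact h2 x hx _ (BM.indicator_one measurableSet_Icc) (rvd3_bm_e n)

theorem rvd3_symm (h : RvD M ζ R D) (hJ : RvJ R D J E) {x y : H →L[ℂ] H} (hx : x ∈ M)
    (hy : y ∈ M) : ⟪ζ, rm J x (y ζ)⟫_ℂ = ⟪ζ, y (rm J x ζ)⟫_ℂ := by
  have h1 := (rvj_half h hJ).1
  have l1 := (rvd3_lim h hJ (star_mem hx)).inner (𝕜 := ℂ) (tendsto_const_nhds (x := y ζ))
  have l2 := (tendsto_const_nhds (x := (star x) ζ)).inner (𝕜 := ℂ) (rvd3_lim h hJ hy)
  have e : ⟪rm J (star x) ζ, y ζ⟫_ℂ = ⟪(star x) ζ, rm J y ζ⟫_ℂ := by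
    refine tendsto_nhds_unique l1 (l2.congr fun n => ?_)
    have hsa : star (E.Φ (rvd3e n)) = E.Φ (rvd3e n) :=
      (IsSelfAdjoint.of_nonneg (E.nonneg (rvd3_bm_e n) fun ξ =>
        Eventually.of_forall (rvd3_e_nonneg n))).star_eq
    rw [← inner_star_right (E.Φ (rvd3e n)), hsa]
  rw [rm_star hJ.invol, inner_star_left] at e
  rw [e, inner_rm hJ.invol, h1, rm_apply, h1]

theorem tomita (hc : Cyc M ζ) (hs : Sepg M ζ) (h : RvD M ζ R D) (hJ : RvJ R D J E) :
    ModD M J ζ E := by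
  obtain ⟨ρ, hρ, hnear⟩ := rvj_near_zero hs h hJ
  obtain ⟨hfix, hhalf⟩ := rvj_half h hJ
  have hmem' : ∀ y ∈ M.commutant, rm J y ∈ M := fun y hy => by
    have := hnear 0 (by simpa using hρ) y hy
    rwa [E.sig_zero] at this
  have hcyc := cyc_of_sepg hs
  have hmem : ∀ x ∈ M, rm J x ∈ M.commutant := by
    intro x hx
    rw [VonNeumannAlgebra.mem_commutant_iff]
    intro y hy
    have key : ∀ a ∈ M.commutant, (y * rm J x) (a ζ) = (rm J x * y) (a ζ) := by
      intro a ha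
      refine eq_of_inner_cyc hcyc fun b hb => ?_
      have hx' : rm J a * x * rm J (star b) ∈ M :=
        mul_mem (mul_mem (hmem' a ha) hx) (hmem' _ (star_mem hb))
      have e := rvd3_symm h hJ hx' hy
      rw [rm_mul hJ.invol, rm_mul hJ.invol, rm_rm hJ.invol, rm_rm hJ.invol] at e
      simp only [mul_apply_eq_comp] at e ⊢
      rw [commute_apply hy (star_mem hb), inner_star_right, inner_star_right,
        ← commute_apply hy ha] at e
      exact e.symm
    have := Continuous.ext_on hcyc (y * rm J x).continuous (rm J x * y).continuous (by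
      rintro _ ⟨a, ha, rfl⟩
      exact key a ha)
    exact DFunLike.coe_injective this
  refine ⟨⟨⟨hJ.invol, hmem, hmem'⟩, hfix, hc, fun a ha => ?_⟩, fun t x hx => ?_, hJ.flip,
    fun x hx f hf hf' => ?_⟩
  · unfold ad
    rw [← inner_star_left]
    have l := (tendsto_const_nhds (x := (star a) ζ)).inner (𝕜 := ℂ) (rvd3_lim h hJ (star_mem ha))
    refine ge_of_tendsto' l fun n => ?_
    exact nonneg_iff_inner.1 (E.nonneg (rvd3_bm_e n) fun ξ =>
      Eventually.of_forall (rvd3_e_nonneg n)) _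
  · have hsmall : ∀ u : ℝ, |u| < ρ → ∀ z ∈ M, E.sig u z ∈ M := fun u hu z hz => by
      have := hnear u hu _ (hmem z hz)
      rwa [rm_rm hJ.invol] at this
    obtain ⟨n, hn⟩ := exists_nat_gt (|t| / ρ)
    have hn0 : (0 : ℝ) < n := lt_of_le_of_lt (by positivity) hn
    have hu : |t / n| < ρ := by
      rw [abs_div, abs_of_pos hn0, div_lt_iff₀ hn0]
      rw [div_lt_iff₀ hρ] at hn
      linarith
    have hk : ∀ m : ℕ, E.sig (m * (t / n)) x ∈ M := by
      intro m
      induction m with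
      | zero => simpa [E.sig_zero] using hx
      | succ m ih =>
        have := hsmall _ hu _ ih
        rw [E.sig_sig] at this
        rwa [show ((m + 1 : ℕ) : ℝ) * (t / n) = t / n + m * (t / n) by push_cast; ring]
    have := hk n
    rwa [show (n : ℝ) * (t / n) = t by field_simp] at this
  · rw [rm_apply, hfix]
    exact hhalf x hx f hf hf'

end Pool.Agent.P.MP_5d580a_an
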