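import Pool.Agent.P.MP_5d580a_an.Proj

open scoped ComplexOrder InnerProductSpace ComplexConjugate BoundedContinuousFunction
open MeasureTheory Filter Topology

set_option linter.unusedSectionVars false
set_option linter.unusedVariables false

noncomputable section

namespace Pool.Agent.P.MP_5d580a_an

variable {H : Type} [NormedAddCommGroup H] [InnerProductSpace ℂ H] [CompleteSpace H]

variable {M : VonNeumannAlgebra H} {J : H ≃ₗᵢ⋆[ℂ] H} {ζ ζ₁ ζ₂ : H}

namespace StdAAux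

theorem cyc_flip (hJ : StdJ M J) (hζ : J ζ = ζ) (h : Cyc M ζ) : Cyc M.commutant ζ := by
  have h1 : Dense (J '' {η : H | ∃ x ∈ M, η = x ζ}) :=
    J.surjective.denseRange.dense_image J.continuous h
  refine h1.mono ?_
  rintro _ ⟨_, ⟨x, hx, rfl⟩, rfl⟩
  exact ⟨rm J (star x), hJ.mem _ (star_mem hx), by rw [J_apply hJ.invol, hζ]⟩

theorem ad_add (a : H →L[ℂ] H) (ξ η : H) : ad J a (ξ + η) = ad J a ξ + ad J a η := by
  simp only [ad, map_add]

theorem ad_zero (a : H →L[ℂ] H) : ad J a 0 = 0 := by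
  simp only [ad, map_zero]

theorem ad_smul (a : H →L[ℂ] H) (c : ℂ) (ξ : H) : ad J a (c • ξ) = c • ad J a ξ := by
  simp only [ad, map_smul]

theorem ad_sum {ι : Type*} (s : Finset ι) (a : H →L[ℂ] H) (η : ι → H) :
    ad J a (∑ i ∈ s, η i) = ∑ i ∈ s, ad J a (η i) := by
  simp only [ad, map_sum]

theorem ad_cont (a : H →L[ℂ] H) : Continuous fun ξ => ad J a ξ := by
  unfold ad
  fun_prop

theorem cone_ind {P : Set H} (hc : IsClosed P) (h0 : (0 : H) ∈ P)
    (hadd : ∀ ξ ∈ P, ∀ η ∈ P, ξ + η ∈ P) (had : ∀ a ∈ M, ad J a ζ ∈ P) : Cone M J ζ ⊆ P := by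
  refine closure_minimal (fun η hη => ?_) hc
  induction hη using AddSubmonoid.closure_induction with
  | mem x hx =>
    obtain ⟨a, ha, rfl⟩ := hx
    exact had a ha
  | zero => exact h0
  | add x y _ _ hx hy => exact hadd x hx y hy

theorem cone_gen {a : H →L[ℂ] H} (ha : a ∈ M) : ad J a ζ ∈ Cone M J ζ :=
  subset_closure (AddSubmonoid.subset_closure ⟨a, ha, rfl⟩)

theorem closed_nonneg {f : H → ℂ} (hf : Continuous f) : IsClosed {η | 0 ≤ f η} :=
  isClosed_le continuous_const hf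

end StdAAux

open StdAAux

theorem StdV.cyc' (h : StdV M J ζ) : Cyc M.commutant ζ := cyc_flip h.stdJ h.fix h.cyc

theorem StdV.sepg (h : StdV M J ζ) : Sepg M ζ := sepg_of_cyc' h.cyc'

theorem StdV.ne_zero (h : StdV M J ζ) {x : H →L[ℂ] H} (hx : x ≠ 0) : ζ ≠ 0 := by
  intro h0
  apply hx
  have h1 : (1 : H →L[ℂ] H) = 0 := h.sepg 1 (one_mem _) (by rw [h0, map_zero])
  rw [← mul_one x, h1, mul_zero]

theorem StdV.rm_sepg (h : StdV M J ζ) {x : H →L[ℂ] H} (hx : x ∈ M) (h0 : rm J x ζ = 0) : x = 0 := by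
  have h1 : rm J x = 0 := sepg_of_cyc h.cyc _ (h.stdJ.mem x hx) h0
  rw [← rm_rm h.stdJ.invol x, h1, rm_zero]

theorem StdV.strict (h : StdV M J ζ) {c : H →L[ℂ] H} (hc : c ∈ M) (h0 : ⟪ζ, ad J c ζ⟫_ℂ = 0) :
    c = 0 := by
  have hJ := h.stdJ
  have key : ∀ b ∈ M, ⟪ζ, c (rm J (star b) ζ)⟫_ℂ = 0 := by
    intro b hb
    obtain ⟨q, hq⟩ : ∃ q, q = ⟪ζ, c (rm J (star b) ζ)⟫_ℂ := ⟨_, rfl⟩
    have hq' : ⟪ζ, b (rm J (star c) ζ)⟫_ℂ = conj q := by
      rw [hq, inner_conj_symm, ← inner_J J ζ (c _), h.fix, J_apply hJ.invol, J_rm hJ.invol,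
        star_star, h.fix, hJ.comm_apply hb (star_mem hc)]
    obtain ⟨r, hr⟩ : ∃ r, r = ⟪ζ, ad J b ζ⟫_ℂ := ⟨_, rfl⟩
    have hr0 : 0 ≤ r := hr ▸ h.pos b hb
    have hex : ∀ t : ℂ, 0 ≤ conj t * q + t * conj q + t * conj t * r := by
      intro t
      have h1 := h.pos (c + t • b) (add_mem hc (vn_smul_mem t hb))
      have e : ⟪ζ, ad J (c + t • b) ζ⟫_ℂ = conj t * q + t * conj q + t * conj t * r := by
        rw [← hq', hq, hr]
        unfold ad at h0 ⊢
        rw [star_add, star_smul, rm_add, rm_smul]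
        simp only [add_apply, smul_apply, map_add, map_smul, inner_add_right, inner_smul_right, h0,
          Complex.star_def]
        ring
      rwa [e] at h1
    rw [← hq]
    have hre : 0 ≤ r.re := (Complex.le_def.1 hr0).1
    have hs : (0 : ℝ) < 1 / (r.re + 1) := by positivity
    have h2 := (Complex.le_def.1 (hex (-((1 / (r.re + 1) : ℝ) : ℂ) * q))).1
    have e : (conj (-((1 / (r.re + 1) : ℝ) : ℂ) * q) * q + -((1 / (r.re + 1) : ℝ) : ℂ) * q * conj q +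
        -((1 / (r.re + 1) : ℝ) : ℂ) * q * conj (-((1 / (r.re + 1) : ℝ) : ℂ) * q) * r) =
        ((Complex.normSq q * (1 / (r.re + 1)) : ℝ) : ℂ) * (((1 / (r.re + 1) : ℝ) : ℂ) * r - 2) := by
      rw [map_mul, map_neg, Complex.conj_ofReal, Complex.ofReal_mul, ← Complex.mul_conj]
      ring
    rw [e, Complex.re_ofReal_mul, Complex.sub_re, Complex.re_ofReal_mul, Complex.zero_re] at h2
    have h3 : 1 / (r.re + 1) * r.re - (2 : ℂ).re < 0 := by
      have : 1 / (r.re + 1) * r.re ≤ 1 := by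
        rw [div_mul_eq_mul_div, one_mul, div_le_one (by positivity)]
        linarith
      have h4 : (2 : ℂ).re = 2 := by norm_num
      rw [h4]
      linarith
    by_contra hq0
    have h5 : 0 < Complex.normSq q := Complex.normSq_pos.2 hq0
    nlinarith [mul_pos h5 hs]
  have h1 : (star c) ζ = 0 := by
    refine eq_of_inner_cyc h.cyc' fun y hy => ?_
    have := key (star (rm J y)) (star_mem (hJ.mem' y hy))
    rw [star_star, rm_rm hJ.invol, ← inner_star_left] at this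
    rw [inner_zero_right, ← inner_conj_symm, this, map_zero]
  have := h.sepg _ (star_mem hc) h1
  rwa [star_eq_zero] at this

theorem StdV.norm_le_sym (h : StdV M J ζ) {z : H →L[ℂ] H} (hz : z ∈ M) :
    ‖z ζ‖ ≤ ‖z ζ + rm J z ζ‖ := by
  have h1 := (Complex.le_def.1 (h.pos (star z) (star_mem hz))).1
  unfold ad at h1
  rw [star_star, inner_star_right, Complex.zero_re] at h1
  have h2 := norm_add_sq (𝕜 := ℂ) (z ζ) (rm J z ζ)
  rw [RCLike.re_to_complex] at h2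
  refine abs_le_of_sq_le_sq' ?_ (norm_nonneg _) |>.2
  nlinarith [sq_nonneg ‖rm J z ζ‖]

theorem CPos.symm (hJ : StdJ M J) (h : CPos M J ζ₁ ζ₂) : CPos M J ζ₂ ζ₁ := by
  intro a ha
  have h1 := h (star a) (star_mem ha)
  rw [← inner_ad hJ ha, ← inner_conj_symm] at h1
  have h2 := Complex.le_def.1 h1
  rw [Complex.conj_re, Complex.conj_im] at h2
  refine Complex.le_def.2 ⟨h2.1, ?_⟩
  have h3 := h2.2
  rw [Complex.zero_im] at h3 ⊢
  linarith

theorem CPos.smul (h : CPos M J ζ₁ ζ₂) {s t : ℝ} (hs : 0 ≤ s) (ht : 0 ≤ t) :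
    CPos M J ((s : ℂ) • ζ₁) ((t : ℂ) • ζ₂) := by
  intro a ha
  rw [ad_smul, inner_smul_left, inner_smul_right, Complex.conj_ofReal]
  exact mul_nonneg (Complex.zero_le_real.2 hs) (mul_nonneg (Complex.zero_le_real.2 ht) (h a ha))

theorem StdV.smul (h : StdV M J ζ) {t : ℝ} (ht : 0 < t) : StdV M J ((t : ℂ) • ζ) := by
  refine ⟨h.stdJ, by rw [J_rsmul, h.fix], ?_, h.pos.smul ht.le ht.le⟩
  refine Dense.mono ?_ h.cyc
  rintro _ ⟨x, hx, rfl⟩
  refine ⟨(t : ℂ)⁻¹ • x, vn_smul_mem _ hx, ?_⟩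
  rw [smul_apply, map_smul, smul_smul, inv_mul_cancel₀ (Complex.ofReal_ne_zero.2 ht.ne'), one_smul]

theorem cone_isClosed : IsClosed (Cone M J ζ) := isClosed_closure

theorem cone_self (hJ : StdJ M J) : ζ ∈ Cone M J ζ := by
  have := cone_gen (M := M) (J := J) (ζ := ζ) (one_mem _)
  unfold ad at this
  rwa [star_one, rm_one hJ.invol] at this

theorem cone_zero : (0 : H) ∈ Cone M J ζ := subset_closure (zero_mem _)

theorem cone_add {η η' : H} (h : η ∈ Cone M J ζ) (h' : η' ∈ Cone M J ζ) : η + η' ∈ Cone M J ζ :=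
  map_mem_closure₂ continuous_add h h' fun _ ha _ hb => add_mem ha hb

theorem cone_sum {ι : Type*} (s : Finset ι) {η : ι → H} (h : ∀ i ∈ s, η i ∈ Cone M J ζ) :
    ∑ i ∈ s, η i ∈ Cone M J ζ :=
  Finset.sum_induction η (· ∈ Cone M J ζ) (fun _ _ => cone_add) cone_zero h

theorem cone_ad (hJ : StdJ M J) {a : H →L[ℂ] H} (ha : a ∈ M) {η : H} (h : η ∈ Cone M J ζ) :
    ad J a η ∈ Cone M J ζ := by
  refine cone_ind (P := {η | ad J a η ∈ Cone M J ζ}) (cone_isClosed.preimage (ad_cont a)) ?_ ?_ ?_ h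
  · show ad J a 0 ∈ Cone M J ζ
    rw [ad_zero]
    exact cone_zero
  · intro ξ hξ η hη
    show ad J a (ξ + η) ∈ Cone M J ζ
    rw [ad_add]
    exact cone_add hξ hη
  · intro b hb
    show ad J a (ad J b ζ) ∈ Cone M J ζ
    rw [← ad_mul hJ ha hb]
    exact cone_gen (mul_mem ha hb)

theorem cone_smul (hJ : StdJ M J) {t : ℝ} (ht : 0 ≤ t) {η : H} (h : η ∈ Cone M J ζ) :
    (t : ℂ) • η ∈ Cone M J ζ := by
  have := cone_ad hJ (vn_smul_mem ((√t : ℝ) : ℂ) (one_mem M)) h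
  unfold ad at this
  rwa [star_smul, star_one, rm_smul, rm_one hJ.invol, Complex.star_def, Complex.conj_ofReal,
    smul_apply, smul_apply, one_apply_eq_self, one_apply_eq_self, smul_smul, ← Complex.ofReal_mul,
    Real.mul_self_sqrt ht] at this

theorem cone_convex (hJ : StdJ M J) : Convex ℝ (Cone M J ζ) := by
  intro ξ hξ η hη a b ha hb _
  rw [← Complex.coe_smul, ← Complex.coe_smul]
  exact cone_add (cone_smul hJ ha hξ) (cone_smul hJ hb hη)

theorem cone_pinch (hJ : StdJ M J) {p : H →L[ℂ] H} (hp : p ∈ M) (hpp : IsStarProjection p) {η : H}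
    (h : η ∈ Cone M J ζ) : pinch J p η ∈ Cone M J ζ := by
  rw [pinch_apply hpp]
  exact cone_add (cone_ad hJ hp h) (cone_ad hJ (sub_mem (one_mem _) hp) h)

theorem cone_fix (hJ : StdJ M J) (hζ : J ζ = ζ) {η : H} (h : η ∈ Cone M J ζ) : J η = η := by
  refine cone_ind (P := {η | J η = η}) (isClosed_eq J.continuous continuous_id) (map_zero J) ?_ ?_ h
  · intro ξ hξ η hη
    show J (ξ + η) = ξ + η
    rw [map_add, hξ, hη]
  · intro a ha
    show J (ad J a ζ) = ad J a ζ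
    rw [J_ad hJ ha, hζ]

theorem stdA_cpos_right (hJ : StdJ M J) (h : CPos M J ζ₁ ζ₂) {η₂ : H} (h₂ : η₂ ∈ Cone M J ζ₂) :
    CPos M J ζ₁ η₂ := by
  intro a ha
  refine cone_ind (P := {η | 0 ≤ ⟪ζ₁, ad J a η⟫_ℂ})
    (closed_nonneg (continuous_const.inner (ad_cont a))) ?_ ?_ ?_ h₂
  · show 0 ≤ ⟪ζ₁, ad J a 0⟫_ℂ
    rw [ad_zero, inner_zero_right]
  · intro ξ hξ η hη
    show 0 ≤ ⟪ζ₁, ad J a (ξ + η)⟫_ℂ
    rw [ad_add, inner_add_right]
    exact add_nonneg hξ hη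
  · intro b hb
    show 0 ≤ ⟪ζ₁, ad J a (ad J b ζ₂)⟫_ℂ
    rw [← ad_mul hJ ha hb]
    exact h _ (mul_mem ha hb)

theorem cpos_of_cone (hJ : StdJ M J) (h : CPos M J ζ₁ ζ₂) {η₁ η₂ : H} (h₁ : η₁ ∈ Cone M J ζ₁)
    (h₂ : η₂ ∈ Cone M J ζ₂) : CPos M J η₁ η₂ :=
  (stdA_cpos_right hJ ((stdA_cpos_right hJ h h₂).symm hJ) h₁).symm hJ

theorem std_of_cone (h : StdV M J ζ) {η : H} (hη : η ∈ Cone M J ζ) (hs : Sepg M η) :
    StdV M J η := by
  have hf := cone_fix h.stdJ h.fix hη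
  refine ⟨h.stdJ, hf, ?_, cpos_of_cone h.stdJ h.pos hη hη⟩
  have := cyc_flip h.stdJ.symm hf (cyc_of_sepg hs)
  rwa [VonNeumannAlgebra.commutant_commutant] at this

theorem std_sum_ad (h : StdV M J ζ) {ι : Type} [Fintype ι] (a : ι → (H →L[ℂ] H))
    (ha : ∀ i, a i ∈ M) (hs : ∀ x ∈ M, (∀ i, x * a i = 0) → x = 0) :
    StdV M J (∑ i, ad J (a i) ζ) := by
  refine std_of_cone h (cone_sum _ fun i _ => cone_gen (ha i)) fun x hx h0 => hs x hx fun i => ?_
  have h1 : ad J x (∑ i, ad J (a i) ζ) = 0 := by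
    unfold ad at h0 ⊢
    rw [h.stdJ.comm_apply hx (star_mem hx), h0, map_zero]
  have h2 : ∑ i, ⟪ζ, ad J (x * a i) ζ⟫_ℂ = 0 := by
    rw [← inner_sum, ← inner_zero_right (𝕜 := ℂ) ζ, ← h1, ad_sum]
    congr 1
    exact Finset.sum_congr rfl fun i _ => ad_mul h.stdJ hx (ha i) ζ
  exact h.strict (mul_mem hx (ha i)) ((Finset.sum_eq_zero_iff_of_nonneg
    fun i _ => h.pos _ (mul_mem hx (ha i))).1 h2 i (Finset.mem_univ i))

theorem StdV.pinch (h : StdV M J ζ) {p : H →L[ℂ] H} (hp : p ∈ M) (hpp : IsStarProjection p) :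
    StdV M J (pinch J p ζ) := by
  have := std_sum_ad h (ι := Fin 2) ![p, 1 - p] (fun i => by
    fin_cases i
    · exact hp
    · exact sub_mem (one_mem _) hp) fun x hx h0 => by
      have h1 : x * p = 0 := h0 0
      have h2 : x * (1 - p) = 0 := h0 1
      rwa [mul_sub, h1, sub_zero, mul_one] at h2
  rw [Fin.sum_univ_two] at this
  rw [pinch_apply hpp]
  exact this

theorem StdV.ad_coiso (h : StdV M J ζ) {w : H →L[ℂ] H} (hw : w ∈ M) (h1 : star w * w = 1) :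
    StdV M J (ad J (star w) ζ) := by
  have := std_sum_ad h (ι := Unit) (fun _ => star w) (fun _ => star_mem hw) fun x hx h0 => by
    rw [← mul_one x, ← h1, ← mul_assoc, h0 (), zero_mul]
  simpa using this

theorem Full.smul (h : Full M J ζ) {t : ℝ} (ht : 0 < t) : Full M J ((t : ℂ) • ζ) := by
  intro p hp hp0 l ε hε
  have hc : Cent M J ζ p := by
    refine ⟨hp.1, hp.2.1, ?_⟩
    have := hp.2.2
    rw [cm_smul_vec] at this
    exact (smul_eq_zero.1 this).resolve_left (Complex.ofReal_ne_zero.2 ht.ne')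
  obtain ⟨x, hx, h1, h2, h3⟩ := h p hc hp0 l ε hε
  refine ⟨x, hx, h1, h2, ?_⟩
  rw [map_smul, map_smul, smul_comm _ (t : ℂ), ← smul_sub, norm_smul, norm_smul, mul_left_comm]
  exact mul_le_mul_of_nonneg_left h3 (norm_nonneg _)

theorem Cent.one (hJ : StdJ M J) : Cent M J ζ 1 :=
  ⟨one_mem _, IsStarProjection.one _, cm_one hJ.invol ζ⟩

theorem Cent.sub (hJ : StdJ M J) {p q : H →L[ℂ] H} (hp : Cent M J ζ p) (hq : Cent M J ζ q)
    (h : p * q = q) : Cent M J ζ (p - q) :=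
  ⟨sub_mem hp.1 hq.1, hq.2.1.sub_of_mul_eq_right hp.2.1 h, by
    rw [cm_sub, hp.2.2, hq.2.2, sub_zero]⟩

theorem Cent.add (hJ : StdJ M J) {p q : H →L[ℂ] H} (hp : Cent M J ζ p) (hq : Cent M J ζ q)
    (h : p * q = 0) : Cent M J ζ (p + q) :=
  ⟨add_mem hp.1 hq.1, hp.2.1.add hq.2.1 h, by rw [cm_add, hp.2.2, hq.2.2, add_zero]⟩

/-- the residual projection commutes with the pinched vector -/
theorem Cent.sub_pinch (hJ : StdJ M J) {p e : H →L[ℂ] H} (hp : Cent M J ζ p) (he : e ∈ M)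
    (hep : IsStarProjection e) (h : p * e = e) : Cent M J (pinch J e ζ) (p - e) := by
  refine ⟨sub_mem hp.1 he, hep.sub_of_mul_eq_right hp.2.1 h, ?_⟩
  have hc : p * e = e * p := by
    have := congrArg star h
    rw [star_mul, hp.2.1.isSelfAdjoint.star_eq, hep.isSelfAdjoint.star_eq] at this
    rw [h, this]
  rw [cm_sub, cm_pinch hJ he hep, sub_zero]
  have h0 := hp.2.2
  unfold cm at h0 ⊢
  rw [← mul_apply_eq_comp, ← mul_apply_eq_comp, mul_pinch hJ he hp.1 hc, rm_mul_pinch hJ he hp.1 hc,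
    mul_apply_eq_comp, mul_apply_eq_comp, ← map_sub, h0, map_zero]

theorem SpI.mono {p q : H →L[ℂ] H} (hp : IsStarProjection p) (hq : IsStarProjection q)
    (h : q * p = p) {l : ℝ} (hl : SpI M J ζ p l) : SpI M J ζ q l := by
  intro ε hε
  obtain ⟨x, hx, h1, h2, h3⟩ := hl ε hε
  refine ⟨x, hx, ?_, h2, h3⟩
  have h' : p * q = p := by
    have := congrArg star h
    rwa [star_mul, hp.isSelfAdjoint.star_eq, hq.isSelfAdjoint.star_eq] at this
  calc q * x * q = q * (p * x * p) * q := by rw [h1]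
    _ = (q * p) * x * (p * q) := by simp only [mul_assoc]
    _ = x := by rw [h, h', h1]

end Pool.Agent.P.MP_5d580a_an
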