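import Pool.Agent.P.MP_5d580a_an.RvD2
import Pool.Agent.P.MP_5d580a_an.RvD3
import Pool.Agent.P.MP_5d580a_an.StdA

open scoped ComplexOrder InnerProductSpace ComplexConjugate BoundedContinuousFunction
open MeasureTheory Filter Topology

set_option linter.unusedSectionVars false
set_option linter.unusedVariables false

noncomputable section

namespace Pool.Agent.P.MP_5d580a_an

variable {H : Type} [NormedAddCommGroup H] [InnerProductSpace ℂ H] [CompleteSpace H]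

variable {M : VonNeumannAlgebra H} {ζ : H}

/-- the product of two conjugations -/
def rvd4_W (J J' : H ≃ₗᵢ⋆[ℂ] H) : H →L[ℂ] H :=
  (J.toContinuousLinearEquiv : H →L⋆[ℂ] H).comp (J'.toContinuousLinearEquiv : H →L⋆[ℂ] H)

theorem rvd4_W_apply (J J' : H ≃ₗᵢ⋆[ℂ] H) (ξ : H) : rvd4_W J J' ξ = J (J' ξ) := rfl

theorem rvd4_W_mul {J J' : H ≃ₗᵢ⋆[ℂ] H} (hJ : ∀ ξ, J (J ξ) = ξ) (hJ' : ∀ ξ, J' (J' ξ) = ξ) :
    rvd4_W J J' * rvd4_W J' J = 1 := by
  ext ξ
  simp only [mul_apply_eq_comp, rvd4_W_apply, hJ', hJ, one_apply_eq_self]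

theorem rvd4_W_inner (J J' : H ≃ₗᵢ⋆[ℂ] H) (ξ η : H) :
    ⟪rvd4_W J J' ξ, rvd4_W J J' η⟫_ℂ = ⟪ξ, η⟫_ℂ := by
  rw [rvd4_W_apply, rvd4_W_apply, inner_J, inner_J]

theorem rvd4_W_star {J J' : H ≃ₗᵢ⋆[ℂ] H} (hJ : ∀ ξ, J (J ξ) = ξ) (hJ' : ∀ ξ, J' (J' ξ) = ξ) :
    star (rvd4_W J J') = rvd4_W J' J := by
  apply ext_inner_self
  intro ξ
  rw [inner_star_right, ← rvd4_W_inner J J' ξ (rvd4_W J' J ξ)]
  congr 1
  simp only [rvd4_W_apply, hJ', hJ]

theorem rvd4_W_conj {J J' : H ≃ₗᵢ⋆[ℂ] H} (hJ' : ∀ ξ, J' (J' ξ) = ξ) (x : H →L[ℂ] H) :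
    rvd4_W J J' * x * rvd4_W J' J = rm J (rm J' x) := by
  ext ξ
  rw [rm_apply, ← rm_star hJ', rm_apply, star_star]
  rfl

theorem rvd4_tfun_even (l : ℝ) : conj (tfun (-l)) = tfun l := by
  unfold tfun
  rw [Complex.conj_ofReal]
  congr 1
  have h1 : Real.exp l = Real.exp (l / 2) * Real.exp (l / 2) := by
    rw [← Real.exp_add]; congr 1; ring
  have h2 : Real.exp (-l) = (Real.exp (l / 2) * Real.exp (l / 2))⁻¹ := by
    rw [Real.exp_neg, ← h1]
  have h3 : Real.exp (-l / 2) = (Real.exp (l / 2))⁻¹ := by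
    rw [← Real.exp_neg]; congr 1; ring
  have h4 : 0 < Real.exp (l / 2) := Real.exp_pos _
  rw [h2, h3, h1]
  field_simp
  ring

theorem rvd4_tfun_nonneg (l : ℝ) : 0 ≤ tfun l := by
  unfold tfun
  exact Complex.zero_le_real.mpr (by positivity)

theorem rvd4_rfun_nonneg (l : ℝ) : 0 ≤ rfun l := by
  unfold rfun
  exact Complex.zero_le_real.mpr (by positivity)

theorem rvd4_eq {J J₀ : H ≃ₗᵢ⋆[ℂ] H} {R : H →L[ℂ] H} {D : H →L⋆[ℂ] H} {E : SpecCalc ℝ H}
    (h : StdV M J ζ) (h₀ : StdV M J₀ ζ) (hR : RvD M ζ R D) (hE : RvJ R D J₀ E) : J = J₀ := by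
  have hJ := h.stdJ.invol
  have hJ₀ := h₀.stdJ.invol
  obtain ⟨W, hW⟩ : ∃ W, W = rvd4_W J J₀ := ⟨_, rfl⟩
  obtain ⟨V, hV⟩ : ∃ V, V = rvd4_W J₀ J := ⟨_, rfl⟩
  obtain ⟨T, hT⟩ : ∃ T, T = E.Φ tfun := ⟨_, rfl⟩
  have hWV : W * V = 1 := by rw [hW, hV]; exact rvd4_W_mul hJ hJ₀
  have hVW : V * W = 1 := by rw [hW, hV]; exact rvd4_W_mul hJ₀ hJ
  have sW : star W = V := by rw [hW, hV]; exact rvd4_W_star hJ hJ₀
  have sV : star V = W := by rw [hW, hV]; exact rvd4_W_star hJ₀ hJ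
  have Wζ : W ζ = ζ := by rw [hW, rvd4_W_apply, h₀.fix, h.fix]
  have Vζ : V ζ = ζ := by rw [hV, rvd4_W_apply, h.fix, h₀.fix]
  have WVa : ∀ ξ, W (V ξ) = ξ := fun ξ => by
    rw [← mul_apply_eq_comp, hWV, one_apply_eq_self]
  have Win : ∀ ξ η, ⟪W ξ, W η⟫_ℂ = ⟪ξ, η⟫_ℂ := fun ξ η => by rw [hW]; exact rvd4_W_inner _ _ _ _
  have memW : ∀ x ∈ M, W * x * V ∈ M := fun x hx => by
    rw [hW, hV, rvd4_W_conj hJ₀]; exact h.stdJ.mem' _ (h₀.stdJ.mem x hx)
  have memV : ∀ x ∈ M, V * x * W ∈ M := fun x hx => by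
    rw [hW, hV, rvd4_W_conj hJ]; exact h₀.stdJ.mem' _ (h.stdJ.mem x hx)
  have hWR : W * R = R * W := by
    ext η
    have hG : (W (R η), W (D η)) ∈ closure {p : H × H | ∃ x ∈ M, p = (x ζ, (star x) ζ)} := by
      have hc : Continuous fun p : H × H => (W p.1, W p.2) := by fun_prop
      refine map_mem_closure (f := fun p : H × H => (W p.1, W p.2)) hc (hR.graph η) ?_
      rintro p ⟨x, hx, rfl⟩
      refine ⟨W * x * V, memW x hx, ?_⟩
      simp only [star_mul, sW, sV, mul_apply_eq_comp, Vζ]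
    have ho : ∀ x ∈ M, (⟪x ζ, (2 : ℂ) • W η - W (R η)⟫_ℂ).re
        = (⟪(star x) ζ, W (D η)⟫_ℂ).re := by
      intro x hx
      have e := hR.orth η _ (memV x hx)
      rw [← Win, ← Win ((star (V * x * W)) ζ)] at e
      simpa only [star_mul, sW, sV, mul_apply_eq_comp, Wζ, WVa, map_sub, map_smul]
        using e
    exact (hR.char hG ho).1
  have T0 : 0 ≤ T := by
    rw [hT]; exact E.nonneg bm_tfun fun ξ => Eventually.of_forall rvd4_tfun_nonneg
  have JT : ∀ ξ, J₀ (T ξ) = T (J₀ ξ) := fun ξ => by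
    rw [hT, hE.flip tfun bm_tfun ξ]
    simp only [rvd4_tfun_even]
  have DT : ∀ ξ, D ξ = T (J₀ ξ) := fun ξ => by rw [hT]; exact hE.D_eq ξ
  have TT : T * T = R * (2 - R) := by
    ext ξ
    have e := hR.sq ξ
    rw [DT, DT, JT, hJ₀] at e
    exact e
  have hWT2 : W * (T * T) = T * T * W := by
    rw [TT, ← mul_assoc, hWR, mul_assoc, mul_assoc, mul_sub, sub_mul, hWR, mul_two, two_mul]
  have hWT : W * T = T * W := by
    have p : 0 ≤ W * T * V := by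
      rw [← sW]; exact star_right_conjugate_nonneg T0 W
    have q : W * T * V * (W * T * V) = T * T := by
      calc W * T * V * (W * T * V) = W * T * (V * W) * T * V := by simp only [mul_assoc]
        _ = W * (T * T) * V := by rw [hVW]; simp only [mul_assoc, mul_one]
        _ = T * T := by rw [hWT2, mul_assoc, hWV, mul_one]
    have e := sqrt_unique p T0 q
    calc W * T = W * T * V * W := by rw [mul_assoc (W * T), hVW, mul_one]
      _ = T * W := by rw [e]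
  have A0 : 0 ≤ R * T := by
    rw [hT, ← hE.R_eq, ← E.mul _ _ bm_rfun bm_tfun]
    exact E.nonneg (bm_rfun.mul bm_tfun) fun ξ => Eventually.of_forall fun l =>
      mul_nonneg (rvd4_rfun_nonneg l) (rvd4_tfun_nonneg l)
  have sR : star R = R := (IsSelfAdjoint.of_nonneg hR.nonneg).star_eq
  have WA0 : 0 ≤ W * (R * T) := by
    rw [nonneg_iff_inner]
    intro η
    have hcl : IsClosed {p : H × H | 0 ≤ ⟪p.1, J p.2⟫_ℂ} := by
      have hc : Continuous fun p : H × H => ⟪p.1, J p.2⟫_ℂ :=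
        continuous_fst.inner (J.continuous.comp continuous_snd)
      exact isClosed_le continuous_const hc
    have hsub : {p : H × H | ∃ x ∈ M, p = (x ζ, (star x) ζ)} ⊆ {p : H × H | 0 ≤ ⟪p.1, J p.2⟫_ℂ} := by
      rintro p ⟨x, hx, rfl⟩
      have e := h.pos (star x) (star_mem hx)
      unfold ad at e
      rw [inner_star_right, rm_apply, star_star, h.fix] at e
      exact e
    have e : 0 ≤ ⟪R η, J (D η)⟫_ℂ := closure_minimal hsub hcl (hR.graph η)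
    rw [DT, ← JT, ← rvd4_W_apply, ← hW, ← inner_star_right, sR] at e
    rw [← mul_assoc, hWR]
    exact e
  have hWA : W * (R * T) = R * T := by
    apply sqrt_unique WA0 A0
    have s1 : star (W * (R * T)) = W * (R * T) := (IsSelfAdjoint.of_nonneg WA0).star_eq
    have s2 : star (R * T) = R * T := (IsSelfAdjoint.of_nonneg A0).star_eq
    calc W * (R * T) * (W * (R * T)) = star (W * (R * T)) * (W * (R * T)) := by rw [s1]
      _ = R * T * (V * W) * (R * T) := by rw [star_mul, s2, sW]; simp only [mul_assoc]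
      _ = R * T * (R * T) := by rw [hVW, mul_one]
  have hAW : R * T * W = R * T := by
    rw [mul_assoc, ← hWT, ← mul_assoc, ← hWR, mul_assoc, hWA]
  have W1 : ∀ ξ, W ξ = ξ := fun ξ => by
    have e1 : R (T (W ξ - ξ)) = 0 := by
      have e := congrArg (fun S : H →L[ℂ] H => S ξ) hAW
      simp only [mul_apply_eq_comp] at e
      rw [map_sub, map_sub, e, sub_self]
    have e2 := hR.inj _ e1
    have e3 : R ((2 - R) (W ξ - ξ)) = 0 := by
      rw [← mul_apply_eq_comp, ← TT, mul_apply_eq_comp, e2, map_zero]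
    exact sub_eq_zero.mp (hR.inj' _ (hR.inj _ e3))
  apply LinearIsometryEquiv.ext
  intro η
  have e := W1 (J₀ η)
  rwa [hW, rvd4_W_apply, hJ₀] at e

theorem J_unique {J J' : H ≃ₗᵢ⋆[ℂ] H} (h : StdV M J ζ) (h' : StdV M J' ζ) : J = J' := by
  obtain ⟨R, D, hR⟩ := exists_rvd h.cyc h.sepg
  obtain ⟨J₀, E, hE⟩ := exists_rvj hR
  have h₀ := (tomita h.cyc h.sepg hR hE).std
  rw [rvd4_eq h h₀ hR hE, rvd4_eq h' h₀ hR hE]

theorem exists_std (hc : Cyc M ζ) (hs : Sepg M ζ) : ∃ J : H ≃ₗᵢ⋆[ℂ] H, StdV M J ζ := by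
  obtain ⟨R, D, hR⟩ := exists_rvd hc hs
  obtain ⟨J₀, E, hE⟩ := exists_rvj hR
  exact ⟨J₀, (tomita hc hs hR hE).std⟩

theorem exists_mod {J : H ≃ₗᵢ⋆[ℂ] H} (h : StdV M J ζ) : ∃ E : SpecCalc ℝ H, ModD M J ζ E := by
  obtain ⟨R, D, hR⟩ := exists_rvd h.cyc h.sepg
  obtain ⟨J₀, E, hE⟩ := exists_rvj hR
  have h₀ := tomita h.cyc h.sepg hR hE
  rw [rvd4_eq h h₀.std hR hE]
  exact ⟨E, h₀⟩

end Pool.Agent.P.MP_5d580a_an
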