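import Pool.Agent.P.MP_5d580a_an.SpecMul
import Pool.Agent.P.MP_5d580a_an.RvD4
import Pool.Agent.P.MP_5d580a_an.Amp

open scoped ComplexOrder InnerProductSpace ComplexConjugate BoundedContinuousFunction
open MeasureTheory Filter Topology

set_option linter.unusedSectionVars false
set_option linter.unusedVariables false

noncomputable section

namespace Pool.Agent.P.MP_5d580a_an

variable {H : Type} [NormedAddCommGroup H] [InnerProductSpace ℂ H] [CompleteSpace H]

variable {M : VonNeumannAlgebra H} {J : H ≃ₗᵢ⋆[ℂ] H} {ζ : H}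

section Aux

variable {ι : Type} [Fintype ι] [DecidableEq ι]

/-- matrix with a single entry -/
def change_sg (i j : ι) (a : H →L[ℂ] H) : ι → ι → (H →L[ℂ] H) :=
  fun k l => if k = i ∧ l = j then a else 0

theorem change_sg_mem {N : VonNeumannAlgebra H} (i j : ι) {a : H →L[ℂ] H} (ha : a ∈ N) (k l : ι) :
    change_sg i j a k l ∈ N := by
  unfold change_sg
  split_ifs
  exacts [ha, zero_mem _]

theorem change_sg_star (i j : ι) (a : H →L[ℂ] H) :
    (fun k l => star (change_sg i j a l k)) = change_sg j i (star a) := by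
  funext k l
  unfold change_sg
  by_cases h : l = i ∧ k = j
  · rw [if_pos h, if_pos h.symm]
  · rw [if_neg h, if_neg fun h' => h h'.symm, star_zero]

theorem change_prj_mat (i j k l : ι) (a : H →L[ℂ] H) (v : HM ι H) :
    prj k l (mat (change_sg i j a) v) = if k = i then a (prj j l v) else 0 := by
  rw [prj_mat, Finset.sum_eq_single j (fun m _ hm => by simp [change_sg, hm]) (by simp)]
  by_cases h : k = i <;> simp [change_sg, h]

theorem change_prj_rmat (i j k l : ι) (a : H →L[ℂ] H) (v : HM ι H) :
    prj k l (rmat (change_sg i j a) v) = if l = i then a (prj k j v) else 0 := by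
  rw [prj_rmat, Finset.sum_eq_single j (fun m _ hm => by simp [change_sg, hm]) (by simp)]
  by_cases h : l = i <;> simp [change_sg, h]

theorem change_mat_inj (i j l : ι) (a : H →L[ℂ] H) (η : H) :
    mat (change_sg i j a) (inj j l η) = inj i l (a η) := by
  refine hm_ext fun k m => ?_
  rw [change_prj_mat, prj_inj, prj_inj]
  by_cases h : k = i <;> by_cases h' : m = l <;> simp [h, h']

theorem change_rmat_inj (i j k : ι) (a : H →L[ℂ] H) (η : H) :
    rmat (change_sg i j a) (inj k j η) = inj k i (a η) := by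
  refine hm_ext fun l m => ?_
  rw [change_prj_rmat, prj_inj, prj_inj]
  by_cases h : l = k <;> by_cases h' : m = i <;> simp [h, h']

theorem change_mat_dvec (i j : ι) (a : H →L[ℂ] H) (z : ι → H) :
    mat (change_sg i j a) (dvec z) = inj i j (a (z j)) := by
  refine hm_ext fun k m => ?_
  rw [prj_mat_dvec, prj_inj, change_sg]
  by_cases h : k = i ∧ m = j
  · rw [if_pos h, if_pos h, h.2]
  · rw [if_neg h, if_neg h, zero_apply]

theorem change_entry_mat (a : ι → ι → (H →L[ℂ] H)) (i j l : ι) (η : H) :
    prj i l (mat a (inj j l η)) = a i j η := by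
  rw [prj_mat, Finset.sum_eq_single j (fun m _ hm => by simp [prj_inj, hm]) (by simp), prj_inj,
    if_pos ⟨rfl, rfl⟩]

theorem change_entry_rmat (a : ι → ι → (H →L[ℂ] H)) (i j k : ι) (η : H) :
    prj k i (rmat a (inj k j η)) = a i j η := by
  rw [prj_rmat, Finset.sum_eq_single j (fun m _ hm => by simp [prj_inj, hm]) (by simp), prj_inj,
    if_pos ⟨rfl, rfl⟩]

variable {J' : HM ι H ≃ₗᵢ⋆[ℂ] HM ι H} {z : ι → H}

/-- the blocks of the conjugation -/
def change_T (J' : HM ι H ≃ₗᵢ⋆[ℂ] HM ι H) (i j : ι) (η : H) : H := prj j i (J' (inj i j η))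

theorem change_block (h : StdV (amp ι M) J' (dvec z)) (i j : ι) (η : H) :
    J' (inj i j η) = inj j i (change_T J' i j η) := by
  obtain ⟨E, hE⟩ := exists_mod h
  have hs : ∀ k : ι, star (mat (change_sg k k (1 : H →L[ℂ] H))) = mat (change_sg k k 1) :=
    fun k => by rw [star_mat, change_sg_star, star_one]
  have he : ∀ k : ι, rm J' (mat (change_sg k k (1 : H →L[ℂ] H))) = rmat (change_sg k k 1) := by
    intro k
    refine hE.rm_eq_of_apply_eq (mem_amp.2 ⟨_, change_sg_mem k k (one_mem M), rfl⟩)
      (mem_amp_commutant.2 ⟨_, change_sg_mem k k (one_mem _), rfl⟩) (hs k) ?_ ?_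
    · rw [IsSelfAdjoint, star_rmat, change_sg_star, star_one]
    · refine hm_ext fun l m => ?_
      rw [prj_mat_dvec, prj_rmat_dvec, change_sg, change_sg]
      by_cases h : l = k ∧ m = k
      · rw [if_pos h, if_pos h.symm, h.1, h.2]
      · rw [if_neg h, if_neg fun h' => h h'.symm]
        rfl
  have h1 := J_apply h.stdJ.invol (mat (change_sg i i 1)) (inj i j η)
  rw [change_mat_inj, hs, he, one_apply_eq_self] at h1
  have h2 := J_rm h.stdJ.invol (mat (change_sg j j 1)) (inj i j η)
  rw [he, change_rmat_inj, hs, one_apply_eq_self] at h2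
  refine hm_ext fun k l => ?_
  rw [prj_inj]
  split_ifs with hk
  · rw [hk.1, hk.2, change_T]
  · by_cases h' : k = j
    · rw [h1, change_prj_rmat, if_neg fun e => hk ⟨h', e⟩]
    · rw [h2, change_prj_mat, if_neg h']

theorem change_T_T (h : StdV (amp ι M) J' (dvec z)) (i j : ι) (η : H) :
    change_T J' j i (change_T J' i j η) = η := by
  rw [change_T, ← change_block h, h.stdJ.invol, prj_inj, if_pos ⟨rfl, rfl⟩]

theorem change_T_norm (h : StdV (amp ι M) J' (dvec z)) (i j : ι) (η : H) :
    ‖change_T J' i j η‖ = ‖η‖ := by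
  rw [← norm_inj j i, ← change_block h, J'.norm_map, norm_inj]

theorem change_T_fix (h : StdV (amp ι M) J' (dvec z)) (i : ι) : change_T J' i i (z i) = z i := by
  have := congrArg (prj i i) h.fix
  rw [prj_dvec, if_pos rfl, dvec, map_sum, map_sum,
    Finset.sum_eq_single i (fun m _ hm => by rw [change_block h, prj_inj, if_neg fun e => hm e.1.symm])
      (by simp)] at this
  exact this

theorem change_T_pos (h : StdV (amp ι M) J' (dvec z)) (i j : ι) {a : H →L[ℂ] H} (ha : a ∈ M) :
    0 ≤ ⟪z i, a (change_T J' i j (a (z j)))⟫_ℂ := by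
  have := h.pos _ (mem_amp.2 ⟨_, change_sg_mem i j ha, rfl⟩)
  rwa [ad, rm_apply, star_star, h.fix, change_mat_dvec, change_block h, change_mat_inj,
    ← inner_conj_symm, inner_inj, prj_dvec, if_pos rfl, inner_conj_symm] at this

theorem change_T_row (h : StdV (amp ι M) J' (dvec z)) (i k : ι) :
    ∃ w ∈ M.commutant, ∀ j η, change_T J' k j η = w (change_T J' i j η) := by
  obtain ⟨y, hy, e⟩ := mem_amp_commutant.1
    (h.stdJ.mem _ (mem_amp.2 ⟨_, change_sg_mem i k (one_mem M), rfl⟩))
  refine ⟨y k i, hy k i, fun j η => ?_⟩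
  have := J_apply h.stdJ.invol (mat (change_sg k i 1)) (inj i j η)
  rw [change_mat_inj, star_mat, change_sg_star, star_one, e, change_block h i] at this
  rw [← change_entry_rmat y k i j, ← this]
  rfl

/-- a diagonal block of the conjugation -/
def change_J (h : StdV (amp ι M) J' (dvec z)) (i : ι) : H ≃ₗᵢ⋆[ℂ] H where
  toFun := change_T J' i i
  invFun := change_T J' i i
  map_add' ξ η := by simp only [change_T, map_add]
  map_smul' c ξ := by simp only [change_T, map_smul, J_smul]
  left_inv := change_T_T h i i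
  right_inv := change_T_T h i i
  norm_map' := change_T_norm h i i

theorem change_J_std (h : StdV (amp ι M) J' (dvec z)) (i : ι) (hc : Cyc M (z i)) :
    StdV M (change_J h i) (z i) := by
  have ap : ∀ η, change_J h i η = change_T J' i i η := fun _ => rfl
  refine ⟨⟨change_T_T h i i, fun x hx => ?_, fun x hx => ?_⟩, change_T_fix h i, hc,
    fun a ha => ?_⟩
  · obtain ⟨y, hy, e⟩ := mem_amp_commutant.1
      (h.stdJ.mem _ (mem_amp.2 ⟨_, change_sg_mem i i hx, rfl⟩))
    have : rm (change_J h i) x = y i i := by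
      ext η
      rw [← change_entry_rmat y i i i, ← e, rm_apply, rm_apply, star_mat, change_sg_star,
        change_block h, change_mat_inj]
      rfl
    exact this ▸ hy i i
  · obtain ⟨y, hy, e⟩ := mem_amp.1
      (h.stdJ.mem' _ (mem_amp_commutant.2 ⟨_, change_sg_mem i i hx, rfl⟩))
    have : rm (change_J h i) x = y i i := by
      ext η
      rw [← change_entry_mat y i i i, ← e, rm_apply, rm_apply, star_rmat, change_sg_star,
        change_block h, change_rmat_inj]
      rfl
    exact this ▸ hy i i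
  · rw [ad, rm_apply, star_star, ap, ap, change_T_fix h]
    exact change_T_pos h i i ha

end Aux

/-- a cyclic and separating vector is moved into the natural cone by a unitary of the commutant -/
theorem std_change (h : StdV M J ζ) {ξ : H} (hc : Cyc M ξ) (hs : Sepg M ξ) :
    ∃ u ∈ M.commutant, u ∈ unitary (H →L[ℂ] H) ∧ StdV M J (u ξ) ∧ CPos M J ζ (u ξ) := by
  obtain ⟨J', h'⟩ := exists_std (M := amp (Fin 2) M) (ζ := dvec ![ζ, ξ])
    (cyc_amp (Fin.forall_fin_two.2 ⟨h.cyc, hc⟩)) (sepg_amp (Fin.forall_fin_two.2 ⟨h.sepg, hs⟩))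
  have e0 : ∀ η, change_T J' 0 0 η = J η := fun η =>
    congrArg (fun K : H ≃ₗᵢ⋆[ℂ] H => K η) (J_unique (change_J_std h' 0 h.cyc) h)
  obtain ⟨w, hw, e1⟩ := change_T_row h' 0 1
  have hJ := h.stdJ.invol
  have e2 : ∀ η, w η = change_T J' 1 0 (J η) := fun η => by rw [e1, e0, hJ]
  have w1 : star w * w = 1 := by
    refine ext_inner_self fun η => ?_
    rw [mul_apply_eq_comp, inner_star_right, inner_self_eq_norm_sq_to_K,
      one_apply_eq_self, inner_self_eq_norm_sq_to_K, e2, change_T_norm h', J.norm_map]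
  have w1' : ∀ η, (star w) (w η) = η := fun η => congrArg (fun T : H →L[ℂ] H => T η) w1
  have e3 : ∀ η, w (J (change_T J' 0 1 η)) = η := fun η => by rw [e2, hJ, change_T_T h']
  have e4 : ∀ η, J ((star w) η) = change_T J' 0 1 η := fun η => by
    conv_lhs => rw [← e3 η, w1', hJ]
  have w2' : ∀ η, w ((star w) η) = η := fun η => by rw [← hJ ((star w) η), e4, e3]
  have w2 : w * star w = 1 := ContinuousLinearMap.ext w2'
  have hu := star_mem hw
  have fx : J ((star w) ξ) = (star w) ξ := by
    have : change_T J' 1 1 ξ = ξ := change_T_fix h' 1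
    conv_rhs => rw [← this, e1, w1', ← e4]
  have had : ∀ a ∈ M, ad J a ((star w) ξ) = a (change_T J' 0 1 (a ξ)) := fun a ha => by
    rw [ad, rm_apply, star_star, fx, commute_apply ha hu, e4]
  refine ⟨star w, hu, Unitary.mem_iff.2 ⟨by rw [star_star, w2], by rw [star_star, w1]⟩,
    ⟨h.stdJ, fx, ?_, fun a ha => ?_⟩, fun a ha => ?_⟩
  · refine (DenseRange.dense_image (Function.Surjective.denseRange fun η => ⟨w η, w1' η⟩)
      (star w).continuous hc).mono ?_
    rintro _ ⟨_, ⟨x, hx, rfl⟩, rfl⟩
    exact ⟨x, hx, (commute_apply hx hu ξ).symm⟩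
  · rw [had a ha, inner_star_left, ← commute_apply ha hw, ← e1]
    exact change_T_pos h' 1 1 ha
  · rw [had a ha]
    exact change_T_pos h' 0 1 ha

end Pool.Agent.P.MP_5d580a_an
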