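import Pool.Agent.P.MP_5d580a_an.SpecMul
import Pool.Agent.P.MP_5d580a_an.RvD4

open scoped ComplexOrder InnerProductSpace ComplexConjugate BoundedContinuousFunction
open MeasureTheory Filter Topology

set_option linter.unusedSectionVars false
set_option linter.unusedVariables false

noncomputable section

namespace Pool.Agent.P.MP_5d580a_an

variable {H : Type} [NormedAddCommGroup H] [InnerProductSpace ℂ H] [CompleteSpace H]

variable {M : VonNeumannAlgebra H} {J : H ≃ₗᵢ⋆[ℂ] H} {ζ : H}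

namespace ConnesAux

variable {E : SpecCalc ℝ H}

theorem sig_cent (hE : ModD M J ζ E) {p : H →L[ℂ] H} (hp : Cent M J ζ p) (t : ℝ) :
    E.sig t p = p := by
  have h := (hE.cm_iff_U hp.1).1 hp.2.2 t
  rw [SpecCalc.sig, h, mul_assoc, E.U_mul_neg, mul_one]

theorem mul_sig (hE : ModD M J ζ E) {p x : H →L[ℂ] H} (hp : Cent M J ζ p) (h : p * x = x)
    (t : ℝ) : p * E.sig t x = E.sig t x := by
  conv_lhs => rw [← sig_cent hE hp t]
  rw [← E.sig_mul, h]

theorem sig_mul' (hE : ModD M J ζ E) {p x : H →L[ℂ] H} (hp : Cent M J ζ p) (h : x * p = x)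
    (t : ℝ) : E.sig t x * p = E.sig t x := by
  conv_lhs => rw [← sig_cent hE hp t]
  rw [← E.sig_mul, h]

theorem specIn_sig (hE : ModD M J ζ E) {x : H →L[ℂ] H} {a b : ℝ} (h : SpecIn E (x ζ) a b)
    (t : ℝ) : SpecIn E (E.sig t x ζ) a b := by
  rw [SpecIn, hE.sig_apply, E.μ_U]
  exact h

theorem left_of_corner {p q x : H →L[ℂ] H} (hp : IsStarProjection p) (h : p * x * q = x) :
    p * x = x := by
  conv_lhs => rw [← h, ← mul_assoc, ← mul_assoc, hp.isIdempotentElem.eq]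
  exact h

theorem right_of_corner {p q x : H →L[ℂ] H} (hq : IsStarProjection q) (h : p * x * q = x) :
    x * q = x := by
  conv_lhs => rw [← h, mul_assoc, hq.isIdempotentElem.eq]
  exact h

theorem star_left {p x : H →L[ℂ] H} (hp : IsStarProjection p) (h : x * p = x) :
    p * star x = star x := by
  have := congrArg star h
  rwa [star_mul, hp.isSelfAdjoint.star_eq] at this

theorem star_right {p x : H →L[ℂ] H} (hp : IsStarProjection p) (h : p * x = x) :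
    star x * p = star x := by
  have := congrArg star h
  rwa [star_mul, hp.isSelfAdjoint.star_eq] at this

theorem link (hM : IsFactor M) (hE : ModD M J ζ E) {p q : H →L[ℂ] H} (hp : Cent M J ζ p)
    (hq : Cent M J ζ q) (hp0 : p ≠ 0) (hq0 : q ≠ 0) {δ : ℝ} (hδ : 0 < δ) :
    ∃ (ν : ℝ) (v p' : H →L[ℂ] H), v ∈ M ∧ q * v = v ∧ SpecIn E (v ζ) (ν - δ) (ν + δ) ∧
      Cent M J ζ p' ∧ p' ≠ 0 ∧ p * p' = p' ∧
      (∀ x, x ≠ 0 → p' * x = x → ∃ t, E.sig t v * x ≠ 0) ∧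
      ∀ y, y ≠ 0 → y * p' = y → ∃ t, y * E.sig t (star v) ≠ 0 := by
  have h1 : ∃ a ∈ M, q * a * p ≠ 0 := by
    by_contra hc
    push Not at hc
    rcases hM q hq.1 p hp.1 hc with h | h
    · exact hq0 h
    · exact hp0 h
  obtain ⟨a, ha, ha0⟩ := h1
  obtain ⟨ν, hν⟩ := exists_win_ne E hδ ha0
  have hmem : q * a * p ∈ M := mul_mem (mul_mem hq.1 ha) hp.1
  have hc : q * (q * a * p) * p = q * a * p := by
    rw [← mul_assoc, ← mul_assoc, hq.2.1.isIdempotentElem.eq, mul_assoc (q * a),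
      hp.2.1.isIdempotentElem.eq]
  have hw := hE.win_corner hδ ν hq hp hc
  have hv : win E δ ν (q * a * p) ∈ M := hE.win_mem hδ ν hmem
  have hs := hE.specIn_win hδ ν (q * a * p)
  generalize win E δ ν (q * a * p) = v at hν hw hv hs
  obtain ⟨p', hp', h1, h2, h3⟩ := hE.exists_orbit_proj (star_mem hv)
  have key : ∀ y, y ≠ 0 → y * p' = y → ∃ t, y * E.sig t (star v) ≠ 0 := by
    intro y hy hyp
    by_contra hc
    push Not at hc
    exact hy (hyp ▸ h2 y hc)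
  refine ⟨ν, v, p', hv, left_of_corner hq.2.1 hw, hs, hp', ?_,
    h3 p hp (star_left hp.2.1 (right_of_corner hp.2.1 hw)), ?_, key⟩
  · rintro rfl
    rw [zero_mul] at h1
    exact hν (star_eq_zero.1 h1.symm)
  · intro x hx hpx
    obtain ⟨t, ht⟩ := key (star x) (star_ne_zero.2 hx) (star_right hp'.2.1 hpx)
    refine ⟨t, fun h0 => ht ?_⟩
    rw [E.sig_star, ← star_mul, h0, star_zero]

/-- the Connes spectrum -/
def Gam (hE : ModD M J ζ E) : AddSubgroup ℝ where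
  carrier := {l | ∀ p, Cent M J ζ p → p ≠ 0 → SpI M J ζ p l}
  zero_mem' := by
    intro p hp hp0 ε hε
    refine ⟨p, hp.1, by rw [hp.2.1.isIdempotentElem.eq, hp.2.1.isIdempotentElem.eq], hp0, ?_⟩
    have h := hp.2.2
    rw [cm, sub_eq_zero] at h
    rw [← h]
    simp only [zero_div, Real.exp_zero, Complex.ofReal_one, one_smul, sub_self, norm_zero]
    positivity
  neg_mem' := fun h p hp hp0 => hE.spI_neg hp (h p hp hp0)
  add_mem' := by
    intro l₂ l₁ h₂ h₁ p hp hp0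
    rw [hE.spI_iff hp]
    intro δ hδ
    obtain ⟨x₁, hx₁, hc₁, h0₁, hs₁⟩ := (hE.spI_iff hp l₁).1 (h₁ p hp hp0) (δ / 2) (half_pos hδ)
    obtain ⟨p', hp', h1, h2, h3⟩ := hE.exists_orbit_proj hx₁
    have hp'0 : p' ≠ 0 := by
      rintro rfl
      rw [zero_mul] at h1
      exact h0₁ h1.symm
    have hpp := h3 p hp (left_of_corner hp.2.1 hc₁)
    obtain ⟨x₂, hx₂, hc₂, h0₂, hs₂⟩ :=
      (hE.spI_iff hp' l₂).1 (h₂ p' hp' hp'0) (δ / 2) (half_pos hδ)
    have h4 : ∃ t, x₂ * E.sig t x₁ ≠ 0 := by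
      by_contra hc
      push Not at hc
      exact h0₂ (right_of_corner hp'.2.1 hc₂ ▸ h2 x₂ hc)
    obtain ⟨t, ht⟩ := h4
    have h5 : p * x₂ = x₂ := by
      have := left_of_corner hp'.2.1 hc₂
      conv_lhs => rw [← this, ← mul_assoc, hpp]
      exact this
    refine ⟨x₂ * E.sig t x₁, mul_mem hx₂ (hE.inv t x₁ hx₁), ?_, ht, ?_⟩
    · rw [← mul_assoc, h5, mul_assoc, sig_mul' hE hp (right_of_corner hp.2.1 hc₁)]
    · exact (hE.specIn_mul hx₂ hs₂ (specIn_sig hE hs₁ t)).mono (by linarith) (by linarith)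

theorem isClosed_Gam (hE : ModD M J ζ E) : IsClosed (Gam hE : Set ℝ) := by
  have : (Gam hE : Set ℝ) = ⋂ p, ⋂ (_ : Cent M J ζ p), ⋂ (_ : p ≠ 0), {l | SpI M J ζ p l} := by
    ext l
    simp only [Set.mem_iInter]
    rfl
  rw [this]
  exact isClosed_iInter fun p => isClosed_iInter fun hp => isClosed_iInter fun _ =>
    hE.isClosed_spI hp

end ConnesAux

open ConnesAux

theorem corner_compare (hM : IsFactor M) (h : StdV M J ζ) {p q : H →L[ℂ] H} (hp : Cent M J ζ p)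
    (hq : Cent M J ζ q) (hp0 : p ≠ 0) (hq0 : q ≠ 0) {δ : ℝ} (hδ : 0 < δ) :
    ∃ p', Cent M J ζ p' ∧ p' ≠ 0 ∧ p * p' = p' ∧
      ∀ l, SpI M J ζ p' l → ∃ l', |l' - l| ≤ δ ∧ SpI M J ζ q l' := by
  obtain ⟨E, hE⟩ := exists_mod h
  obtain ⟨ν, v, p', hv, hqv, hs, hp', hp'0, hpp, hl, hr⟩ :=
    link hM hE hp hq hp0 hq0 (δ := δ / 4) (by linarith)
  refine ⟨p', hp', hp'0, hpp, fun l hl' => ?_⟩
  obtain ⟨x, hx, hc, h0, hsx⟩ := (hE.spI_iff hp' l).1 hl' (δ / 2) (half_pos hδ)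
  obtain ⟨t, ht⟩ := hl x h0 (left_of_corner hp'.2.1 hc)
  obtain ⟨t', ht'⟩ := hr _ ht (by rw [mul_assoc, right_of_corner hp'.2.1 hc])
  have hz : E.sig t v * x * E.sig t' (star v) ∈ M :=
    mul_mem (mul_mem (hE.inv t v hv) hx) (hE.inv t' _ (star_mem hv))
  have hcz : q * (E.sig t v * x * E.sig t' (star v)) * q = E.sig t v * x * E.sig t' (star v) := by
    rw [← mul_assoc, ← mul_assoc, mul_sig hE hq hqv, mul_assoc _ _ q,
      sig_mul' hE hq (star_right hq.2.1 hqv)]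
  have hsz := hE.specIn_mul (hE.inv t v hv) (specIn_sig hE hs t)
    (hE.specIn_mul hx hsx (specIn_sig hE (hE.specIn_star hv hs) t'))
  obtain ⟨l', h1, h2, h3⟩ := hE.exists_spI hq hz hcz ht' hsz
  exact ⟨l', abs_le.2 ⟨by linarith, by linarith⟩, h3⟩

theorem full_of_corner (hM : IsFactor M) (h : StdV M J ζ) {p₀ : H →L[ℂ] H} (hp : Cent M J ζ p₀)
    (hp0 : p₀ ≠ 0) (hf : ∀ p, Cent M J ζ p → p ≠ 0 → p₀ * p = p → ∀ l, SpI M J ζ p l) :
    Full M J ζ := by
  obtain ⟨E, hE⟩ := exists_mod h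
  intro q hq hq0 l
  refine (hE.isClosed_spI hq).closure_subset (Metric.mem_closure_iff.2 fun ε hε => ?_)
  obtain ⟨p', hp', hp'0, hpp, hl⟩ := corner_compare hM h hp hq hp0 hq0 (half_pos hε)
  obtain ⟨l', h1, h2⟩ := hl l (hf p' hp' hp'0 hpp l)
  refine ⟨l', h2, ?_⟩
  rw [dist_comm, Real.dist_eq]
  linarith

theorem exists_gap (hM : IsFactor M) (h : StdV M J ζ) (hn : ¬ Full M J ζ) :
    ∃ η₀ : ℝ, 0 < η₀ ∧ ∀ η : ℝ, 0 < η → η ≤ η₀ → ∀ p, Cent M J ζ p → p ≠ 0 →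
      ∃ f, Cent M J ζ f ∧ f ≠ 0 ∧ p * f = f ∧ Gap M J ζ f η := by
  obtain ⟨E, hE⟩ := exists_mod h
  have h1 : ∃ c : ℝ, 0 < c ∧ ∀ l, 0 < |l| → |l| ≤ c → l ∉ Gam hE := by
    rcases (Gam hE).dense_or_cyclic with hd | ⟨a, ha⟩
    · exfalso
      refine hn fun p hp hp0 l => ?_
      have hl : l ∈ (Gam hE : Set ℝ) := (isClosed_Gam hE).closure_subset (hd l)
      exact hl p hp hp0
    · by_cases ha0 : a = 0
      · refine ⟨1, one_pos, fun l hl _ hm => ?_⟩
        rw [ha, AddSubgroup.mem_closure_singleton] at hm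
        obtain ⟨n, rfl⟩ := hm
        simp [ha0] at hl
      · have hpos : 0 < |a| := abs_pos.2 ha0
        refine ⟨|a| / 2, half_pos hpos, fun l hl hc hm => ?_⟩
        rw [ha, AddSubgroup.mem_closure_singleton] at hm
        obtain ⟨n, rfl⟩ := hm
        have hn0 : n ≠ 0 := by
          rintro rfl
          simp at hl
        have h1 : (1 : ℝ) ≤ |(n : ℝ)| := by exact_mod_cast Int.one_le_abs hn0
        rw [zsmul_eq_mul, abs_mul] at hc
        nlinarith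
  obtain ⟨c, hc, hΓ⟩ := h1
  refine ⟨c / 5, by linarith, fun η hη hηc => ?_⟩
  have hK : IsCompact {l : ℝ | η ≤ |l| ∧ |l| ≤ 5 * η} := by
    refine (isCompact_Icc (a := -(5 * η)) (b := 5 * η)).of_isClosed_subset ?_ ?_
    · exact (isClosed_le continuous_const continuous_abs).inter
        (isClosed_le continuous_abs continuous_const)
    · exact fun l hl => abs_le.1 hl.2
  have key := hK.induction_on (p := fun S => ∀ p, Cent M J ζ p → p ≠ 0 →
      ∃ f, Cent M J ζ f ∧ f ≠ 0 ∧ p * f = f ∧ ∀ l ∈ S, ¬ SpI M J ζ f l)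
    (fun p hp hp0 => ⟨p, hp, hp0, hp.2.1.isIdempotentElem.eq, fun l hl => hl.elim⟩)
    (fun s t hst ht p hp hp0 => by
      obtain ⟨f, h1, h2, h3, h4⟩ := ht p hp hp0
      exact ⟨f, h1, h2, h3, fun l hl => h4 l (hst hl)⟩)
    (fun s t hs ht p hp hp0 => by
      obtain ⟨f, h1, h2, h3, h4⟩ := hs p hp hp0
      obtain ⟨g, g1, g2, g3, g4⟩ := ht f h1 h2
      refine ⟨g, g1, g2, ?_, ?_⟩
      · conv_lhs => rw [← g3, ← mul_assoc, h3]
        exact g3
      · rintro l (hl | hl)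
        · exact fun hg => h4 l hl (hg.mono g1.2.1 h1.2.1 g3)
        · exact g4 l hl)
    (fun l hl => by
      have h0 : l ∉ Gam hE := hΓ l (hη.trans_le hl.1) (by linarith [hl.2])
      have h1 : ∃ q, Cent M J ζ q ∧ q ≠ 0 ∧ ¬ SpI M J ζ q l := by
        by_contra hcon
        push Not at hcon
        exact h0 hcon
      obtain ⟨q, hq, hq0, hql⟩ := h1
      obtain ⟨ε, hε, hb⟩ := Metric.isOpen_iff.1 (hE.isClosed_spI hq).isOpen_compl l hql
      refine ⟨Metric.ball l (ε / 2),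
        mem_nhdsWithin_of_mem_nhds (Metric.ball_mem_nhds l (half_pos hε)), fun p hp hp0 => ?_⟩
      obtain ⟨p', hp', hp'0, hpp, hl'⟩ := corner_compare hM h hp hq hp0 hq0 (half_pos hε)
      refine ⟨p', hp', hp'0, hpp, fun l' hb' hs => ?_⟩
      obtain ⟨l'', h2, h3⟩ := hl' l' hs
      refine hb (show l'' ∈ Metric.ball l ε from ?_) h3
      rw [Metric.mem_ball, Real.dist_eq] at hb' ⊢
      have := abs_sub_le l'' l' l
      linarith)
  intro p hp hp0
  obtain ⟨f, h1, h2, h3, h4⟩ := key p hp hp0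
  exact ⟨f, h1, h2, h3, fun l ha hb => h4 l ⟨ha, hb⟩⟩

theorem exists_near_central (hM : IsFactor M) (h : StdV M J ζ) (hF : Full M J ζ)
    {p q : H →L[ℂ] H} (hp : Cent M J ζ p) (hq : Cent M J ζ q) (hp0 : p ≠ 0) (hq0 : q ≠ 0)
    {δ : ℝ} (hδ : 0 < δ) :
    ∃ X ∈ M, q * X = X ∧ X * p = X ∧ X ≠ 0 ∧ ‖cm J X ζ‖ ≤ δ * ‖X ζ‖ := by
  obtain ⟨E, hE⟩ := exists_mod h
  have hδ' : 0 < Real.log (1 + δ) := Real.log_pos (by linarith)
  obtain ⟨ν, v, p', hv, hqv, hs, hp', hp'0, hpp, hl, -⟩ := link hM hE hp hq hp0 hq0 hδ'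
  obtain ⟨x, hx, hc, h0, hsx⟩ := (hE.spI_iff hp' (-ν)).1 (hF p' hp' hp'0 (-ν)) _ hδ'
  obtain ⟨t, ht⟩ := hl x h0 (left_of_corner hp'.2.1 hc)
  have hX : E.sig t v * x ∈ M := mul_mem (hE.inv t v hv) hx
  refine ⟨E.sig t v * x, hX, by rw [← mul_assoc, mul_sig hE hq hqv], ?_, ht, ?_⟩
  · have h1 := right_of_corner hp'.2.1 hc
    have h2 : p' * p = p' := by
      have := star_right hp.2.1 hpp
      rwa [hp'.2.1.isSelfAdjoint.star_eq] at this
    have h3 : x * p = x := by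
      conv_lhs => rw [← h1, mul_assoc, h2]
      exact h1
    rw [mul_assoc, h3]
  · have hsX : SpecIn E ((E.sig t v * x) ζ) (0 - 2 * Real.log (1 + δ))
        (0 + 2 * Real.log (1 + δ)) :=
      (hE.specIn_mul (hE.inv t v hv) (specIn_sig hE hs t) hsx).mono (by linarith) (by linarith)
    have hb := hE.eig_bound hX (by linarith) hsX
    rw [mul_div_cancel_left₀ _ (two_ne_zero), Real.exp_log (by linarith)] at hb
    simp only [zero_div, Real.exp_zero, Complex.ofReal_one, one_smul, one_mul,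
      add_sub_cancel_left] at hb
    rw [cm, norm_sub_rev]
    exact hb

end Pool.Agent.P.MP_5d580a_an
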