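import Pool.Agent.P.MP_5d580a_an.Defs

open scoped ComplexOrder InnerProductSpace ComplexConjugate BoundedContinuousFunction
open MeasureTheory Filter Topology

set_option linter.unusedSectionVars false
set_option linter.unusedVariables false

noncomputable section

namespace Pool.Agent.P.MP_5d580a_an

variable {H : Type} [NormedAddCommGroup H] [InnerProductSpace ℂ H] [CompleteSpace H]

namespace CubeAux

/-- logarithm of the weight of one coordinate -/
def lw (t : ℝ) (y : Bool) : ℝ := (if y then t else 0) - Real.log (1 + Real.exp t)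

/-- the lowering matrix (`b` true) or the identity matrix (`b` false) of one coordinate -/
def am (t : ℝ) (b : Prop) [Decidable b] (x y : Bool) : ℝ :=
  if b then (if x = false ∧ y = true then √(1 + Real.exp (-t)) else 0) else if x = y then 1 else 0

theorem exp_lw_true (t : ℝ) : Real.exp (lw t true) = Real.exp t / (1 + Real.exp t) := by
  rw [lw, if_pos rfl, Real.exp_sub, Real.exp_log (by positivity)]

theorem exp_lw_false (t : ℝ) : Real.exp (lw t false) = 1 / (1 + Real.exp t) := by
  rw [lw, if_neg Bool.false_ne_true, Real.exp_sub, Real.exp_log (by positivity), Real.exp_zero]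

theorem sq_c (t : ℝ) : √(1 + Real.exp (-t)) * √(1 + Real.exp (-t)) = 1 + Real.exp (-t) :=
  Real.mul_self_sqrt (by positivity)

theorem w_sum (t : ℝ) : Real.exp (lw t true) + Real.exp (lw t false) = 1 := by
  rw [exp_lw_true, exp_lw_false]
  field_simp
  ring

theorem w_true (t : ℝ) : Real.exp (lw t true) * (1 + Real.exp (-t)) = 1 := by
  rw [exp_lw_true, Real.exp_neg]
  field_simp
  ring

theorem w_false (t : ℝ) : Real.exp (lw t false) * (1 + Real.exp (-t)) = Real.exp (-t) := by
  rw [exp_lw_false, Real.exp_neg]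
  field_simp
  ring

theorem two (t : ℝ) (b b' : Prop) [Decidable b] [Decidable b'] :
    ∑ x, ∑ y, Real.exp (lw t y) * (am t b x y * am t b' x y) = if b ↔ b' then 1 else 0 := by
  by_cases h : b <;> by_cases h' : b' <;> simp [am, h, h', sq_c, w_true, w_sum]

theorem four (t : ℝ) (b₁ b₂ b₃ b₄ : Prop) [Decidable b₁] [Decidable b₂] [Decidable b₃]
    [Decidable b₄] :
    ∑ z, ∑ y, Real.exp (lw t y) *
        ((∑ x, am t b₁ x z * am t b₂ x y) * ∑ x, am t b₃ x z * am t b₄ x y) =
      if (b₁ ↔ b₂) ∧ (b₃ ↔ b₄) then (if b₁ ∧ b₃ then 1 + Real.exp (-t) else 1)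
      else if (b₁ ↔ b₃) ∧ (b₂ ↔ b₄) then (if b₁ then Real.exp (-t) else 1) else 0 := by
  have h := w_true t
  by_cases h₁ : b₁ <;> by_cases h₂ : b₂ <;> by_cases h₃ : b₃ <;> by_cases h₄ : b₄ <;>
    simp [am, h₁, h₂, h₃, h₄, sq_c, w_true, w_false, w_sum]
  linear_combination (1 + Real.exp (-t)) * h

end CubeAux

open CubeAux in
theorem reservoir (L : Type) [Fintype L] [DecidableEq L] (ν : L → ℝ) :
    ∃ (ι : Type) (_ : Fintype ι) (_ : DecidableEq ι) (s : ι → ℝ) (ρ : L → ι → ι → ℝ),
      ∑ i, Real.exp (s i) = 1 ∧ (∀ l i j, ρ l i j ≠ 0 → s j = s i + ν l) ∧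
      (∀ l l', ∑ i, ∑ j, Real.exp (s j) * (ρ l i j * ρ l' i j) = if l = l' then 1 else 0) ∧
      ∀ l₁ l₂ l₃ l₄, ∑ k, ∑ j, Real.exp (s j) *
          ((∑ i, ρ l₁ i k * ρ l₂ i j) * ∑ i, ρ l₃ i k * ρ l₄ i j) =
        (if l₁ = l₂ ∧ l₃ = l₄ then 1 else 0) +
          if l₁ = l₃ ∧ l₂ = l₄ then Real.exp (-ν l₁) else 0 := by
  refine ⟨L → Bool, inferInstance, inferInstance, fun j => ∑ m, lw (ν m) (j m),
    fun l i j => ∏ m, am (ν m) (l = m) (i m) (j m), ?_, fun l i j h => ?_, fun l l' => ?_,
    fun l₁ l₂ l₃ l₄ => ?_⟩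
  · simp only [Real.exp_sum]
    rw [← Fintype.prod_sum fun m y => Real.exp (lw (ν m) y)]
    exact Finset.prod_eq_one fun m _ => by simp [w_sum]
  · have h1 := Finset.prod_ne_zero_iff.1 h
    rw [← sub_eq_iff_eq_add', ← Finset.sum_sub_distrib, Finset.sum_eq_single l]
    · have h2 := h1 l (Finset.mem_univ l)
      simp only [am, if_true, ne_eq, ite_eq_right_iff, Classical.not_imp] at h2
      simp [lw, h2.1.1, h2.1.2]
    · intro m _ hm
      have h2 := h1 m (Finset.mem_univ m)
      simp only [am, if_neg hm.symm, ne_eq, ite_eq_right_iff, Classical.not_imp] at h2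
      rw [h2.1, sub_self]
    · simp
  · simp only [Real.exp_sum, ← Finset.prod_mul_distrib]
    rw [Finset.sum_congr rfl fun i _ => (Fintype.prod_sum fun m y =>
      Real.exp (lw (ν m) y) * (am (ν m) (l = m) (i m) y * am (ν m) (l' = m) (i m) y)).symm,
      ← Fintype.prod_sum fun m x => ∑ y,
        Real.exp (lw (ν m) y) * (am (ν m) (l = m) x y * am (ν m) (l' = m) x y)]
    simp only [two]
    split_ifs with h
    · exact Finset.prod_eq_one fun m _ => by simp [h]
    · exact Finset.prod_eq_zero (Finset.mem_univ l) (by simp [Ne.symm h])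
  · have e : ∀ (l l' : L) (k j : L → Bool),
        ∑ i : L → Bool, (∏ m, am (ν m) (l = m) (i m) (k m)) * ∏ m, am (ν m) (l' = m) (i m) (j m) =
          ∏ m, ∑ x, am (ν m) (l = m) x (k m) * am (ν m) (l' = m) x (j m) := fun l l' k j => by
      simp only [← Finset.prod_mul_distrib]
      exact (Fintype.prod_sum fun m x =>
        am (ν m) (l = m) x (k m) * am (ν m) (l' = m) x (j m)).symm
    simp only [e]
    simp only [Real.exp_sum, ← Finset.prod_mul_distrib]
    rw [Finset.sum_congr rfl fun k _ => (Fintype.prod_sum fun m y => Real.exp (lw (ν m) y) *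
      ((∑ x, am (ν m) (l₁ = m) x (k m) * am (ν m) (l₂ = m) x y) *
        ∑ x, am (ν m) (l₃ = m) x (k m) * am (ν m) (l₄ = m) x y)).symm,
      ← Fintype.prod_sum fun m z => ∑ y, Real.exp (lw (ν m) y) *
        ((∑ x, am (ν m) (l₁ = m) x z * am (ν m) (l₂ = m) x y) *
          ∑ x, am (ν m) (l₃ = m) x z * am (ν m) (l₄ = m) x y)]
    simp only [four]
    by_cases h : l₁ = l₂ ∧ l₃ = l₄
    · obtain ⟨rfl, rfl⟩ := h
      rw [Finset.prod_eq_single l₁ (fun m _ hm => by simp [hm.symm]) (by simp)]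
      by_cases h' : l₁ = l₃
      · simp [h']
      · simp [h', Ne.symm h']
    · by_cases h' : l₁ = l₃ ∧ l₂ = l₄
      · obtain ⟨rfl, rfl⟩ := h'
        have h2 : l₁ ≠ l₂ := fun h2 => h ⟨h2, h2⟩
        rw [Finset.prod_eq_single l₁ (fun m _ hm => by simp [hm.symm]) (by simp)]
        simp [h2, h2.symm]
      · rw [if_neg h, if_neg h', add_zero]
        rw [not_and_or] at h h'
        rcases h with h | h <;> rcases h' with h' | h'
        · exact Finset.prod_eq_zero (Finset.mem_univ l₁) (by simp [Ne.symm h, Ne.symm h'])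
        · exact Finset.prod_eq_zero (Finset.mem_univ l₂) (by simp [h, Ne.symm h'])
        · exact Finset.prod_eq_zero (Finset.mem_univ l₃) (by simp [Ne.symm h, h'])
        · exact Finset.prod_eq_zero (Finset.mem_univ l₄) (by simp [h, h'])

end Pool.Agent.P.MP_5d580a_an
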