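import Pool.Agent.P.MP_5d580a_an.CalcSa

open scoped ComplexOrder InnerProductSpace ComplexConjugate BoundedContinuousFunction
open MeasureTheory Filter Topology

set_option linter.unusedSectionVars false
set_option linter.unusedVariables false

noncomputable section

namespace Pool.Agent.P.MP_5d580a_an

variable {H : Type} [NormedAddCommGroup H] [InnerProductSpace ℂ H] [CompleteSpace H]

variable {M : VonNeumannAlgebra H} {J : H ≃ₗᵢ⋆[ℂ] H}

namespace CutAux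

theorem swap (ν : Measure ℝ) [IsFiniteMeasure ν] (m : Measure (ℝ × ℝ))
    [IsFiniteMeasure m] {k : ℝ → ℝ × ℝ → ℝ} (hk : Measurable (Function.uncurry k)) {K : ℝ}
    (hb : ∀ t p, |k t p| ≤ K) :
    Integrable (fun t => ∫ p, k t p ∂m) ν ∧ Integrable (fun p => ∫ t, k t p ∂ν) m ∧
      ∫ t, ∫ p, k t p ∂m ∂ν = ∫ p, ∫ t, k t p ∂ν ∂m := by
  have hi : Integrable (Function.uncurry k) (ν.prod m) :=
    Integrable.of_bound hk.aestronglyMeasurable K (Eventually.of_forall fun z => hb z.1 z.2)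
  exact ⟨hi.integral_prod_left, hi.integral_prod_right, integral_integral_swap hi⟩

/-- the identity cut off outside an interval -/
def idc (R : ℝ) : ℝ → ℂ := (Set.Icc (-R) R).indicator fun t => (t : ℂ)

theorem bm_idc (R : ℝ) : BM (idc R) :=
  BM.indicator_of_bdd Complex.measurable_ofReal measurableSet_Icc R fun x hx => by
    rw [Complex.norm_real, Real.norm_eq_abs]
    exact abs_le.2 hx

theorem idc_eq {R t : ℝ} (ht : t ∈ Set.Icc (-R) R) : idc R t = t := Set.indicator_of_mem ht _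

theorem phi_idc {E : SpecCalc ℝ H} {h : H →L[ℂ] H} (hE : IsCalcOf E h) : E.Φ (idc ‖h‖) = h :=
  hE.2 _ (bm_idc _) fun _ ht => idc_eq ht

/-- the joint measure with its second moments -/
theorem joint (hJ : StdJ M J) {h : H →L[ℂ] H} (hh : h ∈ M) {E : SpecCalc ℝ H} (hE : IsCalcOf E h)
    (Ω : H) : ∃ m : Measure (ℝ × ℝ), IsFiniteMeasure m ∧ m.real Set.univ = ‖Ω‖ ^ 2 ∧
      (∀ᵐ p ∂m, |p.1| ≤ ‖h‖ ∧ |p.2| ≤ ‖h‖) ∧
      (∀ F : ℝ → ℝ, BM (fun t => (F t : ℂ)) →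
        ‖cm J (E.Φ fun t => (F t : ℂ)) Ω‖ ^ 2 = ∫ p, (F p.1 - F p.2) ^ 2 ∂m ∧
        ‖E.Φ (fun t => (F t : ℂ)) Ω‖ ^ 2 = ∫ p, F p.1 ^ 2 ∂m) ∧
      ‖cm J h Ω‖ ^ 2 = ∫ p, (p.1 - p.2) ^ 2 ∂m ∧ ‖h Ω‖ ^ 2 = ∫ p, p.1 ^ 2 ∂m ∧
      ‖rm J h Ω‖ ^ 2 = ∫ p, p.2 ^ 2 ∂m := by
  obtain ⟨m, hm, h1, h2, h3⟩ := joint_measure hJ hh hE Ω
  have hae : ∀ᵐ p ∂m, p.1 ∈ Set.Icc (-‖h‖) ‖h‖ ∧ p.2 ∈ Set.Icc (-‖h‖) ‖h‖ := h2
  have hn : ∀ x : ℝ, ‖(x : ℂ)‖ ^ 2 = x ^ 2 := fun x => by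
    rw [Complex.norm_real, Real.norm_eq_abs, sq_abs]
  refine ⟨m, hm, h1, hae.mono fun p hp => ⟨abs_le.2 hp.1, abs_le.2 hp.2⟩, fun F hF => ⟨?_, ?_⟩,
    ?_, ?_, ?_⟩
  · rw [cm, h3 _ _ hF hF]
    simp only [← Complex.ofReal_sub, hn]
  · have := h3 _ _ hF (BM.const 0)
    rw [E.map_zero, rm_zero] at this
    simpa only [zero_apply, sub_zero, hn] using this
  · have := h3 _ _ (bm_idc ‖h‖) (bm_idc ‖h‖)
    rw [phi_idc hE] at this
    rw [cm, this]
    refine integral_congr_ae (hae.mono fun p hp => ?_)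
    simp only [idc_eq hp.1, idc_eq hp.2, ← Complex.ofReal_sub, hn]
  · have := h3 _ _ (bm_idc ‖h‖) (BM.const 0)
    rw [phi_idc hE, E.map_zero, rm_zero, zero_apply, sub_zero] at this
    rw [this]
    refine integral_congr_ae (hae.mono fun p hp => ?_)
    simp only [idc_eq hp.1, sub_zero, hn]
  · have := h3 _ _ (BM.const 0) (bm_idc ‖h‖)
    rw [phi_idc hE, E.map_zero, zero_apply, zero_sub, norm_neg] at this
    rw [this]
    refine integral_congr_ae (hae.mono fun p hp => ?_)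
    simp only [idc_eq hp.2, zero_sub, norm_neg, hn]

theorem integrable_of_box {m : Measure (ℝ × ℝ)} [IsFiniteMeasure m] {R : ℝ}
    (hm : ∀ᵐ p ∂m, |p.1| ≤ R ∧ |p.2| ≤ R) {f : ℝ × ℝ → ℝ} (hf : Continuous f) :
    Integrable f m := by
  obtain ⟨K, hK⟩ := ((isCompact_Icc (a := -R) (b := R)).prod
    (isCompact_Icc (a := -R) (b := R))).exists_bound_of_continuousOn hf.continuousOn
  exact Integrable.of_bound hf.aestronglyMeasurable K
    (hm.mono fun p hp => hK p ⟨abs_le.1 hp.1, abs_le.1 hp.2⟩)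

/-- step function -/
def st (t s : ℝ) : ℝ := if t < s then 1 else 0

theorem st_eq (t : ℝ) : (fun s => (st t s : ℂ)) = (Set.Ioi t).indicator fun _ => 1 := by
  ext s
  by_cases h : t < s <;> simp [st, h]

theorem measurable_st : Measurable (Function.uncurry fun (t : ℝ) (p : ℝ × ℝ) =>
    (st t p.1 - st t p.2) ^ 2) := by
  have h1 : Measurable fun z : ℝ × ℝ × ℝ => st z.1 z.2.1 :=
    Measurable.ite (measurableSet_lt measurable_fst measurable_snd.fst) measurable_const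
      measurable_const
  have h2 : Measurable fun z : ℝ × ℝ × ℝ => st z.1 z.2.2 :=
    Measurable.ite (measurableSet_lt measurable_fst measurable_snd.snd) measurable_const
      measurable_const
  exact (h1.sub h2).pow_const 2

theorem st_bd (t : ℝ) (p : ℝ × ℝ) : |(st t p.1 - st t p.2) ^ 2| ≤ 1 := by
  unfold st
  split_ifs <;> norm_num

theorem integral_st {s s' : ℝ} (hs : |s| ≤ 1) (hs' : |s'| ≤ 1) :
    ∫ t in Set.Ico (-1 : ℝ) 1, (st t s - st t s') ^ 2 = |s - s'| := by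
  have h1 : (fun t => (st t s - st t s') ^ 2) =
      (Set.Ico (min s s') (max s s')).indicator fun _ => (1 : ℝ) := by
    ext t
    by_cases a : t < s <;> by_cases b : t < s' <;>
      simp [st, a, b, not_lt.1, not_le.2]
  have h2 : Set.Ico (min s s') (max s s') ⊆ Set.Ico (-1) 1 :=
    Set.Ico_subset_Ico (le_min (abs_le.1 hs).1 (abs_le.1 hs').1)
      (max_le (abs_le.1 hs).2 (abs_le.1 hs').2)
  rw [h1, integral_indicator measurableSet_Ico, Measure.restrict_restrict measurableSet_Ico,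
    Set.inter_eq_left.2 h2, setIntegral_const, Real.volume_real_Ico_of_le min_le_max, smul_eq_mul,
    mul_one, max_sub_min_eq_abs']

theorem avg_proj (hJ : StdJ M J) {h : H →L[ℂ] H} (hh : h ∈ M) (hn : ‖h‖ ≤ 1) {E : SpecCalc ℝ H}
    (hE : IsCalcOf E h) (ξ : H) :
    IntegrableOn (fun t => ‖cm J (E.Pr (Set.Ioi t)) ξ‖ ^ 2) (Set.Ico (-1 : ℝ) 1) ∧
      ‖cm J h ξ‖ ^ 2 / 2 ≤ ∫ t in Set.Ico (-1 : ℝ) 1, ‖cm J (E.Pr (Set.Ioi t)) ξ‖ ^ 2 ∧
      ∫ t in Set.Ico (-1 : ℝ) 1, ‖cm J (E.Pr (Set.Ioi t)) ξ‖ ^ 2 ≤ ‖cm J h ξ‖ * ‖ξ‖ := by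
  obtain ⟨m, hm, h1, h2, h3, h4, -, -⟩ := joint hJ hh hE ξ
  have e : (fun t => ‖cm J (E.Pr (Set.Ioi t)) ξ‖ ^ 2) =
      fun t => ∫ p, (st t p.1 - st t p.2) ^ 2 ∂m := by
    ext t
    rw [← (h3 (st t) (by rw [st_eq]; exact BM.indicator_one measurableSet_Ioi)).1, st_eq]
    rfl
  obtain ⟨i1, -, i3⟩ := swap (volume.restrict (Set.Ico (-1 : ℝ) 1)) m
    measurable_st st_bd
  have i4 : ∫ p, ∫ t in Set.Ico (-1 : ℝ) 1, (st t p.1 - st t p.2) ^ 2 ∂volume ∂m =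
      ∫ p, |p.1 - p.2| ∂m :=
    integral_congr_ae (h2.mono fun p hp => integral_st (hp.1.trans hn) (hp.2.trans hn))
  have j1 : Integrable (fun p : ℝ × ℝ => |p.1 - p.2|) m := integrable_of_box h2 (by fun_prop)
  have j2 : Integrable (fun p : ℝ × ℝ => (p.1 - p.2) ^ 2) m := integrable_of_box h2 (by fun_prop)
  rw [e, i3, i4]
  refine ⟨i1, ?_, ?_⟩
  · rw [h4, ← integral_div]
    refine integral_mono_ae (j2.div_const 2) j1 (h2.mono fun p hp => ?_)
    have a1 : |p.1 - p.2| ≤ 2 := (abs_sub _ _).trans (by linarith [hp.1, hp.2])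
    have a2 := abs_nonneg (p.1 - p.2)
    show (p.1 - p.2) ^ 2 / 2 ≤ |p.1 - p.2|
    rw [← sq_abs]
    nlinarith
  · have hd := discrim_le_zero (a := ‖ξ‖ ^ 2) (b := -2 * ∫ p, |p.1 - p.2| ∂m)
      (c := ‖cm J h ξ‖ ^ 2) fun x => by
        have a1 : 0 ≤ ∫ p : ℝ × ℝ, (x ^ 2 - 2 * x * |p.1 - p.2|) + (p.1 - p.2) ^ 2 ∂m :=
          integral_nonneg fun p => by
            have := sq_nonneg (x - |p.1 - p.2|)
            have := sq_abs (p.1 - p.2)
            show 0 ≤ x ^ 2 - 2 * x * |p.1 - p.2| + (p.1 - p.2) ^ 2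
            nlinarith
        rw [integral_add (by exact (integrable_const _).sub (j1.const_mul _)) j2,
          integral_sub (integrable_const _) (j1.const_mul _), integral_const, integral_const_mul,
          h1, ← h4, smul_eq_mul] at a1
        linarith
    refine le_of_sq_le_sq ?_ (by positivity)
    unfold discrim at hd
    nlinarith

/-- signed step function -/
def sg (u t : ℝ) : ℝ := if u ≤ t ^ 2 then if 0 ≤ t then 1 else -1 else 0

theorem measurable_sg : Measurable fun z : ℝ × ℝ => sg z.1 z.2 :=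
  Measurable.ite (measurableSet_le measurable_fst (measurable_snd.pow_const 2))
    (Measurable.ite (measurableSet_le measurable_const measurable_snd) measurable_const
      measurable_const) measurable_const

theorem abs_sg (u t : ℝ) : |sg u t| ≤ 1 := by
  unfold sg
  split_ifs <;> norm_num

theorem bm_sg (u : ℝ) : BM fun t => (sg u t : ℂ) :=
  ⟨Complex.measurable_ofReal.comp (measurable_sg.comp (measurable_const.prodMk measurable_id)), 1,
    fun t => by rw [Complex.norm_real]; exact abs_sg u t⟩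

theorem sg_neg {u : ℝ} (hu : 0 < u) (t : ℝ) : sg u (-t) = -sg u t := by
  unfold sg
  rw [neg_sq]
  split_ifs with a b c c
  · have : t = 0 := by linarith
    rw [this] at a
    norm_num at a
    linarith
  · norm_num
  · rfl
  · exact absurd (by linarith) c
  · norm_num

theorem sg_cube (u t : ℝ) : sg u t * sg u t * sg u t = sg u t := by
  unfold sg
  split_ifs <;> norm_num

theorem integral_le_ind {R x : ℝ} (h0 : 0 ≤ x) (hx : x ≤ R) :
    ∫ u in Set.Ioc (0 : ℝ) R, (if u ≤ x then (1 : ℝ) else 0) = x := by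
  have h1 : (fun u => if u ≤ x then (1 : ℝ) else 0) = (Set.Iic x).indicator fun _ => (1 : ℝ) := by
    ext u
    simp [Set.indicator_apply]
  have h2 : Set.Iic x ∩ Set.Ioc 0 R = Set.Ioc 0 x := by
    ext u
    simp only [Set.mem_inter_iff, Set.mem_Iic, Set.mem_Ioc]
    exact ⟨fun h => ⟨h.2.1, h.1⟩, fun h => ⟨h.2, h.1, h.2.trans hx⟩⟩
  rw [h1, integral_indicator measurableSet_Iic, Measure.restrict_restrict measurableSet_Iic, h2,
    setIntegral_const, Real.volume_real_Ioc_of_le h0, smul_eq_mul, mul_one, sub_zero]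

theorem integrable_le_ind (R x : ℝ) :
    Integrable (fun u => if u ≤ x then (1 : ℝ) else 0) (volume.restrict (Set.Ioc (0 : ℝ) R)) :=
  Integrable.of_bound (Measurable.ite measurableSet_Iic measurable_const
    measurable_const).aestronglyMeasurable 1 (Eventually.of_forall fun u => by
      split_ifs <;> norm_num)

theorem integral_sg_sq {R s : ℝ} (hs : s ^ 2 ≤ R) :
    ∫ u in Set.Ioc (0 : ℝ) R, sg u s ^ 2 = s ^ 2 := by
  rw [← integral_le_ind (sq_nonneg s) hs]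
  refine integral_congr_ae (Eventually.of_forall fun u => ?_)
  simp only [sg]
  split_ifs <;> norm_num

theorem integral_sg_sub {R s t δ : ℝ} (hs : s ^ 2 ≤ R) (ht : t ^ 2 ≤ R) (hδ : 0 < δ) :
    ∫ u in Set.Ioc (0 : ℝ) R, (sg u s - sg u t) ^ 2 ≤
      (s - t) ^ 2 / (2 * δ) + δ * s ^ 2 + δ * t ^ 2 := by
  obtain ⟨σ, hσ⟩ : ∃ σ : ℝ, σ = (if 0 ≤ s then 1 else -1) * (if 0 ≤ t then 1 else -1) := ⟨_, rfl⟩
  have h1 : (fun u => (sg u s - sg u t) ^ 2) = fun u => ((if u ≤ s ^ 2 then (1 : ℝ) else 0) +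
      (if u ≤ t ^ 2 then (1 : ℝ) else 0)) -
      2 * σ * (if u ≤ min (s ^ 2) (t ^ 2) then (1 : ℝ) else 0) := by
    ext u
    simp only [sg, hσ, le_min_iff]
    by_cases a : u ≤ s ^ 2 <;> by_cases b : u ≤ t ^ 2 <;> by_cases c : 0 ≤ s <;>
      by_cases d : 0 ≤ t <;> simp only [a, b, c, d, if_true, if_false, and_self, and_true,
        and_false] <;> norm_num
  rw [h1, integral_sub (by exact (integrable_le_ind _ _).add (integrable_le_ind _ _))
    ((integrable_le_ind _ _).const_mul _), integral_add (integrable_le_ind _ _)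
    (integrable_le_ind _ _), integral_const_mul, integral_le_ind (sq_nonneg s) hs,
    integral_le_ind (sq_nonneg t) ht,
    integral_le_ind (le_min (sq_nonneg s) (sq_nonneg t)) ((min_le_left _ _).trans hs)]
  have h2 : s ^ 2 + t ^ 2 - 2 * σ * min (s ^ 2) (t ^ 2) ≤ |s - t| * (|s| + |t|) := by
    rw [hσ]
    rcases le_total (s ^ 2) (t ^ 2) with e | e <;> [rw [min_eq_left e]; rw [min_eq_right e]] <;>
      split_ifs with c d d <;> rcases le_total s t with f | f <;>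
      first
        | rw [abs_of_nonneg (sub_nonneg.2 f)]
        | rw [abs_of_nonpos (sub_nonpos.2 f)]
    all_goals first
      | rw [abs_of_nonneg c]
      | rw [abs_of_neg (not_le.1 c)]
    all_goals first
      | rw [abs_of_nonneg d]
      | rw [abs_of_neg (not_le.1 d)]
    all_goals nlinarith
  have h3 : |s - t| * (|s| + |t|) ≤ (s - t) ^ 2 / (2 * δ) + δ * s ^ 2 + δ * t ^ 2 := by
    rw [← sq_abs (s - t), ← sq_abs s, ← sq_abs t, ← sub_nonneg]
    have e : |s - t| ^ 2 / (2 * δ) + δ * |s| ^ 2 + δ * |t| ^ 2 - |s - t| * (|s| + |t|) =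
        ((|s - t| - δ * (|s| + |t|)) ^ 2 + δ ^ 2 * (|s| - |t|) ^ 2) / (2 * δ) := by
      field_simp
      ring
    rw [e]
    positivity
  linarith

theorem exists_level (hJ : StdJ M J) {h : H →L[ℂ] H} (hh : h ∈ M) {E : SpecCalc ℝ H}
    (hE : IsCalcOf E h) {Ω : H} (hΩ : J Ω = Ω) (h0 : h Ω ≠ 0) {δ : ℝ} (hδ : 0 < δ)
    (hc : ‖cm J h Ω‖ ^ 2 ≤ 2 * δ ^ 2 * ‖h Ω‖ ^ 2) :
    ∃ u, 0 < u ∧ ‖cm J (E.Φ fun t => (sg u t : ℂ)) Ω‖ ^ 2 <
      5 * δ * ‖E.Φ (fun t => (sg u t : ℂ)) Ω‖ ^ 2 := by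
  obtain ⟨m, hm, -, h2, h3, h4, h5, h6⟩ := joint hJ hh hE Ω
  rw [norm_rm_apply _ hΩ, hE.sa.star_eq] at h6
  by_contra hne
  push Not at hne
  have m1 : Measurable fun z : ℝ × ℝ × ℝ => sg z.1 z.2.1 :=
    measurable_sg.comp (measurable_fst.prodMk measurable_snd.fst)
  have m2 : Measurable fun z : ℝ × ℝ × ℝ => sg z.1 z.2.2 :=
    measurable_sg.comp (measurable_fst.prodMk measurable_snd.snd)
  obtain ⟨i1, i2, i3⟩ := swap (volume.restrict (Set.Ioc (0 : ℝ) (‖h‖ ^ 2))) m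
    (k := fun u p => (sg u p.1 - sg u p.2) ^ 2) ((m1.sub m2).pow_const 2) (K := 4) fun u p => by
      have a := abs_le.1 (abs_sg u p.1)
      have b := abs_le.1 (abs_sg u p.2)
      rw [abs_of_nonneg (sq_nonneg _)]
      nlinarith
  obtain ⟨k1, -, k3⟩ := swap (volume.restrict (Set.Ioc (0 : ℝ) (‖h‖ ^ 2))) m
    (k := fun u p => sg u p.1 ^ 2) (m1.pow_const 2) (K := 1) fun u p => by
      have a := abs_le.1 (abs_sg u p.1)
      rw [abs_of_nonneg (sq_nonneg _)]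
      nlinarith
  have hb : ∀ᵐ p ∂m, p.1 ^ 2 ≤ ‖h‖ ^ 2 ∧ p.2 ^ 2 ≤ ‖h‖ ^ 2 := h2.mono fun p hp =>
    ⟨sq_le_sq' (abs_le.1 hp.1).1 (abs_le.1 hp.1).2, sq_le_sq' (abs_le.1 hp.2).1 (abs_le.1 hp.2).2⟩
  rw [integral_congr_ae (hb.mono fun p hp => integral_sg_sq hp.1), ← h5] at k3
  have j1 : Integrable (fun p : ℝ × ℝ => (p.1 - p.2) ^ 2) m := integrable_of_box h2 (by fun_prop)
  have j2 : Integrable (fun p : ℝ × ℝ => p.1 ^ 2) m := integrable_of_box h2 (by fun_prop)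
  have j3 : Integrable (fun p : ℝ × ℝ => p.2 ^ 2) m := integrable_of_box h2 (by fun_prop)
  have l1 := integral_mono_ae i2 (((j1.div_const (2 * δ)).add (j2.const_mul δ)).add
    (j3.const_mul δ)) (hb.mono fun p hp => integral_sg_sub hp.1 hp.2 hδ)
  have l2 : ∫ p : ℝ × ℝ, ((p.1 - p.2) ^ 2 / (2 * δ) + δ * p.1 ^ 2) + δ * p.2 ^ 2 ∂m =
      ‖cm J h Ω‖ ^ 2 / (2 * δ) + δ * ‖h Ω‖ ^ 2 + δ * ‖h Ω‖ ^ 2 := by
    rw [integral_add (by exact (j1.div_const (2 * δ)).add (j2.const_mul δ)) (j3.const_mul δ),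
      integral_add (j1.div_const (2 * δ)) (j2.const_mul δ), integral_div, integral_const_mul,
      integral_const_mul, ← h4, ← h5, ← h6]
  have l3 := setIntegral_mono_on (k1.const_mul (5 * δ)) i1 measurableSet_Ioc fun u hu => by
    rw [← (h3 _ (bm_sg u)).1, ← (h3 _ (bm_sg u)).2]
    exact hne u hu.1
  rw [integral_const_mul, k3, i3] at l3
  have l4 : ‖cm J h Ω‖ ^ 2 / (2 * δ) ≤ δ * ‖h Ω‖ ^ 2 := by
    rw [div_le_iff₀ (by positivity)]
    linarith
  have l5 : 0 < δ * ‖h Ω‖ ^ 2 := by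
    have := norm_pos_iff.2 h0
    positivity
  have l6 := l1.trans l2.le
  linarith

theorem anti {E : SpecCalc ℝ H} {h q : H →L[ℂ] H} (hE : IsCalcOf E h) (hq : q * h + h * q = h)
    {f : ℝ → ℂ} (hf : BM f) (ho : ∀ t, f (-t) = -f t) : q * E.Φ f + E.Φ f * q = E.Φ f := by
  obtain ⟨E', h1, h2⟩ := hE.affine 0 (-1)
  have h3 := hE.intertwine h1 (1 - (2 : ℂ) • q) (fun ξ => by
    have := congrArg (fun T : H →L[ℂ] H => T ξ) hq
    simp only [add_apply, mul_apply_eq_comp] at this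
    simp only [sub_apply, one_apply_eq_self,
      smul_apply, add_apply, map_sub, map_smul]
    push_cast
    linear_combination (norm := module) (-2 : ℂ) • this) f hf
  have h4 : E'.Φ f = -E.Φ f := by
    rw [h2, ← neg_one_smul ℂ (E.Φ f), ← E.map_smul (-1) hf]
    congr 1
    ext t
    rw [zero_add, neg_one_mul, ho, neg_one_mul]
  ext ξ
  have := h3 ξ
  simp only [h4, sub_apply, one_apply_eq_self,
    smul_apply, neg_apply, map_sub, map_smul] at this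
  simp only [add_apply, mul_apply_eq_comp]
  linear_combination (norm := module) (-1 / 2 : ℂ) • this

theorem orth {p q : H →L[ℂ] H} (hp : IsStarProjection p) (hpq : p * q = 0) {α β : H}
    (hα : q α = α) (hβ : p β = β) : ‖α + β‖ ^ 2 = ‖α‖ ^ 2 + ‖β‖ ^ 2 := by
  have h1 : ⟪β, α⟫_ℂ = 0 := by
    rw [← hβ, ← hα, ← inner_star_right, hp.isSelfAdjoint.star_eq, ← mul_apply_eq_comp,
      hpq, zero_apply, inner_zero_right]
  rw [add_comm α, sq, norm_add_sq_eq_norm_sq_add_norm_sq_of_inner_eq_zero _ _ h1]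
  ring

theorem fix_cm (hJ : StdJ M J) {Ω : H} {q W : H →L[ℂ] H} (hq : Cent M J Ω q) (hW : W ∈ M)
    (hqW : q * W = W) : q (cm J W Ω) = cm J W Ω := by
  have := cm_mul hJ hq.1 hW Ω
  rw [hqW, hq.2.2, map_zero, add_zero] at this
  exact this.symm

theorem norms (hJ : StdJ M J) {Ω : H} (hΩ : J Ω = Ω) {p q W : H →L[ℂ] H} (hp : Cent M J Ω p)
    (hq : Cent M J Ω q) (hpq : p * q = 0) (hW : W ∈ M) (hqW : q * W = W) (hWp : W * p = W) :
    ‖cm J (W + star W) Ω‖ ^ 2 = 2 * ‖cm J W Ω‖ ^ 2 ∧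
      ‖(W + star W) Ω‖ ^ 2 = ‖W Ω‖ ^ 2 + ‖(star W) Ω‖ ^ 2 ∧
      ‖(star W) Ω‖ ≤ ‖W Ω‖ + ‖cm J W Ω‖ := by
  have h1 : p * star W = star W := by
    rw [← hp.2.1.isSelfAdjoint.star_eq, ← star_mul, hWp]
  refine ⟨?_, ?_, ?_⟩
  · rw [cm_add, orth hp.2.1 hpq (fix_cm hJ hq hW hqW) (fix_cm hJ hp (star_mem hW) h1),
      cm_star hJ.invol hΩ, norm_neg, J.norm_map]
    ring
  · rw [add_apply]
    exact orth hp.2.1 hpq (by rw [← mul_apply_eq_comp, hqW])
      (by rw [← mul_apply_eq_comp, h1])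
  · rw [← norm_rm_apply _ hΩ]
    have : rm J W Ω = W Ω - cm J W Ω := by rw [cm, sub_sub_cancel]
    rw [this]
    exact norm_sub_le _ _

end CutAux

open CutAux

theorem cut_proj (hJ : StdJ M J) {h : H →L[ℂ] H} (hh : h ∈ M) (hsa : IsSelfAdjoint h)
    (hn : ‖h‖ ≤ 1) (ζ η : H) {K ε : ℝ} (hK : 0 ≤ K) (hε : 0 < ε) :
    ∃ p : H →L[ℂ] H, IsStarProjection p ∧ (∀ S : H →L[ℂ] H, S * h = h * S → S * p = p * S) ∧
      ‖cm J h η‖ ^ 2 / 4 - K * ‖cm J h ζ‖ * ‖ζ‖ / 2 - ε ≤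
        ‖cm J p η‖ ^ 2 - K * ‖cm J p ζ‖ ^ 2 := by
  obtain ⟨E, hE⟩ := exists_calc_sa hsa
  obtain ⟨a1, a2, -⟩ := avg_proj hJ hh hn hE η
  obtain ⟨b1, -, b3⟩ := avg_proj hJ hh hn hE ζ
  by_contra hne
  push Not at hne
  have h1 := setIntegral_mono_on (a1.sub (b1.const_mul K)) (integrable_const
    (‖cm J h η‖ ^ 2 / 4 - K * ‖cm J h ζ‖ * ‖ζ‖ / 2 - ε)) measurableSet_Ico fun t _ =>
      (hne _ (E.Pr_proj measurableSet_Ioi) fun S hS =>
        hE.commute hS (BM.indicator_one measurableSet_Ioi)).le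
  rw [setIntegral_const, Real.volume_real_Ico_of_le (by norm_num), smul_eq_mul] at h1
  have h2 := integral_sub a1 (b1.const_mul K)
  rw [integral_const_mul] at h2
  have h3 := mul_le_mul_of_nonneg_left b3 hK
  have h4 := h2.symm.le.trans h1
  linarith

theorem cut_piso (hJ : StdJ M J) {Ω : H} (hΩ : J Ω = Ω) {p q X : H →L[ℂ] H} (hp : Cent M J Ω p)
    (hq : Cent M J Ω q) (hpq : p * q = 0) (hX : X ∈ M) (hqX : q * X = X) (hXp : X * p = X)
    (h0 : X Ω ≠ 0) {δ : ℝ} (hδ : 0 < δ) (hδ' : 20 * δ ≤ 1) (hc : ‖cm J X Ω‖ ≤ δ * ‖X Ω‖) :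
    ∃ W ∈ M, W Ω ≠ 0 ∧ W * star W * W = W ∧ q * W = W ∧ W * p = W ∧
      ‖cm J W Ω‖ ≤ 4 * √(5 * δ) * ‖W Ω‖ := by
  have hqp : q * p = 0 := by
    rw [← hp.2.1.isSelfAdjoint.star_eq, ← hq.2.1.isSelfAdjoint.star_eq, ← star_mul, hpq, star_zero]
  have hpX : p * star X = star X := by rw [← hp.2.1.isSelfAdjoint.star_eq, ← star_mul, hXp]
  have hXq : star X * q = star X := by rw [← hq.2.1.isSelfAdjoint.star_eq, ← star_mul, hqX]
  have e1 : q * star X = 0 := by rw [← hpX, ← mul_assoc, hqp, zero_mul]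
  have e2 : X * q = 0 := by rw [← hXp, mul_assoc, hpq, mul_zero]
  have e3 : p * X = 0 := by rw [← hqX, ← mul_assoc, hpq, zero_mul]
  have e4 : star X * p = 0 := by rw [← hXq, mul_assoc, hqp, mul_zero]
  obtain ⟨E, hE⟩ := exists_calc_sa (IsSelfAdjoint.add_star_self X)
  have hh : X + star X ∈ M := add_mem hX (star_mem hX)
  obtain ⟨n1, n2, -⟩ := norms hJ hΩ hp hq hpq hX hqX hXp
  have hX0 := norm_pos_iff.2 h0
  obtain ⟨u, hu, hlt⟩ := exists_level hJ hh hE hΩ (δ := δ) (fun h => by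
    rw [h, norm_zero] at n2
    nlinarith [sq_nonneg ‖(star X) Ω‖]) hδ (by
      have := mul_self_le_mul_self (norm_nonneg _) hc
      rw [n1, n2]
      nlinarith [sq_nonneg (δ * ‖(star X) Ω‖)])
  have ho : ∀ t, (sg u (-t) : ℂ) = -sg u t := fun t => by rw [sg_neg hu, Complex.ofReal_neg]
  have aq := anti hE (q := q) (by rw [mul_add, add_mul, hqX, e1, e2, hXq, add_zero, zero_add])
    (bm_sg u) ho
  have ap := anti hE (q := p) (by
    rw [mul_add, add_mul, e3, hpX, hXp, e4, add_zero, zero_add, add_comm]) (bm_sg u) ho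
  have hsa := E.isSelfAdjoint (bm_sg u)
  have hmem := hE.mem hh (bm_sg u)
  have hcube : (E.Φ fun t => (sg u t : ℂ)) * (E.Φ fun t => (sg u t : ℂ)) *
      (E.Φ fun t => (sg u t : ℂ)) = E.Φ fun t => (sg u t : ℂ) := by
    rw [← E.mul _ _ (bm_sg u) (bm_sg u), ← E.mul _ _ ((bm_sg u).mul (bm_sg u)) (bm_sg u)]
    congr 1
    ext t
    rw [← Complex.ofReal_mul, ← Complex.ofReal_mul, sg_cube]
  generalize (E.Φ fun t => (sg u t : ℂ)) = Y at hlt aq ap hsa hmem hcube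
  have hqq : q * q = q := hq.2.1.isIdempotentElem
  have w0 : star (q * Y) = Y * q := by rw [star_mul, hsa.star_eq, hq.2.1.isSelfAdjoint.star_eq]
  have w1 : q * (q * Y) = q * Y := by rw [← mul_assoc, hqq]
  have w2 : q * Y * p = q * Y := by
    conv_rhs => rw [← ap, mul_add, ← mul_assoc, hqp, zero_mul, zero_add, ← mul_assoc]
  have w3 : Y * Y * q = q * (Y * Y) := by
    have a : Y * q = Y - q * Y := eq_sub_of_add_eq' aq
    have b : q * Y = Y - Y * q := eq_sub_of_add_eq aq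
    calc Y * Y * q = Y * (Y - q * Y) := by rw [mul_assoc, a]
      _ = (Y - Y * q) * Y := by noncomm_ring
      _ = q * (Y * Y) := by rw [← b, mul_assoc]
  have hW : q * Y ∈ M := mul_mem hq.1 hmem
  obtain ⟨m1, m2, m3⟩ := norms hJ hΩ hp hq hpq hW w1 w2
  rw [w0, aq] at m1 m2
  rw [w0] at m3
  rw [m1, m2] at hlt
  have c0 := norm_nonneg (cm J (q * Y) Ω)
  have c1 := norm_nonneg ((q * Y) Ω)
  have c2 := mul_self_le_mul_self (norm_nonneg _) m3
  have c3 : ‖cm J (q * Y) Ω‖ ^ 2 < 2 * (5 * δ) * ‖(q * Y) Ω‖ ^ 2 := by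
    have d1 : ‖(Y * q) Ω‖ ^ 2 ≤ 2 * ‖(q * Y) Ω‖ ^ 2 + 2 * ‖cm J (q * Y) Ω‖ ^ 2 := by
      nlinarith [sq_nonneg (‖(q * Y) Ω‖ - ‖cm J (q * Y) Ω‖)]
    have d2 := mul_le_mul_of_nonneg_left d1 (show 0 ≤ 5 * δ by positivity)
    have d3 := mul_le_mul_of_nonneg_right hδ' (sq_nonneg ‖cm J (q * Y) Ω‖)
    nlinarith
  refine ⟨q * Y, hW, fun h => ?_, ?_, w1, w2, ?_⟩
  · rw [h, norm_zero] at c3
    nlinarith
  · rw [w0]
    calc q * Y * (Y * q) * (q * Y) = q * (Y * Y * q) * (q * Y) := by noncomm_ring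
      _ = q * q * (Y * Y * q) * Y := by
        conv_lhs => rw [w3]
        noncomm_ring
      _ = q * q * q * (Y * Y * Y) := by rw [w3]; noncomm_ring
      _ = q * Y := by rw [hqq, hqq, hcube]
  · refine le_of_sq_le_sq ?_ (by positivity)
    rw [mul_pow, mul_pow, Real.sq_sqrt (by positivity)]
    have : 0 ≤ δ * ‖(q * Y) Ω‖ ^ 2 := by positivity
    nlinarith

end Pool.Agent.P.MP_5d580a_an
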