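import Pool.Agent.P.MP_5d580a_an.Pos

open scoped ComplexOrder InnerProductSpace ComplexConjugate BoundedContinuousFunction
open MeasureTheory Filter Topology

set_option linter.unusedSectionVars false
set_option linter.unusedVariables false

noncomputable section

namespace Pool.Agent.P.MP_5d580a_an

variable {H : Type} [NormedAddCommGroup H] [InnerProductSpace ℂ H] [CompleteSpace H]

variable {A B C : Type} [CStarAlgebra A] [CStarAlgebra B] [CStarAlgebra C]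

open scoped ComplexStarModule

theorem hb_le_mul_sInf {S : Set ℝ} (hS : S.Nonempty) {t v : ℝ} (ht : 0 < t)
    (h : ∀ r ∈ S, v ≤ t * r) : v ≤ t * sInf S := by
  rw [← div_le_iff₀' ht]
  exact le_csInf hS fun r hr => (div_le_iff₀' ht).2 (h r hr)

theorem hb_le_add_sInf {S S' : Set ℝ} (hS : S.Nonempty) (hS' : S'.Nonempty) {v : ℝ}
    (h : ∀ r ∈ S, ∀ r' ∈ S', v ≤ r + r') : v ≤ sInf S + sInf S' := by
  rw [← sub_le_iff_le_add]
  refine le_csInf hS fun r hr => ?_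
  rw [sub_le_comm]
  exact le_csInf hS' fun r' hr' => sub_le_iff_le_add'.2 (h r hr r' hr')

theorem hb_sa_smul (t : ℝ) {x : C} (hx : IsSelfAdjoint x) : IsSelfAdjoint ((t : ℂ) • x) := by
  rw [IsSelfAdjoint, star_smul, hx.star_eq, Complex.star_def, Complex.conj_ofReal]

theorem hb_homog {N : C → ℝ}
    (h : ∀ (t : ℝ) (x : C), 0 < t → IsSelfAdjoint x → N ((t : ℂ) • x) ≤ t * N x)
    (t : ℝ) (x : C) (ht : 0 < t) (hx : IsSelfAdjoint x) : N ((t : ℂ) • x) = t * N x := by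
  refine le_antisymm (h t x ht hx) ?_
  have h1 := h t⁻¹ _ (inv_pos.2 ht) (hb_sa_smul t hx)
  rw [smul_smul, ← Complex.ofReal_mul, inv_mul_cancel₀ ht.ne', Complex.ofReal_one, one_smul] at h1
  exact (le_inv_mul_iff₀ ht).1 h1

/-- Hahn-Banach for a sublinear functional on the selfadjoint part -/
theorem hb_tool (N : C → ℝ)
    (hadd : ∀ x y, IsSelfAdjoint x → IsSelfAdjoint y → N (x + y) ≤ N x + N y)
    (hsmul : ∀ (t : ℝ) (x : C), 0 < t → IsSelfAdjoint x → N ((t : ℂ) • x) = t * N x) (K : ℝ)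
    (hK : ∀ x, IsSelfAdjoint x → N x ≤ K * ‖x‖) {x₀ : C} (hx₀ : IsSelfAdjoint x₀) :
    ∃ ν : C →L[ℂ] ℂ, (∀ x, IsSelfAdjoint x → (ν x).im = 0 ∧ (ν x).re ≤ N x) ∧
      (ν x₀).re = N x₀ := by
  have h0 : N 0 = 0 := by
    have h := hsmul 2 0 two_pos (IsSelfAdjoint.zero C)
    rw [smul_zero] at h
    linarith
  have hom : ∀ c : ℝ, 0 < c → ∀ x : selfAdjoint C, N (c • x : selfAdjoint C) = c * N x :=
    fun c hc x => by
      rw [← hsmul c x hc x.2, Complex.coe_smul]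
      rfl
  obtain ⟨g, hg1, hg2⟩ := exists_extension_of_le_sublinear
    (LinearPMap.mkSpanSingleton' (σ := RingHom.id ℝ) (⟨x₀, hx₀⟩ : selfAdjoint C) (N x₀)
      (fun c hc => by
        rcases smul_eq_zero.1 hc with h | h
        · simp [h]
        · have h' : x₀ = 0 := congrArg Subtype.val h
          simp [h', h0]))
    (fun x : selfAdjoint C => N x) hom (fun x y => hadd x y x.2 y.2) (by
      rintro ⟨x, hx⟩
      obtain ⟨c, rfl⟩ := Submodule.mem_span_singleton.1 hx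
      rw [LinearPMap.mkSpanSingleton'_apply]
      change c * N x₀ ≤ N (c • (⟨x₀, hx₀⟩ : selfAdjoint C) : selfAdjoint C)
      rcases lt_trichotomy c 0 with hc | rfl | hc
      · have h1 := hom (-c) (neg_pos.2 hc) (-⟨x₀, hx₀⟩)
        rw [neg_smul_neg] at h1
        have h2 := hadd x₀ (-x₀) hx₀ hx₀.neg
        rw [add_neg_cancel, h0] at h2
        rw [h1]
        change c * N x₀ ≤ -c * N (-x₀)
        nlinarith
      · simp [h0]
      · exact (hom c hc ⟨x₀, hx₀⟩).ge)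
  have hb : ∀ y : selfAdjoint C, |g y| ≤ |K| * ‖y‖ := fun y => by
    have h1 := (hg2 y).trans (hK y y.2)
    have h2 := (hg2 (-y)).trans (hK _ (-y).2)
    rw [map_neg] at h2
    have h3 : K * ‖y‖ ≤ |K| * ‖y‖ := mul_le_mul_of_nonneg_right (le_abs_self K) (norm_nonneg _)
    have h4 : ‖((-y : selfAdjoint C) : C)‖ = ‖y‖ := norm_neg (y : C)
    rw [h4] at h2
    exact abs_le.2 ⟨by linarith, h1.trans h3⟩
  let ν₀ : C →ₗ[ℂ] ℂ :=
    { toFun := fun x => (g (ℜ x) : ℂ) + Complex.I * (g (ℑ x) : ℂ)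
      map_add' := fun x y => by
        simp only [map_add, Complex.ofReal_add]
        ring
      map_smul' := fun z x => by
        rw [realPart_smul, imaginaryPart_smul, map_sub, map_add, map_smul, map_smul, map_smul,
          map_smul]
        apply Complex.ext <;> simp }
  have hν : ∀ x, ‖ν₀ x‖ ≤ (|K| + |K|) * ‖x‖ := fun x => by
    refine (norm_add_le _ _).trans ?_
    rw [norm_mul, Complex.norm_I, one_mul, Complex.norm_real, Complex.norm_real, add_mul]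
    exact add_le_add
      ((hb _).trans (mul_le_mul_of_nonneg_left (realPart.norm_le x) (abs_nonneg K)))
      ((hb _).trans (mul_le_mul_of_nonneg_left (imaginaryPart.norm_le x) (abs_nonneg K)))
  have he : ∀ x (hx : IsSelfAdjoint x), ν₀.mkContinuous _ hν x = (g ⟨x, hx⟩ : ℂ) := fun x hx => by
    change (g (ℜ x) : ℂ) + Complex.I * (g (ℑ x) : ℂ) = _
    have e : ℜ x = ⟨x, hx⟩ := Subtype.ext hx.coe_realPart
    rw [hx.imaginaryPart, e]
    simp
  refine ⟨ν₀.mkContinuous _ hν, fun x hx => ?_, ?_⟩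
  · rw [he x hx]
    exact ⟨Complex.ofReal_im _, hg2 ⟨x, hx⟩⟩
  · rw [he x₀ hx₀, Complex.ofReal_re]
    exact (hg1 ⟨⟨x₀, hx₀⟩, Submodule.mem_span_singleton_self _⟩).trans
      (LinearPMap.mkSpanSingleton'_apply_self _ _ _ _)

theorem hb_sa_of_map {ι : A →⋆ₐ[ℂ] B} (hι : Function.Injective ι) {a : A}
    (h : IsSelfAdjoint (ι a)) : IsSelfAdjoint a :=
  hι (by rw [map_star, h.star_eq])

theorem hb_map_real (ι : A →⋆ₐ[ℂ] B) (t : ℝ) : ι (algebraMap ℝ A t) = algebraMap ℝ B t := by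
  rw [IsScalarTower.algebraMap_apply ℝ ℂ A, IsScalarTower.algebraMap_apply ℝ ℂ B,
    AlgHomClass.commutes]

theorem hb_apply_real (σ : A →L[ℂ] ℂ) (t : ℝ) : (σ (algebraMap ℝ A t)).re = t * (σ 1).re := by
  rw [IsScalarTower.algebraMap_apply ℝ ℂ A, Algebra.algebraMap_eq_smul_one (A := A), map_smul,
    smul_eq_mul, Complex.coe_algebraMap, Complex.re_ofReal_mul]

section up

variable [PartialOrder B] [StarOrderedRing B] {ι : A →⋆ₐ[ℂ] B} {σ : A →L[ℂ] ℂ}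

theorem hb_smul_le {t : ℝ} (ht : 0 < t) {x y : B} (h : x ≤ y) : (t : ℂ) • x ≤ (t : ℂ) • y := by
  rw [Complex.coe_smul, Complex.coe_smul]
  exact smul_le_smul_of_nonneg_left h ht.le

theorem hb_refl (hι : Function.Injective ι) (hσ : IsPos σ) {a a' : A} (h : ι a' ≤ ι a) :
    (σ a').re ≤ (σ a).re := by
  let _ := CStarAlgebra.spectralOrder A
  have _ := CStarAlgebra.spectralOrderedRing A
  have h0 : 0 ≤ ι (a - a') := by rw [map_sub]; exact sub_nonneg.2 h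
  have hs : IsSelfAdjoint (a - a') := hb_sa_of_map hι (IsSelfAdjoint.of_nonneg h0)
  refine hσ.re_mono (sub_nonneg.1 ((StarOrderedRing.nonneg_iff_spectrum_nonneg (R := ℝ) _ hs).2 ?_))
  rw [← hs.map_spectrum_real ι hι]
  exact fun x hx => spectrum_nonneg_of_nonneg h0 hx

/-- values of `σ` on majorants of `x` -/
def hbSet (ι : A →⋆ₐ[ℂ] B) (σ : A →L[ℂ] ℂ) (x : B) : Set ℝ := {r | ∃ a, x ≤ ι a ∧ r = (σ a).re}

theorem hb_mem_norm {x : B} (hx : IsSelfAdjoint x) : ‖x‖ * (σ 1).re ∈ hbSet ι σ x :=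
  ⟨algebraMap ℝ A ‖x‖, by rw [hb_map_real]; exact hx.le_algebraMap_norm_self,
    (hb_apply_real σ _).symm⟩

theorem hb_up_le (hι : Function.Injective ι) (hσ : IsPos σ) {x : B} (hx : IsSelfAdjoint x) {a : A}
    (h : x ≤ ι a) : sInf (hbSet ι σ x) ≤ (σ a).re := by
  refine csInf_le ⟨(σ (-algebraMap ℝ A ‖x‖)).re, ?_⟩ ⟨a, h, rfl⟩
  rintro _ ⟨a', h', rfl⟩
  refine hb_refl hι hσ (le_trans ?_ h')
  rw [map_neg, hb_map_real]
  exact hx.neg_algebraMap_norm_le_self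

theorem hb_ext (hι : Function.Injective ι) (hσ : IsPos σ) {b : B} (hb : IsSelfAdjoint b) :
    ∃ ν ∈ Ext ι σ, (ν b).re = sInf (hbSet ι σ b) := by
  obtain ⟨ν, h1, h2⟩ := hb_tool (fun x => sInf (hbSet ι σ x))
    (fun x y hx hy => hb_le_add_sInf ⟨_, hb_mem_norm hx⟩ ⟨_, hb_mem_norm hy⟩ (by
      rintro _ ⟨a, ha, rfl⟩ _ ⟨a', ha', rfl⟩
      rw [← Complex.add_re, ← map_add]
      exact hb_up_le hι hσ (hx.add hy) (by rw [map_add]; exact add_le_add ha ha')))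
    (hb_homog fun t x ht hx => hb_le_mul_sInf ⟨_, hb_mem_norm hx⟩ ht (by
      rintro _ ⟨a, ha, rfl⟩
      rw [← Complex.re_ofReal_mul, ← smul_eq_mul, ← map_smul]
      exact hb_up_le hι hσ (hb_sa_smul t hx) (by rw [map_smul]; exact hb_smul_le ht ha)))
    (σ 1).re (fun x hx => by
      have h := hb_up_le hι hσ hx (a := algebraMap ℝ A ‖x‖)
        (by rw [hb_map_real]; exact hx.le_algebraMap_norm_self)
      rwa [hb_apply_real, mul_comm] at h) hb
  have hν : IsPos ν := isPos_of_nonneg fun c hc => by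
    have hs := IsSelfAdjoint.of_nonneg hc
    have h := (h1 _ hs.neg).2.trans (hb_up_le hι hσ hs.neg (a := 0)
      (by rw [map_zero]; exact neg_nonpos.2 hc))
    rw [map_neg, Complex.neg_re, map_zero, Complex.zero_re] at h
    exact Complex.nonneg_iff.2 ⟨neg_nonpos.1 h, (h1 c hs).1.symm⟩
  exact ⟨ν, ⟨hν, ext_sa (hν.res ι) hσ fun a ha _ =>
    (h1 _ (ha.map ι)).2.trans (hb_up_le hι hσ (ha.map ι) le_rfl)⟩, h2⟩

theorem hb_scalar [Nontrivial B] {s t : ℝ} (h : algebraMap ℝ B s ≤ algebraMap ℝ B t) : s ≤ t :=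
  (le_algebraMap_iff_spectrum_le (a := algebraMap ℝ B s) (IsSelfAdjoint.algebraMap B
    (IsSelfAdjoint.all s))).1 h s (by rw [spectrum.scalar_eq]; rfl)

theorem hb_norm_le [Nontrivial B] {y : B} (hy : IsSelfAdjoint y) {t : ℝ}
    (h₁ : y ≤ algebraMap ℝ B t) (h₂ : -y ≤ algebraMap ℝ B t) : ‖y‖ ≤ t := by
  rcases CStarAlgebra.norm_or_neg_norm_mem_spectrum hy with h | h
  · exact (le_algebraMap_iff_spectrum_le hy).1 h₁ _ h
  · have h3 : algebraMap ℝ B (-t) ≤ y := by rw [map_neg]; exact neg_le.1 h₂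
    exact neg_le_neg_iff.1 ((algebraMap_le_iff_le_spectrum hy).1 h3 _ h)

/-- the set defining the sublinear functional on pairs -/
def hbPair (ι : A →⋆ₐ[ℂ] B) (x : B × B) : Set ℝ :=
  {t | ∃ a, IsSelfAdjoint a ∧ x.1 + ι a ≤ algebraMap ℝ B t ∧ x.2 - ι a ≤ algebraMap ℝ B t}

theorem hb_fst {x : B × B} (hx : IsSelfAdjoint x) : IsSelfAdjoint x.1 := congrArg Prod.fst hx

theorem hb_snd {x : B × B} (hx : IsSelfAdjoint x) : IsSelfAdjoint x.2 := congrArg Prod.snd hx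

theorem hb_real_mono {s t : ℝ} (h : s ≤ t) : algebraMap ℝ B s ≤ algebraMap ℝ B t := by
  rw [← sub_nonneg, ← map_sub, Algebra.algebraMap_eq_smul_one]
  exact smul_nonneg (sub_nonneg.2 h) zero_le_one

theorem hb_pair_norm {x : B × B} (hx : IsSelfAdjoint x) : ‖x‖ ∈ hbPair ι x :=
  ⟨0, IsSelfAdjoint.zero A, by
    rw [map_zero, add_zero]
    exact (hb_fst hx).le_algebraMap_norm_self.trans (hb_real_mono (norm_fst_le x)), by
    rw [map_zero, sub_zero]
    exact (hb_snd hx).le_algebraMap_norm_self.trans (hb_real_mono (norm_snd_le x))⟩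

theorem hb_pair_le [Nontrivial B] {x : B × B} (hx : IsSelfAdjoint x) {t : ℝ}
    (h : t ∈ hbPair ι x) : sInf (hbPair ι x) ≤ t := by
  refine csInf_le ⟨-‖x.1 + x.2‖ / 2, ?_⟩ h
  rintro s ⟨a, -, h1, h2⟩
  have h3 := ((hb_fst hx).add (hb_snd hx)).neg_algebraMap_norm_le_self
  have h4 := add_le_add h1 h2
  rw [show x.1 + ι a + (x.2 - ι a) = x.1 + x.2 by abel, ← map_add] at h4
  rw [← map_neg] at h3
  have h5 := hb_scalar (h3.trans h4)
  linarith

theorem hb_dv_ne {b : B} (hb : IsSelfAdjoint b) :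
    {r : ℝ | ∃ a a' : A, ι a' ≤ b ∧ b ≤ ι a ∧ r = (σ (a - a')).re}.Nonempty :=
  ⟨_, algebraMap ℝ A ‖b‖, -algebraMap ℝ A ‖b‖,
    by rw [map_neg, hb_map_real]; exact hb.neg_algebraMap_norm_le_self,
    by rw [hb_map_real]; exact hb.le_algebraMap_norm_self, rfl⟩

end up

theorem exists_ext {ι : A →⋆ₐ[ℂ] B} (hι : Function.Injective ι) {σ : A →L[ℂ] ℂ} (hσ : IsPos σ) :
    (Ext ι σ).Nonempty := by
  let _ := CStarAlgebra.spectralOrder B
  have _ := CStarAlgebra.spectralOrderedRing B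
  obtain ⟨ν, hν, -⟩ := hb_ext hι hσ (IsSelfAdjoint.zero B)
  exact ⟨ν, hν⟩

theorem exists_pair {ι : A →⋆ₐ[ℂ] B} (hι : Function.Injective ι) (hs : ¬ Function.Surjective ι) :
    ∃ φ ψ : B →L[ℂ] ℂ, IsPos φ ∧ IsPos ψ ∧ res ι φ = res ι ψ ∧
      ∃ b : B, IsSelfAdjoint b ∧ (ψ b).re < (φ b).re := by
  let _ := CStarAlgebra.spectralOrder B
  have _ := CStarAlgebra.spectralOrderedRing B
  obtain ⟨b, hb, hn⟩ : ∃ b : B, IsSelfAdjoint b ∧ b ∉ Set.range ι := by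
    by_contra h
    push Not at h
    refine hs fun x => ?_
    obtain ⟨a, ha⟩ := h _ (ℜ x).2
    obtain ⟨a', ha'⟩ := h _ (ℑ x).2
    exact ⟨a + Complex.I • a', by
      rw [map_add, map_smul, ha, ha', realPart_add_I_smul_imaginaryPart]⟩
  have _ : Nontrivial B := ⟨⟨b, ι 0, fun h => hn ⟨0, h.symm⟩⟩⟩
  have hd : 0 < Metric.infDist b (Set.range ι) :=
    ((NonUnitalStarAlgHom.isometry ι hι).isClosedEmbedding.isClosed_range.notMem_iff_infDist_pos
      (Set.range_nonempty _)).1 hn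
  have hbb : IsSelfAdjoint ((b, -b) : B × B) := Prod.ext hb hb.neg
  obtain ⟨ν, h1, h2⟩ := hb_tool (fun x : B × B => sInf (hbPair ι x))
    (fun x y hx hy => hb_le_add_sInf ⟨_, hb_pair_norm hx⟩ ⟨_, hb_pair_norm hy⟩ (by
      rintro r ⟨a, ha, ha1, ha2⟩ r' ⟨a', ha', ha1', ha2'⟩
      refine hb_pair_le (hx.add hy) ⟨a + a', ha.add ha', ?_, ?_⟩
      · rw [map_add, map_add, Prod.fst_add, add_add_add_comm]
        exact add_le_add ha1 ha1'
      · rw [map_add, map_add, Prod.snd_add, add_sub_add_comm]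
        exact add_le_add ha2 ha2'))
    (hb_homog (N := fun x : B × B => sInf (hbPair ι x))
      fun t x ht hx => hb_le_mul_sInf ⟨_, hb_pair_norm hx⟩ ht (by
      rintro r ⟨a, ha, ha1, ha2⟩
      have e : algebraMap ℝ B (t * r) = (t : ℂ) • algebraMap ℝ B r := by
        rw [Complex.coe_smul, map_mul, Algebra.smul_def]
      refine hb_pair_le (hb_sa_smul t hx) ⟨(t : ℂ) • a, hb_sa_smul t ha, ?_, ?_⟩
      · rw [e, map_smul, Prod.smul_fst, ← smul_add]
        exact hb_smul_le ht ha1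
      · rw [e, map_smul, Prod.smul_snd, ← smul_sub]
        exact hb_smul_le ht ha2))
    1 (fun x hx => by rw [one_mul]; exact hb_pair_le hx (hb_pair_norm hx)) hbb
  have hpos : ∀ x : B × B, 0 ≤ x.1 → 0 ≤ x.2 → 0 ≤ ν x := fun x hx1 hx2 => by
    have hx : IsSelfAdjoint x :=
      Prod.ext (IsSelfAdjoint.of_nonneg hx1) (IsSelfAdjoint.of_nonneg hx2)
    have h := (h1 _ hx.neg).2.trans (hb_pair_le hx.neg (t := 0) ⟨0, IsSelfAdjoint.zero A,
      by simpa using hx1, by simpa using hx2⟩)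
    rw [map_neg, Complex.neg_re] at h
    exact Complex.nonneg_iff.2 ⟨neg_nonpos.1 h, (h1 x hx).1.symm⟩
  have hφ : IsPos (ν.comp (ContinuousLinearMap.inl ℂ B B)) :=
    isPos_of_nonneg fun c hc => hpos (c, 0) hc le_rfl
  have hψ : IsPos (ν.comp (ContinuousLinearMap.inr ℂ B B)) :=
    isPos_of_nonneg fun c hc => hpos (0, c) le_rfl hc
  have he : ∀ y : B, (ν (y, -y)).re = (ν (y, 0)).re - (ν (0, y)).re := fun y => by
    rw [← Complex.sub_re, ← map_sub, Prod.mk_sub_mk, sub_zero, zero_sub]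
  refine ⟨_, _, hφ, hψ, ext_sa (hφ.res ι) (hψ.res ι) fun a ha _ => ?_, b, hb, ?_⟩
  · have hx : IsSelfAdjoint ((ι a, -ι a) : B × B) := Prod.ext (ha.map ι) (ha.map ι).neg
    have h := (h1 _ hx).2.trans (hb_pair_le hx (t := 0) ⟨-a, ha.neg, by simp, by simp⟩)
    rw [he] at h
    exact sub_nonpos.1 h
  · have h : Metric.infDist b (Set.range ι) ≤ sInf (hbPair ι (b, -b)) := by
      refine le_csInf ⟨_, hb_pair_norm hbb⟩ ?_
      rintro t ⟨a, ha, ha1, ha2⟩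
      refine (Metric.infDist_le_dist_of_mem (Set.mem_range_self (-a))).trans ?_
      rw [dist_eq_norm, map_neg, sub_neg_eq_add]
      exact hb_norm_le (hb.add (ha.map ι)) ha1 (by rw [neg_add']; exact ha2)
    rw [← h2, he] at h
    exact sub_pos.1 (hd.trans_le h)

section dv

variable [PartialOrder B] [StarOrderedRing B] {ι : A →⋆ₐ[ℂ] B} {σ : A →L[ℂ] ℂ} {b : B}

theorem dv_nonneg (hι : Function.Injective ι) (hσ : IsPos σ) (b : B) : 0 ≤ dv ι σ b := by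
  refine Real.sInf_nonneg ?_
  rintro _ ⟨a, a', h1, h2, rfl⟩
  rw [map_sub, Complex.sub_re]
  exact sub_nonneg.2 (hb_refl hι hσ (h1.trans h2))

theorem dv_le (hι : Function.Injective ι) (hσ : IsPos σ) {a a' : A} (h₁ : ι a' ≤ b)
    (h₂ : b ≤ ι a) : dv ι σ b ≤ (σ (a - a')).re := by
  refine csInf_le ⟨0, ?_⟩ ⟨a, a', h₁, h₂, rfl⟩
  rintro _ ⟨c, c', h1, h2, rfl⟩
  rw [map_sub, Complex.sub_re]
  exact sub_nonneg.2 (hb_refl hι hσ (h1.trans h2))

theorem exists_lt_dv (hι : Function.Injective ι) (hb : IsSelfAdjoint b) {r : ℝ}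
    (h : dv ι σ b < r) :
    ∃ a a' : A, IsSelfAdjoint a ∧ IsSelfAdjoint a' ∧ ι a' ≤ b ∧ b ≤ ι a ∧ (σ (a - a')).re < r := by
  obtain ⟨_, ⟨a, a', h1, h2, rfl⟩, h3⟩ := exists_lt_of_csInf_lt (hb_dv_ne hb) h
  refine ⟨a, a', hb_sa_of_map hι ?_, hb_sa_of_map hι ?_, h1, h2, h3⟩
  · simpa using (IsSelfAdjoint.of_nonneg (sub_nonneg.2 h2)).add hb
  · simpa using hb.sub (IsSelfAdjoint.of_nonneg (sub_nonneg.2 h1))

theorem sub_le_dv (hb : IsSelfAdjoint b) {θ θ' : B →L[ℂ] ℂ} (h : θ ∈ Ext ι σ) (h' : θ' ∈ Ext ι σ) :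
    (θ b).re - (θ' b).re ≤ dv ι σ b := by
  refine le_csInf (hb_dv_ne hb) ?_
  rintro _ ⟨a, a', h1, h2, rfl⟩
  have e1 := h.1.re_mono h2
  have e2 := h'.1.re_mono h1
  rw [← res_apply, h.2] at e1
  rw [← res_apply, h'.2] at e2
  rw [map_sub, Complex.sub_re]
  exact sub_le_sub e1 e2

theorem dv_eq_zero (hι : Function.Injective ι) (hσ : IsPos σ) (hb : IsSelfAdjoint b)
    (h : ∀ θ ∈ Ext ι σ, ∀ θ' ∈ Ext ι σ, θ = θ') : dv ι σ b = 0 := by
  refine le_antisymm ?_ (dv_nonneg hι hσ b)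
  obtain ⟨ν, hν, e⟩ := hb_ext hι hσ hb
  obtain ⟨ν', hν', e'⟩ := hb_ext hι hσ hb.neg
  have h1 : dv ι σ b ≤ sInf (hbSet ι σ b) + sInf (hbSet ι σ (-b)) :=
    hb_le_add_sInf ⟨_, hb_mem_norm hb⟩ ⟨_, hb_mem_norm hb.neg⟩ (by
      rintro _ ⟨a, ha, rfl⟩ _ ⟨a', ha', rfl⟩
      have h2 := dv_le hι hσ (a := a) (a' := -a') (by rw [map_neg]; exact neg_le.1 ha') ha
      rwa [sub_neg_eq_add, map_add, Complex.add_re] at h2)
  rwa [← e, ← e', h ν' hν' ν hν, map_neg, Complex.neg_re, add_neg_cancel] at h1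

theorem usc_dv (hι : Function.Injective ι) (F : Finset B) (hF : ∀ b ∈ F, IsSelfAdjoint b) :
    Usc fun σ : A →L[ℂ] ℂ => ∑ b ∈ F, dv ι σ b := by
  classical
  refine ⟨fun σ hσ => Finset.sum_nonneg fun b _ => dv_nonneg hι hσ b, fun σ hσ s hs => ?_,
    ⟨∑ b ∈ F, 2 * ‖b‖, fun σ hσ => ?_⟩, fun σ hσ ε hε => ?_⟩
  · rw [Finset.mul_sum]
    refine Finset.sum_congr rfl fun b _ => ?_
    unfold dv
    rw [← smul_eq_mul, ← Real.sInf_smul_of_nonneg hs]
    congr 1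
    ext r
    constructor
    · rintro ⟨a, a', h1, h2, rfl⟩
      exact ⟨_, ⟨a, a', h1, h2, rfl⟩, (Complex.re_ofReal_mul _ _).symm⟩
    · rintro ⟨_, ⟨a, a', h1, h2, rfl⟩, rfl⟩
      exact ⟨a, a', h1, h2, (Complex.re_ofReal_mul _ _).symm⟩
  · rw [Finset.sum_mul]
    refine Finset.sum_le_sum fun b hb => ?_
    have h := dv_le hι hσ (b := b) (a := algebraMap ℝ A ‖b‖) (a' := -algebraMap ℝ A ‖b‖)
      (by rw [map_neg, hb_map_real]; exact (hF b hb).neg_algebraMap_norm_le_self)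
      (by rw [hb_map_real]; exact (hF b hb).le_algebraMap_norm_self)
    rwa [sub_neg_eq_add, ← map_add, hb_apply_real, ← two_mul] at h
  · have hγ : 0 < ε / (2 * ((F.card : ℝ) + 1)) := by positivity
    choose! a a' h using fun b (hb : b ∈ F) =>
      exists_lt_dv (σ := σ) hι (hF b hb) (lt_add_of_pos_right _ hγ)
    refine ⟨F.image fun b => a b - a' b, _, hγ, fun σ' hσ' hn => ?_⟩
    have h1 : ∀ b ∈ F, dv ι σ' b ≤ dv ι σ b + 2 * (ε / (2 * ((F.card : ℝ) + 1))) := fun b hb => by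
      obtain ⟨-, -, h2, h3, h4⟩ := h b hb
      have h5 := dv_le hι hσ' h2 h3
      have h6 := (Complex.re_le_norm _).trans_lt (hn _ (Finset.mem_image_of_mem _ hb))
      rw [Complex.sub_re] at h6
      linarith
    refine (Finset.sum_le_sum h1).trans ?_
    rw [Finset.sum_add_distrib, Finset.sum_const, nsmul_eq_mul]
    refine add_le_add le_rfl ((mul_le_mul_of_nonneg_right (le_add_of_nonneg_right zero_le_one)
      (by positivity)).trans (le_of_eq ?_))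
    field_simp

end dv

theorem Usc.res {Φ : (A →L[ℂ] ℂ) → ℝ} (h : Usc Φ) (ι : A →⋆ₐ[ℂ] B) :
    Usc fun θ : B →L[ℂ] ℂ => Φ (res ι θ) := by
  classical
  refine ⟨fun θ hθ => h.nonneg _ (hθ.res ι), fun θ hθ s hs => ?_, ?_, fun θ hθ ε hε => ?_⟩
  · rw [res_smul, h.homog _ (hθ.res ι) s hs]
  · obtain ⟨K, hK⟩ := h.bdd
    exact ⟨K, fun θ hθ => by rw [← res_one ι]; exact hK _ (hθ.res ι)⟩
  · obtain ⟨F, γ, hγ, hF⟩ := h.usc _ (hθ.res ι) ε hε
    exact ⟨F.image ι, γ, hγ, fun θ' hθ' hn =>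
      hF _ (hθ'.res ι) fun a ha => hn _ (Finset.mem_image_of_mem _ ha)⟩

end Pool.Agent.P.MP_5d580a_an
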