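import Pool.Agent.P.MP_5d580a_an.DisjA
import Pool.Agent.P.MP_5d580a_an.HB

open scoped ComplexOrder InnerProductSpace ComplexConjugate BoundedContinuousFunction
open MeasureTheory Filter Topology

set_option linter.unusedSectionVars false
set_option linter.unusedVariables false

noncomputable section

namespace Pool.Agent.P.MP_5d580a_an

variable {H : Type} [NormedAddCommGroup H] [InnerProductSpace ℂ H] [CompleteSpace H]

variable {A B : Type} [CStarAlgebra A] [CStarAlgebra B] {ι : A →⋆ₐ[ℂ] B}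

theorem disjb_max (P : (B →L[ℂ] ℂ) → Prop) (h0 : P 0) (hp : ∀ τ, P τ → IsPos τ) (K : ℝ)
    (hK : ∀ τ, P τ → (τ 1).re ≤ K)
    (hlim : ∀ (τ : ℕ → (B →L[ℂ] ℂ)) (τ' : B →L[ℂ] ℂ), (∀ n, P (τ n)) → IsPos τ' →
      (∀ n, IsPos (τ' - τ n)) → Tendsto τ atTop (𝓝 τ') → P τ') :
    ∃ τ, P τ ∧ ∀ α, IsPos α → P (τ + α) → α = 0 := by
  obtain ⟨s, -, hs⟩ := brezis_browder (S := {τ // P τ}) (fun s t => IsPos (t.1 - s.1))
    (fun s => isPos_sub_self _) (fun s t u h h' => h'.trans h) (fun s => (s.1 1).re)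
    (fun s t h => by
      have := h.one_nonneg
      rw [sub_apply, Complex.sub_re] at this
      linarith)
    K (fun s => hK _ s.2)
    (fun s h => by
      obtain ⟨τ, t1, t2, t3⟩ := exists_mono_lim_pos (fun n => (s n).1) (fun n => hp _ (s n).2) h K
        (fun n => hK _ (s n).2)
      exact ⟨⟨τ, hlim _ τ (fun n => (s n).2) t1 t2 t3⟩, t2⟩)
    ⟨0, h0⟩
  refine ⟨s.1, s.2, fun α hα h => hα.eq_zero ?_⟩
  have := hs ⟨s.1 + α, h⟩ (by simpa using hα)
  simp only [add_apply, Complex.add_re] at this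
  linarith

theorem disjb_cyc {C K : Type} [CStarAlgebra C] [NormedAddCommGroup K] [InnerProductSpace ℂ K]
    [CompleteSpace K] {π₁ : C →⋆ₐ[ℂ] (H →L[ℂ] H)} {π₂ : C →⋆ₐ[ℂ] (K →L[ℂ] K)} {ξ : H}
    (hξ : CycR π₁ ξ) {W : H →L[ℂ] K} (hW : Intw π₁ π₂ W) (h : W ξ = 0) : W = 0 := by
  ext v
  refine hξ.induction_on (p := fun v => W v = 0) v (isClosed_eq W.continuous continuous_const) ?_
  intro c
  rw [hW, h, map_zero]

theorem disjb_res_cont (ι : A →⋆ₐ[ℂ] B) : Continuous (res ι) :=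
  continuous_id.clm_comp continuous_const

theorem disjb_vf_cont (π : B →⋆ₐ[ℂ] (H →L[ℂ] H)) : Continuous (vf π) :=
  (innerSL ℂ (E := H)).continuous.clm_comp
    ((ContinuousLinearMap.apply ℂ H (E := H)).continuous.clm_comp continuous_const)

/-- extension inside the folium of `θ` -/
theorem exists_ext_disj {π : A →⋆ₐ[ℂ] (H →L[ℂ] H)} (hF : IsFactor (cmt π)) (ξ : H)
    {θ : B →L[ℂ] ℂ} (hθ : IsPos θ) (h0 : θ ≠ 0) (hle : IsPos (vf π ξ - res ι θ)) (γ : H) :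
    ∃ τ ∈ Ext ι (vf π γ), ∀ θ₂ : B →L[ℂ] ℂ, IsPos θ₂ → Disj θ θ₂ → Disj τ θ₂ := by
  obtain ⟨L, _, _, _, π', η, rfl, hc⟩ := exists_gns hθ
  obtain ⟨W, -, w2, w3⟩ := exists_intw π ξ (π'.comp ι) η (by rwa [← res_vf])
  have hW : W ≠ 0 := by
    rintro rfl
    exact h0 ((vf_eq_zero_iff _ _).2 (by simpa using w3.symm))
  obtain ⟨τ, ⟨t1, t2, t3⟩, hmax⟩ := disjb_max (fun τ => IsPos τ ∧ IsPos (vf π γ - res ι τ) ∧
      ∀ θ₂ : B →L[ℂ] ℂ, IsPos θ₂ → Disj (vf π' η) θ₂ → Disj τ θ₂)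
    ⟨isPos_zero, by
      have : vf π γ - res ι 0 = vf π γ := by ext c; simp
      rw [this]; exact isPos_vf _ _, fun θ₂ _ _ => disj_zero θ₂⟩
    (fun τ h => h.1) ((vf π γ 1).re)
    (fun τ h => by
      have := h.2.1.one_nonneg
      rw [sub_apply, Complex.sub_re, res_one] at this
      linarith)
    (fun τ τ' h p hl ht => ⟨p,
      IsPos.of_tendsto (tendsto_const_nhds.sub (((disjb_res_cont ι).tendsto τ').comp ht))
        (Eventually.of_forall fun n => (h n).2.1),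
      fun θ₂ p₂ hd => Disj.lim_left (fun n => (h n).1) hl ht p₂ fun n => (h n).2.2 θ₂ p₂ hd⟩)
  refine ⟨τ, ⟨t1, ?_⟩, t3⟩
  obtain ⟨k, -, -, -, k4, -⟩ := exists_rn π γ t2 (by
    rw [sub_sub_cancel]; exact t1.res ι)
  by_cases hk : k γ = 0
  · rw [(vf_eq_zero_iff _ _).2 hk] at k4
    exact (sub_eq_zero.1 k4.symm).symm
  obtain ⟨Y, y1, y2, y3⟩ := exists_common hF w2 hW hk
  refine absurd ((vf_eq_zero_iff _ _).1 (hmax (vf π' (Y (k γ))) (isPos_vf _ _)
    ⟨t1.add (isPos_vf _ _), ?_, fun θ₂ p₂ hd => Disj.add_left t1 (isPos_vf _ _) p₂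
      (t3 θ₂ p₂ hd) (Disj.vec_left hc p₂ hd _)⟩)) y3
  rw [res_add, ← sub_sub, ← k4, res_vf]
  exact y2.vf_le y1 _

theorem ext_separable [TopologicalSpace.SeparableSpace B] (hι : Function.Injective ι)
    {π : A →⋆ₐ[ℂ] (H →L[ℂ] H)} {ξ : H} (hξ : CycR π ξ) {m : ℕ} (hm : Bd ι (vf π ξ) m) (γ : H) :
    TopologicalSpace.IsSeparable (Ext ι (vf π γ)) := by
  classical
  have ex : ∃ n, Bd ι (vf π ξ) n := ⟨m, hm⟩
  obtain ⟨n, θ, h1, h2, h3⟩ : ∃ (n : ℕ) (θ : Fin n → (B →L[ℂ] ℂ)),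
      (∀ j, IsPos (θ j) ∧ θ j ≠ 0 ∧ IsPos (vf π ξ - res ι (θ j))) ∧
      (Pairwise fun j k => Disj (θ j) (θ k)) ∧ Bd ι (vf π ξ) n := by
    have a1 := Nat.find_spec ex
    rcases h : Nat.find ex with _ | n
    · rw [h] at a1
      exact ⟨0, Fin.elim0, fun j => j.elim0, fun j => j.elim0, a1⟩
    · have a2 := Nat.find_min ex (show n < Nat.find ex by omega)
      rw [h] at a1
      simp only [Bd, not_forall, not_not] at a2
      obtain ⟨θ, b1, b2⟩ := a2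
      exact ⟨n + 1, θ, b1, b2, a1⟩
  choose L i1 i2 i3 πj η e1 e2 using fun j => exists_gns (h1 j).1
  have sep : TopologicalSpace.IsSeparable (⋃ j, Set.range (vf (πj j))) :=
    TopologicalSpace.IsSeparable.iUnion fun j => by
      have := (e2 j).separable
      exact TopologicalSpace.isSeparable_range (disjb_vf_cont _)
  refine (sep.span (R := ℂ)).closure.mono ?_
  rintro θ₀ ⟨p₀, r₀⟩
  obtain ⟨τ, ⟨t1, t2, t3⟩, hmax⟩ := disjb_max (fun τ => IsPos τ ∧ IsPos (θ₀ - τ) ∧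
      τ ∈ (Submodule.span ℂ (⋃ j, Set.range (vf (πj j)))).topologicalClosure)
    ⟨isPos_zero, by rwa [sub_zero], Submodule.zero_mem _⟩ (fun τ h => h.1) ((θ₀ 1).re)
    (fun τ h => by
      have := h.2.1.one_nonneg
      rw [sub_apply, Complex.sub_re] at this
      linarith)
    (fun τ τ' h p hl ht => ⟨p,
      IsPos.of_tendsto (tendsto_const_nhds.sub ht) (Eventually.of_forall fun n => (h n).2.1),
      (Submodule.isClosed_topologicalClosure _).mem_of_tendsto ht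
        (Eventually.of_forall fun n => (h n).2.2)⟩)
  by_cases hz : θ₀ - τ = 0
  · rw [sub_eq_zero.1 hz]
    exact t3
  exfalso
  obtain ⟨L', _, _, _, π', η', g1, g2⟩ := exists_gns t2
  have hη : η' ≠ 0 := fun h => hz (g1 ▸ (vf_eq_zero_iff _ _).2 h)
  obtain ⟨W, w1, w2, w3⟩ := exists_intw π γ (π'.comp ι) η' (by
    rw [← res_vf, g1, res_sub, r₀, sub_sub_cancel]
    exact t1.res ι)
  have hW : W ξ ≠ 0 := fun h => hη (by rw [← w3, disjb_cyc hξ w2 h]; rfl)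
  obtain ⟨j, hj⟩ : ∃ j, ¬ Disj (vf π' (W ξ)) (θ j) := by
    by_contra hc
    push Not at hc
    refine h3 (Fin.cons (vf π' (W ξ)) θ) (fun j => ?_) fun j k hjk => ?_
    · refine Fin.cases ?_ (fun j => h1 j) j
      refine ⟨isPos_vf _ _, fun h => hW ((vf_eq_zero_iff _ _).1 h), ?_⟩
      rw [Fin.cons_zero, res_vf]
      exact w2.vf_le w1 _
    · revert hjk
      refine Fin.cases ?_ (fun j => ?_) j <;> refine Fin.cases ?_ (fun k => ?_) k <;> intro hjk
      · exact absurd rfl hjk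
      · exact hc k
      · exact (hc j).symm
      · exact h2 fun h => hjk (congrArg Fin.succ h)
  rw [← e1 j] at hj
  refine hj (disj_of_intw fun T a1 a2 b => ?_)
  have a3 : T η' = 0 := by
    refine (vf_eq_zero_iff (πj j) _).1 (hmax _ (isPos_vf _ _) ⟨t1.add (isPos_vf _ _), ?_,
      Submodule.add_mem _ t3 (Submodule.le_topologicalClosure _ (Submodule.subset_span
        (Set.mem_iUnion.2 ⟨j, _, rfl⟩)))⟩)
    rw [← sub_sub, ← g1]
    exact a2.vf_le a1 _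
  rw [disjb_cyc g2 a2 a3]
  simp

end Pool.Agent.P.MP_5d580a_an
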