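import Pool.Agent.P.MP_5d580a_an.PL1

open scoped ComplexOrder InnerProductSpace ComplexConjugate BoundedContinuousFunction
open MeasureTheory Filter Topology

set_option linter.unusedSectionVars false
set_option linter.unusedVariables false
set_option linter.unusedSimpArgs false
set_option linter.deprecated false

noncomputable section

namespace Pool.Agent.P.MP_5d580a_an

variable {H : Type} [NormedAddCommGroup H] [InnerProductSpace ℂ H] [CompleteSpace H]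

variable {M : VonNeumannAlgebra H}

namespace PL2Aux

/-- real vector functional -/
def w (ξ : H) (T : H →L[ℂ] H) : ℝ := (⟪ξ, T ξ⟫_ℂ).re

theorem w_add (ξ : H) (S T : H →L[ℂ] H) : w ξ (S + T) = w ξ S + w ξ T := by
  simp [w, inner_add_right]

theorem w_sub (ξ : H) (S T : H →L[ℂ] H) : w ξ (S - T) = w ξ S - w ξ T := by
  simp [w, inner_sub_right]

theorem w_zero (ξ : H) : w ξ (0 : H →L[ℂ] H) = 0 := by simp [w]

theorem w_one (ξ : H) : w ξ (1 : H →L[ℂ] H) = ‖ξ‖ ^ 2 := by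
  have := norm_sq_apply (1 : H →L[ℂ] H) ξ
  simpa [w] using this.symm

theorem w_neg (ξ : H) (T : H →L[ℂ] H) : w ξ (-T) = -w ξ T := by simp [w]

theorem w_mono (ξ : H) {S T : H →L[ℂ] H} (h : S ≤ T) : w ξ S ≤ w ξ T := re_inner_mono h ξ

theorem w_nonneg (ξ : H) {T : H →L[ℂ] H} (h : 0 ≤ T) : 0 ≤ w ξ T := by
  have := w_mono ξ h
  rwa [w_zero] at this

theorem w_star_mul (ξ : H) (x : H →L[ℂ] H) : w ξ (star x * x) = ‖x ξ‖ ^ 2 :=
  (norm_sq_apply x ξ).symm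

theorem w_conj (ξ : H) (x T : H →L[ℂ] H) : w (x ξ) T = w ξ (star x * T * x) := by
  simp only [w, ContinuousLinearMap.mul_apply]
  rw [inner_star_right]

theorem w_rsmul (ξ : H) (c : ℝ) (T : H →L[ℂ] H) : w ((c : ℂ) • ξ) T = c ^ 2 * w ξ T := by
  simp only [w, map_smul, inner_smul_left, inner_smul_right, Complex.conj_ofReal]
  rw [← mul_assoc, ← Complex.ofReal_mul, Complex.re_ofReal_mul]
  ring

theorem w_vneg (ξ : H) (T : H →L[ℂ] H) : w (-ξ) T = w ξ T := by simp [w]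

theorem w_abs_le (ξ : H) {T : H →L[ℂ] H} (hT : ‖T‖ ≤ 1) : |w ξ T| ≤ ‖ξ‖ ^ 2 := by
  have h1 : |w ξ T| ≤ ‖⟪ξ, T ξ⟫_ℂ‖ := Complex.abs_re_le_norm _
  have h2 : ‖⟪ξ, T ξ⟫_ℂ‖ ≤ ‖ξ‖ * ‖T ξ‖ := norm_inner_le_norm _ _
  have h3 : ‖T ξ‖ ≤ ‖T‖ * ‖ξ‖ := T.le_opNorm ξ
  have h4 : ‖T‖ * ‖ξ‖ ≤ ‖ξ‖ := mul_le_of_le_one_left (norm_nonneg _) hT
  have h5 : ‖ξ‖ * ‖T ξ‖ ≤ ‖ξ‖ * ‖ξ‖ := mul_le_mul_of_nonneg_left (h3.trans h4) (norm_nonneg _)
  nlinarith

theorem w_sum (ξ : H) {n : ℕ} (x : Fin n → (H →L[ℂ] H)) : w ξ (∑ j, x j) = ∑ j, w ξ (x j) := by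
  simp [w, inner_sum]

/-- a finite family with square sum `s` and defect at most `c` -/
def Fam (M : VonNeumannAlgebra H) (α β : H) (s : H →L[ℂ] H) (c : ℝ) : Prop :=
  ∃ (n : ℕ) (x : Fin n → (H →L[ℂ] H)), (∀ j, x j ∈ M) ∧ ∑ j, star (x j) * x j = s ∧
    ∀ T : Fin n → (H →L[ℂ] H), (∀ j, T j ∈ M ∧ IsSelfAdjoint (T j) ∧ ‖T j‖ ≤ 1) →
      ∑ j, (w (x j α) (T j) - w (x j β) (T j)) ≤ c

theorem fam_zero (α β : H) : Fam M α β 0 0 :=
  ⟨0, fun j => j.elim0, fun j => j.elim0, by simp, fun T _ => by simp⟩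

theorem Fam.cons {α β : H} {s : H →L[ℂ] H} {c c' : ℝ} (h : Fam M α β s c) {x : H →L[ℂ] H}
    (hx : x ∈ M)
    (hb : ∀ T ∈ M, IsSelfAdjoint T → ‖T‖ ≤ 1 → w (x α) T - w (x β) T ≤ c') :
    Fam M α β (star x * x + s) (c' + c) := by
  obtain ⟨n, y, hy, hs, hT⟩ := h
  refine ⟨n + 1, Fin.cons x y, ?_, ?_, ?_⟩
  · intro j
    refine Fin.cases ?_ (fun i => ?_) j
    · simpa using hx
    · simpa using hy i
  · rw [Fin.sum_univ_succ]
    simp [hs]
  · intro T hTT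
    rw [Fin.sum_univ_succ]
    have h1 := hb (T 0) (hTT 0).1 (hTT 0).2.1 (hTT 0).2.2
    have h2 := hT (fun i => T i.succ) (fun i => hTT i.succ)
    simp only [Fin.cons_zero, Fin.cons_succ]
    linarith

theorem Fam.mono {α β : H} {s : H →L[ℂ] H} {c c' : ℝ} (h : Fam M α β s c) (hc : c ≤ c') :
    Fam M α β s c' := by
  obtain ⟨n, y, hy, hs, hT⟩ := h
  exact ⟨n, y, hy, hs, fun T hTT => (hT T hTT).trans hc⟩

theorem Fam.mem {α β : H} {s : H →L[ℂ] H} {c : ℝ} (h : Fam M α β s c) : s ∈ M := by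
  obtain ⟨n, y, hy, hs, hT⟩ := h
  rw [← hs]
  exact sum_mem fun j _ => mul_mem (star_mem (hy j)) (hy j)

theorem Fam.nonneg {α β : H} {s : H →L[ℂ] H} {c : ℝ} (h : Fam M α β s c) : 0 ≤ s := by
  obtain ⟨n, y, hy, hs, hT⟩ := h
  rw [← hs]
  exact Finset.sum_nonneg fun j _ => star_mul_self_nonneg _

theorem Fam.diff {α β : H} {s : H →L[ℂ] H} {c : ℝ} (h : Fam M α β s c) :
    w α s - w β s ≤ c ∧ w β s - w α s ≤ c := by
  obtain ⟨n, y, hy, hs, hT⟩ := h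
  have n1 : ‖(1 : H →L[ℂ] H)‖ ≤ 1 := ContinuousLinearMap.norm_id_le
  have h1 := hT (fun _ => 1) (fun _ => ⟨one_mem _, IsSelfAdjoint.one _, n1⟩)
  have h2 := hT (fun _ => -1) (fun _ => ⟨neg_mem (one_mem _), (IsSelfAdjoint.one _).neg,
    by simpa using n1⟩)
  simp only [w_neg, w_one, Finset.sum_sub_distrib, Finset.sum_neg_distrib] at h1 h2
  rw [← hs, w_sum, w_sum]
  simp only [w_star_mul]
  constructor <;> linarith

/-- the set on which the ordering principle is run -/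
def Adm (M : VonNeumannAlgebra H) (e : H →L[ℂ] H) (α β : H) (d : ℝ) (y : H →L[ℂ] H) : Prop :=
  y ∈ M ∧ 0 ≤ y ∧ y ≤ 1 ∧ y * e = e * y ∧ ∀ δ : ℝ, 0 < δ → ∃ s, Fam M α β s (d * w α s) ∧ s ≤ y ∧
    w α (y - s) + w β (y - s) ≤ δ

theorem adm_zero (e : H →L[ℂ] H) (α β : H) (d : ℝ) : Adm M e α β d 0 := by
  refine ⟨zero_mem _, le_rfl, zero_le_one, by simp, fun δ hδ => ⟨0, ?_, le_rfl, ?_⟩⟩
  · simpa [w_zero] using fam_zero (M := M) α β
  · simp [w_zero, hδ.le]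

theorem adm_chain {e : H →L[ℂ] H} {α β : H} {d : ℝ} (y : ℕ → (H →L[ℂ] H))
    (hy : ∀ n, Adm M e α β d (y n)) (hm : ∀ n, y n ≤ y (n + 1)) :
    ∃ z, Adm M e α β d z ∧ ∀ n, y n ≤ z := by
  obtain ⟨z, hz1, hz2, hz3, hz4⟩ := exists_mono_lim y (fun n => (hy n).2.1.isSelfAdjoint) hm 1
    (fun n => norm_le_one_of_le_one (hy n).2.1 (hy n).2.2.1)
  have hw := wot_of_sot hz4
  have hle := le_of_wot hw (a := 0) (b := 1)
    (Eventually.of_forall fun n => ⟨(hy n).2.1, (hy n).2.2.1⟩)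
  refine ⟨z, ⟨mem_of_wot hw (Eventually.of_forall fun n => (hy n).1), hle.1, hle.2,
    commute_of_wot hw (Eventually.of_forall fun n => (hy n).2.2.2.1), fun δ hδ => ?_⟩, hz3⟩
  have t1 : Tendsto (fun n => w α (y n) + w β (y n)) atTop (𝓝 (w α z + w β z)) :=
    ((Complex.continuous_re.tendsto _).comp (hw α α)).add
      ((Complex.continuous_re.tendsto _).comp (hw β β))
  have t2 : ∀ᶠ n in atTop, w α z + w β z - δ / 2 < w α (y n) + w β (y n) :=
    t1.eventually (lt_mem_nhds (by linarith))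
  obtain ⟨n, hn⟩ := t2.exists
  obtain ⟨s, hs1, hs2, hs3⟩ := (hy n).2.2.2.2 (δ / 2) (by linarith)
  refine ⟨s, hs1, hs2.trans (hz3 n), ?_⟩
  simp only [w_sub] at hs3 ⊢
  linarith

theorem defect {p : H →L[ℂ] H} (hpM : p ∈ M) (hp : IsStarProjection p) {a g : H} {t d : ℝ}
    (h : ∀ T ∈ M, 0 ≤ T → p * T = T → t * (⟪a, T a⟫_ℂ).re ≤ (⟪g, T g⟫_ℂ).re ∧
      (⟪g, T g⟫_ℂ).re ≤ (1 + d) * t * (⟪a, T a⟫_ℂ).re)
    {T : H →L[ℂ] H} (hT : T ∈ M) (hsa : IsSelfAdjoint T) (hn : ‖T‖ ≤ 1) :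
    t * w (p a) T - w (p g) T ≤ d * (t * ‖p a‖ ^ 2) := by
  have hpp : p * p = p := hp.isIdempotentElem.eq
  have hps : star p = p := hp.isSelfAdjoint.star_eq
  have n1 : ‖(1 : H →L[ℂ] H)‖ ≤ 1 := ContinuousLinearMap.norm_id_le
  have h1T : 0 ≤ 1 + T := by
    rw [nonneg_iff_inner]
    intro ξ
    have hr : 0 ≤ w ξ (1 + T) := by
      rw [w_add, w_one]
      have := abs_le.1 (w_abs_le ξ hn)
      linarith [this.1]
    have hsa' : IsSelfAdjoint (1 + T) := (IsSelfAdjoint.one _).add hsa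
    have him : (⟪ξ, (1 + T) ξ⟫_ℂ).im = 0 := by
      have e1 : ⟪ξ, (1 + T) ξ⟫_ℂ = ⟪(1 + T) ξ, ξ⟫_ℂ := by
        rw [← inner_star_right, hsa'.star_eq]
      have e2 : conj ⟪ξ, (1 + T) ξ⟫_ℂ = ⟪ξ, (1 + T) ξ⟫_ℂ := by
        rw [inner_conj_symm, ← e1]
      exact Complex.conj_eq_iff_im.1 e2
    exact Complex.nonneg_iff.2 ⟨hr, him.symm⟩
  have A := h (star p * (1 + T) * p) (mul_mem (mul_mem (star_mem hpM) (add_mem (one_mem _) hT)) hpM)
    (star_left_conjugate_nonneg h1T p) (by rw [hps, ← mul_assoc, ← mul_assoc, hpp])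
  have B := h p hpM hp.nonneg hpp
  change t * w a _ ≤ w g _ ∧ w g _ ≤ (1 + d) * t * w a _ at A B
  rw [← w_conj, ← w_conj, w_add, w_add, w_one, w_one] at A
  have e1 : ∀ ξ : H, w ξ p = ‖p ξ‖ ^ 2 := fun ξ => by
    rw [← w_star_mul, hps, hpp]
  rw [e1, e1] at B
  nlinarith [A.1, B.2]

theorem adm_step (hM : IsFactor M) {e : H →L[ℂ] H} (he : e ∈ M) (hp : IsStarProjection e)
    {α β : H} (hα : e α = α) (hβ : e β = 0) {d : ℝ} (hd : 0 < d) {y : H →L[ℂ] H}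
    (hy : Adm M e α β d y) (h1 : w α (1 - y) ≠ 0) (h2 : w β (1 - y) ≠ 0) :
    ∃ y', Adm M e α β d y' ∧ y ≤ y' ∧ w α y + w β y < w α y' + w β y' := by
  obtain ⟨hyM, hy0, hy1, hye, hyF⟩ := hy
  obtain ⟨k, hk0, hkk, -, hkc⟩ := exists_sqrt (sub_nonneg.2 hy1)
  have hks : star k = k := hk0.isSelfAdjoint.star_eq
  have hkM : k ∈ M := mem_of_commute fun z hz => hkc z (by
    rw [mul_sub, sub_mul, mul_one, one_mul, commute_of_mem hyM hz])
  have hke : e * k = k * e := hkc e (by rw [mul_sub, sub_mul, mul_one, one_mul, hye])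
  have hes : star e = e := hp.isSelfAdjoint.star_eq
  have hee : e * e = e := hp.isIdempotentElem.eq
  have hwk : ∀ ξ : H, w ξ (1 - y) = ‖k ξ‖ ^ 2 := fun ξ => by rw [← w_star_mul, hks, hkk]
  have ha0 : k α ≠ 0 := fun h => h1 (by rw [hwk, h]; simp)
  have hb0 : k β ≠ 0 := fun h => h2 (by rw [hwk, h]; simp)
  have hea : e (k α) = k α := by
    rw [← ContinuousLinearMap.mul_apply, hke, ContinuousLinearMap.mul_apply, hα]
  have heb : e (k β) = 0 := by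
    rw [← ContinuousLinearMap.mul_apply, hke, ContinuousLinearMap.mul_apply, hβ, map_zero]
  obtain ⟨sa, hsaM, hsap, hsa1, hsa2, -, -⟩ := exists_supp M (k α)
  obtain ⟨sb, hsbM, hsbp, hsb1, hsb2, -, -⟩ := exists_supp M (k β)
  have hsa0 : sa ≠ 0 := fun h => ha0 (by rw [← hsa1, h]; simp)
  have hsb0 : sb ≠ 0 := fun h => hb0 (by rw [← hsb1, h]; simp)
  have hesa : e * sa = sa := by
    have := hsa2 (1 - e) (sub_mem (one_mem _) he) (by simp [hea])
    rw [sub_mul, one_mul, sub_eq_zero] at this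
    exact this.symm
  have hesb : e * sb = 0 := hsb2 e he heb
  have hsbe : sb * e = 0 := by
    have := congrArg star hesb
    rwa [star_mul, hes, hsbp.isSelfAdjoint.star_eq, star_zero] at this
  obtain ⟨v, hvM, hv0, hv, hv1, hv2⟩ := hM.exists_piso hsaM hsbM hsap hsbp hsa0 hsb0
  have hf0 : v * star v ≠ 0 := fun h => hv0 (by rw [← hv, h, zero_mul])
  have hfa : ∀ T ∈ M, T * (v * star v) = T → T (k α) = 0 → T = 0 := fun T hT h h' => by
    rw [← h, ← hv1, mul_assoc, ← mul_assoc T, hsa2 T hT h', zero_mul]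
  have hfb : ∀ T ∈ M, T * (v * star v) = T → T (v (k β)) = 0 → T = 0 := fun T hT h h' => by
    have := hsb2 (T * v) (mul_mem hT hvM) h'
    rw [mul_assoc, hv2] at this
    rw [← h, ← mul_assoc, this, zero_mul]
  obtain ⟨p, hpM, hpp, hp0, hfp, t, ht, hT⟩ := local_prop (mul_mem hvM (star_mem hvM))
    (piso_fin hv) hf0 hfa hfb hd
  have hps : star p = p := hpp.isSelfAdjoint.star_eq
  have hp2 : p * p = p := hpp.isIdempotentElem.eq
  have hpf : p * (v * star v) = p := by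
    have := congrArg star hfp
    rwa [star_mul, hps, (piso_fin hv).isSelfAdjoint.star_eq] at this
  have hev : e * v = v := by rw [← hv1, ← mul_assoc, hesa]
  have hve : v * e = 0 := by rw [← hv2, mul_assoc, hsbe, mul_zero]
  have hep : e * p = p := by rw [← hfp, ← mul_assoc, ← mul_assoc, hev]
  have hpe : p * e = p := by
    have := congrArg star hep
    rwa [star_mul, hps, hes] at this
  have hpa : p (k α) ≠ 0 := fun h => hp0 (hfa p hpM hpf h)
  have hpb : p (k β) = 0 := by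
    rw [← hpe, ContinuousLinearMap.mul_apply, heb, map_zero]
  have hva : v (k α) = 0 := by
    rw [← hea, ← ContinuousLinearMap.mul_apply, hve]; simp
  obtain ⟨τ, hτ0, hτ⟩ : ∃ τ : ℝ, 0 < τ ∧ τ ^ 2 = t := ⟨√t, Real.sqrt_pos.2 ht, Real.sq_sqrt ht.le⟩
  obtain ⟨l, hl0, hl⟩ : ∃ l : ℝ, 0 < l ∧ l ^ 2 = 1 / (2 * (1 + t)) :=
    ⟨√(1 / (2 * (1 + t))), Real.sqrt_pos.2 (by positivity), Real.sq_sqrt (by positivity)⟩
  set a : H →L[ℂ] H := ((l * τ : ℝ) : ℂ) • (p * k) with ha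
  set b : H →L[ℂ] H := ((l : ℝ) : ℂ) • (p * v * k) with hb
  have haM : a ∈ M := vn_smul_mem _ (mul_mem hpM hkM)
  have hbM : b ∈ M := vn_smul_mem _ (mul_mem (mul_mem hpM hvM) hkM)
  have haα : a α = ((l * τ : ℝ) : ℂ) • p (k α) := by simp [ha]
  have haβ : a β = 0 := by simp [ha, hpb]
  have hbα : b α = 0 := by simp [hb, hva]
  have hbβ : b β = ((l : ℝ) : ℂ) • p (v (k β)) := by simp [hb]
  have hna : ‖a α‖ ^ 2 = l ^ 2 * (t * ‖p (k α)‖ ^ 2) := by
    rw [haα, norm_smul, Complex.norm_real, Real.norm_eq_abs, mul_pow, sq_abs, mul_pow, hτ]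
    ring
  have key : ∀ T ∈ M, IsSelfAdjoint T → ‖T‖ ≤ 1 → w (a α) T - w (b β) T ≤ d * ‖a α‖ ^ 2 := by
    intro T hTM hsa hn
    have := defect hpM hpp hT hTM hsa hn
    rw [hna, haα, hbβ, w_rsmul, w_rsmul, mul_pow, hτ]
    have hl2 : 0 ≤ l ^ 2 := sq_nonneg l
    nlinarith [mul_le_mul_of_nonneg_left this hl2]
  have k1 : ∀ T ∈ M, IsSelfAdjoint T → ‖T‖ ≤ 1 →
      w ((a + b) α) T - w ((a + b) β) T ≤ d * w α (star (a + b) * (a + b)) := by
    intro T hTM hsa hn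
    rw [w_star_mul]
    simpa [haβ, hbα] using key T hTM hsa hn
  have k2 : ∀ T ∈ M, IsSelfAdjoint T → ‖T‖ ≤ 1 →
      w ((a - b) α) T - w ((a - b) β) T ≤ d * w α (star (a - b) * (a - b)) := by
    intro T hTM hsa hn
    rw [w_star_mul]
    simpa [haβ, hbα, w_vneg] using key T hTM hsa hn
  set u : H →L[ℂ] H := star (a + b) * (a + b) + star (a - b) * (a - b) with hu
  have hu0 : 0 ≤ u := add_nonneg (star_mul_self_nonneg _) (star_mul_self_nonneg _)
  have hu1 : u = star k * (((2 * l ^ 2 * t : ℝ) : ℂ) • p +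
      ((2 * l ^ 2 : ℝ) : ℂ) • (star v * p * v)) * k := by
    have e1 : u = (2 : ℂ) • (star a * a) + (2 : ℂ) • (star b * b) := by
      rw [hu, star_add, star_sub, two_smul, two_smul]
      noncomm_ring
    have e2 : star a * a = ((l ^ 2 * t : ℝ) : ℂ) • (star k * p * k) := by
      rw [ha, star_smul, smul_mul_smul_comm, star_mul, hps, ← hτ]
      congr 1
      · simp; ring
      · rw [mul_assoc, ← mul_assoc p, hp2, mul_assoc]
    have e3 : star b * b = ((l ^ 2 : ℝ) : ℂ) • (star k * (star v * p * v) * k) := by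
      rw [hb, star_smul, smul_mul_smul_comm, star_mul, star_mul, hps]
      congr 1
      · simp; ring
      · calc star k * (star v * p) * (p * v * k) = star k * (star v * (p * p) * v) * k := by
              noncomm_ring
          _ = _ := by rw [hp2]
    rw [e1, e2, e3, mul_add, add_mul, smul_smul, smul_smul]
    simp only [mul_smul_comm, smul_mul_assoc]
    congr 2 <;> push_cast <;> ring
  have hu2 : u ≤ 1 - y := by
    have c1 : ((2 * l ^ 2 * t : ℝ) : ℂ) • p ≤ ((2 * l ^ 2 * t : ℝ) : ℂ) • (1 : H →L[ℂ] H) :=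
      smul_le_smul_of_nonneg_left hpp.le_one (by exact_mod_cast (by positivity))
    have c0 : star v * p * v ≤ 1 := by
      have := star_left_conjugate_le_conjugate hpp.le_one v
      rw [mul_one] at this
      exact this.trans (piso_init hv).le_one
    have c2 : ((2 * l ^ 2 : ℝ) : ℂ) • (star v * p * v) ≤ ((2 * l ^ 2 : ℝ) : ℂ) • (1 : H →L[ℂ] H) :=
      smul_le_smul_of_nonneg_left c0 (by exact_mod_cast (by positivity))
    have c3 : ((2 * l ^ 2 * t : ℝ) : ℂ) • (1 : H →L[ℂ] H) +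
        ((2 * l ^ 2 : ℝ) : ℂ) • (1 : H →L[ℂ] H) = 1 := by
      rw [← add_smul, ← Complex.ofReal_add]
      have : 2 * l ^ 2 * t + 2 * l ^ 2 = 1 := by
        rw [hl]; field_simp; ring
      rw [this]; simp
    have c4 := star_left_conjugate_le_conjugate ((add_le_add c1 c2).trans c3.le) k
    rw [mul_one] at c4
    rw [hu1, ← hkk]
    simpa [hks] using c4
  have hue : u * e = e * u := by
    have hev' : e * star v = 0 := by
      have := congrArg star hve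
      rwa [star_mul, hes, star_zero] at this
    have c1 : Commute e p := by rw [Commute, SemiconjBy, hep, hpe]
    have c2 : Commute e (star v * p * v) := by
      rw [Commute, SemiconjBy, ← mul_assoc, ← mul_assoc, hev', mul_assoc (star v * p), hve]
      simp
    have c3 : Commute e k := hke
    rw [hu1, hks]
    exact ((c3.mul_right ((c1.smul_right _).add_right (c2.smul_right _))).mul_right c3).eq.symm
  refine ⟨y + u, ⟨add_mem hyM ?_, add_nonneg hy0 hu0, ?_, ?_, fun δ hδ => ?_⟩,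
    le_add_of_nonneg_right hu0, ?_⟩
  · exact add_mem (mul_mem (star_mem (add_mem haM hbM)) (add_mem haM hbM))
      (mul_mem (star_mem (sub_mem haM hbM)) (sub_mem haM hbM))
  · exact le_sub_iff_add_le'.1 hu2
  · rw [add_mul, mul_add, hye, hue]
  · obtain ⟨s, hs1, hs2, hs3⟩ := hyF δ hδ
    refine ⟨u + s, ?_, ?_, ?_⟩
    · have := (hs1.cons (sub_mem haM hbM) k2).cons (add_mem haM hbM) k1
      rw [← add_assoc, ← hu] at this
      refine this.mono (le_of_eq ?_)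
      rw [hu, w_add, w_add]
      ring
    · rw [add_comm y]
      exact add_le_add le_rfl hs2
    · have : y + u - (u + s) = y - s := by abel
      rwa [this]
  · have p1 : 0 < w α u := by
      rw [hu, w_add, w_star_mul, w_star_mul]
      have : (a + b) α = a α := by simp [hbα]
      rw [this, hna]
      have : 0 < ‖p (k α)‖ := norm_pos_iff.2 hpa
      positivity
    have p2 := w_nonneg β hu0
    rw [w_add α y u, w_add β y u]
    linarith

end PL2Aux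

open PL2Aux in
theorem pl_vec (hM : IsFactor M) {e : H →L[ℂ] H} (he : e ∈ M) (hp : IsStarProjection e) {α β : H}
    (hα : e α = α) (hβ : e β = 0) (hn : ‖α‖ = ‖β‖) {ε : ℝ} (hε : 0 < ε) :
    ∃ (n : ℕ) (x : Fin n → (H →L[ℂ] H)), (∀ j, x j ∈ M) ∧ ∑ j, star (x j) * x j = 1 ∧
      ∀ T : Fin n → (H →L[ℂ] H), (∀ j, T j ∈ M ∧ IsSelfAdjoint (T j) ∧ ‖T j‖ ≤ 1) →
        ∑ j, ((⟪x j α, T j (x j α)⟫_ℂ).re - (⟪x j β, T j (x j β)⟫_ℂ).re) ≤ ε := by
  obtain ⟨d, hd, hdε⟩ : ∃ d : ℝ, 0 < d ∧ d * ‖α‖ ^ 2 ≤ ε / 4 := by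
    refine ⟨ε / 4 / (‖α‖ ^ 2 + 1), by positivity, ?_⟩
    rw [div_mul_eq_mul_div, div_le_iff₀ (by positivity)]
    nlinarith
  obtain ⟨⟨y, hy⟩, -, hmax⟩ := brezis_browder (S := {y // Adm M e α β d y})
    (fun s t => s.1 ≤ t.1) (fun s => le_rfl) (fun s t u h1 h2 => h1.trans h2)
    (fun s => w α s.1 + w β s.1) (fun s t h => add_le_add (w_mono α h) (w_mono β h))
    (w α 1 + w β 1) (fun s => add_le_add (w_mono α s.2.2.2.1) (w_mono β s.2.2.2.1))
    (fun s hs => by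
      obtain ⟨z, hz, hz'⟩ := adm_chain (fun n => (s n).1) (fun n => (s n).2) hs
      exact ⟨⟨z, hz⟩, hz'⟩) ⟨0, adm_zero e α β d⟩
  have hor : w α (1 - y) = 0 ∨ w β (1 - y) = 0 := by
    by_contra hne
    rw [not_or] at hne
    obtain ⟨y', hy', h1, h2⟩ := adm_step hM he hp hα hβ hd hy hne.1 hne.2
    exact absurd (hmax ⟨y', hy'⟩ h1) (not_le.2 h2)
  obtain ⟨hyM, hy0, hy1, hye, hyF⟩ := hy
  obtain ⟨s, hs1, hs2, hs3⟩ := hyF (ε / 4) (by linarith)
  obtain ⟨r, hr0, hrr, -, hrc⟩ := exists_sqrt (sub_nonneg.2 (hs2.trans hy1))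
  have hrs : star r = r := hr0.isSelfAdjoint.star_eq
  have hrM : r ∈ M := mem_of_commute fun z hz => hrc z (by
    rw [mul_sub, sub_mul, mul_one, one_mul, commute_of_mem hs1.mem hz])
  have hwr : ∀ ξ : H, ‖r ξ‖ ^ 2 = w ξ (1 - s) := fun ξ => by rw [← w_star_mul, hrs, hrr]
  have hF := hs1.cons (c' := w α (1 - s) + w β (1 - s)) hrM (fun T _ _ hT => by
    have a1 := abs_le.1 (w_abs_le (r α) hT)
    have a2 := abs_le.1 (w_abs_le (r β) hT)
    rw [← hwr, ← hwr]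
    linarith [a1.2, a2.1])
  rw [hrs, hrr, sub_add_cancel] at hF
  refine hF.mono ?_
  have b1 := hs1.diff
  have b2 := w_nonneg α (sub_nonneg.2 hs2)
  have b3 := w_nonneg β (sub_nonneg.2 hs2)
  have b4 : d * w α s ≤ d * ‖α‖ ^ 2 := by
    rw [← w_one]
    exact mul_le_mul_of_nonneg_left (w_mono α (hs2.trans hy1)) hd.le
  simp only [w_sub, w_one, ← hn] at hor hs3 b2 b3 ⊢
  rcases hor with h | h <;> linarith [b1.1, b1.2]

/-- the partition lemma -/
theorem pl_lemma (hM : IsFactor M) (ξ : H) {a : H →L[ℂ] H} (ha : a ∈ M.commutant)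
    (hsa : IsSelfAdjoint a) (h0 : (⟪ξ, a ξ⟫_ℂ).re = 0) {ε : ℝ} (hε : 0 < ε) :
    ∃ (n : ℕ) (x : Fin n → (H →L[ℂ] H)), (∀ j, x j ∈ M) ∧ ∑ j, star (x j) * x j = 1 ∧
      ∀ T : Fin n → (H →L[ℂ] H), (∀ j, T j ∈ M ∧ IsSelfAdjoint (T j) ∧ ‖T j‖ ≤ 1) →
        ∑ j, (⟪x j ξ, a (T j (x j ξ))⟫_ℂ).re ≤ ε := by
  obtain ⟨e, he, hp, α, β, hα, hβ, hT⟩ :=
    jordan_vec M ((1 / 2 : ℂ) • (a ξ + ξ)) ((1 / 2 : ℂ) • (a ξ - ξ))
  have key : ∀ T ∈ M, ⟪ξ, a (T ξ)⟫_ℂ = ⟪α, T α⟫_ℂ - ⟪β, T β⟫_ℂ := by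
    intro T hTM
    rw [← hT T hTM]
    have e1 : ⟪a ξ, T ξ⟫_ℂ = ⟪ξ, a (T ξ)⟫_ℂ := by rw [← inner_star_right, hsa.star_eq]
    have e2 : ⟪ξ, T (a ξ)⟫_ℂ = ⟪ξ, a (T ξ)⟫_ℂ := by rw [commute_apply hTM ha]
    simp only [map_smul, map_add, map_sub, inner_smul_left, inner_smul_right, inner_add_left,
      inner_add_right, inner_sub_left, inner_sub_right, e1, e2, map_div₀, map_one, map_ofNat]
    ring
  have hn : ‖α‖ = ‖β‖ := by
    have h1 := congrArg Complex.re (key 1 (one_mem _))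
    have h2 := PL2Aux.w_one α
    have h3 := PL2Aux.w_one β
    simp only [PL2Aux.w, ContinuousLinearMap.one_apply, Complex.sub_re] at h1 h2 h3
    have : ‖α‖ ^ 2 = ‖β‖ ^ 2 := by linarith
    exact (pow_left_inj₀ (norm_nonneg _) (norm_nonneg _) two_ne_zero).1 this
  obtain ⟨n, x, hx, hs, hb⟩ := pl_vec hM he hp hα hβ hn hε
  refine ⟨n, x, hx, hs, fun T hTT => le_trans (le_of_eq ?_) (hb T hTT)⟩
  refine Finset.sum_congr rfl fun j _ => ?_
  have := key (star (x j) * T j * x j) (mul_mem (mul_mem (star_mem (hx j)) (hTT j).1) (hx j))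
  simp only [ContinuousLinearMap.mul_apply] at this
  rw [← commute_apply (star_mem (hx j)) ha, inner_star_right, inner_star_right,
    inner_star_right] at this
  rw [this, Complex.sub_re]

end Pool.Agent.P.MP_5d580a_an
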