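import Pool.Agent.P.MP_5d580a_an.Rq
import Pool.Agent.P.MP_5d580a_an.DisjB
import Pool.Agent.P.MP_5d580a_an.PL2

open scoped ComplexOrder InnerProductSpace ComplexConjugate BoundedContinuousFunction
open MeasureTheory Filter Topology

set_option linter.unusedSectionVars false
set_option linter.unusedVariables false

noncomputable section

namespace Pool.Agent.P.MP_5d580a_an

variable {H : Type} [NormedAddCommGroup H] [InnerProductSpace ℂ H] [CompleteSpace H]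

variable {A B : Type} [CStarAlgebra A] [CStarAlgebra B] {ι : A →⋆ₐ[ℂ] B}

theorem dl_alg (ι : A →⋆ₐ[ℂ] B) (t : ℝ) : ι (algebraMap ℝ A t) = algebraMap ℝ B t := by
  rw [IsScalarTower.algebraMap_apply ℝ ℂ A, IsScalarTower.algebraMap_apply ℝ ℂ B]
  exact AlgHomClass.commutes ι _

theorem dl_apply_alg (θ : B →L[ℂ] ℂ) (t : ℝ) : θ (algebraMap ℝ B t) = t * θ 1 := by
  rw [IsScalarTower.algebraMap_apply ℝ ℂ B, Algebra.algebraMap_eq_smul_one, map_smul]
  rfl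

theorem dl_norm {K : H →L[ℂ] H} (h0 : 0 ≤ K) (h1 : K ≤ 1) : ‖K + K - 1‖ ≤ 1 := by
  refine ContinuousLinearMap.opNorm_le_bound _ zero_le_one fun ξ => ?_
  have h2 := norm_apply_sq_le h0 h1 ξ
  have h3 : ‖(K + K - 1) ξ‖ ^ 2 ≤ ‖ξ‖ ^ 2 := by
    have e : (K + K - 1) ξ = (2 : ℂ) • K ξ - ξ := by simp [two_smul]
    rw [e, @norm_sub_sq ℂ, norm_smul, inner_smul_left]
    have h4 : (⟪K ξ, ξ⟫_ℂ).re = (⟪ξ, K ξ⟫_ℂ).re := inner_re_symm (𝕜 := ℂ) _ _
    have h5 : RCLike.re ((starRingEnd ℂ) 2 * ⟪K ξ, ξ⟫_ℂ) = 2 * (⟪K ξ, ξ⟫_ℂ).re := by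
      simp [map_ofNat]
    rw [h5, h4]
    simp only [Complex.norm_ofNat]
    nlinarith
  rw [one_mul]
  exact (pow_le_pow_iff_left₀ (norm_nonneg _) (norm_nonneg _) two_ne_zero).1 h3

/-- one block of the disjointness argument -/
theorem dl_block [PartialOrder B] [StarOrderedRing B] (hι : Function.Injective ι)
    {π : A →⋆ₐ[ℂ] (H →L[ℂ] H)} (hF : IsFactor (cmt π)) (γ : H) {σ : B →L[ℂ] ℂ}
    (hσ : σ ∈ Ext ι (vf π γ)) {b : B} (hb : IsSelfAdjoint b) {t₀ : ℝ}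
    (h0 : (σ (b - algebraMap ℝ B t₀)).re = 0) {ε : ℝ} (hε : 0 < ε) :
    ∃ (n : ℕ) (η : Fin n → H), ∑ j, vf π (η j) = vf π γ ∧
      ∀ ψ₁ ψ₂ : Fin n → (B →L[ℂ] ℂ), (∀ j, IsPos (ψ₁ j) ∧ IsPos (ψ₂ j) ∧
        res ι (ψ₁ j + ψ₂ j) = vf π (η j)) →
        ∑ j, ((ψ₁ j (b - algebraMap ℝ B t₀)).re - (ψ₂ j (b - algebraMap ℝ B t₀)).re) ≤
          2 * dv ι (vf π γ) b + ε := by
  obtain ⟨a, a', ha, ha', h1, h2, h3⟩ :=
    exists_lt_dv hι hb (σ := vf π γ) (r := dv ι (vf π γ) b + ε / 2) (by linarith)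
  have hv : ∀ c : A, vf π γ c = σ (ι c) := fun c => by rw [← hσ.2, res_apply]
  set p := (vf π γ (a - algebraMap ℝ A t₀)).re with hp
  set q := (vf π γ (a' - algebraMap ℝ A t₀)).re with hq
  have hp0 : 0 ≤ p := by
    rw [hp, hv, map_sub, dl_alg, ← h0]
    exact hσ.1.re_mono (sub_le_sub_right h2 _)
  have hq0 : q ≤ 0 := by
    rw [hq, hv, map_sub, dl_alg, ← h0]
    exact hσ.1.re_mono (sub_le_sub_right h1 _)
  obtain ⟨s, hs0, hs1, hs⟩ : ∃ s : ℝ, 0 ≤ s ∧ s ≤ 1 ∧ q + s * (p - q) = 0 := by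
    rcases (sub_nonneg.2 (hq0.trans hp0)).eq_or_lt with h | h
    · exact ⟨0, le_rfl, zero_le_one, by linarith⟩
    · refine ⟨-q / (p - q), div_nonneg (by linarith) h.le, (div_le_one h).2 (by linarith), ?_⟩
      field_simp
      ring
  set a'' := a' + (s : ℂ) • (a - a') with ha''
  have hD : 0 ≤ ι a - ι a' := sub_nonneg.2 (h1.trans h2)
  have h4 : ι a' ≤ ι a'' := by
    rw [ha'', map_add, map_smul, map_sub]
    exact le_add_of_nonneg_right (smul_nonneg (by exact_mod_cast hs0) hD)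
  have h5 : ι a'' ≤ ι a := by
    rw [← sub_nonneg]
    have e : ι a - ι a'' = ((1 - s : ℝ) : ℂ) • (ι a - ι a') := by
      rw [ha'', map_add, map_smul, map_sub]; push_cast; module
    rw [e]
    exact smul_nonneg (by exact_mod_cast sub_nonneg.2 hs1) hD
  set c := a'' - algebraMap ℝ A t₀ with hc
  have hcs : IsSelfAdjoint c := by
    refine (ha'.add (IsSelfAdjoint.smul ?_ (ha.sub ha'))).sub ?_
    · simp [IsSelfAdjoint]
    · exact IsSelfAdjoint.algebraMap A (IsSelfAdjoint.all _)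
  have hc0 : (⟪γ, π c γ⟫_ℂ).re = 0 := by
    have e : c = (a' - algebraMap ℝ A t₀)
        + (s : ℂ) • ((a - algebraMap ℝ A t₀) - (a' - algebraMap ℝ A t₀)) := by
      rw [hc, ha'']; module
    rw [← vf_apply, e, map_add, map_smul, map_sub (vf π γ) (a - _), smul_eq_mul, Complex.add_re,
      Complex.re_ofReal_mul, Complex.sub_re]
    exact hs
  obtain ⟨n, x, hx, hx1, hT⟩ := pl_lemma hF γ (rep_mem_commutant π c) (hcs.map π) hc0
    (half_pos hε)
  have hsum := vf_kraus π hx hx1 γ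
  refine ⟨n, fun j => x j γ, hsum, fun ψ₁ ψ₂ hψ => ?_⟩
  have key : ∀ j, ∃ T : H →L[ℂ] H, (T ∈ cmt π ∧ IsSelfAdjoint T ∧ ‖T‖ ≤ 1) ∧
      (ψ₁ j (b - algebraMap ℝ B t₀)).re - (ψ₂ j (b - algebraMap ℝ B t₀)).re ≤
        (vf π (x j γ) (a - a')).re + (⟪x j γ, π c (T (x j γ))⟫_ℂ).re := fun j => by
    obtain ⟨p1, p2, e⟩ := hψ j
    have hle : IsPos (vf π (x j γ) - res ι (ψ₁ j)) := by
      rw [← e, res_add, add_sub_cancel_left]; exact p2.res ι
    obtain ⟨k, hk, k0, k1, -, hk2, -⟩ := exists_rn π (x j γ) (p1.res ι) hle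
    have ksa : IsSelfAdjoint k := k0.isSelfAdjoint
    have K0 : 0 ≤ k * k := by
      have := star_mul_self_nonneg k
      rwa [ksa.star_eq] at this
    have K1 : k * k ≤ 1 := by
      have := star_mul_self_le_one (norm_le_one_of_le_one k0 k1)
      rwa [ksa.star_eq] at this
    refine ⟨k * k + k * k - 1, ⟨sub_mem (add_mem (mul_mem hk hk) (mul_mem hk hk)) (one_mem _),
      (K0.isSelfAdjoint.add K0.isSelfAdjoint).sub (IsSelfAdjoint.one _), dl_norm K0 K1⟩, ?_⟩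
    have e1 : b - algebraMap ℝ B t₀ = (b - ι a'') + ι c := by
      rw [hc, map_sub, dl_alg]; abel
    have e2 : ∀ d : A, vf π (x j γ) d = ψ₁ j (ι d) + ψ₂ j (ι d) := fun d => by
      rw [← e, res_apply]; rfl
    have e3 : ⟪x j γ, π c ((k * k + k * k - 1) (x j γ))⟫_ℂ = ψ₁ j (ι c) - ψ₂ j (ι c) := by
      have e4 := hk2 c
      have e5 := e2 c
      rw [res_apply] at e4
      rw [vf_apply] at e5
      rw [_root_.sub_apply, _root_.add_apply, map_sub, map_add,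
        inner_sub_right, inner_add_right, ← e4, one_apply_eq_self, e5]
      ring
    have i1 : (ψ₁ j (b - ι a'')).re ≤ (ψ₁ j (ι (a - a'))).re := by
      rw [map_sub ι]; exact p1.re_mono (sub_le_sub h2 h4)
    have i2 : (ψ₂ j (ι a'' - b)).re ≤ (ψ₂ j (ι (a - a'))).re := by
      rw [map_sub ι]; exact p2.re_mono (sub_le_sub h5 h1)
    rw [← neg_sub b, map_neg, Complex.neg_re] at i2
    rw [e1, map_add (ψ₁ j), map_add (ψ₂ j), e2, e3]
    simp only [Complex.add_re, Complex.sub_re]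
    linarith
  choose T hT1 hT2 using key
  have h6 := hT T hT1
  have h7 : ∑ j, (vf π (x j γ) (a - a')).re = (vf π γ (a - a')).re := by
    rw [← hsum, _root_.sum_apply, Complex.re_sum]
  have h8 := Finset.sum_le_sum fun j (_ : j ∈ Finset.univ) => hT2 j
  rw [Finset.sum_add_distrib, h7] at h8
  have h9 := dv_nonneg hι (isPos_vf π γ) b
  linarith

theorem dl_pm (hS : SepP ι) {ρ : A →L[ℂ] ℂ} {θ : B →L[ℂ] ℂ} (hθ : θ ∈ Ext ι ρ) (hp : PM θ) :
    Bd ι ρ 1 := by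
  intro τ hτ hd
  have hρ : PM ρ := hθ.2 ▸ pm_res hS hp
  have key : ∀ j, ∃ t : ℝ, 0 ≤ t ∧ τ j = (t : ℂ) • θ := fun j => by
    obtain ⟨t, ht, e⟩ := hρ.exists_nonneg ((hτ j).1.res ι) (hτ j).2.2
    refine ⟨t, ht, ext_unique_of_pm hS (hρ.smul ht) ⟨(hτ j).1, e⟩ ⟨hθ.1.smul ht, ?_⟩⟩
    rw [res_smul, hθ.2]
  obtain ⟨s, hs, e0⟩ := key 0
  obtain ⟨t, ht, e1⟩ := key 1
  have h01 : Disj (τ 0) (τ 1) := hd (by decide)
  have n0 := (hτ 0).2.1
  have n1 := (hτ 1).2.1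
  rw [e0] at n0
  rw [e1] at n1
  rw [e0, e1] at h01
  exact not_disj_smul hθ.1 hs ht n0 n1 h01

theorem exists_bd [TopologicalSpace.SeparableSpace B] (hι : Function.Injective ι) (hS : SepP ι)
    {π : A →⋆ₐ[ℂ] (H →L[ℂ] H)} (hF : IsFactor (cmt π)) (ξ : H) : ∃ m, Bd ι (vf π ξ) m := by
  classical
  let _ := CStarAlgebra.spectralOrder B
  have := CStarAlgebra.spectralOrderedRing B
  by_cases hpm : ∃ θ ∈ Ext ι (vf π ξ), PM θ
  · obtain ⟨θ, hθ, hp⟩ := hpm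
    exact ⟨1, dl_pm hS hθ hp⟩
  push Not at hpm
  obtain ⟨bs, hbs, hd⟩ := exists_dense_sa (C := B)
  obtain ⟨N, θ₀, h₀, F, γ, hγ, hnear⟩ := baire_weak (wclosed_ext ι (vf π ξ)) _
    (fun θ hθ => ext_norm_le hθ) (exists_ext hι (isPos_vf π ξ))
    (fun N => {θ | IsPos θ ∧ 1 / (((Nat.unpair N).2 : ℝ) + 1) ≤ gv θ (bs (Nat.unpair N).1)})
    (fun N => wclosed_gv (hbs _) _) (fun θ hθ => by
      by_contra hc
      refine hpm θ hθ (pm_of_gv hθ.1 bs hbs hd fun n => ?_)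
      by_contra h1
      obtain ⟨k, hk⟩ := exists_nat_one_div_lt (not_le.1 h1)
      exact hc ⟨Nat.pair n k, hθ.1, by simpa using hk.le⟩)
  set b := bs (Nat.unpair N).1 with hbdef
  have hb : IsSelfAdjoint b := hbs _
  set η : ℝ := 1 / (((Nat.unpair N).2 : ℝ) + 1) with hηdef
  have hη : 0 < η := by positivity
  have h1 : 0 < (θ₀ 1).re := h₀.1.one_pos fun h => hpm θ₀ h₀ (h ▸ pm_zero)
  set t₀ : ℝ := (θ₀ b).re / (θ₀ 1).re with ht₀
  have hx : (θ₀ (b - algebraMap ℝ B t₀)).re = 0 := by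
    rw [map_sub, dl_apply_alg, Complex.sub_re, Complex.re_ofReal_mul, ht₀,
      div_mul_cancel₀ _ h1.ne', sub_self]
  obtain ⟨F', hF', hw⟩ := wnear_sa F hγ
  set ε : ℝ := min (γ / 4) (η / 4) with hεdef
  have hε : 0 < ε := lt_min (by linarith) (by linarith)
  have hεγ : ε ≤ γ / 4 := min_le_left _ _
  have hεη : ε ≤ η / 4 := min_le_right _ _
  have hF'' : ∀ c ∈ insert b F', IsSelfAdjoint c := fun c hc => by
    rcases Finset.mem_insert.1 hc with rfl | hc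
    exacts [hb, hF' c hc]
  obtain ⟨n, σ, hσ, hsum, hdv⟩ := glue_partition hι hS h₀.1 _ hx (insert b F') hF'' hε
  have hrn : ∀ i, ∃ g : H, vf π g = res ι (σ i) := fun i => by
    have hle : IsPos (vf π ξ - res ι (σ i)) := by
      rw [← h₀.2, ← res_sub, ← hsum, ← Finset.add_sum_erase _ _ (Finset.mem_univ i),
        add_sub_cancel_left]
      exact (IsPos.sum _ fun j _ => (hσ j).1).res ι
    obtain ⟨k, -, -, -, e, -⟩ := exists_rn π ξ ((hσ i).1.res ι) hle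
    exact ⟨_, e⟩
  choose g hg using hrn
  have hσe : ∀ i, σ i ∈ Ext ι (vf π (g i)) := fun i => ⟨(hσ i).1, (hg i).symm⟩
  have hε' : 0 < ε / (n + 1) := by positivity
  choose nn ζ hζ hblock using fun i => dl_block hι hF (g i) (hσe i) hb (hσ i).2 hε'
  have hone : ∀ c ∈ insert b F', ∑ i, dv ι (vf π (g i)) c ≤ ε := fun c hc => by
    refine le_trans (Finset.sum_le_sum fun i _ => ?_) hdv
    rw [hg]
    exact Finset.single_le_sum (f := fun c => dv ι (res ι (σ i)) c)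
      (fun c _ => dv_nonneg hι ((hσ i).1.res ι) c) hc
  refine ⟨Fintype.card (Σ i : Fin n, Fin (nn i)), fun θ hθ hdis => ?_⟩
  let e : (Σ i : Fin n, Fin (nn i)) → Fin (Fintype.card (Σ i : Fin n, Fin (nn i)) + 1) :=
    fun l => (Fintype.equivFin _ l).castSucc
  have he : Function.Injective e :=
    (Fin.castSucc_injective _).comp (Fintype.equivFin _).injective
  choose τ hτ hτd using fun l : (Σ i : Fin n, Fin (nn i)) =>
    exists_ext_disj hF ξ (hθ (e l)).1 (hθ (e l)).2.1 (hθ (e l)).2.2 (ζ l.1 l.2)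
  have hpair : Pairwise fun l l' => Disj (τ l) (τ l') := fun l l' hl =>
    (hτd l' _ (hτ l).1 (hτd l _ (hθ (e l')).1 (hdis (he.ne hl))).symm).symm
  have hsig : ∑ l, τ l = ∑ i, ∑ j, τ ⟨i, j⟩ := Fintype.sum_sigma τ
  have hblk : ∀ i, ∑ j, τ ⟨i, j⟩ ∈ Ext ι (vf π (g i)) := fun i =>
    ⟨IsPos.sum _ fun j _ => (hτ _).1, by
      rw [res_sum, ← hζ i]
      exact Finset.sum_congr rfl fun j _ => (hτ _).2⟩
  have hall : ∑ l, τ l ∈ Ext ι (vf π ξ) :=
    ⟨IsPos.sum _ fun l _ => (hτ l).1, by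
      rw [hsig, res_sum, ← h₀.2, ← hsum, res_sum]
      exact Finset.sum_congr rfl fun i _ => (hblk i).2.trans (hg i)⟩
  have hgv : η ≤ gv (∑ l, τ l) b := by
    refine (hnear _ hall (hw _ _ h₀.1 hall.1 fun c hc => ?_)).2
    have h2 := hone c (Finset.mem_insert_of_mem hc)
    have h3 := Finset.sum_le_sum fun i (_ : i ∈ Finset.univ) =>
      sub_le_dv (hF' c hc) (hblk i) (hσe i)
    have h4 := Finset.sum_le_sum fun i (_ : i ∈ Finset.univ) =>
      sub_le_dv (hF' c hc) (hσe i) (hblk i)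
    rw [Finset.sum_sub_distrib] at h3 h4
    rw [hsig, ← hsum, _root_.sum_apply, _root_.sum_apply,
      Complex.re_sum, Complex.re_sum, abs_lt]
    constructor <;> linarith
  obtain ⟨ψ₁, ψ₂, p1, p2, hψ, hψ1, hval⟩ := gv_dual hall.1 hb
  obtain ⟨φ, hφ, hφs⟩ := disj_decomp τ (fun l => (hτ l).1) hpair p1
    (by rw [← hψ, add_sub_cancel_left]; exact p2)
  have hφ2 : ∑ l, (τ l - φ l) = ψ₂ := by
    rw [Finset.sum_sub_distrib, hφs, ← hψ, add_sub_cancel_left]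
  have h5 := Finset.sum_le_sum fun i (_ : i ∈ Finset.univ) =>
    hblock i (fun j => φ ⟨i, j⟩) (fun j => τ ⟨i, j⟩ - φ ⟨i, j⟩) fun j =>
      ⟨(hφ _).1, (hφ _).2, by rw [add_sub_cancel]; exact (hτ ⟨i, j⟩).2⟩
  have h6 : ∑ i, ∑ j, ((φ ⟨i, j⟩ (b - algebraMap ℝ B t₀)).re
      - ((τ ⟨i, j⟩ - φ ⟨i, j⟩) (b - algebraMap ℝ B t₀)).re)
      = (ψ₁ (b - algebraMap ℝ B t₀)).re - (ψ₂ (b - algebraMap ℝ B t₀)).re := by
    rw [← hφs, ← hφ2, _root_.sum_apply, _root_.sum_apply,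
      Complex.re_sum, Complex.re_sum, ← Finset.sum_sub_distrib, Fintype.sum_sigma]
  have h7 : (ψ₁ (b - algebraMap ℝ B t₀)).re - (ψ₂ (b - algebraMap ℝ B t₀)).re
      = (ψ₁ b).re - (ψ₂ b).re := by
    rw [map_sub, map_sub, dl_apply_alg, dl_apply_alg, hψ1, Complex.sub_re, Complex.sub_re]
    ring
  have h8 := hone b (Finset.mem_insert_self _ _)
  have h9 : (n : ℝ) * (ε / (n + 1)) ≤ ε := by
    rw [mul_div_assoc', div_le_iff₀ (by positivity)]
    nlinarith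
  rw [h6, h7, ← hval, Finset.sum_add_distrib, ← Finset.mul_sum, Finset.sum_const,
    Finset.card_univ, Fintype.card_fin, nsmul_eq_mul] at h5
  linarith

end Pool.Agent.P.MP_5d580a_an
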