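import Pool.Agent.P.MP_5d580a_an.Pos
import Pool.Agent.P.MP_5d580a_an.Proj

open scoped ComplexOrder InnerProductSpace ComplexConjugate BoundedContinuousFunction
open MeasureTheory Filter Topology

set_option linter.unusedSectionVars false
set_option linter.unusedVariables false
set_option linter.deprecated false

noncomputable section

namespace Pool.Agent.P.MP_5d580a_an

variable {H : Type} [NormedAddCommGroup H] [InnerProductSpace ℂ H] [CompleteSpace H]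

variable {A B C : Type} [CStarAlgebra A] [CStarAlgebra B] [CStarAlgebra C]
variable {K : Type} [NormedAddCommGroup K] [InnerProductSpace ℂ K] [CompleteSpace K]

theorem exists_gns {θ : C →L[ℂ] ℂ} (h : IsPos θ) :
    ∃ (L : Type) (_ : NormedAddCommGroup L) (_ : InnerProductSpace ℂ L) (_ : CompleteSpace L)
      (π : C →⋆ₐ[ℂ] (L →L[ℂ] L)) (ξ : L), vf π ξ = θ ∧ CycR π ξ := by
  let _ := CStarAlgebra.spectralOrder C
  have _ := CStarAlgebra.spectralOrderedRing C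
  let f : C →ₚ[ℂ] ℂ := PositiveLinearMap.mk₀ θ.toLinearMap fun x hx => h.nonneg hx
  have hf : ∀ c, f c = θ c := fun c => rfl
  have k : ∀ c, f.gnsStarAlgHom c ((f.toPreGNS 1 : f.PreGNS) : f.GNS)
      = ((f.toPreGNS c : f.PreGNS) : f.GNS) := by
    intro c
    have := f.gnsNonUnitalStarAlgHom_apply_coe (a := c) (b := f.toPreGNS 1)
    refine this.trans ?_
    simp
  refine ⟨f.GNS, inferInstance, inferInstance, inferInstance, f.gnsStarAlgHom,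
    ((f.toPreGNS 1 : f.PreGNS) : f.GNS), ?_, ?_⟩
  · ext c
    rw [vf_apply, k, UniformSpace.Completion.inner_coe, f.preGNS_inner_def]
    simp [hf]
  · unfold CycR
    simp only [k]
    exact (UniformSpace.Completion.denseRange_coe (α := f.PreGNS)).mono (by
      rintro _ ⟨x, rfl⟩
      exact ⟨f.ofPreGNS x, rfl⟩)

theorem CycR.separable [TopologicalSpace.SeparableSpace C] {π : C →⋆ₐ[ℂ] (H →L[ℂ] H)} {ξ : H}
    (h : CycR π ξ) : TopologicalSpace.SeparableSpace H := by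
  have hc : Continuous fun c : C => π c ξ :=
    ((ContinuousLinearMap.apply ℂ H ξ).comp (clm π)).continuous
  exact DenseRange.separableSpace h hc

theorem CycR.eq_of_inner {π : C →⋆ₐ[ℂ] (H →L[ℂ] H)} {ξ : H} (h : CycR π ξ) {α β : H}
    (e : ∀ c, ⟪π c ξ, α⟫_ℂ = ⟪π c ξ, β⟫_ℂ) : α = β := by
  refine ext_inner_left ℂ fun η => ?_
  refine DenseRange.induction_on h η (isClosed_eq ?_ ?_) e <;> fun_prop

theorem CycR.cyc {π : C →⋆ₐ[ℂ] (H →L[ℂ] H)} {ξ : H} (h : CycR π ξ) : Cyc (cmt π).commutant ξ :=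
  Dense.mono (by
    rintro _ ⟨c, rfl⟩
    exact ⟨π c, rep_mem_commutant π c, rfl⟩) h

theorem exists_intw_of_map (π₁ : C →⋆ₐ[ℂ] (H →L[ℂ] H)) (η : H) (π₂ : C →⋆ₐ[ℂ] (K →L[ℂ] K))
    (g : C →ₗ[ℂ] K) (hb : ∀ c, ‖g c‖ ≤ ‖π₁ c η‖) (he : ∀ a c, g (a * c) = π₂ a (g c)) :
    ∃ W : H →L[ℂ] K, ‖W‖ ≤ 1 ∧ Intw π₁ π₂ W ∧ ∀ c, W (π₁ c η) = g c := by
  let f : C →ₗ[ℂ] H := ((ContinuousLinearMap.apply ℂ H η).comp (clm π₁)).toLinearMap
  have hf : ∀ c, f c = π₁ c η := fun c => rfl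
  obtain ⟨W, hW, h1, h2⟩ := exists_extend f g 1 zero_le_one (fun c => by rw [one_mul, hf]; exact hb c)
  refine ⟨W, hW, fun c ξ => ?_, h1⟩
  have key : W.comp (π₁ c) = (π₂ c).comp W := by
    refine ext_range_orth f (fun d => ?_) (fun γ hγ => ?_)
    · rw [ContinuousLinearMap.comp_apply, ContinuousLinearMap.comp_apply, h1, ← he, ← h1, hf, hf,
        map_mul, ContinuousLinearMap.mul_apply]
    · rw [ContinuousLinearMap.comp_apply, ContinuousLinearMap.comp_apply, h2 γ hγ, map_zero]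
      refine h2 _ fun d => ?_
      rw [← inner_star_left, ← hγ (star c * d), hf, hf, map_mul, map_star,
        ContinuousLinearMap.mul_apply]
  exact congrArg (fun T : H →L[ℂ] K => T ξ) key

theorem exists_intw (π₁ : C →⋆ₐ[ℂ] (H →L[ℂ] H)) (η₁ : H) (π₂ : C →⋆ₐ[ℂ] (K →L[ℂ] K)) (η₂ : K)
    (h : IsPos (vf π₁ η₁ - vf π₂ η₂)) :
    ∃ W : H →L[ℂ] K, ‖W‖ ≤ 1 ∧ Intw π₁ π₂ W ∧ W η₁ = η₂ := by
  let g : C →ₗ[ℂ] K := ((ContinuousLinearMap.apply ℂ K η₂).comp (clm π₂)).toLinearMap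
  have hg : ∀ c, g c = π₂ c η₂ := fun c => rfl
  obtain ⟨W, hW, h1, h2⟩ := exists_intw_of_map π₁ η₁ π₂ g (fun c => by
      have := h.re_star_mul_le c
      rw [vf_star_mul_self, vf_star_mul_self] at this
      rw [hg]
      exact le_of_sq_le_sq this (norm_nonneg _))
    (fun a c => by rw [hg, hg, map_mul, ContinuousLinearMap.mul_apply])
  refine ⟨W, hW, h1, ?_⟩
  have := h2 1
  rwa [hg, map_one, map_one, ContinuousLinearMap.one_apply, ContinuousLinearMap.one_apply] at this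

theorem Intw.adjoint {π₁ : C →⋆ₐ[ℂ] (H →L[ℂ] H)} {π₂ : C →⋆ₐ[ℂ] (K →L[ℂ] K)} {W : H →L[ℂ] K}
    (h : Intw π₁ π₂ W) : Intw π₂ π₁ (ContinuousLinearMap.adjoint W) := by
  intro c κ
  refine ext_inner_left ℂ fun γ => ?_
  rw [ContinuousLinearMap.adjoint_inner_right, ← inner_star_left, ← inner_star_left (π₁ c),
    ContinuousLinearMap.adjoint_inner_right, ← map_star, ← map_star, h]

theorem Intw.comp {L : Type} [NormedAddCommGroup L] [InnerProductSpace ℂ L] [CompleteSpace L]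
    {π₁ : C →⋆ₐ[ℂ] (H →L[ℂ] H)} {π₂ : C →⋆ₐ[ℂ] (K →L[ℂ] K)} {π₃ : C →⋆ₐ[ℂ] (L →L[ℂ] L)}
    {W : H →L[ℂ] K} {W' : K →L[ℂ] L} (h' : Intw π₂ π₃ W') (h : Intw π₁ π₂ W) :
    Intw π₁ π₃ (W'.comp W) := fun c ξ => by
  rw [ContinuousLinearMap.comp_apply, ContinuousLinearMap.comp_apply, h, h']

theorem intw_iff_mem {π : C →⋆ₐ[ℂ] (H →L[ℂ] H)} {x : H →L[ℂ] H} : Intw π π x ↔ x ∈ cmt π := by
  rw [mem_cmt]
  constructor
  · intro h c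
    ext ξ
    exact (h c ξ).symm
  · intro h c ξ
    exact (congrArg (fun T : H →L[ℂ] H => T ξ) (h c)).symm

theorem Intw.vf_le {π₁ : C →⋆ₐ[ℂ] (H →L[ℂ] H)} {π₂ : C →⋆ₐ[ℂ] (K →L[ℂ] K)} {W : H →L[ℂ] K}
    (h : Intw π₁ π₂ W) (hn : ‖W‖ ≤ 1) (γ : H) : IsPos (vf π₁ γ - vf π₂ (W γ)) := fun c => by
  rw [ContinuousLinearMap.sub_apply, pos_vf_self, pos_vf_self, ← Complex.ofReal_sub,
    Complex.zero_le_real, sub_nonneg, ← h]
  have : ‖W (π₁ c γ)‖ ≤ ‖π₁ c γ‖ :=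
    (W.le_opNorm _).trans (mul_le_of_le_one_left (norm_nonneg _) hn)
  gcongr

theorem gns_inner (W : H →L[ℂ] K) (ξ : H) :
    ⟪ξ, ((ContinuousLinearMap.adjoint W).comp W) ξ⟫_ℂ = ((‖W ξ‖ ^ 2 : ℝ) : ℂ) := by
  rw [ContinuousLinearMap.comp_apply, ContinuousLinearMap.adjoint_inner_right,
    inner_self_eq_norm_sq_to_K]
  push_cast; rfl

theorem gns_bounds {W : H →L[ℂ] K} (hW : ‖W‖ ≤ 1) :
    0 ≤ (ContinuousLinearMap.adjoint W).comp W ∧ (ContinuousLinearMap.adjoint W).comp W ≤ 1 := by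
  constructor
  · refine nonneg_iff_inner.2 fun ξ => ?_
    rw [gns_inner]
    exact Complex.zero_le_real.2 (sq_nonneg _)
  · refine sub_nonneg.1 (nonneg_iff_inner.2 fun ξ => ?_)
    have e : ⟪ξ, ξ⟫_ℂ = ((‖ξ‖ ^ 2 : ℝ) : ℂ) := by
      rw [inner_self_eq_norm_sq_to_K]; push_cast; rfl
    rw [ContinuousLinearMap.sub_apply, inner_sub_right, gns_inner, ContinuousLinearMap.one_apply, e,
      ← Complex.ofReal_sub, Complex.zero_le_real, sub_nonneg]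
    have : ‖W ξ‖ ≤ ‖ξ‖ := (W.le_opNorm _).trans (mul_le_of_le_one_left (norm_nonneg _) hW)
    gcongr

/-- Radon-Nikodym theorem -/
theorem exists_rn (π : C →⋆ₐ[ℂ] (H →L[ℂ] H)) (ξ : H) {ψ : C →L[ℂ] ℂ} (hψ : IsPos ψ)
    (hle : IsPos (vf π ξ - ψ)) :
    ∃ k ∈ cmt π, 0 ≤ k ∧ k ≤ 1 ∧ vf π (k ξ) = ψ ∧ (∀ c, ψ c = ⟪ξ, π c ((k * k) ξ)⟫_ℂ) ∧
      ‖ξ - k ξ‖ ^ 2 ≤ ‖ξ‖ ^ 2 - ‖k ξ‖ ^ 2 := by
  obtain ⟨L, _, _, _, ρ, η, hη, -⟩ := exists_gns hψ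
  obtain ⟨W, hW, hi, hξ⟩ := exists_intw π ξ ρ η (hη ▸ hle)
  obtain ⟨h0, h1⟩ := gns_bounds hW
  have hT : (ContinuousLinearMap.adjoint W).comp W ∈ cmt π := intw_iff_mem.1 (hi.adjoint.comp hi)
  obtain ⟨k, hk0, hkk, hk1, hc⟩ := exists_sqrt h0
  have hk : k ∈ cmt π := mem_cmt.2 fun c => hc _ (mem_cmt.1 hT c)
  have e : ∀ c, ψ c = ⟪ξ, π c ((k * k) ξ)⟫_ℂ := by
    intro c
    rw [hkk, ← intw_iff_mem.2 hT, ContinuousLinearMap.comp_apply,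
      ContinuousLinearMap.adjoint_inner_right, hi, hξ, ← hη, vf_apply]
  refine ⟨k, hk, hk0, hk1 h1, ?_, e, ?_⟩
  · ext c
    rw [vf_cmt π hk, hk0.isSelfAdjoint.star_eq, e]
  · have := norm_apply_sq_le hk0 (hk1 h1) ξ
    rw [@norm_sub_sq ℂ]
    simp only [RCLike.re_to_complex]
    linarith

/-- in a factor representation any two nonzero subordinate functionals have a common piece -/
theorem exists_common {π₁ : C →⋆ₐ[ℂ] (H →L[ℂ] H)} (hF : IsFactor (cmt π₁))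
    {π₂ : C →⋆ₐ[ℂ] (K →L[ℂ] K)} {W : H →L[ℂ] K} (hW : Intw π₁ π₂ W) (hW0 : W ≠ 0) {γ : H}
    (hγ : γ ≠ 0) : ∃ Y : H →L[ℂ] K, ‖Y‖ ≤ 1 ∧ Intw π₁ π₂ Y ∧ Y γ ≠ 0 := by
  have hT : (ContinuousLinearMap.adjoint W).comp W ∈ cmt π₁ :=
    intw_iff_mem.1 (hW.adjoint.comp hW)
  have hT0 : (ContinuousLinearMap.adjoint W).comp W ≠ 0 := by
    intro h0
    apply hW0
    ext ξ
    have := gns_inner W ξ
    rw [h0] at this
    have h2 : ‖W ξ‖ ^ 2 = 0 := by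
      have h3 : ((‖W ξ‖ ^ 2 : ℝ) : ℂ) = 0 := by rw [← this]; simp
      exact_mod_cast h3
    simpa using h2
  obtain ⟨s, hs, hsp, hsγ, hs0, -⟩ := exists_supp (cmt π₁) γ
  have hs1 : s ≠ 0 := by
    rintro rfl
    exact hγ (by simpa using hsγ.symm)
  obtain ⟨a, ha, han, hne⟩ := hF.exists_ne hT hs hT0 hs1
  have hWa : W (a γ) ≠ 0 := by
    intro h0
    refine hne (hs0 _ (mul_mem hT ha) ?_)
    rw [ContinuousLinearMap.mul_apply, ContinuousLinearMap.comp_apply, h0, map_zero]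
  have hp : 0 < ‖W‖ := norm_pos_iff.2 hW0
  refine ⟨((‖W‖⁻¹ : ℝ) : ℂ) • W.comp a, ?_, fun c ξ => ?_, ?_⟩
  · rw [norm_smul, Complex.norm_real, Real.norm_of_nonneg (inv_nonneg.2 hp.le),
      inv_mul_le_iff₀ hp]
    exact (W.opNorm_comp_le a).trans (by gcongr)
  · rw [ContinuousLinearMap.smul_apply, ContinuousLinearMap.smul_apply, map_smul,
      hW.comp (intw_iff_mem.2 ha) c ξ]
  · rw [ContinuousLinearMap.smul_apply]
    exact smul_ne_zero (Complex.ofReal_ne_zero.2 (inv_pos.2 hp).ne') hWa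

theorem gns_sand (Y : H →L[ℂ] K) (T : K →L[ℂ] K) (α β : H) :
    ⟪β, ((ContinuousLinearMap.adjoint Y).comp (T.comp Y)) α⟫_ℂ = ⟪Y β, T (Y α)⟫_ℂ := by
  rw [ContinuousLinearMap.comp_apply, ContinuousLinearMap.adjoint_inner_right,
    ContinuousLinearMap.comp_apply]

theorem gns_pyth {L : Type} [NormedAddCommGroup L] [InnerProductSpace ℂ L] [CompleteSpace L]
    {Y : H →L[ℂ] K} {Z : H →L[ℂ] L}
    (h1 : (ContinuousLinearMap.adjoint Y).comp Y + (ContinuousLinearMap.adjoint Z).comp Z = 1)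
    (α : H) : ‖Y α‖ ^ 2 + ‖Z α‖ ^ 2 = ‖α‖ ^ 2 := by
  have e : ⟪α, α⟫_ℂ = ((‖α‖ ^ 2 : ℝ) : ℂ) := by
    rw [inner_self_eq_norm_sq_to_K]; push_cast; rfl
  have := congrArg (fun T : H →L[ℂ] H => ⟪α, T α⟫_ℂ) h1
  simp only [ContinuousLinearMap.add_apply, inner_add_right, gns_inner,
    ContinuousLinearMap.one_apply, e] at this
  exact_mod_cast this

theorem gns_exists_sand (Y : H →L[ℂ] K) (Φ : B →L[ℂ] (K →L[ℂ] K)) :
    ∃ S : B →L[ℂ] (H →L[ℂ] H), ∀ b, S b = (ContinuousLinearMap.adjoint Y).comp ((Φ b).comp Y) :=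
  ⟨(ContinuousLinearMap.compL ℂ H K H (ContinuousLinearMap.adjoint Y)).comp
    (((ContinuousLinearMap.compL ℂ H K K).flip Y).comp Φ), fun b => rfl⟩

theorem gns_comb {L : Type} [NormedAddCommGroup L] [InnerProductSpace ℂ L] [CompleteSpace L]
    {ι : A →⋆ₐ[ℂ] B} {π : A →⋆ₐ[ℂ] (H →L[ℂ] H)} {ρ : A →⋆ₐ[ℂ] (K →L[ℂ] K)}
    {σ : A →⋆ₐ[ℂ] (L →L[ℂ] L)} {Φ : B →L[ℂ] (K →L[ℂ] K)} {Φ' : B →L[ℂ] (L →L[ℂ] L)}
    (hΦ : IsW ι ρ Φ) (hΦ' : IsW ι σ Φ') {Y : H →L[ℂ] K} {Z : H →L[ℂ] L} (hY : Intw π ρ Y)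
    (hZ : Intw π σ Z)
    (h1 : (ContinuousLinearMap.adjoint Y).comp Y + (ContinuousLinearMap.adjoint Z).comp Z = 1) :
    ∃ Ψ : B →L[ℂ] (H →L[ℂ] H), IsW ι π Ψ ∧ ∀ b, Ψ b =
      (ContinuousLinearMap.adjoint Y).comp ((Φ b).comp Y) +
        (ContinuousLinearMap.adjoint Z).comp ((Φ' b).comp Z) := by
  obtain ⟨S, hS⟩ := gns_exists_sand Y Φ
  obtain ⟨S', hS'⟩ := gns_exists_sand Z Φ'
  have e : ∀ b, (S + S') b = (ContinuousLinearMap.adjoint Y).comp ((Φ b).comp Y) +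
        (ContinuousLinearMap.adjoint Z).comp ((Φ' b).comp Z) := fun b => by
    rw [ContinuousLinearMap.add_apply, hS, hS']
  have e' : ∀ b α, (S + S') b α = ContinuousLinearMap.adjoint Y (Φ b (Y α)) +
      ContinuousLinearMap.adjoint Z (Φ' b (Z α)) := fun b α => by rw [e]; rfl
  refine ⟨S + S', ⟨?_, fun a b => ?_, fun a b => ?_, fun b ξ => ?_, fun b => ?_⟩, e⟩
  · rw [← h1]
    ext α
    rw [e', hΦ.one, hΦ'.one]; rfl
  · ext α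
    rw [ContinuousLinearMap.mul_apply, e', e', hΦ.left, hΦ'.left, ContinuousLinearMap.mul_apply,
      ContinuousLinearMap.mul_apply, hY.adjoint, hZ.adjoint, map_add]
  · ext α
    rw [ContinuousLinearMap.mul_apply, e', e', hΦ.right, hΦ'.right, ContinuousLinearMap.mul_apply,
      ContinuousLinearMap.mul_apply, hY, hZ]
  · rw [e', inner_add_right, ContinuousLinearMap.adjoint_inner_right,
      ContinuousLinearMap.adjoint_inner_right]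
    exact add_nonneg (hΦ.pos b _) (hΦ'.pos b _)
  · have key : ∀ α β : H, ‖⟪β, (S + S') b α⟫_ℂ‖ ≤ ‖b‖ * (‖α‖ * ‖β‖) := by
      intro α β
      rw [e', inner_add_right, ContinuousLinearMap.adjoint_inner_right,
        ContinuousLinearMap.adjoint_inner_right]
      have a1 : ‖⟪Y β, Φ b (Y α)⟫_ℂ‖ ≤ ‖Y β‖ * (‖b‖ * ‖Y α‖) :=
        (norm_inner_le_norm _ _).trans (by
          gcongr
          exact ((Φ b).le_opNorm _).trans (by gcongr; exact hΦ.norm_le b))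
      have a2 : ‖⟪Z β, Φ' b (Z α)⟫_ℂ‖ ≤ ‖Z β‖ * (‖b‖ * ‖Z α‖) :=
        (norm_inner_le_norm _ _).trans (by
          gcongr
          exact ((Φ' b).le_opNorm _).trans (by gcongr; exact hΦ'.norm_le b))
      have a3 : ‖Y α‖ * ‖Y β‖ + ‖Z α‖ * ‖Z β‖ ≤ ‖α‖ * ‖β‖ := by
        refine le_of_sq_le_sq ?_ (by positivity)
        rw [mul_pow, ← gns_pyth h1 α, ← gns_pyth h1 β]
        nlinarith [sq_nonneg (‖Y α‖ * ‖Z β‖ - ‖Z α‖ * ‖Y β‖)]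
      calc _ ≤ ‖Y β‖ * (‖b‖ * ‖Y α‖) + ‖Z β‖ * (‖b‖ * ‖Z α‖) :=
            (norm_add_le _ _).trans (add_le_add a1 a2)
        _ = ‖b‖ * (‖Y α‖ * ‖Y β‖ + ‖Z α‖ * ‖Z β‖) := by ring
        _ ≤ _ := by gcongr
    refine ContinuousLinearMap.opNorm_le_bound _ (norm_nonneg _) fun α => ?_
    have k := key α ((S + S') b α)
    rw [inner_self_eq_norm_sq_to_K, norm_pow, RCLike.norm_ofReal, abs_norm] at k
    rcases eq_or_lt_of_le (norm_nonneg ((S + S') b α)) with h0 | h0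
    · rw [← h0]; positivity
    · refine le_of_mul_le_mul_right ?_ h0
      nlinarith [k]

theorem gns_defect {π : A →⋆ₐ[ℂ] (H →L[ℂ] H)} {ρ : A →⋆ₐ[ℂ] (K →L[ℂ] K)} {Y : H →L[ℂ] K}
    (hY : ‖Y‖ ≤ 1) (hi : Intw π ρ Y) :
    ∃ k ∈ cmt π, ContinuousLinearMap.adjoint k = k ∧
      (ContinuousLinearMap.adjoint Y).comp Y + (ContinuousLinearMap.adjoint k).comp k = 1 := by
  obtain ⟨-, h1⟩ := gns_bounds hY
  have hT : (ContinuousLinearMap.adjoint Y).comp Y ∈ cmt π := intw_iff_mem.1 (hi.adjoint.comp hi)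
  obtain ⟨k, hk0, hkk, -, hc⟩ := exists_sqrt (sub_nonneg.2 h1)
  have hsa : ContinuousLinearMap.adjoint k = k := hk0.isSelfAdjoint.star_eq
  refine ⟨k, mem_cmt.2 fun c => hc _ (mem_cmt.1 (sub_mem (one_mem _) hT) c), hsa, ?_⟩
  have : (ContinuousLinearMap.adjoint k).comp k = k * k := by rw [hsa]; rfl
  rw [this, hkk, add_sub_cancel]

theorem gns_dil {ι : A →⋆ₐ[ℂ] B} {π : A →⋆ₐ[ℂ] (H →L[ℂ] H)} {ζ : H} {θ : B →L[ℂ] ℂ}
    (hθ : θ ∈ Ext ι (vf π ζ)) :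
    ∃ (L : Type) (_ : NormedAddCommGroup L) (_ : InnerProductSpace ℂ L) (_ : CompleteSpace L)
      (ρ : B →⋆ₐ[ℂ] (L →L[ℂ] L)) (Y : H →L[ℂ] L), ‖Y‖ ≤ 1 ∧ Intw π (ρ.comp ι) Y ∧
        vf ρ (Y ζ) = θ ∧ ‖Y ζ‖ ^ 2 = ‖ζ‖ ^ 2 := by
  obtain ⟨L, _, _, _, ρ, η, hη, -⟩ := exists_gns hθ.1
  have e : vf (ρ.comp ι) η = vf π ζ := by rw [← res_vf, hη, hθ.2]
  obtain ⟨Y, hY, hi, hζ⟩ := exists_intw π ζ (ρ.comp ι) η (e ▸ isPos_sub_self _)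
  refine ⟨L, inferInstance, inferInstance, inferInstance, ρ, Y, hY, hi, hζ ▸ hη, ?_⟩
  rw [hζ, ← vf_one (ρ.comp ι), e, vf_one]

theorem exists_isW {ι : A →⋆ₐ[ℂ] B} {π : A →⋆ₐ[ℂ] (H →L[ℂ] H)} {Ψ₀ : B →L[ℂ] (H →L[ℂ] H)}
    (h₀ : IsW ι π Ψ₀) {ζ : H} {θ : B →L[ℂ] ℂ} (hθ : θ ∈ Ext ι (vf π ζ)) :
    ∃ Ψ : B →L[ℂ] (H →L[ℂ] H), IsW ι π Ψ ∧ vfL Ψ ζ = θ := by
  obtain ⟨L, _, _, _, ρ, Y, hY, hi, hv, hn⟩ := gns_dil hθ
  obtain ⟨k, hk, hsa, h1⟩ := gns_defect hY hi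
  obtain ⟨Ψ, hΨ, e⟩ := gns_comb (isW_rep ι ρ) h₀ hi (intw_iff_mem.2 hk) h1
  refine ⟨Ψ, hΨ, ?_⟩
  have hz : k ζ = 0 := by
    have := gns_pyth h1 ζ
    have h2 : ‖k ζ‖ ^ 2 = 0 := by linarith
    simpa using h2
  ext b
  rw [vfL_apply, e, ContinuousLinearMap.add_apply, inner_add_right, gns_sand, gns_sand, hz, ← hv]
  simp

theorem exists_isW_cyc {ι : A →⋆ₐ[ℂ] B} {π : A →⋆ₐ[ℂ] (H →L[ℂ] H)} {ξ : H} (hξ : CycR π ξ)
    {θ : B →L[ℂ] ℂ} (hθ : θ ∈ Ext ι (vf π ξ)) :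
    ∃ Ψ : B →L[ℂ] (H →L[ℂ] H), IsW ι π Ψ ∧ vfL Ψ ξ = θ ∧
      ∀ (b : B) (η : H), ‖Ψ b η‖ ^ 2 ≤ (vfL Ψ η (star b * b)).re := by
  obtain ⟨L, _, _, _, ρ, Y, hY, hi, hv, hn⟩ := gns_dil hθ
  obtain ⟨k, hk, hsa, h1⟩ := gns_defect hY hi
  have hz : k ξ = 0 := by
    have := gns_pyth h1 ξ
    have h2 : ‖k ξ‖ ^ 2 = 0 := by linarith
    simpa using h2
  have hk0 : k = 0 := sepg_cmt hξ k hk hz
  have h2 : (ContinuousLinearMap.adjoint Y).comp Y +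
      (ContinuousLinearMap.adjoint (0 : H →L[ℂ] L)).comp (0 : H →L[ℂ] L) = 1 := by
    rw [← h1, hk0, ContinuousLinearMap.comp_zero, ContinuousLinearMap.comp_zero]
  obtain ⟨Ψ, hΨ, e⟩ := gns_comb (isW_rep ι ρ) (isW_rep ι ρ) hi (fun c ξ => by simp) h2
  have e' : ∀ b, Ψ b = (ContinuousLinearMap.adjoint Y).comp ((ρ b).comp Y) := fun b => by
    rw [e, ContinuousLinearMap.comp_zero, ContinuousLinearMap.comp_zero, add_zero, clm_apply]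
  have e2 : ∀ η, vfL Ψ η = vf ρ (Y η) := fun η => by
    ext b
    rw [vfL_apply, e', gns_sand, vf_apply]
  refine ⟨Ψ, hΨ, (e2 ξ).trans hv, fun b η => ?_⟩
  rw [e2, vf_star_mul_self, e', ContinuousLinearMap.comp_apply, ContinuousLinearMap.comp_apply]
  have : ‖ContinuousLinearMap.adjoint Y (ρ b (Y η))‖ ≤ ‖ρ b (Y η)‖ :=
    (ContinuousLinearMap.le_opNorm _ _).trans (mul_le_of_le_one_left (norm_nonneg _)
      (by rwa [LinearIsometryEquiv.norm_map]))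
  gcongr

theorem IsW.kraus {ι : A →⋆ₐ[ℂ] B} {π : A →⋆ₐ[ℂ] (H →L[ℂ] H)} {Ψ₀ : B →L[ℂ] (H →L[ℂ] H)}
    (h₀ : IsW ι π Ψ₀) {x : H →L[ℂ] H} (hx : x ∈ cmt π) (hn : ‖x‖ ≤ 1) :
    ∃ k : H →L[ℂ] H, ∀ Ψ : B →L[ℂ] (H →L[ℂ] H), IsW ι π Ψ →
      ∃ Ψ' : B →L[ℂ] (H →L[ℂ] H), IsW ι π Ψ' ∧ ∀ b, Ψ' b = star x * Ψ b * x + k * Ψ₀ b * k := by
  obtain ⟨k, hk, hsa, h1⟩ := gns_defect hn (intw_iff_mem.2 hx)
  refine ⟨k, fun Ψ hΨ => ?_⟩
  obtain ⟨Ψ', hΨ', e⟩ := gns_comb hΨ h₀ (intw_iff_mem.2 hx) (intw_iff_mem.2 hk) h1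
  refine ⟨Ψ', hΨ', fun b => ?_⟩
  rw [e, hsa]
  rfl

theorem IsW.conj {ι : A →⋆ₐ[ℂ] B} {π : A →⋆ₐ[ℂ] (H →L[ℂ] H)} {Ψ : B →L[ℂ] (H →L[ℂ] H)}
    (h : IsW ι π Ψ) {u : H →L[ℂ] H} (hu : u ∈ cmt π) (h1 : star u * u = 1) :
    ∃ Ψ' : B →L[ℂ] (H →L[ℂ] H), IsW ι π Ψ' ∧ ∀ b, Ψ' b = star u * Ψ b * u := by
  have h2 : (ContinuousLinearMap.adjoint u).comp u +
      (ContinuousLinearMap.adjoint (0 : H →L[ℂ] H)).comp (0 : H →L[ℂ] H) = 1 := by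
    rw [← h1, ContinuousLinearMap.comp_zero, add_zero]; rfl
  obtain ⟨Ψ', hΨ', e⟩ := gns_comb h h (intw_iff_mem.2 hu) (fun c ξ => by simp) h2
  refine ⟨Ψ', hΨ', fun b => ?_⟩
  rw [e, ContinuousLinearMap.comp_zero, ContinuousLinearMap.comp_zero, add_zero]
  rfl

theorem gns_corner {π : A →⋆ₐ[ℂ] (H →L[ℂ] H)} {ζ : H} {f : H →L[ℂ] H} (hf : IsStarProjection f)
    (hs : ∀ x ∈ cmt π, x ζ = 0 → x * f = 0) {S T : H →L[ℂ] H}
    (e : ∀ a a' : A, ⟪π a' ζ, S (π a ζ)⟫_ℂ = ⟪π a' ζ, T (π a ζ)⟫_ℂ) : f * S * f = f * T * f := by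
  obtain ⟨P, hP, h1, h2, -, h4, h5⟩ := exists_proj_span (Set.range fun a : A => π a ζ)
  have hmul : ∀ a b : A, π a (π b ζ) ∈ Set.range fun a : A => π a ζ := fun a b =>
    ⟨a * b, by simp only [map_mul, ContinuousLinearMap.mul_apply]⟩
  have hPc : P ∈ cmt π := mem_cmt.2 fun a => h5 _
    (by rintro _ ⟨b, rfl⟩; exact h1 _ (hmul a b))
    (by rintro _ ⟨b, rfl⟩; rw [← map_star]; exact h1 _ (hmul (star a) b))
  have hζ : P ζ = ζ := h1 ζ ⟨1, by simp⟩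
  have hPf : P * f = f := by
    have := hs (1 - P) (sub_mem (one_mem _) hPc) (by simp [hζ])
    rw [sub_mul, one_mul, sub_eq_zero] at this
    exact this.symm
  have hfP : f * P = f := by
    have := congrArg star hPf
    rwa [star_mul, hf.isSelfAdjoint.star_eq, hP.isSelfAdjoint.star_eq] at this
  have key : P * S * P = P * T * P := by
    refine h4 _ _ ?_
    rintro _ ⟨a, rfl⟩
    rw [ContinuousLinearMap.mul_apply, ContinuousLinearMap.mul_apply, ← sub_eq_zero, ← map_sub]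
    refine h2 _ ?_
    rintro _ ⟨a', rfl⟩
    rw [inner_sub_right, e, sub_self]
  calc f * S * f = f * (P * S * P) * f := by
        rw [← mul_assoc, ← mul_assoc, hfP, mul_assoc (f * S), hPf]
    _ = f * T * f := by rw [key, ← mul_assoc, ← mul_assoc, hfP, mul_assoc (f * T), hPf]

/-- two maps with the same vector functional agree on the support corner -/
theorem IsW.corner_eq {ι : A →⋆ₐ[ℂ] B} {π : A →⋆ₐ[ℂ] (H →L[ℂ] H)}
    {Ψ Ψ' : B →L[ℂ] (H →L[ℂ] H)} (h : IsW ι π Ψ) (h' : IsW ι π Ψ') {ζ : H}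
    (e : vfL Ψ ζ = vfL Ψ' ζ) {f : H →L[ℂ] H} (hf : IsStarProjection f)
    (hs : ∀ x ∈ cmt π, x ζ = 0 → x * f = 0) (b : B) : f * Ψ b * f = f * Ψ' b * f :=
  gns_corner hf hs fun a a' => by rw [← h.bimod, ← h'.bimod, e]

/-- operators are determined on the support corner by matrix coefficients -/
theorem corner_ext {π : A →⋆ₐ[ℂ] (H →L[ℂ] H)} {ζ : H} {f : H →L[ℂ] H} (hf : IsStarProjection f)
    (hs : ∀ x ∈ cmt π, x ζ = 0 → x * f = 0) {S T : H →L[ℂ] H}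
    (e : ∀ a a' : A, ⟪π a' ζ, S (π a ζ)⟫_ℂ = ⟪π a' ζ, T (π a ζ)⟫_ℂ) : f * S * f = f * T * f :=
  gns_corner hf hs e

end Pool.Agent.P.MP_5d580a_an
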