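import Pool.Agent.P.MP_5d580a_an.Tree
import Pool.Agent.P.MP_5d580a_an.Gns

open scoped ComplexOrder InnerProductSpace ComplexConjugate BoundedContinuousFunction
open MeasureTheory Filter Topology

set_option linter.unusedSectionVars false
set_option linter.unusedVariables false

noncomputable section

namespace Pool.Agent.P.MP_5d580a_an

variable {H : Type} [NormedAddCommGroup H] [InnerProductSpace ℂ H] [CompleteSpace H]

variable {C : Type} [CStarAlgebra C] [PartialOrder C] [StarOrderedRing C]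

theorem dec_mul_sum {a : H →L[ℂ] H} (t : List (H →L[ℂ] H)) (h : ∀ x ∈ t, a * x = 0) :
    a * t.sum = 0 := by
  induction t with
  | nil => simp
  | cons x t ih =>
    rw [List.sum_cons, mul_add, h x List.mem_cons_self, zero_add]
    exact ih fun y hy => h y (List.mem_cons_of_mem _ hy)

theorem dec_sum_mul {a : H →L[ℂ] H} (t : List (H →L[ℂ] H)) (h : ∀ x ∈ t, x * a = 0) :
    t.sum * a = 0 := by
  induction t with
  | nil => simp
  | cons x t ih =>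
    rw [List.sum_cons, add_mul, h x List.mem_cons_self, zero_add]
    exact ih fun y hy => h y (List.mem_cons_of_mem _ hy)

theorem dec_below {𝔅 : Set (H →L[ℂ] H)} (hB : BoolFam 𝔅) (l : List (H →L[ℂ] H))
    (h1 : ∀ r ∈ l, r ∈ 𝔅) (h2 : l.Pairwise fun r r' => r * r' = 0) :
    ∀ r ∈ l, r * l.sum = r ∧ l.sum * r = r := by
  induction l with
  | nil => simp
  | cons a t ih =>
    obtain ⟨h3, h4⟩ := List.pairwise_cons.1 h2
    have ha := h1 a List.mem_cons_self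
    have ht : ∀ r ∈ t, r ∈ 𝔅 := fun r hr => h1 r (List.mem_cons_of_mem _ hr)
    intro r hr
    rw [List.sum_cons, mul_add, add_mul]
    rcases List.mem_cons.1 hr with rfl | hr
    · rw [dec_mul_sum t h3, dec_sum_mul t fun x hx => (hB.comm x (ht x hx) r ha).trans (h3 x hx),
        add_zero]
      exact ⟨(hB.proj r ha).isIdempotentElem.eq, (hB.proj r ha).isIdempotentElem.eq⟩
    · rw [hB.comm r (ht r hr) a ha, h3 r hr, zero_add, zero_add]
      exact ih ht h4 r hr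

theorem dec_append {𝔅 : Set (H →L[ℂ] H)} (hB : BoolFam 𝔅) {q₁ q₂ : H →L[ℂ] H}
    {l₁ l₂ : List (H →L[ℂ] H)} (h₁ : PartOf 𝔅 q₁ l₁) (h₂ : PartOf 𝔅 q₂ l₂) (h0 : q₁ * q₂ = 0) :
    PartOf 𝔅 (q₁ + q₂) (l₁ ++ l₂) := by
  refine ⟨fun r hr => (List.mem_append.1 hr).elim (h₁.1 r) (h₂.1 r),
    List.pairwise_append.2 ⟨h₁.2.1, h₂.2.1, fun a ha b hb => ?_⟩,
    by rw [List.sum_append, h₁.2.2, h₂.2.2]⟩
  rw [← (dec_below hB l₁ h₁.1 h₁.2.1 a ha).1, ← (dec_below hB l₂ h₂.1 h₂.2.1 b hb).2, h₁.2.2,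
    h₂.2.2, mul_assoc, ← mul_assoc q₁, h0, zero_mul, mul_zero]

theorem dec_single {𝔅 : Set (H →L[ℂ] H)} {q : H →L[ℂ] H} (hq : q ∈ 𝔅) : PartOf 𝔅 q [q] :=
  ⟨by simpa using hq, List.pairwise_singleton _ _, by simp⟩

theorem dec_flat {𝔅 : Set (H →L[ℂ] H)} (hB : BoolFam 𝔅) (g : 𝔅 → List 𝔅) (l : List 𝔅)
    (h2 : (l.map Subtype.val).Pairwise fun r r' => r * r' = 0)
    (h : ∀ i ∈ l, PartOf 𝔅 i.1 ((g i).map Subtype.val)) :
    PartOf 𝔅 (l.map Subtype.val).sum ((l.flatMap g).map Subtype.val) := by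
  induction l with
  | nil => exact ⟨by simp, by simp, by simp⟩
  | cons a t ih =>
    rw [List.map_cons] at h2
    obtain ⟨h3, h4⟩ := List.pairwise_cons.1 h2
    rw [List.map_cons, List.sum_cons, List.flatMap_cons, List.map_append]
    exact dec_append hB (h a List.mem_cons_self)
      (ih h4 fun i hi => h i (List.mem_cons_of_mem _ hi)) (dec_mul_sum _ h3)

theorem dec_step (π : C →⋆ₐ[ℂ] (H →L[ℂ] H)) (ζ : H) {𝔅 : Set (H →L[ℂ] H)} (hB : BoolFam 𝔅)
    (hM : ∀ q ∈ 𝔅, q ∈ cmt π) {b : C} (hb : IsSelfAdjoint b) (s : Finset 𝔅) :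
    ∀ q ∈ 𝔅, ∃ l, PartOf 𝔅 q l ∧ ∃ T ∈ cmt π, IsSelfAdjoint T ∧ -q ≤ T ∧ T ≤ q ∧ q * T = T ∧
      T * q = T ∧ (∀ p ∈ s, T * p.1 = p.1 * T ∧ ⟪ζ, T (p.1 ζ)⟫_ℂ = 0) ∧ ⟪ζ, T ζ⟫_ℂ = 0 ∧
      (l.map fun r => gv (vf π (r ζ)) b).sum = (⟪ζ, π b (T ζ)⟫_ℂ).re := by
  classical
  induction s using Finset.induction_on with
  | empty =>
    intro q hq
    obtain ⟨ψ₁, ψ₂, p₁, p₂, e, e1, e2⟩ := gv_dual (isPos_vf π (q ζ)) hb
    obtain ⟨k, hk, k0, k1, -, hψ, -⟩ := exists_rn π (q ζ) p₁ (by rwa [← e, add_sub_cancel_left])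
    have hp := hB.proj q hq
    have hs : star q = q := hp.isSelfAdjoint.star_eq
    have hqq : q * q = q := hp.isIdempotentElem.eq
    have hks : star k = k := (IsSelfAdjoint.of_nonneg k0).star_eq
    have b0 : 0 ≤ k * k := by simpa only [hks] using star_mul_self_nonneg k
    have b1 : k * k ≤ 1 := by
      simpa only [hks] using star_mul_self_le_one (norm_le_one_of_le_one k0 k1)
    have c0 : -1 ≤ k * k + k * k - 1 := le_sub_iff_add_le.2 (by simpa using add_nonneg b0 b0)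
    have c1 : k * k + k * k - 1 ≤ 1 := sub_le_iff_le_add.2 (add_le_add b1 b1)
    have key : ∀ c, ⟪ζ, π c ((q * (k * k + k * k - 1) * q) ζ)⟫_ℂ = ψ₁ c - ψ₂ c := fun c => by
      have f1 : ψ₁ c + ψ₂ c = ⟪q ζ, π c (q ζ)⟫_ℂ := by rw [← vf_apply, ← e]; rfl
      have f2 := mem_cmt.1 (hM q hq) c
      rw [← mul_apply_eq_comp, ← mul_assoc, ← mul_assoc, f2, mul_assoc, mul_assoc,
        mul_apply_eq_comp, ← inner_star_left, hs, mul_apply_eq_comp, mul_apply_eq_comp,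
        _root_.sub_apply, _root_.add_apply, map_sub, map_add, inner_sub_right, inner_add_right,
        ← hψ, one_apply_eq_self, ← f1]
      ring
    refine ⟨[q], dec_single hq, q * (k * k + k * k - 1) * q,
      mul_mem (mul_mem (hM q hq) (sub_mem (add_mem (mul_mem hk hk) (mul_mem hk hk)) (one_mem _)))
        (hM q hq), ?_, ?_, ?_, ?_, ?_, by simp, ?_, ?_⟩
    · simp only [IsSelfAdjoint, star_mul, star_sub, star_add, star_one, hs, hks, mul_assoc]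
    · simpa [hs, hqq] using star_left_conjugate_le_conjugate c0 q
    · simpa [hs, hqq] using star_left_conjugate_le_conjugate c1 q
    · rw [← mul_assoc, ← mul_assoc, hqq]
    · rw [mul_assoc, hqq]
    · simpa [e1] using key 1
    · rw [key, Complex.sub_re, ← e2]; simp
  | insert p s hps ih =>
    intro q hq
    have hp := p.2
    have hpp : p.1 * p.1 = p.1 := (hB.proj _ hp).isIdempotentElem.eq
    have hc := hB.comm q hq _ hp
    obtain ⟨l₁, a₁, T₁, m₁, s₁, u₁, v₁, x₁, y₁, z₁, w₁, e₁⟩ := ih _ (hB.mul q hq _ hp)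
    obtain ⟨l₂, a₂, T₂, m₂, s₂, u₂, v₂, x₂, y₂, z₂, w₂, e₂⟩ :=
      ih _ (hB.mul q hq _ (hB.compl _ hp))
    have hqq : q * q = q := (hB.proj q hq).isIdempotentElem.eq
    have e : q * p.1 + q * (1 - p.1) = q := by noncomm_ring
    have f1 : p.1 * (q * p.1) = q * p.1 := by rw [← mul_assoc, ← hc, mul_assoc, hpp]
    have f2 : q * p.1 * p.1 = q * p.1 := by rw [mul_assoc, hpp]
    have f3 : p.1 * (q * (1 - p.1)) = 0 := by
      rw [← mul_assoc, ← hc, mul_sub, mul_one, f2, sub_self]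
    have f4 : q * (1 - p.1) * p.1 = 0 := by rw [mul_assoc, sub_mul, one_mul, hpp, sub_self, mul_zero]
    have f5 : q * p.1 * q = q * p.1 := by rw [mul_assoc, ← hc, ← mul_assoc, hqq]
    have f6 : q * (1 - p.1) * q = q * (1 - p.1) := by rw [mul_sub, sub_mul, mul_one, hqq, f5]
    have g1 : T₁ * p.1 = T₁ := by rw [← y₁, mul_assoc, f2]
    have g2 : p.1 * T₁ = T₁ := by rw [← x₁, ← mul_assoc, f1]
    have g3 : T₂ * p.1 = 0 := by rw [← y₂, mul_assoc, f4, mul_zero]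
    have g4 : p.1 * T₂ = 0 := by rw [← x₂, ← mul_assoc, f3, zero_mul]
    have a₃ := dec_append hB a₁ a₂ (by rw [mul_assoc, f3, mul_zero])
    rw [e] at a₃
    refine ⟨_, a₃, T₁ + T₂, add_mem m₁ m₂, s₁.add s₂, ?_, ?_, ?_, ?_, fun r hr => ?_, ?_, ?_⟩
    · rw [← e, neg_add]; exact add_le_add u₁ u₂
    · rw [← e]; exact add_le_add v₁ v₂
    · rw [mul_add, ← x₁, ← x₂, ← mul_assoc, ← mul_assoc, ← mul_assoc q _ T₂, ← mul_assoc, hqq]
    · rw [add_mul, ← y₁, ← y₂, mul_assoc, f5, mul_assoc T₂, f6]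
    · rcases Finset.mem_insert.1 hr with rfl | hr
      · rw [← mul_apply_eq_comp, add_mul, mul_add, g1, g2, g3, g4, add_zero]
        exact ⟨rfl, w₁⟩
      · rw [add_mul, mul_add, (z₁ r hr).1, (z₂ r hr).1, _root_.add_apply, inner_add_right,
          (z₁ r hr).2, (z₂ r hr).2, add_zero]
        exact ⟨rfl, rfl⟩
    · rw [_root_.add_apply, inner_add_right, w₁, w₂, add_zero]
    · rw [List.map_append, List.sum_append, e₁, e₂, _root_.add_apply, map_add, inner_add_right,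
        Complex.add_re]

theorem dec_lemma (π : C →⋆ₐ[ℂ] (H →L[ℂ] H)) {ζ : H} {𝔅 : Set (H →L[ℂ] H)} (hB : BoolFam 𝔅)
    (hM : ∀ q ∈ 𝔅, q ∈ cmt π) (hX : Maxl (cmt π) 𝔅 ζ) {q : H →L[ℂ] H} (hq : q ∈ 𝔅) {b : C}
    (hb : IsSelfAdjoint b) {ε : ℝ} (hε : 0 < ε) :
    ∃ l, PartOf 𝔅 q l ∧ (l.map fun r => gv (vf π (r ζ)) b).sum ≤ ε := by
  by_contra hc
  push Not at hc
  choose l hl T hT hs h1 h2 h3 h4 h5 h6 h7 using fun s => dec_step π ζ hB hM hb s q hq
  have hn : ∀ s, ‖T s‖ ≤ ‖q + q‖ + ‖q‖ := fun s => by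
    have := CStarAlgebra.norm_le_norm_of_nonneg_of_le (neg_le_iff_add_nonneg.1 (h1 s))
      (add_le_add (h2 s) le_rfl)
    have h8 := norm_sub_le (T s + q) q
    rw [add_sub_cancel_right] at h8
    linarith
  have hU : (Ultrafilter.of (atTop : Filter (Finset 𝔅)) : Filter (Finset 𝔅)) ≤ atTop :=
    Ultrafilter.of_le _
  obtain ⟨S, -, hS⟩ := exists_wot_ultra (Ultrafilter.of atTop) T _ hn
  have hev : ∀ p (hp : p ∈ 𝔅), ∀ᶠ s in (Ultrafilter.of (atTop : Filter (Finset 𝔅)) : Filter _),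
      T s * p = p * T s ∧ ⟪ζ, T s (p ζ)⟫_ℂ = 0 := fun p hp =>
    ((eventually_ge_atTop {⟨p, hp⟩}).filter_mono hU).mono fun s hs' =>
      h5 s ⟨p, hp⟩ (Finset.singleton_subset_iff.1 hs')
  have h0 : S ζ = 0 := hX S (mem_of_wot hS (Eventually.of_forall hT))
    (sa_of_wot hS (Eventually.of_forall hs))
    (fun p hp => commute_of_wot hS ((hev p hp).mono fun s h => h.1)) fun p hp =>
      tendsto_nhds_unique (hS (p ζ) ζ)
        (tendsto_const_nhds.congr' ((hev p hp).mono fun s h => h.2.symm))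
  have h8 := (Complex.continuous_re.tendsto _).comp (hS ζ ((star (π b)) ζ))
  rw [h0, inner_zero_right, Complex.zero_re] at h8
  refine hε.not_ge (ge_of_tendsto' h8 fun s => ?_)
  rw [Function.comp_apply, inner_star_left, ← h7]
  exact (hc _ (hl s)).le

theorem tree_bool [TopologicalSpace.SeparableSpace C] (π : C →⋆ₐ[ℂ] (H →L[ℂ] H)) {ζ : H}
    {𝔅 : Set (H →L[ℂ] H)} (hB : BoolFam 𝔅) (hM : ∀ q ∈ 𝔅, q ∈ cmt π) (hX : Maxl (cmt π) 𝔅 ζ)
    {Φ : (C →L[ℂ] ℂ) → ℝ} (hΦ : Usc Φ) (hpure : ∀ ψ₁ ψ₂, PM ψ₁ → PM ψ₂ → Φ (ψ₁ + ψ₂) = 0)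
    {ε : ℝ} (hε : 0 < ε) :
    ∃ (n : ℕ) (r : Fin n → (H →L[ℂ] H)), (∀ i, r i ∈ 𝔅) ∧ (∀ i j, i ≠ j → r i * r j = 0) ∧
      ∑ i, r i = 1 ∧ ∑ i, Φ (vf π (r i ζ)) ≤ ε := by
  have hmn : ∀ c c' : C, mn (0 : C →L[ℂ] ℂ) c c' = 0 := fun c c' => by simp [mn]
  obtain ⟨l, hl, h⟩ := tree_lemma (N := 𝔅) (fun q => vf π (q.1 ζ)) (fun _ => 0)
    (fun q => isPos_vf π _) (fun _ => isPos_zero) (fun q l => PartOf 𝔅 q.1 (l.map Subtype.val))
    (fun q => dec_single q.2) (fun q l g h1 h2 => h1.2.2 ▸ dec_flat hB g l h1.2.1 h2)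
    (fun q l h1 c c' _ _ => by
      have e := mn_list_sum ((l.map Subtype.val).map fun r => vf π (r ζ)) c c'
      rw [vf_partOf π hB hM q.2 h1 ζ, List.map_map, List.map_map] at e
      simp only [hmn, add_zero]
      exact e)
    (fun q b hb ε hε => by
      obtain ⟨l, h1, h2⟩ := dec_lemma π hB hM hX q.2 hb hε
      lift l to List 𝔅 using h1.1
      refine ⟨l, h1, ?_⟩
      rw [List.map_map] at h2
      simp only [gv_zero hb, add_zero]
      exact h2) hΦ hpure ⟨1, hB.one⟩ hε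
  obtain ⟨n, r, rfl⟩ : ∃ (n : ℕ) (r : Fin n → 𝔅), l = List.ofFn r :=
    ⟨_, l.get, (List.ofFn_get l).symm⟩
  obtain ⟨-, h2, h3⟩ := hl
  rw [List.map_ofFn, List.sum_ofFn] at h h3
  rw [List.map_ofFn, List.pairwise_ofFn] at h2
  refine ⟨n, fun i => (r i).1, fun i => (r i).2, fun i j hij => ?_, h3, by simpa using h⟩
  rcases hij.lt_or_gt with h4 | h4
  · exact h2 h4
  · exact (hB.comm _ (r i).2 _ (r j).2).trans (h2 h4)

end Pool.Agent.P.MP_5d580a_an
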