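import Mathlib

/-!
Definitions for the separable noncommutative Stone-Weierstrass theorem.
Inner products are conjugate linear in the first slot.
-/

open scoped ComplexOrder InnerProductSpace ComplexConjugate
open MeasureTheory

set_option linter.unusedSectionVars false

noncomputable section

namespace Pool.Agent.P.MP_5d580a_an

/-! ## Functionals on C*-algebras -/

section CStar

variable {A B C : Type} [CStarAlgebra A] [CStarAlgebra B] [CStarAlgebra C]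

/-- positive functional -/
def IsPos (θ : C →L[ℂ] ℂ) : Prop := ∀ x : C, 0 ≤ θ (star x * x)

/-- nonnegative multiple of a pure state (0 included) -/
def PM (θ : C →L[ℂ] ℂ) : Prop :=
  IsPos θ ∧ ∀ ψ : C →L[ℂ] ℂ, IsPos ψ → IsPos (θ - ψ) → ∃ t : ℝ, ψ = (t : ℂ) • θ

/-- a star homomorphism as a continuous linear map -/
def clm (ι : A →⋆ₐ[ℂ] B) : A →L[ℂ] B where
  toFun := ι
  map_add' := map_add ι
  map_smul' := map_smul ι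
  cont := AddMonoidHomClass.continuous_of_bound ι 1 (by simpa using NonUnitalStarAlgHom.norm_apply_le ι)

@[simp] theorem clm_apply (ι : A →⋆ₐ[ℂ] B) (a : A) : clm ι a = ι a := rfl

/-- restriction of a functional along `ι` -/
def res (ι : A →⋆ₐ[ℂ] B) (θ : B →L[ℂ] ℂ) : A →L[ℂ] ℂ := θ.comp (clm ι)

@[simp] theorem res_apply (ι : A →⋆ₐ[ℂ] B) (θ : B →L[ℂ] ℂ) (a : A) : res ι θ a = θ (ι a) := rfl

/-- positive extensions of `σ` -/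
def Ext (ι : A →⋆ₐ[ℂ] B) (σ : A →L[ℂ] ℂ) : Set (B →L[ℂ] ℂ) := {θ | IsPos θ ∧ res ι θ = σ}

/-- `A` separates the multiples of pure states of `B` -/
def SepP (ι : A →⋆ₐ[ℂ] B) : Prop :=
  ∀ φ ψ : B →L[ℂ] ℂ, PM φ → PM ψ → res ι φ = res ι ψ → φ = ψ

/-- disjointness: no nonzero intertwiner between the GNS representations -/
def Disj (θ₁ θ₂ : C →L[ℂ] ℂ) : Prop :=
  ∀ f : C →L[ℂ] ℂ,
    (∀ b c : C, ‖f (star c * b)‖ ^ 2 ≤ (θ₁ (star b * b)).re * (θ₂ (star c * c)).re) → f = 0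

/-- factorial positive functional -/
def Fac (θ : C →L[ℂ] ℂ) : Prop :=
  IsPos θ ∧ ∀ τ τ' : C →L[ℂ] ℂ, IsPos τ → IsPos (θ - τ) → IsPos τ' → IsPos (θ - τ') →
    Disj τ τ' → τ = 0 ∨ τ' = 0

/-- there are no `m + 1` pairwise disjoint nonzero positive functionals with restriction below `ρ` -/
def Bd (ι : A →⋆ₐ[ℂ] B) (ρ : A →L[ℂ] ℂ) (m : ℕ) : Prop :=
  ∀ θ : Fin (m + 1) → (B →L[ℂ] ℂ),
    (∀ j, IsPos (θ j) ∧ θ j ≠ 0 ∧ IsPos (ρ - res ι (θ j))) →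
      ¬ Pairwise fun j k => Disj (θ j) (θ k)

/-- basic weak-star neighbourhood -/
def WNear (F : Finset C) (γ : ℝ) (θ θ' : C →L[ℂ] ℂ) : Prop := ∀ b ∈ F, ‖θ' b - θ b‖ < γ

/-- weak-star closed set -/
def WClosed (S : Set (C →L[ℂ] ℂ)) : Prop :=
  ∀ θ : C →L[ℂ] ℂ, (∀ (F : Finset C) (γ : ℝ), 0 < γ → ∃ θ' ∈ S, WNear F γ θ θ') → θ ∈ S

/-- weak-star continuity of a map on the set `K` -/
def WCont (K : Set (C →L[ℂ] ℂ)) (g : (C →L[ℂ] ℂ) → (C →L[ℂ] ℂ)) : Prop :=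
  ∀ θ ∈ K, ∀ (b : C) (ε : ℝ), 0 < ε → ∃ (F : Finset C) (γ : ℝ), 0 < γ ∧
    ∀ θ' ∈ K, WNear F γ θ θ' → ‖g θ' b - g θ b‖ < ε

/-- the positive extensions of `σ` have diameter at most `r` -/
def Diam (ι : A →⋆ₐ[ℂ] B) (σ : A →L[ℂ] ℂ) (r : ℝ) : Prop :=
  ∀ θ ∈ Ext ι σ, ∀ θ' ∈ Ext ι σ, ∀ b : B, IsSelfAdjoint b → ‖b‖ ≤ 1 →
    (θ b).re - (θ' b).re ≤ r

/-- nonnegative, homogeneous, bounded, weak-star upper semicontinuous function on the positive cone -/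
structure Usc (Φ : (C →L[ℂ] ℂ) → ℝ) : Prop where
  nonneg : ∀ θ, IsPos θ → 0 ≤ Φ θ
  homog : ∀ θ, IsPos θ → ∀ s : ℝ, 0 ≤ s → Φ ((s : ℂ) • θ) = s * Φ θ
  bdd : ∃ K : ℝ, ∀ θ, IsPos θ → Φ θ ≤ K * (θ 1).re
  usc : ∀ θ, IsPos θ → ∀ ε : ℝ, 0 < ε → ∃ (F : Finset C) (γ : ℝ), 0 < γ ∧
    ∀ θ', IsPos θ' → WNear F γ θ θ' → Φ θ' ≤ Φ θ + ε

/-- defect of purity of `θ` in direction `b` -/
def gv [PartialOrder C] (θ : C →L[ℂ] ℂ) (b : C) : ℝ :=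
  sInf {r : ℝ | ∃ (t : ℝ) (c : C),
    b - algebraMap ℝ C t ≤ c ∧ algebraMap ℝ C t - b ≤ c ∧ r = (θ c).re}

/-- width at `b` of the set of positive extensions of `σ` -/
def dv [PartialOrder B] (ι : A →⋆ₐ[ℂ] B) (σ : A →L[ℂ] ℂ) (b : B) : ℝ :=
  sInf {r : ℝ | ∃ a a' : A, ι a' ≤ b ∧ b ≤ ι a ∧ r = (σ (a - a')).re}

/-- the superadditive test quantity of the tree lemma -/
def mn (θ : C →L[ℂ] ℂ) (c c' : C) : ℝ := min (θ c).re (θ c').re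

end CStar

/-! ## Operators -/

section Op

variable {H : Type} [NormedAddCommGroup H] [InnerProductSpace ℂ H] [CompleteSpace H]

/-- the von Neumann algebra of all operators commuting with `S` and its adjoints -/
def vnOf (S : Set (H →L[ℂ] H)) : VonNeumannAlgebra H where
  toStarSubalgebra := StarSubalgebra.centralizer ℂ S
  centralizer_centralizer' := by simp

/-- factor, in the form of primeness -/
def IsFactor (M : VonNeumannAlgebra H) : Prop :=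
  ∀ x ∈ M, ∀ y ∈ M, (∀ a ∈ M, x * a * y = 0) → x = 0 ∨ y = 0

/-- cyclic vector -/
def Cyc (M : VonNeumannAlgebra H) (ξ : H) : Prop := Dense {η : H | ∃ x ∈ M, η = x ξ}

/-- separating vector -/
def Sepg (M : VonNeumannAlgebra H) (ξ : H) : Prop := ∀ x ∈ M, x ξ = 0 → x = 0

/-- Boolean algebra of commuting projections -/
structure BoolFam (𝔅 : Set (H →L[ℂ] H)) : Prop where
  proj : ∀ q ∈ 𝔅, IsStarProjection q
  comm : ∀ q ∈ 𝔅, ∀ r ∈ 𝔅, q * r = r * q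
  one : (1 : H →L[ℂ] H) ∈ 𝔅
  mul : ∀ q ∈ 𝔅, ∀ r ∈ 𝔅, q * r ∈ 𝔅
  compl : ∀ q ∈ 𝔅, 1 - q ∈ 𝔅

/-- Boolean closure -/
inductive BCl (S : Set (H →L[ℂ] H)) : (H →L[ℂ] H) → Prop
  | base (q : H →L[ℂ] H) : q ∈ S → BCl S q
  | one : BCl S 1
  | mul (q r : H →L[ℂ] H) : BCl S q → BCl S r → BCl S (q * r)
  | compl (q : H →L[ℂ] H) : BCl S q → BCl S (1 - q)

/-- `𝔅` is maximal abelian in `M` as far as the vector `ζ` sees -/
def Maxl (M : VonNeumannAlgebra H) (𝔅 : Set (H →L[ℂ] H)) (ζ : H) : Prop :=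
  ∀ T ∈ M, IsSelfAdjoint T → (∀ q ∈ 𝔅, T * q = q * T) → (∀ q ∈ 𝔅, ⟪ζ, T (q ζ)⟫_ℂ = 0) → T ζ = 0

/-- `l` is a partition of `q` inside `𝔅` -/
def PartOf (𝔅 : Set (H →L[ℂ] H)) (q : H →L[ℂ] H) (l : List (H →L[ℂ] H)) : Prop :=
  (∀ r ∈ l, r ∈ 𝔅) ∧ l.Pairwise (fun r r' => r * r' = 0) ∧ l.sum = q

/-- first alternative of Theorem B -/
def CaseOne (M : VonNeumannAlgebra H) (ζ : H) : Prop :=
  (∃ u ∈ M, ∃ v ∈ M, star u * u = 1 ∧ star v * v = 1 ∧ star u * v = 0) ∧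
  ∀ (ξ : H) (ε : ℝ), 0 < ε → ∃ x ∈ M, ∃ y ∈ M.commutant, ‖x‖ ≤ 1 ∧ ‖y‖ ≤ 1 ∧
    ‖x (y ξ) - ((‖ξ‖ / (2 * ‖ζ‖) : ℝ) : ℂ) • ζ‖ ≤ ε

/-- second alternative of Theorem B -/
structure CaseTwo (M : VonNeumannAlgebra H) (f : H →L[ℂ] H) (ζ : H)
    (G N : Set (H →L[ℂ] H)) : Prop where
  f_mem : f ∈ M
  f_proj : IsStarProjection f
  f_ne : f ≠ 0
  f_fix : f ζ = ζ
  f_sep : ∀ x ∈ M, x ζ = 0 → x * f = 0
  G_star : ∀ u ∈ G, star u ∈ G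
  G_mul : ∀ u ∈ G, ∀ v ∈ G, u * v ∈ G
  G_mem : ∀ u ∈ G, u ∈ M ∧ u ∈ unitary (H →L[ℂ] H) ∧ u * f = f * u ∧
    ∃ u' ∈ M.commutant, ‖u'‖ ≤ 1 ∧ u ζ = u' ζ
  N_mem : ∀ v ∈ N, v ∈ M ∧ v * star v * v = v ∧ f * v = v ∧ v * f = v ∧
    ∃ 𝔅 : Set (H →L[ℂ] H), BoolFam 𝔅 ∧ (∀ r ∈ 𝔅, r ∈ M) ∧ star v * v ∈ 𝔅 ∧ Maxl M 𝔅 ζ ∧
      ∀ T : H →L[ℂ] H, f * T = T → T * f = T → (∀ u ∈ G, T * u = u * T) →
        T * (v * star v) = v * star v * T ∧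
        ∀ r ∈ 𝔅, T * r = r * T ∧ T * (v * r * star v) = v * r * star v * T
  gen : ∀ T : H →L[ℂ] H, f * T = T → T * f = T → (∀ u ∈ G, T * u = u * T) →
    (∀ v ∈ N, T * v = v * T) → ∀ x ∈ M, T * (f * x * f) = f * x * f * T

end Op

/-! ## Representations -/

section Rep

variable {A B C : Type} [CStarAlgebra A] [CStarAlgebra B] [CStarAlgebra C]
variable {H : Type} [NormedAddCommGroup H] [InnerProductSpace ℂ H] [CompleteSpace H]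

/-- vector functional of a linear map into operators -/
def vfL (Ψ : C →L[ℂ] (H →L[ℂ] H)) (ξ : H) : C →L[ℂ] ℂ :=
  (innerSL ℂ ξ).comp ((ContinuousLinearMap.apply ℂ H ξ).comp Ψ)

@[simp] theorem vfL_apply (Ψ : C →L[ℂ] (H →L[ℂ] H)) (ξ : H) (c : C) :
    vfL Ψ ξ c = ⟪ξ, Ψ c ξ⟫_ℂ := rfl

/-- vector functional of a representation -/
def vf (π : C →⋆ₐ[ℂ] (H →L[ℂ] H)) (ξ : H) : C →L[ℂ] ℂ := vfL (clm π) ξ

@[simp] theorem vf_apply (π : C →⋆ₐ[ℂ] (H →L[ℂ] H)) (ξ : H) (c : C) :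
    vf π ξ c = ⟪ξ, π c ξ⟫_ℂ := rfl

/-- commutant of a representation -/
def cmt (π : C →⋆ₐ[ℂ] (H →L[ℂ] H)) : VonNeumannAlgebra H := vnOf (Set.range π)

/-- cyclic vector of a representation -/
def CycR (π : C →⋆ₐ[ℂ] (H →L[ℂ] H)) (ξ : H) : Prop := DenseRange fun c : C => π c ξ

/-- `W` intertwines two representations -/
def Intw {K : Type} [NormedAddCommGroup K] [InnerProductSpace ℂ K] [CompleteSpace K]
    (π₁ : C →⋆ₐ[ℂ] (H →L[ℂ] H)) (π₂ : C →⋆ₐ[ℂ] (K →L[ℂ] K)) (W : H →L[ℂ] K) : Prop :=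
  ∀ (c : C) (ξ : H), W (π₁ c ξ) = π₂ c (W ξ)

/-- positive unital contractive `A`-bimodule map extending `π` -/
structure IsW (ι : A →⋆ₐ[ℂ] B) (π : A →⋆ₐ[ℂ] (H →L[ℂ] H)) (Ψ : B →L[ℂ] (H →L[ℂ] H)) : Prop where
  one : Ψ 1 = 1
  left : ∀ a b, Ψ (ι a * b) = π a * Ψ b
  right : ∀ a b, Ψ (b * ι a) = Ψ b * π a
  pos : ∀ b ξ, 0 ≤ ⟪ξ, Ψ (star b * b) ξ⟫_ℂ
  norm_le : ∀ b, ‖Ψ b‖ ≤ ‖b‖

end Rep

/-! ## Borel functional calculus -/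

section Calc

/-- bounded measurable function -/
def BM {X : Type} [MeasurableSpace X] (f : X → ℂ) : Prop :=
  Measurable f ∧ ∃ K : ℝ, ∀ x, ‖f x‖ ≤ K

/-- a projection valued measure, given by its calculus and its scalar spectral measures -/
structure SpecCalc (X : Type) [MeasurableSpace X] (H : Type) [NormedAddCommGroup H]
    [InnerProductSpace ℂ H] [CompleteSpace H] where
  Φ : (X → ℂ) → (H →L[ℂ] H)
  μ : H → Measure X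
  fin : ∀ ξ, IsFiniteMeasure (μ ξ)
  one : Φ (fun _ => 1) = 1
  mul : ∀ f g, BM f → BM g → Φ (fun x => f x * g x) = Φ f * Φ g
  inner : ∀ f, BM f → ∀ ξ, ⟪ξ, Φ f ξ⟫_ℂ = ∫ x, f x ∂(μ ξ)

variable {H : Type} [NormedAddCommGroup H] [InnerProductSpace ℂ H] [CompleteSpace H]

/-- spectral projection of a set -/
def SpecCalc.Pr {X : Type} [MeasurableSpace X] (E : SpecCalc X H) (s : Set X) : H →L[ℂ] H :=
  E.Φ (s.indicator fun _ => 1)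

/-- the unitary group of a calculus on the line -/
def SpecCalc.U (E : SpecCalc ℝ H) (t : ℝ) : H →L[ℂ] H :=
  E.Φ fun l => Complex.exp (Complex.I * t * l)

/-- the automorphism group implemented by `U` -/
def SpecCalc.sig (E : SpecCalc ℝ H) (t : ℝ) (x : H →L[ℂ] H) : H →L[ℂ] H := E.U t * x * E.U (-t)

/-- `E` is the Borel calculus of the selfadjoint operator `h` -/
def IsCalcOf (E : SpecCalc ℝ H) (h : H →L[ℂ] H) : Prop :=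
  (∀ ξ, E.μ ξ (Set.Icc (-‖h‖) ‖h‖)ᶜ = 0) ∧
    ∀ f : ℝ → ℂ, BM f → (∀ t ∈ Set.Icc (-‖h‖) ‖h‖, f t = t) → E.Φ f = h

open Classical in
/-- strong operator integral of `g t • F t` -/
def opInt (g : ℝ → ℂ) (F : ℝ → (H →L[ℂ] H)) : H →L[ℂ] H :=
  if h : ∃ T : H →L[ℂ] H, ∀ ξ, T ξ = ∫ t, g t • F t ξ then h.choose else 0

/-- strongly continuous family bounded by `K` -/
def SCB (F : ℝ → (H →L[ℂ] H)) (K : ℝ) : Prop :=
  (∀ ξ, Continuous fun t => F t ξ) ∧ ∀ t, ‖F t‖ ≤ K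

/-- smearing along the automorphism group -/
def smear (E : SpecCalc ℝ H) (g : ℝ → ℂ) (x : H →L[ℂ] H) : H →L[ℂ] H :=
  opInt g fun t => E.sig t x

/-- Fourier transform with the convention used here -/
def chk (g : ℝ → ℂ) (u : ℝ) : ℂ := ∫ t, g t * Complex.exp (Complex.I * t * u)

/-- Fejer kernel -/
def fej (t : ℝ) : ℝ := 1 / (2 * Real.pi) * Real.sinc (t / 2) ^ 2

/-- triangle function -/
def tri (u : ℝ) : ℝ := max 0 (1 - |u|)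

/-- triangle window of width `δ` centred at `ν` -/
def trif (δ ν : ℝ) (l : ℝ) : ℂ := ((tri ((l - ν) / δ) : ℝ) : ℂ)

/-- Fejer kernel at scale `δ` and frequency `ν` -/
def fker (δ ν : ℝ) (t : ℝ) : ℂ :=
  ((δ * fej (δ * t) : ℝ) : ℂ) * Complex.exp (-(Complex.I * t * ν))

/-- spectral window of `x` of width `δ` at frequency `ν` -/
def win (E : SpecCalc ℝ H) (δ ν : ℝ) (x : H →L[ℂ] H) : H →L[ℂ] H := smear E (fker δ ν) x

/-- the vector `ξ` has spectrum in `[a, b]` -/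
def SpecIn (E : SpecCalc ℝ H) (ξ : H) (a b : ℝ) : Prop := E.μ ξ (Set.Icc a b)ᶜ = 0

end Calc

/-! ## Standard form and modular data -/

section Standard

variable {H : Type} [NormedAddCommGroup H] [InnerProductSpace ℂ H] [CompleteSpace H]

/-- right multiplication `J x* J` -/
def rm (J : H ≃ₗᵢ⋆[ℂ] H) (x : H →L[ℂ] H) : H →L[ℂ] H :=
  (J.toContinuousLinearEquiv : H →L⋆[ℂ] H).comp
    ((star x).comp (J.toContinuousLinearEquiv : H →L⋆[ℂ] H))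

theorem rm_apply (J : H ≃ₗᵢ⋆[ℂ] H) (x : H →L[ℂ] H) (ξ : H) : rm J x ξ = J ((star x) (J ξ)) := rfl

/-- the commutator vector `x ξ - ξ x` -/
def cm (J : H ≃ₗᵢ⋆[ℂ] H) (x : H →L[ℂ] H) (ξ : H) : H := x ξ - rm J x ξ

/-- the vector `a ξ a*` -/
def ad (J : H ≃ₗᵢ⋆[ℂ] H) (a : H →L[ℂ] H) (ξ : H) : H := a (rm J (star a) ξ)

/-- `J` is an antiunitary involution with `J M J = M'` -/
structure StdJ (M : VonNeumannAlgebra H) (J : H ≃ₗᵢ⋆[ℂ] H) : Prop where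
  invol : ∀ ξ, J (J ξ) = ξ
  mem : ∀ x ∈ M, rm J x ∈ M.commutant
  mem' : ∀ y ∈ M.commutant, rm J y ∈ M

/-- cross positivity of two vectors -/
def CPos (M : VonNeumannAlgebra H) (J : H ≃ₗᵢ⋆[ℂ] H) (ζ₁ ζ₂ : H) : Prop :=
  ∀ a ∈ M, 0 ≤ ⟪ζ₁, ad J a ζ₂⟫_ℂ

/-- `ζ` is cyclic and `J` is its modular conjugation -/
structure StdV (M : VonNeumannAlgebra H) (J : H ≃ₗᵢ⋆[ℂ] H) (ζ : H) : Prop where
  stdJ : StdJ M J
  fix : J ζ = ζ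
  cyc : Cyc M ζ
  pos : CPos M J ζ ζ

/-- closed cone generated by the vectors `a ζ a*` -/
def Cone (M : VonNeumannAlgebra H) (J : H ≃ₗᵢ⋆[ℂ] H) (ζ : H) : Set H :=
  closure (AddSubmonoid.closure {η : H | ∃ a ∈ M, η = ad J a ζ} : Set H)

/-- `E` is the calculus of the logarithm of the modular operator of `ζ` -/
structure ModD (M : VonNeumannAlgebra H) (J : H ≃ₗᵢ⋆[ℂ] H) (ζ : H) (E : SpecCalc ℝ H) : Prop where
  std : StdV M J ζ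
  inv : ∀ t, ∀ x ∈ M, E.sig t x ∈ M
  flip : ∀ f, BM f → ∀ ξ, J (E.Φ f ξ) = E.Φ (fun l => conj (f (-l))) (J ξ)
  half : ∀ x ∈ M, ∀ f, BM f → BM (fun l => f l * (Real.exp (l / 2) : ℝ)) →
    E.Φ f (rm J x ζ) = E.Φ (fun l => f l * (Real.exp (l / 2) : ℝ)) (x ζ)

/-- Rieffel-van Daele operators `R = P + Q` and `D = P - Q` -/
structure RvD (M : VonNeumannAlgebra H) (ζ : H) (R : H →L[ℂ] H) (D : H →L⋆[ℂ] H) : Prop where
  nonneg : 0 ≤ R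
  le_two : R ≤ 2
  inj : ∀ ξ, R ξ = 0 → ξ = 0
  inj' : ∀ ξ, (2 - R) ξ = 0 → ξ = 0
  symm : ∀ ξ η, ⟪D ξ, η⟫_ℂ = ⟪D η, ξ⟫_ℂ
  sq : ∀ ξ, D (D ξ) = R ((2 - R) ξ)
  flip : ∀ ξ, D (R ξ) = (2 - R) (D ξ)
  alg : ∀ x ∈ M, D (x ζ) = (2 - R) ((star x) ζ)
  com : ∀ y ∈ M.commutant, D (y ζ) = R ((star y) ζ)
  graph : ∀ η, (R η, D η) ∈ closure {p : H × H | ∃ x ∈ M, p = (x ζ, (star x) ζ)}

/-- the function with `R = r (log Δ)` -/
def rfun (l : ℝ) : ℂ := ((2 / (1 + Real.exp l) : ℝ) : ℂ)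

/-- the function with `|D| = τ (log Δ)` -/
def tfun (l : ℝ) : ℂ := ((2 * Real.exp (l / 2) / (1 + Real.exp l) : ℝ) : ℂ)

/-- polar decomposition of the Rieffel-van Daele operators -/
structure RvJ (R : H →L[ℂ] H) (D : H →L⋆[ℂ] H) (J : H ≃ₗᵢ⋆[ℂ] H) (E : SpecCalc ℝ H) : Prop where
  R_eq : E.Φ rfun = R
  D_eq : ∀ ξ, D ξ = E.Φ tfun (J ξ)
  invol : ∀ ξ, J (J ξ) = ξ
  flip : ∀ f, BM f → ∀ ξ, J (E.Φ f ξ) = E.Φ (fun l => conj (f (-l))) (J ξ)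

/-- projection of the centraliser of `ζ` -/
def Cent (M : VonNeumannAlgebra H) (J : H ≃ₗᵢ⋆[ℂ] H) (ζ : H) (p : H →L[ℂ] H) : Prop :=
  p ∈ M ∧ IsStarProjection p ∧ cm J p ζ = 0

/-- `l` lies in the modular spectrum of the corner `p M p` -/
def SpI (M : VonNeumannAlgebra H) (J : H ≃ₗᵢ⋆[ℂ] H) (ζ : H) (p : H →L[ℂ] H) (l : ℝ) : Prop :=
  ∀ ε : ℝ, 0 < ε → ∃ x ∈ M, p * x * p = x ∧ x ≠ 0 ∧
    ‖rm J x ζ - ((Real.exp (l / 2) : ℝ) : ℂ) • x ζ‖ ≤ ε * ‖x ζ‖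

/-- full Connes spectrum -/
def Full (M : VonNeumannAlgebra H) (J : H ≃ₗᵢ⋆[ℂ] H) (ζ : H) : Prop :=
  ∀ p, Cent M J ζ p → p ≠ 0 → ∀ l, SpI M J ζ p l

/-- spectral gap of the corner `f M f` -/
def Gap (M : VonNeumannAlgebra H) (J : H ≃ₗᵢ⋆[ℂ] H) (ζ : H) (f : H →L[ℂ] H) (η : ℝ) : Prop :=
  ∀ l : ℝ, η ≤ |l| → |l| ≤ 5 * η → ¬ SpI M J ζ f l

/-- pinching by the projection `p` -/
def pinch (J : H ≃ₗᵢ⋆[ℂ] H) (p : H →L[ℂ] H) : H →L[ℂ] H :=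
  p * rm J p + (1 - p) * rm J (1 - p)

/-- iterated pinching -/
def pinchL (J : H ≃ₗᵢ⋆[ℂ] H) (l : List (H →L[ℂ] H)) : H →L[ℂ] H := (l.map (pinch J)).prod

/-- unitary of the corner `e D e` almost commuting with `ζ` -/
def UApp (D : VonNeumannAlgebra H) (J : H ≃ₗᵢ⋆[ℂ] H) (ζ : H) (e : H →L[ℂ] H) (δ : ℝ)
    (u : H →L[ℂ] H) : Prop :=
  u ∈ D ∧ u ∈ unitary (H →L[ℂ] H) ∧ u * (1 - e) = 1 - e ∧ ‖cm J u ζ‖ ≤ δ

/-- the bicentraliser hypothesis of the local quantisation lemma -/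
def BH (M D : VonNeumannAlgebra H) (J : H ≃ₗᵢ⋆[ℂ] H) (Z : Set H) (f : H →L[ℂ] H) : Prop :=
  ∀ ζ ∈ Z, ∀ e ∈ D, IsStarProjection e → f * e = e → cm J e ζ = 0 →
    ∀ y ∈ M, IsSelfAdjoint y → e * y = y →
      (∀ ε : ℝ, 0 < ε → ∃ δ : ℝ, 0 < δ ∧ ∀ u, UApp D J ζ e δ u → ‖(u * y - y * u) ζ‖ ≤ ε) →
        y ∈ D ∧ cm J y ζ = 0

/-- a list of commuting projections of `D` below `f` -/
def CL (D : VonNeumannAlgebra H) (f : H →L[ℂ] H) (l : List (H →L[ℂ] H)) : Prop :=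
  (∀ p ∈ l, p ∈ D ∧ IsStarProjection p ∧ f * p = p) ∧ ∀ p ∈ l, ∀ q ∈ l, p * q = q * p

/-- a Boolean family commuting with `η` and maximal for `η` -/
structure Good (M : VonNeumannAlgebra H) (J : H ≃ₗᵢ⋆[ℂ] H) (𝔅 : Set (H →L[ℂ] H)) (η : H) :
    Prop where
  bool : BoolFam 𝔅
  mem : ∀ q ∈ 𝔅, q ∈ M
  cent : ∀ q ∈ 𝔅, cm J q η = 0
  maxl : Maxl M 𝔅 η

/-- approximate eigenoperator (contraction) of frequency `s` -/
def Eig (M : VonNeumannAlgebra H) (J : H ≃ₗᵢ⋆[ℂ] H) (ζ : H) (s δ : ℝ) (w : H →L[ℂ] H) : Prop :=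
  w ∈ M ∧ ‖w‖ ≤ 1 ∧ ‖rm J w ζ - ((Real.exp (s / 2) : ℝ) : ℂ) • w ζ‖ ≤ δ

/-- `x w` is asymptotically `w y` along approximate eigenoperators of frequency `s` -/
def Bet (M : VonNeumannAlgebra H) (J : H ≃ₗᵢ⋆[ℂ] H) (ζ : H) (s : ℝ) (x y : H →L[ℂ] H) : Prop :=
  x ∈ M ∧ y ∈ M ∧ ∀ ε : ℝ, 0 < ε → ∃ δ : ℝ, 0 < δ ∧ ∀ w, Eig M J ζ s δ w →
    ‖(x * w - w * y) ζ‖ ≤ ε ∧ ‖(star (x * w - w * y)) ζ‖ ≤ ε

/-- the bicentraliser -/
def Bic (M : VonNeumannAlgebra H) (J : H ≃ₗᵢ⋆[ℂ] H) (ζ : H) : Set (H →L[ℂ] H) :=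
  {x | Bet M J ζ 0 x x}

/-- graph of the bicentraliser flow -/
def BRel (M : VonNeumannAlgebra H) (J : H ≃ₗᵢ⋆[ℂ] H) (ζ : H) (s : ℝ) (x y : H →L[ℂ] H) : Prop :=
  x ∈ Bic M J ζ ∧ y ∈ Bic M J ζ ∧ Bet M J ζ s x y ∧ Bet M J ζ s (star x) (star y)

/-- families of approximate eigenisometries with orthogonal ranges exist -/
def EigFam (M : VonNeumannAlgebra H) (J : H ≃ₗᵢ⋆[ℂ] H) (ζ : H) : Prop :=
  ∀ (ι : Type) [Fintype ι] (s : ι → ℝ), ∑ i, Real.exp (s i) ≤ 1 → ∀ δ : ℝ, 0 < δ →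
    ∃ w : ι → (H →L[ℂ] H), (∀ i, Eig M J ζ (s i) δ (w i)) ∧ (∀ i, star (w i) * w i = 1) ∧
      ∀ i j, i ≠ j → star (w i) * w j = 0

/-- the bicentraliser flow `β`, implemented by the unitary group of `V` -/
structure BFlow (M : VonNeumannAlgebra H) (J : H ≃ₗᵢ⋆[ℂ] H) (ζ : H) (E : SpecCalc ℝ H)
    (β : ℝ → (H →L[ℂ] H) → (H →L[ℂ] H)) (V : SpecCalc ℝ H) : Prop where
  rel : ∀ s, ∀ x ∈ Bic M J ζ, BRel M J ζ s x (β s x)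
  norm_le : ∀ s, ∀ x ∈ Bic M J ζ, ‖β s x‖ ≤ ‖x‖
  map_one : ∀ s, β s 1 = 1
  map_mul : ∀ s, ∀ x ∈ Bic M J ζ, ∀ y ∈ Bic M J ζ, β s (x * y) = β s x * β s y
  map_star : ∀ s, ∀ x ∈ Bic M J ζ, β s (star x) = star (β s x)
  apply : ∀ s, ∀ x ∈ Bic M J ζ, β s x ζ = V.U s (x ζ)
  comm : ∀ s t, V.U s * E.U t = E.U t * V.U s

/-- norm continuity of the flow at `x` -/
def NCont (β : ℝ → (H →L[ℂ] H) → (H →L[ℂ] H)) (x : H →L[ℂ] H) : Prop :=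
  ∀ ε : ℝ, 0 < ε → ∃ ρ : ℝ, 0 < ρ ∧ ∀ r : ℝ, |r| ≤ ρ → ‖β r x - x‖ ≤ ε

end Standard

/-! ## Matrix amplification -/

section Amp

variable {H : Type} [NormedAddCommGroup H] [InnerProductSpace ℂ H] [CompleteSpace H]
variable {ι : Type} [Fintype ι] [DecidableEq ι]

/-- matrices of vectors -/
abbrev HM (ι : Type) [Fintype ι] (H : Type) := PiLp 2 fun _ : ι × ι => H

/-- coordinate projection -/
def prj (i j : ι) : HM ι H →L[ℂ] H := PiLp.proj 2 (fun _ : ι × ι => H) (i, j)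

/-- coordinate injection -/
def inj (i j : ι) : H →L[ℂ] HM ι H := ContinuousLinearMap.adjoint (prj i j)

/-- left action of a matrix of operators -/
def mat (a : ι → ι → (H →L[ℂ] H)) : HM ι H →L[ℂ] HM ι H :=
  ∑ i, ∑ j, ∑ k, (inj i j).comp ((a i k).comp (prj k j))

/-- action of a matrix of operators on the column index -/
def rmat (y : ι → ι → (H →L[ℂ] H)) : HM ι H →L[ℂ] HM ι H :=
  ∑ i, ∑ j, ∑ k, (inj i j).comp ((y j k).comp (prj i k))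

/-- the algebra of matrices over `M` -/
def amp (ι : Type) [Fintype ι] [DecidableEq ι] (M : VonNeumannAlgebra H) :
    VonNeumannAlgebra (HM ι H) :=
  vnOf {Y | ∃ y : ι → ι → (H →L[ℂ] H), (∀ j k, y j k ∈ M.commutant) ∧ Y = rmat y}

/-- diagonal vector -/
def dvec (ζ : ι → H) : HM ι H := ∑ i, inj i i (ζ i)

/-- the amplified conjugation -/
def ampJ (ι : Type) [Fintype ι] [DecidableEq ι] (J : H ≃ₗᵢ⋆[ℂ] H) : HM ι H ≃ₗᵢ⋆[ℂ] HM ι H where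
  toFun ξ := WithLp.toLp 2 fun p => J (ξ (p.2, p.1))
  invFun ξ := WithLp.toLp 2 fun p => J.symm (ξ (p.2, p.1))
  map_add' ξ η := by ext p; simp
  map_smul' c ξ := by ext p; simp [J.map_smulₛₗ]
  left_inv ξ := by ext p; simp
  right_inv ξ := by ext p; simp
  norm_map' ξ := by
    simp only [PiLp.norm_eq_of_L2]
    congr 1
    simpa [Prod.swap] using (Equiv.prodComm ι ι).sum_comp fun p : ι × ι => ‖ξ p‖ ^ 2

end Amp

end Pool.Agent.P.MP_5d580a_an
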