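import Pool.Agent.P.MP_5d580a_an.Gns

open scoped ComplexOrder InnerProductSpace ComplexConjugate BoundedContinuousFunction
open MeasureTheory Filter Topology

set_option linter.unusedSectionVars false
set_option linter.unusedVariables false

noncomputable section

namespace Pool.Agent.P.MP_5d580a_an

variable {H : Type} [NormedAddCommGroup H] [InnerProductSpace ℂ H] [CompleteSpace H]

variable {A B C : Type} [CStarAlgebra A] [CStarAlgebra B] [CStarAlgebra C]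
variable {K : Type} [NormedAddCommGroup K] [InnerProductSpace ℂ K] [CompleteSpace K]

/-- the adjoint functional -/
def disja_adj (f : C →L[ℂ] ℂ) : C →L[ℂ] ℂ :=
  LinearMap.mkContinuous
    { toFun := fun x => conj (f (star x))
      map_add' := fun x y => by rw [star_add, map_add, map_add]
      map_smul' := fun c x => by
        rw [star_smul, map_smul, smul_eq_mul, map_mul, RingHom.id_apply, smul_eq_mul]
        simp } ‖f‖ fun x => by
    have := f.le_opNorm (star x)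
    rw [norm_star] at this
    simpa using this

theorem disja_adj_apply (f : C →L[ℂ] ℂ) (x : C) : disja_adj f x = conj (f (star x)) := rfl

theorem Disj.symm {θ₁ θ₂ : C →L[ℂ] ℂ} (h : Disj θ₁ θ₂) : Disj θ₂ θ₁ := by
  intro f hf
  have h0 := h (disja_adj f) fun b c => by
    rw [disja_adj_apply, star_mul, star_star, Complex.norm_conj, mul_comm]
    exact hf c b
  ext x
  have := congrArg (fun g : C →L[ℂ] ℂ => g (star x)) h0
  simp only [disja_adj_apply, star_star] at this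
  simpa using this

theorem Disj.mono {θ₁ θ₂ τ₁ τ₂ : C →L[ℂ] ℂ} (h : Disj θ₁ θ₂) (p₁ : IsPos τ₁) (p₂ : IsPos τ₂)
    (h₁ : IsPos (θ₁ - τ₁)) (h₂ : IsPos (θ₂ - τ₂)) : Disj τ₁ τ₂ := fun f hf =>
  h f fun b c => (hf b c).trans (mul_le_mul (h₁.re_star_mul_le b) (h₂.re_star_mul_le c)
    (p₂.re_star_mul c) ((p₁.re_star_mul b).trans (h₁.re_star_mul_le b)))

theorem disj_zero (θ : C →L[ℂ] ℂ) : Disj 0 θ := by
  intro f hf
  ext b
  have := hf b 1
  simp only [star_one, one_mul, zero_apply, Complex.zero_re, zero_mul] at this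
  have h2 : ‖f b‖ = 0 := by nlinarith [norm_nonneg (f b)]
  simpa using h2

theorem disja_mul_apply (π : C →⋆ₐ[ℂ] (H →L[ℂ] H)) (a b : C) (ξ : H) :
    π (a * b) ξ = π a (π b ξ) := by
  rw [map_mul]; rfl

theorem disja_inner (π : C →⋆ₐ[ℂ] (H →L[ℂ] H)) (c : C) (ξ η : H) :
    ⟪ξ, π (star c) η⟫_ℂ = ⟪π c ξ, η⟫_ℂ := by
  rw [map_star, inner_star_right]

theorem disja_inner' (π : C →⋆ₐ[ℂ] (H →L[ℂ] H)) (c : C) (ξ η : H) :
    ⟪π (star c) ξ, η⟫_ℂ = ⟪ξ, π c η⟫_ℂ := by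
  rw [map_star, inner_star_left]

theorem disja_one (π : C →⋆ₐ[ℂ] (H →L[ℂ] H)) (ξ : H) : π 1 ξ = ξ := by
  rw [map_one]; rfl

theorem disja_comm {π : C →⋆ₐ[ℂ] (H →L[ℂ] H)} {x : H →L[ℂ] H} (hx : x ∈ cmt π) (c : C) (ξ : H) :
    x (π c ξ) = π c (x ξ) := intw_iff_mem.2 hx c ξ

theorem Disj.inner_eq_zero {π₁ : C →⋆ₐ[ℂ] (H →L[ℂ] H)} {π₂ : C →⋆ₐ[ℂ] (K →L[ℂ] K)} {η₁ : H}
    {η₂ : K} (h : Disj (vf π₁ η₁) (vf π₂ η₂)) {T : H →L[ℂ] K} (hT : Intw π₁ π₂ T) (b : C) :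
    ⟪η₂, T (π₁ b η₁)⟫_ℂ = 0 := by
  let f₀ : C →L[ℂ] ℂ :=
    (innerSL ℂ η₂).comp (T.comp ((ContinuousLinearMap.apply ℂ H η₁).comp (clm π₁)))
  have hf₀ : ∀ x, f₀ x = ⟪η₂, T (π₁ x η₁)⟫_ℂ := fun x => rfl
  have hp : 0 < ‖T‖ + 1 := by positivity
  have h0 := h ((((‖T‖ + 1)⁻¹ : ℝ) : ℂ) • f₀) fun b c => by
    rw [vf_star_mul_self, vf_star_mul_self, ← mul_pow]
    refine pow_le_pow_left₀ (norm_nonneg _) ?_ 2
    rw [smul_apply, hf₀, disja_mul_apply, hT, disja_inner, norm_smul,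
      Complex.norm_real, Real.norm_of_nonneg (by positivity), inv_mul_le_iff₀ hp]
    refine (norm_inner_le_norm _ _).trans ?_
    have h1 := T.le_opNorm (π₁ b η₁)
    have h2 := norm_nonneg (π₁ b η₁)
    have h3 := norm_nonneg (π₂ c η₂)
    nlinarith [mul_le_mul_of_nonneg_left h1 h3, mul_nonneg h2 h3]
  have h1 := congrArg (fun g : C →L[ℂ] ℂ => g b) h0
  simp only [smul_apply, hf₀, zero_apply, smul_eq_mul, mul_eq_zero] at h1
  rcases h1 with h1 | h1
  · exact absurd (Complex.ofReal_eq_zero.1 h1) (by positivity)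
  · exact h1

theorem disj_of_intw {π₁ : C →⋆ₐ[ℂ] (H →L[ℂ] H)} {π₂ : C →⋆ₐ[ℂ] (K →L[ℂ] K)} {η₁ : H} {η₂ : K}
    (h : ∀ T : H →L[ℂ] K, ‖T‖ ≤ 1 → Intw π₁ π₂ T → ∀ b, ⟪η₂, T (π₁ b η₁)⟫_ℂ = 0) :
    Disj (vf π₁ η₁) (vf π₂ η₂) := by
  intro f hf
  let u : C →ₗ[ℂ] K := ((ContinuousLinearMap.apply ℂ K η₂).comp (clm π₂)).toLinearMap
  have hu : ∀ c, u c = π₂ c η₂ := fun c => rfl
  have hb : ∀ b c, ‖f (star c * b)‖ ≤ ‖π₁ b η₁‖ * ‖π₂ c η₂‖ := fun b c => by
    have := hf b c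
    rw [vf_star_mul_self, vf_star_mul_self, ← mul_pow] at this
    exact le_of_sq_le_sq this (by positivity)
  have ex : ∀ b : C, ∃ g : K, ‖g‖ ≤ ‖π₁ b η₁‖ ∧ (∀ c, ⟪π₂ c η₂, g⟫_ℂ = f (star c * b)) ∧
      ∀ γ, (∀ c, ⟪π₂ c η₂, γ⟫_ℂ = 0) → ⟪γ, g⟫_ℂ = 0 := fun b => by
    let φ : C →ₗ[ℂ] ℂ :=
      { toFun := fun c => conj (f (star c * b))
        map_add' := fun x y => by rw [star_add, add_mul, map_add, map_add]
        map_smul' := fun c x => by
          rw [star_smul, smul_mul_assoc, map_smul, smul_eq_mul, map_mul, RingHom.id_apply,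
            smul_eq_mul]
          simp }
    have hφ : ∀ c, φ c = conj (f (star c * b)) := fun c => rfl
    obtain ⟨L, hL, h1, h2⟩ := exists_extend u φ ‖π₁ b η₁‖ (norm_nonneg _) fun c => by
      rw [hφ, Complex.norm_conj, hu]; exact hb b c
    refine ⟨(InnerProductSpace.toDual ℂ K).symm L, by simpa using hL, fun c => ?_, fun γ hγ => ?_⟩
    · rw [← inner_conj_symm, InnerProductSpace.toDual_symm_apply, ← hu, h1, hφ, Complex.conj_conj]
    · rw [← inner_conj_symm, InnerProductSpace.toDual_symm_apply, h2 γ hγ, map_zero]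
  choose g g1 g2 g3 using ex
  have uniq : ∀ x y : K, (∀ c, ⟪π₂ c η₂, x⟫_ℂ = ⟪π₂ c η₂, y⟫_ℂ) →
      (∀ γ, (∀ c, ⟪π₂ c η₂, γ⟫_ℂ = 0) → ⟪γ, x⟫_ℂ = ⟪γ, y⟫_ℂ) → x = y := fun x y e1 e2 => by
    have h0 : ∀ c, ⟪π₂ c η₂, x - y⟫_ℂ = 0 := fun c => by rw [inner_sub_right, e1, sub_self]
    have h1 := e2 _ h0
    rw [← sub_eq_zero, ← inner_sub_right, inner_self_eq_zero, sub_eq_zero] at h1
    exact h1
  let G : C →ₗ[ℂ] K :=
    { toFun := g
      map_add' := fun x y => uniq _ _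
        (fun c => by rw [inner_add_right, g2, g2, g2, mul_add, map_add])
        (fun γ hγ => by rw [inner_add_right, g3 _ γ hγ, g3 _ γ hγ, g3 _ γ hγ, add_zero])
      map_smul' := fun a x => uniq _ _
        (fun c => by
          rw [RingHom.id_apply, inner_smul_right, g2, g2, mul_smul_comm, map_smul, smul_eq_mul])
        (fun γ hγ => by rw [RingHom.id_apply, inner_smul_right, g3 _ γ hγ, g3 _ γ hγ, mul_zero]) }
  have hG : ∀ c, G c = g c := fun c => rfl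
  obtain ⟨W, hW, hI, hv⟩ := exists_intw_of_map π₁ η₁ π₂ G g1 fun a b => by
    rw [hG, hG]
    refine uniq _ _ (fun c => ?_) fun γ hγ => ?_
    · rw [← disja_inner' π₂ a, ← disja_mul_apply, g2, g2, star_mul, star_star, mul_assoc]
    · rw [g3 _ γ hγ, ← disja_inner' π₂ a, g3]
      intro c
      rw [disja_inner, ← disja_mul_apply, hγ]
  ext b
  have := h W hW hI b
  rw [hv, hG, ← disja_one π₂ η₂, g2, star_one, one_mul] at this
  exact this

theorem not_disj_smul {θ : C →L[ℂ] ℂ} (hθ : IsPos θ) {s t : ℝ} (hs : 0 ≤ s) (ht : 0 ≤ t)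
    (h₁ : (s : ℂ) • θ ≠ 0) (h₂ : (t : ℂ) • θ ≠ 0) : ¬ Disj ((s : ℂ) • θ) ((t : ℂ) • θ) := by
  intro h
  have h0 := h (((√(s * t) : ℝ) : ℂ) • θ) fun b c => by
    simp only [smul_apply, smul_eq_mul, Complex.re_ofReal_mul, norm_mul, Complex.norm_real,
      mul_pow, Real.norm_eq_abs, sq_abs]
    rw [Real.sq_sqrt (mul_nonneg hs ht)]
    have := mul_le_mul_of_nonneg_left (hθ.cs b c) (mul_nonneg hs ht)
    linarith
  have hθ0 : θ ≠ 0 := fun h1 => h₁ (by ext c; simp [h1])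
  have h1 := congrArg (fun g : C →L[ℂ] ℂ => (g 1).re) h0
  simp only [smul_apply, smul_eq_mul, Complex.re_ofReal_mul, zero_apply, Complex.zero_re] at h1
  have h2 : s * t ≤ 0 :=
    Real.sqrt_eq_zero'.1 ((mul_eq_zero.1 h1).resolve_right (hθ.one_pos hθ0).ne')
  rcases mul_eq_zero.1 (le_antisymm h2 (mul_nonneg hs ht)) with h3 | h3
  · exact h₁ (by ext c; simp [h3])
  · exact h₂ (by ext c; simp [h3])

theorem Disj.add_left {τ τ' θ : C →L[ℂ] ℂ} (p : IsPos τ) (p' : IsPos τ') (pθ : IsPos θ)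
    (h : Disj τ θ) (h' : Disj τ' θ) : Disj (τ + τ') θ := by
  obtain ⟨L, _, _, _, π, ξ, e, hc⟩ := exists_gns (p.add p')
  obtain ⟨L₂, _, _, _, π₂, η, e₂, -⟩ := exists_gns pθ
  obtain ⟨k, hk, -, -, ek, ik, -⟩ := exists_rn π ξ p (by rw [e, add_sub_cancel_left]; exact p')
  obtain ⟨k', hk', -, -, ek', ik', -⟩ := exists_rn π ξ p' (by rw [e, add_sub_cancel_right]; exact p)
  have hs : ξ = k (k ξ) + k' (k' ξ) := hc.eq_of_inner fun c => by
    have h1 := congrArg (fun g : C →L[ℂ] ℂ => g (star c)) e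
    simp only [add_apply, vf_apply] at h1
    rw [ik, ik', disja_inner, disja_inner, disja_inner] at h1
    rw [inner_add_right]
    exact h1
  rw [← e, ← e₂]
  rw [← ek, ← e₂] at h
  rw [← ek', ← e₂] at h'
  refine disj_of_intw fun T _ hT b => ?_
  have a1 := h.inner_eq_zero (hT.comp (intw_iff_mem.2 hk)) b
  have a2 := h'.inner_eq_zero (hT.comp (intw_iff_mem.2 hk')) b
  rw [ContinuousLinearMap.comp_apply, disja_comm hk] at a1
  rw [ContinuousLinearMap.comp_apply, disja_comm hk'] at a2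
  rw [hs, map_add, map_add, inner_add_right, a1, a2, add_zero]

theorem Disj.lim_left {τ : ℕ → (C →L[ℂ] ℂ)} {τ' θ : C →L[ℂ] ℂ} (p : ∀ n, IsPos (τ n))
    (hle : ∀ n, IsPos (τ' - τ n)) (hl : Tendsto τ atTop (𝓝 τ')) (pθ : IsPos θ)
    (h : ∀ n, Disj (τ n) θ) : Disj τ' θ := by
  have p' : IsPos τ' := by
    have := (hle 0).add (p 0)
    rwa [sub_add_cancel] at this
  obtain ⟨L, _, _, _, π, ξ, e, hc⟩ := exists_gns p'
  obtain ⟨L₂, _, _, _, π₂, η, e₂, -⟩ := exists_gns pθ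
  have ex := fun n => exists_rn π ξ (p n) (by rw [e]; exact hle n)
  choose k hk _ _ ek _ nk using ex
  have t1 : Tendsto (fun n => (τ' 1).re - (τ n 1).re) atTop (𝓝 0) := by
    have hcont : Continuous fun g : C →L[ℂ] ℂ => (τ' 1).re - (g 1).re := by fun_prop
    have := (hcont.tendsto τ').comp hl
    rwa [sub_self] at this
  have t2 : Tendsto (fun n => ‖ξ - k n ξ‖ ^ 2) atTop (𝓝 0) :=
    squeeze_zero (fun n => sq_nonneg _) (fun n => by
      have := nk n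
      rwa [← vf_one π ξ, ← vf_one π (k n ξ), e, ek] at this) t1
  have t3 : Tendsto (fun n => k n ξ) atTop (𝓝 ξ) := by
    rw [tendsto_iff_norm_sub_tendsto_zero]
    have := t2.sqrt
    simp only [Real.sqrt_sq (norm_nonneg _), Real.sqrt_zero] at this
    simpa only [norm_sub_rev] using this
  rw [← e, ← e₂]
  refine disj_of_intw fun T _ hT b => ?_
  have hcont : Continuous fun γ : L => ⟪η, T (π b γ)⟫_ℂ := by fun_prop
  have t4 := (hcont.tendsto ξ).comp t3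
  have t5 : (fun γ : L => ⟪η, T (π b γ)⟫_ℂ) ∘ (fun n => k n ξ) = fun _ => 0 := by
    funext n
    have := h n
    rw [← ek n, ← e₂] at this
    exact this.inner_eq_zero hT b
  rw [t5] at t4
  exact tendsto_nhds_unique t4 tendsto_const_nhds

theorem Disj.vec_left {π : C →⋆ₐ[ℂ] (H →L[ℂ] H)} {ξ : H} (hξ : CycR π ξ) {θ : C →L[ℂ] ℂ}
    (pθ : IsPos θ) (h : Disj (vf π ξ) θ) (η : H) : Disj (vf π η) θ := by
  obtain ⟨L₂, _, _, _, π₂, ζ, e₂, -⟩ := exists_gns pθ
  rw [← e₂] at h ⊢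
  refine disj_of_intw fun T _ hT b => ?_
  refine DenseRange.induction_on (p := fun γ => ⟪ζ, T γ⟫_ℂ = 0) hξ (π b η)
    (isClosed_eq (by fun_prop) continuous_const) fun c => h.inner_eq_zero hT c

/-- the projection onto the cyclic subspace of a vector -/
theorem disja_proj (π : C →⋆ₐ[ℂ] (H →L[ℂ] H)) (η : H) :
    ∃ p ∈ cmt π, p η = η ∧ (∀ γ, (∀ c, ⟪π c η, γ⟫_ℂ = 0) → p γ = 0) ∧
      ∀ x : H →L[ℂ] H, (∀ c, x (π c η) = 0) → x * p = 0 := by
  obtain ⟨p, hp, h1, h2, -, h4, h5⟩ := exists_proj_span (Set.range fun c => π c η)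
  refine ⟨p, mem_cmt.2 fun a => h5 _ ?_ ?_, ?_, fun γ hγ => h2 γ ?_, fun x hx => ?_⟩
  · rintro _ ⟨c, rfl⟩
    exact h1 _ ⟨a * c, disja_mul_apply π a c η⟩
  · rintro _ ⟨c, rfl⟩
    rw [← map_star]
    exact h1 _ ⟨star a * c, disja_mul_apply π _ c η⟩
  · exact h1 _ ⟨1, disja_one π η⟩
  · rintro _ ⟨c, rfl⟩
    exact hγ c
  · rw [h4 x 0, zero_mul]
    rintro _ ⟨c, rfl⟩
    exact hx c

theorem fac_of_factor {π : C →⋆ₐ[ℂ] (H →L[ℂ] H)} (h : IsFactor (cmt π)) (ξ : H) : Fac (vf π ξ) := by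
  refine ⟨isPos_vf π ξ, fun τ τ' p hle p' hle' hd => ?_⟩
  obtain ⟨k, hk, -, -, ek, -, -⟩ := exists_rn π ξ p hle
  obtain ⟨k', hk', -, -, ek', -, -⟩ := exists_rn π ξ p' hle'
  obtain ⟨P, hP, P1, -, P3⟩ := disja_proj π (k ξ)
  obtain ⟨P', hP', P1', P2', -⟩ := disja_proj π (k' ξ)
  rw [← ek, ← ek'] at hd ⊢
  rcases h P' hP' P hP (fun a ha => P3 _ fun b => P2' _ fun c => by
    change ⟪π c (k' ξ), a (π b (k ξ))⟫_ℂ = 0
    rw [← disja_inner, ← disja_comm ha, ← disja_mul_apply]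
    exact hd.inner_eq_zero (intw_iff_mem.2 ha) _) with h0 | h0
  · right
    rw [vf_eq_zero_iff, ← P1', h0, zero_apply]
  · left
    rw [vf_eq_zero_iff, ← P1, h0, zero_apply]

theorem exists_split {θ : C →L[ℂ] ℂ} (hθ : IsPos θ) (h : ¬ Fac θ) :
    ∃ α α' : C →L[ℂ] ℂ, IsPos α ∧ IsPos α' ∧ α ≠ 0 ∧ α' ≠ 0 ∧ θ = α + α' ∧ Disj α α' := by
  obtain ⟨L, _, _, _, π, ξ, e, hc⟩ := exists_gns hθ
  unfold Fac at h
  push Not at h
  obtain ⟨τ, τ', p, hle, p', hle', hd, n0, n0'⟩ := h hθ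
  rw [← e] at hle hle'
  obtain ⟨k, hk, -, -, ek, -, -⟩ := exists_rn π ξ p hle
  obtain ⟨k', hk', -, -, ek', -, -⟩ := exists_rn π ξ p' hle'
  rw [← ek, ← ek'] at hd
  rw [← ek, Ne, vf_eq_zero_iff] at n0
  rw [← ek', Ne, vf_eq_zero_iff] at n0'
  obtain ⟨z, hz, h1, h2, -, -, h5⟩ :=
    exists_proj_span {η : L | ∃ a ∈ cmt π, ∃ c, η = a (π c (k ξ))}
  have zc : z ∈ cmt π := mem_cmt.2 fun d => h5 _ (by
      rintro _ ⟨a, ha, c, rfl⟩
      exact h1 _ ⟨a, ha, d * c, by rw [disja_mul_apply, disja_comm ha d]⟩) (by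
      rintro _ ⟨a, ha, c, rfl⟩
      rw [← map_star]
      exact h1 _ ⟨a, ha, star d * c, by rw [disja_mul_apply, disja_comm ha (star d)]⟩)
  have zz : ∀ x ∈ cmt π, ∀ γ, x (z γ) = z (x γ) := fun x hx γ =>
    congrArg (fun T : L →L[ℂ] L => T γ) (h5 x (by
      rintro _ ⟨a, ha, c, rfl⟩
      exact h1 _ ⟨x * a, mul_mem hx ha, c, rfl⟩) (by
      rintro _ ⟨a, ha, c, rfl⟩
      exact h1 _ ⟨star x * a, mul_mem (star_mem hx) ha, c, rfl⟩))
  have zc' : 1 - z ∈ cmt π := sub_mem (one_mem _) zc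
  refine ⟨vf π (z ξ), vf π ((1 - z) ξ), isPos_vf _ _, isPos_vf _ _, ?_, ?_, ?_, ?_⟩
  · rw [Ne, vf_eq_zero_iff]
    intro h0
    apply n0
    rw [← h1 (k ξ) ⟨1, one_mem _, 1, by rw [disja_one]; rfl⟩, ← zz k hk, h0, map_zero]
  · rw [Ne, vf_eq_zero_iff]
    intro h0
    apply n0'
    have h3 : ξ = z ξ := sub_eq_zero.1 h0
    rw [h3, zz k' hk']
    refine h2 _ ?_
    rintro _ ⟨a, ha, c, rfl⟩
    rw [← inner_conj_symm, hd.inner_eq_zero (intw_iff_mem.2 ha), map_zero]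
  · rw [← e]
    ext c
    rw [add_apply, vf_cmt π zc, vf_cmt π zc', hz.isSelfAdjoint.star_eq, hz.isIdempotentElem.eq,
      hz.one_sub.isSelfAdjoint.star_eq, hz.one_sub.isIdempotentElem.eq, ← inner_add_right,
      ← map_add, ← add_apply, add_sub_cancel]
    rfl
  · refine disj_of_intw fun T _ hT b => ?_
    rw [← disja_comm zc, zz T (intw_iff_mem.1 hT), ← inner_star_left, hz.isSelfAdjoint.star_eq]
    have : z ((1 - z) ξ) = 0 := congrArg (fun T : L →L[ℂ] L => T ξ) hz.mul_one_sub_self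
    rw [this, inner_zero_left]

theorem disja_norm (x : H →L[ℂ] H) : ‖(((‖x‖ + 1)⁻¹ : ℝ) : ℂ) • x‖ ≤ 1 := by
  have hp : 0 < ‖x‖ + 1 := by positivity
  rw [norm_smul, Complex.norm_real, Real.norm_of_nonneg (by positivity), inv_mul_le_iff₀ hp]
  linarith

theorem disja_ne (x : H →L[ℂ] H) : (((‖x‖ + 1)⁻¹ : ℝ) : ℂ) ≠ 0 :=
  Complex.ofReal_ne_zero.2 (by positivity)

theorem Fac.isFactor {π : C →⋆ₐ[ℂ] (H →L[ℂ] H)} {ξ : H} (hξ : CycR π ξ) (h : Fac (vf π ξ)) :
    IsFactor (cmt π) := by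
  intro x hx y hy hxy
  have hx' := vn_smul_mem (((‖star x‖ + 1)⁻¹ : ℝ) : ℂ) (star_mem hx)
  have hy' := vn_smul_mem (((‖y‖ + 1)⁻¹ : ℝ) : ℂ) hy
  rcases h.2 _ _ (isPos_vf _ _) (vf_le π hy' (disja_norm y) ξ) (isPos_vf _ _)
    (vf_le π hx' (disja_norm (star x)) ξ) (disj_of_intw fun T _ hT b => by
      have h0 : x (T (y ξ)) = 0 :=
        congrArg (fun S : H →L[ℂ] H => S ξ) (hxy T (intw_iff_mem.1 hT))
      rw [smul_apply, smul_apply, map_smul, map_smul, inner_smul_left, inner_smul_right,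
        inner_star_left, hT, disja_comm hx, h0, map_zero, inner_zero_right, mul_zero,
        mul_zero]) with h0 | h0
  · right
    rw [vf_eq_zero_iff] at h0
    exact (smul_eq_zero.1 (sepg_cmt hξ _ hy' h0)).resolve_left (disja_ne y)
  · left
    rw [vf_eq_zero_iff] at h0
    exact star_eq_zero.1 ((smul_eq_zero.1 (sepg_cmt hξ _ hx' h0)).resolve_left (disja_ne _))

theorem disja_le_sum {κ : Type} [Fintype κ] {θ : κ → (C →L[ℂ] ℂ)} (hθ : ∀ l, IsPos (θ l)) (l : κ) :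
    IsPos (∑ l, θ l - θ l) := by
  classical
  rw [← Finset.add_sum_erase _ _ (Finset.mem_univ l), add_sub_cancel_left]
  exact IsPos.sum _ fun i _ => hθ i

theorem disj_decomp {κ : Type} [Fintype κ] (θ : κ → (C →L[ℂ] ℂ)) (hθ : ∀ l, IsPos (θ l))
    (hd : Pairwise fun l m => Disj (θ l) (θ m)) {ψ : C →L[ℂ] ℂ} (hψ : IsPos ψ)
    (hle : IsPos (∑ l, θ l - ψ)) :
    ∃ ψ' : κ → (C →L[ℂ] ℂ), (∀ l, IsPos (ψ' l) ∧ IsPos (θ l - ψ' l)) ∧ ∑ l, ψ' l = ψ := by
  obtain ⟨L, _, _, _, π, ξ, e, hc⟩ := exists_gns (IsPos.sum Finset.univ fun i _ => hθ i)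
  have ex := fun l => exists_rn π ξ (hθ l) (by rw [e]; exact disja_le_sum hθ l)
  choose k hk k0 _ ek ik _ using ex
  obtain ⟨r, hr, r0, r1, er, -, -⟩ := exists_rn π ξ hψ (by rw [e]; exact hle)
  have hs := sepg_cmt hc
  have ksa : ∀ l, star (k l) = k l := fun l => (IsSelfAdjoint.of_nonneg (k0 l)).star_eq
  have hz : ∀ l, k l * k l ∈ cmt π := fun l => mul_mem (hk l) (hk l)
  have sum1 : ∑ l, k l * k l = 1 := hs.eq (sum_mem fun l _ => hz l) (one_mem _)
    (hc.eq_of_inner fun c => by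
      have h1 := congrArg (fun g : C →L[ℂ] ℂ => g (star c)) e
      simp only [sum_apply, vf_apply, ik, disja_inner] at h1
      rw [sum_apply, inner_sum]
      exact h1.symm)
  have orth : ∀ T ∈ cmt π, ∀ l m, l ≠ m → k m * T * k l = 0 := fun T hT l m hlm =>
    hs _ (mul_mem (mul_mem (hk m) hT) (hk l)) (hc.eq_of_inner fun c => by
      have h1 := hd hlm
      simp only at h1
      rw [← ek l, ← ek m] at h1
      have h2 := h1.inner_eq_zero (intw_iff_mem.2 hT) (star c)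
      rw [disja_comm hT, ← inner_star_left (π (star c)), ← map_star, star_star,
        ← disja_comm (hk m), ← inner_star_right, ksa] at h2
      rw [inner_zero_right]
      exact h2)
  have cent : ∀ T ∈ cmt π, ∀ l, T * (k l * k l) = k l * k l * T * (k l * k l) ∧
      k l * k l * T = k l * k l * T * (k l * k l) := fun T hT l => by
    constructor
    · calc T * (k l * k l) = (∑ m, k m * k m) * T * (k l * k l) := by rw [sum1, one_mul]
        _ = ∑ m, k m * (k m * T * k l) * k l := by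
          rw [Finset.sum_mul, Finset.sum_mul]
          exact Finset.sum_congr rfl fun m _ => by simp only [mul_assoc]
        _ = k l * (k l * T * k l) * k l := Finset.sum_eq_single l
          (fun m _ hm => by rw [orth T hT l m hm.symm, mul_zero, zero_mul])
          (fun h => absurd (Finset.mem_univ l) h)
        _ = _ := by simp only [mul_assoc]
    · calc k l * k l * T = k l * k l * T * (∑ m, k m * k m) := by rw [sum1, mul_one]
        _ = ∑ m, k l * (k l * T * k m) * k m := by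
          rw [Finset.mul_sum]
          exact Finset.sum_congr rfl fun m _ => by simp only [mul_assoc]
        _ = k l * (k l * T * k l) * k l := Finset.sum_eq_single l
          (fun m _ hm => by rw [orth T hT m l hm, mul_zero, zero_mul])
          (fun h => absurd (Finset.mem_univ l) h)
        _ = _ := by simp only [mul_assoc]
  have zp : ∀ l, IsStarProjection (k l * k l) := fun l => by
    refine ⟨?_, ?_⟩
    · have := (cent 1 (one_mem _) l).1
      rw [one_mul, mul_one] at this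
      exact this.symm
    · rw [IsSelfAdjoint, star_mul, ksa]
  refine ⟨fun l => vf π ((k l * k l) (r ξ)), fun l => ⟨isPos_vf _ _, ?_⟩, ?_⟩
  · have e1 : θ l = vf π ((k l * k l) ξ) := by
      ext c
      rw [vf_cmt π (hz l), (zp l).isSelfAdjoint.star_eq, (zp l).isIdempotentElem.eq, ik]
    have e2 : (k l * k l) (r ξ) = r ((k l * k l) ξ) :=
      congrArg (fun T : L →L[ℂ] L => T ξ) ((cent r hr l).2.trans (cent r hr l).1.symm)
    simp only
    rw [e1, e2]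
    exact vf_le π hr (norm_le_one_of_le_one r0 r1) _
  · rw [vf_part π (fun l => ⟨hz l, zp l⟩) sum1, er]

theorem disja_fac_zero : Fac (0 : C →L[ℂ] ℂ) := by
  refine ⟨isPos_zero, fun τ τ' p hle _ _ _ => Or.inl (p.eq_zero ?_)⟩
  have := hle.one_nonneg
  simpa using this

/-- `θ₀` is a sum of `n` nonzero pairwise disjoint positive functionals -/
def disja_P (θ₀ : C →L[ℂ] ℂ) (n : ℕ) : Prop :=
  ∃ θ : Fin n → (C →L[ℂ] ℂ), (∀ j, IsPos (θ j) ∧ θ j ≠ 0) ∧
    (Pairwise fun j k => Disj (θ j) (θ k)) ∧ ∑ j, θ j = θ₀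

theorem disja_step {n : ℕ} {θ : Fin n → (C →L[ℂ] ℂ)} (h1 : ∀ j, IsPos (θ j) ∧ θ j ≠ 0)
    (h2 : Pairwise fun j k => Disj (θ j) (θ k)) {j : Fin n} (hj : ¬ Fac (θ j)) :
    disja_P (∑ j, θ j) (n + 1) := by
  obtain ⟨α, α', p, p', n0, n0', e, hd⟩ := exists_split (h1 j).1 hj
  have q1 : ∀ i, IsPos (Function.update θ j α i) ∧ Function.update θ j α i ≠ 0 ∧
      IsPos (θ i - Function.update θ j α i) := fun i => by
    by_cases hi : i = j
    · subst hi
      rw [Function.update_self, e, add_sub_cancel_left]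
      exact ⟨p, n0, p'⟩
    · rw [Function.update_of_ne hi]
      exact ⟨(h1 i).1, (h1 i).2, isPos_sub_self _⟩
  have q2 : ∀ i, Disj α' (Function.update θ j α i) := fun i => by
    by_cases hi : i = j
    · subst hi
      rw [Function.update_self]
      exact hd.symm
    · refine Disj.mono (h2 (Ne.symm hi)) p' (q1 i).1 ?_ (q1 i).2.2
      rw [e, add_sub_cancel_right]
      exact p
  refine ⟨Fin.cons α' (Function.update θ j α), fun i => ?_, fun i i' hne => ?_, ?_⟩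
  · refine Fin.cases ?_ (fun i => ?_) i
    · exact ⟨p', n0'⟩
    · exact ⟨(q1 i).1, (q1 i).2.1⟩
  · induction i using Fin.cases with
    | zero =>
      induction i' using Fin.cases with
      | zero => exact absurd rfl hne
      | succ i' => exact q2 i'
    | succ i =>
      induction i' using Fin.cases with
      | zero => exact (q2 i).symm
      | succ i' =>
        exact Disj.mono (h2 fun h => hne (congrArg Fin.succ h)) (q1 i).1 (q1 i').1 (q1 i).2.2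
          (q1 i').2.2
  · rw [Fin.sum_cons, Finset.sum_update_of_mem (Finset.mem_univ j),
      ← Finset.add_sum_erase _ _ (Finset.mem_univ j), e, Finset.sdiff_singleton_eq_erase]
    abel

theorem exists_fac_piece {ι : A →⋆ₐ[ℂ] B} {ρ : A →L[ℂ] ℂ} {m : ℕ} (hm : Bd ι ρ m)
    {θ₀ : B →L[ℂ] ℂ} (h₀ : IsPos θ₀) (hle : IsPos (ρ - res ι θ₀)) :
    ∃ θ₁ : B →L[ℂ] ℂ, Fac θ₁ ∧ IsPos (θ₀ - θ₁) ∧ (θ₀ 1).re ≤ m * (θ₁ 1).re := by
  classical
  by_cases hz : θ₀ = 0
  · subst hz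
    exact ⟨0, disja_fac_zero, isPos_sub_self _, by simp⟩
  have bd : ∀ n, disja_P θ₀ n → n ≤ m := fun n ⟨θ, h1, h2, e⟩ => by
    by_contra hn
    have hn' : m + 1 ≤ n := by omega
    refine hm (fun j => θ (Fin.castLE hn' j)) (fun j => ⟨(h1 _).1, (h1 _).2, hle.trans ?_⟩)
      fun j k hjk => h2 fun h => hjk (Fin.castLE_injective hn' h)
    rw [← res_sub, ← e]
    exact (disja_le_sum (fun l => (h1 l).1) _).res ι
  have one : disja_P θ₀ 1 := ⟨fun _ => θ₀, fun _ => ⟨h₀, hz⟩,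
    fun j k hjk => absurd (Subsingleton.elim j k) hjk, by simp⟩
  have hm1 := bd 1 one
  have hP := Nat.findGreatest_spec hm1 one
  have hge : 1 ≤ Nat.findGreatest (disja_P θ₀) m := Nat.le_findGreatest hm1 one
  have hmax : ¬ disja_P θ₀ (Nat.findGreatest (disja_P θ₀) m + 1) := fun h =>
    Nat.findGreatest_is_greatest (Nat.lt_succ_self _) (bd _ h) h
  have hnm := bd _ hP
  generalize Nat.findGreatest (disja_P θ₀) m = n at hP hge hmax hnm
  obtain ⟨θ, h1, h2, e⟩ := hP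
  have : Nonempty (Fin n) := ⟨⟨0, hge⟩⟩
  obtain ⟨j, hj⟩ := Finite.exists_max fun i => (θ i 1).re
  refine ⟨θ j, ?_, ?_, ?_⟩
  · by_contra hf
    exact hmax (e ▸ disja_step h1 h2 hf)
  · rw [← e]
    exact disja_le_sum (fun l => (h1 l).1) j
  · rw [← e, sum_apply, Complex.re_sum]
    refine (Finset.sum_le_card_nsmul _ _ _ fun i _ => hj i).trans ?_
    rw [Finset.card_univ, Fintype.card_fin, nsmul_eq_mul]
    exact mul_le_mul_of_nonneg_right (Nat.cast_le.2 hnm) (h1 j).1.one_nonneg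

end Pool.Agent.P.MP_5d580a_an
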