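import Pool.Agent.P.MP_5d580a_an.DisjA

open scoped ComplexOrder InnerProductSpace ComplexConjugate BoundedContinuousFunction
open MeasureTheory Filter Topology

set_option linter.unusedSectionVars false
set_option linter.unusedVariables false

noncomputable section

namespace Pool.Agent.P.MP_5d580a_an

variable {H : Type} [NormedAddCommGroup H] [InnerProductSpace ℂ H] [CompleteSpace H]

variable {C : Type} [CStarAlgebra C]
variable {K : Type} [NormedAddCommGroup K] [InnerProductSpace ℂ K] [CompleteSpace K]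

theorem disjC_adj_zero {T : H →L[ℂ] K} (h : ContinuousLinearMap.adjoint T = 0) : T = 0 := by
  rw [← ContinuousLinearMap.adjoint_adjoint T, h, map_zero]

theorem disjC_comp_zero {T : H →L[ℂ] K} (h : (ContinuousLinearMap.adjoint T).comp T = 0) :
    T = 0 := by
  have := ContinuousLinearMap.norm_adjoint_comp_self T
  rw [h, norm_zero] at this
  exact norm_eq_zero.1 (mul_self_eq_zero.1 this.symm)

theorem disjC_faith {π : C →⋆ₐ[ℂ] (H →L[ℂ] H)} {π₀ : C →⋆ₐ[ℂ] (K →L[ℂ] K)} {ξ : H}
    (hξ : CycR π ξ) (W : ℕ → (H →L[ℂ] K)) (hW : ∀ n, Intw π π₀ (W n))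
    (hle : ∀ N, IsPos (vf π ξ - ∑ n ∈ Finset.range N, vf π₀ (W n ξ)))
    (hl : Tendsto (fun N => ∑ n ∈ Finset.range N, vf π₀ (W n ξ)) atTop (𝓝 (vf π ξ)))
    {v : H} (hv : ∀ n, W n v = 0) : v = 0 := by
  have e : ∀ N c, ∑ n ∈ Finset.range N, ‖W n (π c ξ)‖ ^ 2
      = ((∑ n ∈ Finset.range N, vf π₀ (W n ξ)) (star c * c)).re := fun N c => by
    rw [_root_.sum_apply, Complex.re_sum]
    exact Finset.sum_congr rfl fun n _ => by rw [vf_star_mul_self, hW n]
  have h1 : ∀ N w, ∑ n ∈ Finset.range N, ‖W n w‖ ^ 2 ≤ ‖w‖ ^ 2 := fun N w => by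
    refine hξ.induction_on w (isClosed_le (by fun_prop) (by fun_prop)) fun c => ?_
    rw [e, ← vf_star_mul_self]
    exact (hle N).re_star_mul_le c
  have h2 : ∀ w, ‖w‖ ^ 2 ≤ ‖w - v‖ ^ 2 := fun w => by
    refine hξ.induction_on w (isClosed_le (by fun_prop) (by fun_prop)) fun c => ?_
    have h3 : Tendsto (fun N => ((∑ n ∈ Finset.range N, vf π₀ (W n ξ)) (star c * c)).re) atTop
        (𝓝 (vf π ξ (star c * c)).re) :=
      (Complex.continuous_re.tendsto _).comp
        (((ContinuousLinearMap.apply ℂ ℂ (star c * c)).continuous.tendsto _).comp hl)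
    rw [← vf_star_mul_self]
    refine le_of_tendsto' h3 fun N => ?_
    rw [← e]
    refine le_trans (le_of_eq ?_) (h1 N (π c ξ - v))
    exact Finset.sum_congr rfl fun n _ => by rw [map_sub, hv, sub_zero]
  have h3 := h2 v
  rw [sub_self, norm_zero] at h3
  exact norm_eq_zero.1 (pow_eq_zero_iff two_ne_zero |>.1 (le_antisymm (by simpa using h3)
    (sq_nonneg _)))

/-- a small perturbation whose GNS vector is cyclic for the commutant -/
theorem faithfulise [TopologicalSpace.SeparableSpace C] {σ : C →L[ℂ] ℂ} (hσ : Fac σ) {κ : ℝ}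
    (hκ : 0 < κ) :
    ∃ (L : Type) (_ : NormedAddCommGroup L) (_ : InnerProductSpace ℂ L) (_ : CompleteSpace L)
      (π : C →⋆ₐ[ℂ] (L →L[ℂ] L)) (ξ : L), CycR π ξ ∧ IsPos (vf π ξ - σ) ∧
        ‖ξ‖ ^ 2 ≤ (σ 1).re + κ ∧ IsFactor (cmt π) ∧ Cyc (cmt π) ξ := by
  obtain ⟨L₀, _, _, _, π₀, η₀, e₀, c₀⟩ := exists_gns hσ.1
  have hF : IsFactor (cmt π₀) := Fac.isFactor c₀ (e₀ ▸ hσ)
  have := c₀.separable
  let d : ℕ → L₀ := TopologicalSpace.denseSeq L₀
  have hd : DenseRange d := TopologicalSpace.denseRange_denseSeq L₀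
  have hc : ∀ n : ℕ, ∃ c : ℝ, 0 < c ∧ ‖(c : ℂ) • d n‖ ^ 2 ≤ κ / 2 / 2 ^ n := fun n => by
    have h1 : 0 < κ / 2 / 2 ^ n := by positivity
    have h2 : 0 < ‖d n‖ + 1 := by positivity
    refine ⟨√(κ / 2 / 2 ^ n) / (‖d n‖ + 1), by positivity, ?_⟩
    rw [norm_smul, Complex.norm_real, Real.norm_of_nonneg (by positivity), mul_pow, div_pow,
      Real.sq_sqrt h1.le, div_mul_eq_mul_div, div_le_iff₀ (by positivity)]
    gcongr
    linarith
  choose c hc0 hc1 using hc
  let g : ℕ → L₀ := fun n => Nat.rec η₀ (fun m _ => (c m : ℂ) • d m) n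
  let θ : ℕ → (C →L[ℂ] ℂ) := fun N => ∑ n ∈ Finset.range N, vf π₀ (g n)
  have hθ : ∀ N, IsPos (θ N) := fun N => IsPos.sum _ fun n _ => isPos_vf _ _
  have hθs : ∀ N, θ (N + 1) = θ N + vf π₀ (g N) := fun N => Finset.sum_range_succ _ _
  have hθ1 : ∀ N, (θ (N + 1) 1).re ≤ (σ 1).re + κ := fun N => by
    have e : (θ (N + 1) 1).re = ∑ n ∈ Finset.range N, ‖(c n : ℂ) • d n‖ ^ 2 + (σ 1).re := by
      simp only [θ]
      rw [Finset.sum_range_succ', _root_.add_apply, Complex.add_re, _root_.sum_apply,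
        Complex.re_sum, ← e₀]
      congr 1
      exact Finset.sum_congr rfl fun n _ => vf_one _ _
    have h1 := Finset.sum_le_sum fun n (_ : n ∈ Finset.range N) => hc1 n
    have h2 : ∑ n ∈ Finset.range N, κ / 2 / 2 ^ n ≤ κ :=
      sum_le_hasSum _ (fun n _ => by positivity) (hasSum_geometric_two' κ)
    linarith
  have hθ1' : ∀ N, (θ N 1).re ≤ (σ 1).re + κ := fun N => by
    refine le_trans ?_ (hθ1 N)
    rw [hθs, _root_.add_apply, Complex.add_re]
    exact le_add_of_nonneg_right (isPos_vf _ _).one_nonneg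
  obtain ⟨ω, hω, hωle, hωl⟩ := exists_mono_lim_pos θ hθ
    (fun N => by rw [hθs, add_sub_cancel_left]; exact isPos_vf _ _) _ hθ1'
  obtain ⟨L, _, _, _, π, ξ, e, hξ⟩ := exists_gns hω
  have hg : ∀ n, IsPos (vf π ξ - vf π₀ (g n)) := fun n => by
    have := (hωle (n + 1)).add (hθ n)
    rwa [hθs, ← e, sub_add_eq_sub_sub_swap, sub_add_cancel] at this
  choose W hWn hW hWξ using fun n => exists_intw π ξ π₀ (g n) (hg n)
  have faith : ∀ v, (∀ n, W n v = 0) → v = 0 := fun v hv =>
    disjC_faith hξ W hW (fun N => by simpa only [hWξ, e] using hωle N)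
      (by simpa only [hWξ, e] using hωl) hv
  have faith' : ∀ x : L →L[ℂ] L, (∀ n, (W n).comp x = 0) → x = 0 := fun x hx => by
    ext v
    exact faith _ fun n => DFunLike.congr_fun (hx n) v
  have faith'' : ∀ x : L →L[ℂ] L, (∀ n, x.comp (ContinuousLinearMap.adjoint (W n)) = 0) →
      x = 0 := fun x hx => by
    refine disjC_adj_zero (faith' _ fun n => disjC_adj_zero ?_)
    rw [ContinuousLinearMap.adjoint_comp, ContinuousLinearMap.adjoint_adjoint, hx]
  refine ⟨L, inferInstance, inferInstance, inferInstance, π, ξ, hξ, ?_, ?_, ?_, ?_⟩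
  · rw [← e₀]; exact hg 0
  · rw [← vf_one π, e]
    exact le_of_tendsto' ((Complex.continuous_re.tendsto _).comp
      (((ContinuousLinearMap.apply ℂ ℂ (1 : C)).continuous.tendsto _).comp hωl)) hθ1'
  · intro x hx y hy hxy
    by_contra hcon
    push Not at hcon
    obtain ⟨n, hn⟩ := not_forall.1 fun h => hcon.1 (faith'' x h)
    obtain ⟨m, hm⟩ := not_forall.1 fun h => hcon.2 (faith' y h)
    have iX : Intw π₀ π (x.comp (ContinuousLinearMap.adjoint (W n))) :=
      (intw_iff_mem.2 hx).comp (hW n).adjoint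
    have iY : Intw π π₀ ((W m).comp y) := (hW m).comp (intw_iff_mem.2 hy)
    rcases hF _ (intw_iff_mem.1 (iX.adjoint.comp iX)) _ (intw_iff_mem.1 (iY.comp iY.adjoint))
      (fun a ha => by
        have h1 := hxy _ (intw_iff_mem.1
          ((hW n).adjoint.comp ((intw_iff_mem.2 ha).comp (hW m))))
        ext v
        have h2 := DFunLike.congr_fun h1 (ContinuousLinearMap.adjoint ((W m).comp y) v)
        change x (ContinuousLinearMap.adjoint (W n) (a (W m (y _)))) = 0 at h2
        change ContinuousLinearMap.adjoint (x.comp (ContinuousLinearMap.adjoint (W n)))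
          (x (ContinuousLinearMap.adjoint (W n) (a (W m (y
            (ContinuousLinearMap.adjoint ((W m).comp y) v)))))) = 0
        rw [h2, map_zero]) with h | h
    · exact hn (disjC_comp_zero h)
    · refine hm (disjC_adj_zero (disjC_comp_zero ?_))
      rwa [ContinuousLinearMap.adjoint_adjoint]
  · rw [← VonNeumannAlgebra.commutant_commutant (cmt π)]
    refine cyc_of_sepg fun y hy hy0 => faith'' y fun n => ?_
    have h1 : ∀ m, y (ContinuousLinearMap.adjoint (W n) (d m)) = 0 := fun m => by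
      have h2 := commute_apply (intw_iff_mem.1 ((hW n).adjoint.comp (hW (m + 1)))) hy ξ
      rw [hy0, map_zero, ContinuousLinearMap.comp_apply, hWξ] at h2
      change 0 = y (ContinuousLinearMap.adjoint (W n) ((c m : ℂ) • d m)) at h2
      rw [map_smul, map_smul] at h2
      exact (smul_eq_zero.1 h2.symm).resolve_left (by exact_mod_cast (hc0 m).ne')
    ext w
    exact hd.induction_on w (isClosed_eq (by fun_prop) continuous_const) h1

theorem disjC_add {π : C →⋆ₐ[ℂ] (H →L[ℂ] H)} {w : H →L[ℂ] H} (hw : w ∈ cmt π)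
    (h1 : star w * w = 1) {α : H} (hα : (star w) α = 0) (β : H) :
    vf π (α + w β) = vf π α + vf π β := by
  ext c
  have e1 : ∀ γ, π c (w γ) = w (π c γ) := fun γ => DFunLike.congr_fun (mem_cmt.1 hw c) γ
  have e2 : ∀ γ, (star w) (π c γ) = π c ((star w) γ) := fun γ =>
    (DFunLike.congr_fun (mem_cmt.1 (star_mem hw) c) γ).symm
  have e3 : ∀ γ, (star w) (w γ) = γ := fun γ => DFunLike.congr_fun h1 γ
  rw [_root_.add_apply, vf_apply, vf_apply, vf_apply, map_add, inner_add_left, inner_add_right,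
    inner_add_right, e1, ← inner_star_left w α, hα, ← inner_star_right w β,
    ← inner_star_right w β, e2 α, hα, e3]
  simp

theorem disjC_lim {π : C →⋆ₐ[ℂ] (H →L[ℂ] H)} {u v : H →L[ℂ] H}
    (hu : u ∈ cmt π) (hv : v ∈ cmt π) (hu1 : star u * u = 1) (hv1 : star v * v = 1)
    (huv : star u * v = 0) (δ : ℕ → H) {τ : C →L[ℂ] ℂ}
    (hle : ∀ N, IsPos (τ - ∑ n ∈ Finset.range N, vf π (δ n)))
    (hl : Tendsto (fun N => ∑ n ∈ Finset.range N, vf π (δ n)) atTop (𝓝 τ)) :
    ∃ ξ', vf π ξ' = τ := by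
  let s : ℕ → H := fun N => ∑ n ∈ Finset.range N, (u ^ n) (v (δ n))
  have hs : ∀ N, s (N + 1) = s N + (u ^ N) (v (δ N)) := fun N => Finset.sum_range_succ _ _
  have hp : ∀ N, star (u ^ N) * u ^ N = 1 := fun N => by
    induction N with
    | zero => simp
    | succ N ih => rw [pow_succ, star_mul, mul_assoc, ← mul_assoc (star (u ^ N)), ih, one_mul, hu1]
  have h0 : ∀ N, (star (u ^ N)) (s N) = 0 := fun N => by
    induction N with
    | zero => simp [s]
    | succ N ih =>
      have e1 : (star (u ^ N)) ((u ^ N) (v (δ N))) = v (δ N) := DFunLike.congr_fun (hp N) _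
      have e2 : (star u) (v (δ N)) = 0 := DFunLike.congr_fun huv _
      rw [pow_succ, star_mul, hs]
      change (star u) ((star (u ^ N)) _) = 0
      rw [map_add, ih, e1, zero_add, e2]
  have h1 : ∀ N, vf π (s N) = ∑ n ∈ Finset.range N, vf π (δ n) := fun N => by
    induction N with
    | zero => simpa [s] using (vf_eq_zero_iff π (0 : H)).2 rfl
    | succ N ih =>
      have e1 := disjC_add hv hv1 (map_zero _) (δ N)
      rw [zero_add, (vf_eq_zero_iff π (0 : H)).2 rfl, zero_add] at e1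
      rw [hs, disjC_add (pow_mem hu N) (hp N) (h0 N), ih, Finset.sum_range_succ, e1]
  have h2 : ∀ N k, ⟪s N, s (N + k) - s N⟫_ℂ = 0 := fun N k => by
    induction k with
    | zero => simp
    | succ k ih =>
      rw [← add_assoc, hs, add_sub_right_comm, inner_add_right, ih, zero_add,
        ← inner_star_left, pow_add, star_mul]
      change ⟪(star (u ^ k)) ((star (u ^ N)) _), _⟫_ℂ = 0
      rw [h0, map_zero, inner_zero_left]
  have h3 : ∀ N, ‖s N‖ ^ 2 ≤ (τ 1).re := fun N => by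
    have := (hle N).one_nonneg
    rw [← h1, _root_.sub_apply, Complex.sub_re, vf_one] at this
    linarith
  have h4 : Tendsto (fun N => ‖s N‖ ^ 2) atTop (𝓝 (τ 1).re) := by
    have := (Complex.continuous_re.tendsto _).comp
      (((ContinuousLinearMap.apply ℂ ℂ (1 : C)).continuous.tendsto _).comp hl)
    refine this.congr fun N => ?_
    change ((∑ n ∈ Finset.range N, vf π (δ n)) 1).re = _
    rw [← h1, vf_one]
  have h5 : CauchySeq s := by
    refine Metric.cauchySeq_iff'.2 fun ε hε => ?_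
    obtain ⟨N, hN⟩ := (h4.eventually (lt_mem_nhds (sub_lt_self (τ 1).re (pow_pos hε 2)))).exists
    refine ⟨N, fun n hn => ?_⟩
    obtain ⟨k, rfl⟩ := Nat.exists_eq_add_of_le hn
    have h6 := norm_add_sq_eq_norm_sq_add_norm_sq_of_inner_eq_zero _ _ (h2 N k)
    rw [add_sub_cancel] at h6
    have h7 := h3 (N + k)
    rw [dist_eq_norm]
    refine lt_of_pow_lt_pow_left₀ 2 hε.le ?_
    nlinarith
  obtain ⟨ξ', hξ'⟩ := cauchySeq_tendsto_of_complete h5
  refine ⟨ξ', tendsto_nhds_unique ?_ hl⟩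
  simp only [← h1]
  rw [tendsto_iff_norm_sub_tendsto_zero]
  have h6 : Tendsto (fun N => (‖s N‖ + ‖ξ'‖) * ‖s N - ξ'‖) atTop (𝓝 ((‖ξ'‖ + ‖ξ'‖) * 0)) :=
    (hξ'.norm.add tendsto_const_nhds).mul (tendsto_iff_norm_sub_tendsto_zero.1 hξ')
  rw [mul_zero] at h6
  exact squeeze_zero (fun _ => norm_nonneg _) (fun N => norm_vf_sub_le π _ _) h6

/-- transport of vector functionals into a properly infinite representation -/
theorem tgen {π₁ : C →⋆ₐ[ℂ] (K →L[ℂ] K)} (hF : IsFactor (cmt π₁)) {π : C →⋆ₐ[ℂ] (H →L[ℂ] H)}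
    {ζ : K} (h0 : ζ ≠ 0) {ξ : H} (hle : IsPos (vf π ξ - vf π₁ ζ)) {u v : H →L[ℂ] H}
    (hu : u ∈ cmt π) (hv : v ∈ cmt π) (hu1 : star u * u = 1) (hv1 : star v * v = 1)
    (huv : star u * v = 0) (η : K) : ∃ ξ' : H, vf π ξ' = vf π₁ η := by
  obtain ⟨W, -, hW, hWξ⟩ := exists_intw π ξ π₁ ζ hle
  have hW0 : ContinuousLinearMap.adjoint W ≠ 0 := fun h => h0 (by
    rw [← hWξ, disjC_adj_zero h]; rfl)
  have z0 : vf π (0 : H) = 0 := (vf_eq_zero_iff π (0 : H)).2 rfl
  obtain ⟨⟨α, hα⟩, -, hmax⟩ := brezis_browder (S := {α : H // IsPos (vf π₁ η - vf π α)})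
    (fun s t => IsPos (vf π t.1 - vf π s.1)) (fun s => isPos_sub_self _)
    (fun s t r h h' => h'.trans h) (fun s => ‖s.1‖ ^ 2)
    (fun s t h => by
      have := h.one_nonneg
      rw [_root_.sub_apply, Complex.sub_re, vf_one, vf_one] at this
      linarith) (‖η‖ ^ 2)
    (fun s => by
      have := s.2.one_nonneg
      rw [_root_.sub_apply, Complex.sub_re, vf_one, vf_one] at this
      linarith)
    (fun s hs => by
      have hb : ∀ n, (vf π (s n).1 1).re ≤ ‖η‖ ^ 2 := fun n => by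
        have := (s n).2.one_nonneg
        rw [_root_.sub_apply, Complex.sub_re, vf_one π₁] at this
        linarith
      obtain ⟨τ, hτ, hτle, hτl⟩ := exists_mono_lim_pos (fun n => vf π (s n).1)
        (fun n => isPos_vf _ _) hs _ hb
      have hinc : ∀ n, ∃ δ, vf π δ = vf π (s (n + 1)).1 - vf π (s n).1 := fun n => by
        obtain ⟨k, -, -, -, e, -⟩ := exists_rn π (s (n + 1)).1 (hs n)
          (by rw [sub_sub_cancel]; exact isPos_vf _ _)
        exact ⟨_, e⟩
      choose δ hδ using hinc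
      let δ' : ℕ → H := fun n => Nat.rec (s 0).1 (fun m _ => δ m) n
      have hsum : ∀ N, ∑ n ∈ Finset.range (N + 1), vf π (δ' n) = vf π (s N).1 := fun N => by
        induction N with
        | zero => simp [δ']
        | succ N ih =>
          rw [Finset.sum_range_succ, ih]
          change _ + vf π (δ N) = _
          rw [hδ, add_sub_cancel]
      obtain ⟨ξ', hξ'⟩ := disjC_lim hu hv hu1 hv1 huv δ' (τ := τ)
        (fun N => by
          rcases N with _ | N
          · simpa using hτ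
          · rw [hsum]; exact hτle N)
        (by
          rw [← tendsto_add_atTop_iff_nat 1]
          simpa only [hsum] using hτl)
      refine ⟨⟨ξ', ?_⟩, fun n => ?_⟩
      · rw [hξ']
        exact IsPos.of_tendsto (tendsto_const_nhds.sub hτl) (Eventually.of_forall fun n => (s n).2)
      · change IsPos (vf π ξ' - _)
        rw [hξ']; exact hτle n)
    ⟨0, by rw [z0, sub_zero]; exact isPos_vf _ _⟩
  obtain ⟨k, -, -, -, e, -⟩ := exists_rn π₁ η hα (by rw [sub_sub_cancel]; exact isPos_vf _ _)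
  by_cases hk : k η = 0
  · rw [hk, (vf_eq_zero_iff π₁ (0 : K)).2 rfl] at e
    exact ⟨α, (sub_eq_zero.1 e.symm).symm⟩
  obtain ⟨Y, hY1, hY, hY0⟩ := exists_common hF hW.adjoint hW0 hk
  have hvu : (star v) (u α) = 0 := by
    have : star v * u = 0 := by simpa using congrArg star huv
    exact DFunLike.congr_fun this α
  have e1 := disjC_add hu hu1 (map_zero _) α
  rw [zero_add, z0, zero_add] at e1
  have e2 := disjC_add hv hv1 hvu (Y (k η))
  rw [e1] at e2
  have h1 := hmax ⟨u α + v (Y (k η)), by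
    rw [e2, ← sub_sub, ← e]; exact hY.vf_le hY1 _⟩ (by
    change IsPos (vf π (u α + v (Y (k η))) - vf π α)
    rw [e2, add_sub_cancel_left]; exact isPos_vf _ _)
  change ‖u α + v (Y (k η))‖ ^ 2 ≤ ‖α‖ ^ 2 at h1
  rw [← vf_one π, e2, _root_.add_apply, Complex.add_re, vf_one, vf_one] at h1
  exact absurd (norm_eq_zero.1 (pow_eq_zero_iff two_ne_zero |>.1
    (le_antisymm (by linarith) (sq_nonneg _)))) hY0

end Pool.Agent.P.MP_5d580a_an
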