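import Pool.Agent.P.MP_5d580a_an.Res1

open scoped ComplexOrder InnerProductSpace ComplexConjugate BoundedContinuousFunction
open MeasureTheory Filter Topology

set_option linter.unusedSectionVars false
set_option linter.unusedVariables false

noncomputable section

namespace Pool.Agent.P.MP_5d580a_an

variable {H : Type} [NormedAddCommGroup H] [InnerProductSpace ℂ H] [CompleteSpace H]

variable {M : VonNeumannAlgebra H} {J : H ≃ₗᵢ⋆[ℂ] H} {ζ : H} {E V : SpecCalc ℝ H}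
  {β : ℝ → (H →L[ℂ] H) → (H →L[ℂ] H)}

theorem endg_null_comm (V : SpecCalc ℝ H) {T : H →L[ℂ] H}
    (hT : ∀ f : ℝ → ℂ, BM f → V.Φ f * T = T * V.Φ f) {η : H} {B : Set ℝ} (h : V.μ η B = 0) :
    V.μ (T η) B = 0 := by
  obtain ⟨B', hBB', hm, h0⟩ := exists_measurable_superset_of_null h
  refine measure_mono_null hBB' ((V.Pr_eq_zero_iff hm _).1 ?_)
  have h1 : V.Pr B' η = 0 := (V.Pr_eq_zero_iff hm _).2 h0
  have h2 := congrArg (fun A : H →L[ℂ] H => A η) (hT _ (BM.indicator_one hm))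
  simp only [mul_apply_eq_comp] at h2
  change V.Pr B' (T η) = T (V.Pr B' η) at h2
  rw [h2, h1, map_zero]

theorem endg_Pr_comm (E V : SpecCalc ℝ H)
    (hc : ∀ f g : ℝ → ℂ, BM f → BM g → V.Φ f * E.Φ g = E.Φ g * V.Φ f) {A B : Set ℝ}
    (hA : MeasurableSet A) (hB : MeasurableSet B) (ξ : H) :
    V.Pr B (E.Pr A ξ) = E.Pr A (V.Pr B ξ) :=
  congrArg (fun T : H →L[ℂ] H => T ξ) (hc _ _ (BM.indicator_one hB) (BM.indicator_one hA))

theorem endg_null (E V : SpecCalc ℝ H)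
    (hc : ∀ f g : ℝ → ℂ, BM f → BM g → V.Φ f * E.Φ g = E.Φ g * V.Φ f) (ξ : H) (U : Set ℝ)
    {a' b' : ℝ}
    (h : ∀ l ∈ U, ∀ s : ℝ, a' ≤ s → s ≤ b' → ∃ γ : ℝ, 0 < γ ∧
      E.Pr (Set.Ioo (l - γ) (l + γ)) (V.Pr (Set.Ioo (s - γ) (s + γ)) ξ) = 0) :
    E.μ (V.Pr (Set.Icc a' b') ξ) U = 0 := by
  refine measure_null_of_locally_null U fun l hl => ?_
  have shrink : ∀ (B : Set ℝ) (γ γ' : ℝ), γ' ≤ γ →
      V.μ (E.Pr (Set.Ioo (l - γ) (l + γ)) ξ) B = 0 →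
      V.μ (E.Pr (Set.Ioo (l - γ') (l + γ')) ξ) B = 0 := by
    intro B γ γ' hγ h0
    have e : E.Pr (Set.Ioo (l - γ') (l + γ')) ξ =
        E.Pr (Set.Ioo (l - γ') (l + γ')) (E.Pr (Set.Ioo (l - γ) (l + γ)) ξ) := by
      rw [← mul_apply_eq_comp, E.Pr_mul measurableSet_Ioo measurableSet_Ioo,
        Set.inter_eq_left.2 (Set.Ioo_subset_Ioo (by linarith) (by linarith))]
    rw [e]
    exact endg_null_comm V (fun f hf => hc f _ hf (BM.indicator_one measurableSet_Ioo)) h0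
  have key : ∃ γ : ℝ, 0 < γ ∧ V.μ (E.Pr (Set.Ioo (l - γ) (l + γ)) ξ) (Set.Icc a' b') = 0 := by
    refine (isCompact_Icc (a := a') (b := b')).induction_on
      (p := fun B => ∃ γ : ℝ, 0 < γ ∧ V.μ (E.Pr (Set.Ioo (l - γ) (l + γ)) ξ) B = 0)
      ⟨1, one_pos, measure_empty⟩ ?_ ?_ ?_
    · rintro s t hst ⟨γ, hγ, h0⟩
      exact ⟨γ, hγ, measure_mono_null hst h0⟩
    · rintro s t ⟨γ, hγ, h0⟩ ⟨γ', hγ', h0'⟩
      exact ⟨min γ γ', lt_min hγ hγ', measure_union_null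
        (shrink _ _ _ (min_le_left _ _) h0) (shrink _ _ _ (min_le_right _ _) h0')⟩
    · intro s hs
      obtain ⟨γ, hγ, h0⟩ := h l hl s hs.1 hs.2
      refine ⟨Set.Ioo (s - γ) (s + γ),
        mem_nhdsWithin_of_mem_nhds (Ioo_mem_nhds (by linarith) (by linarith)), γ, hγ, ?_⟩
      rw [← V.Pr_eq_zero_iff measurableSet_Ioo,
        endg_Pr_comm E V hc measurableSet_Ioo measurableSet_Ioo, h0]
  obtain ⟨γ, hγ, h0⟩ := key
  refine ⟨Set.Ioo (l - γ) (l + γ),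
    mem_nhdsWithin_of_mem_nhds (Ioo_mem_nhds (by linarith) (by linarith)), ?_⟩
  rw [← E.Pr_eq_zero_iff measurableSet_Ioo,
    ← endg_Pr_comm E V hc measurableSet_Ioo measurableSet_Icc,
    V.Pr_eq_zero_iff measurableSet_Icc, h0]

theorem endg_null' (E V : SpecCalc ℝ H)
    (hc : ∀ f g : ℝ → ℂ, BM f → BM g → V.Φ f * E.Φ g = E.Φ g * V.Φ f) (ξ : H) {U : Set ℝ}
    (hU : MeasurableSet U)
    (h : ∀ l ∈ U, ∀ s : ℝ, ∃ γ : ℝ, 0 < γ ∧
      E.Pr (Set.Ioo (l - γ) (l + γ)) (V.Pr (Set.Ioo (s - γ) (s + γ)) ξ) = 0) :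
    E.μ ξ U = 0 :=
  (E.isClosed_null hU).mem_of_tendsto (V.tendsto_Pr_Icc ξ)
    (Eventually.of_forall fun n => endg_null E V hc ξ U fun l hl s _ _ => h l hl s)

/-- a vector all of whose small boxes around the points of a compact box vanish -/
theorem box_null (E V : SpecCalc ℝ H)
    (hc : ∀ f g : ℝ → ℂ, BM f → BM g → V.Φ f * E.Φ g = E.Φ g * V.Φ f) (ξ : H) {a b a' b' : ℝ}
    (h : ∀ l s : ℝ, a ≤ l → l ≤ b → a' ≤ s → s ≤ b' → ∃ γ : ℝ, 0 < γ ∧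
      E.Pr (Set.Ioo (l - γ) (l + γ)) (V.Pr (Set.Ioo (s - γ) (s + γ)) ξ) = 0) :
    E.Pr (Set.Icc a b) (V.Pr (Set.Icc a' b') ξ) = 0 :=
  (E.Pr_eq_zero_iff measurableSet_Icc _).2
    (endg_null E V hc ξ _ fun l hl s h1 h2 => h l s hl.1 hl.2 h1 h2)

theorem endg_small {x : ℝ} {n : ℤ} (h : x = n * (2 * Real.pi)) (hx : |x| ≤ 2) : x = 0 := by
  have hpi := Real.pi_gt_three
  have h1 : |(n : ℝ)| < 1 := by
    by_contra hn
    rw [not_lt] at hn
    rw [h, abs_mul, abs_of_pos (by positivity : (0 : ℝ) < 2 * Real.pi)] at hx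
    nlinarith
  have h2 : n = 0 := by
    have : |n| < 1 := by exact_mod_cast h1
    exact Int.abs_lt_one_iff.1 this
  rw [h, h2]
  simp

/-- geometry of a resonant set -/
theorem resonant_geometry (S : Set (ℝ × ℝ))
    (hS : ∀ p ∈ S, ∀ q ∈ S, ∃ n : ℤ, q.1 * p.2 + p.1 * q.2 = n * (2 * Real.pi)) {p : ℝ × ℝ}
    (hp : p ∈ S) (hp0 : p.1 ≠ 0)
    (hacc : ∀ γ : ℝ, 0 < γ → ∃ q ∈ S, q ≠ p ∧ |q.1 - p.1| ≤ γ ∧ |q.2 - p.2| ≤ γ) :
    ∀ q ∈ S, q.2 = 0 := by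
  intro r hr
  set C : ℝ := 1 + |p.1| + |p.2| + |r.2| with hC
  have a1 := abs_nonneg p.1
  have a2 := abs_nonneg p.2
  have a3 := abs_nonneg r.2
  have hC1 : 1 ≤ C := by linarith
  have hC0 : 0 < C := by linarith
  have hγ : 0 < C⁻¹ := inv_pos.2 hC0
  have hγC : C⁻¹ * C = 1 := inv_mul_cancel₀ hC0.ne'
  have hγ1 : C⁻¹ ≤ 1 := inv_le_one_of_one_le₀ hC1
  obtain ⟨q, hq, hne, h1, h2⟩ := hacc C⁻¹ hγ
  obtain ⟨n₁, e₁⟩ := hS p hp p hp
  obtain ⟨n₂, e₂⟩ := hS p hp q hq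
  obtain ⟨n₃, e₃⟩ := hS q hq q hq
  obtain ⟨n₄, e₄⟩ := hS r hr p hp
  obtain ⟨n₅, e₅⟩ := hS r hr q hq
  have b1 := abs_nonneg (q.1 - p.1)
  have b2 := abs_nonneg (q.2 - p.2)
  have f1 : (q.1 - p.1) * p.2 + p.1 * (q.2 - p.2) = 0 := by
    refine endg_small (n := n₂ - n₁) (by push_cast; linarith) ?_
    refine (abs_add_le _ _).trans ?_
    rw [abs_mul, abs_mul]
    nlinarith [mul_le_mul_of_nonneg_right h1 a2, mul_le_mul_of_nonneg_left h2 a1]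
  have f2 : 2 * ((q.1 - p.1) * (q.2 - p.2)) = 0 := by
    refine endg_small (n := n₃ - 2 * n₂ + n₁) (by push_cast; linarith) ?_
    rw [abs_mul, abs_mul, abs_two]
    nlinarith [mul_le_mul (h1.trans hγ1) (h2.trans hγ1) b2 zero_le_one]
  have d1 : q.1 - p.1 ≠ 0 := by
    intro h0
    rw [h0, zero_mul, zero_add] at f1
    have h3 := (mul_eq_zero.1 f1).resolve_left hp0
    exact hne (Prod.ext (sub_eq_zero.1 h0) (sub_eq_zero.1 h3))
  have d2 : q.2 - p.2 = 0 :=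
    (mul_eq_zero.1 ((mul_eq_zero.1 f2).resolve_left two_ne_zero)).resolve_left d1
  have f3 : (q.1 - p.1) * r.2 = 0 := by
    refine endg_small (n := n₅ - n₄) ?_ ?_
    · push_cast
      rw [sub_eq_zero.1 d2] at e₅
      linarith
    · rw [abs_mul]
      nlinarith [mul_le_mul_of_nonneg_right h1 a3]
  exact (mul_eq_zero.1 f3).resolve_left d1

/-- joint support of the vectors of the bicentraliser -/
def endgS (M : VonNeumannAlgebra H) (J : H ≃ₗᵢ⋆[ℂ] H) (ζ : H) (E V : SpecCalc ℝ H) :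
    Set (ℝ × ℝ) :=
  {p | ∀ γ : ℝ, 0 < γ → ∃ x ∈ Bic M J ζ,
    E.Pr (Set.Ioo (p.1 - γ) (p.1 + γ)) (V.Pr (Set.Ioo (p.2 - γ) (p.2 + γ)) (x ζ)) ≠ 0}

theorem endg_not_mem {l s : ℝ} (h : (l, s) ∉ endgS M J ζ E V) {x : H →L[ℂ] H}
    (hx : x ∈ Bic M J ζ) : ∃ γ : ℝ, 0 < γ ∧
      E.Pr (Set.Ioo (l - γ) (l + γ)) (V.Pr (Set.Ioo (s - γ) (s + γ)) (x ζ)) = 0 := by
  by_contra hn
  exact h fun γ hγ => ⟨x, hx, fun h0 => hn ⟨γ, hγ, h0⟩⟩

theorem endg_specIn_trif (E : SpecCalc ℝ H) {γ : ℝ} (hγ : 0 < γ) (l : ℝ) (η : H) :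
    SpecIn E (E.Φ (trif γ l) η) (l - γ) (l + γ) := by
  refine E.null_apply' (bm_trif γ l) η measurableSet_Icc.compl fun u hu => ?_
  by_contra h0
  have := (trif_ne_zero_iff hγ l u).1 h0
  exact hu ⟨this.1.le, this.2.le⟩

theorem endg_local (hE : ModD M J ζ E) (hβ : BFlow M J ζ E β V) {p : ℝ × ℝ}
    (hp : p ∈ endgS M J ζ E V) {γ : ℝ} (hγ : 0 < γ) :
    ∃ x ∈ Bic M J ζ, x ≠ 0 ∧ NCont β x ∧ SpecIn E (x ζ) (p.1 - γ) (p.1 + γ) ∧
      SpecIn V (x ζ) (p.2 - γ) (p.2 + γ) := by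
  obtain ⟨x, hx, hne⟩ := hp γ hγ
  obtain ⟨x', hx', hc, e⟩ := hβ.exists_local hE hx hγ p.1 p.2
  have comm : ∀ {f g : ℝ → ℂ}, BM f → BM g → ∀ η : H, V.Φ f (E.Φ g η) = E.Φ g (V.Φ f η) :=
    fun hf hg η => congrArg (fun T : H →L[ℂ] H => T η) (hβ.commute hf hg)
  refine ⟨x', hx', ?_, hc, ?_, ?_⟩
  · intro h0
    apply hne
    have h1 : E.Φ (trif γ p.1) (V.Φ (trif γ p.2) (x ζ)) = 0 := by rw [← e, h0]; rfl
    have h2 := (E.Pr_eq_zero_iff measurableSet_Ioo _).2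
      (E.null_of_apply_eq_zero (bm_trif γ p.1) h1 (s := Set.Ioo (p.1 - γ) (p.1 + γ))
        fun u hu => (trif_ne_zero_iff hγ _ u).2 hu)
    have h3 : V.Φ (trif γ p.2) (E.Pr (Set.Ioo (p.1 - γ) (p.1 + γ)) (x ζ)) = 0 :=
      (comm (bm_trif γ p.2) (BM.indicator_one measurableSet_Ioo) _).trans h2
    have h4 := (V.Pr_eq_zero_iff measurableSet_Ioo _).2
      (V.null_of_apply_eq_zero (bm_trif γ p.2) h3 (s := Set.Ioo (p.2 - γ) (p.2 + γ))
        fun u hu => (trif_ne_zero_iff hγ _ u).2 hu)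
    exact (comm (BM.indicator_one measurableSet_Ioo) (BM.indicator_one measurableSet_Ioo)
      _).symm.trans h4
  · rw [e]
    exact endg_specIn_trif E hγ _ _
  · rw [e, ← comm (bm_trif γ p.2) (bm_trif γ p.1)]
    exact endg_specIn_trif V hγ _ _

theorem endg_eig (V : SpecCalc ℝ H) {ξ : H} {s γ m C : ℝ} (hγ : 0 < γ) (hγ1 : γ ≤ 1)
    (h : SpecIn V ξ (s - γ) (s + γ)) (hC : 2 * |s| + |m| + 2 ≤ C) (ν : ℝ) (hν : |ν - m| ≤ 2 * γ) :
    ‖V.U (-ν) ξ - Complex.exp (-(Complex.I * m * s)) • ξ‖ ≤ γ * C * ‖ξ‖ := by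
  have h1 := V.norm_U_sub_le h (-ν) (-m)
  have e : Complex.I * ((-m : ℝ) : ℂ) * s = -(Complex.I * m * s) := by push_cast; ring
  rw [e] at h1
  refine h1.trans (mul_le_mul_of_nonneg_right ?_ (norm_nonneg _))
  have e2 : |-ν - -m| = |ν - m| := by rw [← abs_neg]; congr 1; ring
  have e3 : |ν| ≤ |m| + 2 := by
    have := abs_add_le (ν - m) m
    rw [sub_add_cancel] at this
    linarith
  rw [e2, abs_neg, abs_of_pos hγ]
  nlinarith [mul_le_mul_of_nonneg_right hν (abs_nonneg s), mul_le_mul_of_nonneg_right e3 hγ.le,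
    mul_le_mul_of_nonneg_left hC hγ.le]

theorem endg_res (hM : IsFactor M) (hE : ModD M J ζ E) (hFu : Full M J ζ) (h1 : ‖ζ‖ = 1)
    (hF : EigFam M J ζ) (hβ : BFlow M J ζ E β V) {p q : ℝ × ℝ} (hp : p ∈ endgS M J ζ E V)
    (hq : q ∈ endgS M J ζ E V) : ∃ n : ℤ, q.1 * p.2 + p.1 * q.2 = n * (2 * Real.pi) := by
  set C : ℝ := 2 * |p.2| + |q.1| + 2 * |q.2| + |p.1| + 2 with hC
  have a1 := abs_nonneg p.1
  have a2 := abs_nonneg p.2
  have a3 := abs_nonneg q.1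
  have a4 := abs_nonneg q.2
  have hC0 : 0 < C := by linarith
  have key : ∀ γ : ℝ, 0 < γ → γ ≤ 1 →
      ‖Complex.exp (Complex.I * q.1 * p.2) - Complex.exp (-(Complex.I * p.1 * q.2))‖ ≤
        4 * (γ * C) := by
    intro γ hγ hγ1
    obtain ⟨x, hx, hx0, hcx, hsx, hvx⟩ := endg_local hE hβ hp hγ
    obtain ⟨y, hy, hy0, hcy, hsy, hvy⟩ := endg_local hE hβ hq hγ
    exact resonance hM hE hFu h1 hF hβ hx hy hx0 hy0 hcx hcy hγ (by positivity) hsx hsy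
      (endg_eig V hγ hγ1 hvx (by linarith)) (endg_eig V hγ hγ1 hvy (by linarith))
  have e : Complex.exp (Complex.I * q.1 * p.2) = Complex.exp (-(Complex.I * p.1 * q.2)) := by
    rw [← sub_eq_zero, ← norm_le_zero_iff]
    refine le_of_forall_pos_le_add fun ε hε => ?_
    refine (key (min 1 (ε / (4 * C))) (lt_min one_pos (by positivity)) (min_le_left _ _)).trans ?_
    have h2 : min 1 (ε / (4 * C)) * (4 * C) ≤ ε :=
      (le_div_iff₀ (by positivity)).1 (min_le_right _ _)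
    linarith
  obtain ⟨n, hn⟩ := Complex.exp_eq_exp_iff_exists_int.1 e
  refine ⟨n, ?_⟩
  have h2 := congrArg Complex.im hn
  simp at h2
  linarith

theorem endg_point (hM : IsFactor M) (hE : ModD M J ζ E) (hFu : Full M J ζ) {x : H →L[ℂ] H}
    (hx : x ∈ Bic M J ζ) (hx0 : x ≠ 0) {l : ℝ} (hs : SpecIn E (x ζ) l l) : l = 0 := by
  have hxM := bic_mem hx
  have hx' := bic_star hE.std hx
  have hs' := hE.specIn_star hxM hs
  have s1 : SpecIn E ((star x * x) ζ) 0 0 := by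
    have := hE.specIn_mul (bic_mem hx') hs' hs
    rwa [neg_add_cancel] at this
  have s2 : SpecIn E ((x * star x) ζ) 0 0 := by
    have := hE.specIn_mul hxM hs hs'
    rwa [add_neg_cancel] at this
  have m1 := bic_mul hE.std hx' hx
  have m2 := bic_mul hE.std hx hx'
  obtain ⟨c, hc⟩ := bic_cent hM hE.std hFu m1 ((hE.cm_eq_zero_iff (bic_mem m1)).2 s1)
  obtain ⟨c', hc'⟩ := bic_cent hM hE.std hFu m2 ((hE.cm_eq_zero_iff (bic_mem m2)).2 s2)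
  have hcc : c = c' := by
    have e1 : c • x = c' • x := by
      have e2 : x * (star x * x) = (x * star x) * x := (mul_assoc _ _ _).symm
      rwa [hc, hc', mul_smul_comm, smul_mul_assoc, mul_one, one_mul] at e2
    rw [← sub_eq_zero, ← sub_smul] at e1
    exact sub_eq_zero.1 ((smul_eq_zero.1 e1).resolve_right hx0)
  have n1 : ‖(star x) ζ‖ = ‖x ζ‖ := by
    rw [← sq_eq_sq₀ (norm_nonneg _) (norm_nonneg _), norm_sq_apply, norm_sq_apply, star_star, hc,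
      hc', hcc]
  have n2 := hE.norm_star_le hxM hs
  have n3 := hE.le_norm_star hxM hs
  have n4 : 0 < ‖x ζ‖ := norm_pos_iff.2 fun h0 => hx0 (hE.std.sepg x hxM h0)
  have n5 : Real.exp (l / 2) = 1 := by
    rw [n1] at n2 n3
    exact mul_right_cancel₀ n4.ne' (by linarith)
  have := Real.exp_eq_one_iff _ |>.1 n5
  linarith

theorem endg_far (E : SpecCalc ℝ H) {ξ : H} {l l' γ : ℝ} (h : SpecIn E ξ (l - γ) (l + γ))
    (hl : γ < |l' - l|) : E.Pr (Set.Ioo (l' - (|l' - l| - γ)) (l' + (|l' - l| - γ))) ξ = 0 := by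
  refine (E.Pr_eq_zero_iff measurableSet_Ioo _).2
    (measure_mono_null (t := (Set.Icc (l - γ) (l + γ))ᶜ) (fun u hu hu' => ?_) h)
  rcases abs_cases (l' - l) with ⟨e, _⟩ | ⟨e, _⟩
  · rw [e] at hu
    linarith [hu.1, hu'.2]
  · rw [e] at hu
    linarith [hu.2, hu'.1]

theorem bic_trivial_or (hM : IsFactor M) (hE : ModD M J ζ E) (hFu : Full M J ζ) (h1 : ‖ζ‖ = 1)
    (hF : EigFam M J ζ) (hβ : BFlow M J ζ E β V) :
    (∀ x ∈ Bic M J ζ, ∃ c : ℂ, x = c • (1 : H →L[ℂ] H)) ∨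
      ∀ s, ∀ x ∈ Bic M J ζ, β s x = x := by
  have hc : ∀ f g : ℝ → ℂ, BM f → BM g → V.Φ f * E.Φ g = E.Φ g * V.Φ f :=
    fun f g hf hg => hβ.commute hf hg
  by_cases hall : ∀ p ∈ endgS M J ζ E V, p.1 = 0
  · refine Or.inl fun x hx => bic_cent hM hE.std hFu hx ((hE.cm_eq_zero_iff (bic_mem hx)).2 ?_)
    refine endg_null' E V hc _ measurableSet_Icc.compl fun l hl s => endg_not_mem (fun h => ?_) hx
    have h0 : l = 0 := hall _ h
    exact hl ⟨h0.ge, h0.le⟩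
  obtain ⟨p, hp, hp0⟩ : ∃ p ∈ endgS M J ζ E V, p.1 ≠ 0 := by
    by_contra hn
    exact hall fun p hp => by_contra fun h0 => hn ⟨p, hp, h0⟩
  by_cases hacc : ∀ γ : ℝ, 0 < γ →
      ∃ q ∈ endgS M J ζ E V, q ≠ p ∧ |q.1 - p.1| ≤ γ ∧ |q.2 - p.2| ≤ γ
  · have hq := resonant_geometry _ (fun p hp q hq => endg_res hM hE hFu h1 hF hβ hp hq) hp hp0 hacc
    refine Or.inr fun t x hx => ?_
    have hs : SpecIn V (x ζ) 0 0 := by
      refine endg_null' V E (fun f g hf hg => (hc g f hg hf).symm) _ measurableSet_Icc.compl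
        fun s hs l => ?_
      obtain ⟨γ, hγ, h0⟩ := endg_not_mem (l := l) (s := s) (E := E) (V := V) (fun h => by
        have h0 : s = 0 := hq _ h
        exact hs ⟨h0.ge, h0.le⟩) hx
      exact ⟨γ, hγ, (endg_Pr_comm E V hc measurableSet_Ioo measurableSet_Ioo _).trans h0⟩
    refine sub_eq_zero.1 (hE.std.sepg _ (sub_mem (bic_mem (hβ.mem t hx)) (bic_mem hx)) ?_)
    rw [sub_apply, hβ.apply t x hx, V.U_fix_of_null hs, sub_self]
  · exfalso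
    obtain ⟨γ, hγ, hiso⟩ : ∃ γ : ℝ, 0 < γ ∧ ∀ q ∈ endgS M J ζ E V, q ≠ p →
        γ < |q.1 - p.1| ∨ γ < |q.2 - p.2| := by
      by_contra hn
      refine hacc fun γ hγ => by_contra fun h0 => hn ⟨γ, hγ, fun q hq hne => ?_⟩
      by_contra h2
      rw [not_or, not_lt, not_lt] at h2
      exact h0 ⟨q, hq, hne, h2⟩
    obtain ⟨x, hx, hx0, -, hsx, hvx⟩ := endg_local hE hβ hp hγ
    refine hp0 (endg_point hM hE hFu hx hx0 ?_)
    refine endg_null' E V hc _ measurableSet_Icc.compl fun l hl s => ?_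
    by_cases hm : (l, s) ∈ endgS M J ζ E V
    · have hne : (l, s) ≠ p := fun h => hl (by rw [← h]; exact ⟨le_rfl, le_rfl⟩)
      rcases hiso _ hm hne with h | h
      · refine ⟨|l - p.1| - γ, sub_pos.2 h, ?_⟩
        rw [← endg_Pr_comm E V hc measurableSet_Ioo measurableSet_Ioo, endg_far E hsx h, map_zero]
      · refine ⟨|s - p.2| - γ, sub_pos.2 h, ?_⟩
        rw [endg_far V hvx h, map_zero]
    · exact endg_not_mem hm hx

end Pool.Agent.P.MP_5d580a_an
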