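import Pool.Agent.P.MP_5d580a_an.Spec

open scoped ComplexOrder InnerProductSpace ComplexConjugate BoundedContinuousFunction
open MeasureTheory Filter Topology

set_option linter.unusedSectionVars false
set_option linter.unusedVariables false

noncomputable section

namespace Pool.Agent.P.MP_5d580a_an

variable {H : Type} [NormedAddCommGroup H] [InnerProductSpace ℂ H] [CompleteSpace H]

variable {M : VonNeumannAlgebra H} {J : H ≃ₗᵢ⋆[ℂ] H} {ζ : H} {E : SpecCalc ℝ H}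

theorem specmul_bm (a b : ℝ) {g : ℝ → ℂ} (hg : Continuous g) :
    BM fun l => (Set.Icc a b).indicator (fun _ => (1 : ℂ)) l * g l := by
  obtain ⟨K, hK⟩ := (isCompact_Icc (a := a) (b := b)).exists_bound_of_continuousOn hg.continuousOn
  refine ⟨(BM.indicator_one measurableSet_Icc).1.mul hg.measurable, max K 0, fun l => ?_⟩
  beta_reduce
  by_cases hl : l ∈ Set.Icc a b
  · rw [Set.indicator_of_mem hl, one_mul]
    exact (hK l hl).trans (le_max_left _ _)
  · rw [Set.indicator_of_notMem hl, zero_mul, norm_zero]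
    exact le_max_right _ _

theorem specmul_exp_cont : Continuous fun l : ℝ => ((Real.exp (l / 2) : ℝ) : ℂ) := by fun_prop

theorem specmul_eq_zero (E : SpecCalc ℝ H) {ξ : H} {a b : ℝ} (h : SpecIn E ξ a b) (hab : b < a) :
    ξ = 0 := by
  apply E.eq_zero_of_null
  have e : (Set.Icc a b)ᶜ = Set.univ := by rw [Set.Icc_eq_empty (not_le.2 hab), Set.compl_empty]
  rw [← e]
  exact h

theorem specmul_fix (E : SpecCalc ℝ H) {ξ : H} {a b : ℝ} (h : SpecIn E ξ a b) {f : ℝ → ℂ}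
    (hf : BM f) (h1 : ∀ u, a ≤ u → u ≤ b → f u = 1) : E.Φ f ξ = ξ := by
  rw [E.congr_ae hf (BM.const 1) (h.ae.mono fun u hu => h1 u hu.1 hu.2), E.one]
  rfl

theorem specmul_null (μ : Measure ℝ) (U : Set ℝ)
    (h : ∀ n : ℕ, μ (Set.Icc (-(n : ℝ)) n ∩ U) = 0) : μ U = 0 := by
  refine measure_mono_null (fun u hu => ?_) (measure_iUnion_null h)
  obtain ⟨n, hn⟩ := exists_nat_ge |u|
  exact Set.mem_iUnion.2 ⟨n, abs_le.1 hn, hu⟩

theorem specmul_lower (hE : ModD M J ζ E) {x : H →L[ℂ] H} (hx : x ∈ M) {l c : ℝ} (hc : 0 ≤ c)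
    (h : ∀ᵐ u ∂(E.μ (x ζ)), c ≤ |Real.exp (u / 2) - Real.exp (l / 2)|) :
    c * ‖x ζ‖ ≤ ‖rm J x ζ - ((Real.exp (l / 2) : ℝ) : ℂ) • x ζ‖ := by
  refine le_of_tendsto' (((E.tendsto_Pr_Icc (x ζ)).norm).const_mul c) fun n => ?_
  have hT : BM ((Set.Icc (-(n : ℝ)) n).indicator fun _ => (1 : ℂ)) :=
    BM.indicator_one measurableSet_Icc
  have hT1 := specmul_bm (-(n : ℝ)) n specmul_exp_cont
  have hT2 := (BM.const ((Real.exp (l / 2) : ℝ) : ℂ)).mul hT
  have e1 : E.Pr (Set.Icc (-(n : ℝ)) n) (rm J x ζ - ((Real.exp (l / 2) : ℝ) : ℂ) • x ζ) =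
      E.Φ (fun u => (Set.Icc (-(n : ℝ)) n).indicator (fun _ => (1 : ℂ)) u *
        ((Real.exp (u / 2) : ℝ) : ℂ) - ((Real.exp (l / 2) : ℝ) : ℂ) *
          (Set.Icc (-(n : ℝ)) n).indicator (fun _ => (1 : ℂ)) u) (x ζ) := by
    rw [E.map_sub hT1 hT2, E.map_smul _ hT, map_sub, map_smul, sub_apply, ← hE.half x hx _ hT hT1]
    rfl
  have e2 : c * ‖E.Pr (Set.Icc (-(n : ℝ)) n) (x ζ)‖ =
      ‖E.Φ (fun u => (c : ℂ) * (Set.Icc (-(n : ℝ)) n).indicator (fun _ => (1 : ℂ)) u) (x ζ)‖ := by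
    rw [E.map_smul _ hT, smul_apply, norm_smul, Complex.norm_real, Real.norm_of_nonneg hc]
    rfl
  refine le_trans ?_ (proj_norm_le (E.Pr_proj (s := Set.Icc (-(n : ℝ)) n) measurableSet_Icc) _)
  rw [e1, e2]
  refine E.norm_apply_mono ((BM.const _).mul hT) (hT1.sub hT2) (h.mono fun u hu => ?_)
  by_cases hl : u ∈ Set.Icc (-(n : ℝ)) n
  · rw [Set.indicator_of_mem hl, one_mul, mul_one, mul_one, ← Complex.ofReal_sub,
      Complex.norm_real, Complex.norm_real, Real.norm_of_nonneg hc, Real.norm_eq_abs]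
    exact hu
  · rw [Set.indicator_of_notMem hl, mul_zero, norm_zero]
    exact norm_nonneg _

namespace ModD

/-- product rule for spectra -/
theorem specIn_mul (hE : ModD M J ζ E) {x : H →L[ℂ] H} (hx : x ∈ M) {a b a' b' : ℝ}
    (h : SpecIn E (x ζ) a b) {ξ : H} (h' : SpecIn E ξ a' b') :
    SpecIn E (x ξ) (a + a') (b + b') := by
  rcases lt_or_ge b a with hab | hab
  · rw [hE.std.sepg x hx (specmul_eq_zero E h hab)]
    change E.μ 0 _ = 0
    rw [E.μ_zero]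
    rfl
  rcases lt_or_ge b' a' with hab' | hab'
  · rw [specmul_eq_zero E h' hab', map_zero]
    change E.μ 0 _ = 0
    rw [E.μ_zero]
    rfl
  refine measure_null_of_locally_null _ fun l₀ hl₀ => ?_
  obtain ⟨γ, hγ, hl⟩ : ∃ γ : ℝ, 0 < γ ∧ (l₀ + 3 * γ ≤ a + a' ∨ b + b' + 3 * γ ≤ l₀) := by
    rw [Set.mem_compl_iff, Set.mem_Icc, not_and_or, not_le, not_le] at hl₀
    rcases hl₀ with h0 | h0
    · exact ⟨(a + a' - l₀) / 3, by linarith, Or.inl (by linarith)⟩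
    · exact ⟨(l₀ - (b + b')) / 3, by linarith, Or.inr (by linarith)⟩
  obtain ⟨g, -, hg, hg1, hg0⟩ := exists_trap hab hγ
  obtain ⟨g', -, hg', hg1', hg0'⟩ := exists_trap hab' hγ
  have e1 : smear E g x = x := hE.std.sepg.eq (hE.smear_mem hg hx) hx (by
    rw [hE.smear_apply hg, specmul_fix E h (bm_chk hg) hg1])
  have e2 : E.Φ (chk g') ξ = ξ := specmul_fix E h' (bm_chk hg') hg1'
  have e3 := double_spectral E x hg (ι := Unit) (κ := Empty) (fun _ => trif γ l₀)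
    (fun _ => chk g') (fun _ => trif γ l₀) (fun _ => trif γ l₀)
    (fun _ => ⟨bm_trif _ _, trif_cont _ _⟩) (fun _ => ⟨bm_chk hg', chk_cont hg'⟩)
    (fun _ => ⟨bm_trif _ _, trif_cont _ _⟩) (fun _ => ⟨bm_trif _ _, trif_cont _ _⟩) (by
      intro l m
      rw [Fintype.sum_unique, Fintype.sum_empty]
      by_cases h1 : trif γ l₀ l = 0
      · rw [h1, zero_mul, mul_zero]
      by_cases h2 : m ≤ a' - γ ∨ b' + γ ≤ m
      · rw [hg0' m h2, mul_zero, mul_zero]
      rw [not_or, not_le, not_le] at h2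
      have h3 := (trif_ne_zero_iff hγ l₀ l).1 h1
      rw [hg0 (l - m) (hl.imp (fun h4 => by linarith [h3.2, h2.1])
        fun h4 => by linarith [h3.1, h2.2]), zero_mul])
  rw [Fintype.sum_unique, Fintype.sum_empty, e1] at e3
  have e4 : E.Φ (trif γ l₀) (x ξ) = 0 := by
    have e5 := congrArg (fun T : H →L[ℂ] H => T ξ) e3
    change E.Φ (trif γ l₀) (x (E.Φ (chk g') ξ)) = 0 at e5
    rwa [e2] at e5
  exact ⟨Set.Ioo (l₀ - γ) (l₀ + γ),
    mem_nhdsWithin_of_mem_nhds (Ioo_mem_nhds (by linarith) (by linarith)),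
    E.null_of_apply_eq_zero (bm_trif _ _) e4 fun u hu => (trif_ne_zero_iff hγ _ u).2 hu⟩

theorem spI_iff (hE : ModD M J ζ E) {p : H →L[ℂ] H} (hp : Cent M J ζ p) (l : ℝ) :
    SpI M J ζ p l ↔ ∀ δ : ℝ, 0 < δ → ∃ x ∈ M, p * x * p = x ∧ x ≠ 0 ∧
      SpecIn E (x ζ) (l - δ) (l + δ) := by
  constructor
  · intro h δ hδ
    set c : ℝ := min (Real.exp (l / 2) - Real.exp ((l - δ) / 2))
      (Real.exp ((l + δ) / 2) - Real.exp (l / 2)) with hc
    have hc0 : 0 < c := lt_min (sub_pos.2 (Real.exp_lt_exp.2 (by linarith)))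
      (sub_pos.2 (Real.exp_lt_exp.2 (by linarith)))
    obtain ⟨x, hx, hpx, hx0, hb⟩ := h (c / 2) (by linarith)
    refine ⟨win E δ l x, hE.win_mem hδ l hx, hE.win_corner hδ l hp hp hpx, fun h0 => ?_,
      hE.specIn_win hδ l x⟩
    have h1 := hE.null_of_win_eq_zero hδ h0
    have h2 : ∀ᵐ u ∂(E.μ (x ζ)), c ≤ |Real.exp (u / 2) - Real.exp (l / 2)| := by
      refine (measure_eq_zero_iff_ae_notMem.1 h1).mono fun u hu => ?_
      rw [Set.mem_Ioo, not_and_or, not_lt, not_lt] at hu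
      rcases hu with hu | hu
      · have := Real.exp_le_exp.2 (show u / 2 ≤ (l - δ) / 2 by linarith)
        exact (min_le_left _ _).trans (le_trans (by linarith) (neg_le_abs _))
      · have := Real.exp_le_exp.2 (show (l + δ) / 2 ≤ u / 2 by linarith)
        exact (min_le_right _ _).trans (le_trans (by linarith) (le_abs_self _))
    have h3 := (specmul_lower hE hx hc0.le h2).trans hb
    have n4 : 0 < ‖x ζ‖ := norm_pos_iff.2 fun h0 => hx0 (hE.std.sepg x hx h0)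
    nlinarith
  · intro h ε hε
    have h0 := Real.exp_pos (l / 2)
    have h1 : 1 < 1 + ε / Real.exp (l / 2) := lt_add_of_pos_right _ (div_pos hε h0)
    have hδ : 0 < 2 * Real.log (1 + ε / Real.exp (l / 2)) := mul_pos two_pos (Real.log_pos h1)
    obtain ⟨x, hx, hpx, hx0, hs⟩ := h _ hδ
    refine ⟨x, hx, hpx, hx0, (hE.eig_bound hx hδ.le hs).trans (le_of_eq ?_)⟩
    rw [mul_div_cancel_left₀ _ two_ne_zero, Real.exp_log (by linarith), add_sub_cancel_left,
      mul_div_cancel₀ _ h0.ne']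

theorem null_of_not_spI (hE : ModD M J ζ E) {p : H →L[ℂ] H} (hp : Cent M J ζ p) {s : Set ℝ}
    (hs : ∀ l ∈ s, ¬ SpI M J ζ p l) {x : H →L[ℂ] H} (hx : x ∈ M) (hpx : p * x * p = x) :
    E.μ (x ζ) s = 0 := by
  refine measure_null_of_locally_null _ fun l hl => ?_
  obtain ⟨δ, hδ, h0⟩ : ∃ δ : ℝ, 0 < δ ∧ win E δ l x = 0 := by
    by_contra hn
    exact hs l hl ((hE.spI_iff hp l).2 fun δ hδ => ⟨win E δ l x, hE.win_mem hδ l hx,
      hE.win_corner hδ l hp hp hpx, fun h0 => hn ⟨δ, hδ, h0⟩, hE.specIn_win hδ l x⟩)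
  exact ⟨Set.Ioo (l - δ) (l + δ),
    mem_nhdsWithin_of_mem_nhds (Ioo_mem_nhds (by linarith) (by linarith)),
    hE.null_of_win_eq_zero hδ h0⟩

theorem exists_spI (hE : ModD M J ζ E) {p : H →L[ℂ] H} (hp : Cent M J ζ p) {x : H →L[ℂ] H}
    (hx : x ∈ M) (hpx : p * x * p = x) (h0 : x ≠ 0) {a b : ℝ} (h : SpecIn E (x ζ) a b) :
    ∃ l, a ≤ l ∧ l ≤ b ∧ SpI M J ζ p l := by
  by_contra hn
  have h1 : E.μ (x ζ) (Set.Icc a b) = 0 :=
    hE.null_of_not_spI hp (fun l hl hs => hn ⟨l, hl.1, hl.2, hs⟩) hx hpx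
  refine h0 (hE.std.sepg x hx (E.eq_zero_of_null ?_))
  rw [← Set.union_compl_self (Set.Icc a b)]
  exact measure_union_null h1 h

theorem isClosed_spI (hE : ModD M J ζ E) {p : H →L[ℂ] H} (hp : Cent M J ζ p) :
    IsClosed {l | SpI M J ζ p l} := by
  refine isClosed_of_closure_subset fun l hl => (hE.spI_iff hp l).2 fun δ hδ => ?_
  obtain ⟨l', hl', hd⟩ := Metric.mem_closure_iff.1 hl (δ / 2) (by linarith)
  obtain ⟨x, hx, hpx, hx0, hs⟩ := (hE.spI_iff hp l').1 hl' (δ / 2) (by linarith)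
  rw [Real.dist_eq, abs_lt] at hd
  exact ⟨x, hx, hpx, hx0, hs.mono (by linarith [hd.2]) (by linarith [hd.1])⟩

theorem spI_neg (hE : ModD M J ζ E) {p : H →L[ℂ] H} (hp : Cent M J ζ p) {l : ℝ}
    (h : SpI M J ζ p l) : SpI M J ζ p (-l) := by
  refine (hE.spI_iff hp _).2 fun δ hδ => ?_
  obtain ⟨x, hx, hpx, hx0, hs⟩ := (hE.spI_iff hp l).1 h δ hδ
  refine ⟨star x, star_mem hx, ?_, star_ne_zero.2 hx0,
    (hE.specIn_star hx hs).mono (by linarith) (by linarith)⟩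
  have e := congrArg star hpx
  rwa [star_mul, star_mul, hp.2.1.isSelfAdjoint.star_eq, ← mul_assoc] at e

theorem rm_eq_of_apply_eq (hE : ModD M J ζ E) {e e' : H →L[ℂ] H} (he : e ∈ M)
    (he' : e' ∈ M.commutant) (hsa : IsSelfAdjoint e) (hsa' : IsSelfAdjoint e') (h : e ζ = e' ζ) :
    rm J e = e' := by
  have hJ := hE.std.stdJ
  have hf : rm J e' ∈ M := hJ.mem' e' he'
  have e1 : rm J (rm J e') ζ = e ζ := by rw [rm_rm hJ.invol, h]
  have e2 : rm J e ζ = rm J e' ζ := by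
    rw [rm_apply, rm_apply, hsa.star_eq, hsa'.star_eq, hE.std.fix, h]
  have hs : SpecIn E (e ζ) 0 0 := by
    refine specmul_null _ _ fun n => ?_
    have hT : BM ((Set.Icc (-(n : ℝ)) n).indicator fun _ => (1 : ℂ)) :=
      BM.indicator_one measurableSet_Icc
    have hT1 := specmul_bm (-(n : ℝ)) n specmul_exp_cont
    have hT2 : BM fun l : ℝ => (Set.Icc (-(n : ℝ)) n).indicator (fun _ => (1 : ℂ)) l *
        ((Real.exp (l / 2) : ℝ) : ℂ) * ((Real.exp (l / 2) : ℝ) : ℂ) := by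
      simp only [mul_assoc]
      exact specmul_bm _ _ (specmul_exp_cont.mul specmul_exp_cont)
    have a1 := hE.half _ hf _ hT hT1
    have a2 := hE.half _ he _ hT1 hT2
    rw [e1, ← e2, a2] at a1
    refine E.null_of_apply_eq_zero (hT2.sub hT) ?_ fun u hu => ?_
    · rw [E.map_sub hT2 hT, sub_apply, ← a1, sub_self]
    · rw [Set.indicator_of_mem hu.1, one_mul, ← Complex.ofReal_mul, ← Real.exp_add, add_halves,
        sub_ne_zero, ← Complex.ofReal_one, Ne, Complex.ofReal_inj, Real.exp_eq_one_iff]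
      exact fun h0 => hu.2 ⟨h0.ge, h0.le⟩
  have e3 : e ζ = rm J e ζ := sub_eq_zero.1 ((hE.cm_eq_zero_iff he).2 hs)
  exact (sepg_of_cyc hE.std.cyc).eq (hJ.mem e he) he' (by rw [← e3, h])

theorem dense_sym (hE : ModD M J ζ E) : Dense {η : H | ∃ x ∈ M, η = x ζ + rm J x ζ} := by
  let K : Submodule ℂ H :=
    { carrier := {η : H | ∃ x ∈ M, η = x ζ + rm J x ζ}
      add_mem' := by
        rintro _ _ ⟨x, hx, rfl⟩ ⟨y, hy, rfl⟩
        exact ⟨x + y, add_mem hx hy, by rw [rm_add, add_apply, add_apply]; abel⟩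
      zero_mem' := ⟨0, zero_mem _, by rw [rm_zero, zero_apply, add_zero]⟩
      smul_mem' := by
        rintro c _ ⟨x, hx, rfl⟩
        exact ⟨c • x, vn_smul_mem c hx, by rw [rm_smul, smul_apply, smul_apply, smul_add]⟩ }
  change Dense (K : Set H)
  rw [Submodule.dense_iff_topologicalClosure_eq_top, Submodule.topologicalClosure_eq_top_iff,
    Submodule.eq_bot_iff]
  intro η hη
  refine E.eq_zero_of_null (specmul_null _ _ fun n => ?_)
  have hδ : (0 : ℝ) < n + 1 := by positivity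
  have hT := bm_trif ((n : ℝ) + 1) 0
  have hT1 : BM fun l : ℝ => trif ((n : ℝ) + 1) 0 l * ((Real.exp (l / 2) : ℝ) : ℂ) := by
    refine ⟨((trif_cont _ _).mul specmul_exp_cont).measurable, Real.exp ((n + 1) / 2), fun l => ?_⟩
    beta_reduce
    by_cases h0 : trif ((n : ℝ) + 1) 0 l = 0
    · rw [h0, zero_mul, norm_zero]
      exact (Real.exp_pos _).le
    · have h1 := ((trif_ne_zero_iff hδ 0 l).1 h0).2
      rw [norm_mul, Complex.norm_real, Real.norm_of_nonneg (Real.exp_pos _).le]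
      exact (mul_le_of_le_one_left (Real.exp_pos _).le (norm_trif_le _ _ _)).trans
        (Real.exp_le_exp.2 (by linarith))
  refine E.null_of_apply_eq_zero (hT.add hT1).star ?_ fun u hu => ?_
  · refine eq_of_inner_cyc hE.std.cyc fun x hx => ?_
    rw [E.map_star (hT.add hT1), inner_star_right, inner_zero_right, E.map_add hT hT1, add_apply,
      ← hE.half x hx _ hT hT1, ← hE.win_apply hδ, ← hE.rm_win_apply hδ]
    exact (Submodule.mem_orthogonal K η).1 hη _ ⟨_, hE.win_mem hδ 0 hx, rfl⟩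
  · rw [map_ne_zero, ← mul_one_add]
    refine mul_ne_zero ((trif_ne_zero_iff hδ 0 u).2 ⟨by linarith [hu.1.1], by linarith [hu.1.2]⟩) ?_
    rw [← Complex.ofReal_one, ← Complex.ofReal_add, Complex.ofReal_ne_zero]
    positivity

/-- left support of the orbit of `x` under the modular group -/
theorem exists_orbit_proj (hE : ModD M J ζ E) {x : H →L[ℂ] H} (hx : x ∈ M) :
    ∃ p, Cent M J ζ p ∧ p * x = x ∧
      (∀ y : H →L[ℂ] H, (∀ t, y * E.sig t x = 0) → y * p = 0) ∧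
      ∀ q, Cent M J ζ q → q * x = x → q * p = p := by
  obtain ⟨p, hp, h1, -, -, h4, h5⟩ := exists_proj_span {η : H | ∃ t ξ, η = E.sig t x ξ}
  have hM : p ∈ M := by
    have key : ∀ y ∈ M.commutant, ∀ η ∈ {η : H | ∃ t ξ, η = E.sig t x ξ}, p (y η) = y η := by
      rintro y hy _ ⟨t, ξ, rfl⟩
      exact h1 _ ⟨t, y ξ, (commute_apply (hE.inv t x hx) hy ξ).symm⟩
    exact mem_of_commute fun y hy => h5 y (key y hy) (key _ (star_mem hy))
  have hU : ∀ s, ∀ η ∈ {η : H | ∃ t ξ, η = E.sig t x ξ}, p (E.U s η) = E.U s η := by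
    rintro s _ ⟨t, ξ, rfl⟩
    refine h1 _ ⟨s + t, E.U s ξ, ?_⟩
    rw [← E.sig_sig]
    change _ = E.U s (E.sig t x ((E.U (-s) * E.U s) ξ))
    rw [E.U_neg_mul]
    rfl
  refine ⟨p, ⟨hM, hp, (hE.cm_iff_U hM).2 fun s => h5 _ (hU s) ?_⟩, ?_, fun y hy => ?_,
    fun q hq hqx => ?_⟩
  · rw [E.star_U]
    exact hU (-s)
  · exact ContinuousLinearMap.ext fun ξ => h1 (x ξ) ⟨0, ξ, by rw [E.sig_zero]⟩
  · rw [h4 y 0 ?_, zero_mul]
    rintro _ ⟨t, ξ, rfl⟩
    exact congrArg (fun T : H →L[ℂ] H => T ξ) (hy t)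
  · rw [h4 q 1 ?_, one_mul]
    rintro _ ⟨t, ξ, rfl⟩
    have e : q * E.sig t x = E.sig t x := by
      rw [SpecCalc.sig, ← mul_assoc, ← mul_assoc, ← (hE.cm_iff_U hq.1).1 hq.2.2 t,
        mul_assoc _ q, hqx]
    exact congrArg (fun T : H →L[ℂ] H => T ξ) e

end ModD

end Pool.Agent.P.MP_5d580a_an
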