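import Pool.Agent.P.MP_5d580a_an.Key
import Pool.Agent.P.MP_5d580a_an.SpecMul
import Pool.Agent.P.MP_5d580a_an.Sech

open scoped ComplexOrder InnerProductSpace ComplexConjugate BoundedContinuousFunction
open MeasureTheory Filter Topology

set_option linter.unusedSectionVars false
set_option linter.unusedVariables false

noncomputable section

namespace Pool.Agent.P.MP_5d580a_an

variable {H : Type} [NormedAddCommGroup H] [InnerProductSpace ℂ H] [CompleteSpace H]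

variable {M : VonNeumannAlgebra H} {J : H ≃ₗᵢ⋆[ℂ] H} {ζ : H} {E : SpecCalc ℝ H}

theorem ergo1_norm (η : H) : ‖⟪η, η⟫_ℂ‖ = ‖η‖ ^ 2 := by
  rw [← inner_self_re_eq_norm, inner_self_eq_norm_sq]

theorem ergo1_row {L : Type} [Fintype L] (A : L → (H →L[ℂ] H))
    (hA : ∀ ξ, ∑ l, ‖A l ξ‖ ^ 2 ≤ ‖ξ‖ ^ 2) (γ : L → H) :
    ‖∑ l, (star (A l)) (γ l)‖ ^ 2 ≤ ∑ l, ‖γ l‖ ^ 2 := by
  set η := ∑ l, (star (A l)) (γ l) with hη
  have h1 : ‖η‖ ^ 2 ≤ ∑ l, ‖A l η‖ * ‖γ l‖ := by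
    rw [← ergo1_norm, hη, inner_sum]
    refine (norm_sum_le _ _).trans (Finset.sum_le_sum fun l _ => ?_)
    rw [inner_star_right]
    exact norm_inner_le_norm _ _
  have h2 := Finset.sum_mul_sq_le_sq_mul_sq Finset.univ (fun l => ‖A l η‖) fun l => ‖γ l‖
  have h3 : 0 ≤ ∑ l, ‖γ l‖ ^ 2 := Finset.sum_nonneg fun l _ => sq_nonneg _
  have h4 := ((pow_le_pow_left₀ (sq_nonneg _) h1 2).trans h2).trans
    (mul_le_mul_of_nonneg_right (hA η) h3)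
  rcases (sq_nonneg ‖η‖).eq_or_lt with h | h
  · rwa [← h]
  · exact le_of_mul_le_mul_left (by linarith) h

theorem ergo1_planch (hE : ModD M J ζ E) {δ Λ : ℝ} (hδ : 0 < δ) {x : H →L[ℂ] H} (hx : x ∈ M)
    (hs : SpecIn E (x ζ) (-Λ) Λ) (z : H →L[ℂ] H) (γ : H) :
    Integrable (fun ν => ⟪win E δ ν x ζ, z (rm J z (win E δ ν x ζ))⟫_ℂ -
      ⟪win E δ ν x ζ, win E δ ν x γ⟫_ℂ) ∧
    Integrable (fun t => ((δ * fej (δ * t) ^ 2 : ℝ) : ℂ) *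
      (⟪x ζ, E.sig (-t) z (rm J (E.sig (-t) z) (x ζ))⟫_ℂ - ⟪x ζ, x (E.U (-t) γ)⟫_ℂ)) ∧
    ∫ ν, (⟪win E δ ν x ζ, z (rm J z (win E δ ν x ζ))⟫_ℂ - ⟪win E δ ν x ζ, win E δ ν x γ⟫_ℂ) =
      (2 * Real.pi * δ : ℂ) * ∫ t, ((δ * fej (δ * t) ^ 2 : ℝ) : ℂ) *
        (⟪x ζ, E.sig (-t) z (rm J (E.sig (-t) z) (x ζ))⟫_ℂ - ⟪x ζ, x (E.U (-t) γ)⟫_ℂ) := by
  have h0 : ∀ ν, Λ + δ ≤ |ν| → win E δ ν x = 0 := fun ν hν =>
    hE.win_eq_zero hδ hx hs ((le_abs'.1 hν).imp (fun h => by linarith) fun h => by linarith)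
  have hc := (E.scb_sig x).1
  have hb : ∀ t ξ, ‖E.sig t x ξ‖ ≤ ‖x‖ * ‖ξ‖ := fun t ξ => E.norm_sig t x ▸ (E.sig t x).le_opNorm ξ
  let T : H →L[ℂ] H := z * rm J z
  let G : ℝ → H := fun t => T (E.sig t x ζ) - E.sig t x γ
  have hG : Continuous G := (T.continuous.comp (hc ζ)).sub (hc γ)
  have hGb : ∀ t, ‖G t‖ ≤ ‖T‖ * (‖x‖ * ‖ζ‖) + ‖x‖ * ‖γ‖ := fun t =>
    (norm_sub_le _ _).trans (add_le_add ((T.le_opNorm _).trans
      (mul_le_mul_of_nonneg_left (hb t ζ) (norm_nonneg _))) (hb t γ))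
  have hw : ∀ ν ξ, win E δ ν x ξ = ∫ t, fker δ ν t • E.sig t x ξ := fun ν ξ =>
    smear_apply' E (fker_integrable hδ ν) x ξ
  have hI : ∀ ν ξ, Integrable fun t => fker δ ν t • E.sig t x ξ := fun ν ξ =>
    (E.scb_sig x).integrable (fker_integrable hδ ν) ξ
  have hwG : ∀ ν, ∫ t, fker δ ν t • G t = T (win E δ ν x ζ) - win E δ ν x γ := fun ν => by
    rw [hw, hw, ← T.integral_comp_comm (hI ν ζ), ← integral_sub (T.integrable_comp (hI ν ζ)) (hI ν γ)]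
    simp only [G, smul_sub, ContinuousLinearMap.map_smul]
  have e : ∀ t, ⟪x ζ, E.sig (-t) z (rm J (E.sig (-t) z) (x ζ))⟫_ℂ - ⟪x ζ, x (E.U (-t) γ)⟫_ℂ =
      ⟪E.sig t x ζ, G t⟫_ℂ := fun t => by
    have u : ∀ ξ, E.U t (E.U (-t) ξ) = ξ := fun ξ => by
      rw [← mul_apply_eq_comp, E.U_mul_neg, one_apply_eq_self]
    rw [inner_sub_right, hE.rm_sig, hE.sig_apply, ← E.inner_U t (x ζ), ← E.inner_U t (x ζ)]
    simp only [SpecCalc.sig, mul_apply_eq_comp, neg_neg, u, T]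
  have hK : 0 ≤ ‖x‖ * ‖ζ‖ := by positivity
  refine ⟨?_, ?_, ?_⟩
  · have h1 : ∀ ξ, Continuous fun ν => win E δ ν x ξ := fun ξ =>
      (continuous_win E hδ x).clm_apply continuous_const
    refine Continuous.integrable_of_hasCompactSupport
      (((h1 ζ).inner (z.continuous.comp ((rm J z).continuous.comp (h1 ζ)))).sub
        ((h1 ζ).inner (h1 γ))) (HasCompactSupport.intro
        (isCompact_Icc (a := -(Λ + δ)) (b := Λ + δ)) fun ν hν => ?_)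
    rw [h0 ν (not_le.1 fun h => hν (abs_le.1 h)).le]
    simp
  · simp only [e]
    exact (fej_sq_scale hδ).1.ofReal.mul_bdd ((hc ζ).inner hG).aestronglyMeasurable
      (ae_of_all _ fun t => (norm_inner_le_norm _ _).trans
        (mul_le_mul (hb t ζ) (hGb t) (norm_nonneg _) hK))
  · have := plancherel_win (hc ζ) hG (‖x‖ * ‖ζ‖ + (‖T‖ * (‖x‖ * ‖ζ‖) + ‖x‖ * ‖γ‖))
      (fun t => (hb t ζ).trans (le_add_of_nonneg_right (by positivity)))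
      (fun t => (hGb t).trans (le_add_of_nonneg_left hK)) hδ (Λ + δ)
      fun ν hν => by simp [hwG, h0 ν hν]
    simp only [hwG, ← hw, inner_sub_right] at this
    simp only [e]
    simpa only [inner_sub_right, G, T, mul_apply_eq_comp] using this

theorem ergo1_lattice (hE : ModD M J ζ E) (h1 : ‖ζ‖ = 1) {δ δ₁ r : ℝ} (hδ : 0 < δ) (hr0 : 0 < r)
    (hr : Real.exp (δ / 2) = 1 + r) (hr1 : r ≤ 1 / 2) (hr2 : r ≤ δ₁ / 4) {n : ℕ}
    {a b : Fin n → (H →L[ℂ] H)} (hb : ∀ k, b k ∈ M) (haM : ∀ k, a k ∈ M)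
    (ha : ∀ ξ, ∑ k, ‖a k ξ‖ ^ 2 ≤ ‖ξ‖ ^ 2) (hb' : ∀ ξ, ∑ k, ‖(star (b k)) ξ‖ ^ 2 ≤ ‖ξ‖ ^ 2)
    (hab : ∑ k, ‖a k ζ - rm J (b k) ζ‖ ^ 2 ≤ δ₁ ^ 2 / 4) (S : Finset ℤ) (ν₀ : ℝ) :
    ∃ (ν : Fin n × S → ℝ) (A D : Fin n × S → (H →L[ℂ] H)),
      (∀ l, A l = win E δ (δ * l.2 + ν₀) (a l.1)) ∧
      (∀ l, A l ∈ M ∧ D l ∈ M) ∧ (∀ ξ, ∑ l, ‖A l ξ‖ ^ 2 ≤ ‖ξ‖ ^ 2) ∧
      (∀ ξ, ∑ l, Real.exp (-ν l) * ‖(star (D l)) ξ‖ ^ 2 ≤ ‖ξ‖ ^ 2) ∧
      ∑ l, ‖D l ζ - A l ζ‖ ^ 2 ≤ δ₁ ^ 2 ∧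
      ∑ l, ‖D l ζ - ((Real.exp (-ν l / 2) : ℝ) : ℂ) • rm J (D l) ζ‖ ^ 2 ≤ δ₁ ^ 2 ∧
      ‖∑ l, (star (D l)) (A l ζ)‖ ≤ 4 := by
  let ν : Fin n × S → ℝ := fun l => δ * l.2 + ν₀
  let A : Fin n × S → (H →L[ℂ] H) := fun l => win E δ (ν l) (a l.1)
  let B : Fin n × S → (H →L[ℂ] H) := fun l => win E δ (ν l) (b l.1)
  let D : Fin n × S → (H →L[ℂ] H) := fun l => ((Real.exp (ν l / 2) : ℝ) : ℂ) • B l
  have hA : ∀ l, A l ∈ M := fun l => hE.win_mem hδ _ (haM _)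
  have hB : ∀ l, B l ∈ M := fun l => hE.win_mem hδ _ (hb _)
  have hD : ∀ l, D l ∈ M := fun l => vn_smul_mem _ (hB l)
  have cA : ∀ ξ, ∑ l, ‖A l ξ‖ ^ 2 ≤ ‖ξ‖ ^ 2 := fun ξ => by
    rw [Fintype.sum_prod_type]
    exact win_col E hδ ν₀ (fun i : S => (i : ℤ)) Subtype.val_injective a ha ξ
  have cB : ∀ ξ, ∑ l, ‖(star (B l)) ξ‖ ^ 2 ≤ ‖ξ‖ ^ 2 := fun ξ => by
    rw [Fintype.sum_prod_type]
    refine le_of_eq_of_le ?_ (win_col E hδ (-ν₀) (fun i : S => -(i : ℤ))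
      (neg_injective.comp Subtype.val_injective) (fun k => star (b k)) hb' ξ)
    refine Finset.sum_congr rfl fun k _ => Finset.sum_congr rfl fun i _ => ?_
    rw [star_win E hδ, Int.cast_neg, mul_neg, ← neg_add]
  have cB1 : ∑ l, ‖(star (B l)) ζ‖ ^ 2 ≤ 1 := by simpa [h1] using cB ζ
  have nD : ∀ l ξ, ‖D l ξ‖ = Real.exp (ν l / 2) * ‖B l ξ‖ := fun l ξ => by
    rw [smul_apply, norm_smul, Complex.norm_real,
      Real.norm_of_nonneg (Real.exp_nonneg _)]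
  have d1 : ∀ l, ‖D l ζ‖ ≤ (1 + r) * ‖(star (B l)) ζ‖ := fun l => by
    have h := mul_le_mul_of_nonneg_left (hE.le_norm_star (hB l) (hE.specIn_win hδ (ν l) (b l.1)))
      (Real.exp_nonneg (δ / 2))
    rw [← mul_assoc, ← Real.exp_add, show δ / 2 + (ν l - δ) / 2 = ν l / 2 by ring, hr] at h
    rwa [nD]
  have d2 : ∀ l, ‖D l ζ - rm J (B l) ζ‖ ≤ δ₁ / 2 * ‖(star (B l)) ζ‖ := fun l => by
    have h := hE.eig_bound (hB l) hδ.le (hE.specIn_win hδ (ν l) (b l.1))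
    rw [norm_sub_rev, hr, add_sub_cancel_left, mul_right_comm, ← nD] at h
    have h2 := mul_le_mul_of_nonneg_right (d1 l) hr0.le
    have h3 : (1 + r) * r ≤ δ₁ / 2 := by nlinarith
    have h4 := mul_le_mul_of_nonneg_right h3 (norm_nonneg ((star (B l)) ζ))
    exact h.trans (by linarith)
  have s2 : ∑ l, ‖D l ζ - rm J (B l) ζ‖ ^ 2 ≤ δ₁ ^ 2 / 4 := by
    refine (Finset.sum_le_sum fun l _ => pow_le_pow_left₀ (norm_nonneg _) (d2 l) 2).trans ?_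
    simp only [mul_pow, ← Finset.mul_sum]
    nlinarith [sq_nonneg δ₁]
  have s3 : ∑ l, ‖rm J (B l) ζ - A l ζ‖ ^ 2 ≤ δ₁ ^ 2 / 4 := by
    rw [Fintype.sum_prod_type]
    refine (Finset.sum_le_sum fun k _ => ?_).trans hab
    refine le_of_eq_of_le (Finset.sum_congr rfl fun i _ => ?_)
      (trif_col E hδ ν₀ (fun i : S => (i : ℤ)) Subtype.val_injective _)
    rw [hE.rm_win_apply hδ, hE.win_apply hδ, norm_sub_rev, ContinuousLinearMap.map_sub]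
  refine ⟨ν, A, D, fun l => rfl, fun l => ⟨hA l, hD l⟩, cA, fun ξ => le_of_eq_of_le
    (Finset.sum_congr rfl fun l _ => ?_) (cB ξ), ?_, le_of_eq_of_le
    (Finset.sum_congr rfl fun l _ => ?_) (s2.trans (by nlinarith [sq_nonneg δ₁])), ?_⟩
  · rw [star_smul, smul_apply, norm_smul, norm_star, Complex.norm_real,
      Real.norm_of_nonneg (Real.exp_nonneg _), mul_pow, ← mul_assoc, sq (Real.exp _),
      ← Real.exp_add, ← Real.exp_add, add_halves, neg_add_cancel, Real.exp_zero, one_mul]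
  · have h : ∀ l, ‖D l ζ - A l ζ‖ ^ 2 ≤
        2 * ‖D l ζ - rm J (B l) ζ‖ ^ 2 + 2 * ‖rm J (B l) ζ - A l ζ‖ ^ 2 := fun l =>
      (pow_le_pow_left₀ (norm_nonneg _) (norm_sub_le_norm_sub_add_norm_sub _ (rm J (B l) ζ) _)
        2).trans (by nlinarith [sq_nonneg (‖D l ζ - rm J (B l) ζ‖ - ‖rm J (B l) ζ - A l ζ‖)])
    refine (Finset.sum_le_sum fun l _ => h l).trans ?_
    rw [Finset.sum_add_distrib, ← Finset.mul_sum, ← Finset.mul_sum]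
    linarith
  · rw [rm_smul, smul_apply (rm J (B l)), smul_smul,
      ← Complex.ofReal_mul, ← Real.exp_add, neg_div, neg_add_cancel, Real.exp_zero,
      Complex.ofReal_one, one_smul]
  · have hX : ∑ l, star (D l) * A l ∈ M := sum_mem fun l _ => mul_mem (star_mem (hD l)) (hA l)
    have e : (∑ l, star (D l) * A l) ζ = ∑ l, (star (D l)) (A l ζ) := by
      simp only [sum_apply, mul_apply_eq_comp]
    have hs : SpecIn E ((∑ l, star (D l) * A l) ζ) (-(2 * δ)) (2 * δ) := by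
      rw [e]
      refine E.null_sum measurableSet_Icc.compl _ fun l _ => ?_
      have h2 : SpecIn E (D l ζ) (ν l - δ) (ν l + δ) :=
        E.null_smul measurableSet_Icc.compl _ (hE.specIn_win hδ (ν l) (b l.1))
      exact (hE.specIn_mul (star_mem (hD l)) (hE.specIn_star (hD l) h2)
        (hE.specIn_win hδ (ν l) (a l.1))).mono (by linarith) (by linarith)
    have h2 := hE.le_norm_star hX hs
    have h3 : ‖(star (∑ l, star (D l) * A l)) ζ‖ ^ 2 ≤ (1 + r) ^ 2 := by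
      simp only [star_sum, star_mul, star_star, sum_apply,
        mul_apply_eq_comp]
      refine (ergo1_row A cA _).trans ((Finset.sum_le_sum fun l _ =>
        pow_le_pow_left₀ (norm_nonneg _) (d1 l) 2).trans ?_)
      simp only [mul_pow, ← Finset.mul_sum]
      exact mul_le_of_le_one_right (sq_nonneg _) cB1
    have h4 := mul_le_mul_of_nonneg_left
      (h2.trans (le_of_pow_le_pow_left₀ two_ne_zero (by linarith) h3)) (Real.exp_nonneg (δ / 2 + δ / 2))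
    rw [← mul_assoc, ← Real.exp_add, show δ / 2 + δ / 2 + -(2 * δ) / 2 = 0 by ring, Real.exp_zero,
      one_mul, e, Real.exp_add, hr] at h4
    have h5 : (1 + r) * (1 + r) ≤ 9 / 4 := by nlinarith
    nlinarith

/-- time averaged form of the key estimate -/
theorem key_average (hE : ModD M J ζ E) (h1 : ‖ζ‖ = 1) (hF : EigFam M J ζ) {z : H →L[ℂ] H}
    (hsa : IsSelfAdjoint z) (hz : ∀ s, BRel M J ζ s z z) {ε : ℝ} (hε : 0 < ε) :
    ∃ δ : ℝ, 0 < δ ∧ ∃ ε' : ℝ, 0 < ε' ∧ ∀ (n : ℕ) (a b : Fin n → (H →L[ℂ] H)) (Λ : ℝ),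
      (∀ k, a k ∈ M ∧ b k ∈ M ∧ SpecIn E (a k ζ) (-Λ) Λ) →
      (∀ ξ, ∑ k, ‖a k ξ‖ ^ 2 ≤ ‖ξ‖ ^ 2) → (∀ ξ, ∑ k, ‖(star (b k)) ξ‖ ^ 2 ≤ ‖ξ‖ ^ 2) →
      ∑ k, ‖a k ζ - rm J (b k) ζ‖ ^ 2 ≤ ε' →
      ‖∫ t, ((δ * fej (δ * t) ^ 2 : ℝ) : ℂ) *
        (∑ k, ⟪a k ζ, E.sig (-t) z (rm J (E.sig (-t) z) (a k ζ))⟫_ℂ -
          ∑ k, ⟪a k ζ, a k (E.U (-t) (z (rm J z ζ)))⟫_ℂ)‖ ≤ ε := by
  obtain ⟨δ₁, hδ₁, hk⟩ := key_estimate hE.std h1 hF hsa hz hε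
  obtain ⟨r, hr0, hr1, hr2⟩ : ∃ r : ℝ, 0 < r ∧ r ≤ 1 / 2 ∧ r ≤ δ₁ / 4 :=
    ⟨min (1 / 2) (δ₁ / 4), by positivity, min_le_left _ _, min_le_right _ _⟩
  obtain ⟨δ, hδ, hr⟩ : ∃ δ : ℝ, 0 < δ ∧ Real.exp (δ / 2) = 1 + r :=
    ⟨2 * Real.log (1 + r), mul_pos two_pos (Real.log_pos (by linarith)), by
      rw [mul_div_cancel_left₀ _ two_ne_zero, Real.exp_log (by linarith)]⟩
  refine ⟨δ, hδ, δ₁ ^ 2 / 4, by positivity, fun n a b Λ hab ha hb hc => ?_⟩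
  have hp := fun k => ergo1_planch hE hδ (hab k).1 (hab k).2.2 z (z (rm J z ζ))
  let F : ℝ → ℂ := fun ν => ∑ k, (⟪win E δ ν (a k) ζ, z (rm J z (win E δ ν (a k) ζ))⟫_ℂ -
    ⟪win E δ ν (a k) ζ, win E δ ν (a k) (z (rm J z ζ))⟫_ℂ)
  have hFc : Continuous F := continuous_finsetSum _ fun k _ => by
    have h : ∀ ξ, Continuous fun ν => win E δ ν (a k) ξ := fun ξ =>
      (continuous_win E hδ (a k)).clm_apply continuous_const
    exact ((h ζ).inner (z.continuous.comp ((rm J z).continuous.comp (h ζ)))).sub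
      ((h ζ).inner (h _))
  have hF0 : ∀ ν, Λ + δ ≤ |ν| → F ν = 0 := fun ν hν => Finset.sum_eq_zero fun k _ => by
    rw [hE.win_eq_zero hδ (hab k).1 (hab k).2.2
      ((le_abs'.1 hν).imp (fun h => by linarith) fun h => by linarith)]
    simp
  obtain ⟨N, hN⟩ := exists_nat_ge ((Λ + δ) / δ)
  have b1 : ‖∫ ν, F ν‖ ≤ ε * |δ - 0| := by
    rw [integral_lattice hFc hδ ((div_le_iff₀ hδ).1 hN) hF0]
    refine intervalIntegral.norm_integral_le_of_norm_le_const fun ν₀ _ => ?_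
    obtain ⟨ν, A, D, e, k1, k2, k3, k4, k5, k6⟩ := ergo1_lattice hE h1 hδ hr0 hr hr1 hr2
      (fun k => (hab k).2.1) (fun k => (hab k).1) ha hb hc (Finset.Icc (-(N : ℤ)) N) ν₀
    refine le_of_eq_of_le (congrArg norm ?_) (hk _ ν A D k1 k2 k3 k4 k5 k6)
    rw [← Finset.sum_sub_distrib, Fintype.sum_prod_type_right, ← Finset.sum_coe_sort]
    simp only [e, F]
  rw [integral_finsetSum _ fun k _ => (hp k).1] at b1
  simp only [fun k => (hp k).2.2] at b1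
  rw [← Finset.mul_sum, ← integral_finsetSum _ fun k _ => (hp k).2.1, norm_mul, sub_zero,
    abs_of_pos hδ] at b1
  simp only [← Finset.mul_sum, Finset.sum_sub_distrib] at b1
  have e : ‖(2 * Real.pi * δ : ℂ)‖ = 2 * Real.pi * δ := by
    simp [abs_of_pos hδ, abs_of_pos Real.pi_pos]
  rw [e] at b1
  refine le_of_mul_le_mul_left (le_trans (mul_le_mul_of_nonneg_right ?_ (norm_nonneg _))
    (b1.trans_eq (mul_comm _ _))) hδ
  nlinarith [Real.pi_gt_three]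

end Pool.Agent.P.MP_5d580a_an
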