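import Pool.Agent.P.MP_5d580a_an.Three

open scoped ComplexOrder InnerProductSpace ComplexConjugate BoundedContinuousFunction
open MeasureTheory Filter Topology

set_option linter.unusedSectionVars false
set_option linter.unusedVariables false

noncomputable section

namespace Pool.Agent.P.MP_5d580a_an

variable {H : Type} [NormedAddCommGroup H] [InnerProductSpace ℂ H] [CompleteSpace H]

variable {M : VonNeumannAlgebra H} {J : H ≃ₗᵢ⋆[ℂ] H} {ζ : H}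

theorem greedy_norm_sq (b : H →L[ℂ] H) (ξ : H) :
    ‖(star b) ξ‖ ^ 2 = (⟪ξ, (b * star b) ξ⟫_ℂ).re := by
  rw [norm_sq_apply, star_star]

theorem greedy_re_one (ξ : H) : (⟪ξ, (1 : H →L[ℂ] H) ξ⟫_ℂ).re = ‖ξ‖ ^ 2 := by
  have := norm_sq_apply (1 : H →L[ℂ] H) ξ
  rw [star_one, one_mul] at this
  exact this.symm

theorem greedy_re_add (x y : H →L[ℂ] H) (ξ : H) :
    (⟪ξ, (x + y) ξ⟫_ℂ).re = (⟪ξ, x ξ⟫_ℂ).re + (⟪ξ, y ξ⟫_ℂ).re := by
  rw [← Complex.add_re, ← inner_add_right]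
  rfl

theorem greedy_re_sum {n : ℕ} (b : Fin n → (H →L[ℂ] H)) (ξ : H) :
    (⟪ξ, (∑ k, b k * star (b k)) ξ⟫_ℂ).re = ∑ k, ‖(star (b k)) ξ‖ ^ 2 := by
  simp only [greedy_norm_sq, ContinuousLinearMap.sum_apply, inner_sum, Complex.re_sum]

/-- an admissible pair -/
def GreedyAdm (M : VonNeumannAlgebra H) (J : H ≃ₗᵢ⋆[ℂ] H) (ζ : H) (Z : Finset (H →L[ℂ] H))
    (ε : ℝ) (b f : H →L[ℂ] H) : Prop :=
  b ∈ M ∧ f ∈ M ∧ IsStarProjection f ∧ f ≠ 0 ∧ rm J b ζ ≠ 0 ∧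
    (∀ z ∈ Z, ∃ s : ℝ, ‖f * z * f - (s : ℂ) • f‖ ≤ ε) ∧
    ‖(1 - f) (rm J b ζ)‖ ≤ ε * ‖rm J b ζ‖

theorem greedy_step (hs : StdV M J ζ) (Z : Finset (H →L[ℂ] H))
    (hZ : ∀ z ∈ Z, z ∈ M ∧ IsSelfAdjoint z) {ε : ℝ} (hε : 0 < ε) {y : H →L[ℂ] H} (hy : y ∈ M)
    (h1 : y ≤ 1) (hlt : (⟪ζ, y ζ⟫_ℂ).re < ‖ζ‖ ^ 2) :
    ∃ b f, GreedyAdm M J ζ Z ε b f ∧ y + b * star b ≤ 1 := by
  have hJ := hs.stdJ.invol
  obtain ⟨k, hk0, hkk, -, hkc⟩ := exists_sqrt (sub_nonneg.2 h1)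
  have hk : k ∈ M := mem_of_commute fun a ha =>
    hkc a (commute_of_mem (sub_mem (one_mem M) hy) ha).symm
  have hks : star k = k := (IsSelfAdjoint.of_nonneg hk0).star_eq
  have hγ : rm J k ζ ≠ 0 := by
    intro h0
    have e1 := greedy_norm_sq k ζ
    rw [← norm_rm_apply k hs.fix, h0, hks, hkk] at e1
    have e2 := greedy_re_add y (1 - y) ζ
    rw [add_sub_cancel, greedy_re_one, ← e1] at e2
    simp only [norm_zero, ne_eq, OfNat.ofNat_ne_zero, not_false_eq_true, zero_pow, add_zero] at e2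
    exact hlt.ne e2.symm
  obtain ⟨s, hsM, hsp, hsγ, hs0, hsa, -⟩ := exists_supp M (rm J k ζ)
  have hsne : s ≠ 0 := fun h => hγ (by rw [← hsγ, h]; rfl)
  obtain ⟨f, hfM, hfp, hf0, hsf, hfz⟩ := exists_good_proj hsM hsp hsne Z hZ hε
  have hfγ : f (rm J k ζ) ≠ 0 := fun h => hf0 (by
    have e1 := congrArg star (hs0 f hfM h)
    rwa [star_mul, hsp.isSelfAdjoint.star_eq, hfp.isSelfAdjoint.star_eq, hsf, star_zero] at e1)
  have hpos := norm_pos_iff.2 hfγ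
  obtain ⟨a, haM, ha⟩ := hsa (f (rm J k ζ)) (by rw [← mul_apply_eq_comp, hsf])
    (ε * (‖f (rm J k ζ)‖ / (1 + ε))) (by positivity)
  have hlow : ‖f (rm J k ζ)‖ / (1 + ε) ≤ ‖a (rm J k ζ)‖ := by
    have e1 := norm_sub_norm_le (f (rm J k ζ)) (a (rm J k ζ))
    rw [norm_sub_rev] at e1
    have e2 : ‖f (rm J k ζ)‖ = (1 + ε) * (‖f (rm J k ζ)‖ / (1 + ε)) := by field_simp
    linarith
  have hup : ‖(1 - f) (a (rm J k ζ))‖ ≤ ε * ‖a (rm J k ζ)‖ := by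
    have e1 : (1 - f) (a (rm J k ζ)) = (1 - f) (a (rm J k ζ) - f (rm J k ζ)) := by
      rw [map_sub, ← mul_apply_eq_comp (1 - f) f, hfp.one_sub_mul_self]
      simp
    rw [e1]
    exact (proj_norm_le hfp.one_sub _).trans (ha.trans (mul_le_mul_of_nonneg_left hlow hε.le))
  have ht : (0 : ℝ) < (‖a‖ + 1)⁻¹ := by positivity
  have e : rm J (k * ((((‖a‖ + 1)⁻¹ : ℝ) : ℂ) • rm J a)) ζ =
      (((‖a‖ + 1)⁻¹ : ℝ) : ℂ) • a (rm J k ζ) := by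
    rw [rm_mul hJ, rm_smul, rm_rm hJ]
    rfl
  refine ⟨k * ((((‖a‖ + 1)⁻¹ : ℝ) : ℂ) • rm J a), f,
    ⟨mul_mem hk (vn_smul_mem _ (hs.stdJ.mem' a haM)), hfM, hfp, hf0, ?_, hfz, ?_⟩, ?_⟩
  · rw [e]
    exact smul_ne_zero (Complex.ofReal_ne_zero.2 ht.ne')
      (norm_pos_iff.1 (lt_of_lt_of_le (by positivity) hlow))
  · rw [e, map_smul, norm_smul, norm_smul, mul_left_comm]
    exact mul_le_mul_of_nonneg_left hup (norm_nonneg _)
  · have hc : ‖star ((((‖a‖ + 1)⁻¹ : ℝ) : ℂ) • rm J a)‖ ≤ 1 := by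
      rw [norm_star, norm_smul, norm_rm, Complex.norm_real, Real.norm_of_nonneg ht.le,
        inv_mul_le_iff₀ (by positivity)]
      linarith
    have h2 := star_left_conjugate_le_conjugate (star_mul_self_le_one hc) k
    rw [star_star, mul_one, hks, hkk] at h2
    rw [star_mul, hks, ← le_sub_iff_add_le']
    simpa only [mul_assoc] using h2

theorem greedy_rows (hs : StdV M J ζ) (Z : Finset (H →L[ℂ] H))
    (hZ : ∀ z ∈ Z, z ∈ M ∧ IsSelfAdjoint z) {ε : ℝ} (hε : 0 < ε) :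
    ∃ (n : ℕ) (b f : Fin n → (H →L[ℂ] H)),
      (∀ k, b k ∈ M ∧ f k ∈ M ∧ IsStarProjection (f k) ∧ f k ≠ 0 ∧ rm J (b k) ζ ≠ 0 ∧
        (∀ z ∈ Z, ∃ s : ℝ, ‖f k * z * f k - (s : ℂ) • f k‖ ≤ ε) ∧
        ‖(1 - f k) (rm J (b k) ζ)‖ ≤ ε * ‖rm J (b k) ζ‖) ∧
      (∀ ξ, ∑ k, ‖(star (b k)) ξ‖ ^ 2 ≤ ‖ξ‖ ^ 2) ∧
      ‖ζ‖ ^ 2 / 2 ≤ ∑ k, ‖rm J (b k) ζ‖ ^ 2 := by
  rcases eq_or_ne ζ 0 with rfl | h0
  · exact ⟨0, Fin.elim0, Fin.elim0, fun k => k.elim0, fun ξ => by simp, by simp⟩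
  let A : Set (H →L[ℂ] H) := {a | ∃ (n : ℕ) (b f : Fin n → (H →L[ℂ] H)),
    (∀ k, GreedyAdm M J ζ Z ε (b k) (f k)) ∧ a = ∑ k, b k * star (b k)}
  have hA : ∀ a ∈ A, ∀ b f, GreedyAdm M J ζ Z ε b f → a + b * star b ∈ A := by
    rintro _ ⟨n, b, f, h, rfl⟩ b' f' h'
    refine ⟨n + 1, Fin.cons b' b, Fin.cons f' f, fun k => Fin.cases h' h k, ?_⟩
    rw [Fin.sum_univ_succ, add_comm]
    rfl
  let S := {y : H →L[ℂ] H // y ∈ M ∧ 0 ≤ y ∧ y ≤ 1 ∧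
    ∀ δ : ℝ, 0 < δ → ∃ a ∈ A, a ≤ y ∧ (⟪ζ, y ζ⟫_ℂ).re ≤ (⟪ζ, a ζ⟫_ℂ).re + δ}
  obtain ⟨⟨y, hyM, hy0, hy1, hy⟩, -, hmax⟩ := brezis_browder (S := S) (fun s t => s.1 ≤ t.1)
    (fun s => le_rfl) (fun s t u => le_trans) (fun s => (⟪ζ, s.1 ζ⟫_ℂ).re)
    (fun s t h => re_inner_mono h ζ) _ (fun s => re_inner_mono s.2.2.2.1 ζ)
    (fun s hmono => by
      obtain ⟨z, -, -, hz, hlim⟩ := exists_mono_lim (fun n => (s n).1)
        (fun n => IsSelfAdjoint.of_nonneg (s n).2.2.1) hmono 1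
        fun n => norm_le_one_of_le_one (s n).2.2.1 (s n).2.2.2.1
      have hw := wot_of_sot hlim
      have hle := le_of_wot hw (Eventually.of_forall fun n => ⟨(s n).2.2.1, (s n).2.2.2.1⟩)
      refine ⟨⟨z, mem_of_wot hw (Eventually.of_forall fun n => (s n).2.1), hle.1, hle.2,
        fun δ hδ => ?_⟩, hz⟩
      obtain ⟨n, hn⟩ := (((Complex.continuous_re.tendsto _).comp (hw ζ ζ)).eventually
        (lt_mem_nhds (sub_lt_self _ (half_pos hδ)))).exists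
      obtain ⟨a, ha, h1, h2⟩ := (s n).2.2.2.2 _ (half_pos hδ)
      refine ⟨a, ha, h1.trans (hz n), ?_⟩
      simp only [Function.comp] at hn
      linarith)
    ⟨0, zero_mem M, le_rfl, zero_le_one, fun δ hδ =>
      ⟨0, ⟨0, Fin.elim0, Fin.elim0, fun k => k.elim0, by simp⟩, le_rfl, by linarith⟩⟩
  have hge : ‖ζ‖ ^ 2 ≤ (⟪ζ, y ζ⟫_ℂ).re := by
    by_contra hlt
    obtain ⟨b, f, hbf, hle⟩ := greedy_step hs Z hZ hε hyM hy1 (not_le.1 hlt)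
    have h2 := hmax ⟨y + b * star b, add_mem hyM (mul_mem hbf.1 (star_mem hbf.1)),
      add_nonneg hy0 (mul_star_self_nonneg b), hle, fun δ hδ => by
        obtain ⟨a, ha, h1, h2⟩ := hy δ hδ
        refine ⟨_, hA a ha b f hbf, add_le_add h1 le_rfl, ?_⟩
        rw [greedy_re_add, greedy_re_add]
        linarith⟩ (le_add_of_nonneg_right (mul_star_self_nonneg b))
    simp only at h2
    rw [greedy_re_add, ← greedy_norm_sq, ← norm_rm_apply b hs.fix] at h2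
    have h3 := pow_pos (norm_pos_iff.2 hbf.2.2.2.2.1) 2
    linarith
  obtain ⟨_, ⟨n, b, f, h, rfl⟩, h1, h2⟩ := hy (‖ζ‖ ^ 2 / 2) (by positivity)
  refine ⟨n, b, f, h, fun ξ => ?_, ?_⟩
  · rw [← greedy_re_sum, ← greedy_re_one]
    exact re_inner_mono (h1.trans hy1) ξ
  · rw [greedy_re_sum] at h2
    simp only [norm_rm_apply _ hs.fix]
    linarith

theorem greedy_family (hM : IsFactor M) (hs : StdV M J ζ) (hF : Full M J ζ) (h1 : ‖ζ‖ = 1)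
    (Z : Finset (H →L[ℂ] H)) (hZ : ∀ z ∈ Z, z ∈ M ∧ IsSelfAdjoint z) {ε : ℝ} (hε : 0 < ε) :
    ∃ (n : ℕ) (τ : Fin n → ℝ) (u b : Fin n → (H →L[ℂ] H)),
      (∀ k, u k ∈ M ∧ b k ∈ M ∧ star (u k) * u k = 1 ∧
        ∀ z ∈ Z, ∃ s : ℝ, ‖star (u k) * z * u k - (s : ℂ) • (1 : H →L[ℂ] H)‖ ≤ ε) ∧
      (∀ ξ, ∑ k, ‖(star (b k)) ξ‖ ^ 2 ≤ ‖ξ‖ ^ 2) ∧ 1 / 8 ≤ ∑ k, τ k ^ 2 ∧ ∑ k, τ k ^ 2 ≤ 1 ∧
      ∑ k, ‖(τ k : ℂ) • u k ζ - rm J (b k) ζ‖ ^ 2 ≤ ε := by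
  have hJ := hs.stdJ.invol
  have hm : 0 < min ε 1 / 4 := by positivity
  have hm1 : min ε 1 / 4 ≤ ε / 4 := by linarith [min_le_left ε 1]
  have hm2 : min ε 1 / 4 ≤ 1 / 4 := by linarith [min_le_right ε 1]
  generalize min ε 1 / 4 = e at hm hm1 hm2
  obtain ⟨n, b, f, h, hb, hlow⟩ := greedy_rows hs Z hZ hm
  have key : ∀ k, ∃ u c : H →L[ℂ] H, (u ∈ M ∧ c ∈ M ∧ star u * u = 1 ∧
      ∀ z ∈ Z, ∃ s : ℝ, ‖star u * z * u - (s : ℂ) • (1 : H →L[ℂ] H)‖ ≤ ε) ∧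
      (∀ ξ, ‖(star c) ξ‖ ≤ ‖(star (b k)) ξ‖) ∧
      ‖((‖rm J (b k) ζ‖ / 2 : ℝ) : ℂ) • u ζ - rm J c ζ‖ ≤ 2 * e * ‖rm J (b k) ζ‖ := fun k => by
    obtain ⟨hbM, hfM, hfp, hf0, hγ, hz, hfγ⟩ := h k
    obtain ⟨w, hwM, hw1, hw2⟩ := exists_isometry_eq hM hs hF hfM hfp hf0
    have hpos := norm_pos_iff.2 hγ
    have hsplit : ∀ η : H, η = f k η + (1 - f k) η := fun η => by simp
    have hlt : ‖rm J (b k) ζ‖ / 2 < ‖(star w) (rm J (b k) ζ)‖ := by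
      rw [← iso_norm_apply hw1 ((star w) _), ← mul_apply_eq_comp, hw2]
      have e1 := norm_add_le (f k (rm J (b k) ζ)) ((1 - f k) (rm J (b k) ζ))
      rw [← hsplit] at e1
      nlinarith
    obtain ⟨v, hvM, hv1, y, hyM, hy1, hy⟩ := csv hM hs hF h1 _ (by positivity) hlt
      (mul_pos hm hpos)
    have hfw : f k * w = w := by rw [← hw2, mul_assoc, hw1, mul_one]
    have hwf : star w * f k = star w := by rw [← hw2, ← mul_assoc, hw1, one_mul]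
    have hu1 : star (w * v) * (w * v) = 1 := by
      rw [star_mul, mul_assoc, ← mul_assoc (star w), hw1, one_mul, hv1]
    refine ⟨w * v, b k * rm J y, ⟨mul_mem hwM hvM, mul_mem hbM (hs.stdJ.mem' y hyM), hu1,
      fun z hzZ => ?_⟩, fun ξ => ?_, ?_⟩
    · obtain ⟨s, hs'⟩ := hz z hzZ
      refine ⟨s, ?_⟩
      have hfu : f k * (w * v) = w * v := by rw [← mul_assoc, hfw]
      have huf : star (w * v) * f k = star (w * v) := by rw [star_mul, mul_assoc, hwf]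
      have e1 : star (w * v) * z * (w * v) - (s : ℂ) • (1 : H →L[ℂ] H) =
          star (w * v) * (f k * z * f k - (s : ℂ) • f k) * (w * v) := by
        rw [mul_sub, sub_mul, mul_smul_comm, smul_mul_assoc, huf, hu1,
          ← mul_assoc (star (w * v)), ← mul_assoc (star (w * v)), huf, mul_assoc _ (f k), hfu]
      have e2 := iso_norm_le hu1
      have e3 : ‖star (w * v)‖ ≤ 1 := by rwa [norm_star]
      rw [e1]
      calc _ ≤ ‖star (w * v)‖ * ‖f k * z * f k - (s : ℂ) • f k‖ * ‖w * v‖ := norm_mul₃_le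
        _ ≤ 1 * e * 1 := by gcongr
        _ ≤ ε := by linarith
    · rw [star_mul, mul_apply_eq_comp]
      refine ((star (rm J y)).le_opNorm _).trans ?_
      rw [norm_star, norm_rm]
      exact mul_le_of_le_one_left (norm_nonneg _) hy1
    · have e1 : ((‖rm J (b k) ζ‖ / 2 : ℝ) : ℂ) • (w * v) ζ - rm J (b k * rm J y) ζ =
          w (((‖rm J (b k) ζ‖ / 2 : ℝ) : ℂ) • v ζ - y ((star w) (rm J (b k) ζ))) -
            y ((1 - f k) (rm J (b k) ζ)) := by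
        rw [rm_mul hJ, rm_rm hJ, map_sub, map_smul, commute_apply hwM hyM,
          ← mul_apply_eq_comp w (star w), hw2, sub_sub, ← map_add, ← hsplit]
        rfl
      rw [e1]
      refine (norm_sub_le _ _).trans ?_
      rw [iso_norm_apply hw1]
      have e2 := (y.le_opNorm ((1 - f k) (rm J (b k) ζ))).trans
        (mul_le_of_le_one_left (norm_nonneg _) hy1)
      linarith
  choose u c h2 h3 h4 using key
  have hup : ∑ k, ‖rm J (b k) ζ‖ ^ 2 ≤ 1 := by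
    simp only [norm_rm_apply _ hs.fix]
    simpa only [h1, one_pow] using hb ζ
  have e0 : ∑ k, (‖rm J (b k) ζ‖ / 2) ^ 2 = (∑ k, ‖rm J (b k) ζ‖ ^ 2) / 4 := by
    rw [Finset.sum_div]
    exact Finset.sum_congr rfl fun k _ => by ring
  rw [h1] at hlow
  refine ⟨n, fun k => ‖rm J (b k) ζ‖ / 2, u, c, h2, fun ξ => le_trans (Finset.sum_le_sum
    fun k _ => pow_le_pow_left₀ (norm_nonneg _) (h3 k ξ) 2) (hb ξ), by linarith, by linarith, ?_⟩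
  refine (Finset.sum_le_sum fun k _ => pow_le_pow_left₀ (norm_nonneg _) (h4 k) 2).trans ?_
  simp only [mul_pow]
  rw [← Finset.mul_sum]
  have e1 : 2 ^ 2 * e ^ 2 ≤ ε := by nlinarith
  exact (mul_le_of_le_one_right (by positivity) hup).trans e1

end Pool.Agent.P.MP_5d580a_an
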