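import Pool.Agent.P.MP_5d580a_an.Ergo1
import Pool.Agent.P.MP_5d580a_an.Greedy

open scoped ComplexOrder InnerProductSpace ComplexConjugate BoundedContinuousFunction
open MeasureTheory Filter Topology

set_option linter.unusedSectionVars false
set_option linter.unusedVariables false
set_option linter.deprecated false

noncomputable section

namespace Pool.Agent.P.MP_5d580a_an

variable {H : Type} [NormedAddCommGroup H] [InnerProductSpace ℂ H] [CompleteSpace H]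

variable {M : VonNeumannAlgebra H} {J : H ≃ₗᵢ⋆[ℂ] H} {ζ : H} {E : SpecCalc ℝ H}

theorem ergo2_tail {g : ℝ → ℝ} (hg : Integrable g) {κ : ℝ} (hκ : 0 < κ) :
    ∃ T : ℝ, ∫ t in (Set.Icc (-T) T)ᶜ, g t ≤ κ := by
  have h := tendsto_setIntegral_of_antitone (μ := volume) (f := g)
    (s := fun n : ℕ => (Set.Icc (-(n : ℝ)) n)ᶜ) (fun n => measurableSet_Icc.compl)
    (fun m n hmn => by
      have : (m : ℝ) ≤ n := by exact_mod_cast hmn
      exact Set.compl_subset_compl.2 (Set.Icc_subset_Icc (by linarith) this))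
    ⟨0, hg.integrableOn⟩
  have he : (⋂ n : ℕ, (Set.Icc (-(n : ℝ)) n)ᶜ) = ∅ := by
    rw [Set.eq_empty_iff_forall_notMem]
    intro x hx
    obtain ⟨n, hn⟩ := exists_nat_ge |x|
    exact (Set.mem_iInter.1 hx n) ⟨by linarith [neg_abs_le x], by linarith [le_abs_self x]⟩
  rw [he, Measure.restrict_empty, integral_zero_measure] at h
  obtain ⟨n, hn⟩ := (h.eventually (ge_mem_nhds hκ)).exists
  exact ⟨n, hn⟩

theorem ergo2_abs {g : ℝ → ℝ} (hg : Integrable g) (hg0 : ∀ t, 0 ≤ g t) {F : ℝ → ℂ}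
    (hF : Continuous F) {c : ℂ} {η C T ε κ : ℝ} (hη : 0 ≤ η) (hC : 0 ≤ C)
    (h1 : ∀ t, t ∈ Set.Icc (-T) T → ‖F t - c‖ ≤ η) (h2 : ∀ t, ‖F t - c‖ ≤ C)
    (hI : ‖∫ t, ((g t : ℝ) : ℂ) * F t‖ ≤ ε) (ht : ∫ t in (Set.Icc (-T) T)ᶜ, g t ≤ κ) :
    ‖c‖ * ∫ t, g t ≤ ε + η * (∫ t, g t) + C * κ := by
  have hgc : Integrable fun t => ((g t : ℝ) : ℂ) := hg.ofReal
  have i1 : Integrable fun t => ((g t : ℝ) : ℂ) * (F t - c) :=
    hgc.mul_bdd (c := C) (hF.sub continuous_const).aestronglyMeasurable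
      (Eventually.of_forall h2)
  have i2 : Integrable fun t => ((g t : ℝ) : ℂ) * c := hgc.mul_const c
  have e1 : ∫ t, ((g t : ℝ) : ℂ) * F t =
      (∫ t, ((g t : ℝ) : ℂ) * (F t - c)) + ((∫ t, g t : ℝ) : ℂ) * c := by
    rw [← integral_complex_ofReal, ← integral_mul_const, ← integral_add i1 i2]
    congr 1; funext t; ring
  have i3 : Integrable ((Set.Icc (-T) T)ᶜ.indicator g) :=
    hg.indicator measurableSet_Icc.compl
  have b1 : ‖∫ t, ((g t : ℝ) : ℂ) * (F t - c)‖ ≤ η * (∫ t, g t) + C * κ := by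
    refine (norm_integral_le_of_norm_le
      (g := fun t => η * g t + C * (Set.Icc (-T) T)ᶜ.indicator g t)
      ((hg.const_mul η).add (i3.const_mul C)) (Eventually.of_forall fun t => ?_)).trans ?_
    · rw [norm_mul, Complex.norm_real, Real.norm_of_nonneg (hg0 t)]
      by_cases h : t ∈ Set.Icc (-T) T
      · rw [Set.indicator_of_notMem (by simpa using h)]
        have := mul_le_mul_of_nonneg_left (h1 t h) (hg0 t)
        linarith
      · rw [Set.indicator_of_mem (by simpa using h)]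
        have := mul_le_mul_of_nonneg_left (h2 t) (hg0 t)
        have := mul_nonneg hη (hg0 t)
        linarith
    · rw [integral_add (hg.const_mul η) (i3.const_mul C), integral_const_mul, integral_const_mul,
        integral_indicator measurableSet_Icc.compl]
      have := mul_le_mul_of_nonneg_left ht hC
      linarith
  have hI0 : 0 ≤ ∫ t, g t := integral_nonneg hg0
  have e2 : ((∫ t, g t : ℝ) : ℂ) * c =
      (∫ t, ((g t : ℝ) : ℂ) * F t) - ∫ t, ((g t : ℝ) : ℂ) * (F t - c) := by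
    rw [e1]; ring
  have e3 : ‖c‖ * ∫ t, g t = ‖((∫ t, g t : ℝ) : ℂ) * c‖ := by
    rw [norm_mul, Complex.norm_real, Real.norm_of_nonneg hI0, mul_comm]
  rw [e3, e2]
  refine (norm_sub_le _ _).trans ?_
  linarith

theorem ergo2_diff (a a' X : H →L[ℂ] H) (ζ γ : H) {K : ℝ} (hX : ‖X‖ ≤ K) (hγ : ‖γ‖ ≤ K) :
    ‖(⟪a' ζ, X (a' ζ)⟫_ℂ - ⟪a' ζ, a' γ⟫_ℂ) - (⟪a ζ, X (a ζ)⟫_ℂ - ⟪a ζ, a γ⟫_ℂ)‖ ≤
      K * (‖a' ζ - a ζ‖ * (‖a' ζ‖ + ‖a ζ‖) + ‖(star a') (a' ζ) - (star a) (a ζ)‖) := by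
  have hK : 0 ≤ K := (norm_nonneg _).trans hX
  have e : (⟪a' ζ, X (a' ζ)⟫_ℂ - ⟪a' ζ, a' γ⟫_ℂ) - (⟪a ζ, X (a ζ)⟫_ℂ - ⟪a ζ, a γ⟫_ℂ) =
      ⟪a' ζ - a ζ, X (a' ζ)⟫_ℂ + ⟪a ζ, X (a' ζ - a ζ)⟫_ℂ -
        ⟪(star a') (a' ζ) - (star a) (a ζ), γ⟫_ℂ := by
    rw [inner_sub_left, inner_sub_left, map_sub, inner_sub_right, inner_star_left,
      inner_star_left]
    ring
  have hXv : ∀ v, ‖X v‖ ≤ K * ‖v‖ := fun v =>
    (X.le_opNorm v).trans (mul_le_mul_of_nonneg_right hX (norm_nonneg _))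
  have b1 : ‖⟪a' ζ - a ζ, X (a' ζ)⟫_ℂ‖ ≤ ‖a' ζ - a ζ‖ * (K * ‖a' ζ‖) :=
    (norm_inner_le_norm _ _).trans (mul_le_mul_of_nonneg_left (hXv _) (norm_nonneg _))
  have b2 : ‖⟪a ζ, X (a' ζ - a ζ)⟫_ℂ‖ ≤ ‖a ζ‖ * (K * ‖a' ζ - a ζ‖) :=
    (norm_inner_le_norm _ _).trans (mul_le_mul_of_nonneg_left (hXv _) (norm_nonneg _))
  have b3 : ‖⟪(star a') (a' ζ) - (star a) (a ζ), γ⟫_ℂ‖ ≤
      ‖(star a') (a' ζ) - (star a) (a ζ)‖ * K :=
    (norm_inner_le_norm _ _).trans (mul_le_mul_of_nonneg_left hγ (norm_nonneg _))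
  rw [e]
  refine (norm_sub_le _ _).trans ?_
  have := norm_add_le ⟪a' ζ - a ζ, X (a' ζ)⟫_ℂ ⟪a ζ, X (a' ζ - a ζ)⟫_ℂ
  nlinarith

theorem ergo2_win_tendsto (hE : ModD M J ζ E) (x : H →L[ℂ] H) :
    Tendsto (fun n : ℕ => win E ((n : ℝ) + 1) 0 x ζ) atTop (𝓝 (x ζ)) := by
  refine (tendsto_trif E (x ζ)).congr fun n => ?_
  rw [hE.win_apply (by positivity)]

theorem ergo2_win_strong (hE : ModD M J ζ E) {x : H →L[ℂ] H} (hx : x ∈ M) (η : H) :
    Tendsto (fun n : ℕ => win E ((n : ℝ) + 1) 0 x η) atTop (𝓝 (x η)) :=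
  tendsto_of_cyc hE.std.cyc' ‖x‖ (Eventually.of_forall fun n =>
    ⟨hE.win_mem (by positivity) 0 hx, norm_win_le E (by positivity) 0 x⟩) hx
    (ergo2_win_tendsto hE x) η

theorem ergo2_err_tendsto (hE : ModD M J ζ E) {a : H →L[ℂ] H} (ha : a ∈ M) :
    Tendsto (fun n : ℕ => ‖win E ((n : ℝ) + 1) 0 a ζ - a ζ‖ *
      (‖win E ((n : ℝ) + 1) 0 a ζ‖ + ‖a ζ‖) +
      ‖(star (win E ((n : ℝ) + 1) 0 a)) (win E ((n : ℝ) + 1) 0 a ζ) - (star a) (a ζ)‖)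
      atTop (𝓝 0) := by
  have t1 := ergo2_win_tendsto hE a
  have t2 : Tendsto (fun n : ℕ => ‖win E ((n : ℝ) + 1) 0 a ζ - a ζ‖) atTop (𝓝 0) :=
    tendsto_iff_norm_sub_tendsto_zero.1 t1
  have t3 := t2.mul (t1.norm.add_const ‖a ζ‖)
  have t4 : Tendsto (fun n : ℕ => ‖win E ((n : ℝ) + 1) 0 (star a) (a ζ) - (star a) (a ζ)‖)
      atTop (𝓝 0) :=
    tendsto_iff_norm_sub_tendsto_zero.1 (ergo2_win_strong hE (star_mem ha) (a ζ))
  have t5 : Tendsto (fun n : ℕ =>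
      ‖(star (win E ((n : ℝ) + 1) 0 a)) (win E ((n : ℝ) + 1) 0 a ζ) - (star a) (a ζ)‖)
      atTop (𝓝 0) := by
    have t6 := (t2.const_mul ‖a‖).add t4
    rw [mul_zero, add_zero] at t6
    refine squeeze_zero (fun n => norm_nonneg _) (fun n => ?_) t6
    have hn : (0 : ℝ) < (n : ℝ) + 1 := by positivity
    rw [star_win E hn, neg_zero]
    have e : win E ((n : ℝ) + 1) 0 (star a) (win E ((n : ℝ) + 1) 0 a ζ) - (star a) (a ζ) =
        win E ((n : ℝ) + 1) 0 (star a) (win E ((n : ℝ) + 1) 0 a ζ - a ζ) +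
          (win E ((n : ℝ) + 1) 0 (star a) (a ζ) - (star a) (a ζ)) := by
      rw [map_sub]; abel
    rw [e]
    refine (norm_add_le _ _).trans (add_le_add ?_ le_rfl)
    refine (ContinuousLinearMap.le_opNorm _ _).trans
      (mul_le_mul_of_nonneg_right ?_ (norm_nonneg _))
    exact (norm_win_le E hn 0 _).trans (norm_star a).le
  have := t3.add t5
  rwa [zero_mul, add_zero] at this

theorem ergo2_first (hJ : StdJ M J) (h1 : ‖ζ‖ = 1) {u y : H →L[ℂ] H} (hu : u ∈ M) (hy : y ∈ M)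
    (h0 : ⟪ζ, rm J y ζ⟫_ℂ = 0) {s : ℂ} {η : ℝ}
    (hs : ‖star u * y * u - s • (1 : H →L[ℂ] H)‖ ≤ η) (τ : ℝ) :
    ‖⟪((τ : ℂ) • u) ζ, y (rm J y (((τ : ℂ) • u) ζ))⟫_ℂ‖ ≤ τ ^ 2 * (η * ‖y‖) := by
  have e : ⟪((τ : ℂ) • u) ζ, y (rm J y (((τ : ℂ) • u) ζ))⟫_ℂ =
      ((τ ^ 2 : ℝ) : ℂ) * ⟪ζ, (star u * y * u - s • (1 : H →L[ℂ] H)) (rm J y ζ)⟫_ℂ := by
    rw [ContinuousLinearMap.smul_apply, map_smul, map_smul, inner_smul_left, inner_smul_right,
      ← hJ.comm_apply hu hy, ContinuousLinearMap.sub_apply, inner_sub_right,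
      ContinuousLinearMap.smul_apply, inner_smul_right, ContinuousLinearMap.one_apply, h0,
      ContinuousLinearMap.mul_apply, ContinuousLinearMap.mul_apply, inner_star_right,
      Complex.conj_ofReal]
    push_cast; ring
  rw [e, norm_mul, Complex.norm_real, Real.norm_of_nonneg (sq_nonneg τ)]
  refine mul_le_mul_of_nonneg_left ((norm_inner_le_norm _ _).trans ?_) (sq_nonneg τ)
  rw [h1, one_mul]
  refine (ContinuousLinearMap.le_opNorm _ _).trans ?_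
  refine mul_le_mul hs ?_ (norm_nonneg _) ((norm_nonneg _).trans hs)
  refine (ContinuousLinearMap.le_opNorm _ _).trans ?_
  rw [h1, mul_one, norm_rm]

theorem ergo2_second {u : H →L[ℂ] H} (hu : star u * u = 1) (τ : ℝ) (ζ γ : H) :
    ⟪((τ : ℂ) • u) ζ, ((τ : ℂ) • u) γ⟫_ℂ = ((τ ^ 2 : ℝ) : ℂ) * ⟪ζ, γ⟫_ℂ := by
  rw [ContinuousLinearMap.smul_apply, ContinuousLinearMap.smul_apply, inner_smul_left,
    inner_smul_right, ← inner_star_right, ← ContinuousLinearMap.mul_apply, hu,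
    ContinuousLinearMap.one_apply, Complex.conj_ofReal]
  push_cast; ring

theorem ergo2_inner_U (hE : ModD M J ζ E) (t : ℝ) (γ : H) : ⟪ζ, E.U t γ⟫_ℂ = ⟪ζ, γ⟫_ℂ := by
  have := E.inner_U t ζ γ
  rwa [hE.U_fix] at this

theorem ergo2_col (E : SpecCalc ℝ H) {δ : ℝ} (hδ : 0 < δ) {n : ℕ} (a : Fin n → (H →L[ℂ] H))
    (ha : ∀ ξ, ∑ k, ‖a k ξ‖ ^ 2 ≤ ‖ξ‖ ^ 2) (ξ : H) :
    ∑ k, ‖win E δ 0 (a k) ξ‖ ^ 2 ≤ ‖ξ‖ ^ 2 := by
  have := win_col E hδ 0 (ι := Unit) (fun _ => 0) (fun _ _ _ => rfl) a ha ξ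
  simpa using this

theorem ergo2_main (hM : IsFactor M) (hE : ModD M J ζ E) (hFu : Full M J ζ) (h1 : ‖ζ‖ = 1)
    {z : H →L[ℂ] H} (hsa : IsSelfAdjoint z) (hz : ∀ s, BRel M J ζ s z z) (hc : NCont E.sig z)
    (h0 : ⟪ζ, z ζ⟫_ℂ = 0) {ε : ℝ} (hε : 0 < ε) :
    1 / 8 * ‖⟪ζ, z (rm J z ζ)⟫_ℂ‖ * ∫ t, fej t ^ 2 ≤
      ε + (ε + 2 * ε * ‖z‖) * (∫ t, fej t ^ 2) + (ε + ‖z‖ * ‖z‖) * ε := by
  have hzM : z ∈ M := bic_mem (hz 0).1
  have hJ := hE.std.stdJ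
  obtain ⟨δ, hδ, ε', hε', hkey⟩ := key_average hE h1 (eigFam hM hE.std hFu h1) hsa hz hε
  obtain ⟨hgi, hgI⟩ := fej_sq_scale hδ
  obtain ⟨T, hT⟩ := ergo2_tail hgi hε
  have hcont : Continuous fun t : ℝ => E.sig (-t) z := hc.continuous_sig.comp continuous_neg
  obtain ⟨Z, hZs, hZf, hZc⟩ := finite_cover_balls_of_compact
    ((isCompact_Icc (a := -T) (b := T)).image hcont) hε
  have hzt : ∀ t, E.sig t z ∈ M ∧ IsSelfAdjoint (E.sig t z) := fun t =>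
    ⟨hE.inv t z hzM, by rw [IsSelfAdjoint, ← E.sig_star, hsa.star_eq]⟩
  obtain ⟨n, τ, u, b, hub, hb, hτ1, hτ2, hd⟩ := greedy_family hM hE.std hFu h1 hZf.toFinset
    (fun y hy => by
      obtain ⟨t, -, rfl⟩ := hZs (hZf.mem_toFinset.1 hy)
      exact hzt _) (lt_min hε hε')
  set a : Fin n → (H →L[ℂ] H) := fun k => (τ k : ℂ) • u k with ha
  have haM : ∀ k, a k ∈ M := fun k => vn_smul_mem _ (hub k).1
  have hna : ∀ k ξ, ‖a k ξ‖ ^ 2 = τ k ^ 2 * ‖ξ‖ ^ 2 := fun k ξ => by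
    simp only [ha, ContinuousLinearMap.smul_apply, norm_smul, Complex.norm_real,
      Real.norm_eq_abs, iso_norm_apply (hub k).2.2.1, mul_pow, sq_abs]
  have hcol : ∀ ξ, ∑ k, ‖a k ξ‖ ^ 2 ≤ ‖ξ‖ ^ 2 := fun ξ => by
    simp only [hna]
    rw [← Finset.sum_mul]
    exact mul_le_of_le_one_left (sq_nonneg _) hτ2
  have terr := (tendsto_finsetSum Finset.univ fun k _ =>
    ergo2_err_tendsto hE (haM k)).const_mul (‖z‖ * ‖z‖)
  rw [Finset.sum_const_zero, mul_zero] at terr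
  obtain ⟨N, hN⟩ := (terr.eventually (ge_mem_nhds hε)).exists
  have hR : (0 : ℝ) < (N : ℝ) + 1 := by positivity
  set R : ℝ := (N : ℝ) + 1 with hRdef
  have hI := hkey n (fun k => win E R 0 (a k)) (fun k => win E R 0 (b k)) R
    (fun k => ⟨hE.win_mem hR 0 (haM k), hE.win_mem hR 0 (hub k).2.1, by
      have := hE.specIn_win hR 0 (a k)
      rwa [zero_sub, zero_add] at this⟩)
    (ergo2_col E hR a hcol)
    (fun ξ => by
      have := ergo2_col E hR (fun k => star (b k)) hb ξ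
      simpa only [star_win E hR, neg_zero] using this)
    (by
      refine le_trans (Finset.sum_le_sum fun k _ => ?_) (hd.trans (min_le_right _ _))
      rw [hE.win_apply hR, hE.rm_win_apply hR, ← map_sub]
      have := E.norm_apply_le (bm_trif R 0) (ξ := a k ζ - rm J (b k) ζ) zero_le_one
        (Eventually.of_forall fun l => norm_trif_le R 0 l)
      rw [one_mul] at this
      exact pow_le_pow_left₀ (norm_nonneg _) this 2)
  have hXe : ∀ t ξ, E.sig (-t) z (rm J (E.sig (-t) z) ξ) = E.sig (-t) (z * rm J z) ξ :=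
    fun t ξ => by rw [E.sig_mul, hE.rm_sig, ContinuousLinearMap.mul_apply]
  have hXn : ∀ t, ‖E.sig (-t) (z * rm J z)‖ ≤ ‖z‖ * ‖z‖ := fun t => by
    rw [E.norm_sig]
    exact (norm_mul_le _ _).trans (by rw [norm_rm])
  have hγn : ∀ t, ‖E.U (-t) (z (rm J z ζ))‖ ≤ ‖z‖ * ‖z‖ := fun t => by
    rw [E.norm_U_apply]
    refine (z.le_opNorm _).trans (mul_le_mul_of_nonneg_left ?_ (norm_nonneg _))
    refine (ContinuousLinearMap.le_opNorm _ _).trans ?_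
    rw [h1, mul_one, norm_rm]
  have h0t : ∀ t, ⟪ζ, rm J (E.sig t z) ζ⟫_ℂ = 0 := fun t => by
    rw [inner_rm hJ.invol, hE.std.fix, hE.sig_apply, ergo2_inner_U hE, h0]
  set c₀ := ⟪ζ, z (rm J z ζ)⟫_ℂ with hc₀
  set F : ℝ → ℂ := fun t =>
    ∑ k, ⟪win E R 0 (a k) ζ, E.sig (-t) z (rm J (E.sig (-t) z) (win E R 0 (a k) ζ))⟫_ℂ -
      ∑ k, ⟪win E R 0 (a k) ζ, win E R 0 (a k) (E.U (-t) (z (rm J z ζ)))⟫_ℂ with hF
  have hFc : Continuous F := by
    simp only [hF, hXe]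
    refine (continuous_finsetSum _ fun k _ => ?_).sub (continuous_finsetSum _ fun k _ => ?_)
    · exact continuous_const.inner (((E.scb_sig (z * rm J z)).1 _).comp continuous_neg)
    · exact continuous_const.inner ((win E R 0 (a k)).continuous.comp
        ((E.continuous_U _).comp continuous_neg))
  have hsplit : ∀ t (B : ℝ), (∀ k,
      ‖⟪a k ζ, E.sig (-t) z (rm J (E.sig (-t) z) (a k ζ))⟫_ℂ‖ ≤ τ k ^ 2 * B) → 0 ≤ B →
      ‖F t - -(((∑ k, τ k ^ 2 : ℝ) : ℂ) * c₀)‖ ≤ ε + B := fun t B hB hB0 => by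
    have e : F t - -(((∑ k, τ k ^ 2 : ℝ) : ℂ) * c₀) =
        ∑ k, ((⟪win E R 0 (a k) ζ, E.sig (-t) (z * rm J z) (win E R 0 (a k) ζ)⟫_ℂ -
          ⟪win E R 0 (a k) ζ, win E R 0 (a k) (E.U (-t) (z (rm J z ζ)))⟫_ℂ) -
          (⟪a k ζ, E.sig (-t) (z * rm J z) (a k ζ)⟫_ℂ -
            ⟪a k ζ, a k (E.U (-t) (z (rm J z ζ)))⟫_ℂ)) +
        ∑ k, ⟪a k ζ, E.sig (-t) z (rm J (E.sig (-t) z) (a k ζ))⟫_ℂ := by
      have e2 : ∀ k, ⟪a k ζ, a k (E.U (-t) (z (rm J z ζ)))⟫_ℂ = ((τ k ^ 2 : ℝ) : ℂ) * c₀ :=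
        fun k => by rw [ha, ergo2_second (hub k).2.2.1, ergo2_inner_U hE]
      simp only [hF, hXe, Finset.sum_sub_distrib, e2]
      rw [Complex.ofReal_sum, Finset.sum_mul]
      ring
    rw [e]
    refine (norm_add_le _ _).trans (add_le_add ?_ ?_)
    · refine (norm_sum_le _ _).trans (le_trans ?_ hN)
      rw [Finset.mul_sum]
      exact Finset.sum_le_sum fun k _ => ergo2_diff _ _ _ _ _ (hXn t) (hγn t)
    · refine (norm_sum_le _ _).trans ((Finset.sum_le_sum fun k _ => hB k).trans ?_)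
      rw [← Finset.sum_mul]
      exact mul_le_of_le_one_left hB0 hτ2
  have hfin := ergo2_abs hgi (fun t => mul_nonneg hδ.le (sq_nonneg _)) hFc
    (c := -(((∑ k, τ k ^ 2 : ℝ) : ℂ) * c₀)) (η := ε + 2 * ε * ‖z‖) (C := ε + ‖z‖ * ‖z‖)
    (by positivity) (by positivity)
    (fun t ht => hsplit t _ (fun k => by
      obtain ⟨y, hy, hty⟩ := Set.mem_iUnion₂.1 (hZc ⟨t, ht, rfl⟩)
      obtain ⟨s, hs⟩ := (hub k).2.2.2 y (hZf.mem_toFinset.2 hy)
      have hu1 : ‖u k‖ ≤ 1 := iso_norm_le (hub k).2.2.1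
      have hb2 : ‖star (u k) * E.sig (-t) z * u k - (s : ℂ) • (1 : H →L[ℂ] H)‖ ≤ 2 * ε := by
        have e : star (u k) * E.sig (-t) z * u k - (s : ℂ) • (1 : H →L[ℂ] H) =
            star (u k) * (E.sig (-t) z - y) * u k +
              (star (u k) * y * u k - (s : ℂ) • (1 : H →L[ℂ] H)) := by
          rw [mul_sub, sub_mul]; abel
        have hty' : ‖E.sig (-t) z - y‖ ≤ ε := by
          rw [← dist_eq_norm]; exact (Metric.mem_ball.1 hty).le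
        have b1 : ‖star (u k) * (E.sig (-t) z - y) * u k‖ ≤ ε := by
          refine (norm_mul_le _ _).trans ?_
          refine (mul_le_of_le_one_right (norm_nonneg _) hu1).trans ?_
          refine (norm_mul_le _ _).trans ?_
          rw [norm_star]
          exact (mul_le_of_le_one_left (norm_nonneg _) hu1).trans hty'
        rw [e]
        refine (norm_add_le _ _).trans ?_
        have := hs.trans (min_le_left _ _)
        linarith
      have := ergo2_first hJ h1 (hub k).1 (hzt (-t)).1 (h0t (-t)) hb2 (τ k)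
      rwa [E.norm_sig] at this) (by positivity))
    (fun t => hsplit t _ (fun k => by
      rw [hXe]
      refine (norm_inner_le_norm _ _).trans ?_
      have b1 := (ContinuousLinearMap.le_opNorm (E.sig (-t) (z * rm J z)) (a k ζ)).trans
        (mul_le_mul_of_nonneg_right (hXn t) (norm_nonneg _))
      have b2 := hna k ζ
      rw [h1, one_pow, mul_one] at b2
      rw [← b2]
      have := mul_le_mul_of_nonneg_left b1 (norm_nonneg (a k ζ))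
      nlinarith) (by positivity))
    hI hT
  rw [hgI, norm_neg, norm_mul, Complex.norm_real,
    Real.norm_of_nonneg (Finset.sum_nonneg fun k _ => sq_nonneg _)] at hfin
  refine le_trans ?_ hfin
  exact mul_le_mul_of_nonneg_right (mul_le_mul_of_nonneg_right hτ1 (norm_nonneg _))
    fej_sq_pos.le

theorem ergo_core (hM : IsFactor M) (hE : ModD M J ζ E) (hFu : Full M J ζ) (h1 : ‖ζ‖ = 1)
    {z : H →L[ℂ] H} (hsa : IsSelfAdjoint z) (hz : ∀ s, BRel M J ζ s z z) (hc : NCont E.sig z)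
    (h0 : ⟪ζ, z ζ⟫_ℂ = 0) : z = 0 := by
  have hzM : z ∈ M := bic_mem (hz 0).1
  refine hE.std.strict hzM ?_
  rw [ad, hsa.star_eq]
  have hl : Tendsto (fun ε : ℝ => ε + (ε + 2 * ε * ‖z‖) * (∫ t, fej t ^ 2) +
      (ε + ‖z‖ * ‖z‖) * ε) (𝓝[>] 0) (𝓝 0) := by
    have hcn : Continuous fun ε : ℝ => ε + (ε + 2 * ε * ‖z‖) * (∫ t, fej t ^ 2) +
      (ε + ‖z‖ * ‖z‖) * ε := by fun_prop
    have := (hcn.tendsto 0).mono_left (nhdsWithin_le_nhds (s := Set.Ioi 0))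
    simpa using this
  have hle : 1 / 8 * ‖⟪ζ, z (rm J z ζ)⟫_ℂ‖ * ∫ t, fej t ^ 2 ≤ 0 :=
    ge_of_tendsto hl (eventually_nhdsWithin_of_forall fun ε hε =>
      ergo2_main hM hE hFu h1 hsa hz hc h0 hε)
  have hp := fej_sq_pos
  have hn := norm_nonneg ⟪ζ, z (rm J z ζ)⟫_ℂ
  have : ‖⟪ζ, z (rm J z ζ)⟫_ℂ‖ ≤ 0 := by
    by_contra hcon
    have := mul_pos (mul_pos (by norm_num : (0 : ℝ) < 1 / 8) (not_le.1 hcon)) hp
    linarith
  exact norm_le_zero_iff.1 this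

theorem ergo2_sa (hM : IsFactor M) (hE : ModD M J ζ E) (hFu : Full M J ζ)
    (h1 : ‖ζ‖ = 1) (h : ∀ s, ∀ x ∈ Bic M J ζ, BRel M J ζ s x x) {x : H →L[ℂ] H}
    (hx : x ∈ Bic M J ζ) (hsa : IsSelfAdjoint x) : ∃ c : ℂ, x = c • (1 : H →L[ℂ] H) := by
  have hζ : ⟪ζ, ζ⟫_ℂ = 1 := by rw [inner_self_eq_norm_sq_to_K, h1]; simp
  have key : ∀ n : ℕ, win E ((n : ℝ) + 1) 0 x ζ = ⟪ζ, win E ((n : ℝ) + 1) 0 x ζ⟫_ℂ • ζ := by
    intro n
    have hR : (0 : ℝ) < (n : ℝ) + 1 := by positivity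
    set w := win E ((n : ℝ) + 1) 0 x with hw
    have hwsa : star w = w := by rw [hw, star_win E hR, neg_zero, hsa.star_eq]
    have hwc : NCont E.sig w := ncont_smear E (fker_integrable hR 0) x
    have hcr : conj ⟪ζ, w ζ⟫_ℂ = ⟪ζ, w ζ⟫_ℂ := by
      rw [inner_conj_symm, ← inner_star_right, hwsa]
    have hB : w - ⟪ζ, w ζ⟫_ℂ • (1 : H →L[ℂ] H) ∈ Bic M J ζ :=
      bic_sub (bic_win hE hx hR 0) (bic_smul _ bic_one)
    have hz0 := ergo_core hM hE hFu h1 (z := w - ⟪ζ, w ζ⟫_ℂ • (1 : H →L[ℂ] H))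
      (by rw [IsSelfAdjoint, star_sub, star_smul, star_one, hwsa, RCLike.star_def, hcr])
      (fun s => h s _ hB)
      (fun ε hε => by
        obtain ⟨ρ, hρ, hr⟩ := hwc ε hε
        refine ⟨ρ, hρ, fun r hr' => ?_⟩
        rw [E.sig_sub, E.sig_smul, E.sig_one, sub_sub_sub_cancel_right]
        exact hr r hr')
      (by
        rw [ContinuousLinearMap.sub_apply, inner_sub_right, ContinuousLinearMap.smul_apply,
          ContinuousLinearMap.one_apply, inner_smul_right, hζ, mul_one, sub_self])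
    have := congrArg (fun T : H →L[ℂ] H => T ζ) (sub_eq_zero.1 hz0)
    simpa using this
  have t1 := ergo2_win_tendsto hE x
  have t2 : Tendsto (fun n : ℕ => ⟪ζ, win E ((n : ℝ) + 1) 0 x ζ⟫_ℂ • ζ) atTop
      (𝓝 (⟪ζ, x ζ⟫_ℂ • ζ)) := (tendsto_const_nhds.inner t1).smul_const ζ
  have e := tendsto_nhds_unique t1 (t2.congr fun n => (key n).symm)
  refine ⟨⟪ζ, x ζ⟫_ℂ, sub_eq_zero.1 (hE.std.sepg _
    (sub_mem (bic_mem hx) (vn_smul_mem _ (one_mem M))) ?_)⟩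
  rw [ContinuousLinearMap.sub_apply, ContinuousLinearMap.smul_apply,
    ContinuousLinearMap.one_apply, ← e, sub_self]

theorem bic_trivial_of_flow (hM : IsFactor M) (hE : ModD M J ζ E) (hFu : Full M J ζ)
    (h1 : ‖ζ‖ = 1) (h : ∀ s, ∀ x ∈ Bic M J ζ, BRel M J ζ s x x) :
    ∀ x ∈ Bic M J ζ, ∃ c : ℂ, x = c • (1 : H →L[ℂ] H) := by
  intro x hx
  obtain ⟨a, -, b, -, ha, hb, -, -, hxe, ha2, hb2⟩ := exists_re_im (bic_mem hx)
  have hxs := bic_star hE.std hx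
  have haB : a ∈ Bic M J ζ := by
    have := bic_smul (1 / 2 : ℂ) (bic_add hx hxs)
    rwa [← ha2, smul_smul, show (1 / 2 : ℂ) * 2 = 1 by norm_num, one_smul] at this
  have hbB : b ∈ Bic M J ζ := by
    have := bic_smul (1 / 2 : ℂ) (bic_smul (-Complex.I) (bic_sub hx hxs))
    rwa [← hb2, smul_smul, show (1 / 2 : ℂ) * 2 = 1 by norm_num, one_smul] at this
  obtain ⟨c, hc⟩ := ergo2_sa hM hE hFu h1 h haB ha
  obtain ⟨d, hd⟩ := ergo2_sa hM hE hFu h1 h hbB hb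
  exact ⟨c + Complex.I * d, by rw [hxe, hc, hd, add_smul, smul_smul]⟩

end Pool.Agent.P.MP_5d580a_an
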