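import Pool.Agent.P.MP_5d580a_an.Pos

open scoped ComplexOrder InnerProductSpace ComplexConjugate BoundedContinuousFunction
open MeasureTheory Filter Topology

set_option linter.unusedSectionVars false
set_option linter.unusedVariables false

noncomputable section

namespace Pool.Agent.P.MP_5d580a_an

variable {H : Type} [NormedAddCommGroup H] [InnerProductSpace ℂ H] [CompleteSpace H]

variable {A B C : Type} [CStarAlgebra A] [CStarAlgebra B] [CStarAlgebra C]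

theorem face_nhds (x : WeakDual ℂ C) (U : Set (WeakDual ℂ C)) :
    U ∈ 𝓝 x ↔ ∃ (F : Finset C) (γ : ℝ), 0 < γ ∧
      ∀ y, WNear F γ (WeakDual.toStrongDual x) (WeakDual.toStrongDual y) → y ∈ U := by
  rw [(WeakDual.withSeminorms ℂ C).mem_nhds_iff]
  refine exists_congr fun F => exists_congr fun γ => and_congr_right fun hγ => ?_
  refine forall_congr' fun y => imp_congr_left ?_
  rw [Seminorm.ball_finset_sup_eq_iInter _ _ _ hγ]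
  simp only [Set.mem_iInter, Seminorm.mem_ball]
  exact Iff.rfl

theorem face_refl (F : Finset C) {γ : ℝ} (hγ : 0 < γ) (θ : C →L[ℂ] ℂ) : WNear F γ θ θ :=
  fun b _ => by simpa using hγ

theorem face_closed_iff (S : Set (C →L[ℂ] ℂ)) :
    WClosed S ↔ IsClosed (WeakDual.toStrongDual ⁻¹' S : Set (WeakDual ℂ C)) := by
  rw [← closure_subset_iff_isClosed]
  constructor
  · intro h x hx
    refine h _ fun F γ hγ => ?_
    obtain ⟨y, hy, hy'⟩ := mem_closure_iff_nhds.1 hx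
      {y | WNear F γ (WeakDual.toStrongDual x) (WeakDual.toStrongDual y)}
      ((face_nhds x _).2 ⟨F, γ, hγ, fun y hy => hy⟩)
    exact ⟨_, hy', hy⟩
  · intro h θ hθ
    refine h (a := StrongDual.toWeakDual θ) (mem_closure_iff_nhds.2 fun U hU => ?_)
    obtain ⟨F, γ, hγ, hF⟩ := (face_nhds _ _).1 hU
    obtain ⟨θ', h1, h2⟩ := hθ F γ hγ
    exact ⟨StrongDual.toWeakDual θ', hF _ h2, h1⟩

theorem face_compact {K : Set (C →L[ℂ] ℂ)} (hK : WClosed K) {R : ℝ} (hR : ∀ θ ∈ K, ‖θ‖ ≤ R) :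
    IsCompact (WeakDual.toStrongDual ⁻¹' K : Set (WeakDual ℂ C)) :=
  (WeakDual.isCompact_closedBall (0 : StrongDual ℂ C) R).of_isClosed_subset
    ((face_closed_iff K).1 hK) fun x hx => mem_closedBall_zero_iff.2 (hR _ hx)

theorem face_eval (c : C) {T : Set ℂ} (hT : IsClosed T) :
    WClosed {θ : C →L[ℂ] ℂ | θ c ∈ T} :=
  (face_closed_iff _).2 (hT.preimage (WeakDual.eval_continuous (𝕜 := ℂ) c))

theorem face_sInter {𝒮 : Set (Set (C →L[ℂ] ℂ))} (h : ∀ S ∈ 𝒮, WClosed S) : WClosed (⋂₀ 𝒮) :=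
  fun θ hθ S hS => h S hS θ fun F γ hγ =>
    let ⟨θ', h1, h2⟩ := hθ F γ hγ
    ⟨θ', h1 S hS, h2⟩

theorem face_forall {ι : Sort*} {S : ι → (C →L[ℂ] ℂ) → Prop} (h : ∀ i, WClosed {θ | S i θ}) :
    WClosed {θ | ∀ i, S i θ} :=
  fun θ hθ i => h i θ fun F γ hγ =>
    let ⟨θ', h1, h2⟩ := hθ F γ hγ
    ⟨θ', h1 i, h2⟩

theorem face_and {S T : (C →L[ℂ] ℂ) → Prop} (h : WClosed {θ | S θ}) (h' : WClosed {θ | T θ}) :
    WClosed {θ | S θ ∧ T θ} := fun θ hθ =>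
  ⟨h θ fun F γ hγ => let ⟨θ', h1, h2⟩ := hθ F γ hγ; ⟨θ', h1.1, h2⟩,
    h' θ fun F γ hγ => let ⟨θ', h1, h2⟩ := hθ F γ hγ; ⟨θ', h1.2, h2⟩⟩

theorem face_pos : WClosed {θ : C →L[ℂ] ℂ | IsPos θ} :=
  face_forall fun x => face_eval (star x * x) (T := Set.Ici 0) isClosed_Ici

theorem face_far (F : Finset C) (γ : ℝ) (θ₀ : C →L[ℂ] ℂ) : WClosed {θ | ¬ WNear F γ θ₀ θ} := by
  rw [face_closed_iff, ← isOpen_compl_iff]
  have : (WeakDual.toStrongDual ⁻¹' {θ | ¬ WNear F γ θ₀ θ} : Set (WeakDual ℂ C))ᶜ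
      = ⋂ b ∈ F, (fun x : WeakDual ℂ C => x b) ⁻¹' Metric.ball (θ₀ b) γ := by
    ext x
    simp only [Set.mem_compl_iff, Set.mem_preimage, Set.mem_ofPred_eq, not_not, Set.mem_iInter,
      mem_ball_iff_norm]
    exact Iff.rfl
  rw [this]
  exact isOpen_biInter_finset fun b _ => Metric.isOpen_ball.preimage (WeakDual.eval_continuous b)

theorem face_pre {K L T : Set (C →L[ℂ] ℂ)} {g : (C →L[ℂ] ℂ) → (C →L[ℂ] ℂ)} (hL : WClosed L)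
    (hLK : L ⊆ K) (hg : WCont K g) (hT : WClosed T) : WClosed {θ | θ ∈ L ∧ g θ ∈ T} := by
  classical
  intro θ hθ
  have h1 : θ ∈ L := hL θ fun F γ hγ => let ⟨θ', h1, h2⟩ := hθ F γ hγ; ⟨θ', h1.1, h2⟩
  refine ⟨h1, hT _ fun F γ hγ => ?_⟩
  have key : ∃ (F' : Finset C) (γ' : ℝ), 0 < γ' ∧
      ∀ θ' ∈ K, WNear F' γ' θ θ' → WNear F γ (g θ) (g θ') := by
    induction F using Finset.induction_on with
    | empty => exact ⟨∅, 1, one_pos, fun _ _ _ b hb => absurd hb (Finset.notMem_empty b)⟩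
    | insert a F _ ih =>
      obtain ⟨F₁, γ₁, p₁, q₁⟩ := ih
      obtain ⟨F₂, γ₂, p₂, q₂⟩ := hg θ (hLK h1) a γ hγ
      refine ⟨F₁ ∪ F₂, min γ₁ γ₂, lt_min p₁ p₂, fun θ' h2 h3 b hb => ?_⟩
      rcases Finset.mem_insert.1 hb with rfl | hb
      · exact q₂ θ' h2 fun c hc =>
          (h3 c (Finset.mem_union_right _ hc)).trans_le (min_le_right _ _)
      · exact q₁ θ' h2 (fun c hc =>
          (h3 c (Finset.mem_union_left _ hc)).trans_le (min_le_left _ _)) b hb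
  obtain ⟨F', γ', h2, h3⟩ := key
  obtain ⟨θ', h4, h5⟩ := hθ F' γ' h2
  exact ⟨g θ', h4.2, h3 θ' (hLK h4.1) h5⟩

theorem face_finite {K : Set (C →L[ℂ] ℂ)} (hK : WClosed K) {R : ℝ} (hR : ∀ θ ∈ K, ‖θ‖ ≤ R)
    {ι : Type} (T : ι → Set (C →L[ℂ] ℂ)) (hT : ∀ i, WClosed (T i))
    (h : ∀ θ ∈ K, ∃ i, θ ∉ T i) : ∃ u : Finset ι, ∀ θ ∈ K, ∃ i ∈ u, θ ∉ T i := by
  obtain ⟨u, hu⟩ := (face_compact hK hR).elim_finite_subcover
    (fun i => (WeakDual.toStrongDual ⁻¹' T i : Set (WeakDual ℂ C))ᶜ)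
    (fun i => ((face_closed_iff _).1 (hT i)).isOpen_compl)
    fun x hx => Set.mem_iUnion.2 (h _ hx)
  refine ⟨u, fun θ hθ => ?_⟩
  obtain ⟨i, hi, h1⟩ := Set.mem_iUnion₂.1 (hu (a := StrongDual.toWeakDual θ) hθ)
  exact ⟨i, hi, h1⟩

theorem face_min {K : Set (C →L[ℂ] ℂ)} (hK : WClosed K) {R : ℝ} (hR : ∀ θ ∈ K, ‖θ‖ ≤ R)
    (hne : K.Nonempty) (Q : Set (C →L[ℂ] ℂ) → Prop) (hQ : Q K)
    (hQ' : ∀ 𝒮 : Set (Set (C →L[ℂ] ℂ)), (∀ S ∈ 𝒮, Q S) → Q (⋂₀ 𝒮)) :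
    ∃ M, Minimal (fun S => S ⊆ K ∧ S.Nonempty ∧ WClosed S ∧ Q S) M := by
  refine zorn_superset {S | S ⊆ K ∧ S.Nonempty ∧ WClosed S ∧ Q S} fun 𝒮 h1 h2 => ?_
  obtain rfl | h3 := 𝒮.eq_empty_or_nonempty
  · exact ⟨K, ⟨Set.Subset.rfl, hne, hK, hQ⟩, fun _ => False.elim⟩
  refine ⟨⋂₀ 𝒮, ⟨?_, ?_, face_sInter fun S hS => (h1 hS).2.2.1,
    hQ' _ fun S hS => (h1 hS).2.2.2⟩, fun S hS => Set.sInter_subset_of_mem hS⟩
  · obtain ⟨S, hS⟩ := h3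
    exact (Set.sInter_subset_of_mem hS).trans (h1 hS).1
  · have : Nonempty 𝒮 := h3.to_subtype
    obtain ⟨x, hx⟩ := IsCompact.nonempty_iInter_of_directed_nonempty_isCompact_isClosed
      (fun S : 𝒮 => (WeakDual.toStrongDual ⁻¹' S.1 : Set (WeakDual ℂ C)))
      (fun S T => by
        rcases h2.total S.2 T.2 with h | h
        exacts [⟨S, Set.Subset.rfl, Set.preimage_mono h⟩, ⟨T, Set.preimage_mono h, Set.Subset.rfl⟩])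
      (fun S => let ⟨θ, hθ⟩ := (h1 S.2).2.1; ⟨StrongDual.toWeakDual θ, hθ⟩)
      (fun S => face_compact (h1 S.2).2.2.1 fun θ hθ => hR θ ((h1 S.2).1 hθ))
      fun S => (face_closed_iff _).1 (h1 S.2).2.2.1
    exact ⟨_, fun S hS => Set.mem_iInter.1 hx ⟨S, hS⟩⟩

theorem face_one {θ : C →L[ℂ] ℂ} (h : IsPos θ) : θ 1 = ((θ 1).re : ℂ) :=
  Complex.ext (by simp) (by simpa using h.im_sa (IsSelfAdjoint.one C))

theorem exists_extreme (Z : Set C) {ν₀ : C →L[ℂ] ℂ} (h₀ : IsPos ν₀) (h₁ : ν₀ 1 = 1)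
    (hZ : ∀ z ∈ Z, ν₀ z = 0) (x₀ : C) :
    ∃ ν : C →L[ℂ] ℂ, IsPos ν ∧ ν 1 = 1 ∧ (∀ z ∈ Z, ν z = 0) ∧ (ν₀ x₀).re ≤ (ν x₀).re ∧
      ∀ ν' : C →L[ℂ] ℂ, IsPos ν' → IsPos (ν - ν') → (∀ z ∈ Z, ν' z = 0) →
        ∃ t : ℝ, ν' = (t : ℂ) • ν := by
  let K₀ : Set (C →L[ℂ] ℂ) := {ν | IsPos ν ∧ ν 1 = 1 ∧ ∀ z ∈ Z, ν z = 0}
  have hK₀ : WClosed K₀ := face_and face_pos (face_and (face_eval 1 isClosed_singleton)
    (face_forall fun z => face_forall fun _ => face_eval z isClosed_singleton))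
  have hR : ∀ ν ∈ K₀, ‖ν‖ ≤ 1 := fun ν hν => by rw [hν.1.norm_eq, hν.2.1, Complex.one_re]
  obtain ⟨μ, hμ, hm⟩ := (face_compact hK₀ hR).exists_isMaxOn
    ⟨StrongDual.toWeakDual ν₀, ⟨h₀, h₁, hZ⟩⟩
    (Complex.continuous_re.comp (WeakDual.eval_continuous (𝕜 := ℂ) x₀)).continuousOn
  obtain ⟨m, hm0, hm1⟩ : ∃ m : ℝ, (∃ μ ∈ K₀, m ≤ (μ x₀).re) ∧ ∀ ν ∈ K₀, (ν x₀).re ≤ m :=
    ⟨(μ x₀).re, ⟨_, hμ, le_rfl⟩, fun ν hν => hm (a := StrongDual.toWeakDual ν) hν⟩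
  let K₁ : Set (C →L[ℂ] ℂ) := {ν | ν ∈ K₀ ∧ m ≤ (ν x₀).re}
  have hK₁ : WClosed K₁ := face_and hK₀
    (face_eval x₀ (T := {z | m ≤ z.re}) (isClosed_le continuous_const Complex.continuous_re))
  have hc := (face_compact hK₁ fun ν hν => hR ν hν.1).image (WeakDual.coeFn_continuous (𝕜 := ℂ))
  obtain ⟨μ', hμ', hμ''⟩ := hm0
  obtain ⟨f, ⟨x, hx, rfl⟩, hf⟩ := hc.extremePoints_nonempty
    ⟨_, StrongDual.toWeakDual μ', ⟨hμ', hμ''⟩, rfl⟩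
  obtain ⟨ν, hν, hext⟩ : ∃ ν ∈ K₁, ∀ ν₁ ∈ K₁, ∀ ν₂ ∈ K₁, ∀ t : ℝ, 0 < t → t < 1 →
      (∀ c, ν c = t * ν₁ c + (1 - t) * ν₂ c) → ν₁ = ν := by
    refine ⟨_, hx, fun ν₁ h1 ν₂ h2 t t0 t1 e => ?_⟩
    have h3 := hf ⟨StrongDual.toWeakDual ν₁, h1, rfl⟩ ⟨StrongDual.toWeakDual ν₂, h2, rfl⟩
      ⟨t, 1 - t, t0, by linarith, by ring, funext fun c => by
        refine Eq.trans ?_ (e c).symm
        simp only [Pi.add_apply, Pi.smul_apply, Complex.real_smul, Complex.ofReal_sub,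
          Complex.ofReal_one]
        rfl⟩
    exact ContinuousLinearMap.ext fun c => congrFun h3 c
  obtain ⟨⟨p1, p2, p3⟩, p4⟩ := hν
  refine ⟨ν, p1, p2, p3, (hm1 ν₀ ⟨h₀, h₁, hZ⟩).trans p4, fun ν' q1 q2 q3 => ?_⟩
  obtain ⟨t, ht⟩ : ∃ t : ℝ, ν' 1 = t := ⟨_, face_one q1⟩
  have t0 : 0 ≤ t := by simpa [ht] using q1.one_nonneg
  have t1 : t ≤ 1 := by simpa [ht, p2] using q2.one_nonneg
  rcases t0.eq_or_lt with rfl | t0
  · refine ⟨0, (q1.eq_zero (by simp [ht])).trans ?_⟩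
    ext c
    simp
  rcases t1.eq_or_lt with rfl | t1
  · exact ⟨1, by simpa using (sub_eq_zero.1 (q2.eq_zero (by simp [ht, p2]))).symm⟩
  have c0 : (t : ℂ) ≠ 0 := Complex.ofReal_ne_zero.2 t0.ne'
  have c1 : (1 - t : ℂ) ≠ 0 := by exact_mod_cast (sub_pos.2 t1).ne'
  have k1 : ((t⁻¹ : ℝ) : ℂ) • ν' ∈ K₀ :=
    ⟨q1.smul (inv_nonneg.2 t0.le), by simp [ht, c0], fun z hz => by simp [q3 z hz]⟩
  have k2 : (((1 - t)⁻¹ : ℝ) : ℂ) • (ν - ν') ∈ K₀ :=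
    ⟨q2.smul (inv_nonneg.2 (sub_pos.2 t1).le), by simp [ht, p2, c1],
      fun z hz => by simp [q3 z hz, p3 z hz]⟩
  have e : ∀ c, ν c = t * (((t⁻¹ : ℝ) : ℂ) • ν') c
      + (1 - t) * ((((1 - t)⁻¹ : ℝ) : ℂ) • (ν - ν')) c := fun c => by
    simp only [smul_apply, sub_apply, smul_eq_mul,
      Complex.ofReal_inv, Complex.ofReal_sub, Complex.ofReal_one]
    field_simp
    ring
  have m1 := hm1 _ k1
  have m2 := hm1 _ k2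
  have e' := congrArg Complex.re (e x₀)
  rw [Complex.add_re, Complex.re_ofReal_mul, ← Complex.ofReal_one, ← Complex.ofReal_sub,
    Complex.re_ofReal_mul] at e'
  have h3 := hext _ ⟨k1, by nlinarith⟩ _ ⟨k2, by nlinarith⟩ t t0 t1 e
  refine ⟨t, ?_⟩
  rw [← h3, smul_smul, ← Complex.ofReal_mul, mul_inv_cancel₀ t0.ne', Complex.ofReal_one,
    one_smul]

theorem wclosed_ext (ι : A →⋆ₐ[ℂ] B) (σ : A →L[ℂ] ℂ) : WClosed (Ext ι σ) := by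
  have : Ext ι σ = {θ | IsPos θ ∧ ∀ a, θ (ι a) = σ a} :=
    Set.ext fun θ => and_congr_right fun _ => ContinuousLinearMap.ext_iff
  rw [this]
  exact face_and face_pos (face_forall fun a => face_eval (ι a) isClosed_singleton)

theorem wclosed_ball (x : C →L[ℂ] ℂ) (r : ℝ) : WClosed {θ : C →L[ℂ] ℂ | ‖θ - x‖ ≤ r} := by
  have : {θ : C →L[ℂ] ℂ | ‖θ - x‖ ≤ r} = Metric.closedBall x r :=
    Set.ext fun θ => mem_closedBall_iff_norm.symm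
  rw [this, face_closed_iff]
  exact WeakDual.isClosed_closedBall x r

theorem ext_norm_le {ι : A →⋆ₐ[ℂ] B} {σ : A →L[ℂ] ℂ} {θ : B →L[ℂ] ℂ} (h : θ ∈ Ext ι σ) :
    ‖θ‖ ≤ (σ 1).re := by
  rw [h.1.norm_eq, ← h.2, res_one]

theorem convex_ext (ι : A →⋆ₐ[ℂ] B) (σ : A →L[ℂ] ℂ) : Convex ℝ (Ext ι σ) := by
  intro θ hθ θ' hθ' a b ha hb hab
  have e : a • θ + b • θ' = (a : ℂ) • θ + (b : ℂ) • θ' := by
    ext c
    simp
  rw [e]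
  refine ⟨(hθ.1.smul ha).add (hθ'.1.smul hb), ?_⟩
  rw [res_add, res_smul, res_smul, hθ.2, hθ'.2]
  ext c
  have : (a : ℂ) + b = 1 := by exact_mod_cast hab
  simp [← add_mul, this]

theorem baire_weak {K : Set (C →L[ℂ] ℂ)} (hK : WClosed K) (R : ℝ) (hR : ∀ θ ∈ K, ‖θ‖ ≤ R)
    (hne : K.Nonempty) (S : ℕ → Set (C →L[ℂ] ℂ)) (hS : ∀ n, WClosed (S n))
    (hc : ∀ θ ∈ K, ∃ n, θ ∈ S n) :
    ∃ n, ∃ θ₀ ∈ K, ∃ (F : Finset C) (γ : ℝ), 0 < γ ∧ ∀ θ ∈ K, WNear F γ θ₀ θ → θ ∈ S n := by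
  have : CompactSpace (WeakDual.toStrongDual ⁻¹' K : Set (WeakDual ℂ C)) :=
    isCompact_iff_compactSpace.1 (face_compact hK hR)
  obtain ⟨θ₁, h1⟩ := hne
  have : Nonempty (WeakDual.toStrongDual ⁻¹' K : Set (WeakDual ℂ C)) :=
    ⟨⟨StrongDual.toWeakDual θ₁, h1⟩⟩
  obtain ⟨n, x, hx⟩ := nonempty_interior_of_iUnion_of_closed
    (f := fun n => (Subtype.val : (WeakDual.toStrongDual ⁻¹' K : Set (WeakDual ℂ C)) → _) ⁻¹'
      (WeakDual.toStrongDual ⁻¹' S n))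
    (fun n => ((face_closed_iff _).1 (hS n)).preimage continuous_subtype_val)
    (Set.eq_univ_of_forall fun x => Set.mem_iUnion.2 (hc _ x.2))
  obtain ⟨U, hU, hU'⟩ := (mem_nhds_subtype _ _ _).1 (mem_interior_iff_mem_nhds.1 hx)
  obtain ⟨F, γ, hγ, hF⟩ := (face_nhds _ _).1 hU
  exact ⟨n, _, x.2, F, γ, hγ, fun θ hθ h =>
    hU' (a := ⟨StrongDual.toWeakDual θ, hθ⟩) (hF _ h)⟩

theorem baire_small {K : Set (C →L[ℂ] ℂ)} (hK : WClosed K) (R : ℝ) (hR : ∀ θ ∈ K, ‖θ‖ ≤ R)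
    (hne : K.Nonempty) (hs : TopologicalSpace.IsSeparable K) {ε : ℝ} (hε : 0 < ε) :
    ∃ θ₀ ∈ K, ∃ (F : Finset C) (γ : ℝ), 0 < γ ∧ ∀ θ ∈ K, WNear F γ θ₀ θ → ‖θ - θ₀‖ ≤ ε := by
  obtain ⟨c, hc, hKc⟩ := hs
  obtain ⟨f, rfl⟩ := hc.exists_eq_range (closure_nonempty_iff.1 (hne.mono hKc))
  obtain ⟨n, θ₀, h0, F, γ, hγ, h⟩ := baire_weak hK R hR hne (fun n => {θ | ‖θ - f n‖ ≤ ε / 2})
    (fun n => wclosed_ball _ _) fun θ hθ => by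
      obtain ⟨_, ⟨n, rfl⟩, h⟩ := Metric.mem_closure_iff.1 (hKc hθ) (ε / 2) (half_pos hε)
      exact ⟨n, (dist_eq_norm θ (f n) ▸ h).le⟩
  refine ⟨θ₀, h0, F, γ, hγ, fun θ hθ h1 => ?_⟩
  have h2 : ‖θ - f n‖ ≤ ε / 2 := h θ hθ h1
  have h3 : ‖θ₀ - f n‖ ≤ ε / 2 := h θ₀ h0 (face_refl F hγ θ₀)
  have h4 := norm_sub_le (θ - f n) (θ₀ - f n)
  rw [sub_sub_sub_cancel_right] at h4
  linarith

/-- weak-star limit of a bounded family along an ultrafilter -/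
theorem exists_weak_ultra {ι : Type} (𝒰 : Ultrafilter ι) (θ : ι → (C →L[ℂ] ℂ)) (R : ℝ)
    (hR : ∀ i, ‖θ i‖ ≤ R) :
    ∃ ψ : C →L[ℂ] ℂ, ∀ c, Tendsto (fun i => θ i c) 𝒰 (𝓝 (ψ c)) := by
  obtain ⟨x, -, hx⟩ := (WeakDual.isCompact_closedBall (0 : StrongDual ℂ C) R).ultrafilter_le_nhds
    (𝒰.map fun i => StrongDual.toWeakDual (θ i))
    (le_principal_iff.2 (mem_map.2 (univ_mem' fun i => mem_closedBall_zero_iff.2 (hR i))))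
  exact ⟨WeakDual.toStrongDual x, fun c =>
    ((WeakDual.eval_continuous (𝕜 := ℂ) c).tendsto x).comp hx⟩

/-- fixed point theorem for a group of isometric weak-star continuous maps -/
theorem fixed_point {K : Set (C →L[ℂ] ℂ)} (hK : WClosed K) (R : ℝ) (hR : ∀ θ ∈ K, ‖θ‖ ≤ R)
    (hne : K.Nonempty) (hcv : Convex ℝ K) (hs : TopologicalSpace.IsSeparable K) {Γ : Type}
    (act : Γ → (C →L[ℂ] ℂ) → (C →L[ℂ] ℂ)) (hmap : ∀ g, ∀ θ ∈ K, act g θ ∈ K)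
    (hcont : ∀ g, WCont K (act g))
    (hne' : ∀ g, ∀ θ ∈ K, ∀ θ' ∈ K, ‖act g θ - act g θ'‖ ≤ ‖θ - θ'‖)
    (hmul : ∀ g g', ∃ g'', ∀ θ ∈ K, act g'' θ = act g (act g' θ))
    (hinv : ∀ g, ∃ g', ∀ θ ∈ K, act g' (act g θ) = θ ∧ act g (act g' θ) = θ) :
    ∃ θ ∈ K, ∀ g, act g θ = θ := by
  classical
  rcases isEmpty_or_nonempty Γ with hΓ | ⟨⟨g₀⟩⟩
  · exact hne.imp fun θ hθ => ⟨hθ, fun g => hΓ.elim g⟩
  choose iv hiv using hinv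
  obtain ⟨e, he⟩ := hmul (iv g₀) g₀
  obtain ⟨K₀, ⟨a1, a2, a3, a4, a5⟩, hK₀⟩ := face_min hK hR hne
    (fun S => Convex ℝ S ∧ ∀ g, ∀ θ ∈ S, act g θ ∈ S) ⟨hcv, hmap⟩ fun 𝒮 h =>
      ⟨convex_sInter fun S hS => (h S hS).1, fun g θ hθ S hS => (h S hS).2 g θ (hθ S hS)⟩
  obtain ⟨L, ⟨b1, b2, b3, b4⟩, hL⟩ := face_min a3 (fun θ hθ => hR θ (a1 hθ)) a2
    (fun S => ∀ g, ∀ θ ∈ S, act g θ ∈ S) a5 fun 𝒮 h g θ hθ S hS => h S hS g θ (hθ S hS)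
  have hLK : L ⊆ K := b1.trans a1
  have hRL : ∀ θ ∈ L, ‖θ‖ ≤ R := fun θ hθ => hR θ (hLK hθ)
  have stepA : ∀ ε : ℝ, 0 < ε → ∃ (u : Finset Γ) (x : Γ → (C →L[ℂ] ℂ)), (∀ g, x g ∈ L) ∧
      ∀ θ ∈ L, ∃ g ∈ u, ‖x g - θ‖ ≤ ε := fun ε hε => by
    obtain ⟨θ₀, h0, F, γ, hγ, h⟩ := baire_small b3 R hRL b2 (hs.mono hLK) hε
    have hT : ∀ g, WClosed {θ | θ ∈ L ∧ act g θ ∈ {θ | ¬ WNear F γ θ₀ θ}} := fun g =>
      face_pre b3 hLK (hcont g) (face_far F γ θ₀)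
    obtain ⟨u, hu⟩ := face_finite b3 hRL _ hT fun θ hθ => by
      by_contra hc
      push Not at hc
      have h1 := hL (y := {θ | ∀ g, θ ∈ L ∧ act g θ ∈ {θ | ¬ WNear F γ θ₀ θ}})
        ⟨fun θ hθ => b1 (hθ g₀).1, ⟨θ, hc⟩, face_forall hT, fun g θ hθ g' => by
          obtain ⟨g'', h2⟩ := hmul g' g
          exact ⟨b4 g θ (hθ g).1, h2 θ (hLK (hθ g).1) ▸ (hθ g'').2⟩⟩
        fun θ hθ => (hθ g₀).1
      refine (h1 h0 e).2 ?_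
      rw [he θ₀ (hLK h0), (hiv g₀ θ₀ (hLK h0)).1]
      exact face_refl F hγ θ₀
    refine ⟨u, fun g => act (iv g) θ₀, fun g => b4 _ _ h0, fun θ hθ => ?_⟩
    obtain ⟨g, hg, h1⟩ := hu θ hθ
    have h2 : WNear F γ θ₀ (act g θ) := by
      by_contra h2
      exact h1 ⟨hθ, h2⟩
    have h3 := hne' (iv g) θ₀ (hLK h0) _ (hmap g θ (hLK hθ))
    rw [(hiv g θ (hLK hθ)).1, norm_sub_rev θ₀] at h3
    exact ⟨g, hg, h3.trans (h _ (b4 g θ hθ) h2)⟩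
  have stepB : ∀ ρ : ℝ, ∀ m ∈ K₀, (∀ y ∈ L, ‖m - y‖ ≤ ρ) → ∀ x ∈ L, ∀ y ∈ L, ‖x - y‖ ≤ ρ := by
    intro ρ m hm h x hx
    refine (hK₀ (y := {x | x ∈ K₀ ∧ ∀ y ∈ L, ‖x - y‖ ≤ ρ}) ⟨fun θ hθ => a1 hθ.1, ⟨m, hm, h⟩,
      face_and a3 (face_forall fun y => face_forall fun _ => wclosed_ball y ρ), ?_, ?_⟩
      (fun θ hθ => hθ.1) (b1 hx)).2
    · have : {x | x ∈ K₀ ∧ ∀ y ∈ L, ‖x - y‖ ≤ ρ} = K₀ ∩ ⋂ y ∈ L, Metric.closedBall y ρ := by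
        ext x
        simp only [Set.mem_ofPred_eq, Set.mem_inter_iff, Set.mem_iInter, mem_closedBall_iff_norm]
      rw [this]
      exact a4.inter (convex_iInter₂ fun y _ => convex_closedBall y ρ)
    · refine fun g θ hθ => ⟨a5 g θ hθ.1, fun y hy => ?_⟩
      have h1 := hne' g θ (a1 hθ.1) _ (hmap (iv g) y (hLK hy))
      rw [(hiv g y (hLK hy)).2] at h1
      exact h1.trans (hθ.2 _ (b4 _ y hy))
  have hb : Bornology.IsBounded L := isBounded_iff_forall_norm_le.2 ⟨R, hRL⟩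
  have hd : ∀ x ∈ L, ∀ y ∈ L, ‖x - y‖ ≤ Metric.diam L := fun x hx y hy =>
    dist_eq_norm x y ▸ Metric.dist_le_diam_of_mem hb hx hy
  obtain ⟨θ, hθ⟩ := b2
  have h0 : Metric.diam L ≤ 0 := by
    by_contra hc
    have hc := not_le.1 hc
    obtain ⟨u, x, hx, hu⟩ := stepA _ (half_pos hc)
    obtain ⟨g₁, hg₁, -⟩ := hu θ hθ
    have hN : (0 : ℝ) < u.card := Nat.cast_pos.2 (Finset.card_pos.2 ⟨g₁, hg₁⟩)
    have hw : ∑ _g ∈ u, ((u.card : ℝ))⁻¹ = 1 := by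
      rw [Finset.sum_const, nsmul_eq_mul, mul_inv_cancel₀ hN.ne']
    have h1 := stepB (Metric.diam L - (u.card : ℝ)⁻¹ * (Metric.diam L / 2)) _
      (a4.sum_mem (fun _ _ => inv_nonneg.2 hN.le) hw fun g _ => b1 (hx g)) fun y hy => by
        obtain ⟨g, hg, h2⟩ := hu y hy
        have e1 : ∑ g ∈ u, ((u.card : ℝ))⁻¹ • x g - y = ((u.card : ℝ))⁻¹ • ∑ g ∈ u, (x g - y) := by
          rw [Finset.smul_sum]
          simp only [smul_sub, Finset.sum_sub_distrib, ← Finset.sum_smul, hw, one_smul]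
        have h3 : ∑ g ∈ u, ‖x g - y‖ ≤ u.card * Metric.diam L - Metric.diam L / 2 := by
          have h4 := Finset.sum_le_card_nsmul (u.erase g) (fun g => ‖x g - y‖) _
            fun g _ => hd _ (hx g) _ hy
          rw [nsmul_eq_mul] at h4
          rw [← Finset.add_sum_erase _ _ hg, ← Finset.card_erase_add_one hg]
          push_cast
          linarith
        rw [e1, norm_smul, Real.norm_of_nonneg (inv_nonneg.2 hN.le)]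
        refine (mul_le_mul_of_nonneg_left ((norm_sum_le _ _).trans h3)
          (inv_nonneg.2 hN.le)).trans (le_of_eq ?_)
        rw [mul_sub, ← mul_assoc, inv_mul_cancel₀ hN.ne', one_mul]
    have h5 := Metric.diam_le_of_forall_dist_le_of_nonempty ⟨θ, hθ⟩ fun x hx y hy =>
      (dist_eq_norm x y).trans_le (h1 x hx y hy)
    have h6 := mul_pos (inv_pos.2 hN) (half_pos hc)
    linarith
  exact ⟨θ, hLK hθ, fun g =>
    sub_eq_zero.1 (norm_le_zero_iff.1 ((hd _ (b4 g θ hθ) _ hθ).trans h0))⟩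

end Pool.Agent.P.MP_5d580a_an
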