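import Pool.Agent.P.MP_5d580a_an.Bic0

open scoped ComplexOrder InnerProductSpace ComplexConjugate BoundedContinuousFunction
open MeasureTheory Filter Topology

set_option linter.unusedSectionVars false
set_option linter.unusedVariables false

noncomputable section

namespace Pool.Agent.P.MP_5d580a_an

variable {H : Type} [NormedAddCommGroup H] [InnerProductSpace ℂ H] [CompleteSpace H]

variable {M : VonNeumannAlgebra H} {J : H ≃ₗᵢ⋆[ℂ] H} {ζ : H} {E V : SpecCalc ℝ H}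
  {β : ℝ → (H →L[ℂ] H) → (H →L[ℂ] H)} {x y : H →L[ℂ] H}

theorem flowA_ext (hE : ModD M J ζ E) (hx : x ∈ Bic M J ζ) (hy : y ∈ Bic M J ζ)
    (e : x ζ = y ζ) : x = y := hE.std.sepg.eq (bic_mem hx) (bic_mem hy) e

namespace BFlow

theorem mem (hβ : BFlow M J ζ E β V) (s : ℝ) (hx : x ∈ Bic M J ζ) : β s x ∈ Bic M J ζ :=
  (hβ.rel s x hx).2.1

theorem V_fix (hβ : BFlow M J ζ E β V) (s : ℝ) : V.U s ζ = ζ := by
  have := hβ.apply s 1 bic_one
  rw [hβ.map_one] at this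
  exact this.symm

theorem zero (hE : ModD M J ζ E) (hβ : BFlow M J ζ E β V) (hx : x ∈ Bic M J ζ) : β 0 x = x :=
  flowA_ext hE (hβ.mem 0 hx) hx (by rw [hβ.apply 0 x hx, V.U_zero]; rfl)

theorem comp (hE : ModD M J ζ E) (hβ : BFlow M J ζ E β V) (s t : ℝ) (hx : x ∈ Bic M J ζ) :
    β s (β t x) = β (s + t) x :=
  flowA_ext hE (hβ.mem s (hβ.mem t hx)) (hβ.mem _ hx) (by
    rw [hβ.apply s _ (hβ.mem t hx), hβ.apply t x hx, hβ.apply _ x hx, V.U_add]; rfl)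

theorem map_add (hE : ModD M J ζ E) (hβ : BFlow M J ζ E β V) (s : ℝ) (hx : x ∈ Bic M J ζ)
    (hy : y ∈ Bic M J ζ) : β s (x + y) = β s x + β s y :=
  flowA_ext hE (hβ.mem s (bic_add hx hy)) (bic_add (hβ.mem s hx) (hβ.mem s hy)) (by
    rw [hβ.apply s _ (bic_add hx hy), add_apply, add_apply, hβ.apply s x hx, hβ.apply s y hy,
      (V.U s).map_add])

theorem map_sub (hE : ModD M J ζ E) (hβ : BFlow M J ζ E β V) (s : ℝ) (hx : x ∈ Bic M J ζ)
    (hy : y ∈ Bic M J ζ) : β s (x - y) = β s x - β s y :=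
  flowA_ext hE (hβ.mem s (bic_sub hx hy)) (bic_sub (hβ.mem s hx) (hβ.mem s hy)) (by
    rw [hβ.apply s _ (bic_sub hx hy), sub_apply, sub_apply, hβ.apply s x hx, hβ.apply s y hy,
      (V.U s).map_sub])

theorem map_smul (hE : ModD M J ζ E) (hβ : BFlow M J ζ E β V) (s : ℝ) (c : ℂ)
    (hx : x ∈ Bic M J ζ) : β s (c • x) = c • β s x :=
  flowA_ext hE (hβ.mem s (bic_smul c hx)) (bic_smul c (hβ.mem s hx)) (by
    rw [hβ.apply s _ (bic_smul c hx), smul_apply, smul_apply, hβ.apply s x hx,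
      (V.U s).map_smul])

theorem norm_apply (hβ : BFlow M J ζ E β V) (s : ℝ) (hx : x ∈ Bic M J ζ) :
    ‖β s x ζ‖ = ‖x ζ‖ := by
  rw [hβ.apply s x hx, V.norm_U_apply]

theorem sig (hE : ModD M J ζ E) (hβ : BFlow M J ζ E β V) (s t : ℝ) (hx : x ∈ Bic M J ζ) :
    β s (E.sig t x) = E.sig t (β s x) :=
  flowA_ext hE (hβ.mem s (bic_sig hE hx t)) (bic_sig hE (hβ.mem s hx) t) (by
    rw [hβ.apply s _ (bic_sig hE hx t), hE.sig_apply, hE.sig_apply, hβ.apply s x hx]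
    exact congrArg (fun T : H →L[ℂ] H => T (x ζ)) (hβ.comm s t))

theorem commute (hβ : BFlow M J ζ E β V) {f g : ℝ → ℂ} (hf : BM f) (hg : BM g) :
    V.Φ f * E.Φ g = E.Φ g * V.Φ f :=
  commute_of_U E (fun t => (commute_of_U V (fun s => (hβ.comm s t).symm) hf).symm) hg

theorem win (hE : ModD M J ζ E) (hβ : BFlow M J ζ E β V) (s : ℝ) {δ : ℝ} (hδ : 0 < δ) (ν : ℝ)
    (hx : x ∈ Bic M J ζ) : β s (win E δ ν x) = win E δ ν (β s x) :=
  flowA_ext hE (hβ.mem s (bic_win hE hx hδ ν)) (bic_win hE (hβ.mem s hx) hδ ν) (by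
    rw [hβ.apply s _ (bic_win hE hx hδ ν), hE.win_apply hδ, hE.win_apply hδ, hβ.apply s x hx]
    exact congrArg (fun T : H →L[ℂ] H => T (x ζ)) (hβ.commute (bm_exp s) (bm_trif δ ν)))

theorem specIn (hβ : BFlow M J ζ E β V) (s : ℝ) (hx : x ∈ Bic M J ζ) {a b : ℝ}
    (h : SpecIn E (x ζ) a b) : SpecIn E (β s x ζ) a b := by
  have hm : MeasurableSet (Set.Icc a b)ᶜ := measurableSet_Icc.compl
  have h1 : V.U s (E.Pr (Set.Icc a b)ᶜ (x ζ)) = E.Pr (Set.Icc a b)ᶜ (V.U s (x ζ)) :=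
    congrArg (fun T : H →L[ℂ] H => T (x ζ)) (hβ.commute (bm_exp s) (BM.indicator_one hm))
  rw [SpecIn, ← E.Pr_eq_zero_iff hm] at h ⊢
  rw [hβ.apply s x hx, ← h1, h, (V.U s).map_zero]

theorem scb (hE : ModD M J ζ E) (hβ : BFlow M J ζ E β V) (hx : x ∈ Bic M J ζ) :
    SCB (fun s => β s x) ‖x‖ :=
  continuous_of_cyc hE.std.cyc' _ (fun t => ⟨bic_mem (hβ.mem t hx), hβ.norm_le t x hx⟩)
    ((V.continuous_U (x ζ)).congr fun t => (hβ.apply t x hx).symm)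

theorem flowA_norm_sub (hE : ModD M J ζ E) (hβ : BFlow M J ζ E β V) (hx : x ∈ Bic M J ζ)
    (s t : ℝ) : ‖β s x - β t x‖ ≤ ‖β (s - t) x - x‖ := by
  have := hβ.norm_le t _ (bic_sub (hβ.mem (s - t) hx) hx)
  rwa [hβ.map_sub hE t (hβ.mem (s - t) hx) hx, hβ.comp hE _ _ hx, add_sub_cancel] at this

theorem continuous_of_ncont (hE : ModD M J ζ E) (hβ : BFlow M J ζ E β V) (hx : x ∈ Bic M J ζ)
    (h : NCont β x) : Continuous fun s => β s x := by
  refine Metric.continuous_iff.2 fun t ε hε => ?_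
  obtain ⟨ρ, hρ, h1⟩ := h (ε / 2) (half_pos hε)
  refine ⟨ρ, hρ, fun s hs => ?_⟩
  rw [dist_eq_norm]
  exact ((flowA_norm_sub hE hβ hx s t).trans (h1 _ hs.le)).trans_lt (half_lt_self hε)

theorem norm_sub_le (hE : ModD M J ζ E) (hβ : BFlow M J ζ E β V) (hx : x ∈ Bic M J ζ) (s t : ℝ) :
    ‖β s x - β t x‖ ≤ ‖β (s - t) x - x‖ :=
  flowA_norm_sub hE hβ hx s t

/-- localisation in both spectra -/
theorem exists_local (hE : ModD M J ζ E) (hβ : BFlow M J ζ E β V) (hx : x ∈ Bic M J ζ) {γ : ℝ}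
    (hγ : 0 < γ) (l s : ℝ) :
    ∃ x' ∈ Bic M J ζ, NCont β x' ∧ x' ζ = E.Φ (trif γ l) (V.Φ (trif γ s) (x ζ)) := by
  have hg := fker_integrable hγ s
  have key : ∀ z ∈ Bic M J ζ, opInt (fker γ s) (fun t => β t z) ∈ Bic M J ζ ∧
      opInt (fker γ s) (fun t => β t z) ζ = V.Φ (trif γ s) (z ζ) := fun z hz => by
    refine ⟨bic_opInt hE.std (hβ.scb hE hz) ?_ (fun t => hβ.mem t hz) hg, ?_⟩
    · have := hβ.scb hE (bic_star hE.std hz)
      simp only [hβ.map_star _ z hz, norm_star] at this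
      exact this
    · rw [opInt_apply (hβ.scb hE hz) hg, trif_apply V hγ]
      simp only [hβ.apply _ z hz]
  obtain ⟨k1, k2⟩ := key x hx
  refine ⟨_, bic_win hE k1 hγ l, fun ε hε => ?_, by rw [hE.win_apply hγ, k2]⟩
  have hn : 0 < ‖x‖ + 1 := by positivity
  obtain ⟨ρ, hρ, h1⟩ := translate_L1 hg (div_pos hε hn)
  refine ⟨ρ, hρ, fun r hr => ?_⟩
  obtain ⟨k3, k4⟩ := key _ (hβ.mem r hx)
  have e1 : β r (opInt (fker γ s) fun t => β t x) = opInt (fker γ s) fun t => β t (β r x) :=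
    flowA_ext hE (hβ.mem r k1) k3 (by
      rw [hβ.apply r _ k1, k2, k4, hβ.apply r x hx]
      exact congrArg (fun T : H →L[ℂ] H => T (x ζ)) (V.U_commute r (bm_trif γ s)))
  have e2 : (fun t => β t (β r x)) = fun t => β (r + t) x :=
    funext fun t => by rw [hβ.comp hE t r hx, add_comm]
  rw [hβ.win hE r hγ l k1, Pool.Agent.P.MP_5d580a_an.win, Pool.Agent.P.MP_5d580a_an.win,
    ← smear_sub E (fker_integrable hγ l)]
  refine (norm_win_le E hγ l _).trans ?_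
  rw [e1, e2, opInt_shift (hβ.scb hE hx) hg,
    ← opInt_sub_kernel (hβ.scb hE hx) (hg.comp_sub_right r) hg]
  refine (norm_opInt_le (hβ.scb hE hx) ((hg.comp_sub_right r).sub hg)).trans ?_
  refine (mul_le_mul (h1 r hr) (le_add_of_nonneg_right zero_le_one) (norm_nonneg _)
    (div_pos hε hn).le).trans ?_
  rw [div_mul_cancel₀ _ hn.ne']

end BFlow

end Pool.Agent.P.MP_5d580a_an
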