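import Pool.Agent.P.MP_5d580a_an.HB

open scoped ComplexOrder InnerProductSpace ComplexConjugate BoundedContinuousFunction
open MeasureTheory Filter Topology

set_option linter.unusedSectionVars false
set_option linter.unusedVariables false

noncomputable section

namespace Pool.Agent.P.MP_5d580a_an

variable {H : Type} [NormedAddCommGroup H] [InnerProductSpace ℂ H] [CompleteSpace H]

variable {C : Type} [CStarAlgebra C] [PartialOrder C] [StarOrderedRing C] {θ : C →L[ℂ] ℂ} {b : C}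

theorem gv_aux_nonneg {x c : C} (h₁ : x ≤ c) (h₂ : -x ≤ c) : 0 ≤ c := by
  have h : (0 : C) ≤ c + c := by
    have := add_le_add h₁ h₂
    rwa [add_neg_cancel] at this
  have h' : (0 : C) ≤ (1 / 2 : ℝ) • (c + c) := smul_nonneg (by norm_num) h
  rwa [← two_smul ℝ c, smul_smul, show (1 / 2 : ℝ) * 2 = 1 by norm_num, one_smul] at h'

theorem gv_aux_nonneg' {t : ℝ} {c : C} (h₁ : b - algebraMap ℝ C t ≤ c)
    (h₂ : algebraMap ℝ C t - b ≤ c) : 0 ≤ c :=
  gv_aux_nonneg h₁ (by rwa [neg_sub])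

theorem gv_aux_alg (θ : C →L[ℂ] ℂ) (t : ℝ) : (θ (algebraMap ℝ C t)).re = t * (θ 1).re := by
  rw [Algebra.algebraMap_eq_smul_one, ← Complex.coe_smul, map_smul, smul_eq_mul,
    Complex.re_ofReal_mul]

theorem gv_aux_bounds (hb : IsSelfAdjoint b) :
    b - algebraMap ℝ C 0 ≤ algebraMap ℝ C ‖b‖ ∧ algebraMap ℝ C 0 - b ≤ algebraMap ℝ C ‖b‖ := by
  rw [map_zero, sub_zero, zero_sub]
  refine ⟨hb.le_algebraMap_norm_self, ?_⟩
  have := hb.neg.le_algebraMap_norm_self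
  rwa [norm_neg] at this

theorem gv_aux_ne (θ : C →L[ℂ] ℂ) (hb : IsSelfAdjoint b) :
    {r : ℝ | ∃ (t : ℝ) (c : C),
      b - algebraMap ℝ C t ≤ c ∧ algebraMap ℝ C t - b ≤ c ∧ r = (θ c).re}.Nonempty :=
  ⟨_, 0, _, (gv_aux_bounds hb).1, (gv_aux_bounds hb).2, rfl⟩

theorem gv_aux_le (hb : IsSelfAdjoint b) {r : ℝ}
    (h : ∀ (t : ℝ) (c : C), b - algebraMap ℝ C t ≤ c → algebraMap ℝ C t - b ≤ c →
      r ≤ (θ c).re) : r ≤ gv θ b := by
  refine le_csInf (gv_aux_ne θ hb) ?_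
  rintro _ ⟨t, c, h₁, h₂, rfl⟩
  exact h t c h₁ h₂

theorem gv_nonneg (hθ : IsPos θ) (b : C) : 0 ≤ gv θ b := by
  refine Real.sInf_nonneg ?_
  rintro _ ⟨t, c, h₁, h₂, rfl⟩
  exact hθ.re_nonneg (gv_aux_nonneg' h₁ h₂)

theorem gv_le (hθ : IsPos θ) {t : ℝ} {c : C} (h₁ : b - algebraMap ℝ C t ≤ c)
    (h₂ : algebraMap ℝ C t - b ≤ c) : gv θ b ≤ (θ c).re := by
  refine csInf_le ⟨0, ?_⟩ ⟨t, c, h₁, h₂, rfl⟩
  rintro _ ⟨t, c, h₁, h₂, rfl⟩
  exact hθ.re_nonneg (gv_aux_nonneg' h₁ h₂)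

theorem exists_lt_gv (hb : IsSelfAdjoint b) {r : ℝ} (h : gv θ b < r) :
    ∃ (t : ℝ) (c : C), 0 ≤ c ∧ b - algebraMap ℝ C t ≤ c ∧ algebraMap ℝ C t - b ≤ c ∧
      (θ c).re < r := by
  obtain ⟨_, ⟨t, c, h₁, h₂, rfl⟩, hr⟩ := exists_lt_of_csInf_lt (gv_aux_ne θ hb) h
  exact ⟨t, c, gv_aux_nonneg' h₁ h₂, h₁, h₂, hr⟩

theorem gv_smul (hθ : IsPos θ) (hb : IsSelfAdjoint b) {s : ℝ} (hs : 0 ≤ s) :
    gv ((s : ℂ) • θ) b = s * gv θ b := by
  have e : ∀ c : C, (((s : ℂ) • θ) c).re = s * (θ c).re := fun c => by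
    rw [smul_apply, smul_eq_mul, Complex.re_ofReal_mul]
  refine le_antisymm ?_ (gv_aux_le hb fun t c h₁ h₂ => ?_)
  · refine le_of_forall_pos_le_add fun ε hε => ?_
    have hs1 : 0 < s + 1 := by linarith
    obtain ⟨t, c, -, h₁, h₂, hr⟩ := exists_lt_gv (θ := θ) hb
      (lt_add_of_pos_right _ (div_pos hε hs1))
    refine (gv_le (hθ.smul hs) h₁ h₂).trans ?_
    rw [e]
    have h3 := mul_le_mul_of_nonneg_left hr.le hs
    have h4 : s * (ε / (s + 1)) ≤ ε := by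
      rw [← mul_div_assoc, div_le_iff₀ hs1]; nlinarith
    nlinarith
  · rw [e]
    exact mul_le_mul_of_nonneg_left (gv_le hθ h₁ h₂) hs

theorem gv_zero (hb : IsSelfAdjoint b) : gv (0 : C →L[ℂ] ℂ) b = 0 :=
  le_antisymm (gv_le isPos_zero (gv_aux_bounds hb).1 (gv_aux_bounds hb).2) (gv_nonneg isPos_zero b)

theorem gv_superadd {θ' : C →L[ℂ] ℂ} (hθ : IsPos θ) (hθ' : IsPos θ') (hb : IsSelfAdjoint b) :
    gv θ b + gv θ' b ≤ gv (θ + θ') b :=
  gv_aux_le hb fun t c h₁ h₂ => by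
    rw [add_apply, Complex.add_re]
    exact add_le_add (gv_le hθ h₁ h₂) (gv_le hθ' h₁ h₂)

theorem gv_aux_add (hθ : IsPos θ) {x y : C} (hx : IsSelfAdjoint x) (hy : IsSelfAdjoint y) :
    gv θ (x + y) ≤ gv θ x + gv θ y := by
  refine le_of_forall_pos_le_add fun ε hε => ?_
  obtain ⟨t, c, -, h₁, h₂, hr⟩ := exists_lt_gv (θ := θ) hx (lt_add_of_pos_right _ (half_pos hε))
  obtain ⟨t', c', -, h₁', h₂', hr'⟩ :=
    exists_lt_gv (θ := θ) hy (lt_add_of_pos_right _ (half_pos hε))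
  have := gv_le hθ (b := x + y) (t := t + t') (c := c + c')
    (by rw [map_add, add_sub_add_comm]; exact add_le_add h₁ h₁')
    (by rw [map_add, add_sub_add_comm]; exact add_le_add h₂ h₂')
  rw [map_add, Complex.add_re] at this
  linarith

theorem gv_aux_smul_le (hθ : IsPos θ) {x : C} (hx : IsSelfAdjoint x) {s : ℝ} (hs : 0 < s) :
    gv θ (s • x) ≤ s * gv θ x := by
  rw [← div_le_iff₀' hs]
  refine gv_aux_le hx fun t c h₁ h₂ => ?_
  rw [div_le_iff₀' hs]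
  have e : algebraMap ℝ C (s * t) = s • algebraMap ℝ C t := by
    rw [map_mul, Algebra.smul_def]
  have := gv_le hθ (b := s • x) (t := s * t) (c := s • c)
    (by rw [e, ← smul_sub]; exact smul_le_smul_of_nonneg_left h₁ hs.le)
    (by rw [e, ← smul_sub]; exact smul_le_smul_of_nonneg_left h₂ hs.le)
  rwa [← Complex.coe_smul s c, map_smul, smul_eq_mul, Complex.re_ofReal_mul] at this

theorem gv_aux_smul (hθ : IsPos θ) {x : C} (hx : IsSelfAdjoint x) {s : ℝ} (hs : 0 < s) :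
    gv θ ((s : ℂ) • x) = s * gv θ x := by
  rw [Complex.coe_smul]
  refine le_antisymm (gv_aux_smul_le hθ hx hs) ?_
  have hsx : IsSelfAdjoint (s • x) := (IsSelfAdjoint.all s).smul hx
  have := gv_aux_smul_le hθ hsx (inv_pos.2 hs)
  rw [smul_smul, inv_mul_cancel₀ hs.ne', one_smul] at this
  have h2 := mul_le_mul_of_nonneg_left this hs.le
  rwa [← mul_assoc, mul_inv_cancel₀ hs.ne', one_mul] at h2

theorem gv_dual (hθ : IsPos θ) (hb : IsSelfAdjoint b) :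
    ∃ ψ₁ ψ₂ : C →L[ℂ] ℂ, IsPos ψ₁ ∧ IsPos ψ₂ ∧ ψ₁ + ψ₂ = θ ∧ ψ₁ 1 = ψ₂ 1 ∧
      gv θ b = (ψ₁ b).re - (ψ₂ b).re := by
  obtain ⟨ν, hν, hb'⟩ := hb_tool (gv θ) (fun x y hx hy => gv_aux_add hθ hx hy)
    (fun t x ht hx => gv_aux_smul hθ hx ht) (θ 1).re
    (fun x hx => by
      have := gv_le hθ (gv_aux_bounds hx).1 (gv_aux_bounds hx).2
      rwa [gv_aux_alg, mul_comm] at this) hb
  have h1 : ν 1 = 0 := by
    have a1 := hν 1 (IsSelfAdjoint.one C)
    have a2 := hν (-1) (IsSelfAdjoint.one C).neg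
    have b1 : gv θ (1 : C) ≤ (θ 0).re := gv_le hθ (t := 1) (by simp) (by simp)
    have b2 : gv θ (-1 : C) ≤ (θ 0).re := gv_le hθ (t := -1) (by simp) (by simp)
    rw [map_zero, Complex.zero_re] at b1 b2
    rw [map_neg, Complex.neg_re] at a2
    exact Complex.ext (by rw [Complex.zero_re]; linarith [a1.2, a2.2]) a1.1
  have hc : ∀ c : C, 0 ≤ c → (ν c).im = 0 ∧ (ν c).re ≤ (θ c).re ∧ -(ν c).re ≤ (θ c).re := by
    intro c hc
    have hsa : IsSelfAdjoint c := IsSelfAdjoint.of_nonneg hc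
    have a1 := hν c hsa
    have a2 := hν (-c) hsa.neg
    have hn : -c ≤ c := (neg_nonpos.2 hc).trans hc
    have b1 : gv θ c ≤ (θ c).re := gv_le hθ (t := 0) (by simp) (by simpa using hn)
    have b2 : gv θ (-c) ≤ (θ c).re := gv_le hθ (t := 0) (by simpa using hn) (by simp)
    rw [map_neg, Complex.neg_re] at a2
    exact ⟨a1.1, a1.2.trans b1, a2.2.trans b2⟩
  refine ⟨((1 / 2 : ℝ) : ℂ) • (θ + ν), ((1 / 2 : ℝ) : ℂ) • (θ - ν), IsPos.smul ?_ (by norm_num),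
    IsPos.smul ?_ (by norm_num), ?_, ?_, ?_⟩
  · refine isPos_of_nonneg fun c h0 => ?_
    obtain ⟨a1, a2, a3⟩ := hc c h0
    rw [add_apply, Complex.nonneg_iff, Complex.add_re, Complex.add_im, a1,
      hθ.im_sa (IsSelfAdjoint.of_nonneg h0)]
    exact ⟨by linarith, by norm_num⟩
  · refine isPos_of_nonneg fun c h0 => ?_
    obtain ⟨a1, a2, a3⟩ := hc c h0
    rw [sub_apply, Complex.nonneg_iff, Complex.sub_re, Complex.sub_im, a1,
      hθ.im_sa (IsSelfAdjoint.of_nonneg h0)]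
    exact ⟨by linarith, by norm_num⟩
  · ext c
    simp only [add_apply, sub_apply, smul_apply, smul_eq_mul]
    push_cast; ring
  · simp only [add_apply, sub_apply, smul_apply, h1, add_zero, sub_zero]
  · simp only [add_apply, sub_apply, smul_apply, smul_eq_mul, Complex.re_ofReal_mul,
      Complex.add_re, Complex.sub_re, hb']
    ring

theorem wclosed_gv (hb : IsSelfAdjoint b) (η : ℝ) :
    WClosed {θ : C →L[ℂ] ℂ | IsPos θ ∧ η ≤ gv θ b} := by
  intro θ h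
  have key : ∀ (c : C) (γ : ℝ), 0 < γ → ∃ θ' : C →L[ℂ] ℂ, IsPos θ' ∧ η ≤ gv θ' b ∧
      |(θ' c).re - (θ c).re| ≤ γ ∧ |(θ' c).im - (θ c).im| ≤ γ := by
    intro c γ hγ
    obtain ⟨θ', ⟨h1, h2⟩, h3⟩ := h {c} γ hγ
    have h4 := (h3 c (Finset.mem_singleton_self c)).le
    refine ⟨θ', h1, h2, ?_, ?_⟩
    · rw [← Complex.sub_re]; exact (Complex.abs_re_le_norm _).trans h4
    · rw [← Complex.sub_im]; exact (Complex.abs_im_le_norm _).trans h4
  refine ⟨fun x => ?_, gv_aux_le hb fun t c h₁ h₂ => ?_⟩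
  · rw [Complex.nonneg_iff]
    constructor
    · refine le_of_forall_pos_le_add fun γ hγ => ?_
      obtain ⟨θ', h1, -, h3, -⟩ := key (star x * x) γ hγ
      have := h1.re_star_mul x
      linarith [(abs_le.1 h3).2]
    · symm
      rw [← abs_nonpos_iff]
      refine le_of_forall_pos_le_add fun γ hγ => ?_
      obtain ⟨θ', h1, -, -, h4⟩ := key (star x * x) γ hγ
      rwa [h1.im_sa (IsSelfAdjoint.star_mul_self x), zero_sub, abs_neg, ← zero_add γ] at h4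
  · refine le_of_forall_pos_le_add fun γ hγ => ?_
    obtain ⟨θ', h1, h2, h3, -⟩ := key c γ hγ
    have := gv_le h1 h₁ h₂
    linarith [(abs_le.1 h3).2]

theorem gv_aux_abs {ψ : C →L[ℂ] ℂ} (hψ : IsPos ψ) {t : ℝ} {c : C} (h₁ : b - algebraMap ℝ C t ≤ c)
    (h₂ : algebraMap ℝ C t - b ≤ c) : |(ψ b).re - t * (ψ 1).re| ≤ (ψ c).re := by
  have a1 := hψ.re_mono h₁
  have a2 := hψ.re_mono h₂
  rw [map_sub, Complex.sub_re, gv_aux_alg] at a1 a2
  exact abs_le.2 ⟨by linarith, a1⟩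

theorem pm_of_gv (hθ : IsPos θ) (b : ℕ → C) (hb : ∀ n, IsSelfAdjoint (b n))
    (hd : ∀ c : C, IsSelfAdjoint c → ∀ ε : ℝ, 0 < ε → ∃ n, ‖c - b n‖ < ε)
    (h : ∀ n, gv θ (b n) ≤ 0) : PM θ := by
  refine ⟨hθ, fun ψ hψ hle => ?_⟩
  have p1 := hθ.one_nonneg
  have p2 := hψ.one_nonneg
  have p3 : (ψ 1).re ≤ (θ 1).re := hle.re_le zero_le_one
  have small : ∀ (x K : ℝ), 0 ≤ K → (∀ ε : ℝ, 0 < ε → |x| ≤ K * ε) → x = 0 := by
    intro x K hK hx
    rw [← abs_nonpos_iff]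
    refine le_of_forall_pos_le_add fun γ hγ => ?_
    have hK1 : 0 < K + 1 := by linarith
    refine (hx _ (div_pos hγ hK1)).trans ?_
    rw [zero_add, ← mul_div_assoc, div_le_iff₀ hK1]
    nlinarith
  have e1 : ∀ n, (θ 1).re * (ψ (b n)).re - (ψ 1).re * (θ (b n)).re = 0 := by
    intro n
    refine small _ ((θ 1).re + (ψ 1).re) (by linarith) fun ε hε => ?_
    obtain ⟨t, c, hc, h₁, h₂, hr⟩ := exists_lt_gv (θ := θ) (hb n) ((h n).trans_lt hε)
    have a1 := abs_le.1 ((gv_aux_abs hθ h₁ h₂).trans hr.le)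
    have a2 := abs_le.1 (((gv_aux_abs hψ h₁ h₂).trans (hle.re_le hc)).trans hr.le)
    have b1 := mul_le_mul_of_nonneg_left a1.1 p2
    have b2 := mul_le_mul_of_nonneg_left a1.2 p2
    have b3 := mul_le_mul_of_nonneg_left a2.1 p1
    have b4 := mul_le_mul_of_nonneg_left a2.2 p1
    exact abs_le.2 ⟨by linarith, by linarith⟩
  have e2 : ∀ c : C, IsSelfAdjoint c → (θ 1).re * (ψ c).re - (ψ 1).re * (θ c).re = 0 := by
    intro c hc
    refine small _ ((θ 1).re * ‖ψ‖ + (ψ 1).re * ‖θ‖) (by positivity) fun ε hε => ?_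
    obtain ⟨n, hn⟩ := hd c hc ε hε
    have bd : ∀ φ : C →L[ℂ] ℂ, |(φ c).re - (φ (b n)).re| ≤ ‖φ‖ * ε := fun φ => by
      rw [← Complex.sub_re, ← map_sub]
      exact (Complex.abs_re_le_norm _).trans ((φ.le_opNorm _).trans
        (mul_le_mul_of_nonneg_left hn.le (norm_nonneg _)))
    have a1 := abs_le.1 (bd θ)
    have a2 := abs_le.1 (bd ψ)
    have b1 := mul_le_mul_of_nonneg_left a1.1 p2
    have b2 := mul_le_mul_of_nonneg_left a1.2 p2
    have b3 := mul_le_mul_of_nonneg_left a2.1 p1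
    have b4 := mul_le_mul_of_nonneg_left a2.2 p1
    have b5 := e1 n
    exact abs_le.2 ⟨by linarith, by linarith⟩
  rcases p1.eq_or_lt with h0 | h0
  · refine ⟨0, ?_⟩
    rw [hψ.eq_zero (by linarith)]
    ext c
    simp
  · refine ⟨(ψ 1).re / (θ 1).re, ext_sa hψ (hθ.smul (div_nonneg p2 p1)) fun c hc _ => ?_⟩
    rw [smul_apply, smul_eq_mul, Complex.re_ofReal_mul, div_mul_eq_mul_div, le_div_iff₀ h0]
    have := e2 c hc
    linarith

theorem mn_smul (θ : C →L[ℂ] ℂ) (c c' : C) {s : ℝ} (hs : 0 ≤ s) :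
    mn ((s : ℂ) • θ) c c' = s * mn θ c c' := by
  simp only [mn, smul_apply, smul_eq_mul, Complex.re_ofReal_mul, mul_min_of_nonneg _ _ hs]

theorem mn_list_sum (l : List (C →L[ℂ] ℂ)) (c c' : C) :
    (l.map fun θ => mn θ c c').sum ≤ mn l.sum c c' := by
  induction l with
  | nil => simp [mn]
  | cons θ l ih =>
    rw [List.map_cons, List.sum_cons, List.sum_cons]
    refine (add_le_add le_rfl ih).trans ?_
    simp only [mn, add_apply, Complex.add_re]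
    exact le_min (add_le_add (min_le_left _ _) (min_le_left _ _))
      (add_le_add (min_le_right _ _) (min_le_right _ _))

end Pool.Agent.P.MP_5d580a_an
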