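import Pool.Agent.P.MP_5d580a_an.Proj

open scoped ComplexOrder InnerProductSpace ComplexConjugate BoundedContinuousFunction
open MeasureTheory Filter Topology

set_option linter.unusedSectionVars false
set_option linter.unusedVariables false

noncomputable section

namespace Pool.Agent.P.MP_5d580a_an

variable {H : Type} [NormedAddCommGroup H] [InnerProductSpace ℂ H] [CompleteSpace H]

namespace KapAux

variable {ι : Type} [Fintype ι] [DecidableEq ι]

/-- diagonal action on a finite power -/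
def dg (ι : Type) [Fintype ι] (x : H →L[ℂ] H) :
    PiLp 2 (fun _ : ι => H) →L[ℂ] PiLp 2 (fun _ : ι => H) :=
  (PiLp.continuousLinearEquiv 2 ℂ (fun _ : ι => H)).symm.toContinuousLinearMap.comp
    (ContinuousLinearMap.pi fun i => x.comp (PiLp.proj 2 (fun _ : ι => H) i))

@[simp] theorem dg_apply (x : H →L[ℂ] H) (ξ : PiLp 2 (fun _ : ι => H)) (i : ι) :
    dg ι x ξ i = x (ξ i) := rfl

/-- coordinate injection -/
def sg (j : ι) : H →L[ℂ] PiLp 2 (fun _ : ι => H) :=
  (PiLp.continuousLinearEquiv 2 ℂ (fun _ : ι => H)).symm.toContinuousLinearMap.comp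
    (ContinuousLinearMap.single ℂ (fun _ : ι => H) j)

theorem sg_apply (j i : ι) (ξ : H) : sg j ξ i = (Pi.single j ξ : ι → H) i := rfl

theorem dg_sg (x : H →L[ℂ] H) (j : ι) (ξ : H) : dg ι x (sg j ξ) = sg j (x ξ) := by
  ext i
  rw [dg_apply, sg_apply, sg_apply]
  by_cases h : i = j
  · subst h; simp
  · simp [h]

theorem sum_sg (ξ : PiLp 2 (fun _ : ι => H)) : ∑ j, sg j (ξ j) = ξ := by
  ext i
  rw [WithLp.ofLp_sum, Finset.sum_apply]
  simp only [sg_apply]
  rw [Finset.sum_eq_single i]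
  · simp
  · intro j _ hj
    exact Pi.single_eq_of_ne hj.symm _
  · simp

/-- the diagonal star homomorphism -/
def dgHom (ι : Type) [Fintype ι] :
    (H →L[ℂ] H) →⋆ₐ[ℂ] (PiLp 2 (fun _ : ι => H) →L[ℂ] PiLp 2 (fun _ : ι => H)) where
  toFun := dg ι
  map_one' := by ext ξ i; rfl
  map_mul' x y := by ext ξ i; rfl
  map_zero' := by ext ξ i; rfl
  map_add' x y := by ext ξ i; rfl
  commutes' c := by ext ξ i; rfl
  map_star' x := by
    rw [ContinuousLinearMap.star_eq_adjoint (dg ι x), ContinuousLinearMap.eq_adjoint_iff]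
    intro ξ η
    simp only [PiLp.inner_apply, dg_apply, inner_star_left]

theorem multi (S : StarSubalgebra ℂ (H →L[ℂ] H)) {T : H →L[ℂ] H}
    (hT : ∀ y : H →L[ℂ] H, (∀ s ∈ S, s * y = y * s) → y * T = T * y)
    (v : PiLp 2 (fun _ : ι => H)) : dg ι T v ∈ closure {η | ∃ s ∈ S, η = dg ι s v} := by
  have h := bicomm_single (S.map (dgHom ι)) (T := dg ι T) ?_ v
  · refine closure_mono ?_ h
    rintro η ⟨s', hs', rfl⟩
    obtain ⟨s, hs, rfl⟩ := StarSubalgebra.mem_map.1 hs'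
    exact ⟨s, hs, rfl⟩
  intro y hy
  have key : ∀ i j : ι, ∀ ξ : H, y (sg j (T ξ)) i = T (y (sg j ξ) i) := by
    intro i j ξ
    have := hT ((PiLp.proj 2 (fun _ : ι => H) i).comp (y.comp (sg j))) fun s hs => by
      ext ξ
      have h1 := congrArg (fun z => z (sg j ξ) i) (hy (dg ι s) (StarSubalgebra.mem_map.2 ⟨s, hs, rfl⟩))
      simp only [mul_apply_eq_comp, dg_apply, dg_sg] at h1
      exact h1
    exact congrArg (fun z => z ξ) this
  ext ξ i
  simp only [mul_apply_eq_comp, dg_apply]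
  have e1 : y (dg ι T ξ) = ∑ j, y (sg j (T (ξ j))) := by
    rw [← map_sum]
    congr 1
    exact (sum_sg (dg ι T ξ)).symm
  have e2 : y ξ = ∑ j, y (sg j (ξ j)) := by
    rw [← map_sum, sum_sg]
  rw [e1, e2, WithLp.ofLp_sum, WithLp.ofLp_sum, Finset.sum_apply, Finset.sum_apply, map_sum]
  exact Finset.sum_congr rfl fun j _ => key i j (ξ j)

theorem multi_sa (S : StarSubalgebra ℂ (H →L[ℂ] H)) {T : H →L[ℂ] H}
    (hT : ∀ y : H →L[ℂ] H, (∀ s ∈ S, s * y = y * s) → y * T = T * y) (hsa : IsSelfAdjoint T)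
    (v : PiLp 2 (fun _ : ι => H)) :
    dg ι T v ∈ closure {η | ∃ s ∈ S, IsSelfAdjoint s ∧ η = dg ι s v} := by
  by_contra hn
  have hsm : ∀ (t : ℝ) (s : H →L[ℂ] H), s ∈ S → IsSelfAdjoint s →
      (t : ℂ) • s ∈ S ∧ IsSelfAdjoint ((t : ℂ) • s) := fun t s hs h =>
    ⟨S.smul_mem hs _, by
      unfold IsSelfAdjoint
      rw [star_smul, h.star_eq, Complex.star_def, Complex.conj_ofReal]⟩
  have hcv : Convex ℝ {η | ∃ s ∈ S, IsSelfAdjoint s ∧ η = dg ι s v} := by
    rintro _ ⟨s, hs, hs', rfl⟩ _ ⟨r, hr, hr', rfl⟩ a b _ _ _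
    refine ⟨(a : ℂ) • s + (b : ℂ) • r, add_mem (hsm a s hs hs').1 (hsm b r hr hr').1,
      (hsm a s hs hs').2.add (hsm b r hr hr').2, ?_⟩
    ext i
    simp
  obtain ⟨f, u, h1, h2⟩ := RCLike.geometric_hahn_banach_closed_point (𝕜 := ℂ) hcv.closure
    isClosed_closure hn
  obtain ⟨γ, rfl⟩ := (InnerProductSpace.toDual ℂ (PiLp 2 (fun _ : ι => H))).surjective f
  simp only [InnerProductSpace.toDual_apply_apply, RCLike.re_to_complex] at h1 h2
  have hu : 0 < u := by
    have := h1 0 (subset_closure ⟨0, zero_mem _, IsSelfAdjoint.zero _, by ext i; simp⟩)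
    simpa using this
  have hz : ∀ s ∈ S, IsSelfAdjoint s → (⟪γ, dg ι s v⟫_ℂ).re = 0 := by
    intro s hs hs'
    by_contra hne
    have := h1 _ (subset_closure ⟨_, (hsm (u / (⟪γ, dg ι s v⟫_ℂ).re) s hs hs').1,
      (hsm (u / (⟪γ, dg ι s v⟫_ℂ).re) s hs hs').2, rfl⟩)
    have e : dg ι (((u / (⟪γ, dg ι s v⟫_ℂ).re : ℝ) : ℂ) • s) v =
        ((u / (⟪γ, dg ι s v⟫_ℂ).re : ℝ) : ℂ) • dg ι s v := by
      ext i; simp
    rw [e, inner_smul_right, Complex.re_ofReal_mul, div_mul_cancel₀ _ hne] at this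
    exact lt_irrefl _ this
  let w : PiLp 2 (fun _ : ι ⊕ ι => H) := WithLp.toLp 2 (Sum.elim (fun i => v i) (fun i => γ i))
  let g : PiLp 2 (fun _ : ι ⊕ ι => H) → ℝ := fun ξ =>
    (∑ i, (⟪γ i, ξ (Sum.inl i)⟫_ℂ + ⟪ξ (Sum.inr i), v i⟫_ℂ)).re
  have hg : Continuous g := by
    refine Complex.continuous_re.comp (continuous_finsetSum _ fun i _ => ?_)
    fun_prop
  have hgs : ∀ s : H →L[ℂ] H, g (dg _ s w) = (⟪γ, dg ι (s + star s) v⟫_ℂ).re := by
    intro s
    simp only [g, w, PiLp.inner_apply, dg_apply, add_apply, inner_add_right,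
      inner_star_right, Sum.elim_inl, Sum.elim_inr]
  have h0 : g (dg _ T w) = 0 := by
    have hsub : {η | ∃ s ∈ S, η = dg (ι ⊕ ι) s w} ⊆ {η | g η = 0} := by
      rintro _ ⟨s, hs, rfl⟩
      show g _ = 0
      rw [hgs]
      exact hz _ (add_mem hs (star_mem hs)) (IsSelfAdjoint.add_star_self s)
    exact closure_minimal hsub (isClosed_eq hg continuous_const) (multi S hT w)
  rw [hgs, hsa.star_eq] at h0
  have e : dg ι (T + T) v = dg ι T v + dg ι T v := by ext i; simp
  rw [e, inner_add_right, Complex.add_re] at h0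
  linarith

end KapAux

open KapAux

theorem approx_sa (S : StarSubalgebra ℂ (H →L[ℂ] H)) {T : H →L[ℂ] H}
    (hT : ∀ y : H →L[ℂ] H, (∀ s ∈ S, s * y = y * s) → y * T = T * y) (hsa : IsSelfAdjoint T)
    (F : Finset H) {ε : ℝ} (hε : 0 < ε) :
    ∃ s ∈ S, IsSelfAdjoint s ∧ ∀ η ∈ F, ‖s η - T η‖ ≤ ε := by
  classical
  have h := multi_sa (ι := F) S hT hsa (WithLp.toLp 2 fun i => (i : H))
  obtain ⟨_, ⟨s, hs, hs', rfl⟩, hd⟩ := Metric.mem_closure_iff.1 h ε hε
  refine ⟨s, hs, hs', fun η hη => ?_⟩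
  rw [dist_comm, dist_eq_norm] at hd
  exact (PiLp.norm_apply_le _ (⟨η, hη⟩ : F)).trans hd.le

theorem kap_approx_rep {C : Type} [CStarAlgebra C] (π : C →⋆ₐ[ℂ] (H →L[ℂ] H)) {T : H →L[ℂ] H}
    (hT : T ∈ (cmt π).commutant) (hsa : IsSelfAdjoint T) (F : Finset H) {ε : ℝ} (hε : 0 < ε) :
    ∃ a : C, IsSelfAdjoint a ∧ ∀ η ∈ F, ‖π a η - T η‖ ≤ ε := by
  obtain ⟨s, ⟨c, hc⟩, hs', h⟩ := approx_sa π.range (T := T) (fun y hy =>
    commute_of_mem (mem_cmt.2 fun c => hy _ ⟨c, rfl⟩) hT) hsa F hε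
  have hc' : π c = s := hc
  refine ⟨((1 / 2 : ℝ) : ℂ) • (c + star c), ?_, fun η hη => ?_⟩
  · unfold IsSelfAdjoint
    rw [star_smul, (IsSelfAdjoint.add_star_self c).star_eq, Complex.star_def, Complex.conj_ofReal]
  · have : π (((1 / 2 : ℝ) : ℂ) • (c + star c)) = s := by
      rw [map_smul, map_add, map_star, hc', hs'.star_eq, ← two_smul ℂ s, smul_smul]
      norm_num
    rw [this]
    exact h η hη

theorem kap_inv {C : Type} [CStarAlgebra C] (a : C) :
    ∃ g : C, g * (1 + a * star a) = 1 ∧ ‖(2 : ℂ) • (g * a)‖ ≤ 1 := by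
  let := CStarAlgebra.spectralOrder C
  have := CStarAlgebra.spectralOrderedRing C
  have hh : 0 ≤ a * star a := mul_star_self_nonneg a
  have hu : IsUnit (1 + a * star a) :=
    CStarAlgebra.isUnit_of_le 1 (le_add_of_nonneg_right hh) isStrictlyPositive_one
  obtain ⟨g, hg1, hg2⟩ : ∃ g : C, g * (1 + a * star a) = 1 ∧ (1 + a * star a) * g = 1 :=
    ⟨↑hu.unit⁻¹, hu.val_inv_mul, hu.mul_val_inv⟩
  have hs : star (1 + a * star a) = 1 + a * star a := by simp
  have hgs : star g = g := by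
    have h3 : star g * (1 + a * star a) = 1 := by
      have := congrArg star hg2
      rwa [star_mul, hs, star_one] at this
    calc star g = star g * ((1 + a * star a) * g) := by rw [hg2, mul_one]
      _ = g := by rw [← mul_assoc, h3, one_mul]
  refine ⟨g, hg1, ?_⟩
  have e : 1 - ((2 : ℂ) • (g * a)) * star ((2 : ℂ) • (g * a)) =
      (g * (1 - a * star a)) * star (g * (1 - a * star a)) := by
    have h1 : (1 : C) = g * ((1 + a * star a) * (1 + a * star a)) * g := by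
      rw [← mul_assoc, hg1, one_mul, hg2]
    have h2 : star (1 - a * star a) = 1 - a * star a := by simp
    rw [star_mul g, h2, hgs, two_smul, star_add, star_mul, hgs]
    nth_rewrite 1 [h1]
    noncomm_ring
  have h4 : ((2 : ℂ) • (g * a)) * star ((2 : ℂ) • (g * a)) ≤ 1 := by
    rw [← sub_nonneg, e]
    exact mul_star_self_nonneg _
  rw [← CStarAlgebra.norm_le_one_iff_of_nonneg _ (mul_star_self_nonneg _),
    CStarRing.norm_self_mul_star] at h4
  nlinarith [norm_nonneg ((2 : ℂ) • (g * a))]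

theorem kaplansky {C : Type} [CStarAlgebra C] (π : C →⋆ₐ[ℂ] (H →L[ℂ] H)) {y : H →L[ℂ] H}
    (hy : y ∈ (cmt π).commutant) (hn : ‖y‖ ≤ 1) (ξ : H) {ε : ℝ} (hε : 0 < ε) :
    ∃ a : C, ‖a‖ ≤ 1 ∧ ‖π a ξ - y ξ‖ ≤ ε := by
  classical
  obtain ⟨k, hk0, hkk, -, hkc⟩ := exists_sqrt (sub_nonneg.2 (star_mul_self_le_one hn))
  obtain ⟨g₁, hg0, -, hg1, hg2, hgc⟩ := exists_inv_one_add hk0
  have hks : star k = k := (IsSelfAdjoint.of_nonneg hk0).star_eq
  have hgs : star g₁ = g₁ := (IsSelfAdjoint.of_nonneg hg0).star_eq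
  have hgM : g₁ ∈ (cmt π).commutant := by
    refine mem_of_commute fun z hz => hgc z (hkc z ?_)
    rw [mul_sub, sub_mul, mul_one, one_mul, ← commute_of_mem (mul_mem (star_mem hy) hy) hz]
  obtain ⟨x, hx⟩ : ∃ x, x = y * g₁ := ⟨_, rfl⟩
  have hxM : x ∈ (cmt π).commutant := hx ▸ mul_mem hy hgM
  obtain ⟨η₁, hη₁⟩ : ∃ η₁ : H, η₁ = (1 / 2 : ℂ) • (1 + k) ξ := ⟨_, rfl⟩
  have hxη : (2 : ℂ) • x η₁ = y ξ := by
    rw [hη₁, map_smul, smul_smul, ← mul_apply_eq_comp, hx, mul_assoc, hg1, mul_one]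
    norm_num
  have hyy : star y * y = (1 + k) * (1 - k) := by
    have : star y * y = 1 - k * k := by rw [hkk]; abel
    rw [this]; noncomm_ring
  have hop : (1 + star x * x) * (1 + k) = 1 + 1 := by
    rw [hx, star_mul, hgs]
    calc (1 + g₁ * star y * (y * g₁)) * (1 + k)
        = (1 + k) + g₁ * (star y * y) * (g₁ * (1 + k)) := by noncomm_ring
      _ = (1 + k) + (g₁ * (1 + k)) * (1 - k) := by rw [hg1, mul_one, hyy, ← mul_assoc, hg1]
      _ = 1 + 1 := by rw [hg1]; noncomm_ring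
  have hξ : η₁ + (star x) (x η₁) = ξ := by
    have : η₁ + (star x) (x η₁) = (1 / 2 : ℂ) • ((1 + star x * x) * (1 + k)) ξ := by
      rw [mul_apply_eq_comp, ← map_smul, ← hη₁]
      rfl
    rw [this, hop, add_apply, one_apply_eq_self, ← two_smul ℂ ξ,
      smul_smul]
    norm_num
  obtain ⟨a₁, ha₁, a₂, ha₂, hs₁, hs₂, -, -, hxa, -, -⟩ := exists_re_im hxM
  have hε6 : 0 < ε / 6 := by positivity
  obtain ⟨c₁, hc₁, h₁⟩ := kap_approx_rep π ha₁ hs₁ {η₁, x η₁} hε6
  obtain ⟨c₂, hc₂, h₂⟩ := kap_approx_rep π ha₂ hs₂ {η₁, x η₁} hε6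
  obtain ⟨a, ha⟩ : ∃ a : C, a = c₁ + Complex.I • c₂ := ⟨_, rfl⟩
  obtain ⟨g, hg, hgn⟩ := kap_inv a
  refine ⟨_, hgn, ?_⟩
  have hA : ‖π a η₁ - x η₁‖ ≤ ε / 3 := by
    have e : π a η₁ - x η₁ = (π c₁ η₁ - a₁ η₁) + Complex.I • (π c₂ η₁ - a₂ η₁) := by
      rw [ha, map_add, map_smul]
      nth_rewrite 1 [hxa]
      simp only [add_apply, smul_apply, smul_sub]
      abel
    rw [e]
    refine (norm_add_le _ _).trans ?_
    rw [norm_smul, Complex.norm_I, one_mul]
    have := h₁ η₁ (by simp)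
    have := h₂ η₁ (by simp)
    linarith
  have hB : ‖(star x) (x η₁) - (star (π a)) (x η₁)‖ ≤ ε / 3 := by
    have e1 : star x = a₁ - Complex.I • a₂ := by
      rw [hxa, star_add, star_smul, hs₁.star_eq, hs₂.star_eq, Complex.star_def, Complex.conj_I,
        neg_smul, sub_eq_add_neg]
    have e2 : star (π a) = π c₁ - Complex.I • π c₂ := by
      rw [← map_star, ha, star_add, star_smul, hc₁.star_eq, hc₂.star_eq, Complex.star_def,
        Complex.conj_I, neg_smul, map_add, map_neg, map_smul, sub_eq_add_neg]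
    have e : (star x) (x η₁) - (star (π a)) (x η₁) =
        Complex.I • (π c₂ (x η₁) - a₂ (x η₁)) - (π c₁ (x η₁) - a₁ (x η₁)) := by
      rw [e1, e2]
      simp only [sub_apply, smul_apply, smul_sub]
      abel
    rw [e]
    refine (norm_sub_le _ _).trans ?_
    rw [norm_smul, Complex.norm_I, one_mul]
    have := h₁ (x η₁) (by simp)
    have := h₂ (x η₁) (by simp)
    linarith
  have hG : π g * (1 + π a * star (π a)) = 1 := by
    have := congrArg π hg
    rwa [map_mul, map_add, map_one, map_mul, map_star] at this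
  have hGn : ‖π g‖ ≤ 1 := by
    obtain ⟨g', h0, h1, -, h3, -⟩ := exists_inv_one_add (mul_star_self_nonneg (π a))
    have : π g = g' := by
      calc π g = π g * ((1 + π a * star (π a)) * g') := by rw [h3, mul_one]
        _ = g' := by rw [← mul_assoc, hG, one_mul]
    rw [this]
    exact norm_le_one_of_le_one h0 h1
  have hBn : ‖π ((2 : ℂ) • (g * a))‖ ≤ 1 := (NonUnitalStarAlgHom.norm_apply_le π _).trans hgn
  have hv : π g (x η₁) + π g (π a ((star (π a)) (x η₁))) = x η₁ := by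
    have := congrArg (fun z => z (x η₁)) hG
    simpa using this
  have e : π ((2 : ℂ) • (g * a)) ξ - y ξ = (2 : ℂ) • π g (π a η₁ - x η₁) +
      π ((2 : ℂ) • (g * a)) ((star x) (x η₁) - (star (π a)) (x η₁)) := by
    rw [← hxη]
    nth_rewrite 1 [← hξ]
    nth_rewrite 2 [← hv]
    simp only [map_smul, map_mul, smul_apply, mul_apply_eq_comp,
      map_add, map_sub, smul_add, smul_sub]
    abel
  rw [e]
  refine (norm_add_le _ _).trans ?_
  have n1 : ‖(2 : ℂ) • π g (π a η₁ - x η₁)‖ ≤ 2 * (ε / 3) := by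
    rw [norm_smul, Complex.norm_two]
    have := (π g).le_of_opNorm_le_of_le hGn hA
    linarith
  have n2 := (π ((2 : ℂ) • (g * a))).le_of_opNorm_le_of_le hBn hB
  linarith

theorem orth_elements {C : Type} [CStarAlgebra C] [PartialOrder C] [StarOrderedRing C]
    (π : C →⋆ₐ[ℂ] (H →L[ℂ] H)) {n : ℕ} (η : Fin n → H) (r : Fin n → (H →L[ℂ] H))
    (hr : ∀ i, r i ∈ (cmt π).commutant ∧ IsStarProjection (r i))
    (hη : ∀ i j, r i (η j) = if i = j then η j else 0) {ε : ℝ} (hε : 0 < ε) :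
    ∃ b : Fin n → C, (∀ i, 0 ≤ b i) ∧ ∑ i, b i ≤ 1 ∧ ∑ i, (vf π (η i) (1 - b i)).re ≤ ε := by
  classical
  set y : H →L[ℂ] H := ∑ i : Fin n, (((i : ℕ) : ℝ) : ℂ) • r i with hy
  have hyM : y ∈ (cmt π).commutant := sum_mem fun i _ => vn_smul_mem _ (hr i).1
  have hys : IsSelfAdjoint y := by
    unfold IsSelfAdjoint
    rw [hy, star_sum]
    refine Finset.sum_congr rfl fun i _ => ?_
    rw [star_smul, (hr i).2.isSelfAdjoint.star_eq, Complex.star_def, Complex.conj_ofReal]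
  have hyη : ∀ j, y (η j) = (((j : ℕ) : ℝ) : ℂ) • η j := by
    intro j
    rw [hy, sum_apply, Finset.sum_eq_single j]
    · rw [smul_apply, hη, if_pos rfl]
    · intro i _ hi
      rw [smul_apply, hη, if_neg hi, smul_zero]
    · simp
  have hδ0 : 0 < ε / (4 * (n + 1)) := by positivity
  obtain ⟨a, ha, h⟩ := kap_approx_rep π hyM hys (Finset.univ.image η) (Real.sqrt_pos.2 hδ0)
  let f : Fin n → ℝ → ℝ := fun i t => max 0 (1 - 4 * (t - (i : ℕ)) ^ 2)
  have hf : ∀ i, Continuous (f i) := fun i => by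
    simp only [f]
    fun_prop
  refine ⟨fun i => cfc (f i) a, fun i => cfc_nonneg fun t _ => le_max_left _ _, ?_, ?_⟩
  · rw [← cfc_sum_univ f a fun i => (hf i).continuousOn]
    refine cfc_le_one _ _ fun t _ => ?_
    rw [Finset.sum_apply]
    by_cases h0 : ∀ i, f i t = 0
    · simp [h0]
    · push Not at h0
      obtain ⟨i, hi⟩ := h0
      have hlt : ∀ j, f j t ≠ 0 → |t - (j : ℕ)| < 1 / 2 := by
        intro j hj
        have : 0 < 1 - 4 * (t - (j : ℕ)) ^ 2 := by
          by_contra hc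
          exact hj (max_eq_left (not_lt.1 hc))
        exact abs_lt_of_sq_lt_sq (by linarith) (by norm_num)
      rw [Finset.sum_eq_single i]
      · exact max_le zero_le_one (by nlinarith [sq_nonneg (t - (i : ℕ))])
      · intro j _ hj
        by_contra hj0
        have h1 := abs_lt.1 (hlt i hi)
        have h2 := abs_lt.1 (hlt j hj0)
        have h3 : ((i : ℕ) : ℝ) < (j : ℕ) + 1 := by linarith [h1.1, h2.2]
        have h4 : ((j : ℕ) : ℝ) < (i : ℕ) + 1 := by linarith [h1.2, h2.1]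
        have h5 : (i : ℕ) < (j : ℕ) + 1 := by exact_mod_cast h3
        have h6 : (j : ℕ) < (i : ℕ) + 1 := by exact_mod_cast h4
        exact hj (Fin.ext (by omega))
      · simp
  · have key : ∀ i, (vf π (η i) (1 - cfc (f i) a)).re ≤ 4 * (ε / (4 * (n + 1))) := by
      intro i
      set d : C := a - algebraMap ℝ C ((i : ℕ) : ℝ) with hd
      have hds : star d = d := by
        rw [hd, star_sub, ha.star_eq, (IsSelfAdjoint.algebraMap C (.all _)).star_eq]
      have h1 : 1 - cfc (f i) a ≤ (4 : ℝ) • (star d * d) := by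
        have e1 : 1 - cfc (f i) a = cfc (fun t => 1 - f i t) a := by
          rw [cfc_sub _ _ a continuousOn_const (hf i).continuousOn, cfc_const_one ℝ a]
        have e2 : (4 : ℝ) • (star d * d) = cfc (fun t : ℝ => 4 * (t - (i : ℕ)) ^ 2) a := by
          rw [cfc_const_mul _ _ a, cfc_pow _ _ a, cfc_sub _ _ a, cfc_id' ℝ a, cfc_const _ a, hds, sq]
        rw [e1, e2]
        refine cfc_mono (fun t _ => ?_) (continuous_const.sub (hf i)).continuousOn (by fun_prop)
        have := le_max_right 0 (1 - 4 * (t - (i : ℕ)) ^ 2)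
        simp only [f]
        linarith
      have h2 : π (1 - cfc (f i) a) ≤ π ((4 : ℝ) • (star d * d)) := OrderHomClass.mono π h1
      have h3 := re_inner_mono h2 (η i)
      have h4 : π ((4 : ℝ) • (star d * d)) = ((4 : ℝ) : ℂ) • (star (π d) * π d) := by
        rw [← Complex.coe_smul, map_smul, map_mul, map_star]
      rw [h4, smul_apply, inner_smul_right, Complex.re_ofReal_mul,
        ← norm_sq_apply] at h3
      have h5 : π d (η i) = π a (η i) - y (η i) := by
        rw [hd, map_sub, hyη, sub_apply, Algebra.algebraMap_eq_smul_one,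
          ← Complex.coe_smul, map_smul, map_one]
        rfl
      have h6 := h (η i) (Finset.mem_image_of_mem η (Finset.mem_univ i))
      rw [← h5] at h6
      have h7 : ‖π d (η i)‖ ^ 2 ≤ ε / (4 * (n + 1)) := by
        rw [← Real.sq_sqrt hδ0.le]
        exact pow_le_pow_left₀ (norm_nonneg _) h6 2
      rw [vf_apply]
      linarith
    refine (Finset.sum_le_sum fun i _ => key i).trans ?_
    rw [Finset.sum_const, Finset.card_univ, Fintype.card_fin, nsmul_eq_mul]
    have : (n : ℝ) * (4 * (ε / (4 * (n + 1)))) = ε * (n / (n + 1)) := by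
      field_simp
    rw [this]
    refine mul_le_of_le_one_right hε.le ?_
    rw [div_le_one (by positivity)]
    linarith

end Pool.Agent.P.MP_5d580a_an
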