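import Pool.Agent.P.MP_5d580a_an.Calc

open scoped ComplexOrder InnerProductSpace ComplexConjugate BoundedContinuousFunction
open MeasureTheory Filter Topology

set_option linter.unusedSectionVars false
set_option linter.unusedVariables false

noncomputable section

namespace Pool.Agent.P.MP_5d580a_an

variable {H : Type} [NormedAddCommGroup H] [InnerProductSpace ℂ H] [CompleteSpace H]

theorem kernel_norm_exp (t u : ℝ) : ‖Complex.exp (Complex.I * t * u)‖ = 1 := by
  have : Complex.I * t * u = ((t * u : ℝ) : ℂ) * Complex.I := by push_cast; ring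
  rw [this, Complex.norm_exp_ofReal_mul_I]

theorem kernel_norm_exp' (t u : ℝ) : ‖Complex.exp (-(Complex.I * t * u))‖ = 1 := by
  have := kernel_norm_exp t (-u)
  rwa [Complex.ofReal_neg, mul_neg] at this

theorem kernel_int {g : ℝ → ℂ} (hg : Integrable g) (u : ℝ) :
    Integrable fun t : ℝ => g t * Complex.exp (Complex.I * t * u) :=
  hg.mul_bdd (c := 1) (by fun_prop) (Eventually.of_forall fun t => (kernel_norm_exp t u).le)

theorem kernel_cont {g : ℝ → ℂ} (hg : Integrable g) : Continuous (chk g) := by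
  refine continuous_of_dominated (bound := fun t => ‖g t‖)
    (fun u => (kernel_int hg u).aestronglyMeasurable)
    (fun u => Eventually.of_forall fun t => ?_) hg.norm (Eventually.of_forall fun t => by fun_prop)
  rw [norm_mul, kernel_norm_exp, mul_one]

open FourierTransform in
theorem kernel_four (g : ℝ → ℂ) (w : ℝ) : 𝓕 g w = chk g (-(2 * Real.pi) * w) := by
  rw [Real.fourier_real_eq_integral_exp_smul, chk]
  refine integral_congr_ae (Eventually.of_forall fun t => ?_)
  simp only [smul_eq_mul]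
  rw [mul_comm]
  congr 2
  push_cast; ring

open FourierTransform in
theorem kernel_inv {f : ℝ → ℂ} (hc : Continuous f) (hi : Integrable f) (hi' : Integrable (chk f))
    (u : ℝ) : chk (chk f) u = 2 * Real.pi * f (-u) := by
  have hp : -(2 * Real.pi) ≠ 0 := neg_ne_zero.2 (by positivity)
  have e : 𝓕 f = fun w => chk f (-(2 * Real.pi) * w) := funext (kernel_four f)
  have h1 : Integrable (𝓕 f) := by rw [e]; exact hi'.comp_mul_left' hp
  have h2 := hi.fourierInv_fourier_eq h1 (v := -u) hc.continuousAt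
  rw [Real.fourierInv_eq_fourier_neg, neg_neg, Real.fourier_real_eq_integral_exp_smul, e] at h2
  have h3 := Measure.integral_comp_mul_left
    (fun t : ℝ => chk f t * Complex.exp (Complex.I * t * u)) (-(2 * Real.pi))
  have h4 : ∫ w : ℝ, chk f (-(2 * Real.pi) * w) *
      Complex.exp (Complex.I * ((-(2 * Real.pi) * w : ℝ) : ℂ) * u) = f (-u) := by
    rw [← h2]
    refine integral_congr_ae (Eventually.of_forall fun t => ?_)
    simp only [smul_eq_mul]
    rw [mul_comm]
    congr 2
    push_cast; ring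
  rw [h4, abs_inv, abs_neg, abs_of_pos (by positivity)] at h3
  rw [h3, chk, Complex.real_smul]
  have : (Real.pi : ℂ) ≠ 0 := Complex.ofReal_ne_zero.2 Real.pi_ne_zero
  push_cast
  rw [mul_inv_cancel_left₀ (mul_ne_zero two_ne_zero this)]

theorem kernel_tri_cont : Continuous tri := by unfold tri; fun_prop

theorem kernel_tri_zero {u : ℝ} (h : 1 ≤ |u|) : tri u = 0 := max_eq_left (by linarith)

theorem kernel_tri_int : Integrable fun u => (tri u : ℂ) := by
  refine (Complex.continuous_ofReal.comp kernel_tri_cont).integrable_of_hasCompactSupport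
    (HasCompactSupport.intro (isCompact_Icc (a := -1) (b := 1)) fun u hu => ?_)
  rw [Set.mem_Icc, ← abs_le, not_le] at hu
  simp [kernel_tri_zero hu.le]

theorem kernel_chk_tri (t : ℝ) : chk (fun u => (tri u : ℂ)) t = (Real.sinc (t / 2) ^ 2 : ℝ) := by
  revert t
  rw [← funext_iff]
  refine Continuous.ext_on (dense_compl_singleton 0) (kernel_cont kernel_tri_int)
    (Complex.continuous_ofReal.comp ((Real.continuous_sinc.comp (by fun_prop)).pow 2)) ?_
  intro t ht
  have ht0 : (t : ℂ) ≠ 0 := Complex.ofReal_ne_zero.2 ht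
  have hc : Continuous fun u : ℝ => (tri u : ℂ) * Complex.exp (Complex.I * u * t) :=
    (Complex.continuous_ofReal.comp kernel_tri_cont).mul (by fun_prop)
  have hd : ∀ u : ℝ, HasDerivAt (fun u : ℝ => Complex.exp (Complex.I * u * t))
      (Complex.exp (Complex.I * u * t) * (Complex.I * t)) u := fun u => by
    have := (((Complex.ofRealCLM.hasDerivAt (x := u)).const_mul Complex.I).mul_const (t : ℂ)).cexp
    simpa using this
  have hu : ∀ u : ℝ, HasDerivAt (fun u : ℝ => (u : ℂ)) 1 u := fun u =>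
    Complex.ofRealCLM.hasDerivAt (x := u)
  have i1 : ∫ u in (0 : ℝ)..1, (tri u : ℂ) * Complex.exp (Complex.I * u * t)
      = -Complex.exp (Complex.I * t) / t ^ 2 + Complex.I / t + 1 / t ^ 2 := by
    rw [intervalIntegral.integral_eq_sub_of_hasDerivAt (f := fun u : ℝ =>
      (1 - u) * Complex.exp (Complex.I * u * t) * (-Complex.I / t)
        - Complex.exp (Complex.I * u * t) / t ^ 2) (fun u hu' => ?_) (hc.intervalIntegrable _ _)]
    · simp; ring
    · rw [Set.uIcc_of_le zero_le_one] at hu'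
      have e : tri u = 1 - u := by
        rw [tri, abs_of_nonneg hu'.1]; exact max_eq_right (by linarith [hu'.2])
      refine (((((hu u).const_sub 1).mul (hd u)).mul_const (-Complex.I / t)).sub
        ((hd u).div_const ((t : ℂ) ^ 2))).congr_deriv ?_
      rw [e]
      push_cast
      field_simp
      linear_combination (-(1 - (u : ℂ)) * t) * Complex.I_mul_I
  have i2 : ∫ u in (-1 : ℝ)..0, (tri u : ℂ) * Complex.exp (Complex.I * u * t)
      = -Complex.exp (-(Complex.I * t)) / t ^ 2 - Complex.I / t + 1 / t ^ 2 := by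
    rw [intervalIntegral.integral_eq_sub_of_hasDerivAt (f := fun u : ℝ =>
      (1 + u) * Complex.exp (Complex.I * u * t) * (-Complex.I / t)
        + Complex.exp (Complex.I * u * t) / t ^ 2) (fun u hu' => ?_) (hc.intervalIntegrable _ _)]
    · simp; ring
    · rw [Set.uIcc_of_le (by norm_num)] at hu'
      have e : tri u = 1 + u := by
        rw [tri, abs_of_nonpos hu'.2, sub_neg_eq_add]; exact max_eq_right (by linarith [hu'.1])
      refine (((((hu u).const_add 1).mul (hd u)).mul_const (-Complex.I / t)).add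
        ((hd u).div_const ((t : ℂ) ^ 2))).congr_deriv ?_
      rw [e]
      push_cast
      field_simp
      linear_combination (-(1 + (u : ℂ)) * t) * Complex.I_mul_I
  have hs : Function.support (fun u : ℝ => (tri u : ℂ) * Complex.exp (Complex.I * u * t))
      ⊆ Set.Ioc (-1) 1 := fun u hu' => by
    by_contra hn
    have : 1 ≤ |u| := by
      rw [Set.mem_Ioc, not_and_or, not_lt, not_le] at hn
      rw [le_abs]
      rcases hn with h | h
      · right; linarith
      · left; linarith
    exact hu' (by simp [kernel_tri_zero this])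
  simp only [chk]
  rw [← intervalIntegral.integral_eq_integral_of_support_subset hs,
    ← intervalIntegral.integral_add_adjacent_intervals (b := 0) (hc.intervalIntegrable _ _)
      (hc.intervalIntegrable _ _), i1, i2, Real.sinc_of_ne_zero (div_ne_zero ht two_ne_zero),
    div_pow, Real.sin_sq_eq_half_sub, mul_div_cancel₀ _ two_ne_zero]
  push_cast
  rw [Complex.cos, neg_mul, mul_comm (t : ℂ) Complex.I]
  field_simp
  ring

theorem fej_cont : Continuous fej := continuous_const.mul ((Real.continuous_sinc.comp (by fun_prop)).pow 2)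

theorem fej_nonneg (t : ℝ) : 0 ≤ fej t := by unfold fej; positivity

theorem fej_neg (t : ℝ) : fej (-t) = fej t := by rw [fej, fej, neg_div, Real.sinc_neg]

theorem fej_le (t : ℝ) : fej t ≤ 1 := by
  have h1 : Real.sinc (t / 2) ^ 2 ≤ 1 := (sq_le_one_iff_abs_le_one _).2 (Real.abs_sinc_le_one _)
  have h2 : 1 / (2 * Real.pi) ≤ 1 := by
    rw [div_le_one (by positivity)]; linarith [Real.pi_gt_three]
  exact mul_le_one₀ h2 (sq_nonneg _) h1

theorem fej_zero_pos : 0 < fej 0 := by simp only [fej, zero_div, Real.sinc_zero]; positivity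

theorem fej_integrable : Integrable fej := by
  refine (integrable_inv_one_add_sq.const_mul 5).mono' fej_cont.aestronglyMeasurable
    (Eventually.of_forall fun t => ?_)
  rw [Real.norm_of_nonneg (fej_nonneg t)]
  have h1 : Real.sinc (t / 2) ^ 2 ≤ 1 := (sq_le_one_iff_abs_le_one _).2 (Real.abs_sinc_le_one _)
  have h2 : 1 / (2 * Real.pi) ≤ 1 := by
    rw [div_le_one (by positivity)]; linarith [Real.pi_gt_three]
  have h3 : Real.sinc (t / 2) ^ 2 * t ^ 2 ≤ 4 := by
    by_cases ht : t = 0
    · simp [ht]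
    · rw [Real.sinc_of_ne_zero (div_ne_zero ht two_ne_zero)]
      have : (Real.sin (t / 2) / (t / 2)) ^ 2 * t ^ 2 = 4 * Real.sin (t / 2) ^ 2 := by field_simp; ring
      rw [this]
      linarith [Real.sin_sq_le_one (t / 2)]
  refine (mul_le_of_le_one_left (sq_nonneg _) h2).trans ?_
  rw [← div_eq_mul_inv, le_div_iff₀ (by positivity)]
  linarith

theorem chk_fej (u : ℝ) : chk (fun t => (fej t : ℂ)) u = (tri u : ℂ) := by
  have hp : (2 * Real.pi : ℂ) ≠ 0 := by simp [Real.pi_ne_zero]
  have e : chk (fun u => (tri u : ℂ)) = fun t => 2 * Real.pi * (fej t : ℂ) := by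
    funext t
    rw [kernel_chk_tri, fej]
    push_cast
    field_simp
  have h := kernel_inv (Complex.continuous_ofReal.comp kernel_tri_cont) kernel_tri_int
    (by rw [show chk (Complex.ofReal ∘ tri) = _ from e]; exact fej_integrable.ofReal.const_mul _) u
  rw [show chk (Complex.ofReal ∘ tri) = _ from e] at h
  simp only [chk, mul_assoc (2 * Real.pi : ℂ), Function.comp_apply] at h
  rw [integral_const_mul] at h
  rw [chk, mul_left_cancel₀ hp h, tri, tri, abs_neg]

theorem fej_integral : ∫ t, fej t = 1 := by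
  have h := chk_fej 0
  simp only [chk, Complex.ofReal_zero, mul_zero, Complex.exp_zero, mul_one, tri, abs_zero,
    sub_zero, zero_le_one, max_eq_right, integral_complex_ofReal] at h
  exact_mod_cast h

theorem fej_sq_integrable : Integrable fun t => fej t ^ 2 := by
  refine fej_integrable.mono' (fej_cont.pow 2).aestronglyMeasurable
    (Eventually.of_forall fun t => ?_)
  rw [Real.norm_of_nonneg (sq_nonneg _), sq]
  exact mul_le_of_le_one_left (fej_nonneg t) (fej_le t)

theorem fej_sq_pos : 0 < ∫ t, fej t ^ 2 :=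
  integral_pos_of_integrable_nonneg_nonzero (x := 0) (fej_cont.pow 2) fej_sq_integrable
    (fun t => sq_nonneg _) (pow_pos fej_zero_pos 2).ne'

theorem fej_sq_scale {δ : ℝ} (hδ : 0 < δ) :
    Integrable (fun t => δ * fej (δ * t) ^ 2) ∧ ∫ t, δ * fej (δ * t) ^ 2 = ∫ t, fej t ^ 2 := by
  refine ⟨(fej_sq_integrable.comp_mul_left' hδ.ne').const_mul δ, ?_⟩
  rw [integral_const_mul, Measure.integral_comp_mul_left (fun t => fej t ^ 2), abs_inv,
    abs_of_pos hδ, smul_eq_mul, mul_inv_cancel_left₀ hδ.ne']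

theorem tri_cont : Continuous tri := kernel_tri_cont

theorem tri_nonneg (u : ℝ) : 0 ≤ tri u := le_max_left _ _

theorem tri_le_one (u : ℝ) : tri u ≤ 1 := max_le zero_le_one (by linarith [abs_nonneg u])

theorem tri_pos_iff (u : ℝ) : 0 < tri u ↔ |u| < 1 := by rw [tri, lt_max_iff, sub_pos]; simp

theorem trif_cont (δ ν : ℝ) : Continuous (trif δ ν) :=
  Complex.continuous_ofReal.comp (tri_cont.comp (by fun_prop))

theorem norm_trif_le (δ ν l : ℝ) : ‖trif δ ν l‖ ≤ 1 := by
  rw [trif, Complex.norm_real, Real.norm_of_nonneg (tri_nonneg _)]; exact tri_le_one _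

theorem bm_trif (δ ν : ℝ) : BM (trif δ ν) := ⟨(trif_cont δ ν).measurable, 1, norm_trif_le δ ν⟩

theorem trif_ne_zero_iff {δ : ℝ} (hδ : 0 < δ) (ν l : ℝ) :
    trif δ ν l ≠ 0 ↔ ν - δ < l ∧ l < ν + δ := by
  rw [trif, Complex.ofReal_ne_zero, ← (tri_nonneg _).lt_iff_ne', tri_pos_iff, abs_div,
    abs_of_pos hδ, div_lt_one hδ, abs_lt]
  constructor <;> rintro ⟨h1, h2⟩ <;> constructor <;> linarith

theorem fker_cont (δ ν : ℝ) : Continuous (fker δ ν) :=
  (Complex.continuous_ofReal.comp (continuous_const.mul (fej_cont.comp (by fun_prop)))).mul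
    (by fun_prop)

theorem norm_fker {δ : ℝ} (hδ : 0 < δ) (ν t : ℝ) : ‖fker δ ν t‖ = δ * fej (δ * t) := by
  rw [fker, norm_mul, kernel_norm_exp', mul_one, Complex.norm_real,
    Real.norm_of_nonneg (mul_nonneg hδ.le (fej_nonneg _))]

theorem fker_integrable {δ : ℝ} (hδ : 0 < δ) (ν : ℝ) : Integrable (fker δ ν) :=
  ((fej_integrable.comp_mul_left' hδ.ne').const_mul δ).mono' (fker_cont δ ν).aestronglyMeasurable
    (Eventually.of_forall fun t => (norm_fker hδ ν t).le)

theorem fej_scale_integrable {δ : ℝ} (hδ : 0 < δ) : Integrable fun t => δ * fej (δ * t) :=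
  (fej_integrable.comp_mul_left' hδ.ne').const_mul δ

theorem fej_scale_integral {δ : ℝ} (hδ : 0 < δ) : ∫ t, δ * fej (δ * t) = 1 := by
  rw [integral_const_mul, Measure.integral_comp_mul_left fej, abs_inv, abs_of_pos hδ, smul_eq_mul,
    mul_inv_cancel_left₀ hδ.ne', fej_integral]

theorem integral_norm_fker {δ : ℝ} (hδ : 0 < δ) (ν : ℝ) : ∫ t, ‖fker δ ν t‖ = 1 := by
  simp only [norm_fker hδ, fej_scale_integral hδ]

theorem conj_fker (δ ν t : ℝ) : conj (fker δ ν t) = fker δ (-ν) t := by
  rw [fker, fker, map_mul, Complex.conj_ofReal, ← Complex.exp_conj]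
  congr 2
  simp

theorem chk_fker {δ : ℝ} (hδ : 0 < δ) (ν : ℝ) : chk (fker δ ν) = trif δ ν := by
  funext l
  have hd : (δ : ℂ) ≠ 0 := Complex.ofReal_ne_zero.2 hδ.ne'
  have h := Measure.integral_comp_mul_left
    (fun s : ℝ => (fej s : ℂ) * Complex.exp (Complex.I * s * ((l - ν) / δ : ℝ))) δ
  have h2 := chk_fej ((l - ν) / δ)
  rw [chk] at h2
  rw [h2, abs_inv, abs_of_pos hδ, Complex.real_smul, Complex.ofReal_inv] at h
  rw [trif, ← mul_inv_cancel_left₀ hd (tri _ : ℂ), ← h, ← integral_const_mul, chk]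
  refine integral_congr_ae (Eventually.of_forall fun t => ?_)
  simp only [fker]
  rw [mul_assoc, ← Complex.exp_add, Complex.ofReal_mul, mul_assoc]
  congr 3
  push_cast
  field_simp
  ring

theorem chk_cont {g : ℝ → ℂ} (hg : Integrable g) : Continuous (chk g) := kernel_cont hg

theorem norm_chk_le (g : ℝ → ℂ) (u : ℝ) : ‖chk g u‖ ≤ ∫ t, ‖g t‖ := by
  refine (norm_integral_le_integral_norm _).trans (le_of_eq ?_)
  simp only [norm_mul, kernel_norm_exp, mul_one]

theorem bm_chk {g : ℝ → ℂ} (hg : Integrable g) : BM (chk g) := ⟨(chk_cont hg).measurable, _, norm_chk_le g⟩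

theorem chk_tendsto (g : ℝ → ℂ) : Tendsto (chk g) (cocompact ℝ) (𝓝 0) := by
  have hp : -(2 * Real.pi) ≠ 0 := neg_ne_zero.2 (by positivity)
  have h := (Real.tendsto_integral_exp_smul_cocompact g).comp
    (Homeomorph.mulLeft₀ _ (inv_ne_zero hp)).isClosedEmbedding.tendsto_cocompact
  refine h.congr fun u => ?_
  have e := kernel_four g ((-(2 * Real.pi))⁻¹ * u)
  rw [mul_inv_cancel_left₀ hp, Real.fourier_real_eq] at e
  exact e

theorem eq_zero_of_chk {F : ℝ → ℂ} (hc : Continuous F) (hi : Integrable F)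
    (h : ∀ u, chk F u = 0) (t : ℝ) : F t = 0 := by
  have e : chk F = fun _ => 0 := funext h
  have h1 := kernel_inv hc hi (by rw [e]; exact integrable_zero _ _ _) (-t)
  rw [e, neg_neg] at h1
  simpa [chk, Real.pi_ne_zero] using h1

theorem fourier_unique {F : ℝ → ℂ} (hc : Continuous F) (K : ℝ) (hK : ∀ t, ‖F t‖ ≤ K) {δ : ℝ}
    (hδ : 0 < δ) (h : ∀ ν, ∫ t, fker δ ν t * F t = 0) : F 0 = 0 := by
  have h1 := eq_zero_of_chk (F := fun t => fker δ 0 t * F t) ((fker_cont δ 0).mul hc)
    ((fker_integrable hδ 0).mul_bdd hc.aestronglyMeasurable (Eventually.of_forall hK))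
    (fun u => by
      rw [← h (-u), chk]
      refine integral_congr_ae (Eventually.of_forall fun t => ?_)
      simp only [fker, Complex.ofReal_zero, mul_zero, neg_zero, Complex.exp_zero, mul_one,
        Complex.ofReal_neg, mul_neg, neg_neg]
      ring) 0
  refine (mul_eq_zero.1 h1).resolve_left (norm_pos_iff.1 ?_)
  rw [norm_fker hδ, mul_zero]
  exact mul_pos hδ fej_zero_pos

theorem kernel_trap (c : ℝ) {r : ℝ} (hr : 0 ≤ r) :
    Integrable (fun t => (r : ℂ) * fker r c t) ∧
      ∀ u, chk (fun t => (r : ℂ) * fker r c t) u = ((max 0 (r - |u - c|) : ℝ) : ℂ) := by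
  rcases hr.eq_or_lt with rfl | hr
  · refine ⟨by simp, fun u => ?_⟩
    rw [max_eq_left (by simp)]
    simp [chk]
  · refine ⟨(fker_integrable hr c).const_mul _, fun u => ?_⟩
    have e := congrFun (chk_fker hr c) u
    simp only [chk, mul_assoc] at e ⊢
    rw [integral_const_mul, e, trif, tri, ← Complex.ofReal_mul, mul_max_of_nonneg _ _ hr.le,
      abs_div, abs_of_pos hr]
    congr 2
    · simp
    · field_simp

theorem exists_trap {a b γ : ℝ} (hab : a ≤ b) (hγ : 0 < γ) :
    ∃ g : ℝ → ℂ, Continuous g ∧ Integrable g ∧ (∀ u, a ≤ u → u ≤ b → chk g u = 1) ∧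
      ∀ u, u ≤ a - γ ∨ b + γ ≤ u → chk g u = 0 := by
  have hr : 0 ≤ (b - a) / 2 := by linarith
  obtain ⟨i1, c1⟩ := kernel_trap ((a + b) / 2) hr
  obtain ⟨i2, c2⟩ := kernel_trap ((a + b) / 2) (add_nonneg hr hγ.le)
  have hg : (γ : ℂ) ≠ 0 := Complex.ofReal_ne_zero.2 hγ.ne'
  have key : ∀ u, chk (fun t => (γ : ℂ)⁻¹ * ((((b - a) / 2 + γ : ℝ) : ℂ) *
      fker ((b - a) / 2 + γ) ((a + b) / 2) t - (((b - a) / 2 : ℝ) : ℂ) *
        fker ((b - a) / 2) ((a + b) / 2) t)) u = (γ : ℂ)⁻¹ *
      ((max 0 ((b - a) / 2 + γ - |u - (a + b) / 2|)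
        - max 0 ((b - a) / 2 - |u - (a + b) / 2|) : ℝ) : ℂ) := fun u => by
    rw [Complex.ofReal_sub, ← c1, ← c2, chk, chk, chk,
      ← integral_sub (kernel_int i2 u) (kernel_int i1 u), ← integral_const_mul]
    exact integral_congr_ae (Eventually.of_forall fun t => by ring)
  refine ⟨_, continuous_const.mul ((continuous_const.mul (fker_cont _ _)).sub
    (continuous_const.mul (fker_cont _ _))), (i2.sub i1).const_mul (γ : ℂ)⁻¹, fun u h1 h2 => ?_,
    fun u h => ?_⟩
  · have : |u - (a + b) / 2| ≤ (b - a) / 2 := abs_le.2 ⟨by linarith, by linarith⟩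
    refine (key u).trans ?_
    rw [max_eq_right (by linarith), max_eq_right (by linarith),
      show (b - a) / 2 + γ - |u - (a + b) / 2| - ((b - a) / 2 - |u - (a + b) / 2|) = γ by ring,
      inv_mul_cancel₀ hg]
  · have : (b - a) / 2 + γ ≤ |u - (a + b) / 2| :=
      le_abs.2 (h.symm.imp (fun h => by linarith) fun h => by linarith)
    refine (key u).trans ?_
    rw [max_eq_left (by linarith), max_eq_left (by linarith)]
    simp

theorem translate_L1 {g : ℝ → ℂ} (hi : Integrable g) {ε : ℝ} (hε : 0 < ε) :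
    ∃ ρ : ℝ, 0 < ρ ∧ ∀ r : ℝ, |r| ≤ ρ → ∫ t, ‖g (t - r) - g t‖ ≤ ε := by
  let f : ℝ → C(ℝ, ℝ) := fun r => ⟨fun t => t - r, by fun_prop⟩
  have hf : Continuous f := ContinuousMap.continuous_of_continuous_uncurry f (by
    change Continuous fun p : ℝ × ℝ => p.2 - p.1
    fun_prop)
  have hm : ∀ r, MeasurePreserving (f r) volume volume := fun r => measurePreserving_sub_right _ r
  have hc := (continuous_const (y := hi.toL1 g)).compMeasurePreservingLp hf hm ENNReal.one_ne_top
  have ha : ∀ r, (Lp.compMeasurePreserving (f r) (hm r) (hi.toL1 g) : ℝ → ℂ) =ᵐ[volume]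
      fun t => g (t - r) := fun r =>
    (Lp.coeFn_compMeasurePreserving _ (hm r)).trans
      ((hm r).quasiMeasurePreserving.ae_eq_comp hi.coeFn_toL1)
  obtain ⟨ρ, hρ, h⟩ := Metric.continuousAt_iff.1 (hc.continuousAt (x := 0)) ε hε
  refine ⟨ρ / 2, half_pos hρ, fun r hr => le_of_eq_of_le ?_
    (h (x := r) (by rw [Real.dist_eq, sub_zero]; linarith)).le⟩
  rw [L1.dist_eq_integral_dist]
  refine integral_congr_ae ?_
  filter_upwards [ha r, ha 0] with t h1 h2
  rw [h1, h2, sub_zero, dist_eq_norm]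

theorem integral_lattice {F : ℝ → ℂ} (hF : Continuous F) {Λ δ : ℝ} (hδ : 0 < δ) {N : ℕ}
    (hN : Λ ≤ N * δ) (h0 : ∀ ν, Λ ≤ |ν| → F ν = 0) :
    ∫ ν, F ν = ∫ ν₀ in (0 : ℝ)..δ, ∑ m ∈ Finset.Icc (-(N : ℤ)) N, F (δ * m + ν₀) := by
  have hs : Function.support F ⊆ Set.Ioc (δ * (-N)) (δ * (N + 1)) := fun ν hν => by
    have h1 : |ν| < N * δ := (not_le.1 fun h => hν (h0 ν h)).trans_le hN
    rw [abs_lt] at h1
    constructor <;> linarith [h1.1, h1.2]
  have h1 := intervalIntegral.sum_integral_adjacent_intervals (f := F) (μ := volume)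
    (a := fun k : ℕ => δ * (-N + k)) (n := 2 * N + 1) fun k _ => hF.intervalIntegrable _ _
  have e1 : δ * (-(N : ℝ) + ((0 : ℕ) : ℝ)) = δ * (-N) := by simp
  have e2 : δ * (-(N : ℝ) + ((2 * N + 1 : ℕ) : ℝ)) = δ * (N + 1) := by push_cast; ring
  rw [e1, e2, intervalIntegral.integral_eq_integral_of_support_subset hs] at h1
  rw [← h1, intervalIntegral.integral_finsetSum (f := fun (m : ℤ) ν₀ => F (δ * m + ν₀))
    fun m _ => (hF.comp (by fun_prop)).intervalIntegrable _ _, Int.Icc_eq_finset_map, Finset.sum_map,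
    show ((N : ℤ) + 1 - -(N : ℤ)).toNat = 2 * N + 1 by omega]
  refine Finset.sum_congr rfl fun k _ => ?_
  rw [intervalIntegral.integral_comp_add_left F]
  congr 1 <;> simp <;> ring

end Pool.Agent.P.MP_5d580a_an
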