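import Pool.Agent.P.MP_5d580a_an.Amp

open scoped ComplexOrder InnerProductSpace ComplexConjugate BoundedContinuousFunction
open MeasureTheory Filter Topology

set_option linter.unusedSectionVars false
set_option linter.unusedVariables false

noncomputable section

namespace Pool.Agent.P.MP_5d580a_an

variable {H : Type} [NormedAddCommGroup H] [InnerProductSpace ℂ H] [CompleteSpace H]

variable {M : VonNeumannAlgebra H} {J : H ≃ₗᵢ⋆[ℂ] H} {ζ : H}

theorem key_gram {I K : Type} [Fintype I] [Fintype K] (c : I → K → ℝ) (P Q : K → H) :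
    ∑ p, ⟪∑ k, (c p k : ℂ) • P k, ∑ k, (c p k : ℂ) • Q k⟫_ℂ =
      ∑ k, ∑ k', ((∑ p, c p k * c p k' : ℝ) : ℂ) * ⟪P k, Q k'⟫_ℂ := by
  have e : ∀ p, ⟪∑ k, (c p k : ℂ) • P k, ∑ k, (c p k : ℂ) • Q k⟫_ℂ =
      ∑ k, ∑ k', (c p k : ℂ) * (c p k' : ℂ) * ⟪P k, Q k'⟫_ℂ := fun p => by
    rw [sum_inner]
    refine Finset.sum_congr rfl fun k _ => ?_
    rw [inner_sum]
    refine Finset.sum_congr rfl fun k' _ => ?_
    rw [inner_smul_left, inner_smul_right, Complex.conj_ofReal, mul_assoc]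
  simp only [e, Complex.ofReal_sum, Complex.ofReal_mul, Finset.sum_mul]
  rw [Finset.sum_comm]
  refine Finset.sum_congr rfl fun k _ => ?_
  rw [Finset.sum_comm]

theorem key_inner_self (ξ : H) : ⟪ξ, ξ⟫_ℂ = ((‖ξ‖ ^ 2 : ℝ) : ℂ) := by
  rw [inner_self_eq_norm_sq_to_K]
  push_cast
  rfl

theorem key_exp (s : ℝ) : Real.exp (s / 2) * Real.exp (s / 2) = Real.exp s := by
  rw [← Real.exp_add]
  congr 1
  ring

section Res

variable {ι L : Type} [Fintype ι] [DecidableEq ι] [Fintype L] [DecidableEq L]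

/-- vectors of the reservoir -/
def keyRv (s : ι → ℝ) (ρ : L → ι → ι → ℝ) (P : L → H) : HM ι H :=
  WithLp.toLp 2 fun p => ∑ l, ((Real.exp (s p.2 / 2) * ρ l p.1 p.2 : ℝ) : ℂ) • P l

/-- operators of the reservoir -/
def keyOp (ρ : L → ι → ι → ℝ) (D : L → (H →L[ℂ] H)) : HM ι H →L[ℂ] HM ι H :=
  mat fun i j => ∑ l, ((ρ l i j : ℝ) : ℂ) • D l

/-- the vector of the reservoir state -/
def keyOm (s : ι → ℝ) (ζ : H) : HM ι H := dvec fun i => ((Real.exp (s i / 2) : ℝ) : ℂ) • ζ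

variable {s : ι → ℝ} {ρ : L → ι → ι → ℝ}

theorem key_prj (P : L → H) (i j : ι) :
    prj i j (keyRv s ρ P) = ∑ l, ((Real.exp (s j / 2) * ρ l i j : ℝ) : ℂ) • P l := by
  rw [prj_apply]
  rfl

theorem key_inner_rv
    (h : ∀ l l', ∑ i, ∑ j, Real.exp (s j) * (ρ l i j * ρ l' i j) = if l = l' then 1 else 0)
    (P Q : L → H) : ⟪keyRv s ρ P, keyRv s ρ Q⟫_ℂ = ∑ l, ⟪P l, Q l⟫_ℂ := by
  rw [hm_inner]
  simp only [key_prj]
  rw [← Fintype.sum_prod_type', key_gram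
    (fun (p : ι × ι) l => Real.exp (s p.2 / 2) * ρ l p.1 p.2) P Q]
  refine Finset.sum_congr rfl fun l _ => ?_
  have e : ∀ l', ∑ p : ι × ι, Real.exp (s p.2 / 2) * ρ l p.1 p.2 *
      (Real.exp (s p.2 / 2) * ρ l' p.1 p.2) = if l = l' then 1 else 0 := fun l' => by
    rw [← h, Fintype.sum_prod_type]
    refine Finset.sum_congr rfl fun i _ => Finset.sum_congr rfl fun j _ => ?_
    rw [← key_exp (s j)]
    ring
  simp only [e]
  rw [Finset.sum_eq_single l]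
  · simp
  · intro l' _ hl
    rw [if_neg (Ne.symm hl)]
    simp
  · simp

theorem key_norm_rv
    (h : ∀ l l', ∑ i, ∑ j, Real.exp (s j) * (ρ l i j * ρ l' i j) = if l = l' then 1 else 0)
    (P : L → H) : ‖keyRv s ρ P‖ ^ 2 = ∑ l, ‖P l‖ ^ 2 := by
  have h1 := key_inner_rv h P P
  simp only [key_inner_self] at h1
  exact_mod_cast h1

theorem key_norm_rv_le
    (h : ∀ l l', ∑ i, ∑ j, Real.exp (s j) * (ρ l i j * ρ l' i j) = if l = l' then 1 else 0)
    {P : L → H} {δ : ℝ} (hδ : 0 ≤ δ) (hP : ∑ l, ‖P l‖ ^ 2 ≤ δ ^ 2) : ‖keyRv s ρ P‖ ≤ δ := by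
  rw [← key_norm_rv h] at hP
  exact (pow_le_pow_iff_left₀ (norm_nonneg _) hδ two_ne_zero).1 hP

theorem key_rv_sub (P Q : L → H) :
    keyRv s ρ P - keyRv s ρ Q = keyRv s ρ fun l => P l - Q l := by
  refine hm_ext fun i j => ?_
  simp only [map_sub, key_prj, smul_sub, Finset.sum_sub_distrib]

theorem key_op_mem {D : L → (H →L[ℂ] H)} (hD : ∀ l, D l ∈ M) : keyOp ρ D ∈ amp ι M :=
  mem_amp.2 ⟨_, fun _ _ => sum_mem fun l _ => vn_smul_mem _ (hD l), rfl⟩

theorem key_op_om (D : L → (H →L[ℂ] H)) :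
    keyOp ρ D (keyOm s ζ) = keyRv s ρ fun l => D l ζ := by
  refine hm_ext fun i j => ?_
  rw [keyOp, keyOm, prj_mat_dvec, key_prj, sum_apply]
  refine Finset.sum_congr rfl fun l _ => ?_
  rw [smul_apply, map_smul, smul_smul, Complex.ofReal_mul, mul_comm]

theorem key_rm_op_om {ν : L → ℝ} (h : ∀ l i j, ρ l i j ≠ 0 → s j = s i + ν l)
    (D : L → (H →L[ℂ] H)) :
    rm (ampJ ι J) (keyOp ρ D) (keyOm s ζ) =
      keyRv s ρ fun l => ((Real.exp (-ν l / 2) : ℝ) : ℂ) • rm J (D l) ζ := by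
  refine hm_ext fun i j => ?_
  rw [keyOp, keyOm, prj_rm_mat_dvec, key_prj, rm_sum, sum_apply]
  refine Finset.sum_congr rfl fun l _ => ?_
  rw [rm_smul, smul_apply, map_smul, smul_smul, smul_smul,
    ← Complex.ofReal_mul, ← Complex.ofReal_mul]
  by_cases h0 : ρ l i j = 0
  · simp [h0]
  · have e : Real.exp (s i / 2) = Real.exp (s j / 2) * Real.exp (-ν l / 2) := by
      rw [← Real.exp_add, h l i j h0]
      congr 1
      ring
    rw [e]
    congr 2
    ring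

theorem key_prj_diag (z : H →L[ℂ] H) (ξ : HM ι H) (i j : ι) :
    prj i j (mat (fun i j : ι => if i = j then z else 0) ξ) = z (prj i j ξ) := by
  rw [prj_mat, Finset.sum_eq_single i]
  · simp
  · intro k _ hk
    rw [if_neg (Ne.symm hk)]
    simp
  · simp

theorem key_prj_rdiag (z : H →L[ℂ] H) (ξ : HM ι H) (i j : ι) :
    prj i j (rmat (fun i j : ι => if i = j then z else 0) ξ) = z (prj i j ξ) := by
  rw [prj_rmat, Finset.sum_eq_single j]
  · simp
  · intro k _ hk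
    rw [if_neg (Ne.symm hk)]
    simp
  · simp

theorem key_rm_diag (z : H →L[ℂ] H) :
    rm (ampJ ι J) (mat fun i j : ι => if i = j then z else 0) =
      rmat fun i j : ι => if i = j then rm J z else 0 := by
  rw [rm_mat]
  refine congrArg rmat (funext fun j => funext fun k => ?_)
  by_cases h : j = k
  · rw [if_pos h, if_pos h.symm]
  · rw [if_neg h, if_neg (Ne.symm h), rm_zero]

theorem key_diag_rv (z : H →L[ℂ] H) (P : L → H) :
    mat (fun i j : ι => if i = j then z else 0) (keyRv s ρ P) = keyRv s ρ fun l => z (P l) := by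
  refine hm_ext fun i j => ?_
  simp only [key_prj_diag, key_prj, map_sum, map_smul]

theorem key_rdiag_rv (z : H →L[ℂ] H) (P : L → H) :
    rmat (fun i j : ι => if i = j then z else 0) (keyRv s ρ P) = keyRv s ρ fun l => z (P l) := by
  refine hm_ext fun i j => ?_
  simp only [key_prj_rdiag, key_prj, map_sum, map_smul]

theorem key_diag_om (z : H →L[ℂ] H) (γ : H) :
    mat (fun i j : ι => if i = j then z else 0) (keyOm s γ) = keyOm s (z γ) := by
  refine hm_ext fun i j => ?_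
  simp only [key_prj_diag, keyOm, prj_dvec]
  split_ifs <;> simp

theorem key_rdiag_om (z : H →L[ℂ] H) (γ : H) :
    rmat (fun i j : ι => if i = j then z else 0) (keyOm s γ) = keyOm s (z γ) := by
  refine hm_ext fun i j => ?_
  simp only [key_prj_rdiag, keyOm, prj_dvec]
  split_ifs <;> simp

theorem key_om_sub (γ γ' : H) : keyOm s γ - keyOm s γ' = keyOm s (γ - γ') := by
  refine hm_ext fun i j => ?_
  simp only [map_sub, keyOm, prj_dvec]
  split_ifs <;> simp [smul_sub]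

theorem key_norm_om (h : ∑ i, Real.exp (s i) = 1) (γ : H) : ‖keyOm s γ‖ = ‖γ‖ := by
  have h1 : ‖keyOm s γ‖ ^ 2 = ‖γ‖ ^ 2 := by
    rw [keyOm, norm_dvec_sq]
    have e : ∀ i, ‖((Real.exp (s i / 2) : ℝ) : ℂ) • γ‖ ^ 2 = Real.exp (s i) * ‖γ‖ ^ 2 := fun i => by
      rw [norm_smul, Complex.norm_real, Real.norm_eq_abs, mul_pow, sq_abs, sq, key_exp]
    simp only [e]
    rw [← Finset.sum_mul, h, one_mul]
  exact (pow_left_inj₀ (norm_nonneg _) (norm_nonneg _) two_ne_zero).1 h1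

theorem key_J_om (h : J ζ = ζ) : ampJ ι J (keyOm s ζ) = keyOm s ζ :=
  ampJ_dvec fun i => by rw [J_rsmul, h]

theorem key_fourth {ν : L → ℝ}
    (h : ∀ l₁ l₂ l₃ l₄, ∑ k, ∑ j, Real.exp (s j) *
          ((∑ i, ρ l₁ i k * ρ l₂ i j) * ∑ i, ρ l₃ i k * ρ l₄ i j) =
        (if l₁ = l₂ ∧ l₃ = l₄ then 1 else 0) +
          if l₁ = l₃ ∧ l₂ = l₄ then Real.exp (-ν l₁) else 0) (D A : L → (H →L[ℂ] H)) :
    ‖(star (keyOp ρ D) * keyOp ρ A) (keyOm s ζ)‖ ^ 2 = ‖∑ l, (star (D l)) (A l ζ)‖ ^ 2 +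
      ∑ l₂, ∑ l₁, Real.exp (-ν l₁) * ‖(star (D l₁)) (A l₂ ζ)‖ ^ 2 := by
  have e1 : ∀ k j, prj k j ((star (keyOp ρ D) * keyOp ρ A) (keyOm s ζ)) =
      ∑ q : L × L, ((Real.exp (s j / 2) * ∑ i, ρ q.1 i k * ρ q.2 i j : ℝ) : ℂ) •
        (star (D q.1)) (A q.2 ζ) := fun k j => by
    rw [mul_apply_eq_comp, key_op_om, keyOp, star_mat, prj_mat]
    simp only [key_prj, star_sum, star_smul, Complex.star_def, Complex.conj_ofReal,
      sum_apply, smul_apply, map_sum, map_smul,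
      Finset.smul_sum, smul_smul, Finset.mul_sum, Complex.ofReal_sum, Finset.sum_smul]
    rw [Fintype.sum_prod_type, Finset.sum_comm]
    conv_rhs => rw [Finset.sum_comm]
    refine Finset.sum_congr rfl fun l₂ _ => ?_
    rw [Finset.sum_comm]
    refine Finset.sum_congr rfl fun l₁ _ => Finset.sum_congr rfl fun i _ => ?_
    congr 1
    push_cast
    ring
  have e2 := hm_inner ((star (keyOp ρ D) * keyOp ρ A) (keyOm s ζ))
    ((star (keyOp ρ D) * keyOp ρ A) (keyOm s ζ))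
  simp only [e1] at e2
  rw [← Fintype.sum_prod_type', key_gram (fun (p : ι × ι) (q : L × L) =>
    Real.exp (s p.2 / 2) * ∑ i, ρ q.1 i p.1 * ρ q.2 i p.2), key_inner_self] at e2
  have e3 : ∀ q q' : L × L, ∑ p : ι × ι, (Real.exp (s p.2 / 2) * ∑ i, ρ q.1 i p.1 * ρ q.2 i p.2) *
      (Real.exp (s p.2 / 2) * ∑ i, ρ q'.1 i p.1 * ρ q'.2 i p.2) =
      (if q.1 = q.2 then 1 else 0) * (if q'.1 = q'.2 then 1 else 0) +
        if q = q' then Real.exp (-ν q.1) else 0 := fun q q' => by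
    have e4 := h q.1 q.2 q'.1 q'.2
    simp only [← Prod.ext_iff] at e4
    have e5 : (if q.1 = q.2 ∧ q'.1 = q'.2 then (1 : ℝ) else 0) =
        (if q.1 = q.2 then 1 else 0) * (if q'.1 = q'.2 then 1 else 0) := by
      by_cases a : q.1 = q.2 <;> by_cases b : q'.1 = q'.2 <;> simp [a, b]
    rw [← e5, ← e4, Fintype.sum_prod_type]
    refine Finset.sum_congr rfl fun k _ => Finset.sum_congr rfl fun j _ => ?_
    rw [← key_exp (s j)]
    ring
  simp only [e3, Complex.ofReal_add, add_mul, Finset.sum_add_distrib] at e2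
  have e6 : ∑ q : L × L, (((if q.1 = q.2 then 1 else 0 : ℝ)) : ℂ) • (star (D q.1)) (A q.2 ζ) =
      ∑ l, (star (D l)) (A l ζ) := by
    rw [Fintype.sum_prod_type]
    refine Finset.sum_congr rfl fun l _ => ?_
    rw [Finset.sum_eq_single l]
    · simp
    · intro l' _ hl
      rw [if_neg (Ne.symm hl)]
      simp
    · simp
  have e7 := key_gram (fun (_ : Unit) (q : L × L) => (if q.1 = q.2 then 1 else 0 : ℝ))
    (fun q => (star (D q.1)) (A q.2 ζ)) (fun q => (star (D q.1)) (A q.2 ζ))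
  simp only [Finset.univ_unique, Finset.sum_singleton, e6] at e7
  have e8 : ∑ q : L × L, ∑ q' : L × L, (((if q = q' then Real.exp (-ν q.1) else 0 : ℝ)) : ℂ) *
      ⟪(star (D q.1)) (A q.2 ζ), (star (D q'.1)) (A q'.2 ζ)⟫_ℂ =
      ((∑ l₂, ∑ l₁, Real.exp (-ν l₁) * ‖(star (D l₁)) (A l₂ ζ)‖ ^ 2 : ℝ) : ℂ) := by
    rw [Finset.sum_comm (f := fun l₂ l₁ => Real.exp (-ν l₁) * ‖(star (D l₁)) (A l₂ ζ)‖ ^ 2),
      ← Fintype.sum_prod_type'
        (fun l₁ l₂ => Real.exp (-ν l₁) * ‖(star (D l₁)) (A l₂ ζ)‖ ^ 2), Complex.ofReal_sum]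
    refine Finset.sum_congr rfl fun q _ => ?_
    rw [Finset.sum_eq_single q]
    · rw [if_pos rfl, key_inner_self, Complex.ofReal_mul]
    · intro q' _ hq
      rw [if_neg (Ne.symm hq)]
      simp
    · simp
  rw [← e7, e8, key_inner_self] at e2
  exact_mod_cast e2

end Res

/-- the numerical part -/
theorem key_num {ε K Z η r δ ε₁ ε₂ a v t d c q g X : ℝ} (hε : 0 < ε) (hK : 0 ≤ K) (hZ : 0 ≤ Z)
    (hη0 : 0 < η) (hη1 : η ≤ 1) (hη : η ≤ ε / (9 * (K + 1))) (hr : r = η ^ 2 / 100)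
    (hδ0 : 0 ≤ δ) (hδ : δ ≤ r) (hε₁ : ε₁ = ε / 21) (hε₂ : ε₂ = r * ε / (3 * (Z + 1)))
    (ha0 : 0 ≤ a) (ha : a ≤ 1) (hv : v ≤ a + δ) (ht0 : 0 ≤ t) (hd0 : 0 ≤ d) {w : ℝ} (hw0 : 0 ≤ w)
    (hw : w ^ 2 ≤ (r * 5 + δ) * v) (hd : d ≤ δ + w) (ht : t ≤ a + d) (hc0 : 0 ≤ c)
    (hc : 2 * r * c ≤ ε₂) (hq : q ≤ 5 + δ / (2 * r)) (hg0 : 0 ≤ g) (hg : g ≤ ε₁)
    (hX : X ≤ K * (a + t) * d + Z * t * c + q * g) : X + ε₁ ≤ ε := by
  have hr0 : 0 < r := by rw [hr]; positivity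
  have hr1 : r ≤ η / 100 := by
    have := mul_le_mul_of_nonneg_left hη1 hη0.le
    rw [hr, sq]; linarith only [this]
  have hv2 : v ≤ 2 := by linarith
  have hw2 : w ^ 2 ≤ (η / 2) ^ 2 := by
    have : (r * 5 + δ) * v ≤ (r * 5 + δ) * 2 := mul_le_mul_of_nonneg_left hv2 (by positivity)
    have e : (η / 2) ^ 2 = 25 * r := by rw [hr]; ring
    linarith only [this, e, hw, hδ, hr0]
  have hw3 : w ≤ η / 2 := (pow_le_pow_iff_left₀ hw0 (by positivity) two_ne_zero).1 hw2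
  have hd1 : d ≤ η := by linarith
  have ht2 : t ≤ 2 := by linarith
  have h1 : K * (a + t) * d ≤ ε / 3 := by
    have e1 : K * (a + t) * d ≤ K * 3 * η :=
      mul_le_mul (mul_le_mul_of_nonneg_left (by linarith) hK) hd1 hd0 (by positivity)
    have e2 : η * (9 * (K + 1)) ≤ ε := (le_div_iff₀ (by positivity)).1 hη
    linarith only [e1, e2, hη0]
  have h2 : Z * t * c ≤ ε / 3 := by
    have e1 : r * (2 * c) ≤ r * (ε / (3 * (Z + 1))) := by
      rw [← mul_div_assoc, ← hε₂]; linarith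
    have e2 : 2 * c ≤ ε / (3 * (Z + 1)) := le_of_mul_le_mul_left e1 hr0
    have e3 : 2 * c * (3 * (Z + 1)) ≤ ε := (le_div_iff₀ (by positivity)).1 e2
    have e4 : Z * t * c ≤ Z * 2 * c :=
      mul_le_mul_of_nonneg_right (mul_le_mul_of_nonneg_left ht2 hZ) hc0
    linarith only [e3, e4, hc0]
  have h3 : q * g ≤ 6 * ε₁ := by
    have e1 : δ / (2 * r) ≤ 1 := (div_le_one (by positivity)).2 (by linarith)
    have e2 : q * g ≤ 6 * g := mul_le_mul_of_nonneg_right (by linarith) hg0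
    linarith
  linarith

end Pool.Agent.P.MP_5d580a_an
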