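import Pool.Agent.P.MP_5d580a_an.Bic0

open scoped ComplexOrder InnerProductSpace ComplexConjugate BoundedContinuousFunction
open MeasureTheory Filter Topology

set_option linter.unusedSectionVars false
set_option linter.unusedVariables false

noncomputable section

namespace Pool.Agent.P.MP_5d580a_an

variable {H : Type} [NormedAddCommGroup H] [InnerProductSpace ℂ H] [CompleteSpace H]

variable {M : VonNeumannAlgebra H} {J : H ≃ₗᵢ⋆[ℂ] H} {ζ : H}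

theorem mm_orth {P : Type} [Fintype P] (T : P → (H →L[ℂ] H)) (h1 : ∀ p, star (T p) * T p = 1)
    (h0 : ∀ p q, p ≠ q → star (T p) * T q = 0) (η : P → H) :
    ‖∑ p, T p (η p)‖ ^ 2 = ∑ p, ‖η p‖ ^ 2 := by
  have e : ⟪∑ p, T p (η p), ∑ p, T p (η p)⟫_ℂ = ∑ p, ⟪η p, η p⟫_ℂ := by
    rw [sum_inner]
    refine Finset.sum_congr rfl fun p _ => ?_
    rw [inner_sum, Finset.sum_eq_single p]
    · rw [← inner_star_right, ← mul_apply_eq_comp, h1, one_apply_eq_self]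
    · intro q _ hq
      rw [← inner_star_right, ← mul_apply_eq_comp, h0 p q hq.symm,
        _root_.zero_apply, inner_zero_right]
    · simp
  simp only [inner_self_eq_norm_sq_to_K] at e
  exact_mod_cast e

theorem mm_bessel {P : Type} [Fintype P] (T : P → (H →L[ℂ] H)) (h1 : ∀ p, star (T p) * T p = 1)
    (h0 : ∀ p q, p ≠ q → star (T p) * T q = 0) (γ : H) :
    ∑ p, ‖(star (T p)) γ‖ ^ 2 ≤ ‖γ‖ ^ 2 := by
  have e1 := mm_orth T h1 h0 fun p => (star (T p)) γ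
  have e2 : ⟪γ, ∑ p, T p ((star (T p)) γ)⟫_ℂ = ((∑ p, ‖(star (T p)) γ‖ ^ 2 : ℝ) : ℂ) := by
    rw [inner_sum]
    push_cast
    refine Finset.sum_congr rfl fun p _ => ?_
    rw [← inner_star_left, inner_self_eq_norm_sq_to_K]
    rfl
  have e3 := norm_inner_le_norm (𝕜 := ℂ) γ (∑ p, T p ((star (T p)) γ))
  rw [e2, ← e1, Complex.norm_real, Real.norm_of_nonneg (sq_nonneg _)] at e3
  rw [← e1]
  have h2 := norm_nonneg (∑ p, T p ((star (T p)) γ))
  have h3 := norm_nonneg γ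
  nlinarith [sq_nonneg (‖∑ p, T p ((star (T p)) γ)‖ - ‖γ‖)]

theorem mm_norm {ι : Type} [Fintype ι] (w : ι → (H →L[ℂ] H)) (h1 : ∀ p, star (w p) * w p = 1)
    (h0 : ∀ p q, p ≠ q → star (w p) * w q = 0) (a : ι → ι → (H →L[ℂ] H))
    (ha : ∀ ξ η : ι → H, ‖∑ i, ∑ j, ⟪η i, a i j (ξ j)⟫_ℂ‖ ≤
      √(∑ i, ‖η i‖ ^ 2) * √(∑ j, ‖ξ j‖ ^ 2)) :
    ‖∑ i, ∑ j, w i * a i j * star (w j)‖ ≤ 1 := by
  refine ContinuousLinearMap.opNorm_le_bound _ zero_le_one fun ξ => ?_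
  generalize hA : (∑ i, ∑ j, w i * a i j * star (w j)) = A
  have e : ⟪A ξ, A ξ⟫_ℂ = ∑ i, ∑ j, ⟪(star (w i)) (A ξ), a i j ((star (w j)) ξ)⟫_ℂ := by
    conv_lhs => rw [show ⟪A ξ, A ξ⟫_ℂ = ⟪A ξ, (∑ i, ∑ j, w i * a i j * star (w j)) ξ⟫_ℂ by rw [hA]]
    simp only [_root_.sum_apply, inner_sum, mul_apply_eq_comp,
      inner_star_left]
  have e2 := ha (fun j => (star (w j)) ξ) fun i => (star (w i)) (A ξ)
  rw [← e, inner_self_eq_norm_sq_to_K] at e2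
  have b1 : √(∑ i, ‖(star (w i)) (A ξ)‖ ^ 2) ≤ ‖A ξ‖ :=
    Real.sqrt_le_iff.2 ⟨norm_nonneg _, mm_bessel w h1 h0 _⟩
  have b2 : √(∑ i, ‖(star (w i)) ξ‖ ^ 2) ≤ ‖ξ‖ :=
    Real.sqrt_le_iff.2 ⟨norm_nonneg _, mm_bessel w h1 h0 _⟩
  have e3 : ‖A ξ‖ ^ 2 ≤ ‖A ξ‖ * ‖ξ‖ := by
    refine le_trans (le_of_eq ?_)
      (e2.trans (mul_le_mul b1 b2 (Real.sqrt_nonneg _) (norm_nonneg _)))
    simp
  rw [one_mul]
  exact abs_le_abs (a := ‖A ξ‖) (b := ‖ξ‖) (by
    by_contra hc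
    have h2 := norm_nonneg ξ
    nlinarith) (by linarith [norm_nonneg ξ, norm_nonneg (A ξ)]) |>.trans' (le_abs_self _)
    |>.trans (abs_norm ξ).le

theorem mm_app {x : H →L[ℂ] H} (hx : ‖x‖ ≤ 1) (ξ : H) : ‖x ξ‖ ≤ ‖ξ‖ :=
  (x.le_opNorm ξ).trans (mul_le_of_le_one_left (norm_nonneg _) hx)

theorem mm_T1 (hs : StdJ M J) {ι : Type} (w : ι → (H →L[ℂ] H)) (hw : ∀ i, w i ∈ M)
    (p q : ι × ι) : star (w p.1 * rm J (star (w p.2))) * (w q.1 * rm J (star (w q.2)))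
      = star (w p.1) * w q.1 * rm J (star (w q.2) * w p.2) := by
  rw [star_mul, ← rm_star hs.invol, star_star, rm_mul hs.invol, ← mul_assoc, mul_assoc (rm J _),
    ← hs.comm (mul_mem (star_mem (hw _)) (hw _)) (hw _), mul_assoc]

theorem mm_cm (hs : StdV M J ζ) {ι : Type} [Fintype ι] (c : ι → ℝ) (w : ι → (H →L[ℂ] H))
    (hw : ∀ i, w i ∈ M) (h1 : ∀ p, star (w p) * w p = 1)
    (h0 : ∀ p q, p ≠ q → star (w p) * w q = 0) (a : ι → ι → (H →L[ℂ] H)) (ha : ∀ i j, a i j ∈ M)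
    {δ δ' : ℝ} (hδ : 0 ≤ δ) (he : ∀ i, ‖rm J (w i) ζ - (c i : ℂ) • w i ζ‖ ≤ δ')
    (h : ∑ i, ∑ j, ‖(c j : ℂ) • a i j ζ - (c i : ℂ) • rm J (a i j) ζ‖ ^ 2 ≤ δ ^ 2) :
    ‖cm J (∑ i, ∑ j, w i * a i j * star (w j)) ζ‖ ≤ δ + 2 * (∑ i, ∑ j, ‖a i j‖) * δ' := by
  have hJ := hs.stdJ.invol
  have he' : ∀ i, ‖(star (w i)) ζ - (c i : ℂ) • rm J (star (w i)) ζ‖ ≤ δ' := fun i => by
    have := he i
    rw [← J.norm_map, map_sub, J_rm hJ, J_rsmul, J_apply hJ, hs.fix] at this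
    exact this
  have hn : ∀ i, ‖w i‖ ≤ 1 := fun i => iso_norm_le (h1 i)
  have e : cm J (∑ i, ∑ j, w i * a i j * star (w j)) ζ
      = ∑ p : ι × ι, (w p.1 * rm J (star (w p.2)))
          ((c p.2 : ℂ) • a p.1 p.2 ζ - (c p.1 : ℂ) • rm J (a p.1 p.2) ζ)
        + ∑ i, ∑ j, (w i (a i j ((star (w j)) ζ - (c j : ℂ) • rm J (star (w j)) ζ))
          - rm J (star (w j)) (rm J (a i j) (rm J (w i) ζ - (c i : ℂ) • w i ζ))) := by
    rw [Fintype.sum_prod_type, cm]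
    simp only [rm_sum, _root_.sum_apply, ← Finset.sum_sub_distrib,
      ← Finset.sum_add_distrib, rm_mul hJ, mul_apply_eq_comp, map_sub, map_smul]
    refine Finset.sum_congr rfl fun i _ => Finset.sum_congr rfl fun j _ => ?_
    rw [hs.stdJ.comm_apply (ha i j) (star_mem (hw j)), ← hs.stdJ.comm_apply (hw i) (ha i j),
      ← hs.stdJ.comm_apply (hw i) (star_mem (hw j)) (rm J (a i j) ζ)]
    abel
  rw [e]
  refine (norm_add_le _ _).trans (add_le_add ?_ ?_)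
  · refine (pow_le_pow_iff_left₀ (norm_nonneg _) hδ two_ne_zero).1 ?_
    rw [mm_orth _ (fun p => ?_) (fun p q hpq => ?_), Fintype.sum_prod_type]
    · exact h
    · rw [mm_T1 hs.stdJ w hw, h1, h1, rm_one hJ, mul_one]
    · rw [mm_T1 hs.stdJ w hw]
      by_cases h2 : p.1 = q.1
      · rw [h0 q.2 p.2 fun h3 => hpq (Prod.ext h2 h3.symm), rm_zero, mul_zero]
      · rw [h0 _ _ h2, zero_mul]
  · rw [Finset.mul_sum, Finset.sum_mul]
    refine norm_sum_le_of_le _ fun i _ => ?_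
    rw [Finset.mul_sum, Finset.sum_mul]
    refine norm_sum_le_of_le _ fun j _ => (norm_sub_le _ _).trans ?_
    have b1 := (mm_app (hn i) _).trans (((a i j).le_opNorm _).trans
      (mul_le_mul_of_nonneg_left (he' j) (norm_nonneg _)))
    have b2 := (mm_app (x := rm J (star (w j))) (by rw [norm_rm, norm_star]; exact hn j) _).trans
      (((rm J (a i j)).le_opNorm _).trans (mul_le_mul_of_nonneg_left (he i) (norm_nonneg _)))
    rw [norm_rm] at b2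
    linarith

theorem mm_entry (hs : StdV M J ζ) {ι : Type} [Fintype ι] (c : ι → ℝ) (hc0 : ∀ i, 0 ≤ c i)
    (hc : ∀ i, c i ≤ 1) (w : ι → (H →L[ℂ] H)) (hw : ∀ i, w i ∈ M) (h1 : ∀ p, star (w p) * w p = 1)
    (h0 : ∀ p q, p ≠ q → star (w p) * w q = 0) (a : ι → ι → (H →L[ℂ] H)) {A x : H →L[ℂ] H}
    (hA : A = ∑ i, ∑ j, w i * a i j * star (w j)) (hAM : A ∈ M) (hA1 : ‖A‖ ≤ 1) (hx : x ∈ M)
    (y : ι → (H →L[ℂ] H)) {δ' θ : ℝ} (he : ∀ i, ‖rm J (w i) ζ - (c i : ℂ) • w i ζ‖ ≤ δ')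
    (h2 : ∀ k j, ‖(x * w k - w k * y k) (a k j ζ)‖ ≤ θ) (h3 : ∀ k, ‖(x * w k - w k * y k) ζ‖ ≤ θ)
    (i j : ι) : ‖(star (w i * rm J (star (w j)))) ((x * A - A * x) ζ)
      - (c j : ℂ) • (y i * a i j - a i j * y j) ζ‖
        ≤ (Fintype.card ι + 1) * θ + 2 * ‖x‖ * δ' := by
  have hJ := hs.stdJ.invol
  have hn : ‖star (w i)‖ ≤ 1 := by rw [norm_star]; exact iso_norm_le (h1 i)
  have e1 : A * w j = ∑ k, w k * a k j := by
    rw [hA, Finset.sum_mul]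
    refine Finset.sum_congr rfl fun k _ => ?_
    rw [Finset.sum_mul, Finset.sum_eq_single j, mul_assoc, h1, mul_one]
    · intro l _ hl; rw [mul_assoc, h0 l j hl, mul_zero]
    · simp
  have e2 : ∀ b : ι → (H →L[ℂ] H), star (w i) * ∑ k, w k * b k = b i := fun b => by
    rw [Finset.mul_sum, Finset.sum_eq_single i, ← mul_assoc, h1, one_mul]
    · intro l _ hl; rw [← mul_assoc, h0 i l hl.symm, zero_mul]
    · simp
  have e3 : star (w i) * (x * A - A * x) * w j = (y i * a i j - a i j * y j)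
      + star (w i) * (∑ k, (x * w k - w k * y k) * a k j - A * (x * w j - w j * y j)) := by
    have f1 : ∑ k, (x * w k - w k * y k) * a k j = x * (A * w j) - ∑ k, w k * (y k * a k j) := by
      rw [e1, Finset.mul_sum, ← Finset.sum_sub_distrib]
      exact Finset.sum_congr rfl fun k _ => by noncomm_ring
    have f2 : star (w i) * (A * w j) = a i j := by rw [e1, e2]
    have f3 : a i j * y j = star (w i) * (A * w j) * y j := by rw [f2]
    rw [f1, f3, ← e2 fun k => y k * a k j]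
    noncomm_ring
  have hG : star (w i) * (x * A - A * x) ∈ M :=
    mul_mem (star_mem (hw i)) (sub_mem (mul_mem hx hAM) (mul_mem hAM hx))
  have e4 : (star (w i * rm J (star (w j)))) ((x * A - A * x) ζ)
      - (c j : ℂ) • (y i * a i j - a i j * y j) ζ
      = (c j : ℂ) • (star (w i)) (∑ k, (x * w k - w k * y k) (a k j ζ)
          - A ((x * w j - w j * y j) ζ))
        + (star (w i)) ((x * A - A * x) (rm J (w j) ζ - (c j : ℂ) • w j ζ)) := by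
    have f1 := congrArg (fun T : H →L[ℂ] H => T ζ) e3
    have f2 := hs.stdJ.comm_apply hG (hw j) ζ
    simp only [mul_apply_eq_comp, _root_.add_apply] at f1 f2
    rw [_root_.sub_apply (∑ k, _), _root_.sum_apply] at f1
    simp only [mul_apply_eq_comp (_ - _), mul_apply_eq_comp A] at f1
    rw [star_mul, ← rm_star hJ, star_star, mul_apply_eq_comp, ← f2,
      map_sub (x * A - A * x), map_smul, map_sub (star (w i)) ((x * A - A * x) _), map_smul, f1,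
      smul_add]
    abel
  rw [e4]
  refine (norm_add_le _ _).trans (add_le_add ?_ ?_)
  · rw [norm_smul, Complex.norm_real, Real.norm_of_nonneg (hc0 j)]
    refine (mul_le_of_le_one_left (norm_nonneg _) (hc j)).trans ((mm_app hn _).trans
      ((norm_sub_le _ _).trans ?_))
    have b1 : ‖∑ k, (x * w k - w k * y k) (a k j ζ)‖ ≤ Fintype.card ι * θ :=
      (norm_sum_le_of_le _ fun k _ => h2 k j).trans (by simp)
    have b2 := (mm_app hA1 _).trans (h3 j)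
    linarith
  · refine (mm_app hn _).trans (((x * A - A * x).le_opNorm _).trans
      (mul_le_mul ?_ (he j) (norm_nonneg _) (by positivity)))
    have b1 := (norm_mul_le x A).trans (mul_le_of_le_one_right (norm_nonneg _) hA1)
    have b2 := (norm_mul_le A x).trans (mul_le_of_le_one_left (norm_nonneg _) hA1)
    linarith [norm_sub_le (x * A) (A * x)]

theorem mm_small (K : ℝ) {θ : ℝ} (hθ : 0 < θ) : ∀ᶠ t in 𝓝[>] (0 : ℝ), K * t ≤ θ := by
  have h : Tendsto (fun t : ℝ => K * t) (𝓝 0) (𝓝 (K * 0)) := (continuous_const.mul continuous_id).tendsto 0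
  rw [mul_zero] at h
  exact (h.eventually (ge_mem_nhds hθ)).filter_mono nhdsWithin_le_nhds

theorem mm_bet (hs : StdV M J ζ) {s : ℝ} {x y : H →L[ℂ] H} (h : Bet M J ζ s x y) (η : H) {θ : ℝ}
    (hθ : 0 < θ) : ∀ᶠ t in 𝓝[>] (0 : ℝ), ∀ w, Eig M J ζ s t w → ‖(x * w - w * y) η‖ ≤ θ := by
  obtain ⟨δ, hδ, h1⟩ := h.strong hs η hθ
  exact (mm_small 1 hδ).mono fun t ht w hw => (h1 w (hw.mono (by linarith))).1

/-- matrix model -/
theorem matrix_model (hs : StdV M J ζ) (hF : EigFam M J ζ) {x : H →L[ℂ] H} (hx : x ∈ Bic M J ζ)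
    {ε : ℝ} (hε : 0 < ε) :
    ∃ δ : ℝ, 0 < δ ∧ ∀ (ι : Type) [Fintype ι] (s : ι → ℝ) (y : ι → (H →L[ℂ] H))
      (a : ι → ι → (H →L[ℂ] H)), ∑ i, Real.exp (s i) ≤ 1 → (∀ i, BRel M J ζ (s i) x (y i)) →
      (∀ i j, a i j ∈ M) →
      (∀ ξ η : ι → H, ‖∑ i, ∑ j, ⟪η i, a i j (ξ j)⟫_ℂ‖ ≤
        √(∑ i, ‖η i‖ ^ 2) * √(∑ j, ‖ξ j‖ ^ 2)) →
      ∑ i, ∑ j, ‖((Real.exp (s j / 2) : ℝ) : ℂ) • a i j ζ -
        ((Real.exp (s i / 2) : ℝ) : ℂ) • rm J (a i j) ζ‖ ^ 2 ≤ δ ^ 2 →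
      ∑ i, ∑ j, Real.exp (s j) * ‖(y i * a i j - a i j * y j) ζ‖ ^ 2 ≤ ε ^ 2 := by
  obtain ⟨δ₀, hδ₀, hB⟩ := hx.2.2 ε hε
  refine ⟨δ₀ / 2, by positivity, fun ι _ s y a hs1 hy ha hb hc => ?_⟩
  have hJ := hs.stdJ.invol
  have hc1 : ∀ i, Real.exp (s i / 2) ≤ 1 := fun i => by
    have h1 : Real.exp (s i) ≤ 1 := (Finset.single_le_sum (f := fun i => Real.exp (s i))
      (fun _ _ => (Real.exp_pos _).le) (Finset.mem_univ i)).trans hs1
    rw [Real.exp_le_one_iff] at h1 ⊢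
    linarith
  let v : ι × ι → H := fun p =>
    ((Real.exp (s p.2 / 2) : ℝ) : ℂ) • (y p.1 * a p.1 p.2 - a p.1 p.2 * y p.2) ζ
  have hcl : IsClosed {u : ι × ι → H | ∑ p, ‖u p‖ ^ 2 ≤ ε ^ 2} :=
    isClosed_le (by fun_prop) continuous_const
  have hv : ∑ p, ‖v p‖ ^ 2 ≤ ε ^ 2 := by
    refine hcl.closure_subset (Metric.mem_closure_iff.2 fun θ hθ => ?_)
    have hθ' : 0 < θ / (Fintype.card ι + 3) := by positivity
    have E1 : ∀ᶠ t in 𝓝[>] (0 : ℝ), ∀ k j, ∀ w, Eig M J ζ (s k) t w →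
        ‖(x * w - w * y k) (a k j ζ)‖ ≤ θ / (Fintype.card ι + 3) :=
      eventually_all.2 fun k => eventually_all.2 fun j => mm_bet hs (hy k).2.2.1 _ hθ'
    have E2 : ∀ᶠ t in 𝓝[>] (0 : ℝ), ∀ k, ∀ w, Eig M J ζ (s k) t w →
        ‖(x * w - w * y k) ζ‖ ≤ θ / (Fintype.card ι + 3) :=
      eventually_all.2 fun k => mm_bet hs (hy k).2.2.1 _ hθ'
    obtain ⟨t, ⟨⟨⟨h1, h2⟩, h3⟩, h4⟩, ht⟩ := ((((E1.and E2).and (mm_small (2 * ‖x‖) hθ')).and
      (mm_small (2 * ∑ i, ∑ j, ‖a i j‖) (half_pos hδ₀))).and self_mem_nhdsWithin).exists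
    obtain ⟨w, hw, w1, w0⟩ := hF ι s hs1 t ht
    have hwM : ∀ i, w i ∈ M := fun i => (hw i).1
    have hA1 := mm_norm w w1 w0 a hb
    have hA2 := mm_cm hs (fun i => Real.exp (s i / 2)) w hwM w1 w0 a ha (half_pos hδ₀).le
      (fun i => (hw i).2.2) hc
    have hAM : ∑ i, ∑ j, w i * a i j * star (w j) ∈ M :=
      sum_mem fun i _ => sum_mem fun j _ => mul_mem (mul_mem (hwM i) (ha i j)) (star_mem (hwM j))
    generalize hA : (∑ i, ∑ j, w i * a i j * star (w j)) = A at hA1 hA2 hAM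
    have hγ := (hB A (eig_zero_iff.2 ⟨hAM, hA1, by linarith⟩)).1
    refine ⟨fun p => (star (w p.1 * rm J (star (w p.2)))) ((x * A - A * x) ζ), ?_, ?_⟩
    · refine (mm_bessel (fun p : ι × ι => w p.1 * rm J (star (w p.2))) (fun p => ?_)
        (fun p q hpq => ?_) _).trans (pow_le_pow_left₀ (norm_nonneg _) hγ 2)
      · rw [mm_T1 hs.stdJ w hwM, w1, w1, rm_one hJ, mul_one]
      · rw [mm_T1 hs.stdJ w hwM]
        by_cases h5 : p.1 = q.1
        · rw [w0 q.2 p.2 fun h6 => hpq (Prod.ext h5 h6.symm), rm_zero, mul_zero]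
        · rw [w0 _ _ h5, zero_mul]
    · rw [dist_pi_lt_iff hθ]
      intro p
      rw [dist_comm, dist_eq_norm]
      refine (mm_entry hs (fun i => Real.exp (s i / 2)) (fun i => (Real.exp_pos _).le) hc1 w hwM
        w1 w0 a hA.symm hAM hA1 hx.1 y (fun i => (hw i).2.2) (fun k j => h1 k j _ (hw k))
        (fun k => h2 k _ (hw k)) p.1 p.2).trans_lt ?_
      have e : (Fintype.card ι + 3) * (θ / (Fintype.card ι + 3)) = θ := by field_simp
      nlinarith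
  rw [Fintype.sum_prod_type] at hv
  refine le_of_eq_of_le ?_ hv
  refine Finset.sum_congr rfl fun i _ => Finset.sum_congr rfl fun j _ => ?_
  simp only [v]
  rw [norm_smul, Complex.norm_real, Real.norm_of_nonneg (Real.exp_pos _).le, mul_pow,
    ← Real.exp_nat_mul]
  congr 2
  push_cast; ring

end Pool.Agent.P.MP_5d580a_an
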