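import Pool.Agent.P.MP_5d580a_an.Trunc
import Pool.Agent.P.MP_5d580a_an.Cube
import Pool.Agent.P.MP_5d580a_an.MM
import Pool.Agent.P.MP_5d580a_an.Amp
import Pool.Agent.P.MP_5d580a_an.KeyAux

open scoped ComplexOrder InnerProductSpace ComplexConjugate BoundedContinuousFunction
open MeasureTheory Filter Topology

set_option linter.unusedSectionVars false
set_option linter.unusedVariables false

noncomputable section

namespace Pool.Agent.P.MP_5d580a_an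

variable {H : Type} [NormedAddCommGroup H] [InnerProductSpace ℂ H] [CompleteSpace H]

variable {M : VonNeumannAlgebra H} {J : H ≃ₗᵢ⋆[ℂ] H} {ζ : H}

theorem key_estimate (hs : StdV M J ζ) (h1 : ‖ζ‖ = 1) (hF : EigFam M J ζ) {z : H →L[ℂ] H}
    (hsa : IsSelfAdjoint z) (hz : ∀ s, BRel M J ζ s z z) {ε : ℝ} (hε : 0 < ε) :
    ∃ δ : ℝ, 0 < δ ∧ ∀ (L : Type) [Fintype L] (ν : L → ℝ) (A D : L → (H →L[ℂ] H)),
      (∀ l, A l ∈ M ∧ D l ∈ M) → (∀ ξ, ∑ l, ‖A l ξ‖ ^ 2 ≤ ‖ξ‖ ^ 2) →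
      (∀ ξ, ∑ l, Real.exp (-ν l) * ‖(star (D l)) ξ‖ ^ 2 ≤ ‖ξ‖ ^ 2) →
      ∑ l, ‖D l ζ - A l ζ‖ ^ 2 ≤ δ ^ 2 →
      ∑ l, ‖D l ζ - ((Real.exp (-ν l / 2) : ℝ) : ℂ) • rm J (D l) ζ‖ ^ 2 ≤ δ ^ 2 →
      ‖∑ l, (star (D l)) (A l ζ)‖ ≤ 4 →
      ‖∑ l, ⟪A l ζ, z (rm J z (A l ζ))⟫_ℂ - ∑ l, ⟪A l ζ, A l (z (rm J z ζ))⟫_ℂ‖ ≤ ε := by
  have hzB : z ∈ Bic M J ζ := (hz 0).1
  have hzM : z ∈ M := bic_mem hzB
  obtain ⟨_, ⟨y, hy, rfl⟩, hyζ⟩ := Metric.mem_closure_iff.1 (hs.cyc' (z (rm J z ζ))) (ε / 21)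
    (by positivity)
  rw [dist_eq_norm] at hyζ
  set K : ℝ := ‖z‖ ^ 2 + ‖y‖ with hK
  have hK0 : 0 ≤ K := by positivity
  set η : ℝ := min 1 (ε / (9 * (K + 1))) with hη
  have hη0 : 0 < η := lt_min one_pos (by positivity)
  have hη1 : η ≤ 1 := min_le_left _ _
  set r : ℝ := η ^ 2 / 100 with hr
  have hr0 : 0 < r := by positivity
  have hr1 : r ≤ 1 := by
    have := pow_le_one₀ (n := 2) hη0.le hη1
    rw [hr]; linarith only [this]
  obtain ⟨δm, hδm, hmm⟩ := matrix_model hs hF hzB (ε := r * ε / (3 * (‖z‖ + 1))) (by positivity)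
  refine ⟨min r (δm / 5), lt_min hr0 (by positivity), ?_⟩
  set δ : ℝ := min r (δm / 5) with hδ
  have hδ0 : 0 ≤ δ := (lt_min hr0 (by positivity)).le
  have hδ1 : δ ≤ r := min_le_left _ _
  have hδ2 : δ ≤ δm / 5 := min_le_right _ _
  intro L _ ν A D hM hA hD h1' h2' h4
  classical
  obtain ⟨ι, _, _, s, ρ, hs1, hρ, hI, hII⟩ := reservoir L ν
  have hJ := stdJ_amp (ι := ι) hs.stdJ
  have hA1 : ∑ l, ‖A l ζ‖ ^ 2 ≤ 1 ^ 2 := by rw [← h1]; exact hA ζ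
  have hα : ‖keyRv s ρ fun l => A l ζ‖ ≤ 1 := key_norm_rv_le hI zero_le_one hA1
  have hVW : ‖keyOp ρ D (keyOm s ζ) - keyOp ρ A (keyOm s ζ)‖ ≤ δ := by
    rw [key_op_om, key_op_om, key_rv_sub]
    exact key_norm_rv_le hI hδ0 h1'
  have hcm : ‖cm (ampJ ι J) (keyOp ρ D) (keyOm s ζ)‖ ≤ δ := by
    rw [cm, key_op_om, key_rm_op_om hρ, key_rv_sub]
    exact key_norm_rv_le hI hδ0 h2'
  have h5 : ‖(star (keyOp ρ D) * keyOp ρ A) (keyOm s ζ)‖ ≤ 5 := by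
    refine (pow_le_pow_iff_left₀ (norm_nonneg _) (by norm_num) two_ne_zero).1 ?_
    rw [key_fourth hII]
    have e1 : ‖∑ l, (star (D l)) (A l ζ)‖ ^ 2 ≤ 4 ^ 2 := pow_le_pow_left₀ (norm_nonneg _) h4 2
    have e2 : ∑ l₂, ∑ l₁, Real.exp (-ν l₁) * ‖(star (D l₁)) (A l₂ ζ)‖ ^ 2 ≤ ∑ l, ‖A l ζ‖ ^ 2 :=
      Finset.sum_le_sum fun l _ => hD _
    linarith
  obtain ⟨T, hT, hT1, hT2, hT3, hT4⟩ := exists_trunc hJ (key_J_om (s := s) hs.fix)
    (key_op_mem (ρ := ρ) fun l => (hM l).2) (κ := r ^ 2) (by positivity) hVW h5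
  rw [Real.sqrt_sq hr0.le] at hT1 hT3 hT4
  obtain ⟨t, ht, hTt⟩ := mem_amp.1 hT
  have hmat : mat (fun i j => ((2 * r : ℝ) : ℂ) • t i j) = ((2 * r : ℝ) : ℂ) • T := by
    rw [mat_smul, hTt]
  have hn2 : ‖((2 * r : ℝ) : ℂ)‖ = 2 * r := by
    rw [Complex.norm_real, Real.norm_eq_abs, abs_of_pos (by positivity)]
  have hmm1 := hmm ι s (fun _ => z) (fun i j => ((2 * r : ℝ) : ℂ) • t i j) hs1.le
    (fun i => hz _) (fun i j => vn_smul_mem _ (ht i j)) (fun ξ η' => by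
      refine (mat_bound _ ξ η').trans ?_
      have e : ‖mat (fun i j => ((2 * r : ℝ) : ℂ) • t i j)‖ ≤ 1 := by
        rw [hmat, norm_smul, hn2, mul_comm]
        exact (le_div_iff₀ (by positivity)).1 hT1
      rw [mul_assoc]
      exact mul_le_of_le_one_left (by positivity) e) (by
      have e1 := hm_norm_sq (cm (ampJ ι J) (mat fun i j => ((2 * r : ℝ) : ℂ) • t i j) (keyOm s ζ))
      simp only [cm, map_sub, keyOm, prj_mat_dvec, prj_rm_mat_dvec, map_smul] at e1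
      rw [← e1]
      change ‖cm (ampJ ι J) (mat fun i j => ((2 * r : ℝ) : ℂ) • t i j) (keyOm s ζ)‖ ^ 2 ≤ _
      refine pow_le_pow_left₀ (norm_nonneg _) ?_ 2
      rw [hmat, cm_smul, norm_smul, hn2]
      have e2 : r * ‖cm (ampJ ι J) T (keyOm s ζ)‖ ≤ 1 * (9 / 4 * δ) :=
        mul_le_mul hr1 (by linarith) (norm_nonneg _) zero_le_one
      linarith)
  set Z : HM ι H →L[ℂ] HM ι H := mat fun i j : ι => if i = j then z else 0 with hZ
  set Y : HM ι H →L[ℂ] HM ι H := rmat fun i j : ι => if i = j then y else 0 with hY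
  have hZm : Z ∈ amp ι M := mem_amp.2 ⟨_, fun i k => by
    split_ifs
    exacts [hzM, zero_mem _], rfl⟩
  have hYm : Y ∈ (amp ι M).commutant := mem_amp_commutant.2 ⟨_, fun i k => by
    split_ifs
    exacts [hy, zero_mem _], rfl⟩
  have hZs : IsSelfAdjoint Z := by
    rw [IsSelfAdjoint, hZ, star_mat]
    refine congrArg mat (funext fun i => funext fun j => ?_)
    by_cases h : i = j
    · rw [if_pos h, if_pos h.symm, hsa.star_eq]
    · rw [if_neg h, if_neg (Ne.symm h), star_zero]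
  have hcom : 2 * r * ‖(Z * T - T * Z) (keyOm s ζ)‖ ≤ r * ε / (3 * (‖z‖ + 1)) := by
    refine (pow_le_pow_iff_left₀ (by positivity) (by positivity) two_ne_zero).1 ?_
    refine le_trans (le_of_eq ?_) hmm1
    rw [mul_pow, hm_norm_sq, Finset.mul_sum]
    refine Finset.sum_congr rfl fun i _ => ?_
    rw [Finset.mul_sum]
    refine Finset.sum_congr rfl fun j _ => ?_
    have e1 : prj i j ((Z * T - T * Z) (keyOm s ζ)) =
        ((Real.exp (s j / 2) : ℝ) : ℂ) • (z * t i j - t i j * z) ζ := by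
      rw [sub_apply, mul_apply_eq_comp, mul_apply_eq_comp, map_sub, hZ, key_prj_diag,
        key_diag_om, hTt, keyOm, keyOm, prj_mat_dvec, prj_mat_dvec]
      simp only [map_smul, sub_apply, mul_apply_eq_comp, smul_sub]
    rw [e1, mul_smul_comm, smul_mul_assoc, ← smul_sub, smul_apply, norm_smul, norm_smul, hn2,
      Complex.norm_real, Real.norm_eq_abs, abs_of_pos (Real.exp_pos _), ← key_exp (s j)]
    ring
  have hte := trunc_estimate hJ hZm hZs hT hYm (keyOm s ζ) (keyRv s ρ fun l => A l ζ)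
  have hg : ‖Z (rm (ampJ ι J) Z (keyOm s ζ)) - Y (keyOm s ζ)‖ ≤ ε / 21 := by
    rw [hZ, hY, key_rm_diag, key_rdiag_om, key_diag_om, key_rdiag_om, key_om_sub, key_norm_om hs1]
    exact hyζ.le
  have hi1 : ⟪keyRv s ρ fun l => A l ζ, Z (rm (ampJ ι J) Z (keyRv s ρ fun l => A l ζ))⟫_ℂ =
      ∑ l, ⟪A l ζ, z (rm J z (A l ζ))⟫_ℂ := by
    rw [hZ, key_rm_diag, key_rdiag_rv, key_diag_rv, key_inner_rv hI]
  have hi2 : ⟪keyRv s ρ fun l => A l ζ, Y (keyRv s ρ fun l => A l ζ)⟫_ℂ =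
      ∑ l, ⟪A l ζ, A l (y ζ)⟫_ℂ := by
    rw [hY, key_rdiag_rv, key_inner_rv hI]
    exact Finset.sum_congr rfl fun l _ => by rw [commute_apply (hM l).1 hy]
  have hi3 : ‖∑ l, ⟪A l ζ, A l (y ζ)⟫_ℂ - ∑ l, ⟪A l ζ, A l (z (rm J z ζ))⟫_ℂ‖ ≤ ε / 21 := by
    rw [← key_inner_rv hI, ← key_inner_rv hI, ← inner_sub_right, key_rv_sub]
    refine (norm_inner_le_norm _ _).trans ?_
    have e1 : ‖keyRv s ρ fun l => A l (y ζ) - A l (z (rm J z ζ))‖ ≤ ε / 21 := by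
      refine key_norm_rv_le hI (by positivity) ?_
      simp only [← map_sub]
      refine (hA _).trans (pow_le_pow_left₀ (norm_nonneg _) ?_ 2)
      rw [norm_sub_rev]
      exact hyζ.le
    calc _ ≤ 1 * (ε / 21) := mul_le_mul hα e1 (norm_nonneg _) zero_le_one
      _ = _ := one_mul _
  rw [hi1, hi2] at hte
  rw [key_op_om (ρ := ρ) A] at hVW
  have hZn : ‖Z‖ ≤ ‖z‖ := norm_mat_diag z
  have hYn : ‖Y‖ ≤ ‖y‖ := norm_rmat_diag y
  have hKle : ‖Z‖ ^ 2 + ‖Y‖ ≤ K := add_le_add (pow_le_pow_left₀ (norm_nonneg _) hZn 2) hYn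
  refine le_trans (norm_sub_le_norm_sub_add_norm_sub _ (∑ l, ⟪A l ζ, A l (y ζ)⟫_ℂ) _) ?_
  refine le_trans (add_le_add le_rfl hi3) ?_
  refine key_num (K := K) (Z := ‖z‖) (η := η) (r := r) (δ := δ) (v := ‖keyOp ρ D (keyOm s ζ)‖)
    hε hK0 (norm_nonneg _) hη0 hη1 (min_le_right _ _) hr hδ0 hδ1 rfl rfl (norm_nonneg _) hα ?_
    (norm_nonneg (T (keyOm s ζ))) (norm_nonneg ((keyRv s ρ fun l => A l ζ) - T (keyOm s ζ)))
    (norm_nonneg _) hT3 ?_ ?_ (norm_nonneg _) hcom hT4 (norm_nonneg _) hg (hte.trans ?_)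
  · have := norm_le_norm_add_norm_sub' (keyOp ρ D (keyOm s ζ)) (keyRv s ρ fun l => A l ζ)
    linarith
  · have := norm_sub_le_norm_sub_add_norm_sub (keyRv s ρ fun l => A l ζ)
      (keyOp ρ D (keyOm s ζ)) (T (keyOm s ζ))
    rw [norm_sub_rev (keyRv s ρ fun l => A l ζ) (keyOp ρ D (keyOm s ζ))] at this
    linarith
  · exact norm_le_norm_add_norm_sub _ _
  · gcongr

end Pool.Agent.P.MP_5d580a_an
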