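import Pool.Agent.P.MP_5d580a_an.StdA

open scoped ComplexOrder InnerProductSpace ComplexConjugate BoundedContinuousFunction
open MeasureTheory Filter Topology

set_option linter.unusedSectionVars false
set_option linter.unusedVariables false

noncomputable section

namespace Pool.Agent.P.MP_5d580a_an

variable {H : Type} [NormedAddCommGroup H] [InnerProductSpace ℂ H] [CompleteSpace H]

variable {M D : VonNeumannAlgebra H} {J : H ≃ₗᵢ⋆[ℂ] H} {Z : Set H} {f : H →L[ℂ] H} {ζ : H}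
  {l : List (H →L[ℂ] H)}

/-- a unitary of the corner `e q` lies in the corner `e` and commutes with `q` -/
theorem lq1_corner {e q u : H →L[ℂ] H} (he : IsStarProjection e) (hq : IsStarProjection q)
    (heq : e * q = q * e) (hu : u ∈ unitary (H →L[ℂ] H)) (h : u * (1 - e * q) = 1 - e * q) :
    u * (1 - e) = 1 - e ∧ u * q = q * u := by
  have hp : IsStarProjection (e * q) := he.mul hq heq
  obtain ⟨h1, -, h3⟩ := unitary_corner_comm hp hu h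
  have hee : e * e = e := he.isIdempotentElem
  have a1 : (1 - e * q) * (1 - e) = 1 - e := by
    have : e * q * e = e * q := by rw [mul_assoc, ← heq, ← mul_assoc, hee]
    rw [sub_mul, one_mul, mul_sub, mul_one, this, sub_self, sub_zero]
  have a2 : (1 - e) * (1 - e * q) = 1 - e := by
    rw [mul_sub, mul_one, ← mul_assoc, sub_mul, one_mul, hee, sub_self, zero_mul, sub_zero]
  have b1 : u * (1 - e) = 1 - e := by rw [← a1, ← mul_assoc, h]
  have b2 : (1 - e) * u = 1 - e := by rw [← a2, mul_assoc, h3]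
  refine ⟨b1, ?_⟩
  have c1 : q = e * q + (1 - e) * q := by rw [← add_mul]; simp
  have c2 : (1 - e) * q = q * (1 - e) := by rw [sub_mul, mul_sub, heq]; simp
  calc u * q = u * (e * q) + u * (1 - e) * q := by
        rw [mul_assoc u (1 - e), ← mul_add, ← c1]
    _ = e * q * u + q * ((1 - e) * u) := by rw [h1, b1, b2, c2]
    _ = q * u := by rw [← mul_assoc, ← c2, ← add_mul, ← c1]

theorem lq1_global (hDM : ∀ x ∈ D, x ∈ M) (hB : BH M D J Z f) (hζ : ζ ∈ Z) (hs : StdV M J ζ)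
    (l : List (H →L[ℂ] H)) :
    (∀ p ∈ l, p ∈ D ∧ IsStarProjection p ∧ cm J p ζ = 0) → (∀ p ∈ l, ∀ q ∈ l, p * q = q * p) →
    ∀ e ∈ D, IsStarProjection e → f * e = e → cm J e ζ = 0 → (∀ p ∈ l, e * p = p * e) →
    ∀ y ∈ M, IsSelfAdjoint y → e * y = y → (∀ p ∈ l, y * p = p * y) →
    (∀ ε : ℝ, 0 < ε → ∃ δ : ℝ, 0 < δ ∧ ∀ u, UApp D J ζ e δ u → (∀ p ∈ l, u * p = p * u) →
      ‖(u * y - y * u) ζ‖ ≤ ε) → y ∈ D ∧ cm J y ζ = 0 := by
  induction l with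
  | nil =>
    intro _ _ e he hep hfe heζ _ y hy hsa hey _ h
    refine hB ζ hζ e he hep hfe heζ y hy hsa hey fun ε hε => ?_
    obtain ⟨δ, hδ, h'⟩ := h ε hε
    exact ⟨δ, hδ, fun u hu => h' u hu (by simp)⟩
  | cons p l ih =>
    intro hl hc e he hep hfe heζ hel y hy hsa hey hyl h
    have hp := hl p List.mem_cons_self
    have key : ∀ q ∈ D, IsStarProjection q → cm J q ζ = 0 → e * q = q * e → y * q = q * y →
        (∀ r ∈ l, q * r = r * q) → (∀ u : H →L[ℂ] H, u * q = q * u → u * p = p * u) →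
        y * q ∈ D ∧ cm J (y * q) ζ = 0 := by
      intro q hq hqp hqζ heq hyq hql hqu
      have hqq : q * q = q := hqp.isIdempotentElem
      refine ih (fun r hr => hl r (List.mem_cons_of_mem _ hr))
        (fun r hr s hs' => hc r (List.mem_cons_of_mem _ hr) s (List.mem_cons_of_mem _ hs'))
        (e * q) (mul_mem he hq) (hep.mul hqp heq) (by rw [← mul_assoc, hfe]) ?_ ?_
        (y * q) (mul_mem hy (hDM q hq)) ?_ ?_ ?_ ?_
      · rw [cm_mul hs.stdJ (hDM e he) (hDM q hq), hqζ, heζ]; simp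
      · intro r hr
        rw [mul_assoc, hql r hr, ← mul_assoc, hel r (List.mem_cons_of_mem _ hr), mul_assoc]
      · rw [IsSelfAdjoint, star_mul, hqp.isSelfAdjoint.star_eq, hsa.star_eq, hyq]
      · rw [mul_assoc, ← mul_assoc q, ← hyq, mul_assoc y, hqq, ← mul_assoc, hey]
      · intro r hr
        rw [mul_assoc, hql r hr, ← mul_assoc, hyl r (List.mem_cons_of_mem _ hr), mul_assoc]
      · intro ε hε
        obtain ⟨δ, hδ, h'⟩ := h ε hε
        refine ⟨δ, hδ, fun u hu hul => ?_⟩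
        obtain ⟨c1, c2⟩ := lq1_corner hep hqp heq hu.2.1 hu.2.2.1
        have := h' u ⟨hu.1, hu.2.1, c1, hu.2.2.2⟩ (by
          intro r hr
          rcases List.mem_cons.1 hr with rfl | hr
          · exact hqu u c2
          · exact hul r hr)
        have e1 : u * (y * q) - y * q * u = q * (u * y - y * u) := by
          rw [mul_sub, ← mul_assoc q, ← c2, ← mul_assoc q, ← hyq, hyq, mul_assoc u q]
        rw [e1, mul_apply_eq_comp]
        exact (proj_norm_le hqp _).trans this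
    have k1 := key p hp.1 hp.2.1 hp.2.2 (hel p List.mem_cons_self) (hyl p List.mem_cons_self)
      (fun r hr => hc p List.mem_cons_self r (List.mem_cons_of_mem _ hr)) (fun u hu => hu)
    have k2 := key (1 - p) (sub_mem (one_mem D) hp.1) hp.2.1.one_sub
      (by rw [cm_sub, cm_one hs.stdJ.invol, hp.2.2, sub_zero])
      (by rw [mul_sub, sub_mul, hel p List.mem_cons_self]; simp)
      (by rw [mul_sub, sub_mul, hyl p List.mem_cons_self]; simp)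
      (fun r hr => by
        rw [mul_sub, sub_mul, hc p List.mem_cons_self r (List.mem_cons_of_mem _ hr)]; simp)
      (fun u hu => by
        rw [mul_sub, sub_mul, mul_one, one_mul] at hu
        exact sub_right_injective hu)
    have e1 : y = y * p + y * (1 - p) := by rw [← mul_add]; simp
    refine ⟨by rw [e1]; exact add_mem k1.1 k2.1, ?_⟩
    rw [e1, cm_add, k1.2, k2.2, add_zero]

theorem bh_global (hDM : ∀ x ∈ D, x ∈ M) (hB : BH M D J Z f) (hζ : ζ ∈ Z) (hs : StdV M J ζ)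
    (hf : f ∈ D) (hfp : IsStarProjection f) (hfζ : cm J f ζ = 0) (hl : CL D f l)
    (hlζ : ∀ p ∈ l, cm J p ζ = 0) {y : H →L[ℂ] H} (hy : y ∈ M) (hsa : IsSelfAdjoint y)
    (hfy : f * y = y) (hyl : ∀ p ∈ l, y * p = p * y)
    (h : ∀ ε : ℝ, 0 < ε → ∃ δ : ℝ, 0 < δ ∧ ∀ u, UApp D J ζ f δ u → (∀ p ∈ l, u * p = p * u) →
      ‖(u * y - y * u) ζ‖ ≤ ε) : y ∈ D ∧ cm J y ζ = 0 := by
  refine lq1_global hDM hB hζ hs l (fun p hp => ⟨(hl.1 p hp).1, (hl.1 p hp).2.1, hlζ p hp⟩) hl.2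
    f hf hfp hfp.isIdempotentElem hfζ (fun p hp => ?_) y hy hsa hfy hyl h
  obtain ⟨-, h1, h2⟩ := hl.1 p hp
  have h3 := congrArg star h2
  rw [star_mul, h1.isSelfAdjoint.star_eq, hfp.isSelfAdjoint.star_eq] at h3
  rw [h2, h3]

/-- limit of the points of minimal norm of a decreasing sequence of closed convex sets -/
theorem lq1_min (K : ℕ → Set H) (hcl : ∀ n, IsClosed (K n)) (hcv : ∀ n, Convex ℝ (K n))
    (hanti : Antitone K) {ξ : H} (hξ : ∀ n, ξ ∈ K n) :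
    ∃ v, (∀ n, v ∈ K n) ∧ ∀ ε : ℝ, 0 < ε → ∃ n, ∀ c ∈ K n, ‖c‖ ≤ ‖v‖ → ‖c - v‖ ≤ ε := by
  choose v hvK hv using fun n => exists_min_norm (K n) ⟨ξ, hξ n⟩ (hcl n) (hcv n)
  have hmono : Monotone fun n => ‖v n‖ ^ 2 := fun n m hnm => by
    have := hv n (v m) (hanti hnm (hvK m))
    show ‖v n‖ ^ 2 ≤ ‖v m‖ ^ 2
    nlinarith [sq_nonneg ‖v m - v n‖]
  have hbd : BddAbove (Set.range fun n => ‖v n‖ ^ 2) := by
    refine ⟨‖ξ‖ ^ 2, ?_⟩
    rintro _ ⟨n, rfl⟩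
    have := hv n ξ (hξ n)
    show ‖v n‖ ^ 2 ≤ ‖ξ‖ ^ 2
    nlinarith [sq_nonneg ‖ξ - v n‖]
  obtain ⟨R, hT, hle⟩ : ∃ R : ℝ, Tendsto (fun n => ‖v n‖ ^ 2) atTop (𝓝 R) ∧
      ∀ n, ‖v n‖ ^ 2 ≤ R :=
    ⟨_, tendsto_atTop_ciSup hmono hbd, fun n => le_ciSup hbd n⟩
  have hsm : ∀ ε : ℝ, 0 < ε → ∃ n, R - ‖v n‖ ^ 2 ≤ ε ^ 2 := by
    intro ε hε
    obtain ⟨n, hn⟩ := (hT.eventually (lt_mem_nhds (show R - ε ^ 2 < R by nlinarith))).exists
    exact ⟨n, by linarith⟩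
  have hC : CauchySeq v := by
    rw [Metric.cauchySeq_iff']
    intro ε hε
    obtain ⟨N, hN⟩ := hsm (ε / 2) (by linarith)
    refine ⟨N, fun m hm => ?_⟩
    rw [dist_eq_norm]
    have h1 := hv N (v m) (hanti hm (hvK m))
    have h2 : ‖v m - v N‖ ≤ ε / 2 :=
      le_of_sq_le_sq (by linarith [hle m]) (by linarith)
    linarith
  obtain ⟨w, hw⟩ := cauchySeq_tendsto_of_complete hC
  have hwK : ∀ n, w ∈ K n := fun n =>
    (hcl n).mem_of_tendsto hw (eventually_atTop.2 ⟨n, fun m hm => hanti hm (hvK m)⟩)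
  have hwR : ‖w‖ ^ 2 ≤ R := le_of_tendsto' (hw.norm.pow 2) hle
  refine ⟨w, hwK, fun ε hε => ?_⟩
  obtain ⟨n, hn⟩ := hsm (ε / 2) (by linarith)
  refine ⟨n, fun c hc hcw => ?_⟩
  have hc2 : ‖c‖ ^ 2 ≤ ‖w‖ ^ 2 := by gcongr
  have h1 : ‖c - v n‖ ≤ ε / 2 :=
    le_of_sq_le_sq (by linarith [hv n c hc]) (by linarith)
  have h2 : ‖w - v n‖ ≤ ε / 2 :=
    le_of_sq_le_sq (by linarith [hv n w (hwK n)]) (by linarith)
  calc ‖c - w‖ = ‖(c - v n) - (w - v n)‖ := by congr 1; abel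
    _ ≤ ‖c - v n‖ + ‖w - v n‖ := norm_sub_le _ _
    _ ≤ ε := by linarith

/-- almost commuting unitaries of the corner which commute with the list -/
def lq1U (D : VonNeumannAlgebra H) (J : H ≃ₗᵢ⋆[ℂ] H) (ζ : H) (f : H →L[ℂ] H)
    (l : List (H →L[ℂ] H)) (δ : ℝ) : Set (H →L[ℂ] H) :=
  {u | UApp D J ζ f δ u ∧ ∀ p ∈ l, u * p = p * u}

/-- bounded selfadjoint elements of the corner which commute with the list -/
def lq1Y (M : VonNeumannAlgebra H) (f : H →L[ℂ] H) (l : List (H →L[ℂ] H)) (K : ℝ) :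
    Set (H →L[ℂ] H) :=
  {a | a ∈ M ∧ IsSelfAdjoint a ∧ f * a = a ∧ (∀ p ∈ l, a * p = p * a) ∧ ‖a‖ ≤ K}

theorem lq1_norm_unitary {u : H →L[ℂ] H} (hu : u ∈ unitary (H →L[ℂ] H)) (ξ : H) :
    ‖u ξ‖ = ‖ξ‖ := iso_norm_apply (Unitary.star_mul_self_of_mem hu) ξ

theorem lq1U_one (hs : StdV M J ζ) {δ : ℝ} (hδ : 0 ≤ δ) : 1 ∈ lq1U D J ζ f l δ :=
  ⟨⟨one_mem D, one_mem _, one_mul _, by rw [cm_one hs.stdJ.invol, norm_zero]; exact hδ⟩,
    fun p _ => by rw [one_mul, mul_one]⟩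

theorem lq1U_mono {δ δ' : ℝ} (h : δ ≤ δ') : lq1U D J ζ f l δ ⊆ lq1U D J ζ f l δ' :=
  fun _ hu => ⟨⟨hu.1.1, hu.1.2.1, hu.1.2.2.1, hu.1.2.2.2.trans h⟩, hu.2⟩

theorem lq1_norm_cm_star (hs : StdV M J ζ) (u : H →L[ℂ] H) :
    ‖cm J (star u) ζ‖ = ‖cm J u ζ‖ := by
  rw [cm_star hs.stdJ.invol hs.fix, norm_neg, J.norm_map]

theorem lq1U_star (hs : StdV M J ζ) (hfp : IsStarProjection f) (hl : CL D f l) {δ : ℝ}
    {u : H →L[ℂ] H} (hu : u ∈ lq1U D J ζ f l δ) : star u ∈ lq1U D J ζ f l δ := by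
  refine ⟨⟨star_mem hu.1.1, Unitary.star_mem hu.1.2.1,
    (unitary_corner_comm hfp hu.1.2.1 hu.1.2.2.1).2.1, ?_⟩, fun p hp => ?_⟩
  · rw [lq1_norm_cm_star hs]; exact hu.1.2.2.2
  · have := congrArg star (hu.2 p hp)
    rw [star_mul, star_mul, (hl.1 p hp).2.1.isSelfAdjoint.star_eq] at this
    exact this.symm

theorem lq1U_mul (hDM : ∀ x ∈ D, x ∈ M) (hs : StdV M J ζ) {δ δ' : ℝ} {u w : H →L[ℂ] H}
    (hw : w ∈ lq1U D J ζ f l δ) (hu : u ∈ lq1U D J ζ f l δ') :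
    w * u ∈ lq1U D J ζ f l (δ + δ') := by
  refine ⟨⟨mul_mem hw.1.1 hu.1.1, mul_mem hw.1.2.1 hu.1.2.1, ?_, ?_⟩, fun p hp => ?_⟩
  · rw [mul_assoc, hu.1.2.2.1, hw.1.2.2.1]
  · rw [cm_mul hs.stdJ (hDM w hw.1.1) (hDM u hu.1.1)]
    refine (norm_add_le _ _).trans ?_
    rw [lq1_norm_unitary hw.1.2.1, lq1_norm_unitary (rm_unitary hs.stdJ.invol hu.1.2.1)]
    linarith [hw.1.2.2.2, hu.1.2.2.2]
  · rw [mul_assoc, hu.2 p hp, ← mul_assoc, hw.2 p hp, mul_assoc]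

theorem lq1Y_conj (hDM : ∀ x ∈ D, x ∈ M) (hs : StdV M J ζ) (hfp : IsStarProjection f)
    (hl : CL D f l) {δ K : ℝ} {u a : H →L[ℂ] H} (hu : u ∈ lq1U D J ζ f l δ)
    (ha : a ∈ lq1Y M f l K) : u * a * star u ∈ lq1Y M f l K := by
  have hu' := lq1U_star hs hfp hl hu
  refine ⟨mul_mem (mul_mem (hDM u hu.1.1) ha.1) (hDM _ hu'.1.1), ha.2.1.conjugate u, ?_,
    fun p hp => ?_, ?_⟩
  · rw [← mul_assoc, ← mul_assoc, ← (unitary_corner_comm hfp hu.1.2.1 hu.1.2.2.1).1,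
      mul_assoc u f, ha.2.2.1]
  · rw [mul_assoc, hu'.2 p hp, ← mul_assoc, mul_assoc u a, ha.2.2.2.1 p hp, ← mul_assoc,
      hu.2 p hp, mul_assoc p u a, mul_assoc p]
  · have h1 : ‖u‖ ≤ 1 := iso_norm_le (Unitary.star_mul_self_of_mem hu.1.2.1)
    have h2 : ‖star u‖ ≤ 1 := by rw [norm_star]; exact h1
    calc ‖u * a * star u‖ ≤ ‖u‖ * ‖a‖ * ‖star u‖ :=
          (norm_mul_le _ _).trans (mul_le_mul_of_nonneg_right (norm_mul_le _ _) (norm_nonneg _))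
      _ ≤ 1 * ‖a‖ * 1 := by gcongr
      _ ≤ K := by rw [one_mul, mul_one]; exact ha.2.2.2.2

theorem lq1_ad_sym (hs : StdV M J ζ) {u a : H →L[ℂ] H} (huM : u ∈ M)
    (hu : u ∈ unitary (H →L[ℂ] H)) (ha : a ∈ M) :
    ‖ad J u (a ζ + rm J a ζ) - ((u * a * star u) ζ + rm J (u * a * star u) ζ)‖ ≤
      2 * ‖a‖ * ‖cm J u ζ‖ := by
  have hJ := hs.stdJ
  have hu' : star u ∈ M := star_mem huM
  have e1 : ad J u (a ζ + rm J a ζ) - ((u * a * star u) ζ + rm J (u * a * star u) ζ) =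
      rm J (star u) (rm J a (cm J u ζ)) - u (a (cm J (star u) ζ)) := by
    rw [rm_mul hJ.invol, rm_mul hJ.invol]
    simp only [ad, cm, mul_apply_eq_comp, map_add, map_sub]
    rw [← hJ.comm_apply ha hu', hJ.comm_apply huM hu' (rm J a ζ), hJ.comm_apply huM ha]
    abel
  rw [e1]
  refine (norm_sub_le _ _).trans ?_
  rw [lq1_norm_unitary hu, lq1_norm_unitary (rm_unitary hJ.invol (Unitary.star_mem hu))]
  have h1 := (rm J a).le_opNorm (cm J u ζ)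
  have h2 := a.le_opNorm (cm J (star u) ζ)
  rw [norm_rm] at h1
  rw [lq1_norm_cm_star hs] at h2
  linarith

theorem lq1_convex (K b : ℝ) :
    Convex ℝ {c : H | ∃ a ∈ lq1Y M f l K, ‖c - (a ζ + rm J a ζ)‖ ≤ b} := by
  rintro c ⟨a, ha, hc⟩ c' ⟨a', ha', hc'⟩ s t hs ht hst
  refine ⟨(s : ℂ) • a + (t : ℂ) • a', ⟨add_mem (vn_smul_mem _ ha.1) (vn_smul_mem _ ha'.1), ?_, ?_,
    fun p hp => ?_, ?_⟩, ?_⟩
  · rw [IsSelfAdjoint, star_add, star_smul, star_smul, ha.2.1.star_eq, ha'.2.1.star_eq]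
    simp
  · rw [mul_add, mul_smul_comm, mul_smul_comm, ha.2.2.1, ha'.2.2.1]
  · rw [mul_add, add_mul, mul_smul_comm, mul_smul_comm, smul_mul_assoc, smul_mul_assoc,
      ha.2.2.2.1 p hp, ha'.2.2.2.1 p hp]
  · refine (norm_add_le _ _).trans ?_
    rw [norm_smul, norm_smul, Complex.norm_real, Complex.norm_real, Real.norm_of_nonneg hs,
      Real.norm_of_nonneg ht]
    calc s * ‖a‖ + t * ‖a'‖ ≤ s * K + t * K := by
          gcongr
          exacts [ha.2.2.2.2, ha'.2.2.2.2]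
      _ = K := by rw [← add_mul, hst, one_mul]
  · have e1 : s • c + t • c' - (((s : ℂ) • a + (t : ℂ) • a') ζ +
        rm J ((s : ℂ) • a + (t : ℂ) • a') ζ) =
        (s : ℂ) • (c - (a ζ + rm J a ζ)) + (t : ℂ) • (c' - (a' ζ + rm J a' ζ)) := by
      rw [rm_add, rm_smul, rm_smul, ← Complex.coe_smul, ← Complex.coe_smul]
      simp only [add_apply, smul_apply, smul_add, smul_sub]
      abel
    rw [e1]
    refine (norm_add_le _ _).trans ?_
    rw [norm_smul, norm_smul, Complex.norm_real, Complex.norm_real, Real.norm_of_nonneg hs,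
      Real.norm_of_nonneg ht]
    calc s * ‖c - (a ζ + rm J a ζ)‖ + t * ‖c' - (a' ζ + rm J a' ζ)‖ ≤ s * b + t * b := by gcongr
      _ = b := by rw [← add_mul, hst, one_mul]

theorem lq1_preimage {H₂ : Type} [NormedAddCommGroup H₂] [InnerProductSpace ℂ H₂]
    (T : H →L[ℂ] H₂) {S : Set H} {C : Set H₂} (hcl : IsClosed C) (hcv : Convex ℝ C)
    (h : ∀ c ∈ S, T c ∈ C) : ∀ c ∈ closedConvexHull ℝ S, T c ∈ C := by
  intro c hc
  exact closedConvexHull_min (t := T ⁻¹' C) h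
    (hcv.linear_preimage ((T.restrictScalars ℝ : H →L[ℝ] H₂) : H →ₗ[ℝ] H₂))
    (hcl.preimage T.continuous) hc

theorem lq1_wot {ξ v : H} {K : ℝ} (hJ : ∀ ξ, J (J ξ) = ξ) (a : ℕ → (H →L[ℂ] H))
    (ha : ∀ n, a n ∈ lq1Y M f l K) (hv : Tendsto (fun n => a n ζ + rm J (a n) ζ) atTop (𝓝 v)) :
    ∃ y ∈ lq1Y M f l K, y ζ + rm J y ζ = v := by
  obtain ⟨y, hy, hw⟩ := exists_wot_ultra (Ultrafilter.of (atTop : Filter ℕ)) a K
    fun n => (ha n).2.2.2.2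
  refine ⟨y, ⟨mem_of_wot hw (Eventually.of_forall fun n => (ha n).1),
    sa_of_wot hw (Eventually.of_forall fun n => (ha n).2.1), ?_,
    fun p hp => commute_of_wot hw (Eventually.of_forall fun n => (ha n).2.2.2.1 p hp), hy⟩, ?_⟩
  · have := mul_eq_of_wot hw (a := f) (b := 1) (c := 1) (d := 1)
      (Eventually.of_forall fun n => by rw [(ha n).2.2.1, one_mul])
    simpa using this
  · refine ext_inner_left ℂ fun η => ?_
    have h1 : Tendsto (fun n => ⟪η, a n ζ + rm J (a n) ζ⟫_ℂ) (Ultrafilter.of (atTop : Filter ℕ))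
        (𝓝 ⟪η, y ζ + rm J y ζ⟫_ℂ) := by
      simp only [inner_add_right, inner_rm hJ]
      exact (hw _ _).add (hw _ _)
    have h2 : Tendsto (fun n => ⟪η, a n ζ + rm J (a n) ζ⟫_ℂ) (Ultrafilter.of (atTop : Filter ℕ))
        (𝓝 ⟪η, v⟫_ℂ) :=
      (tendsto_const_nhds.inner hv).mono_left (Ultrafilter.of_le _)
    exact tendsto_nhds_unique h1 h2

theorem lq1_sqrt {a b δ : ℝ} (hb : 0 ≤ b) (hδ : 0 < δ) (h : 2 * a ^ 2 - δ ^ 2 ≤ b ^ 2) :
    √2 * a - δ ≤ b := by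
  have h2 : (√2 * a) ^ 2 = 2 * a ^ 2 := by rw [mul_pow, Real.sq_sqrt (by norm_num)]
  have h3 : √2 * a ≤ b + δ := le_of_sq_le_sq (by rw [h2]; nlinarith) (by linarith)
  linarith

/-- decomposition by the point of minimal norm -/
theorem lq_decomp (hDM : ∀ x ∈ D, x ∈ M) (hB : BH M D J Z f) (hζ : ζ ∈ Z) (hs : StdV M J ζ)
    (hf : f ∈ D) (hfp : IsStarProjection f) (hfζ : cm J f ζ = 0) (hl : CL D f l)
    (hlζ : ∀ p ∈ l, cm J p ζ = 0) {x : H →L[ℂ] H} (hx : x ∈ M) (hsa : IsSelfAdjoint x)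
    (hfx : f * x = x) (hxl : ∀ p ∈ l, x * p = p * x) :
    ∃ y ∈ D, IsSelfAdjoint y ∧ f * y = y ∧ (∀ p ∈ l, y * p = p * y) ∧ cm J y ζ = 0 ∧
      ⟪y ζ, x ζ + rm J x ζ - y ζ⟫_ℂ = 0 ∧
      ∀ δ : ℝ, 0 < δ → ∃ u, UApp D J ζ f δ u ∧ (∀ p ∈ l, u * p = p * u) ∧
        √2 * ‖x ζ + rm J x ζ - y ζ‖ - δ ≤ ‖cm J u (x ζ + rm J x ζ)‖ := by
  have hJ := hs.stdJ
  have hxY : x ∈ lq1Y M f l ‖x‖ := ⟨hx, hsa, hfx, hxl, le_rfl⟩
  obtain ⟨ξ, hξ⟩ : ∃ ξ, ξ = x ζ + rm J x ζ := ⟨_, rfl⟩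
  rw [← hξ]
  obtain ⟨S, hS⟩ : ∃ S : ℝ → Set H,
      ∀ δ c, c ∈ S δ ↔ ∃ u ∈ lq1U D J ζ f l δ, c = ad J u ξ :=
    ⟨fun δ => {c | ∃ u ∈ lq1U D J ζ f l δ, c = ad J u ξ}, fun _ _ => Iff.rfl⟩
  have hKmono : ∀ δ δ' : ℝ, δ ≤ δ' →
      closedConvexHull ℝ (S δ) ⊆ closedConvexHull ℝ (S δ') := by
    intro δ δ' h
    refine (closedConvexHull ℝ).monotone fun c hc => ?_
    obtain ⟨u, hu, e⟩ := (hS δ c).1 hc
    exact (hS δ' c).2 ⟨u, lq1U_mono h hu, e⟩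
  have hξK : ∀ δ : ℝ, 0 ≤ δ → ξ ∈ closedConvexHull ℝ (S δ) := fun δ hδ =>
    subset_closedConvexHull ((hS δ ξ).2 ⟨1, lq1U_one hs hδ, by simp [ad, rm_one hJ.invol]⟩)
  obtain ⟨v, hvK, hv⟩ := lq1_min (fun n : ℕ => closedConvexHull ℝ (S (1 / ((n : ℝ) + 1))))
    (fun n => isClosed_closedConvexHull) (fun n => convex_closedConvexHull)
    (fun n m hnm => hKmono _ _ (Nat.one_div_le_one_div hnm)) (ξ := ξ)
    (fun n => hξK _ (by positivity))
  have hvK' : ∀ δ : ℝ, 0 < δ → v ∈ closedConvexHull ℝ (S δ) := by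
    intro δ hδ
    obtain ⟨n, hn⟩ := exists_nat_one_div_lt hδ
    exact hKmono _ _ hn.le (hvK n)
  have hinv : ∀ ε : ℝ, 0 < ε → ∃ δ : ℝ, 0 < δ ∧ ∀ w ∈ lq1U D J ζ f l δ, ‖ad J w v - v‖ ≤ ε := by
    intro ε hε
    obtain ⟨n, hn⟩ := hv ε hε
    refine ⟨1 / ((n : ℝ) + 1) / 2, by positivity, fun w hw =>
      hn _ ?_ (norm_ad_unitary hJ hw.1.2.1 v).le⟩
    refine lq1_preimage (w * rm J (star w)) (S := S (1 / ((n : ℝ) + 1) / 2))
      isClosed_closedConvexHull convex_closedConvexHull (fun c hc => ?_) v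
      (hvK' _ (by positivity))
    obtain ⟨u, hu, rfl⟩ := (hS _ c).1 hc
    refine subset_closedConvexHull ((hS _ _).2 ⟨w * u, ?_, ?_⟩)
    · have := lq1U_mul hDM hs hw hu
      rwa [add_halves] at this
    · rw [ad_mul hJ (hDM w hw.1.1) (hDM u hu.1.1)]
      rfl
  have happ : ∀ n : ℕ, ∃ a ∈ lq1Y M f l ‖x‖,
      ‖a ζ + rm J a ζ - v‖ ≤ (2 * ‖x‖ + 1) * (1 / ((n : ℝ) + 1)) := by
    intro n
    have hpos : (0 : ℝ) < 1 / ((n : ℝ) + 1) := by positivity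
    have h1 : v ∈ closure {c : H | ∃ a ∈ lq1Y M f l ‖x‖,
        ‖c - (a ζ + rm J a ζ)‖ ≤ 2 * ‖x‖ * (1 / ((n : ℝ) + 1))} := by
      refine closedConvexHull_min (fun c hc => subset_closure ?_) (lq1_convex _ _).closure
        isClosed_closure (hvK n)
      obtain ⟨u, hu, rfl⟩ := (hS _ c).1 hc
      refine ⟨u * x * star u, lq1Y_conj hDM hs hfp hl hu hxY, ?_⟩
      rw [hξ]
      refine (lq1_ad_sym hs (hDM u hu.1.1) hu.1.2.1 hx).trans ?_
      gcongr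
      exact hu.1.2.2.2
    obtain ⟨c, ⟨a, ha, hc⟩, hd⟩ := Metric.mem_closure_iff.1 h1 _ hpos
    refine ⟨a, ha, ?_⟩
    rw [dist_eq_norm] at hd
    calc ‖a ζ + rm J a ζ - v‖ = ‖(v - c) + (c - (a ζ + rm J a ζ))‖ := by
          rw [← norm_neg]; congr 1; abel
      _ ≤ ‖v - c‖ + ‖c - (a ζ + rm J a ζ)‖ := norm_add_le _ _
      _ ≤ _ := by linarith
  choose a ha hav using happ
  have hlim : Tendsto (fun n => a n ζ + rm J (a n) ζ) atTop (𝓝 v) := by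
    rw [tendsto_iff_norm_sub_tendsto_zero]
    refine squeeze_zero (fun n => norm_nonneg _) hav ?_
    simpa using (tendsto_one_div_add_atTop_nhds_zero_nat (𝕜 := ℝ)).const_mul (2 * ‖x‖ + 1)
  obtain ⟨y, hy, hyv⟩ := lq1_wot (ξ := ξ) hJ.invol a ha hlim
  have hyD : y ∈ D ∧ cm J y ζ = 0 := by
    refine bh_global hDM hB hζ hs hf hfp hfζ hl hlζ hy.1 hy.2.1 hy.2.2.1 hy.2.2.2.1 fun ε hε => ?_
    obtain ⟨δ, hδ, hw⟩ := hinv (ε / 2) (by linarith)
    have hpos : 0 < ε / 2 / (2 * ‖y‖ + 1) := by positivity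
    refine ⟨min δ (ε / 2 / (2 * ‖y‖ + 1)), lt_min hδ hpos, fun u hu hul => ?_⟩
    have hw' := lq1U_star hs hfp hl (⟨hu, hul⟩ : u ∈ lq1U D J ζ f l _)
    have hwM : star u ∈ M := hDM _ hw'.1.1
    have h1 := hw _ (lq1U_mono (min_le_left _ _) hw')
    have h2 := lq1_ad_sym hs hwM hw'.1.2.1 hy.1
    have h3 : 2 * ‖y‖ * ‖cm J (star u) ζ‖ ≤ ε / 2 := by
      have h4 : ‖cm J (star u) ζ‖ ≤ ε / 2 / (2 * ‖y‖ + 1) := hw'.1.2.2.2.trans (min_le_right _ _)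
      rw [le_div_iff₀ (by positivity)] at h4
      nlinarith [norm_nonneg (cm J (star u) ζ)]
    have hz : y - star u * y * star (star u) ∈ M :=
      sub_mem hy.1 (mul_mem (mul_mem hwM hy.1) (star_mem hwM))
    have h5 := hs.norm_le_sym hz
    have e1 : u * y - y * u = u * (y - star u * y * star (star u)) := by
      rw [star_star, mul_sub, ← mul_assoc, ← mul_assoc, Unitary.mul_star_self_of_mem hu.2.1,
        one_mul]
    rw [e1, mul_apply_eq_comp, lq1_norm_unitary hu.2.1]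
    refine h5.trans ?_
    rw [hyv] at h2
    have e2 : (y - star u * y * star (star u)) ζ + rm J (y - star u * y * star (star u)) ζ =
        (ad J (star u) v - ((star u * y * star (star u)) ζ +
          rm J (star u * y * star (star u)) ζ)) - (ad J (star u) v - v) := by
      rw [rm_sub, sub_apply, sub_apply]
      nth_rewrite 3 [← hyv]
      abel
    rw [e2]
    refine (norm_sub_le _ _).trans ?_
    linarith
  have hyζ : ((2 : ℂ) • y) ζ = v := by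
    have := hyD.2
    rw [cm, sub_eq_zero] at this
    rw [← hyv, ← this, smul_apply, two_smul]
  have horth : ⟪v, v⟫_ℂ = ⟪v, ξ⟫_ℂ := by
    refine eq_of_forall_dist_le fun ε hε => ?_
    obtain ⟨δ, hδ, hw⟩ := hinv (ε / (‖ξ‖ + 1)) (by positivity)
    refine lq1_preimage (innerSL ℂ v) (S := S δ) (C := Metric.closedBall ⟪v, ξ⟫_ℂ ε)
      Metric.isClosed_closedBall (convex_closedBall _ _) (fun c hc => ?_) v (hvK' δ hδ)
    obtain ⟨u, hu, rfl⟩ := (hS _ c).1 hc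
    have hw' := lq1U_star hs hfp hl hu
    have h1 := hw _ hw'
    have h2 := inner_ad hJ (hDM _ hw'.1.1) v ξ
    rw [star_star] at h2
    rw [Metric.mem_closedBall, dist_eq_norm, innerSL_apply_apply, ← h2, ← inner_sub_left]
    refine (norm_inner_le_norm _ _).trans ?_
    rw [le_div_iff₀ (by positivity)] at h1
    nlinarith [norm_nonneg (ad J (star u) v - v)]
  refine ⟨(2 : ℂ) • y, vn_smul_mem _ hyD.1, ?_, ?_, fun p hp => ?_, ?_, ?_, fun δ hδ => ?_⟩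
  · rw [IsSelfAdjoint, star_smul, hy.2.1.star_eq]; simp
  · rw [mul_smul_comm, hy.2.2.1]
  · rw [mul_smul_comm, smul_mul_assoc, hy.2.2.2.1 p hp]
  · rw [cm_smul, hyD.2, smul_zero]
  · rw [hyζ, inner_sub_right, horth, sub_self]
  · rw [hyζ]
    have hre : (⟪ξ, v⟫_ℂ).re = ‖v‖ ^ 2 := by
      rw [← inner_conj_symm, ← horth, Complex.conj_re]
      exact inner_self_eq_norm_sq (𝕜 := ℂ) v
    have hex : ∃ u ∈ lq1U D J ζ f l δ, (⟪ξ, ad J u ξ⟫_ℂ).re < ‖v‖ ^ 2 + δ ^ 2 / 2 := by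
      by_contra hcon
      have h1 := lq1_preimage (innerSL ℂ ξ) (S := S δ)
        (C := {z : ℂ | ‖v‖ ^ 2 + δ ^ 2 / 2 ≤ z.re})
        (isClosed_le continuous_const Complex.continuous_re) (convex_halfSpace_re_ge _)
        (fun c hc => by
          obtain ⟨u, hu, rfl⟩ := (hS _ c).1 hc
          exact not_lt.1 fun h => hcon ⟨u, hu, h⟩) v (hvK' δ hδ)
      have h2 : ‖v‖ ^ 2 + δ ^ 2 / 2 ≤ (⟪ξ, v⟫_ℂ).re := h1
      nlinarith
    obtain ⟨u, hu, hlt⟩ := hex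
    refine ⟨u, hu.1, hu.2, lq1_sqrt (norm_nonneg _) hδ ?_⟩
    rw [← norm_cm_unitary hJ (hDM u hu.1.1) hu.1.2.1, norm_sub_rev (ad J u ξ),
      norm_sub_sq (𝕜 := ℂ) ξ (ad J u ξ), norm_sub_sq (𝕜 := ℂ) ξ v, norm_ad_unitary hJ hu.1.2.1]
    simp only [RCLike.re_to_complex]
    rw [hre]
    linarith

end Pool.Agent.P.MP_5d580a_an
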