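import Pool.Agent.P.MP_5d580a_an.LQ1
import Pool.Agent.P.MP_5d580a_an.Cut
import Pool.Agent.P.MP_5d580a_an.SpecMul
import Pool.Agent.P.MP_5d580a_an.RvD4

open scoped ComplexOrder InnerProductSpace ComplexConjugate BoundedContinuousFunction
open MeasureTheory Filter Topology

set_option linter.unusedSectionVars false
set_option linter.unusedVariables false

noncomputable section

namespace Pool.Agent.P.MP_5d580a_an

variable {H : Type} [NormedAddCommGroup H] [InnerProductSpace ℂ H] [CompleteSpace H]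

variable {M D : VonNeumannAlgebra H} {J : H ≃ₗᵢ⋆[ℂ] H} {Z : Set H} {f : H →L[ℂ] H} {ζ : H}
  {l : List (H →L[ℂ] H)}

namespace LQ2Aux

theorem star_left {p x : H →L[ℂ] H} (hp : IsSelfAdjoint p) (hx : IsSelfAdjoint x)
    (h : p * x = x) : x * p = x := by
  have := congrArg star h
  rwa [star_mul, hp.star_eq, hx.star_eq] at this

theorem star_comm {p u : H →L[ℂ] H} (hp : IsSelfAdjoint p) (h : u * p = p * u) :
    star u * p = p * star u := by
  have := congrArg star h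
  rw [star_mul, star_mul, hp.star_eq] at this
  exact this.symm

theorem J_sym (hs : StdV M J ζ) (x : H →L[ℂ] H) :
    J (x ζ + rm J x ζ) = (star x) ζ + rm J (star x) ζ := by
  rw [map_add, J_apply hs.stdJ.invol, J_rm hs.stdJ.invol, hs.fix, add_comm]

theorem rm_fix {p : H →L[ℂ] H} (hp : IsStarProjection p) {η : H} (hJη : J η = η)
    (hη : p η = η) : rm J p η = η := by
  rw [rm_apply, hJη, hp.isSelfAdjoint.star_eq, hη, hJη]

theorem sym_corner (hJ : StdJ M J) {p x : H →L[ℂ] H} (hp : p ∈ M) (hx : x ∈ M)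
    (hc : cm J p ζ = 0) :
    (p * x * p) ζ + rm J (p * x * p) ζ = p (rm J p (x ζ + rm J x ζ)) := by
  rw [cm, sub_eq_zero] at hc
  have h1 : (p * x * p) ζ = p (rm J p (x ζ)) := by
    rw [← hJ.comm_apply hx hp, ← hc]
    rfl
  have h2 : rm J (p * x * p) ζ = p (rm J p (rm J x ζ)) := by
    rw [rm_mul hJ.invol, rm_mul hJ.invol, hJ.comm_apply hp hp, hJ.comm_apply hp hx, hc]
    rfl
  rw [h1, h2, map_add, map_add]

theorem pinchL_fix (hJ : StdJ M J) {ξ : H} : ∀ (l : List (H →L[ℂ] H)),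
    (∀ p ∈ l, p ∈ M ∧ IsStarProjection p ∧ cm J p ξ = 0) → pinchL J l ξ = ξ
  | [], _ => rfl
  | p :: l, h => by
    have ih := pinchL_fix hJ l fun q hq => h q (List.mem_cons_of_mem _ hq)
    obtain ⟨h1, h2, h3⟩ := h p List.mem_cons_self
    have : pinchL J (p :: l) ξ = pinch J p (pinchL J l ξ) := rfl
    rw [this, ih]
    exact (pinch_eq_self_iff hJ h1 h2 ξ).2 h3

theorem pinchL_norm (hJ : StdJ M J) (ξ : H) : ∀ (l : List (H →L[ℂ] H)),
    (∀ p ∈ l, p ∈ M ∧ IsStarProjection p) → ‖pinchL J l ξ‖ ≤ ‖ξ‖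
  | [], _ => le_rfl
  | p :: l, h => by
    have ih := pinchL_norm hJ ξ l fun q hq => h q (List.mem_cons_of_mem _ hq)
    obtain ⟨h1, h2⟩ := h p List.mem_cons_self
    have : pinchL J (p :: l) ξ = pinch J p (pinchL J l ξ) := rfl
    rw [this]
    exact (proj_norm_le (pinch_proj hJ h1 h2) _).trans ih

theorem exists_sa_part (hs : StdV M J ζ) {u : H →L[ℂ] H} (hu : u ∈ D) (hn : ‖u‖ ≤ 1) (ξ : H) :
    ∃ h ∈ D, IsSelfAdjoint h ∧ ‖h‖ ≤ 1 ∧ ‖cm J u ξ‖ ≤ 2 * ‖cm J h ξ‖ ∧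
      ‖cm J h ζ‖ ≤ ‖cm J u ζ‖ ∧
      ∀ S : H →L[ℂ] H, IsSelfAdjoint S → u * S = S * u → S * h = h * S := by
  obtain ⟨a, ha, b, hb, hsa, hsb, hna, hnb, e, ea, eb⟩ := exists_re_im hu
  have hst : ‖cm J (star u) ζ‖ = ‖cm J u ζ‖ := by
    rw [cm_star hs.stdJ.invol hs.fix, norm_neg, J.norm_map]
  have h1 : ‖cm J u ξ‖ ≤ ‖cm J a ξ‖ + ‖cm J b ξ‖ := by
    rw [e, cm_add, cm_smul]
    refine (norm_add_le _ _).trans ?_
    rw [norm_smul, Complex.norm_I, one_mul]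
  have h2 : ‖cm J a ζ‖ ≤ ‖cm J u ζ‖ := by
    have h := congrArg (fun z => ‖cm J z ζ‖) ea
    simp only [cm_smul, cm_add, norm_smul, Complex.norm_ofNat] at h
    have := norm_add_le (cm J u ζ) (cm J (star u) ζ)
    linarith
  have h3 : ‖cm J b ζ‖ ≤ ‖cm J u ζ‖ := by
    have h := congrArg (fun z => ‖cm J z ζ‖) eb
    simp only [cm_smul, cm_sub, norm_smul, Complex.norm_ofNat, norm_neg, Complex.norm_I,
      one_mul] at h
    have := norm_sub_le (cm J u ζ) (cm J (star u) ζ)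
    linarith
  have h4 : ∀ S : H →L[ℂ] H, IsSelfAdjoint S → u * S = S * u → S * a = a * S := by
    intro S hS hc
    have : S * ((2 : ℂ) • a) = ((2 : ℂ) • a) * S := by
      rw [ea, mul_add, add_mul, hc, star_comm hS hc]
    rw [mul_smul_comm, smul_mul_assoc] at this
    exact smul_right_injective _ (two_ne_zero (α := ℂ)) this
  have h5 : ∀ S : H →L[ℂ] H, IsSelfAdjoint S → u * S = S * u → S * b = b * S := by
    intro S hS hc
    have : S * ((2 : ℂ) • b) = ((2 : ℂ) • b) * S := by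
      rw [eb, mul_smul_comm, smul_mul_assoc, mul_sub, sub_mul, hc, star_comm hS hc]
    rw [mul_smul_comm, smul_mul_assoc] at this
    exact smul_right_injective _ (two_ne_zero (α := ℂ)) this
  rcases le_total ‖cm J a ξ‖ ‖cm J b ξ‖ with h | h
  · exact ⟨b, hb, hsb, hnb.trans hn, by linarith, h3, h5⟩
  · exact ⟨a, ha, hsa, hna.trans hn, by linarith, h2, h4⟩

theorem cl_append (hf : f ∈ D) (hfp : IsStarProjection f) (hl : CL D f l)
    {l' : List (H →L[ℂ] H)}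
    (h : ∀ p ∈ l', ∃ P ∈ D, IsStarProjection P ∧ f * P = P * f ∧ (∀ q ∈ l, q * P = P * q) ∧
      p = P * f) (hc : ∀ p ∈ l', ∀ q ∈ l', p * q = q * p) : CL D f (l' ++ l) := by
  have key : ∀ p ∈ l', ∀ q ∈ l, p * q = q * p := by
    intro p hp q hq
    obtain ⟨P, -, -, -, h4, rfl⟩ := h p hp
    obtain ⟨-, h2, h3⟩ := hl.1 q hq
    rw [mul_assoc, h3, ← mul_assoc, h4 q hq, mul_assoc,
      star_left hfp.isSelfAdjoint h2.isSelfAdjoint h3]
  refine ⟨fun p hp => ?_, fun p hp q hq => ?_⟩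
  · rcases List.mem_append.1 hp with hp | hp
    · obtain ⟨P, h1, h2, h3, -, rfl⟩ := h p hp
      refine ⟨mul_mem h1 hf, h2.mul hfp h3.symm, ?_⟩
      rw [← mul_assoc, h3, mul_assoc, hfp.isIdempotentElem.eq]
    · exact hl.1 p hp
  · rcases List.mem_append.1 hp with hp | hp <;> rcases List.mem_append.1 hq with hq | hq
    · exact hc p hp q hq
    · exact key p hp q hq
    · exact (key q hq p hp).symm
    · exact hl.2 p hp q hq

theorem arith {s c δ κ r m : ℝ} (hs : 0 ≤ s) (hc : 0 ≤ c) (hδ : 0 < δ) (hκ : δ ≤ κ)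
    (h1 : s - δ ≤ 2 * c) (h2 : c ^ 2 / 4 - κ ^ 2 / 4 ≤ m ^ 2) (h3 : s ^ 2 = r ^ 2 + m ^ 2) :
    r ≤ 31 / 32 * s + κ / 2 := by
  have h4 : s ^ 2 - 2 * δ * s ≤ 4 * c ^ 2 := by
    rcases le_total s δ with h | h
    · nlinarith
    · have : (s - δ) ^ 2 ≤ (2 * c) ^ 2 := pow_le_pow_left₀ (by linarith) h1 2
      nlinarith
  refine le_of_sq_le_sq (a := r) ?_ (by linarith)
  nlinarith [mul_nonneg hs (sub_nonneg.2 hκ), mul_nonneg hs hδ.le, sq_nonneg s]

theorem caseA (hDM : ∀ x ∈ D, x ∈ M) (hs : StdV M J ζ) (hf : f ∈ D) (hfp : IsStarProjection f)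
    (hfζ : cm J f ζ = 0) (hl : CL D f l) {ξ : H} (hJξ : J ξ = ξ) (hfξ : f ξ = ξ) {κ : ℝ}
    (hκ : 0 < κ)
    (h : ∀ δ : ℝ, 0 < δ → ∃ u, UApp D J ζ f δ u ∧ (∀ p ∈ l, u * p = p * u) ∧
      ‖ξ‖ - δ ≤ ‖cm J u ξ‖) :
    ∃ p : H →L[ℂ] H, CL D f ([p] ++ l) ∧ ‖pinch J p ζ - ζ‖ ≤ κ ∧
      ‖pinch J p ξ‖ ≤ 31 / 32 * ‖ξ‖ + κ / 2 := by
  have hJ := hs.stdJ
  obtain ⟨K, hK, hKκ⟩ : ∃ K : ℝ, 0 < K ∧ K * κ ^ 2 = 4 * ‖ξ‖ ^ 2 + κ ^ 2 :=
    ⟨(4 * ‖ξ‖ ^ 2 + κ ^ 2) / κ ^ 2, by positivity, by field_simp⟩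
  obtain ⟨δ, hδ, hδκ, hδK⟩ : ∃ δ : ℝ, 0 < δ ∧ δ ≤ κ ∧ K * δ * ‖ζ‖ ≤ κ ^ 2 / 4 := by
    have hpos : 0 < K * (‖ζ‖ + 1) := by positivity
    refine ⟨min κ (κ ^ 2 / 4 / (K * (‖ζ‖ + 1))), by positivity, min_le_left _ _, ?_⟩
    have h1 := min_le_right κ (κ ^ 2 / 4 / (K * (‖ζ‖ + 1)))
    have h2 : 0 < min κ (κ ^ 2 / 4 / (K * (‖ζ‖ + 1))) := by positivity
    rw [le_div_iff₀ hpos] at h1
    nlinarith [mul_pos hK h2]
  obtain ⟨u, ⟨huD, hu, huf, huζ⟩, hul, huξ⟩ := h δ hδ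
  have hn : ‖u‖ ≤ 1 := iso_norm_le hu.1
  obtain ⟨a, ha, hsa, hna, h1, h2, h3⟩ := exists_sa_part hs huD hn ξ
  obtain ⟨P, hP, hPc, hin⟩ := cut_proj hJ (hDM a ha) hsa hna ζ ξ hK.le
    (ε := κ ^ 2 / 8) (by positivity)
  have hPD : P ∈ D := mem_of_commute fun y hy => hPc y (commute_of_mem ha hy).symm
  have hfP : f * P = P * f :=
    hPc f (h3 f hfp.isSelfAdjoint (unitary_corner_comm hfp hu huf).1)
  have hlP : ∀ q ∈ l, q * P = P * q := fun q hq =>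
    hPc q (h3 q (hl.1 q hq).2.1.isSelfAdjoint (hul q hq))
  have hpM : P * f ∈ M := hDM _ (mul_mem hPD hf)
  have hpp : IsStarProjection (P * f) := hP.mul hfp hfP.symm
  have hP1 : ‖P‖ ≤ 1 := hP.norm_le
  have h4 : K * ‖cm J a ζ‖ * ‖ζ‖ ≤ κ ^ 2 / 4 := by
    refine le_trans ?_ hδK
    gcongr
    exact h2.trans huζ
  have h5 : ‖cm J P ξ‖ ≤ 2 * ‖ξ‖ := by
    refine (norm_cm_le P ξ).trans ?_
    nlinarith [norm_nonneg ξ]
  have h6 : ‖cm J P ξ‖ ^ 2 ≤ 4 * ‖ξ‖ ^ 2 := by nlinarith [norm_nonneg (cm J P ξ)]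
  have h7 : ‖cm J P ζ‖ ≤ κ := by
    refine le_of_sq_le_sq (a := ‖cm J P ζ‖) ?_ hκ.le
    refine le_of_mul_le_mul_left ?_ hK
    nlinarith [sq_nonneg ‖cm J a ξ‖, sq_nonneg κ]
  have h8 : cm J (P * f) ξ = cm J P ξ := by
    have e1 : rm J (P * f) ξ = rm J P ξ := by
      rw [← hfP, rm_mul hJ.invol]
      exact congrArg (rm J P) (rm_fix hfp hJξ hfξ)
    have e2 : (P * f) ξ = P ξ := congrArg P hfξ
    rw [cm, cm, e1, e2]
  refine ⟨P * f, cl_append hf hfp hl (fun p hp => ⟨P, hPD, hP, hfP, hlP, List.mem_singleton.1 hp⟩)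
    (fun p hp q hq => by rw [List.mem_singleton.1 hp, List.mem_singleton.1 hq]), ?_, ?_⟩
  · rw [norm_sub_rev, norm_sub_pinch hJ hpM hpp, cm_mul hJ (hDM P hPD) (hDM f hf), hfζ, map_zero,
      zero_add]
    exact (proj_norm_le (rm_proj hJ.invol hfp) _).trans h7
  · have e := proj_pyth (pinch_proj hJ hpM hpp) ξ
    have e' : (1 - pinch J (P * f)) ξ = ξ - pinch J (P * f) ξ := rfl
    rw [e', norm_sub_pinch hJ hpM hpp, h8] at e
    refine arith (norm_nonneg ξ) (norm_nonneg (cm J a ξ)) hδ hδκ (huξ.trans h1) ?_ e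
    nlinarith [mul_nonneg hK.le (sq_nonneg ‖cm J P ζ‖)]

theorem caseB (hDM : ∀ x ∈ D, x ∈ M) (hs : StdV M J ζ) (hf : f ∈ D) (hfp : IsStarProjection f)
    (hfζ : cm J f ζ = 0) (hl : CL D f l) {y : H →L[ℂ] H} (hy : y ∈ D) (hsa : IsSelfAdjoint y)
    (hfy : f * y = y) (hyl : ∀ p ∈ l, y * p = p * y) (hyζ : cm J y ζ = 0) {κ : ℝ} (hκ : 0 < κ) :
    ∃ l' : List (H →L[ℂ] H), CL D f (l' ++ l) ∧ pinchL J l' ζ = ζ ∧ pinchL J l' (y ζ) = y ζ ∧
      ∃ a ∈ Submodule.span ℝ {q | BCl {p | p = f ∨ p ∈ l' ++ l} q}, f * a = a ∧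
        ‖y ζ - a ζ‖ ≤ κ := by
  have hJ := hs.stdJ
  obtain ⟨E, hE⟩ := exists_mod hs
  obtain ⟨n, t, P, hP, hn⟩ := approx_by_proj hsa (ε := κ / (‖ζ‖ + 1)) (by positivity)
  have hyf : y * f = y := star_left hfp.isSelfAdjoint hsa hfy
  have hPD : ∀ k, P k ∈ D := fun k =>
    mem_of_commute fun z hz => (hP k).2 z (commute_of_mem hy hz).symm
  have hfP : ∀ k, f * P k = P k * f := fun k => (hP k).2 f (by rw [hfy, hyf])
  have hyP : ∀ k, y * P k = P k * y := fun k => (hP k).2 y rfl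
  have hPP : ∀ j k, P j * P k = P k * P j := fun j k => (hP k).2 _ (hyP j).symm
  have hlP : ∀ k, ∀ q ∈ l, q * P k = P k * q := fun k q hq => (hP k).2 q (hyl q hq).symm
  have hPζ : ∀ k, cm J (P k) ζ = 0 := fun k =>
    (hE.cm_iff_U (hDM _ (hPD k))).2 fun s => (hP k).2 _ ((hE.cm_iff_U (hDM y hy)).1 hyζ s)
  have hpM : ∀ k, P k * f ∈ M := fun k => hDM _ (mul_mem (hPD k) hf)
  have hpp : ∀ k, IsStarProjection (P k * f) := fun k => (hP k).1.mul hfp (hfP k).symm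
  have hpζ : ∀ k, cm J (P k * f) ζ = 0 := fun k => by
    rw [cm_mul hJ (hDM _ (hPD k)) (hDM f hf), hfζ, hPζ, map_zero, map_zero, add_zero]
  have hpy : ∀ k, cm J (P k * f) (y ζ) = 0 := fun k => by
    have e1 : y * (P k * f) = P k * f * y := by
      rw [← mul_assoc, hyP, mul_assoc, mul_assoc, hfy, hyf]
    have e2 : (P k * f) (y ζ) = y ((P k * f) ζ) := (congrArg (fun z : H →L[ℂ] H => z ζ) e1).symm
    have e3 := hpζ k
    rw [cm] at e3 ⊢
    rw [e2, ← hJ.comm_apply (hDM y hy) (hpM k), ← map_sub, e3, map_zero]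
  refine ⟨List.ofFn fun k => P k * f, cl_append hf hfp hl (fun p hp => ?_) (fun p hp q hq => ?_),
    pinchL_fix hJ _ fun p hp => ?_, pinchL_fix hJ _ fun p hp => ?_,
    ∑ k, t k • (P k * f), Submodule.sum_mem _ fun k _ => Submodule.smul_mem _ _
      (Submodule.subset_span (BCl.base _ (Or.inr (List.mem_append_left _ ?_)))), ?_, ?_⟩
  · obtain ⟨k, rfl⟩ := List.mem_ofFn.1 hp
    exact ⟨P k, hPD k, (hP k).1, hfP k, hlP k, rfl⟩
  · obtain ⟨k, rfl⟩ := List.mem_ofFn.1 hp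
    obtain ⟨j, rfl⟩ := List.mem_ofFn.1 hq
    have e : ∀ j k, P j * f * (P k * f) = P j * P k * f := fun j k => by
      rw [mul_assoc, ← mul_assoc f, hfP, mul_assoc (P k), hfp.isIdempotentElem.eq, mul_assoc]
    rw [e, e, hPP]
  · obtain ⟨k, rfl⟩ := List.mem_ofFn.1 hp
    exact ⟨hpM k, hpp k, hpζ k⟩
  · obtain ⟨k, rfl⟩ := List.mem_ofFn.1 hp
    exact ⟨hpM k, hpp k, hpy k⟩
  · exact List.mem_ofFn.2 ⟨k, rfl⟩
  · rw [Finset.mul_sum]
    refine Finset.sum_congr rfl fun k _ => ?_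
    rw [mul_smul_comm, ← mul_assoc, hfP, mul_assoc, hfp.isIdempotentElem.eq]
  · have e : y - ∑ k, t k • (P k * f) = (y - ∑ k, (t k : ℂ) • P k) * f := by
      rw [sub_mul, hyf, Finset.sum_mul]
      refine congrArg (fun z => y - z) (Finset.sum_congr rfl fun k _ => ?_)
      rw [smul_mul_assoc, Complex.coe_smul]
    have e' : y ζ - (∑ k, t k • (P k * f)) ζ = (y - ∑ k, (t k : ℂ) • P k) (f ζ) :=
      congrArg (fun z : H →L[ℂ] H => z ζ) e
    rw [e']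
    refine (ContinuousLinearMap.le_opNorm _ _).trans ?_
    have h1 := proj_norm_le hfp ζ
    have h2 : κ / (‖ζ‖ + 1) * (‖ζ‖ + 1) = κ := by field_simp
    calc _ ≤ κ / (‖ζ‖ + 1) * (‖ζ‖ + 1) := by
          gcongr
          linarith
      _ = κ := h2

end LQ2Aux

open LQ2Aux

theorem exists_sym_approx (hDM : ∀ x ∈ D, x ∈ M) (hs : StdV M J ζ) (hf : f ∈ D)
    (hfp : IsStarProjection f) (hfζ : cm J f ζ = 0) (hl : CL D f l)
    (hlζ : ∀ p ∈ l, cm J p ζ = 0) {η : H} (hJη : J η = η) (hfη : f η = η)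
    (hlη : ∀ p ∈ l, cm J p η = 0) {ε : ℝ} (hε : 0 < ε) :
    ∃ x ∈ M, IsSelfAdjoint x ∧ f * x = x ∧ (∀ p ∈ l, x * p = p * x) ∧
      ‖x ζ + rm J x ζ - η‖ ≤ ε := by
  have hJ := hs.stdJ
  induction l with
  | nil =>
    obtain ⟨E, hE⟩ := exists_mod hs
    obtain ⟨_, ⟨x, hx, rfl⟩, hd⟩ := Metric.dense_iff.1 hE.dense_sym η ε hε |>.imp
      fun _ h => h.symm
    rw [Metric.mem_ball, dist_eq_norm] at hd
    obtain ⟨a, ha, -, -, hsa, -, -, -, -, ea, -⟩ := exists_re_im hx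
    have h1 : ‖a ζ + rm J a ζ - η‖ ≤ ε := by
      have e : (2 : ℂ) • (a ζ + rm J a ζ - η) =
          (x ζ + rm J x ζ - η) + J (x ζ + rm J x ζ - η) := by
        have e1 : (2 : ℂ) • a ζ = x ζ + (star x) ζ := congrArg (fun z : H →L[ℂ] H => z ζ) ea
        have e2 : (2 : ℂ) • rm J a ζ = rm J x ζ + rm J (star x) ζ := by
          have := congrArg (fun z : H →L[ℂ] H => rm J z ζ) ea
          simp only [rm_smul, rm_add] at this
          exact this
        rw [map_sub, J_sym hs, hJη, smul_sub, smul_add, e1, e2, two_smul]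
        abel
      have h2 := norm_add_le (x ζ + rm J x ζ - η) (J (x ζ + rm J x ζ - η))
      rw [← e, norm_smul, J.norm_map, Complex.norm_ofNat] at h2
      linarith
    refine ⟨f * a * f, mul_mem (mul_mem (hDM f hf) ha) (hDM f hf), ?_, ?_, by simp, ?_⟩
    · rw [IsSelfAdjoint, star_mul, star_mul, hfp.isSelfAdjoint.star_eq, hsa.star_eq, mul_assoc]
    · rw [← mul_assoc, ← mul_assoc, hfp.isIdempotentElem.eq]
    · have e : η = f (rm J f η) := by rw [rm_fix hfp hJη hfη, hfη]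
      rw [sym_corner hJ (hDM f hf) ha hfζ, e, ← map_sub, ← map_sub]
      exact (proj_norm_le hfp _).trans ((proj_norm_le (rm_proj hJ.invol hfp) _).trans h1)
  | cons p l ih =>
    obtain ⟨x, hx, hsa, hfx, hxl, hn⟩ := ih
      ⟨fun q hq => hl.1 q (List.mem_cons_of_mem _ hq),
        fun q hq r hr => hl.2 q (List.mem_cons_of_mem _ hq) r (List.mem_cons_of_mem _ hr)⟩
      (fun q hq => hlζ q (List.mem_cons_of_mem _ hq))
      (fun q hq => hlη q (List.mem_cons_of_mem _ hq))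
    obtain ⟨hpD, hp, hfp'⟩ := hl.1 p List.mem_cons_self
    have hpM := hDM p hpD
    have hqM : 1 - p ∈ M := sub_mem (one_mem M) hpM
    have hq := hp.one_sub
    have hpf : p * f = p := star_left hfp.isSelfAdjoint hp.isSelfAdjoint hfp'
    have hpp := hp.isIdempotentElem.eq
    refine ⟨p * x * p + (1 - p) * x * (1 - p),
      add_mem (mul_mem (mul_mem hpM hx) hpM) (mul_mem (mul_mem hqM hx) hqM), ?_, ?_, ?_, ?_⟩
    · rw [IsSelfAdjoint, star_add, star_mul, star_mul, star_mul, star_mul,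
        hp.isSelfAdjoint.star_eq, hq.isSelfAdjoint.star_eq, hsa.star_eq, mul_assoc, mul_assoc]
    · have e : f * (1 - p) = (1 - p) * f := by rw [mul_sub, sub_mul, hfp', hpf, mul_one, one_mul]
      rw [mul_add, ← mul_assoc, ← mul_assoc, hfp', ← mul_assoc, ← mul_assoc, e,
        mul_assoc (1 - p) f, hfx]
    · intro q hq'
      rcases List.mem_cons.1 hq' with rfl | hq'
      · rw [add_mul, mul_add, mul_assoc _ q q, hpp, mul_assoc _ (1 - q) q, hp.one_sub_mul_self,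
          mul_zero, ← mul_assoc, ← mul_assoc, hpp, ← mul_assoc, ← mul_assoc, hp.mul_one_sub_self,
          zero_mul, zero_mul]
      · have c1 : Commute p q := hl.2 p List.mem_cons_self q (List.mem_cons_of_mem _ hq')
        have c2 : Commute x q := hxl q hq'
        have c3 : Commute (1 - p) q := (Commute.one_left q).sub_left c1
        exact (((c1.mul_left c2).mul_left c1).add_left ((c3.mul_left c2).mul_left c3)).eq
    · have hc := hlζ p List.mem_cons_self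
      have hc' : cm J (1 - p) ζ = 0 := by rw [cm_sub, cm_one hJ.invol, hc, sub_zero]
      have e : (p * x * p + (1 - p) * x * (1 - p)) ζ + rm J (p * x * p + (1 - p) * x * (1 - p)) ζ =
          pinch J p (x ζ + rm J x ζ) := by
        have e1 : pinch J p (x ζ + rm J x ζ) = p (rm J p (x ζ + rm J x ζ)) +
            (1 - p) (rm J (1 - p) (x ζ + rm J x ζ)) := rfl
        rw [e1, ← sym_corner hJ hpM hx hc, ← sym_corner hJ hqM hx hc', rm_add,
          add_apply, add_apply]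
        abel
      have e2 := (pinch_eq_self_iff hJ hpM hp η).2 (hlη p List.mem_cons_self)
      rw [e, ← e2, ← map_sub]
      exact (proj_norm_le (pinch_proj hJ hpM hp) _).trans hn

/-- one contraction step of the local quantisation -/
theorem lq_step (hDM : ∀ x ∈ D, x ∈ M) (hB : BH M D J Z f) (hζ : ζ ∈ Z) (hs : StdV M J ζ)
    (hf : f ∈ D) (hfp : IsStarProjection f) (hfζ : cm J f ζ = 0) (hl : CL D f l)
    (hlζ : ∀ p ∈ l, cm J p ζ = 0) {η : H} (hJη : J η = η) (hfη : f η = η)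
    (hlη : ∀ p ∈ l, cm J p η = 0) {κ : ℝ} (hκ : 0 < κ) :
    ∃ l' : List (H →L[ℂ] H), CL D f (l' ++ l) ∧ ‖pinchL J l' ζ - ζ‖ ≤ κ ∧
      ∃ a ∈ Submodule.span ℝ {q | BCl {p | p = f ∨ p ∈ l' ++ l} q}, f * a = a ∧
        ‖pinchL J l' η - a (pinchL J l' ζ)‖ ≤ 31 / 32 * ‖η‖ + κ := by
  have hJ := hs.stdJ
  obtain ⟨x, hx, hsa, hfx, hxl, hn⟩ := exists_sym_approx hDM hs hf hfp hfζ hl hlζ hJη hfη hlη
    (ε := κ / 4) (by linarith)
  obtain ⟨y, hy, hysa, hfy, hyl, hyζ, -, hu⟩ :=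
    lq_decomp hDM hB hζ hs hf hfp hfζ hl hlζ hx hsa hfx hxl
  have hJξ : J (x ζ + rm J x ζ) = x ζ + rm J x ζ := by rw [J_sym hs, hsa.star_eq]
  have hfξ : f (x ζ + rm J x ζ) = x ζ + rm J x ζ := by
    have e1 : f (x ζ) = x ζ := congrArg (fun z : H →L[ℂ] H => z ζ) hfx
    have e2 : f (rm J x ζ) = rm J x ζ := by
      have e3 := hfζ
      rw [cm, sub_eq_zero] at e3
      rw [hJ.comm_apply (hDM f hf) hx, e3]
      have e4 := rm_mul hJ.invol f x
      rw [hfx] at e4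
      exact (congrArg (fun z : H →L[ℂ] H => z ζ) e4).symm
    rw [map_add, e1, e2]
  generalize x ζ + rm J x ζ = ξ at hn hu hJξ hfξ
  have hξη : ‖ξ‖ ≤ ‖η‖ + κ / 4 := by
    have := norm_sub_norm_le ξ η
    linarith
  rcases le_total ‖ξ‖ (√2 * ‖ξ - y ζ‖) with hc | hc
  · obtain ⟨p, h1, h2, h3⟩ := caseA hDM hs hf hfp hfζ hl hJξ hfξ hκ fun δ hδ => by
      obtain ⟨u, u1, u2, u3⟩ := hu δ hδ
      exact ⟨u, u1, u2, by linarith⟩
    have e : ∀ γ, pinchL J [p] γ = pinch J p γ := fun γ => rfl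
    obtain ⟨p1, p2, -⟩ := h1.1 p (by simp)
    refine ⟨[p], h1, by rw [e]; exact h2, 0, Submodule.zero_mem _, mul_zero f, ?_⟩
    rw [e, zero_apply, sub_zero]
    have h4 := proj_norm_le (pinch_proj hJ (hDM p p1) p2) (ξ - η)
    rw [map_sub, norm_sub_rev] at h4
    have h5 := norm_sub_norm_le (pinch J p η) (pinch J p ξ)
    linarith
  · obtain ⟨l', h1, h2, h3, a, ha, hfa, h4⟩ :=
      caseB hDM hs hf hfp hfζ hl hy hysa hfy hyl hyζ (half_pos hκ)
    refine ⟨l', h1, by rw [h2, sub_self, norm_zero]; exact hκ.le, a, ha, hfa, ?_⟩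
    have hl' : ∀ p ∈ l', p ∈ M ∧ IsStarProjection p := fun p hp =>
      ⟨hDM p (h1.1 p (List.mem_append_left _ hp)).1, (h1.1 p (List.mem_append_left _ hp)).2.1⟩
    have e : pinchL J l' η - a (pinchL J l' ζ) =
        pinchL J l' (η - ξ) + pinchL J l' (ξ - y ζ) + (y ζ - a ζ) := by
      rw [map_sub, map_sub, h2, h3]
      abel
    have h5 := pinchL_norm hJ (η - ξ) l' hl'
    have h6 := pinchL_norm hJ (ξ - y ζ) l' hl'
    have h7 : (32 / 31 : ℝ) ≤ √2 := Real.le_sqrt_of_sq_le (by norm_num)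
    have h8 : 32 / 31 * ‖ξ - y ζ‖ ≤ √2 * ‖ξ - y ζ‖ := by gcongr
    rw [norm_sub_rev] at h5
    rw [e]
    refine (norm_add₃_le).trans ?_
    linarith

end Pool.Agent.P.MP_5d580a_an
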