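import Pool.Agent.P.MP_5d580a_an.LQ2

open scoped ComplexOrder InnerProductSpace ComplexConjugate BoundedContinuousFunction
open MeasureTheory Filter Topology

set_option linter.unusedSectionVars false
set_option linter.unusedVariables false

noncomputable section

namespace Pool.Agent.P.MP_5d580a_an

variable {H : Type} [NormedAddCommGroup H] [InnerProductSpace ℂ H] [CompleteSpace H]

variable {M D : VonNeumannAlgebra H} {J : H ≃ₗᵢ⋆[ℂ] H} {Z : Set H} {f : H →L[ℂ] H} {ζ : H}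
  {l : List (H →L[ℂ] H)}

section

variable {S S' : Set (H →L[ℂ] H)} {a p q x : H →L[ℂ] H} {ξ η θ : H} {l' : List (H →L[ℂ] H)}

theorem lq3_mono (h : S ⊆ S') (hq : BCl S q) : BCl S' q := by
  induction hq with
  | base q hq => exact .base q (h hq)
  | one => exact .one
  | mul q r _ _ h1 h2 => exact .mul q r h1 h2
  | compl q _ h1 => exact .compl q h1

theorem lq3_mem (h : ∀ p ∈ S, p ∈ D) (hq : BCl S q) : q ∈ D := by
  induction hq with
  | base q hq => exact h q hq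
  | one => exact one_mem D
  | mul q r _ _ h1 h2 => exact mul_mem h1 h2
  | compl q _ h1 => exact sub_mem (one_mem D) h1

theorem lq3_comm (h : ∀ p ∈ S, x * p = p * x) (hq : BCl S q) : x * q = q * x := by
  induction hq with
  | base q hq => exact h q hq
  | one => rw [mul_one, one_mul]
  | mul q r _ _ h1 h2 => rw [← mul_assoc, h1, mul_assoc, h2, mul_assoc]
  | compl q _ h1 => rw [mul_sub, sub_mul, h1, mul_one, one_mul]

theorem lq3_bool (h : ∀ p ∈ S, IsStarProjection p) (hc : ∀ p ∈ S, ∀ q ∈ S, p * q = q * p) :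
    BoolFam {q | BCl S q} := by
  have h1 : ∀ q r, BCl S q → BCl S r → q * r = r * q := fun q r hq hr =>
    lq3_comm (fun p hp => (lq3_comm (hc p hp) hq).symm) hr
  refine ⟨fun q hq => ?_, fun q hq r hr => h1 q r hq hr, .one, fun q hq r hr => .mul q r hq hr,
    fun q hq => .compl q hq⟩
  induction hq with
  | base q hq => exact h q hq
  | one => exact .one _
  | mul q r hq hr h2 h3 => exact h2.mul h3 (h1 q r hq hr)
  | compl q _ h2 => exact h2.one_sub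

theorem lq3_cm (hJ : StdJ M J) (h : ∀ p ∈ S, p ∈ M) (h0 : ∀ p ∈ S, cm J p ξ = 0) (hq : BCl S q) :
    cm J q ξ = 0 := by
  induction hq with
  | base q hq => exact h0 q hq
  | one => exact cm_one hJ.invol ξ
  | mul q r hq hr h1 h2 => rw [cm_mul hJ (lq3_mem h hq) (lq3_mem h hr), h1, h2, map_zero, map_zero,
      add_zero]
  | compl q _ h1 => rw [cm_sub, cm_one hJ.invol, h1, sub_zero]

theorem lq3_span {P : (H →L[ℂ] H) → Prop} (ha : a ∈ Submodule.span ℝ S) (h : ∀ p ∈ S, P p)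
    (h0 : P 0) (h1 : ∀ x y, P x → P y → P (x + y))
    (h2 : ∀ (t : ℝ) x, P x → P ((t : ℂ) • x)) : P a := by
  induction ha using Submodule.span_induction with
  | mem x hx => exact h x hx
  | zero => exact h0
  | add x y _ _ hx hy => exact h1 x y hx hy
  | smul t x _ hx => exact h2 t x hx

theorem lq3_span_mem (h : ∀ p ∈ S, p ∈ M) (ha : a ∈ Submodule.span ℝ {q | BCl S q}) : a ∈ M :=
  lq3_span (P := (· ∈ M)) ha (fun _ hq => lq3_mem h hq) (zero_mem M) (fun _ _ => add_mem)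
    fun _ _ => vn_smul_mem _

theorem lq3_span_comm (h : ∀ p ∈ S, x * p = p * x) (ha : a ∈ Submodule.span ℝ {q | BCl S q}) :
    a * x = x * a :=
  lq3_span (P := fun a => a * x = x * a) ha (fun _ hq => (lq3_comm h hq).symm) (by simp)
    (fun _ _ h1 h2 => by rw [add_mul, mul_add, h1, h2])
    fun _ _ h1 => by rw [smul_mul_assoc, mul_smul_comm, h1]

theorem lq3_J (hJ : StdJ M J) (hq : IsSelfAdjoint q) (h0 : cm J q ξ = 0) (hξ : J ξ = ξ) :
    J (q ξ) = q ξ := by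
  rw [J_apply hJ.invol, hq.star_eq, hξ]
  exact (sub_eq_zero.1 h0).symm

theorem lq3_cm_left (hJ : StdJ M J) (hp : p ∈ M) (hx : x ∈ M) (hc : x * p = p * x)
    (h0 : cm J p ξ = 0) : cm J p (x ξ) = 0 := by
  rw [cm, ← hJ.comm_apply hx hp, ← ContinuousLinearMap.mul_apply p, ← hc,
    ContinuousLinearMap.mul_apply, ← map_sub]
  exact (congrArg x h0).trans (map_zero x)

theorem lq3_cm_right (hJ : StdJ M J) (hp : p ∈ M) (hx : x ∈ M) (hc : x * p = p * x)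
    (h0 : cm J p ξ = 0) : cm J p (rm J x ξ) = 0 := by
  rw [cm, hJ.comm_apply hp hx, ← ContinuousLinearMap.mul_apply (rm J p), ← rm_mul hJ.invol, hc,
    rm_mul hJ.invol, ContinuousLinearMap.mul_apply, ← map_sub]
  exact (congrArg (rm J x) h0).trans (map_zero _)

theorem lq3_cons (p : H →L[ℂ] H) (l : List (H →L[ℂ] H)) (ξ : H) :
    pinchL J (p :: l) ξ = pinch J p (pinchL J l ξ) := rfl

theorem lq3_append (l l' : List (H →L[ℂ] H)) (ξ : H) :
    pinchL J (l ++ l') ξ = pinchL J l (pinchL J l' ξ) := by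
  simp only [pinchL, List.map_append, List.prod_append, ContinuousLinearMap.mul_apply]

theorem lq3_pinch_J (hJ : StdJ M J) (h : ∀ p ∈ l, p ∈ M ∧ IsStarProjection p) (hξ : J ξ = ξ) :
    J (pinchL J l ξ) = pinchL J l ξ := by
  induction l with
  | nil => exact hξ
  | cons p l ih =>
    rw [lq3_cons, J_pinch hJ (h p (by simp)).1 (h p (by simp)).2,
      ih fun q hq => h q (by simp [hq])]

theorem lq3_pinch_left (hJ : StdJ M J) (hx : x ∈ M) (h : ∀ p ∈ l, p ∈ M ∧ x * p = p * x) (ξ : H) :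
    x (pinchL J l ξ) = pinchL J l (x ξ) := by
  induction l with
  | nil => rfl
  | cons p l ih =>
    rw [lq3_cons, lq3_cons, ← ih fun q hq => h q (by simp [hq])]
    exact congrArg (fun T : H →L[ℂ] H => T _) (mul_pinch hJ (h p (by simp)).1 hx (h p (by simp)).2)

theorem lq3_pinch_cm (hJ : StdJ M J) (hx : x ∈ M)
    (h : ∀ p ∈ l, p ∈ M ∧ IsStarProjection p ∧ x * p = p * x) (h0 : x ∈ l ∨ cm J x ξ = 0) :
    cm J x (pinchL J l ξ) = 0 := by
  induction l with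
  | nil => exact h0.resolve_left (by simp)
  | cons p l ih =>
    obtain ⟨h1, h2, h3⟩ := h p (by simp)
    by_cases hp : x = p
    · rw [hp]
      exact cm_pinch hJ h1 h2 _
    have h4 := ih (fun q hq => h q (by simp [hq])) (h0.imp_left fun h => by simpa [hp] using h)
    rw [lq3_cons, cm, ← ContinuousLinearMap.mul_apply x, ← ContinuousLinearMap.mul_apply (rm J x),
      mul_pinch hJ h1 hx h3, rm_mul_pinch hJ h1 hx h3, ContinuousLinearMap.mul_apply,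
      ContinuousLinearMap.mul_apply, ← map_sub]
    exact (congrArg _ h4).trans (map_zero _)

theorem lq3_pinch_inner (hJ : StdJ M J)
    (h : ∀ p ∈ l, p ∈ M ∧ IsStarProjection p ∧ cm J p θ = 0) (ξ : H) :
    ⟪θ, pinchL J l ξ⟫_ℂ = ⟪θ, ξ⟫_ℂ := by
  induction l with
  | nil => rfl
  | cons p l ih =>
    obtain ⟨h1, h2, h3⟩ := h p (by simp)
    rw [lq3_cons, ← inner_star_left, (pinch_proj hJ h1 h2).isSelfAdjoint.star_eq,
      (pinch_eq_self_iff hJ h1 h2 θ).2 h3, ih fun q hq => h q (by simp [hq])]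

theorem lq3_fcomm (hfp : IsStarProjection f) (hp : IsStarProjection p) (h : f * p = p) :
    f * p = p * f := by
  have h1 := congrArg star h
  rw [star_mul, hfp.isSelfAdjoint.star_eq, hp.isSelfAdjoint.star_eq] at h1
  rw [h, h1]

/-- the state of the iteration -/
def lq3St (D : VonNeumannAlgebra H) (J : H ≃ₗᵢ⋆[ℂ] H) (Z : Set H) (f : H →L[ℂ] H) (ζ : H)
    (l : List (H →L[ℂ] H)) : Prop :=
  ζ ∈ Z ∧ cm J f ζ = 0 ∧ CL D f l ∧ ∀ p ∈ l, cm J p ζ = 0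

theorem lq3_cm_app (hJ : StdJ M J) (hDM : ∀ x ∈ D, x ∈ M) (hl : CL D f (l' ++ l))
    (h : ∀ p ∈ l, cm J p η = 0) : ∀ p ∈ l' ++ l, cm J p (pinchL J l' η) = 0 := fun p hp =>
  lq3_pinch_cm hJ (hDM p (hl.1 p hp).1) (fun q hq =>
    have hq' := List.mem_append_left l hq
    ⟨hDM q (hl.1 q hq').1, (hl.1 q hq').2.1, hl.2 p hp q hq'⟩)
    ((List.mem_append.1 hp).imp_right (h p))

theorem lq3_st (hJ : StdJ M J) (hDM : ∀ x ∈ D, x ∈ M)
    (hP : ∀ ζ ∈ Z, ∀ p ∈ D, IsStarProjection p → f * p = p → pinch J p ζ ∈ Z) (hf : f ∈ D)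
    (hfp : IsStarProjection f) (h : lq3St D J Z f ζ l) (hl : CL D f (l' ++ l)) :
    lq3St D J Z f (pinchL J l' ζ) (l' ++ l) := by
  have h1 := fun q hq => hl.1 q (List.mem_append_left l hq)
  refine ⟨?_, lq3_pinch_cm hJ (hDM f hf) (fun q hq => ⟨hDM q (h1 q hq).1, (h1 q hq).2.1,
    lq3_fcomm hfp (h1 q hq).2.1 (h1 q hq).2.2⟩) (Or.inr h.2.1), hl, lq3_cm_app hJ hDM hl h.2.2.2⟩
  clear hl
  induction l' with
  | nil => exact h.1
  | cons p l' ih =>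
    obtain ⟨h2, h3, h4⟩ := h1 p (by simp)
    exact hP _ (ih fun q hq => h1 q (by simp [hq])) p h2 h3 h4

end

theorem lq3_iter (hDM : ∀ x ∈ D, x ∈ M) (hB : BH M D J Z f) (hZ : ∀ ζ ∈ Z, StdV M J ζ)
    (hP : ∀ ζ ∈ Z, ∀ p ∈ D, IsStarProjection p → f * p = p → pinch J p ζ ∈ Z)
    (hf : f ∈ D) (hfp : IsStarProjection f) (hs : lq3St D J Z f ζ l) {η : H} (hJη : J η = η)
    (hfη : f η = η) (hlη : ∀ p ∈ l, cm J p η = 0) {κ : ℝ} (hκ : 0 < κ) (n : ℕ) :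
    ∃ l' : List (H →L[ℂ] H), CL D f (l' ++ l) ∧ ‖pinchL J l' ζ - ζ‖ ≤ n * κ ∧
      ∃ a ∈ Submodule.span ℝ {q | BCl {p | p = f ∨ p ∈ l' ++ l} q}, f * a = a ∧
        ‖pinchL J l' η - a (pinchL J l' ζ)‖ ≤ (31 / 32) ^ n * ‖η‖ + 32 * κ := by
  have hJ := (hZ ζ hs.1).stdJ
  induction n with
  | zero =>
    refine ⟨[], hs.2.2.1, by simp [pinchL], 0, zero_mem _, mul_zero f, ?_⟩
    simp [pinchL, hκ.le]
  | succ n ih =>
    obtain ⟨l', hl', h1, a, ha, hfa, h2⟩ := ih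
    have hs' := lq3_st hJ hDM hP hf hfp hs hl'
    have hS : ∀ p ∈ {p | p = f ∨ p ∈ l' ++ l}, p ∈ M ∧ IsStarProjection p ∧
        cm J p (pinchL J l' ζ) = 0 := by
      rintro p (rfl | hp)
      exacts [⟨hDM _ hf, hfp, hs'.2.1⟩, ⟨hDM p (hl'.1 p hp).1, (hl'.1 p hp).2.1, hs'.2.2.2 p hp⟩]
    have haM := lq3_span_mem (fun p hp => (hS p hp).1) ha
    have hc : ∀ {L}, CL D f (L ++ (l' ++ l)) → ∀ p ∈ L ++ (l' ++ l), a * p = p * a :=
      fun hL p hp => lq3_span_comm (by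
        rintro q (rfl | hq)
        exacts [(lq3_fcomm hfp (hL.1 p hp).2.1 (hL.1 p hp).2.2).symm,
          hL.2 p hp q (List.mem_append_right _ hq)]) ha
    have hb : BoolFam {q | BCl {p | p = f ∨ p ∈ l' ++ l} q} :=
      lq3_bool (fun p hp => (hS p hp).2.1) (by
        rintro p (rfl | hp) q (rfl | hq)
        exacts [rfl, lq3_fcomm hfp (hl'.1 q hq).2.1 (hl'.1 q hq).2.2,
          (lq3_fcomm hfp (hl'.1 p hp).2.1 (hl'.1 p hp).2.2).symm, hl'.2 p hp q hq])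
    have h3 := fun q hq => hl'.1 q (List.mem_append_left l hq)
    obtain ⟨L, hL, h4, a', ha', hfa', h5⟩ := lq_step hDM hB hs'.1 (hZ _ hs'.1) hf hfp hs'.2.1
      hl' hs'.2.2.2 (η := pinchL J l' η - a (pinchL J l' ζ)) (by
        rw [map_sub, lq3_pinch_J hJ (fun q hq => ⟨hDM q (h3 q hq).1, (h3 q hq).2.1⟩) hJη]
        refine congrArg _ (lq3_span (P := fun a => J (a _) = a _) ha (fun q hq => lq3_J hJ
          (hb.proj q hq).isSelfAdjoint (lq3_cm hJ (fun p hp => (hS p hp).1)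
            (fun p hp => (hS p hp).2.2) hq) (hZ _ hs'.1).fix) (by simp) (fun x y hx hy => ?_)
          fun t x hx => ?_)
        · rw [_root_.add_apply, map_add, hx, hy]
        · rw [_root_.smul_apply, J_rsmul, hx]) (by
        rw [map_sub, lq3_pinch_left hJ (hDM f hf) fun q hq => ⟨hDM q (h3 q hq).1,
          lq3_fcomm hfp (h3 q hq).2.1 (h3 q hq).2.2⟩, hfη, ← ContinuousLinearMap.mul_apply f, hfa])
      (fun p hp => by
        rw [cm_sub_vec, lq3_cm_app hJ hDM hl' hlη p hp, lq3_cm_left hJ (hDM p (hl'.1 p hp).1) haM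
          (hc (L := []) hl' p hp) (hs'.2.2.2 p hp), sub_zero]) hκ
    refine ⟨L ++ l', by rwa [List.append_assoc], ?_, a + a', ?_, by rw [mul_add, hfa, hfa'], ?_⟩
    · rw [lq3_append]
      refine (norm_sub_le_norm_sub_add_norm_sub _ (pinchL J l' ζ) _).trans ?_
      push_cast
      linarith
    · rw [List.append_assoc]
      exact add_mem (Submodule.span_mono (fun q hq => lq3_mono
        (fun p hp => hp.imp_right (List.mem_append_right _)) hq) ha) ha'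
    · rw [lq3_append, lq3_append, _root_.add_apply, ← sub_sub,
        lq3_pinch_left hJ haM (fun p hp => ⟨hDM p (hL.1 p (List.mem_append_left _ hp)).1,
          hc hL p (List.mem_append_left _ hp)⟩), ← map_sub, pow_succ]
      linarith

theorem lq_iter (hDM : ∀ x ∈ D, x ∈ M) (hB : BH M D J Z f) (hZ : ∀ ζ ∈ Z, StdV M J ζ)
    (hP : ∀ ζ ∈ Z, ∀ p ∈ D, IsStarProjection p → f * p = p → pinch J p ζ ∈ Z) (hζ : ζ ∈ Z)
    (hf : f ∈ D) (hfp : IsStarProjection f) (hfζ : cm J f ζ = 0) (hl : CL D f l)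
    (hlζ : ∀ p ∈ l, cm J p ζ = 0) {η : H} (hJη : J η = η) (hfη : f η = η)
    (hlη : ∀ p ∈ l, cm J p η = 0) {κ : ℝ} (hκ : 0 < κ) :
    ∃ l' : List (H →L[ℂ] H), CL D f (l' ++ l) ∧ ‖pinchL J l' ζ - ζ‖ ≤ κ ∧
      ∃ a ∈ Submodule.span ℝ {q | BCl {p | p = f ∨ p ∈ l' ++ l} q},
        ‖pinchL J l' η - a (pinchL J l' ζ)‖ ≤ κ := by
  have h0 : Tendsto (fun n : ℕ => (31 / 32 : ℝ) ^ n * ‖η‖) atTop (𝓝 0) := by
    simpa using (tendsto_pow_atTop_nhds_zero_of_lt_one (r := (31 / 32 : ℝ)) (by norm_num)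
      (by norm_num)).mul_const ‖η‖
  obtain ⟨n, hn⟩ := (h0.eventually (gt_mem_nhds (half_pos hκ))).exists
  have h1 : (0 : ℝ) < n + 64 := by positivity
  obtain ⟨l', hl', h2, a, ha, -, h3⟩ := lq3_iter hDM hB hZ hP hf hfp ⟨hζ, hfζ, hl, hlζ⟩ hJη hfη hlη
    (div_pos hκ h1) n
  have h4 := mul_div_cancel₀ κ h1.ne'
  have h5 := div_pos hκ h1
  have h6 : 0 ≤ n * (κ / (n + 64)) := by positivity
  exact ⟨l', hl', by linarith, a, ha, by linarith⟩

theorem lq3_final (hJ : StdJ M J) {𝔅 : Set (H →L[ℂ] H)} (hb : BoolFam 𝔅) (hM : ∀ q ∈ 𝔅, q ∈ M)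
    (hf : f ∈ 𝔅) (hc : ∀ q ∈ 𝔅, cm J q ζ = 0) (hζ : J ζ = ζ)
    (hn : ∀ z ∈ M, ‖z ζ‖ ≤ ‖z ζ + rm J z ζ‖)
    (h : ∀ θ, J θ = θ → f θ = θ → (∀ q ∈ 𝔅, cm J q θ = 0) →
      (∀ a ∈ Submodule.span ℝ 𝔅, ⟪θ, a ζ⟫_ℂ = 0) → θ = 0) : Good M J 𝔅 (f ζ) := by
  have hfp := hb.proj f hf
  have h1 : ∀ q ∈ 𝔅, cm J q (f ζ) = 0 := fun q hq =>
    lq3_cm_left hJ (hM q hq) (hM f hf) (hb.comm f hf q hq) (hc q hq)
  have h2 := lq3_J hJ hfp.isSelfAdjoint (hc f hf) hζ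
  refine ⟨hb, hM, h1, fun T hT hsa hTq h0 => ?_⟩
  have h3 : rm J T (f ζ) = J (T (f ζ)) := by rw [rm_apply, hsa.star_eq, h2]
  have h4 : f (f ζ) = f ζ := congrArg (fun S : H →L[ℂ] H => S ζ) hfp.isIdempotentElem.eq
  have h5 : f (T (f ζ) + rm J T (f ζ)) = T (f ζ) + rm J T (f ζ) := by
    rw [map_add, hJ.comm_apply (hM f hf) hT, ← ContinuousLinearMap.mul_apply f T, ← hTq f hf,
      ContinuousLinearMap.mul_apply, h4]
  have h6 := h (T (f ζ) + rm J T (f ζ)) (by rw [h3, map_add, hJ.invol, add_comm]) h5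
    (fun q hq => by
      rw [cm_add_vec, lq3_cm_left hJ (hM q hq) hT (hTq q hq) (h1 q hq),
        lq3_cm_right hJ (hM q hq) hT (hTq q hq) (h1 q hq), add_zero])
    fun a ha => lq3_span (P := fun a => ⟪_, a ζ⟫_ℂ = 0) ha (fun q hq => by
      have h7 : ⟪T (f ζ), q (f ζ)⟫_ℂ = 0 := by
        rw [← hsa.star_eq, inner_star_left]
        exact h0 q hq
      rw [← h5, ← inner_star_right, hfp.isSelfAdjoint.star_eq, ← ContinuousLinearMap.mul_apply f q,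
        hb.comm f hf q hq, ContinuousLinearMap.mul_apply, inner_add_left, h7, h3,
        ← lq3_J hJ (hb.proj q hq).isSelfAdjoint (h1 q hq) h2, inner_J, inner_eq_zero_symm.1 h7,
        add_zero]) (by simp)
      (fun x y hx hy => by rw [_root_.add_apply, inner_add_right, hx, hy, add_zero])
      fun t x hx => by rw [_root_.smul_apply, inner_smul_right, hx, mul_zero]
  have h7 := hn (T * f) (mul_mem hT (hM f hf))
  rw [show rm J (T * f) ζ = rm J T (f ζ) by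
    rw [hTq f hf, rm_mul hJ.invol, ContinuousLinearMap.mul_apply, sub_eq_zero.1 (hc f hf)],
    ContinuousLinearMap.mul_apply, h6, norm_zero] at h7
  exact norm_le_zero_iff.1 h7

/-- local quantisation lemma -/
theorem lq [TopologicalSpace.SeparableSpace H] (hDM : ∀ x ∈ D, x ∈ M) (hB : BH M D J Z f)
    (hZ : ∀ ζ ∈ Z, StdV M J ζ)
    (hP : ∀ ζ ∈ Z, ∀ p ∈ D, IsStarProjection p → f * p = p → pinch J p ζ ∈ Z) (hζ : ζ ∈ Z)
    (hf : f ∈ D) (hfp : IsStarProjection f) (hfζ : cm J f ζ = 0) (hl : CL D f l)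
    (hlζ : ∀ p ∈ l, cm J p ζ = 0) {κ : ℝ} (hκ : 0 < κ) :
    ∃ ζ' ∈ closure Z, ∃ 𝔅 : Set (H →L[ℂ] H), (∀ q ∈ 𝔅, q ∈ D) ∧ f ∈ 𝔅 ∧ (∀ p ∈ l, p ∈ 𝔅) ∧
      ‖ζ' - ζ‖ ≤ κ ∧ Good M J 𝔅 (f ζ') := by
  have hJ := (hZ ζ hζ).stdJ
  obtain ⟨d, hd⟩ := TopologicalSpace.exists_dense_seq H
  have hcl : ∀ {l}, CL D f l → ∀ p ∈ f :: l, ∀ q ∈ f :: l,
      p ∈ D ∧ IsStarProjection p ∧ q * p = p * q := fun hl p hp q hq => by
    have h1 := fun p hp => lq3_fcomm hfp (hl.1 p hp).2.1 (hl.1 p hp).2.2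
    obtain h | h := List.mem_cons.1 hp <;> obtain h' | h' := List.mem_cons.1 hq
    exacts [h ▸ ⟨hf, hfp, by rw [h']⟩, h ▸ ⟨hf, hfp, (h1 q h').symm⟩,
      h' ▸ ⟨(hl.1 p h).1, (hl.1 p h).2.1, h1 p h⟩, ⟨(hl.1 p h).1, (hl.1 p h).2.1, hl.2 q h' p h⟩]
  have step : ∀ (n : ℕ) (s : {s : H × List (H →L[ℂ] H) // lq3St D J Z f s.1 s.2}),
      ∃ s' : {s : H × List (H →L[ℂ] H) // lq3St D J Z f s.1 s.2}, ∃ l',
        s'.1 = (pinchL J l' s.1.1, l' ++ s.1.2) ∧ ‖s'.1.1 - s.1.1‖ ≤ κ / 2 / 2 ^ n ∧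
        ∃ a ∈ Submodule.span ℝ {q | BCl {p | p = f ∨ p ∈ s'.1.2} q},
          ‖pinchL J l' (f (pinchL J (f :: s.1.2) (d n.unpair.1 + J (d n.unpair.1)))) -
            a s'.1.1‖ ≤ κ / 2 / 2 ^ n := by
    rintro n ⟨⟨ζ, l⟩, hs⟩
    have h1 := hcl hs.2.2.1
    have h2 : ∀ q ∈ f :: l, cm J q (pinchL J (f :: l) (d n.unpair.1 + J (d n.unpair.1))) = 0 :=
      fun q hq => lq3_pinch_cm hJ (hDM q (h1 q hq q hq).1)
        (fun p hp => ⟨hDM p (h1 p hp q hq).1, (h1 p hp q hq).2⟩) (Or.inl hq)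
    obtain ⟨l', hl', h3, a, ha, h4⟩ := lq_iter hDM hB hZ hP hs.1 hf hfp hs.2.1 hs.2.2.1 hs.2.2.2
      (lq3_J hJ hfp.isSelfAdjoint (h2 f (by simp)) (lq3_pinch_J hJ
        (fun p hp => ⟨hDM p (h1 p hp p hp).1, (h1 p hp p hp).2.1⟩)
        (by rw [map_add, hJ.invol, add_comm])))
      (congrArg (fun S : H →L[ℂ] H => S _) hfp.isIdempotentElem.eq)
      (fun p hp => lq3_cm_left hJ (hDM p (hs.2.2.1.1 p hp).1) (hDM f hf)
        (h1 p (by simp [hp]) f (by simp)).2.2 (h2 p (by simp [hp])))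
      (κ := κ / 2 / 2 ^ n) (by positivity)
    exact ⟨⟨(_, _), lq3_st hJ hDM hP hf hfp hs hl'⟩, l', rfl, h3, a, ha, h4⟩
  choose F L h1 h2 a ha h3 using step
  obtain ⟨s, hs0, hs⟩ : ∃ s : ℕ → {s : H × List (H →L[ℂ] H) // lq3St D J Z f s.1 s.2},
      (s 0).1 = (ζ, l) ∧ ∀ n, s (n + 1) = F n (s n) :=
    ⟨fun n => Nat.rec ⟨(ζ, l), hζ, hfζ, hl, hlζ⟩ F n, rfl, fun _ => rfl⟩
  have hz : ∀ n, (s (n + 1)).1.1 = pinchL J (L n (s n)) (s n).1.1 := fun n => by rw [hs, h1]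
  have hL : ∀ n, (s (n + 1)).1.2 = L n (s n) ++ (s n).1.2 := fun n => by rw [hs, h1]
  have hd' : ∀ n, dist (s n).1.1 (s (n + 1)).1.1 ≤ κ / 2 / 2 ^ n := fun n => by
    rw [dist_eq_norm', hs]
    exact h2 n _
  obtain ⟨ζ', hζ'⟩ := cauchySeq_tendsto_of_complete (cauchySeq_of_le_geometric_two hd')
  have hmono : Monotone fun n => {p | p ∈ f :: (s n).1.2} := monotone_nat_of_le_succ fun n p hp => by
    rw [hL]
    exact List.mem_cons.2 ((List.mem_cons.1 hp).imp_right (List.mem_append_right _))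
  have hS : ∀ p ∈ ⋃ n, {p | p ∈ f :: (s n).1.2}, ∀ q ∈ ⋃ n, {p | p ∈ f :: (s n).1.2},
      p ∈ D ∧ IsStarProjection p ∧ q * p = p * q := fun p hp q hq => by
    obtain ⟨n, hn⟩ := Set.mem_iUnion.1 hp
    obtain ⟨m, hm⟩ := Set.mem_iUnion.1 hq
    exact hcl (s (max n m)).2.2.2.1 p (hmono (le_max_left n m) hn) q (hmono (le_max_right n m) hm)
  have hD := fun p hp => (hS p hp p hp).1
  have hcz : ∀ {g g' : H → H}, Continuous g → Continuous g' → (∀ᶠ n in atTop,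
      g (s n).1.1 = g' (s n).1.1) → g ζ' = g' ζ' := fun hg hg' h =>
    tendsto_nhds_unique_of_eventuallyEq ((hg.tendsto _).comp hζ') ((hg'.tendsto _).comp hζ') h
  have hfS : f ∈ ⋃ n, {p | p ∈ f :: (s n).1.2} := Set.mem_iUnion.2 ⟨0, by simp⟩
  have hLS : ∀ n, ∀ p ∈ L n (s n), p ∈ ⋃ n, {p | p ∈ f :: (s n).1.2} := fun n p hp =>
    Set.mem_iUnion.2 ⟨n + 1, by simp [hL, hp]⟩
  refine ⟨ζ', mem_closure_of_tendsto hζ' (.of_forall fun n => (s n).2.1),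
    {q | BCl (⋃ n, {p | p ∈ f :: (s n).1.2}) q}, fun q hq => lq3_mem hD hq, .base f hfS,
    fun p hp => .base p (Set.mem_iUnion.2 ⟨0, by simp [hs0, hp]⟩), ?_,
    lq3_final hJ (lq3_bool (fun p hp => (hS p hp p hp).2.1) fun p hp q hq => (hS q hq p hp).2.2)
      (fun q hq => hDM q (lq3_mem hD hq)) (.base f hfS)
      (fun q hq => lq3_cm hJ (fun p hp => hDM p (hD p hp)) (fun p hp => ?_) hq)
      (hcz J.continuous continuous_id (.of_forall fun n => (hZ _ (s n).2.1).fix))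
      (fun z hz => ?_) fun θ hJθ hfθ hθ h0 => ?_⟩
  · have h := dist_le_of_le_geometric_two_of_tendsto₀ hd' hζ'
    rwa [hs0, dist_eq_norm'] at h
  · obtain ⟨n, hn⟩ := Set.mem_iUnion.1 hp
    refine hcz (continuous_cm p) continuous_const ((eventually_ge_atTop n).mono fun m hm => ?_)
    obtain rfl | h := List.mem_cons.1 (hmono hm hn)
    exacts [(s m).2.2.1, (s m).2.2.2.2 p h]
  · exact le_of_tendsto_of_tendsto' ((z.continuous.tendsto _).comp hζ').norm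
      (((z + rm J z).continuous.tendsto _).comp hζ').norm fun n => (hZ _ (s n).2.1).norm_le_sym hz
  have hθ' : ∀ p ∈ ⋃ n, {p | p ∈ f :: (s n).1.2}, p ∈ M ∧ IsStarProjection p ∧ cm J p θ = 0 :=
    fun p hp => ⟨hDM p (hD p hp), (hS p hp p hp).2.1, hθ p (.base p hp)⟩
  have h4 : ∀ b ∈ Submodule.span ℝ {q | BCl (⋃ n, {p | p ∈ f :: (s n).1.2}) q}, ∀ n,
      ⟪θ, b (s n).1.1⟫_ℂ = 0 := fun b hb n => by
    have h5 : ∀ m, ⟪θ, b (s m).1.1⟫_ℂ = ⟪θ, b (s 0).1.1⟫_ℂ := fun m => by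
      induction m with
      | zero => rfl
      | succ m ih =>
        rw [hz, lq3_pinch_left hJ (lq3_span_mem (fun p hp => (hθ' p hp).1) hb)
          (fun p hp => ⟨(hθ' p (hLS m p hp)).1,
            lq3_span_comm (fun q hq => (hS q hq p (hLS m p hp)).2.2) hb⟩),
          lq3_pinch_inner hJ fun p hp => hθ' p (hLS m p hp), ih]
    rw [h5, ← h0 b hb]
    exact tendsto_nhds_unique (tendsto_const_nhds.congr fun m => (h5 m).symm)
      (tendsto_const_nhds.inner ((b.continuous.tendsto _).comp hζ'))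
  have h5 : ∀ n : ℕ, ‖⟪θ, d n.unpair.1 + J (d n.unpair.1)⟫_ℂ‖ ≤ ‖θ‖ * (κ / 2 / 2 ^ n) := fun n => by
    have h6 := (norm_inner_le_norm (𝕜 := ℂ) θ _).trans
      (mul_le_mul_of_nonneg_left (h3 n (s n)) (norm_nonneg θ))
    rwa [inner_sub_right, ← hs, h4 _ (Submodule.span_mono (fun q hq => lq3_mono (fun p hp =>
      Set.mem_iUnion.2 ⟨n + 1, List.mem_cons.2 (by rw [hs]; exact hp)⟩) hq) (ha n (s n))), sub_zero,
      lq3_pinch_inner hJ fun p hp => hθ' p (hLS n p hp), ← inner_star_left,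
      hfp.isSelfAdjoint.star_eq, hfθ,
      lq3_pinch_inner hJ fun p hp => hθ' p (Set.mem_iUnion.2 ⟨n, hp⟩)] at h6
  have h6 : Tendsto (fun n : ℕ => ‖θ‖ * (κ / 2 / 2 ^ n)) atTop (𝓝 0) := by
    simpa using (tendsto_const_nhds.div_atTop
      (tendsto_pow_atTop_atTop_of_one_lt one_lt_two)).const_mul ‖θ‖
  have h7 : ∀ ξ, ⟪θ, ξ + J ξ⟫_ℂ = 0 := fun ξ => hd.induction_on ξ
    (isClosed_eq (continuous_const.inner (continuous_id.add J.continuous)) continuous_const)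
    fun m => norm_le_zero_iff.1 (ge_of_tendsto' (h6.comp (tendsto_atTop_mono
      (Nat.right_le_pair m) tendsto_id)) fun k => by simpa using h5 (Nat.pair m k))
  have h8 := h7 θ
  rwa [hJθ, inner_add_right, add_self_eq_zero, inner_self_eq_zero] at h8

end Pool.Agent.P.MP_5d580a_an
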