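import Pool.Agent.P.MP_5d580a_an.SpecMul
import Pool.Agent.P.MP_5d580a_an.CalcSa

open scoped ComplexOrder InnerProductSpace ComplexConjugate BoundedContinuousFunction
open MeasureTheory Filter Topology

set_option linter.unusedSectionVars false
set_option linter.unusedVariables false

noncomputable section

namespace Pool.Agent.P.MP_5d580a_an

variable {H : Type} [NormedAddCommGroup H] [InnerProductSpace ℂ H] [CompleteSpace H]

variable {M D : VonNeumannAlgebra H} {J : H ≃ₗᵢ⋆[ℂ] H} {ζ : H} {E : SpecCalc ℝ H}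
  {f : H →L[ℂ] H} {η : ℝ}

theorem lac1_closed_convex {S T : Set H} (hT : IsClosed T) (hc : Convex ℝ T) (h : S ⊆ T) :
    closure (convexHull ℝ S) ⊆ T :=
  closure_minimal (convexHull_min h hc) hT

theorem lac1_preimage (L : H →L[ℂ] H) {T : Set H} (hT : IsClosed T) (hc : Convex ℝ T) :
    IsClosed (L ⁻¹' T) ∧ Convex ℝ (L ⁻¹' T) :=
  ⟨hT.preimage L.continuous, hc.linear_preimage (L.restrictScalars ℝ).toLinearMap⟩

theorem lac1_meas (a b : ℝ) : MeasurableSet (Set.Icc a b)ᶜ := measurableSet_Icc.compl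

theorem lac1_spec_f (hE : ModD M J ζ E) (hf : Cent M J ζ f) (hη : 0 < η) :
    SpecIn E (f ζ) (-η) η :=
  ((hE.cm_eq_zero_iff hf.1).1 hf.2.2).mono (by linarith) hη.le

theorem lac1_sig_f (hE : ModD M J ζ E) (hf : Cent M J ζ f) (t : ℝ) : E.sig t f = f := by
  have h := (hE.cm_iff_U hf.1).1 hf.2.2 t
  unfold SpecCalc.sig
  rw [h, mul_assoc, E.U_mul_neg, mul_one]

theorem lac1_sq_zero {c : H →L[ℂ] H} (hc : star c = c) (h : c * c = 0) : c = 0 := by
  have : star c * c = 0 := by rw [hc, h]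
  exact (CStarRing.star_mul_self_eq_zero_iff c).1 this

theorem gap_spec (hE : ModD M J ζ E) (hf : Cent M J ζ f) (hη : 0 < η) (hG : Gap M J ζ f η)
    {x : H →L[ℂ] H} (hx : x ∈ M) (hfx : f * x * f = x) (h : SpecIn E (x ζ) (-(5 * η)) (5 * η)) :
    SpecIn E (x ζ) (-η) η := by
  have h1 := hE.null_of_not_spI hf (s := {l | η ≤ |l| ∧ |l| ≤ 5 * η})
    (fun l hl => hG l hl.1 hl.2) hx hfx
  unfold SpecIn at h ⊢
  refine measure_mono_null (fun l hl => ?_) (measure_union_null h h1)
  simp only [Set.mem_compl_iff, Set.mem_Icc, Set.mem_union, Set.mem_ofPred_eq, not_and_or,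
    not_le] at hl ⊢
  by_cases h5 : |l| ≤ 5 * η
  · right
    refine ⟨?_, h5⟩
    rcases hl with hl | hl
    · exact le_trans (by linarith) (neg_le_abs l)
    · exact le_trans hl.le (le_abs_self l)
  · left
    rw [not_le, lt_abs] at h5
    rcases h5 with h5 | h5
    · right; exact h5
    · left; linarith

theorem exists_lacD (hE : ModD M J ζ E) (hf : Cent M J ζ f) (hη : 0 < η) (hG : Gap M J ζ f η) :
    ∃ D : VonNeumannAlgebra H,
      ∀ x, x ∈ D ↔ x ∈ M ∧ x * f = f * x ∧ SpecIn E ((f * x) ζ) (-η) η := by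
  have hff : f * f = f := hf.2.1.isIdempotentElem.eq
  have hfs : star f = f := hf.2.1.isSelfAdjoint.star_eq
  let S : StarSubalgebra ℂ (H →L[ℂ] H) :=
    { carrier := {x | x ∈ M ∧ x * f = f * x ∧ SpecIn E ((f * x) ζ) (-η) η}
      mul_mem' := by
        rintro x y ⟨hx, hxf, hxs⟩ ⟨hy, hyf, hys⟩
        have hc : x * y * f = f * (x * y) := by
          rw [mul_assoc, hyf, ← mul_assoc, hxf, mul_assoc]
        refine ⟨mul_mem hx hy, hc, ?_⟩
        have e1 : f * (x * y) = (f * x) * (f * y) := by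
          rw [mul_assoc f x (f * y), ← mul_assoc x f y, hxf, mul_assoc f x y, ← mul_assoc f f, hff]
        refine gap_spec hE hf hη hG (mul_mem hf.1 (mul_mem hx hy)) ?_ ?_
        · rw [← mul_assoc f f, hff, mul_assoc f, hc, ← mul_assoc f f, hff]
        · rw [e1, mul_apply_eq_comp]
          exact (hE.specIn_mul (mul_mem hf.1 hx) hxs hys).mono (by linarith) (by linarith)
      add_mem' := by
        rintro x y ⟨hx, hxf, hxs⟩ ⟨hy, hyf, hys⟩
        refine ⟨add_mem hx hy, by rw [add_mul, mul_add, hxf, hyf], ?_⟩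
        rw [mul_add, add_apply]
        exact E.null_add (lac1_meas _ _) hxs hys
      algebraMap_mem' := by
        intro c
        rw [Algebra.algebraMap_eq_smul_one]
        refine ⟨vn_smul_mem c (one_mem M), by simp, ?_⟩
        rw [mul_smul_comm, mul_one, smul_apply]
        exact E.null_smul (lac1_meas _ _) c (lac1_spec_f hE hf hη)
      star_mem' := by
        rintro x ⟨hx, hxf, hxs⟩
        have hc : star x * f = f * star x := by
          have := congrArg star hxf
          rw [star_mul, star_mul, hfs] at this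
          exact this.symm
        refine ⟨star_mem hx, hc, ?_⟩
        have e1 : f * star x = star (f * x) := by rw [star_mul, hfs, hc]
        have := hE.specIn_star (mul_mem hf.1 hx) hxs
        rw [neg_neg] at this
        rw [e1]
        exact this }
  have hS : ∀ x, x ∈ S ↔ x ∈ M ∧ x * f = f * x ∧ SpecIn E ((f * x) ζ) (-η) η := fun x => Iff.rfl
  refine ⟨vnOf {y | ∀ s ∈ S, s * y = y * s}, fun x => ⟨fun hx => ?_, fun hx => ?_⟩⟩
  · rw [mem_vnOf] at hx
    have hxf : f * x = x * f := (hx f fun s hs => ((hS s).1 hs).2.1).1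
    refine ⟨mem_of_commute fun y hy => (hx y fun s hs => commute_of_mem ((hS s).1 hs).1 hy).1,
      hxf.symm, ?_⟩
    rw [hxf, mul_apply_eq_comp]
    have hb := bicomm_single S (T := x) (fun y hy => (hx y hy).1) (f ζ)
    refine closure_minimal ?_ (E.isClosed_null (lac1_meas (-η) η)) hb
    rintro _ ⟨s, hs, rfl⟩
    obtain ⟨-, h2, h3⟩ := (hS s).1 hs
    rw [← h2, mul_apply_eq_comp] at h3
    exact h3
  · rw [mem_vnOf]
    intro y hy
    have hx' : x ∈ S := (hS x).2 hx
    refine ⟨(hy x hx').symm, ?_⟩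
    have := congrArg star (hy (star x) (star_mem hx'))
    rw [star_mul, star_mul, star_star] at this
    exact this

theorem lac1_f_mem (hE : ModD M J ζ E) (hf : Cent M J ζ f) (hη : 0 < η)
    (hD : ∀ x, x ∈ D ↔ x ∈ M ∧ x * f = f * x ∧ SpecIn E ((f * x) ζ) (-η) η) : f ∈ D := by
  refine (hD f).2 ⟨hf.1, rfl, ?_⟩
  rw [hf.2.1.isIdempotentElem.eq]
  exact lac1_spec_f hE hf hη

theorem lac1_mem_of (hf : Cent M J ζ f)
    (hD : ∀ x, x ∈ D ↔ x ∈ M ∧ x * f = f * x ∧ SpecIn E ((f * x) ζ) (-η) η) {x : H →L[ℂ] H}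
    (hx : x ∈ M) (hfx : f * x * f = x) (h : SpecIn E (x ζ) (-η) η) : x ∈ D ∧ f * x = x := by
  have hff : f * f = f := hf.2.1.isIdempotentElem.eq
  have h1 : f * x = x := by rw [← hfx, ← mul_assoc, ← mul_assoc, hff]
  have h2 : x * f = x := by rw [← hfx, mul_assoc, hff]
  refine ⟨(hD x).2 ⟨hx, by rw [h1, h2], ?_⟩, h1⟩
  rw [h1]
  exact h

theorem lac1_sig_mem (hE : ModD M J ζ E) (hf : Cent M J ζ f)
    (hD : ∀ x, x ∈ D ↔ x ∈ M ∧ x * f = f * x ∧ SpecIn E ((f * x) ζ) (-η) η) {x : H →L[ℂ] H}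
    (hx : x ∈ D) (hfx : f * x = x) (t : ℝ) : E.sig t x ∈ D ∧ f * E.sig t x = E.sig t x := by
  obtain ⟨h1, h2, h3⟩ := (hD x).1 hx
  refine lac1_mem_of hf hD (hE.inv t x h1) ?_ ?_
  · have : f * x * f = x := by rw [hfx, h2, hfx]
    conv_lhs => rw [← lac1_sig_f hE hf t]
    rw [← E.sig_mul, ← E.sig_mul, this]
  · rw [hfx] at h3
    rw [hE.sig_apply]
    unfold SpecIn at h3 ⊢
    rw [E.μ_U]
    exact h3

theorem lac1_win_zero (hE : ModD M J ζ E) (hf : Cent M J ζ f) (hη : 0 < η)
    (hD : ∀ x, x ∈ D ↔ x ∈ M ∧ x * f = f * x ∧ SpecIn E ((f * x) ζ) (-η) η) {y : H →L[ℂ] H}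
    (hy : y ∈ M) (hfy : f * y * f = y) (h : ∀ x ∈ D, f * x = x → x * y = y * x) {ν : ℝ}
    (hν : η / 2 < |ν|) : win E (η / 2) ν y = 0 := by
  have hδ : 0 < η / 2 := by linarith
  have hfs : star f = f := hf.2.1.isSelfAdjoint.star_eq
  have hcw : ∀ x ∈ D, f * x = x → x * win E (η / 2) ν y = win E (η / 2) ν y * x := by
    intro x hx hfx
    refine win_commute E hδ ν fun t => ?_
    obtain ⟨h1, h2⟩ := lac1_sig_mem hE hf hD hx hfx (-t)
    have := congrArg (E.sig t) (h _ h1 h2)
    rw [E.sig_mul, E.sig_mul, E.sig_sig, add_neg_cancel, E.sig_zero] at this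
    exact this
  have hw := hE.win_mem hδ ν hy
  have hfw := hE.win_corner hδ ν hf hf hfy
  have hs := hE.specIn_win hδ ν y
  generalize win E (η / 2) ν y = w at hcw hw hfw hs ⊢
  have hfw' : f * star w * f = star w := by
    have := congrArg star hfw
    rw [star_mul, star_mul, hfs, ← mul_assoc] at this
    exact this
  have hs' := hE.specIn_star hw hs
  have hff : f * f = f := hf.2.1.isIdempotentElem.eq
  have w1 : f * w = w := by rw [← hfw, ← mul_assoc, ← mul_assoc, hff]
  have w2 : w * f = w := by rw [← hfw, mul_assoc, hff]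
  have w3 : f * star w = star w := by rw [← hfw', ← mul_assoc, ← mul_assoc, hff]
  have w4 : star w * f = star w := by rw [← hfw', mul_assoc, hff]
  have ha : star w * w ∈ D ∧ f * (star w * w) = star w * w := by
    refine lac1_mem_of hf hD (mul_mem (star_mem hw) hw) ?_ ?_
    · rw [← mul_assoc, w3, mul_assoc, w2]
    · rw [mul_apply_eq_comp]
      exact (hE.specIn_mul (star_mem hw) hs' hs).mono (by linarith) (by linarith)
  have hb : w * star w ∈ D ∧ f * (w * star w) = w * star w := by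
    refine lac1_mem_of hf hD (mul_mem hw (star_mem hw)) ?_ ?_
    · rw [← mul_assoc, w1, mul_assoc, w4]
    · rw [mul_apply_eq_comp]
      exact (hE.specIn_mul hw hs hs').mono (by linarith) (by linarith)
  have c1 := hcw _ ha.1 ha.2
  have c2 := hcw _ hb.1 hb.2
  have c3 : w * star w * star w = star w * (w * star w) := by
    have := congrArg star c2
    rw [star_mul, star_mul, star_mul, star_star, star_mul, star_star] at this
    exact this.symm
  have d1 : (star w * w - w * star w) * w = 0 := by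
    rw [sub_mul, c1, mul_assoc, sub_self]
  have d2 : (star w * w - w * star w) * star w = 0 := by
    rw [sub_mul, c3, mul_assoc, sub_self]
  have e0 : star w * w - w * star w = 0 := by
    refine lac1_sq_zero (by rw [star_sub, star_mul, star_mul, star_star]) ?_
    rw [mul_sub, ← mul_assoc, ← mul_assoc, d1, d2, zero_mul, zero_mul, sub_zero]
  have e1 : ‖(star w) ζ‖ = ‖w ζ‖ := by
    have h1 := norm_sq_apply w ζ
    have h2 := norm_sq_apply (star w) ζ
    rw [star_star, ← sub_eq_zero.1 e0, ← h1] at h2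
    exact (sq_eq_sq₀ (norm_nonneg _) (norm_nonneg _)).1 h2
  refine hE.std.sepg w hw (norm_eq_zero.1 (le_antisymm ?_ (norm_nonneg _)))
  by_contra hn
  rw [not_le] at hn
  rcases lt_abs.1 hν with h1 | h1
  · have h2 := hE.le_norm_star hw hs
    rw [e1] at h2
    have h3 : 1 < Real.exp ((ν - η / 2) / 2) := Real.one_lt_exp_iff.2 (by linarith)
    nlinarith
  · have h2 := hE.norm_star_le hw hs
    rw [e1] at h2
    have h3 : Real.exp ((ν + η / 2) / 2) < 1 := Real.exp_lt_one_iff.2 (by linarith)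
    nlinarith

theorem rel_comm (hE : ModD M J ζ E) (hf : Cent M J ζ f) (hη : 0 < η) (hG : Gap M J ζ f η)
    (hD : ∀ x, x ∈ D ↔ x ∈ M ∧ x * f = f * x ∧ SpecIn E ((f * x) ζ) (-η) η) {y : H →L[ℂ] H}
    (hy : y ∈ M) (hfy : f * y * f = y) (h : ∀ x ∈ D, f * x = x → x * y = y * x) : y ∈ D := by
  have hδ : 0 < η / 2 := by linarith
  refine (lac1_mem_of hf hD hy hfy ?_).1
  unfold SpecIn
  refine measure_null_of_locally_null _ fun l hl => ?_
  refine ⟨Set.Ioo (l - η / 2) (l + η / 2),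
    mem_nhdsWithin_of_mem_nhds (Ioo_mem_nhds (by linarith) (by linarith)), ?_⟩
  refine hE.null_of_win_eq_zero hδ (lac1_win_zero hE hf hη hD hy hfy h ?_)
  simp only [Set.mem_compl_iff, Set.mem_Icc, not_and_or, not_le] at hl
  rcases hl with hl | hl
  · exact lt_of_lt_of_le (by linarith) (neg_le_abs l)
  · exact lt_of_lt_of_le (by linarith) (le_abs_self l)

theorem lac1_proj_mem (hE : ModD M J ζ E) (hf : Cent M J ζ f) (hη : 0 < η) (hG : Gap M J ζ f η)
    (hD : ∀ x, x ∈ D ↔ x ∈ M ∧ x * f = f * x ∧ SpecIn E ((f * x) ζ) (-η) η) {e P : H →L[ℂ] H}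
    (he : e ∈ D) (hep : IsStarProjection e) (hfe : f * e = e) (hP : P ∈ M)
    (hPp : IsStarProjection P) (heP : e * P = P)
    (h : ∀ x ∈ D, e * x * e = x → x * P = P * x) : P ∈ D := by
  have hfs : star f = f := hf.2.1.isSelfAdjoint.star_eq
  have hff : f * f = f := hf.2.1.isIdempotentElem.eq
  have hes : star e = e := hep.isSelfAdjoint.star_eq
  have hee : e * e = e := hep.isIdempotentElem.eq
  have hPs : star P = P := hPp.isSelfAdjoint.star_eq
  have hPP : P * P = P := hPp.isIdempotentElem.eq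
  have hPe : P * e = P := by
    have := congrArg star heP
    rwa [star_mul, hPs, hes] at this
  obtain ⟨z, hz, z1, -, -, z4, z5⟩ :=
    exists_proj_span {γ : H | ∃ x ∈ D, f * x = x ∧ ∃ ξ, γ = x (P ξ)}
  have hzs : star z = z := hz.isSelfAdjoint.star_eq
  have hzM : z ∈ M := by
    refine mem_of_commute fun y hy => z5 y ?_ ?_
    · rintro _ ⟨x, hx, hfx, ξ, rfl⟩
      refine z1 _ ⟨x, hx, hfx, y ξ, ?_⟩
      rw [← commute_apply ((hD x).1 hx).1 hy, ← commute_apply hP hy]
    · rintro _ ⟨x, hx, hfx, ξ, rfl⟩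
      refine z1 _ ⟨x, hx, hfx, (star y) ξ, ?_⟩
      rw [← commute_apply ((hD x).1 hx).1 (star_mem hy), ← commute_apply hP (star_mem hy)]
  have hfz : f * z = z := by
    have := z4 f 1 (by
      rintro _ ⟨x, hx, hfx, ξ, rfl⟩
      rw [← mul_apply_eq_comp f x, hfx, one_apply_eq_self])
    rwa [one_mul] at this
  have hzf : z * f = z := by
    have := congrArg star hfz
    rwa [star_mul, hzs, hfs] at this
  have hzD : z ∈ D := by
    refine rel_comm hE hf hη hG hD hzM (by rw [hfz, hzf]) fun x hx hfx => z5 x ?_ ?_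
    · rintro _ ⟨x', hx', hfx', ξ, rfl⟩
      exact z1 _ ⟨x * x', mul_mem hx hx', by rw [← mul_assoc, hfx], ξ, rfl⟩
    · rintro _ ⟨x', hx', hfx', ξ, rfl⟩
      have h1 : f * star x = star x := by
        have := congrArg star (((hD x).1 hx).2.1.trans hfx)
        rwa [star_mul, hfs] at this
      exact z1 _ ⟨star x * x', mul_mem (star_mem hx) hx', by rw [← mul_assoc, h1], ξ, rfl⟩
  have h1 : (1 - P) * e * z = 0 := by
    have := z4 ((1 - P) * e) 0 (by
      rintro _ ⟨x, hx, hfx, ξ, rfl⟩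
      have hc := h (e * x * e) (mul_mem (mul_mem he hx) he) (by
        rw [← mul_assoc, ← mul_assoc, hee, mul_assoc (e * x), hee])
      have : (1 - P) * e * x * P = 0 := by
        calc (1 - P) * e * x * P = (1 - P) * (e * x * e * P) := by
              rw [mul_assoc (e * x) e P, heP]; simp only [mul_assoc]
          _ = 0 := by rw [hc, ← mul_assoc, sub_mul, one_mul, hPP, sub_self, zero_mul]
      rw [zero_apply, ← mul_apply_eq_comp,
        ← mul_apply_eq_comp, this, zero_apply])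
    rwa [zero_mul] at this
  have h2 : z * P = P := by
    ext ξ
    refine z1 _ ⟨f, lac1_f_mem hE hf hη hD, hff, ξ, ?_⟩
    have hfP : f * P = P := by
      calc f * P = f * (e * P) := by rw [heP]
        _ = P := by rw [← mul_assoc, hfe, heP]
    show P ξ = (f * P) ξ
    rw [hfP]
  have h3 : P * z = P := by
    have := congrArg star h2
    rwa [star_mul, hzs, hPs] at this
  have h4 : P = e * z := by
    rw [sub_mul, one_mul, hPe, sub_mul, h3, sub_eq_zero] at h1
    exact h1.symm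
  rw [h4]
  exact mul_mem he hzD

theorem rel_comm_corner (hE : ModD M J ζ E) (hf : Cent M J ζ f) (hη : 0 < η) (hG : Gap M J ζ f η)
    (hD : ∀ x, x ∈ D ↔ x ∈ M ∧ x * f = f * x ∧ SpecIn E ((f * x) ζ) (-η) η) {e y : H →L[ℂ] H}
    (he : e ∈ D) (hep : IsStarProjection e) (hfe : f * e = e) (hy : y ∈ M) (hsa : IsSelfAdjoint y)
    (hey : e * y = y) (h : ∀ x ∈ D, e * x * e = x → x * y = y * x) : y ∈ D := by
  have hes : star e = e := hep.isSelfAdjoint.star_eq
  have hee : e * e = e := hep.isIdempotentElem.eq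
  have hye : y * e = y := by
    have := congrArg star hey
    rwa [star_mul, hsa.star_eq, hes] at this
  have hcl : y ∈ closure (D : Set (H →L[ℂ] H)) := by
    rw [Metric.mem_closure_iff]
    intro ε hε
    obtain ⟨n, t, P, hP, hn⟩ := approx_by_proj hsa (half_pos hε)
    refine ⟨(∑ k, (t k : ℂ) • P k) * e, ?_, ?_⟩
    · rw [Finset.sum_mul]
      refine sum_mem fun k _ => ?_
      rw [smul_mul_assoc]
      refine vn_smul_mem _ ?_
      have hPM : P k ∈ M := mem_of_commute fun y' hy' => (hP k).2 y' (commute_of_mem hy hy').symm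
      have hc : e * P k = P k * e := (hP k).2 e (by rw [hey, hye])
      refine lac1_proj_mem hE hf hη hG hD he hep hfe (mul_mem hPM ((hD e).1 he).1)
        ((hP k).1.mul hep (by exact hc.symm)) (by rw [← mul_assoc, hc, mul_assoc, hee]) ?_
      intro x hx hexe
      have x1 : e * x = x := by rw [← hexe, ← mul_assoc, ← mul_assoc, hee]
      have x2 : x * e = x := by rw [← hexe, mul_assoc, hee]
      have x3 := (hP k).2 x (h x hx hexe)
      rw [← mul_assoc, x3, mul_assoc, x2, mul_assoc, x1]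
    · rw [dist_eq_norm]
      have : y - (∑ k, (t k : ℂ) • P k) * e = (y - ∑ k, (t k : ℂ) • P k) * e := by
        rw [sub_mul, hye]
      rw [this]
      calc _ ≤ ‖y - ∑ k, (t k : ℂ) • P k‖ * ‖e‖ := norm_mul_le _ _
        _ ≤ ε / 2 * 1 := mul_le_mul hn hep.norm_le (norm_nonneg _) (half_pos hε).le
        _ < ε := by linarith
  exact (vn_isClosed D).closure_subset hcl

theorem exists_lac_vec (hE : ModD M J ζ E) (hf : Cent M J ζ f) (hη : 0 < η) (hG : Gap M J ζ f η)
    (hD : ∀ x, x ∈ D ↔ x ∈ M ∧ x * f = f * x ∧ SpecIn E ((f * x) ζ) (-η) η) :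
    ∃ ζ₁, StdV M J ζ₁ ∧ ‖f ζ₁ - f ζ‖ ≤ (Real.exp (η / 2) - 1) * ‖f ζ‖ ∧
      ∀ x ∈ D, f * x = x → cm J x ζ₁ = 0 := by
  have hJ := hE.std.stdJ
  have hJi := hJ.invol
  have hfs : star f = f := hf.2.1.isSelfAdjoint.star_eq
  have hff : f * f = f := hf.2.1.isIdempotentElem.eq
  have hfD := lac1_f_mem hE hf hη hD
  have hDM : ∀ x ∈ D, x ∈ M := fun x hx => ((hD x).1 hx).1
  have h1f : cm J (1 - f) ζ = 0 := by rw [cm_sub, cm_one hJi, hf.2.2, sub_zero]
  let S : Set H := {γ | ∃ u ∈ D, u ∈ unitary (H →L[ℂ] H) ∧ u * (1 - f) = 1 - f ∧ γ = ad J u ζ}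
  have hSne : S.Nonempty := ⟨_, 1, one_mem D, one_mem _, one_mul _, rfl⟩
  obtain ⟨v, hv, hmin⟩ := exists_min_norm (closure (convexHull ℝ S))
    (hSne.mono ((subset_convexHull ℝ S).trans subset_closure)) isClosed_closure
    (convex_convexHull ℝ S).closure
  have hcm : ∀ u ∈ D, u ∈ unitary (H →L[ℂ] H) → u * (1 - f) = 1 - f → cm J u v = 0 := by
    intro u hu huu huf
    obtain ⟨c1, c2⟩ := lac1_preimage (u * rm J (star u)) (T := closure (convexHull ℝ S))
      isClosed_closure (convex_convexHull ℝ S).closure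
    have hin : ad J u v ∈ closure (convexHull ℝ S) := by
      refine lac1_closed_convex c1 c2 ?_ hv
      rintro _ ⟨u', hu', huu', huf', rfl⟩
      refine subset_closure (subset_convexHull ℝ S ⟨u * u', mul_mem hu hu', mul_mem huu huu',
        by rw [mul_assoc, huf', huf], ?_⟩)
      rw [ad_mul hJ (hDM u hu) (hDM u' hu')]
      rfl
    have h1 := hmin _ hin
    rw [norm_ad_unitary hJ huu, sub_self, norm_cm_unitary hJ (hDM u hu) huu] at h1
    exact norm_eq_zero.1 (pow_eq_zero_iff two_ne_zero |>.1 (le_antisymm h1 (sq_nonneg _)))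
  have hcone : v ∈ Cone M J ζ := by
    refine lac1_closed_convex cone_isClosed (cone_convex hJ) ?_ hv
    rintro _ ⟨u, hu, -, -, rfl⟩
    exact cone_ad hJ (hDM u hu) (cone_self hJ)
  have hfv : cm J f v = 0 := by
    have hu : (1 - (2 : ℂ) • f) ∈ unitary (H →L[ℂ] H) := by
      have hst : star (1 - (2 : ℂ) • f) = 1 - (2 : ℂ) • f := by
        rw [star_sub, star_one, star_smul, hfs]; simp
      have hsq : (1 - (2 : ℂ) • f) * (1 - (2 : ℂ) • f) = 1 := by
        rw [sub_mul, mul_sub, mul_sub, one_mul, one_mul, mul_one, smul_mul_smul_comm, hff]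
        module
      rw [Unitary.mem_iff, hst]
      exact ⟨hsq, hsq⟩
    have h1 := hcm _ (sub_mem (one_mem D) (vn_smul_mem 2 hfD)) hu (by
      rw [sub_mul, one_mul, smul_mul_assoc, mul_sub, mul_one, hff, sub_self, smul_zero, sub_zero])
    rw [cm_sub, cm_one hJi, cm_smul, zero_sub, neg_eq_zero, smul_eq_zero] at h1
    exact h1.resolve_left two_ne_zero
  have hcomp : (1 - f) v = (1 - f) ζ := by
    obtain ⟨c1, c2⟩ := lac1_preimage (1 - f) (T := {(1 - f) ζ}) isClosed_singleton
      (convex_singleton _)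
    refine lac1_closed_convex c1 c2 ?_ hv
    rintro _ ⟨u, hu, huu, huf, rfl⟩
    obtain ⟨-, k2, k3⟩ := unitary_corner_comm hf.2.1 huu huf
    have k4 : (1 - f) * star u = 1 - f := by
      have := congrArg star huf
      rwa [star_mul, star_sub, star_one, hfs] at this
    have k5 : (1 - f) ζ = rm J (1 - f) ζ := sub_eq_zero.1 h1f
    show (1 - f) (u (rm J (star u) ζ)) = (1 - f) ζ
    rw [← mul_apply_eq_comp (1 - f) u, k3,
      hJ.comm_apply (sub_mem (one_mem M) hf.1) (star_mem (hDM u hu)), k5,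
      ← mul_apply_eq_comp (rm J (star u)), ← rm_mul hJi, k4]
  have hdist : ‖f v - f ζ‖ ≤ (Real.exp (η / 2) - 1) * ‖f ζ‖ := by
    obtain ⟨c1, c2⟩ := lac1_preimage f
      (T := Metric.closedBall (f ζ) ((Real.exp (η / 2) - 1) * ‖f ζ‖)) Metric.isClosed_closedBall
      (convex_closedBall _ _)
    have hsub : S ⊆ f ⁻¹' Metric.closedBall (f ζ) ((Real.exp (η / 2) - 1) * ‖f ζ‖) := by
      rintro _ ⟨u, hu, huu, huf, rfl⟩
      obtain ⟨u1, u2, u3⟩ := (hD u).1 hu
      rw [Set.mem_preimage, mem_closedBall_iff_norm, ← map_sub]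
      refine (proj_norm_le hf.2.1 _).trans ?_
      rw [norm_cm_unitary hJ u1 huu]
      have k1 : u = f * u + (1 - f) := by rw [← huf, ← u2, mul_sub, mul_one]; abel
      have k2 : cm J u ζ = cm J (f * u) ζ := by
        conv_lhs => rw [k1]
        rw [cm_add, h1f, add_zero]
      have k3 := hE.eig_bound (mul_mem hf.1 u1) (l := 0) hη.le (by simpa using u3)
      have k4 : ‖(f * u) ζ‖ = ‖f ζ‖ := by
        rw [← u2, mul_apply_eq_comp]
        exact iso_norm_apply (Unitary.mem_iff.1 huu).1 _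
      rw [k4] at k3
      rw [k2, cm, norm_sub_rev]
      simpa using k3
    have := lac1_closed_convex c1 c2 hsub hv
    rwa [Set.mem_preimage, mem_closedBall_iff_norm] at this
  have hall : ∀ x ∈ D, f * x = x → cm J x v = 0 := by
    intro x hx hfx
    refine cm_eq_zero_of_unitary D hJi hfD hf.2.1 hfv hcm x hx ?_
    rw [hfx, ((hD x).1 hx).2.1, hfx]
  refine ⟨v, std_of_cone hE.std hcone ?_, hdist, hall⟩
  obtain ⟨s, hs, hsp, hsv, hs0, -, hsc⟩ := exists_supp M v
  have hsf : f * s = s * f := by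
    refine hsc f hf.1 ⟨_, hJ.mem f hf.1, sub_eq_zero.1 hfv⟩ ?_
    rw [hfs]
    exact ⟨_, hJ.mem f hf.1, sub_eq_zero.1 hfv⟩
  have hsx : ∀ x ∈ D, f * x * f = x → s * x = x * s := by
    refine commute_of_unitary D hfD hf.2.1 hsf.symm fun u hu huu huf => ?_
    refine (hsc u (hDM u hu) ⟨_, hJ.mem u (hDM u hu), sub_eq_zero.1 (hcm u hu huu huf)⟩
      ⟨_, hJ.mem _ (star_mem (hDM u hu)), sub_eq_zero.1 (hcm _ (star_mem hu)
        (Unitary.star_mem huu) (unitary_corner_comm hf.2.1 huu huf).2.1)⟩).symm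
  have hsf' : f * (1 - s) = (1 - s) * f := by rw [mul_sub, sub_mul, mul_one, one_mul, hsf]
  have hrM : f * (1 - s) ∈ M := mul_mem hf.1 (sub_mem (one_mem M) hs)
  have hfr : f * (f * (1 - s)) = f * (1 - s) := by rw [← mul_assoc, hff]
  have hrD : f * (1 - s) ∈ D := by
    refine rel_comm hE hf hη hG hD hrM (by rw [hfr, mul_assoc, ← hsf', hfr]) fun x hx hfx => ?_
    have x1 : x * f = x := by rw [((hD x).1 hx).2.1, hfx]
    have x2 := hsx x hx (by rw [hfx, x1])
    rw [← mul_assoc, x1, hsf', mul_assoc, hfx, mul_sub, sub_mul, mul_one, one_mul, x2]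
  have hsv' : (1 - s) v = 0 := by
    rw [sub_apply, one_apply_eq_self, hsv, sub_self]
  have hrs : star (f * (1 - s)) = f * (1 - s) := by
    rw [star_mul, star_sub, star_one, hsp.isSelfAdjoint.star_eq, hfs, hsf']
  have hr0 : f * (1 - s) = 0 := by
    have hrv : (f * (1 - s)) v = 0 := by rw [mul_apply_eq_comp, hsv', map_zero]
    generalize f * (1 - s) = r at hrM hfr hrD hrs hrv
    let T : Set H := {w | Real.exp (-η / 2) * ‖r ζ‖ ^ 2 ≤ (⟪ad J r ζ, w⟫_ℂ).re}
    have c1 : IsClosed T := isClosed_le continuous_const (by fun_prop)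
    have c2 : Convex ℝ T := by
      refine convex_halfSpace_ge (f := fun w : H => (⟪ad J r ζ, w⟫_ℂ).re) ⟨?_, ?_⟩ _
      · intro a b
        rw [inner_add_right, Complex.add_re]
      · intro c a
        rw [← Complex.coe_smul, inner_smul_right, Complex.re_ofReal_mul, smul_eq_mul]
    have hsub : S ⊆ T := by
      rintro _ ⟨u, hu, huu, huf, rfl⟩
      have hxD : star u * r ∈ D := mul_mem (star_mem hu) hrD
      have hxM := hDM _ hxD
      have hfx : f * (star u * r) = star u * r := by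
        rw [← mul_assoc, ← ((hD _).1 (star_mem hu)).2.1, mul_assoc, hfr]
      have k1 := ((hD _).1 hxD).2.2
      rw [hfx] at k1
      have k2 := hE.inner_lower hxM k1
      have k3 : ‖(star u * r) ζ‖ = ‖r ζ‖ := by
        rw [mul_apply_eq_comp]
        exact iso_norm_apply (by rw [star_star]; exact (Unitary.mem_iff.1 huu).2) _
      have k4 : ⟪ad J r ζ, ad J u ζ⟫_ℂ = ⟪(star u * r) ζ, rm J (star u * r) ζ⟫_ℂ := by
        have k5 := inner_ad hJ (star_mem (hDM u hu)) (ad J r ζ) ζ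
        rw [star_star] at k5
        rw [← k5, ← ad_mul hJ (star_mem (hDM u hu)) hrM, ad, hJ.comm_apply hxM (star_mem hxM),
          rm_star hJi, inner_star_left]
      show Real.exp (-η / 2) * ‖r ζ‖ ^ 2 ≤ (⟪ad J r ζ, ad J u ζ⟫_ℂ).re
      rw [k4, ← k3]
      exact k2
    have hT := lac1_closed_convex c1 c2 hsub hv
    have k6 : ⟪ad J r ζ, v⟫_ℂ = 0 := by
      rw [inner_ad hJ hrM, ad, star_star, hrs, hJ.comm_apply hrM hrM, hrv, map_zero,
        inner_zero_right]
    have k7 : Real.exp (-η / 2) * ‖r ζ‖ ^ 2 ≤ 0 := by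
      have : Real.exp (-η / 2) * ‖r ζ‖ ^ 2 ≤ (⟪ad J r ζ, v⟫_ℂ).re := hT
      rwa [k6, Complex.zero_re] at this
    refine hE.std.sepg r hrM (norm_eq_zero.1 (pow_eq_zero_iff two_ne_zero |>.1
      (le_antisymm ?_ (sq_nonneg _))))
    have := Real.exp_pos (-η / 2)
    by_contra hn
    rw [not_le] at hn
    nlinarith [mul_pos this hn]
  have hc0 : (1 - s) * (1 - f) = 0 := by
    refine hE.std.sepg _ (mul_mem (sub_mem (one_mem M) hs) (sub_mem (one_mem M) hf.1)) ?_
    have k1 : (1 - s) * (1 - f) = (1 - f) * (1 - s) := by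
      rw [mul_sub (1 - s), sub_mul 1 f, mul_one, one_mul, hsf']
    rw [mul_apply_eq_comp, ← hcomp, ← mul_apply_eq_comp, k1,
      mul_apply_eq_comp, hsv', map_zero]
  have hs1 : s = 1 := by
    rw [mul_sub, mul_one, ← hsf', hr0, sub_zero, sub_eq_zero] at hc0
    exact hc0.symm
  intro x hx hx0
  have := hs0 x hx hx0
  rwa [hs1, mul_one] at this

end Pool.Agent.P.MP_5d580a_an
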