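import Pool.Agent.P.MP_5d580a_an.Lac1
import Pool.Agent.P.MP_5d580a_an.LQ3

open scoped ComplexOrder InnerProductSpace ComplexConjugate BoundedContinuousFunction
open MeasureTheory Filter Topology

set_option linter.unusedSectionVars false
set_option linter.unusedVariables false

noncomputable section

namespace Pool.Agent.P.MP_5d580a_an

variable {H : Type} [NormedAddCommGroup H] [InnerProductSpace ℂ H] [CompleteSpace H]

variable {M : VonNeumannAlgebra H} {J : H ≃ₗᵢ⋆[ℂ] H} {ζ : H} {f : H →L[ℂ] H} {η : ℝ}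

theorem lac2_cm_unitary {D : VonNeumannAlgebra H} {ζ₁ : H} (hJ : StdJ M J)
    (hc : ∀ x ∈ D, f * x = x → cm J x ζ₁ = 0) {e u : H →L[ℂ] H} (he : e ∈ D)
    (hep : IsStarProjection e) (hfe : f * e = e) (hu : u ∈ D)
    (huu : u ∈ unitary (H →L[ℂ] H)) (h1 : u * (1 - e) = 1 - e) : cm J u ζ₁ = 0 := by
  have hcomm := (unitary_corner_comm hep huu h1).1
  have e1 : u = u * e + (1 - e) := by
    rw [← h1]
    noncomm_ring
  have e2 : cm J (u * e) ζ₁ = 0 := by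
    refine hc _ (mul_mem hu he) ?_
    rw [hcomm, ← mul_assoc, hfe]
  rw [e1, cm_add, e2, cm_sub, cm_one hJ.invol, hc e he hfe]
  simp

theorem lac2_mem {D : VonNeumannAlgebra H} {E : SpecCalc ℝ H} (hE : ModD M J ζ E)
    (hf : Cent M J ζ f) (hη : 0 < η) (hG : Gap M J ζ f η)
    (hD : ∀ x, x ∈ D ↔ x ∈ M ∧ x * f = f * x ∧ SpecIn E ((f * x) ζ) (-η) η) {x : H →L[ℂ] H}
    (hx : x ∈ M) (h1 : f * x = x) (h2 : x * f = x) {a b : ℝ} (hs : SpecIn E (x ζ) a b)
    (ha : -(5 * η) ≤ a) (hb : b ≤ 5 * η) : x ∈ D := by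
  refine (hD x).2 ⟨hx, by rw [h1, h2], ?_⟩
  rw [h1]
  exact gap_spec hE hf hη hG hx (by rw [h1, h2]) (hs.mono ha hb)

theorem lac2_setup [TopologicalSpace.SeparableSpace H] (h : StdV M J ζ) (hf : Cent M J ζ f)
    (hη : 0 < η) (hG : Gap M J ζ f η) :
    ∃ (E : SpecCalc ℝ H) (D : VonNeumannAlgebra H) (ζ₁ : H), ModD M J ζ E ∧
      (∀ x, x ∈ D ↔ x ∈ M ∧ x * f = f * x ∧ SpecIn E ((f * x) ζ) (-η) η) ∧ f ∈ D ∧
      StdV M J ζ₁ ∧ ‖f ζ₁ - f ζ‖ ≤ (Real.exp (η / 2) - 1) * ‖f ζ‖ ∧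
      (∀ x ∈ D, f * x = x → cm J x ζ₁ = 0) ∧
      ∀ l, CL D f l → ∃ 𝔅 : Set (H →L[ℂ] H), (∀ q ∈ 𝔅, q ∈ D) ∧ f ∈ 𝔅 ∧ (∀ p ∈ l, p ∈ 𝔅) ∧
        Good M J 𝔅 (f ζ₁) := by
  obtain ⟨E, hE⟩ := exists_mod h
  obtain ⟨D, hD⟩ := exists_lacD hE hf hη hG
  obtain ⟨ζ₁, hs, hn, hc⟩ := exists_lac_vec hE hf hη hG hD
  have hff : f * f = f := hf.2.1.isIdempotentElem
  have hfD : f ∈ D := by
    refine (hD f).2 ⟨hf.1, rfl, ?_⟩
    rw [hff]
    exact ((hE.cm_eq_zero_iff hf.1).1 hf.2.2).mono (by linarith) hη.le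
  have hDM : ∀ x ∈ D, x ∈ M := fun x hx => ((hD x).1 hx).1
  have hB : BH M D J {ζ₁} f := by
    intro ζ' hζ' e he hep hfe hce y hy hsa hey hyp
    obtain rfl : ζ' = ζ₁ := hζ'
    have hye : y * e = y := by
      have := congrArg star hey
      rwa [star_mul, hep.isSelfAdjoint.star_eq, hsa.star_eq] at this
    have hu : ∀ u ∈ D, u ∈ unitary (H →L[ℂ] H) → u * (1 - e) = 1 - e → y * u = u * y := by
      intro u hu huu h1
      have h0 : cm J u ζ' = 0 := lac2_cm_unitary hs.stdJ hc he hep hfe hu huu h1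
      have h2 : (u * y - y * u) ζ' = 0 := by
        refine norm_le_zero_iff.1 (le_of_forall_pos_le_add fun ε hε => ?_)
        obtain ⟨δ, hδ, hδ'⟩ := hyp ε hε
        rw [zero_add]
        exact hδ' u ⟨hu, huu, h1, by rw [h0, norm_zero]; exact hδ.le⟩
      have h3 := hs.sepg _ (sub_mem (mul_mem (hDM u hu) hy) (mul_mem hy (hDM u hu))) h2
      exact (sub_eq_zero.1 h3).symm
    have hyD : y ∈ D := rel_comm_corner hE hf hη hG hD he hep hfe hy hsa hey fun x hx hex =>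
      (commute_of_unitary D he hep (by rw [hye, hey]) hu x hx hex).symm
    refine ⟨hyD, hc y hyD ?_⟩
    rw [← hey, ← mul_assoc, hfe]
  refine ⟨E, D, ζ₁, hE, hD, hfD, hs, hn, hc, fun l hl => ?_⟩
  obtain ⟨ζ', hζ', 𝔅, h1, h2, h3, -, h4⟩ := lq (Z := {ζ₁}) (ζ := ζ₁) (l := l) hDM hB
    (fun ζ' hζ' => by rw [Set.mem_singleton_iff.1 hζ']; exact hs)
    (fun ζ' hζ' p hp hpp hfp => by
      rw [Set.mem_singleton_iff.1 hζ', Set.mem_singleton_iff,
        pinch_eq_self_iff hs.stdJ (hDM p hp) hpp]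
      exact hc p hp hfp)
    rfl hfD hf.2.1 (hc f hfD hff) hl (fun p hp => hc p (hl.1 p hp).1 (hl.1 p hp).2.2) one_pos
  rw [closure_singleton, Set.mem_singleton_iff] at hζ'
  subst hζ'
  exact ⟨𝔅, h1, h2, h3, h4⟩

theorem lac_good [TopologicalSpace.SeparableSpace H] (h : StdV M J ζ) (hf : Cent M J ζ f)
    (hη : 0 < η) (hG : Gap M J ζ f η) :
    ∃ (𝔅 : Set (H →L[ℂ] H)) (γ : H), f γ = γ ∧ f ∈ 𝔅 ∧ Good M J 𝔅 γ ∧
      ‖γ - f ζ‖ ≤ (Real.exp (η / 2) - 1) * ‖f ζ‖ := by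
  obtain ⟨E, D, ζ₁, hE, hD, hfD, hs, hn, hc, hl⟩ := lac2_setup h hf hη hG
  obtain ⟨𝔅, h1, h2, -, h4⟩ := hl [] ⟨by simp, by simp⟩
  have hff : f * f = f := hf.2.1.isIdempotentElem
  refine ⟨𝔅, f ζ₁, ?_, h2, h4, hn⟩
  change (f * f) ζ₁ = f ζ₁
  rw [hff]

theorem caseTwo [TopologicalSpace.SeparableSpace H] (h : StdV M J ζ) (hf : Cent M J ζ f)
    (hf0 : f ≠ 0) (hη : 0 < η) (hG : Gap M J ζ f η) :
    ∃ (γ : H) (G N : Set (H →L[ℂ] H)), CaseTwo M f γ G N := by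
  obtain ⟨E, D, ζ₁, hE, hD, hfD, hs, hn, hc, hl⟩ := lac2_setup h hf hη hG
  have hfp := hf.2.1
  have hff : f * f = f := hfp.isIdempotentElem
  have hsf : star f = f := hfp.isSelfAdjoint.star_eq
  have hDM : ∀ x ∈ D, x ∈ M := fun x hx => ((hD x).1 hx).1
  have hT : ∀ T : H →L[ℂ] H, f * T = T → T * f = T →
      (∀ u ∈ {u : H →L[ℂ] H | u ∈ D ∧ u ∈ unitary (H →L[ℂ] H) ∧ u * (1 - f) = 1 - f},
        T * u = u * T) → ∀ r ∈ D, T * r = r * T := by
    intro T h1 h2 h3 r hr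
    have hrf : r * f = f * r := ((hD r).1 hr).2.1
    have h4 := commute_of_unitary D hfD hfp (by rw [h1, h2])
      (fun u hu huu hu1 => h3 u ⟨hu, huu, hu1⟩) (f * r) (mul_mem hfD hr)
      (by rw [← mul_assoc, hff, mul_assoc, hrf, ← mul_assoc, hff])
    calc T * r = T * (f * r) := by rw [← mul_assoc, h2]
      _ = f * r * T := h4
      _ = r * T := by rw [← hrf, mul_assoc, h1]
  refine ⟨f ζ₁, {u | u ∈ D ∧ u ∈ unitary (H →L[ℂ] H) ∧ u * (1 - f) = 1 - f},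
    {v | v ∈ M ∧ v * star v * v = v ∧ f * v = v ∧ v * f = v ∧
      ∃ ν, SpecIn E (v ζ) (ν - 2 * η) (ν + 2 * η)}, hf.1, hfp, hf0, ?_, ?_, ?_, ?_, ?_, ?_, ?_⟩
  · change (f * f) ζ₁ = f ζ₁
    rw [hff]
  · intro x hx h0
    exact hs.sepg _ (mul_mem hx hf.1) h0
  · rintro u ⟨hu, huu, h1⟩
    exact ⟨star_mem hu, Unitary.star_mem huu, (unitary_corner_comm hfp huu h1).2.1⟩
  · rintro u ⟨hu, huu, h1⟩ v ⟨hv, hvv, h2⟩
    exact ⟨mul_mem hu hv, mul_mem huu hvv, by rw [mul_assoc, h2, h1]⟩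
  · rintro u ⟨hu, huu, h1⟩
    have hcomm := (unitary_corner_comm hfp huu h1).1
    refine ⟨hDM u hu, huu, hcomm, rm J u, hs.stdJ.mem u (hDM u hu), ?_, ?_⟩
    · rw [norm_rm]
      exact iso_norm_le (Unitary.star_mul_self_of_mem huu)
    · have h0 : cm J u ζ₁ = 0 := lac2_cm_unitary hs.stdJ hc hfD hfp hff hu huu h1
      have h2 : u ζ₁ = rm J u ζ₁ := sub_eq_zero.1 h0
      rw [← hs.stdJ.comm_apply hf.1 (hDM u hu), ← h2]
      change (u * f) ζ₁ = (f * u) ζ₁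
      rw [hcomm]
  · rintro v ⟨hv, hvv, h1, h2, ν, hν⟩
    have hv' : star v ∈ M := star_mem hv
    have h1' : star v * f = star v := by rw [← hsf, ← star_mul, h1]
    have h2' : f * star v = star v := by rw [← hsf, ← star_mul, h2]
    have hν' := hE.specIn_star hv hν
    have hq : star v * v ∈ D :=
      lac2_mem hE hf hη hG hD (mul_mem hv' hv) (by rw [← mul_assoc, h2']) (by rw [mul_assoc, h2])
        (hE.specIn_mul hv' hν' hν) (by linarith) (by linarith)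
    have hq' : v * star v ∈ D :=
      lac2_mem hE hf hη hG hD (mul_mem hv hv') (by rw [← mul_assoc, h1]) (by rw [mul_assoc, h1'])
        (hE.specIn_mul hv hν hν') (by linarith) (by linarith)
    obtain ⟨𝔅, b1, b2, b3, b4⟩ := hl [star v * v]
      ⟨fun p hp => by
        rw [List.mem_singleton.1 hp]
        exact ⟨hq, piso_init hvv, by rw [← mul_assoc, h2']⟩,
       fun p hp q hq => by rw [List.mem_singleton.1 hp, List.mem_singleton.1 hq]⟩
    refine ⟨hv, hvv, h1, h2, 𝔅, b4.bool, b4.mem, b3 _ (List.mem_singleton.2 rfl), b4.maxl,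
      fun T t1 t2 t3 => ⟨hT T t1 t2 t3 _ hq', fun r hr => ⟨hT T t1 t2 t3 _ (b1 r hr), ?_⟩⟩⟩
    refine hT T t1 t2 t3 _ ?_
    obtain ⟨r1, r2, r3⟩ := (hD r).1 (b1 r hr)
    have e1 : (v * r * star v) ζ = v ((f * r) ((star v) ζ)) := by
      change _ = (v * (f * r) * star v) ζ
      rw [← mul_assoc v f r, h2]
    refine lac2_mem hE hf hη hG hD (mul_mem (mul_mem hv r1) hv')
      (by rw [← mul_assoc, ← mul_assoc, h1]) (by rw [mul_assoc, h1'])
      (a := ν - 2 * η + (-η + -(ν + 2 * η))) (b := ν + 2 * η + (η + -(ν - 2 * η))) ?_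
      (by linarith) (by linarith)
    rw [e1]
    exact hE.specIn_mul hv hν (hE.specIn_mul (mul_mem hf.1 r1) r3 hν')
  · intro T t1 t2 t3 t4 x hx
    refine commute_of_win E hη fun ν => ?_
    set X := win E η ν (f * x * f) with hX
    have hXM : X ∈ M := hE.win_mem hη ν (mul_mem (mul_mem hf.1 hx) hf.1)
    have hfXf : f * X * f = X := hE.win_corner hη ν hf hf (by
      rw [← mul_assoc, ← mul_assoc, hff, mul_assoc, hff])
    have h1 : f * X = X := by rw [← hfXf, ← mul_assoc, ← mul_assoc, hff]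
    have h2 : X * f = X := by rw [← hfXf, mul_assoc, hff]
    have h2' : f * star X = star X := by rw [← hsf, ← star_mul, h2]
    have hsp : SpecIn E (X ζ) (ν - η) (ν + η) := hE.specIn_win hη ν _
    have hXX : star X * X ∈ D :=
      lac2_mem hE hf hη hG hD (mul_mem (star_mem hXM) hXM) (by rw [← mul_assoc, h2'])
        (by rw [mul_assoc, h2]) (hE.specIn_mul (star_mem hXM) (hE.specIn_star hXM hsp) hsp)
        (by linarith) (by linarith)
    have key : ∀ ε : ℝ, 0 < ε → ‖T * X - X * T‖ ≤ 2 * ‖T‖ * ε := by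
      intro ε hε
      obtain ⟨g, a, -, -, -, c1, c2, c3, -⟩ := exists_cutdown X hε
      have hg : g ∈ D := mem_of_commute fun y hy => (c1 y (commute_of_mem hXX hy).symm).1
      have ha : a ∈ D := mem_of_commute fun y hy => (c1 y (commute_of_mem hXX hy).symm).2
      obtain ⟨g1, g2, g3⟩ := (hD g).1 hg
      have e1 : (X * g) ζ = X ((f * g) ζ) := by
        change _ = (X * (f * g)) ζ
        rw [← mul_assoc, h2]
      have hv : T * (X * g) = X * g * T := by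
        refine t4 _ ⟨mul_mem hXM g1, c2, by rw [← mul_assoc, h1],
          by rw [mul_assoc, g2, ← mul_assoc, h2], ν, ?_⟩
        rw [e1]
        exact (hE.specIn_mul hXM hsp g3).mono (by linarith) (by linarith)
      have hTa := hT T t1 t2 t3 a ha
      have e2 : T * X - X * T = T * (X - X * g * a) - (X - X * g * a) * T := by
        have : T * (X * g * a) = X * g * a * T := by
          rw [← mul_assoc, hv, mul_assoc, hTa, ← mul_assoc]
        rw [mul_sub, sub_mul, this]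
        abel
      rw [e2]
      have n1 : ‖T * (X - X * g * a)‖ ≤ ‖T‖ * ε :=
        (norm_mul_le _ _).trans (mul_le_mul_of_nonneg_left c3 (norm_nonneg _))
      have n2 : ‖(X - X * g * a) * T‖ ≤ ε * ‖T‖ :=
        (norm_mul_le _ _).trans (mul_le_mul_of_nonneg_right c3 (norm_nonneg _))
      refine (norm_sub_le _ _).trans ?_
      linarith
    have h0 : ‖T * X - X * T‖ ≤ 0 := by
      refine le_of_forall_pos_le_add fun ε hε => ?_
      have hp : 0 < 2 * ‖T‖ + 1 := by positivity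
      have := key (ε / (2 * ‖T‖ + 1)) (div_pos hε hp)
      refine this.trans ?_
      rw [zero_add, ← mul_div_assoc, div_le_iff₀ hp]
      nlinarith
    exact sub_eq_zero.1 (norm_le_zero_iff.1 h0)

end Pool.Agent.P.MP_5d580a_an
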