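import Pool.Agent.P.MP_5d580a_an.Calc

open scoped ComplexOrder InnerProductSpace ComplexConjugate BoundedContinuousFunction
open MeasureTheory Filter Topology

set_option linter.unusedSectionVars false
set_option linter.unusedVariables false

noncomputable section

namespace Pool.Agent.P.MP_5d580a_an

variable {H : Type} [NormedAddCommGroup H] [InnerProductSpace ℂ H] [CompleteSpace H]

/-- a linear relation between integrals passes from continuous to Borel functions -/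
theorem lin_ext {X : Type} [MeasurableSpace X] [PseudoMetricSpace X] [BorelSpace X] {ι : Type}
    [Fintype ι] (μ : ι → Measure X) [∀ i, IsFiniteMeasure (μ i)] (g : ι → X → ℂ)
    (hg : ∀ i, BM (g i)) (h : ∀ f : X →ᵇ ℂ, ∑ i, ∫ x, f x * g i x ∂(μ i) = 0) :
    ∀ f, BM f → ∑ i, ∫ x, f x * g i x ∂(μ i) = 0 := by
  intro f hf
  choose K hK using fun i => (hg i).2
  have hK' : ∀ i x, ‖g i x‖ ≤ ∑ j, |K j| := fun i x =>
    ((hK i x).trans (le_abs_self _)).trans
      (Finset.single_le_sum (f := fun j => |K j|) (fun j _ => abs_nonneg _) (Finset.mem_univ i))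
  have hK0 : 0 ≤ ∑ j, |K j| := Finset.sum_nonneg fun j _ => abs_nonneg _
  obtain ⟨L, hL⟩ : ∃ L, L = ∑ j, |K j| := ⟨_, rfl⟩
  rw [← hL] at hK' hK0
  have hfin : IsFiniteMeasure (∑ i, μ i) := ⟨by
    rw [Measure.finsetSum_apply]
    exact ENNReal.sum_lt_top.2 fun i _ => measure_lt_top _ _⟩
  refine norm_le_zero_iff.1 (le_of_forall_pos_le_add fun ε hε => ?_)
  obtain ⟨φ, h1, -⟩ := (hf.integrable (∑ i, μ i)).exists_boundedContinuous_integral_sub_le
    (ε := ε / (L + 1)) (by positivity)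
  have hd : BM fun x => f x - φ x := hf.sub (bm_bcf φ)
  rw [integral_finsetSum_measure fun i _ => (hd.integrable (μ i)).norm] at h1
  have e : ∑ i, ∫ x, f x * g i x ∂(μ i) = ∑ i, ∫ x, (f x - φ x) * g i x ∂(μ i) := by
    rw [← sub_zero (∑ i, ∫ x, f x * g i x ∂(μ i)), ← h φ, ← Finset.sum_sub_distrib]
    refine Finset.sum_congr rfl fun i _ => ?_
    rw [← integral_sub ((hf.mul (hg i)).integrable _) (((bm_bcf φ).mul (hg i)).integrable _)]
    simp only [sub_mul]
  have b : ∀ i, ‖∫ x, (f x - φ x) * g i x ∂(μ i)‖ ≤ L * ∫ x, ‖f x - φ x‖ ∂(μ i) := fun i => by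
    rw [← integral_const_mul]
    refine norm_integral_le_of_norm_le ((hd.integrable (μ i)).norm.const_mul L)
      (Eventually.of_forall fun x => ?_)
    rw [norm_mul, mul_comm]
    exact mul_le_mul_of_nonneg_right (hK' i x) (norm_nonneg _)
  rw [e, zero_add]
  refine (norm_sum_le _ _).trans ((Finset.sum_le_sum fun i _ => b i).trans ?_)
  rw [← Finset.mul_sum]
  refine (mul_le_mul_of_nonneg_left h1 hK0).trans ?_
  rw [← mul_div_assoc, div_le_iff₀ (by positivity)]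
  nlinarith

theorem lin_real {ι : Type} [Fintype ι] (μ : ι → Measure ℝ) [∀ i, IsFiniteMeasure (μ i)]
    (r : ι → ℝ) (h : ∀ t : ℝ, ∑ i, (r i : ℂ) * ∫ l, Complex.exp (Complex.I * t * l) ∂(μ i) = 0) :
    ∀ f, BM f → ∑ i, (r i : ℂ) * ∫ l, f l ∂(μ i) = 0 := by
  have hfin : ∀ s : ι → ℝ, IsFiniteMeasure (∑ i, (s i).toNNReal • μ i) := fun s => ⟨by
    rw [Measure.finsetSum_apply]
    exact ENNReal.sum_lt_top.2 fun i _ => measure_lt_top _ _⟩
  have key : ∀ f, BM f → ∑ i, (r i : ℂ) * ∫ l, f l ∂(μ i) =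
      ∫ l, f l ∂(∑ i, (r i).toNNReal • μ i) - ∫ l, f l ∂(∑ i, (-r i).toNNReal • μ i) := by
    intro f hf
    rw [integral_finsetSum_measure fun i _ => hf.integrable _,
      integral_finsetSum_measure fun i _ => hf.integrable _, ← Finset.sum_sub_distrib]
    refine Finset.sum_congr rfl fun i _ => ?_
    rw [integral_smul_nnreal_measure, integral_smul_nnreal_measure, NNReal.smul_def,
      NNReal.smul_def, ← sub_smul, Real.coe_toNNReal', Real.coe_toNNReal', max_zero_sub_max_neg_zero_eq_self,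
      Complex.real_smul]
  have := hfin r
  have := hfin fun i => -r i
  have e : (∑ i, (r i).toNNReal • μ i) = ∑ i, (-r i).toNNReal • μ i := by
    refine Measure.ext_of_charFun (funext fun t => ?_)
    have h1 := (key _ (bm_exp t)).symm.trans (h t)
    rw [charFun_apply_real, charFun_apply_real]
    have e : ∀ l : ℝ, (t : ℂ) * l * Complex.I = Complex.I * t * l := fun l => by ring
    simp only [e]
    exact sub_eq_zero.1 h1
  intro f hf
  rw [key f hf, e, sub_self]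

theorem lin_ext_exp {ι : Type} [Fintype ι] (μ : ι → Measure ℝ) [∀ i, IsFiniteMeasure (μ i)]
    (c : ι → ℂ) (h : ∀ t : ℝ, ∑ i, c i * ∫ l, Complex.exp (Complex.I * t * l) ∂(μ i) = 0) :
    ∀ f, BM f → ∑ i, c i * ∫ l, f l ∂(μ i) = 0 := by
  intro f hf
  have hc : ∀ i (t : ℝ), conj (∫ l, Complex.exp (Complex.I * (-t : ℝ) * l) ∂(μ i))
      = ∫ l, Complex.exp (Complex.I * t * l) ∂(μ i) := fun i t => by
    rw [← integral_conj]
    refine integral_congr_ae (Eventually.of_forall fun l => ?_)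
    simp [← Complex.exp_conj]
  have h' : ∀ t : ℝ, ∑ i, conj (c i) * ∫ l, Complex.exp (Complex.I * t * l) ∂(μ i) = 0 := by
    intro t
    have := congrArg conj (h (-t))
    rw [map_sum, map_zero] at this
    simpa only [map_mul, hc] using this
  have h1 := lin_real μ (fun i => (c i).re) (fun t => by
    have : ∑ i, ((c i).re : ℂ) * ∫ l, Complex.exp (Complex.I * t * l) ∂(μ i)
        = (∑ i, c i * ∫ l, Complex.exp (Complex.I * t * l) ∂(μ i)
          + ∑ i, conj (c i) * ∫ l, Complex.exp (Complex.I * t * l) ∂(μ i)) / 2 := by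
      rw [← Finset.sum_add_distrib, Finset.sum_div]
      refine Finset.sum_congr rfl fun i _ => ?_
      rw [Complex.re_eq_add_conj]
      ring
    rw [this, h, h']
    simp) f hf
  have h2 := lin_real μ (fun i => (c i).im) (fun t => by
    have : ∑ i, ((c i).im : ℂ) * ∫ l, Complex.exp (Complex.I * t * l) ∂(μ i)
        = (∑ i, c i * ∫ l, Complex.exp (Complex.I * t * l) ∂(μ i)
          - ∑ i, conj (c i) * ∫ l, Complex.exp (Complex.I * t * l) ∂(μ i)) / (2 * Complex.I) := by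
      rw [← Finset.sum_sub_distrib, Finset.sum_div]
      refine Finset.sum_congr rfl fun i _ => ?_
      rw [Complex.im_eq_sub_conj]
      ring
    rw [this, h, h']
    simp) f hf
  have : ∑ i, c i * ∫ l, f l ∂(μ i) = ∑ i, ((c i).re : ℂ) * ∫ l, f l ∂(μ i)
      + Complex.I * ∑ i, ((c i).im : ℂ) * ∫ l, f l ∂(μ i) := by
    rw [Finset.mul_sum, ← Finset.sum_add_distrib]
    refine Finset.sum_congr rfl fun i _ => ?_
    conv_lhs => rw [← Complex.re_add_im (c i)]
    ring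
  rw [this, h1, h2]
  simp

theorem lin_ext_poly {ι : Type} [Fintype ι] (μ : ι → Measure ℝ) [∀ i, IsFiniteMeasure (μ i)]
    (K : ℝ) (hK : ∀ i, μ i (Set.Icc (-K) K)ᶜ = 0) (c : ι → ℂ)
    (h : ∀ n : ℕ, ∑ i, c i * ∫ l, (l : ℂ) ^ n ∂(μ i) = 0) :
    ∀ f, BM f → ∑ i, c i * ∫ l, f l ∂(μ i) = 0 := by
  refine lin_ext_exp μ c fun t => ?_
  have hs : ∀ i, HasSum (fun n : ℕ => ∫ l : ℝ, (Complex.I * t * l) ^ n / (n.factorial : ℂ) ∂(μ i))
      (∫ l : ℝ, Complex.exp (Complex.I * t * l) ∂(μ i)) := fun i => by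
    refine hasSum_integral_of_dominated_convergence
      (fun n _ => (|t| * |K|) ^ n / (n.factorial : ℝ)) (fun n => ?_) (fun n => ?_)
      (Eventually.of_forall fun l => Real.summable_pow_div_factorial _) (integrable_const _)
      (Eventually.of_forall fun l => ?_)
    · exact Continuous.aestronglyMeasurable (by fun_prop)
    · have : ∀ᵐ l ∂(μ i), l ∈ Set.Icc (-K) K := hK i
      filter_upwards [this] with l hl
      have h1 : |l| ≤ |K| := (abs_le.2 hl).trans (le_abs_self K)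
      simp only [norm_div, norm_pow, norm_mul, Complex.norm_I, Complex.norm_real, Real.norm_eq_abs,
        one_mul, Complex.norm_natCast]
      gcongr
    · rw [Complex.exp_eq_exp_ℂ]
      exact NormedSpace.expSeries_div_hasSum_exp _
  have h2 := hasSum_sum fun i (_ : i ∈ Finset.univ) => (hs i).mul_left (c i)
  have h3 : ∀ n : ℕ, ∑ i, c i * ∫ l : ℝ, (Complex.I * t * l) ^ n / (n.factorial : ℂ) ∂(μ i)
      = 0 := fun n => by
    have : ∀ i, c i * ∫ l : ℝ, (Complex.I * t * l) ^ n / (n.factorial : ℂ) ∂(μ i)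
        = (Complex.I * t) ^ n / (n.factorial : ℂ) * (c i * ∫ l : ℝ, (l : ℂ) ^ n ∂(μ i)) := by
      intro i
      rw [mul_left_comm, ← integral_const_mul ((Complex.I * t) ^ n / (n.factorial : ℂ))]
      congr 2
      funext l
      rw [mul_pow]
      ring
    rw [Finset.sum_congr rfl fun i _ => this i, ← Finset.mul_sum, h, mul_zero]
  simp only [h3] at h2
  exact h2.unique hasSum_zero

/-- polarisation for an operator between the vectors `η` and `ξ` -/
theorem inner_polar (T : H →L[ℂ] H) (ξ η : H) :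
    ⟪η, T ξ⟫_ℂ = ∑ k : Fin 4, (Complex.I ^ (k : ℕ) / 4) *
      ⟪ξ + Complex.I ^ (k : ℕ) • η, T (ξ + Complex.I ^ (k : ℕ) • η)⟫_ℂ := by
  have h2 : Complex.I ^ 2 = -1 := Complex.I_sq
  have h3 : Complex.I ^ 3 = -Complex.I := by rw [pow_succ, h2, neg_one_mul]
  have e0 : ((0 : Fin 4) : ℕ) = 0 := rfl
  have e1 : ((1 : Fin 4) : ℕ) = 1 := rfl
  have e2 : ((2 : Fin 4) : ℕ) = 2 := rfl
  have e3 : ((3 : Fin 4) : ℕ) = 3 := rfl
  simp only [Fin.sum_univ_four, e0, e1, e2, e3, h2, h3, pow_zero, pow_one, map_add, map_smul,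
    inner_add_left, inner_add_right, inner_smul_left, inner_smul_right, map_one, map_neg,
    Complex.conj_I]
  linear_combination (⟪η, T ξ⟫_ℂ / 2 - ⟪ξ, T η⟫_ℂ / 2) * h2

variable {H' : Type} [NormedAddCommGroup H'] [InnerProductSpace ℂ H'] [CompleteSpace H']

theorem lin_rel {X : Type} [MeasurableSpace X] (E : SpecCalc X H) (E' : SpecCalc X H')
    (S : H →L[ℂ] H') (ξ : H) (η : H') :
    ∃ (c : Fin 4 ⊕ Fin 4 → ℂ) (μ : Fin 4 ⊕ Fin 4 → Measure X), (∀ i, IsFiniteMeasure (μ i)) ∧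
      (∀ i, (∃ v, μ i = E.μ v) ∨ ∃ v, μ i = E'.μ v) ∧ ∀ f, BM f →
        ∑ i, c i * ∫ x, f x ∂(μ i) = ⟪η, S (E.Φ f ξ)⟫_ℂ - ⟪η, E'.Φ f (S ξ)⟫_ℂ := by
  refine ⟨Sum.elim (fun k => Complex.I ^ (k : ℕ) / 4) fun k => -(Complex.I ^ (k : ℕ) / 4),
    Sum.elim (fun k => E.μ (ξ + Complex.I ^ (k : ℕ) • ContinuousLinearMap.adjoint S η))
      fun k => E'.μ (S ξ + Complex.I ^ (k : ℕ) • η), ?_, ?_, fun f hf => ?_⟩
  · rintro (k | k)
    exacts [E.fin _, E'.fin _]
  · rintro (k | k)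
    exacts [Or.inl ⟨_, rfl⟩, Or.inr ⟨_, rfl⟩]
  · rw [← ContinuousLinearMap.adjoint_inner_left S, inner_polar (E.Φ f), inner_polar (E'.Φ f),
      Fintype.sum_sum_type, sub_eq_add_neg, ← Finset.sum_neg_distrib]
    simp only [Sum.elim_inl, Sum.elim_inr, E.inner f hf, E'.inner f hf, neg_mul]

theorem intertwine_cont {X : Type} [MeasurableSpace X] [PseudoMetricSpace X] [BorelSpace X]
    (E : SpecCalc X H) (E' : SpecCalc X H') (S : H →L[ℂ] H')
    (h : ∀ (f : X →ᵇ ℂ) (ξ : H), S (E.Φ (fun x => f x) ξ) = E'.Φ (fun x => f x) (S ξ)) :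
    ∀ f, BM f → ∀ ξ, S (E.Φ f ξ) = E'.Φ f (S ξ) := by
  intro f hf ξ
  refine ext_inner_left ℂ fun η => ?_
  obtain ⟨c, μ, hfin, -, hr⟩ := lin_rel E E' S ξ η
  have h1 := lin_ext μ (fun i _ => c i) (fun i => BM.const _) (fun φ => by
    simp only [mul_comm _ (c _), integral_const_mul]
    rw [hr _ (bm_bcf φ), h, sub_self]) f hf
  simp only [mul_comm _ (c _), integral_const_mul] at h1
  exact sub_eq_zero.1 ((hr f hf).symm.trans h1)

theorem intertwine_exp (E : SpecCalc ℝ H) (E' : SpecCalc ℝ H') (S : H →L[ℂ] H')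
    (h : ∀ t ξ, S (E.U t ξ) = E'.U t (S ξ)) :
    ∀ f, BM f → ∀ ξ, S (E.Φ f ξ) = E'.Φ f (S ξ) := by
  intro f hf ξ
  refine ext_inner_left ℂ fun η => ?_
  obtain ⟨c, μ, hfin, -, hr⟩ := lin_rel E E' S ξ η
  have h1 := lin_ext_exp μ c (fun t => by
    rw [hr _ (bm_exp t)]
    exact sub_eq_zero.2 (congrArg _ (h t ξ))) f hf
  exact sub_eq_zero.1 ((hr f hf).symm.trans h1)

theorem commute_of_U (E : SpecCalc ℝ H) {S : H →L[ℂ] H} (h : ∀ t, S * E.U t = E.U t * S)
    {f : ℝ → ℂ} (hf : BM f) : S * E.Φ f = E.Φ f * S := by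
  ext1 ξ
  exact intertwine_exp E E S (fun t ξ => DFunLike.congr_fun (h t) ξ) f hf ξ

theorem IsCalcOf.intertwine {E : SpecCalc ℝ H} {E' : SpecCalc ℝ H'} {h : H →L[ℂ] H}
    {h' : H' →L[ℂ] H'} (hE : IsCalcOf E h) (hE' : IsCalcOf E' h') (S : H →L[ℂ] H')
    (hS : ∀ ξ, S (h ξ) = h' (S ξ)) : ∀ f, BM f → ∀ ξ, S (E.Φ f ξ) = E'.Φ f (S ξ) := by
  intro f hf ξ
  refine ext_inner_left ℂ fun η => ?_
  obtain ⟨c, μ, hfin, hμ, hr⟩ := lin_rel E E' S ξ η
  obtain ⟨K, hK⟩ : ∃ K, K = max ‖h‖ ‖h'‖ := ⟨_, rfl⟩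
  have k1 : Set.Icc (-‖h‖) ‖h‖ ⊆ Set.Icc (-K) K :=
    Set.Icc_subset_Icc (neg_le_neg (hK ▸ le_max_left _ _)) (hK ▸ le_max_left _ _)
  have k2 : Set.Icc (-‖h'‖) ‖h'‖ ⊆ Set.Icc (-K) K :=
    Set.Icc_subset_Icc (neg_le_neg (hK ▸ le_max_right _ _)) (hK ▸ le_max_right _ _)
  have hn : ∀ i, μ i (Set.Icc (-K) K)ᶜ = 0 := fun i => by
    rcases hμ i with ⟨v, hv⟩ | ⟨v, hv⟩
    · rw [hv]; exact measure_mono_null (Set.compl_subset_compl.2 k1) (hE.1 v)
    · rw [hv]; exact measure_mono_null (Set.compl_subset_compl.2 k2) (hE'.1 v)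
  let f₀ : ℝ → ℂ := (Set.Icc (-K) K).indicator fun l => (l : ℂ)
  have b0 : BM f₀ := BM.indicator_of_bdd Complex.measurable_ofReal measurableSet_Icc K
    fun l hl => by rw [Complex.norm_real, Real.norm_eq_abs]; exact abs_le.2 hl
  have bn : ∀ n : ℕ, BM fun l => f₀ l ^ n := fun n => by
    induction n with
    | zero => simpa using BM.const (X := ℝ) 1
    | succ n ih => simpa only [pow_succ'] using b0.mul ih
  have p1 : E.Φ f₀ = h := hE.2 f₀ b0 fun t ht => Set.indicator_of_mem (k1 ht) _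
  have p2 : E'.Φ f₀ = h' := hE'.2 f₀ b0 fun t ht => Set.indicator_of_mem (k2 ht) _
  have pn : ∀ n : ℕ, S (E.Φ (fun l => f₀ l ^ n) ξ) = E'.Φ (fun l => f₀ l ^ n) (S ξ) := fun n => by
    induction n with
    | zero => simp only [pow_zero, E.one, E'.one, one_apply_eq_self]
    | succ n ih =>
      simp only [pow_succ']
      rw [← E.mul_apply b0 (bn n), ← E'.mul_apply b0 (bn n), p1, p2, hS, ih]
  have h1 := lin_ext_poly μ K hn c (fun n => by
    have : ∀ i, ∫ l, (l : ℂ) ^ n ∂(μ i) = ∫ l, f₀ l ^ n ∂(μ i) := fun i => by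
      have : ∀ᵐ l ∂(μ i), l ∈ Set.Icc (-K) K := hn i
      refine integral_congr_ae ?_
      filter_upwards [this] with l hl
      rw [show f₀ l = l from Set.indicator_of_mem hl _]
    simp only [this]
    rw [hr _ (bn n), pn, sub_self]) f hf
  exact sub_eq_zero.1 ((hr f hf).symm.trans h1)

end Pool.Agent.P.MP_5d580a_an
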