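import Pool.Agent.P.MP_5d580a_an.Small

open scoped ComplexOrder InnerProductSpace ComplexConjugate BoundedContinuousFunction
open MeasureTheory Filter Topology

set_option linter.unusedSectionVars false
set_option linter.unusedVariables false

noncomputable section

namespace Pool.Agent.P.MP_5d580a_an

variable {H : Type} [NormedAddCommGroup H] [InnerProductSpace ℂ H] [CompleteSpace H]

variable {A B : Type} [CStarAlgebra A] [CStarAlgebra B] {ι : A →⋆ₐ[ℂ] B}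

theorem Diam.of_le (hι : Function.Injective ι) {σ σ' : A →L[ℂ] ℂ} {r : ℝ} (h : Diam ι σ r)
    (hle : IsPos (σ - σ')) : Diam ι σ' r := by
  intro θ hθ θ' hθ' b hb hn
  obtain ⟨τ, hτ⟩ := exists_ext hι hle
  have key : ∀ φ ∈ Ext ι σ', φ + τ ∈ Ext ι σ := by
    intro φ hφ
    refine ⟨hφ.1.add hτ.1, ?_⟩
    rw [res_add, hφ.2, hτ.2]
    abel
  have h1 := h _ (key θ hθ) _ (key θ' hθ') b hb hn
  simp only [add_apply, Complex.add_re] at h1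
  linarith

theorem Diam.near {π : A →⋆ₐ[ℂ] (H →L[ℂ] H)} {Ψ₀ : B →L[ℂ] (H →L[ℂ] H)} (h₀ : IsW ι π Ψ₀)
    {γ : H} {r : ℝ} (h : Diam ι (vf π γ) r) (γ' : H) :
    Diam ι (vf π γ') (r + 2 * ((‖γ‖ + ‖γ'‖) * ‖γ - γ'‖)) := by
  intro θ hθ θ' hθ' b hb hn
  obtain ⟨Ψ, hΨ, he⟩ := exists_isW h₀ hθ
  obtain ⟨Ψ', hΨ', he'⟩ := exists_isW h₀ hθ'
  have h1 := h _ (hΨ.mem_ext γ) _ (hΨ'.mem_ext γ) b hb hn
  have key : ∀ Φ : B →L[ℂ] (H →L[ℂ] H), IsW ι π Φ →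
      |(vfL Φ γ b).re - (vfL Φ γ' b).re| ≤ (‖γ‖ + ‖γ'‖) * ‖γ - γ'‖ := by
    intro Φ hΦ
    rw [← Complex.sub_re, ← sub_apply]
    refine (Complex.abs_re_le_norm _).trans ?_
    refine ((vfL Φ γ - vfL Φ γ').le_opNorm b).trans ?_
    exact (mul_le_of_le_one_right (norm_nonneg _) hn).trans (norm_vfL_sub_le hΦ.norm_le γ γ')
  have h2 := abs_le.1 (key Ψ hΨ)
  have h3 := abs_le.1 (key Ψ' hΨ')
  rw [he] at h2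
  rw [he'] at h3
  linarith [h2.1, h3.2]

theorem one_lim {π : A →⋆ₐ[ℂ] (H →L[ℂ] H)} {Ψ₀ : B →L[ℂ] (H →L[ℂ] H)} (h₀ : IsW ι π Ψ₀)
    {γ' : H} {r : ℝ} (h : ∀ δ : ℝ, 0 < δ → ∃ γ : H, ‖γ - γ'‖ ≤ δ ∧ Diam ι (vf π γ) r) :
    Diam ι (vf π γ') r := by
  intro θ hθ θ' hθ' b hb hn
  refine le_of_forall_pos_le_add fun ε hε => ?_
  have hpos : 0 < 2 * (2 * ‖γ'‖ + 1) := by positivity
  obtain ⟨γ, h1, h2⟩ := h (min 1 (ε / (2 * (2 * ‖γ'‖ + 1)))) (lt_min one_pos (div_pos hε hpos))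
  have h3 := Diam.near h₀ h2 γ' θ hθ θ' hθ' b hb hn
  have h4 : ‖γ‖ ≤ ‖γ'‖ + 1 := by
    have h5 := norm_sub_norm_le γ γ'
    have h6 := h1.trans (min_le_left _ _)
    linarith
  have h7 := h1.trans (min_le_right _ _)
  have h8 : (‖γ‖ + ‖γ'‖) * ‖γ - γ'‖ ≤ (2 * ‖γ'‖ + 1) * (ε / (2 * (2 * ‖γ'‖ + 1))) :=
    mul_le_mul (by linarith) h7 (norm_nonneg _) (by positivity)
  have h9 : (2 * ‖γ'‖ + 1) * (ε / (2 * (2 * ‖γ'‖ + 1))) = ε / 2 := by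
    field_simp
  linarith

theorem one_inner {π : A →⋆ₐ[ℂ] (H →L[ℂ] H)} {Ψ₀ : B →L[ℂ] (H →L[ℂ] H)} (h₀ : IsW ι π Ψ₀)
    {γ : H} {r : ℝ} (h : Diam ι (vf π γ) r) {a : A} (ha : ‖a‖ ≤ 1) :
    Diam ι (vf π (π a γ)) r := by
  intro θ hθ θ' hθ' b hb hn
  obtain ⟨Ψ, hΨ, he⟩ := exists_isW h₀ hθ
  obtain ⟨Ψ', hΨ', he'⟩ := exists_isW h₀ hθ'
  have h1 : ‖ι a‖ ≤ 1 := (NonUnitalStarAlgHom.norm_apply_le ι a).trans ha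
  have h2 : ‖star (ι a)‖ ≤ 1 := by rwa [norm_star]
  have h3 : ‖star (ι a) * b * ι a‖ ≤ 1 :=
    calc ‖star (ι a) * b * ι a‖ ≤ ‖star (ι a) * b‖ * ‖ι a‖ := norm_mul_le _ _
      _ ≤ ‖star (ι a) * b‖ := mul_le_of_le_one_right (norm_nonneg _) h1
      _ ≤ ‖star (ι a)‖ * ‖b‖ := norm_mul_le _ _
      _ ≤ ‖b‖ := mul_le_of_le_one_left (norm_nonneg _) h2
      _ ≤ 1 := hn
  have h4 := h _ (hΨ.mem_ext γ) _ (hΨ'.mem_ext γ) _ (hb.conjugate' (ι a)) h3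
  rw [hΨ.bimod, hΨ'.bimod] at h4
  rw [← he, ← he']
  exact h4

theorem Diam.right {π : A →⋆ₐ[ℂ] (H →L[ℂ] H)} {Ψ₀ : B →L[ℂ] (H →L[ℂ] H)} (h₀ : IsW ι π Ψ₀)
    {γ : H} {r : ℝ} (h : Diam ι (vf π γ) r) {y : H →L[ℂ] H} (hy : y ∈ (cmt π).commutant)
    (hn : ‖y‖ ≤ 1) : Diam ι (vf π (y γ)) r := by
  refine one_lim h₀ fun δ hδ => ?_
  obtain ⟨a, ha, hae⟩ := kaplansky π hy hn γ hδ
  exact ⟨π a γ, hae, one_inner h₀ h ha⟩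

theorem ext_unique_one [TopologicalSpace.SeparableSpace B] (hι : Function.Injective ι)
    (hS : SepP ι) {π : A →⋆ₐ[ℂ] (H →L[ℂ] H)} {ξ : H} (hξ : CycR π ξ) (h0 : ξ ≠ 0) {m : ℕ}
    (hm : Bd ι (vf π ξ) m) (h1 : CaseOne (cmt π) ξ) :
    ∀ θ ∈ Ext ι (vf π ξ), ∀ θ' ∈ Ext ι (vf π ξ), θ = θ' := by
  intro θ hθ θ' hθ'
  obtain ⟨Ψ₀, h₀, -, -⟩ := exists_isW_cyc hξ hθ
  have hξpos : 0 < ‖ξ‖ := norm_pos_iff.2 h0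
  refine ext_sa hθ.1 hθ'.1 fun b hb hn => ?_
  refine le_of_forall_pos_le_add fun ε hε => ?_
  have hε' : 0 < ε / (4 * ‖ξ‖ ^ 2) := by positivity
  obtain ⟨L, _, _, _, π₁, ζ, η, hF, hζ, hle, hη, hD⟩ := exists_small hι hS (isPos_vf π ξ)
    (fun h => h0 ((vf_eq_zero_iff π ξ).1 h)) hm (ext_separable hι hξ hm ξ) hε'
  obtain ⟨⟨u, hu, v, hv, hu1, hv1, huv⟩, h2⟩ := h1
  obtain ⟨ξ', hξ'⟩ := tgen hF hζ hle hu hv hu1 hv1 huv η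
  have hnorm : ‖ξ'‖ ^ 2 = ‖η‖ ^ 2 := by rw [← vf_one π ξ', ← vf_one π₁ η, hξ']
  have hηpos : 0 < ‖η‖ := norm_pos_iff.2 hη
  have hξ'pos : 0 < ‖ξ'‖ := by
    rcases (norm_nonneg ξ').eq_or_lt with h | h
    · rw [← h] at hnorm
      nlinarith
    · exact h
  rw [← hξ', ← hnorm] at hD
  set c : ℝ := ‖ξ'‖ / (2 * ‖ξ‖) with hc
  have hcpos : 0 < c := by positivity
  have hD' : Diam ι (vf π ((c : ℂ) • ξ)) (ε / (4 * ‖ξ‖ ^ 2) * ‖ξ'‖ ^ 2) := by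
    refine one_lim h₀ fun δ hδ => ?_
    obtain ⟨x, hx, y, hy, hxn, hyn, he⟩ := h2 ξ' δ hδ
    exact ⟨x (y ξ'), he, (Diam.right h₀ hD hy hyn).of_le hι (vf_le π hx hxn (y ξ'))⟩
  have key : ∀ φ ∈ Ext ι (vf π ξ), ((c ^ 2 : ℝ) : ℂ) • φ ∈ Ext ι (vf π ((c : ℂ) • ξ)) := by
    intro φ hφ
    refine ⟨hφ.1.smul (sq_nonneg c), ?_⟩
    rw [res_smul, hφ.2, vf_smul]
  have h3 := hD' _ (key θ hθ) _ (key θ' hθ') b hb hn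
  simp only [smul_apply, smul_eq_mul, Complex.re_ofReal_mul] at h3
  have h4 : ε / (4 * ‖ξ‖ ^ 2) * ‖ξ'‖ ^ 2 = c ^ 2 * ε := by
    rw [hc]
    field_simp
    ring
  rw [h4, ← mul_sub] at h3
  have h5 := le_of_mul_le_mul_left h3 (by positivity)
  linarith

end Pool.Agent.P.MP_5d580a_an
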