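import Pool.Agent.P.MP_5d580a_an.Gns
import Pool.Agent.P.MP_5d580a_an.HB
import Pool.Agent.P.MP_5d580a_an.Face

open scoped ComplexOrder InnerProductSpace ComplexConjugate BoundedContinuousFunction
open MeasureTheory Filter Topology

set_option linter.unusedSectionVars false
set_option linter.unusedVariables false
set_option linter.deprecated false

noncomputable section

namespace Pool.Agent.P.MP_5d580a_an

variable {H : Type} [NormedAddCommGroup H] [InnerProductSpace ℂ H] [CompleteSpace H]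

variable {A B : Type} [CStarAlgebra A] [CStarAlgebra B] {ι : A →⋆ₐ[ℂ] B}

theorem pure_ext_smul {σ : A →L[ℂ] ℂ} {θ : B →L[ℂ] ℂ} (h : θ ∈ Ext ι σ) {s : ℝ} (hs : 0 ≤ s) :
    (s : ℂ) • θ ∈ Ext ι ((s : ℂ) • σ) := ⟨h.1.smul hs, by rw [res_smul, h.2]⟩

theorem pure_extreme_one {σ : A →L[ℂ] ℂ} (hσ : PM σ) (h1 : σ 1 = 1) {θ₀ : B →L[ℂ] ℂ}
    (h₀ : θ₀ ∈ Ext ι σ) (x₀ : B) : ∃ ν ∈ Ext ι σ, PM ν ∧ (θ₀ x₀).re ≤ (ν x₀).re := by
  have e0 : ∀ a, θ₀ (ι a) = σ a := fun a => by rw [← res_apply, h₀.2]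
  have e1 : θ₀ 1 = 1 := by rw [← res_one ι, h₀.2, h1]
  obtain ⟨ν, hν, hν1, hZ, hx, hmin⟩ := exists_extreme
    (Set.range fun a : A => ι a - σ a • (1 : B)) h₀.1 e1 (by
      rintro _ ⟨a, rfl⟩
      simp only [map_sub, map_smul, e0, e1, smul_eq_mul, mul_one, sub_self]) x₀
  have hres : res ι ν = σ := by
    ext a
    have := hZ _ ⟨a, rfl⟩
    simp only [map_sub, map_smul, hν1, smul_eq_mul, mul_one, sub_eq_zero] at this
    rw [res_apply, this]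
  refine ⟨ν, ⟨hν, hres⟩, ⟨hν, fun ψ hψ hle => hmin ψ hψ hle ?_⟩, hx⟩
  obtain ⟨t, ht⟩ := hσ.2 (res ι ψ) (hψ.res ι) (by rw [← hres, ← res_sub]; exact hle.res ι)
  have e2 : ∀ a, ψ (ι a) = t * σ a := fun a => by
    rw [← res_apply, ht, ContinuousLinearMap.smul_apply, smul_eq_mul]
  have e3 : ψ 1 = t := by
    have := e2 1
    rwa [map_one, h1, mul_one] at this
  rintro _ ⟨a, rfl⟩
  simp only [map_sub, map_smul, e2, e3, smul_eq_mul]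
  ring

theorem pure_extreme {σ : A →L[ℂ] ℂ} (hσ : PM σ) {θ₀ : B →L[ℂ] ℂ}
    (h₀ : θ₀ ∈ Ext ι σ) (x₀ : B) : ∃ ν ∈ Ext ι σ, PM ν ∧ (θ₀ x₀).re ≤ (ν x₀).re := by
  by_cases h0 : σ = 0
  · have : θ₀ = 0 := h₀.1.eq_zero (by rw [← res_one ι, h₀.2, h0]; simp)
    exact ⟨θ₀, h₀, this ▸ pm_zero, le_rfl⟩
  have hs := hσ.1.one_pos h0
  set s := (σ 1).re with hsd
  have hc : (s : ℂ) ≠ 0 := Complex.ofReal_ne_zero.2 hs.ne'
  have hi : 0 ≤ s⁻¹ := inv_nonneg.2 hs.le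
  obtain ⟨ν, hν, hp, hx⟩ := pure_extreme_one (hσ.smul hi) (by
      rw [ContinuousLinearMap.smul_apply, face_one hσ.1, ← hsd, smul_eq_mul, Complex.ofReal_inv,
        inv_mul_cancel₀ hc]) (pure_ext_smul h₀ hi) x₀
  have e : (s : ℂ) • ((s⁻¹ : ℝ) : ℂ) • σ = σ := by
    ext a; simp only [ContinuousLinearMap.smul_apply, smul_eq_mul, Complex.ofReal_inv]; field_simp
  refine ⟨(s : ℂ) • ν, e ▸ pure_ext_smul hν hs.le, hp.smul hs.le, ?_⟩
  rw [ContinuousLinearMap.smul_apply, smul_eq_mul, Complex.re_ofReal_mul, inv_mul_le_iff₀ hs] at hx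
  rwa [ContinuousLinearMap.smul_apply, smul_eq_mul, Complex.re_ofReal_mul]

theorem exists_pm_ext (hι : Function.Injective ι) {σ : A →L[ℂ] ℂ} (hσ : PM σ) :
    ∃ θ ∈ Ext ι σ, PM θ := by
  obtain ⟨θ₀, h₀⟩ := exists_ext hι hσ.1
  obtain ⟨ν, hν, hp, -⟩ := pure_extreme hσ h₀ 0
  exact ⟨ν, hν, hp⟩

theorem ext_unique_of_pm (hS : SepP ι) {σ : A →L[ℂ] ℂ} (hσ : PM σ) {θ θ' : B →L[ℂ] ℂ}
    (h : θ ∈ Ext ι σ) (h' : θ' ∈ Ext ι σ) : θ = θ' := by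
  refine ext_sa h.1 h'.1 fun b hb _ => ?_
  obtain ⟨ν, hν, hp, hx⟩ := pure_extreme hσ h b
  obtain ⟨ν', hν', hp', hx'⟩ := pure_extreme hσ h' (-b)
  have e : ν = ν' := hS ν ν' hp hp' (hν.2.trans hν'.2.symm)
  rw [map_neg, map_neg, Complex.neg_re, Complex.neg_re, ← e] at hx'
  linarith

theorem pure_scalar {π : B →⋆ₐ[ℂ] (H →L[ℂ] H)} {η : H} (h : PM (vf π η)) (hc : CycR π η) :
    ∀ x ∈ cmt π, ∃ t : ℂ, x = t • (1 : H →L[ℂ] H) := by
  have k1 : ∀ x ∈ cmt π, ‖x‖ ≤ 1 → ∃ t : ℂ, star x * x = t • (1 : H →L[ℂ] H) := by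
    intro x hx hn
    obtain ⟨t, ht⟩ := h.2 _ (isPos_vf π (x η)) (vf_le π hx hn η)
    refine ⟨t, (sepg_cmt hc).eq (mul_mem (star_mem hx) hx) (vn_smul_mem _ (one_mem _)) ?_⟩
    refine hc.eq_of_inner fun c => ?_
    have := congrArg (fun f : B →L[ℂ] ℂ => f (star c)) ht
    simp only [vf_cmt π hx, ContinuousLinearMap.smul_apply, vf_apply π η, map_star,
      inner_star_right, smul_eq_mul] at this
    rw [this, ContinuousLinearMap.smul_apply, ContinuousLinearMap.one_apply, inner_smul_right]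
  have k2 : ∀ x ∈ cmt π, ∃ t : ℂ, star x * x = t • (1 : H →L[ℂ] H) := by
    intro x hx
    have hp : 0 < ‖x‖ + 1 := by positivity
    set r : ℝ := (‖x‖ + 1)⁻¹ with hr
    have hr0 : (r : ℂ) ≠ 0 := Complex.ofReal_ne_zero.2 (inv_pos.2 hp).ne'
    obtain ⟨t, ht⟩ := k1 ((r : ℂ) • x) (vn_smul_mem _ hx) (by
      rw [norm_smul, Complex.norm_real, Real.norm_of_nonneg (inv_nonneg.2 hp.le),
        inv_mul_le_iff₀ hp]
      linarith)
    rw [star_smul, smul_mul_smul_comm, Complex.star_def, Complex.conj_ofReal] at ht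
    refine ⟨((r : ℂ) * r)⁻¹ * t, ?_⟩
    rw [mul_smul, ← ht, smul_smul, inv_mul_cancel₀ (mul_ne_zero hr0 hr0), one_smul]
  intro x hx
  obtain ⟨a, ha⟩ := k2 x hx
  obtain ⟨b, hb⟩ := k2 (1 + x) (add_mem (one_mem _) hx)
  obtain ⟨c, hc⟩ := k2 (1 + Complex.I • x) (add_mem (one_mem _) (vn_smul_mem _ hx))
  have e1 : star (1 + x) * (1 + x) = 1 + x + star x + star x * x := by
    rw [star_add, star_one]; noncomm_ring
  have e2 : star (1 + Complex.I • x) * (1 + Complex.I • x)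
      = 1 + Complex.I • x + (-Complex.I) • star x + star x * x := by
    rw [star_add, star_one, star_smul, add_mul, mul_add, mul_add, smul_mul_smul_comm]
    simp [add_assoc]
  rw [e1, ha] at hb
  rw [e2, ha] at hc
  have e3 : star x = b • (1 : H →L[ℂ] H) - a • 1 - 1 - x := by rw [← hb]; abel
  rw [e3] at hc
  refine ⟨(2 * Complex.I)⁻¹ * (c - a - 1 + Complex.I * (b - a - 1)), ?_⟩
  have e4 : (2 * Complex.I) • x = (c - a - 1 + Complex.I * (b - a - 1)) • (1 : H →L[ℂ] H) := by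
    have : (c - a - 1 + Complex.I * (b - a - 1)) • (1 : H →L[ℂ] H)
        = c • (1 : H →L[ℂ] H) + (-a - 1 + Complex.I * (b - a - 1)) • (1 : H →L[ℂ] H) := by module
    rw [this, ← hc]; module
  rw [mul_smul, ← e4, smul_smul, inv_mul_cancel₀ (mul_ne_zero two_ne_zero Complex.I_ne_zero),
    one_smul]

theorem pure_pm_vf {π : B →⋆ₐ[ℂ] (H →L[ℂ] H)}
    (h : ∀ x ∈ cmt π, ∃ t : ℂ, x = t • (1 : H →L[ℂ] H)) (ξ : H) : PM (vf π ξ) := by
  refine ⟨isPos_vf π ξ, fun ψ hψ hle => ?_⟩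
  obtain ⟨k, hk, -, -, e, -⟩ := exists_rn π ξ hψ hle
  obtain ⟨t, rfl⟩ := h k hk
  refine ⟨‖t‖ ^ 2, ?_⟩
  rw [← e]
  ext c
  simp only [vf_apply, ContinuousLinearMap.smul_apply, ContinuousLinearMap.one_apply, map_smul,
    inner_smul_left, inner_smul_right, smul_eq_mul]
  rw [← mul_assoc, Complex.mul_conj']
  push_cast; rfl

theorem pure_cmt (hS : SepP ι) {π : B →⋆ₐ[ℂ] (H →L[ℂ] H)}
    (h : ∀ x ∈ cmt π, ∃ t : ℂ, x = t • (1 : H →L[ℂ] H)) : ∀ x ∈ cmt (π.comp ι), x ∈ cmt π := by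
  intro x hx
  refine mem_cmt.2 fun c => commute_of_unitary (cmt (π.comp ι)) (e := 1) (one_mem _)
    (IsStarProjection.one _) (by simp) (fun u hu hu' _ => ?_) x hx (by simp)
  obtain ⟨h1, h2⟩ := Unitary.mem_iff.1 hu'
  have k : star u * π c * u = π c := by
    refine ext_inner_self fun ξ => ?_
    have e : vf π (u ξ) = vf π ξ := by
      refine hS _ _ (pure_pm_vf h _) (pure_pm_vf h _) ?_
      rw [res_vf, res_vf]
      ext a
      rw [vf_cmt _ hu, h1]; rfl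
    have := congrArg (fun f : B →L[ℂ] ℂ => f c) e
    simp only [vf_apply] at this
    rw [ContinuousLinearMap.mul_apply, ContinuousLinearMap.mul_apply, inner_star_right, this]
  calc π c * u = u * (star u * π c * u) := by rw [← mul_assoc, ← mul_assoc, h2, one_mul]
    _ = u * π c := by rw [k]

theorem pm_res (hS : SepP ι) {φ : B →L[ℂ] ℂ} (hφ : PM φ) : PM (res ι φ) := by
  obtain ⟨L, _, _, _, π, η, hη, hc⟩ := exists_gns hφ.1
  have h1 := pure_scalar (hη ▸ hφ) hc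
  rw [← hη, res_vf]
  exact pure_pm_vf (fun x hx => h1 x (pure_cmt hS h1 x hx)) η

theorem approx_of_pm (hS : SepP ι) {φ : B →L[ℂ] ℂ} (hφ : PM φ) (b : B) {ε : ℝ} (hε : 0 < ε) :
    ∃ a : A, (φ (star (b - ι a) * (b - ι a))).re ≤ ε := by
  obtain ⟨L, _, _, _, π, η, hη, hc⟩ := exists_gns hφ.1
  have h1 := pure_cmt hS (pure_scalar (hη ▸ hφ) hc)
  have h2 := bicomm_single (π.comp ι).range (T := π b) (fun y hy =>
    (mem_cmt.1 (h1 y (mem_cmt.2 fun a => hy _ ⟨a, rfl⟩)) b).symm) η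
  obtain ⟨_, ⟨_, ⟨a, rfl⟩, rfl⟩, ha⟩ := Metric.mem_closure_iff.1 h2 _ (Real.sqrt_pos.2 hε)
  refine ⟨a, ?_⟩
  rw [← hη, vf_star_mul_self, map_sub, ContinuousLinearMap.sub_apply]
  rw [dist_eq_norm] at ha
  exact (Real.lt_sqrt (norm_nonneg _)).1 ha |>.le

theorem pure_comm (hS : SepP ι) {π : B →⋆ₐ[ℂ] (H →L[ℂ] H)} {η : H} (hφ : PM (vf π η))
    {k : H →L[ℂ] H} (hk : k ∈ cmt (π.comp ι)) (hn : ‖k‖ ≤ 1) (b : B) :
    π b (k η) = k (π b η) := by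
  have hσ : PM (vf (π.comp ι) η) := res_vf ι π η ▸ pm_res hS hφ
  obtain ⟨t, ht0, ht⟩ := hσ.exists_nonneg (isPos_vf _ (k η)) (vf_le _ hk hn η)
  have e : vf π (k η) = (t : ℂ) • vf π η :=
    ext_unique_of_pm hS (hσ.smul ht0) ⟨isPos_vf _ _, by rw [res_vf, ht]⟩
      (pure_ext_smul ⟨isPos_vf _ _, res_vf ι π η⟩ ht0)
  have key : ∀ ε : ℝ, 0 < ε → ‖π b (k η) - k (π b η)‖ ^ 2 ≤ 0 + ε := by
    intro ε hε
    obtain ⟨a, ha⟩ := approx_of_pm hS hφ b (ε := ε / (2 * t + 2)) (by positivity)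
    have a1 := vf_star_mul_self π (k η) (b - ι a)
    rw [e, ContinuousLinearMap.smul_apply, smul_eq_mul, Complex.re_ofReal_mul,
      vf_star_mul_self] at a1
    rw [vf_star_mul_self] at ha
    have a2 : π (ι a) (k η) = k (π (ι a) η) :=
      congrArg (fun T : H →L[ℂ] H => T η) (mem_cmt.1 hk a)
    have a3 : π b (k η) - k (π b η) = π (b - ι a) (k η) - k (π (b - ι a) η) := by
      rw [map_sub π, ContinuousLinearMap.sub_apply, ContinuousLinearMap.sub_apply, map_sub k, a2]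
      abel
    have a4 : ‖k (π (b - ι a) η)‖ ≤ ‖π (b - ι a) η‖ :=
      (k.le_opNorm _).trans (mul_le_of_le_one_left (norm_nonneg _) hn)
    have a5 : ‖π b (k η) - k (π b η)‖ ≤ ‖π (b - ι a) (k η)‖ + ‖π (b - ι a) η‖ := by
      rw [a3]; exact (norm_sub_le _ _).trans (by gcongr)
    rw [le_div_iff₀ (by positivity)] at ha
    calc _ ≤ (‖π (b - ι a) (k η)‖ + ‖π (b - ι a) η‖) ^ 2 := by gcongr
      _ ≤ 2 * ‖π (b - ι a) (k η)‖ ^ 2 + 2 * ‖π (b - ι a) η‖ ^ 2 := by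
          nlinarith [sq_nonneg (‖π (b - ι a) (k η)‖ - ‖π (b - ι a) η‖)]
      _ ≤ 0 + ε := by rw [← a1]; linarith
  have h0 : ‖π b (k η) - k (π b η)‖ ^ 2 ≤ 0 := le_of_forall_pos_le_add key
  have h1 : ‖π b (k η) - k (π b η)‖ = 0 := pow_eq_zero_iff two_ne_zero |>.1
    (le_antisymm h0 (sq_nonneg _))
  exact sub_eq_zero.1 (norm_eq_zero.1 h1)

theorem pure_two (hS : SepP ι) {σ₁ σ₂ : A →L[ℂ] ℂ} (h₁ : PM σ₁) (h₂ : PM σ₂)
    {φ₁ φ₂ θ : B →L[ℂ] ℂ} (e₁ : φ₁ ∈ Ext ι σ₁) (p₁ : PM φ₁) (e₂ : φ₂ ∈ Ext ι σ₂) (p₂ : PM φ₂)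
    (h : θ ∈ Ext ι (σ₁ + σ₂)) : θ = φ₁ + φ₂ := by
  obtain ⟨L, _, _, _, π, ξ, hξ, -⟩ := exists_gns h.1
  have e : vf (π.comp ι) ξ = σ₁ + σ₂ := by rw [← res_vf, hξ, h.2]
  obtain ⟨k₁, hk₁, k0, k1, f₁, -⟩ := exists_rn (π.comp ι) ξ h₁.1
    (by rw [e, add_sub_cancel_left]; exact h₂.1)
  have n₁ : ‖k₁‖ ≤ 1 := norm_le_one_of_le_one k0 k1
  have s₁ : star k₁ = k₁ := k0.isSelfAdjoint.star_eq
  obtain ⟨k₂, hk₂, s₂, hsum⟩ := gns_defect n₁ (intw_iff_mem.2 hk₁)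
  have s₂' : star k₂ = k₂ := s₂
  have n₂ : ‖k₂‖ ≤ 1 := by
    refine ContinuousLinearMap.opNorm_le_bound _ zero_le_one fun α => ?_
    rw [one_mul]
    refine le_of_sq_le_sq ?_ (norm_nonneg _)
    have := gns_pyth hsum α
    nlinarith [sq_nonneg ‖k₁ α‖]
  have hsum' : star k₁ * k₁ + star k₂ * k₂ = 1 := hsum
  have f₂ : vf (π.comp ι) (k₂ ξ) = σ₂ := by
    have : vf (π.comp ι) (k₁ ξ) + vf (π.comp ι) (k₂ ξ) = vf (π.comp ι) ξ := by
      ext a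
      rw [ContinuousLinearMap.add_apply, vf_cmt _ hk₁, vf_cmt _ hk₂, ← inner_add_right, ← map_add,
        ← ContinuousLinearMap.add_apply, hsum']
      rfl
    rw [f₁, e] at this
    exact add_left_cancel this
  have g₁ : vf π (k₁ ξ) = φ₁ := ext_unique_of_pm hS h₁ ⟨isPos_vf _ _, by rw [res_vf, f₁]⟩ e₁
  have g₂ : vf π (k₂ ξ) = φ₂ := ext_unique_of_pm hS h₂ ⟨isPos_vf _ _, by rw [res_vf, f₂]⟩ e₂
  have hx : k₁ (k₁ ξ) + k₂ (k₂ ξ) = ξ := by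
    rw [s₁, s₂'] at hsum'
    exact congrArg (fun T : L →L[ℂ] L => T ξ) hsum'
  ext b
  have c₁ : ⟪ξ, π b (k₁ (k₁ ξ))⟫_ℂ = φ₁ b := by
    rw [pure_comm hS (g₁ ▸ p₁) hk₁ n₁, ← inner_star_left, s₁, ← g₁, vf_apply]
  have c₂ : ⟪ξ, π b (k₂ (k₂ ξ))⟫_ℂ = φ₂ b := by
    rw [pure_comm hS (g₂ ▸ p₂) hk₂ n₂, ← inner_star_left, s₂', ← g₂, vf_apply]
  rw [ContinuousLinearMap.add_apply, ← c₁, ← c₂, ← inner_add_right, ← map_add, hx, ← hξ, vf_apply]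

theorem ext_unique_two (hι : Function.Injective ι) (hS : SepP ι) {σ₁ σ₂ : A →L[ℂ] ℂ}
    (h₁ : PM σ₁) (h₂ : PM σ₂) {θ θ' : B →L[ℂ] ℂ} (h : θ ∈ Ext ι (σ₁ + σ₂))
    (h' : θ' ∈ Ext ι (σ₁ + σ₂)) : θ = θ' := by
  obtain ⟨φ₁, e₁, p₁⟩ := exists_pm_ext hι h₁
  obtain ⟨φ₂, e₂, p₂⟩ := exists_pm_ext hι h₂
  rw [pure_two hS h₁ h₂ e₁ p₁ e₂ p₂ h, pure_two hS h₁ h₂ e₁ p₁ e₂ p₂ h']

theorem pure_coprod {φ ψ : B →L[ℂ] ℂ} (hφ : IsPos φ) (hψ : IsPos ψ) : IsPos (φ.coprod ψ) :=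
  fun x => add_nonneg (hφ x.1) (hψ x.2)

theorem pure_kill {φ ψ : B →L[ℂ] ℂ} (h : res ι φ = res ι ψ) (a : A) :
    φ.coprod ψ (ι a, -ι a) = 0 := by
  rw [ContinuousLinearMap.coprod_apply, map_neg, ← res_apply, ← res_apply, h, add_neg_cancel]

theorem exists_extreme_pair (hι : Function.Injective ι) (hs : ¬ Function.Surjective ι) :
    ∃ φ ψ : B →L[ℂ] ℂ, IsPos φ ∧ IsPos ψ ∧ φ ≠ ψ ∧ res ι φ = res ι ψ ∧
      ∀ φ' ψ' : B →L[ℂ] ℂ, IsPos φ' → IsPos (φ - φ') → IsPos ψ' → IsPos (ψ - ψ') →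
        res ι φ' = res ι ψ' → ∃ t : ℝ, φ' = (t : ℂ) • φ ∧ ψ' = (t : ℂ) • ψ := by
  obtain ⟨φ₀, ψ₀, hφ₀, hψ₀, hr, b, hb, hlt⟩ := exists_pair hι hs
  have hp₀ : IsPos (φ₀.coprod ψ₀) := pure_coprod hφ₀ hψ₀
  have hx₀ : 0 < (φ₀.coprod ψ₀ (b, -b)).re := by
    rw [ContinuousLinearMap.coprod_apply, map_neg, Complex.add_re, Complex.neg_re]; linarith
  have hs0 := hp₀.one_pos (by intro h0; rw [h0] at hx₀; simp at hx₀)
  set s := (φ₀.coprod ψ₀ 1).re with hsd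
  have hc : (s : ℂ) ≠ 0 := Complex.ofReal_ne_zero.2 hs0.ne'
  have hi : 0 < s⁻¹ := inv_pos.2 hs0
  obtain ⟨ν, hν, -, hZ, hx, hmin⟩ := exists_extreme
    (Set.range fun a : A => ((ι a, -ι a) : B × B)) (hp₀.smul hi.le) (by
      rw [ContinuousLinearMap.smul_apply, face_one hp₀, ← hsd, smul_eq_mul, Complex.ofReal_inv,
        inv_mul_cancel₀ hc]) (by
      rintro _ ⟨a, rfl⟩
      rw [ContinuousLinearMap.smul_apply, pure_kill hr, smul_zero]) (b, -b)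
  rw [ContinuousLinearMap.smul_apply, smul_eq_mul, Complex.re_ofReal_mul] at hx
  set φ : B →L[ℂ] ℂ := ν.comp (ContinuousLinearMap.inl ℂ B B) with hφ
  set ψ : B →L[ℂ] ℂ := ν.comp (ContinuousLinearMap.inr ℂ B B) with hψ
  have e : φ.coprod ψ = ν := by
    refine ContinuousLinearMap.ext fun x => ?_
    rw [ContinuousLinearMap.coprod_apply, hφ, hψ, ContinuousLinearMap.comp_apply,
      ContinuousLinearMap.comp_apply, ← map_add]
    simp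
  refine ⟨φ, ψ, fun x => ?_, fun x => ?_, fun h => ?_, ?_, fun φ' ψ' a1 a2 a3 a4 a5 => ?_⟩
  · have := hν (x, 0)
    rw [Prod.star_def, Prod.mk_mul_mk, mul_zero] at this
    exact this
  · have := hν (0, x)
    rw [Prod.star_def, Prod.mk_mul_mk, mul_zero] at this
    exact this
  · have h2 : ν (b, -b) = 0 := by
      rw [← e, ContinuousLinearMap.coprod_apply, map_neg, h, add_neg_cancel]
    rw [h2, Complex.zero_re] at hx
    exact absurd (mul_pos hi hx₀) (not_lt.2 hx)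
  · ext a
    have := hZ _ ⟨a, rfl⟩
    simp only [← e, ContinuousLinearMap.coprod_apply, map_neg, add_neg_eq_zero] at this
    exact this
  · have e2 : ν - φ'.coprod ψ' = (φ - φ').coprod (ψ - ψ') := by
      refine ContinuousLinearMap.ext fun x => ?_
      rw [← e]
      simp only [ContinuousLinearMap.sub_apply, ContinuousLinearMap.coprod_apply]
      ring
    obtain ⟨t, ht⟩ := hmin (φ'.coprod ψ') (pure_coprod a1 a3) (e2 ▸ pure_coprod a2 a4) (by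
      rintro _ ⟨a, rfl⟩
      exact pure_kill a5 a)
    refine ⟨t, ?_, ?_⟩
    · ext x
      simpa [hφ] using congrArg (fun f : B × B →L[ℂ] ℂ => f (x, 0)) ht
    · ext x
      simpa [hψ] using congrArg (fun f : B × B →L[ℂ] ℂ => f (0, x)) ht

end Pool.Agent.P.MP_5d580a_an
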