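import Pool.Agent.P.MP_5d580a_an.Dec
import Pool.Agent.P.MP_5d580a_an.Pure
import Pool.Agent.P.MP_5d580a_an.CalcSa
import Pool.Agent.P.MP_5d580a_an.DisjA

open scoped ComplexOrder InnerProductSpace ComplexConjugate BoundedContinuousFunction
open MeasureTheory Filter Topology

set_option linter.unusedSectionVars false
set_option linter.unusedVariables false

noncomputable section

namespace Pool.Agent.P.MP_5d580a_an

variable {H : Type} [NormedAddCommGroup H] [InnerProductSpace ℂ H] [CompleteSpace H]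

variable {A B : Type} [CStarAlgebra A] [CStarAlgebra B] {ι : A →⋆ₐ[ℂ] B}

theorem rq_pureA [PartialOrder B] [StarOrderedRing B] (hι : Function.Injective ι) (hS : SepP ι)
    (F : Finset B) (hF : ∀ b ∈ F, IsSelfAdjoint b) {σ₁ σ₂ : A →L[ℂ] ℂ} (h₁ : PM σ₁) (h₂ : PM σ₂) :
    ∑ b ∈ F, dv ι (σ₁ + σ₂) b = 0 :=
  Finset.sum_eq_zero fun b hb => dv_eq_zero hι (h₁.1.add h₂.1) (hF b hb)
    fun θ h θ' h' => ext_unique_two hι hS h₁ h₂ h h'

theorem rq_pureB [PartialOrder B] [StarOrderedRing B] (hι : Function.Injective ι) (hS : SepP ι)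
    (F : Finset B) (hF : ∀ b ∈ F, IsSelfAdjoint b) {ψ₁ ψ₂ : B →L[ℂ] ℂ} (h₁ : PM ψ₁) (h₂ : PM ψ₂) :
    ∑ b ∈ F, dv ι (res ι (ψ₁ + ψ₂)) b = 0 := by
  rw [res_add]
  exact rq_pureA hι hS F hF (pm_res hS h₁) (pm_res hS h₂)

theorem rq_sum_le {n : ℕ} {τ τ' : Fin n → (B →L[ℂ] ℂ)} {d : Fin n → ℝ} {b : B} {ε : ℝ}
    (h : ∀ i, (τ i b).re - (τ' i b).re ≤ d i) (hd : ∑ i, d i ≤ ε) :
    ((∑ i, τ i) b).re ≤ ((∑ i, τ' i) b).re + ε := by
  have h1 := (Finset.sum_le_sum fun i (_ : i ∈ Finset.univ) => h i).trans hd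
  rw [Finset.sum_sub_distrib] at h1
  rw [sum_apply, sum_apply, Complex.re_sum, Complex.re_sum]
  linarith

theorem rq_B [PartialOrder B] [StarOrderedRing B] [TopologicalSpace.SeparableSpace B]
    (hι : Function.Injective ι) (hS : SepP ι) (π : B →⋆ₐ[ℂ] (H →L[ℂ] H)) {ζ : H}
    {𝔅 : Set (H →L[ℂ] H)} (hB : BoolFam 𝔅) (hM : ∀ q ∈ 𝔅, q ∈ cmt π) (hX : Maxl (cmt π) 𝔅 ζ)
    (F : Finset B) (hF : ∀ b ∈ F, IsSelfAdjoint b) {ε : ℝ} (hε : 0 < ε) :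
    ∃ (n : ℕ) (r : Fin n → (H →L[ℂ] H)), (∀ i, r i ∈ 𝔅) ∧ (∀ i j, i ≠ j → r i * r j = 0) ∧
      ∑ i, r i = 1 ∧ ∑ i, ∑ b ∈ F, dv ι (vf (π.comp ι) (r i ζ)) b ≤ ε := by
  obtain ⟨n, r, h1, h2, h3, h4⟩ := tree_bool π hB hM hX ((usc_dv hι F hF).res ι)
    (fun ψ₁ ψ₂ h₁ h₂ => rq_pureB hι hS F hF h₁ h₂) hε
  refine ⟨n, r, h1, h2, h3, ?_⟩
  simpa only [res_vf] using h4

/-- rigidity over `B` -/
theorem rigid_B [TopologicalSpace.SeparableSpace B] (hι : Function.Injective ι) (hS : SepP ι)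
    (π : B →⋆ₐ[ℂ] (H →L[ℂ] H)) (ζ : H) {θ : B →L[ℂ] ℂ} (θ' : (H →L[ℂ] H) → (B →L[ℂ] ℂ))
    {𝔅 : Set (H →L[ℂ] H)} (hB : BoolFam 𝔅) (hM : ∀ q ∈ 𝔅, q ∈ cmt π) (hX : Maxl (cmt π) 𝔅 ζ)
    (he : ∀ r ∈ 𝔅, θ' r ∈ Ext ι (vf (π.comp ι) (r ζ)))
    (hs : ∀ (n : ℕ) (r : Fin n → (H →L[ℂ] H)), (∀ i, r i ∈ 𝔅) → (∀ i j, i ≠ j → r i * r j = 0) →
      ∑ i, r i = 1 → ∑ i, θ' (r i) = θ) : θ = vf π ζ := by
  let _ := CStarAlgebra.spectralOrder B
  have _ := CStarAlgebra.spectralOrderedRing B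
  have h0 := hs 1 (fun _ => 1) (fun _ => hB.one) (fun i j h => (h (Subsingleton.elim i j)).elim)
    (by simp)
  rw [Fin.sum_univ_one] at h0
  refine ext_sa (h0 ▸ (he 1 hB.one).1) (isPos_vf π ζ) fun b hb _ =>
    le_of_forall_pos_le_add fun ε hε => ?_
  obtain ⟨n, r, h1, h2, h3, h4⟩ := rq_B hι hS π hB hM hX {b} (by simpa using hb) hε
  simp only [Finset.sum_singleton] at h4
  rw [← hs n r h1 h2 h3, ← vf_part π (fun j => ⟨hM _ (h1 j), hB.proj _ (h1 j)⟩) h3 ζ]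
  exact rq_sum_le (fun i => sub_le_dv hb (he _ (h1 i)) ⟨isPos_vf π _, res_vf ι π _⟩) h4

/-- rigidity over `A` -/
theorem rigid_A [TopologicalSpace.SeparableSpace A] (hι : Function.Injective ι) (hS : SepP ι)
    (π : A →⋆ₐ[ℂ] (H →L[ℂ] H)) (ζ : H) {θ θ' : B →L[ℂ] ℂ} (τ τ' : (H →L[ℂ] H) → (B →L[ℂ] ℂ))
    {𝔅 : Set (H →L[ℂ] H)} (hB : BoolFam 𝔅) (hM : ∀ q ∈ 𝔅, q ∈ cmt π) (hX : Maxl (cmt π) 𝔅 ζ)
    (he : ∀ r ∈ 𝔅, τ r ∈ Ext ι (vf π (r ζ)) ∧ τ' r ∈ Ext ι (vf π (r ζ)))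
    (hs : ∀ (n : ℕ) (r : Fin n → (H →L[ℂ] H)), (∀ i, r i ∈ 𝔅) → (∀ i j, i ≠ j → r i * r j = 0) →
      ∑ i, r i = 1 → ∑ i, τ (r i) = θ ∧ ∑ i, τ' (r i) = θ') : θ = θ' := by
  let _ := CStarAlgebra.spectralOrder A
  have _ := CStarAlgebra.spectralOrderedRing A
  let _ := CStarAlgebra.spectralOrder B
  have _ := CStarAlgebra.spectralOrderedRing B
  obtain ⟨h0, h0'⟩ := hs 1 (fun _ => 1) (fun _ => hB.one)
    (fun i j h => (h (Subsingleton.elim i j)).elim) (by simp)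
  rw [Fin.sum_univ_one] at h0 h0'
  refine ext_sa (h0 ▸ (he 1 hB.one).1.1) (h0' ▸ (he 1 hB.one).2.1) fun b hb _ =>
    le_of_forall_pos_le_add fun ε hε => ?_
  have hF : ∀ c ∈ ({b} : Finset B), IsSelfAdjoint c := by simpa using hb
  obtain ⟨n, r, h1, h2, h3, h4⟩ := tree_bool π hB hM hX (usc_dv hι {b} hF)
    (fun ψ₁ ψ₂ h₁ h₂ => rq_pureA hι hS {b} hF h₁ h₂) hε
  simp only [Finset.sum_singleton] at h4
  rw [← (hs n r h1 h2 h3).1, ← (hs n r h1 h2 h3).2]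
  exact rq_sum_le (fun i => sub_le_dv hb (he _ (h1 i)).1 (he _ (h1 i)).2) h4

theorem center_mem [TopologicalSpace.SeparableSpace B] (hι : Function.Injective ι) (hS : SepP ι)
    (π : B →⋆ₐ[ℂ] (H →L[ℂ] H)) {z : H →L[ℂ] H} (hz : z ∈ cmt (π.comp ι))
    (hz' : z ∈ (cmt (π.comp ι)).commutant) (hp : IsStarProjection z) : z ∈ cmt π := by
  obtain ⟨u, hu⟩ : ∃ u : H →L[ℂ] H, u = 1 - (z + z) := ⟨_, rfl⟩
  have hum : u ∈ cmt (π.comp ι) := hu ▸ sub_mem (one_mem _) (add_mem hz hz)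
  have hus : star u = u := by
    rw [hu, star_sub, star_one, star_add, hp.isSelfAdjoint.star_eq]
  have huu : u * u = 1 := by
    have hz2 : z * z = z := hp.isIdempotentElem
    rw [hu]
    simp only [mul_sub, sub_mul, mul_add, add_mul, one_mul, mul_one, hz2]
    abel
  have huc : ∀ r ∈ cmt π, r * u = u * r := fun r hr => by
    have h := commute_of_mem (cmt_le_comp ι π hr) hz'
    rw [hu, mul_sub, sub_mul, mul_add, add_mul, h, mul_one, one_mul]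
  obtain ⟨𝔅, hB, hM, hX⟩ := exists_maxl (cmt π)
  have key : ∀ ζ, vf π (u ζ) = vf π ζ := fun ζ => by
    refine rigid_B hι hS π ζ (fun r => vf π (r (u ζ))) hB hM (hX ζ) (fun r hr => ⟨isPos_vf π _, ?_⟩)
      fun n r h1 _ h3 => vf_part π (fun j => ⟨hM _ (h1 j), hB.proj _ (h1 j)⟩) h3 _
    have e : r (u ζ) = u (r ζ) := by
      rw [← mul_apply_eq_comp, huc r (hM r hr), mul_apply_eq_comp]
    rw [res_vf, e]
    ext c
    rw [vf_cmt _ hum, hus, huu, vf_apply, one_apply_eq_self]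
  refine mem_cmt.2 fun b => ?_
  have h1 : u * π b * u = π b := ext_inner_self fun ξ => by
    have h := congrArg (fun θ : B →L[ℂ] ℂ => θ b) (key ξ)
    simp only [vf_apply] at h
    rw [← h, ← inner_star_right, hus]
    rfl
  have h2 : π b * u = u * π b := by
    rw [← one_mul (π b * u), ← huu, mul_assoc u, ← mul_assoc u (π b), h1]
  rw [hu, mul_sub, sub_mul, mul_one, one_mul, sub_right_inj, mul_add, add_mul, ← two_smul ℂ,
    ← two_smul ℂ] at h2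
  exact smul_right_injective _ (two_ne_zero (α := ℂ)) h2

theorem factor_res [TopologicalSpace.SeparableSpace B] (hι : Function.Injective ι) (hS : SepP ι)
    (π : B →⋆ₐ[ℂ] (H →L[ℂ] H)) (hF : IsFactor (cmt π)) : IsFactor (cmt (π.comp ι)) :=
  isFactor_of_center fun z hz hz' hp => hF.center (center_mem hι hS π hz hz' hp)
    (VonNeumannAlgebra.mem_commutant_iff.2 fun g hg => commute_of_mem (cmt_le_comp ι π hg) hz') hp

theorem lift_split [TopologicalSpace.SeparableSpace B] (hι : Function.Injective ι) (hS : SepP ι)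
    {φ : B →L[ℂ] ℂ} (hφ : IsPos φ) {α α' : A →L[ℂ] ℂ} (hα : IsPos α) (hα' : IsPos α')
    (he : res ι φ = α + α') (hd : Disj α α') :
    ∃ φ' : B →L[ℂ] ℂ, IsPos φ' ∧ IsPos (φ - φ') ∧ res ι φ' = α := by
  obtain ⟨L, _, _, _, π, η, hη, -⟩ := exists_gns hφ
  have e0 : vf (π.comp ι) η = α + α' := by rw [← res_vf, hη, he]
  obtain ⟨k, hk, hk0, hk1, hkα, hkk, -⟩ := exists_rn (π.comp ι) η hα
    (by rw [e0, add_sub_cancel_left]; exact hα')
  have hks : star k = k := (IsSelfAdjoint.of_nonneg hk0).star_eq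
  have hk2 : k * k ≤ 1 := by
    have h := star_mul_self_le_one (norm_le_one_of_le_one hk0 hk1)
    rwa [hks] at h
  obtain ⟨y, hy0, hyy, -, hyc⟩ := exists_sqrt (sub_nonneg.2 hk2)
  have hys : star y = y := (IsSelfAdjoint.of_nonneg hy0).star_eq
  have hy : y ∈ cmt (π.comp ι) := mem_cmt.2 fun c =>
    hyc _ (mem_cmt.1 (sub_mem (one_mem _) (mul_mem hk hk)) c)
  have hyα : vf (π.comp ι) (y η) = α' := by
    ext c
    have h := congrArg (fun θ : A →L[ℂ] ℂ => θ c) e0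
    simp only [vf_apply, add_apply] at h
    rw [vf_cmt _ hy, hys, hyy, sub_apply, one_apply_eq_self, map_sub,
      inner_sub_right, h, ← hkk c, add_sub_cancel_left]
  obtain ⟨z, hp, hfix, hkill, -, -, hcomm⟩ := exists_proj_span
    {γ : L | ∃ x ∈ cmt (π.comp ι), ∃ a : A, γ = x ((π.comp ι) a (k η))}
  have hN : ∀ x ∈ cmt (π.comp ι), ∀ γ ∈ {γ : L | ∃ x ∈ cmt (π.comp ι), ∃ a : A,
      γ = x ((π.comp ι) a (k η))}, z (x γ) = x γ := by
    rintro x hx _ ⟨x', hx', a, rfl⟩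
    exact hfix _ ⟨x * x', mul_mem hx hx', a, rfl⟩
  have hA : ∀ c : A, ∀ γ ∈ {γ : L | ∃ x ∈ cmt (π.comp ι), ∃ a : A,
      γ = x ((π.comp ι) a (k η))}, z ((π.comp ι) c γ) = (π.comp ι) c γ := by
    rintro c _ ⟨x', hx', a, rfl⟩
    refine hfix _ ⟨x', hx', c * a, ?_⟩
    rw [← commute_apply hx' (rep_mem_commutant _ c), map_mul]
    rfl
  have hz : z ∈ cmt (π.comp ι) := mem_cmt.2 fun c =>
    hcomm _ (hA c) (by rw [← map_star]; exact hA _)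
  have hz' : z ∈ (cmt (π.comp ι)).commutant := VonNeumannAlgebra.mem_commutant_iff.2 fun g hg =>
    hcomm _ (hN g hg) (hN _ (star_mem hg))
  have hzB := center_mem hι hS π hz hz' hp
  have h1 : z (k (k η)) = k (k η) := hfix _ ⟨k, hk, 1, by rw [map_one]; rfl⟩
  have h2 : z (y (y η)) = 0 := by
    refine hkill _ ?_
    rintro _ ⟨x, hx, a, rfl⟩
    have hd' : Disj (vf (π.comp ι) (k η)) (vf (π.comp ι) (y η)) := by rw [hkα, hyα]; exact hd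
    have h := hd'.inner_eq_zero (intw_iff_mem.2 (mul_mem hy hx)) a
    have h' := inner_star_right y (x ((π.comp ι) a (k η))) (y η)
    rw [hys] at h'
    rw [h', inner_eq_zero_symm]
    exact h
  have h3 : z η = (k * k) η := by
    have e : η = k (k η) + y (y η) := by
      rw [← mul_apply_eq_comp y, hyy, sub_apply,
        one_apply_eq_self, mul_apply_eq_comp, add_sub_cancel]
    conv_lhs => rw [e]
    rw [map_add, h1, h2, add_zero]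
    rfl
  refine ⟨vf π (z η), isPos_vf π _, hη ▸ vf_le π hzB (hp.norm_le) η, ?_⟩
  ext c
  have hz2 : z * z = z := hp.isIdempotentElem
  rw [res_vf, vf_cmt _ hz, hp.isSelfAdjoint.star_eq, hz2, h3, hkk c]

theorem glue_partition [PartialOrder B] [StarOrderedRing B] [TopologicalSpace.SeparableSpace B]
    (hι : Function.Injective ι) (hS : SepP ι) {θ₀ : B →L[ℂ] ℂ} (h₀ : IsPos θ₀) (x₀ : B)
    (hx : (θ₀ x₀).re = 0) (F : Finset B) (hF : ∀ b ∈ F, IsSelfAdjoint b) {ε : ℝ} (hε : 0 < ε) :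
    ∃ (n : ℕ) (σ : Fin n → (B →L[ℂ] ℂ)), (∀ i, IsPos (σ i) ∧ (σ i x₀).re = 0) ∧
      ∑ i, σ i = θ₀ ∧ ∑ i, ∑ b ∈ F, dv ι (res ι (σ i)) b ≤ ε := by
  refine tree_glue {τ | IsPos τ} (fun τ h => h) (fun τ h s hs => IsPos.smul h hs)
    (fun τ hτ b hb δ hδ => ?_) ((usc_dv hι F hF).res ι)
    (fun ψ₁ ψ₂ h₁ h₂ => rq_pureB hι hS F hF h₁ h₂) x₀ h₀ hx hε
  obtain ⟨L, _, _, _, π, ξ, hξ, -⟩ := exists_gns hτ
  obtain ⟨𝔅, hB, hM, hX⟩ := exists_maxl (cmt π)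
  obtain ⟨l, hl, hs⟩ := dec_lemma π hB hM (hX ξ) hB.one hb hδ
  refine ⟨l.map fun r => vf π (r ξ), fun τ' h => ?_, ?_, ?_⟩
  · obtain ⟨r, -, rfl⟩ := List.mem_map.1 h
    exact isPos_vf π _
  · rw [vf_partOf π hB hM hB.one hl, one_apply_eq_self, hξ]
  · rw [List.map_map]
    exact hs

end Pool.Agent.P.MP_5d580a_an
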