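import Pool.Agent.P.MP_5d580a_an.Two1
import Pool.Agent.P.MP_5d580a_an.Rq

open scoped ComplexOrder InnerProductSpace ComplexConjugate BoundedContinuousFunction
open MeasureTheory Filter Topology

set_option linter.unusedSectionVars false
set_option linter.unusedVariables false
set_option linter.deprecated false

noncomputable section

namespace Pool.Agent.P.MP_5d580a_an

variable {H : Type} [NormedAddCommGroup H] [InnerProductSpace ℂ H] [CompleteSpace H]

variable {A B : Type} [CStarAlgebra A] [CStarAlgebra B] {ι : A →⋆ₐ[ℂ] B}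

/-- a vector functional at `x γ` in terms of `γ` -/
theorem two2_inner (S x : H →L[ℂ] H) (γ : H) :
    ⟪x γ, S (x γ)⟫_ℂ = ⟪γ, (star x * S * x) γ⟫_ℂ := by
  rw [ContinuousLinearMap.mul_apply, ContinuousLinearMap.mul_apply, inner_star_right]

theorem two2_sa_right {f : H →L[ℂ] H} (hf : star f = f) (ξ η : H) : ⟪ξ, f η⟫_ℂ = ⟪f ξ, η⟫_ℂ := by
  rw [← inner_star_right, hf]

theorem two2_corner {S f x : H →L[ℂ] H} (hf : IsStarProjection f) (hx : f * x = x) :
    star x * S * x = star x * (f * S * f) * x := by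
  have h1 : star x * f = star x := by
    have := congrArg star hx
    rwa [star_mul, hf.isSelfAdjoint.star_eq] at this
  calc star x * S * x = (star x * f) * S * (f * x) := by rw [h1, hx]
    _ = _ := by simp only [mul_assoc]

theorem two2_sum_inner {n : ℕ} (S : H →L[ℂ] H) (r : Fin n → (H →L[ℂ] H)) (γ : H) :
    ∑ i, ⟪γ, (S * r i) γ⟫_ℂ = ⟪γ, (S * ∑ i, r i) γ⟫_ℂ := by
  rw [Finset.mul_sum, ContinuousLinearMap.sum_apply, inner_sum]

theorem fixed_W_commute [TopologicalSpace.SeparableSpace A] (hι : Function.Injective ι)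
    (hS : SepP ι) {π : A →⋆ₐ[ℂ] (H →L[ℂ] H)} {f : H →L[ℂ] H} {γ : H} {G N : Set (H →L[ℂ] H)}
    (h2 : CaseTwo (cmt π) f γ G N) {Ψ : B →L[ℂ] (H →L[ℂ] H)} (hΨ : IsW ι π Ψ)
    (hG : ∀ b, ∀ u ∈ G, (f * Ψ b * f) * u = u * (f * Ψ b * f)) :
    ∀ b, ∀ x ∈ cmt π, (f * Ψ b * f) * (f * x * f) = f * x * f * (f * Ψ b * f) := by
  have hf := h2.f_proj
  have hff : f * f = f := hf.isIdempotentElem.eq
  have hfs : star f = f := hf.isSelfAdjoint.star_eq
  have hT1 : ∀ b, f * (f * Ψ b * f) = f * Ψ b * f := fun b => by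
    rw [← mul_assoc, ← mul_assoc, hff]
  have hT2 : ∀ b, (f * Ψ b * f) * f = f * Ψ b * f := fun b => by
    rw [mul_assoc, hff]
  intro b
  refine h2.gen _ (hT1 b) (hT2 b) (hG b) ?_
  intro v hv
  obtain ⟨hvM, hvv, hfv, hvf, 𝔅, hB, hBM, hq, hX, hc⟩ := h2.N_mem v hv
  have hfB : ∀ r ∈ 𝔅, f * r = r * f := fun r hr =>
    ((hc f hff hff (fun u hu => (h2.G_mem u hu).2.2.1.symm)).2 r hr).1
  have hTc := fun b => hc _ (hT1 b) (hT2 b) (hG b)
  set q := star v * v with hqdef
  have hvq : v * q = v := by rw [hqdef, ← mul_assoc, hvv]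
  have hqp : IsStarProjection q := hB.proj q hq
  have hq' : 1 - q ∈ 𝔅 := hB.compl q hq
  -- value of the vector functional at `r γ` for `r` in the Boolean family
  have hval : ∀ r ∈ 𝔅, ∀ b, vfL Ψ (r γ) b = ⟪γ, ((f * Ψ b * f) * r) γ⟫_ℂ := by
    intro r hr b
    have e1 : r γ = (r * f) γ := by rw [ContinuousLinearMap.mul_apply, h2.f_fix]
    have hrp := hB.proj r hr
    have e2 : f * (r * f) = r * f := by rw [← mul_assoc, hfB r hr, mul_assoc, hff]
    rw [vfL_apply, e1, two2_inner, two2_corner hf e2]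
    have e3 : star (r * f) * (f * Ψ b * f) * (r * f) = (f * Ψ b * f) * r * f := by
      rw [star_mul, hfs, hrp.isSelfAdjoint.star_eq, mul_assoc f r, ← ((hTc b).2 r hr).1,
        ← mul_assoc f, hT1, mul_assoc, ← mul_assoc r r f, hrp.isIdempotentElem.eq, ← mul_assoc]
    rw [e3, ContinuousLinearMap.mul_apply, h2.f_fix]
  have hval' : ∀ r ∈ 𝔅, ∀ b,
      vfL Ψ ((v * r) γ) b = ⟪γ, ((star v * (f * Ψ b * f) * v) * r) γ⟫_ℂ := by
    intro r hr b
    have hrp := hB.proj r hr
    have e2 : f * (v * r) = v * r := by rw [← mul_assoc, hfv]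
    rw [vfL_apply, two2_inner, two2_corner hf e2]
    have e4 : v * r = (v * r * star v) * v := by
      rw [mul_assoc (v * r), ← hqdef, mul_assoc, hB.comm r hr q hq, ← mul_assoc, hvq]
    have e5 : star (v * r) * (v * r * star v) = star (v * r) := by
      rw [star_mul, hrp.isSelfAdjoint.star_eq]
      calc r * star v * (v * r * star v) = r * (q * r) * star v := by
            simp only [hqdef, mul_assoc]
        _ = r * star (v * q) := by
            rw [← hB.comm r hr q hq, ← mul_assoc, hrp.isIdempotentElem.eq, star_mul,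
              hqp.isSelfAdjoint.star_eq, mul_assoc]
        _ = r * star v := by rw [hvq]
    have e6 : star (v * r) = star v * (v * r * star v) := by
      rw [star_mul, hrp.isSelfAdjoint.star_eq]
      calc r * star v = r * star (v * q) := by rw [hvq]
        _ = q * r * star v := by
            rw [star_mul, hqp.isSelfAdjoint.star_eq, ← mul_assoc, hB.comm r hr q hq]
        _ = _ := by simp only [hqdef, mul_assoc]
    have e7 := ((hTc b).2 r hr).2
    have e3 : star (v * r) * (f * Ψ b * f) * (v * r) = (star v * (f * Ψ b * f) * v) * r := by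
      generalize f * Ψ b * f = T at e7 ⊢
      calc star (v * r) * T * (v * r) = star (v * r) * T * (v * r * star v * v) := by rw [← e4]
        _ = star (v * r) * (T * (v * r * star v)) * v := by simp only [mul_assoc]
        _ = star (v * r) * T * v := by rw [e7, ← mul_assoc, e5]
        _ = star v * ((v * r * star v) * T) * v := by rw [e6]; simp only [mul_assoc]
        _ = star v * T * ((v * r * star v) * v) := by rw [← e7]; simp only [mul_assoc]
        _ = _ := by rw [← e4]; simp only [mul_assoc]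
    rw [e3]
  have key : vfL Ψ γ = vfL Ψ (v γ) + vfL Ψ ((1 - q) γ) := by
    refine rigid_A hι hS π γ (fun r => vfL Ψ (r γ))
      (fun r => vfL Ψ ((v * r) γ) + vfL Ψ (((1 - q) * r) γ)) hB hBM hX ?_ ?_
    · intro r hr
      refine ⟨hΨ.mem_ext _, (hΨ.mem_ext _).1.add (hΨ.mem_ext _).1, ?_⟩
      rw [res_add, (hΨ.mem_ext _).2, (hΨ.mem_ext _).2]
      ext a
      rw [ContinuousLinearMap.add_apply, ContinuousLinearMap.mul_apply,
        ContinuousLinearMap.mul_apply, vf_cmt π hvM, vf_cmt π (hBM _ hq'), vf_apply,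
        ← inner_add_right, ← map_add, ← ContinuousLinearMap.add_apply, ← hqdef,
        hqp.one_sub.isSelfAdjoint.star_eq, hqp.one_sub.isIdempotentElem.eq]
      simp
    · intro n r hr h0 h1
      constructor
      · ext b
        rw [ContinuousLinearMap.sum_apply, Finset.sum_congr rfl fun i _ => hval (r i) (hr i) b,
          two2_sum_inner, h1]
        have := hval 1 hB.one b
        simpa using this.symm
      · ext b
        rw [ContinuousLinearMap.sum_apply, ContinuousLinearMap.add_apply]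
        simp only [ContinuousLinearMap.add_apply]
        rw [Finset.sum_add_distrib, Finset.sum_congr rfl fun i _ => hval' (r i) (hr i) b,
          Finset.sum_congr rfl fun i _ => hval _ (hB.mul _ hq' _ (hr i)) b]
        simp only [← mul_assoc]
        rw [two2_sum_inner, two2_sum_inner, h1]
        have e1 := hval' 1 hB.one b
        have e2 := hval _ hq' b
        simp only [mul_one, ← mul_assoc] at e1 e2 ⊢
        rw [e1, e2]
  have key2 : ∀ b, ⟪γ, ((f * Ψ b * f) * q) γ⟫_ℂ = ⟪γ, (star v * (f * Ψ b * f) * v) γ⟫_ℂ := by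
    intro b
    have e0 := congrArg (fun θ : B →L[ℂ] ℂ => θ b) key
    simp only [ContinuousLinearMap.add_apply] at e0
    have e1 := hval' 1 hB.one b
    have e2 := hval _ hq' b
    have e3 := hval 1 hB.one b
    simp only [mul_one, ContinuousLinearMap.one_apply] at e1 e3
    rw [e1, e2, e3, mul_sub, mul_one, ContinuousLinearMap.sub_apply, inner_sub_right] at e0
    linear_combination e0
  have hπf : ∀ a, π a * f = f * π a := mem_cmt.1 h2.f_mem
  have hπv : ∀ a, π a * v = v * π a := mem_cmt.1 hvM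
  have hπv' : ∀ a, π a * star v = star v * π a := mem_cmt.1 (star_mem hvM)
  have hπq : ∀ a, π a * q = q * π a := mem_cmt.1 (hBM q hq)
  have key3 : f * ((f * Ψ b * f) * q) * f = f * (star v * (f * Ψ b * f) * v) * f := by
    refine corner_ext hf h2.f_sep (π := π) (ζ := γ) ?_
    intro a a'
    have e0 := key2 (star (ι a') * b * ι a)
    have e1 : f * Ψ (star (ι a') * b * ι a) * f = star (π a') * (f * Ψ b * f) * π a := by
      rw [hΨ.right, ← map_star, hΨ.left, ← map_star π]
      calc f * (π (star a') * Ψ b * π a) * f = (f * π (star a')) * Ψ b * (π a * f) := by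
            simp only [mul_assoc]
        _ = _ := by rw [← hπf, hπf a]; simp only [mul_assoc]
    rw [e1] at e0
    generalize f * Ψ b * f = T at e0 ⊢
    have e2 : star (π a') * T * π a * q = star (π a') * (T * q) * π a := by
      rw [mul_assoc, hπq]; simp only [mul_assoc]
    have e3 : star v * (star (π a') * T * π a) * v = star (π a') * (star v * T * v) * π a := by
      calc star v * (star (π a') * T * π a) * v = (star v * π (star a')) * T * (π a * v) := by
            rw [map_star]; simp only [mul_assoc]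
        _ = _ := by rw [← hπv', hπv, map_star]; simp only [mul_assoc]
    rw [e2, e3] at e0
    simpa only [ContinuousLinearMap.mul_apply, inner_star_right] using e0
  have hfv' : f * star v = star v := by
    have := congrArg star hvf
    rwa [star_mul, hfs] at this
  have hqf : q * f = q := by rw [hqdef, mul_assoc, hvf]
  have e7 := (hTc b).1
  have e8 := ((hTc b).2 q hq).1
  have e9 := hT1 b
  generalize f * Ψ b * f = T at key3 e7 e8 e9 ⊢
  have key4 : T * q = star v * T * v := by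
    calc T * q = (f * T) * (q * f) := by rw [e9, hqf]
      _ = f * (T * q) * f := by simp only [mul_assoc]
      _ = (f * star v) * T * (v * f) := by rw [key3]; simp only [mul_assoc]
      _ = _ := by rw [hfv', hvf]
  calc T * v = T * (v * star v) * v := by rw [mul_assoc, hvv]
    _ = v * (star v * T * v) := by rw [e7]; simp only [mul_assoc]
    _ = v * T := by rw [← key4, e8, ← mul_assoc, hvq]

theorem two2_adj_fix {K : Type} [NormedAddCommGroup K] [InnerProductSpace ℂ K] [CompleteSpace K]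
    {Y : H →L[ℂ] K} (hY : ‖Y‖ ≤ 1) {γ : H} (h : ‖Y γ‖ = ‖γ‖) :
    ContinuousLinearMap.adjoint Y (Y γ) = γ := by
  have h1 : ‖ContinuousLinearMap.adjoint Y (Y γ)‖ ≤ ‖γ‖ := by
    calc _ ≤ ‖ContinuousLinearMap.adjoint Y‖ * ‖Y γ‖ := ContinuousLinearMap.le_opNorm _ _
      _ ≤ 1 * ‖γ‖ := by
          rw [LinearIsometryEquiv.norm_map, h]
          exact mul_le_mul_of_nonneg_right hY (norm_nonneg _)
      _ = _ := one_mul _
  have h2 : ‖ContinuousLinearMap.adjoint Y (Y γ) - γ‖ ^ 2 ≤ 0 := by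
    rw [@norm_sub_sq ℂ, ContinuousLinearMap.adjoint_inner_left, inner_self_eq_norm_sq, h]
    have := pow_le_pow_left₀ (norm_nonneg _) h1 2
    linarith
  have h3 : ‖ContinuousLinearMap.adjoint Y (Y γ) - γ‖ = 0 :=
    pow_eq_zero_iff (two_ne_zero) |>.1 (le_antisymm h2 (by positivity))
  exact sub_eq_zero.1 (norm_eq_zero.1 h3)

theorem ext_unique_corner [TopologicalSpace.SeparableSpace B] (hι : Function.Injective ι)
    (hS : SepP ι) {π : A →⋆ₐ[ℂ] (H →L[ℂ] H)} {f : H →L[ℂ] H} (hf : f ∈ cmt π)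
    (hp : IsStarProjection f) {γ : H} (hγ : f γ = γ) {Ψ : B →L[ℂ] (H →L[ℂ] H)} (hΨ : IsW ι π Ψ)
    (hc : ∀ b, ∀ x ∈ cmt π, (f * Ψ b * f) * (f * x * f) = f * x * f * (f * Ψ b * f)) :
    ∀ θ ∈ Ext ι (vf π γ), θ = vfL Ψ γ := by
  intro θ hθ
  have hff : f * f = f := hp.isIdempotentElem.eq
  have hfs : star f = f := hp.isSelfAdjoint.star_eq
  obtain ⟨L, i1, i2, i3, ρ, η, hρ, hcyc⟩ := exists_gns hθ.1
  have hres : vf (ρ.comp ι) η = vf π γ := by rw [← res_vf, hρ, hθ.2]
  obtain ⟨Y, hY, hYi, hYγ⟩ := exists_intw π γ (ρ.comp ι) η (by rw [hres]; exact isPos_sub_self _)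
  have hn : ‖Y γ‖ = ‖γ‖ := by
    have e1 := vf_one π γ
    rw [← hres, vf_one] at e1
    rw [hYγ]
    exact (pow_left_inj₀ (norm_nonneg _) (norm_nonneg _) two_ne_zero).1 e1
  have hYY := two2_adj_fix hY hn
  obtain ⟨𝔅, hB, hBM, hX⟩ := exists_maxl (cmt ρ)
  set g : (L →L[ℂ] L) → (H →L[ℂ] H) :=
    fun r => (ContinuousLinearMap.adjoint Y).comp (r.comp Y) with hg
  have hgm : ∀ r ∈ 𝔅, g r ∈ cmt π := fun r hr =>
    intw_iff_mem.1 (hYi.adjoint.comp ((intw_iff_mem.2 (cmt_le_comp ι ρ (hBM r hr))).comp hYi))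
  have hg0 : ∀ r ∈ 𝔅, 0 ≤ f * g r * f := by
    intro r hr
    rw [nonneg_iff_inner]
    intro ξ
    have e1 : ⟪ξ, (f * g r * f) ξ⟫_ℂ = ⟪Y (f ξ), r (Y (f ξ))⟫_ℂ := by
      have e0 := two2_inner (g r) f ξ
      rw [hfs] at e0
      rw [← e0]
      simp only [hg, ContinuousLinearMap.comp_apply, ContinuousLinearMap.adjoint_inner_right]
    rw [e1]
    exact nonneg_iff_inner.1 (hB.proj r hr).nonneg _
  have hk : ∀ r : L →L[ℂ] L, ∃ k : H →L[ℂ] H, r ∈ 𝔅 →
      k ∈ cmt π ∧ star k = k ∧ k * k = f * g r * f ∧ f * k * f = k := by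
    intro r
    by_cases hr : r ∈ 𝔅
    · obtain ⟨k, hk0, hk1, -, hk2⟩ := exists_sqrt (hg0 r hr)
      have hks : star k = k := (IsSelfAdjoint.of_nonneg hk0).star_eq
      have hkf : k * f = k := by
        have e1 : star (k * (1 - f)) * (k * (1 - f)) = 0 := by
          rw [star_mul, hks, hp.one_sub.isSelfAdjoint.star_eq, mul_assoc, ← mul_assoc k k, hk1,
            mul_assoc (f * g r), mul_sub f, mul_one, hff, sub_self, mul_zero, mul_zero]
        have e2 := (CStarRing.star_mul_self_eq_zero_iff _).1 e1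
        rw [mul_sub, mul_one, sub_eq_zero] at e2
        exact e2.symm
      have hfk : f * k = k := by
        have := congrArg star hkf
        rwa [star_mul, hfs, hks] at this
      refine ⟨k, fun _ => ⟨mem_cmt.2 fun a => hk2 _ ?_, hks, hk1, by rw [hfk, hkf]⟩⟩
      exact mem_cmt.1 (mul_mem (mul_mem hf (hgm r hr)) hf) a
    · exact ⟨0, fun h => absurd h hr⟩
  choose k hk using hk
  rw [← hρ]
  symm
  refine rigid_B hι hS ρ η (fun r => vfL Ψ (k r γ)) hB hBM (hX η) ?_ ?_
  · intro r hr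
    obtain ⟨h1, h2, h3, h4⟩ := hk r hr
    have e1 : vf (ρ.comp ι) (r η) = vf π (k r γ) := by
      ext a
      have hrp := hB.proj r hr
      rw [vf_cmt π h1, vf_cmt _ (cmt_le_comp ι ρ (hBM r hr)), h2, h3, hrp.isSelfAdjoint.star_eq,
        hrp.isIdempotentElem.eq, ContinuousLinearMap.mul_apply, ContinuousLinearMap.mul_apply, hγ,
        ← ContinuousLinearMap.mul_apply (π a) f, mem_cmt.1 hf a, ContinuousLinearMap.mul_apply,
        two2_sa_right hfs, hγ]
      simp only [hg, ContinuousLinearMap.comp_apply]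
      rw [← hYi.adjoint a, ContinuousLinearMap.adjoint_inner_right, hYγ]
    rw [e1]
    exact hΨ.mem_ext _
  · intro n r hr h0 h1
    ext b
    have hval : ∀ i, vfL Ψ (k (r i) γ) b = ⟪γ, ((f * Ψ b * f) * g (r i)) γ⟫_ℂ := by
      intro i
      obtain ⟨e1, e2, e3, e4⟩ := hk (r i) (hr i)
      have e5 : f * k (r i) = k (r i) := by rw [← e4, ← mul_assoc, ← mul_assoc, hff]
      have e6 := hc b _ e1
      rw [e4] at e6
      rw [vfL_apply, two2_inner, two2_corner hp e5, e2, ← e6, mul_assoc, e3]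
      have e7 : f * Ψ b * f * (f * g (r i) * f) = f * Ψ b * f * g (r i) * f := by
        calc _ = f * Ψ b * (f * f) * g (r i) * f := by simp only [mul_assoc]
          _ = _ := by rw [hff]
      rw [e7, ContinuousLinearMap.mul_apply, hγ]
    rw [ContinuousLinearMap.sum_apply, Finset.sum_congr rfl fun i _ => hval i, two2_sum_inner]
    have e8 : (∑ i, g (r i)) γ = γ := by
      rw [ContinuousLinearMap.sum_apply]
      simp only [hg, ContinuousLinearMap.comp_apply]
      rw [← map_sum, ← ContinuousLinearMap.sum_apply, h1, ContinuousLinearMap.one_apply, hYY]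
    rw [ContinuousLinearMap.mul_apply, e8, ContinuousLinearMap.mul_apply,
      ContinuousLinearMap.mul_apply, hγ, two2_sa_right hfs, hγ, vfL_apply]

theorem ext_unique_two_case [TopologicalSpace.SeparableSpace A]
    [TopologicalSpace.SeparableSpace B] (hι : Function.Injective ι) (hS : SepP ι)
    {π : A →⋆ₐ[ℂ] (H →L[ℂ] H)} {ξ : H} (hξ : CycR π ξ) (hF : IsFactor (cmt π)) {m : ℕ}
    (hm : Bd ι (vf π ξ) m) {f : H →L[ℂ] H} {γ : H} {G N : Set (H →L[ℂ] H)}
    (h2 : CaseTwo (cmt π) f γ G N) :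
    ∀ θ ∈ Ext ι (vf π ξ), ∀ θ' ∈ Ext ι (vf π ξ), θ = θ' := by
  intro θ hθ θ' hθ'
  obtain ⟨Ψ₁, h₁, e₁, -⟩ := exists_isW_cyc hξ hθ
  obtain ⟨Ψ₂, h₂, e₂, -⟩ := exists_isW_cyc hξ hθ'
  obtain ⟨Ψ, hΨ, hG⟩ := exists_fixed_W h₁ h2 (ext_separable hι hξ hm γ)
  have hu := ext_unique_corner hι hS h2.f_mem h2.f_proj h2.f_fix hΨ
    (fixed_W_commute hι hS h2 hΨ hG)
  have key : ∀ b, Ψ₁ b - Ψ₂ b = 0 := by
    intro b
    refine hF.eq_zero_of_corner h2.f_mem h2.f_proj h2.f_ne ?_
    intro x hx hn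
    obtain ⟨k, hk⟩ := h₁.kraus hx hn
    obtain ⟨Φ₁, p₁, q₁⟩ := hk Ψ₁ h₁
    obtain ⟨Φ₂, p₂, q₂⟩ := hk Ψ₂ h₂
    have e := p₁.corner_eq p₂ ((hu _ (p₁.mem_ext γ)).trans (hu _ (p₂.mem_ext γ)).symm)
      h2.f_proj h2.f_sep b
    rw [q₁, q₂] at e
    have e' : f * star x * (Ψ₁ b - Ψ₂ b) * x * f =
        f * (star x * Ψ₁ b * x + k * Ψ₁ b * k) * f -
          f * (star x * Ψ₂ b * x + k * Ψ₁ b * k) * f := by noncomm_ring
    rw [e', e, sub_self]
  rw [← e₁, ← e₂]
  ext b
  rw [vfL_apply, vfL_apply, sub_eq_zero.1 (key b)]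

end Pool.Agent.P.MP_5d580a_an
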