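import Pool.Agent.P.MP_5d580a_an.DL
import Pool.Agent.P.MP_5d580a_an.One
import Pool.Agent.P.MP_5d580a_an.Two2

open scoped ComplexOrder InnerProductSpace ComplexConjugate BoundedContinuousFunction
open MeasureTheory Filter Topology

set_option linter.unusedSectionVars false
set_option linter.unusedVariables false

noncomputable section

namespace Pool.Agent.P.MP_5d580a_an

variable {H : Type} [NormedAddCommGroup H] [InnerProductSpace ℂ H] [CompleteSpace H]

variable {A B : Type} [CStarAlgebra A] [CStarAlgebra B] {ι : A →⋆ₐ[ℂ] B}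

/-- the common restriction of an extreme pair is factorial -/
theorem main_fac [TopologicalSpace.SeparableSpace B] (hι : Function.Injective ι) (hS : SepP ι)
    {φ ψ : B →L[ℂ] ℂ} (hφ : IsPos φ) (hψ : IsPos ψ) (he : res ι φ = res ι ψ)
    (hx : ∀ φ' ψ' : B →L[ℂ] ℂ, IsPos φ' → IsPos (φ - φ') → IsPos ψ' → IsPos (ψ - ψ') →
      res ι φ' = res ι ψ' → ∃ t : ℝ, φ' = (t : ℂ) • φ ∧ ψ' = (t : ℂ) • ψ) :
    Fac (res ι φ) := by
  by_contra hn
  obtain ⟨α, α', hα, hα', h0, h0', hsum, hd⟩ := exists_split (hφ.res ι) hn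
  obtain ⟨φ', p1, p2, p3⟩ := lift_split hι hS hφ hα hα' hsum hd
  obtain ⟨ψ', q1, q2, q3⟩ := lift_split hι hS hψ hα hα' (he ▸ hsum) hd
  obtain ⟨t, ht, -⟩ := hx φ' ψ' p1 p2 q1 q2 (p3.trans q3.symm)
  set ρ := res ι φ with hρ
  have hρp : IsPos ρ := hφ.res ι
  have e1 : α = (t : ℂ) • ρ := by rw [← p3, ht, res_smul]
  have e2 : α' = ((1 - t : ℝ) : ℂ) • ρ := by
    have : α' = ρ - α := by rw [hsum]; abel
    rw [this, e1]; push_cast; module
  have hρ0 : ρ ≠ 0 := by
    intro h; apply h0; rw [e1, h]; ext c; simp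
  have hm := hρp.one_pos hρ0
  have ht0 : 0 ≤ t := by
    have h1 := hα.one_nonneg
    rw [e1] at h1
    simp only [smul_apply, smul_eq_mul, Complex.re_ofReal_mul] at h1
    exact nonneg_of_mul_nonneg_left h1 hm
  have ht1 : 0 ≤ 1 - t := by
    have h1 := hα'.one_nonneg
    rw [e2] at h1
    simp only [smul_apply, smul_eq_mul, Complex.re_ofReal_mul] at h1
    exact nonneg_of_mul_nonneg_left h1 hm
  exact not_disj_smul hρp ht0 ht1 (e1 ▸ h0) (e2 ▸ h0') (e1 ▸ e2 ▸ hd)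

theorem surjective_of_sep [TopologicalSpace.SeparableSpace A] [TopologicalSpace.SeparableSpace B]
    (hι : Function.Injective ι) (hS : SepP ι) : Function.Surjective ι := by
  by_contra hs
  obtain ⟨φ, ψ, hφ, hψ, hne, he, hx⟩ := exists_extreme_pair hι hs
  have hfac := main_fac hι hS hφ hψ he hx
  obtain ⟨L, _, _, _, π, ξ, hcyc, hle, -, hF, hc⟩ := faithfulise hfac one_pos
  have hξ : ξ ≠ 0 := by
    intro h0
    apply hne
    have hz : vf π ξ = 0 := (vf_eq_zero_iff π ξ).2 h0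
    rw [hz] at hle
    have h1 := hle.one_nonneg
    simp only [zero_sub, neg_apply, Complex.neg_re, Left.nonneg_neg_iff] at h1
    have h2 : (φ 1).re ≤ 0 := by rw [← res_one ι]; exact h1
    have h3 : (ψ 1).re ≤ 0 := by rw [← res_one ι, ← he]; exact h1
    rw [hφ.eq_zero h2, hψ.eq_zero h3]
  obtain ⟨m, hm⟩ := exists_bd hι hS hF ξ
  have := hcyc.separable
  have huniq : ∀ θ ∈ Ext ι (vf π ξ), ∀ θ' ∈ Ext ι (vf π ξ), θ = θ' := by
    rcases thmB hF hc (sepg_cmt hcyc) hξ with h1 | ⟨f, γ, G, N, h2⟩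
    · exact ext_unique_one hι hS hcyc hξ hm h1
    · exact ext_unique_two_case hι hS hcyc hF hm h2
  obtain ⟨τ, hτ, hτe⟩ := exists_ext hι hle
  have h1 : φ + τ ∈ Ext ι (vf π ξ) := ⟨hφ.add hτ, by rw [res_add, hτe]; abel⟩
  have h2 : ψ + τ ∈ Ext ι (vf π ξ) := ⟨hψ.add hτ, by rw [res_add, hτe, ← he]; abel⟩
  exact hne (add_right_cancel (huniq _ h1 _ h2))

end Pool.Agent.P.MP_5d580a_an
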