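import Pool.Agent.P.MP_5d580a_an.Pos

open scoped ComplexOrder InnerProductSpace ComplexConjugate BoundedContinuousFunction
open MeasureTheory Filter Topology

set_option linter.unusedSectionVars false
set_option linter.unusedVariables false

noncomputable section

namespace Pool.Agent.P.MP_5d580a_an

variable {H : Type} [NormedAddCommGroup H] [InnerProductSpace ℂ H] [CompleteSpace H]

variable {B : Type} [CStarAlgebra B] [PartialOrder B] [StarOrderedRing B]

theorem ort_sign {n : ℕ} (a : Fin n → Fin n → ℝ) {K : ℝ}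
    (h : ∀ s : Fin n → ℝ, (∀ i, s i = 1 ∨ s i = -1) → ∑ i, ∑ j, s i * s j * a i j ≤ K) :
    ∑ i, a i i ≤ K := by
  let v : (Fin n → ℤˣ) → Fin n → ℝ := fun s i => ((s i : ℤ) : ℝ)
  have hv : ∀ s i, v s i = 1 ∨ v s i = -1 := fun s i => by
    rcases Int.units_eq_one_or (s i) with h | h <;> simp [v, h]
  have h0 : ∀ i j, ∑ s, v s i * v s j = if i = j then (Fintype.card (Fin n → ℤˣ) : ℝ) else 0 :=
    fun i j => by
    split_ifs with hij
    · rw [Finset.sum_congr rfl fun s _ => show v s i * v s j = 1 by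
        rcases hv s j with h | h <;> simp [hij, h]]
      simp
    · have := Equiv.sum_comp (Equiv.mulLeft (Pi.mulSingle i (-1))) fun s => v s i * v s j
      simp only [v, Equiv.coe_mulLeft, Pi.mul_apply, Pi.mulSingle_eq_same,
        Pi.mulSingle_eq_of_ne' hij, one_mul, neg_mul, Units.val_neg, Int.cast_neg,
        Finset.sum_neg_distrib] at this ⊢
      linarith
  have h1 := Finset.sum_le_sum fun s (_ : s ∈ Finset.univ) => h (v s) (hv s)
  rw [Finset.sum_comm, Finset.sum_congr rfl fun i _ => Finset.sum_comm] at h1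
  simp only [← Finset.sum_mul, h0, ite_mul, zero_mul, Finset.sum_ite_eq, Finset.mem_univ, if_true,
    ← Finset.mul_sum, Finset.sum_const, Finset.card_univ, nsmul_eq_mul] at h1
  exact le_of_mul_le_mul_left h1 (by exact_mod_cast Fintype.card_pos)

theorem ort_norm {x : B} (h1 : -1 ≤ x) (h2 : x ≤ 1) : ‖x‖ ≤ 1 := by
  have hx : IsSelfAdjoint x := by
    simpa using (IsSelfAdjoint.one B).sub (IsSelfAdjoint.of_nonneg (sub_nonneg.2 h2))
  rw [← cfc_id ℝ x]
  refine norm_cfc_le zero_le_one fun t ht => abs_le.2 ⟨?_, ?_⟩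
  · exact (algebraMap_le_iff_le_spectrum (r := (-1 : ℝ))).1 (by simpa using h1) t ht
  · exact (le_algebraMap_iff_spectrum_le (r := (1 : ℝ))).1 (by simpa using h2) t ht

theorem ort_one {b y : B} (h0 : 0 ≤ b) (h1 : b ≤ 1) (hy : IsSelfAdjoint y) (hy1 : ‖y‖ ≤ 1) :
    ∃ z : B, -b ≤ z ∧ z ≤ b ∧ ∀ θ : B →L[ℂ] ℂ, IsPos θ →
      |(θ y).re - (θ z).re| ≤ 2 * (√(θ 1).re * √(θ (1 - b)).re) := by
  have hb := CFC.sqrt_mul_sqrt_self b
  have hc := CFC.sqrt_nonneg b
  generalize CFC.sqrt b = c at hb hc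
  subst hb
  have sc := (IsSelfAdjoint.of_nonneg hc).star_eq
  have nc : ‖c‖ ≤ 1 := by
    have := (CStarAlgebra.norm_le_one_iff_of_nonneg _).2 h1
    rw [(IsSelfAdjoint.of_nonneg hc).norm_mul_self] at this
    nlinarith [norm_nonneg c]
  have k : ∀ y : B, IsSelfAdjoint y → ‖y‖ ≤ 1 → c * y * c ≤ c * c := fun y hy hy1 => by
    have := CStarAlgebra.star_left_conjugate_le_norm_smul (a := c) hy
    rw [sc] at this
    exact this.trans (smul_le_of_le_one_left h0 hy1)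
  refine ⟨c * y * c, neg_le.1 (by simpa using k (-y) hy.neg (by simpa using hy1)), k y hy hy1,
    fun θ hθ => ?_⟩
  have e1 : star (1 - c) * (1 - c) ≤ 1 - c * c := by
    have := Commute.mul_nonneg hc
      (sub_nonneg.2 ((CStarAlgebra.norm_le_one_iff_of_nonneg c).1 nc))
      ((Commute.one_right c).sub_right (Commute.refl c))
    rw [← sub_nonneg, star_sub, star_one, sc,
      show 1 - c * c - (1 - c) * (1 - c) = c * (1 - c) + c * (1 - c) by noncomm_ring]
    exact add_nonneg this this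
  have e2 : ∀ w : B, ‖w‖ ≤ 1 → ‖θ (star w * (1 - c))‖ ≤ √(θ 1).re * √(θ (1 - c * c)).re :=
    fun w hw => by
    rw [← Real.sqrt_mul hθ.one_nonneg, mul_comm]
    refine Real.le_sqrt_of_sq_le ((hθ.cs _ _).trans (mul_le_mul (hθ.re_mono e1) (hθ.re_mono ?_)
      (hθ.re_star_mul _) ((hθ.re_star_mul _).trans (hθ.re_mono e1))))
    rw [← CStarAlgebra.norm_le_one_iff_of_nonneg _ (star_mul_self_nonneg w),
      CStarRing.norm_star_mul_self]
    nlinarith [norm_nonneg w]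
  have e3 := (Complex.abs_re_le_norm _).trans (e2 y hy1)
  have e4 := (Complex.abs_re_le_norm _).trans
    (e2 (y * c) ((norm_mul_le _ _).trans (mul_le_one₀ hy1 (norm_nonneg _) nc)))
  have e5 : (θ (c * y)).re = (θ (y * c)).re := by
    rw [← Complex.conj_re, ← hθ.map_star, star_mul, sc, hy.star_eq]
  rw [star_mul, sc, hy.star_eq, mul_sub, mul_one, map_sub, Complex.sub_re, e5] at e4
  rw [hy.star_eq, mul_sub, mul_one, map_sub, Complex.sub_re] at e3
  exact (abs_sub_le _ _ _).trans (by linarith)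

theorem ort_lemma {n : ℕ} (b : Fin n → B) (hb : ∀ i, 0 ≤ b i) (hb1 : ∑ i, b i ≤ 1)
    (S : Fin n → Set (B →L[ℂ] ℂ)) (m : Fin n → ℝ)
    (hS : ∀ i, ∀ θ ∈ S i, IsPos θ ∧ (θ 1).re = m i) (θ₀ : Fin n → (B →L[ℂ] ℂ))
    (h₀ : ∀ i, θ₀ i ∈ S i) {ε : ℝ} (hε : 0 ≤ ε) (h₁ : ∑ i, (θ₀ i (1 - b i)).re ≤ ε)
    (hsel : ∀ θ θ' : Fin n → (B →L[ℂ] ℂ), (∀ i, θ i ∈ S i) → (∀ i, θ' i ∈ S i) →
      ‖∑ i, θ i - ∑ i, θ' i‖ ≤ 2 * ε)
    (θ θ' : Fin n → (B →L[ℂ] ℂ)) (hθ : ∀ i, θ i ∈ S i) (hθ' : ∀ i, θ' i ∈ S i) (y : Fin n → B)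
    (hy : ∀ i, IsSelfAdjoint (y i) ∧ ‖y i‖ ≤ 1) :
    ∑ i, ((θ i (y i)).re - (θ' i (y i)).re) ≤ 2 * ε + 4 * √(∑ i, m i) * √(3 * ε) := by
  have key : ∀ θ θ' : Fin n → (B →L[ℂ] ℂ), (∀ i, θ i ∈ S i) → (∀ i, θ' i ∈ S i) →
      ∀ z : Fin n → B, (∀ i, -b i ≤ z i ∧ z i ≤ b i) →
        ∑ i, ((θ i (z i)).re - (θ' i (z i)).re) ≤ 2 * ε := fun θ θ' hθ hθ' z hz => by
    refine ort_sign (fun i j => (θ i (z j)).re - (θ' i (z j)).re) fun s hs => ?_
    have h1 := hsel (fun i => if s i = 1 then θ i else θ' i) (fun i => if s i = 1 then θ' i else θ i)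
      (fun i => by split_ifs; exacts [hθ i, hθ' i]) (fun i => by split_ifs; exacts [hθ' i, hθ i])
    have h2 : ∀ j, -b j ≤ (s j : ℂ) • z j ∧ (s j : ℂ) • z j ≤ b j := fun j => by
      rcases hs j with h | h
      · simpa [h] using hz j
      · simpa [h, neg_le] using (hz j).symm
    have h3 : ‖∑ j, (s j : ℂ) • z j‖ ≤ 1 :=
      ort_norm ((neg_le_neg hb1).trans (by
        rw [← Finset.sum_neg_distrib]
        exact Finset.sum_le_sum fun j _ => (h2 j).1))
        ((Finset.sum_le_sum fun j _ => (h2 j).2).trans hb1)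
    refine le_trans (le_of_eq ?_) (((Complex.re_le_norm _).trans
      (ContinuousLinearMap.unit_le_opNorm _ _ h3)).trans h1)
    rw [← Finset.sum_sub_distrib, ContinuousLinearMap.sum_apply, Complex.re_sum]
    refine Finset.sum_congr rfl fun i _ => ?_
    rw [map_sum, Complex.re_sum]
    refine Finset.sum_congr rfl fun j _ => ?_
    rcases hs i with h | h
    · simp [h, mul_sub]
    · simp [h, show (-1 : ℝ) ≠ 1 by norm_num, mul_sub, neg_add_eq_sub]
  have b1 : ∀ i, b i ≤ 1 := fun i =>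
    (Finset.single_le_sum (fun j _ => hb j) (Finset.mem_univ i)).trans hb1
  choose z hz1 hz2 hz using fun i => ort_one (hb i) (b1 i) (hy i).1 (hy i).2
  have k2 : ∀ θ : Fin n → (B →L[ℂ] ℂ), (∀ i, θ i ∈ S i) →
      ∑ i, |(θ i (y i)).re - (θ i (z i)).re| ≤ 2 * (√(∑ i, m i) * √(3 * ε)) := fun θ hθ => by
    have h1 := key θ₀ θ h₀ hθ b fun i => ⟨neg_le_self (hb i), le_rfl⟩
    have h2 : ∑ i, (θ i (1 - b i)).re ≤ 3 * ε := by
      refine le_trans (le_of_eq ?_) ((add_le_add h1 h₁).trans (by linarith))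
      rw [← Finset.sum_add_distrib]
      refine Finset.sum_congr rfl fun i _ => ?_
      simp only [map_sub, Complex.sub_re, (hS i _ (hθ i)).2, (hS i _ (h₀ i)).2]
      ring
    refine (Finset.sum_le_sum fun i _ => hz i _ (hS i _ (hθ i)).1).trans ?_
    rw [← Finset.mul_sum]
    refine mul_le_mul_of_nonneg_left ((Real.sum_sqrt_mul_sqrt_le _
      (fun i => (hS i _ (hθ i)).1.one_nonneg) fun i =>
        (hS i _ (hθ i)).1.re_nonneg (sub_nonneg.2 (b1 i))).trans ?_) zero_le_two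
    rw [Finset.sum_congr rfl fun i _ => (hS i _ (hθ i)).2]
    gcongr
  have h3 := add_le_add (key θ θ' hθ hθ' z fun i => ⟨hz1 i, hz2 i⟩) (add_le_add (k2 θ hθ) (k2 θ' hθ'))
  rw [← Finset.sum_add_distrib, ← Finset.sum_add_distrib] at h3
  refine le_trans (Finset.sum_le_sum fun i _ => ?_) (h3.trans (by linarith))
  linarith [le_abs_self ((θ i (y i)).re - (θ i (z i)).re),
    neg_abs_le ((θ' i (y i)).re - (θ' i (z i)).re)]

end Pool.Agent.P.MP_5d580a_an
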