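import Pool.Agent.P.MP_5d580a_an.CalcSa

open scoped ComplexOrder InnerProductSpace ComplexConjugate BoundedContinuousFunction
open MeasureTheory Filter Topology

set_option linter.unusedSectionVars false
set_option linter.unusedVariables false

noncomputable section

namespace Pool.Agent.P.MP_5d580a_an

variable {H : Type} [NormedAddCommGroup H] [InnerProductSpace ℂ H] [CompleteSpace H]

variable {M : VonNeumannAlgebra H}

/-- the difference of two vector functionals -/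
def pl1_om (ξ₁ ξ₂ : H) : (H →L[ℂ] H) →ₗ[ℂ] ℂ where
  toFun T := ⟪ξ₁, T ξ₁⟫_ℂ - ⟪ξ₂, T ξ₂⟫_ℂ
  map_add' S T := by simp; ring
  map_smul' c T := by simp; ring

theorem pl1_om_apply (ξ₁ ξ₂ : H) (T : H →L[ℂ] H) :
    pl1_om ξ₁ ξ₂ T = ⟪ξ₁, T ξ₁⟫_ℂ - ⟪ξ₂, T ξ₂⟫_ℂ := rfl

theorem pl1_om_star (ξ₁ ξ₂ : H) (T : H →L[ℂ] H) :
    pl1_om ξ₁ ξ₂ (star T) = conj (pl1_om ξ₁ ξ₂ T) := by
  simp only [pl1_om_apply, map_sub, inner_star_right, inner_conj_symm]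

theorem pl1_om_wot (ξ₁ ξ₂ : H) {ι : Type} {l : Filter ι} {T : ι → (H →L[ℂ] H)} {S : H →L[ℂ] H}
    (h : ∀ ξ η, Tendsto (fun i => ⟪η, T i ξ⟫_ℂ) l (𝓝 ⟪η, S ξ⟫_ℂ)) :
    Tendsto (fun i => (pl1_om ξ₁ ξ₂ (T i)).re) l (𝓝 (pl1_om ξ₁ ξ₂ S).re) :=
  (Complex.continuous_re.tendsto _).comp ((h ξ₁ ξ₁).sub (h ξ₂ ξ₂))

theorem pl1_flip {e T : H →L[ℂ] H} (he : IsSelfAdjoint e) (hT : IsSelfAdjoint T)
    (h : e * T = T) : T * e = T := by
  have := congrArg star h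
  rwa [star_mul, he.star_eq, hT.star_eq] at this

/-- the unit interval of the corner -/
def pl1_S (M : VonNeumannAlgebra H) (f T : H →L[ℂ] H) : Prop := T ∈ M ∧ 0 ≤ T ∧ T ≤ 1 ∧ f * T = T

theorem pl1_S_wot {f : H →L[ℂ] H} {ι : Type} {l : Filter ι} [l.NeBot] {T : ι → (H →L[ℂ] H)}
    {S : H →L[ℂ] H} (h : ∀ ξ η, Tendsto (fun i => ⟪η, T i ξ⟫_ℂ) l (𝓝 ⟪η, S ξ⟫_ℂ))
    (hT : ∀ i, pl1_S M f (T i)) : pl1_S M f S := by
  have h1 := le_of_wot h (a := 0) (b := 1) (.of_forall fun i => ⟨(hT i).2.1, (hT i).2.2.1⟩)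
  refine ⟨mem_of_wot h (.of_forall fun i => (hT i).1), h1.1, h1.2, ?_⟩
  simpa using mul_eq_of_wot h (a := f) (b := 1) (c := 1) (d := 1)
    (.of_forall fun i => by simpa using (hT i).2.2.2)

theorem pl1_S_sq {f T : H →L[ℂ] H} (h : pl1_S M f T) :
    T * T ≤ T ∧ pl1_S M f (T * T) ∧ pl1_S M f (T + T - T * T) := by
  obtain ⟨h1, h2, h3, h4⟩ := h
  have h5 : T * T ≤ T := by
    have := Commute.mul_nonneg h2 (sub_nonneg.2 h3) ((Commute.one_right T).sub_right (.refl T))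
    rwa [mul_sub, mul_one, sub_nonneg] at this
  refine ⟨h5, ⟨mul_mem h1 h1, h2.isSelfAdjoint.mul_self_nonneg, h5.trans h3, ?_⟩,
    sub_mem (add_mem h1 h1) (mul_mem h1 h1), ?_, ?_, ?_⟩
  · rw [← mul_assoc, h4]
  · rw [add_sub_assoc]
    exact add_nonneg h2 (sub_nonneg.2 h5)
  · have := (sub_nonneg.2 h3).isSelfAdjoint.mul_self_nonneg
    rw [← sub_nonneg, show 1 - (T + T - T * T) = (1 - T) * (1 - T) by noncomm_ring]
    exact this
  · rw [mul_sub, mul_add, ← mul_assoc, h4]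

theorem pl1_max {f : H →L[ℂ] H} (ξ₁ ξ₂ : H) : ∃ e, IsStarProjection e ∧ pl1_S M f e ∧
    ∀ T, pl1_S M f T → (pl1_om ξ₁ ξ₂ T).re ≤ (pl1_om ξ₁ ξ₂ e).re := by
  have hb : BddAbove ((fun T => (pl1_om ξ₁ ξ₂ T).re) '' {T | pl1_S M f T}) := by
    refine ⟨(⟪ξ₁, (1 : H →L[ℂ] H) ξ₁⟫_ℂ).re, ?_⟩
    rintro _ ⟨T, hT, rfl⟩
    have h1 := re_inner_mono hT.2.2.1 ξ₁
    have h2 := re_inner_mono hT.2.1 ξ₂
    simp only [pl1_om_apply, Complex.sub_re]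
    simp only [zero_apply, inner_zero_right, Complex.zero_re] at h2
    linarith
  obtain ⟨u, -, hu, hu'⟩ := exists_seq_tendsto_sSup
    (Set.Nonempty.image _ (s := {T | pl1_S M f T})
      ⟨0, zero_mem M, le_rfl, zero_le_one, mul_zero f⟩) hb
  choose T hT hTu using hu'
  obtain ⟨S, -, hS⟩ := exists_wot_ultra (Ultrafilter.of atTop) T 1 fun i =>
    norm_le_one_of_le_one (hT i).2.1 (hT i).2.2.1
  have hS1 : pl1_S M f S := pl1_S_wot hS hT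
  have hle : ∀ T, pl1_S M f T → (pl1_om ξ₁ ξ₂ T).re ≤ (pl1_om ξ₁ ξ₂ S).re := fun T' hT' => by
    have h1 := pl1_om_wot ξ₁ ξ₂ hS
    simp only [hTu] at h1
    rw [tendsto_nhds_unique h1 (hu.mono_left (Ultrafilter.of_le _))]
    exact le_csSup hb ⟨T', hT', rfl⟩
  let y : ℕ → (H →L[ℂ] H) := fun n => (fun X => X * X)^[n] S
  have hy : ∀ n, y (n + 1) = y n * y n := fun n => Function.iterate_succ_apply' _ _ _
  have hyS : ∀ n, pl1_S M f (y n) ∧ (pl1_om ξ₁ ξ₂ (y n)).re = (pl1_om ξ₁ ξ₂ S).re := by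
    intro n
    induction n with
    | zero => exact ⟨hS1, rfl⟩
    | succ n ih =>
      obtain ⟨-, h2, h3⟩ := pl1_S_sq ih.1
      have h4 := hle _ h2
      have h5 := hle _ h3
      simp only [map_sub, map_add, Complex.sub_re, Complex.add_re] at h5
      rw [hy]
      exact ⟨h2, by linarith [ih.2]⟩
  obtain ⟨z, -, -, -, hz⟩ := exists_mono_lim (fun n => -y n)
    (fun n => (hyS n).1.2.1.isSelfAdjoint.neg)
    (fun n => neg_le_neg (hy n ▸ (pl1_S_sq (hyS n).1).1)) 1 fun n => by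
      rw [norm_neg]
      exact norm_le_one_of_le_one (hyS n).1.2.1 (hyS n).1.2.2.1
  have hz' : ∀ ξ, Tendsto (fun n => y n ξ) atTop (𝓝 ((-z) ξ)) := fun ξ => by
    simpa using (hz ξ).neg
  have hw := wot_of_sot hz'
  have he : pl1_S M f (-z) := pl1_S_wot hw fun n => (hyS n).1
  refine ⟨-z, ⟨?_, he.2.1.isSelfAdjoint⟩, he, fun T' hT' => ?_⟩
  · refine ext_inner_self fun ξ => ?_
    have h1 := (hw ξ ξ).comp (tendsto_add_atTop_nat 1)
    have h2 : Tendsto (fun n => ⟪y n ξ, y n ξ⟫_ℂ) atTop (𝓝 ⟪(-z) ξ, (-z) ξ⟫_ℂ) :=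
      (hz' ξ).inner (hz' ξ)
    have h3 : ∀ n, ⟪y n ξ, y n ξ⟫_ℂ = ⟪ξ, y (n + 1) ξ⟫_ℂ := fun n => by
      rw [hy, ← inner_star_right, (hyS n).1.2.1.isSelfAdjoint.star_eq]
      rfl
    simp only [h3] at h2
    rw [tendsto_nhds_unique h1 h2, ← inner_star_right, he.2.1.isSelfAdjoint.star_eq]
    rfl
  · have h1 := pl1_om_wot ξ₁ ξ₂ hw
    simp only [(hyS _).2] at h1
    rw [tendsto_nhds_unique h1 tendsto_const_nhds]
    exact hle T' hT'

theorem pl1_scale {T : H →L[ℂ] H} (h0 : 0 ≤ T) {c : ℝ} (hc : 0 < c) (hT : ‖T‖ ≤ c) :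
    0 ≤ ((c⁻¹ : ℝ) : ℂ) • T ∧ ((c⁻¹ : ℝ) : ℂ) • T ≤ 1 := by
  have h1 : 0 ≤ ((c⁻¹ : ℝ) : ℂ) • T :=
    smul_nonneg (Complex.zero_le_real.2 (inv_pos.2 hc).le) h0
  refine ⟨h1, (CStarAlgebra.norm_le_one_iff_of_nonneg _ h1).1 ?_⟩
  rw [norm_smul, Complex.norm_real, Real.norm_of_nonneg (inv_pos.2 hc).le, inv_mul_le_iff₀ hc,
    mul_one]
  exact hT

theorem pl1_lin {A B : ℝ} (h : ∀ s : ℝ, s * A ≤ s ^ 2 * B) : A = 0 := by
  by_contra hA
  have h1 : 0 < |B| + 1 := by positivity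
  have h2 := h (A / (|B| + 1))
  have h3 : 0 < A ^ 2 := by positivity
  rw [div_pow, div_mul_eq_mul_div, div_mul_eq_mul_div, div_le_div_iff₀ h1 (by positivity)] at h2
  nlinarith [mul_pos h3 h1, mul_le_mul_of_nonneg_left (le_abs_self B) (mul_pos h3 h1).le]

theorem jordan {f : H →L[ℂ] H} (hf : f ∈ M) (hp : IsStarProjection f) (ξ₁ ξ₂ : H) :
    ∃ e ∈ M, IsStarProjection e ∧ f * e = e ∧
      (∀ T ∈ M, 0 ≤ T → e * T = T → (⟪ξ₂, T ξ₂⟫_ℂ).re ≤ (⟪ξ₁, T ξ₁⟫_ℂ).re) ∧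
      (∀ T ∈ M, 0 ≤ T → (f - e) * T = T → (⟪ξ₁, T ξ₁⟫_ℂ).re ≤ (⟪ξ₂, T ξ₂⟫_ℂ).re) ∧
      ∀ y ∈ M, e * y = y → y * (f - e) = y → ⟪ξ₁, y ξ₁⟫_ℂ = ⟪ξ₂, y ξ₂⟫_ℂ := by
  obtain ⟨e, he, ⟨heM, he0, he1, hfe⟩, hmax⟩ := pl1_max (M := M) (f := f) ξ₁ ξ₂
  have hee : e * e = e := he.isIdempotentElem
  have hff : f * f = f := hp.isIdempotentElem
  have hef : e * f = e := pl1_flip hp.isSelfAdjoint he.isSelfAdjoint hfe
  refine ⟨e, heM, he, hfe, fun T hT h0 h1 => ?_, fun T hT h0 h1 => ?_, fun y hy h1 h2 => ?_⟩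
  · have hc : 0 < ‖T‖ + 1 := by positivity
    obtain ⟨a1, a2⟩ := pl1_scale h0 hc (by linarith)
    have h2 := pl1_flip he.isSelfAdjoint h0.isSelfAdjoint h1
    have := hmax (e - (((‖T‖ + 1)⁻¹ : ℝ) : ℂ) • T) ⟨sub_mem heM (vn_smul_mem _ hT), ?_,
      (sub_le_self _ a1).trans he1, ?_⟩
    · rw [map_sub, map_smul, Complex.sub_re, smul_eq_mul, Complex.re_ofReal_mul, sub_le_self_iff,
        mul_nonneg_iff_of_pos_left (inv_pos.2 hc), pl1_om_apply, Complex.sub_re] at this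
      linarith
    · have := he.isSelfAdjoint.conjugate_nonneg (sub_nonneg.2 a2)
      rwa [mul_sub, mul_one, mul_smul_comm, h1, sub_mul, smul_mul_assoc, h2, hee] at this
    · rw [mul_sub, mul_smul_comm, hfe, ← h1, ← mul_assoc, hfe]
  · have hc : 0 < ‖T‖ + 1 := by positivity
    obtain ⟨a1, a2⟩ := pl1_scale h0 hc (by linarith)
    have h2 : (1 - e) * T = T := by
      rw [← h1, ← mul_assoc, sub_mul, one_mul, mul_sub, hef, hee, sub_self, sub_zero]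
    have h3 := pl1_flip he.one_sub.isSelfAdjoint h0.isSelfAdjoint h2
    have := hmax (e + (((‖T‖ + 1)⁻¹ : ℝ) : ℂ) • T) ⟨add_mem heM (vn_smul_mem _ hT),
      add_nonneg he0 a1, ?_, ?_⟩
    · rw [map_add, map_smul, Complex.add_re, smul_eq_mul, Complex.re_ofReal_mul,
        add_le_iff_nonpos_right, pl1_om_apply, Complex.sub_re] at this
      nlinarith [inv_pos.2 hc]
    · have := he.one_sub.isSelfAdjoint.conjugate_nonneg (sub_nonneg.2 a2)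
      rw [mul_sub (1 - e), mul_one, mul_smul_comm, h2, sub_mul (1 - e), smul_mul_assoc, h3,
        he.one_sub.isIdempotentElem.eq, sub_sub, sub_nonneg] at this
      exact this
    · rw [mul_add, mul_smul_comm, hfe, ← h1, ← mul_assoc, mul_sub, hff, hfe]
  · have key : ∀ y ∈ M, e * y = y → y * (f - e) = y → (pl1_om ξ₁ ξ₂ y).re = 0 := by
      intro y hy h1 h2
      have h3 : y * e = 0 := by rw [← h2, mul_assoc, sub_mul, hfe, hee, sub_self, mul_zero]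
      have h4 : y * f = y := by rw [← h2, mul_assoc, sub_mul, hff, hef]
      have s1 : star y * e = star y := by
        rw [← he.isSelfAdjoint.star_eq, ← star_mul, h1]
      have s3 : e * star y = 0 := by
        rw [← he.isSelfAdjoint.star_eq, ← star_mul, h3, star_zero]
      have s4 : f * star y = star y := by
        rw [← hp.isSelfAdjoint.star_eq, ← star_mul, h4]
      refine pl1_lin (B := (‖y * star y‖ * (pl1_om ξ₁ ξ₂ e).re -
        (pl1_om ξ₁ ξ₂ (star y * y)).re) / 2) fun s => ?_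
      have hs : star (e + (s : ℂ) • y) = e + (s : ℂ) • star y := by
        rw [star_add, star_smul, he.isSelfAdjoint.star_eq, Complex.star_def, Complex.conj_ofReal]
      have e1 : star (e + (s : ℂ) • y) * (e + (s : ℂ) • y) =
          e + (s : ℂ) • y + (s : ℂ) • star y + ((s ^ 2 : ℝ) : ℂ) • (star y * y) := by
        rw [hs]
        simp only [add_mul, mul_add, smul_mul_assoc, mul_smul_comm, hee, h1, s1, smul_add,
          smul_smul, Complex.ofReal_mul, sq]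
        abel
      have e2 : (e + (s : ℂ) • y) * star (e + (s : ℂ) • y) =
          e + ((s ^ 2 : ℝ) : ℂ) • (y * star y) := by
        rw [hs]
        simp only [add_mul, mul_add, smul_mul_assoc, mul_smul_comm, hee, h3, s3,
          smul_smul, Complex.ofReal_mul, sq, smul_zero, add_zero, zero_add]
      have hc : 0 < 1 + s ^ 2 * ‖y * star y‖ := by positivity
      have hn : ‖star (e + (s : ℂ) • y) * (e + (s : ℂ) • y)‖ ≤ 1 + s ^ 2 * ‖y * star y‖ := by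
        rw [CStarRing.norm_star_mul_self, ← CStarRing.norm_self_mul_star, e2]
        refine (norm_add_le _ _).trans (add_le_add (norm_le_one_of_le_one he0 he1) ?_)
        rw [norm_smul, Complex.norm_real, Real.norm_of_nonneg (sq_nonneg s)]
      obtain ⟨a1, a2⟩ := pl1_scale (star_mul_self_nonneg (e + (s : ℂ) • y)) hc hn
      have hm : e + (s : ℂ) • y ∈ M := add_mem heM (vn_smul_mem _ hy)
      have := hmax _ ⟨vn_smul_mem _ (mul_mem (star_mem hm) hm), a1, a2, by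
        rw [mul_smul_comm, ← mul_assoc, hs, mul_add f, mul_smul_comm, hfe, s4]⟩
      rw [map_smul, smul_eq_mul, Complex.re_ofReal_mul, inv_mul_le_iff₀ hc, e1] at this
      simp only [map_add, map_smul, smul_eq_mul, Complex.add_re, Complex.re_ofReal_mul,
        pl1_om_star, Complex.conj_re] at this
      linarith
    have k1 := key y hy h1 h2
    have k2 := key (Complex.I • y) (vn_smul_mem _ hy) (by rw [mul_smul_comm, h1])
      (by rw [smul_mul_assoc, h2])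
    rw [map_smul, smul_eq_mul, Complex.I_mul_re, neg_eq_zero] at k2
    exact sub_eq_zero.1 (Complex.ext k1 k2)

theorem rn_vn (ξ₁ ξ₂ : H) (h : ∀ T ∈ M, 0 ≤ T → (⟪ξ₂, T ξ₂⟫_ℂ).re ≤ (⟪ξ₁, T ξ₁⟫_ℂ).re) :
    ∃ α : H, ∀ T ∈ M, ⟪ξ₁, T ξ₁⟫_ℂ - ⟪ξ₂, T ξ₂⟫_ℂ = ⟪α, T α⟫_ℂ := by
  let ev : H → (M.toStarSubalgebra →ₗ[ℂ] H) := fun ξ =>
    { toFun := fun x => x.1 ξ, map_add' := fun _ _ => rfl, map_smul' := fun _ _ => rfl }
  obtain ⟨W, hW, h1, h2⟩ := exists_extend (ev ξ₁) (ev ξ₂) 1 zero_le_one fun x => by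
    rw [one_mul]
    refine (sq_le_sq₀ (norm_nonneg _) (norm_nonneg _)).1 ?_
    show ‖x.1 ξ₂‖ ^ 2 ≤ ‖x.1 ξ₁‖ ^ 2
    rw [norm_sq_apply, norm_sq_apply]
    exact h _ (mul_mem (star_mem x.2) x.2) (star_mul_self_nonneg _)
  have hWM : W ∈ M.commutant := VonNeumannAlgebra.mem_commutant_iff.2 fun a ha =>
    ext_range_orth (ev ξ₁) (fun x => by
      have e1 : W (a (x.1 ξ₁)) = a (x.1 ξ₂) := h1 ⟨a * x.1, mul_mem ha x.2⟩
      have e2 : W (x.1 ξ₁) = x.1 ξ₂ := h1 x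
      show a (W (x.1 ξ₁)) = W (a (x.1 ξ₁))
      rw [e1, e2]) fun γ hγ => by
      show a (W γ) = W (a γ)
      rw [h2 γ hγ, map_zero, h2 (a γ) fun x => by
        rw [← inner_star_left]
        exact hγ ⟨star a * x.1, mul_mem (star_mem ha) x.2⟩]
  have hW1 : W ξ₁ = ξ₂ := h1 1
  obtain ⟨y, hy0, hy, -, hc⟩ := exists_sqrt (sub_nonneg.2 (star_mul_self_le_one hW))
  refine ⟨y ξ₁, fun T hT => ?_⟩
  have h3 := hc T (commute_of_mem hT (sub_mem (one_mem _) (mul_mem (star_mem hWM) hWM)))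
  have h4 : y (T (y ξ₁)) = T ξ₁ - (star W) (T ξ₂) := by
    rw [← hW1, commute_apply hT hWM]
    show (y * (T * y)) ξ₁ = ((1 - star W * W) * T) ξ₁
    rw [h3, ← mul_assoc, hy]
  rw [← inner_star_right y, hy0.isSelfAdjoint.star_eq, h4, inner_sub_right, inner_star_right, hW1]

theorem pl1_conj {e : H →L[ℂ] H} (he : IsStarProjection e) (T : H →L[ℂ] H) (ξ : H) :
    ⟪e ξ, T (e ξ)⟫_ℂ = ⟪ξ, (e * T * e) ξ⟫_ℂ := by
  rw [← inner_star_right, he.isSelfAdjoint.star_eq]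
  rfl

theorem pl1_rn {e : H →L[ℂ] H} (heM : e ∈ M) (he : IsStarProjection e) (ξ₁ ξ₂ : H)
    (h : ∀ T ∈ M, 0 ≤ T → e * T = T → (⟪ξ₂, T ξ₂⟫_ℂ).re ≤ (⟪ξ₁, T ξ₁⟫_ℂ).re) :
    ∃ α : H, e α = α ∧ ∀ T ∈ M, pl1_om ξ₁ ξ₂ (e * T * e) = ⟪α, T α⟫_ℂ := by
  have hee : e * e = e := he.isIdempotentElem
  obtain ⟨α, hα⟩ := rn_vn (M := M) (e ξ₁) (e ξ₂) fun T hT h0 => by
    rw [pl1_conj he, pl1_conj he]
    exact h _ (mul_mem (mul_mem heM hT) heM) (he.isSelfAdjoint.conjugate_nonneg h0)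
      (by rw [← mul_assoc, ← mul_assoc, hee])
  refine ⟨e α, congrArg (fun x : H →L[ℂ] H => x α) hee, fun T hT => ?_⟩
  rw [pl1_conj he, ← hα _ (mul_mem (mul_mem heM hT) heM), pl1_conj he, pl1_conj he,
    ← mul_assoc, ← mul_assoc, hee, mul_assoc _ e e, hee, pl1_om_apply]

theorem jordan_vec (M : VonNeumannAlgebra H) (ξ₁ ξ₂ : H) :
    ∃ e ∈ M, IsStarProjection e ∧ ∃ α β : H, e α = α ∧ e β = 0 ∧
      ∀ T ∈ M, ⟪ξ₁, T ξ₁⟫_ℂ - ⟪ξ₂, T ξ₂⟫_ℂ = ⟪α, T α⟫_ℂ - ⟪β, T β⟫_ℂ := by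
  obtain ⟨e, heM, he, -, h1, h2, h3⟩ := jordan (one_mem M) (IsStarProjection.one _) ξ₁ ξ₂
  have heM' : 1 - e ∈ M := sub_mem (one_mem M) heM
  obtain ⟨α, a1, a2⟩ := pl1_rn heM he ξ₁ ξ₂ h1
  obtain ⟨β, b1, b2⟩ := pl1_rn heM' he.one_sub ξ₂ ξ₁ h2
  refine ⟨e, heM, he, α, β, a1, ?_, fun T hT => ?_⟩
  · rw [← b1]
    exact congrArg (fun x : H →L[ℂ] H => x β) he.mul_one_sub_self
  have key : ∀ T ∈ M, pl1_om ξ₁ ξ₂ (e * T * (1 - e)) = 0 := fun T hT =>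
    sub_eq_zero.2 (h3 _ (mul_mem (mul_mem heM hT) heM')
      (by rw [← mul_assoc, ← mul_assoc, he.isIdempotentElem.eq])
      (by rw [mul_assoc, he.one_sub.isIdempotentElem.eq]))
  have k2 : pl1_om ξ₁ ξ₂ ((1 - e) * T * e) = 0 := by
    have := pl1_om_star ξ₁ ξ₂ (e * star T * (1 - e))
    rwa [key _ (star_mem hT), map_zero, star_mul, star_mul, star_star, he.isSelfAdjoint.star_eq,
      he.one_sub.isSelfAdjoint.star_eq, ← mul_assoc] at this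
  have e1 : T = e * T * e + e * T * (1 - e) + (1 - e) * T * e + (1 - e) * T * (1 - e) := by
    noncomm_ring
  have e2 := congrArg (pl1_om ξ₁ ξ₂) e1
  rw [map_add, map_add, map_add, key T hT, k2, a2 T hT] at e2
  rw [← pl1_om_apply, e2, ← b2 T hT, pl1_om_apply, pl1_om_apply]
  ring

theorem pl1_step {g : H →L[ℂ] H} (hg : g ∈ M) (hp : IsStarProjection g) (α β : H) {t : ℝ}
    (ht : 0 ≤ t) : ∃ e ∈ M, IsStarProjection e ∧ g * e = e ∧
      (∀ T ∈ M, 0 ≤ T → e * T = T → t * (⟪α, T α⟫_ℂ).re ≤ (⟪β, T β⟫_ℂ).re) ∧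
      ∀ T ∈ M, 0 ≤ T → (g - e) * T = T → (⟪β, T β⟫_ℂ).re ≤ t * (⟪α, T α⟫_ℂ).re := by
  obtain ⟨e, h1, h2, h3, h4, h5, -⟩ := jordan hg hp β (((√t : ℝ) : ℂ) • α)
  have key : ∀ T : H →L[ℂ] H, (⟪((√t : ℝ) : ℂ) • α, T (((√t : ℝ) : ℂ) • α)⟫_ℂ).re =
      t * (⟪α, T α⟫_ℂ).re := fun T => by
    rw [map_smul, inner_smul_left, inner_smul_right, Complex.conj_ofReal, Complex.re_ofReal_mul,
      Complex.re_ofReal_mul, ← mul_assoc, Real.mul_self_sqrt ht]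
  simp only [key] at h4 h5
  exact ⟨e, h1, h2, h3, h4, h5⟩

theorem pl1_pos {e : H →L[ℂ] H} (he : IsStarProjection e) {α : H} (h : e α ≠ 0) :
    0 < (⟪α, e α⟫_ℂ).re := by
  have := norm_sq_apply e α
  rw [he.isSelfAdjoint.star_eq, he.isIdempotentElem.eq] at this
  rw [← this]
  positivity

theorem local_prop {f : H →L[ℂ] H} (hf : f ∈ M) (hp : IsStarProjection f) (h0 : f ≠ 0) {α β : H}
    (hα : ∀ T ∈ M, T * f = T → T α = 0 → T = 0) (hβ : ∀ T ∈ M, T * f = T → T β = 0 → T = 0)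
    {d : ℝ} (hd : 0 < d) :
    ∃ p ∈ M, IsStarProjection p ∧ p ≠ 0 ∧ f * p = p ∧ ∃ t : ℝ, 0 < t ∧
      ∀ T ∈ M, 0 ≤ T → p * T = T → t * (⟪α, T α⟫_ℂ).re ≤ (⟪β, T β⟫_ℂ).re ∧
        (⟪β, T β⟫_ℂ).re ≤ (1 + d) * t * (⟪α, T α⟫_ℂ).re := by
  have hff : f * f = f := hp.isIdempotentElem
  have ha := pl1_pos hp fun h => h0 (hα f hf hff h)
  have hb := pl1_pos hp fun h => h0 (hβ f hf hff h)
  obtain ⟨t, ht, ht'⟩ : ∃ t : ℝ, 0 < t ∧ t * (⟪α, f α⟫_ℂ).re < (⟪β, f β⟫_ℂ).re :=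
    ⟨(⟪β, f β⟫_ℂ).re / 2 / (⟪α, f α⟫_ℂ).re, by positivity, by
      rw [div_mul_cancel₀ _ ha.ne']
      linarith⟩
  obtain ⟨e, e1, e2, e3, e4, e5⟩ := pl1_step hf hp α β ht.le
  have hee : e * e = e := e2.isIdempotentElem
  have he0 : e ≠ 0 := fun h => by
    have := e5 f hf hp.nonneg (by rw [h, sub_zero, hff])
    linarith
  by_contra hn
  have key : ∀ k : ℕ, ∀ T ∈ M, 0 ≤ T → e * T = T →
      (1 + d) ^ k * t * (⟪α, T α⟫_ℂ).re ≤ (⟪β, T β⟫_ℂ).re := by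
    intro k
    induction k with
    | zero => simpa using e4
    | succ k ih =>
      obtain ⟨q, q1, q2, q3, q4, q5⟩ := pl1_step e1 e2 α β (t := (1 + d) ^ (k + 1) * t)
        (by positivity)
      have hq : e - q = 0 := by
        by_contra hq
        have h1 : e * (e - q) = e - q := by rw [mul_sub, hee, q3]
        refine hn ⟨e - q, sub_mem e1 q1, q2.sub_of_mul_eq_right e2 q3, hq,
          by rw [← h1, ← mul_assoc, e3], (1 + d) ^ k * t, by positivity, fun T hT h2 h3 =>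
          ⟨ih T hT h2 (by rw [← h3, ← mul_assoc, h1]), ?_⟩⟩
        rw [← mul_assoc, ← pow_succ']
        exact q5 T hT h2 h3
      rw [sub_eq_zero.1 hq]
      exact q4
  have hea := pl1_pos e2 fun h =>
    he0 (hα e e1 (pl1_flip hp.isSelfAdjoint e2.isSelfAdjoint e3) h)
  obtain ⟨k, hk⟩ := pow_unbounded_of_one_lt ((⟪β, e β⟫_ℂ).re / (t * (⟪α, e α⟫_ℂ).re))
    (lt_add_of_pos_right 1 hd)
  rw [div_lt_iff₀ (mul_pos ht hea), ← mul_assoc] at hk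
  exact hk.not_ge (key k e e1 e2.nonneg hee)

end Pool.Agent.P.MP_5d580a_an
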