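import Pool.Agent.P.MP_5d580a_an.Basic

open scoped ComplexOrder InnerProductSpace ComplexConjugate BoundedContinuousFunction
open MeasureTheory Filter Topology

set_option linter.unusedSectionVars false
set_option linter.unusedVariables false
set_option linter.deprecated false

noncomputable section

namespace Pool.Agent.P.MP_5d580a_an

variable {H : Type} [NormedAddCommGroup H] [InnerProductSpace ℂ H] [CompleteSpace H]

variable {A B C : Type} [CStarAlgebra A] [CStarAlgebra B] [CStarAlgebra C]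
  {θ θ' ψ : C →L[ℂ] ℂ}

theorem IsPos.nonneg [PartialOrder C] [StarOrderedRing C] (h : IsPos θ) {c : C} (hc : 0 ≤ c) :
    0 ≤ θ c := by
  rw [StarOrderedRing.nonneg_iff] at hc
  induction hc using AddSubmonoid.closure_induction with
  | mem x hx => obtain ⟨s, rfl⟩ := hx; exact h s
  | zero => simp
  | add x y _ _ hx hy => rw [map_add]; exact add_nonneg hx hy

theorem IsPos.re_nonneg [PartialOrder C] [StarOrderedRing C] (h : IsPos θ) {c : C} (hc : 0 ≤ c) :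
    0 ≤ (θ c).re := (Complex.le_def.1 (h.nonneg hc)).1

theorem IsPos.re_mono [PartialOrder C] [StarOrderedRing C] (h : IsPos θ) {c d : C} (hc : c ≤ d) :
    (θ c).re ≤ (θ d).re := by
  have := h.re_nonneg (sub_nonneg.2 hc)
  rw [map_sub, Complex.sub_re] at this
  linarith

theorem isPos_of_nonneg [PartialOrder C] [StarOrderedRing C] (h : ∀ c : C, 0 ≤ c → 0 ≤ θ c) :
    IsPos θ := fun x => h _ (star_mul_self_nonneg x)

theorem IsPos.re_le [PartialOrder C] [StarOrderedRing C] (h : IsPos (θ - ψ)) {c : C}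
    (hc : 0 ≤ c) : (ψ c).re ≤ (θ c).re := by
  have := h.re_nonneg hc
  rw [ContinuousLinearMap.sub_apply, Complex.sub_re] at this
  linarith

theorem IsPos.re_star_mul (h : IsPos θ) (c : C) : 0 ≤ (θ (star c * c)).re := (Complex.le_def.1 (h c)).1

theorem IsPos.re_star_mul_le (h : IsPos (θ - ψ)) (c : C) :
    (ψ (star c * c)).re ≤ (θ (star c * c)).re := by
  have := h.re_star_mul c
  rw [ContinuousLinearMap.sub_apply, Complex.sub_re] at this
  linarith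

theorem pos_im (h : IsPos θ) (c : C) : (θ (star c * c)).im = 0 :=
  (Complex.le_def.1 (h c)).2.symm

theorem IsPos.map_star (h : IsPos θ) (c : C) : θ (star c) = conj (θ c) := by
  have h1 : (θ 1).im = 0 := by simpa using pos_im h 1
  have e1 : star (1 + c) * (1 + c) = 1 + c + star c + star c * c := by
    rw [star_add, star_one]; noncomm_ring
  have e2 : star (1 + Complex.I • c) * (1 + Complex.I • c)
      = 1 + Complex.I • c + (-Complex.I) • star c + star c * c := by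
    rw [star_add, star_one, star_smul, add_mul, mul_add, mul_add, smul_mul_smul_comm]
    simp [add_assoc]
  have a1 := pos_im h (1 + c)
  have a2 := pos_im h (1 + Complex.I • c)
  have a3 := pos_im h c
  rw [e1] at a1
  rw [e2] at a2
  simp only [map_add, map_smul, smul_eq_mul, Complex.add_im, Complex.mul_im, Complex.I_re,
    Complex.I_im, Complex.neg_re, Complex.neg_im] at a1 a2
  apply Complex.ext
  · rw [Complex.conj_re]; linarith
  · rw [Complex.conj_im]; linarith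

theorem IsPos.im_sa (h : IsPos θ) {c : C} (hc : IsSelfAdjoint c) : (θ c).im = 0 := by
  have := congrArg Complex.im (h.map_star c)
  rw [hc.star_eq, Complex.conj_im] at this
  linarith

theorem IsPos.cs (h : IsPos θ) (b c : C) :
    ‖θ (star c * b)‖ ^ 2 ≤ (θ (star b * b)).re * (θ (star c * c)).re := by
  set z := θ (star c * b) with hz
  have hz' : θ (star b * c) = conj z := by
    rw [hz, ← h.map_star, star_mul, star_star]
  have key : ∀ s : ℝ, 0 ≤ (‖z‖ ^ 2 * (θ (star c * c)).re) * (s * s) + (-2 * ‖z‖ ^ 2) * s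
      + (θ (star b * b)).re := by
    intro s
    have h0 := h.re_star_mul (b + (-(s : ℂ) * z) • c)
    have e : star (b + (-(s : ℂ) * z) • c) * (b + (-(s : ℂ) * z) • c)
        = star b * b + (-(s : ℂ) * z) • (star b * c) + (-(s : ℂ) * conj z) • (star c * b)
          + ((s : ℂ) * s * (conj z * z)) • (star c * c) := by
      rw [star_add, star_smul, add_mul, mul_add, mul_add, smul_mul_smul_comm, mul_smul_comm,
        smul_mul_assoc]
      have e1 : star (-(s : ℂ) * z) = -(s : ℂ) * conj z := by simp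
      rw [e1]
      have e2 : -(s : ℂ) * conj z * (-(s : ℂ) * z) = (s : ℂ) * s * (conj z * z) := by ring
      rw [e2, add_assoc, add_assoc, add_assoc]
    rw [e] at h0
    simp only [map_add, map_smul, smul_eq_mul, hz', ← hz] at h0
    have e3 : conj z * z = ((‖z‖ ^ 2 : ℝ) : ℂ) := by
      rw [Complex.conj_mul']; push_cast; rfl
    have e4 : -(s : ℂ) * z * conj z = ((-(s * ‖z‖ ^ 2) : ℝ) : ℂ) := by
      rw [mul_assoc, mul_comm z, e3]; push_cast; ring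
    have e5 : -(s : ℂ) * conj z * z = ((-(s * ‖z‖ ^ 2) : ℝ) : ℂ) := by
      rw [mul_assoc, e3]; push_cast; ring
    have e6 : (s : ℂ) * s * (conj z * z) = ((s * s * ‖z‖ ^ 2 : ℝ) : ℂ) := by
      rw [e3]; push_cast; ring
    rw [e4, e5, e6] at h0
    simp only [Complex.add_re, Complex.ofReal_re, Complex.re_ofReal_mul] at h0
    nlinarith [h0]
  have hd := discrim_le_zero key
  rw [discrim] at hd
  rcases eq_or_lt_of_le (sq_nonneg ‖z‖) with h0 | h0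
  · rw [← h0]; exact mul_nonneg (h.re_star_mul b) (h.re_star_mul c)
  · by_contra hlt
    push Not at hlt
    nlinarith [mul_pos h0 (sub_pos.2 hlt)]

theorem IsPos.one_nonneg (h : IsPos θ) : 0 ≤ (θ 1).re := by simpa using h.re_star_mul 1

theorem IsPos.norm_eq (h : IsPos θ) : ‖θ‖ = (θ 1).re := by
  have h1 : ‖(1 : C)‖ ≤ 1 := by
    rcases subsingleton_or_nontrivial C with hs | hn
    · rw [Subsingleton.elim (1 : C) 0, norm_zero]; exact zero_le_one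
    · exact CStarRing.norm_one.le
  apply le_antisymm
  · have key : ∀ c : C, ‖θ c‖ ≤ √(‖θ‖ * (θ 1).re) * ‖c‖ := by
      intro c
      have a := h.cs c 1
      rw [star_one, one_mul, one_mul] at a
      have b : (θ (star c * c)).re ≤ ‖θ‖ * ‖c‖ ^ 2 := by
        calc (θ (star c * c)).re ≤ ‖θ (star c * c)‖ := Complex.re_le_norm _
          _ ≤ ‖θ‖ * ‖star c * c‖ := θ.le_opNorm _
          _ = ‖θ‖ * ‖c‖ ^ 2 := by rw [CStarRing.norm_star_mul_self, sq]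
      have hn : 0 ≤ ‖θ‖ * (θ 1).re := mul_nonneg (norm_nonneg _) h.one_nonneg
      apply le_of_sq_le_sq _ (by positivity)
      rw [mul_pow, Real.sq_sqrt hn]
      calc ‖θ c‖ ^ 2 ≤ _ := a
        _ ≤ (‖θ‖ * ‖c‖ ^ 2) * (θ 1).re := mul_le_mul_of_nonneg_right b h.one_nonneg
        _ = _ := by ring
    have k2 : ‖θ‖ ≤ √(‖θ‖ * (θ 1).re) := θ.opNorm_le_bound (Real.sqrt_nonneg _) key
    have hn : 0 ≤ ‖θ‖ * (θ 1).re := mul_nonneg (norm_nonneg _) h.one_nonneg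
    have k3 : ‖θ‖ ^ 2 ≤ ‖θ‖ * (θ 1).re := (Real.le_sqrt (norm_nonneg _) hn).1 k2
    rcases eq_or_lt_of_le (norm_nonneg θ) with h0 | h0
    · rw [← h0]; exact h.one_nonneg
    · by_contra hlt
      push Not at hlt
      nlinarith [mul_pos h0 (sub_pos.2 hlt)]
  · calc (θ 1).re ≤ ‖θ 1‖ := Complex.re_le_norm _
      _ ≤ ‖θ‖ * ‖(1 : C)‖ := θ.le_opNorm _
      _ ≤ ‖θ‖ * 1 := by gcongr
      _ = ‖θ‖ := mul_one _

theorem IsPos.eq_zero (h : IsPos θ) (h1 : (θ 1).re ≤ 0) : θ = 0 := norm_le_zero_iff.1 (h.norm_eq ▸ h1)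

theorem IsPos.one_pos (h : IsPos θ) (h0 : θ ≠ 0) : 0 < (θ 1).re := lt_of_not_ge fun h1 => h0 (h.eq_zero h1)

theorem isPos_zero : IsPos (0 : C →L[ℂ] ℂ) := fun x => by simp

theorem isPos_sub_self (θ : C →L[ℂ] ℂ) : IsPos (θ - θ) := fun x => by simp

theorem IsPos.add (h : IsPos θ) (h' : IsPos θ') : IsPos (θ + θ') := fun x => add_nonneg (h x) (h' x)

theorem IsPos.smul (h : IsPos θ) {s : ℝ} (hs : 0 ≤ s) : IsPos ((s : ℂ) • θ) := fun x => by
  rw [ContinuousLinearMap.smul_apply, smul_eq_mul]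
  exact mul_nonneg (Complex.zero_le_real.2 hs) (h x)

theorem IsPos.sum {ι : Type*} (s : Finset ι) {θ : ι → (C →L[ℂ] ℂ)} (h : ∀ i ∈ s, IsPos (θ i)) :
    IsPos (∑ i ∈ s, θ i) := fun x => by
  rw [ContinuousLinearMap.sum_apply]
  exact Finset.sum_nonneg fun i hi => h i hi x

theorem IsPos.list_sum {l : List (C →L[ℂ] ℂ)} (h : ∀ θ ∈ l, IsPos θ) : IsPos l.sum := by
  induction l with
  | nil => exact isPos_zero
  | cons a l ih =>
    rw [List.sum_cons]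
    exact (h a (by simp)).add (ih fun θ hθ => h θ (by simp [hθ]))

theorem IsPos.trans (h : IsPos (θ - θ')) (h' : IsPos (θ' - ψ)) : IsPos (θ - ψ) := fun x => by
  have := add_nonneg (h x) (h' x)
  simp only [ContinuousLinearMap.sub_apply] at this ⊢
  rwa [sub_add_sub_cancel] at this

theorem IsPos.res {θ : B →L[ℂ] ℂ} (h : IsPos θ) (ι : A →⋆ₐ[ℂ] B) : IsPos (res ι θ) := fun x => by
  rw [res_apply, map_mul, StarHomClass.map_star ι]; exact h _

theorem res_add (ι : A →⋆ₐ[ℂ] B) (θ θ' : B →L[ℂ] ℂ) : res ι (θ + θ') = res ι θ + res ι θ' := by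
  ext a; simp

theorem res_sub (ι : A →⋆ₐ[ℂ] B) (θ θ' : B →L[ℂ] ℂ) : res ι (θ - θ') = res ι θ - res ι θ' := by
  ext a; simp

theorem res_smul (ι : A →⋆ₐ[ℂ] B) (c : ℂ) (θ : B →L[ℂ] ℂ) : res ι (c • θ) = c • res ι θ := by
  ext a; simp

theorem res_sum (ι : A →⋆ₐ[ℂ] B) {κ : Type*} (s : Finset κ) (θ : κ → (B →L[ℂ] ℂ)) :
    res ι (∑ i ∈ s, θ i) = ∑ i ∈ s, res ι (θ i) := by
  ext a; simp

theorem res_one (ι : A →⋆ₐ[ℂ] B) (θ : B →L[ℂ] ℂ) : res ι θ 1 = θ 1 := by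
  rw [res_apply, map_one]

theorem ext_sa (h : IsPos θ) (h' : IsPos θ')
    (e : ∀ b : C, IsSelfAdjoint b → ‖b‖ ≤ 1 → (θ b).re ≤ (θ' b).re) : θ = θ' := by
  have k1 : ∀ b : C, IsSelfAdjoint b → ‖b‖ ≤ 1 → θ b = θ' b := by
    intro b hb hn
    have a1 := e b hb hn
    have a2 := e (-b) hb.neg (by rwa [norm_neg])
    rw [map_neg, map_neg, Complex.neg_re, Complex.neg_re] at a2
    apply Complex.ext
    · linarith
    · rw [h.im_sa hb, h'.im_sa hb]
  have k2 : ∀ b : C, IsSelfAdjoint b → θ b = θ' b := by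
    intro b hb
    have hp : 0 < ‖b‖ + 1 := by positivity
    have hs : IsSelfAdjoint ((((‖b‖ + 1)⁻¹ : ℝ) : ℂ) • b) := by
      rw [IsSelfAdjoint, star_smul, hb.star_eq]; simp
    have hn : ‖(((‖b‖ + 1)⁻¹ : ℝ) : ℂ) • b‖ ≤ 1 := by
      rw [norm_smul, Complex.norm_real, Real.norm_of_nonneg (inv_nonneg.2 hp.le),
        inv_mul_le_iff₀ hp]
      linarith
    have := k1 _ hs hn
    rw [map_smul, map_smul, smul_eq_mul, smul_eq_mul] at this
    exact mul_left_cancel₀ (Complex.ofReal_ne_zero.2 (inv_pos.2 hp).ne') this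
  ext c
  rw [← realPart_add_I_smul_imaginaryPart c, map_add, map_add, map_smul, map_smul,
    k2 _ (realPart c).2, k2 _ (imaginaryPart c).2]

theorem pos_of_tendsto {ι : Type} {l : Filter ι} [l.NeBot] {θ : ι → (C →L[ℂ] ℂ)}
    {τ : C →L[ℂ] ℂ} (h : Tendsto θ l (𝓝 τ)) (hp : ∀ᶠ i in l, IsPos (θ i)) : IsPos τ := by
  intro x
  have h1 : Tendsto (fun i => θ i (star x * x)) l (𝓝 (τ (star x * x))) :=
    ((ContinuousLinearMap.apply ℂ ℂ (star x * x)).continuous.tendsto τ).comp h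
  exact ge_of_tendsto h1 (hp.mono fun i hi => hi x)

theorem exists_mono_lim_pos (θ : ℕ → (C →L[ℂ] ℂ)) (h0 : ∀ n, IsPos (θ n))
    (hm : ∀ n, IsPos (θ (n + 1) - θ n)) (K : ℝ) (hK : ∀ n, (θ n 1).re ≤ K) :
    ∃ τ : C →L[ℂ] ℂ, IsPos τ ∧ (∀ n, IsPos (τ - θ n)) ∧ Tendsto θ atTop (𝓝 τ) := by
  have hd : ∀ n, dist (θ n) (θ (n + 1)) = (θ (n + 1) 1).re - (θ n 1).re := by
    intro n
    rw [dist_comm, dist_eq_norm, (hm n).norm_eq, ContinuousLinearMap.sub_apply, Complex.sub_re]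
  have hs : Summable fun n => dist (θ n) (θ (n + 1)) := by
    refine summable_of_sum_range_le (c := K) (fun n => dist_nonneg) fun n => ?_
    simp only [hd]
    rw [Finset.sum_range_sub (fun n => (θ n 1).re)]
    linarith [hK n, (h0 0).one_nonneg]
  obtain ⟨τ, hτ⟩ := cauchySeq_tendsto_of_complete (cauchySeq_of_summable_dist hs)
  refine ⟨τ, pos_of_tendsto hτ (Eventually.of_forall h0), fun n => ?_, hτ⟩
  refine pos_of_tendsto (hτ.sub_const (θ n)) ?_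
  filter_upwards [eventually_ge_atTop n] with m hmn
  induction m, hmn using Nat.le_induction with
  | base => exact isPos_sub_self _
  | succ m _ ih => exact (hm m).trans ih

theorem IsPos.of_tendsto {ι : Type} {l : Filter ι} [l.NeBot] {θ : ι → (C →L[ℂ] ℂ)}
    {τ : C →L[ℂ] ℂ} (h : Tendsto θ l (𝓝 τ)) (hp : ∀ᶠ i in l, IsPos (θ i)) : IsPos τ := pos_of_tendsto h hp

theorem exists_dense_sa [TopologicalSpace.SeparableSpace C] :
    ∃ b : ℕ → C, (∀ n, IsSelfAdjoint (b n)) ∧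
      ∀ c : C, IsSelfAdjoint c → ∀ ε : ℝ, 0 < ε → ∃ n, ‖c - b n‖ < ε := by
  obtain ⟨d, hd⟩ := TopologicalSpace.exists_dense_seq C
  refine ⟨fun n => realPart (d n), fun n => (realPart (d n)).2, fun c hc ε hε => ?_⟩
  obtain ⟨n, hn⟩ := hd.exists_dist_lt c hε
  refine ⟨n, lt_of_le_of_lt ?_ hn⟩
  have e : c - (realPart (d n) : C) = (realPart (c - d n) : C) := by
    rw [map_sub, AddSubgroup.coe_sub, hc.coe_realPart]
  rw [dist_eq_norm, e]
  exact realPart.norm_le (c - d n)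

theorem wnear_sa (F : Finset C) {γ : ℝ} (hγ : 0 < γ) :
    ∃ F' : Finset C, (∀ b ∈ F', IsSelfAdjoint b) ∧
      ∀ θ θ' : C →L[ℂ] ℂ, IsPos θ → IsPos θ' → (∀ b ∈ F', |(θ' b).re - (θ b).re| < γ / 2) →
        WNear F γ θ θ' := by
  classical
  refine ⟨F.image (fun b => (realPart b : C)) ∪ F.image (fun b => (imaginaryPart b : C)), ?_, ?_⟩
  · intro b hb
    rcases Finset.mem_union.1 hb with hb | hb
    · obtain ⟨c, -, rfl⟩ := Finset.mem_image.1 hb; exact (realPart c).2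
    · obtain ⟨c, -, rfl⟩ := Finset.mem_image.1 hb; exact (imaginaryPart c).2
  · intro θ θ' h h' e b hb
    have k : ∀ x : C, IsSelfAdjoint x → ‖θ' x - θ x‖ = |(θ' x).re - (θ x).re| := by
      intro x hx
      have : θ' x - θ x = (((θ' x).re - (θ x).re : ℝ) : ℂ) := by
        apply Complex.ext
        · simp
        · simp [h.im_sa hx, h'.im_sa hx]
      rw [this, Complex.norm_real, Real.norm_eq_abs]
    have e1 := e (realPart b : C) (Finset.mem_union_left _ (Finset.mem_image_of_mem _ hb))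
    have e2 := e (imaginaryPart b : C) (Finset.mem_union_right _ (Finset.mem_image_of_mem _ hb))
    rw [← k _ (realPart b).2] at e1
    rw [← k _ (imaginaryPart b).2] at e2
    have e3 : θ' b - θ b = (θ' (realPart b : C) - θ (realPart b : C))
        + Complex.I * (θ' (imaginaryPart b : C) - θ (imaginaryPart b : C)) := by
      conv_lhs => rw [← realPart_add_I_smul_imaginaryPart b]
      simp only [map_add, map_smul, smul_eq_mul]; ring
    rw [e3]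
    refine lt_of_le_of_lt (norm_add_le _ _) ?_
    rw [norm_mul, Complex.norm_I, one_mul]
    linarith

theorem pm_zero : PM (0 : C →L[ℂ] ℂ) := by
  refine ⟨isPos_zero, fun ψ h h' => ⟨0, ?_⟩⟩
  have := h'.one_nonneg
  have e : ψ = 0 := h.eq_zero (by simpa using this)
  rw [e]; ext c; simp

theorem PM.smul (h : PM θ) {s : ℝ} (hs : 0 ≤ s) : PM ((s : ℂ) • θ) := by
  rcases eq_or_lt_of_le hs with rfl | hs'
  · have : ((0 : ℝ) : ℂ) • θ = 0 := by ext c; simp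
    rw [this]; exact pm_zero
  · refine ⟨h.1.smul hs, fun ψ hψ hle => ?_⟩
    have hc : (s : ℂ) ≠ 0 := Complex.ofReal_ne_zero.2 hs'.ne'
    have e : θ - ((s⁻¹ : ℝ) : ℂ) • ψ = ((s⁻¹ : ℝ) : ℂ) • ((s : ℂ) • θ - ψ) := by
      ext c; simp; field_simp
    obtain ⟨t, ht⟩ := h.2 _ (hψ.smul (inv_nonneg.2 hs)) (e ▸ hle.smul (inv_nonneg.2 hs))
    refine ⟨t, ?_⟩
    ext c
    have := congrArg (fun f : C →L[ℂ] ℂ => f c) ht
    simp only [ContinuousLinearMap.smul_apply, smul_eq_mul, Complex.ofReal_inv] at this ⊢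
    field_simp at this
    rw [this]; ring

theorem PM.exists_nonneg (h : PM θ) (hψ : IsPos ψ) (hle : IsPos (θ - ψ)) :
    ∃ t : ℝ, 0 ≤ t ∧ ψ = (t : ℂ) • θ := by
  obtain ⟨t, ht⟩ := h.2 ψ hψ hle
  by_cases h0 : θ = 0
  · refine ⟨0, le_rfl, ?_⟩
    rw [ht, h0]; ext c; simp
  · refine ⟨t, ?_, ht⟩
    have a := hψ.one_nonneg
    rw [ht, ContinuousLinearMap.smul_apply, smul_eq_mul, Complex.re_ofReal_mul] at a
    exact nonneg_of_mul_nonneg_left a (h.1.one_pos h0)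

theorem pm_iff_extreme (h1 : ‖θ‖ = 1) :
    θ ∈ Set.extremePoints ℝ {f : C →L[ℂ] ℂ | (∀ x : C, 0 ≤ f (star x * x)) ∧ ‖f‖ = 1} ↔ PM θ :=
  by
  rw [mem_extremePoints_iff_left]
  constructor
  · rintro ⟨⟨hθ, -⟩, hx⟩
    have hθ' : IsPos θ := hθ
    have hone : (θ 1).re = 1 := by rw [← hθ'.norm_eq, h1]
    refine ⟨hθ', fun ψ hψ hle => ?_⟩
    set t := (ψ 1).re with ht
    have h2 : ((θ - ψ) 1).re = 1 - t := by
      rw [ContinuousLinearMap.sub_apply, Complex.sub_re, hone]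
    rcases eq_or_lt_of_le hψ.one_nonneg with h0 | h0
    · refine ⟨0, ?_⟩
      rw [hψ.eq_zero h0.symm.le]; ext c; simp
    rcases eq_or_lt_of_le hle.one_nonneg with h3 | h3
    · refine ⟨1, ?_⟩
      have := sub_eq_zero.1 (hle.eq_zero h3.symm.le)
      rw [this]; ext c; simp
    rw [h2] at h3
    have p1 : IsPos (((t⁻¹ : ℝ) : ℂ) • ψ) := hψ.smul (inv_nonneg.2 h0.le)
    have p2 : IsPos ((((1 - t)⁻¹ : ℝ) : ℂ) • (θ - ψ)) := hle.smul (inv_nonneg.2 h3.le)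
    have ht0 : (t : ℂ) ≠ 0 := Complex.ofReal_ne_zero.2 h0.ne'
    have ht1 : (1 - t : ℂ) ≠ 0 := by exact_mod_cast h3.ne'
    have := hx _ ⟨p1, ?_⟩ _ ⟨p2, ?_⟩ ⟨t, 1 - t, h0, h3, by ring, ?_⟩
    · refine ⟨t, ?_⟩
      rw [← this]; ext c; simp; field_simp
    · rw [p1.norm_eq, ContinuousLinearMap.smul_apply, smul_eq_mul, Complex.re_ofReal_mul]
      exact inv_mul_cancel₀ h0.ne'
    · rw [p2.norm_eq, ContinuousLinearMap.smul_apply, smul_eq_mul, Complex.re_ofReal_mul, h2]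
      exact inv_mul_cancel₀ h3.ne'
    · ext c; simp; field_simp; ring
  · intro h
    refine ⟨⟨h.1, h1⟩, ?_⟩
    rintro x₁ ⟨p1, n1⟩ x₂ ⟨p2, n2⟩ ⟨a, b, ha, hb, hab, e⟩
    have p1' : IsPos x₁ := p1
    have p2' : IsPos x₂ := p2
    have e1 : θ - (a : ℂ) • x₁ = (b : ℂ) • x₂ := by
      rw [← e]; ext c; simp
    obtain ⟨t, ht⟩ := h.2 _ (p1'.smul ha.le) (e1 ▸ p2'.smul hb.le)
    have e2 := congrArg (fun f : C →L[ℂ] ℂ => (f 1).re) ht
    simp only [ContinuousLinearMap.smul_apply, smul_eq_mul, Complex.re_ofReal_mul] at e2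
    rw [← p1'.norm_eq, ← h.1.norm_eq, n1, h1, mul_one, mul_one] at e2
    ext c
    have e3 := congrArg (fun f : C →L[ℂ] ℂ => f c) ht
    simp only [ContinuousLinearMap.smul_apply, smul_eq_mul, ← e2] at e3
    exact mul_left_cancel₀ (Complex.ofReal_ne_zero.2 ha.ne') e3

theorem pos_vf_star_mul (π : C →⋆ₐ[ℂ] (H →L[ℂ] H)) (ξ : H) (b c : C) :
    vf π ξ (star c * b) = ⟪π c ξ, π b ξ⟫_ℂ := by
  rw [vf_apply, map_mul, map_star, ContinuousLinearMap.mul_apply, inner_star_right]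

theorem pos_vf_self (π : C →⋆ₐ[ℂ] (H →L[ℂ] H)) (ξ : H) (c : C) :
    vf π ξ (star c * c) = ((‖π c ξ‖ ^ 2 : ℝ) : ℂ) := by
  rw [pos_vf_star_mul, inner_self_eq_norm_sq_to_K]; push_cast; rfl

theorem isPos_vf (π : C →⋆ₐ[ℂ] (H →L[ℂ] H)) (ξ : H) : IsPos (vf π ξ) := fun x => by
  rw [pos_vf_self]; exact Complex.zero_le_real.2 (sq_nonneg _)

theorem vf_one (π : C →⋆ₐ[ℂ] (H →L[ℂ] H)) (ξ : H) : (vf π ξ 1).re = ‖ξ‖ ^ 2 := by
  have := pos_vf_self π ξ 1
  rw [star_one, one_mul, map_one π, ContinuousLinearMap.one_apply] at this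
  rw [this, Complex.ofReal_re]

theorem vf_star_mul (π : C →⋆ₐ[ℂ] (H →L[ℂ] H)) (ξ : H) (b c : C) :
    vf π ξ (star c * b) = ⟪π c ξ, π b ξ⟫_ℂ := pos_vf_star_mul π ξ b c

theorem vf_star_mul_self (π : C →⋆ₐ[ℂ] (H →L[ℂ] H)) (ξ : H) (c : C) :
    (vf π ξ (star c * c)).re = ‖π c ξ‖ ^ 2 := by
  rw [pos_vf_self, Complex.ofReal_re]

theorem vf_eq_zero_iff (π : C →⋆ₐ[ℂ] (H →L[ℂ] H)) (ξ : H) : vf π ξ = 0 ↔ ξ = 0 := by
  constructor
  · intro h
    have := vf_one π ξ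
    rw [h] at this
    have h2 : ‖ξ‖ ^ 2 = 0 := by simpa using this.symm
    exact norm_eq_zero.1 (pow_eq_zero_iff two_ne_zero |>.1 h2)
  · rintro rfl; ext c; simp

theorem vf_smul (π : C →⋆ₐ[ℂ] (H →L[ℂ] H)) (t : ℝ) (ξ : H) :
    vf π ((t : ℂ) • ξ) = ((t ^ 2 : ℝ) : ℂ) • vf π ξ := by
  ext c
  simp only [vf_apply, map_smul, inner_smul_left, inner_smul_right, Complex.conj_ofReal,
    ContinuousLinearMap.smul_apply, smul_eq_mul]
  push_cast; ring

theorem res_vf (ι : A →⋆ₐ[ℂ] B) (π : B →⋆ₐ[ℂ] (H →L[ℂ] H)) (ξ : H) :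
    res ι (vf π ξ) = vf (π.comp ι) ξ := by
  ext a; rfl

theorem vf_cmt (π : C →⋆ₐ[ℂ] (H →L[ℂ] H)) {x : H →L[ℂ] H} (hx : x ∈ cmt π) (ξ : H) (c : C) :
    vf π (x ξ) c = ⟪ξ, π c ((star x * x) ξ)⟫_ℂ := by
  have h1 := mem_cmt.1 (star_mem hx) c
  rw [vf_apply, ← inner_star_right, ← ContinuousLinearMap.mul_apply (star x), ← h1]
  rfl

theorem vf_le (π : C →⋆ₐ[ℂ] (H →L[ℂ] H)) {x : H →L[ℂ] H} (hx : x ∈ cmt π) (hn : ‖x‖ ≤ 1) (ξ : H) :
    IsPos (vf π ξ - vf π (x ξ)) := fun c => by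
  rw [ContinuousLinearMap.sub_apply, pos_vf_self, pos_vf_self, ← Complex.ofReal_sub,
    Complex.zero_le_real, sub_nonneg]
  have h1 : π c (x ξ) = x (π c ξ) := by
    rw [← ContinuousLinearMap.mul_apply, mem_cmt.1 hx c]; rfl
  rw [h1]
  have : ‖x (π c ξ)‖ ≤ ‖π c ξ‖ := (x.le_opNorm _).trans (mul_le_of_le_one_left (norm_nonneg _) hn)
  gcongr

theorem vf_kraus (π : C →⋆ₐ[ℂ] (H →L[ℂ] H)) {κ : Type} [Fintype κ] {x : κ → (H →L[ℂ] H)}
    (hx : ∀ j, x j ∈ cmt π) (h1 : ∑ j, star (x j) * x j = 1) (ξ : H) :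
    ∑ j, vf π (x j ξ) = vf π ξ := by
  ext c
  rw [ContinuousLinearMap.sum_apply]
  simp only [fun j => vf_cmt π (hx j) ξ c]
  rw [← inner_sum, ← map_sum, ← ContinuousLinearMap.sum_apply, h1]
  rfl

theorem vf_part (π : C →⋆ₐ[ℂ] (H →L[ℂ] H)) {κ : Type} [Fintype κ] {r : κ → (H →L[ℂ] H)}
    (hr : ∀ j, r j ∈ cmt π ∧ IsStarProjection (r j)) (h1 : ∑ j, r j = 1) (ξ : H) :
    ∑ j, vf π (r j ξ) = vf π ξ := by
  refine vf_kraus π (fun j => (hr j).1) ?_ ξ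
  rw [← h1]
  exact Finset.sum_congr rfl fun j _ => by
    rw [(hr j).2.isSelfAdjoint.star_eq, (hr j).2.isIdempotentElem.eq]

theorem vf_partOf (π : C →⋆ₐ[ℂ] (H →L[ℂ] H)) {𝔅 : Set (H →L[ℂ] H)} (hB : BoolFam 𝔅)
    (hM : ∀ q ∈ 𝔅, q ∈ cmt π) {q : H →L[ℂ] H} (hq : q ∈ 𝔅) {l : List (H →L[ℂ] H)}
    (hl : PartOf 𝔅 q l) (ξ : H) : (l.map fun r => vf π (r ξ)).sum = vf π (q ξ) := by
  have k : ∀ r ∈ 𝔅, ∀ c, vf π (r ξ) c = ⟪ξ, π c (r ξ)⟫_ℂ := by
    intro r hr c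
    rw [vf_cmt π (hM r hr), (hB.proj r hr).isSelfAdjoint.star_eq, (hB.proj r hr).isIdempotentElem.eq]
  have k2 : ∀ l : List (H →L[ℂ] H), (∀ r ∈ l, r ∈ 𝔅) → ∀ c,
      (l.map fun r => vf π (r ξ)).sum c = ⟪ξ, π c (l.sum ξ)⟫_ℂ := by
    intro l hl c
    induction l with
    | nil => simp
    | cons a l ih =>
      rw [List.map_cons, List.sum_cons, List.sum_cons, ContinuousLinearMap.add_apply,
        ContinuousLinearMap.add_apply, map_add, inner_add_right, k a (hl a (by simp)),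
        ih fun r hr => hl r (by simp [hr])]
  ext c
  rw [k2 l hl.1, hl.2.2, k q hq]

theorem norm_vfL_sub_le {Ψ : C →L[ℂ] (H →L[ℂ] H)} (h : ∀ b, ‖Ψ b‖ ≤ ‖b‖) (ξ η : H) :
    ‖vfL Ψ ξ - vfL Ψ η‖ ≤ (‖ξ‖ + ‖η‖) * ‖ξ - η‖ := by
  refine ContinuousLinearMap.opNorm_le_bound _ (by positivity) fun c => ?_
  have e : (vfL Ψ ξ - vfL Ψ η) c = ⟪ξ, Ψ c (ξ - η)⟫_ℂ + ⟪ξ - η, Ψ c η⟫_ℂ := by
    rw [ContinuousLinearMap.sub_apply, vfL_apply, vfL_apply, map_sub, inner_sub_right,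
      inner_sub_left]; ring
  have k : ∀ α β : H, ‖⟪α, Ψ c β⟫_ℂ‖ ≤ ‖α‖ * (‖c‖ * ‖β‖) := fun α β =>
    (norm_inner_le_norm _ _).trans (by
      gcongr
      exact ((Ψ c).le_opNorm β).trans (by gcongr; exact h c))
  rw [e]
  calc _ ≤ ‖ξ‖ * (‖c‖ * ‖ξ - η‖) + ‖ξ - η‖ * (‖c‖ * ‖η‖) :=
        (norm_add_le _ _).trans (add_le_add (k _ _) (k _ _))
    _ = _ := by ring

theorem norm_vf_sub_le (π : C →⋆ₐ[ℂ] (H →L[ℂ] H)) (ξ η : H) :
    ‖vf π ξ - vf π η‖ ≤ (‖ξ‖ + ‖η‖) * ‖ξ - η‖ := by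
  have h : ∀ b, ‖clm π b‖ ≤ ‖b‖ := fun b => by
    rw [clm_apply]; exact NonUnitalStarAlgHom.norm_apply_le π b
  exact norm_vfL_sub_le (Ψ := clm π) h ξ η

theorem isW_rep (ι : A →⋆ₐ[ℂ] B) (π : B →⋆ₐ[ℂ] (H →L[ℂ] H)) : IsW ι (π.comp ι) (clm π) :=
  { one := by rw [clm_apply, map_one]
    left := fun a b => by rw [clm_apply, clm_apply, map_mul, StarAlgHom.comp_apply]
    right := fun a b => by rw [clm_apply, clm_apply, map_mul, StarAlgHom.comp_apply]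
    pos := fun b ξ => by
      have := isPos_vf π ξ b
      rwa [vf_apply, ← clm_apply] at this
    norm_le := fun b => by rw [clm_apply]; exact NonUnitalStarAlgHom.norm_apply_le π b }

theorem IsW.mem_ext {ι : A →⋆ₐ[ℂ] B} {π : A →⋆ₐ[ℂ] (H →L[ℂ] H)} {Ψ : B →L[ℂ] (H →L[ℂ] H)}
    (h : IsW ι π Ψ) (ξ : H) : vfL Ψ ξ ∈ Ext ι (vf π ξ) := by
  refine ⟨fun b => h.pos b ξ, ?_⟩
  ext a
  have := h.left a 1
  rw [mul_one, h.one, mul_one] at this
  rw [res_apply, vfL_apply, vf_apply, this]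

theorem IsW.bimod {ι : A →⋆ₐ[ℂ] B} {π : A →⋆ₐ[ℂ] (H →L[ℂ] H)} {Ψ : B →L[ℂ] (H →L[ℂ] H)}
    (h : IsW ι π Ψ) (ξ : H) (a a' : A) (b : B) :
    vfL Ψ ξ (star (ι a') * b * ι a) = ⟪π a' ξ, Ψ b (π a ξ)⟫_ℂ := by
  rw [vfL_apply, h.right, ← map_star, h.left, map_star, ContinuousLinearMap.mul_apply,
    ContinuousLinearMap.mul_apply, inner_star_right]

end Pool.Agent.P.MP_5d580a_an
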