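import Pool.Agent.P.MP_5d580a_an.FlowA
import Pool.Agent.P.MP_5d580a_an.MM

open scoped ComplexOrder InnerProductSpace ComplexConjugate BoundedContinuousFunction
open MeasureTheory Filter Topology

set_option linter.unusedSectionVars false
set_option linter.unusedVariables false

noncomputable section

namespace Pool.Agent.P.MP_5d580a_an

variable {H : Type} [NormedAddCommGroup H] [InnerProductSpace ℂ H] [CompleteSpace H]

variable {M : VonNeumannAlgebra H} {J : H ≃ₗᵢ⋆[ℂ] H} {ζ : H} {E V : SpecCalc ℝ H}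
  {β : ℝ → (H →L[ℂ] H) → (H →L[ℂ] H)} {x y : H →L[ℂ] H}

theorem res0_win_smul (E : SpecCalc ℝ H) {δ : ℝ} (hδ : 0 < δ) (ν : ℝ) (c : ℂ)
    (y : H →L[ℂ] H) : win E δ ν (c • y) = c • win E δ ν y := by
  ext ξ
  simp only [win, smear_apply' E (fker_integrable hδ ν), smul_apply,
    SpecCalc.sig_smul]
  rw [← integral_smul]
  congr 1
  ext t
  rw [smul_comm]

theorem res0_wcol (E : SpecCalc ℝ H) {δ : ℝ} (hδ : 0 < δ) (ν₀ : ℝ) {ι : Type} [Fintype ι]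
    (n : ι → ℤ) (hn : Function.Injective n) {y : H →L[ℂ] H} (hy1 : ‖y‖ ≤ 1) (ξ : H) :
    ∑ i, ‖win E δ (δ * n i + ν₀) y ξ‖ ^ 2 ≤ ‖ξ‖ ^ 2 := by
  have h := win_col E hδ ν₀ n hn (κ := Unit) (fun _ => y) (fun η => by
    have h1 : ‖y η‖ ≤ ‖η‖ := by
      calc ‖y η‖ ≤ ‖y‖ * ‖η‖ := y.le_opNorm η
        _ ≤ 1 * ‖η‖ := by gcongr
        _ = ‖η‖ := one_mul _
    simpa using pow_le_pow_left₀ (norm_nonneg _) h1 2) ξ
  simpa using h

theorem res0_wcol' (E : SpecCalc ℝ H) {δ : ℝ} (hδ : 0 < δ) (ν₀ : ℝ) (s : Finset ℤ)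
    {y : H →L[ℂ] H} (hy1 : ‖y‖ ≤ 1) (ξ : H) :
    ∑ m ∈ s, ‖win E δ (δ * m + ν₀) y ξ‖ ^ 2 ≤ ‖ξ‖ ^ 2 := by
  have h := res0_wcol E hδ ν₀ (ι := s) (fun i => (i : ℤ)) Subtype.val_injective hy1 ξ
  rwa [Finset.sum_coe_sort s (fun m : ℤ => ‖win E δ (δ * m + ν₀) y ξ‖ ^ 2)] at h

theorem res0_three (a b c : H) : ‖a + b + c‖ ^ 2 ≤ 3 * (‖a‖ ^ 2 + ‖b‖ ^ 2 + ‖c‖ ^ 2) := by
  have h : ‖a + b + c‖ ≤ ‖a‖ + ‖b‖ + ‖c‖ := norm_add₃_le
  have h' := pow_le_pow_left₀ (norm_nonneg _) h 2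
  nlinarith [sq_nonneg (‖a‖ - ‖b‖), sq_nonneg (‖a‖ - ‖c‖), sq_nonneg (‖b‖ - ‖c‖)]

/-- one column of the matrix model controls the lattice sum -/
theorem res0_col (hE : ModD M J ζ E) (h1 : ‖ζ‖ = 1) (hβ : BFlow M J ζ E β V)
    (hx : x ∈ Bic M J ζ) (hy : y ∈ Bic M J ζ) (hy1 : ‖y‖ ≤ 1) {δ : ℝ} (hδ : 0 < δ)
    (ν₀ r₀ u : ℝ) {ε' : ℝ} (h₁ : ‖β (u + ν₀) x - x‖ ≤ ε') (h₂ : ‖β u x - x‖ ≤ ε')
    (s : Finset ℤ) :
    ∑ m ∈ s, ‖(β (-(δ * m + ν₀)) x * win E δ (δ * m + ν₀) y - win E δ (δ * m + ν₀) y * x) ζ‖ ^ 2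
      ≤ 3 * (∑ m ∈ s, ‖(β (r₀ + (u - δ * m)) x * win E δ (δ * m + ν₀) (β r₀ y) -
        win E δ (δ * m + ν₀) (β r₀ y) * β (r₀ + u) x) ζ‖ ^ 2 + 2 * ε' ^ 2) := by
  have hs := hE.std
  have hε' : 0 ≤ ε' := le_trans (norm_nonneg _) h₂
  have key : ∀ m : ℤ,
      ‖(β (-(δ * m + ν₀)) x * win E δ (δ * m + ν₀) y - win E δ (δ * m + ν₀) y * x) ζ‖ ^ 2 ≤
      3 * (‖(β (r₀ + (u - δ * m)) x * win E δ (δ * m + ν₀) (β r₀ y) -
        win E δ (δ * m + ν₀) (β r₀ y) * β (r₀ + u) x) ζ‖ ^ 2 +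
        ε' ^ 2 * ‖win E δ (δ * m + ν₀) y ζ‖ ^ 2 +
        ‖win E δ (δ * m + ν₀) y ((β u x - x) ζ)‖ ^ 2) := by
    intro m
    set W := win E δ (δ * m + ν₀) y with hW
    have hWB : W ∈ Bic M J ζ := bic_win hE hy hδ _
    have hb1 : β (u - δ * m) x ∈ Bic M J ζ := hβ.mem _ hx
    have hb2 : β u x ∈ Bic M J ζ := hβ.mem _ hx
    have hA1 := bic_mul hs hb1 hWB
    have hA2 := bic_mul hs hWB hb2
    have hA : β (u - δ * m) x * W - W * β u x ∈ Bic M J ζ := bic_sub hA1 hA2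
    have e1 : β r₀ (β (u - δ * m) x * W - W * β u x) =
        β (r₀ + (u - δ * m)) x * win E δ (δ * m + ν₀) (β r₀ y) -
          win E δ (δ * m + ν₀) (β r₀ y) * β (r₀ + u) x := by
      rw [hβ.map_sub hE r₀ hA1 hA2, hβ.map_mul r₀ _ hb1 _ hWB, hβ.map_mul r₀ _ hWB _ hb2,
        hβ.comp hE r₀ _ hx, hβ.comp hE r₀ _ hx, hW, hβ.win hE r₀ hδ _ hy]
    have e2 := hβ.norm_apply r₀ hA
    rw [e1] at e2
    rw [e2]
    have e3 : (β (-(δ * m + ν₀)) x * W - W * x) ζ =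
        (β (u - δ * m) x * W - W * β u x) ζ + (β (-(δ * m + ν₀)) x - β (u - δ * m) x) (W ζ) +
          W ((β u x - x) ζ) := by
      simp only [sub_apply, mul_apply_eq_comp, map_sub]
      abel
    rw [e3]
    refine (res0_three _ _ _).trans ?_
    have h3 : ‖β (-(δ * m + ν₀)) x - β (u - δ * m) x‖ ≤ ε' := by
      rw [norm_sub_rev]
      refine (hβ.norm_sub_le hE hx _ _).trans ?_
      have : u - δ * m - -(δ * m + ν₀) = u + ν₀ := by ring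
      rw [this]
      exact h₁
    have h4 : ‖(β (-(δ * m + ν₀)) x - β (u - δ * m) x) (W ζ)‖ ≤ ε' * ‖W ζ‖ :=
      ((β (-(δ * m + ν₀)) x - β (u - δ * m) x).le_opNorm _).trans (by gcongr)
    have h5 := pow_le_pow_left₀ (norm_nonneg _) h4 2
    rw [mul_pow] at h5
    linarith
  refine (Finset.sum_le_sum fun m _ => key m).trans ?_
  rw [← Finset.mul_sum, Finset.sum_add_distrib, Finset.sum_add_distrib, ← Finset.mul_sum]
  have c1 := res0_wcol' E hδ ν₀ s hy1 ζ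
  have c2 := res0_wcol' E hδ ν₀ s hy1 ((β u x - x) ζ)
  have c3 : ‖(β u x - x) ζ‖ ≤ ε' := by
    refine ((β u x - x).le_opNorm ζ).trans ?_
    rw [h1, mul_one]
    exact h₂
  have c4 := pow_le_pow_left₀ (norm_nonneg _) c3 2
  rw [h1, one_pow] at c1
  have c5 : ε' ^ 2 * ∑ m ∈ s, ‖win E δ (δ * m + ν₀) y ζ‖ ^ 2 ≤ ε' ^ 2 * 1 := by gcongr
  linarith

/-- the entries of the Toeplitz matrix are approximate eigenoperators -/
theorem res0_entry (hE : ModD M J ζ E) {z : H →L[ℂ] H} (hz : z ∈ M) {δ : ℝ} (hδ : 0 < δ)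
    {ν₀ : ℝ} (h0 : 0 ≤ ν₀) (h1 : ν₀ ≤ δ) (p l : ℝ) :
    ‖((Real.exp ((p + l) / 2) : ℝ) : ℂ) • win E δ (l + ν₀) z ζ -
        ((Real.exp (p / 2) : ℝ) : ℂ) • rm J (win E δ (l + ν₀) z) ζ‖ ^ 2 ≤
      Real.exp (p + l) * ((Real.exp δ - 1) ^ 2 * ‖win E δ (l + ν₀) z ζ‖ ^ 2) := by
  set W := win E δ (l + ν₀) z with hW
  have hsp : SpecIn E (W ζ) (l - 2 * δ) (l + 2 * δ) :=
    (hE.specIn_win hδ (l + ν₀) z).mono (by linarith) (by linarith)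
  have hb := hE.eig_bound (hE.win_mem hδ (l + ν₀) hz) (by positivity : (0 : ℝ) ≤ 2 * δ) hsp
  rw [← hW] at hb
  have e1 : ((Real.exp ((p + l) / 2) : ℝ) : ℂ) • W ζ - ((Real.exp (p / 2) : ℝ) : ℂ) • rm J W ζ =
      -(((Real.exp (p / 2) : ℝ) : ℂ) • (rm J W ζ - ((Real.exp (l / 2) : ℝ) : ℂ) • W ζ)) := by
    rw [smul_sub, smul_smul, ← Complex.ofReal_mul, ← Real.exp_add, neg_sub, add_div]
  rw [e1, norm_neg, norm_smul, Complex.norm_real, Real.norm_of_nonneg (Real.exp_pos _).le]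
  have e2 : 2 * δ / 2 = δ := by ring
  rw [e2] at hb
  have h3 : Real.exp (p / 2) * ‖rm J W ζ - ((Real.exp (l / 2) : ℝ) : ℂ) • W ζ‖ ≤
      Real.exp (p / 2) * (Real.exp (l / 2) * (Real.exp δ - 1) * ‖W ζ‖) := by gcongr
  refine (pow_le_pow_left₀ (by positivity) h3 2).trans (le_of_eq ?_)
  have e3 : Real.exp (p + l) = (Real.exp (p / 2) * Real.exp (l / 2)) ^ 2 := by
    rw [← Real.exp_add, ← Real.exp_nat_mul]
    congr 1
    push_cast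
    ring
  rw [e3]
  ring

theorem res0_weight {δ Λ ρ N P : ℝ} (hδ : 0 < δ) (hΛ : 0 < Λ) (hρ : 0 < ρ) (hN0 : 0 ≤ N)
    (hP0 : 0 < P) (hN : N * δ ≤ Λ) (hP1 : P * δ ≤ ρ) (hP2 : ρ / 2 ≤ P * δ) :
    Real.exp (-(Λ + ρ)) * (ρ / 2 / (2 * Λ + ρ)) ≤
      P * (Real.exp (-(δ * (N + P))) / (2 * N + P)) := by
  have hn0 : 0 < 2 * N + P := by positivity
  rw [mul_div_assoc' P, mul_comm P, mul_div_assoc]
  have a1 : Real.exp (-(Λ + ρ)) ≤ Real.exp (-(δ * (N + P))) := by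
    rw [Real.exp_le_exp]
    nlinarith
  have a2 : ρ / 2 / (2 * Λ + ρ) ≤ P / (2 * N + P) := by
    rw [div_le_div_iff₀ (by positivity) hn0]
    have b1 : δ * (2 * N + P) ≤ 2 * Λ + ρ := by nlinarith
    have b2 : ρ / 2 * (2 * N + P) ≤ P * δ * (2 * N + P) := by gcongr
    have b3 : P * (δ * (2 * N + P)) ≤ P * (2 * Λ + ρ) := by gcongr
    rw [mul_assoc P δ] at b2
    exact b2.trans b3
  gcongr

/-- the third hypothesis of the matrix model -/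
theorem res0_third (hE : ModD M J ζ E) (h1 : ‖ζ‖ = 1) {z : H →L[ℂ] H} (hz : z ∈ M)
    (hz1 : ‖z‖ ≤ 1) {δ d : ℝ} (hδ : 0 < δ) (hδd : Real.exp δ - 1 ≤ d) {ν₀ : ℝ} (hν0 : 0 ≤ ν₀)
    (hν1 : ν₀ ≤ δ) (r₀ : ℝ) (I : Finset ℤ) (hsum : ∑ j : I, Real.exp (r₀ + δ * ((j : ℤ) : ℝ)) ≤ 1) :
    ∑ i : I, ∑ j : I, ‖((Real.exp ((r₀ + δ * ((j : ℤ) : ℝ)) / 2) : ℝ) : ℂ) •
        win E δ (δ * (((j : ℤ) - (i : ℤ) : ℤ) : ℝ) + ν₀) z ζ -
      ((Real.exp ((r₀ + δ * ((i : ℤ) : ℝ)) / 2) : ℝ) : ℂ) •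
        rm J (win E δ (δ * (((j : ℤ) - (i : ℤ) : ℤ) : ℝ) + ν₀) z) ζ‖ ^ 2 ≤ d ^ 2 := by
  have hδd0 : 0 ≤ Real.exp δ - 1 := by
    have := Real.add_one_le_exp δ
    linarith
  rw [Finset.sum_comm]
  have hcol : ∀ j : I, ∑ i : I,
      ‖((Real.exp ((r₀ + δ * ((j : ℤ) : ℝ)) / 2) : ℝ) : ℂ) •
          win E δ (δ * (((j : ℤ) - (i : ℤ) : ℤ) : ℝ) + ν₀) z ζ -
        ((Real.exp ((r₀ + δ * ((i : ℤ) : ℝ)) / 2) : ℝ) : ℂ) •
          rm J (win E δ (δ * (((j : ℤ) - (i : ℤ) : ℤ) : ℝ) + ν₀) z) ζ‖ ^ 2 ≤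
      Real.exp (r₀ + δ * ((j : ℤ) : ℝ)) * d ^ 2 := by
    intro j
    have hent : ∀ i : I,
        ‖((Real.exp ((r₀ + δ * ((j : ℤ) : ℝ)) / 2) : ℝ) : ℂ) •
            win E δ (δ * (((j : ℤ) - (i : ℤ) : ℤ) : ℝ) + ν₀) z ζ -
          ((Real.exp ((r₀ + δ * ((i : ℤ) : ℝ)) / 2) : ℝ) : ℂ) •
            rm J (win E δ (δ * (((j : ℤ) - (i : ℤ) : ℤ) : ℝ) + ν₀) z) ζ‖ ^ 2 ≤
        Real.exp (r₀ + δ * ((j : ℤ) : ℝ)) * ((Real.exp δ - 1) ^ 2 *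
          ‖win E δ (δ * (((j : ℤ) - (i : ℤ) : ℤ) : ℝ) + ν₀) z ζ‖ ^ 2) := by
      intro i
      have h := res0_entry hE hz hδ hν0 hν1 (r₀ + δ * ((i : ℤ) : ℝ))
        (δ * (((j : ℤ) - (i : ℤ) : ℤ) : ℝ))
      have e : r₀ + δ * ((i : ℤ) : ℝ) + δ * (((j : ℤ) - (i : ℤ) : ℤ) : ℝ) =
          r₀ + δ * ((j : ℤ) : ℝ) := by
        push_cast
        ring
      rwa [e] at h
    refine (Finset.sum_le_sum fun i _ => hent i).trans ?_
    rw [← Finset.mul_sum, ← Finset.mul_sum]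
    have hw := res0_wcol E hδ ν₀ (ι := I) (fun i => (j : ℤ) - (i : ℤ))
      (fun a b hab => Subtype.ext (by simpa using hab)) hz1 ζ
    rw [h1, one_pow] at hw
    have h2 : (Real.exp δ - 1) ^ 2 ≤ d ^ 2 := pow_le_pow_left₀ hδd0 hδd 2
    have h3 : (Real.exp δ - 1) ^ 2 * ∑ i : I,
        ‖win E δ (δ * (((j : ℤ) - (i : ℤ) : ℤ) : ℝ) + ν₀) z ζ‖ ^ 2 ≤ d ^ 2 * 1 :=
      mul_le_mul h2 hw (by positivity) (by positivity)
    rw [mul_one] at h3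
    exact mul_le_mul_of_nonneg_left h3 (Real.exp_pos _).le
  refine (Finset.sum_le_sum fun j _ => hcol j).trans ?_
  rw [← Finset.sum_mul]
  exact mul_le_of_le_one_left (by positivity) hsum

theorem res0_aux (hE : ModD M J ζ E) (h1 : ‖ζ‖ = 1) (hF : EigFam M J ζ)
    (hβ : BFlow M J ζ E β V) (hx : x ∈ Bic M J ζ) (hc : NCont β x) (hy : y ∈ Bic M J ζ)
    (hy1 : ‖y‖ ≤ 1) {Λ : ℝ} (hΛ : 0 < Λ) {ε : ℝ} (hε : 0 < ε) :
    ∃ δ₀ : ℝ, 0 < δ₀ ∧ ∀ δ : ℝ, 0 < δ → δ ≤ δ₀ → ∀ N : ℕ, N * δ ≤ Λ → ∀ ν₀ : ℝ, 0 ≤ ν₀ →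
      ν₀ ≤ δ → ∑ m ∈ Finset.Icc (-(N : ℤ)) N,
        ‖(β (-(δ * m + ν₀)) x * win E δ (δ * m + ν₀) y - win E δ (δ * m + ν₀) y * x) ζ‖ ^ 2 ≤ ε := by
  have hs := hE.std
  obtain ⟨ρ, hρ, hρc⟩ := hc (√(ε / 12)) (Real.sqrt_pos.2 (by positivity))
  set κ : ℝ := Real.exp (-(Λ + ρ)) * (ρ / 2 / (2 * Λ + ρ)) with hκ
  have hκ0 : 0 < κ := by positivity
  obtain ⟨d, hd, hmm⟩ := matrix_model hs hF hx (ε := √(κ * (ε / 6)))
    (Real.sqrt_pos.2 (by positivity))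
  refine ⟨min (ρ / 2) (Real.log (1 + d)), lt_min (by positivity) (Real.log_pos (by linarith)), ?_⟩
  intro δ hδ hδ0 N hN ν₀ hν0 hν1
  have hδρ : δ ≤ ρ / 2 := hδ0.trans (min_le_left _ _)
  have hδd : Real.exp δ - 1 ≤ d := by
    have := Real.exp_le_exp.2 (hδ0.trans (min_le_right _ _))
    rw [Real.exp_log (by linarith)] at this
    linarith
  obtain ⟨P, hP1, hP2⟩ : ∃ P : ℕ, P * δ ≤ ρ ∧ ρ / 2 ≤ P * δ := by
    refine ⟨⌊ρ / δ⌋₊, ?_, ?_⟩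
    · have := Nat.floor_le (show 0 ≤ ρ / δ by positivity)
      rwa [le_div_iff₀ hδ] at this
    · have := Nat.lt_floor_add_one (ρ / δ)
      rw [div_lt_iff₀ hδ] at this
      linarith
  have hP0 : (0 : ℝ) < P := by
    by_contra h
    have : (P : ℝ) = 0 := le_antisymm (not_lt.1 h) (Nat.cast_nonneg P)
    rw [this] at hP2
    linarith
  have hn0 : (0 : ℝ) < 2 * N + P := by positivity
  set r₀ : ℝ := -(δ * (N + P)) - Real.log (2 * N + P) with hr₀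
  have her : Real.exp r₀ = Real.exp (-(δ * (N + P))) / (2 * N + P) := by
    rw [hr₀, Real.exp_sub, Real.exp_log hn0]
  set I : Finset ℤ := Finset.Ico (-(N : ℤ)) (N + P) with hI
  have hcard : (I.card : ℝ) = 2 * N + P := by
    rw [hI, Int.card_Ico]
    have : ((N : ℤ) + P - -(N : ℤ)).toNat = 2 * N + P := by omega
    rw [this]
    push_cast
    ring
  have hsum : ∑ j : I, Real.exp (r₀ + δ * ((j : ℤ) : ℝ)) ≤ 1 := by
    have hle : ∀ j : I, Real.exp (r₀ + δ * ((j : ℤ) : ℝ)) ≤ 1 / (2 * N + P) := by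
      intro j
      have hj : (j : ℤ) < N + P := (Finset.mem_Ico.1 j.2).2
      have hj' : ((j : ℤ) : ℝ) ≤ N + P := by exact_mod_cast hj.le
      rw [Real.exp_add, her, div_mul_eq_mul_div, ← Real.exp_add]
      gcongr
      rw [Real.exp_le_one_iff]
      nlinarith
    refine (Finset.sum_le_sum fun j _ => hle j).trans ?_
    rw [Finset.sum_const, Finset.card_univ, Fintype.card_coe, nsmul_eq_mul, hcard]
    field_simp
    rfl
  have hy' : β r₀ y ∈ Bic M J ζ := hβ.mem _ hy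
  have hy'1 : ‖β r₀ y‖ ≤ 1 := (hβ.norm_le _ _ hy).trans hy1
  have hmain := hmm I (fun j => r₀ + δ * ((j : ℤ) : ℝ)) (fun j => β (r₀ + δ * ((j : ℤ) : ℝ)) x)
    (fun i j => win E δ (δ * (((j : ℤ) - (i : ℤ) : ℤ) : ℝ) + ν₀) (β r₀ y)) hsum
    (fun i => hβ.rel _ x hx) (fun i j => hE.win_mem hδ _ (bic_mem hy'))
    (fun ξ η => by
      have ht := toeplitz (ι := I) (fun i => (i : ℤ)) Subtype.val_injective hδ ν₀
        (E.scb_sig (β r₀ y)) ξ η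
      refine ht.trans ?_
      rw [mul_assoc]
      refine mul_le_of_le_one_left (by positivity) hy'1)
    (res0_third hE h1 (bic_mem hy') hy'1 hδ hδd hν0 hν1 r₀ I hsum)
  rw [Real.sq_sqrt (by positivity), Finset.sum_comm] at hmain
  set G : ℤ → ℤ → ℝ := fun i j => ‖(β (r₀ + δ * (i : ℝ)) x *
      win E δ (δ * ((j - i : ℤ) : ℝ) + ν₀) (β r₀ y) -
      win E δ (δ * ((j - i : ℤ) : ℝ) + ν₀) (β r₀ y) * β (r₀ + δ * (j : ℝ)) x) ζ‖ ^ 2 with hG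
  have hG0 : ∀ i j, 0 ≤ G i j := fun i j => by positivity
  have hmain' : ∑ j ∈ I, Real.exp (r₀ + δ * (j : ℝ)) * ∑ i ∈ I, G i j ≤ κ * (ε / 6) := by
    refine le_trans (le_of_eq ?_) hmain
    rw [← Finset.sum_coe_sort I]
    refine Finset.sum_congr rfl fun j _ => ?_
    rw [← Finset.sum_coe_sort I, Finset.mul_sum]
  set T := ∑ m ∈ Finset.Icc (-(N : ℤ)) N,
    ‖(β (-(δ * m + ν₀)) x * win E δ (δ * m + ν₀) y - win E δ (δ * m + ν₀) y * x) ζ‖ ^ 2 with hT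
  have hcolumn : ∀ j ∈ Finset.Ico (0 : ℤ) P, T / 3 - ε / 6 ≤ ∑ i ∈ I, G i j := by
    intro j hj
    obtain ⟨hj0, hj1⟩ := Finset.mem_Ico.1 hj
    have hj0' : (0 : ℝ) ≤ (j : ℝ) := by exact_mod_cast hj0
    have hj1' : (j : ℝ) + 1 ≤ P := by exact_mod_cast hj1
    have hu : δ * j + δ ≤ ρ := by nlinarith
    have hu0 : 0 ≤ δ * j := by positivity
    have h := res0_col hE h1 hβ hx hy hy1 hδ ν₀ r₀ (δ * j)
      (hρc _ (by rw [abs_of_nonneg (by linarith)]; linarith))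
      (hρc _ (by rw [abs_of_nonneg hu0]; linarith)) (Finset.Icc (-(N : ℤ)) N)
    rw [Real.sq_sqrt (by positivity), ← hT] at h
    have e : ∑ m ∈ Finset.Icc (-(N : ℤ)) N, ‖(β (r₀ + (δ * j - δ * m)) x *
        win E δ (δ * m + ν₀) (β r₀ y) - win E δ (δ * m + ν₀) (β r₀ y) * β (r₀ + δ * j) x) ζ‖ ^ 2 =
        ∑ i ∈ (Finset.Icc (-(N : ℤ)) N).image (fun m => j - m), G i j := by
      rw [Finset.sum_image (fun a _ b _ hab => by simpa using hab)]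
      refine Finset.sum_congr rfl fun m _ => ?_
      have e1 : ((j - (j - m) : ℤ) : ℝ) = m := by
        push_cast
        ring
      have e2 : δ * ((j - m : ℤ) : ℝ) = δ * j - δ * m := by
        push_cast
        ring
      simp only [hG, e1, e2]
    rw [e] at h
    have hsub : ∑ i ∈ (Finset.Icc (-(N : ℤ)) N).image (fun m => j - m), G i j ≤ ∑ i ∈ I, G i j := by
      refine Finset.sum_le_sum_of_subset_of_nonneg ?_ fun i _ _ => hG0 i j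
      intro i hi
      obtain ⟨m, hm, rfl⟩ := Finset.mem_image.1 hi
      obtain ⟨hm0, hm1⟩ := Finset.mem_Icc.1 hm
      rw [hI, Finset.mem_Ico]
      omega
    linarith
  by_contra hcon
  have hpos : ε / 6 < T / 3 - ε / 6 := by
    have := not_le.1 hcon
    linarith
  have hlow : ∑ j ∈ Finset.Ico (0 : ℤ) P, Real.exp r₀ * (T / 3 - ε / 6) ≤
      ∑ j ∈ I, Real.exp (r₀ + δ * (j : ℝ)) * ∑ i ∈ I, G i j := by
    refine le_trans (Finset.sum_le_sum fun j hj => ?_)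
      (Finset.sum_le_sum_of_subset_of_nonneg ?_ fun j _ _ => ?_)
    · have hj0 : (0 : ℝ) ≤ (j : ℝ) := by exact_mod_cast (Finset.mem_Ico.1 hj).1
      have : Real.exp r₀ ≤ Real.exp (r₀ + δ * (j : ℝ)) := by
        rw [Real.exp_le_exp]
        have : 0 ≤ δ * j := by positivity
        linarith
      exact mul_le_mul this (hcolumn j hj) (by linarith) (Real.exp_pos _).le
    · intro j hj
      obtain ⟨hj0, hj1⟩ := Finset.mem_Ico.1 hj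
      rw [hI, Finset.mem_Ico]
      omega
    · exact mul_nonneg (Real.exp_pos _).le (Finset.sum_nonneg fun i _ => hG0 i j)
  rw [Finset.sum_const, Int.card_Ico, nsmul_eq_mul] at hlow
  have hPc : ((((P : ℤ) - 0).toNat : ℕ) : ℝ) = P := by simp
  rw [hPc, ← mul_assoc] at hlow
  have hκP : κ ≤ P * Real.exp r₀ := by
    rw [her, hκ]
    exact res0_weight hδ hΛ hρ (Nat.cast_nonneg N) hP0 hN hP1 hP2
  have hfin : κ * (T / 3 - ε / 6) ≤ κ * (ε / 6) :=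
    le_trans (mul_le_mul_of_nonneg_right hκP (by linarith)) (hlow.trans hmain')
  have := le_of_mul_le_mul_left hfin hκ0
  linarith

theorem res_lattice (hE : ModD M J ζ E) (h1 : ‖ζ‖ = 1) (hF : EigFam M J ζ)
    (hβ : BFlow M J ζ E β V) (hx : x ∈ Bic M J ζ) (hc : NCont β x) (hy : y ∈ Bic M J ζ) {Λ : ℝ}
    (hΛ : 0 < Λ) {ε : ℝ} (hε : 0 < ε) :
    ∃ δ₀ : ℝ, 0 < δ₀ ∧ ∀ δ : ℝ, 0 < δ → δ ≤ δ₀ → ∀ N : ℕ, N * δ ≤ Λ → ∀ ν₀ : ℝ, 0 ≤ ν₀ →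
      ν₀ ≤ δ → ∑ m ∈ Finset.Icc (-(N : ℤ)) N,
        ‖(β (-(δ * m + ν₀)) x * win E δ (δ * m + ν₀) y - win E δ (δ * m + ν₀) y * x) ζ‖ ^ 2 ≤ ε := by
  obtain ⟨C, y', hC0, hyy, hy'1, hy'⟩ : ∃ (C : ℝ) (y' : H →L[ℂ] H), 0 < C ∧ y = (C : ℂ) • y' ∧
      ‖y'‖ ≤ 1 ∧ y' ∈ Bic M J ζ := by
    have hC0 : 0 < ‖y‖ + 1 := by positivity
    refine ⟨‖y‖ + 1, (((‖y‖ + 1)⁻¹ : ℝ) : ℂ) • y, hC0, ?_, ?_, bic_smul _ hy⟩
    · rw [smul_smul, ← Complex.ofReal_mul, mul_inv_cancel₀ hC0.ne', Complex.ofReal_one, one_smul]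
    · rw [norm_smul, Complex.norm_real, Real.norm_of_nonneg (inv_pos.2 hC0).le,
        inv_mul_le_iff₀ hC0]
      linarith
  obtain ⟨δ₀, h0, h⟩ := res0_aux hE h1 hF hβ hx hc hy' hy'1 hΛ (ε := ε / C ^ 2) (by positivity)
  refine ⟨δ₀, h0, fun δ hδ hδ0 N hN ν₀ hν0 hν1 => ?_⟩
  have h2 := h δ hδ hδ0 N hN ν₀ hν0 hν1
  rw [le_div_iff₀ (by positivity), Finset.sum_mul] at h2
  refine le_trans (le_of_eq (Finset.sum_congr rfl fun m _ => ?_)) h2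
  rw [hyy, res0_win_smul E hδ, mul_smul_comm, smul_mul_assoc, ← smul_sub,
    smul_apply, norm_smul, Complex.norm_real, Real.norm_of_nonneg hC0.le]
  ring

theorem res_zero (hE : ModD M J ζ E) (h1 : ‖ζ‖ = 1) (hF : EigFam M J ζ) (hβ : BFlow M J ζ E β V)
    (hx : x ∈ Bic M J ζ) (hc : NCont β x) (hy : y ∈ Bic M J ζ) {a b : ℝ}
    (hs : SpecIn E (y ζ) a b) {ε : ℝ} (hε : 0 < ε) :
    ∀ᶠ δ : ℝ in 𝓝[>] 0,
      ∫ ν, ‖(β (-ν) x * win E δ ν y - win E δ ν y * x) ζ‖ ^ 2 ≤ δ * ε := by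
  set Λ : ℝ := |a| + |b| + 1 with hΛ
  have hΛ0 : 0 < Λ := by positivity
  obtain ⟨δ₀, h0, h⟩ := res_lattice hE h1 hF hβ hx hc hy (Λ := Λ + 1) (by linarith) hε
  have hmem : Set.Ioc (0 : ℝ) (min δ₀ 1) ∈ 𝓝[>] (0 : ℝ) := Ioc_mem_nhdsGT (lt_min h0 one_pos)
  filter_upwards [hmem] with δ hδm
  have hδ : 0 < δ := hδm.1
  have hδ0 : δ ≤ δ₀ := hδm.2.trans (min_le_left _ _)
  have hδ1 : δ ≤ 1 := hδm.2.trans (min_le_right _ _)
  set F : ℝ → ℝ := fun ν => ‖(β (-ν) x * win E δ ν y - win E δ ν y * x) ζ‖ ^ 2 with hFdef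
  have hw := continuous_win E hδ y
  have hb : Continuous fun ν : ℝ => β (-ν) x :=
    (hβ.continuous_of_ncont hE hx hc).comp continuous_neg
  have hFc : Continuous F := by
    have : Continuous fun ν : ℝ => (β (-ν) x * win E δ ν y - win E δ ν y * x) ζ :=
      ((hb.mul hw).sub (hw.mul continuous_const)).clm_apply continuous_const
    exact this.norm.pow 2
  have hN1 : Λ ≤ (⌈Λ / δ⌉₊ : ℕ) * δ := by
    have := Nat.le_ceil (Λ / δ)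
    rwa [div_le_iff₀ hδ] at this
  have hN2 : (⌈Λ / δ⌉₊ : ℕ) * δ ≤ Λ + 1 := by
    have := (Nat.ceil_lt_add_one (show 0 ≤ Λ / δ by positivity)).le
    have h3 : (⌈Λ / δ⌉₊ : ℕ) * δ ≤ (Λ / δ + 1) * δ := by gcongr
    rw [add_mul, div_mul_cancel₀ _ hδ.ne'] at h3
    linarith
  have hz : ∀ ν, Λ ≤ |ν| → ((F ν : ℝ) : ℂ) = 0 := by
    intro ν hν
    have : win E δ ν y = 0 := by
      refine hE.win_eq_zero hδ (bic_mem hy) hs ?_
      have ha := neg_abs_le a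
      have hb' := le_abs_self b
      have ha0 := abs_nonneg a
      have hb0 := abs_nonneg b
      rcases le_abs'.1 hν with h3 | h3
      · left
        linarith
      · right
        linarith
    simp [hFdef, this]
  have hl := integral_lattice (F := fun ν => ((F ν : ℝ) : ℂ)) (Complex.continuous_ofReal.comp hFc)
    hδ hN1 hz
  simp only [← Complex.ofReal_sum] at hl
  rw [integral_complex_ofReal, intervalIntegral.integral_ofReal, Complex.ofReal_inj] at hl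
  change ∫ ν, F ν ≤ δ * ε
  rw [hl]
  have hGc : Continuous fun ν₀ : ℝ =>
      ∑ m ∈ Finset.Icc (-((⌈Λ / δ⌉₊ : ℕ) : ℤ)) (⌈Λ / δ⌉₊ : ℕ), F (δ * m + ν₀) :=
    continuous_finsetSum _ fun m _ => hFc.comp (continuous_const.add continuous_id)
  have hm := intervalIntegral.integral_mono_on (μ := volume) hδ.le (hGc.intervalIntegrable 0 δ)
    ((continuous_const (y := ε)).intervalIntegrable 0 δ)
    (fun ν₀ hν => h δ hδ hδ0 _ hN2 ν₀ hν.1 hν.2)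
  simpa using hm

end Pool.Agent.P.MP_5d580a_an
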