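import Pool.Agent.P.MP_5d580a_an.Bic4
import Pool.Agent.P.MP_5d580a_an.Sech

open scoped ComplexOrder InnerProductSpace ComplexConjugate BoundedContinuousFunction
open MeasureTheory Filter Topology

set_option linter.unusedSectionVars false
set_option linter.unusedVariables false

noncomputable section

namespace Pool.Agent.P.MP_5d580a_an

variable {H : Type} [NormedAddCommGroup H] [InnerProductSpace ℂ H] [CompleteSpace H]

variable {M : VonNeumannAlgebra H} {J : H ≃ₗᵢ⋆[ℂ] H} {ζ : H} {E : SpecCalc ℝ H}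

theorem var_apply (w : H →L[ℂ] H) (η : H) {δ : ℝ} (hδ : 0 < δ) (ν : ℝ) :
    w (E.Φ (trif δ ν) η) = ∫ t, fker δ ν t • w (E.U t η) := by
  rw [trif_apply E hδ, ← w.integral_comp_comm (integrable_fker_smul (E.continuous_U η) ‖η‖
    (fun t => (E.norm_U_apply t η).le) hδ ν)]
  simp only [map_smul]

theorem var_zero {η : H} {a b : ℝ} (hη : SpecIn E η a b) {δ : ℝ} (hδ : 0 < δ) {ν : ℝ}
    (h : ν + δ ≤ a ∨ b ≤ ν - δ) : E.Φ (trif δ ν) η = 0 := by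
  rw [E.apply_eq_zero_iff (bm_trif δ ν)]
  filter_upwards [hη.ae] with l hl
  by_contra hne
  have := (trif_ne_zero_iff hδ ν l).1 hne
  rcases h with h | h <;> linarith [hl.1, hl.2, this.1, this.2]

theorem var_bd (w : H →L[ℂ] H) (η : H) (t : ℝ) : ‖w (E.U t η)‖ ≤ ‖w‖ * ‖η‖ := by
  have := w.le_opNorm (E.U t η)
  rwa [E.norm_U_apply] at this

theorem var_integrable (w : H →L[ℂ] H) {η : H} {a b : ℝ} (hη : SpecIn E η a b) {δ : ℝ}
    (hδ : 0 < δ) : Integrable fun ν => ‖w (E.Φ (trif δ ν) η)‖ ^ 2 := by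
  have hc : Continuous fun ν => w (E.Φ (trif δ ν) η) := by
    simp only [var_apply w η hδ]
    exact continuous_winv (w.continuous.comp (E.continuous_U η)) _ (var_bd w η) hδ
  refine (hc.norm.pow 2).integrable_of_hasCompactSupport
    (HasCompactSupport.intro (K := Set.Icc (a - δ) (b + δ)) isCompact_Icc fun ν hν => ?_)
  have : E.Φ (trif δ ν) η = 0 := by
    refine var_zero hη hδ ?_
    rw [Set.mem_Icc, not_and_or, not_le, not_le] at hν
    rcases hν with h | h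
    · left; linarith
    · right; linarith
  simp [this]

theorem window_limit (hM : IsFactor M) (hE : ModD M J ζ E) (hF : Full M J ζ) (h1 : ‖ζ‖ = 1)
    {z : H →L[ℂ] H} (hz : z ∈ Bic M J ζ) {η : H} {a b : ℝ} (hη : SpecIn E η a b) :
    Tendsto (fun δ : ℝ => δ⁻¹ * ∫ ν, ‖z (E.Φ (trif δ ν) η)‖ ^ 2) (𝓝[>] 0)
      (𝓝 (2 * Real.pi * (∫ t, fej t ^ 2) * ‖z ζ‖ ^ 2 * ‖η‖ ^ 2)) := by
  have hm := mean_ergodic hM hE hF h1 (bic_mul hE.std (bic_star hE.std hz) hz)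
    fej_sq_integrable η η
  have hm2 := (Complex.continuous_re.tendsto _).comp (hm.const_mul (2 * Real.pi : ℂ))
  have e0 : ((2 * Real.pi : ℂ) * (((∫ t, fej t ^ 2 : ℝ) : ℂ) * ⟪ζ, (star z * z) ζ⟫_ℂ * ⟪η, η⟫_ℂ)).re
      = 2 * Real.pi * (∫ t, fej t ^ 2) * ‖z ζ‖ ^ 2 * ‖η‖ ^ 2 := by
    rw [mul_apply_eq_comp, inner_star_right, inner_self_eq_norm_sq_to_K,
      inner_self_eq_norm_sq_to_K]
    have : (2 * Real.pi : ℂ) * (((∫ t, fej t ^ 2 : ℝ) : ℂ) * ((‖z ζ‖ : ℝ) : ℂ) ^ 2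
        * ((‖η‖ : ℝ) : ℂ) ^ 2) =
        ((2 * Real.pi * (∫ t, fej t ^ 2) * ‖z ζ‖ ^ 2 * ‖η‖ ^ 2 : ℝ) : ℂ) := by
      push_cast; ring
    exact (congrArg Complex.re this).trans (Complex.ofReal_re _)
  rw [e0] at hm2
  refine hm2.congr' ?_
  filter_upwards [self_mem_nhdsWithin] with δ hδ
  have hδ : 0 < δ := hδ
  have hc : Continuous fun t => z (E.U t η) := z.continuous.comp (E.continuous_U η)
  have hp := plancherel_win hc hc _ (var_bd z η) (var_bd z η) hδ (|a| + |b| + δ) (fun ν hν => by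
    rw [← var_apply z η hδ, var_zero hη hδ, map_zero]
    rcases le_abs'.1 hν with h | h
    · left; linarith [neg_abs_le a, abs_nonneg b]
    · right; linarith [le_abs_self b, abs_nonneg a])
  have e1 : ∀ ν, ⟪∫ t, fker δ ν t • z (E.U t η), ∫ t, fker δ ν t • z (E.U t η)⟫_ℂ
      = ((‖z (E.Φ (trif δ ν) η)‖ ^ 2 : ℝ) : ℂ) := fun ν => by
    rw [← var_apply z η hδ, inner_self_eq_norm_sq_to_K]
    push_cast
    rfl
  have e2 : ∀ t, ⟪η, E.sig (-t) (star z * z) η⟫_ℂ = ⟪z (E.U t η), z (E.U t η)⟫_ℂ := fun t => by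
    rw [SpecCalc.sig, neg_neg, mul_apply_eq_comp, mul_apply_eq_comp,
      ← E.star_U, inner_star_right, mul_apply_eq_comp, inner_star_right]
  simp only [e1] at hp
  rw [integral_complex_ofReal] at hp
  simp only [Function.comp_apply, e2]
  have hδ' : (δ : ℂ) ≠ 0 := by exact_mod_cast hδ.ne'
  have e3 : (2 * Real.pi : ℂ) * ∫ t, ((δ * fej (δ * t) ^ 2 : ℝ) : ℂ) *
      ⟪z (E.U t η), z (E.U t η)⟫_ℂ = ((δ⁻¹ * ∫ ν, ‖z (E.Φ (trif δ ν) η)‖ ^ 2 : ℝ) : ℂ) := by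
    rw [Complex.ofReal_mul, hp]
    push_cast
    field_simp
  rw [e3, Complex.ofReal_re]

theorem var_sq {x y θ : ℝ} (hθ : 0 < θ) : (x + y) ^ 2 ≤ (1 + θ) * x ^ 2 + (1 + θ⁻¹) * y ^ 2 := by
  have : (1 + θ) * x ^ 2 + (1 + θ⁻¹) * y ^ 2 - (x + y) ^ 2 = θ⁻¹ * (θ * x - y) ^ 2 := by
    field_simp; ring
  have h2 : 0 ≤ θ⁻¹ * (θ * x - y) ^ 2 := by positivity
  linarith

theorem var_three (η : H) (x h : ℝ) (hh : 0 ≤ h) (n : ℕ) :
    ∑ k ∈ Finset.range n, ‖E.Pr (Set.Ico (x + k * h - h) (x + k * h + 2 * h)) η‖ ^ 2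
      ≤ 3 * ‖η‖ ^ 2 := by
  have := E.fin η
  let G : ℕ → ℝ := fun k => (E.μ η).real (Set.Iio (x + k * h - h))
  have e : ∀ k : ℕ, ‖E.Pr (Set.Ico (x + k * h - h) (x + k * h + 2 * h)) η‖ ^ 2
      = G (k + 3) - G k := fun k => by
    rw [E.norm_Pr_sq measurableSet_Ico]
    have h1 : x + ((k + 3 : ℕ) : ℝ) * h - h = x + k * h + 2 * h := by push_cast; ring
    have h2 : Set.Iio (x + k * h + 2 * h) = Set.Iio (x + k * h - h) ∪
        Set.Ico (x + k * h - h) (x + k * h + 2 * h) :=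
      (Set.Iio_union_Ico_eq_Iio (by linarith)).symm
    simp only [G]
    rw [h1, h2, measureReal_union _ measurableSet_Ico]
    · ring
    · exact Set.disjoint_left.2 fun l hl hl' => absurd hl'.1 (not_le.2 hl)
  have t : ∀ m : ℕ, ∑ k ∈ Finset.range m, (G (k + 3) - G k)
      = G m + G (m + 1) + G (m + 2) - (G 0 + G 1 + G 2) := fun m => by
    induction m with
    | zero => simp
    | succ m ih => rw [Finset.sum_range_succ, ih]; ring
  have up : ∀ k, G k ≤ ‖η‖ ^ 2 := fun k => by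
    rw [← E.mass η]
    exact measureReal_mono (Set.subset_univ _)
  have lo : ∀ k, 0 ≤ G k := fun k => measureReal_nonneg
  rw [Finset.sum_congr rfl fun k _ => e k, t]
  linarith [up n, up (n + 1), up (n + 2), lo 0, lo 1, lo 2]

theorem var_bound (hM : IsFactor M) (hE : ModD M J ζ E) (hF : Full M J ζ) (h1 : ‖ζ‖ = 1)
    {z : ℝ → (H →L[ℂ] H)} (hz : ∀ ν, z ν ∈ Bic M J ζ) (hc : Continuous z) {η : H} {a b γ : ℝ}
    (hη : SpecIn E η a b) (hγ : 0 < γ) {ε₁ : ℝ}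
    (hb : ∀ ν, a - γ ≤ ν → ν ≤ b + γ → ‖z ν ζ‖ ≤ ε₁) {ε : ℝ} (hε : 0 < ε) :
    ∀ᶠ δ : ℝ in 𝓝[>] 0, ∫ ν, ‖z ν (E.Φ (trif δ ν) η)‖ ^ 2 ≤
      δ * (3 * (2 * Real.pi * ∫ t, fej t ^ 2) * ε₁ ^ 2 * ‖η‖ ^ 2 + ε) := by
  obtain ⟨c, hcd⟩ : ∃ c, c = 2 * Real.pi * ∫ t, fej t ^ 2 := ⟨_, rfl⟩
  have hc0 : 0 < c := by rw [hcd]; have := fej_sq_pos; positivity
  rw [← hcd]
  obtain ⟨A, hA⟩ : ∃ A, A = 3 * c * ε₁ ^ 2 * ‖η‖ ^ 2 := ⟨_, rfl⟩
  have hA0 : 0 ≤ A := by rw [hA]; positivity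
  rw [← hA]
  obtain ⟨θ, hθ, hθA⟩ : ∃ θ : ℝ, 0 < θ ∧ θ * A ≤ ε / 4 := by
    refine ⟨ε / (4 * (A + 1)), by positivity, ?_⟩
    rw [div_mul_eq_mul_div, div_le_div_iff₀ (by positivity) (by norm_num)]
    nlinarith
  obtain ⟨r, hr, hrB⟩ : ∃ r : ℝ, 0 < r ∧ (1 + θ⁻¹) * r ^ 2 * (c * ‖η‖ ^ 2) ≤ ε / 4 := by
    obtain ⟨B, hB⟩ : ∃ B, B = (1 + θ⁻¹) * (c * ‖η‖ ^ 2) := ⟨_, rfl⟩
    have hB0 : 0 ≤ B := by rw [hB]; positivity
    refine ⟨√(ε / (4 * (B + 1))), Real.sqrt_pos.2 (by positivity), ?_⟩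
    rw [Real.sq_sqrt (by positivity), mul_right_comm, ← hB, ← mul_div_assoc,
      div_le_div_iff₀ (by positivity) (by norm_num)]
    nlinarith
  obtain ⟨h, hh, hu⟩ := Metric.uniformContinuousOn_iff.1
    ((isCompact_Icc (a := a - γ) (b := b + γ)).uniformContinuousOn_of_continuous hc.continuousOn)
    r hr
  classical
  let n : ℕ := ⌊(b - a + 2 * γ) / h⌋₊ + 1
  let T : Finset ℕ := (Finset.range n).filter fun k => a - γ + k * h ≤ b + γ
  let ξ : ℕ → H := fun k => E.Pr (Set.Ico (a - γ + k * h - h) (a - γ + k * h + 2 * h)) η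
  have hξ : ∀ k, SpecIn E (ξ k) a b := fun k =>
    E.null_apply (BM.indicator_one measurableSet_Ico) hη
  have l1 := tendsto_finsetSum T fun k _ =>
    window_limit hM hE hF h1 (hz (a - γ + k * h)) (hξ k)
  have l2 := window_limit hM hE hF h1 bic_one hη
  have l3 := (l1.const_mul (1 + θ)).add (l2.const_mul ((1 + θ⁻¹) * r ^ 2))
  rw [← hcd] at l3
  have hlt : (1 + θ) * ∑ k ∈ T, c * ‖z (a - γ + k * h) ζ‖ ^ 2 * ‖ξ k‖ ^ 2
      + (1 + θ⁻¹) * r ^ 2 * (c * ‖(1 : H →L[ℂ] H) ζ‖ ^ 2 * ‖η‖ ^ 2) < A + ε := by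
    have s1 : ∑ k ∈ T, c * ‖z (a - γ + k * h) ζ‖ ^ 2 * ‖ξ k‖ ^ 2
        ≤ ∑ k ∈ T, c * ε₁ ^ 2 * ‖ξ k‖ ^ 2 := by
      refine Finset.sum_le_sum fun k hk => ?_
      have h2 := hb _ (by have : (0 : ℝ) ≤ k * h := by positivity
                          linarith) (Finset.mem_filter.1 hk).2
      gcongr
    have s2 : ∑ k ∈ T, ‖ξ k‖ ^ 2 ≤ 3 * ‖η‖ ^ 2 :=
      (Finset.sum_le_sum_of_subset_of_nonneg (Finset.filter_subset _ _)
        fun k _ _ => sq_nonneg _).trans (var_three η (a - γ) h hh.le n)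
    rw [← Finset.mul_sum] at s1
    have s3 : c * ε₁ ^ 2 * ∑ k ∈ T, ‖ξ k‖ ^ 2 ≤ A := by
      rw [hA]
      have : 0 ≤ c * ε₁ ^ 2 := by positivity
      nlinarith
    have s4 : (1 + θ) * ∑ k ∈ T, c * ‖z (a - γ + k * h) ζ‖ ^ 2 * ‖ξ k‖ ^ 2 ≤ (1 + θ) * A :=
      mul_le_mul_of_nonneg_left (s1.trans s3) (by positivity)
    rw [one_apply_eq_self, h1, one_pow, mul_one]
    linarith
  filter_upwards [l3.eventually (gt_mem_nhds hlt), self_mem_nhdsWithin,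
    nhdsWithin_le_nhds (Iic_mem_nhds (lt_min hh hγ))] with δ hδ1 hδ hδ2
  have hδ : 0 < δ := hδ
  have hδh : δ ≤ h := (Set.mem_Iic.1 hδ2).trans (min_le_left _ _)
  have hδγ : δ ≤ γ := (Set.mem_Iic.1 hδ2).trans (min_le_right _ _)
  have i1 : ∀ k ∈ T, Integrable fun ν => ‖z (a - γ + k * h) (E.Φ (trif δ ν) (ξ k))‖ ^ 2 :=
    fun k _ => var_integrable _ (hξ k) hδ
  have i2 := var_integrable (1 : H →L[ℂ] H) hη hδ
  have i3 := integrable_finsetSum T i1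
  have hpt : ∀ ν, ‖z ν (E.Φ (trif δ ν) η)‖ ^ 2 ≤
      (1 + θ) * ∑ k ∈ T, ‖z (a - γ + k * h) (E.Φ (trif δ ν) (ξ k))‖ ^ 2
        + (1 + θ⁻¹) * r ^ 2 * ‖(1 : H →L[ℂ] H) (E.Φ (trif δ ν) η)‖ ^ 2 := by
    intro ν
    have hs0 : 0 ≤ ∑ k ∈ T, ‖z (a - γ + k * h) (E.Φ (trif δ ν) (ξ k))‖ ^ 2 :=
      Finset.sum_nonneg fun k _ => sq_nonneg _
    by_cases hν : ν + δ ≤ a ∨ b ≤ ν - δ
    · rw [var_zero hη hδ hν, map_zero, map_zero, norm_zero, zero_pow two_ne_zero]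
      positivity
    rw [not_or, not_le, not_le] at hν
    have n1 : a - γ ≤ ν := by linarith [hν.1]
    have n2 : ν ≤ b + γ := by linarith [hν.2]
    let k : ℕ := ⌊(ν - (a - γ)) / h⌋₊
    have k1 : (k : ℝ) * h ≤ ν - (a - γ) :=
      (le_div_iff₀ hh).1 (Nat.floor_le (div_nonneg (by linarith) hh.le))
    have k2 : ν - (a - γ) < (k + 1) * h := (div_lt_iff₀ hh).1 (Nat.lt_floor_add_one _)
    have k0 : (0 : ℝ) ≤ k * h := by positivity
    have hk : k ∈ T := by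
      refine Finset.mem_filter.2 ⟨Finset.mem_range.2 (Nat.lt_succ_of_le (Nat.floor_le_floor ?_)),
        by linarith⟩
      exact div_le_div_of_nonneg_right (by linarith) hh.le
    have e : E.Φ (trif δ ν) (ξ k) = E.Φ (trif δ ν) η := by
      simp only [ξ, SpecCalc.Pr]
      rw [E.mul_apply (bm_trif δ ν) (BM.indicator_one measurableSet_Ico)]
      congr 2
      funext l
      by_cases hl : trif δ ν l = 0
      · rw [hl, zero_mul]
      · have := (trif_ne_zero_iff hδ ν l).1 hl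
        rw [Set.indicator_of_mem (Set.mem_Ico.2 ⟨by linarith [this.1], by linarith [this.2]⟩),
          mul_one]
    have hd : ‖z ν - z (a - γ + k * h)‖ ≤ r := by
      rw [← dist_eq_norm]
      refine (hu ν ⟨n1, n2⟩ _ ⟨by linarith, by linarith⟩ ?_).le
      rw [Real.dist_eq, abs_lt]
      constructor <;> linarith
    obtain ⟨v, hv⟩ : ∃ v, v = E.Φ (trif δ ν) η := ⟨_, rfl⟩
    have b1 : ‖z ν v‖ ≤ ‖z (a - γ + k * h) v‖ + r * ‖v‖ := by
      have : z ν v = z (a - γ + k * h) v + (z ν - z (a - γ + k * h)) v := by simp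
      rw [this]
      refine (norm_add_le _ _).trans (add_le_add le_rfl ?_)
      exact (ContinuousLinearMap.le_opNorm _ _).trans
        (mul_le_mul_of_nonneg_right hd (norm_nonneg _))
    have b2 : ‖z (a - γ + k * h) v‖ ^ 2
        ≤ ∑ k ∈ T, ‖z (a - γ + k * h) (E.Φ (trif δ ν) (ξ k))‖ ^ 2 := by
      rw [hv, ← e]
      exact Finset.single_le_sum (f := fun k : ℕ => ‖z (a - γ + k * h) (E.Φ (trif δ ν) (ξ k))‖ ^ 2)
        (fun k _ => sq_nonneg _) hk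
    rw [← hv, one_apply_eq_self]
    have b3 := (pow_le_pow_left₀ (norm_nonneg _) b1 2).trans (var_sq hθ)
    have b4 := mul_le_mul_of_nonneg_left b2 (by positivity : 0 ≤ 1 + θ)
    rw [mul_pow] at b3
    linarith
  have hint := integral_mono_of_nonneg (Eventually.of_forall fun ν => sq_nonneg _)
    ((i3.const_mul (1 + θ)).add (i2.const_mul ((1 + θ⁻¹) * r ^ 2))) (Eventually.of_forall hpt)
  refine hint.trans ?_
  simp only [Pi.add_apply]
  rw [integral_add (i3.const_mul _) (i2.const_mul _), integral_const_mul, integral_const_mul,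
    integral_finsetSum T i1]
  rw [← Finset.mul_sum] at hδ1
  refine (inv_mul_le_iff₀ hδ).1 ?_
  linarith

end Pool.Agent.P.MP_5d580a_an
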