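import Pool.Agent.P.MP_5d580a_an.Res0
import Pool.Agent.P.MP_5d580a_an.Var

open scoped ComplexOrder InnerProductSpace ComplexConjugate BoundedContinuousFunction
open MeasureTheory Filter Topology

set_option linter.unusedSectionVars false
set_option linter.unusedVariables false

noncomputable section

namespace Pool.Agent.P.MP_5d580a_an

variable {H : Type} [NormedAddCommGroup H] [InnerProductSpace ℂ H] [CompleteSpace H]

variable {M : VonNeumannAlgebra H} {J : H ≃ₗᵢ⋆[ℂ] H} {ζ : H} {E V : SpecCalc ℝ H}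
  {β : ℝ → (H →L[ℂ] H) → (H →L[ℂ] H)} {x y : H →L[ℂ] H}

theorem res1_integrable {W : Type} [NormedAddCommGroup W] {f : ℝ → W} (hf : Continuous f) (Λ : ℝ)
    (h0 : ∀ ν, Λ ≤ |ν| → f ν = 0) : Integrable f := by
  refine hf.integrable_of_hasCompactSupport ?_
  refine HasCompactSupport.intro (K := Set.Icc (-Λ) Λ) isCompact_Icc ?_
  intro ν hν
  apply h0
  by_contra hlt
  push Not at hlt
  exact hν ⟨(abs_lt.1 hlt).1.le, (abs_lt.1 hlt).2.le⟩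

theorem res1_amgm (p q θ : ℝ) (hθ : 0 < θ) : p * q ≤ (p ^ 2 / θ + θ * q ^ 2) / 2 := by
  have h : 0 ≤ (p - θ * q) ^ 2 / θ := by positivity
  have e : (p - θ * q) ^ 2 / θ = p ^ 2 / θ + θ * q ^ 2 - 2 * (p * q) := by
    field_simp
    ring
  linarith

theorem res1_inner_bound {u b : ℝ → H} (hu : Continuous u) (hb : Continuous b) (Λ : ℝ)
    (hu0 : ∀ ν, Λ ≤ |ν| → u ν = 0) (hb0 : ∀ ν, Λ ≤ |ν| → b ν = 0) {θ : ℝ} (hθ : 0 < θ) :
    ‖∫ ν, ⟪u ν, b ν⟫_ℂ‖ ≤ ((∫ ν, ‖u ν‖ ^ 2) / θ + θ * ∫ ν, ‖b ν‖ ^ 2) / 2 := by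
  have iu : Integrable fun ν => ‖u ν‖ ^ 2 :=
    res1_integrable (by fun_prop) Λ fun ν h => by simp [hu0 ν h]
  have ib : Integrable fun ν => ‖b ν‖ ^ 2 :=
    res1_integrable (by fun_prop) Λ fun ν h => by simp [hb0 ν h]
  have i2 : Integrable fun ν => (‖u ν‖ ^ 2 / θ + θ * ‖b ν‖ ^ 2) / 2 :=
    ((iu.div_const θ).add (ib.const_mul θ)).div_const 2
  calc ‖∫ ν, ⟪u ν, b ν⟫_ℂ‖ ≤ ∫ ν, (‖u ν‖ ^ 2 / θ + θ * ‖b ν‖ ^ 2) / 2 := by
        refine norm_integral_le_of_norm_le i2 (Eventually.of_forall fun ν => ?_)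
        exact (norm_inner_le_norm _ _).trans (res1_amgm _ _ _ hθ)
    _ = ((∫ ν, ‖u ν‖ ^ 2) / θ + θ * ∫ ν, ‖b ν‖ ^ 2) / 2 := by
        rw [integral_div, integral_add (iu.div_const θ) (ib.const_mul θ), integral_div,
          integral_const_mul]

theorem res1_core {a b u r : ℝ → H} (hb : Continuous b) (hu : Continuous u) (hr : Continuous r)
    (Λ : ℝ) (hb0 : ∀ ν, Λ ≤ |ν| → b ν = 0) (hu0 : ∀ ν, Λ ≤ |ν| → u ν = 0)
    (hr0 : ∀ ν, Λ ≤ |ν| → r ν = 0) (e : ℂ) (ha : ∀ ν, a ν = e • b ν + u ν - r ν) {θ η : ℝ}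
    (hθ : 0 < θ) (hη : 0 < η) :
    ‖(∫ ν, ⟪a ν, b ν⟫_ℂ) - conj e * ((∫ ν, ‖b ν‖ ^ 2 : ℝ) : ℂ)‖ ≤
      ((∫ ν, ‖u ν‖ ^ 2) / θ + θ * ∫ ν, ‖b ν‖ ^ 2) / 2 +
        ((∫ ν, ‖r ν‖ ^ 2) / η + η * ∫ ν, ‖b ν‖ ^ 2) / 2 := by
  have i1 : Integrable fun ν => conj e * ((‖b ν‖ ^ 2 : ℝ) : ℂ) :=
    res1_integrable (by fun_prop) Λ fun ν h => by simp [hb0 ν h]
  have i2 : Integrable fun ν => ⟪u ν, b ν⟫_ℂ :=
    res1_integrable (hu.inner hb) Λ fun ν h => by simp [hb0 ν h]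
  have i3 : Integrable fun ν => ⟪r ν, b ν⟫_ℂ :=
    res1_integrable (hr.inner hb) Λ fun ν h => by simp [hb0 ν h]
  have e1 : (fun ν => ⟪a ν, b ν⟫_ℂ) =
      fun ν => conj e * ((‖b ν‖ ^ 2 : ℝ) : ℂ) + ⟪u ν, b ν⟫_ℂ - ⟪r ν, b ν⟫_ℂ := by
    funext ν
    rw [ha ν, inner_sub_left, inner_add_left, inner_smul_left, inner_self_eq_norm_sq_to_K]
    simp
  have e2 : (∫ ν, ⟪a ν, b ν⟫_ℂ) - conj e * ((∫ ν, ‖b ν‖ ^ 2 : ℝ) : ℂ) =
      (∫ ν, ⟪u ν, b ν⟫_ℂ) - ∫ ν, ⟪r ν, b ν⟫_ℂ := by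
    have i12 : Integrable fun ν => conj e * ((‖b ν‖ ^ 2 : ℝ) : ℂ) + ⟪u ν, b ν⟫_ℂ := i1.add i2
    rw [e1, integral_sub i12 i3, integral_add i1 i2, integral_const_mul, integral_complex_ofReal]
    ring
  rw [e2]
  exact (norm_sub_le _ _).trans
    (add_le_add (res1_inner_bound hu hb Λ hu0 hb0 hθ) (res1_inner_bound hr hb Λ hr0 hb0 hη))

theorem res1_plan (hE : ModD M J ζ E) (hy : y ∈ M) {δ : ℝ} (hδ : 0 < δ) (Λ : ℝ)
    (h0 : ∀ ν, Λ ≤ |ν| → win E δ ν y = 0) :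
    ∫ ν, ⟪win E δ ν y (x ζ), x (win E δ ν y ζ)⟫_ℂ =
      (2 * Real.pi * δ : ℂ) *
        ∫ t, ((δ * fej (δ * t) ^ 2 : ℝ) : ℂ) * ⟪(E.sig t y * x) ζ, (x * E.sig t y) ζ⟫_ℂ := by
  have hs := E.scb_sig y
  have hF : Continuous fun t => E.sig t y (x ζ) := hs.1 _
  have hG : Continuous fun t => x (E.sig t y ζ) := x.continuous.comp (hs.1 _)
  have eF : ∀ ν, ∫ t, fker δ ν t • E.sig t y (x ζ) = win E δ ν y (x ζ) := fun ν =>
    (smear_apply' E (fker_integrable hδ ν) y _).symm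
  have eG : ∀ ν, ∫ t, fker δ ν t • x (E.sig t y ζ) = x (win E δ ν y ζ) := fun ν => by
    have h1 : win E δ ν y ζ = ∫ t, fker δ ν t • E.sig t y ζ :=
      smear_apply' E (fker_integrable hδ ν) y _
    rw [h1, ← x.integral_comp_comm (hs.integrable (fker_integrable hδ ν) ζ)]
    simp only [map_smul]
  have hK1 : ∀ t, ‖E.sig t y (x ζ)‖ ≤ ‖y‖ * ‖x‖ * ‖ζ‖ := fun t => by
    calc ‖E.sig t y (x ζ)‖ ≤ ‖E.sig t y‖ * ‖x ζ‖ := ContinuousLinearMap.le_opNorm _ _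
      _ ≤ ‖y‖ * (‖x‖ * ‖ζ‖) := by
        gcongr
        · exact hs.2 t
        · exact ContinuousLinearMap.le_opNorm _ _
      _ = _ := by ring
  have hK2 : ∀ t, ‖x (E.sig t y ζ)‖ ≤ ‖y‖ * ‖x‖ * ‖ζ‖ := fun t => by
    calc ‖x (E.sig t y ζ)‖ ≤ ‖x‖ * ‖E.sig t y ζ‖ := ContinuousLinearMap.le_opNorm _ _
      _ ≤ ‖x‖ * (‖y‖ * ‖ζ‖) := by
        gcongr
        exact (ContinuousLinearMap.le_opNorm _ _).trans (by gcongr; exact hs.2 t)
      _ = _ := by ring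
  have h := plancherel_win hF hG _ hK1 hK2 hδ Λ fun ν hν => by
    rw [eG, h0 ν hν]; simp
  simp only [eF, eG] at h
  simpa only [ContinuousLinearMap.mul_apply] using h

theorem res1_arith {P ε₁ η ε' Bq U R : ℝ} (hP : 0 ≤ P) (hε₁ : 0 ≤ ε₁) (hη : 0 < η) (hε' : 0 < ε')
    (hB : Bq ≤ P + ε') (hU : U ≤ 3 * ε₁ ^ 2 * P + ε') (hR : R ≤ ε') :
    (U / (2 * ε₁ + η) + (2 * ε₁ + η) * Bq) / 2 + (R / η + η * Bq) / 2 + ε' ≤
      2 * ε₁ * P + η * P + ε' * (1 / η + ε₁ + η + 1) := by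
  have hθ : 0 < 2 * ε₁ + η := by positivity
  have h1 : U / (2 * ε₁ + η) ≤ 2 * ε₁ * P + ε' * (1 / η) := by
    have h2 : ε' / (2 * ε₁ + η) ≤ ε' * (1 / η) := by
      rw [mul_one_div]
      exact div_le_div_of_nonneg_left hε'.le hη (by linarith)
    have h3 : 3 * ε₁ ^ 2 * P / (2 * ε₁ + η) ≤ 2 * ε₁ * P := by
      rw [div_le_iff₀ hθ]
      have : 0 ≤ ε₁ ^ 2 * P := by positivity
      have : 0 ≤ ε₁ * P * η := by positivity
      nlinarith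
    calc U / (2 * ε₁ + η) ≤ (3 * ε₁ ^ 2 * P + ε') / (2 * ε₁ + η) := by gcongr
      _ = 3 * ε₁ ^ 2 * P / (2 * ε₁ + η) + ε' / (2 * ε₁ + η) := add_div _ _ _
      _ ≤ _ := add_le_add h3 h2
  have h4 : R / η ≤ ε' * (1 / η) := by
    rw [mul_one_div]
    gcongr
  have h5 : (2 * ε₁ + η) * Bq ≤ (2 * ε₁ + η) * (P + ε') := by gcongr
  have h6 : η * Bq ≤ η * (P + ε') := by gcongr
  nlinarith

theorem resonance_half (hM : IsFactor M) (hE : ModD M J ζ E) (hFu : Full M J ζ) (h1 : ‖ζ‖ = 1)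
    (hF : EigFam M J ζ) (hβ : BFlow M J ζ E β V) (hx : x ∈ Bic M J ζ) (hc : NCont β x)
    (hy : y ∈ Bic M J ζ) {m s γ ε₁ : ℝ} (hγ : 0 < γ) (hε₁ : 0 ≤ ε₁)
    (hs : SpecIn E (y ζ) (m - γ) (m + γ))
    (hV : ∀ ν : ℝ, |ν - m| ≤ 2 * γ →
      ‖V.U (-ν) (x ζ) - Complex.exp (-(Complex.I * m * s)) • x ζ‖ ≤ ε₁ * ‖x ζ‖)
    {ε : ℝ} (hε : 0 < ε) :
    ∀ᶠ δ : ℝ in 𝓝[>] 0,
      ‖(∫ t, ((δ * fej (δ * t) ^ 2 : ℝ) : ℂ) * ⟪(E.sig t y * x) ζ, (x * E.sig t y) ζ⟫_ℂ) -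
        Complex.exp (Complex.I * m * s) *
          (((∫ t, fej t ^ 2) * ‖x ζ‖ ^ 2 * ‖y ζ‖ ^ 2 : ℝ) : ℂ)‖ ≤
        2 * ε₁ * ((∫ t, fej t ^ 2) * ‖x ζ‖ ^ 2 * ‖y ζ‖ ^ 2) + ε := by
  set c : ℝ := ∫ t, fej t ^ 2 with hcdef
  have hc0 : 0 < c := fej_sq_pos
  set Q : ℝ := c * ‖x ζ‖ ^ 2 * ‖y ζ‖ ^ 2 with hQ
  have hQ0 : 0 ≤ Q := by positivity
  have hπ : 0 < 2 * Real.pi := by positivity
  set P : ℝ := 2 * Real.pi * Q with hP
  have hP0 : 0 ≤ P := by positivity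
  set e : ℂ := Complex.exp (-(Complex.I * m * s)) with he
  have hce : conj e = Complex.exp (Complex.I * m * s) := by
    rw [he, ← Complex.exp_conj]
    congr 1
    simp
  have hne : ‖Complex.exp (Complex.I * m * s)‖ = 1 := by
    have : Complex.I * m * s = ((m * s : ℝ) : ℂ) * Complex.I := by push_cast; ring
    rw [this, Complex.norm_exp_ofReal_mul_I]
  set η : ℝ := ε / (P + 1) with hη
  have hη0 : 0 < η := by positivity
  have hηP : η * P ≤ ε := by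
    rw [hη, div_mul_eq_mul_div, div_le_iff₀ (by positivity)]
    nlinarith
  set ε' : ℝ := ε / (1 / η + ε₁ + η + 1) with hε'
  have hε'0 : 0 < ε' := by positivity
  have hε'1 : ε' * (1 / η + ε₁ + η + 1) = ε := by
    rw [hε']
    exact div_mul_cancel₀ _ (by positivity)
  have hβc : Continuous fun ν : ℝ => β (-ν) x :=
    (hβ.continuous_of_ncont hE hx hc).comp continuous_neg
  have hzc : Continuous fun ν : ℝ => β (-ν) x - e • x := hβc.sub continuous_const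
  have hz : ∀ ν : ℝ, β (-ν) x - e • x ∈ Bic M J ζ := fun ν =>
    bic_sub (hβ.mem _ hx) (bic_smul e hx)
  have E1 := res_zero hE h1 hF hβ hx hc hy hs hε'0
  have E2 := var_bound hM hE hFu h1 hz hzc hs hγ (ε₁ := ε₁ * ‖x ζ‖) (fun ν ha hb => by
    have h := hV ν (abs_le.2 ⟨by linarith, by linarith⟩)
    rw [← hβ.apply _ x hx] at h
    simpa only [ContinuousLinearMap.sub_apply, ContinuousLinearMap.smul_apply] using h) hε'0
  have E3 := (Metric.tendsto_nhds.1 (window_limit hM hE hFu h1 hx hs)) ε' hε'0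
  filter_upwards [E1, E2, E3, self_mem_nhdsWithin] with δ h1' h2' h3' hδ
  have hδ : 0 < δ := hδ
  have hyM : y ∈ M := bic_mem hy
  have h0 : ∀ ν, |m| + γ + δ ≤ |ν| → win E δ ν y = 0 := fun ν hν => by
    refine hE.win_eq_zero hδ hyM hs ?_
    rcases le_total 0 ν with h | h
    · right
      rw [abs_of_nonneg h] at hν
      linarith [le_abs_self m]
    · left
      rw [abs_of_nonpos h] at hν
      linarith [neg_abs_le m]
  have hw : Continuous fun ν => win E δ ν y := continuous_win E hδ y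
  have hwz : Continuous fun ν => win E δ ν y ζ := hw.clm_apply continuous_const
  have hcore := res1_core (a := fun ν => win E δ ν y (x ζ)) (b := fun ν => x (win E δ ν y ζ))
    (u := fun ν => (β (-ν) x - e • x) (win E δ ν y ζ))
    (r := fun ν => (β (-ν) x * win E δ ν y - win E δ ν y * x) ζ)
    (x.continuous.comp hwz) (hzc.clm_apply hwz)
    (((hβc.mul hw).sub (hw.mul continuous_const)).clm_apply continuous_const) (|m| + γ + δ)
    (fun ν hν => by simp [h0 ν hν]) (fun ν hν => by simp [h0 ν hν])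
    (fun ν hν => by simp [h0 ν hν]) e
    (fun ν => by
      simp only [ContinuousLinearMap.sub_apply, ContinuousLinearMap.smul_apply,
        ContinuousLinearMap.mul_apply]
      abel)
    (θ := 2 * ε₁ + η) (by positivity) hη0
  rw [res1_plan hE hyM hδ _ h0, hce] at hcore
  simp only [← hE.win_apply hδ] at h2' h3'
  set A : ℂ := ∫ t, ((δ * fej (δ * t) ^ 2 : ℝ) : ℂ) * ⟪(E.sig t y * x) ζ, (x * E.sig t y) ζ⟫_ℂ
    with hA
  set B : ℝ := ∫ ν, ‖x (win E δ ν y ζ)‖ ^ 2 with hB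
  set U : ℝ := ∫ ν, ‖(β (-ν) x - e • x) (win E δ ν y ζ)‖ ^ 2 with hU
  set R : ℝ := ∫ ν, ‖(β (-ν) x * win E δ ν y - win E δ ν y * x) ζ‖ ^ 2 with hR
  have eP : 2 * Real.pi * c * ‖x ζ‖ ^ 2 * ‖y ζ‖ ^ 2 = P := by rw [hP, hQ]; ring
  rw [Real.dist_eq, eP] at h3'
  have hBq : δ⁻¹ * B ≤ P + ε' := by linarith [(abs_lt.1 h3').2]
  have hUq : δ⁻¹ * U ≤ 3 * ε₁ ^ 2 * P + ε' := by
    rw [inv_mul_le_iff₀ hδ]
    refine h2'.trans (le_of_eq ?_)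
    rw [← eP]
    ring
  have hRq : δ⁻¹ * R ≤ ε' := by
    rw [inv_mul_le_iff₀ hδ]
    exact h1'
  have har := res1_arith hP0 hε₁ hη0 hε'0 hBq hUq hRq
  have key : ((2 * Real.pi : ℝ) : ℂ) * (A - Complex.exp (Complex.I * m * s) * (Q : ℂ)) =
      ((δ⁻¹ : ℝ) : ℂ) * (2 * Real.pi * δ * A - Complex.exp (Complex.I * m * s) * (B : ℂ)) +
        Complex.exp (Complex.I * m * s) * ((δ⁻¹ * B - P : ℝ) : ℂ) := by
    have : (δ : ℂ) ≠ 0 := by exact_mod_cast hδ.ne'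
    rw [hP]
    push_cast
    field_simp
    ring
  have hn : 2 * Real.pi * ‖A - Complex.exp (Complex.I * m * s) * (Q : ℂ)‖ ≤
      δ⁻¹ * ((U / (2 * ε₁ + η) + (2 * ε₁ + η) * B) / 2 + (R / η + η * B) / 2) + ε' := by
    have e1 : 2 * Real.pi * ‖A - Complex.exp (Complex.I * m * s) * (Q : ℂ)‖ =
        ‖((2 * Real.pi : ℝ) : ℂ) * (A - Complex.exp (Complex.I * m * s) * (Q : ℂ))‖ := by
      rw [norm_mul, Complex.norm_real, Real.norm_of_nonneg hπ.le]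
    rw [e1, key]
    refine (norm_add_le _ _).trans (add_le_add ?_ ?_)
    · rw [norm_mul, Complex.norm_real, Real.norm_of_nonneg (by positivity)]
      gcongr
    · rw [norm_mul, hne, one_mul, Complex.norm_real, Real.norm_eq_abs]
      exact h3'.le
  have e3 : δ⁻¹ * ((U / (2 * ε₁ + η) + (2 * ε₁ + η) * B) / 2 + (R / η + η * B) / 2) =
      (δ⁻¹ * U / (2 * ε₁ + η) + (2 * ε₁ + η) * (δ⁻¹ * B)) / 2 +
        (δ⁻¹ * R / η + η * (δ⁻¹ * B)) / 2 := by ring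
  rw [e3] at hn
  have hfin : 2 * Real.pi * ‖A - Complex.exp (Complex.I * m * s) * (Q : ℂ)‖ ≤
      2 * Real.pi * (2 * ε₁ * Q + ε) := by
    have h3 : 3 < Real.pi := Real.pi_gt_three
    have : 2 * Real.pi * (2 * ε₁ * Q + ε) = 2 * ε₁ * P + 2 * Real.pi * ε := by rw [hP]; ring
    rw [this]
    nlinarith
  exact le_of_mul_le_mul_left hfin hπ

theorem res1_swap (hE : ModD M J ζ E) (δ : ℝ) :
    (∫ t, ((δ * fej (δ * t) ^ 2 : ℝ) : ℂ) * ⟪(E.sig t y * x) ζ, (x * E.sig t y) ζ⟫_ℂ) =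
      conj (∫ t, ((δ * fej (δ * t) ^ 2 : ℝ) : ℂ) * ⟪(E.sig t x * y) ζ, (y * E.sig t x) ζ⟫_ℂ) := by
  rw [← integral_conj, ← integral_neg_eq_self]
  congr 1
  funext t
  have e1 : E.sig (-t) y * x = E.sig (-t) (y * E.sig t x) := by
    rw [E.sig_mul, E.sig_sig, neg_add_cancel, E.sig_zero]
  have e2 : x * E.sig (-t) y = E.sig (-t) (E.sig t x * y) := by
    rw [E.sig_mul, E.sig_sig, neg_add_cancel, E.sig_zero]
  rw [e1, e2, hE.sig_apply, hE.sig_apply, E.inner_U, map_mul, Complex.conj_ofReal, inner_conj_symm,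
    mul_neg, fej_neg]

theorem resonance (hM : IsFactor M) (hE : ModD M J ζ E) (hFu : Full M J ζ) (h1 : ‖ζ‖ = 1)
    (hF : EigFam M J ζ) (hβ : BFlow M J ζ E β V) (hx : x ∈ Bic M J ζ) (hy : y ∈ Bic M J ζ)
    (hx0 : x ≠ 0) (hy0 : y ≠ 0) (hcx : NCont β x) (hcy : NCont β y) {l s m r γ ε : ℝ}
    (hγ : 0 < γ) (hε : 0 ≤ ε) (hsx : SpecIn E (x ζ) (l - γ) (l + γ))
    (hsy : SpecIn E (y ζ) (m - γ) (m + γ))
    (hVx : ∀ ν : ℝ, |ν - m| ≤ 2 * γ →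
      ‖V.U (-ν) (x ζ) - Complex.exp (-(Complex.I * m * s)) • x ζ‖ ≤ ε * ‖x ζ‖)
    (hVy : ∀ ν : ℝ, |ν - l| ≤ 2 * γ →
      ‖V.U (-ν) (y ζ) - Complex.exp (-(Complex.I * l * r)) • y ζ‖ ≤ ε * ‖y ζ‖) :
    ‖Complex.exp (Complex.I * m * s) - Complex.exp (-(Complex.I * l * r))‖ ≤ 4 * ε := by
  have hxz : x ζ ≠ 0 := fun h => hx0 (hE.std.sepg x (bic_mem hx) h)
  have hyz : y ζ ≠ 0 := fun h => hy0 (hE.std.sepg y (bic_mem hy) h)
  have hc0 : 0 < ∫ t, fej t ^ 2 := fej_sq_pos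
  set Q : ℝ := (∫ t, fej t ^ 2) * ‖x ζ‖ ^ 2 * ‖y ζ‖ ^ 2 with hQ
  have hQ0 : 0 < Q := by
    have := norm_pos_iff.2 hxz
    have := norm_pos_iff.2 hyz
    positivity
  have hQ' : (∫ t, fej t ^ 2) * ‖y ζ‖ ^ 2 * ‖x ζ‖ ^ 2 = Q := by rw [hQ]; ring
  have main : ∀ ε' : ℝ, 0 < ε' →
      Q * ‖Complex.exp (Complex.I * m * s) - Complex.exp (-(Complex.I * l * r))‖ ≤
        Q * (4 * ε) + ε' := by
    intro ε' hε'
    have A1 := resonance_half hM hE hFu h1 hF hβ hx hcx hy hγ hε hsy hVx (half_pos hε')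
    have A2 := resonance_half hM hE hFu h1 hF hβ hy hcy hx hγ hε hsx hVy (half_pos hε')
    obtain ⟨δ, b1, b2⟩ := (A1.and A2).exists
    rw [hQ'] at b2
    rw [res1_swap hE δ] at b1
    set A : ℂ := ∫ t, ((δ * fej (δ * t) ^ 2 : ℝ) : ℂ) * ⟪(E.sig t x * y) ζ, (y * E.sig t x) ζ⟫_ℂ
    have hce : conj (Complex.exp (Complex.I * l * r)) = Complex.exp (-(Complex.I * l * r)) := by
      rw [← Complex.exp_conj]
      congr 1
      simp
    have b3 : ‖conj A - Complex.exp (-(Complex.I * l * r)) * (Q : ℂ)‖ ≤ 2 * ε * Q + ε' / 2 := by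
      rw [← hce, ← Complex.conj_ofReal Q, ← map_mul, ← map_sub, Complex.norm_conj]
      exact b2
    have e1 : Q * ‖Complex.exp (Complex.I * m * s) - Complex.exp (-(Complex.I * l * r))‖ =
        ‖(conj A - Complex.exp (-(Complex.I * l * r)) * (Q : ℂ)) -
          (conj A - Complex.exp (Complex.I * m * s) * (Q : ℂ))‖ := by
      have : (conj A - Complex.exp (-(Complex.I * l * r)) * (Q : ℂ)) -
          (conj A - Complex.exp (Complex.I * m * s) * (Q : ℂ)) =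
          (Q : ℂ) * (Complex.exp (Complex.I * m * s) - Complex.exp (-(Complex.I * l * r))) := by
        ring
      rw [this, norm_mul, Complex.norm_real, Real.norm_of_nonneg hQ0.le]
    rw [e1]
    refine (norm_sub_le _ _).trans ?_
    linarith
  exact le_of_mul_le_mul_left (le_of_forall_pos_le_add main) hQ0

end Pool.Agent.P.MP_5d580a_an
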