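import Pool.Agent.P.MP_5d580a_an.Proj

open scoped ComplexOrder InnerProductSpace ComplexConjugate BoundedContinuousFunction
open MeasureTheory Filter Topology

set_option linter.unusedSectionVars false
set_option linter.unusedVariables false

noncomputable section

namespace Pool.Agent.P.MP_5d580a_an

variable {H : Type} [NormedAddCommGroup H] [InnerProductSpace ℂ H] [CompleteSpace H]

variable {M : VonNeumannAlgebra H} {ζ : H}

/-- real orthogonal projection onto the closure of a real subspace -/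
theorem rvd0_proj (K : Submodule ℝ H) :
    ∃ P : H →L[ℝ] H, (∀ ξ, P ξ ∈ closure (K : Set H)) ∧
      ∀ ξ, ∀ k ∈ closure (K : Set H), (⟪k, ξ - P ξ⟫_ℂ).re = 0 := by
  let _ : InnerProductSpace ℝ H := InnerProductSpace.rclikeToReal ℂ H
  have : CompleteSpace K.topologicalClosure := K.isClosed_topologicalClosure.completeSpace_coe
  refine ⟨K.topologicalClosure.starProjection, fun ξ =>
    K.topologicalClosure.starProjection_apply_mem ξ, fun ξ k hk => ?_⟩
  have h := K.topologicalClosure.sub_starProjection_mem_orthogonal ξ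
  exact (Submodule.mem_orthogonal _ _).1 h k hk

theorem rvd0_re_I_left (a b : H) : (⟪Complex.I • a, b⟫_ℂ).re = (⟪a, b⟫_ℂ).im := by
  rw [inner_smul_left]; simp

theorem rvd0_re_I_right (a b : H) : (⟪a, Complex.I • b⟫_ℂ).re = -(⟪a, b⟫_ℂ).im := by
  rw [inner_smul_right]; simp

theorem rvd0_im_I_left (a b : H) : (⟪Complex.I • a, b⟫_ℂ).im = -(⟪a, b⟫_ℂ).re := by
  rw [inner_smul_left]; simp

theorem rvd0_im_I_right (a b : H) : (⟪a, Complex.I • b⟫_ℂ).im = (⟪a, b⟫_ℂ).re := by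
  rw [inner_smul_right]; simp

theorem rvd0_re_comm (a b : H) : (⟪a, b⟫_ℂ).re = (⟪b, a⟫_ℂ).re := by
  rw [← inner_conj_symm, Complex.conj_re]

theorem rvd0_im_comm (a b : H) : (⟪a, b⟫_ℂ).im = -(⟪b, a⟫_ℂ).im := by
  rw [← inner_conj_symm, Complex.conj_im]

theorem rvd0_re_self (a : H) : (⟪a, a⟫_ℂ).re = ‖a‖ ^ 2 := inner_self_eq_norm_sq (𝕜 := ℂ) a

theorem rvd0_II (a : H) : Complex.I • Complex.I • a = -a := by
  rw [smul_smul, Complex.I_mul_I, neg_one_smul]

theorem rvd0_split (c : ℂ) (a : H) : c • a = c.re • a + c.im • Complex.I • a := by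
  rw [← Complex.coe_smul, ← Complex.coe_smul, smul_smul, ← add_smul, Complex.re_add_im]

/-- the sum of the two real projections -/
def rvd0R (P : H →L[ℝ] H) : H →L[ℂ] H where
  toFun ξ := P ξ - Complex.I • P (Complex.I • ξ)
  map_add' ξ η := by simp only [smul_add, map_add]; abel
  map_smul' c ξ := by
    rw [RingHom.id_apply, rvd0_split c ξ, rvd0_split c (P ξ - _)]
    simp only [smul_add, map_add, map_smul, smul_sub, smul_comm Complex.I c.re,
      smul_comm Complex.I c.im, rvd0_II, map_neg, smul_neg]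
    abel
  cont := P.continuous.sub ((P.continuous.comp (continuous_const_smul _)).const_smul _)

/-- the difference of the two real projections -/
def rvd0D (P : H →L[ℝ] H) : H →L⋆[ℂ] H where
  toFun ξ := P ξ + Complex.I • P (Complex.I • ξ)
  map_add' ξ η := by simp only [smul_add, map_add]; abel
  map_smul' c ξ := by
    rw [rvd0_split c ξ, rvd0_split _ (P ξ + _), Complex.conj_re, Complex.conj_im]
    simp only [smul_add, map_add, map_smul, smul_comm Complex.I c.re,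
      smul_comm Complex.I c.im, rvd0_II, map_neg, smul_neg, neg_smul]
    abel
  cont := P.continuous.add ((P.continuous.comp (continuous_const_smul _)).const_smul _)

theorem rvd0R_apply (P : H →L[ℝ] H) (ξ : H) :
    rvd0R P ξ = P ξ - Complex.I • P (Complex.I • ξ) := rfl

theorem rvd0D_apply (P : H →L[ℝ] H) (ξ : H) :
    rvd0D P ξ = P ξ + Complex.I • P (Complex.I • ξ) := rfl

theorem rvd0_two_sub (R : H →L[ℂ] H) (ξ : H) : (2 - R) ξ = ξ + ξ - R ξ := by
  rw [sub_apply, ← one_add_one_eq_two, add_apply]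
  rfl

/-- the real subspace of the vectors `a ζ` with selfadjoint `a` -/
def rvd0K (M : VonNeumannAlgebra H) (ζ : H) : Submodule ℝ H where
  carrier := {η | ∃ a ∈ M, IsSelfAdjoint a ∧ η = a ζ}
  add_mem' := by
    rintro _ _ ⟨a, ha, ha', rfl⟩ ⟨b, hb, hb', rfl⟩
    exact ⟨a + b, add_mem ha hb, ha'.add hb', rfl⟩
  zero_mem' := ⟨0, zero_mem M, IsSelfAdjoint.zero _, rfl⟩
  smul_mem' := by
    rintro t _ ⟨a, ha, ha', rfl⟩
    refine ⟨(t : ℂ) • a, vn_smul_mem _ ha, ?_, by rw [smul_apply, Complex.coe_smul]⟩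
    rw [IsSelfAdjoint, star_smul, ha'.star_eq]
    simp

theorem rvd0_star {x a b : H →L[ℂ] H} (ha : IsSelfAdjoint a) (hb : IsSelfAdjoint b)
    (h : x = a + Complex.I • b) : star x = a - Complex.I • b := by
  rw [h, star_add, star_smul, ha.star_eq, hb.star_eq]
  simp [sub_eq_add_neg]

theorem rvd0_eq_zero (hc : Cyc M ζ) {ξ : H}
    (h : ∀ a ∈ M, IsSelfAdjoint a → ⟪a ζ, ξ⟫_ℂ = 0) : ξ = 0 := by
  refine eq_of_inner_cyc hc fun x hx => ?_
  obtain ⟨a, ha, b, hb, ha', hb', -, -, e, -⟩ := exists_re_im hx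
  rw [e, add_apply, smul_apply, inner_add_left, inner_smul_left, h a ha ha', h b hb hb']
  simp

theorem rvd0_real {y : H →L[ℂ] H} (hy : y ∈ M.commutant) (hsa : IsSelfAdjoint y) :
    ∀ k ∈ closure (rvd0K M ζ : Set H), (⟪k, y ζ⟫_ℂ).im = 0 := by
  intro k hk
  refine closure_minimal (t := {k : H | (⟪k, y ζ⟫_ℂ).im = 0}) ?_
    (isClosed_eq (Complex.continuous_im.comp (continuous_id.inner continuous_const))
      continuous_const) hk
  rintro _ ⟨a, ha, ha', rfl⟩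
  have h1 : ⟪a ζ, y ζ⟫_ℂ = ⟪y ζ, a ζ⟫_ℂ := by
    rw [← inner_star_right a, ← inner_star_right y, ha'.star_eq, hsa.star_eq, commute_apply ha hy]
  have h2 := rvd0_im_comm (a ζ) (y ζ)
  rw [← h1] at h2
  show (⟪a ζ, y ζ⟫_ℂ).im = 0
  linarith

theorem exists_rvd (hc : Cyc M ζ) (hs : Sepg M ζ) :
    ∃ (R : H →L[ℂ] H) (D : H →L⋆[ℂ] H), RvD M ζ R D := by
  obtain ⟨P, hP, hO⟩ := rvd0_proj (rvd0K M ζ)
  have hclo : ∀ k ∈ closure (rvd0K M ζ : Set H), ∀ k' ∈ closure (rvd0K M ζ : Set H),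
      k - k' ∈ closure (rvd0K M ζ : Set H) := fun k hk k' hk' =>
    (rvd0K M ζ).topologicalClosure.sub_mem hk hk'
  have hfix : ∀ k ∈ closure (rvd0K M ζ : Set H), P k = k := by
    intro k hk
    have := hO k _ (hclo k hk _ (hP k))
    rw [rvd0_re_self, sq_eq_zero_iff, norm_eq_zero, sub_eq_zero] at this
    exact this.symm
  have hPP : ∀ ξ, P (P ξ) = P ξ := fun ξ => hfix _ (hP ξ)
  have hO' : ∀ ξ, ∀ k ∈ closure (rvd0K M ζ : Set H), (⟪k, ξ⟫_ℂ).re = (⟪k, P ξ⟫_ℂ).re := by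
    intro ξ k hk
    have := hO ξ k hk
    rw [inner_sub_right, Complex.sub_re] at this
    linarith
  have hsym : ∀ ξ η, (⟪P ξ, η⟫_ℂ).re = (⟪ξ, P η⟫_ℂ).re := by
    intro ξ η
    rw [hO' η _ (hP ξ), rvd0_re_comm ξ, hO' ξ _ (hP η), rvd0_re_comm]
  have hsymI : ∀ ξ η, (⟪Complex.I • P (Complex.I • ξ), η⟫_ℂ).re =
      (⟪ξ, Complex.I • P (Complex.I • η)⟫_ℂ).re := by
    intro ξ η
    have := hsym (Complex.I • ξ) (Complex.I • η)
    rw [rvd0_re_I_right, rvd0_re_I_left] at this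
    rw [rvd0_re_I_right, rvd0_re_I_left]
    linarith
  have hself : ∀ ξ, (⟪ξ, P ξ⟫_ℂ).re = ‖P ξ‖ ^ 2 := by
    intro ξ
    rw [rvd0_re_comm, hO' ξ _ (hP ξ), rvd0_re_self]
  have hpyth : ∀ ξ, ‖ξ‖ ^ 2 - ‖P ξ‖ ^ 2 = ‖ξ - P ξ‖ ^ 2 := by
    intro ξ
    rw [norm_sub_sq (𝕜 := ℂ), RCLike.re_to_complex, hself]
    ring
  have hRsym : ∀ ξ η, (⟪rvd0R P ξ, η⟫_ℂ).re = (⟪ξ, rvd0R P η⟫_ℂ).re := by
    intro ξ η
    rw [rvd0R_apply, rvd0R_apply, inner_sub_left, inner_sub_right, Complex.sub_re, Complex.sub_re,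
      hsym, hsymI]
  have hDsym : ∀ ξ η, (⟪rvd0D P ξ, η⟫_ℂ).re = (⟪rvd0D P η, ξ⟫_ℂ).re := by
    intro ξ η
    rw [rvd0_re_comm (rvd0D P η), rvd0D_apply, rvd0D_apply, inner_add_left, inner_add_right,
      Complex.add_re, Complex.add_re, hsym, hsymI]
  have hRim : ∀ ξ, (⟪ξ, rvd0R P ξ⟫_ℂ).im = 0 := by
    intro ξ
    have := hRsym (Complex.I • ξ) ξ
    rw [map_smul, rvd0_re_I_left, rvd0_re_I_left, rvd0_im_comm] at this
    linarith
  have hRre : ∀ ξ, (⟪ξ, rvd0R P ξ⟫_ℂ).re = ‖P ξ‖ ^ 2 + ‖P (Complex.I • ξ)‖ ^ 2 := by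
    intro ξ
    have := hself (Complex.I • ξ)
    rw [rvd0_re_I_left] at this
    rw [rvd0R_apply, inner_sub_right, Complex.sub_re, hself, rvd0_re_I_right, this]
    ring
  have hR2im : ∀ ξ, (⟪ξ, (2 - rvd0R P) ξ⟫_ℂ).im = 0 := by
    intro ξ
    rw [rvd0_two_sub, inner_sub_right, inner_add_right, Complex.sub_im, Complex.add_im, hRim]
    have := rvd0_im_comm ξ ξ
    linarith
  have hR2re : ∀ ξ, (⟪ξ, (2 - rvd0R P) ξ⟫_ℂ).re =
      ‖ξ - P ξ‖ ^ 2 + ‖Complex.I • ξ - P (Complex.I • ξ)‖ ^ 2 := by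
    intro ξ
    rw [rvd0_two_sub, inner_sub_right, inner_add_right, Complex.sub_re, Complex.add_re, hRre,
      ← hpyth, ← hpyth, rvd0_re_self, norm_smul, Complex.norm_I, one_mul]
    ring
  have hmem : ∀ a ∈ M, IsSelfAdjoint a → a ζ ∈ closure (rvd0K M ζ : Set H) := fun a ha ha' =>
    subset_closure ⟨a, ha, ha', rfl⟩
  have halg : ∀ a ∈ M, IsSelfAdjoint a → rvd0D P (a ζ) = (2 - rvd0R P) (a ζ) := by
    intro a ha ha'
    rw [rvd0_two_sub, rvd0R_apply, rvd0D_apply, hfix _ (hmem a ha ha')]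
    abel
  have hcom : ∀ a ∈ M.commutant, IsSelfAdjoint a → rvd0D P (a ζ) = rvd0R P (a ζ) := by
    intro a ha ha'
    have h0 : P (Complex.I • a ζ) = 0 := by
      have h1 := hO' (Complex.I • a ζ) _ (hP (Complex.I • a ζ))
      rw [rvd0_re_I_right, rvd0_real ha ha' _ (hP _), rvd0_re_self, neg_zero] at h1
      exact norm_eq_zero.1 (sq_eq_zero_iff.1 h1.symm)
    rw [rvd0R_apply, rvd0D_apply, h0]
    simp
  refine ⟨rvd0R P, rvd0D P, ?_, ?_, ?_, ?_, ?_, ?_, ?_, ?_, ?_, ?_⟩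
  · refine nonneg_iff_inner.2 fun ξ => Complex.nonneg_iff.2 ⟨?_, (hRim ξ).symm⟩
    rw [hRre]; positivity
  · rw [← sub_nonneg]
    refine nonneg_iff_inner.2 fun ξ => Complex.nonneg_iff.2 ⟨?_, (hR2im ξ).symm⟩
    rw [hR2re]; positivity
  · intro ξ h0
    have h1 := hRre ξ
    rw [h0, inner_zero_right, Complex.zero_re] at h1
    have h2 : P ξ = 0 :=
      norm_eq_zero.1 (by nlinarith [norm_nonneg (P ξ), norm_nonneg (P (Complex.I • ξ))])
    have h3 : P (Complex.I • ξ) = 0 :=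
      norm_eq_zero.1 (by nlinarith [norm_nonneg (P ξ), norm_nonneg (P (Complex.I • ξ))])
    refine rvd0_eq_zero hc fun a ha ha' => Complex.ext ?_ ?_
    · rw [hO' ξ _ (hmem a ha ha'), h2, inner_zero_right]
    · have := hO' (Complex.I • ξ) _ (hmem a ha ha')
      rw [h3, inner_zero_right, rvd0_re_I_right, Complex.zero_re, neg_eq_zero] at this
      rw [this, Complex.zero_im]
  · intro ξ h0
    have h1 := hR2re ξ
    rw [h0, inner_zero_right, Complex.zero_re] at h1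
    have h2 : ξ - P ξ = 0 := norm_eq_zero.1 (by
      nlinarith [norm_nonneg (ξ - P ξ), norm_nonneg (Complex.I • ξ - P (Complex.I • ξ))])
    have h3 : Complex.I • ξ - P (Complex.I • ξ) = 0 := norm_eq_zero.1 (by
      nlinarith [norm_nonneg (ξ - P ξ), norm_nonneg (Complex.I • ξ - P (Complex.I • ξ))])
    rw [sub_eq_zero] at h2 h3
    refine rvd0_eq_zero (cyc_of_sepg hs) fun a ha ha' => ?_
    have h4 := rvd0_real ha ha' _ (hP ξ)
    have h5 := rvd0_real ha ha' _ (hP (Complex.I • ξ))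
    rw [← h2] at h4
    rw [← h3, rvd0_im_I_left, neg_eq_zero] at h5
    refine Complex.ext ?_ ?_
    · rw [rvd0_re_comm, h5, Complex.zero_re]
    · rw [rvd0_im_comm, h4, Complex.zero_im, neg_zero]
  · intro ξ η
    refine Complex.ext (hDsym ξ η) ?_
    have := hDsym (Complex.I • ξ) η
    rw [map_smulₛₗ, Complex.conj_I, neg_smul, inner_neg_left, Complex.neg_re, rvd0_re_I_left,
      rvd0_re_I_right] at this
    linarith
  · intro ξ
    simp only [rvd0_two_sub, rvd0R_apply, rvd0D_apply, map_add, map_sub, smul_add, smul_sub,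
      rvd0_II, map_neg, smul_neg, hPP]
    abel
  · intro ξ
    simp only [rvd0_two_sub, rvd0R_apply, rvd0D_apply, map_add, map_sub, smul_add, smul_sub,
      rvd0_II, map_neg, smul_neg, hPP]
    abel
  · intro x hx
    obtain ⟨a, ha, b, hb, ha', hb', -, -, e, -⟩ := exists_re_im hx
    rw [rvd0_star ha' hb' e, e, add_apply, sub_apply a, smul_apply, map_add, map_sub, map_smulₛₗ,
      map_smul, halg a ha ha', halg b hb hb', Complex.conj_I, neg_smul, ← sub_eq_add_neg]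
  · intro x hx
    obtain ⟨a, ha, b, hb, ha', hb', -, -, e, -⟩ := exists_re_im hx
    rw [rvd0_star ha' hb' e, e, add_apply, sub_apply, smul_apply, map_add, map_sub, map_smulₛₗ,
      map_smul, hcom a ha ha', hcom b hb hb', Complex.conj_I, neg_smul, sub_eq_add_neg]
  · intro η
    have h1 : (P η, P (Complex.I • η)) ∈
        closure ((rvd0K M ζ : Set H) ×ˢ (rvd0K M ζ : Set H)) := by
      rw [closure_prod_eq]
      exact ⟨hP _, hP _⟩
    refine map_mem_closure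
      (f := fun p : H × H => (p.1 - Complex.I • p.2, p.1 + Complex.I • p.2)) (by fun_prop) h1 ?_
    rintro ⟨_, _⟩ ⟨⟨a, ha, ha', rfl⟩, ⟨b, hb, hb', rfl⟩⟩
    refine ⟨a + Complex.I • (-b), add_mem ha (vn_smul_mem _ (neg_mem hb)), ?_⟩
    rw [rvd0_star ha' hb'.neg rfl]
    simp [sub_eq_add_neg]

theorem rvd0_orth {R : H →L[ℂ] H} {D : H →L⋆[ℂ] H} (h : RvD M ζ R D) (η : H) :
    ∀ x ∈ M, (⟪x ζ, (2 : ℂ) • η - R η⟫_ℂ).re = (⟪(star x) ζ, D η⟫_ℂ).re := by
  intro x hx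
  have h1 : IsSelfAdjoint (2 - R) := IsSelfAdjoint.of_nonneg (sub_nonneg.2 h.le_two)
  have h2 := h.alg _ (star_mem hx)
  rw [star_star] at h2
  rw [two_smul, ← rvd0_two_sub, ← inner_star_left, h1.star_eq, ← h2, h.symm, rvd0_re_comm]

/-- `(R η, D η)` is the real orthogonal projection of `(2 η, 0)` onto the closed graph -/
theorem RvD.char {R : H →L[ℂ] H} {D : H →L⋆[ℂ] H} (h : RvD M ζ R D) {η α β : H}
    (hG : (α, β) ∈ closure {p : H × H | ∃ x ∈ M, p = (x ζ, (star x) ζ)})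
    (ho : ∀ x ∈ M, (⟪x ζ, (2 : ℂ) • η - α⟫_ℂ).re = (⟪(star x) ζ, β⟫_ℂ).re) :
    α = R η ∧ β = D η := by
  have key : ∀ p ∈ closure {p : H × H | ∃ x ∈ M, p = (x ζ, (star x) ζ)},
      (⟪p.1, α - R η⟫_ℂ).re + (⟪p.2, β - D η⟫_ℂ).re = 0 := by
    intro p hp
    refine closure_minimal
      (t := {p : H × H | (⟪p.1, α - R η⟫_ℂ).re + (⟪p.2, β - D η⟫_ℂ).re = 0}) ?_
      (isClosed_eq ((Complex.continuous_re.comp (continuous_fst.inner continuous_const)).add
        (Complex.continuous_re.comp (continuous_snd.inner continuous_const)))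
        continuous_const) hp
    rintro _ ⟨x, hx, rfl⟩
    have h1 := ho x hx
    have h2 := rvd0_orth h η x hx
    simp only [Set.mem_ofPred_eq, inner_sub_right, Complex.sub_re] at h1 h2 ⊢
    linarith
  have k1 := key _ hG
  have k2 := key _ (h.graph η)
  have k3 : ‖α - R η‖ ^ 2 + ‖β - D η‖ ^ 2 = 0 := by
    rw [← rvd0_re_self, ← rvd0_re_self, inner_sub_left, inner_sub_left, Complex.sub_re,
      Complex.sub_re]
    simp only at k1 k2
    linarith
  constructor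
  · exact sub_eq_zero.1 (norm_eq_zero.1
      (by nlinarith [norm_nonneg (α - R η), norm_nonneg (β - D η)]))
  · exact sub_eq_zero.1 (norm_eq_zero.1
      (by nlinarith [norm_nonneg (α - R η), norm_nonneg (β - D η)]))

theorem RvD.orth {R : H →L[ℂ] H} {D : H →L⋆[ℂ] H} (h : RvD M ζ R D) (η : H) :
    ∀ x ∈ M, (⟪x ζ, (2 : ℂ) • η - R η⟫_ℂ).re = (⟪(star x) ζ, D η⟫_ℂ).re := rvd0_orth h η

end Pool.Agent.P.MP_5d580a_an
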