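import Pool.Agent.P.MP_5d580a_an.RvD0

open scoped ComplexOrder InnerProductSpace ComplexConjugate BoundedContinuousFunction
open MeasureTheory Filter Topology

set_option linter.unusedSectionVars false
set_option linter.unusedVariables false

noncomputable section

namespace Pool.Agent.P.MP_5d580a_an

variable {H : Type} [NormedAddCommGroup H] [InnerProductSpace ℂ H] [CompleteSpace H]

variable {M : VonNeumannAlgebra H} {ζ : H}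


theorem rvd1_abs {E : Type} [NormedAddCommGroup E] [InnerProductSpace ℂ E] [CompleteSpace E]
    (V : Submodule ℝ E) (K : Set E) (hne : K.Nonempty) (hcl : IsClosed K) (hcv : Convex ℝ K)
    (hKV : K ⊆ V) (B : ℝ) (hB : ∀ k ∈ K, ‖k‖ ≤ B) (γ₀ : E)
    (h : ∀ v ∈ V, ∀ ε : ℝ, 0 < ε → ∃ k ∈ K, (⟪v, γ₀⟫_ℂ).re ≤ (⟪v, k⟫_ℂ).re + ε) :
    ∃ k ∈ K, ∀ v ∈ V, (⟪v, γ₀⟫_ℂ).re = (⟪v, k⟫_ℂ).re := by
  obtain ⟨P, hP, hO⟩ := rvd0_proj V
  have hγ : ∀ v ∈ V, (⟪v, γ₀⟫_ℂ).re = (⟪v, P γ₀⟫_ℂ).re := by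
    intro v hv
    have := hO γ₀ v (subset_closure hv)
    rw [inner_sub_right, Complex.sub_re] at this
    linarith
  have hcl' : IsClosed ((fun k => k - P γ₀) '' K) :=
    (Homeomorph.subRight (P γ₀)).isClosedMap K hcl
  have hcv' : Convex ℝ ((fun k => k - P γ₀) '' K) := by
    have := hcv.translate (-P γ₀)
    simpa only [sub_eq_neg_add] using this
  obtain ⟨_, ⟨k, hk, rfl⟩, hmin⟩ := exists_min_norm _ (hne.image _) hcl' hcv'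
  have hvar : ∀ k' ∈ K, ‖k - P γ₀‖ ^ 2 ≤ (⟪k - P γ₀, k' - P γ₀⟫_ℂ).re := by
    intro k' hk'
    have h1 := hmin _ ⟨k', hk', rfl⟩
    rw [norm_sub_sq (𝕜 := ℂ), RCLike.re_to_complex, rvd0_re_comm] at h1
    linarith
  have hg : P γ₀ - k ∈ closure (V : Set E) :=
    V.topologicalClosure.sub_mem (hP γ₀) (subset_closure (hKV hk))
  have hz : ‖k - P γ₀‖ ^ 2 ≤ 0 := by
    refine le_of_forall_pos_le_add fun ε hε => ?_
    have hB0 : 0 < ‖P γ₀‖ + |B| + 1 := by positivity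
    obtain ⟨v, hv, hd⟩ := Metric.mem_closure_iff.1 hg (ε / (2 * (‖P γ₀‖ + |B| + 1)))
      (by positivity)
    rw [dist_eq_norm] at hd
    obtain ⟨k', hk', h1⟩ := h v hv (ε / 2) (by positivity)
    have h2 := hvar k' hk'
    have h3 : ⟪k - P γ₀, k' - P γ₀⟫_ℂ =
        ⟪P γ₀ - k - v, P γ₀ - k'⟫_ℂ + (⟪v, P γ₀⟫_ℂ - ⟪v, k'⟫_ℂ) := by
      rw [← inner_sub_right, ← inner_add_left, sub_add_cancel, ← neg_sub (P γ₀) k,
        ← neg_sub (P γ₀) k', inner_neg_neg]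
    have h4 : (⟪P γ₀ - k - v, P γ₀ - k'⟫_ℂ).re ≤ ε / 2 := by
      calc _ ≤ ‖⟪P γ₀ - k - v, P γ₀ - k'⟫_ℂ‖ := Complex.re_le_norm _
        _ ≤ ‖P γ₀ - k - v‖ * ‖P γ₀ - k'‖ := norm_inner_le_norm _ _
        _ ≤ (ε / (2 * (‖P γ₀‖ + |B| + 1))) * (‖P γ₀‖ + |B| + 1) := by
          gcongr
          have := norm_sub_le (P γ₀) k'
          linarith [hB k' hk', le_abs_self B]
        _ = ε / 2 := by field_simp
    rw [h3, Complex.add_re, Complex.sub_re, ← hγ v hv] at h2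
    linarith
  have hk0 : k = P γ₀ := sub_eq_zero.1 (norm_eq_zero.1 (by nlinarith [norm_nonneg (k - P γ₀)]))
  exact ⟨k, hk, fun v hv => by rw [hγ v hv, hk0]⟩

theorem rvd1_root {h : H →L[ℂ] H} (hh : h ∈ M) {δ : ℝ} (hδ : 0 < δ) :
    ∃ a ∈ M, ∃ c ∈ M, IsSelfAdjoint a ∧ IsSelfAdjoint c ∧ a * c = 1 ∧ c * a = 1 ∧
      a * a * (a * a) = star h * h + ((δ ^ 2 : ℝ) : ℂ) • 1 := by
  have hd : ((δ ^ 2 : ℝ) : ℂ) ≠ 0 := by exact_mod_cast (pow_pos hδ 2).ne'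
  have hx0 : 0 ≤ (((δ ^ 2)⁻¹ : ℝ) : ℂ) • (star h * h) := by
    refine nonneg_iff_inner.2 fun ξ => ?_
    rw [smul_apply, inner_smul_right]
    exact mul_nonneg (by exact_mod_cast (inv_pos.2 (pow_pos hδ 2)).le)
      (nonneg_iff_inner.1 (star_mul_self_nonneg h) ξ)
  obtain ⟨g, -, -, hg1, hg2, hgc⟩ := exists_inv_one_add hx0
  set b : H →L[ℂ] H := star h * h + ((δ ^ 2 : ℝ) : ℂ) • 1 with hb
  have hbe : b = ((δ ^ 2 : ℝ) : ℂ) • (1 + (((δ ^ 2)⁻¹ : ℝ) : ℂ) • (star h * h)) := by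
    rw [smul_add, smul_smul, Complex.ofReal_inv, mul_inv_cancel₀ hd, one_smul, add_comm]
  have hb0 : 0 ≤ b := by
    refine add_nonneg (star_mul_self_nonneg h) (nonneg_iff_inner.2 fun ξ => ?_)
    rw [smul_apply, inner_smul_right]
    exact mul_nonneg (by exact_mod_cast (pow_pos hδ 2).le)
      (nonneg_iff_inner.1 zero_le_one ξ)
  have hbM : b ∈ M := add_mem (mul_mem (star_mem hh) hh) (vn_smul_mem _ (one_mem M))
  obtain ⟨s, hs0, hss, -, hsc⟩ := exists_sqrt hb0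
  obtain ⟨a, ha0, haa, -, hac⟩ := exists_sqrt hs0
  have haM : a ∈ M := mem_of_commute fun y hy =>
    hac y (hsc y (commute_of_mem hbM hy).symm)
  have hgM : g ∈ M := mem_of_commute fun y hy =>
    hgc y (commute_of_mem (vn_smul_mem _ (mul_mem (star_mem hh) hh)) hy).symm
  have h4 : a * a * (a * a) = b := by rw [haa, hss]
  set bi : H →L[ℂ] H := (((δ ^ 2 : ℝ) : ℂ)⁻¹) • g with hbi
  have hb1 : b * bi = 1 := by
    rw [hbe, hbi, smul_mul_smul_comm, mul_inv_cancel₀ hd, hg2, one_smul]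
  have hb2 : bi * b = 1 := by
    rw [hbe, hbi, smul_mul_smul_comm, inv_mul_cancel₀ hd, hg1, one_smul]
  have e1 : a * (a * a * a * bi) = 1 := by
    rw [← hb1, ← h4]; simp only [mul_assoc]
  have e2 : bi * (a * a * a) * a = 1 := by
    rw [← hb2, ← h4]; simp only [mul_assoc]
  have e3 : a * a * a * bi = bi * (a * a * a) := by
    calc a * a * a * bi = (bi * (a * a * a) * a) * (a * a * a * bi) := by rw [e2, one_mul]
      _ = bi * (a * a * a) * (a * (a * a * a * bi)) := by rw [mul_assoc]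
      _ = _ := by rw [e1, mul_one]
  have hsa : IsSelfAdjoint a := IsSelfAdjoint.of_nonneg ha0
  refine ⟨a, haM, a * a * a * bi,
    mul_mem (mul_mem (mul_mem haM haM) haM) (vn_smul_mem _ hgM), hsa, ?_, e1, by rw [e3, e2], h4⟩
  have e4 : star (a * a * a * bi) * a = 1 := by
    have := congrArg star e1
    rwa [star_mul, hsa.star_eq, star_one] at this
  calc star (a * a * a * bi) = star (a * a * a * bi) * (a * (a * a * a * bi)) := by rw [e1, mul_one]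
    _ = _ := by rw [← mul_assoc, e4, one_mul]

theorem rvd1_key {x' : H →L[ℂ] H} (hx : x' ∈ M.commutant) (ζ : H) {α β : ℝ} (hα : 0 < α)
    (hβ : 0 < β) {h : H →L[ℂ] H} (hh : h ∈ M) {δ : ℝ} (hδ : 0 < δ) :
    ∃ X ∈ M, ‖X‖ ≤ ‖x'‖ / (2 * √(α * β)) ∧ (⟪h ζ, x' ζ⟫_ℂ).re ≤
      α * (⟪h ζ, X ζ⟫_ℂ).re + β * (⟪(star h) ζ, (star X) ζ⟫_ℂ).re +
        ‖x'‖ / (2 * √(α * β)) * α * δ * ‖ζ‖ ^ 2 := by
  obtain ⟨a, haM, c, hcM, ha, hc, hac, hca, h4⟩ := rvd1_root hh hδ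
  set C : ℝ := ‖x'‖ / (2 * √(α * β)) with hC
  have hC0 : 0 ≤ C := by positivity
  have hac' : ∀ ξ, a (c ξ) = ξ := fun ξ => congrArg (fun T : H →L[ℂ] H => T ξ) hac
  have hca' : ∀ ξ, c (a ξ) = ξ := fun ξ => congrArg (fun T : H →L[ℂ] H => T ξ) hca
  have hsa : ∀ ξ η, ⟪a ξ, η⟫_ℂ = ⟪ξ, a η⟫_ℂ := fun ξ η => by
    rw [← inner_star_left a, ha.star_eq]
  have hsc : ∀ ξ η, ⟪c ξ, η⟫_ℂ = ⟪ξ, c η⟫_ℂ := fun ξ η => by
    rw [← inner_star_left c, hc.star_eq]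
  have h4' : ∀ ξ, (star h) (h ξ) = a (a (a (a ξ))) - ((δ ^ 2 : ℝ) : ℂ) • ξ := fun ξ => by
    have : a (a (a (a ξ))) = (star h) (h ξ) + ((δ ^ 2 : ℝ) : ℂ) • ξ :=
      congrArg (fun T : H →L[ℂ] H => T ξ) h4
    rw [this, add_sub_cancel_right]
  have hn : ∀ ξ, ‖h (c (c ξ))‖ ^ 2 = ‖ξ‖ ^ 2 - δ ^ 2 * ‖c (c ξ)‖ ^ 2 := fun ξ => by
    rw [← rvd0_re_self, ← inner_star_right, h4', hac', hac', inner_sub_right, inner_smul_right,
      Complex.sub_re, Complex.re_ofReal_mul, rvd0_re_self, hsc, hsc, hca', hca', rvd0_re_self]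
  refine ⟨(C : ℂ) • (h * c * c), vn_smul_mem _ (mul_mem (mul_mem hh hcM) hcM), ?_, ?_⟩
  · rw [norm_smul, Complex.norm_real, Real.norm_of_nonneg hC0]
    refine mul_le_of_le_one_right hC0 (ContinuousLinearMap.opNorm_le_bound _ zero_le_one fun ξ => ?_)
    rw [one_mul]
    refine (sq_le_sq₀ (norm_nonneg _) (norm_nonneg _)).1 ?_
    change ‖h (c (c ξ))‖ ^ 2 ≤ _
    rw [hn]
    nlinarith [sq_nonneg (δ * ‖c (c ξ)‖)]
  · have e1 : ⟪h ζ, x' ζ⟫_ℂ = ⟪a ζ, x' (c ((star h) ζ))⟫_ℂ := by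
      rw [hsa, commute_apply haM hx, hac', ← commute_apply (star_mem hh) hx, inner_star_right]
    have e2 : (⟪h ζ, ((C : ℂ) • (h * c * c)) ζ⟫_ℂ).re = C * (‖a ζ‖ ^ 2 - δ ^ 2 * ‖c ζ‖ ^ 2) := by
      rw [smul_apply, inner_smul_right, Complex.re_ofReal_mul]
      change C * (⟪h ζ, h (c (c ζ))⟫_ℂ).re = _
      rw [← inner_star_right, h4', hac', hac', inner_sub_right, inner_smul_right,
        Complex.sub_re, Complex.re_ofReal_mul, ← hsa, ← hsc, rvd0_re_self, rvd0_re_self]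
    have e3 : (⟪(star h) ζ, (star ((C : ℂ) • (h * c * c))) ζ⟫_ℂ).re = C * ‖c ((star h) ζ)‖ ^ 2 := by
      rw [star_smul, star_mul, star_mul, hc.star_eq, smul_apply, inner_smul_right,
        RCLike.star_def, Complex.conj_ofReal, Complex.re_ofReal_mul]
      change C * (⟪(star h) ζ, c (c ((star h) ζ))⟫_ℂ).re = _
      rw [← hsc, rvd0_re_self]
    have e4 : δ * ‖c (c ζ)‖ ≤ ‖ζ‖ := by
      refine (sq_le_sq₀ (by positivity) (norm_nonneg _)).1 ?_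
      have := hn ζ
      nlinarith [sq_nonneg ‖h (c (c ζ))‖]
    have e5 : δ ^ 2 * ‖c ζ‖ ^ 2 ≤ δ * ‖ζ‖ ^ 2 := by
      have h1 : ‖c ζ‖ ^ 2 ≤ ‖ζ‖ * ‖c (c ζ)‖ := by
        rw [← rvd0_re_self, hsc]
        exact (Complex.re_le_norm _).trans (norm_inner_le_norm _ _)
      calc δ ^ 2 * ‖c ζ‖ ^ 2 ≤ δ ^ 2 * (‖ζ‖ * ‖c (c ζ)‖) := by gcongr
        _ = δ * ‖ζ‖ * (δ * ‖c (c ζ)‖) := by ring
        _ ≤ δ * ‖ζ‖ * ‖ζ‖ := by gcongr
        _ = _ := by ring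
    have e6 : (⟪h ζ, x' ζ⟫_ℂ).re ≤ ‖x'‖ * (‖a ζ‖ * ‖c ((star h) ζ)‖) := by
      rw [e1]
      calc _ ≤ ‖⟪a ζ, x' (c ((star h) ζ))⟫_ℂ‖ := Complex.re_le_norm _
        _ ≤ ‖a ζ‖ * ‖x' (c ((star h) ζ))‖ := norm_inner_le_norm _ _
        _ ≤ ‖a ζ‖ * (‖x'‖ * ‖c ((star h) ζ)‖) := by gcongr; exact x'.le_opNorm _
        _ = _ := by ring
    have hs : 0 < √(α * β) := Real.sqrt_pos.2 (mul_pos hα hβ)
    have e7 : ‖x'‖ = C * (2 * √(α * β)) := by rw [hC]; field_simp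
    have e8 : 2 * √(α * β) * (‖a ζ‖ * ‖c ((star h) ζ)‖) ≤
        α * ‖a ζ‖ ^ 2 + β * ‖c ((star h) ζ)‖ ^ 2 := by
      rw [Real.sqrt_mul hα.le]
      have h1 := Real.sq_sqrt hα.le
      have h2 := Real.sq_sqrt hβ.le
      have h3 := sq_nonneg (√α * ‖a ζ‖ - √β * ‖c ((star h) ζ)‖)
      have h5 : (√α * ‖a ζ‖ - √β * ‖c ((star h) ζ)‖) ^ 2 = √α ^ 2 * ‖a ζ‖ ^ 2 +
          √β ^ 2 * ‖c ((star h) ζ)‖ ^ 2 - 2 * (√α * √β) * (‖a ζ‖ * ‖c ((star h) ζ)‖) := by ring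
      rw [h5, h1, h2] at h3
      linarith
    have e9 : ‖x'‖ * (‖a ζ‖ * ‖c ((star h) ζ)‖) ≤
        C * (α * ‖a ζ‖ ^ 2 + β * ‖c ((star h) ζ)‖ ^ 2) := by
      calc _ = C * (2 * √(α * β) * (‖a ζ‖ * ‖c ((star h) ζ)‖)) := by
            conv_lhs => rw [e7]
            ring
        _ ≤ _ := by gcongr
    have e10 : C * α * (δ ^ 2 * ‖c ζ‖ ^ 2) ≤ C * α * (δ * ‖ζ‖ ^ 2) := by gcongr
    rw [e2, e3]
    nlinarith

/-- weighted graph map -/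
def rvd1i (ζ : H) (α β : ℝ) (w : H →L[ℂ] H) : WithLp 2 (H × H) :=
  WithLp.toLp 2 (((√α : ℝ) : ℂ) • w ζ, ((√β : ℝ) : ℂ) • (star w) ζ)

theorem rvd1i_inner (ζ : H) {α β : ℝ} (hα : 0 < α) (hβ : 0 < β) (w X : H →L[ℂ] H) :
    (⟪rvd1i ζ α β w, rvd1i ζ α β X⟫_ℂ).re =
      α * (⟪w ζ, X ζ⟫_ℂ).re + β * (⟪(star w) ζ, (star X) ζ⟫_ℂ).re := by
  rw [WithLp.prod_inner_apply]
  simp only [rvd1i, inner_smul_left, inner_smul_right, Complex.conj_ofReal, ← mul_assoc,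
    ← Complex.ofReal_mul, Real.mul_self_sqrt hα.le, Real.mul_self_sqrt hβ.le, Complex.add_re,
    Complex.re_ofReal_mul]

theorem rvd1i_add (ζ : H) (α β : ℝ) (w X : H →L[ℂ] H) :
    rvd1i ζ α β (w + X) = rvd1i ζ α β w + rvd1i ζ α β X := by
  simp only [rvd1i, star_add, add_apply, smul_add]
  rfl

theorem rvd1i_smul (ζ : H) (α β t : ℝ) (w : H →L[ℂ] H) :
    rvd1i ζ α β ((t : ℂ) • w) = t • rvd1i ζ α β w := by
  simp only [rvd1i, star_smul, smul_apply, RCLike.star_def, Complex.conj_ofReal]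
  rw [smul_comm _ (t : ℂ), smul_comm _ (t : ℂ), Complex.coe_smul, Complex.coe_smul]
  rfl

theorem rvd1_re {x' : H →L[ℂ] H} (hx : x' ∈ M.commutant) (ζ : H) {α β : ℝ} (hα : 0 < α)
    (hβ : 0 < β) :
    ∃ X ∈ M, ∀ w ∈ M, (⟪w ζ, x' ζ⟫_ℂ).re =
      α * (⟪w ζ, X ζ⟫_ℂ).re + β * (⟪(star w) ζ, (star X) ζ⟫_ℂ).re := by
  set C : ℝ := ‖x'‖ / (2 * √(α * β)) with hC
  have hC0 : 0 ≤ C := by positivity
  have hsa : ((√α : ℝ) : ℂ) ≠ 0 := by exact_mod_cast (Real.sqrt_pos.2 hα).ne'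
  have hsb : ((√β : ℝ) : ℂ) ≠ 0 := by exact_mod_cast (Real.sqrt_pos.2 hβ).ne'
  let V : Submodule ℝ (WithLp 2 (H × H)) :=
    { carrier := {p | ∃ w ∈ M, p = rvd1i ζ α β w}
      add_mem' := by
        rintro _ _ ⟨a, ha, rfl⟩ ⟨b, hb, rfl⟩
        exact ⟨a + b, add_mem ha hb, (rvd1i_add ζ α β a b).symm⟩
      zero_mem' := ⟨0, zero_mem M, by simp [rvd1i]; rfl⟩
      smul_mem' := by
        rintro t _ ⟨a, ha, rfl⟩
        exact ⟨(t : ℂ) • a, vn_smul_mem _ ha, (rvd1i_smul ζ α β t a).symm⟩ }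
  let K : Set (WithLp 2 (H × H)) := {p | ∃ X ∈ M, ‖X‖ ≤ C ∧ p = rvd1i ζ α β X}
  let γ₀ : WithLp 2 (H × H) := WithLp.toLp 2 ((((√α : ℝ) : ℂ))⁻¹ • x' ζ, 0)
  have hγ : ∀ w : H →L[ℂ] H, (⟪rvd1i ζ α β w, γ₀⟫_ℂ).re = (⟪w ζ, x' ζ⟫_ℂ).re := by
    intro w
    rw [WithLp.prod_inner_apply]
    simp only [rvd1i, γ₀, inner_smul_left, inner_smul_right, Complex.conj_ofReal, ← mul_assoc,
      inv_mul_cancel₀ hsa, one_mul, inner_zero_right, add_zero]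
  have hcl : IsClosed K := by
    refine isClosed_of_closure_subset fun p hp => ?_
    obtain ⟨u, hu, hlim⟩ := mem_closure_iff_seq_limit.1 hp
    choose X hXM hXC hX using hu
    obtain ⟨S, hS, hw⟩ := exists_wot_ultra (Ultrafilter.of (atTop : Filter ℕ)) X C hXC
    have hU : (↑(Ultrafilter.of (atTop : Filter ℕ)) : Filter ℕ) ≤ atTop := Ultrafilter.of_le _
    have l1 : Tendsto (fun n => X n ζ) atTop (𝓝 ((((√α : ℝ) : ℂ))⁻¹ • p.fst)) := by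
      have := (((WithLp.continuous_fst 2 H H).tendsto p).comp hlim).const_smul ((√α : ℝ) : ℂ)⁻¹
      refine this.congr fun n => ?_
      simp only [Function.comp, hX n, rvd1i, WithLp.toLp_fst, smul_smul, inv_mul_cancel₀ hsa,
        one_smul]
    have l2 : Tendsto (fun n => (star (X n)) ζ) atTop (𝓝 ((((√β : ℝ) : ℂ))⁻¹ • p.snd)) := by
      have := (((WithLp.continuous_snd 2 H H).tendsto p).comp hlim).const_smul ((√β : ℝ) : ℂ)⁻¹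
      refine this.congr fun n => ?_
      simp only [Function.comp, hX n, rvd1i, WithLp.toLp_snd, smul_smul, inv_mul_cancel₀ hsb,
        one_smul]
    have m1 := apply_eq_of_wot hw (l1.mono_left hU)
    have m2 := apply_eq_of_wot (star_of_wot hw) (l2.mono_left hU)
    refine ⟨S, mem_of_wot hw (Eventually.of_forall hXM), hS, ?_⟩
    rw [rvd1i, m1, m2, smul_smul, smul_smul, mul_inv_cancel₀ hsa, mul_inv_cancel₀ hsb, one_smul,
      one_smul]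
    rfl
  have hcv : Convex ℝ K := by
    rintro _ ⟨X, hX, hXC, rfl⟩ _ ⟨Y, hY, hYC, rfl⟩ s t hs ht hst
    refine ⟨(s : ℂ) • X + (t : ℂ) • Y, add_mem (vn_smul_mem _ hX) (vn_smul_mem _ hY), ?_, ?_⟩
    · calc _ ≤ ‖(s : ℂ) • X‖ + ‖(t : ℂ) • Y‖ := norm_add_le _ _
        _ = s * ‖X‖ + t * ‖Y‖ := by
          rw [norm_smul, norm_smul, Complex.norm_real, Complex.norm_real, Real.norm_of_nonneg hs,
            Real.norm_of_nonneg ht]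
        _ ≤ s * C + t * C := by gcongr
        _ = C := by rw [← add_mul, hst, one_mul]
    · rw [rvd1i_add, rvd1i_smul, rvd1i_smul]
  have hB : ∀ k ∈ K, ‖k‖ ≤ √((α + β) * (C * ‖ζ‖) ^ 2) := by
    rintro _ ⟨X, hX, hXC, rfl⟩
    refine Real.le_sqrt_of_sq_le ?_
    rw [← rvd0_re_self, rvd1i_inner ζ hα hβ, rvd0_re_self, rvd0_re_self, add_mul]
    have h1 : ‖X ζ‖ ≤ C * ‖ζ‖ := (X.le_opNorm ζ).trans (by gcongr)
    have h2 : ‖(star X) ζ‖ ≤ C * ‖ζ‖ :=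
      ((star X).le_opNorm ζ).trans (by rw [norm_star]; gcongr)
    gcongr
  obtain ⟨_, ⟨X, hX, -, rfl⟩, hk⟩ := rvd1_abs V K
    ⟨_, 0, zero_mem M, by simpa using hC0, rfl⟩ hcl hcv
    (by rintro _ ⟨X, hX, -, rfl⟩; exact ⟨X, hX, rfl⟩) _ hB γ₀ (by
      rintro _ ⟨h, hh, rfl⟩ ε hε
      have hp : 0 < C * α * ‖ζ‖ ^ 2 + 1 := by positivity
      obtain ⟨X, hX, hXC, hle⟩ := rvd1_key hx ζ hα hβ hh (δ := ε / (C * α * ‖ζ‖ ^ 2 + 1))
        (by positivity)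
      refine ⟨_, ⟨X, hX, hXC, rfl⟩, ?_⟩
      rw [hγ, rvd1i_inner ζ hα hβ]
      refine hle.trans (add_le_add_right ?_ _)
      rw [← hC]
      calc C * α * (ε / (C * α * ‖ζ‖ ^ 2 + 1)) * ‖ζ‖ ^ 2
          = (C * α * ‖ζ‖ ^ 2) * (ε / (C * α * ‖ζ‖ ^ 2 + 1)) := by ring
        _ ≤ (C * α * ‖ζ‖ ^ 2 + 1) * (ε / (C * α * ‖ζ‖ ^ 2 + 1)) := by gcongr; linarith
        _ = ε := by field_simp)
  refine ⟨X, hX, fun w hw => ?_⟩
  rw [← hγ, hk _ ⟨w, hw, rfl⟩, rvd1i_inner ζ hα hβ]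

/-- linear Radon-Nikodym lemma -/
theorem rn_lemma {x' : H →L[ℂ] H} (hx : x' ∈ M.commutant) (ζ : H) {α β : ℝ} (hα : 0 < α)
    (hβ : 0 < β) :
    ∃ X ∈ M, ∀ w ∈ M,
      ⟪w ζ, x' ζ⟫_ℂ = (α : ℂ) * ⟪w ζ, X ζ⟫_ℂ + (β : ℂ) * ⟪(star X) ζ, (star w) ζ⟫_ℂ := by
  obtain ⟨X, hX, h⟩ := rvd1_re hx ζ hα hβ
  refine ⟨X, hX, fun w hw => Complex.ext ?_ ?_⟩
  · rw [h w hw, Complex.add_re, Complex.re_ofReal_mul, Complex.re_ofReal_mul,
      rvd0_re_comm ((star w) ζ)]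
  · have h1 := h _ (vn_smul_mem Complex.I hw)
    rw [star_smul, smul_apply, smul_apply, rvd0_re_I_left, rvd0_re_I_left, RCLike.star_def,
      Complex.conj_I, neg_smul, inner_neg_left, Complex.neg_re, rvd0_re_I_left] at h1
    rw [h1, Complex.add_im, Complex.im_ofReal_mul, Complex.im_ofReal_mul,
      rvd0_im_comm ((star w) ζ), neg_neg]


theorem rvd1_stepA {R : H →L[ℂ] H} {D : H →L⋆[ℂ] H} (h : RvD M ζ R D) {y : H →L[ℂ] H}
    (hy : y ∈ M.commutant) : ∃ Y ∈ M, Y ζ = R (y ζ) ∧ (star Y) ζ = D (y ζ) := by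
  obtain ⟨Y, hY, e⟩ := rvd1_re hy ζ (α := 1 / 2) (β := 1 / 2) one_half_pos one_half_pos
  refine ⟨Y, hY, h.char (subset_closure ⟨Y, hY, rfl⟩) fun x hx => ?_⟩
  have := e x hx
  rw [two_smul, inner_sub_right, inner_add_right, Complex.sub_re, Complex.add_re]
  linarith

theorem rvd1_D {R : H →L[ℂ] H} {D : H →L⋆[ℂ] H} (h : RvD M ζ R D) (η u : H) :
    ⟪η, D u⟫_ℂ = ⟪u, D η⟫_ℂ := by
  rw [← inner_conj_symm, h.symm, inner_conj_symm]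

theorem rvd1_alg {R : H →L[ℂ] H} {D : H →L⋆[ℂ] H} (h : RvD M ζ R D) {w : H →L[ℂ] H}
    (hw : w ∈ M) : (2 - R) (w ζ) = D ((star w) ζ) := by
  rw [h.alg _ (star_mem hw), star_star]

theorem rvd_identity (hs : Sepg M ζ) {R : H →L[ℂ] H} {D : H →L⋆[ℂ] H} (h : RvD M ζ R D)
    {x' : H →L[ℂ] H} (hx : x' ∈ M.commutant) {α β : ℝ} (hα : 0 < α) (hβ : 0 < β) :
    ∃ X ∈ M, ∀ ξ, D (x' (D ξ)) =
      (α : ℂ) • (2 - R) (X (R ξ)) + (β : ℂ) • R (X ((2 - R) ξ)) := by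
  obtain ⟨X, hX, e⟩ := rn_lemma (star_mem hx) ζ hβ hα
  have hc := cyc_of_sepg hs
  have hR : IsSelfAdjoint R := IsSelfAdjoint.of_nonneg h.nonneg
  have hR2 : IsSelfAdjoint (2 - R) := IsSelfAdjoint.of_nonneg (sub_nonneg.2 h.le_two)
  refine ⟨X, hX, fun ξ => ?_⟩
  have hcl : IsClosed {ξ : H | D (x' (D ξ)) =
      (α : ℂ) • (2 - R) (X (R ξ)) + (β : ℂ) • R (X ((2 - R) ξ))} :=
    isClosed_eq (D.continuous.comp (x'.continuous.comp D.continuous))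
      ((((2 - R).continuous.comp (X.continuous.comp R.continuous)).const_smul (α : ℂ)).add
        ((R.continuous.comp (X.continuous.comp (2 - R).continuous)).const_smul (β : ℂ)))
  refine hcl.closure_subset_iff.2 ?_ (hc ξ)
  rintro _ ⟨y, hy, rfl⟩
  obtain ⟨Y, hY, hY1, hY2⟩ := rvd1_stepA h hy
  refine eq_of_inner_cyc hc fun z hz => ?_
  obtain ⟨Z, hZ, hZ1, hZ2⟩ := rvd1_stepA h hz
  have e1 : ⟪z ζ, D (x' (D (y ζ)))⟫_ℂ = ⟪(Z * star Y) ζ, (star x') ζ⟫_ℂ := by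
    rw [rvd1_D h, ← hY2, ← hZ2, inner_star_right, inner_star_right, commute_apply hZ hx]
    rfl
  have e2 : ⟪z ζ, (2 - R) (X (R (y ζ)))⟫_ℂ = ⟪(star X) ζ, (star (Z * star Y)) ζ⟫_ℂ := by
    have : X (R (y ζ)) = (X * Y) ζ := by rw [← hY1]; rfl
    rw [this, rvd1_alg h (mul_mem hX hY), rvd1_D h, ← hZ2, star_mul, star_mul, star_star]
    change ⟪(star Y) ((star X) ζ), _⟫_ℂ = ⟪_, Y ((star Z) ζ)⟫_ℂ
    rw [inner_star_left]
  have e3 : ⟪z ζ, R (X ((2 - R) (y ζ)))⟫_ℂ = ⟪(Z * star Y) ζ, X ζ⟫_ℂ := by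
    have h1 : ⟪z ζ, R (X ((2 - R) (y ζ)))⟫_ℂ = ⟪(2 - R) ((star X * Z) ζ), y ζ⟫_ℂ := by
      rw [← inner_star_left R, hR.star_eq, ← hZ1, ← inner_star_left X, ← inner_star_left (2 - R),
        hR2.star_eq]
      rfl
    rw [h1, rvd1_alg h (mul_mem (star_mem hX) hZ), h.symm, ← hY2, star_mul, star_star]
    change ⟪_, (star Z) (X ζ)⟫_ℂ = ⟪Z ((star Y) ζ), _⟫_ℂ
    rw [inner_star_right]
  rw [inner_add_right, inner_smul_right, inner_smul_right, e1, e2, e3,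
    e _ (mul_mem hZ (star_mem hY)), add_comm]

end Pool.Agent.P.MP_5d580a_an
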