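import Pool.Agent.P.MP_5d580a_an.CalcSa

open scoped ComplexOrder InnerProductSpace ComplexConjugate BoundedContinuousFunction
open MeasureTheory Filter Topology

set_option linter.unusedSectionVars false
set_option linter.unusedVariables false

noncomputable section

namespace Pool.Agent.P.MP_5d580a_an

variable {H : Type} [NormedAddCommGroup H] [InnerProductSpace ℂ H] [CompleteSpace H]

variable {M : VonNeumannAlgebra H} {ζ : H}

theorem rvd2_dense {T : H →L[ℂ] H} (hsa : star T = T) (hinj : ∀ ξ, T ξ = 0 → ξ = 0) :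
    DenseRange T := by
  have h1 : (LinearMap.range (T : H →ₗ[ℂ] H))ᗮ = ⊥ := by
    rw [Submodule.eq_bot_iff]
    intro ξ hξ
    apply hinj
    have h2 := (Submodule.mem_orthogonal _ _).1 hξ (T (T ξ)) ⟨T ξ, rfl⟩
    rw [← inner_star_right, hsa] at h2
    exact inner_self_eq_zero.1 h2
  have h3 := Submodule.topologicalClosure_eq_top_iff.2 h1
  have h4 := Submodule.dense_iff_topologicalClosure_eq_top.2 h3
  exact h4

/-- polar decomposition of a symmetric conjugate linear operator -/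
theorem rvd2_polar {T : H →L[ℂ] H} {D : H →L⋆[ℂ] H} (hT : 0 ≤ T) (hinj : ∀ ξ, T ξ = 0 → ξ = 0)
    (hs : ∀ ξ η, ⟪D ξ, η⟫_ℂ = ⟪D η, ξ⟫_ℂ) (hsq : ∀ ξ, D (D ξ) = T (T ξ)) :
    ∃ J : H ≃ₗᵢ⋆[ℂ] H, (∀ ξ, J (J ξ) = ξ) ∧ ∀ ξ, D ξ = T (J ξ) := by
  have hsa : star T = T := (IsSelfAdjoint.of_nonneg hT).star_eq
  have hd : DenseRange T := rvd2_dense hsa hinj
  have hn : ∀ ξ, ‖D ξ‖ = ‖T ξ‖ := by
    intro ξ
    have h1 : ⟪D ξ, D ξ⟫_ℂ = ⟪T ξ, T ξ⟫_ℂ := by
      rw [hs, hsq, ← inner_star_right, hsa]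
    rw [inner_self_eq_norm_sq_to_K, inner_self_eq_norm_sq_to_K] at h1
    have h2 : ‖D ξ‖ ^ 2 = ‖T ξ‖ ^ 2 := by exact_mod_cast h1
    exact (sq_eq_sq₀ (norm_nonneg _) (norm_nonneg _)).1 h2
  obtain ⟨J₀, hJ₀⟩ : ∃ J₀ : H →L⋆[ℂ] H, ∀ ξ, J₀ (T ξ) = D ξ :=
    ⟨(D : H →ₛₗ[starRingEnd ℂ] H).extendOfNorm (T : H →ₗ[ℂ] H), fun ξ =>
      LinearMap.extendOfNorm_eq (f := (D : H →ₛₗ[starRingEnd ℂ] H)) (e := (T : H →ₗ[ℂ] H)) hd
        ⟨1, fun x => by rw [one_mul]; exact (hn x).le⟩ ξ⟩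
  have hiso : ∀ ξ, ‖J₀ ξ‖ = ‖ξ‖ := by
    intro ξ
    refine hd.induction_on (p := fun ξ => ‖J₀ ξ‖ = ‖ξ‖) ξ
      (isClosed_eq J₀.continuous.norm continuous_norm) fun a => ?_
    rw [hJ₀, hn]
  let L : H →ₛₗᵢ[starRingEnd ℂ] H := ⟨(J₀ : H →ₛₗ[starRingEnd ℂ] H), hiso⟩
  have hL : ∀ ξ, L ξ = J₀ ξ := fun _ => rfl
  have hsurj : Function.Surjective L := by
    have hc : IsClosed (Set.range L) := L.isometry.isClosedEmbedding.isClosed_range
    have hd2 : DenseRange (T ∘ T) := hd.comp hd T.continuous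
    intro ξ
    refine hd2.induction_on (p := fun ξ => ξ ∈ Set.range L) ξ hc fun a => ?_
    exact ⟨T (D a), by rw [hL, hJ₀, hsq]; rfl⟩
  obtain ⟨J, hJ⟩ : ∃ J : H ≃ₗᵢ⋆[ℂ] H, ∀ ξ, J (T ξ) = D ξ :=
    ⟨LinearIsometryEquiv.ofSurjective L hsurj, fun ξ => hJ₀ ξ⟩
  have hD : ∀ ξ, D ξ = T (J.symm ξ) := by
    intro ξ
    apply ext_inner_right ℂ
    intro η
    rw [hs, ← hJ]
    conv_lhs => rw [← J.apply_symm_apply ξ]
    rw [inner_J, ← inner_star_left, hsa]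
  obtain ⟨T', hT'⟩ : ∃ T' : H →L[ℂ] H, ∀ ξ, T' ξ = J (T (J.symm ξ)) :=
    ⟨(J.toContinuousLinearEquiv : H →L⋆[ℂ] H).comp
      (T.comp (J.symm.toContinuousLinearEquiv : H →L⋆[ℂ] H)), fun _ => rfl⟩
  have h0 : 0 ≤ T' := by
    rw [nonneg_iff_inner]
    intro ξ
    rw [hT']
    conv_rhs => rw [← J.apply_symm_apply ξ]
    rw [J.symm_apply_apply, inner_J, ← inner_star_right, hsa]
    exact nonneg_iff_inner.1 hT _
  have he : T' = T := by
    apply sqrt_unique h0 hT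
    ext ξ
    rw [mul_apply_eq_comp, mul_apply_eq_comp, hT', hT', J.symm_apply_apply, ← hD, hJ, hsq]
  have hD' : ∀ ξ, D ξ = T (J ξ) := by
    intro ξ
    rw [← he, hT', J.symm_apply_apply, hJ]
  refine ⟨J, fun ξ => ?_, hD'⟩
  have h1 : J ξ = J.symm ξ := by
    rw [← sub_eq_zero]
    apply hinj
    rw [map_sub, ← hD, ← hD', sub_self]
  rw [h1, J.apply_symm_apply]

theorem rvd2_rfun {r : ℝ} (h0 : 0 < r) (h2 : r < 2) : rfun (Real.log ((2 - r) / r)) = r := by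
  have h3 : 0 < (2 - r) / r := div_pos (by linarith) h0
  rw [rfun, Real.exp_log h3]
  congr 1
  field_simp
  ring

theorem rvd2_tfun (l : ℝ) : tfun l * tfun l = rfun l * (2 - rfun l) := by
  have h := Real.exp_pos l
  have h2 : Real.exp l = Real.exp (l / 2) * Real.exp (l / 2) := by rw [← Real.exp_add, add_halves]
  have h3 : 2 * Real.exp (l / 2) / (1 + Real.exp l) * (2 * Real.exp (l / 2) / (1 + Real.exp l)) =
      2 / (1 + Real.exp l) * (2 - 2 / (1 + Real.exp l)) := by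
    field_simp
    rw [sq, ← h2]
    ring
  unfold tfun rfun
  exact_mod_cast h3

theorem rvd2_ae {R : H →L[ℂ] H} {D : H →L⋆[ℂ] H} (h : RvD M ζ R D) {E : SpecCalc ℝ H}
    (hE : IsCalcOf E R) (ξ : H) : ∀ᵐ r ∂(E.μ ξ), 0 < r ∧ r < 2 := by
  have e2 : ((2 : ℝ) : ℂ) • (1 : H →L[ℂ] H) = 2 := by
    rw [Complex.ofReal_ofNat, two_smul, one_add_one_eq_two]
  have h1 := hE.null_Iio (c := 0) (by simpa using h.nonneg) ξ
  have h2 := hE.null_Ioi (c := 2) (by rw [e2]; exact h.le_two) ξ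
  have h3 := hE.null_singleton (c := 0) (fun η hη => h.inj η (by simpa using hη)) ξ
  have h4 := hE.null_singleton (c := 2) (fun η hη => h.inj' η (by
    rw [← e2, sub_apply, hη, smul_apply, one_apply_eq_self, sub_self])) ξ
  filter_upwards [measure_eq_zero_iff_ae_notMem.1 h1, measure_eq_zero_iff_ae_notMem.1 h2,
    measure_eq_zero_iff_ae_notMem.1 h3, measure_eq_zero_iff_ae_notMem.1 h4] with r a b c d
  simp only [Set.mem_Iio, Set.mem_Ioi, Set.mem_singleton_iff, not_lt] at a b c d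
  exact ⟨lt_of_le_of_ne a (Ne.symm c), lt_of_le_of_ne b d⟩

theorem exists_rvj {R : H →L[ℂ] H} {D : H →L⋆[ℂ] H} (h : RvD M ζ R D) :
    ∃ (J : H ≃ₗᵢ⋆[ℂ] H) (E : SpecCalc ℝ H), RvJ R D J E := by
  have hR : IsSelfAdjoint R := IsSelfAdjoint.of_nonneg h.nonneg
  obtain ⟨E₀, hE₀⟩ := exists_calc_sa hR
  have hg : Measurable fun r : ℝ => Real.log ((2 - r) / r) := by fun_prop
  obtain ⟨E, hE, -⟩ := E₀.exists_map hg
  have hRe : E.Φ rfun = R := by
    have hc : BM ((Set.Icc (-‖R‖) ‖R‖).indicator fun t : ℝ => (t : ℂ)) :=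
      BM.indicator_of_bdd Complex.measurable_ofReal measurableSet_Icc ‖R‖ fun x hx => by
        rw [Complex.norm_real, Real.norm_eq_abs]
        exact abs_le.2 hx
    rw [hE, ← hE₀.2 _ hc fun t ht => Set.indicator_of_mem ht _]
    ext ξ
    refine E₀.congr_ae (bm_rfun.comp hg) hc ?_
    filter_upwards [rvd2_ae h hE₀ ξ, measure_eq_zero_iff_ae_notMem.1 (hE₀.1 ξ)] with r a b
    rw [Set.indicator_of_mem (not_not.1 b), rvd2_rfun a.1 a.2]
  have hT : 0 ≤ E.Φ tfun := by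
    refine E.nonneg bm_tfun fun ξ => Eventually.of_forall fun l => ?_
    rw [tfun, Complex.zero_le_real]
    have := Real.exp_pos l
    positivity
  have e2 : E.Φ (fun l => 2 - rfun l) = 2 - R := by
    rw [E.map_sub (BM.const 2) bm_rfun, E.map_const, hRe, two_smul, one_add_one_eq_two]
  have hTT : ∀ ξ, E.Φ tfun (E.Φ tfun ξ) = R ((2 - R) ξ) := by
    intro ξ
    rw [← e2, ← hRe, E.mul_apply bm_tfun bm_tfun,
      E.mul_apply bm_rfun ((BM.const 2).sub bm_rfun)]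
    simp only [rvd2_tfun]
  have hinj : ∀ ξ, E.Φ tfun ξ = 0 → ξ = 0 := by
    intro ξ hξ
    apply h.inj'
    apply h.inj
    rw [← hTT, hξ, map_zero]
  obtain ⟨J, hJ, hD⟩ := rvd2_polar hT hinj h.symm fun ξ => by rw [h.sq, hTT]
  have hrm : ∀ ξ, rm J R ξ = (2 - R) ξ := by
    intro ξ
    rw [← sub_eq_zero]
    apply hinj
    have hc := E.commute bm_tfun ((BM.const 2).sub bm_rfun)
    rw [e2] at hc
    rw [map_sub, rm_apply, hR.star_eq, ← hD, h.flip, hD, hJ, ← mul_apply_eq_comp, ← hc,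
      mul_apply_eq_comp, sub_self]
  obtain ⟨E₁, hE₁, h₁⟩ := hE₀.conjJ hJ
  obtain ⟨E₂, hE₂, h₂⟩ := hE₀.affine 2 (-1)
  have hint := hE₁.intertwine hE₂ (ContinuousLinearMap.id ℂ H) fun ξ => by
    rw [ContinuousLinearMap.id_apply, ContinuousLinearMap.id_apply, hrm, Complex.ofReal_ofNat,
      two_smul, one_add_one_eq_two, Complex.ofReal_neg, Complex.ofReal_one, neg_one_smul,
      sub_eq_add_neg]
  refine ⟨J, E, hRe, hD, hJ, fun f hf ξ => ?_⟩
  have h3 := hint _ ((hf.comp hg).star) (J ξ)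
  rw [ContinuousLinearMap.id_apply, ContinuousLinearMap.id_apply, h₁, h₂] at h3
  rw [J_apply hJ, hE, hE, ← E₀.map_star (hf.comp hg), h3]
  refine congrArg (fun φ : ℝ → ℂ => E₀.Φ φ (J ξ)) (funext fun t => ?_)
  rw [← Real.log_inv, inv_div]
  congr 4 <;> ring

end Pool.Agent.P.MP_5d580a_an
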