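import Pool.Agent.P.MP_5d580a_an.Bic3
import Pool.Agent.P.MP_5d580a_an.Endg
import Pool.Agent.P.MP_5d580a_an.Ergo2
import Pool.Agent.P.MP_5d580a_an.Lac2

open scoped ComplexOrder InnerProductSpace ComplexConjugate BoundedContinuousFunction
open MeasureTheory Filter Topology

set_option linter.unusedSectionVars false
set_option linter.unusedVariables false

noncomputable section

namespace Pool.Agent.P.MP_5d580a_an

variable {H : Type} [NormedAddCommGroup H] [InnerProductSpace ℂ H] [CompleteSpace H]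

variable {M : VonNeumannAlgebra H} {J : H ≃ₗᵢ⋆[ℂ] H} {ζ : H}

/-- triviality of the bicentraliser -/
theorem bicentralizer (hM : IsFactor M) (hs : StdV M J ζ) (hF : Full M J ζ) :
    ∀ x ∈ Bic M J ζ, ∃ c : ℂ, x = c • (1 : H →L[ℂ] H) := by
  intro x hx
  by_cases h0 : ζ = 0
  · refine ⟨0, ?_⟩
    by_contra hne
    have : x ≠ 0 := by simpa using hne
    exact hs.ne_zero this h0
  have hn : 0 < ‖ζ‖ := norm_pos_iff.2 h0
  have ht : 0 < ‖ζ‖⁻¹ := inv_pos.2 hn
  have hs' := hs.smul ht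
  have hF' := hF.smul ht
  have h1 : ‖((‖ζ‖⁻¹ : ℝ) : ℂ) • ζ‖ = 1 := by
    rw [norm_smul, Complex.norm_real, Real.norm_eq_abs, abs_of_pos ht]
    exact inv_mul_cancel₀ hn.ne'
  obtain ⟨E, hE⟩ := exists_mod hs'
  have hEF := eigFam hM hs' hF' h1
  obtain ⟨β, V, hβ⟩ := exists_flow hE h1 hEF
  rw [← bic_smul_vec ht] at hx
  rcases bic_trivial_or hM hE hF' h1 hEF hβ with h | h
  · exact h x hx
  · refine bic_trivial_of_flow hM hE hF' h1 (fun s y hy => ?_) x hx
    have := hβ.rel s y hy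
    rwa [h s y hy] at this

theorem thmab_norm_ad (hJ : StdJ M J) {w : H →L[ℂ] H} (hw : ‖w‖ ≤ 1) (γ : H) :
    ‖ad J w γ‖ ≤ ‖γ‖ := by
  have h1 : ‖rm J (star w)‖ ≤ 1 := by rw [norm_rm, norm_star]; exact hw
  calc ‖ad J w γ‖ ≤ ‖w‖ * ‖rm J (star w) γ‖ := w.le_opNorm _
    _ ≤ 1 * (1 * ‖γ‖) := by
        gcongr
        exact ((rm J (star w)).le_opNorm _).trans (by gcongr)
    _ = ‖γ‖ := by ring

theorem full_bh (hM : IsFactor M) : BH M M J {ζ | StdV M J ζ ∧ Full M J ζ} 1 := by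
  rintro ζ ⟨hs, hF⟩ e he hep - heζ y hy hsa hey h
  refine ⟨hy, ?_⟩
  have hJ := hs.stdJ
  have hI := hJ.invol
  by_cases he0 : e = 0
  · have : y = 0 := by rw [← hey, he0, zero_mul]
    simp [this, cm, rm_zero]
  obtain ⟨w, hw, hw1, hwe⟩ := exists_isometry_eq hM hs hF he hep he0
  have hws : star w ∈ M := star_mem hw
  have hwn : ‖w‖ ≤ 1 := iso_norm_le hw1
  have hye : y * e = y := by
    have := congrArg star hey
    rwa [star_mul, hsa.star_eq, hep.isSelfAdjoint.star_eq] at this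
  have hew : e * w = w := by rw [← hwe, mul_assoc, hw1, mul_one]
  have hwe' : star w * e = star w := by rw [← hwe, ← mul_assoc, hw1, one_mul]
  have hee : e * e = e := hep.isIdempotentElem.eq
  have hre : rm J e ζ = e ζ := (sub_eq_zero.1 heζ).symm
  have hs' : StdV M J (ad J (star w) ζ) := hs.ad_coiso hw hw1
  have hF' : Full M J (ad J (star w) ζ) :=
    full_of_cone hM hs hF (cone_ad hJ hws (cone_self hJ)) hs'
  have hy' : star w * y * w ∈ M := mul_mem (mul_mem hws hy) hw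
  have hsa' : IsSelfAdjoint (star w * y * w) := by
    rw [IsSelfAdjoint, star_mul, star_mul, star_star, hsa.star_eq, mul_assoc]
  have hb : star w * y * w ∈ Bic M J (ad J (star w) ζ) := by
    refine bic_of_unitary hs' hy' hsa' fun ε hε => ?_
    obtain ⟨δ, hδ, hh⟩ := h ε hε
    refine ⟨δ, hδ, fun u' hu' huu hcm => ?_⟩
    have hu1 : star u' * u' = 1 := huu.1
    have hu2 : u' * star u' = 1 := huu.2
    set x : H →L[ℂ] H := w * u' * star w with hx
    have hxM : x ∈ M := mul_mem (mul_mem hw hu') hws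
    have hxe : x * e = x := by rw [hx, mul_assoc, hwe']
    have hex : e * x = x := by rw [hx, ← mul_assoc, ← mul_assoc, hew]
    have hsx : star x = w * star u' * star w := by
      rw [hx, star_mul, star_mul, star_star, mul_assoc]
    have hxx : star x * x = e := by
      rw [hsx, hx]
      calc w * star u' * star w * (w * u' * star w)
          = w * (star u' * ((star w * w) * u')) * star w := by noncomm_ring
        _ = e := by rw [hw1, one_mul, hu1, mul_one, hwe]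
    have hxx' : x * star x = e := by
      rw [hsx, hx]
      calc w * u' * star w * (w * star u' * star w)
          = w * (u' * ((star w * w) * star u')) * star w := by noncomm_ring
        _ = e := by rw [hw1, one_mul, hu2, mul_one, hwe]
    have hsxe : star x * e = star x := by
      have := congrArg star hex
      rwa [star_mul, hep.isSelfAdjoint.star_eq] at this
    have hesx : e * star x = star x := by
      have := congrArg star hxe
      rwa [star_mul, hep.isSelfAdjoint.star_eq] at this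
    have hstar : star (x + (1 - e)) = star x + (1 - e) := by
      rw [star_add, hep.one_sub.isSelfAdjoint.star_eq]
    have hcmx : cm J x ζ = ad J w (cm J u' (ad J (star w) ζ)) := by
      have a1 : ad J w (u' (ad J (star w) ζ)) = x ζ := by
        have : rm J (star w) (rm J w ζ) = e ζ := by
          rw [← hre, ← hwe, rm_mul hI]; rfl
        simp only [ad, star_star]
        rw [← hJ.comm_apply hu' hws, ← hJ.comm_apply hws hws, this]
        change (w * u' * star w * e) ζ = _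
        rw [← hx, hxe]
      have a2 : ad J w (rm J u' (ad J (star w) ζ)) = rm J x ζ := by
        simp only [ad, star_star]
        rw [← hJ.comm_apply hws hu', ← hJ.comm_apply hws hws]
        have b1 : rm J (star w) (rm J u' (rm J w ζ)) = rm J x ζ := by
          rw [hx, rm_mul hI, rm_mul hI]; rfl
        rw [b1]
        change (w * star w) (rm J x ζ) = _
        rw [hwe, hJ.comm_apply he hxM, ← hre]
        change (rm J x * rm J e) ζ = _
        rw [← rm_mul hI, hex]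
      rw [cm, cm, ← a1, ← a2]
      simp only [ad, map_sub]
    have hU : UApp M J ζ e δ (x + (1 - e)) := by
      refine ⟨add_mem hxM (sub_mem (one_mem M) he), ⟨?_, ?_⟩, ?_, ?_⟩
      · rw [hstar]
        calc (star x + (1 - e)) * (x + (1 - e))
            = star x * x + (star x - star x * e) + (x - e * x) + (1 - e - e + e * e) := by
              noncomm_ring
          _ = 1 := by rw [hxx, hsxe, hex, hee]; abel
      · rw [hstar]
        calc (x + (1 - e)) * (star x + (1 - e))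
            = x * star x + (x - x * e) + (star x - e * star x) + (1 - e - e + e * e) := by
              noncomm_ring
          _ = 1 := by rw [hxx', hxe, hesx, hee]; abel
      · calc (x + (1 - e)) * (1 - e) = (x - x * e) + (1 - e - e + e * e) := by noncomm_ring
          _ = 1 - e := by rw [hxe, hee]; abel
      · rw [cm_add, cm_sub, cm_one hI, heζ, sub_zero, add_zero, hcmx]
        exact (thmab_norm_ad hJ hwn _).trans hcm
    have key := hh _ hU
    have hZ : (x + (1 - e)) * y - y * (x + (1 - e)) = x * y - y * x := by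
      calc (x + (1 - e)) * y - y * (x + (1 - e))
          = x * y - y * x + (y - e * y) - (y - y * e) := by noncomm_ring
        _ = x * y - y * x := by rw [hey, hye]; abel
    rw [hZ] at key
    have hZM : x * y - y * x ∈ M := sub_mem (mul_mem hxM hy) (mul_mem hy hxM)
    have hop : (u' * (star w * y * w) - star w * y * w * u') * star w =
        star w * (x * y - y * x) := by
      rw [hx]
      calc (u' * (star w * y * w) - star w * y * w * u') * star w
          = u' * star w * (y * (w * star w)) - star w * y * w * u' * star w := by noncomm_ring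
        _ = (star w * w) * u' * star w * y - star w * y * w * u' * star w := by
            rw [hwe, hye, hw1, one_mul]
        _ = _ := by noncomm_ring
    have hv : (u' * (star w * y * w) - star w * y * w * u') (ad J (star w) ζ) =
        ad J (star w) ((x * y - y * x) ζ) := by
      simp only [ad, star_star]
      rw [← hJ.comm_apply hZM hw]
      change ((u' * (star w * y * w) - star w * y * w * u') * star w) (rm J w ζ) =
        (star w * (x * y - y * x)) (rm J w ζ)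
      rw [hop]
    rw [hv]
    exact (thmab_norm_ad hJ (by rw [norm_star]; exact hwn) _).trans key
  obtain ⟨c, hc⟩ := bicentralizer hM hs' hF' _ hb
  have : y = c • e := by
    calc y = e * y * e := by rw [hey, hye]
      _ = w * (star w * y * w) * star w := by rw [← hwe]; noncomm_ring
      _ = c • e := by rw [hc, mul_smul_comm, mul_one, smul_mul_assoc, hwe]
  rw [this, cm_smul, heζ, smul_zero]

/-- good blocks -/
def ThmabG (M : VonNeumannAlgebra H) (J : H ≃ₗᵢ⋆[ℂ] H) (ζ : H) (c : ℝ) (p : H →L[ℂ] H) : Prop :=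
  Cent M J ζ p ∧ ∃ (𝔅 : Set (H →L[ℂ] H)) (γ : H), p γ = γ ∧ p ∈ 𝔅 ∧ Good M J 𝔅 γ ∧
    ‖γ - p ζ‖ ≤ c * ‖p ζ‖

theorem thmab_pyth {p q : H →L[ℂ] H} (hp : IsStarProjection p) (h0 : p * q = 0) {α β : H}
    (hα : p α = α) (hβ : q β = β) : ‖α + β‖ ^ 2 = ‖α‖ ^ 2 + ‖β‖ ^ 2 := by
  have h1 : p β = 0 := by
    rw [← hβ]; change (p * q) β = 0; rw [h0]; rfl
  have h2 := proj_pyth hp (α + β)
  have h3 : (1 - p) (α + β) = β := by
    simp [hα, h1]
  rw [h3, map_add, hα, h1, add_zero] at h2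
  exact h2

theorem thmabG_zero (c : ℝ) : ThmabG M J ζ c 0 := by
  obtain ⟨𝔅, h1, h2, h3⟩ := exists_maxl M
  refine ⟨⟨zero_mem M, IsStarProjection.zero _, by simp [cm, rm_zero]⟩, 𝔅, 0, by simp,
    h1.zero_mem, ⟨h1, h2, fun q _ => by simp [cm], h3 0⟩, by simp⟩

theorem thmabG_add (hJ : StdJ M J) {c : ℝ} (hc : 0 ≤ c) {p q : H →L[ℂ] H}
    (hp : ThmabG M J ζ c p) (hq : ThmabG M J ζ c q) (h0 : p * q = 0) : ThmabG M J ζ c (p + q) := by
  obtain ⟨hp, 𝔅₁, γ₁, a1, a2, a3, a4⟩ := hp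
  obtain ⟨hq, 𝔅₂, γ₂, b1, b2, b3, b4⟩ := hq
  obtain ⟨𝔅, g1, g2⟩ := good_add hJ a3 b3 a2 b2 a1 b1 h0
  have h0' : q * p = 0 := by
    have := congrArg star h0
    rwa [star_mul, hp.2.1.isSelfAdjoint.star_eq, hq.2.1.isSelfAdjoint.star_eq, star_zero] at this
  have pp : ∀ ξ, p (p ξ) = p ξ := fun ξ => by
    change (p * p) ξ = _; rw [hp.2.1.isIdempotentElem.eq]
  have qq : ∀ ξ, q (q ξ) = q ξ := fun ξ => by
    change (q * q) ξ = _; rw [hq.2.1.isIdempotentElem.eq]
  have c1 : p γ₂ = 0 := by rw [← b1]; change (p * q) γ₂ = 0; rw [h0]; rfl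
  have c2 : q γ₁ = 0 := by rw [← a1]; change (q * p) γ₁ = 0; rw [h0']; rfl
  refine ⟨hp.add hJ hq h0, 𝔅, γ₁ + γ₂, by simp [a1, b1, c1, c2], g2, g1, ?_⟩
  have e1 : γ₁ + γ₂ - (p + q) ζ = (γ₁ - p ζ) + (γ₂ - q ζ) := by
    simp only [add_apply]; abel
  have e2 := thmab_pyth hp.2.1 h0 (α := γ₁ - p ζ) (β := γ₂ - q ζ) (by rw [map_sub, a1, pp])
    (by rw [map_sub, b1, qq])
  have e3 := thmab_pyth hp.2.1 h0 (pp ζ) (qq ζ)
  rw [e1]
  have e4 : (p + q) ζ = p ζ + q ζ := rfl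
  rw [e4]
  refine abs_le_of_sq_le_sq' ?_ (by positivity) |>.2
  rw [e2, mul_pow, e3, mul_add, ← mul_pow, ← mul_pow]
  gcongr

theorem thmab_exhaust [TopologicalSpace.SeparableSpace H] (hs : StdV M J ζ) {η : ℝ} (hη : 0 < η)
    (hg : ∀ p, Cent M J ζ p → p ≠ 0 → ∃ f, Cent M J ζ f ∧ f ≠ 0 ∧ p * f = f ∧ Gap M J ζ f η)
    {δ : ℝ} (hδ : 0 < δ) :
    ∃ p, ThmabG M J ζ (Real.exp (η / 2) - 1) p ∧ ‖ζ - p ζ‖ ≤ δ := by
  have hJ := hs.stdJ
  set c := Real.exp (η / 2) - 1 with hcdef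
  have hc : 0 ≤ c := by
    have := Real.add_one_le_exp (η / 2)
    linarith
  let S := {p : H →L[ℂ] H // Cent M J ζ p ∧ ∀ δ : ℝ, 0 < δ → ∃ p', ThmabG M J ζ c p' ∧
    p * p' = p' ∧ ‖p ζ - p' ζ‖ ≤ δ}
  have hz : Cent M J ζ 0 := (thmabG_zero (M := M) (J := J) (ζ := ζ) c).1
  let s₀ : S := ⟨0, hz, fun δ hδ => ⟨0, thmabG_zero c, by simp, by simpa using hδ.le⟩⟩
  have hnorm : ∀ p : H →L[ℂ] H, IsStarProjection p → ‖p ζ‖ ^ 2 = (⟪ζ, p ζ⟫_ℂ).re := by
    intro p hp
    rw [norm_sq_apply, hp.isSelfAdjoint.star_eq, hp.isIdempotentElem.eq]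
  obtain ⟨s, -, hmax⟩ := brezis_browder (S := S) (fun p q => p.1 ≤ q.1) (fun _ => le_rfl)
    (fun _ _ _ => le_trans) (fun p => ‖p.1 ζ‖ ^ 2)
    (fun p q h => by
      simp only [hnorm _ p.2.1.2.1, hnorm _ q.2.1.2.1]; exact re_inner_mono h ζ)
    (‖ζ‖ ^ 2) (fun p => by have := proj_norm_le p.2.1.2.1 ζ; gcongr)
    (fun y hy => by
      obtain ⟨z, hz1, -, hz3, hz4⟩ := exists_mono_lim (fun n => (y n).1)
        (fun n => (y n).2.1.2.1.isSelfAdjoint) hy 1 (fun n => (y n).2.1.2.1.norm_le _)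
      have hzp : IsStarProjection z := proj_of_sot hz4 fun n => (y n).2.1.2.1
      have hzM : z ∈ M := mem_of_wot (wot_of_sot hz4) (Eventually.of_forall fun n => (y n).2.1.1)
      have hzc : cm J z ζ = 0 := by
        have t1 : Tendsto (fun n => cm J (y n).1 ζ) atTop (𝓝 (cm J z ζ)) := by
          simp only [cm, rm_apply, hz1.star_eq]
          refine (hz4 ζ).sub ?_
          have : ∀ n, J ((star (y n).1) (J ζ)) = J ((y n).1 (J ζ)) := fun n => by
            rw [(y n).2.1.2.1.isSelfAdjoint.star_eq]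
          simp only [this]
          exact (J.continuous.tendsto _).comp (hz4 (J ζ))
        have t2 : (fun n => cm J (y n).1 ζ) = fun _ => 0 := funext fun n => (y n).2.1.2.2
        rw [t2] at t1
        exact (tendsto_nhds_unique tendsto_const_nhds t1).symm
      refine ⟨⟨z, ⟨hzM, hzp, hzc⟩, fun δ hδ => ?_⟩, hz3⟩
      obtain ⟨n, hn⟩ := (Metric.tendsto_atTop.1 (hz4 ζ)) (δ / 2) (half_pos hδ)
      obtain ⟨p', g1, g2, g3⟩ := (y n).2.2 (δ / 2) (half_pos hδ)
      have hzn : z * (y n).1 = (y n).1 := ((y n).2.1.2.1.le_iff_mul_eq_right hzp).1 (hz3 n)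
      refine ⟨p', g1, by rw [← g2, ← mul_assoc, hzn], ?_⟩
      have h5 := hn n le_rfl
      rw [dist_comm, dist_eq_norm] at h5
      calc ‖z ζ - p' ζ‖ = ‖(z ζ - (y n).1 ζ) + ((y n).1 ζ - p' ζ)‖ := by congr 1; abel
        _ ≤ δ / 2 + δ / 2 := (norm_add_le _ _).trans (add_le_add h5.le g3)
        _ = δ := by ring) s₀
  obtain ⟨p, hp, hp'⟩ := s
  have hp1 : p = 1 := by
    by_contra hne
    have hq : Cent M J ζ (1 - p) := (Cent.one hJ).sub hJ hp (one_mul p)
    obtain ⟨f, hf, hf0, hpf, hgap⟩ := hg _ hq (sub_ne_zero.2 (Ne.symm hne))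
    have hpf0 : p * f = 0 := by
      rw [← hpf, ← mul_assoc, hp.2.1.mul_one_sub_self, zero_mul]
    have hfp0 : f * p = 0 := by
      have := congrArg star hpf0
      rwa [star_mul, hp.2.1.isSelfAdjoint.star_eq, hf.2.1.isSelfAdjoint.star_eq, star_zero] at this
    obtain ⟨𝔅, γ, a1, a2, a3, a4⟩ := lac_good hs hf hη hgap
    have hfG : ThmabG M J ζ c f := ⟨hf, 𝔅, γ, a1, a2, a3, a4⟩
    let t : S := ⟨p + f, hp.add hJ hf hpf0, fun δ hδ => by
      obtain ⟨p', g1, g2, g3⟩ := hp' δ hδ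
      have hp'p : p' * p = p' := by
        have := congrArg star g2
        rwa [star_mul, hp.2.1.isSelfAdjoint.star_eq, g1.1.2.1.isSelfAdjoint.star_eq] at this
      have h7 : p' * f = 0 := by rw [← hp'p, mul_assoc, hpf0, mul_zero]
      have h8 : f * p' = 0 := by rw [← g2, ← mul_assoc, hfp0, zero_mul]
      refine ⟨p' + f, thmabG_add hJ hc g1 hfG h7, ?_, ?_⟩
      · rw [add_mul, mul_add, mul_add, g2, hpf0, h8, hf.2.1.isIdempotentElem.eq]; abel
      · simpa using g3⟩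
    have h9 := hmax t (le_add_of_nonneg_right hf.2.1.nonneg)
    have pp : p (p ζ) = p ζ := by change (p * p) ζ = _; rw [hp.2.1.isIdempotentElem.eq]
    have ff : f (f ζ) = f ζ := by change (f * f) ζ = _; rw [hf.2.1.isIdempotentElem.eq]
    have e3 := thmab_pyth hp.2.1 hpf0 pp ff
    have e4 : (p + f) ζ = p ζ + f ζ := rfl
    simp only [t, e4, e3] at h9
    have : ‖f ζ‖ = 0 := by nlinarith [norm_nonneg (f ζ)]
    exact hf0 (hs.sepg f hf.1 (norm_eq_zero.1 this))
  obtain ⟨p', g1, -, g3⟩ := hp' δ hδ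
  exact ⟨p', g1, by simpa [hp1] using g3⟩

theorem thmA [TopologicalSpace.SeparableSpace H] (hM : IsFactor M) (hc : Cyc M ζ) (hs : Sepg M ζ)
    {κ : ℝ} (hκ : 0 < κ) :
    ∃ (ζ' : H) (𝔅 : Set (H →L[ℂ] H)), ‖ζ' - ζ‖ ≤ κ ∧ BoolFam 𝔅 ∧ (∀ q ∈ 𝔅, q ∈ M) ∧
      Maxl M 𝔅 ζ' ∧ ∀ q ∈ 𝔅, ∃ q' ∈ M.commutant, IsStarProjection q' ∧ q' ζ' = q ζ' := by
  obtain ⟨J, hS⟩ := exists_std hc hs
  have hJ := hS.stdJ
  suffices h : ∃ (ζ' : H) (𝔅 : Set (H →L[ℂ] H)), ‖ζ' - ζ‖ ≤ κ ∧ Good M J 𝔅 ζ' by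
    obtain ⟨ζ', 𝔅, h1, h2⟩ := h
    exact ⟨ζ', 𝔅, h1, h2.bool, h2.mem, h2.maxl, fun q hq => ⟨rm J q, hJ.mem q (h2.mem q hq),
      rm_proj hJ.invol (h2.bool.proj q hq), (sub_eq_zero.1 (h2.cent q hq)).symm⟩⟩
  by_cases hF : Full M J ζ
  · obtain ⟨ζ', -, 𝔅, -, -, -, h1, h2⟩ := lq (M := M) (D := M) (f := 1) (l := []) (fun x hx => hx)
      (full_bh hM) (fun ζ h => h.1)
      (fun ζ h p hp hpp _ => ⟨h.1.pinch hp hpp,
        full_of_cone hM h.1 h.2 (cone_pinch hJ hp hpp (cone_self hJ)) (h.1.pinch hp hpp)⟩)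
      ⟨hS, hF⟩ (one_mem M) (IsStarProjection.one _) (cm_one hJ.invol ζ) ⟨by simp, by simp⟩
      (by simp) hκ
    exact ⟨ζ', 𝔅, h1, h2⟩
  · obtain ⟨η₀, hη₀, hg⟩ := exists_gap hM hS hF
    have hk : 0 < κ / (2 * (‖ζ‖ + 1)) := by positivity
    set η := min η₀ (2 * Real.log (1 + κ / (2 * (‖ζ‖ + 1)))) with hη
    have hl : 0 < Real.log (1 + κ / (2 * (‖ζ‖ + 1))) := Real.log_pos (by linarith)
    have hη0 : 0 < η := lt_min hη₀ (by linarith)
    have hexp : Real.exp (η / 2) - 1 ≤ κ / (2 * (‖ζ‖ + 1)) := by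
      have h1 : η / 2 ≤ Real.log (1 + κ / (2 * (‖ζ‖ + 1))) := by
        have := min_le_right η₀ (2 * Real.log (1 + κ / (2 * (‖ζ‖ + 1))))
        linarith
      have h2 := Real.exp_le_exp.2 h1
      rw [Real.exp_log (by linarith)] at h2
      linarith
    obtain ⟨p, ⟨hp, 𝔅, γ, a1, a2, a3, a4⟩, h5⟩ :=
      thmab_exhaust hS hη0 (hg η hη0 (min_le_left _ _)) (half_pos hκ)
    refine ⟨γ, 𝔅, ?_, a3⟩
    have h6 : ‖p ζ‖ ≤ ‖ζ‖ + 1 := (proj_norm_le hp.2.1 ζ).trans (by linarith)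
    have h7 : ‖γ - p ζ‖ ≤ κ / 2 := by
      calc ‖γ - p ζ‖ ≤ κ / (2 * (‖ζ‖ + 1)) * (‖ζ‖ + 1) := a4.trans (by gcongr)
        _ = κ / 2 := by field_simp
    calc ‖γ - ζ‖ = ‖(γ - p ζ) - (ζ - p ζ)‖ := by congr 1; abel
      _ ≤ κ / 2 + κ / 2 := (norm_sub_le _ _).trans (add_le_add h7 h5)
      _ = κ := by ring

theorem thmB [TopologicalSpace.SeparableSpace H] (hM : IsFactor M) (hc : Cyc M ζ) (hs : Sepg M ζ)
    (h0 : ζ ≠ 0) :
    CaseOne M ζ ∨ ∃ (f : H →L[ℂ] H) (γ : H) (G N : Set (H →L[ℂ] H)), CaseTwo M f γ G N := by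
  obtain ⟨J, hS⟩ := exists_std hc hs
  by_cases hF : Full M J ζ
  · exact Or.inl (caseOne hM hS hF h0)
  · obtain ⟨η₀, hη₀, hg⟩ := exists_gap hM hS hF
    have h1 : (1 : H →L[ℂ] H) ≠ 0 := fun h => h0 (by
      have := congrArg (fun T : H →L[ℂ] H => T ζ) h
      simpa using this)
    obtain ⟨f, hf, hf0, -, hgap⟩ := hg η₀ hη₀ le_rfl 1 (Cent.one hS.stdJ) h1
    obtain ⟨γ, G, N, h⟩ := caseTwo hS hf hf0 hη₀ hgap
    exact Or.inr ⟨f, γ, G, N, h⟩

end Pool.Agent.P.MP_5d580a_an
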