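import Pool.Agent.P.MP_5d580a_an.Rq
import Pool.Agent.P.MP_5d580a_an.DisjB
import Pool.Agent.P.MP_5d580a_an.DisjC
import Pool.Agent.P.MP_5d580a_an.Ort
import Pool.Agent.P.MP_5d580a_an.Kap
import Pool.Agent.P.MP_5d580a_an.ThmAB

open scoped ComplexOrder InnerProductSpace ComplexConjugate BoundedContinuousFunction
open MeasureTheory Filter Topology

set_option linter.unusedSectionVars false
set_option linter.unusedVariables false

noncomputable section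

namespace Pool.Agent.P.MP_5d580a_an

variable {H : Type} [NormedAddCommGroup H] [InnerProductSpace ℂ H] [CompleteSpace H]

variable {A B : Type} [CStarAlgebra A] [CStarAlgebra B] {ι : A →⋆ₐ[ℂ] B}

theorem small_re_sum {n : ℕ} (θ : Fin n → (B →L[ℂ] ℂ)) (b : B) :
    ((∑ i, θ i) b).re = ∑ i, (θ i b).re := by
  rw [ContinuousLinearMap.sum_apply, Complex.re_sum]

theorem small_vf_mem (π : B →⋆ₐ[ℂ] (H →L[ℂ] H)) (ξ : H) :
    vf π ξ ∈ Ext ι (vf (π.comp ι) ξ) := ⟨isPos_vf π ξ, res_vf ι π ξ⟩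

theorem small_ext_one {σ : A →L[ℂ] ℂ} {θ : B →L[ℂ] ℂ} (h : θ ∈ Ext ι σ) :
    (θ 1).re = (σ 1).re := by
  rw [← h.2, res_one]

theorem small_const {c ε : ℝ} (hc : 0 < c) (hε : 0 < ε) :
    ∃ ε₁ : ℝ, 0 < ε₁ ∧ ∀ s : ℝ, c ≤ s → 2 * ε₁ + 4 * s * √(3 * ε₁) < ε * s ^ 2 := by
  set t := min (ε * c / 8) c with ht
  have ht0 : 0 < t := lt_min (by positivity) hc
  have ht1 : t ≤ ε * c / 8 := min_le_left _ _
  have ht2 : t ≤ c := min_le_right _ _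
  refine ⟨t ^ 2 / 3, by positivity, fun s hs => ?_⟩
  have e : √(3 * (t ^ 2 / 3)) = t := by
    rw [show 3 * (t ^ 2 / 3) = t ^ 2 by ring, Real.sqrt_sq ht0.le]
  rw [e]
  have hs0 : 0 < s := lt_of_lt_of_le hc hs
  have h1 : t ^ 2 ≤ ε * c / 8 * c := by
    rw [sq]; exact mul_le_mul ht1 ht2 ht0.le (by positivity)
  have h2 : c * c ≤ s * s := mul_le_mul hs hs hc.le hs0.le
  have h3 : ε * (c * c) ≤ ε * (s * s) := mul_le_mul_of_nonneg_left h2 hε.le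
  have h4 : s * t ≤ s * (ε * c / 8) := mul_le_mul_of_nonneg_left ht1 hs0.le
  have h5 : ε * (c * s) ≤ ε * (s * s) :=
    mul_le_mul_of_nonneg_left (mul_le_mul_of_nonneg_right hs hs0.le) hε.le
  have h6 : 0 < ε * (s * s) := by positivity
  nlinarith

theorem small_const2 {c Q D : ℝ} (hc : 0 < c) (hQ : 0 ≤ Q) (hD : 0 < D) :
    ∃ d : ℝ, 0 < d ∧ 2 * d ≤ c ∧ (2 * Q + c) * (2 * d) ≤ D := by
  have hP : 0 < 2 * Q + c := by positivity
  refine ⟨min (c / 2) (D / (2 * (2 * Q + c))), lt_min (by positivity) (by positivity), ?_, ?_⟩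
  · have := min_le_left (c / 2) (D / (2 * (2 * Q + c)))
    linarith
  · have h := min_le_right (c / 2) (D / (2 * (2 * Q + c)))
    rw [le_div_iff₀ (by positivity)] at h
    linarith

/-- a block of small diameter near a point of weak-star to norm continuity -/
theorem small_block [TopologicalSpace.SeparableSpace B] (hι : Function.Injective ι) (hS : SepP ι)
    (π : B →⋆ₐ[ℂ] (H →L[ℂ] H)) {ζ : H} (h0 : ζ ≠ 0) {𝔅 : Set (H →L[ℂ] H)} (hB : BoolFam 𝔅)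
    (hM : ∀ q ∈ 𝔅, q ∈ cmt π) (hX : Maxl (cmt π) 𝔅 ζ)
    (hO : ∀ q ∈ 𝔅, ∃ q' ∈ (cmt π).commutant, IsStarProjection q' ∧ q' ζ = q ζ) (F : Finset B)
    {γ ε₁ ε : ℝ} (hγ : 0 < γ) (hε₁ : 0 < ε₁)
    (hN : ∀ θ ∈ Ext ι (vf (π.comp ι) ζ), WNear F γ (vf π ζ) θ → ‖θ - vf π ζ‖ ≤ ε₁)
    (hε : 2 * ε₁ + 4 * ‖ζ‖ * √(3 * ε₁) < ε * ‖ζ‖ ^ 2) :
    ∃ η : H, η ≠ 0 ∧ Diam ι (vf (π.comp ι) η) (ε * ‖η‖ ^ 2) := by
  classical
  letI := CStarAlgebra.spectralOrder B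
  haveI := CStarAlgebra.spectralOrderedRing B
  obtain ⟨F', hF', hW⟩ := wnear_sa F hγ
  obtain ⟨n, r, hr, horth, hsum, hdv⟩ :=
    rq_B hι hS π hB hM hX F' hF' (ε := γ / 4) (by positivity)
  have hpart : ∑ i, vf π (r i ζ) = vf π ζ :=
    vf_part π (fun j => ⟨hM _ (hr j), hB.proj _ (hr j)⟩) hsum ζ
  have hpartA : ∑ i, vf (π.comp ι) (r i ζ) = vf (π.comp ι) ζ :=
    vf_part (π.comp ι) (fun j => ⟨cmt_le_comp ι π (hM _ (hr j)), hB.proj _ (hr j)⟩) hsum ζ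
  have hmass : ∑ i, ‖r i ζ‖ ^ 2 = ‖ζ‖ ^ 2 := by
    rw [← vf_one π ζ, ← hpart, small_re_sum]
    exact Finset.sum_congr rfl fun i _ => (vf_one π _).symm
  have hsel1 : ∀ θ : Fin n → (B →L[ℂ] ℂ), (∀ i, θ i ∈ Ext ι (vf (π.comp ι) (r i ζ))) →
      ‖∑ i, θ i - vf π ζ‖ ≤ ε₁ := by
    intro θ hθ
    have hp : IsPos (∑ i, θ i) := IsPos.sum _ fun i _ => (hθ i).1
    refine hN _ ⟨hp, ?_⟩ (hW _ _ (isPos_vf π ζ) hp fun b hb => ?_)
    · rw [res_sum, ← hpartA]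
      exact Finset.sum_congr rfl fun i _ => (hθ i).2
    · rw [← hpart, small_re_sum, small_re_sum, ← Finset.sum_sub_distrib]
      refine lt_of_le_of_lt (Finset.abs_sum_le_sum_abs _ _) ?_
      refine lt_of_le_of_lt (le_trans (Finset.sum_le_sum fun i _ => ?_) hdv) (by linarith)
      refine le_trans ?_ (Finset.single_le_sum
        (f := fun b => dv ι (vf (π.comp ι) (r i ζ)) b)
        (fun b _ => dv_nonneg hι (isPos_vf _ _) b) hb)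
      rw [abs_le]
      have h1 := sub_le_dv (hF' b hb) (hθ i) (small_vf_mem (ι := ι) π (r i ζ))
      have h2 := sub_le_dv (hF' b hb) (small_vf_mem (ι := ι) π (r i ζ)) (hθ i)
      constructor <;> linarith
  choose r' hr'M hr'p hr'e using fun i => hO _ (hr i)
  obtain ⟨b, hb0, hb1, hb2⟩ := orth_elements π (fun i => r i ζ) r' (fun i => ⟨hr'M i, hr'p i⟩)
    (fun i j => by
      rw [← commute_apply (hM _ (hr j)) (hr'M i) ζ, hr'e i]
      split_ifs with h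
      · subst h
        rw [← ContinuousLinearMap.mul_apply, (hB.proj _ (hr i)).isIdempotentElem.eq]
      · rw [← ContinuousLinearMap.mul_apply, horth j i (fun e => h e.symm)]
        rfl) hε₁
  by_contra hcon
  have hbad : ∀ i, ∃ θ ∈ Ext ι (vf (π.comp ι) (r i ζ)), ∃ θ' ∈ Ext ι (vf (π.comp ι) (r i ζ)),
      ∃ y : B, (IsSelfAdjoint y ∧ ‖y‖ ≤ 1) ∧ ε * ‖r i ζ‖ ^ 2 ≤ (θ y).re - (θ' y).re := by
    intro i
    by_cases hz : r i ζ = 0
    · refine ⟨_, small_vf_mem π _, _, small_vf_mem π _, 0, ⟨IsSelfAdjoint.zero B, by simp⟩, ?_⟩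
      rw [hz]
      simp
    · have hnd : ¬ Diam ι (vf (π.comp ι) (r i ζ)) (ε * ‖r i ζ‖ ^ 2) :=
        fun h => hcon ⟨_, hz, h⟩
      unfold Diam at hnd
      push Not at hnd
      obtain ⟨θ, hθ, θ', hθ', y, hy, hy1, hlt⟩ := hnd
      exact ⟨θ, hθ, θ', hθ', y, ⟨hy, hy1⟩, hlt.le⟩
  choose θ hθ θ' hθ' y hy hle using hbad
  have key := ort_lemma b hb0 hb1 (fun i => Ext ι (vf (π.comp ι) (r i ζ)))
    (fun i => ‖r i ζ‖ ^ 2)
    (fun i τ hτ => ⟨hτ.1, by rw [small_ext_one hτ, vf_one]⟩)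
    (fun i => vf π (r i ζ)) (fun i => small_vf_mem π _) hε₁.le hb2
    (fun τ τ' hτ hτ' => by
      have h1 := hsel1 τ hτ
      have h2 := hsel1 τ' hτ'
      have h3 := norm_sub_le_norm_sub_add_norm_sub (∑ i, τ i) (vf π ζ) (∑ i, τ' i)
      rw [norm_sub_rev] at h2
      linarith)
    θ θ' hθ hθ' y hy
  rw [hmass, Real.sqrt_sq (norm_nonneg ζ)] at key
  have h2 : ∑ i, ε * ‖r i ζ‖ ^ 2 ≤ ∑ i, ((θ i (y i)).re - (θ' i (y i)).re) :=
    Finset.sum_le_sum fun i _ => hle i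
  rw [← Finset.mul_sum, hmass] at h2
  linarith

theorem exists_small [TopologicalSpace.SeparableSpace B] (hι : Function.Injective ι)
    (hS : SepP ι) {ρ : A →L[ℂ] ℂ} (hρ : IsPos ρ) (h0 : ρ ≠ 0) {m : ℕ} (hm : Bd ι ρ m)
    (hs : TopologicalSpace.IsSeparable (Ext ι ρ)) {ε : ℝ} (hε : 0 < ε) :
    ∃ (L : Type) (_ : NormedAddCommGroup L) (_ : InnerProductSpace ℂ L) (_ : CompleteSpace L)
      (π : A →⋆ₐ[ℂ] (L →L[ℂ] L)) (ζ η : L), IsFactor (cmt π) ∧ ζ ≠ 0 ∧ IsPos (ρ - vf π ζ) ∧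
        η ≠ 0 ∧ Diam ι (vf π η) (ε * ‖η‖ ^ 2) := by
  have hR : 0 < (ρ 1).re := hρ.one_pos h0
  set R := (ρ 1).re with hRdef
  have hm1 : (0 : ℝ) < m + 1 := by positivity
  set c := √(R / (m + 1)) / 2 with hcdef
  have hc : 0 < c := by
    have : 0 < √(R / (m + 1)) := Real.sqrt_pos.2 (by positivity)
    positivity
  have hc2 : (2 * c) ^ 2 = R / (m + 1) := by
    rw [hcdef, show 2 * (√(R / (m + 1)) / 2) = √(R / (m + 1)) by ring,
      Real.sq_sqrt (by positivity)]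
  obtain ⟨ε₁, hε₁, hconst⟩ := small_const hc hε
  obtain ⟨θ₀, hθ₀, F, γ, hγ, hnear⟩ := baire_small (wclosed_ext ι ρ) R
    (fun θ hθ => ext_norm_le hθ) (exists_ext hι hρ) hs (ε := ε₁ / 2) (by positivity)
  obtain ⟨θ₁, hfac, hle, hmass⟩ := exists_fac_piece hm hθ₀.1
    (by rw [hθ₀.2]; exact isPos_sub_self ρ)
  rw [small_ext_one hθ₀] at hmass
  have hθ₁R : (θ₁ 1).re ≤ R := by
    have := hle.one_nonneg
    rw [ContinuousLinearMap.sub_apply, Complex.sub_re, small_ext_one hθ₀] at this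
    linarith
  have hθ₁0 : 0 ≤ (θ₁ 1).re := hfac.1.one_nonneg
  have hθ₁c : (2 * c) ^ 2 ≤ (θ₁ 1).re := by
    rw [hc2, div_le_iff₀ hm1]
    nlinarith
  set β := ∑ b ∈ F, ‖b‖ + 1 with hβ
  have hβ0 : 0 < β := by
    have : 0 ≤ ∑ b ∈ F, ‖b‖ := Finset.sum_nonneg fun b _ => norm_nonneg b
    linarith
  have hβb : ∀ b ∈ F, ‖b‖ ≤ β := fun b hb => by
    have := Finset.single_le_sum (f := fun b : B => ‖b‖) (fun b _ => norm_nonneg b) hb
    linarith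
  set D := min (γ / (4 * β)) (ε₁ / 4) with hD
  have hD0 : 0 < D := lt_min (by positivity) (by positivity)
  have hD1 : D * β ≤ γ / 4 := by
    have h := min_le_left (γ / (4 * β)) (ε₁ / 4)
    rw [← hD, le_div_iff₀ (by positivity)] at h
    linarith
  have hD2 : D ≤ ε₁ / 4 := min_le_right _ _
  obtain ⟨d, hd, hdc, hdD⟩ := small_const2 hc (Real.sqrt_nonneg R) hD0
  obtain ⟨L, i1, i2, i3, π, ξ, hcyc, hpos, hξ, hF, hC⟩ :=
    faithfulise hfac (κ := d ^ 2) (by positivity)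
  obtain ⟨k, hk, -, -, hkv, -, hkn⟩ := exists_rn π ξ hfac.1 hpos
  haveI := hcyc.separable
  obtain ⟨ζ', 𝔅, hζ', hB, hM, hX, hO⟩ := thmA hF hC (sepg_cmt hcyc) hd
  set ζ₁ := k ξ with hζ₁
  have hn1 : ‖ζ₁‖ ^ 2 = (θ₁ 1).re := by rw [← vf_one π ζ₁, hkv]
  have hd1 : ‖ξ - ζ₁‖ ≤ d := by
    refine abs_le_of_sq_le_sq' ?_ hd.le |>.2
    linarith
  have hdist : ‖ζ' - ζ₁‖ ≤ 2 * d := by
    have := norm_sub_le_norm_sub_add_norm_sub ζ' ξ ζ₁
    linarith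
  have hlow : 2 * c ≤ ‖ζ₁‖ := by
    refine abs_le_of_sq_le_sq' ?_ (norm_nonneg _) |>.2
    linarith
  have hup : ‖ζ₁‖ ≤ √R := Real.le_sqrt_of_sq_le (by linarith)
  have hlow' : c ≤ ‖ζ'‖ := by
    have := norm_sub_norm_le ζ₁ ζ'
    rw [norm_sub_rev] at this
    linarith
  have hup' : ‖ζ'‖ ≤ √R + c := by
    have := norm_sub_norm_le ζ' ζ₁
    linarith
  have hprod : (‖ζ'‖ + ‖ζ₁‖) * ‖ζ' - ζ₁‖ ≤ D := by
    refine le_trans (mul_le_mul ?_ hdist (norm_nonneg _) ?_) hdD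
    · linarith
    · have := Real.sqrt_nonneg R
      linarith
  have hres₁ : res ι θ₁ = vf (π.comp ι) ζ₁ := by rw [← hkv, res_vf]
  have hζ'0 : ζ' ≠ 0 := by
    intro h
    rw [h, norm_zero] at hlow'
    linarith
  have hζ₁0 : ζ₁ ≠ 0 := by
    intro h
    rw [h, norm_zero] at hlow
    linarith
  have e1 : ‖vf π ζ' - θ₁‖ ≤ D := by
    rw [← hkv]
    exact le_trans (norm_vf_sub_le π ζ' ζ₁) hprod
  obtain ⟨η, hη0, hη⟩ := small_block hι hS π hζ'0 hB hM hX hO F (γ := γ / 2) (ε₁ := ε₁) (ε := ε)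
    (by positivity) hε₁
    (fun θ hθ hw => by
      obtain ⟨Ψ, hΨ, hΨe⟩ := exists_isW (isW_rep ι π) hθ
      have e2 : ‖θ - vfL Ψ ζ₁‖ ≤ D := by
        rw [← hΨe]
        exact le_trans (norm_vfL_sub_le hΨ.norm_le ζ' ζ₁) hprod
      have hmem : vfL Ψ ζ₁ + (θ₀ - θ₁) ∈ Ext ι ρ := by
        refine ⟨(hΨ.mem_ext ζ₁).1.add hle, ?_⟩
        rw [res_add, res_sub, (hΨ.mem_ext ζ₁).2, hθ₀.2, hres₁]
        abel
      have hw' : WNear F γ θ₀ (vfL Ψ ζ₁ + (θ₀ - θ₁)) := by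
        intro b hb
        have a1 : ‖(θ - vfL Ψ ζ₁) b‖ ≤ γ / 4 :=
          le_trans ((θ - vfL Ψ ζ₁).le_opNorm b)
            (le_trans (mul_le_mul e2 (hβb b hb) (norm_nonneg _) hD0.le) hD1)
        have a2 : ‖(vf π ζ' - θ₁) b‖ ≤ γ / 4 :=
          le_trans ((vf π ζ' - θ₁).le_opNorm b)
            (le_trans (mul_le_mul e1 (hβb b hb) (norm_nonneg _) hD0.le) hD1)
        have a3 := hw b hb
        have a4 : (vfL Ψ ζ₁ + (θ₀ - θ₁)) b - θ₀ b =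
            (θ b - vf π ζ' b) + (vf π ζ' - θ₁) b - (θ - vfL Ψ ζ₁) b := by
          simp only [ContinuousLinearMap.add_apply, ContinuousLinearMap.sub_apply]
          ring
        rw [a4]
        have a5 := norm_sub_le ((θ b - vf π ζ' b) + (vf π ζ' - θ₁) b) ((θ - vfL Ψ ζ₁) b)
        have a6 := norm_add_le (θ b - vf π ζ' b) ((vf π ζ' - θ₁) b)
        linarith
      have e3 := hnear _ hmem hw'
      have a7 : θ - vf π ζ' =
          (θ - vfL Ψ ζ₁) + (vfL Ψ ζ₁ + (θ₀ - θ₁) - θ₀) - (vf π ζ' - θ₁) := by abel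
      rw [a7]
      have a8 := norm_sub_le ((θ - vfL Ψ ζ₁) + (vfL Ψ ζ₁ + (θ₀ - θ₁) - θ₀)) (vf π ζ' - θ₁)
      have a9 := norm_add_le (θ - vfL Ψ ζ₁) (vfL Ψ ζ₁ + (θ₀ - θ₁) - θ₀)
      linarith)
    (hconst _ hlow')
  refine ⟨L, i1, i2, i3, π.comp ι, ζ₁, η, factor_res hι hS π hF, hζ₁0, ?_, hη0, hη⟩
  rw [← hres₁, ← hθ₀.2, ← res_sub]
  exact hle.res ι

end Pool.Agent.P.MP_5d580a_an
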