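import Pool.Agent.P.MP_5d580a_an.StdA
import Pool.Agent.P.MP_5d580a_an.Four
import Pool.Agent.P.MP_5d580a_an.Lin

open scoped ComplexOrder InnerProductSpace ComplexConjugate BoundedContinuousFunction
open MeasureTheory Filter Topology

set_option linter.unusedSectionVars false
set_option linter.unusedVariables false

noncomputable section

namespace Pool.Agent.P.MP_5d580a_an

variable {H : Type} [NormedAddCommGroup H] [InnerProductSpace ℂ H] [CompleteSpace H]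

variable {M : VonNeumannAlgebra H} {J : H ≃ₗᵢ⋆[ℂ] H} {ζ : H} {E : SpecCalc ℝ H}

theorem smear_apply' (E : SpecCalc ℝ H) {g : ℝ → ℂ} (hg : Integrable g) (x : H →L[ℂ] H) (ξ : H) :
    smear E g x ξ = ∫ t, g t • E.sig t x ξ := opInt_apply (E.scb_sig x) hg ξ

theorem norm_smear_le (E : SpecCalc ℝ H) {g : ℝ → ℂ} (hg : Integrable g) (x : H →L[ℂ] H) :
    ‖smear E g x‖ ≤ (∫ t, ‖g t‖) * ‖x‖ := norm_opInt_le (E.scb_sig x) hg

theorem smear_sub (E : SpecCalc ℝ H) {g : ℝ → ℂ} (hg : Integrable g) (x y : H →L[ℂ] H) :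
    smear E g (x - y) = smear E g x - smear E g y := by
  simp only [smear, E.sig_sub]
  exact opInt_sub (E.scb_sig x) (E.scb_sig y) hg

theorem sig_smear (E : SpecCalc ℝ H) {g : ℝ → ℂ} (hg : Integrable g) (t : ℝ) (x : H →L[ℂ] H) :
    E.sig t (smear E g x) = smear E g (E.sig t x) := by
  refine (mul_opInt (E.scb_sig x) hg _ _).trans (congrArg (opInt g) (funext fun s => ?_))
  rw [E.sig_sig, add_comm, ← E.sig_sig]
  rfl

theorem ncont_smear (E : SpecCalc ℝ H) {g : ℝ → ℂ} (hg : Integrable g) (x : H →L[ℂ] H) :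
    NCont E.sig (smear E g x) := fun ε hε => by
  have h0 : 0 < ‖x‖ + 1 := by positivity
  obtain ⟨ρ, hρ, h⟩ := translate_L1 hg (div_pos hε h0)
  refine ⟨ρ, hρ, fun r hr => ?_⟩
  have h1 : E.sig r (smear E g x) = smear E (fun t => g (t - r)) x := by
    rw [sig_smear E hg]
    simp only [smear, E.sig_sig, add_comm _ r]
    exact opInt_shift (E.scb_sig x) hg r
  have h2 := hg.comp_sub_right r
  rw [h1, smear, smear, ← opInt_sub_kernel (E.scb_sig x) h2 hg]
  refine (norm_opInt_le (E.scb_sig x) (h2.sub hg)).trans ?_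
  calc _ ≤ ε / (‖x‖ + 1) * (‖x‖ + 1) :=
        mul_le_mul (h r hr) (by linarith) (norm_nonneg x) (div_pos hε h0).le
    _ = ε := div_mul_cancel₀ ε h0.ne'

theorem NCont.continuous_sig {x : H →L[ℂ] H} (h : NCont E.sig x) :
    Continuous fun t => E.sig t x := by
  refine Metric.continuous_iff.2 fun s ε hε => ?_
  obtain ⟨ρ, hρ, h1⟩ := h _ (half_pos hε)
  refine ⟨ρ, hρ, fun t ht => ?_⟩
  have h2 := h1 (t - s) ht.le
  rw [← E.norm_sig s, E.sig_sub, E.sig_sig, add_sub_cancel, ← dist_eq_norm] at h2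
  linarith

theorem mul_smear (E : SpecCalc ℝ H) {g : ℝ → ℂ} (hg : Integrable g) {p q : H →L[ℂ] H}
    (hp : ∀ t, E.U t * p = p * E.U t) (hq : ∀ t, E.U t * q = q * E.U t) (x : H →L[ℂ] H) :
    p * smear E g x * q = smear E g (p * x * q) := by
  refine (mul_opInt (E.scb_sig x) hg _ _).trans (congrArg (opInt g) (funext fun s => ?_))
  simp only [SpecCalc.sig, ← mul_assoc, hp]
  simp only [mul_assoc, hq]

theorem norm_win_le (E : SpecCalc ℝ H) {δ : ℝ} (hδ : 0 < δ) (ν : ℝ) (x : H →L[ℂ] H) :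
    ‖win E δ ν x‖ ≤ ‖x‖ := by
  have h := norm_smear_le E (fker_integrable hδ ν) x
  rwa [integral_norm_fker hδ, one_mul] at h

theorem star_win (E : SpecCalc ℝ H) {δ : ℝ} (hδ : 0 < δ) (ν : ℝ) (x : H →L[ℂ] H) :
    star (win E δ ν x) = win E δ (-ν) (star x) := by
  have h := E.scb_sig (star x)
  simp only [E.sig_star, norm_star] at h
  simp only [win, smear, star_opInt (E.scb_sig x) h (fker_integrable hδ ν), conj_fker, E.sig_star]

theorem continuous_win (E : SpecCalc ℝ H) {δ : ℝ} (hδ : 0 < δ) (x : H →L[ℂ] H) :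
    Continuous fun ν => win E δ ν x := continuous_opInt_fker (E.scb_sig x) hδ

theorem win_commute (E : SpecCalc ℝ H) {δ : ℝ} (hδ : 0 < δ) (ν : ℝ) {x T : H →L[ℂ] H}
    (h : ∀ t, T * E.sig t x = E.sig t x * T) : T * win E δ ν x = win E δ ν x * T :=
  opInt_commute (E.scb_sig x) (fker_integrable hδ ν) h

theorem trif_apply (E : SpecCalc ℝ H) {δ : ℝ} (hδ : 0 < δ) (ν : ℝ) (ξ : H) :
    E.Φ (trif δ ν) ξ = ∫ t, fker δ ν t • E.U t ξ := by
  rw [← chk_fker hδ, E.map_chk (fker_integrable hδ ν)]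

theorem tendsto_trif (E : SpecCalc ℝ H) (ξ : H) :
    Tendsto (fun n : ℕ => E.Φ (trif ((n : ℝ) + 1) 0) ξ) atTop (𝓝 ξ) := by
  have h := E.tendsto (l := atTop) (f := fun n : ℕ => trif ((n : ℝ) + 1) 0) 1
    (.of_forall fun n => ⟨(bm_trif _ _).1, norm_trif_le _ _⟩) (BM.const 1) (ξ := ξ)
    (.of_forall fun l => by
      have h1 := ((Complex.continuous_ofReal.comp tri_cont).tendsto 0).comp
        (tendsto_const_nhds (x := l - 0).div_atTop
          (tendsto_atTop_add_const_right atTop 1 tendsto_natCast_atTop_atTop))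
      have h2 : (Complex.ofReal ∘ tri) 0 = 1 := by simp [tri]
      rwa [h2] at h1)
  rwa [E.one] at h

theorem spec_unique {F : ℝ → (H →L[ℂ] H)} {K δ : ℝ} (hF : SCB F K) (hδ : 0 < δ)
    (h : ∀ ν, opInt (fker δ ν) F = 0) : F 0 = 0 := by
  ext ξ
  refine ext_inner_left ℂ fun η => ?_
  refine (fourier_unique (F := fun t => ⟪η, F t ξ⟫_ℂ) (continuous_const.inner (hF.1 ξ))
    (‖η‖ * (K * ‖ξ‖)) (fun t => (norm_inner_le_norm _ _).trans (mul_le_mul_of_nonneg_left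
      ((F t).le_of_opNorm_le (hF.2 t) ξ) (norm_nonneg η))) hδ fun ν => ?_).trans (by simp)
  rw [← inner_opInt hF (fker_integrable hδ ν), h]
  simp

/-- commuting with all windows of a fixed width forces commuting with `x` -/
theorem commute_of_win (E : SpecCalc ℝ H) {δ : ℝ} (hδ : 0 < δ) {x T : H →L[ℂ] H}
    (h : ∀ ν, T * win E δ ν x = win E δ ν x * T) : T * x = x * T := by
  have h1 := (E.scb_sig x).mul T 1
  have h2 := (E.scb_sig x).mul 1 T
  have h3 := spec_unique (F := fun t => T * E.sig t x * 1 - 1 * E.sig t x * T)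
    ⟨fun ξ => (h1.1 ξ).sub (h2.1 ξ), fun t => (norm_sub_le _ _).trans
      (add_le_add (h1.2 t) (h2.2 t))⟩ hδ fun ν => by
      have h4 := fker_integrable hδ ν
      rw [opInt_sub h1 h2 h4, ← mul_opInt (E.scb_sig x) h4, ← mul_opInt (E.scb_sig x) h4, mul_one,
        one_mul]
      exact sub_eq_zero.2 (h ν)
  simpa only [E.sig_zero, mul_one, one_mul, sub_eq_zero] using h3

theorem exists_win_ne (E : SpecCalc ℝ H) {δ : ℝ} (hδ : 0 < δ) {x : H →L[ℂ] H} (hx : x ≠ 0) :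
    ∃ ν, win E δ ν x ≠ 0 := by
  by_contra! h
  exact hx ((E.sig_zero x).symm.trans (spec_unique (E.scb_sig x) hδ h))

/-- Bessel inequality for the windows of a column contraction -/
theorem win_col (E : SpecCalc ℝ H) {δ : ℝ} (hδ : 0 < δ) (ν₀ : ℝ) {ι κ : Type} [Fintype ι]
    [Fintype κ] (n : ι → ℤ) (hn : Function.Injective n) (a : κ → (H →L[ℂ] H))
    (ha : ∀ ξ, ∑ k, ‖a k ξ‖ ^ 2 ≤ ‖ξ‖ ^ 2) (ξ : H) :
    ∑ k, ∑ i, ‖win E δ (δ * n i + ν₀) (a k) ξ‖ ^ 2 ≤ ‖ξ‖ ^ 2 := by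
  have h1 : ∀ k, Integrable fun t => δ * fej (δ * t) * ‖E.sig t (a k) ξ‖ ^ 2 := fun k =>
    (fej_scale_integrable hδ).mul_bdd (c := (‖a k‖ * ‖ξ‖) ^ 2)
      (((E.scb_sig (a k)).1 ξ).norm.pow 2).aestronglyMeasurable (.of_forall fun t => by
        rw [norm_pow, norm_norm]
        exact pow_le_pow_left₀ (norm_nonneg _)
          ((E.sig t (a k)).le_of_opNorm_le (E.norm_sig t _).le ξ) 2)
  calc _ ≤ ∑ k, ∫ t, δ * fej (δ * t) * ‖E.sig t (a k) ξ‖ ^ 2 := Finset.sum_le_sum fun k _ => by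
        simp only [win, smear_apply' E (fker_integrable hδ _)]
        exact bessel n hn hδ ν₀ ((E.scb_sig (a k)).1 ξ) _
          fun t => (E.sig t (a k)).le_of_opNorm_le (E.norm_sig t _).le ξ
    _ ≤ ∫ t, δ * fej (δ * t) * ‖ξ‖ ^ 2 := by
        rw [← integral_finsetSum _ fun k _ => h1 k]
        refine integral_mono (integrable_finsetSum _ fun k _ => h1 k)
          ((fej_scale_integrable hδ).mul_const _) fun t => ?_
        simp only [← Finset.mul_sum]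
        refine mul_le_mul_of_nonneg_left ?_ (mul_nonneg hδ.le (fej_nonneg _))
        have h2 := ha (E.U (-t) ξ)
        rw [E.norm_U_apply] at h2
        refine le_of_eq_of_le (Finset.sum_congr rfl fun k _ => ?_) h2
        rw [← E.norm_U_apply t (a k _)]
        rfl
    _ = _ := by rw [integral_mul_const, fej_scale_integral hδ, one_mul]

theorem trif_col (E : SpecCalc ℝ H) {δ : ℝ} (hδ : 0 < δ) (ν₀ : ℝ) {ι : Type} [Fintype ι]
    (n : ι → ℤ) (hn : Function.Injective n) (ξ : H) :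
    ∑ i, ‖E.Φ (trif δ (δ * n i + ν₀)) ξ‖ ^ 2 ≤ ‖ξ‖ ^ 2 := by
  have h := bessel n hn hδ ν₀ (E.continuous_U ξ) _ fun t => (E.norm_U_apply t ξ).le
  simp only [E.norm_U_apply, integral_mul_const, fej_scale_integral hδ, one_mul] at h
  simpa only [trif_apply E hδ] using h

theorem spec_null {μ : Measure ℝ} {s : Set ℝ} (h : ∀ n : ℕ, μ (s ∩ Set.Iic (n : ℝ)) = 0) :
    μ s = 0 :=
  measure_mono_null (fun l hl => (exists_nat_ge l).elim fun n hn => Set.mem_iUnion.2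
    ⟨n, Set.mem_inter hl hn⟩)
    (measure_iUnion_null h)

theorem spec_bm {s : Set ℝ} {b : ℝ} (hs : MeasurableSet s) (h : s ⊆ Set.Iic b) :
    BM (s.indicator fun l => ((Real.exp (l / 2) : ℝ) : ℂ)) :=
  BM.indicator_of_bdd (by fun_prop) hs (Real.exp (b / 2)) fun l hl => by
    rw [Complex.norm_of_nonneg (Real.exp_pos _).le]
    exact Real.exp_le_exp.2 (by linarith [Set.mem_Iic.1 (h hl)])

theorem spec_half (hE : ModD M J ζ E) {x : H →L[ℂ] H} (hx : x ∈ M) {s : Set ℝ} {b : ℝ}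
    (hs : MeasurableSet s) (h : s ⊆ Set.Iic b) :
    E.Pr s (rm J x ζ) = E.Φ (s.indicator fun l => ((Real.exp (l / 2) : ℝ) : ℂ)) (x ζ) := by
  have h1 : (fun l => s.indicator (fun _ => (1 : ℂ)) l * ((Real.exp (l / 2) : ℝ) : ℂ)) =
      s.indicator fun l => ((Real.exp (l / 2) : ℝ) : ℂ) := funext fun l => by
    by_cases hl : l ∈ s <;> simp [hl]
  rw [← h1]
  exact hE.half x hx _ (BM.indicator_one hs) (h1 ▸ spec_bm hs h)

theorem spec_rm_null (hE : ModD M J ζ E) {x : H →L[ℂ] H} (hx : x ∈ M) {s : Set ℝ}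
    (hs : MeasurableSet s) (h : E.μ (x ζ) s = 0) : E.μ (rm J x ζ) s = 0 := spec_null fun n => by
  have h1 := hs.inter (measurableSet_Iic (a := (n : ℝ)))
  rw [← E.Pr_eq_zero_iff h1, spec_half hE hx h1 Set.inter_subset_right,
    E.apply_eq_zero_iff (spec_bm h1 Set.inter_subset_right)]
  exact (measure_eq_zero_iff_ae_notMem.1 h).mono fun l hl =>
    Set.indicator_of_notMem (fun h => hl h.1) _

theorem spec_rm (hE : ModD M J ζ E) {x : H →L[ℂ] H} (hx : x ∈ M) {a b : ℝ}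
    (h : SpecIn E (x ζ) a b) :
    rm J x ζ = E.Φ ((Set.Icc a b).indicator fun l => ((Real.exp (l / 2) : ℝ) : ℂ)) (x ζ) := by
  rw [← spec_half hE hx measurableSet_Icc Set.Icc_subset_Iic_self,
    (E.Pr_eq_self_iff measurableSet_Icc _).2 (spec_rm_null hE hx measurableSet_Icc.compl h)]

theorem spec_sub (hE : ModD M J ζ E) {x : H →L[ℂ] H} (hx : x ∈ M) {a b : ℝ}
    (h : SpecIn E (x ζ) a b) (c : ℂ) : rm J x ζ - c • x ζ = E.Φ (fun l =>
      (Set.Icc a b).indicator (fun l => ((Real.exp (l / 2) : ℝ) : ℂ)) l - c) (x ζ) := by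
  rw [E.map_sub (spec_bm measurableSet_Icc Set.Icc_subset_Iic_self) (BM.const c), E.map_const,
    spec_rm hE hx h]
  rfl

namespace ModD

theorem J_U (hE : ModD M J ζ E) (t : ℝ) (ξ : H) : J (E.U t ξ) = E.U t (J ξ) := by
  refine (hE.flip _ (bm_exp t) ξ).trans ?_
  simp only [← Complex.exp_conj, map_mul, Complex.conj_I, Complex.conj_ofReal, Complex.ofReal_neg,
    map_neg, neg_mul, mul_neg, neg_neg]
  rfl

theorem cm_eq_zero_iff (hE : ModD M J ζ E) {x : H →L[ℂ] H} (hx : x ∈ M) :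
    cm J x ζ = 0 ↔ SpecIn E (x ζ) 0 0 := by
  refine ⟨fun h => spec_null fun n => ?_, fun h => ?_⟩
  · have h1 := spec_half hE hx (b := n) measurableSet_Iic subset_rfl
    have h2 := BM.indicator_one (measurableSet_Iic (a := (n : ℝ)))
    have h3 := spec_bm (b := n) measurableSet_Iic subset_rfl
    refine E.null_of_apply_eq_zero (h2.sub h3) ?_ fun l hl => ?_
    · rw [E.map_sub h2 h3, _root_.sub_apply, ← h1, ← sub_eq_zero.1 h]
      exact sub_self _
    · rw [Set.indicator_of_mem hl.2, Set.indicator_of_mem hl.2, sub_ne_zero]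
      intro h4
      have h5 : l / 2 = 0 := Real.exp_eq_one_iff _ |>.1 (by exact_mod_cast h4.symm)
      exact hl.1 ⟨by linarith, by linarith⟩
  · rw [cm, spec_rm hE hx h, E.congr_ae (spec_bm measurableSet_Icc Set.Icc_subset_Iic_self)
      (BM.const 1) (h.ae.mono fun l hl => by simp [le_antisymm hl.2 hl.1]), E.one]
    exact sub_self _

theorem U_fix (hE : ModD M J ζ E) (t : ℝ) : E.U t ζ = ζ :=
  E.U_fix_of_null ((hE.cm_eq_zero_iff (one_mem M)).1 (cm_one hE.std.stdJ.invol ζ)) t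

theorem sig_apply (hE : ModD M J ζ E) (t : ℝ) (x : H →L[ℂ] H) : E.sig t x ζ = E.U t (x ζ) :=
  congrArg (fun ξ => E.U t (x ξ)) (hE.U_fix (-t))

theorem rm_sig (hE : ModD M J ζ E) (t : ℝ) (x : H →L[ℂ] H) :
    rm J (E.sig t x) = E.sig t (rm J x) := by
  ext ξ
  rw [rm_apply, ← E.sig_star]
  change J (E.U t (star x (E.U (-t) (J ξ)))) = E.U t (J (star x (J (E.U (-t) ξ))))
  rw [hE.J_U, hE.J_U]

theorem cm_iff_U (hE : ModD M J ζ E) {x : H →L[ℂ] H} (hx : x ∈ M) :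
    cm J x ζ = 0 ↔ ∀ t, E.U t * x = x * E.U t := by
  rw [hE.cm_eq_zero_iff hx]
  refine ⟨fun h t => ?_, fun h => E.null_of_U_fix fun t => ?_⟩
  · have h1 := hE.std.sepg _ (sub_mem (hE.inv t x hx) hx) (by
      rw [_root_.sub_apply, hE.sig_apply, E.U_fix_of_null h, sub_self])
    conv_rhs => rw [← sub_eq_zero.1 h1, SpecCalc.sig, mul_assoc, E.U_neg_mul, mul_one]
  · exact (congrArg (fun T : H →L[ℂ] H => T ζ) (h t)).trans (congrArg x (hE.U_fix t))

theorem smear_mem (hE : ModD M J ζ E) {g : ℝ → ℂ} (hg : Integrable g) {x : H →L[ℂ] H}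
    (hx : x ∈ M) : smear E g x ∈ M := opInt_mem (E.scb_sig x) hg fun t => hE.inv t x hx

theorem smear_apply (hE : ModD M J ζ E) {g : ℝ → ℂ} (hg : Integrable g) (x : H →L[ℂ] H) :
    smear E g x ζ = E.Φ (chk g) (x ζ) := by
  simp only [smear_apply' E hg, hE.sig_apply, E.map_chk hg]

theorem rm_smear_apply (hE : ModD M J ζ E) {g : ℝ → ℂ} (hg : Integrable g) (x : H →L[ℂ] H) :
    rm J (smear E g x) ζ = E.Φ (chk g) (rm J x ζ) := by
  rw [← hE.smear_apply hg]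
  refine ext_inner_left ℂ fun η => ?_
  rw [inner_rm hE.std.stdJ.invol, smear, smear, inner_opInt (E.scb_sig _) hg,
    inner_opInt (E.scb_sig _) hg]
  simp only [← hE.rm_sig, inner_rm hE.std.stdJ.invol]

theorem win_mem (hE : ModD M J ζ E) {δ : ℝ} (hδ : 0 < δ) (ν : ℝ) {x : H →L[ℂ] H} (hx : x ∈ M) :
    win E δ ν x ∈ M := hE.smear_mem (fker_integrable hδ ν) hx

theorem win_apply (hE : ModD M J ζ E) {δ : ℝ} (hδ : 0 < δ) (ν : ℝ) (x : H →L[ℂ] H) :
    win E δ ν x ζ = E.Φ (trif δ ν) (x ζ) := by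
  rw [← chk_fker hδ, ← hE.smear_apply (fker_integrable hδ ν), win]

theorem rm_win_apply (hE : ModD M J ζ E) {δ : ℝ} (hδ : 0 < δ) (ν : ℝ) (x : H →L[ℂ] H) :
    rm J (win E δ ν x) ζ = E.Φ (trif δ ν) (rm J x ζ) := by
  rw [← chk_fker hδ, ← hE.rm_smear_apply (fker_integrable hδ ν), win]

theorem specIn_win (hE : ModD M J ζ E) {δ : ℝ} (hδ : 0 < δ) (ν : ℝ) (x : H →L[ℂ] H) :
    SpecIn E (win E δ ν x ζ) (ν - δ) (ν + δ) := by
  rw [hE.win_apply hδ]
  refine E.null_apply' (bm_trif δ ν) _ measurableSet_Icc.compl fun l hl => by_contra fun h => ?_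
  exact hl (Set.Ioo_subset_Icc_self ((trif_ne_zero_iff hδ ν l).1 h))

theorem win_eq_zero (hE : ModD M J ζ E) {δ : ℝ} (hδ : 0 < δ) {ν a b : ℝ} {x : H →L[ℂ] H}
    (hx : x ∈ M) (h : SpecIn E (x ζ) a b) (hν : ν + δ ≤ a ∨ b ≤ ν - δ) : win E δ ν x = 0 := by
  refine hE.std.sepg _ (hE.win_mem hδ ν hx) ?_
  rw [hE.win_apply hδ, E.apply_eq_zero_iff (bm_trif δ ν)]
  refine h.ae.mono fun l hl => by_contra fun h0 => ?_
  have h1 := (trif_ne_zero_iff hδ ν l).1 h0
  rcases hν with h2 | h2 <;> linarith [hl.1, hl.2, h1.1, h1.2]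

theorem null_of_win_eq_zero (hE : ModD M J ζ E) {δ : ℝ} (hδ : 0 < δ) {ν : ℝ} {x : H →L[ℂ] H}
    (h : win E δ ν x = 0) : E.μ (x ζ) (Set.Ioo (ν - δ) (ν + δ)) = 0 :=
  E.null_of_apply_eq_zero (bm_trif δ ν) (by rw [← hE.win_apply hδ, h]; rfl)
    fun l hl => (trif_ne_zero_iff hδ ν l).2 hl

theorem win_corner (hE : ModD M J ζ E) {δ : ℝ} (hδ : 0 < δ) (ν : ℝ) {p q x : H →L[ℂ] H}
    (hp : Cent M J ζ p) (hq : Cent M J ζ q) (hx : p * x * q = x) :
    p * win E δ ν x * q = win E δ ν x := by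
  rw [win, mul_smear E (fker_integrable hδ ν) ((hE.cm_iff_U hp.1).1 hp.2.2)
    ((hE.cm_iff_U hq.1).1 hq.2.2), hx]

theorem norm_star_le (hE : ModD M J ζ E) {x : H →L[ℂ] H} (hx : x ∈ M) {a b : ℝ}
    (h : SpecIn E (x ζ) a b) : ‖(star x) ζ‖ ≤ Real.exp (b / 2) * ‖x ζ‖ := by
  rw [← norm_rm_apply x hE.std.fix, spec_rm hE hx h]
  refine E.norm_apply_le (spec_bm measurableSet_Icc Set.Icc_subset_Iic_self) (Real.exp_pos _).le
    (h.ae.mono fun l hl => ?_)
  rw [Set.indicator_of_mem (Set.mem_Icc.2 hl), Complex.norm_of_nonneg (Real.exp_pos _).le]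
  exact Real.exp_le_exp.2 (by linarith [hl.2])

theorem le_norm_star (hE : ModD M J ζ E) {x : H →L[ℂ] H} (hx : x ∈ M) {a b : ℝ}
    (h : SpecIn E (x ζ) a b) : Real.exp (a / 2) * ‖x ζ‖ ≤ ‖(star x) ζ‖ := by
  rw [← norm_rm_apply x hE.std.fix, spec_rm hE hx h]
  refine E.le_norm_apply (spec_bm measurableSet_Icc Set.Icc_subset_Iic_self)
    (h.ae.mono fun l hl => ?_)
  rw [Set.indicator_of_mem (Set.mem_Icc.2 hl), Complex.norm_of_nonneg (Real.exp_pos _).le]
  exact Real.exp_le_exp.2 (by linarith [hl.1])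

theorem eig_bound (hE : ModD M J ζ E) {x : H →L[ℂ] H} (hx : x ∈ M) {l δ : ℝ} (hδ : 0 ≤ δ)
    (h : SpecIn E (x ζ) (l - δ) (l + δ)) :
    ‖rm J x ζ - ((Real.exp (l / 2) : ℝ) : ℂ) • x ζ‖ ≤
      Real.exp (l / 2) * (Real.exp (δ / 2) - 1) * ‖x ζ‖ := by
  have h1 := Real.add_one_le_exp (δ / 2)
  have h2 := Real.exp_pos (l / 2)
  rw [spec_sub hE hx h]
  refine E.norm_apply_le ((spec_bm measurableSet_Icc Set.Icc_subset_Iic_self).sub (BM.const _))
    (mul_nonneg h2.le (by linarith)) (h.ae.mono fun m hm => ?_)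
  have h3 : Real.exp (m / 2) = Real.exp (l / 2) * Real.exp ((m - l) / 2) := by
    rw [← Real.exp_add]
    congr 1
    ring
  have h4 := Real.add_one_le_exp ((m - l) / 2)
  have h5 : Real.exp ((m - l) / 2) ≤ Real.exp (δ / 2) := Real.exp_le_exp.2 (by linarith [hm.2])
  rw [Set.indicator_of_mem (Set.mem_Icc.2 hm), ← Complex.ofReal_sub, Complex.norm_real,
    Real.norm_eq_abs, h3, ← mul_sub_one, abs_mul, abs_of_pos h2]
  exact mul_le_mul_of_nonneg_left (abs_le.2 ⟨by linarith [hm.1], by linarith⟩) h2.le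

theorem inner_lower (hE : ModD M J ζ E) {x : H →L[ℂ] H} (hx : x ∈ M) {a b : ℝ}
    (h : SpecIn E (x ζ) a b) : Real.exp (a / 2) * ‖x ζ‖ ^ 2 ≤ (⟪x ζ, rm J x ζ⟫_ℂ).re := by
  have h1 : 0 ≤ ⟪x ζ, rm J x ζ - ((Real.exp (a / 2) : ℝ) : ℂ) • x ζ⟫_ℂ := by
    rw [spec_sub hE hx h,
      E.inner _ ((spec_bm measurableSet_Icc Set.Icc_subset_Iic_self).sub (BM.const _))]
    refine integral_nonneg_of_ae (h.ae.mono fun l hl => ?_)
    simp only [Set.indicator_of_mem (Set.mem_Icc.2 hl), Pi.zero_apply, sub_nonneg,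
      Complex.real_le_real]
    exact Real.exp_le_exp.2 (by linarith [hl.1])
  rw [inner_sub_right, inner_smul_right, inner_self_eq_norm_sq_to_K, sub_nonneg] at h1
  refine le_of_eq_of_le ?_ (Complex.le_def.1 h1).1
  rw [Complex.re_ofReal_mul]
  exact congrArg _ ((Complex.ofReal_re _).symm.trans (congrArg _ (Complex.ofReal_pow _ 2)))

theorem specIn_star (hE : ModD M J ζ E) {x : H →L[ℂ] H} (hx : x ∈ M) {a b : ℝ}
    (h : SpecIn E (x ζ) a b) : SpecIn E ((star x) ζ) (-b) (-a) := by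
  have h1 := BM.indicator_one (measurableSet_Icc (a := a) (b := b)).compl
  have h2 := hE.flip _ h1 (rm J x ζ)
  rw [J_rm hE.std.stdJ.invol, hE.std.fix] at h2
  refine E.null_of_apply_eq_zero (h1.comp measurable_neg).star (h2.symm.trans ?_) fun l hl => ?_
  · exact (congrArg J ((E.Pr_eq_zero_iff measurableSet_Icc.compl _).2 (spec_rm_null hE hx
      measurableSet_Icc.compl h))).trans (map_zero J)
  · rw [Set.indicator_of_mem (s := (Set.Icc a b)ᶜ) fun h => hl ⟨by linarith [h.2], by linarith [h.1]⟩]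
    simp

end ModD

end Pool.Agent.P.MP_5d580a_an
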