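import Pool.Agent.P.MP_5d580a_an.Patch
import Pool.Agent.P.MP_5d580a_an.Change

open scoped ComplexOrder InnerProductSpace ComplexConjugate BoundedContinuousFunction
open MeasureTheory Filter Topology

set_option linter.unusedSectionVars false
set_option linter.unusedVariables false

noncomputable section

namespace Pool.Agent.P.MP_5d580a_an

variable {H : Type} [NormedAddCommGroup H] [InnerProductSpace ℂ H] [CompleteSpace H]

variable {M : VonNeumannAlgebra H} {J : H ≃ₗᵢ⋆[ℂ] H} {ζ : H}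

theorem exists_isometry_eq (hM : IsFactor M) (h : StdV M J ζ) (hF : Full M J ζ) {e : H →L[ℂ] H}
    (he : e ∈ M) (hp : IsStarProjection e) (he0 : e ≠ 0) :
    ∃ w ∈ M, star w * w = 1 ∧ w * star w = e := by
  have h₂ := h.pinch he hp
  have h3 : 0 < ‖e (pinch J e ζ)‖ := norm_pos_iff.2 fun h0 => he0 (h₂.sepg e he h0)
  have hz := norm_nonneg ζ
  have ht : 0 < ‖e (pinch J e ζ)‖ / (2 * ‖ζ‖ + 1) := by positivity
  obtain ⟨v, hv, h1, h2, -⟩ := cs_isometry hM (h.smul ht) h₂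
    (cpos_of_cone h.stdJ h.pos (cone_smul h.stdJ ht.le (cone_self h.stdJ))
      (cone_pinch h.stdJ he hp (cone_self h.stdJ))) (hF.smul ht)
    ⟨he, hp, cm_pinch h.stdJ he hp ζ⟩ one_pos (by
      rw [norm_smul, Complex.norm_real, Real.norm_of_nonneg ht.le, div_mul_eq_mul_div, ← mul_div_assoc,
        div_lt_iff₀ (by positivity)]
      nlinarith)
  exact exists_isometry_range he hp hv h1 h2

theorem three_one_ne (h0 : ζ ≠ 0) : (1 : H →L[ℂ] H) ≠ 0 := fun h => h0 (DFunLike.congr_fun h ζ)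

theorem exists_cuntz (hM : IsFactor M) (h : StdV M J ζ) (hF : Full M J ζ) (h0 : ζ ≠ 0) :
    ∃ u ∈ M, ∃ v ∈ M, star u * u = 1 ∧ star v * v = 1 ∧ star u * v = 0 := by
  obtain ⟨e, he, hp, h1, h2⟩ : ∃ e ∈ M, IsStarProjection e ∧ e ≠ 0 ∧ e ≠ 1 := by
    by_contra hc
    have hs : ∀ p ∈ M, IsStarProjection p → p = 0 ∨ p = 1 := fun p hp hp' => by
      by_contra hn
      exact hc ⟨p, hp, hp', fun e => hn (Or.inl e), fun e => hn (Or.inr e)⟩
    have h1 : 1 < Real.exp (1 / 2) := Real.one_lt_exp_iff.2 one_half_pos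
    obtain ⟨x, hx, -, hx0, hl⟩ := hF 1 (Cent.one h.stdJ) (three_one_ne h0) 1
      ((Real.exp (1 / 2) - 1) / 2) (by linarith)
    obtain ⟨a, ha, b, hb, sa, sb, -, -, e, -⟩ := exists_re_im hx
    obtain ⟨s, rfl⟩ := scalar_of_proj hs ha sa
    obtain ⟨t, rfl⟩ := scalar_of_proj hs hb sb
    have h2 : rm J x = x := by
      rw [e, rm_add, rm_smul, rm_smul, rm_smul, rm_one h.stdJ.invol]
    have h3 : 0 < ‖x ζ‖ := norm_pos_iff.2 fun h0 => hx0 (h.sepg x hx h0)
    have h4 : x ζ - ((Real.exp (1 / 2) : ℝ) : ℂ) • x ζ = ((1 - Real.exp (1 / 2) : ℝ) : ℂ) • x ζ := by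
      rw [Complex.ofReal_sub, sub_smul, Complex.ofReal_one, one_smul]
    rw [h2, h4, norm_smul, Complex.norm_real, Real.norm_of_nonpos (by linarith)] at hl
    nlinarith
  obtain ⟨u, hu, u1, u2⟩ := exists_isometry_eq hM h hF he hp h1
  obtain ⟨v, hv, v1, v2⟩ := exists_isometry_eq hM h hF (sub_mem (one_mem M) he) hp.one_sub
    (sub_ne_zero.2 h2.symm)
  refine ⟨u, hu, v, hv, u1, v1, ?_⟩
  calc star u * v = star u * u * star u * (v * (star v * v)) := by rw [u1, v1, one_mul, mul_one]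
    _ = star u * (u * star u * (v * star v)) * v := by simp only [mul_assoc]
    _ = 0 := by rw [u2, v2, hp.mul_one_sub_self, mul_zero, zero_mul]

theorem three_pow {u v : H →L[ℂ] H} (u1 : star u * u = 1) (v1 : star v * v = 1)
    (uv : star u * v = 0) (m n : ℕ) :
    star (u ^ m * v) * (u ^ n * v) = if m = n then 1 else 0 := by
  have vu : star v * u = 0 := by rw [← star_star u, ← star_mul, uv, star_zero]
  induction m generalizing n with
  | zero =>
    rcases n with _ | n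
    · simpa using v1
    · rw [pow_zero, one_mul, pow_succ', mul_assoc, ← mul_assoc, vu, zero_mul, if_neg (by omega)]
  | succ m ih =>
    rcases n with _ | n
    · rw [pow_zero, one_mul, pow_succ', mul_assoc, star_mul, mul_assoc, uv, mul_zero,
        if_neg (by omega)]
    · rw [pow_succ', pow_succ', mul_assoc u, mul_assoc u, star_mul u, mul_assoc,
        ← mul_assoc (star u), u1, one_mul, ih]
      simp only [Nat.add_right_cancel_iff]

theorem three_ad_smul (t : ℝ) (a : H →L[ℂ] H) (ξ : H) :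
    ad J ((t : ℂ) • a) ξ = ((t * t : ℝ) : ℂ) • ad J a ξ := by
  rw [ad, ad, star_smul, rm_smul, Complex.star_def, Complex.conj_ofReal, Complex.ofReal_mul, mul_smul]
  simp only [smul_apply, map_smul]

theorem three_ad_ite (hJ : StdJ M J) (p : Prop) [Decidable p] (ξ : H) :
    ad J (if p then 1 else 0) ξ = if p then ξ else 0 := by
  split_ifs
  · rw [ad, star_one, rm_one hJ.invol]; rfl
  · rfl

theorem eigFam (hM : IsFactor M) (h : StdV M J ζ) (hF : Full M J ζ) (h1 : ‖ζ‖ = 1) :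
    EigFam M J ζ := by
  classical
  intro ι _ s hs δ hδ
  have hJ := h.stdJ
  obtain ⟨u, hu, v, hv, u1, v1, uv⟩ := exists_cuntz hM h hF (norm_ne_zero_iff.1 (h1 ▸ one_ne_zero))
  obtain ⟨r, rM, rr⟩ : ∃ r : ι → H →L[ℂ] H, (∀ i, r i ∈ M) ∧
      ∀ i j, star (r i) * r j = if i = j then 1 else 0 :=
    ⟨fun i => u ^ (Fintype.equivFin ι i : ℕ) * v, fun i => mul_mem (pow_mem hu _) hv, fun i j => by
      rw [three_pow u1 v1 uv]
      simp only [Fin.val_inj, EmbeddingLike.apply_eq_iff_eq]⟩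
  have r1 : ∀ i, star (r i) * r i = 1 := fun i => by rw [rr, if_pos rfl]
  obtain ⟨k, k0, k1, k2⟩ : ∃ k : ℝ, 0 < k ∧ k ≤ 1 / 4 ∧ k ≤ δ / 5 :=
    ⟨min (1 / 4) (δ / 5), by positivity, min_le_left _ _, min_le_right _ _⟩
  let a : Option ι → H →L[ℂ] H := fun o =>
    o.elim (((√k : ℝ) : ℂ) • 1) fun i => ((Real.exp (s i / 4) : ℝ) : ℂ) • r i
  have aM : ∀ o, a o ∈ M := by
    rintro (_ | i)
    exacts [vn_smul_mem _ (one_mem M), vn_smul_mem _ (rM i)]
  have hξ := std_sum_ad h a aM fun x _ hx => by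
    have h2 : x * (((√k : ℝ) : ℂ) • 1) = 0 := hx none
    rw [mul_smul_comm, mul_one] at h2
    exact (smul_eq_zero.1 h2).resolve_left (Complex.ofReal_ne_zero.2 (Real.sqrt_pos.2 k0).ne')
  have hc : ∑ o, ad J (a o) ζ ∈ Cone M J ζ :=
    cone_sum _ fun o _ => cone_ad hJ (aM o) (cone_self hJ)
  have e1 : ∑ o, ad J (a o) ζ =
      (k : ℂ) • ζ + ∑ i, ((Real.exp (s i / 2) : ℝ) : ℂ) • ad J (r i) ζ := by
    rw [Fintype.sum_option]
    refine congrArg₂ _ ?_ (Finset.sum_congr rfl fun i _ => ?_)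
    · show ad J (((√k : ℝ) : ℂ) • 1) ζ = _
      rw [three_ad_smul, Real.mul_self_sqrt k0.le, ad, star_one, rm_one hJ.invol]; rfl
    · show ad J (((Real.exp (s i / 4) : ℝ) : ℂ) • r i) ζ = _
      rw [three_ad_smul, ← Real.exp_add, show s i / 4 + s i / 4 = s i / 2 by ring]
  rw [e1] at hξ hc
  have on : Orthonormal ℂ fun i => ad J (r i) ζ := orthonormal_iff_ite.2 fun i j => by
    rw [inner_ad hJ (rM i), ← ad_mul hJ (star_mem (rM i)) (rM j), rr, three_ad_ite hJ]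
    split_ifs
    · rw [inner_self_eq_norm_sq_to_K, h1]; simp
    · exact inner_zero_right _
  have n1 : ‖∑ i, ((Real.exp (s i / 2) : ℝ) : ℂ) • ad J (r i) ζ‖ ≤ 1 := by
    have h2 := on.inner_sum (fun i => ((Real.exp (s i / 2) : ℝ) : ℂ))
      (fun i => ((Real.exp (s i / 2) : ℝ) : ℂ)) Finset.univ
    simp only [Complex.conj_ofReal, ← Complex.ofReal_mul, ← Real.exp_add, add_halves,
      ← Complex.ofReal_sum] at h2
    have h3 := inner_self_eq_norm_sq (𝕜 := ℂ)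
      (∑ i, ((Real.exp (s i / 2) : ℝ) : ℂ) • ad J (r i) ζ)
    rw [h2] at h3
    exact (pow_le_one_iff_of_nonneg (norm_nonneg _) two_ne_zero).1 (h3 ▸ hs)
  have e2 : ∀ j, rm J (r j) (∑ i, ((Real.exp (s i / 2) : ℝ) : ℂ) • ad J (r i) ζ) =
      ((Real.exp (s j / 2) : ℝ) : ℂ) • r j ζ := by
    intro j
    have h2 : ∀ i, rm J (r j) (ad J (r i) ζ) = if i = j then r i ζ else 0 := fun i => by
      have h3 := DFunLike.congr_fun (rm_mul hJ.invol (star (r i)) (r j)) ζ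
      rw [ad, ← hJ.comm_apply (rM i) (rM j)]
      refine (congrArg (r i) h3.symm).trans ?_
      rw [rr]
      split_ifs
      · rw [rm_one hJ.invol]; rfl
      · rw [rm_zero]; exact map_zero _
    simp only [map_sum, map_smul, h2, smul_ite, smul_zero, Finset.sum_ite_eq', Finset.mem_univ,
      if_true]
  generalize ∑ i, ((Real.exp (s i / 2) : ℝ) : ℂ) • ad J (r i) ζ = η at hξ hc n1 e2
  have ht : 0 < 1 - 3 * k := by linarith
  have hc' := cone_smul hJ ht.le hc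
  have n2 : (1 + k) * ‖((1 - 3 * k : ℝ) : ℂ) • ((k : ℂ) • ζ + η)‖ < 1 := by
    have h2 := norm_add_le ((k : ℂ) • ζ) η
    rw [norm_smul, Complex.norm_real, Real.norm_of_nonneg k0.le, h1, mul_one] at h2
    rw [norm_smul, Complex.norm_real, Real.norm_of_nonneg ht.le]
    calc _ ≤ (1 + k) * ((1 - 3 * k) * (k + 1)) := by gcongr; linarith
      _ < 1 := by nlinarith [mul_pos k0 k0, mul_pos k0 (mul_pos k0 k0)]
  obtain ⟨V, VM, V1, -, V2⟩ := cs_isometry hM (hξ.smul ht) h (cpos_of_cone hJ h.pos hc' (cone_self hJ))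
    (full_of_cone hM h hF hc' (hξ.smul ht)) (Cent.one hJ) k0 (n2.trans_eq h1.symm)
  have w1 : ∀ i j, star (V * r i) * (V * r j) = if i = j then 1 else 0 := fun i j => by
    rw [star_mul, mul_assoc, ← mul_assoc (star V), V1, one_mul, rr]
  have w2 : ∀ i, star (V * r i) * (V * r i) = 1 := fun i => by rw [w1, if_pos rfl]
  refine ⟨fun i => V * r i, fun i => ⟨mul_mem VM (rM i), iso_norm_le (w2 i), ?_⟩, w2,
    fun i j hij => by rw [w1, if_neg hij]⟩
  have n3 : ∀ ξ, ‖rm J (r i) ξ‖ ≤ ‖ξ‖ := fun ξ => by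
    simpa using (rm J (r i)).le_of_opNorm_le ((norm_rm _).trans_le (iso_norm_le (r1 i))) ξ
  have n4 : Real.exp (s i / 2) ≤ 1 := by
    have h2 := (Finset.single_le_sum (f := fun i => Real.exp (s i))
      (fun i _ => (Real.exp_pos _).le) (Finset.mem_univ i)).trans hs
    rw [Real.exp_le_one_iff] at h2 ⊢
    linarith
  have e3 : rm J (V * r i) ζ - ((Real.exp (s i / 2) : ℝ) : ℂ) • (V * r i) ζ =
      (((1 - 3 * k) * k : ℝ) : ℂ) • V (rm J (r i) ζ) -
        rm J (r i) (V (((1 - 3 * k : ℝ) : ℂ) • ((k : ℂ) • ζ + η)) - rm J V ζ) -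
        ((3 * k * Real.exp (s i / 2) : ℝ) : ℂ) • (V * r i) ζ := by
    rw [rm_mul hJ.invol, map_sub, ← hJ.comm_apply VM (rM i)]
    simp only [map_smul, map_add, e2, mul_apply_eq_comp]
    push_cast
    module
  rw [e3]
  refine (norm_sub_le _ _).trans ((add_le_add_left (norm_sub_le _ _) _).trans ?_)
  have n5 := (n3 _).trans V2
  have n6 := n3 ζ
  have n7 := Real.exp_pos (s i / 2)
  rw [norm_smul, norm_smul, Complex.norm_real, Complex.norm_real, iso_norm_apply V1,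
    iso_norm_apply (w2 i), Real.norm_of_nonneg (by positivity), Real.norm_of_nonneg (by positivity),
    h1]
  rw [h1] at n6
  generalize ‖((1 - 3 * k : ℝ) : ℂ) • ((k : ℂ) • ζ + η)‖ = N at n2 n5
  have n8 : k * N ≤ k := by
    by_cases hN : N ≤ 1
    · exact mul_le_of_le_one_right k0.le hN
    · nlinarith
  have n9 : (1 - 3 * k) * k * ‖rm J (r i) ζ‖ ≤ k := by
    calc _ ≤ 1 * k * 1 := by gcongr; linarith
      _ = k := by ring
  nlinarith

theorem csv (hM : IsFactor M) (h : StdV M J ζ) (hF : Full M J ζ) (h1 : ‖ζ‖ = 1) (ξ : H) {t ε : ℝ}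
    (ht : 0 ≤ t) (hlt : t < ‖ξ‖) (hε : 0 < ε) :
    ∃ v ∈ M, star v * v = 1 ∧ ∃ y ∈ M.commutant, ‖y‖ ≤ 1 ∧ ‖(t : ℂ) • v ζ - y ξ‖ ≤ ε := by
  have hJ := h.stdJ
  rcases ht.eq_or_lt with rfl | ht
  · exact ⟨1, one_mem M, by simp, 0, zero_mem _, by simp, by simpa using hε.le⟩
  obtain ⟨d, d0, d1, d2⟩ : ∃ d : ℝ, 0 < d ∧ d ≤ ε / 4 ∧ d ≤ (‖ξ‖ - t) / 4 :=
    ⟨min (ε / 4) ((‖ξ‖ - t) / 4), lt_min (by positivity) (by linarith), min_le_left _ _,
      min_le_right _ _⟩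
  obtain ⟨_, ⟨b, hb, rfl⟩, b1⟩ := h.cyc'.exists_dist_lt ξ d0
  rw [dist_eq_norm] at b1
  obtain ⟨g, a, -, a0, a1, a2, a3, -, a4⟩ := exists_cutdown b d0
  have a5 := fun S (hS : S ∈ M) => a2 S (commute_of_mem hS (mul_mem (star_mem hb) hb))
  have gM : g ∈ M.commutant := VonNeumannAlgebra.mem_commutant_iff.2 fun S hS => (a5 S hS).1
  have aM : a ∈ M.commutant := VonNeumannAlgebra.mem_commutant_iff.2 fun S hS => (a5 S hS).2
  have n1 : ‖a ζ‖ = ‖b ζ‖ := by
    refine (sq_eq_sq₀ (norm_nonneg _) (norm_nonneg _)).1 ?_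
    rw [norm_sq_apply, norm_sq_apply, (IsSelfAdjoint.of_nonneg a0).star_eq, a1]
  obtain ⟨c, -, -, c1, c2, -⟩ := exists_inv_one_add (x := ((d⁻¹ : ℝ) : ℂ) • a)
    (smul_nonneg (Complex.zero_le_real.2 (inv_pos.2 d0).le) a0)
  have hd : (d : ℂ) ≠ 0 := Complex.ofReal_ne_zero.2 d0.ne'
  obtain ⟨B, hB, B1, B2, B3⟩ : ∃ B ∈ M.commutant, B ζ = a ζ + (d : ℂ) • ζ ∧ Function.Injective B ∧
      Function.Surjective B := by
    refine ⟨(d : ℂ) • (1 + ((d⁻¹ : ℝ) : ℂ) • a),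
      vn_smul_mem _ (add_mem (one_mem _) (vn_smul_mem _ aM)), ?_, fun x y e => ?_, fun y => ?_⟩
    · show (d : ℂ) • (ζ + ((d⁻¹ : ℝ) : ℂ) • a ζ) = _
      rw [smul_add, Complex.ofReal_inv, smul_inv_smul₀ hd, add_comm]
    · exact (DFunLike.congr_fun c1 x).symm.trans
        ((congrArg c (smul_right_injective H hd e)).trans (DFunLike.congr_fun c1 y))
    · refine ⟨c ((d : ℂ)⁻¹ • y), ?_⟩
      exact (congrArg ((d : ℂ) • ·) (DFunLike.congr_fun c2 _)).trans (smul_inv_smul₀ hd y)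
  have hc : Cyc M (B ζ) := (B3.denseRange.dense_image B.continuous h.cyc).mono (by
    rintro _ ⟨_, ⟨x, hx, rfl⟩, rfl⟩
    exact ⟨x, hx, (commute_apply hx hB ζ).symm⟩)
  have hs : Sepg M (B ζ) := fun x hx e => h.sepg x hx (B2 (by
    rw [← commute_apply hx hB ζ, e, map_zero]))
  obtain ⟨u, hu, u1, u2, u3⟩ := std_change h hc hs
  have u4 : star u * u = 1 := u1.1
  have n2 : ‖B ζ - a ζ‖ = d := by
    rw [B1, add_sub_cancel_left, norm_smul, Complex.norm_real, Real.norm_of_nonneg d0.le, h1, mul_one]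
  have n3 : ‖(t : ℂ) • ζ‖ = t := by
    rw [norm_smul, Complex.norm_real, Real.norm_of_nonneg ht.le, h1, mul_one]
  have n4 : d / t * ‖(t : ℂ) • ζ‖ = d := by rw [n3, div_mul_cancel₀ _ ht.ne']
  obtain ⟨v, hv, v1, -, v2⟩ := cs_isometry hM (h.smul ht) u2
    (by simpa using u3.smul ht.le zero_le_one) (hF.smul ht) (Cent.one hJ) (div_pos d0 ht) (by
      rw [add_mul, n4, n3, one_mul]
      show _ < ‖u (B ζ)‖
      rw [iso_norm_apply u4]
      linarith [norm_sub_norm_le ξ (b ζ), norm_sub_norm_le (a ζ) (B ζ), norm_sub_rev (a ζ) (B ζ)])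
  have n5 : ‖rm J v‖ ≤ 1 := (norm_rm v).trans_le (iso_norm_le v1)
  have n6 : ‖star (b * g)‖ ≤ 1 := (norm_star _).trans_le (piso_norm_le a3)
  refine ⟨v, hv, v1, rm J v * u * star (b * g),
    mul_mem (mul_mem (hJ.mem v hv) hu) (star_mem (mul_mem hb gM)), ?_, ?_⟩
  · exact (norm_mul_le _ _).trans (mul_le_one₀ ((norm_mul_le _ _).trans
      (mul_le_one₀ n5 (norm_nonneg _) (iso_norm_le u4))) (norm_nonneg _) n6)
  · have e : (t : ℂ) • v ζ - (rm J v * u * star (b * g)) ξ = v ((t : ℂ) • ζ) - rm J v (u (B ζ)) +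
        rm J v (u (B ζ - a ζ - (star (b * g) * b - a) ζ - star (b * g) (ξ - b ζ))) := by
      simp only [map_smul, map_sub, mul_apply_eq_comp, sub_apply]
      abel
    have n7 := (star (b * g) * b - a).le_of_opNorm_le a4 ζ
    have n8 := (star (b * g)).le_of_opNorm_le n6 (ξ - b ζ)
    have n9 := (rm J v).le_of_opNorm_le n5
      (u (B ζ - a ζ - (star (b * g) * b - a) ζ - star (b * g) (ξ - b ζ)))
    rw [iso_norm_apply u4] at n9
    rw [h1] at n7
    rw [e]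
    linarith [norm_add_le (v ((t : ℂ) • ζ) - rm J v (u (B ζ)))
      (rm J v (u (B ζ - a ζ - (star (b * g) * b - a) ζ - star (b * g) (ξ - b ζ)))),
      norm_sub_le (B ζ - a ζ - (star (b * g) * b - a) ζ) (star (b * g) (ξ - b ζ)),
      norm_sub_le (B ζ - a ζ) ((star (b * g) * b - a) ζ)]

theorem caseOne (hM : IsFactor M) (h : StdV M J ζ) (hF : Full M J ζ) (h0 : ζ ≠ 0) :
    CaseOne M ζ := by
  refine ⟨exists_cuntz hM h hF h0, fun ξ ε hε => ?_⟩
  rcases eq_or_ne ξ 0 with rfl | hξ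
  · exact ⟨0, zero_mem _, 0, zero_mem _, by simp, by simp, by simpa using hε.le⟩
  have h1 := norm_pos_iff.2 h0
  have h2 := norm_pos_iff.2 hξ
  obtain ⟨v, hv, v1, y, hy, y1, y2⟩ := csv hM (h.smul (inv_pos.2 h1)) (hF.smul (inv_pos.2 h1)) (by
    rw [norm_smul, Complex.norm_real, Real.norm_of_nonneg (inv_pos.2 h1).le, inv_mul_cancel₀ h1.ne'])
    ξ (half_pos h2).le (half_lt_self h2) hε
  have n1 : ‖star v‖ ≤ 1 := (norm_star v).trans_le (iso_norm_le v1)
  refine ⟨star v, star_mem hv, y, hy, n1, y1, ?_⟩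
  have n2 := (star v).le_of_opNorm_le n1
    (((‖ξ‖ / 2 : ℝ) : ℂ) • v (((‖ζ‖⁻¹ : ℝ) : ℂ) • ζ) - y ξ)
  have e : star v (v (((‖ζ‖⁻¹ : ℝ) : ℂ) • ζ)) = ((‖ζ‖⁻¹ : ℝ) : ℂ) • ζ := DFunLike.congr_fun v1 _
  rw [map_sub, map_smul, e, smul_smul, ← Complex.ofReal_mul, ← div_eq_mul_inv, div_div,
    norm_sub_rev] at n2
  linarith

end Pool.Agent.P.MP_5d580a_an
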