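import Pool.Agent.P.MP_5d580a_an.Connes
import Pool.Agent.P.MP_5d580a_an.Amp
import Pool.Agent.P.MP_5d580a_an.Cut

open scoped ComplexOrder InnerProductSpace ComplexConjugate BoundedContinuousFunction
open MeasureTheory Filter Topology

set_option linter.unusedSectionVars false
set_option linter.unusedVariables false

noncomputable section

namespace Pool.Agent.P.MP_5d580a_an

variable {H : Type} [NormedAddCommGroup H] [InnerProductSpace ℂ H] [CompleteSpace H]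

namespace TransAux

variable {ι : Type} [Fintype ι] [DecidableEq ι] {M : VonNeumannAlgebra H} {J : H ≃ₗᵢ⋆[ℂ] H}

/-- matrix with a single entry -/
def E (i j : ι) (x : H →L[ℂ] H) : HM ι H →L[ℂ] HM ι H :=
  mat fun k l => if k = i ∧ l = j then x else 0

theorem E_mem (i j : ι) {x : H →L[ℂ] H} (hx : x ∈ M) : E i j x ∈ amp ι M := by
  refine mem_amp.2 ⟨_, fun k l => ?_, rfl⟩
  split_ifs
  · exact hx
  · exact zero_mem _

theorem E_mul_mat_mul_E (i j : ι) (p q : H →L[ℂ] H) (a : ι → ι → (H →L[ℂ] H)) :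
    E i i p * mat a * E j j q = E i j (p * a i j * q) := by
  unfold E
  rw [mat_mul, mat_mul]
  congr 1
  funext k l
  by_cases hk : k = i
  · by_cases hl : l = j
    · subst hk; subst hl
      simp
    · simp [hl]
  · simp [hk]

theorem E_mul_E (i j l : ι) (x y : H →L[ℂ] H) : E i j x * E j l y = E i l (x * y) := by
  unfold E
  rw [mat_mul]
  congr 1
  funext k m
  by_cases hk : k = i
  · by_cases hm : m = l
    · subst hk; subst hm
      simp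
    · simp [hm]
  · simp [hk]

theorem E_mul_E_ne (i j k l : ι) (h : j ≠ k) (x y : H →L[ℂ] H) : E i j x * E k l y = 0 := by
  unfold E
  rw [mat_mul, ← mat_zero]
  congr 1
  funext a b
  refine Finset.sum_eq_zero fun c _ => ?_
  by_cases hc : c = j
  · have : c ≠ k := hc ▸ h
    simp [this]
  · simp [hc]

theorem star_E (i j : ι) (x : H →L[ℂ] H) : star (E i j x) = E j i (star x) := by
  unfold E
  rw [star_mat]
  congr 1
  funext k l
  by_cases h : l = i ∧ k = j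
  · rw [if_pos h, if_pos h.symm]
  · rw [if_neg h, if_neg (fun h' => h h'.symm), star_zero]

theorem E_inj (i j : ι) {x y : H →L[ℂ] H} (h : E i j x = E i j y) : x = y := by
  have := congrFun (congrFun (mat_injective h) i) j
  simpa using this

theorem E_zero (i j : ι) : E i j (0 : H →L[ℂ] H) = 0 := by
  unfold E
  rw [← mat_zero]
  congr 1
  funext k l
  simp

theorem E_ne_zero (i j : ι) {x : H →L[ℂ] H} (hx : x ≠ 0) : E i j x ≠ 0 := fun h =>
  hx (E_inj i j (h.trans (E_zero i j).symm))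

theorem E_dvec (i j : ι) (x : H →L[ℂ] H) (ζ : ι → H) :
    E i j x (dvec ζ) = inj i j (x (ζ j)) := by
  refine hm_ext fun k l => ?_
  unfold E
  rw [prj_mat_dvec, prj_inj]
  by_cases h : k = i ∧ l = j
  · rw [if_pos h, if_pos h, h.2]
  · rw [if_neg h, if_neg h]; rfl

theorem rm_E_dvec (i j : ι) (x : H →L[ℂ] H) (ζ : ι → H) :
    rm (ampJ ι J) (E i j x) (dvec ζ) = inj i j (rm J x (ζ i)) := by
  refine hm_ext fun k l => ?_
  unfold E
  rw [prj_rm_mat_dvec, prj_inj]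
  by_cases h : k = i ∧ l = j
  · rw [if_pos h, if_pos h, h.1]
  · rw [if_neg h, if_neg h, rm_zero]; rfl

theorem cm_E_dvec (i j : ι) (x : H →L[ℂ] H) (ζ : ι → H) :
    cm (ampJ ι J) (E i j x) (dvec ζ) = inj i j (x (ζ j) - rm J x (ζ i)) := by
  unfold cm
  rw [E_dvec, rm_E_dvec, map_sub]

theorem cent_E (i : ι) {p : H →L[ℂ] H} {ζ : ι → H} (hp : Cent M J (ζ i) p) :
    Cent (amp ι M) (ampJ ι J) (dvec ζ) (E i i p) := by
  refine ⟨E_mem i i hp.1, ⟨?_, ?_⟩, ?_⟩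
  · unfold IsIdempotentElem
    rw [E_mul_E, hp.2.1.isIdempotentElem.eq]
  · unfold IsSelfAdjoint
    rw [star_E, hp.2.1.isSelfAdjoint.star_eq]
  · rw [cm_E_dvec]
    have : p (ζ i) - rm J p (ζ i) = 0 := hp.2.2
    rw [this, map_zero]

theorem cent_of_E (i : ι) {p : H →L[ℂ] H} (hM : p ∈ M) {ζ : ι → H}
    (hp : Cent (amp ι M) (ampJ ι J) (dvec ζ) (E i i p)) : Cent M J (ζ i) p := by
  refine ⟨hM, ⟨?_, ?_⟩, ?_⟩
  · have := hp.2.1.isIdempotentElem.eq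
    rw [E_mul_E] at this
    exact E_inj i i this
  · have := hp.2.1.isSelfAdjoint.star_eq
    rw [star_E] at this
    exact E_inj i i this
  · have := hp.2.2
    rw [cm_E_dvec] at this
    have h2 := congrArg norm this
    rw [norm_inj, norm_zero, norm_eq_zero] at h2
    exact h2

theorem spi_vec (i : ι) (x : H →L[ℂ] H) (ζ : ι → H) (c : ℂ) :
    ‖rm (ampJ ι J) (E i i x) (dvec ζ) - c • E i i x (dvec ζ)‖ = ‖rm J x (ζ i) - c • x (ζ i)‖ := by
  rw [E_dvec, rm_E_dvec, ← map_smul, ← map_sub, norm_inj]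

theorem spi_E (i : ι) {p : H →L[ℂ] H} {ζ : ι → H} {l : ℝ} (h : SpI M J (ζ i) p l) :
    SpI (amp ι M) (ampJ ι J) (dvec ζ) (E i i p) l := by
  intro ε hε
  obtain ⟨x, hx, h1, h2, h3⟩ := h ε hε
  refine ⟨E i i x, E_mem i i hx, ?_, E_ne_zero i i h2, ?_⟩
  · rw [E_mul_E, E_mul_E, h1]
  · rw [spi_vec, E_dvec, norm_inj]
    exact h3

theorem spi_of_E (i : ι) {p : H →L[ℂ] H} (hM : p ∈ M) (hp : p * p = p) {ζ : ι → H} {l : ℝ}
    (h : SpI (amp ι M) (ampJ ι J) (dvec ζ) (E i i p) l) : SpI M J (ζ i) p l := by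
  intro ε hε
  obtain ⟨X, hX, h1, h2, h3⟩ := h ε hε
  obtain ⟨a, ha, rfl⟩ := mem_amp.1 hX
  rw [E_mul_mat_mul_E] at h1
  rw [← h1] at h2 h3
  refine ⟨p * a i i * p, mul_mem (mul_mem hM (ha i i)) hM, ?_, ?_, ?_⟩
  · calc p * (p * a i i * p) * p = (p * p) * a i i * (p * p) := by simp only [mul_assoc]
      _ = p * a i i * p := by rw [hp]
  · intro h0
    rw [h0, E_zero] at h2
    exact h2 rfl
  · rw [spi_vec, E_dvec, norm_inj] at h3
    exact h3

theorem std_two {ζ₁ ζ₂ : H} (h₁ : StdV M J ζ₁) (h₂ : StdV M J ζ₂) (hp : CPos M J ζ₁ ζ₂) :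
    StdV (amp (Fin 2) M) (ampJ (Fin 2) J) (dvec ![ζ₁, ζ₂]) := by
  refine stdV_amp h₁.stdJ (fun i => ?_) (fun i k => ?_)
  · fin_cases i
    · exact h₁
    · exact h₂
  · fin_cases i <;> fin_cases k
    · exact h₁.pos
    · exact hp
    · exact hp.symm h₁.stdJ
    · exact h₂.pos

end TransAux

open TransAux

variable {M : VonNeumannAlgebra H} {J : H ≃ₗᵢ⋆[ℂ] H} {ζ ζ₁ ζ₂ : H}

theorem full_amp_two (hM : IsFactor M) (h₁ : StdV M J ζ₁) (h₂ : StdV M J ζ₂)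
    (hp : CPos M J ζ₁ ζ₂) (hF : Full M J ζ₁) :
    Full (amp (Fin 2) M) (ampJ (Fin 2) J) (dvec ![ζ₁, ζ₂]) := by
  by_cases h10 : (1 : H →L[ℂ] H) = 0
  · intro P hP hP0
    exfalso
    apply hP0
    obtain ⟨a, ha, rfl⟩ := mem_amp.1 hP.1
    rw [← mat_zero]
    congr 1
    funext i j
    rw [← mul_one (a i j), h10, mul_zero]
  have hc1 : Cent M J (![ζ₁, ζ₂] 0) 1 := Cent.one h₁.stdJ
  refine full_of_corner (isFactor_amp hM) (std_two h₁ h₂ hp) (cent_E 0 hc1)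
    (E_ne_zero 0 0 h10) fun P hP hP0 hle l => ?_
  obtain ⟨a, ha, rfl⟩ := mem_amp.1 hP.1
  have hle' : mat a * E 0 0 1 = mat a := by
    have := congrArg star hle
    rwa [star_mul, hP.2.1.isSelfAdjoint.star_eq, star_E, star_one] at this
  have hE : mat a = E 0 0 (a 0 0) := by
    have := E_mul_mat_mul_E (0 : Fin 2) 0 1 1 a
    rw [hle, hle', one_mul, mul_one] at this
    exact this
  rw [hE] at hP hP0 ⊢
  have hc := cent_of_E 0 (ha 0 0) hP
  refine spi_E 0 (hF _ hc (fun h0 => hP0 ?_) l)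
  rw [h0, E_zero]

theorem full_transfer (hM : IsFactor M) (h₁ : StdV M J ζ₁) (h₂ : StdV M J ζ₂)
    (hp : CPos M J ζ₁ ζ₂) (hF : Full M J ζ₁) : Full M J ζ₂ := by
  intro q hq hq0 l
  have hq' : Cent M J (![ζ₁, ζ₂] 1) q := hq
  exact spi_of_E (ζ := ![ζ₁, ζ₂]) 1 hq.1 hq.2.1.isIdempotentElem.eq
    (full_amp_two hM h₁ h₂ hp hF _ (cent_E 1 hq') (E_ne_zero 1 1 hq0) l)

theorem full_of_cone (hM : IsFactor M) (h : StdV M J ζ) (hF : Full M J ζ) {η : H}
    (hη : η ∈ Cone M J ζ) (hs : StdV M J η) : Full M J η :=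
  full_transfer hM h hs (cpos_of_cone h.stdJ h.pos (cone_self h.stdJ) hη) hF

/-- local Connes-Stoermer transitivity -/
theorem cs_local (hM : IsFactor M) (h₁ : StdV M J ζ₁) (h₂ : StdV M J ζ₂) (hp : CPos M J ζ₁ ζ₂)
    (hF : Full M J ζ₁) {e f : H →L[ℂ] H} (he : Cent M J ζ₁ e) (hf : Cent M J ζ₂ f) (he0 : e ≠ 0)
    (hf0 : f ≠ 0) {κ : ℝ} (hκ : 0 < κ) :
    ∃ w ∈ M, w ≠ 0 ∧ w * star w * w = w ∧ f * w = w ∧ w * e = w ∧
      ‖w ζ₁ - rm J w ζ₂‖ ≤ κ * ‖w ζ₁‖ := by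
  have hS := std_two h₁ h₂ hp
  have he' : Cent M J (![ζ₁, ζ₂] 0) e := he
  have hf' : Cent M J (![ζ₁, ζ₂] 1) f := hf
  have hP := cent_E 0 he'
  have hQ := cent_E 1 hf'
  have hδ : 0 < min (1 / 20 : ℝ) (κ ^ 2 / 80) := lt_min (by norm_num) (by positivity)
  obtain ⟨X, hX, hQX, hXP, hX0, hXc⟩ := exists_near_central (isFactor_amp hM) hS
    (full_amp_two hM h₁ h₂ hp hF) hP hQ (E_ne_zero 0 0 he0) (E_ne_zero 1 1 hf0) hδ
  have hδ1 : 20 * min (1 / 20 : ℝ) (κ ^ 2 / 80) ≤ 1 := by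
    have := min_le_left (1 / 20 : ℝ) (κ ^ 2 / 80)
    linarith
  obtain ⟨W, hW, hW0, hWp, hQW, hWP, hWc⟩ := cut_piso hS.stdJ hS.fix hP hQ
    (E_mul_E_ne 0 0 1 1 (by decide) e f) hX hQX hXP (fun h0 => hX0 (hS.sepg X hX h0)) hδ hδ1 hXc
  obtain ⟨a, ha, rfl⟩ := mem_amp.1 hW
  have hE : mat a = E 1 0 (f * a 1 0 * e) := by
    have := E_mul_mat_mul_E (1 : Fin 2) 0 f e a
    rw [hQW, hWP] at this
    exact this
  rw [hE] at hW0 hWp hWc
  have hκ' : 4 * √(5 * min (1 / 20 : ℝ) (κ ^ 2 / 80)) ≤ κ := by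
    have h1 := min_le_right (1 / 20 : ℝ) (κ ^ 2 / 80)
    have h2 : √(5 * min (1 / 20 : ℝ) (κ ^ 2 / 80)) ≤ κ / 4 := by
      rw [Real.sqrt_le_left (by positivity)]
      nlinarith
    linarith
  refine ⟨f * a 1 0 * e, mul_mem (mul_mem hf.1 (ha 1 0)) he.1, fun h0 => hW0 ?_, ?_, ?_, ?_, ?_⟩
  · rw [h0, E_zero]; rfl
  · rw [star_E, E_mul_E, E_mul_E] at hWp
    exact E_inj 1 0 hWp
  · rw [← mul_assoc, ← mul_assoc, hf.2.1.isIdempotentElem.eq]
  · rw [mul_assoc, he.2.1.isIdempotentElem.eq]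
  · rw [cm_E_dvec, E_dvec, norm_inj, norm_inj] at hWc
    exact hWc.trans (mul_le_mul_of_nonneg_right hκ' (norm_nonneg _))

end Pool.Agent.P.MP_5d580a_an
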