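import Pool.Agent.P.MP_5d580a_an.GV
import Pool.Agent.P.MP_5d580a_an.Face

open scoped ComplexOrder InnerProductSpace ComplexConjugate BoundedContinuousFunction
open MeasureTheory Filter Topology

set_option linter.unusedSectionVars false
set_option linter.unusedVariables false

noncomputable section

namespace Pool.Agent.P.MP_5d580a_an

variable {H : Type} [NormedAddCommGroup H] [InnerProductSpace ℂ H] [CompleteSpace H]

variable {C : Type} [CStarAlgebra C] [PartialOrder C] [StarOrderedRing C]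
  [TopologicalSpace.SeparableSpace C]

theorem tree_sum_flatMap {N M : Type} [AddCommMonoid M] (l : List N) (g : N → List N) (f : N → M) :
    ((l.flatMap g).map f).sum = (l.map fun i => ((g i).map f).sum).sum := by
  induction l with
  | nil => simp
  | cons a l ih => simp [List.flatMap_cons, ih]

theorem tree_sum_add_const {N : Type} (l : List N) (f : N → ℝ) (δ : ℝ) :
    (l.map fun i => f i + δ).sum = (l.map f).sum + l.length * δ := by
  induction l with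
  | nil => simp
  | cons a l ih => simp only [List.map_cons, List.sum_cons, ih, List.length_cons]; push_cast; ring

theorem tree_sum_lin {N : Type} (l : List N) (f g : N → ℝ) (a : ℝ) :
    (l.map fun i => f i + a * g i).sum = (l.map f).sum + a * (l.map g).sum := by
  induction l with
  | nil => simp
  | cons x l ih => simp only [List.map_cons, List.sum_cons, ih]; ring

theorem tree_exists_pos {N : Type} (l : List N) (f : N → ℝ) (h : 0 < (l.map f).sum) :
    ∃ i ∈ l, 0 < f i := by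
  by_contra hc
  push Not at hc
  have : (l.map f).sum ≤ (l.map fun _ => (0 : ℝ)).sum := List.sum_le_sum hc
  simp at this
  linarith

theorem tree_small (n : ℕ) {ε : ℝ} (hε : 0 < ε) : ∃ δ : ℝ, 0 < δ ∧ n * δ ≤ ε := by
  refine ⟨ε / (n + 1), by positivity, ?_⟩
  rw [← mul_div_assoc, div_le_iff₀ (by positivity)]
  nlinarith

theorem tree_mn_nonneg {θ : C →L[ℂ] ℂ} (h : IsPos θ) {c c' : C} (hc : 0 ≤ c) (hc' : 0 ≤ c') :
    0 ≤ mn θ c c' := le_min (h.re_nonneg hc) (h.re_nonneg hc')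

theorem tree_isPos_lim {ι : Type} {l : Filter ι} [l.NeBot] {θ : ι → (C →L[ℂ] ℂ)} {ψ : C →L[ℂ] ℂ}
    (h : ∀ c, Tendsto (fun i => θ i c) l (𝓝 (ψ c))) (hp : ∀ i, IsPos (θ i)) : IsPos ψ := by
  intro x
  have h1 : 0 ≤ (ψ (star x * x)).re :=
    ge_of_tendsto' ((Complex.continuous_re.tendsto _).comp (h (star x * x)))
      fun i => (Complex.le_def.1 (hp i x)).1
  have h2 : (ψ (star x * x)).im = 0 := by
    have := (Complex.continuous_im.tendsto _).comp (h (star x * x))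
    have e : (Complex.im ∘ fun i => θ i (star x * x)) = fun _ => (0 : ℝ) := by
      funext i
      simpa using (Complex.le_def.1 (hp i x)).2.symm
    rw [e] at this
    exact (tendsto_nhds_unique tendsto_const_nhds this).symm
  exact Complex.le_def.2 ⟨by simpa using h1, by simpa using h2.symm⟩

theorem tree_mn_lim {ι : Type} {l : Filter ι} {θ : ι → (C →L[ℂ] ℂ)} {ψ : C →L[ℂ] ℂ}
    (h : ∀ c, Tendsto (fun i => θ i c) l (𝓝 (ψ c))) (c c' : C) :
    Tendsto (fun i => mn (θ i) c c') l (𝓝 (mn ψ c c')) :=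
  ((Complex.continuous_re.tendsto _).comp (h c)).min ((Complex.continuous_re.tendsto _).comp (h c'))

/-- a limit functional with small test quantities is a multiple of a pure state -/
theorem tree_pm {ψ : C →L[ℂ] ℂ} (hψ : IsPos ψ) (b : ℕ → C) (hb : ∀ n, IsSelfAdjoint (b n))
    (hd : ∀ c : C, IsSelfAdjoint c → ∀ ε : ℝ, 0 < ε → ∃ n, ‖c - b n‖ < ε) (K : ℝ)
    (h : ∀ j : ℕ, (j : ℝ) * gv ψ (b (Nat.unpair j).1) ≤ K) : PM ψ := by
  refine pm_of_gv hψ b hb hd fun n => ?_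
  by_contra hc
  push Not at hc
  obtain ⟨m, hm⟩ := exists_nat_gt (K / gv ψ (b n))
  have h1 := h (Nat.pair n m)
  rw [Nat.unpair_pair] at h1
  have h2 : (m : ℝ) ≤ (Nat.pair n m : ℕ) := by exact_mod_cast Nat.right_le_pair n m
  rw [div_lt_iff₀ hc] at hm
  nlinarith

/-- coefficients pairing positive and negative values -/
theorem tree_coef (n : ℕ) (v : Fin n → ℝ) (hv : ∑ j, v j = 0) :
    ∃ a a' : Fin n → Fin n → ℝ,
      (∀ j k, 0 ≤ a j k ∧ 0 ≤ a' j k ∧ a j k * v j + a' j k * v k = 0) ∧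
        ∀ j, ∑ k, a j k + ∑ k, a' k j = 1 := by
  classical
  set S : ℝ := ∑ j, max (v j) 0 with hS
  have hS' : ∑ j, max (-v j) 0 = S := by
    have : ∑ j, max (v j) 0 - ∑ j, max (-v j) 0 = ∑ j, v j := by
      rw [← Finset.sum_sub_distrib]
      exact Finset.sum_congr rfl fun j _ => max_zero_sub_max_neg_zero_eq_self (v j)
    linarith
  have hS0 : 0 ≤ S := Finset.sum_nonneg fun j _ => le_max_right _ _
  refine ⟨fun j k => (if 0 < v j then max (-v k) 0 / S else 0) + (if k = j ∧ v j = 0 then 1 else 0),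
    fun j k => if v k < 0 then max (v j) 0 / S else 0, fun j k => ⟨?_, ?_, ?_⟩, fun j => ?_⟩
  · refine add_nonneg ?_ ?_
    · split_ifs
      · exact div_nonneg (le_max_right _ _) hS0
      · exact le_rfl
    · split_ifs <;> norm_num
  · dsimp only
    split_ifs
    · exact div_nonneg (le_max_right _ _) hS0
    · exact le_rfl
  · have e1 : (if k = j ∧ v j = 0 then (1 : ℝ) else 0) * v j = 0 := by
      split_ifs with h
      · rw [h.2, mul_zero]
      · rw [zero_mul]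
    have e2 : (if 0 < v j then max (-v k) 0 / S else 0) * v j = max (-v k) 0 * max (v j) 0 / S := by
      split_ifs with h
      · rw [max_eq_left h.le]; ring
      · rw [max_eq_right (not_lt.1 h)]; ring
    have e3 : (if v k < 0 then max (v j) 0 / S else 0) * v k =
        -(max (-v k) 0 * max (v j) 0 / S) := by
      split_ifs with h
      · rw [max_eq_left (by linarith : 0 ≤ -v k)]; ring
      · rw [max_eq_right (by linarith [not_lt.1 h] : -v k ≤ 0)]; ring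
    rw [add_mul, e1, e2, e3]; ring
  · simp only [Finset.sum_add_distrib]
    rcases lt_trichotomy (v j) 0 with h | h | h
    · have hpos : 0 < S := by
        rw [← hS']
        exact lt_of_lt_of_le (lt_max_of_lt_left (by linarith))
          (Finset.single_le_sum (f := fun j => max (-v j) 0) (fun j _ => le_max_right _ _)
            (Finset.mem_univ j))
      simp only [h, h.not_gt, h.ne, if_true, if_false, and_false, Finset.sum_const_zero, zero_add]
      rw [← Finset.sum_div, ← hS, div_self hpos.ne']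
    · simp [h]
    · have hpos : 0 < S :=
        lt_of_lt_of_le (lt_max_of_lt_left h)
          (Finset.single_le_sum (f := fun j => max (v j) 0) (fun j _ => le_max_right _ _)
            (Finset.mem_univ j))
      simp only [h, h.not_gt, h.ne', if_true, if_false, and_false, Finset.sum_const_zero, add_zero]
      rw [← Finset.sum_div, hS', div_self hpos.ne']

theorem tree_coef_sum {n : ℕ} {a a' : Fin n → Fin n → ℝ}
    (h : ∀ j, ∑ k, a j k + ∑ k, a' k j = 1) {E : Type} [AddCommGroup E] [Module ℝ E]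
    (G : Fin n → E) :
    ∑ p : Fin n × Fin n, (a p.1 p.2 • G p.1 + a' p.1 p.2 • G p.2) = ∑ j, G j := by
  rw [Finset.sum_add_distrib, Fintype.sum_prod_type, Fintype.sum_prod_type_right,
    ← Finset.sum_add_distrib]
  refine Finset.sum_congr rfl fun j _ => ?_
  simp only
  rw [← Finset.sum_smul, ← Finset.sum_smul, ← add_smul, h j, one_smul]

/-- the tree lemma -/
theorem tree_lemma {N : Type} (θ₁ θ₂ : N → (C →L[ℂ] ℂ)) (h₁ : ∀ q, IsPos (θ₁ q))
    (h₂ : ∀ q, IsPos (θ₂ q)) (Ref : N → List N → Prop) (hrefl : ∀ q, Ref q [q])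
    (htrans : ∀ q l (g : N → List N), Ref q l → (∀ i ∈ l, Ref i (g i)) → Ref q (l.flatMap g))
    (hsup : ∀ q l, Ref q l → ∀ c c' : C, 0 ≤ c → 0 ≤ c' →
      (l.map fun i => mn (θ₁ i) c c' + mn (θ₂ i) c c').sum ≤ mn (θ₁ q) c c' + mn (θ₂ q) c c')
    (hdec : ∀ q (b : C), IsSelfAdjoint b → ∀ ε : ℝ, 0 < ε →
      ∃ l, Ref q l ∧ (l.map fun i => gv (θ₁ i) b + gv (θ₂ i) b).sum ≤ ε)
    {Φ : (C →L[ℂ] ℂ) → ℝ} (hΦ : Usc Φ) (hpure : ∀ ψ₁ ψ₂, PM ψ₁ → PM ψ₂ → Φ (ψ₁ + ψ₂) = 0)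
    (q : N) {ε : ℝ} (hε : 0 < ε) :
    ∃ l, Ref q l ∧ (l.map fun i => Φ (θ₁ i + θ₂ i)).sum ≤ ε := by
  classical
  by_contra hcon
  push Not at hcon
  obtain ⟨K, hK⟩ := hΦ.bdd
  obtain ⟨b, hb, hd⟩ := exists_dense_sa (C := C)
  set Mn : N → C → C → ℝ := fun i c c' => mn (θ₁ i) c c' + mn (θ₂ i) c c' with hMn
  set mass : N → ℝ := fun i => Mn i 1 1 with hmass
  have hmass' : ∀ i, mass i = (θ₁ i 1).re + (θ₂ i 1).re := fun i => by simp [hmass, hMn, mn]
  have hMn0 : ∀ i c c', 0 ≤ c → 0 ≤ c' → 0 ≤ Mn i c c' := fun i c c' hc hc' =>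
    add_nonneg (tree_mn_nonneg (h₁ i) hc hc') (tree_mn_nonneg (h₂ i) hc hc')
  have hmass0 : ∀ i, 0 ≤ mass i := fun i => hMn0 i 1 1 zero_le_one zero_le_one
  set F : N → ℝ := fun i => Φ (θ₁ i + θ₂ i) with hF
  have hF0 : ∀ i, 0 ≤ F i := fun i => hΦ.nonneg _ ((h₁ i).add (h₂ i))
  have hFK : ∀ i, F i ≤ K * mass i := fun i => by
    have := hK _ ((h₁ i).add (h₂ i))
    rw [hmass']
    simpa using this
  set L : N → ℝ := fun i => sInf {r | ∃ l, Ref i l ∧ r = (l.map F).sum} with hL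
  have hne : ∀ i, {r | ∃ l, Ref i l ∧ r = (l.map F).sum}.Nonempty := fun i => ⟨_, [i], hrefl i, rfl⟩
  have hbd : ∀ i, BddBelow {r | ∃ l, Ref i l ∧ r = (l.map F).sum} := fun i =>
    ⟨0, by
      rintro r ⟨l, -, rfl⟩
      exact List.sum_nonneg (by
        intro x hx
        obtain ⟨y, -, rfl⟩ := List.mem_map.1 hx
        exact hF0 y)⟩
  have hLle : ∀ i l, Ref i l → L i ≤ (l.map F).sum := fun i l hl => csInf_le (hbd i) ⟨l, hl, rfl⟩
  have hLF : ∀ i, L i ≤ F i := fun i => by simpa using hLle i [i] (hrefl i)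
  have hLsub : ∀ i l, Ref i l → L i ≤ (l.map L).sum := by
    intro i l hl
    refine le_of_forall_pos_le_add fun δ hδ => ?_
    obtain ⟨δ', hδ', hδ''⟩ := tree_small l.length hδ
    have : ∀ j, ∃ g, Ref j g ∧ (g.map F).sum ≤ L j + δ' := fun j => by
      obtain ⟨r, ⟨g, hg, rfl⟩, hr⟩ := exists_lt_of_csInf_lt (hne j) (lt_add_of_pos_right _ hδ')
      exact ⟨g, hg, hr.le⟩
    choose g hg hg' using this
    have h1 := hLle i _ (htrans i l g hl fun j _ => hg j)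
    rw [tree_sum_flatMap] at h1
    have h2 : (l.map fun j => ((g j).map F).sum).sum ≤ (l.map fun j => L j + δ').sum :=
      List.sum_le_sum fun j _ => hg' j
    rw [tree_sum_add_const] at h2
    linarith
  have hLq : ε ≤ L q := le_csInf (hne q) (by rintro r ⟨l, hl, rfl⟩; exact (hcon l hl).le)
  obtain ⟨η, hη, hηq⟩ : ∃ η : ℝ, 0 < η ∧ η * mass q < L q := by
    refine ⟨ε / (mass q + 1), by have := hmass0 q; positivity, lt_of_lt_of_le ?_ hLq⟩
    have := hmass0 q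
    rw [div_mul_eq_mul_div, div_lt_iff₀ (by positivity)]
    nlinarith
  -- the recursive construction
  let Good : N × (N → ℝ) → Prop := fun s =>
    (∀ i l, Ref i l → (l.map s.2).sum ≤ s.2 i) ∧ s.2 s.1 < L s.1
  let R : ℕ → N × (N → ℝ) → N × (N → ℝ) → Prop := fun j s s' =>
    ∃ (t t' : ℝ) (c c' : C), 0 ≤ c ∧ 0 ≤ c' ∧ b (Nat.unpair j).1 - algebraMap ℝ C t ≤ c ∧
      algebraMap ℝ C t - b (Nat.unpair j).1 ≤ c ∧ b (Nat.unpair j).1 - algebraMap ℝ C t' ≤ c' ∧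
      algebraMap ℝ C t' - b (Nat.unpair j).1 ≤ c' ∧ s'.2 = fun i => s.2 i + j * Mn i c c'
  have step : ∀ (j : ℕ) (s : {s // Good s}), ∃ s' : {s // Good s}, R j s.1 s'.1 := by
    rintro j ⟨⟨p, W⟩, hW, hp⟩
    dsimp only at hW hp
    obtain ⟨ε₁, hε₁, hε₁'⟩ := tree_small j (by linarith : 0 < (L p - W p) / 3)
    obtain ⟨l, hl, hls⟩ := hdec p (b (Nat.unpair j).1) (hb _) ε₁ hε₁
    obtain ⟨δ, hδ, hδ'⟩ := tree_small l.length (half_pos hε₁)
    have e1 : ∀ i, ∃ (t : ℝ) (c : C), 0 ≤ c ∧ b (Nat.unpair j).1 - algebraMap ℝ C t ≤ c ∧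
        algebraMap ℝ C t - b (Nat.unpair j).1 ≤ c ∧
          (θ₁ i c).re < gv (θ₁ i) (b (Nat.unpair j).1) + δ := fun i =>
      exists_lt_gv (hb _) (lt_add_of_pos_right _ hδ)
    have e2 : ∀ i, ∃ (t : ℝ) (c : C), 0 ≤ c ∧ b (Nat.unpair j).1 - algebraMap ℝ C t ≤ c ∧
        algebraMap ℝ C t - b (Nat.unpair j).1 ≤ c ∧
          (θ₂ i c).re < gv (θ₂ i) (b (Nat.unpair j).1) + δ := fun i =>
      exists_lt_gv (hb _) (lt_add_of_pos_right _ hδ)
    choose t c hc0 hc1 hc2 hc3 using e1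
    choose t' c' hc0' hc1' hc2' hc3' using e2
    have s1 : (l.map fun i => Mn i (c i) (c' i)).sum ≤ (l.map fun i =>
        (gv (θ₁ i) (b (Nat.unpair j).1) + gv (θ₂ i) (b (Nat.unpair j).1)) + 2 * δ).sum := by
      refine List.sum_le_sum fun i _ => ?_
      have a1 : mn (θ₁ i) (c i) (c' i) ≤ (θ₁ i (c i)).re := min_le_left _ _
      have a2 : mn (θ₂ i) (c i) (c' i) ≤ (θ₂ i (c' i)).re := min_le_right _ _
      have := hc3 i
      have := hc3' i
      simp only [hMn]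
      linarith
    rw [tree_sum_add_const] at s1
    have s2 : (l.map fun i => Mn i (c i) (c' i)).sum ≤ 2 * ε₁ := by linarith
    have s3 : 0 < (l.map fun i => (L i + (-1) * W i) + (-(j : ℝ)) * Mn i (c i) (c' i)).sum := by
      rw [tree_sum_lin, tree_sum_lin]
      have := hLsub p l hl
      have := hW p l hl
      have hj : (0 : ℝ) ≤ j := Nat.cast_nonneg j
      have := mul_le_mul_of_nonneg_left s2 hj
      nlinarith
    obtain ⟨i, -, hi⟩ := tree_exists_pos _ _ s3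
    refine ⟨⟨(i, fun x => W x + j * Mn x (c i) (c' i)), fun x m hm => ?_, ?_⟩, t i, t' i, c i,
      c' i, hc0 i, hc0' i, hc1 i, hc2 i, hc1' i, hc2' i, rfl⟩
    · dsimp only
      rw [tree_sum_lin]
      have := hW x m hm
      have h3 := hsup x m hm (c i) (c' i) (hc0 i) (hc0' i)
      have hj : (0 : ℝ) ≤ j := Nat.cast_nonneg j
      have := mul_le_mul_of_nonneg_left h3 hj
      simp only [hMn]
      linarith
    · dsimp only
      linarith
  choose f hf using step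
  have hs0 : Good (q, fun i => η * mass i) := by
    refine ⟨fun i l hl => ?_, hηq⟩
    dsimp only
    have h3 := hsup i l hl 1 1 zero_le_one zero_le_one
    rw [List.sum_map_mul_left]
    exact mul_le_mul_of_nonneg_left h3 hη.le
  let s : ℕ → {s // Good s} := fun n => Nat.rec ⟨_, hs0⟩ (fun j x => f j x) n
  have hs : ∀ j, R j (s j).1 (s (j + 1)).1 := fun j => hf j (s j)
  choose t t' c c' hc0 hc0' hc1 hc2 hc1' hc2' hW using hs
  have hW0 : (s 0).1.2 = fun i => η * mass i := rfl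
  have hmono : ∀ i, Monotone fun n => (s n).1.2 i := fun i =>
    monotone_nat_of_le_succ fun n => by
      rw [hW n]
      have := mul_nonneg (Nat.cast_nonneg (α := ℝ) n) (hMn0 i _ _ (hc0 n) (hc0' n))
      dsimp only
      linarith
  have hWη : ∀ n i, η * mass i ≤ (s n).1.2 i := fun n i => by
    have := hmono i (Nat.zero_le n)
    dsimp only at this
    rwa [hW0] at this
  have hWj : ∀ j n : ℕ, j < n → ∀ i, (j : ℝ) * Mn i (c j) (c' j) ≤ (s n).1.2 i := by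
    intro j n hjn i
    have h1 := hmono i (Nat.succ_le_of_lt hjn)
    dsimp only at h1
    rw [hW j] at h1
    have h2 := hWη j i
    have h3 := mul_nonneg hη.le (hmass0 i)
    dsimp only at h1
    linarith
  set p : ℕ → N := fun n => (s n).1.1 with hp
  have hlt : ∀ n, (s n).1.2 (p n) < F (p n) := fun n => lt_of_lt_of_le (s n).2.2 (hLF _)
  have hmp : ∀ n, 0 < mass (p n) := fun n => by
    rcases (hmass0 (p n)).lt_or_eq with h | h
    · exact h
    · have h1 := hlt n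
      have h2 := hWη n (p n)
      have h3 := hFK (p n)
      rw [← h] at h2 h3
      linarith
  set ω₁ : ℕ → (C →L[ℂ] ℂ) := fun n => (((mass (p n))⁻¹ : ℝ) : ℂ) • θ₁ (p n) with hω₁
  set ω₂ : ℕ → (C →L[ℂ] ℂ) := fun n => (((mass (p n))⁻¹ : ℝ) : ℂ) • θ₂ (p n) with hω₂
  have hi0 : ∀ n, 0 ≤ (mass (p n))⁻¹ := fun n => (inv_pos.2 (hmp n)).le
  have hp₁ : ∀ n, IsPos (ω₁ n) := fun n => (h₁ _).smul (hi0 n)
  have hp₂ : ∀ n, IsPos (ω₂ n) := fun n => (h₂ _).smul (hi0 n)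
  have hn₁ : ∀ n, ‖ω₁ n‖ ≤ 1 := fun n => by
    rw [(hp₁ n).norm_eq]
    simp only [hω₁, smul_apply, smul_eq_mul, Complex.re_ofReal_mul]
    rw [inv_mul_le_iff₀ (hmp n), hmass']
    have := (h₂ (p n)).one_nonneg
    linarith
  have hn₂ : ∀ n, ‖ω₂ n‖ ≤ 1 := fun n => by
    rw [(hp₂ n).norm_eq]
    simp only [hω₂, smul_apply, smul_eq_mul, Complex.re_ofReal_mul]
    rw [inv_mul_le_iff₀ (hmp n), hmass']
    have := (h₁ (p n)).one_nonneg
    linarith
  let 𝒰 : Ultrafilter ℕ := Ultrafilter.of atTop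
  have hU : (𝒰 : Filter ℕ) ≤ atTop := Ultrafilter.of_le _
  obtain ⟨ψ₁, hψ₁⟩ := exists_weak_ultra 𝒰 ω₁ 1 hn₁
  obtain ⟨ψ₂, hψ₂⟩ := exists_weak_ultra 𝒰 ω₂ 1 hn₂
  have hq₁ : IsPos ψ₁ := tree_isPos_lim hψ₁ hp₁
  have hq₂ : IsPos ψ₂ := tree_isPos_lim hψ₂ hp₂
  have hkey : ∀ j : ℕ, (j : ℝ) * (mn ψ₁ (c j) (c' j) + mn ψ₂ (c j) (c' j)) ≤ K := by
    intro j
    have hlim := ((tree_mn_lim hψ₁ (c j) (c' j)).add (tree_mn_lim hψ₂ (c j) (c' j))).const_mul
      (j : ℝ)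
    refine le_of_tendsto hlim (hU ?_)
    filter_upwards [eventually_gt_atTop j] with n hn
    have h1 := hWj j n hn (p n)
    have h2 := hlt n
    have h3 := hFK (p n)
    simp only [hω₁, hω₂]
    rw [mn_smul _ _ _ (hi0 n), mn_smul _ _ _ (hi0 n), ← mul_add, mul_left_comm,
      inv_mul_le_iff₀ (hmp n)]
    simp only [hMn] at h1
    linarith
  have hgv : ∀ (ψ : C →L[ℂ] ℂ), IsPos ψ → ∀ j, gv ψ (b (Nat.unpair j).1) ≤ mn ψ (c j) (c' j) :=
    fun ψ hψ j => le_min (gv_le hψ (hc1 j) (hc2 j)) (gv_le hψ (hc1' j) (hc2' j))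
  have hm₁ : PM ψ₁ := tree_pm hq₁ b hb hd K fun j => by
    have h1 := hgv ψ₁ hq₁ j
    have h2 := tree_mn_nonneg hq₂ (hc0 j) (hc0' j)
    exact le_trans (mul_le_mul_of_nonneg_left (by linarith) (Nat.cast_nonneg j)) (hkey j)
  have hm₂ : PM ψ₂ := tree_pm hq₂ b hb hd K fun j => by
    have h1 := hgv ψ₂ hq₂ j
    have h2 := tree_mn_nonneg hq₁ (hc0 j) (hc0' j)
    exact le_trans (mul_le_mul_of_nonneg_left (by linarith) (Nat.cast_nonneg j)) (hkey j)
  obtain ⟨G, γ, hγ, hG⟩ := hΦ.usc _ (hq₁.add hq₂) (η / 2) (half_pos hη)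
  have hev : ∀ᶠ n in (𝒰 : Filter ℕ), WNear G γ (ψ₁ + ψ₂) (ω₁ n + ω₂ n) := by
    unfold WNear
    rw [Filter.eventually_all_finset]
    intro x _
    have := (hψ₁ x).add (hψ₂ x)
    rw [tendsto_iff_norm_sub_tendsto_zero] at this
    exact this.eventually (gt_mem_nhds hγ)
  obtain ⟨n, hn⟩ := hev.exists
  have h1 := hG _ ((hp₁ n).add (hp₂ n)) hn
  rw [hpure _ _ hm₁ hm₂] at h1
  have h2 : Φ (ω₁ n + ω₂ n) = (mass (p n))⁻¹ * F (p n) := by
    have e : ω₁ n + ω₂ n = (((mass (p n))⁻¹ : ℝ) : ℂ) • (θ₁ (p n) + θ₂ (p n)) :=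
      (smul_add _ (θ₁ (p n)) (θ₂ (p n))).symm
    rw [e]
    exact hΦ.homog _ ((h₁ _).add (h₂ _)) _ (hi0 n)
  have h3 : η < (mass (p n))⁻¹ * F (p n) := by
    rw [lt_inv_mul_iff₀ (hmp n)]
    have := hlt n
    have := hWη n (p n)
    linarith
  linarith

/-- the tree lemma for glued pairs -/
theorem tree_glue (𝒯 : Set (C →L[ℂ] ℂ)) (hpos : ∀ τ ∈ 𝒯, IsPos τ)
    (hsmul : ∀ τ ∈ 𝒯, ∀ s : ℝ, 0 ≤ s → (s : ℂ) • τ ∈ 𝒯)
    (hdec : ∀ τ ∈ 𝒯, ∀ b : C, IsSelfAdjoint b → ∀ ε : ℝ, 0 < ε →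
      ∃ l : List (C →L[ℂ] ℂ), (∀ τ' ∈ l, τ' ∈ 𝒯) ∧ l.sum = τ ∧ (l.map fun τ' => gv τ' b).sum ≤ ε)
    {Φ : (C →L[ℂ] ℂ) → ℝ} (hΦ : Usc Φ) (hpure : ∀ ψ₁ ψ₂, PM ψ₁ → PM ψ₂ → Φ (ψ₁ + ψ₂) = 0)
    (x₀ : C) {θ₀ : C →L[ℂ] ℂ} (h₀ : θ₀ ∈ 𝒯) (hx : (θ₀ x₀).re = 0) {ε : ℝ} (hε : 0 < ε) :
    ∃ (n : ℕ) (σ : Fin n → (C →L[ℂ] ℂ)), (∀ i, IsPos (σ i) ∧ (σ i x₀).re = 0) ∧
      ∑ i, σ i = θ₀ ∧ ∑ i, Φ (σ i) ≤ ε := by
  classical
  let N : Type := {τ : (C →L[ℂ] ℂ) × (C →L[ℂ] ℂ) // τ.1 ∈ 𝒯 ∧ τ.2 ∈ 𝒯 ∧ ((τ.1 + τ.2) x₀).re = 0}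
  let Ref : N → List N → Prop := fun q l =>
    (l.map fun i => i.1.1 + i.1.2).sum = q.1.1 + q.1.2 ∧ ∀ c c' : C, 0 ≤ c → 0 ≤ c' →
      (l.map fun i => mn i.1.1 c c' + mn i.1.2 c c').sum ≤ mn q.1.1 c c' + mn q.1.2 c c'
  have hz : ((0 : ℝ) : ℂ) • θ₀ = 0 := by ext x; simp
  let q₀ : N := ⟨(θ₀, ((0 : ℝ) : ℂ) • θ₀), h₀, hsmul _ h₀ 0 le_rfl, by simpa using hx⟩
  have key := tree_lemma (N := N) (fun i => i.1.1) (fun i => i.1.2) (fun i => hpos _ i.2.1)
    (fun i => hpos _ i.2.2.1) Ref (fun q => ⟨by simp, fun c c' _ _ => by simp⟩)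
    (fun q l g hl hg => ⟨by
      rw [tree_sum_flatMap, ← hl.1]
      exact congrArg List.sum (List.map_congr_left fun i hi => (hg i hi).1), fun c c' hc hc' => by
      rw [tree_sum_flatMap]
      exact le_trans (List.sum_le_sum fun i hi => (hg i hi).2 c c' hc hc') (hl.2 c c' hc hc')⟩)
    (fun q l hl => hl.2) ?_ hΦ hpure q₀ hε
  · obtain ⟨l, hl, hs⟩ := key
    refine ⟨l.length, fun i => (l[i.1]).1.1 + (l[i.1]).1.2,
      fun i => ⟨(hpos _ (l[i.1]).2.1).add (hpos _ (l[i.1]).2.2.1), (l[i.1]).2.2.2⟩, ?_, ?_⟩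
    · rw [Fin.sum_univ_fun_getElem l fun i : N => i.1.1 + i.1.2, hl.1]
      exact (congrArg (θ₀ + ·) hz).trans (add_zero _)
    · rw [Fin.sum_univ_fun_getElem l fun i : N => Φ (i.1.1 + i.1.2)]
      exact hs
  · rintro ⟨⟨τ₁, τ₂⟩, hτ₁, hτ₂, hτ⟩ b hb δ hδ
    dsimp only at hτ₁ hτ₂ hτ
    obtain ⟨l₁, m₁, s₁, g₁⟩ := hdec τ₁ hτ₁ b hb (δ / 2) (half_pos hδ)
    obtain ⟨l₂, m₂, s₂, g₂⟩ := hdec τ₂ hτ₂ b hb (δ / 2) (half_pos hδ)
    obtain ⟨l, hl⟩ : ∃ l, l = l₁ ++ l₂ := ⟨_, rfl⟩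
    have hmem : ∀ j : Fin l.length, l[j.1] ∈ 𝒯 := fun j => by
      have : l[j.1] ∈ l₁ ++ l₂ := hl ▸ List.getElem_mem _
      rcases List.mem_append.1 this with h | h
      · exact m₁ _ h
      · exact m₂ _ h
    have hsum : ∑ j : Fin l.length, l[j.1] = τ₁ + τ₂ := by
      rw [Fin.sum_univ_getElem, hl, List.sum_append, s₁, s₂]
    obtain ⟨a, a', ha, hsa⟩ := tree_coef l.length (fun j => (l[j.1] x₀).re) (by
      rw [← Complex.re_sum, ← sum_apply, hsum, hτ])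
    let node : Fin l.length × Fin l.length → N := fun p =>
      ⟨(((a p.1 p.2 : ℝ) : ℂ) • l[p.1.1], ((a' p.1 p.2 : ℝ) : ℂ) • l[p.2.1]),
        hsmul _ (hmem _) _ (ha _ _).1, hsmul _ (hmem _) _ (ha _ _).2.1, by
          simpa using (ha p.1 p.2).2.2⟩
    refine ⟨Finset.univ.toList.map node, ⟨?_, fun c c' hc hc' => ?_⟩, ?_⟩
    · rw [List.map_map, Finset.sum_map_toList]
      dsimp only
      rw [← hsum, ← tree_coef_sum hsa fun j => l[j.1]]
      refine Finset.sum_congr rfl fun p _ => ?_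
      ext x
      simp [node]
    · rw [List.map_map, Finset.sum_map_toList]
      dsimp only
      have e : ∑ p, ((fun i : N => mn i.1.1 c c' + mn i.1.2 c c') ∘ node) p =
          ∑ j : Fin l.length, mn l[j.1] c c' := by
        rw [← tree_coef_sum hsa fun j => mn l[j.1] c c']
        refine Finset.sum_congr rfl fun p _ => ?_
        simp only [Function.comp, node, smul_eq_mul]
        rw [mn_smul _ _ _ (ha _ _).1, mn_smul _ _ _ (ha _ _).2.1]
      rw [e, Fin.sum_univ_fun_getElem l fun θ => mn θ c c', hl, List.map_append, List.sum_append,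
        ← s₁, ← s₂]
      exact add_le_add (mn_list_sum _ _ _) (mn_list_sum _ _ _)
    · rw [List.map_map, Finset.sum_map_toList]
      have e : ∑ p, ((fun i : N => gv i.1.1 b + gv i.1.2 b) ∘ node) p =
          ∑ j : Fin l.length, gv l[j.1] b := by
        rw [← tree_coef_sum hsa fun j => gv l[j.1] b]
        refine Finset.sum_congr rfl fun p _ => ?_
        simp only [Function.comp, node, smul_eq_mul]
        rw [gv_smul (hpos _ (hmem _)) hb (ha _ _).1, gv_smul (hpos _ (hmem _)) hb (ha _ _).2.1]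
      rw [e, Fin.sum_univ_fun_getElem l fun θ => gv θ b, hl, List.map_append, List.sum_append]
      linarith

end Pool.Agent.P.MP_5d580a_an
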