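import Pool.Agent.P.MP_5d580a_an.Lim

open scoped ComplexOrder InnerProductSpace ComplexConjugate BoundedContinuousFunction
open MeasureTheory Filter Topology

set_option linter.unusedSectionVars false
set_option linter.unusedVariables false

noncomputable section

namespace Pool.Agent.P.MP_5d580a_an

variable {H : Type} [NormedAddCommGroup H] [InnerProductSpace ℂ H] [CompleteSpace H]

variable {N : VonNeumannAlgebra H} {J : H ≃ₗᵢ⋆[ℂ] H} {Ω : H}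

theorem trunc_re (V : H →L[ℂ] H) (κ : ℝ) (η : H) :
    ⟪η, ((κ : ℂ) • (star V * V)) η⟫_ℂ = ((κ * ‖V η‖ ^ 2 : ℝ) : ℂ) := by
  change ⟪η, (κ : ℂ) • (star V) (V η)⟫_ℂ = _
  rw [inner_smul_right, inner_star_right, inner_self_eq_norm_sq_to_K]
  push_cast
  rfl

theorem trunc_four (η γ : H) : 4 * (⟪η, γ⟫_ℂ).re ≤ ‖η + γ‖ ^ 2 := by
  have h1 := norm_add_sq (𝕜 := ℂ) η γ
  have h2 := norm_sub_sq (𝕜 := ℂ) η γ
  have h3 := sq_nonneg ‖η - γ‖
  change _ = _ + 2 * (⟪η, γ⟫_ℂ).re + _ at h1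
  change _ = _ - 2 * (⟪η, γ⟫_ℂ).re + _ at h2
  linarith

/-- the truncation `T = 2 √κ V (1 + κ V* V)⁻¹`, written as `Vκ = V G` -/
theorem exists_trunc (hJ : StdJ N J) (hΩ : J Ω = Ω) {V W : H →L[ℂ] H} (hV : V ∈ N) {κ δ C : ℝ}
    (hκ : 0 < κ) (hc : ‖V Ω - W Ω‖ ≤ δ) (hC : ‖(star V * W) Ω‖ ≤ C) :
    ∃ T ∈ N, ‖T‖ ≤ 1 / (2 * √κ) ∧ ‖cm J T Ω‖ ≤ 9 / 4 * ‖cm J V Ω‖ ∧
      ‖V Ω - T Ω‖ ^ 2 ≤ (√κ * C + δ) * ‖V Ω‖ ∧ ‖(star T * T) Ω‖ ≤ C + δ / (2 * √κ) := by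
  have ha : (0 : H →L[ℂ] H) ≤ (κ : ℂ) • (star V * V) := nonneg_iff_inner.2 fun ξ => by
    rw [trunc_re]
    exact Complex.zero_le_real.2 (by positivity)
  obtain ⟨G, hG0, hG1, hGl, hGr, hGc⟩ := exists_inv_one_add ha
  have hVs : star V ∈ N := star_mem hV
  have haN : (κ : ℂ) • (star V * V) ∈ N := vn_smul_mem _ (mul_mem hVs hV)
  have hGN : G ∈ N := mem_of_commute fun y hy => hGc y (commute_of_mem haN hy).symm
  have hGs : star G = G := (IsSelfAdjoint.of_nonneg hG0).star_eq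
  have hGn : ‖G‖ ≤ 1 := norm_le_one_of_le_one hG0 hG1
  have hGa : ∀ ξ, ‖G ξ‖ ≤ ‖ξ‖ := fun ξ => by simpa using G.le_of_opNorm_le hGn ξ
  have hr : ∀ ξ, G ξ + ((κ : ℂ) • (star V * V)) (G ξ) = ξ := fun ξ =>
    ContinuousLinearMap.ext_iff.1 hGr ξ
  have hl : ∀ ξ, G ξ + (κ : ℂ) • G ((star V) (V ξ)) = ξ := fun ξ => by
    have h1 : G (ξ + (κ : ℂ) • (star V) (V ξ)) = ξ := ContinuousLinearMap.ext_iff.1 hGl ξ
    rwa [map_add, map_smul] at h1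
  have hsq : 0 < √κ := Real.sqrt_pos.2 hκ
  have hss : √κ * √κ = κ := Real.mul_self_sqrt hκ.le
  have hT : ‖V * G‖ ≤ 1 / (2 * √κ) := by
    refine ContinuousLinearMap.opNorm_le_bound _ (by positivity) fun ξ => ?_
    have h1 := trunc_four (G ξ) (((κ : ℂ) • (star V * V)) (G ξ))
    rw [hr, trunc_re, Complex.ofReal_re] at h1
    rw [one_div, inv_mul_eq_div, le_div_iff₀ (by positivity)]
    refine abs_le_of_sq_le_sq' ?_ (norm_nonneg _) |>.2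
    change (‖V (G ξ)‖ * (2 * √κ)) ^ 2 ≤ _
    calc (‖V (G ξ)‖ * (2 * √κ)) ^ 2 = 4 * (√κ * √κ * ‖V (G ξ)‖ ^ 2) := by ring
      _ ≤ _ := by rwa [hss]
  have hTa : ∀ ξ, ‖V (G ξ)‖ ≤ 1 / (2 * √κ) * ‖ξ‖ := fun ξ => (V * G).le_of_opNorm_le hT ξ
  have hκn : ‖(κ : ℂ)‖ = κ := by rw [Complex.norm_real, Real.norm_of_nonneg hκ.le]
  have hP : ∀ ξ, ‖(κ : ℂ) • V (G ((star V) ξ))‖ ≤ ‖ξ‖ := fun ξ => by
    obtain ⟨η, hη⟩ : ∃ η, η = G ((star V) ξ) := ⟨_, rfl⟩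
    have h1 : ⟪η, (star V) ξ⟫_ℂ = ⟪η, η⟫_ℂ + ((κ * ‖V η‖ ^ 2 : ℝ) : ℂ) := by
      rw [← trunc_re, ← inner_add_right, hη, hr]
    rw [inner_star_right, inner_self_eq_norm_sq_to_K] at h1
    have h2 : (⟪V η, ξ⟫_ℂ).re = ‖η‖ ^ 2 + κ * ‖V η‖ ^ 2 := by
      rw [h1, Complex.add_re, Complex.ofReal_re]
      norm_cast
    have h3 : (⟪V η, ξ⟫_ℂ).re ≤ ‖V η‖ * ‖ξ‖ := (Complex.re_le_norm _).trans (norm_inner_le_norm _ _)
    rw [← hη, norm_smul, hκn]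
    rcases (norm_nonneg (V η)).eq_or_lt with h4 | h4
    · rw [← h4, mul_zero]
      exact norm_nonneg _
    · refine le_of_mul_le_mul_left ?_ h4
      nlinarith [sq_nonneg ‖η‖]
  have hC0 : 0 ≤ C := (norm_nonneg _).trans hC
  have hδ0 : 0 ≤ δ := (norm_nonneg _).trans hc
  have hC' : ‖(star V) (W Ω)‖ ≤ C := hC
  refine ⟨V * G, mul_mem hV hGN, hT, ?_, ?_, ?_⟩
  · have h1 := cm_mul hJ hGN (add_mem (one_mem N) haN) Ω
    rw [hGl, cm_one hJ.invol, cm_add, cm_one hJ.invol, zero_add, cm_smul, cm_mul hJ hVs hV] at h1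
    have h2 := congrArg (rm J G) h1
    have h3 : ∀ ξ, rm J G (rm J (1 + (κ : ℂ) • (star V * V)) ξ) = ξ := fun ξ => by
      have h4 := rm_mul (J := J) hJ.invol (1 + (κ : ℂ) • (star V * V)) G
      rw [hGr, rm_one hJ.invol] at h4
      exact (ContinuousLinearMap.ext_iff.1 h4 ξ).symm
    rw [map_zero, map_add, h3] at h2
    have h5 : cm J G Ω = -rm J G (G ((κ : ℂ) • ((star V) (cm J V Ω) + rm J V (cm J (star V) Ω)))) :=
      eq_neg_of_add_eq_zero_right h2.symm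
    have h6 : ∀ ξ, rm J G (rm J V ξ) = rm J (V * G) ξ := fun ξ => by
      rw [rm_mul hJ.invol]; rfl
    have h7 : cm J (V * G) Ω = rm J G (cm J V Ω)
        - (κ : ℂ) • V (G ((star V) (rm J G (cm J V Ω))))
        - (κ : ℂ) • V (G (rm J (V * G) (cm J (star V) Ω))) := by
      rw [cm_mul hJ hV hGN, h5, ← hJ.comm_apply hGN hGN]
      simp only [map_add, map_smul, map_neg]
      rw [h6, ← hJ.comm_apply hVs hGN]
      module
    have h8 : ‖rm J G (cm J V Ω)‖ ≤ ‖cm J V Ω‖ := by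
      simpa using (rm J G).le_of_opNorm_le ((norm_rm G).trans_le hGn) (cm J V Ω)
    have h9 : ‖cm J (star V) Ω‖ = ‖cm J V Ω‖ := by
      rw [cm_star hJ.invol hΩ, norm_neg, J.norm_map]
    have h10 := (rm J (V * G)).le_of_opNorm_le ((norm_rm _).trans_le hT) (cm J (star V) Ω)
    have h11 : ‖(κ : ℂ) • V (G (rm J (V * G) (cm J (star V) Ω)))‖ ≤ 1 / 4 * ‖cm J V Ω‖ := by
      rw [norm_smul, hκn, ← h9]
      calc κ * ‖V (G (rm J (V * G) (cm J (star V) Ω)))‖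
          ≤ κ * (1 / (2 * √κ) * (1 / (2 * √κ) * ‖cm J (star V) Ω‖)) :=
            mul_le_mul_of_nonneg_left ((hTa _).trans
              (mul_le_mul_of_nonneg_left h10 (by positivity))) hκ.le
        _ = _ := by
            nth_rewrite 1 [← hss]
            field_simp
            ring
    have h12 := (hP (rm J G (cm J V Ω))).trans h8
    rw [h7]
    refine (norm_sub_le _ _).trans ?_
    linarith [norm_sub_le (rm J G (cm J V Ω)) ((κ : ℂ) • V (G ((star V) (rm J G (cm J V Ω)))))]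
  · have h1 : V Ω - (V * G) Ω = (κ : ℂ) • V (G ((star V) (V Ω))) := by
      change V Ω - V (G Ω) = _
      rw [← map_smul, ← map_sub, sub_eq_of_eq_add' (hl Ω).symm]
    have h2 : (κ : ℂ) • V (G ((star V) (V Ω)))
        = (κ : ℂ) • V (G ((star V) (V Ω - W Ω))) + (κ : ℂ) • V (G ((star V) (W Ω))) := by
      simp only [map_sub, smul_sub, sub_add_cancel]
    have h3 : ‖(κ : ℂ) • V (G ((star V) (W Ω)))‖ ≤ √κ * C := by
      rw [norm_smul, hκn]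
      calc κ * ‖V (G ((star V) (W Ω)))‖ ≤ κ * (1 / (2 * √κ) * C) :=
            mul_le_mul_of_nonneg_left ((hTa _).trans
              (mul_le_mul_of_nonneg_left hC' (by positivity))) hκ.le
        _ = √κ * C / 2 := by
            nth_rewrite 1 [← hss]
            field_simp
        _ ≤ _ := half_le_self (by positivity)
    have h4 : ‖(κ : ℂ) • V (G ((star V) (V Ω)))‖ ≤ √κ * C + δ := by
      rw [h2]
      refine (norm_add_le _ _).trans ?_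
      linarith [(hP (V Ω - W Ω)).trans hc]
    rw [h1, sq]
    exact mul_le_mul h4 (hP _) (norm_nonneg _) (by positivity)
  · have h1 : star V * V * G = G * (star V * V) := hGc _ (by rw [mul_smul_comm, smul_mul_assoc])
    have h2 : (star (V * G) * (V * G)) Ω
        = G ((star (V * G)) (V Ω - W Ω) + G ((star V) (W Ω))) := by
      have h3 : star (V * G) * (V * G) = G * (G * (star V * V)) := by
        rw [star_mul, hGs, ← h1]
        simp only [mul_assoc]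
      rw [h3, star_mul, hGs]
      change G (G ((star V) (V Ω))) = G (G ((star V) (V Ω - W Ω)) + G ((star V) (W Ω)))
      simp only [map_sub, sub_add_cancel]
    have h4 := (star (V * G)).le_of_opNorm_le ((norm_star _).trans_le hT) (V Ω - W Ω)
    have h5 : 1 / (2 * √κ) * ‖V Ω - W Ω‖ ≤ δ / (2 * √κ) := by
      rw [one_div, inv_mul_eq_div]
      exact div_le_div_of_nonneg_right hc (by positivity)
    rw [h2]
    refine (hGa _).trans ((norm_add_le _ _).trans ?_)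
    linarith [(hGa ((star V) (W Ω))).trans hC']

/-- abstract form of the key estimate -/
theorem trunc_estimate (hJ : StdJ N J) {Z T Y : H →L[ℂ] H} (hZ : Z ∈ N) (hsa : IsSelfAdjoint Z)
    (hT : T ∈ N) (hY : Y ∈ N.commutant) (Ω α : H) :
    ‖⟪α, Z (rm J Z α)⟫_ℂ - ⟪α, Y α⟫_ℂ‖ ≤
      (‖Z‖ ^ 2 + ‖Y‖) * (‖α‖ + ‖T Ω‖) * ‖α - T Ω‖ + ‖Z‖ * ‖T Ω‖ * ‖(Z * T - T * Z) Ω‖ +
        ‖(star T * T) Ω‖ * ‖Z (rm J Z Ω) - Y Ω‖ := by
  obtain ⟨B, hB⟩ : ∃ B : H →L[ℂ] H, B = Z * rm J Z - Y := ⟨_, rfl⟩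
  have hBa : ∀ ξ, B ξ = Z (rm J Z ξ) - Y ξ := fun ξ => by rw [hB]; rfl
  have hBn : ‖B‖ ≤ ‖Z‖ ^ 2 + ‖Y‖ := by
    rw [hB]
    refine (norm_sub_le _ _).trans (add_le_add_left ((norm_mul_le _ _).trans ?_) _)
    rw [norm_rm, sq]
  have h1 : B (T Ω) = rm J Z ((Z * T - T * Z) Ω) + T (Z (rm J Z Ω) - Y Ω) := by
    change _ = rm J Z (Z (T Ω) - T (Z Ω)) + _
    rw [hBa, map_sub, map_sub, commute_apply hT hY, hJ.comm_apply hZ hZ, hJ.comm_apply hZ hZ,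
      hJ.comm_apply hT hZ]
    abel
  have h2 : ⟪α, Z (rm J Z α)⟫_ℂ - ⟪α, Y α⟫_ℂ = ⟪α - T Ω, B α⟫_ℂ + ⟪T Ω, B (α - T Ω)⟫_ℂ
      + ⟪T Ω, rm J Z ((Z * T - T * Z) Ω)⟫_ℂ + ⟪(star T * T) Ω, Z (rm J Z Ω) - Y Ω⟫_ℂ := by
    have h3 : ⟪(star T * T) Ω, Z (rm J Z Ω) - Y Ω⟫_ℂ = ⟪T Ω, T (Z (rm J Z Ω) - Y Ω)⟫_ℂ :=
      inner_star_left T _ _
    rw [← inner_sub_right, ← hBa, h3, add_assoc, ← inner_add_right, ← h1, map_sub, inner_sub_left,
      inner_sub_right]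
    ring
  have h4 : ‖⟪α - T Ω, B α⟫_ℂ‖ ≤ ‖α - T Ω‖ * ((‖Z‖ ^ 2 + ‖Y‖) * ‖α‖) :=
    (norm_inner_le_norm _ _).trans
      (mul_le_mul_of_nonneg_left (B.le_of_opNorm_le hBn _) (norm_nonneg _))
  have h5 : ‖⟪T Ω, B (α - T Ω)⟫_ℂ‖ ≤ ‖T Ω‖ * ((‖Z‖ ^ 2 + ‖Y‖) * ‖α - T Ω‖) :=
    (norm_inner_le_norm _ _).trans
      (mul_le_mul_of_nonneg_left (B.le_of_opNorm_le hBn _) (norm_nonneg _))
  have h6 : ‖⟪T Ω, rm J Z ((Z * T - T * Z) Ω)⟫_ℂ‖ ≤ ‖T Ω‖ * (‖Z‖ * ‖(Z * T - T * Z) Ω‖) :=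
    (norm_inner_le_norm _ _).trans
      (mul_le_mul_of_nonneg_left ((rm J Z).le_of_opNorm_le (norm_rm Z).le _) (norm_nonneg _))
  have h7 := norm_inner_le_norm (𝕜 := ℂ) ((star T * T) Ω) (Z (rm J Z Ω) - Y Ω)
  rw [h2]
  refine (norm_add_le _ _).trans (add_le_add ((norm_add_le _ _).trans
    (add_le_add ((norm_add_le _ _).trans ?_) ?_)) h7)
  · linarith
  · linarith

end Pool.Agent.P.MP_5d580a_an
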