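import Pool.Agent.P.MP_5d580a_an.DisjB
import Pool.Agent.P.MP_5d580a_an.Face
import Pool.Agent.P.MP_5d580a_an.Kap

open scoped ComplexOrder InnerProductSpace ComplexConjugate BoundedContinuousFunction
open MeasureTheory Filter Topology

set_option linter.unusedSectionVars false
set_option linter.unusedVariables false

noncomputable section

namespace Pool.Agent.P.MP_5d580a_an

variable {H : Type} [NormedAddCommGroup H] [InnerProductSpace ℂ H] [CompleteSpace H]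

variable {A B : Type} [CStarAlgebra A] [CStarAlgebra B] {ι : A →⋆ₐ[ℂ] B}

/-- independence of the choice of the bimodule map -/
theorem two1_indep {π : A →⋆ₐ[ℂ] (H →L[ℂ] H)} {Ψ Ψ' : B →L[ℂ] (H →L[ℂ] H)} (h : IsW ι π Ψ)
    (h' : IsW ι π Ψ') {f : H →L[ℂ] H} {γ : H} (hf : IsStarProjection f)
    (hs : ∀ x ∈ cmt π, x γ = 0 → x * f = 0) (e : vfL Ψ γ = vfL Ψ' γ) {η : H} (hη : f η = η) :
    vfL Ψ η = vfL Ψ' η := by
  ext b
  have key : ∀ T : H →L[ℂ] H, ⟪η, T η⟫_ℂ = ⟪η, (f * T * f) η⟫_ℂ := by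
    intro T
    have h1 : (f * T * f) η = (star f) (T η) := by
      rw [hf.isSelfAdjoint.star_eq]
      simp only [mul_apply_eq_comp, hη]
    rw [h1, inner_star_right, hη]
  rw [vfL_apply, vfL_apply, key (Ψ b), key (Ψ' b), h.corner_eq h' e hf hs b]

/-- conjugation by a unitary of the commutant -/
theorem two1_conj {π : A →⋆ₐ[ℂ] (H →L[ℂ] H)} {Ψ : B →L[ℂ] (H →L[ℂ] H)} (h : IsW ι π Ψ)
    {u : H →L[ℂ] H} (hu : u ∈ cmt π) (h1 : star u * u = 1) :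
    ∃ Ψ' : B →L[ℂ] (H →L[ℂ] H), IsW ι π Ψ' ∧ (∀ b, Ψ' b = star u * Ψ b * u) ∧
      ∀ η, vfL Ψ' η = vfL Ψ (u η) := by
  obtain ⟨Ψ', hW, hΨ⟩ := h.conj hu h1
  refine ⟨Ψ', hW, hΨ, fun η => ?_⟩
  ext b
  rw [vfL_apply, vfL_apply, hΨ b]
  simp only [mul_apply_eq_comp]
  rw [inner_star_right]

/-- uniform approximation of the action by an inner map -/
theorem two1_approx {π : A →⋆ₐ[ℂ] (H →L[ℂ] H)} {γ η : H} (hη : ‖η‖ ≤ ‖γ‖) {y : H →L[ℂ] H}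
    (hy : y ∈ (cmt π).commutant) (hn : ‖y‖ ≤ 1) (he : η = y γ) {ε : ℝ} (hε : 0 < ε) :
    ∃ a : A, ‖a‖ ≤ 1 ∧ ∀ Ψ : B →L[ℂ] (H →L[ℂ] H), IsW ι π Ψ → ∀ b : B,
      ‖vfL Ψ η b - vfL Ψ γ (star (ι a) * b * ι a)‖ ≤ ε * ‖b‖ := by
  have hpos : 0 < 2 * ‖γ‖ + 1 := by positivity
  obtain ⟨a, ha, hae⟩ := kaplansky π hy hn γ (div_pos hε hpos)
  refine ⟨a, ha, fun Ψ hΨ b => ?_⟩
  rw [hΨ.bimod γ a a b, ← vfL_apply Ψ (π a γ) b, ← sub_apply]
  refine ((vfL Ψ η - vfL Ψ (π a γ)).le_opNorm b).trans ?_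
  refine mul_le_mul_of_nonneg_right ?_ (norm_nonneg b)
  refine (norm_vfL_sub_le hΨ.norm_le η (π a γ)).trans ?_
  have h1 : ‖π a γ‖ ≤ ‖γ‖ := by
    refine ((π a).le_opNorm γ).trans ?_
    have h2 : ‖π a‖ ≤ 1 := (NonUnitalStarAlgHom.norm_apply_le π a).trans ha
    exact mul_le_of_le_one_left (norm_nonneg γ) h2
  have h3 : ‖η - π a γ‖ ≤ ε / (2 * ‖γ‖ + 1) := by
    rw [norm_sub_rev, he]
    exact hae
  calc (‖η‖ + ‖π a γ‖) * ‖η - π a γ‖ ≤ (2 * ‖γ‖ + 1) * (ε / (2 * ‖γ‖ + 1)) := by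
        refine mul_le_mul (by linarith) h3 (norm_nonneg _) hpos.le
    _ = ε := by field_simp

theorem two1_norm_inner {a : A} (ha : ‖a‖ ≤ 1) (b : B) : ‖star (ι a) * b * ι a‖ ≤ ‖b‖ := by
  have h1 : ‖ι a‖ ≤ 1 := (NonUnitalStarAlgHom.norm_apply_le ι a).trans ha
  have h2 : ‖star (ι a)‖ ≤ 1 := by rwa [norm_star]
  calc ‖star (ι a) * b * ι a‖ ≤ ‖star (ι a) * b‖ * ‖ι a‖ := norm_mul_le _ _
    _ ≤ ‖star (ι a) * b‖ := mul_le_of_le_one_right (norm_nonneg _) h1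
    _ ≤ ‖star (ι a)‖ * ‖b‖ := norm_mul_le _ _
    _ ≤ ‖b‖ := mul_le_of_le_one_left (norm_nonneg _) h2

/-- the fixed point step -/
theorem exists_fixed_W {π : A →⋆ₐ[ℂ] (H →L[ℂ] H)} {Ψ₀ : B →L[ℂ] (H →L[ℂ] H)} (h₀ : IsW ι π Ψ₀)
    {f : H →L[ℂ] H} {γ : H} {G N : Set (H →L[ℂ] H)} (h2 : CaseTwo (cmt π) f γ G N)
    (hs : TopologicalSpace.IsSeparable (Ext ι (vf π γ))) :
    ∃ Ψ : B →L[ℂ] (H →L[ℂ] H), IsW ι π Ψ ∧
      ∀ b, ∀ u ∈ G, (f * Ψ b * f) * u = u * (f * Ψ b * f) := by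
  have hch : ∀ θ : B →L[ℂ] ℂ, ∃ Ψ : B →L[ℂ] (H →L[ℂ] H),
      θ ∈ Ext ι (vf π γ) → IsW ι π Ψ ∧ vfL Ψ γ = θ := by
    intro θ
    by_cases hθ : θ ∈ Ext ι (vf π γ)
    · obtain ⟨Ψ, hΨ⟩ := exists_isW h₀ hθ
      exact ⟨Ψ, fun _ => hΨ⟩
    · exact ⟨Ψ₀, fun h => absurd h hθ⟩
  choose W hW using hch
  have hmem : ∀ u ∈ G, u ∈ cmt π := fun u hu => (h2.G_mem u hu).1
  have hsu : ∀ u ∈ G, star u * u = 1 := fun u hu => (h2.G_mem u hu).2.1.1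
  have hus : ∀ u ∈ G, u * star u = 1 := fun u hu => (h2.G_mem u hu).2.1.2
  have hfu : ∀ u ∈ G, f (u γ) = u γ := by
    intro u hu
    have h1 := congrArg (fun T : H →L[ℂ] H => T γ) (h2.G_mem u hu).2.2.1
    simp only [mul_apply_eq_comp, h2.f_fix] at h1
    exact h1.symm
  let act : G → (B →L[ℂ] ℂ) → (B →L[ℂ] ℂ) := fun u θ => vfL (W θ) (u.1 γ)
  have hact : ∀ (u : G) θ, act u θ = vfL (W θ) (u.1 γ) := fun _ _ => rfl
  have hmap : ∀ u : G, ∀ θ ∈ Ext ι (vf π γ), act u θ ∈ Ext ι (vf π γ) := by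
    intro u θ hθ
    obtain ⟨Ψ', hΨ', -, he⟩ := two1_conj (hW θ hθ).1 (hmem u.1 u.2) (hsu u.1 u.2)
    rw [hact, ← he γ]
    exact hΨ'.mem_ext γ
  have happ : ∀ (u : G) (ε : ℝ), 0 < ε → ∃ a : A, ‖a‖ ≤ 1 ∧ ∀ θ ∈ Ext ι (vf π γ), ∀ b : B,
      ‖act u θ b - θ (star (ι a) * b * ι a)‖ ≤ ε * ‖b‖ := by
    intro u ε hε
    obtain ⟨y, hy, hn, he⟩ := (h2.G_mem u.1 u.2).2.2.2
    obtain ⟨a, ha, hb⟩ := two1_approx (ι := ι) (iso_norm_apply (hsu u.1 u.2) γ).le hy hn he hε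
    refine ⟨a, ha, fun θ hθ b => ?_⟩
    have h1 := hb (W θ) (hW θ hθ).1 b
    rwa [(hW θ hθ).2] at h1
  have hcomp : ∀ u v : G, ∀ θ ∈ Ext ι (vf π γ),
      act u (act v θ) = vfL (W θ) ((v.1 * u.1) γ) := by
    intro u v θ hθ
    obtain ⟨Ψ', hΨ', -, he⟩ := two1_conj (hW θ hθ).1 (hmem v.1 v.2) (hsu v.1 v.2)
    have h1 := hW _ (hmap v θ hθ)
    rw [hact u, two1_indep h1.1 hΨ' h2.f_proj h2.f_sep (by rw [h1.2, he γ]) (hfu u.1 u.2), he]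
    rfl
  have hcont : ∀ u : G, WCont (Ext ι (vf π γ)) (act u) := by
    intro u θ hθ b ε hε
    have hpos : 0 < 3 * (‖b‖ + 1) := by positivity
    obtain ⟨a, ha, hb⟩ := happ u (ε / (3 * (‖b‖ + 1))) (div_pos hε hpos)
    refine ⟨{star (ι a) * b * ι a}, ε / 3, by positivity, fun θ' hθ' hn => ?_⟩
    have h1 := hn _ (Finset.mem_singleton_self _)
    have h3 := hb θ hθ b
    have h4 := hb θ' hθ' b
    have h5 : ε / (3 * (‖b‖ + 1)) * ‖b‖ ≤ ε / 3 := by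
      rw [div_mul_eq_mul_div, div_le_div_iff₀ hpos (by norm_num)]
      nlinarith [norm_nonneg b]
    have h6 : act u θ' b - act u θ b = (act u θ' b - θ' (star (ι a) * b * ι a)) +
        (θ' (star (ι a) * b * ι a) - θ (star (ι a) * b * ι a)) -
        (act u θ b - θ (star (ι a) * b * ι a)) := by ring
    rw [h6]
    refine (norm_sub_le _ _).trans_lt ?_
    have h7 := norm_add_le (act u θ' b - θ' (star (ι a) * b * ι a))
      (θ' (star (ι a) * b * ι a) - θ (star (ι a) * b * ι a))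
    linarith
  have hne : ∀ u : G, ∀ θ ∈ Ext ι (vf π γ), ∀ θ' ∈ Ext ι (vf π γ),
      ‖act u θ - act u θ'‖ ≤ ‖θ - θ'‖ := by
    intro u θ hθ θ' hθ'
    refine le_of_forall_pos_le_add fun ε hε => ?_
    obtain ⟨a, ha, hb⟩ := happ u (ε / 2) (half_pos hε)
    refine ContinuousLinearMap.opNorm_le_bound _ (by positivity) fun b => ?_
    have h3 := hb θ hθ b
    have h4 := hb θ' hθ' b
    have h5 : ‖θ (star (ι a) * b * ι a) - θ' (star (ι a) * b * ι a)‖ ≤ ‖θ - θ'‖ * ‖b‖ := by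
      rw [← sub_apply]
      exact ((θ - θ').le_opNorm _).trans
        (mul_le_mul_of_nonneg_left (two1_norm_inner ha b) (norm_nonneg _))
    have h6 : (act u θ - act u θ') b = (act u θ b - θ (star (ι a) * b * ι a)) +
        (θ (star (ι a) * b * ι a) - θ' (star (ι a) * b * ι a)) -
        (act u θ' b - θ' (star (ι a) * b * ι a)) := by
      rw [sub_apply]
      ring
    rw [h6]
    refine (norm_sub_le _ _).trans ?_
    have h7 := norm_add_le (act u θ b - θ (star (ι a) * b * ι a))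
      (θ (star (ι a) * b * ι a) - θ' (star (ι a) * b * ι a))
    linarith
  obtain ⟨θ, hθ, hfix⟩ := fixed_point (wclosed_ext ι (vf π γ)) (vf π γ 1).re
    (fun θ hθ => ext_norm_le hθ) ⟨_, h₀.mem_ext γ⟩ (convex_ext ι _) hs act hmap hcont hne
    (fun g g' => ⟨⟨g'.1 * g.1, h2.G_mul _ g'.2 _ g.2⟩, fun θ hθ => (hcomp g g' θ hθ).symm⟩)
    (fun g => ⟨⟨star g.1, h2.G_star _ g.2⟩, fun θ hθ => by
      rw [hcomp _ _ θ hθ, hcomp _ _ θ hθ]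
      simp only [hsu g.1 g.2, hus g.1 g.2, one_apply_eq_self, (hW θ hθ).2, and_self]⟩)
  refine ⟨W θ, (hW θ hθ).1, fun b u hu => ?_⟩
  obtain ⟨Ψ', hΨ', hf, he⟩ := two1_conj (hW θ hθ).1 (hmem u hu) (hsu u hu)
  have h1 : vfL Ψ' γ = vfL (W θ) γ := by
    rw [he γ, (hW θ hθ).2]
    exact hfix ⟨u, hu⟩
  have h3 := hΨ'.corner_eq (hW θ hθ).1 h1 h2.f_proj h2.f_sep b
  have h4 := (h2.G_mem u hu).2.2.1
  rw [hf b] at h3
  calc f * W θ b * f * u = f * (u * star u) * W θ b * (u * f) := by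
        rw [hus u hu, h4, mul_one, mul_assoc]
    _ = (f * u) * star u * W θ b * u * f := by simp only [mul_assoc]
    _ = u * (f * (star u * W θ b * u) * f) := by rw [← h4]; simp only [mul_assoc]
    _ = u * (f * W θ b * f) := by rw [h3]

end Pool.Agent.P.MP_5d580a_an
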