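import Pool.Agent.P.MP_5d580a_an.Main

open scoped ComplexOrder

noncomputable section

namespace Pool.Agent.P.MP_5d580a_an

theorem wrap_countable {B : Type} [Monoid B] {s : Set B} (hs : s.Countable) :
    (Submonoid.closure s : Set B).Countable := by
  have := hs.to_subtype
  refine (Set.countable_range fun l : List s => (l.map Subtype.val).prod).mono ?_
  intro x hx
  obtain ⟨l, hl, rfl⟩ := Submonoid.exists_list_of_mem_closure hx
  refine ⟨l.attach.map fun y => ⟨y.1, hl y.1 y.2⟩, ?_⟩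
  simp [List.map_map, Function.comp_def]

theorem wrap_separable {B : Type} [CStarAlgebra B] {s : Set B} (hs : s.Countable) :
    TopologicalSpace.IsSeparable ((StarAlgebra.adjoin ℂ s).topologicalClosure : Set B) := by
  have h1 : (s ∪ star s).Countable := by
    refine hs.union ?_
    rw [← Set.image_star]
    exact hs.image _
  have h2 : TopologicalSpace.IsSeparable
      (Submodule.span ℂ (Submonoid.closure (s ∪ star s) : Set B) : Set B) :=
    (wrap_countable h1).isSeparable.span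
  rw [← StarAlgebra.adjoin_eq_span] at h2
  exact h2.closure

/-- the separation hypothesis in the form used in the proof -/
theorem wrap_pm {B : Type} [CStarAlgebra B] (A : StarSubalgebra ℂ B)
    (h : ∀ φ ψ : B →L[ℂ] ℂ,
      φ ∈ insert (0 : B →L[ℂ] ℂ)
        (Set.extremePoints ℝ {f : B →L[ℂ] ℂ | (∀ x : B, 0 ≤ f (star x * x)) ∧ ‖f‖ = 1}) →
      ψ ∈ insert (0 : B →L[ℂ] ℂ)
        (Set.extremePoints ℝ {f : B →L[ℂ] ℂ | (∀ x : B, 0 ≤ f (star x * x)) ∧ ‖f‖ = 1}) →
      φ ≠ ψ → ∃ a ∈ A, φ a ≠ ψ a)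
    {φ ψ : B →L[ℂ] ℂ} (hφ : PM φ) (hψ : PM ψ) (he : ∀ a ∈ A, φ a = ψ a) : φ = ψ := by
  have h1 : φ 1 = ψ 1 := he 1 A.one_mem
  by_cases h0 : φ = 0
  · have : (ψ 1).re ≤ 0 := by rw [← h1, h0]; simp
    rw [h0, hψ.1.eq_zero this]
  have hm := hφ.1.one_pos h0
  set s : ℝ := ((φ 1).re)⁻¹ with hs
  have hs0 : 0 < s := inv_pos.2 hm
  have n1 : ‖(s : ℂ) • φ‖ = 1 := by
    rw [(hφ.smul hs0.le).1.norm_eq]
    simp only [smul_apply, smul_eq_mul, Complex.re_ofReal_mul]
    exact inv_mul_cancel₀ hm.ne'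
  have n2 : ‖(s : ℂ) • ψ‖ = 1 := by
    rw [(hψ.smul hs0.le).1.norm_eq]
    simp only [smul_apply, smul_eq_mul, Complex.re_ofReal_mul]
    rw [← h1]
    exact inv_mul_cancel₀ hm.ne'
  have key : (s : ℂ) • φ = (s : ℂ) • ψ := by
    by_contra hne
    obtain ⟨a, ha, hh⟩ := h _ _ (Or.inr ((pm_iff_extreme n1).2 (hφ.smul hs0.le)))
      (Or.inr ((pm_iff_extreme n2).2 (hψ.smul hs0.le))) hne
    apply hh
    simp only [smul_apply, he a ha]
  ext c
  have := congrArg (fun f : B →L[ℂ] ℂ => f c) key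
  simp only [smul_apply, smul_eq_mul] at this
  exact mul_left_cancel₀ (Complex.ofReal_ne_zero.2 hs0.ne') this

theorem stone_weierstrass (B : Type) [CStarAlgebra B] (A : StarSubalgebra ℂ B)
    (hA : IsClosed (A : Set B)) (hsep : TopologicalSpace.IsSeparable (A : Set B))
    (h : ∀ φ ψ : B →L[ℂ] ℂ,
      φ ∈ insert (0 : B →L[ℂ] ℂ)
        (Set.extremePoints ℝ {f : B →L[ℂ] ℂ | (∀ x : B, 0 ≤ f (star x * x)) ∧ ‖f‖ = 1}) →
      ψ ∈ insert (0 : B →L[ℂ] ℂ)
        (Set.extremePoints ℝ {f : B →L[ℂ] ℂ | (∀ x : B, 0 ≤ f (star x * x)) ∧ ‖f‖ = 1}) →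
      φ ≠ ψ → ∃ a ∈ A, φ a ≠ ψ a) : A = ⊤ := by
  rw [eq_top_iff]
  intro b _
  obtain ⟨c, hc, hAc⟩ := hsep
  let B₀ : StarSubalgebra ℂ B := (StarAlgebra.adjoin ℂ (insert b c)).topologicalClosure
  have hB₀ : IsClosed (B₀ : Set B) := StarSubalgebra.isClosed_topologicalClosure _
  have hsub : (insert b c : Set B) ⊆ B₀ := fun x hx =>
    StarSubalgebra.le_topologicalClosure _ (StarAlgebra.subset_adjoin ℂ _ hx)
  have hle : A ≤ B₀ := fun x hx =>
    closure_minimal ((Set.subset_insert b c).trans hsub) hB₀ (hAc hx)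
  have s1 : TopologicalSpace.SeparableSpace A :=
    TopologicalSpace.IsSeparable.separableSpace ⟨c, hc, hAc⟩
  have s2 : TopologicalSpace.SeparableSpace B₀ := (wrap_separable (hc.insert b)).separableSpace
  let ι : A →⋆ₐ[ℂ] B₀ := StarSubalgebra.inclusion hle
  have hι : Function.Injective ι := StarSubalgebra.inclusion_injective hle
  have hS : SepP ι := by
    intro φ ψ hφ hψ he
    have hj : Function.Injective B₀.subtype := Subtype.val_injective
    obtain ⟨φ', h1, h2⟩ := exists_pm_ext hj hφ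
    obtain ⟨ψ', h3, h4⟩ := exists_pm_ext hj hψ
    have : φ' = ψ' := by
      refine wrap_pm A h h2 h4 fun a ha => ?_
      have e1 : φ' a = res ι φ ⟨a, ha⟩ := by rw [← h1.2]; rfl
      have e2 : ψ' a = res ι ψ ⟨a, ha⟩ := by rw [← h3.2]; rfl
      rw [e1, e2, he]
    rw [← h1.2, ← h3.2, this]
  obtain ⟨a, ha⟩ := surjective_of_sep hι hS ⟨b, hsub (Set.mem_insert b c)⟩
  have : (a : B) = b := congrArg Subtype.val ha
  rw [← this]
  exact a.2

end Pool.Agent.P.MP_5d580a_an
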